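import Pool.Agent.TF4.Asm

/-!
# 2F({4}) in P: the statement and the parsing of the input

`inP_of`: if `dec n E` decides, in polynomial time, whether the graph with the vertices `0, ..., n - 1` and the edges
`E` (pairs `(u, v)` with `u < v < n`, without repetition) has a 2-factor without 4-cycles, then 2F({4}) is in P.
-/

set_option autoImplicit false

namespace Pool.Agent.PF4

open TF4 Pool.Agent.Lib.helper60

/-- the edges `(u, v)`, `u < v < n`, of the graph of a bit string -/
def edg (n : ℕ) (w : List Bool) : List (ℕ × ℕ) :=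
  (List.range n).flatMap fun v => ((List.range v).filter fun u => bit n w u v).map fun u => (u, v)

theorem mem_edg {n : ℕ} {w : List Bool} {u v : ℕ} : (u, v) ∈ edg n w ↔ u < v ∧ v < n ∧ bit n w u v = true := by
  simp only [edg, List.mem_flatMap, List.mem_range, List.mem_map, List.mem_filter, Prod.mk.injEq]
  constructor
  · rintro ⟨v', h1, u', ⟨h2, h3⟩, rfl, rfl⟩
    exact ⟨h2, h1, h3⟩
  · rintro ⟨h1, h2, h3⟩
    exact ⟨v, h2, u, ⟨h1, h3⟩, rfl, rfl⟩

theorem nodup_edg (n : ℕ) (w : List Bool) : (edg n w).Nodup := by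
  unfold edg
  rw [List.nodup_flatMap]
  constructor
  · intro v _
    refine List.Nodup.map ?_ (List.nodup_range.filter _)
    intro a b h
    exact (Prod.mk.inj h).1
  · refine (List.nodup_range (n := n)).pairwise_of_forall_ne ?_
    intro a _ b _ hab
    simp only [Function.onFun, List.disjoint_left, List.mem_map]
    rintro e ⟨u, _, rfl⟩ ⟨u', _, h⟩
    exact hab (Prod.mk.inj h).2.symm

theorem pt_edg {ι : Type} [DEnc ι] {n : ι → ℕ} {w : ι → List Bool} (hn : PT n) (hw : PT w) :
    PT (fun x => edg (n x) (w x)) := by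
  unfold edg
  refine PT.flatMap (g := fun y : ι × ℕ =>
    ((List.range y.2).filter fun u => bit (n y.1) (w y.1) u y.2).map fun u => (u, y.2)) (PT.range hn) ?_
  refine PT.map (g := fun z : (ι × ℕ) × ℕ => (z.2, z.1.2)) ?_ (PT.pair PT.snd PT.fst.p2)
  refine PT.filter (p := fun z : (ι × ℕ) × ℕ => bit (n z.1.1) (w z.1.1) z.2 z.1.2) (PT.range PT.snd) ?_
  exact pt_bit (hn.comp PT.fst.p1) (hw.comp PT.fst.p1) PT.snd PT.fst.p2

/-- **The frame of the polynomial algorithm.** -/
theorem inP_of {dec : ℕ → List (ℕ × ℕ) → Bool} (hpt : PT (fun x : ℕ × List (ℕ × ℕ) => dec x.1 x.2))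
    (h : ∀ (n : ℕ) (G : SimpleGraph (Fin n)) (E : List (ℕ × ℕ)), E.Nodup → (∀ e ∈ E, e.1 < e.2 ∧ e.2 < n) →
      (∀ u v : Fin n, u < v → (G.Adj u v ↔ (u.val, v.val) ∈ E)) → (dec n E = true ↔ ∃ F, IsFac G F)) :
    InP TwoF4 := by
  refine ⟨fun w => matB (side w) w && dec (side w) (edg (side w) w), ?_, ?_⟩
  · refine PT.decider (F := fun w => matB (side w) w && dec (side w) (edg (side w) w)) ?_ (fun _ => rfl)
    refine PT.band (pt_matB (pt_side PT.id) PT.id) ?_
    exact hpt.comp (PT.pair (pt_side PT.id) (pt_edg (pt_side PT.id) PT.id))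
  · intro w
    rw [code_iff, Bool.and_eq_true]
    refine and_congr_right fun hw => ?_
    rw [h (side w) (gr (side w) w) _ (nodup_edg _ _)]
    · rintro ⟨u, v⟩ he
      obtain ⟨h1, h2, _⟩ := mem_edg.1 he
      exact ⟨h1, h2⟩
    · intro u v huv
      rw [mem_edg]
      simp only [matB, Bool.and_eq_true, decide_eq_true_eq, List.all_eq_true, List.mem_range,
        Bool.not_eq_true'] at hw
      constructor
      · intro hadj
        exact ⟨huv, v.2, hadj.1⟩
      · rintro ⟨_, _, h3⟩
        refine ⟨h3, ?_, ne_of_lt huv⟩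
        rw [← (hw.2 u.val u.2).2 v.val v.2]
        exact h3

end Pool.Agent.PF4
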