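import Pool.Agent.PF4.SX
import Pool.Agent.PF4.InP

/-!
The final assembly: 2F({4}) is in P if there are functions `solver` and `xf` as in `SX`.
-/

set_option autoImplicit false

namespace Pool.Agent.PF4

open Finset Pool.Agent.TFC Pool.Agent.Lib.helper60 TF4

section
variable {n : ℕ}

theorem ncard_adj {F : SimpleGraph (Fin n)} {z : Finset (Sym2 ℕ)}
    (h : ∀ u v : Fin n, F.Adj u v ↔ s(u.val, v.val) ∈ z) (hz : ∀ e ∈ z, ∀ v ∈ e, v < n) (v : Fin n) :
    {u | F.Adj v u}.ncard = dg z v.val := by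
  have hinj : Function.Injective (fun u : Fin n => s(v.val, u.val)) := fun a b hab =>
    Fin.ext (Sym2.congr_right.mp hab)
  rw [← Set.ncard_image_of_injective _ hinj]
  have he : (fun u : Fin n => s(v.val, u.val)) '' {u | F.Adj v u} =
      ((z.filter (fun e => v.val ∈ e) : Finset (Sym2 ℕ)) : Set (Sym2 ℕ)) := by
    ext e
    simp only [Set.mem_image, Set.mem_ofPred_eq, coe_filter]
    constructor
    · rintro ⟨u, hu, rfl⟩
      exact ⟨(h v u).mp hu, Sym2.mem_mk_left _ _⟩
    · rintro ⟨he, hv⟩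
      obtain ⟨u, rfl⟩ := hv
      have hu : u < n := hz _ he u (Sym2.mem_mk_right _ _)
      exact ⟨⟨u, hu⟩, (h v ⟨u, hu⟩).mpr he, rfl⟩
  rw [he, Set.ncard_coe_finset]
  rfl

variable {G : SimpleGraph (Fin n)} {E : List (ℕ × ℕ)}

theorem insWF_of (hE : E.Nodup) (h1 : ∀ e ∈ E, e.1 < e.2 ∧ e.2 < n) : InsWF (n, E) := by
  refine ⟨?_, ?_, ?_⟩
  · show (E.map fe).Nodup
    refine hE.map_on ?_
    rintro ⟨a, b⟩ he ⟨a', b'⟩ hf h
    have k1 := h1 _ he
    have k2 := h1 _ hf
    simp only at k1 k2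
    unfold fe at h
    simp only [Sym2.eq_iff] at h
    rcases h with ⟨rfl, rfl⟩ | ⟨rfl, rfl⟩
    · rfl
    · omega
  · intro e he
    obtain ⟨f, hf, rfl⟩ := mem_fs.1 he
    have := h1 f hf
    unfold fe
    rw [Sym2.mk_isDiag_iff]
    omega
  · intro e he
    have := h1 e he
    exact ⟨by show e.1 < n; omega, this.2⟩

theorem mem_fs_E (h1 : ∀ e ∈ E, e.1 < e.2 ∧ e.2 < n)
    (h2 : ∀ u v : Fin n, u < v → (G.Adj u v ↔ (u.val, v.val) ∈ E)) (u v : Fin n) :
    s(u.val, v.val) ∈ fs E ↔ G.Adj u v := by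
  have key : ∀ u v : Fin n, u < v → (s(u.val, v.val) ∈ fs E ↔ G.Adj u v) := by
    intro u v huv
    rw [h2 u v huv, mem_fs]
    constructor
    · rintro ⟨⟨a, b⟩, he, h⟩
      have k := h1 _ he
      simp only at k
      unfold fe at h
      simp only [Sym2.eq_iff] at h
      have huv' : u.val < v.val := huv
      rcases h with ⟨rfl, rfl⟩ | ⟨rfl, rfl⟩
      · exact he
      · omega
    · intro h
      exact ⟨_, h, rfl⟩
  rcases lt_trichotomy u v with h | h | h
  · exact key u v h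
  · subst h
    constructor
    · intro h
      obtain ⟨f, hf, h⟩ := mem_fs.1 h
      have k := h1 f hf
      unfold fe at h
      simp only [Sym2.eq_iff] at h
      omega
    · intro h; exact absurd h (G.irrefl)
  · rw [Sym2.eq_swap, key v u h]
    exact ⟨fun h => h.symm, fun h => h.symm⟩

theorem fac_nat (hE : E.Nodup) (h1 : ∀ e ∈ E, e.1 < e.2 ∧ e.2 < n)
    (h2 : ∀ u v : Fin n, u < v → (G.Adj u v ↔ (u.val, v.val) ∈ E)) :
    (∃ L, VM (n, E) L ∧ ∀ u < n, 2 ≤ degL L u) ↔ ∃ F, IsFac G F := by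
  have hx := insWF_of hE h1
  constructor
  · rintro ⟨L, hL, hd⟩
    have hnl : NoLoop (fs L) := hL.1.m2.nl
    have hlt : ∀ e ∈ fs L, ∀ v ∈ e, v < n := fun e he v hv => hx.vlt (hL.1.sub he) hv
    let F : SimpleGraph (Fin n) :=
      { Adj := fun u v => s(u.val, v.val) ∈ fs L
        symm := ⟨fun u v h => msw h⟩
        loopless := ⟨fun u h => hnl _ h (by simp)⟩ }
    have hF : ∀ u v : Fin n, F.Adj u v ↔ s(u.val, v.val) ∈ fs L := fun _ _ => Iff.rfl
    refine ⟨F, ?_, ?_, ?_⟩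
    · intro u v h
      exact (mem_fs_E h1 h2 u v).1 (hL.1.sub h)
    · intro v
      rw [ncard_adj hF hlt v]
      have k1 := hd v.val v.2
      rw [degL_eq hL.1.wf] at k1
      exact le_antisymm (hL.1.m2.le _) k1
    · intro a b c d e1 e2 e3 e4
      by_contra hc
      push Not at hc
      have hs : Sq (fs L) a.val b.val c.val d.val :=
        ⟨fun h => hc.1 (Fin.ext h), fun h => hc.2 (Fin.ext h), e1, e2, e3, e4⟩
      obtain ⟨q, hq, e⟩ := sqG_full hx (hs.mono hL.1.sub)
      have k := hL.2 q hq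
      have k2 : sqIn L q = true := by rw [sqIn_iff, e]; exact Sq.sub hs
      rw [k] at k2; cases k2
  · rintro ⟨F, hF⟩
    classical
    let L : List Ed := E.filter fun e => decide (∃ (h : e.1 < n) (h' : e.2 < n), F.Adj ⟨e.1, h⟩ ⟨e.2, h'⟩)
    have hmem : ∀ u v : Fin n, F.Adj u v ↔ s(u.val, v.val) ∈ fs L := by
      intro u v
      constructor
      · intro h
        obtain ⟨e, he, h3⟩ := mem_fs.1 ((mem_fs_E h1 h2 u v).2 (hF.le h))
        refine mem_fs.2 ⟨e, ?_, h3⟩
        simp only [L, List.mem_filter, decide_eq_true_eq]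
        refine ⟨he, ?_⟩
        obtain ⟨a, b⟩ := e
        unfold fe at h3
        simp only [Sym2.eq_iff] at h3
        rcases h3 with ⟨rfl, rfl⟩ | ⟨rfl, rfl⟩
        · exact ⟨u.2, v.2, h⟩
        · exact ⟨v.2, u.2, h.symm⟩
      · intro h
        obtain ⟨e, he, h3⟩ := mem_fs.1 h
        simp only [L, List.mem_filter, decide_eq_true_eq] at he
        obtain ⟨_, k1, k2, k3⟩ := he
        obtain ⟨a, b⟩ := e
        unfold fe at h3
        simp only [Sym2.eq_iff] at h3
        rcases h3 with ⟨rfl, rfl⟩ | ⟨rfl, rfl⟩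
        · exact k3
        · exact k3.symm
    have hsub : fs L ⊆ fs E := by
      intro e he
      obtain ⟨f, hf, rfl⟩ := mem_fs.1 he
      exact fe_mem_fs (List.mem_filter.1 hf).1
    have hlt : ∀ e ∈ fs L, ∀ v ∈ e, v < n := fun e he v hv => hx.vlt (hsub he) hv
    have hwf : WF L := WF.filter hx.wf _
    have hdeg : ∀ v : Fin n, dg (fs L) v.val = 2 := by
      intro v
      rw [← ncard_adj hmem hlt v]
      exact hF.two v
    refine ⟨L, ⟨⟨hwf, ⟨fun e he => hx.nl e (hsub he), ?_⟩, hsub⟩, ?_⟩, ?_⟩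
    · intro v
      by_cases hv : v < n
      · exact (hdeg ⟨v, hv⟩).le
      · have : dg (fs L) v = 0 := by
          rw [dg, Finset.card_eq_zero, Finset.filter_eq_empty_iff]
          intro e he hv'
          exact hv (hlt e he v hv')
        omega
    · intro q hq
      cases hs : sqIn L q with
      | false => rfl
      | true =>
        exfalso
        rw [sqIn_iff] at hs
        have hok := sqG_ok q hq
        obtain ⟨a, b, c, d⟩ := q
        obtain ⟨⟨ha, hb, hc, hd⟩, _⟩ := mem_sqG.1 hq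
        simp only at ha hb hc hd
        have hs' : TFC.sq a b c d ⊆ fs L := hs
        have e1 : s(a, b) ∈ fs L := hs' (by simp [TFC.sq])
        have e2 : s(b, c) ∈ fs L := hs' (by simp [TFC.sq])
        have e3 : s(c, d) ∈ fs L := hs' (by simp [TFC.sq])
        have e4 : s(d, a) ∈ fs L := hs' (by simp [TFC.sq])
        rcases hF.free ⟨a, ha⟩ ⟨b, hb⟩ ⟨c, hc⟩ ⟨d, hd⟩ ((hmem _ _).2 e1) ((hmem _ _).2 e2)
          ((hmem _ _).2 e3) ((hmem _ _).2 e4) with h | h
        · exact hok.2.1 (Fin.mk.inj h)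
        · exact hok.2.2.2.2.1 (Fin.mk.inj h)
    · intro u hu
      rw [degL_eq hwf]
      exact (hdeg ⟨u, hu⟩).ge

end

/-- **2F({4}) is in P**, given `solver` and `xf`. -/
theorem inP_of_SX (A : SX) : InP TwoF4 := by
  obtain ⟨h1, h2⟩ := A.toIn.main
  refine inP_of (dec := fun n E => (A.toIn.toOut.alg (n, E)).1) (PT.p1 h1) ?_
  intro n G E hE g1 g2
  have hx : InsWF (n, E) := insWF_of hE g1
  rw [← fac_nat hE g1 g2]
  obtain ⟨k1, k2⟩ := h2 (n, E) hx
  constructor
  · intro h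
    exact ⟨_, k1 h⟩
  · intro h
    cases h3 : (A.toIn.toOut.alg (n, E)).1 with
    | true => rfl
    | false => exact absurd h (k2 h3)

end Pool.Agent.PF4
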