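import Pool.Agent.PF4.WStep
import Pool.Agent.Lib.helper60.PTLib

/-!
2-factors without 4-cycles in polynomial time: the data layer. Edge sets are lists of pairs of natural
numbers (in either orientation), `fs l` is the corresponding finite set of elements of `Sym2 ℕ`.
-/

set_option autoImplicit false

namespace Pool.Agent.PF4

open Finset Pool.Agent.TFC Pool.Agent.Lib.helper60

/-- edges -/
abbrev Ed := ℕ × ℕ

/-- squares `(a, b, c, d)` -/
abbrev Sq4 := ℕ × ℕ × ℕ × ℕ

/-- the unordered pair of an edge -/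
def fe (e : Ed) : Sym2 ℕ := s(e.1, e.2)

/-- the edge set of a list -/
def fs (l : List Ed) : Finset (Sym2 ℕ) := (l.map fe).toFinset

/-- no edge occurs twice (in whatever orientation) -/
def WF (l : List Ed) : Prop := (l.map fe).Nodup

/-- the same edge -/
def eqE (e f : Ed) : Bool :=
  (decide (e.1 = f.1) && decide (e.2 = f.2)) || (decide (e.1 = f.2) && decide (e.2 = f.1))

/-- membership -/
def hasE (l : List Ed) (e : Ed) : Bool := l.any fun f => eqE f e

/-- insertion -/
def insE (l : List Ed) (e : Ed) : List Ed := bif hasE l e then l else e :: l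

/-- deletion -/
def ersE (l : List Ed) (e : Ed) : List Ed := l.filter fun f => !eqE f e

/-- the edges of `U` which are in `l` -/
def norm (U l : List Ed) : List Ed := U.filter fun e => hasE l e

/-- the edges of `U` which are not in `l` -/
def rest (U l : List Ed) : List Ed := U.filter fun e => !hasE l e

/-- union -/
def uni (A B : List Ed) : List Ed := A ++ rest B A

/-- incidence -/
def inc (v : ℕ) (e : Ed) : Bool := decide (e.1 = v) || decide (e.2 = v)

/-- degree -/
def degL (l : List Ed) (v : ℕ) : ℕ := (l.filter fun e => inc v e).length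

/-- the square `q` is contained in `l` -/
def sqIn (l : List Ed) (q : Sq4) : Bool :=
  hasE l (q.1, q.2.1) && (hasE l (q.2.1, q.2.2.1) && (hasE l (q.2.2.1, q.2.2.2) && hasE l (q.2.2.2, q.1)))

/-- no square of `FS` is contained in `l` -/
def freeL (FS : List Sq4) (l : List Ed) : Bool := FS.all fun q => !sqIn l q

/-- the edge set of the square -/
def sqs (q : Sq4) : Finset (Sym2 ℕ) := sq q.1 q.2.1 q.2.2.1 q.2.2.2

/-- the allowed squares: those not in the list `FS` -/
def alF (FS : List Sq4) (a b c d : ℕ) : Prop := ∀ q ∈ FS, sqs q ≠ sq a b c d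

/-- four distinct corners -/
def SqOK (q : Sq4) : Prop := Dist4 q.1 q.2.1 q.2.2.1 q.2.2.2

theorem eqE_iff (e f : Ed) : eqE e f = true ↔ fe e = fe f := by
  simp only [eqE, fe, Bool.or_eq_true, Bool.and_eq_true, decide_eq_true_eq, Sym2.eq_iff]

theorem mem_fs {l : List Ed} {x : Sym2 ℕ} : x ∈ fs l ↔ ∃ e ∈ l, fe e = x := by
  simp [fs]

theorem hasE_iff (l : List Ed) (e : Ed) : hasE l e = true ↔ fe e ∈ fs l := by
  simp only [hasE, List.any_eq_true, eqE_iff, mem_fs]

theorem hasE_false (l : List Ed) (e : Ed) : hasE l e = false ↔ fe e ∉ fs l := by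
  rw [← hasE_iff, Bool.not_eq_true]

theorem fe_mem_fs {l : List Ed} {e : Ed} (h : e ∈ l) : fe e ∈ fs l := mem_fs.2 ⟨e, h, rfl⟩

theorem fs_nil : fs [] = ∅ := rfl

theorem fs_cons (e : Ed) (l : List Ed) : fs (e :: l) = insert (fe e) (fs l) := by
  simp [fs]

theorem fs_append (l l' : List Ed) : fs (l ++ l') = fs l ∪ fs l' := by
  ext x; simp [fs, or_and_right, exists_or]

theorem fs_insE (l : List Ed) (e : Ed) : fs (insE l e) = insert (fe e) (fs l) := by
  unfold insE
  cases h : hasE l e with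
  | true =>
    rw [hasE_iff] at h
    simp [Finset.insert_eq_of_mem h]
  | false => simp [fs_cons]

theorem fs_ersE (l : List Ed) (e : Ed) : fs (ersE l e) = (fs l).erase (fe e) := by
  ext x
  rw [mem_fs, Finset.mem_erase, mem_fs]
  constructor
  · rintro ⟨f, hf, rfl⟩
    rw [ersE, List.mem_filter] at hf
    refine ⟨?_, f, hf.1, rfl⟩
    intro h
    rw [(eqE_iff f e).2 h] at hf
    simp at hf
  · rintro ⟨hx, f, hf, rfl⟩
    refine ⟨f, ?_, rfl⟩
    rw [ersE, List.mem_filter]
    refine ⟨hf, ?_⟩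
    cases h : eqE f e with
    | true => exact absurd ((eqE_iff f e).1 h) hx
    | false => rfl

theorem fs_norm (U l : List Ed) : fs (norm U l) = fs U ∩ fs l := by
  ext x
  rw [mem_fs, Finset.mem_inter, mem_fs]
  constructor
  · rintro ⟨f, hf, rfl⟩
    rw [norm, List.mem_filter, hasE_iff] at hf
    exact ⟨⟨f, hf.1, rfl⟩, hf.2⟩
  · rintro ⟨⟨f, hf, rfl⟩, h⟩
    exact ⟨f, by rw [norm, List.mem_filter, hasE_iff]; exact ⟨hf, h⟩, rfl⟩

theorem fs_norm_of {U l : List Ed} (h : fs l ⊆ fs U) : fs (norm U l) = fs l := by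
  rw [fs_norm, Finset.inter_eq_right.2 h]

theorem fs_rest (U l : List Ed) : fs (rest U l) = fs U \ fs l := by
  ext x
  rw [mem_fs, Finset.mem_sdiff, mem_fs]
  constructor
  · rintro ⟨f, hf, rfl⟩
    rw [rest, List.mem_filter] at hf
    refine ⟨⟨f, hf.1, rfl⟩, ?_⟩
    rw [← hasE_false]
    simpa using hf.2
  · rintro ⟨⟨f, hf, rfl⟩, h⟩
    refine ⟨f, ?_, rfl⟩
    rw [rest, List.mem_filter]
    refine ⟨hf, ?_⟩
    rw [← hasE_false] at h
    simp [h]

theorem fs_uni (A B : List Ed) : fs (uni A B) = fs A ∪ fs B := by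
  rw [uni, fs_append, fs_rest, Finset.union_sdiff_self_eq_union]

theorem WF.filter {l : List Ed} (h : WF l) (p : Ed → Bool) : WF (l.filter p) :=
  List.Nodup.sublist (List.Sublist.map _ List.filter_sublist) h

theorem WF.nil : WF [] := List.nodup_nil

theorem WF.norm {U : List Ed} (h : WF U) (l : List Ed) : WF (norm U l) := h.filter _

theorem WF.rest {U : List Ed} (h : WF U) (l : List Ed) : WF (rest U l) := h.filter _

theorem WF.ersE {l : List Ed} (h : WF l) (e : Ed) : WF (ersE l e) := h.filter _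

theorem WF.insE {l : List Ed} (h : WF l) (e : Ed) : WF (insE l e) := by
  unfold PF4.insE
  cases h1 : hasE l e with
  | true => exact h
  | false =>
    rw [hasE_false] at h1
    show ((e :: l).map fe).Nodup
    rw [List.map_cons, List.nodup_cons]
    refine ⟨fun h2 => h1 ?_, h⟩
    rw [fs, List.mem_toFinset]
    exact h2

theorem WF.uni {A B : List Ed} (hA : WF A) (hB : WF B) : WF (uni A B) := by
  show ((A ++ PF4.rest B A).map fe).Nodup
  rw [List.map_append, List.nodup_append']
  refine ⟨hA, hB.rest A, ?_⟩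
  intro x h1 h2
  have h3 : x ∈ fs A := by rw [fs, List.mem_toFinset]; exact h1
  have h4 : x ∈ fs (PF4.rest B A) := by rw [fs, List.mem_toFinset]; exact h2
  rw [fs_rest, Finset.mem_sdiff] at h4
  exact h4.2 h3

theorem card_fs {l : List Ed} (h : WF l) : #(fs l) = l.length := by
  rw [fs, List.toFinset_card_of_nodup h, List.length_map]

theorem inc_iff (v : ℕ) (e : Ed) : inc v e = true ↔ v ∈ fe e := by
  simp only [inc, fe, Bool.or_eq_true, decide_eq_true_eq, Sym2.mem_iff]
  constructor <;> rintro (h | h) <;> simp [h]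

theorem degL_eq {l : List Ed} (h : WF l) (v : ℕ) : degL l v = dg (fs l) v := by
  have h1 := card_fs (h.filter fun e => inc v e)
  rw [degL, ← h1, dg]
  congr 1
  ext x
  rw [mem_fs, Finset.mem_filter, mem_fs]
  constructor
  · rintro ⟨e, he, rfl⟩
    rw [List.mem_filter, inc_iff] at he
    exact ⟨⟨e, he.1, rfl⟩, he.2⟩
  · rintro ⟨⟨e, he, rfl⟩, h2⟩
    exact ⟨e, by rw [List.mem_filter, inc_iff]; exact ⟨he, h2⟩, rfl⟩

theorem sqIn_iff (l : List Ed) (q : Sq4) : sqIn l q = true ↔ sqs q ⊆ fs l := by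
  simp only [sqIn, Bool.and_eq_true, hasE_iff, sqs, TFC.sq, Finset.insert_subset_iff,
    Finset.singleton_subset_iff, fe]

theorem freeL_iff (FS : List Sq4) (l : List Ed) : freeL FS l = true ↔ ∀ q ∈ FS, ¬ sqs q ⊆ fs l := by
  simp only [freeL, List.all_eq_true, Bool.not_eq_true', Bool.eq_false_iff, ne_eq, sqIn_iff]

theorem sq_rot' (a b c d : ℕ) : sq b c d a = sq a b c d := by
  ext x; simp only [TFC.sq, Finset.mem_insert, Finset.mem_singleton]; tauto

theorem sq_ref' (a b c d : ℕ) : sq d c b a = sq a b c d := by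
  ext x
  simp only [TFC.sq, Finset.mem_insert, Finset.mem_singleton, Sym2.eq_swap (a := d) (b := c),
    Sym2.eq_swap (a := c) (b := b), Sym2.eq_swap (a := b) (b := a), Sym2.eq_swap (a := a) (b := d)]
  tauto

theorem alF_sym (FS : List Sq4) : AlSym (alF FS) where
  rot := fun a b c d h q hq => by rw [sq_rot']; exact h q hq
  ref := fun a b c d h q hq => by rw [sq_ref']; exact h q hq

theorem Sq.sub {V : Type*} [DecidableEq V] {z : Finset (Sym2 V)} {a b c d : V} (h : Sq z a b c d) :
    sq a b c d ⊆ z := by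
  intro x hx
  simp only [TFC.sq, Finset.mem_insert, Finset.mem_singleton] at hx
  rcases hx with rfl | rfl | rfl | rfl
  · exact h.ab
  · exact h.bc
  · exact h.cd
  · exact h.da

theorem good_iff {FS : List Sq4} (hFS : ∀ q ∈ FS, SqOK q) (z : Finset (Sym2 ℕ)) :
    Good (alF FS) z ↔ ∀ q ∈ FS, ¬ sqs q ⊆ z := by
  constructor
  · intro h q hq hs
    have hd := hFS q hq
    refine h q.1 q.2.1 q.2.2.1 q.2.2.2 ⟨hd.2.1, hd.2.2.2.2.1, ?_, ?_, ?_, ?_⟩ q hq rfl
    all_goals
      apply hs
      simp [sqs, TFC.sq]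
  · intro h a b c d hs q hq he
    exact h q hq (by rw [he]; exact Sq.sub hs)

theorem freeL_good {FS : List Sq4} (hFS : ∀ q ∈ FS, SqOK q) (l : List Ed) :
    freeL FS l = true ↔ Good (alF FS) (fs l) := by
  rw [freeL_iff, good_iff hFS]

end Pool.Agent.PF4
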