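import Pool.Agent.PF4.GadC

/-!
2-factors without 4-cycles in polynomial time: the round gadget. `ps` is a list of pieces, a piece is a list
of units; the vector of a piece (a list of vertices with multiplicity) is at most 2 at each vertex. The sum
of the vectors is `τ - e_v` with `v` in `Um` or `τ + e_v` with `v` in `Up`.
-/

set_option autoImplicit false

namespace Pool.Agent.PF4.Gd

open Finset Pool.Agent.Lib.helper60

/-! ### definitions -/

/-- shift a unit -/
def shU (n o : ℕ) (u : List ℕ × List ℕ) : List ℕ × List ℕ :=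
  ((u.1.filter fun s => decide (s < n)).map fun s => o + s,
    (u.2.filter fun s => decide (s < n)).map fun s => o + s)

/-- the units of the pieces, for each piece its own copy of the vertices -/
def pcU (n o : ℕ) (ps : List (List (List ℕ × List ℕ))) : List (List ℕ × List ℕ) :=
  (List.range ps.length).flatMap fun j => (ps.getD j []).map fun u => shU n (o + n * j) u

/-- units which join two numbers -/
def sU (m : ℕ) (f g : ℕ → ℕ) : List (List ℕ × List ℕ) := (List.range m).map fun i => ([f i], [g i])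

/-- remainder -/
def md (n y : ℕ) : ℕ := y - n * quo n y

/-- the first number of the slots -/
def c0 (n : ℕ) : ℕ := 2 * n + 1

/-- the ends of the token -/
def tok (n : ℕ) (Um Up : List ℕ) : List ℕ × List ℕ :=
  ((Um.filter fun s => decide (s < n)) ++ ((Up.filter fun s => decide (s < n)).map fun s => n + s),
    [2 * n])

/-- the units of the round gadget -/
def capU (n : ℕ) (ps : List (List (List ℕ × List ℕ))) (Um Up : List ℕ) : List (List ℕ × List ℕ) :=
  pcU n (c0 n) ps ++
  (sU (n * ps.length) (fun y => c0 n + y) (fun y => c0 n + n * ps.length + y) ++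
  (sU (n * ps.length) (fun y => c0 n + y) (fun y => c0 n + n * ps.length + y) ++
  (sU (n * ps.length) (fun y => c0 n + n * ps.length + y) (fun y => md n y) ++
  (sU (n * ps.length) (fun y => c0 n + n * ps.length + y) (fun y => md n y) ++
  (sU n (fun v => v) (fun v => n + v) ++ [tok n Um Up])))))

/-- the number of the vertices of the round gadget -/
def capN (n J : ℕ) : ℕ := c0 n + n * J + n * J

/-- the bounds of the round gadget -/
def capB (n : ℕ) (τ : List ℕ) (J : ℕ) : List ℕ := (List.range (capN n J)).map fun x =>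
  bif decide (x < n) then τ.getD x 0 + 1 else bif decide (x < c0 n) then 1 else 2

/-- is there a configuration? -/
def capF (n : ℕ) (τ : List ℕ) (ps : List (List (List ℕ × List ℕ))) (Um Up : List ℕ) : Bool :=
  feas (capN n ps.length) (capU n ps Um Up) (capB n τ ps.length) (capB n τ ps.length)

/-- the choice -/
def capC (n : ℕ) (τ : List ℕ) (ps : List (List (List ℕ × List ℕ))) (Um Up : List ℕ) :
    List (List (ℕ × ℕ)) :=
  sel (capN n ps.length) (capU n ps Um Up) (capB n τ ps.length) (capB n τ ps.length)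

/-- the reversed choice, without the part which is not about the pieces -/
def capD (n : ℕ) (τ : List ℕ) (ps : List (List (List ℕ × List ℕ))) (Um Up : List ℕ) :
    List (List (ℕ × ℕ)) :=
  (capC n τ ps Um Up).reverse.drop (n * ps.length + (n * ps.length + (n * ps.length +
    (n * ps.length + (n + 1)))))

/-- the end points of a choice -/
def vec (C : List (List (ℕ × ℕ))) : List ℕ := C.flatten.flatMap fun e => [e.1, e.2]

/-- the part of a vector in a block -/
def blk (n o : ℕ) (l : List ℕ) : List ℕ :=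
  (l.filter fun x => decide (o ≤ x) && decide (x < o + n)).map fun x => x - o

/-- the vectors of the pieces -/
def capS (n : ℕ) (τ : List ℕ) (ps : List (List (List ℕ × List ℕ))) (Um Up : List ℕ) :
    List (List ℕ) :=
  (List.range ps.length).map fun j => blk n (c0 n + n * j) (vec (capD n τ ps Um Up))

/-- the port (`s`: `τ - e_s`; `n + v`: `τ + e_v`) -/
def capP (n : ℕ) (τ : List ℕ) (ps : List (List (List ℕ × List ℕ))) (Um Up : List ℕ) : ℕ :=
  (vec [(capC n τ ps Um Up).reverse.headD []]).headD 0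

/-- `k` is a vector of the piece `p`, at most 2 everywhere -/
def PV (n : ℕ) (p : List (List ℕ × List ℕ)) (k : List ℕ) : Prop :=
  ∃ C, List.Forall₂ (ChU n) p C ∧ ∀ v, k.count v = use C v ∧ k.count v ≤ 2

/-- `ks` are vectors of the pieces; their sum is at the port `s` -/
structure Cfg (n : ℕ) (τ : List ℕ) (ps : List (List (List ℕ × List ℕ))) (Um Up : List ℕ)
    (ks : List (List ℕ)) (s : ℕ) : Prop where
  pv : List.Forall₂ (PV n) ps ks
  port : (s ∈ Um ∧ s < n ∧
      ∀ v < n, (ks.map fun k => k.count v).sum + (if s = v then 1 else 0) = τ.getD v 0) ∨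
    (∃ v₀ ∈ Up, v₀ < n ∧ s = n + v₀ ∧
      ∀ v < n, (ks.map fun k => k.count v).sum = τ.getD v 0 + (if v₀ = v then 1 else 0))

/-! ### polynomial time -/

variable {ι : Type} [DEnc ι]

theorem pt_shU {n o : ι → ℕ} {u : ι → List ℕ × List ℕ} (hn : PT n) (ho : PT o) (hu : PT u) :
    PT (fun x => shU (n x) (o x) (u x)) := by
  have h : ∀ {l : ι → List ℕ}, PT l →
      PT (fun x => ((l x).filter fun s => decide (s < n x)).map fun s => o x + s) := fun hl =>
    PT.map (PT.filter hl (p := fun y : ι × ℕ => decide (y.2 < n y.1)) (PT.nlt PT.snd (hn.comp PT.fst)))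
      (g := fun y : ι × ℕ => o y.1 + y.2) (PT.nadd (ho.comp PT.fst) PT.snd)
  exact PT.pair (h (PT.p1 hu)) (h (PT.p2 hu))

theorem pt_pcU {n o : ι → ℕ} {ps : ι → List (List (List ℕ × List ℕ))} (hn : PT n) (ho : PT o)
    (hp : PT ps) : PT (fun x => pcU (n x) (o x) (ps x)) := by
  refine PT.flatMap (PT.range (PT.length hp)) (g := fun y : ι × ℕ =>
    ((ps y.1).getD y.2 []).map fun u => shU (n y.1) (o y.1 + n y.1 * y.2) u) ?_
  refine PT.map (PT.getD (hp.comp PT.fst) PT.snd (PT.const [])) (g := fun z : (ι × ℕ) × (List ℕ × List ℕ) =>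
    shU (n z.1.1) (o z.1.1 + n z.1.1 * z.1.2) z.2) ?_
  exact pt_shU (hn.comp (PT.p1 PT.fst)) (PT.nadd (ho.comp (PT.p1 PT.fst))
    (PT.nmul (hn.comp (PT.p1 PT.fst)) (PT.p2 PT.fst))) PT.snd

theorem pt_sU {m : ι → ℕ} {f g : ι × ℕ → ℕ} (hm : PT m) (hf : PT f) (hg : PT g) :
    PT (fun x => sU (m x) (fun y => f (x, y)) (fun y => g (x, y))) :=
  PT.map (PT.range hm) (g := fun y : ι × ℕ => ([f y], [g y]))
    (PT.pair (PT.cons hf (PT.const [])) (PT.cons hg (PT.const [])))

theorem pt_md {n y : ι → ℕ} (hn : PT n) (hy : PT y) : PT (fun x => md (n x) (y x)) :=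
  PT.nsub hy (PT.nmul hn (pt_quo hn hy))

theorem pt_c0 {n : ι → ℕ} (hn : PT n) : PT (fun x => c0 (n x)) :=
  PT.nsucc (PT.nmul (PT.const 2) hn)

theorem pt_tok {n : ι → ℕ} {Um Up : ι → List ℕ} (hn : PT n) (hm : PT Um) (hp : PT Up) :
    PT (fun x => tok (n x) (Um x) (Up x)) := by
  have h : ∀ {l : ι → List ℕ}, PT l → PT (fun x => (l x).filter fun s => decide (s < n x)) := fun hl =>
    PT.filter hl (p := fun y : ι × ℕ => decide (y.2 < n y.1)) (PT.nlt PT.snd (hn.comp PT.fst))
  exact PT.pair (PT.append (h hm) (PT.map (h hp) (g := fun y : ι × ℕ => n y.1 + y.2)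
    (PT.nadd (hn.comp PT.fst) PT.snd))) (PT.cons (PT.nmul (PT.const 2) hn) (PT.const []))

theorem pt_capU {n : ι → ℕ} {ps : ι → List (List (List ℕ × List ℕ))} {Um Up : ι → List ℕ} (hn : PT n)
    (hps : PT ps) (hm : PT Um) (hp : PT Up) : PT (fun x => capU (n x) (ps x) (Um x) (Up x)) := by
  have hJ : PT (fun x => n x * (ps x).length) := PT.nmul hn (PT.length hps)
  have h1 : PT (fun y : ι × ℕ => c0 (n y.1) + y.2) := PT.nadd (pt_c0 (hn.comp PT.fst)) PT.snd
  have h2 : PT (fun y : ι × ℕ => c0 (n y.1) + n y.1 * (ps y.1).length + y.2) :=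
    PT.nadd (PT.nadd (pt_c0 (hn.comp PT.fst)) (hJ.comp PT.fst)) PT.snd
  have h3 : PT (fun y : ι × ℕ => md (n y.1) y.2) := pt_md (hn.comp PT.fst) PT.snd
  have s1 := pt_sU hJ h1 h2
  have s2 := pt_sU hJ h2 h3
  have s3 := pt_sU (f := fun y : ι × ℕ => y.2) (g := fun y : ι × ℕ => n y.1 + y.2) hn PT.snd
    (PT.nadd (hn.comp PT.fst) PT.snd)
  exact PT.append (pt_pcU hn (pt_c0 hn) hps) (PT.append s1 (PT.append s1 (PT.append s2 (PT.append s2
    (PT.append s3 (PT.cons (pt_tok hn hm hp) (PT.const [])))))))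

theorem pt_capN {n J : ι → ℕ} (hn : PT n) (hJ : PT J) : PT (fun x => capN (n x) (J x)) :=
  PT.nadd (PT.nadd (pt_c0 hn) (PT.nmul hn hJ)) (PT.nmul hn hJ)

theorem pt_capB {n J : ι → ℕ} {τ : ι → List ℕ} (hn : PT n) (hτ : PT τ) (hJ : PT J) :
    PT (fun x => capB (n x) (τ x) (J x)) := by
  refine PT.map (PT.range (pt_capN hn hJ)) (g := fun y : ι × ℕ =>
    bif decide (y.2 < n y.1) then (τ y.1).getD y.2 0 + 1 else
      bif decide (y.2 < c0 (n y.1)) then 1 else 2) ?_
  exact PT.cond (PT.nlt PT.snd (hn.comp PT.fst))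
    (PT.nsucc (PT.getD (hτ.comp PT.fst) PT.snd (PT.const 0)))
    (PT.cond (PT.nlt PT.snd (pt_c0 (hn.comp PT.fst))) (PT.const 1) (PT.const 2))

theorem pt_capF {n : ι → ℕ} {τ : ι → List ℕ} {ps : ι → List (List (List ℕ × List ℕ))}
    {Um Up : ι → List ℕ} (hn : PT n) (hτ : PT τ) (hps : PT ps) (hm : PT Um) (hp : PT Up) :
    PT (fun x => capF (n x) (τ x) (ps x) (Um x) (Up x)) :=
  pt_feas (pt_capN hn (PT.length hps)) (pt_capU hn hps hm hp) (pt_capB hn hτ (PT.length hps))
    (pt_capB hn hτ (PT.length hps))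

theorem pt_capC {n : ι → ℕ} {τ : ι → List ℕ} {ps : ι → List (List (List ℕ × List ℕ))}
    {Um Up : ι → List ℕ} (hn : PT n) (hτ : PT τ) (hps : PT ps) (hm : PT Um) (hp : PT Up) :
    PT (fun x => capC (n x) (τ x) (ps x) (Um x) (Up x)) :=
  pt_sel (pt_capN hn (PT.length hps)) (pt_capU hn hps hm hp) (pt_capB hn hτ (PT.length hps))
    (pt_capB hn hτ (PT.length hps))

theorem pt_capD {n : ι → ℕ} {τ : ι → List ℕ} {ps : ι → List (List (List ℕ × List ℕ))}
    {Um Up : ι → List ℕ} (hn : PT n) (hτ : PT τ) (hps : PT ps) (hm : PT Um) (hp : PT Up) :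
    PT (fun x => capD (n x) (τ x) (ps x) (Um x) (Up x)) := by
  have hJ : PT (fun x => n x * (ps x).length) := PT.nmul hn (PT.length hps)
  exact PT.drop (PT.nadd hJ (PT.nadd hJ (PT.nadd hJ (PT.nadd hJ (PT.nsucc hn)))))
    (PT.reverse (pt_capC hn hτ hps hm hp))

theorem pt_vec {C : ι → List (List (ℕ × ℕ))} (hC : PT C) : PT (fun x => vec (C x)) :=
  PT.flatMap (PT.flatten hC) (g := fun y : ι × (ℕ × ℕ) => [y.2.1, y.2.2])
    (PT.cons (PT.p1 PT.snd) (PT.cons (PT.p2 PT.snd) (PT.const [])))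

theorem pt_blk {n o : ι → ℕ} {l : ι → List ℕ} (hn : PT n) (ho : PT o) (hl : PT l) :
    PT (fun x => blk (n x) (o x) (l x)) :=
  PT.map (PT.filter hl (p := fun y : ι × ℕ => decide (o y.1 ≤ y.2) && decide (y.2 < o y.1 + n y.1))
    (PT.band (PT.nle (ho.comp PT.fst) PT.snd)
      (PT.nlt PT.snd (PT.nadd (ho.comp PT.fst) (hn.comp PT.fst)))))
    (g := fun y : ι × ℕ => y.2 - o y.1) (PT.nsub PT.snd (ho.comp PT.fst))

theorem pt_capS {n : ι → ℕ} {τ : ι → List ℕ} {ps : ι → List (List (List ℕ × List ℕ))}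
    {Um Up : ι → List ℕ} (hn : PT n) (hτ : PT τ) (hps : PT ps) (hm : PT Um) (hp : PT Up) :
    PT (fun x => capS (n x) (τ x) (ps x) (Um x) (Up x)) := by
  have hV := pt_vec (pt_capD hn hτ hps hm hp)
  have h := PT.map (ι := ι × List ℕ) (l := fun x => List.range (ps x.1).length)
    (g := fun y : (ι × List ℕ) × ℕ => blk (n y.1.1) (c0 (n y.1.1) + n y.1.1 * y.2) y.1.2)
    (PT.range (PT.length (hps.comp PT.fst)))
    (pt_blk (hn.comp (PT.p1 PT.fst)) (PT.nadd (pt_c0 (hn.comp (PT.p1 PT.fst)))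
      (PT.nmul (hn.comp (PT.p1 PT.fst)) PT.snd)) (PT.p2 PT.fst))
  exact h.comp (f := fun x => (x, vec (capD (n x) (τ x) (ps x) (Um x) (Up x)))) (PT.pair PT.id hV)

theorem pt_capP {n : ι → ℕ} {τ : ι → List ℕ} {ps : ι → List (List (List ℕ × List ℕ))}
    {Um Up : ι → List ℕ} (hn : PT n) (hτ : PT τ) (hps : PT ps) (hm : PT Um) (hp : PT Up) :
    PT (fun x => capP (n x) (τ x) (ps x) (Um x) (Up x)) :=
  PT.headD (pt_vec (PT.cons (PT.headD (PT.reverse (pt_capC hn hτ hps hm hp)) (PT.const []))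
    (PT.const []))) (PT.const 0)

end Pool.Agent.PF4.Gd
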