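import Pool.Agent.PF4.Cap

/-!
2-factors without 4-cycles in polynomial time: correctness of the round gadget, the parts.
-/

set_option autoImplicit false

namespace Pool.Agent.PF4.Gd

open Finset

/-! ### lists -/

theorem f2_split {α β : Type*} {R : α → β → Prop} {l₁ l₂ : List α} {l : List β}
    (h : List.Forall₂ R (l₁ ++ l₂) l) :
    ∃ a b, l = a ++ b ∧ List.Forall₂ R l₁ a ∧ List.Forall₂ R l₂ b := by
  induction l₁ generalizing l with
  | nil => exact ⟨[], l, rfl, List.Forall₂.nil, h⟩
  | cons x l₁ ih =>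
    cases h with
    | cons h1 h2 =>
      obtain ⟨a, b, rfl, h3, h4⟩ := ih h2
      exact ⟨_ :: a, b, rfl, List.Forall₂.cons h1 h3, h4⟩

theorem chU_mono {n N : ℕ} (h : n ≤ N) {u : List ℕ × List ℕ} {c : List (ℕ × ℕ)} (hc : ChU n u c) :
    ChU N u c := by
  rcases hc with rfl | ⟨s, hs, t, ht, h1, h2, rfl⟩
  · exact Or.inl rfl
  · exact Or.inr ⟨s, hs, t, ht, h1.trans_le h, h2.trans_le h, rfl⟩

theorem use_reverse (C : List (List (ℕ × ℕ))) (v : ℕ) : use C.reverse v = use C v := by
  simp [use, List.map_reverse, List.sum_reverse]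

theorem use_zero {n : ℕ} {us : List (List ℕ × List ℕ)} {C : List (List (ℕ × ℕ))}
    (h : List.Forall₂ (ChU n) us C) {v : ℕ} (hv : n ≤ v) : use C v = 0 := by
  induction h with
  | nil => rfl
  | cons h1 _ ih =>
    rw [use_cons, ih]
    rcases h1 with rfl | ⟨s, _, t, _, h1, h2, rfl⟩
    · rfl
    · rw [useU_single, if_neg (by omega), if_neg (by omega)]

theorem count_vec (C : List (List (ℕ × ℕ))) (v : ℕ) : (vec C).count v = use C v := by
  have h1 : ∀ c : List (ℕ × ℕ), (c.flatMap fun e => [e.1, e.2]).count v = useU c v := by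
    intro c
    induction c with
    | nil => rfl
    | cons e c ih =>
      rw [List.flatMap_cons, List.count_append, ih]
      unfold useU
      rw [List.filter_cons, List.filter_cons]
      simp only [List.count_cons, List.count_nil, beq_iff_eq, decide_eq_true_eq]
      split_ifs <;> simp <;> omega
  induction C with
  | nil => rfl
  | cons c C ih =>
    rw [use_cons, ← ih, ← h1]
    unfold vec
    rw [List.flatten_cons, List.flatMap_append, List.count_append]

theorem count_blk (n o : ℕ) (l : List ℕ) (v : ℕ) :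
    (blk n o l).count v = if v < n then l.count (o + v) else 0 := by
  unfold blk
  induction l with
  | nil => simp
  | cons x l ih =>
    rw [List.filter_cons]
    by_cases h : o ≤ x ∧ x < o + n
    · rw [if_pos (by simpa using h), List.map_cons, List.count_cons, ih, List.count_cons]
      by_cases hv : v < n
      · have : (x - o == v) = (x == o + v) := by
          rw [Bool.eq_iff_iff, beq_iff_eq, beq_iff_eq]; omega
        simp only [hv, if_true, this]
      · have : (x - o == v) = false := by
          rw [beq_eq_false_iff_ne]; omega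
        simp [hv, this]
    · rw [if_neg (by simpa using h), ih, List.count_cons]
      by_cases hv : v < n
      · have : (x == o + v) = false := by
          rw [beq_eq_false_iff_ne]; omega
        simp [hv, this]
      · simp [hv]

theorem list_sum_range (m : ℕ) (F : ℕ → ℕ) : ((List.range m).map F).sum = ∑ i ∈ range m, F i := by
  induction m with
  | zero => rfl
  | succ m ih => rw [List.range_succ, List.map_append, List.sum_append, ih, Finset.sum_range_succ]; simp

/-! ### simple units -/

/-- the number of uses by simple units -/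
def sX (m : ℕ) (f g : ℕ → ℕ) (χ : ℕ → ℕ) (x : ℕ) : ℕ :=
  ∑ i ∈ range m, χ i * ((if f i = x then 1 else 0) + (if g i = x then 1 else 0))

theorem sU_length (m : ℕ) (f g : ℕ → ℕ) : (sU m f g).length = m := by simp [sU]

theorem sU_use {N m : ℕ} {f g : ℕ → ℕ} {C : List (List (ℕ × ℕ))}
    (h : List.Forall₂ (ChU N) (sU m f g) C) :
    ∃ χ : ℕ → ℕ, (∀ i < m, χ i ≤ 1) ∧ ∀ x, use C x = sX m f g χ x := by
  have hl : C.length = m := by rw [← h.length_eq, sU_length]
  have h1 : ∀ i < m, C.getD i [] = [] ∨ C.getD i [] = [(f i, g i)] := by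
    intro i hi
    have h2 := (List.forall₂_iff_get.1 h).2 i (by rwa [sU_length]) (by rwa [hl])
    rw [List.getD_eq_getElem _ _ (by rwa [hl])]
    simp only [List.get_eq_getElem, sU, List.getElem_map, List.getElem_range] at h2
    rcases h2 with h2 | ⟨s, hs, t, ht, _, _, h2⟩
    · exact Or.inl h2
    · right
      rw [h2]
      simp only [List.mem_singleton] at hs ht
      rw [hs, ht]
  refine ⟨fun i => (C.getD i []).length, ?_, ?_⟩
  · intro i hi
    dsimp only
    rcases h1 i hi with h2 | h2
    · rw [h2]; simp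
    · rw [h2]; simp
  · intro x
    unfold use sX
    rw [← sum_getD (fun c => useU c x) [],
      ← Finset.sum_range (n := C.length) (f := fun i => useU (C.getD i []) x), hl]
    refine Finset.sum_congr rfl fun i hi => ?_
    dsimp only
    rcases h1 i (Finset.mem_range.1 hi) with h2 | h2
    · rw [h2, useU_nil, List.length_nil, zero_mul]
    · rw [h2, useU_single, List.length_singleton, one_mul]

theorem sU_mk {N m : ℕ} {f g : ℕ → ℕ} (hf : ∀ i < m, f i < N) (hg : ∀ i < m, g i < N) (χ : ℕ → ℕ)
    (hχ : ∀ i < m, χ i ≤ 1) :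
    ∃ C, List.Forall₂ (ChU N) (sU m f g) C ∧ ∀ x, use C x = sX m f g χ x := by
  refine ⟨(List.range m).map fun i => if χ i = 0 then [] else [(f i, g i)], ?_, ?_⟩
  · unfold sU
    rw [List.forall₂_map_left_iff, List.forall₂_map_right_iff, List.forall₂_same]
    intro i hi
    rw [List.mem_range] at hi
    by_cases h : χ i = 0
    · rw [if_pos h]; exact Or.inl rfl
    · rw [if_neg h]
      exact Or.inr ⟨f i, List.mem_singleton.2 rfl, g i, List.mem_singleton.2 rfl, hf i hi, hg i hi, rfl⟩
  · intro x
    unfold use sX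
    rw [List.map_map, list_sum_range]
    refine Finset.sum_congr rfl fun i hi => ?_
    rw [Function.comp_apply]
    have h1 := hχ i (Finset.mem_range.1 hi)
    by_cases h : χ i = 0
    · rw [if_pos h, useU_nil, h, zero_mul]
    · rw [if_neg h, useU_single, show χ i = 1 by omega, one_mul]

/-! ### the pieces -/

theorem mem_shU1 {n o : ℕ} {u : List ℕ × List ℕ} {x : ℕ} :
    x ∈ (shU n o u).1 ↔ ∃ s ∈ u.1, s < n ∧ o + s = x := by
  simp only [shU, List.mem_map, List.mem_filter, decide_eq_true_eq, and_assoc]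

theorem mem_shU2 {n o : ℕ} {u : List ℕ × List ℕ} {x : ℕ} :
    x ∈ (shU n o u).2 ↔ ∃ s ∈ u.2, s < n ∧ o + s = x := by
  simp only [shU, List.mem_map, List.mem_filter, decide_eq_true_eq, and_assoc]

theorem shU_fwd {N n o : ℕ} {p : List (List ℕ × List ℕ)} {C : List (List (ℕ × ℕ))}
    (h : List.Forall₂ (ChU N) (p.map fun u => shU n o u) C) :
    ∃ D, List.Forall₂ (ChU n) p D ∧ (∀ v < n, use C (o + v) = use D v) ∧
      ∀ x, (x < o ∨ o + n ≤ x) → use C x = 0 := by
  induction p generalizing C with
  | nil =>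
    cases h
    exact ⟨[], List.Forall₂.nil, fun _ _ => rfl, fun _ _ => rfl⟩
  | cons u p ih =>
    rw [List.map_cons] at h
    cases h with
    | @cons _ c _ C h1 h2 =>
      obtain ⟨D, hD, h3, h4⟩ := ih h2
      rcases h1 with rfl | ⟨s, hs, t, ht, _, _, rfl⟩
      · refine ⟨[] :: D, List.Forall₂.cons (Or.inl rfl) hD, ?_, ?_⟩
        · intro v hv; rw [use_cons, use_cons, h3 v hv]; rfl
        · intro x hx; rw [use_cons, h4 x hx]; rfl
      · obtain ⟨s', hs', hs1, rfl⟩ := mem_shU1.1 hs
        obtain ⟨t', ht', ht1, rfl⟩ := mem_shU2.1 ht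
        refine ⟨[(s', t')] :: D,
          List.Forall₂.cons (Or.inr ⟨s', hs', t', ht', hs1, ht1, rfl⟩) hD, ?_, ?_⟩
        · intro v hv
          rw [use_cons, use_cons, h3 v hv, useU_single, useU_single]
          simp only [Nat.add_left_cancel_iff]
        · intro x hx
          rw [use_cons, h4 x hx, useU_single, if_neg (by omega), if_neg (by omega)]

theorem shU_bwd {N n o : ℕ} (hN : o + n ≤ N) {p : List (List ℕ × List ℕ)} {D : List (List (ℕ × ℕ))}
    (h : List.Forall₂ (ChU n) p D) :
    ∃ C, List.Forall₂ (ChU N) (p.map fun u => shU n o u) C ∧ (∀ v < n, use C (o + v) = use D v) ∧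
      ∀ x, (x < o ∨ o + n ≤ x) → use C x = 0 := by
  induction h with
  | nil => exact ⟨[], List.Forall₂.nil, fun _ _ => rfl, fun _ _ => rfl⟩
  | @cons u c p D h1 _ ih =>
    obtain ⟨C, hC, h3, h4⟩ := ih
    rcases h1 with rfl | ⟨s, hs, t, ht, hs1, ht1, rfl⟩
    · refine ⟨[] :: C, List.Forall₂.cons (Or.inl rfl) hC, ?_, ?_⟩
      · intro v hv; rw [use_cons, use_cons, h3 v hv]; rfl
      · intro x hx; rw [use_cons, h4 x hx]; rfl
    · refine ⟨[(o + s, o + t)] :: C, List.Forall₂.cons (Or.inr ⟨o + s, mem_shU1.2 ⟨s, hs, hs1, rfl⟩,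
        o + t, mem_shU2.2 ⟨t, ht, ht1, rfl⟩, by omega, by omega, rfl⟩) hC, ?_, ?_⟩
      · intro v hv
        rw [use_cons, use_cons, h3 v hv, useU_single, useU_single]
        simp only [Nat.add_left_cancel_iff]
      · intro x hx
        rw [use_cons, h4 x hx, useU_single, if_neg (by omega), if_neg (by omega)]

theorem pcU_nil (n o : ℕ) : pcU n o [] = [] := rfl

theorem pcU_cons (n o : ℕ) (p : List (List ℕ × List ℕ)) (ps : List (List (List ℕ × List ℕ))) :
    pcU n o (p :: ps) = (p.map fun u => shU n o u) ++ pcU n (o + n) ps := by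
  unfold pcU
  rw [List.length_cons, List.range_succ_eq_map, List.flatMap_cons, List.flatMap_map]
  congr 1
  refine List.flatMap_congr fun j _ => ?_
  rw [List.getD_cons_succ]
  have e : o + n * (j + 1) = o + n + n * j := by ring
  rw [e]

theorem pcU_fwd {N n o : ℕ} {ps : List (List (List ℕ × List ℕ))} {C : List (List (ℕ × ℕ))}
    (h : List.Forall₂ (ChU N) (pcU n o ps) C) :
    ∃ D : List (List (List (ℕ × ℕ))), List.Forall₂ (List.Forall₂ (ChU n)) ps D ∧
      (∀ j < ps.length, ∀ v < n, use C (o + n * j + v) = use (D.getD j []) v) ∧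
      ∀ x, (x < o ∨ o + n * ps.length ≤ x) → use C x = 0 := by
  induction ps generalizing o C with
  | nil =>
    rw [pcU_nil] at h
    cases h
    exact ⟨[], List.Forall₂.nil, fun j hj => absurd hj (by simp), fun _ _ => rfl⟩
  | cons p ps ih =>
    rw [pcU_cons] at h
    obtain ⟨A, B, rfl, h1, h2⟩ := f2_split h
    obtain ⟨D1, hD1, a1, a2⟩ := shU_fwd h1
    obtain ⟨D, hD, b1, b2⟩ := ih h2
    refine ⟨D1 :: D, List.Forall₂.cons hD1 hD, ?_, ?_⟩
    · intro j hj v hv
      rcases j with _ | j
      · rw [use_append, List.getD_cons_zero]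
        have e : o + n * 0 + v = o + v := by ring
        rw [e, a1 v hv, b2 _ (Or.inl (by omega)), add_zero]
      · rw [List.getD_cons_succ, use_append]
        have hj' : j < ps.length := by simpa using hj
        have e : o + n * (j + 1) + v = o + n + n * j + v := by ring
        rw [e, b1 j hj' v hv, a2 _ (Or.inr (by omega)), zero_add]
    · intro x hx
      rw [List.length_cons] at hx
      have e : n * (ps.length + 1) = n * ps.length + n := by ring
      rw [e] at hx
      rw [use_append, a2 x (by omega), b2 x (by omega)]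

theorem pcU_bwd {N n o : ℕ} {ps : List (List (List ℕ × List ℕ))} (hN : o + n * ps.length ≤ N)
    {D : List (List (List (ℕ × ℕ)))} (h : List.Forall₂ (List.Forall₂ (ChU n)) ps D) :
    ∃ C, List.Forall₂ (ChU N) (pcU n o ps) C ∧
      (∀ j < ps.length, ∀ v < n, use C (o + n * j + v) = use (D.getD j []) v) ∧
      ∀ x, (x < o ∨ o + n * ps.length ≤ x) → use C x = 0 := by
  induction h generalizing o with
  | nil =>
    exact ⟨[], by rw [pcU_nil]; exact List.Forall₂.nil, fun j hj => absurd hj (by simp), fun _ _ => rfl⟩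
  | @cons p D1 ps D h1 _ ih =>
    rw [List.length_cons] at hN
    have e : n * (ps.length + 1) = n * ps.length + n := by ring
    rw [e] at hN
    obtain ⟨A, hA, a1, a2⟩ := shU_bwd (N := N) (o := o) (by omega) h1
    obtain ⟨B, hB, b1, b2⟩ := ih (o := o + n) (by omega)
    refine ⟨A ++ B, by rw [pcU_cons]; exact List.rel_append hA hB, ?_, ?_⟩
    · intro j hj v hv
      rcases j with _ | j
      · rw [use_append, List.getD_cons_zero]
        have e : o + n * 0 + v = o + v := by ring
        rw [e, a1 v hv, b2 _ (Or.inl (by omega)), add_zero]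
      · rw [List.getD_cons_succ, use_append]
        have hj' : j < ps.length := by simpa using hj
        have e : o + n * (j + 1) + v = o + n + n * j + v := by ring
        rw [e, b1 j hj' v hv, a2 _ (Or.inr (by omega)), zero_add]
    · intro x hx
      rw [List.length_cons, e] at hx
      rw [use_append, a2 x (by omega), b2 x (by omega)]

/-! ### the sums -/

theorem md_eq {n : ℕ} (hn : 0 < n) (y : ℕ) : md n y = y % n := by
  unfold md
  rw [quo_eq hn]
  have := Nat.div_add_mod y n
  omega

theorem sum_blocks (n J v : ℕ) (hv : v < n) (F : ℕ → ℕ) :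
    ∑ i ∈ range (n * J), F i * (if md n i = v then 1 else 0) = ∑ j ∈ range J, F (n * j + v) := by
  have hn : 0 < n := by omega
  induction J with
  | zero => simp
  | succ J ih =>
    rw [Nat.mul_succ, Finset.sum_range_add, ih, Finset.sum_range_succ]
    congr 1
    rw [Finset.sum_eq_single v]
    · rw [md_eq hn, Nat.mul_add_mod, Nat.mod_eq_of_lt hv, if_pos rfl, mul_one]
    · intro b hb hbv
      rw [md_eq hn, Nat.mul_add_mod, Nat.mod_eq_of_lt (Finset.mem_range.1 hb), if_neg hbv, mul_zero]
    · intro h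
      exact absurd (Finset.mem_range.2 hv) h

/-- the uses of `x` by simple units when `f` and `g` do not take the value `x` -/
theorem sX_zero {m : ℕ} {f g χ : ℕ → ℕ} {x : ℕ} (h : ∀ i < m, f i ≠ x ∧ g i ≠ x) :
    sX m f g χ x = 0 := by
  unfold sX
  refine Finset.sum_eq_zero fun i hi => ?_
  obtain ⟨h1, h2⟩ := h i (Finset.mem_range.1 hi)
  rw [if_neg h1, if_neg h2]
  ring

/-- when only `f y = x` -/
theorem sX_one {m : ℕ} {f g χ : ℕ → ℕ} {x y : ℕ} (hy : y < m) (h1 : ∀ i < m, f i = x ↔ i = y)
    (h2 : ∀ i < m, g i ≠ x) : sX m f g χ x = χ y := by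
  unfold sX
  rw [Finset.sum_eq_single y]
  · rw [if_pos ((h1 y hy).2 rfl), if_neg (h2 y hy)]; ring
  · intro b hb hby
    have hb := Finset.mem_range.1 hb
    rw [if_neg (fun h => hby ((h1 b hb).1 h)), if_neg (h2 b hb)]
    ring
  · intro h
    exact absurd (Finset.mem_range.2 hy) h

/-- when only `g y = x` -/
theorem sX_two {m : ℕ} {f g χ : ℕ → ℕ} {x y : ℕ} (hy : y < m) (h1 : ∀ i < m, g i = x ↔ i = y)
    (h2 : ∀ i < m, f i ≠ x) : sX m f g χ x = χ y := by
  unfold sX
  rw [Finset.sum_eq_single y]
  · rw [if_pos ((h1 y hy).2 rfl), if_neg (h2 y hy)]; ring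
  · intro b hb hby
    have hb := Finset.mem_range.1 hb
    rw [if_neg (fun h => hby ((h1 b hb).1 h)), if_neg (h2 b hb)]
    ring
  · intro h
    exact absurd (Finset.mem_range.2 hy) h

/-- when `f` does not take the value `x` -/
theorem sX_g {m : ℕ} {f g χ : ℕ → ℕ} {x : ℕ} (h : ∀ i < m, f i ≠ x) :
    sX m f g χ x = ∑ i ∈ range m, χ i * (if g i = x then 1 else 0) := by
  unfold sX
  refine Finset.sum_congr rfl fun i hi => ?_
  rw [if_neg (h i (Finset.mem_range.1 hi)), zero_add]

end Pool.Agent.PF4.Gd
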