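import Pool.Agent.PF4.CapC

/-!
2-factors without 4-cycles in polynomial time: correctness of the round gadget.
-/

set_option autoImplicit false

namespace Pool.Agent.PF4.Gd

open Finset

theorem capB_get {n J : ℕ} (τ : List ℕ) {x : ℕ} (hx : x < capN n J) :
    (capB n τ J).getD x 0 = if x < n then τ.getD x 0 + 1 else if x < c0 n then 1 else 2 := by
  unfold capB
  rw [List.getD_eq_getElem _ _ (by simpa using hx)]
  rw [List.getElem_map, List.getElem_range]
  by_cases h1 : x < n
  · rw [if_pos h1, decide_eq_true h1, cond_true]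
  · rw [if_neg h1, decide_eq_false h1, cond_false]
    by_cases h2 : x < c0 n
    · rw [if_pos h2, decide_eq_true h2, cond_true]
    · rw [if_neg h2, decide_eq_false h2, cond_false]

theorem md_lt {n y : ℕ} (hn : 0 < n) : md n y < n := by
  rw [md_eq hn]; exact Nat.mod_lt _ hn

/-- the token -/
theorem tok_ch {N n : ℕ} {Um Up : List ℕ} {c : List (ℕ × ℕ)} (h : ChU N (tok n Um Up) c)
    (h2 : useU c (2 * n) = 1) : ∃ s, c = [(s, 2 * n)] ∧ ((s ∈ Um ∧ s < n) ∨
      ∃ v₀ ∈ Up, v₀ < n ∧ s = n + v₀) := by
  rcases h with rfl | ⟨s, hs, t, ht, _, _, rfl⟩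
  · simp [useU_nil] at h2
  · simp only [tok, List.mem_singleton, List.mem_append, List.mem_filter, List.mem_map,
      decide_eq_true_eq] at hs ht
    subst ht
    refine ⟨s, rfl, ?_⟩
    rcases hs with hs | ⟨v, ⟨hv, hv'⟩, rfl⟩
    · exact Or.inl hs
    · exact Or.inr ⟨v, hv, hv', rfl⟩

/-- what a choice of the round gadget looks like -/
theorem cap_fwd {n : ℕ} {τ : List ℕ} {ps : List (List (List ℕ × List ℕ))} {Um Up : List ℕ}
    {C : List (List (ℕ × ℕ))}
    (h : Ch (capN n ps.length) (capU n ps Um Up) (capB n τ ps.length) (capB n τ ps.length) C) :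
    ∃ (C0 R : List (List (ℕ × ℕ))) (s : ℕ) (D : List (List (List (ℕ × ℕ)))) (φ : ℕ → ℕ),
      C = C0 ++ (R ++ [[(s, 2 * n)]]) ∧
      (R ++ [[(s, 2 * n)]]).length = n * ps.length + (n * ps.length + (n * ps.length +
        (n * ps.length + (n + 1)))) ∧
      List.Forall₂ (List.Forall₂ (ChU n)) ps D ∧
      (∀ j < ps.length, ∀ v < n, use C0 (c0 n + n * j + v) = use (D.getD j []) v ∧
        use (D.getD j []) v ≤ 2) ∧
      ((s ∈ Um ∧ s < n) ∨ ∃ v₀ ∈ Up, v₀ < n ∧ s = n + v₀) ∧
      (∀ v < n, φ v + (if s = n + v then 1 else 0) = 1) ∧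
      ∀ v < n, ∑ j ∈ range ps.length, use (D.getD j []) v + φ v + (if s = v then 1 else 0) =
        τ.getD v 0 + 1 := by
  have hb : ∀ x < capN n ps.length, use C x =
      if x < n then τ.getD x 0 + 1 else if x < c0 n then 1 else 2 := by
    intro x hx
    rw [← capB_get τ hx]
    exact le_antisymm (h.hi x hx) (h.lo x hx)
  have hN : capN n ps.length = c0 n + n * ps.length + n * ps.length := rfl
  have hc0 : c0 n = 2 * n + 1 := rfl
  rw [hN] at hb
  obtain ⟨C0, T0, e0, g0, r0⟩ := f2_split h.ch
  obtain ⟨C1, T1, e1, g1, r1⟩ := f2_split r0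
  obtain ⟨C2, T2, e2, g2, r2⟩ := f2_split r1
  obtain ⟨C3, T3, e3, g3, r3⟩ := f2_split r2
  obtain ⟨C4, T4, e4, g4, r4⟩ := f2_split r3
  obtain ⟨C5, C6, e5, g5, g6⟩ := f2_split r4
  obtain ⟨D, hD, u0, z0⟩ := pcU_fwd g0
  obtain ⟨χ1, k1, u1⟩ := sU_use g1
  obtain ⟨χ2, k2, u2⟩ := sU_use g2
  obtain ⟨ψ1, k3, u3⟩ := sU_use g3
  obtain ⟨ψ2, k4, u4⟩ := sU_use g4
  obtain ⟨φ, k5, u5⟩ := sU_use g5
  obtain ⟨c6, e6, g7⟩ : ∃ c6, C6 = [c6] ∧ ChU (capN n ps.length) (tok n Um Up) c6 := by
    cases g6 with
    | cons a b =>
      cases b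
      exact ⟨_, rfl, a⟩
  have hu : ∀ x, use C x = use C0 x +
      (sX (n * ps.length) (fun y => c0 n + y) (fun y => c0 n + n * ps.length + y) χ1 x +
      (sX (n * ps.length) (fun y => c0 n + y) (fun y => c0 n + n * ps.length + y) χ2 x +
      (sX (n * ps.length) (fun y => c0 n + n * ps.length + y) (fun y => md n y) ψ1 x +
      (sX (n * ps.length) (fun y => c0 n + n * ps.length + y) (fun y => md n y) ψ2 x +
      (sX n (fun v => v) (fun v => n + v) φ x + useU c6 x))))) := by
    intro x
    rw [e0, e1, e2, e3, e4, e5, e6, use_append, use_append, use_append, use_append, use_append,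
      use_append, u1, u2, u3, u4, u5, use_cons, use_nil]
    rfl
  generalize hM : n * ps.length = M at *
  -- the value at `2 * n`
  have q0 := hb (2 * n) (by omega)
  rw [if_neg (by omega), if_pos (by omega), hu, z0 _ (Or.inl (by omega)),
    sX_zero (fun i _ => ⟨by omega, by omega⟩), sX_zero (fun i _ => ⟨by omega, by omega⟩),
    sX_zero (fun i hi => ⟨by omega, by
      have hn : 0 < n := by
        rcases Nat.eq_zero_or_pos n with h0 | h0
        · rw [h0, zero_mul] at hM; omega
        · exact h0
      have := md_lt (y := i) hn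
      omega⟩),
    sX_zero (fun i hi => ⟨by omega, by
      have hn : 0 < n := by
        rcases Nat.eq_zero_or_pos n with h0 | h0
        · rw [h0, zero_mul] at hM; omega
        · exact h0
      have := md_lt (y := i) hn
      omega⟩),
    sX_zero (fun i hi => ⟨by omega, by omega⟩)] at q0
  obtain ⟨s, rfl, hs⟩ := tok_ch g7 (by omega)
  have hs2 : s < 2 * n := by
    rcases hs with hs | ⟨v₀, _, hv, rfl⟩ <;> omega
  -- the values at the slots
  have q1 : ∀ y < M, use C0 (c0 n + y) + χ1 y + χ2 y = 2 := by
    intro y hy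
    have hn : 0 < n := by
      rcases Nat.eq_zero_or_pos n with h0 | h0
      · rw [h0, zero_mul] at hM; omega
      · exact h0
    have q := hb (c0 n + y) (by omega)
    rw [if_neg (by omega), if_neg (by omega), hu,
      sX_one (y := y) hy (fun i _ => by omega) (fun i _ => by omega),
      sX_one (y := y) hy (fun i _ => by omega) (fun i _ => by omega),
      sX_zero (fun i _ => ⟨by omega, by have := md_lt (y := i) hn; omega⟩),
      sX_zero (fun i _ => ⟨by omega, by have := md_lt (y := i) hn; omega⟩),
      sX_zero (fun i _ => ⟨by omega, by omega⟩),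
      useU_single, if_neg (by omega), if_neg (by omega)] at q
    omega
  have q2 : ∀ y < M, χ1 y + χ2 y + ψ1 y + ψ2 y = 2 := by
    intro y hy
    have hn : 0 < n := by
      rcases Nat.eq_zero_or_pos n with h0 | h0
      · rw [h0, zero_mul] at hM; omega
      · exact h0
    have q := hb (c0 n + M + y) (by omega)
    rw [if_neg (by omega), if_neg (by omega), hu, z0 _ (Or.inr (by omega)),
      sX_two (y := y) hy (fun i _ => by omega) (fun i _ => by omega),
      sX_two (y := y) hy (fun i _ => by omega) (fun i _ => by omega),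
      sX_one (y := y) hy (fun i _ => by omega) (fun i _ => by have := md_lt (y := i) hn; omega),
      sX_one (y := y) hy (fun i _ => by omega) (fun i _ => by have := md_lt (y := i) hn; omega),
      sX_zero (fun i _ => ⟨by omega, by omega⟩),
      useU_single, if_neg (by omega), if_neg (by omega)] at q
    omega
  have q3 : ∀ y < M, use C0 (c0 n + y) = ψ1 y + ψ2 y := by
    intro y hy
    have a1 := q1 y hy
    have a2 := q2 y hy
    omega
  have q4 : ∀ j < ps.length, ∀ v < n, n * j + v < M := by
    intro j hj v hv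
    rw [← hM]
    exact lin_lt_swap hv hj
  refine ⟨C0, C1 ++ (C2 ++ (C3 ++ (C4 ++ C5))), s, D, φ, ?_, ?_, hD, ?_, hs, ?_, ?_⟩
  · rw [e0, e1, e2, e3, e4, e5, e6]
    simp only [List.append_assoc]
  · have l1 := g1.length_eq
    have l2 := g2.length_eq
    have l3 := g3.length_eq
    have l4 := g4.length_eq
    have l5 := g5.length_eq
    rw [sU_length] at l1 l2 l3 l4 l5
    simp only [List.length_append, List.length_singleton]
    omega
  · intro j hj v hv
    have a1 := u0 j hj v hv
    refine ⟨a1, ?_⟩
    have hy := q4 j hj v hv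
    have a2 := q3 (n * j + v) hy
    rw [← add_assoc] at a2
    rw [← a1, a2]
    have := k3 _ hy
    have := k4 _ hy
    omega
  · intro v hv
    have q := hb (n + v) (by omega)
    rw [if_neg (by omega), if_pos (by omega), hu, z0 _ (Or.inl (by omega)),
      sX_zero (fun i _ => ⟨by omega, by omega⟩), sX_zero (fun i _ => ⟨by omega, by omega⟩),
      sX_zero (fun i _ => ⟨by omega, by have := md_lt (n := n) (y := i) (by omega); omega⟩),
      sX_zero (fun i _ => ⟨by omega, by have := md_lt (n := n) (y := i) (by omega); omega⟩),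
      sX_two (y := v) hv (fun i _ => by omega) (fun i _ => by omega),
      useU_single, if_neg (show ¬ 2 * n = n + v by omega)] at q
    omega
  · intro v hv
    have q := hb v (by omega)
    rw [if_pos hv, hu, z0 _ (Or.inl (by omega)),
      sX_zero (fun i _ => ⟨by omega, by omega⟩), sX_zero (fun i _ => ⟨by omega, by omega⟩),
      sX_g (fun i _ => by omega), sX_g (fun i _ => by omega),
      sX_one (y := v) hv (fun i _ => by omega) (fun i _ => by omega),
      useU_single, if_neg (show ¬ 2 * n = v by omega)] at q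
    rw [← hM, sum_blocks n _ v hv, sum_blocks n _ v hv] at q
    have e : ∑ j ∈ range ps.length, use (D.getD j []) v =
        ∑ j ∈ range ps.length, ψ1 (n * j + v) + ∑ j ∈ range ps.length, ψ2 (n * j + v) := by
      rw [← Finset.sum_add_distrib]
      refine Finset.sum_congr rfl fun j hj => ?_
      have hj := Finset.mem_range.1 hj
      rw [← u0 j hj v hv, add_assoc, q3 _ (q4 j hj v hv)]
    rw [e]
    omega

theorem range_sum_getD {β : Type*} (F : β → ℕ) (d : β) (l : List β) {J : ℕ} (hJ : l.length = J) :
    (l.map F).sum = ∑ j ∈ range J, F (l.getD j d) := by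
  subst hJ
  rw [← sum_getD F d l, Finset.sum_range]

/-- the output of the round gadget is a configuration at an unknown port -/
theorem cap_ok {n : ℕ} {τ : List ℕ} {ps : List (List (List ℕ × List ℕ))} {Um Up : List ℕ}
    (h : capF n τ ps Um Up = true) :
    Cfg n τ ps Um Up (capS n τ ps Um Up) (capP n τ ps Um Up) := by
  have h1 := sel_ok h
  change Ch _ _ _ _ (capC n τ ps Um Up) at h1
  obtain ⟨C0, R, s, D, φ, e1, e2, hD, hu, hs, hφ, hv⟩ := cap_fwd h1
  have eD : capD n τ ps Um Up = C0.reverse := by
    unfold capD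
    rw [e1, List.reverse_append, List.drop_left' (by rw [List.length_reverse, e2])]
  have eP : capP n τ ps Um Up = s := by
    unfold capP
    rw [e1, ← List.append_assoc, List.reverse_append]
    rfl
  have hDl : D.length = ps.length := hD.length_eq.symm
  have hcnt : ∀ j < ps.length, ∀ v,
      (blk n (c0 n + n * j) (vec (capD n τ ps Um Up))).count v = use (D.getD j []) v ∧
        use (D.getD j []) v ≤ 2 := by
    intro j hj v
    rw [count_blk, eD, count_vec, use_reverse]
    by_cases hv : v < n
    · rw [if_pos hv]; exact hu j hj v hv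
    · rw [if_neg hv]
      have h2 := (List.forall₂_iff_get.1 hD).2 j hj (by rwa [hDl])
      rw [List.getD_eq_getElem _ _ (by rwa [hDl])]
      simp only [List.get_eq_getElem] at h2
      have := use_zero h2 (not_lt.1 hv)
      omega
  have hsum : ∀ v, ((capS n τ ps Um Up).map fun k => k.count v).sum =
      ∑ j ∈ range ps.length, use (D.getD j []) v := by
    intro v
    unfold capS
    rw [List.map_map, list_sum_range]
    refine Finset.sum_congr rfl fun j hj => ?_
    exact (hcnt j (Finset.mem_range.1 hj) v).1
  refine ⟨?_, ?_⟩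
  · rw [List.forall₂_iff_get]
    refine ⟨by simp [capS], ?_⟩
    intro j hj hj'
    have h2 := (List.forall₂_iff_get.1 hD).2 j hj (by rwa [hDl])
    refine ⟨D.getD j [], ?_, ?_⟩
    · rw [List.getD_eq_getElem _ _ (by rwa [hDl])]
      simpa using h2
    · intro v
      have h3 := hcnt j hj v
      simp only [capS, List.get_eq_getElem, List.getElem_map, List.getElem_range]
      exact ⟨h3.1, by rw [h3.1]; exact h3.2⟩
  · rw [eP]
    rcases hs with ⟨hs, hs'⟩ | ⟨v₀, hv₀, hv₀', rfl⟩
    · left
      refine ⟨hs, hs', ?_⟩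
      intro v hv'
      have a1 := hφ v hv'
      have a2 := hv v hv'
      rw [hsum]
      rw [if_neg (by omega)] at a1
      omega
    · right
      refine ⟨v₀, hv₀, hv₀', rfl, ?_⟩
      intro v hv'
      have a1 := hφ v hv'
      have a2 := hv v hv'
      rw [hsum]
      rw [if_neg (by omega)] at a2
      have e : (n + v₀ = n + v) ↔ v₀ = v := by omega
      simp only [e] at a1
      omega

/-- choices for the pieces -/
theorem pv_choices {n : ℕ} {ps : List (List (List ℕ × List ℕ))} {ks : List (List ℕ)}
    (h : List.Forall₂ (PV n) ps ks) :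
    ∃ D : List (List (List (ℕ × ℕ))), List.Forall₂ (List.Forall₂ (ChU n)) ps D ∧
      (∀ j < ps.length, ∀ v, use (D.getD j []) v ≤ 2) ∧
      ∀ v, (ks.map fun k => k.count v).sum = ∑ j ∈ range ps.length, use (D.getD j []) v := by
  have h1 : ∃ D : List (List (List (ℕ × ℕ))), List.Forall₂ (List.Forall₂ (ChU n)) ps D ∧
      List.Forall₂ (fun (k : List ℕ) d => ∀ v, k.count v = use d v ∧ k.count v ≤ 2) ks D := by
    induction h with
    | nil => exact ⟨[], List.Forall₂.nil, List.Forall₂.nil⟩
    | cons a _ ih =>
      obtain ⟨D, h1, h2⟩ := ih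
      obtain ⟨d, h3, h4⟩ := a
      exact ⟨d :: D, List.Forall₂.cons h3 h1, List.Forall₂.cons h4 h2⟩
  obtain ⟨D, h1, h2⟩ := h1
  have hDl : D.length = ps.length := h1.length_eq.symm
  refine ⟨D, h1, ?_, ?_⟩
  · intro j hj v
    have h3 := (List.forall₂_iff_get.1 h2).2 j (by rw [h2.length_eq, hDl]; exact hj) (by rwa [hDl]) v
    rw [List.getD_eq_getElem _ _ (by rwa [hDl])]
    simp only [List.get_eq_getElem] at h3
    omega
  · intro v
    rw [← range_sum_getD (fun d => use d v) [] D hDl]
    have h3 : ∀ {ks : List (List ℕ)} {D : List (List (List (ℕ × ℕ)))},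
        List.Forall₂ (fun (k : List ℕ) d => ∀ v, k.count v = use d v ∧ k.count v ≤ 2) ks D →
        (ks.map fun k => k.count v).sum = (D.map fun d => use d v).sum := by
      intro ks D h
      induction h with
      | nil => rfl
      | cons a _ ih => rw [List.map_cons, List.map_cons, List.sum_cons, List.sum_cons, ih, (a v).1]
    exact h3 h2

/-- if there is a configuration at an unknown port, the round gadget is feasible -/
theorem cap_of {n : ℕ} {τ : List ℕ} {ps : List (List (List ℕ × List ℕ))} {Um Up : List ℕ}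
    {ks : List (List ℕ)} {s : ℕ} (h : Cfg n τ ps Um Up ks s) : capF n τ ps Um Up = true := by
  obtain ⟨D, hD, hD2, hsum⟩ := pv_choices h.pv
  have hN : capN n ps.length = c0 n + n * ps.length + n * ps.length := rfl
  have hc0 : c0 n = 2 * n + 1 := rfl
  -- the values of the port
  obtain ⟨hs, hs2, φ, hφ1, hφ2, hφ⟩ : ((s ∈ Um ∧ s < n) ∨ ∃ v₀ ∈ Up, v₀ < n ∧ s = n + v₀) ∧
      s < 2 * n ∧ ∃ φ : ℕ → ℕ, (∀ v, φ v ≤ 1) ∧ (∀ v < n, φ v + (if s = n + v then 1 else 0) = 1) ∧
      ∀ v < n, ∑ j ∈ range ps.length, use (D.getD j []) v + φ v + (if s = v then 1 else 0) =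
        τ.getD v 0 + 1 := by
    rcases h.port with ⟨h1, h2, h3⟩ | ⟨v₀, h1, h2, rfl, h3⟩
    · refine ⟨Or.inl ⟨h1, h2⟩, by omega, fun _ => 1, fun _ => le_rfl, ?_, ?_⟩
      · intro v hv
        rw [if_neg (by omega)]
      · intro v hv
        have := h3 v hv
        rw [hsum] at this
        dsimp only
        omega
    · refine ⟨Or.inr ⟨v₀, h1, h2, rfl⟩, by omega, fun v => if v₀ = v then 0 else 1, ?_, ?_, ?_⟩
      · intro v; dsimp only; split_ifs <;> omega
      · intro v hv
        have e : (n + v₀ = n + v) ↔ v₀ = v := by omega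
        simp only [e]
        split_ifs <;> rfl
      · intro v hv
        have := h3 v hv
        rw [hsum] at this
        rw [if_neg (show ¬ n + v₀ = v by omega), this]
        dsimp only
        split_ifs <;> omega
  -- the slots
  set κ : ℕ → ℕ := fun y => use (D.getD (y / n) []) (y % n) with hκ
  have hκ2 : ∀ y < n * ps.length, κ y ≤ 2 := by
    intro y hy
    exact hD2 _ (Nat.div_lt_of_lt_mul hy) _
  obtain ⟨C0, g0, u0, z0⟩ := pcU_bwd (N := capN n ps.length) (o := c0 n) (by rw [hN]; omega) hD
  obtain ⟨C1, g1, u1⟩ := sU_mk (N := capN n ps.length) (m := n * ps.length)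
    (f := fun y => c0 n + y) (g := fun y => c0 n + n * ps.length + y)
    (fun i hi => by rw [hN]; omega) (fun i hi => by rw [hN]; omega)
    (fun y => if κ y ≤ 1 then 1 else 0) (fun i _ => by split_ifs <;> omega)
  obtain ⟨C2, g2, u2⟩ := sU_mk (N := capN n ps.length) (m := n * ps.length)
    (f := fun y => c0 n + y) (g := fun y => c0 n + n * ps.length + y)
    (fun i hi => by rw [hN]; omega) (fun i hi => by rw [hN]; omega)
    (fun y => if κ y = 0 then 1 else 0) (fun i _ => by split_ifs <;> omega)
  have hmd : ∀ i < n * ps.length, md n i < n := by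
    intro i hi
    refine md_lt ?_
    rcases Nat.eq_zero_or_pos n with h0 | h0
    · rw [h0, zero_mul] at hi; omega
    · exact h0
  obtain ⟨C3, g3, u3⟩ := sU_mk (N := capN n ps.length) (m := n * ps.length)
    (f := fun y => c0 n + n * ps.length + y) (g := fun y => md n y)
    (fun i hi => by rw [hN]; omega) (fun i hi => by have := hmd i hi; rw [hN]; omega)
    (fun y => if 1 ≤ κ y then 1 else 0) (fun i _ => by split_ifs <;> omega)
  obtain ⟨C4, g4, u4⟩ := sU_mk (N := capN n ps.length) (m := n * ps.length)
    (f := fun y => c0 n + n * ps.length + y) (g := fun y => md n y)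
    (fun i hi => by rw [hN]; omega) (fun i hi => by have := hmd i hi; rw [hN]; omega)
    (fun y => if 2 ≤ κ y then 1 else 0) (fun i _ => by split_ifs <;> omega)
  obtain ⟨C5, g5, u5⟩ := sU_mk (N := capN n ps.length) (m := n) (f := fun v => v) (g := fun v => n + v)
    (fun i hi => by rw [hN]; omega) (fun i hi => by rw [hN]; omega) φ (fun i _ => hφ1 i)
  have g6 : ChU (capN n ps.length) (tok n Um Up) [(s, 2 * n)] := by
    refine Or.inr ⟨s, ?_, 2 * n, by simp [tok], by rw [hN]; omega, by rw [hN]; omega, rfl⟩
    simp only [tok, List.mem_append, List.mem_filter, List.mem_map, decide_eq_true_eq]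
    rcases hs with hs | ⟨v₀, h1, h2, rfl⟩
    · exact Or.inl hs
    · exact Or.inr ⟨v₀, ⟨h1, h2⟩, rfl⟩
  unfold capF
  rw [feas_iff]
  refine ⟨C0 ++ (C1 ++ (C2 ++ (C3 ++ (C4 ++ (C5 ++ [[(s, 2 * n)]]))))), ?_⟩
  have hu : ∀ x < capN n ps.length, use (C0 ++ (C1 ++ (C2 ++ (C3 ++ (C4 ++ (C5 ++ [[(s, 2 * n)]])))))) x =
      if x < n then τ.getD x 0 + 1 else if x < c0 n then 1 else 2 := by
    intro x hx
    rw [use_append, use_append, use_append, use_append, use_append, use_append, u1, u2, u3, u4, u5,
      use_cons, use_nil, useU_single]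
    rw [hN] at hx
    by_cases hx1 : x < n
    · rw [if_pos hx1, z0 _ (Or.inl (by omega)),
        sX_zero (fun i _ => ⟨by omega, by omega⟩), sX_zero (fun i _ => ⟨by omega, by omega⟩),
        sX_g (fun i _ => by omega), sX_g (fun i _ => by omega),
        sX_one (y := x) hx1 (fun i _ => by omega) (fun i _ => by omega),
        if_neg (show ¬ 2 * n = x by omega), sum_blocks n _ x hx1, sum_blocks n _ x hx1]
      have e : ∑ j ∈ range ps.length, use (D.getD j []) x =
          ∑ j ∈ range ps.length, (if 1 ≤ κ (n * j + x) then 1 else 0) +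
          ∑ j ∈ range ps.length, (if 2 ≤ κ (n * j + x) then 1 else 0) := by
        rw [← Finset.sum_add_distrib]
        refine Finset.sum_congr rfl fun j hj => ?_
        have hn : 0 < n := by omega
        have e1 : (n * j + x) / n = j := by rw [Nat.mul_add_div hn, Nat.div_eq_of_lt hx1, add_zero]
        have e2 : (n * j + x) % n = x := by rw [Nat.mul_add_mod, Nat.mod_eq_of_lt hx1]
        have h2 := hD2 j (Finset.mem_range.1 hj) x
        have e3 : κ (n * j + x) = use (D.getD j []) x := by rw [hκ]; dsimp only; rw [e1, e2]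
        rw [e3]
        split_ifs <;> omega
      have := hφ x hx1
      rw [e] at this
      omega
    · rw [if_neg hx1]
      by_cases hx2 : x < 2 * n
      · obtain ⟨v, rfl⟩ : ∃ v, x = n + v := ⟨x - n, by omega⟩
        rw [if_pos (show n + v < c0 n by omega), z0 _ (Or.inl (by omega)),
          sX_zero (fun i _ => ⟨by omega, by omega⟩), sX_zero (fun i _ => ⟨by omega, by omega⟩),
          sX_zero (fun i hi => ⟨by omega, by have := hmd i hi; omega⟩),
          sX_zero (fun i hi => ⟨by omega, by have := hmd i hi; omega⟩),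
          sX_two (y := v) (by omega) (fun i _ => by omega) (fun i _ => by omega),
          if_neg (show ¬ 2 * n = n + v by omega)]
        have := hφ2 v (by omega)
        omega
      · by_cases hx3 : x = 2 * n
        · rw [if_pos (show x < c0 n by omega), z0 _ (Or.inl (by omega)),
            sX_zero (fun i _ => ⟨by omega, by omega⟩), sX_zero (fun i _ => ⟨by omega, by omega⟩),
            sX_zero (fun i hi => ⟨by omega, by have := hmd i hi; omega⟩),
            sX_zero (fun i hi => ⟨by omega, by have := hmd i hi; omega⟩),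
            sX_zero (fun i _ => ⟨by omega, by omega⟩), if_neg (show ¬ s = x by omega),
            if_pos (show 2 * n = x by omega)]
        · rw [if_neg (show ¬ x < c0 n by omega), if_neg (show ¬ s = x by omega),
            if_neg (show ¬ 2 * n = x by omega)]
          by_cases hx4 : x < c0 n + n * ps.length
          · obtain ⟨y, rfl⟩ : ∃ y, x = c0 n + y := ⟨x - c0 n, by omega⟩
            have hy : y < n * ps.length := by omega
            have hn : 0 < n := lt_of_le_of_lt (Nat.zero_le _) (hmd y hy)
            have a1 : use C0 (c0 n + y) = κ y := by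
              have := u0 (y / n) (Nat.div_lt_of_lt_mul hy) (y % n) (Nat.mod_lt _ hn)
              rw [add_assoc, Nat.div_add_mod] at this
              exact this
            rw [a1, sX_one (y := y) hy (fun i _ => by omega) (fun i _ => by omega),
              sX_one (y := y) hy (fun i _ => by omega) (fun i _ => by omega),
              sX_zero (fun i hi => ⟨by omega, by have := hmd i hi; omega⟩),
              sX_zero (fun i hi => ⟨by omega, by have := hmd i hi; omega⟩),
              sX_zero (fun i _ => ⟨by omega, by omega⟩)]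
            have := hκ2 y hy
            split_ifs <;> omega
          · obtain ⟨y, rfl⟩ : ∃ y, x = c0 n + n * ps.length + y :=
              ⟨x - (c0 n + n * ps.length), by omega⟩
            have hy : y < n * ps.length := by omega
            rw [z0 _ (Or.inr (by omega)),
              sX_two (y := y) hy (fun i _ => by omega) (fun i _ => by omega),
              sX_two (y := y) hy (fun i _ => by omega) (fun i _ => by omega),
              sX_one (y := y) hy (fun i _ => by omega) (fun i hi => by have := hmd i hi; omega),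
              sX_one (y := y) hy (fun i _ => by omega) (fun i hi => by have := hmd i hi; omega),
              sX_zero (fun i _ => ⟨by omega, by omega⟩)]
            have := hκ2 y hy
            split_ifs <;> omega
  refine ⟨?_, ?_, ?_⟩
  · exact List.rel_append g0 (List.rel_append g1 (List.rel_append g2 (List.rel_append g3
      (List.rel_append g4 (List.rel_append g5 (List.Forall₂.cons g6 List.Forall₂.nil))))))
  · intro x hx
    rw [hu x hx, capB_get τ hx]
  · intro x hx
    rw [hu x hx, capB_get τ hx]

/-- `capF` decides whether there is a configuration at an unknown port -/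
theorem cap_iff (n : ℕ) (τ : List ℕ) (ps : List (List (List ℕ × List ℕ))) (Um Up : List ℕ) :
    capF n τ ps Um Up = true ↔ ∃ ks s, Cfg n τ ps Um Up ks s :=
  ⟨fun h => ⟨_, _, cap_ok h⟩, fun ⟨_, _, h⟩ => cap_of h⟩

end Pool.Agent.PF4.Gd
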