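import Pool.Agent.PF4.Outer

/-!
# The inner loop, dead-list form

`cl x g N` is the clause of a `g`-cover `N`: the forbidden squares of `N` with two opposite corners of demand `2`. The state
of the loop is a list of dead squares `(R, Z, F)` (`F` is a `g`-cover, `Z` is in its clause and in conflict with `R`, and
`xf1` could not remove `Z` from `F` relative to `R`; so `R` can be removed from every `g`-cover relative to `Z`). The solver is
called for a maximal conflict-free set of squares which are not dead.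
-/

set_option autoImplicit false

namespace Pool.Agent.PF4

open Pool.Agent.Lib.helper60

section grd

variable {κ : Type} [DecidableEq κ]

/-- one step of the greedy selection -/
def grds (conf : κ → κ → Bool) (D : List κ) (q : κ) : List κ :=
  bif D.any (fun R => conf q R) then D else q :: D

/-- greedy maximal conflict-free sublist -/
def grd (conf : κ → κ → Bool) (l : List κ) : List κ := l.foldl (grds conf) []

theorem grd_aux (conf : κ → κ → Bool) (S : κ → Prop) (hself : ∀ q, S q → conf q q = false)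
    (hsymm : ∀ q r, S q → S r → conf q r = conf r q) : ∀ (l D : List κ), l.Nodup → D.Nodup →
    (∀ q ∈ l, S q) → (∀ q ∈ D, S q) → (∀ q ∈ l, q ∉ D) →
    (∀ q ∈ D, ∀ r ∈ D, conf q r = false) →
    (l.foldl (grds conf) D).Nodup ∧ (∀ q ∈ D, q ∈ l.foldl (grds conf) D) ∧
    (∀ q ∈ l.foldl (grds conf) D, q ∈ D ∨ q ∈ l) ∧
    (∀ q ∈ l.foldl (grds conf) D, ∀ r ∈ l.foldl (grds conf) D, conf q r = false) ∧
    (∀ q ∈ l, q ∈ l.foldl (grds conf) D ∨ ∃ r ∈ l.foldl (grds conf) D, conf q r = true) := by
  intro l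
  induction l with
  | nil =>
    intro D _ hD _ _ _ hf
    exact ⟨hD, fun q hq => hq, fun q hq => Or.inl hq, hf, fun q hq => by simp at hq⟩
  | cons a l ih =>
    intro D hl hD hSl hSD hdis hf
    rw [List.foldl_cons]
    obtain ⟨hal, hl'⟩ := List.nodup_cons.1 hl
    cases hc : D.any (fun R => conf a R) with
    | true =>
      have e : grds conf D a = D := by unfold grds; rw [hc]; rfl
      rw [e]
      obtain ⟨i1, i2, i3, i4, i5⟩ := ih D hl' hD (fun q hq => hSl q (List.mem_cons_of_mem _ hq)) hSD
        (fun q hq => hdis q (List.mem_cons_of_mem _ hq)) hf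
      refine ⟨i1, i2, fun q hq => (i3 q hq).imp_right (List.mem_cons_of_mem _), i4, ?_⟩
      intro q hq
      rcases List.mem_cons.1 hq with rfl | hq
      · obtain ⟨r, hr, hr2⟩ := List.any_eq_true.1 hc
        exact Or.inr ⟨r, i2 r hr, hr2⟩
      · exact i5 q hq
    | false =>
      have e : grds conf D a = a :: D := by unfold grds; rw [hc]; rfl
      rw [e]
      have hc' : ∀ r ∈ D, conf a r = false := by
        intro r hr
        rw [List.any_eq_false] at hc
        exact Bool.not_eq_true _ ▸ hc r hr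
      have hSa := hSl a List.mem_cons_self
      obtain ⟨i1, i2, i3, i4, i5⟩ := ih (a :: D) hl'
        (List.nodup_cons.2 ⟨hdis a List.mem_cons_self, hD⟩)
        (fun q hq => hSl q (List.mem_cons_of_mem _ hq))
        (fun q hq => by
          rcases List.mem_cons.1 hq with rfl | hq
          · exact hSa
          · exact hSD q hq)
        (fun q hq h => by
          rcases List.mem_cons.1 h with rfl | h
          · exact hal hq
          · exact hdis q (List.mem_cons_of_mem _ hq) h)
        (fun q hq r hr => by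
          rcases List.mem_cons.1 hq with e1 | h1 <;> rcases List.mem_cons.1 hr with e2 | h2
          · rw [e1, e2]; exact hself _ hSa
          · rw [e1]; exact hc' r h2
          · rw [e2, hsymm q _ (hSD q h1) hSa]; exact hc' q h1
          · exact hf q h1 r h2)
      refine ⟨i1, fun q hq => i2 q (List.mem_cons_of_mem _ hq), ?_, i4, ?_⟩
      · intro q hq
        rcases i3 q hq with h | h
        · rcases List.mem_cons.1 h with rfl | h
          · exact Or.inr List.mem_cons_self
          · exact Or.inl h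
        · exact Or.inr (List.mem_cons_of_mem _ h)
      · intro q hq
        rcases List.mem_cons.1 hq with rfl | hq
        · exact Or.inl (i2 q List.mem_cons_self)
        · exact i5 q hq

/-- the greedy selection is conflict-free and maximal -/
theorem grd_spec (conf : κ → κ → Bool) {l : List κ} (hl : l.Nodup)
    (hself : ∀ q ∈ l, conf q q = false) (hsymm : ∀ q ∈ l, ∀ r ∈ l, conf q r = conf r q) :
    (grd conf l).Nodup ∧ (∀ q ∈ grd conf l, q ∈ l) ∧
    (∀ q ∈ grd conf l, ∀ r ∈ grd conf l, conf q r = false) ∧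
    (∀ q ∈ l, q ∈ grd conf l ∨ ∃ r ∈ grd conf l, conf q r = true) := by
  obtain ⟨h1, _, h3, h4, h5⟩ := grd_aux conf (fun q => q ∈ l) hself (fun q r hq hr => hsymm q hq r hr)
    l [] hl List.nodup_nil (fun q hq => hq) (fun q hq => by simp at hq) (fun q _ h => by simp at h)
    (fun q hq => by simp at hq)
  exact ⟨h1, fun q hq => (h3 q hq).resolve_left (by simp), h4, h5⟩

omit [DecidableEq κ] in
theorem grd_size [DEnc κ] (conf : κ → κ → Bool) : ∀ (l D : List κ),
    tsize (l.foldl (grds conf) D) ≤ tsize D + tsize l := by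
  intro l
  induction l with
  | nil => intro D; simp
  | cons a l ih =>
    intro D
    rw [List.foldl_cons]
    refine (ih _).trans ?_
    unfold grds
    cases D.any (fun R => conf a R) with
    | true => simp only [cond_true, tsize_cons]; omega
    | false => simp only [cond_false, tsize_cons]; omega

omit [DecidableEq κ] in
theorem tsize_headD [DEnc κ] (l : List κ) (d : κ) : tsize (l.headD d) ≤ tsize l + tsize d := by
  cases l with
  | nil => exact Nat.le_add_left _ _
  | cons a l => simp only [List.headD_cons, tsize_cons]; omega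

theorem tsize_filter' {β : Type} [DEnc β] (p : β → Bool) (l : List β) :
    tsize (l.filter p) ≤ tsize l := by
  induction l with
  | nil => exact le_rfl
  | cons x l ih =>
    rw [List.filter_cons]
    split
    · simp only [tsize_cons]
      omega
    · simp only [tsize_cons]
      omega

end grd

/-- the interface of the inner loop in dead-list form -/
structure In2Api (ι O κ : Type) [DEnc ι] [DEnc O] [DEnc κ] [DecidableEq κ] where
  /-- number of vertices -/
  nv : ι → ℕ
  /-- degree of a vertex in an object -/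
  deg : ι → O → ℕ → ℕ
  /-- 2-matchings -/
  m2 : ι → O → Prop
  /-- well-formed instances -/
  wf : ι → Prop
  /-- the list of the forbidden squares -/
  sqs : ι → List κ
  /-- the square is contained in the object -/
  has : ι → O → κ → Bool
  /-- the square has two opposite corners of demand 2 -/
  opp : ι → List ℕ → κ → Bool
  /-- the two squares share exactly one edge -/
  conf : κ → κ → Bool
  /-- the empty object -/
  emp : O
  /-- a dummy square -/
  k0 : κ
  /-- `exch (x, M, L, v)`: the two-step exchange from `M` towards `L` with first step `+ e_v` -/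
  exch : ι × O × O × ℕ → O
  /-- `solver (x, g, W, DD)` -/
  solver : ι × List ℕ × List (ℕ × O) × List κ → Bool × O
  /-- `xf1 (x, g, W, N, Q, R)` -/
  xf1 : ι × List ℕ × List (ℕ × O) × O × κ × κ → Bool × O
  /-- `brk (x, g, N)` -/
  brk : ι × List ℕ × O → O
  /-- bound of the sizes of the objects -/
  B : ι → ℕ
  pt_nv : PT nv
  pt_deg : PT (fun y : ι × O × ℕ => deg y.1 y.2.1 y.2.2)
  pt_sqs : PT sqs
  pt_has : PT (fun y : ι × O × κ => has y.1 y.2.1 y.2.2)
  pt_opp : PT (fun y : ι × List ℕ × κ => opp y.1 y.2.1 y.2.2)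
  pt_conf : PT (fun y : κ × κ => conf y.1 y.2)
  pt_eq : PT (fun y : κ × κ => decide (y.1 = y.2))
  pt_exch : PT exch
  pt_solver : PT solver
  pt_xf1 : PT xf1
  pt_brk : PT brk
  pb : PB B
  size_exch : ∀ y, tsize (exch y) ≤ B y.1
  size_solver : ∀ y, tsize (solver y).2 ≤ B y.1
  size_xf1 : ∀ y, tsize (xf1 y).2 ≤ B y.1
  sqs_nodup : ∀ x, wf x → (sqs x).Nodup
  conf_self : ∀ x Q, wf x → Q ∈ sqs x → conf Q Q = false
  conf_symm : ∀ x Q R, wf x → Q ∈ sqs x → R ∈ sqs x → conf Q R = conf R Q
  emp_valid : ∀ x, wf x → m2 x emp ∧ ∀ Q ∈ sqs x, has x emp Q = false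
  exch_spec : ∀ x M L v, wf x → (m2 x M ∧ ∀ Q ∈ sqs x, has x M Q = false) →
    (m2 x L ∧ ∀ Q ∈ sqs x, has x L Q = false) → v < nv x → deg x M v < deg x L v →
    (m2 x (exch (x, M, L, v)) ∧ ∀ Q ∈ sqs x, has x (exch (x, M, L, v)) Q = false) ∧
      ((∀ u < nv x, deg x M u + (if u = v then 1 else 0) ≤ deg x (exch (x, M, L, v)) u) ∨
        ∃ j < nv x, j ≠ v ∧ deg x L j < deg x M j ∧ ∀ u < nv x,
          deg x M u + (if u = v then 1 else 0) =
            deg x (exch (x, M, L, v)) u + (if u = j then 1 else 0))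
  solver_spec : ∀ x g W v DD, wf x →
    Dat nv deg (fun x M => m2 x M ∧ ∀ Q ∈ sqs x, has x M Q = false) x g W v →
    (∀ u < nv x, g.getD u 0 = 0 ∨ g.getD u 0 = 2) →
    DD.Nodup → (∀ Q ∈ DD, Q ∈ sqs x ∧ opp x g Q = true) →
    (∀ Q ∈ DD, ∀ R ∈ DD, conf Q R = false) →
    ((solver (x, g, W, DD)).1 = true →
      m2 x (solver (x, g, W, DD)).2 ∧ Cov (nv x) g (deg x (solver (x, g, W, DD)).2) ∧
      ∀ Q ∈ DD, has x (solver (x, g, W, DD)).2 Q = false) ∧
    ((solver (x, g, W, DD)).1 = false →
      ¬ ∃ L, (m2 x L ∧ ∀ Q ∈ sqs x, has x L Q = false) ∧ Cov (nv x) g (deg x L))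
  xf1_spec : ∀ x g W v N Q R, wf x →
    Dat nv deg (fun x M => m2 x M ∧ ∀ Q ∈ sqs x, has x M Q = false) x g W v →
    (∀ u < nv x, g.getD u 0 = 0 ∨ g.getD u 0 = 2) →
    m2 x N → Cov (nv x) g (deg x N) →
    Q ∈ (sqs x).filter (fun Q => opp x g Q && has x N Q) →
    R ∈ sqs x → opp x g R = true → conf Q R = true →
    (xf1 (x, g, W, N, Q, R)).1 = true →
    m2 x (xf1 (x, g, W, N, Q, R)).2 ∧ Cov (nv x) g (deg x (xf1 (x, g, W, N, Q, R)).2) ∧
      ∀ Z ∈ (sqs x).filter (fun Q' => opp x g Q' && has x (xf1 (x, g, W, N, Q, R)).2 Q'),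
          Z ∈ (sqs x).filter (fun Q => opp x g Q && has x N Q) ∧ Z ≠ Q
  xf1_alt : ∀ x g W v F N Q R, wf x →
    Dat nv deg (fun x M => m2 x M ∧ ∀ Q ∈ sqs x, has x M Q = false) x g W v →
    (∀ u < nv x, g.getD u 0 = 0 ∨ g.getD u 0 = 2) →
    m2 x F → Cov (nv x) g (deg x F) → m2 x N → Cov (nv x) g (deg x N) →
    Q ∈ (sqs x).filter (fun Q => opp x g Q && has x F Q) →
    R ∈ (sqs x).filter (fun Q => opp x g Q && has x N Q) → conf Q R = true →
    (xf1 (x, g, W, F, Q, R)).1 = true ∨ (xf1 (x, g, W, N, R, Q)).1 = true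
  brk_spec : ∀ x g N, wf x → g.length = nv x → (∀ u < nv x, g.getD u 0 ≤ 2) → m2 x N →
    Cov (nv x) g (deg x N) → (sqs x).filter (fun Q => opp x g Q && has x N Q) = [] →
    (m2 x (brk (x, g, N)) ∧ ∀ Q ∈ sqs x, has x (brk (x, g, N)) Q = false) ∧
      Cov (nv x) g (deg x (brk (x, g, N)))

namespace In2Api

variable {ι O κ : Type} [DEnc ι] [DEnc O] [DEnc κ] [DecidableEq κ] (A : In2Api ι O κ)

/-- 2-matching without forbidden square -/
def valid (x : ι) (M : O) : Prop := A.m2 x M ∧ ∀ Q ∈ A.sqs x, A.has x M Q = false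

/-- the clause of `N` -/
def cl (x : ι) (g : List ℕ) (N : O) : List κ := (A.sqs x).filter (fun Q => A.opp x g Q && A.has x N Q)

/-- dead squares with their certificates -/
abbrev Dd (O κ : Type) : Type := List (κ × κ × O)

/-- the candidates: harmful squares that are not dead -/
def cand (x : ι) (g : List ℕ) (dead : Dd O κ) : List κ :=
  (A.sqs x).filter (fun q => A.opp x g q && !dead.any (fun t => decide (t.1 = q)))

/-- the family of the squares for which the solver is called -/
def dd (x : ι) (g : List ℕ) (dead : Dd O κ) : List κ := grd A.conf (A.cand x g dead)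

/-- data of the inner problem -/
abbrev Cx (ι O : Type) : Type := ι × List ℕ × List (ℕ × O)

/-- state: data, dead squares, mode (0: call the solver, 1: treat `N`, 2: found, 3: none), `N` -/
abbrev Is (ι O κ : Type) : Type := Cx ι O × Dd O κ × ℕ × O

/-- one round -/
def istep (s : Is ι O κ) : Is ι O κ :=
  let x := s.1.1
  let g := s.1.2.1
  let W := s.1.2.2
  let dead := s.2.1
  let N := s.2.2.2
  if s.2.2.1 = 0 then
    let r := A.solver (x, g, W, A.dd x g dead)
    bif r.1 then ((x, g, W), dead, 1, r.2) else ((x, g, W), dead, 3, N)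
  else if s.2.2.1 = 1 then
    if (A.cl x g N).length = 0 then ((x, g, W), dead, 2, N)
    else
      let Z := (A.cl x g N).headD A.k0
      let T := dead.filter (fun t => decide (t.1 = Z))
      if T.length = 0 then
        let R := ((A.dd x g dead).filter (fun R => A.conf Z R)).headD A.k0
        let r := A.xf1 (x, g, W, N, Z, R)
        bif r.1 then ((x, g, W), dead, 1, r.2) else ((x, g, W), (R, Z, N) :: dead, 0, N)
      else ((x, g, W), dead, 1, (A.xf1 (x, g, W, N, Z, (T.headD (A.k0, A.k0, N)).2.1)).2)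
  else s

/-- number of rounds -/
def rounds (x : ι) : ℕ :=
  (A.sqs x).length * ((A.sqs x).length + 3) + (A.sqs x).length + 3

/-- the inner algorithm -/
def inner (y : Cx ι O) : Bool × O :=
  let s := (A.istep)^[A.rounds y.1] (y, [], 0, A.emp)
  if s.2.2.1 = 2 then (true, A.brk (s.1.1, s.1.2.1, s.2.2.2)) else (false, A.emp)

/-! ### correctness -/

theorem mem_cand {x : ι} {g : List ℕ} {dead : Dd O κ} {q : κ} :
    q ∈ A.cand x g dead ↔ q ∈ A.sqs x ∧ A.opp x g q = true ∧ q ∉ dead.map Prod.fst := by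
  unfold cand
  rw [List.mem_filter, Bool.and_eq_true, Bool.not_eq_true', List.any_eq_false]
  constructor
  · rintro ⟨h1, h2, h3⟩
    refine ⟨h1, h2, fun h => ?_⟩
    obtain ⟨t, ht, rfl⟩ := List.mem_map.1 h
    exact h3 t ht (by simp)
  · rintro ⟨h1, h2, h3⟩
    refine ⟨h1, h2, fun t ht h => h3 ?_⟩
    rw [decide_eq_true_eq] at h
    exact List.mem_map.2 ⟨t, ht, h⟩

theorem dd_spec {x : ι} (hx : A.wf x) (g : List ℕ) (dead : Dd O κ) :
    (A.dd x g dead).Nodup ∧ (∀ q ∈ A.dd x g dead, q ∈ A.cand x g dead) ∧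
    (∀ q ∈ A.dd x g dead, ∀ r ∈ A.dd x g dead, A.conf q r = false) ∧
    (∀ q ∈ A.cand x g dead, q ∈ A.dd x g dead ∨ ∃ r ∈ A.dd x g dead, A.conf q r = true) :=
  grd_spec A.conf ((A.sqs_nodup x hx).filter _)
    (fun q hq => A.conf_self x q hx (A.mem_cand.1 hq).1)
    (fun q hq r hr => A.conf_symm x q r hx (A.mem_cand.1 hq).1 (A.mem_cand.1 hr).1)

theorem mem_cl {x : ι} {g : List ℕ} {N : O} {Q : κ} :
    Q ∈ A.cl x g N ↔ Q ∈ A.sqs x ∧ A.opp x g Q = true ∧ A.has x N Q = true := by
  unfold cl
  rw [List.mem_filter, Bool.and_eq_true]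

theorem cl_nodup {x : ι} (hx : A.wf x) (g : List ℕ) (N : O) : (A.cl x g N).Nodup :=
  (A.sqs_nodup x hx).filter _

/-- the invariant of the inner loop -/
structure IInv (x : ι) (g : List ℕ) (W : List (ℕ × O)) (k : ℕ) (s : Is ι O κ) : Prop where
  e : s.1 = (x, g, W)
  dead : ∀ t ∈ s.2.1, t.1 ∈ A.sqs x ∧ A.opp x g t.1 = true ∧ A.m2 x t.2.2 ∧
    Cov (A.nv x) g (A.deg x t.2.2) ∧
    t.2.1 ∈ A.cl x g t.2.2 ∧ A.conf t.2.1 t.1 = true ∧
    (A.xf1 (x, g, W, t.2.2, t.2.1, t.1)).1 = false
  nod : (s.2.1.map Prod.fst).Nodup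
  m0 : s.2.2.1 = 0 → k + (((A.sqs x).length - s.2.1.length) * ((A.sqs x).length + 3) +
    ((A.sqs x).length + 2)) < A.rounds x
  m1 : s.2.2.1 = 1 → (k + (((A.sqs x).length - s.2.1.length) * ((A.sqs x).length + 3) +
    ((A.cl x g s.2.2.2).length + 1)) < A.rounds x) ∧
    A.m2 x s.2.2.2 ∧ Cov (A.nv x) g (A.deg x s.2.2.2) ∧
    ∀ Q ∈ A.cl x g s.2.2.2, Q ∉ A.dd x g s.2.1
  m2 : s.2.2.1 = 2 → A.m2 x s.2.2.2 ∧ Cov (A.nv x) g (A.deg x s.2.2.2) ∧ A.cl x g s.2.2.2 = []
  m3 : s.2.2.1 = 3 → ¬ ∃ L, A.valid x L ∧ Cov (A.nv x) g (A.deg x L)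
  md : s.2.2.1 ≤ 3

theorem cl_shrink {x : ι} (hx : A.wf x) {g : List ℕ} {L N : O} {Q : κ} (hQ : Q ∈ A.cl x g N)
    (h : ∀ Z ∈ A.cl x g L, Z ∈ A.cl x g N ∧ Z ≠ Q) :
    (A.cl x g L).length + 1 ≤ (A.cl x g N).length := by
  have h5 : (Q :: A.cl x g L).Nodup :=
    List.nodup_cons.2 ⟨fun h' => (h _ h').2 rfl, A.cl_nodup hx g L⟩
  exact (h5.subperm fun Z hZ => by
    rcases List.mem_cons.1 hZ with rfl | hZ
    · exact hQ
    · exact (h Z hZ).1).length_le

theorem iinv_step {x : ι} {g : List ℕ} {W : List (ℕ × O)} {v k : ℕ} {s : Is ι O κ} (hx : A.wf x)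
    (hd : Dat A.nv A.deg A.valid x g W v) (h01 : ∀ u < A.nv x, g.getD u 0 = 0 ∨ g.getD u 0 = 2)
    (h : A.IInv x g W k s) :
    A.IInv x g W (k + 1) (A.istep s) := by
  obtain ⟨⟨x', g', W'⟩, dead, m, N⟩ := s
  obtain ⟨e, hdead, nod, m0, m1, m2, m3, md⟩ := h
  simp only [Prod.mk.injEq] at e hdead nod m0 m1 m2 m3 md
  obtain ⟨rfl, rfl, rfl⟩ := e
  unfold istep
  simp only
  obtain ⟨dd1, dd2, dd3, dd4⟩ := A.dd_spec hx g' dead
  by_cases h0 : m = 0
  · rw [if_pos h0]
    have key := A.solver_spec x' g' W' v (A.dd x' g' dead) hx hd h01 dd1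
      (fun Q hQ => ⟨(A.mem_cand.1 (dd2 Q hQ)).1, (A.mem_cand.1 (dd2 Q hQ)).2.1⟩) dd3
    generalize A.solver (x', g', W', A.dd x' g' dead) = r at key ⊢
    obtain ⟨r1, L⟩ := r
    have hm0 := m0 h0
    cases r1 with
    | false =>
      refine ⟨rfl, hdead, nod, ?_, ?_, ?_, fun _ => key.2 rfl, by simp⟩
      · intro h; simp at h
      · intro h; simp at h
      · intro h; simp at h
    | true =>
      obtain ⟨k1, k2, k3⟩ := key.1 rfl
      refine ⟨rfl, hdead, nod, ?_, ?_, ?_, ?_, by simp⟩
      · intro h; simp at h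
      · intro _
        refine ⟨?_, k1, k2, ?_⟩
        · have h2 : (A.cl x' g' L).length ≤ (A.sqs x').length := List.length_filter_le _ _
          simp only [cond_true]
          omega
        · intro Q hQ hQ'
          have h3 := k3 Q hQ'
          have h4 := (A.mem_cl.1 hQ).2.2
          simp only [cond_true] at h4
          simp only at h3
          rw [h4] at h3
          simp at h3
      · intro h; simp at h
      · intro h; simp at h
  · rw [if_neg h0]
    by_cases h1 : m = 1
    · rw [if_pos h1]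
      obtain ⟨hb, n1, n2, n3⟩ := m1 h1
      by_cases hc : (A.cl x' g' N).length = 0
      · rw [if_pos hc]
        refine ⟨rfl, hdead, nod, ?_, ?_, ?_, ?_, by simp⟩
        · intro h; simp at h
        · intro h; simp at h
        · intro _
          exact ⟨n1, n2, List.length_eq_zero_iff.1 hc⟩
        · intro h; simp at h
      · rw [if_neg hc]
        obtain ⟨Z, hZ1, hZ⟩ : ∃ Z, (A.cl x' g' N).headD A.k0 = Z ∧ Z ∈ A.cl x' g' N := by
          cases hcc : A.cl x' g' N with
          | nil => rw [hcc] at hc; exact absurd rfl hc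
          | cons a l => exact ⟨a, rfl, List.mem_cons_self⟩
        rw [hZ1]
        obtain ⟨z1, z2, z3⟩ := A.mem_cl.1 hZ
        by_cases hT : (dead.filter (fun t => decide (t.1 = Z))).length = 0
        · rw [if_pos hT]
          have hZc : Z ∈ A.cand x' g' dead := by
            refine A.mem_cand.2 ⟨z1, z2, fun h => ?_⟩
            obtain ⟨t, ht, rfl⟩ := List.mem_map.1 h
            have : t ∈ dead.filter (fun t' => decide (t'.1 = t.1)) :=
              List.mem_filter.2 ⟨ht, by simp⟩
            rw [List.length_eq_zero_iff.1 hT] at this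
            simp at this
          obtain ⟨R, hR1, hR, hRc⟩ : ∃ R, ((A.dd x' g' dead).filter (fun R => A.conf Z R)).headD A.k0
              = R ∧ R ∈ A.dd x' g' dead ∧ A.conf Z R = true := by
            rcases dd4 Z hZc with h | ⟨r, hr, hr2⟩
            · exact absurd h (n3 Z hZ)
            · cases hcc : (A.dd x' g' dead).filter (fun R => A.conf Z R) with
              | nil =>
                have : r ∈ (A.dd x' g' dead).filter (fun R => A.conf Z R) :=
                  List.mem_filter.2 ⟨hr, hr2⟩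
                rw [hcc] at this
                simp at this
              | cons a l =>
                have : a ∈ (A.dd x' g' dead).filter (fun R => A.conf Z R) := by
                  rw [hcc]; exact List.mem_cons_self
                obtain ⟨a1, a2⟩ := List.mem_filter.1 this
                exact ⟨a, rfl, a1, a2⟩
          rw [hR1]
          obtain ⟨r1, r2, r3⟩ := A.mem_cand.1 (dd2 R hR)
          have key := A.xf1_spec x' g' W' v N Z R hx hd h01 n1 n2 hZ r1 r2 hRc
          cases hr : (A.xf1 (x', g', W', N, Z, R)).1 with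
          | true =>
            obtain ⟨k1, k2, k3⟩ := key hr
            have hsh := A.cl_shrink hx hZ k3
            refine ⟨rfl, hdead, nod, ?_, ?_, ?_, ?_, by simp⟩
            · intro h; simp at h
            · intro _
              refine ⟨?_, k1, k2, fun Q hQ => n3 Q (k3 Q hQ).1⟩
              simp only [cond_true]
              omega
            · intro h; simp at h
            · intro h; simp at h
          | false =>
            have hnod' : (((R, Z, N) :: dead).map Prod.fst).Nodup := by
              rw [List.map_cons, List.nodup_cons]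
              exact ⟨r3, nod⟩
            have hdead' : ∀ t ∈ (R, Z, N) :: dead, t.1 ∈ A.sqs x' ∧ A.opp x' g' t.1 = true ∧
                A.m2 x' t.2.2 ∧ Cov (A.nv x') g' (A.deg x' t.2.2) ∧
                t.2.1 ∈ A.cl x' g' t.2.2 ∧ A.conf t.2.1 t.1 = true ∧
                (A.xf1 (x', g', W', t.2.2, t.2.1, t.1)).1 = false := by
              intro t ht
              rcases List.mem_cons.1 ht with rfl | ht
              · exact ⟨r1, r2, n1, n2, hZ, hRc, hr⟩
              · exact hdead t ht
            refine ⟨rfl, hdead', hnod', ?_, ?_, ?_, ?_, by simp⟩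
            · intro _
              have h3 : (((R, Z, N) :: dead).map Prod.fst).length ≤ (A.sqs x').length :=
                (hnod'.subperm fun q hq => by
                  obtain ⟨t, ht, rfl⟩ := List.mem_map.1 hq
                  exact (hdead' t ht).1).length_le
              rw [List.length_map, List.length_cons] at h3
              simp only [cond_false, List.length_cons]
              have h5 : (A.sqs x').length - dead.length =
                  ((A.sqs x').length - (dead.length + 1)) + 1 := by omega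
              rw [h5, Nat.add_mul] at hb
              omega
            · intro h; simp at h
            · intro h; simp at h
            · intro h; simp at h
        · rw [if_neg hT]
          obtain ⟨t, ht1, ht, htZ⟩ : ∃ t, (dead.filter (fun t => decide (t.1 = Z))).headD
              (A.k0, A.k0, N) = t ∧ t ∈ dead ∧ t.1 = Z := by
            cases hcc : dead.filter (fun t => decide (t.1 = Z)) with
            | nil => rw [hcc] at hT; exact absurd rfl hT
            | cons a l =>
              have : a ∈ dead.filter (fun t => decide (t.1 = Z)) := by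
                rw [hcc]; exact List.mem_cons_self
              obtain ⟨a1, a2⟩ := List.mem_filter.1 this
              exact ⟨a, rfl, a1, of_decide_eq_true a2⟩
          rw [ht1]
          subst htZ
          obtain ⟨t1, t2, t3, t4, t5, t6, t7⟩ := hdead t ht
          have hts := A.mem_cl.1 t5
          have halt := A.xf1_alt x' g' W' v t.2.2 N t.2.1 t.1 hx hd h01 t3 t4 n1 n2 t5 hZ t6
          rw [t7] at halt
          have hr : (A.xf1 (x', g', W', N, t.1, t.2.1)).1 = true := by
            rcases halt with h | h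
            · simp at h
            · exact h
          obtain ⟨k1, k2, k3⟩ := A.xf1_spec x' g' W' v N t.1 t.2.1 hx hd h01 n1 n2 hZ hts.1 hts.2.1
            (by rw [A.conf_symm x' _ _ hx t1 hts.1]; exact t6) hr
          have hsh := A.cl_shrink hx hZ k3
          refine ⟨rfl, hdead, nod, ?_, ?_, ?_, ?_, by simp⟩
          · intro h; simp at h
          · intro _
            refine ⟨?_, k1, k2, fun Q hQ => n3 Q (k3 Q hQ).1⟩
            simp only
            omega
          · intro h; simp at h
          · intro h; simp at h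
    · rw [if_neg h1]
      exact ⟨rfl, hdead, nod, fun h => absurd h h0, fun h => absurd h h1, m2, m3, md⟩

theorem iinv_iter {x : ι} {g : List ℕ} {W : List (ℕ × O)} {v : ℕ} (hx : A.wf x)
    (hd : Dat A.nv A.deg A.valid x g W v) (h01 : ∀ u < A.nv x, g.getD u 0 = 0 ∨ g.getD u 0 = 2)
    (k : ℕ) :
    A.IInv x g W k ((A.istep)^[k] ((x, g, W), [], 0, A.emp)) := by
  induction k with
  | zero =>
    refine ⟨rfl, ?_, ?_, ?_, ?_, ?_, ?_, by simp⟩
    · intro N hN; simp at hN
    · simp
    · intro _
      simp only [Function.iterate_zero, id_eq, List.length_nil, rounds, Nat.sub_zero]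
      omega
    · intro h; simp at h
    · intro h; simp at h
    · intro h; simp at h
  | succ k ih =>
    rw [Function.iterate_succ_apply']
    exact A.iinv_step hx hd h01 ih

theorem inner_spec {x : ι} {g : List ℕ} {W : List (ℕ × O)} {v : ℕ} (hx : A.wf x)
    (hd : Dat A.nv A.deg A.valid x g W v) (h01 : ∀ u < A.nv x, g.getD u 0 = 0 ∨ g.getD u 0 = 2) :
    ((A.inner (x, g, W)).1 = true → A.valid x (A.inner (x, g, W)).2 ∧
      Cov (A.nv x) g (A.deg x (A.inner (x, g, W)).2)) ∧
    ((A.inner (x, g, W)).1 = false → ¬ ∃ L, A.valid x L ∧ Cov (A.nv x) g (A.deg x L)) := by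
  have h := A.iinv_iter hx hd h01 (A.rounds x)
  unfold inner
  simp only
  generalize (A.istep)^[A.rounds x] ((x, g, W), [], 0, A.emp) = s at h ⊢
  obtain ⟨⟨x', g', W'⟩, P, m, N⟩ := s
  obtain ⟨e, _, _, m0, m1, m2, m3, md⟩ := h
  simp only [Prod.mk.injEq] at e m0 m1 m2 m3 md
  obtain ⟨rfl, rfl, rfl⟩ := e
  have h0 : m ≠ 0 := fun h => by have := m0 h; omega
  have h1 : m ≠ 1 := fun h => by have := (m1 h).1; omega
  by_cases h2 : m = 2
  · rw [if_pos h2]
    obtain ⟨n1, n2, n3⟩ := m2 h2
    refine ⟨fun _ => ?_, fun h => by simp at h⟩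
    refine A.brk_spec x' g' N hx hd.len ?_ n1 n2 n3
    intro u hu
    by_cases huv : u = v
    · rw [huv]; exact hd.two
    · rcases hd.off u hu huv with h | h <;> omega
  · rw [if_neg h2]
    refine ⟨fun h => by simp at h, fun _ => m3 (by omega)⟩

/-! ### polynomial time -/

section pt

variable {τ : Type} [DEnc τ]

theorem pt_cl {x : τ → ι} {g : τ → List ℕ} {N : τ → O} (hx : PT x) (hg : PT g) (hN : PT N) :
    PT (fun y => A.cl (x y) (g y) (N y)) := by
  unfold cl
  refine PT.filter (p := fun z : τ × κ => A.opp (x z.1) (g z.1) z.2 && A.has (x z.1) (N z.1) z.2)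
    (A.pt_sqs.comp hx) ?_
  exact PT.band (A.pt_opp.comp (PT.pair (hx.comp PT.fst) (PT.pair (hg.comp PT.fst) PT.snd)))
    (A.pt_has.comp (PT.pair (hx.comp PT.fst) (PT.pair (hN.comp PT.fst) PT.snd)))

theorem pt_grd {l : τ → List κ} (hl : PT l) : PT (fun y => grd A.conf (l y)) := by
  have h := PT.foldl (l := l) (init := fun _ : τ => ([] : List κ))
    (g := fun z : τ × List κ × κ => grds A.conf z.2.1 z.2.2) hl (PT.const []) ?_
    ⟨fun y => 1 + tsize (l y), (PB.const 1).add hl.size, ?_⟩
  · exact h
  · unfold grds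
    refine PT.cond ?_ PT.snd.p1 (PT.cons PT.snd.p2 PT.snd.p1)
    exact PT.any (p := fun w : (τ × List κ × κ) × κ => A.conf w.1.2.2 w.2) PT.snd.p1
      (A.pt_conf.comp (PT.pair PT.fst.p2.p2 PT.snd))
  · intro y l₁ l₂ h
    have h1 := grd_size A.conf l₁ ([] : List κ)
    have h2 := tsize_append l₁ l₂
    have h3 := tsize_pos l₂
    rw [h] at h2
    rw [tsize_nil] at h1
    beta_reduce
    refine h1.trans ?_
    omega

theorem pt_dd {x : τ → ι} {g : τ → List ℕ} {dead : τ → Dd O κ} (hx : PT x) (hg : PT g)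
    (hdead : PT dead) : PT (fun y => A.dd (x y) (g y) (dead y)) := by
  unfold dd
  refine A.pt_grd ?_
  unfold cand
  refine PT.filter (p := fun z : τ × κ => A.opp (x z.1) (g z.1) z.2 &&
    !(dead z.1).any (fun t => decide (t.1 = z.2))) (A.pt_sqs.comp hx) ?_
  refine PT.band (A.pt_opp.comp (PT.pair (hx.comp PT.fst) (PT.pair (hg.comp PT.fst) PT.snd)))
    (PT.bnot ?_)
  exact PT.any (p := fun w : (τ × κ) × (κ × κ × O) => decide (w.2.1 = w.1.2)) (hdead.comp PT.fst)
    (A.pt_eq.comp (PT.pair PT.snd.p1 PT.fst.p2))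

end pt

theorem pt_istep : PT A.istep := by
  unfold istep
  have x : PT (fun s : Is ι O κ => s.1.1) := PT.fst.p1
  have g : PT (fun s : Is ι O κ => s.1.2.1) := PT.fst.p2.p1
  have W : PT (fun s : Is ι O κ => s.1.2.2) := PT.fst.p2.p2
  have P : PT (fun s : Is ι O κ => s.2.1) := PT.snd.p1
  have m : PT (fun s : Is ι O κ => s.2.2.1) := PT.snd.p2.p1
  have N : PT (fun s : Is ι O κ => s.2.2.2) := PT.snd.p2.p2
  have D : PT (fun s : Is ι O κ => (s.1.1, s.1.2.1, s.1.2.2)) := PT.pair x (PT.pair g W)
  have d := A.pt_dd x g P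
  have r := A.pt_solver.comp (PT.pair x (PT.pair g (PT.pair W d)))
  have cN := A.pt_cl x g N
  have Z := PT.headD cN (PT.const A.k0)
  have T := PT.filter (p := fun z : Is ι O κ × (κ × κ × O) => decide (z.2.1 =
    (A.cl z.1.1.1 z.1.1.2.1 z.1.2.2.2).headD A.k0)) P
    (A.pt_eq.comp (PT.pair PT.snd.p1 (Z.comp PT.fst)))
  have R := PT.headD (PT.filter (p := fun z : Is ι O κ × κ => A.conf
    ((A.cl z.1.1.1 z.1.1.2.1 z.1.2.2.2).headD A.k0) z.2) d
    (A.pt_conf.comp (PT.pair (Z.comp PT.fst) PT.snd))) (PT.const A.k0)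
  have r1 := A.pt_xf1.comp (PT.pair x (PT.pair g (PT.pair W (PT.pair N (PT.pair Z R)))))
  have r2 := A.pt_xf1.comp (PT.pair x (PT.pair g (PT.pair W (PT.pair N (PT.pair Z
    (PT.headD T (PT.pair (PT.const A.k0) (PT.pair (PT.const A.k0) N))).p2.p1)))))
  refine PT.ite (PT.neq m (PT.const 0)) (PT.cond r.p1 ?_ ?_) (PT.ite (PT.neq m (PT.const 1))
    (PT.ite (PT.neq (PT.length cN) (PT.const 0)) ?_ (PT.ite (PT.neq (PT.length T) (PT.const 0))
      (PT.cond r1.p1 ?_ ?_) ?_)) PT.id)
  · exact PT.pair D (PT.pair P (PT.pair (PT.const 1) r.p2))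
  · exact PT.pair D (PT.pair P (PT.pair (PT.const 3) N))
  · exact PT.pair D (PT.pair P (PT.pair (PT.const 2) N))
  · exact PT.pair D (PT.pair P (PT.pair (PT.const 1) r1.p2))
  · exact PT.pair D (PT.pair (PT.cons (PT.pair R (PT.pair Z N)) P) (PT.pair (PT.const 0) N))
  · exact PT.pair D (PT.pair P (PT.pair (PT.const 1) r2.p2))

/-- bound of the sizes of the entries of the dead list -/
def ub (x : ι) : ℕ := (tsize A.emp + A.B x) + 2 * (tsize (A.sqs x) + 1 + tsize A.k0) + 2

theorem isz_iter (y : Cx ι O) (k : ℕ) :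
    ((A.istep)^[k] (y, [], 0, A.emp)).1 = y ∧
      ((A.istep)^[k] (y, [], 0, A.emp)).2.1.length ≤ k ∧
      (∀ t ∈ ((A.istep)^[k] (y, [], 0, A.emp)).2.1, tsize t ≤ A.ub y.1) ∧
      ((A.istep)^[k] (y, [], 0, A.emp)).2.2.1 ≤ 3 ∧
      tsize ((A.istep)^[k] (y, [], 0, A.emp)).2.2.2 ≤ tsize A.emp + A.B y.1 := by
  induction k with
  | zero =>
    refine ⟨rfl, le_rfl, ?_, by simp, by simp⟩
    intro N hN; simp at hN
  | succ k ih =>
    rw [Function.iterate_succ_apply']
    generalize (A.istep)^[k] (y, [], 0, A.emp) = s at ih ⊢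
    obtain ⟨⟨x, g, W⟩, P, m, N⟩ := s
    obtain ⟨e, h1, h2, h3, h4⟩ := ih
    simp only at e h1 h2 h3 h4
    subst e
    unfold istep
    simp only at h2 h4 ⊢
    split_ifs
    · have hS := A.size_solver (x, g, W, A.dd x g P)
      simp only at hS
      cases (A.solver (x, g, W, A.dd x g P)).1 with
      | true => exact ⟨rfl, by simp only [cond_true]; omega, h2, by simp, by
          simp only [cond_true]; omega⟩
      | false => exact ⟨rfl, by simp only [cond_false]; omega, h2, by simp, h4⟩
    · exact ⟨rfl, by simp only; omega, h2, by simp, h4⟩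
    · have hX := A.size_xf1 (x, g, W, N, (A.cl x g N).headD A.k0, ((A.dd x g P).filter
        (fun R => A.conf ((A.cl x g N).headD A.k0) R)).headD A.k0)
      simp only at hX
      cases (A.xf1 (x, g, W, N, (A.cl x g N).headD A.k0, ((A.dd x g P).filter
        (fun R => A.conf ((A.cl x g N).headD A.k0) R)).headD A.k0)).1 with
      | true => exact ⟨rfl, by simp only [cond_true]; omega, h2, by simp,
          hX.trans (Nat.le_add_left _ _)⟩
      | false =>
        refine ⟨rfl, by simp only [cond_false, List.length_cons]; omega, ?_, by simp, h4⟩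
        intro t ht
        rcases List.mem_cons.1 ht with rfl | ht
        · have e1 : tsize ((A.cl x g N).headD A.k0) ≤ tsize (A.sqs x) + tsize A.k0 :=
            (tsize_headD _ _).trans (Nat.add_le_add_right (tsize_filter' _ _) _)
          have e2 : tsize (((A.dd x g P).filter
              (fun R => A.conf ((A.cl x g N).headD A.k0) R)).headD A.k0) ≤
              tsize (A.sqs x) + 1 + tsize A.k0 := by
            refine (tsize_headD _ _).trans (Nat.add_le_add_right ((tsize_filter' _ _).trans ?_) _)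
            refine (grd_size A.conf _ []).trans ?_
            rw [tsize_nil, Nat.add_comm]
            exact Nat.add_le_add_right (tsize_filter' _ _) _
          simp only [tsize_pair]
          unfold ub
          omega
        · exact h2 t ht
    · have hX := A.size_xf1 (x, g, W, N, (A.cl x g N).headD A.k0,
        ((P.filter (fun t => decide (t.1 = (A.cl x g N).headD A.k0))).headD (A.k0, A.k0, N)).2.1)
      exact ⟨rfl, by simp only; omega, h2, by simp, hX.trans (Nat.le_add_left _ _)⟩
    · exact ⟨rfl, by simp only; omega, h2, h3, h4⟩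

theorem pt_inner : PT A.inner := by
  have hr : PT (fun y : Cx ι O => A.rounds y.1) := by
    unfold rounds
    have l : PT (fun y : Cx ι O => (A.sqs y.1).length) := PT.length (A.pt_sqs.comp PT.fst)
    exact PT.nadd (PT.nadd (PT.nmul l (PT.nadd l (PT.const 3))) l) (PT.const 3)
  have hrb : PB (fun y : Cx ι O => A.rounds y.1) :=
    hr.size.of_le fun y => by simp only [tsize_nat]; omega
  have hB0 : PB (fun y : Cx ι O => tsize A.emp + A.B y.1) :=
    (PB.const _).add (A.pb.comp PT.fst.size)
  have hB : PB (fun y : Cx ι O => A.ub y.1) := by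
    unfold ub
    exact (hB0.add ((PB.const 2).mul ((((A.pt_sqs.comp PT.fst).size).add (PB.const 1)).add
      (PB.const _)))).add (PB.const 2)
  have h := PT.iterateNat (count := fun y : Cx ι O => A.rounds y.1)
    (init := fun y : Cx ι O => (y, ([] : Dd O κ), 0, A.emp)) hr
    (PT.pair PT.id (PT.const ([], 0, A.emp))) A.pt_istep
    ⟨fun y => tsize y + (A.rounds y.1 * (A.ub y.1 + 1) + 1) +
      (tsize A.emp + A.B y.1) + 20, ?_, ?_⟩
  · unfold inner
    have m := h.p2.p2.p1
    have N := h.p2.p2.p2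
    refine PT.ite (PT.neq m (PT.const 2)) (PT.pair (PT.const true) ?_) (PT.const (false, A.emp))
    exact A.pt_brk.comp (PT.pair h.p1.p1 (PT.pair h.p1.p2.p1 N))
  · exact ((PB.tsize.add ((hrb.mul (hB.add (PB.const 1))).add (PB.const 1))).add hB0).add
      (PB.const 20)
  · intro y k hk
    obtain ⟨e, h1, h2, h3, h4⟩ := A.isz_iter y k
    generalize (A.istep)^[k] (y, ([] : Dd O κ), 0, A.emp) = s at *
    obtain ⟨y', P, m, N⟩ := s
    simp only at e h1 h2 h3 h4
    subst e
    have h5 := tsize_le_of_forall h2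
    have h6 : P.length * (A.ub y'.1 + 1) ≤ A.rounds y'.1 * (A.ub y'.1 + 1) :=
      Nat.mul_le_mul_right _ (by omega)
    have h7 : tsize (y', P, m, N) = tsize y' + (tsize P + ((2 * m + 1) + tsize N + 1) + 1) + 1 := by
      simp only [tsize_pair, tsize_nat]
    rw [h7]
    show _ ≤ tsize y' + (A.rounds y'.1 * (A.ub y'.1 + 1) + 1) + (tsize A.emp + A.B y'.1) + 20
    omega

end In2Api

end Pool.Agent.PF4
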