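import Pool.Agent.PF4.SX
import Pool.Agent.PF4.Asm
import Pool.Agent.PF4.Inner2

/-!
# 2F({4}) is in P, given `solver` and `xf1`

The interface `SX2` of the two missing functions (dead-list form), only for demands with the values `0` and `2`: a vertex `v` of
demand `1` is replaced by a vertex of demand `2` with a pendant edge.
-/

set_option autoImplicit false

namespace Pool.Agent.PF4

open Finset Pool.Agent.TFC Pool.Agent.Lib.helper60

/-- the demand is `0` or `2` everywhere -/
def Ev (x : Ins) (g : List ℕ) : Prop := ∀ u < x.1, g.getD u 0 = 0 ∨ g.getD u 0 = 2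

/-- the interface of the solver and of the function which removes a square from a clause -/
structure SX2 where
  /-- `solver (x, g, W, D)`: find a `g`-cover without square of `D` -/
  solver : Ins × List ℕ × List (ℕ × List Ed) × List Sq4 → Bool × List Ed
  /-- `xf1 (x, g, W, N, Q, R)`: find a `g`-cover whose clause is in the clause of `N` and does not contain `Q` -/
  xf1 : Ins × List ℕ × List (ℕ × List Ed) × List Ed × Sq4 × Sq4 → Bool × List Ed
  pt_solver : PT solver
  pt_xf1 : PT xf1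
  solver_spec : ∀ x g W v D, InsWF x → Da x g W v → Ev x g → D.Nodup →
    (∀ Q ∈ D, Q ∈ sqG x ∧ harm g Q = true) → (∀ Q ∈ D, ∀ R ∈ D, conf Q R = false) →
    ((solver (x, g, W, D)).1 = true →
      MG x (solver (x, g, W, D)).2 ∧ Cov x.1 g (degL (solver (x, g, W, D)).2) ∧
      ∀ Q ∈ D, sqIn (solver (x, g, W, D)).2 Q = false) ∧
    ((solver (x, g, W, D)).1 = false → ¬ ∃ L, VM x L ∧ Cov x.1 g (degL L))
  xf1_spec : ∀ x g W v N Q R, InsWF x → Da x g W v → Ev x g → MG x N → Cov x.1 g (degL N) →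
    Q ∈ clS x g N → R ∈ sqG x → harm g R = true → conf Q R = true →
    (xf1 (x, g, W, N, Q, R)).1 = true →
    MG x (xf1 (x, g, W, N, Q, R)).2 ∧ Cov x.1 g (degL (xf1 (x, g, W, N, Q, R)).2) ∧
      ∀ Z ∈ clS x g (xf1 (x, g, W, N, Q, R)).2, Z ∈ clS x g N ∧ Z ≠ Q
  xf1_alt : ∀ x g W v F N Q R, InsWF x → Da x g W v → Ev x g → MG x F → Cov x.1 g (degL F) →
    MG x N → Cov x.1 g (degL N) → Q ∈ clS x g F → R ∈ clS x g N → conf Q R = true →
    (xf1 (x, g, W, F, Q, R)).1 = true ∨ (xf1 (x, g, W, N, R, Q)).1 = true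

/-- the interface of the inner loop -/
def SX2.toIn (A : SX2) : In2Api Ins (List Ed) Sq4 where
  nv := fun x => x.1
  deg := fun _ M u => degL M u
  m2 := MG
  wf := InsWF
  sqs := sqG
  has := fun _ M q => sqIn M q
  opp := fun _ g q => harm g q
  conf := conf
  emp := []
  k0 := (0, 0, 0, 0)
  exch := exV
  solver := fun y => ((A.solver y).1, nrm y.1 (A.solver y).2)
  xf1 := fun y => ((A.xf1 y).1, nrm y.1 (A.xf1 y).2)
  brk := fun y => brk y.2.1 (sqG y.1) y.2.2
  B := fun x => tsize x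
  pt_nv := PT.fst
  pt_deg := pt_degL PT.snd.p1 PT.snd.p2
  pt_sqs := pt_sqG PT.id
  pt_has := pt_sqIn PT.snd.p1 PT.snd.p2
  pt_opp := pt_harm PT.snd.p1 PT.snd.p2
  pt_conf := pt_conf PT.fst PT.snd
  pt_eq := by
    have h : PT (fun y : Sq4 × Sq4 => decide (y.1.1 = y.2.1) && (decide (y.1.2.1 = y.2.2.1) &&
        (decide (y.1.2.2.1 = y.2.2.2.1) && decide (y.1.2.2.2 = y.2.2.2.2)))) :=
      PT.band (PT.neq PT.fst.p1 PT.snd.p1) (PT.band (PT.neq PT.fst.p2.p1 PT.snd.p2.p1)
        (PT.band (PT.neq PT.fst.p2.p2.p1 PT.snd.p2.p2.p1) (PT.neq PT.fst.p2.p2.p2 PT.snd.p2.p2.p2)))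
    refine h.congr ?_
    rintro ⟨⟨a, b, c, d⟩, ⟨a', b', c', d'⟩⟩
    simp only [Prod.mk.injEq, Bool.decide_and]
  pt_exch := pt_exV
  pt_solver := PT.pair (PT.p1 A.pt_solver) (pt_nrm PT.fst (PT.p2 A.pt_solver))
  pt_xf1 := PT.pair (PT.p1 A.pt_xf1) (pt_nrm PT.fst (PT.p2 A.pt_xf1))
  pt_brk := pt_brk PT.snd.p1 (pt_sqG PT.fst) PT.snd.p2
  pb := PB.tsize
  size_exch := fun y => tsize_nrm y.1 _
  size_solver := fun y => tsize_nrm y.1 _
  size_xf1 := fun y => tsize_nrm y.1 _
  sqs_nodup := fun x _ => sqG_nodup x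
  conf_self := by
    intro x Q _ hQ
    rw [← Bool.not_eq_true, PF4.conf_iff (sqG_ok Q hQ), Finset.inter_self, ← fs_sqE,
      card_fs (WF_sqE (sqG_ok Q hQ))]
    simp [sqE]
  conf_symm := fun _ _ _ _ hQ hR => PF4.conf_symm (sqG_ok _ hQ) (sqG_ok _ hR)
  emp_valid := by
    intro x _
    have h0 : ∀ v, dg (fs ([] : List Ed)) v = 0 := by intro v; rw [fs_nil]; rfl
    refine ⟨⟨WF.nil, ⟨?_, ?_⟩, ?_⟩, fun q _ => rfl⟩
    · intro e he; rw [fs_nil] at he; simp at he
    · intro v; rw [h0]; omega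
    · rw [fs_nil]; exact Finset.empty_subset _
  exch_spec := fun x M L v hx hM hL _ h => exV_spec hx hM hL h
  solver_spec := by
    intro x g W v D hx hd h01 hn hD hc
    obtain ⟨h1, h2⟩ := A.solver_spec x g W v D hx hd h01 hn hD hc
    refine ⟨fun h => ?_, h2⟩
    obtain ⟨k1, k2, k3⟩ := h1 h
    refine ⟨k1.nrm hx, cov_nrm k1 hx k2, ?_⟩
    intro q hq
    have := k3 q hq
    rw [← sqIn_nrm k1] at this
    exact this
  xf1_spec := by
    intro x g W v N Q R hx hd h01 hN hNc hQ hR1 hR2 hc ht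
    obtain ⟨k1, k2, k3⟩ := A.xf1_spec x g W v N Q R hx hd h01 hN hNc hQ hR1 hR2 hc ht
    refine ⟨k1.nrm hx, cov_nrm k1 hx k2, ?_⟩
    have e := clS_nrm k1 g
    unfold clS at e k3
    rw [e]
    exact k3
  xf1_alt := fun x g W v F N Q R hx hd h01 f1 f2 n1 n2 hQ hR hc =>
    A.xf1_alt x g W v F N Q R hx hd h01 f1 f2 n1 n2 hQ hR hc
  brk_spec := by
    intro x g N hx _ _ hN hc hcl
    obtain ⟨h1, h2, h3, h4⟩ := brk_spec g x.1 (sqG x) N sqG_ok (fun q hq hh hs => by
      have : q ∈ (sqG x).filter (fun Q => harm g Q && sqIn N Q) := by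
        rw [List.mem_filter, hh, (sqIn_iff N q).2 hs]
        exact ⟨hq, rfl⟩
      rw [hcl] at this
      cases this) hN.wf hc
    refine ⟨⟨⟨h1, hN.m2.mono h2, h2.trans hN.sub⟩, fun q hq => ?_⟩, h3⟩
    have := h4 q hq
    rwa [← sqIn_iff, Bool.not_eq_true] at this

/-! ### the pendant edge -/

/-- a valid 2-matching has no squares -/
theorem vm_iff {x : Ins} (hx : InsWF x) {M : List Ed} : VM x M ↔ MG x M ∧ SqFree (fs M) := by
  refine and_congr_right fun h => ?_
  constructor
  · intro h1 a b c d hs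
    obtain ⟨q, hq, he⟩ := sqG_full hx (hs.mono h.sub)
    have h2 := h1 q hq
    rw [← Bool.not_eq_true, sqIn_iff, he] at h2
    exact h2 (Sq.sub hs)
  · intro h1 q hq
    rw [← Bool.not_eq_true, sqIn_iff]
    intro h2
    have hd := sqG_ok q hq
    refine h1 q.1 q.2.1 q.2.2.1 q.2.2.2 ⟨hd.2.1, hd.2.2.2.2.1, ?_, ?_, ?_, ?_⟩
    all_goals
      apply h2
      simp [sqs, TFC.sq]

/-- the vertex of demand 1 (`n` if there is none) -/
def pv (n : ℕ) (g : List ℕ) : ℕ := ((List.range n).filter (fun u => decide (g.getD u 0 = 1))).headD n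

/-- the instance with a pendant edge at `v` -/
def padX (x : Ins) (v : ℕ) : Ins := (x.1 + 1, (v, x.1) :: x.2)

/-- the demand with the pendant edge at `v` -/
def padG (n : ℕ) (g : List ℕ) (v : ℕ) : List ℕ :=
  (List.range (n + 1)).map (fun u => if u = v then 2 else g.getD u 0)

/-- use the pendant edge if possible -/
def padM (v n : ℕ) (M : List Ed) : List Ed := if degL M v ≤ 1 then (v, n) :: M else M

/-- the table with the pendant edge -/
def padW (v n : ℕ) (W : List (ℕ × List Ed)) : List (ℕ × List Ed) := W.map (fun p => (p.1, padM v n p.2))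

theorem pv_none {n : ℕ} {g : List ℕ} (h : pv n g = n) : ∀ u < n, g.getD u 0 ≠ 1 := by
  intro u hu h1
  have hm : u ∈ (List.range n).filter (fun u => decide (g.getD u 0 = 1)) :=
    List.mem_filter.2 ⟨List.mem_range.2 hu, by simpa using h1⟩
  unfold pv at h
  cases hc : (List.range n).filter (fun u => decide (g.getD u 0 = 1)) with
  | nil => rw [hc] at hm; simp at hm
  | cons a l =>
    rw [hc] at h
    have ha : a ∈ (List.range n).filter (fun u => decide (g.getD u 0 = 1)) := by
      rw [hc]; exact List.mem_cons_self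
    have := List.mem_range.1 (List.mem_filter.1 ha).1
    simp only [List.headD_cons] at h
    omega

theorem pv_some {n : ℕ} {g : List ℕ} (h : pv n g ≠ n) : pv n g < n ∧ g.getD (pv n g) 0 = 1 := by
  unfold pv at h ⊢
  cases hc : (List.range n).filter (fun u => decide (g.getD u 0 = 1)) with
  | nil => rw [hc] at h; exact absurd rfl h
  | cons a l =>
    have ha : a ∈ (List.range n).filter (fun u => decide (g.getD u 0 = 1)) := by
      rw [hc]; exact List.mem_cons_self
    obtain ⟨h1, h2⟩ := List.mem_filter.1 ha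
    exact ⟨List.mem_range.1 h1, of_decide_eq_true h2⟩

section pend

variable {x : Ins} {v : ℕ}

theorem pend_notMem (hx : InsWF x) {M : List Ed} (hM : fs M ⊆ fs x.2) : s(v, x.1) ∉ fs M := by
  intro h
  exact absurd (hx.vlt (hM h) (Sym2.mem_mk_right _ _)) (lt_irrefl _)

theorem padX_wf (hx : InsWF x) (hv : v < x.1) : InsWF (padX x v) := by
  refine ⟨?_, ?_, ?_⟩
  · show (((v, x.1) :: x.2).map fe).Nodup
    rw [List.map_cons, List.nodup_cons]
    refine ⟨fun h => pend_notMem (v := v) hx (Finset.Subset.refl _) ?_, hx.wf⟩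
    rw [fs, List.mem_toFinset]
    exact h
  · show NoLoop (fs ((v, x.1) :: x.2))
    rw [fs_cons]
    exact hx.nl.insert (by omega)
  · intro e he
    rcases List.mem_cons.1 he with rfl | he
    · exact ⟨by show v < x.1 + 1; omega, by show x.1 < x.1 + 1; omega⟩
    · have := hx.lt e he
      exact ⟨by show e.1 < x.1 + 1; omega, by show e.2 < x.1 + 1; omega⟩

theorem fs_padX : fs (padX x v).2 = insert s(v, x.1) (fs x.2) := fs_cons _ _

theorem fs_padM (M : List Ed) : fs (padM v x.1 M) = if degL M v ≤ 1 then insert s(v, x.1) (fs M) else fs M := by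
  unfold padM
  split_ifs
  · rw [fs_cons]; rfl
  · rfl

theorem dg_out (hx : InsWF x) {M : List Ed} (hM : fs M ⊆ fs x.2) : dg (fs M) x.1 = 0 := by
  unfold dg
  rw [Finset.card_eq_zero, Finset.filter_eq_empty_iff]
  intro e he h
  exact absurd (hx.vlt (hM he) h) (lt_irrefl _)

theorem padM_wf (hx : InsWF x) {M : List Ed} (hM : MG x M) : WF (padM v x.1 M) := by
  unfold padM
  split_ifs
  · show (((v, x.1) :: M).map fe).Nodup
    rw [List.map_cons, List.nodup_cons]
    refine ⟨fun h => pend_notMem (v := v) hx hM.sub ?_, hM.wf⟩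
    rw [fs, List.mem_toFinset]
    exact h
  · exact hM.wf

theorem padM_dg (hx : InsWF x) {M : List Ed} (hM : MG x M) (u : ℕ) :
    dg (fs (padM v x.1 M)) u = dg (fs M) u + (if degL M v ≤ 1 then (if u ∈ s(v, x.1) then 1 else 0) else 0) := by
  rw [fs_padM]
  split_ifs with h1 h2
  · have := dg_insert (pend_notMem (v := v) hx hM.sub) u
    rw [if_pos h2] at this
    exact this
  · have := dg_insert (pend_notMem (v := v) hx hM.sub) u
    rw [if_neg h2] at this
    exact this
  · rfl

theorem padM_deg (hx : InsWF x) (hv : v < x.1) {M : List Ed} (hM : MG x M) :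
    (∀ u < x.1, u ≠ v → degL (padM v x.1 M) u = degL M u) ∧ 1 ≤ degL (padM v x.1 M) v ∧
      (1 ≤ degL M v → 2 ≤ degL (padM v x.1 M) v) := by
  have hd : ∀ u, degL (padM v x.1 M) u =
      degL M u + (if degL M v ≤ 1 then (if u ∈ s(v, x.1) then 1 else 0) else 0) := by
    intro u
    rw [degL_eq (padM_wf hx hM), padM_dg hx hM, ← degL_eq hM.wf]
  refine ⟨fun u hu huv => ?_, ?_, fun h => ?_⟩
  · rw [hd u, if_neg (c := u ∈ s(v, x.1))]
    · split_ifs <;> rfl
    · intro h
      rcases Sym2.mem_iff.1 h with h | h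
      · exact huv h
      · omega
  · rw [hd v, if_pos (c := v ∈ s(v, x.1)) (Sym2.mem_mk_left _ _)]
    split_ifs <;> omega
  · rw [hd v, if_pos (c := v ∈ s(v, x.1)) (Sym2.mem_mk_left _ _)]
    split_ifs <;> omega

theorem padM_mg (hx : InsWF x) (hv : v < x.1) {M : List Ed} (hM : MG x M) :
    MG (padX x v) (padM v x.1 M) := by
  refine ⟨padM_wf hx hM, ⟨?_, ?_⟩, ?_⟩
  · rw [fs_padM]
    split_ifs
    · exact hM.m2.nl.insert (by omega)
    · exact hM.m2.nl
  · intro u
    rw [padM_dg hx hM]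
    have h2 := hM.m2.le u
    split_ifs with h3 h4
    · rcases Sym2.mem_iff.1 h4 with rfl | rfl
      · rw [degL_eq hM.wf] at h3; omega
      · rw [dg_out hx hM.sub]; omega
    · omega
    · omega
  · rw [fs_padM]
    show _ ⊆ fs ((v, x.1) :: x.2)
    rw [fs_cons]
    split_ifs
    · exact Finset.insert_subset_insert _ hM.sub
    · exact hM.sub.trans (Finset.subset_insert _ _)

theorem sqFree_pend (hx : InsWF x) (hv : v < x.1) {z : Finset (Sym2 ℕ)} (hz : z ⊆ insert s(v, x.1) (fs x.2))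
    (h : SqFree (z.erase s(v, x.1))) : SqFree z := by
  intro a b c d hs
  have one : ∀ p q : ℕ, s(p, q) ∈ z → q = x.1 → p = v := by
    intro p q h1 hq
    subst hq
    rcases Finset.mem_insert.1 (hz h1) with h4 | h4
    · rcases Sym2.eq_iff.1 h4 with ⟨h5, _⟩ | ⟨h5, h6⟩
      · exact h5
      · omega
    · have := hx.vlt h4 (Sym2.mem_mk_right _ _)
      omega
  have key : ∀ p q r : ℕ, p ≠ r → s(p, q) ∈ z → s(r, q) ∈ z → q ≠ x.1 := by
    intro p q r hpr h1 h2 h3
    exact hpr ((one p q h1 h3).trans (one r q h2 h3).symm)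
  have ha : a ≠ x.1 := key b a d hs.bd (msw hs.ab) hs.da
  have hb : b ≠ x.1 := key a b c hs.ac hs.ab (msw hs.bc)
  have hc : c ≠ x.1 := key b c d hs.bd hs.bc (msw hs.cd)
  have hd : d ≠ x.1 := key c d a hs.ac.symm hs.cd (msw hs.da)
  have ne : ∀ p q : ℕ, p ≠ x.1 → q ≠ x.1 → s(p, q) ≠ s(v, x.1) := by
    intro p q h1 h2 h3
    rcases Sym2.eq_iff.1 h3 with ⟨_, h4⟩ | ⟨h4, _⟩
    · exact h2 h4
    · exact h1 h4
  exact h a b c d ⟨hs.ac, hs.bd, Finset.mem_erase.2 ⟨ne a b ha hb, hs.ab⟩,
    Finset.mem_erase.2 ⟨ne b c hb hc, hs.bc⟩, Finset.mem_erase.2 ⟨ne c d hc hd, hs.cd⟩,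
    Finset.mem_erase.2 ⟨ne d a hd ha, hs.da⟩⟩

theorem padM_vm (hx : InsWF x) (hv : v < x.1) {M : List Ed} (hM : VM x M) :
    VM (padX x v) (padM v x.1 M) := by
  have h1 := (vm_iff hx).1 hM
  refine (vm_iff (padX_wf hx hv)).2 ⟨padM_mg hx hv hM.1, ?_⟩
  have hsub : fs (padM v x.1 M) ⊆ insert s(v, x.1) (fs x.2) := by
    rw [← fs_padX]
    exact (padM_mg hx hv hM.1).sub
  refine sqFree_pend hx hv hsub ?_
  have e : (fs (padM v x.1 M)).erase s(v, x.1) = fs M := by
    rw [fs_padM]
    split_ifs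
    · rw [Finset.erase_insert (pend_notMem hx hM.1.sub)]
    · rw [Finset.erase_eq_of_notMem (pend_notMem hx hM.1.sub)]
  rw [e]
  exact h1.2

/-- back to the instance without the pendant edge -/
theorem back (hx : InsWF x) (hv : v < x.1) {L : List Ed} (hL : VM (padX x v) L) :
    VM x (nrm x L) ∧ ∀ u < x.1, degL L u ≤ degL (nrm x L) u + (if u = v then 1 else 0) := by
  have h1 := (vm_iff (padX_wf hx hv)).1 hL
  have e : fs (nrm x L) = fs x.2 ∩ fs L := fs_norm _ _
  have hsub : fs (nrm x L) ⊆ fs L := by rw [e]; exact Finset.inter_subset_right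
  have hwf : WF (nrm x L) := hx.wf.norm _
  refine ⟨(vm_iff hx).2 ⟨⟨hwf, h1.1.m2.mono hsub, by rw [e]; exact Finset.inter_subset_left⟩, ?_⟩, ?_⟩
  · intro a b c d hs
    exact h1.2 a b c d (hs.mono hsub)
  · intro u hu
    rw [degL_eq h1.1.wf, degL_eq hwf]
    have h2 : fs L ⊆ insert s(v, x.1) (fs (nrm x L)) := by
      intro f hf
      have hf' := h1.1.sub hf
      rw [fs_padX] at hf'
      rcases Finset.mem_insert.1 hf' with h3 | h3
      · rw [h3]; exact Finset.mem_insert_self _ _
      · refine Finset.mem_insert_of_mem ?_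
        rw [e, Finset.mem_inter]
        exact ⟨h3, hf⟩
    have h3 := dg_mono h2 u
    have h4 : s(v, x.1) ∉ fs (nrm x L) := pend_notMem hx (by rw [e]; exact Finset.inter_subset_left)
    have h5 := dg_insert h4 u
    by_cases huv : u = v
    · subst huv
      rw [if_pos (Sym2.mem_mk_left _ _)] at h5
      rw [if_pos rfl]
      omega
    · rw [if_neg (by
        intro h
        rcases Sym2.mem_iff.1 h with h | h
        · exact huv h
        · omega)] at h5
      rw [if_neg huv]
      omega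

theorem padG_getD (n : ℕ) (g : List ℕ) (v u : ℕ) (hu : u < n + 1) :
    (padG n g v).getD u 0 = if u = v then 2 else g.getD u 0 := by
  unfold padG
  rw [getD_map_range, if_pos hu]

theorem pad_dat (hx : InsWF x) {g : List ℕ} {W : List (ℕ × List Ed)} (hd : Da x g W v)
    (h1 : g.getD v 0 = 1) :
    Da (padX x v) (padG x.1 g v) (padW v x.1 W) v ∧ Ev (padX x v) (padG x.1 g v) := by
  have hv : v < x.1 := hd.lt
  have hn : g.getD x.1 0 = 0 := List.getD_eq_default _ _ hd.len.le
  have key : ∀ u < x.1 + 1, u ≠ v → g.getD u 0 = 0 ∨ g.getD u 0 = 2 := by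
    intro u hu huv
    by_cases h : u = x.1
    · rw [h, hn]; exact Or.inl rfl
    · exact hd.off u (by show u < x.1; omega) huv
  have hmap : (padW v x.1 W).map Prod.fst = W.map Prod.fst := by
    unfold padW
    rw [List.map_map]
    rfl
  refine ⟨⟨?_, ?_, ?_, ?_, ?_, ?_, ?_, ?_⟩, ?_⟩
  · show (padG x.1 g v).length = x.1 + 1
    simp [padG]
  · show v < x.1 + 1
    omega
  · rw [padG_getD _ _ _ _ (by omega), if_pos rfl]; omega
  · rw [padG_getD _ _ _ _ (by omega), if_pos rfl]
  · intro u hu huv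
    rw [padG_getD _ _ _ _ hu, if_neg huv]
    exact key u hu huv
  · intro p hp
    obtain ⟨q, hq, rfl⟩ := List.mem_map.1 hp
    obtain ⟨k1, k2, k3⟩ := hd.tab q hq
    have k1' : q.1 < x.1 := k1
    have hdeg := padM_deg (v := v) hx hv k2.1
    refine ⟨by show q.1 < x.1 + 1; omega, padM_vm hx hv k2, ?_⟩
    intro u hu
    rw [padG_getD _ _ _ _ hu]
    show _ ≤ degL (padM v x.1 q.2) u + (if u = q.1 then 1 else 0)
    by_cases huv : u = v
    · subst huv
      rw [if_pos rfl]
      by_cases huq : u = q.1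
      · rw [if_pos huq]
        have := hdeg.2.1
        omega
      · rw [if_neg huq]
        have k4 : g.getD u 0 ≤ degL q.2 u + (if u = q.1 then 1 else 0) := k3 u hv
        rw [if_neg huq, h1] at k4
        have := hdeg.2.2 (by omega)
        omega
    · rw [if_neg huv]
      by_cases h : u = x.1
      · rw [h, hn]; exact Nat.zero_le _
      · have hu' : u < x.1 := by
          have : u < x.1 + 1 := hu
          omega
        have k4 : g.getD u 0 ≤ degL q.2 u + (if u = q.1 then 1 else 0) := k3 u hu'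
        rw [hdeg.1 u hu' huv]
        exact k4
  · intro w hw
    rw [hmap, padG_getD _ _ _ _ hw]
    by_cases hwv : w = v
    · subst hwv
      rw [if_pos rfl]
      constructor
      · intro _
        exact (hd.sup w hv).1 (by rw [h1])
      · intro _
        omega
    · rw [if_neg hwv]
      by_cases h : w = x.1
      · rw [h, hn]
        constructor
        · intro h2; omega
        · intro h2
          obtain ⟨p, hp, h3⟩ := List.mem_map.1 h2
          have : p.1 < x.1 := (hd.tab p hp).1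
          omega
      · exact hd.sup w (by
          have : w < x.1 + 1 := hw
          show w < x.1
          omega)
  · rw [hmap]; exact hd.nod
  · intro u hu
    rw [padG_getD _ _ _ _ hu]
    split_ifs with huv
    · exact Or.inr rfl
    · exact key u hu huv

end pend

/-- the inner algorithm for all demands -/
def SX2.innerP (A : SX2) (y : Ins × List ℕ × List (ℕ × List Ed)) : Bool × List Ed :=
  if pv y.1.1 y.2.1 = y.1.1 then A.toIn.inner y
  else
    ((A.toIn.inner (padX y.1 (pv y.1.1 y.2.1), padG y.1.1 y.2.1 (pv y.1.1 y.2.1),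
      padW (pv y.1.1 y.2.1) y.1.1 y.2.2)).1,
    nrm y.1 (A.toIn.inner (padX y.1 (pv y.1.1 y.2.1), padG y.1.1 y.2.1 (pv y.1.1 y.2.1),
      padW (pv y.1.1 y.2.1) y.1.1 y.2.2)).2)

theorem SX2.innerP_spec (A : SX2) {x : Ins} {g : List ℕ} {W : List (ℕ × List Ed)} {v : ℕ}
    (hx : InsWF x) (hd : Da x g W v) :
    ((A.innerP (x, g, W)).1 = true → VM x (A.innerP (x, g, W)).2 ∧
      Cov x.1 g (degL (A.innerP (x, g, W)).2)) ∧
    ((A.innerP (x, g, W)).1 = false → ¬ ∃ L, VM x L ∧ Cov x.1 g (degL L)) := by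
  unfold SX2.innerP
  simp only
  by_cases h : pv x.1 g = x.1
  · rw [if_pos h]
    have h1 := pv_none h
    refine A.toIn.inner_spec (x := x) (g := g) (W := W) (v := v) hx hd ?_
    intro u hu
    by_cases huv : u = v
    · have k1 := hd.one
      have k2 := hd.two
      have k3 := h1 u hu
      subst huv
      omega
    · exact hd.off u hu huv
  · rw [if_neg h]
    obtain ⟨p1, p2⟩ := pv_some h
    have hpv : pv x.1 g = v := by
      by_contra hne
      rcases hd.off _ p1 hne with h3 | h3 <;> omega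
    rw [hpv] at p1 p2 ⊢
    obtain ⟨hd', hev⟩ := pad_dat hx hd p2
    obtain ⟨k1, k2⟩ := A.toIn.inner_spec (x := padX x v) (g := padG x.1 g v) (W := padW v x.1 W) (v := v)
      (padX_wf hx p1) hd' hev
    refine ⟨fun h3 => ?_, fun h3 => ?_⟩
    · obtain ⟨k3, k4⟩ := k1 h3
      have k3' : VM (padX x v) (A.toIn.inner (padX x v, padG x.1 g v, padW v x.1 W)).2 := k3
      obtain ⟨b1, b2⟩ := back hx p1 k3'
      refine ⟨b1, fun u hu => ?_⟩
      have k5 : (padG x.1 g v).getD u 0 ≤
          degL (A.toIn.inner (padX x v, padG x.1 g v, padW v x.1 W)).2 u :=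
        k4 u (by show u < x.1 + 1; omega)
      rw [padG_getD _ _ _ _ (by omega)] at k5
      have k6 := b2 u hu
      show _ ≤ degL (nrm x (A.toIn.inner (padX x v, padG x.1 g v, padW v x.1 W)).2) u
      by_cases huv : u = v
      · rw [if_pos huv] at k5 k6
        rw [huv, p2]
        rw [huv] at k5 k6
        omega
      · rw [if_neg huv] at k5 k6
        omega
    · rintro ⟨L, hL, hc⟩
      refine k2 h3 ⟨padM v x.1 L, padM_vm hx p1 hL, fun u hu => ?_⟩
      have hdeg := padM_deg (v := v) hx p1 hL.1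
      have hu' : u < x.1 + 1 := hu
      rw [padG_getD _ _ _ _ hu']
      show _ ≤ degL (padM v x.1 L) u
      by_cases huv : u = v
      · rw [if_pos huv, huv]
        have := hc v p1
        rw [p2] at this
        exact hdeg.2.2 this
      · rw [if_neg huv]
        by_cases h4 : u = x.1
        · rw [h4, List.getD_eq_default _ _ hd.len.le]; exact Nat.zero_le _
        · rw [hdeg.1 u (by omega) huv]
          exact hc u (by omega)

theorem SX2.pt_innerP (A : SX2) : PT A.innerP := by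
  unfold SX2.innerP
  have x : PT (fun y : Ins × List ℕ × List (ℕ × List Ed) => y.1) := PT.fst
  have n : PT (fun y : Ins × List ℕ × List (ℕ × List Ed) => y.1.1) := PT.fst.p1
  have g : PT (fun y : Ins × List ℕ × List (ℕ × List Ed) => y.2.1) := PT.snd.p1
  have W : PT (fun y : Ins × List ℕ × List (ℕ × List Ed) => y.2.2) := PT.snd.p2
  have v : PT (fun y : Ins × List ℕ × List (ℕ × List Ed) => pv y.1.1 y.2.1) := by
    unfold pv
    exact PT.headD (PT.filter (p := fun z : (Ins × List ℕ × List (ℕ × List Ed)) × ℕ =>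
      decide (z.1.2.1.getD z.2 0 = 1)) (PT.range n)
      (PT.neq (PT.getD (g.comp PT.fst) PT.snd (PT.const 0)) (PT.const 1))) n
  have r : PT (fun y : Ins × List ℕ × List (ℕ × List Ed) =>
      A.toIn.inner (padX y.1 (pv y.1.1 y.2.1), padG y.1.1 y.2.1 (pv y.1.1 y.2.1),
        padW (pv y.1.1 y.2.1) y.1.1 y.2.2)) := by
    refine A.toIn.pt_inner.comp (PT.pair ?_ (PT.pair ?_ ?_))
    · exact PT.pair (PT.nsucc n) (PT.cons (PT.pair v n) PT.fst.p2)
    · unfold padG
      refine PT.map (g := fun z : (Ins × List ℕ × List (ℕ × List Ed)) × ℕ =>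
        if z.2 = pv z.1.1.1 z.1.2.1 then 2 else z.1.2.1.getD z.2 0) (PT.range (PT.nsucc n)) ?_
      exact PT.ite (PT.neq PT.snd (v.comp PT.fst)) (PT.const 2)
        (PT.getD (g.comp PT.fst) PT.snd (PT.const 0))
    · unfold padW
      refine PT.map (g := fun z : (Ins × List ℕ × List (ℕ × List Ed)) × (ℕ × List Ed) =>
        (z.2.1, padM (pv z.1.1.1 z.1.2.1) z.1.1.1 z.2.2)) W ?_
      refine PT.pair PT.snd.p1 ?_
      unfold padM
      exact PT.ite (PT.nle (pt_degL PT.snd.p2 (v.comp PT.fst)) (PT.const 1))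
        (PT.cons (PT.pair (v.comp PT.fst) (n.comp PT.fst)) PT.snd.p2) PT.snd.p2
  exact PT.ite (PT.neq v n) A.toIn.pt_inner (PT.pair r.p1 (pt_nrm x r.p2))

/-- the interface of the outer loop -/
def SX2.toOut (A : SX2) : OutApi Ins (List Ed) where
  nv := fun x => x.1
  deg := fun _ M u => degL M u
  valid := VM
  wf := InsWF
  emp := []
  exch := exV
  inner := A.innerP
  B := fun x => tsize x
  pt_nv := PT.fst
  pt_deg := pt_degL PT.snd.p1 PT.snd.p2
  pt_exch := pt_exV
  pt_inner := A.pt_innerP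
  pb := PB.tsize
  size_exch := fun y => tsize_nrm y.1 _
  emp_valid := A.toIn.emp_valid
  exch_spec := fun x M L v hx hM hL _ h => exV_spec hx hM hL h
  inner_spec := fun x g W v hx hd => A.innerP_spec hx hd

/-- **2F({4}) is in P**, given `solver` and `xf1` for demands in `{0, 2}`. -/
theorem inP_of_SX2 (A : SX2) : InP TF4.TwoF4 := by
  refine inP_of (dec := fun n E => (A.toOut.alg (n, E)).1) (PT.p1 A.toOut.pt_alg) ?_
  intro n G E hE g1 g2
  have hx : InsWF (n, E) := insWF_of hE g1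
  rw [← fac_nat hE g1 g2]
  obtain ⟨k1, k2⟩ := A.toOut.alg_spec (x := (n, E)) hx
  constructor
  · intro h
    exact ⟨_, k1 h⟩
  · intro h
    cases h3 : (A.toOut.alg (n, E)).1 with
    | true => rfl
    | false => exact absurd h (k2 h3)

end Pool.Agent.PF4
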