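import Pool.Agent.PF4.Pc
import Pool.Agent.PF4.SX2

/-!
# Covers and configurations

The pieces of the solver for a list `C` of edge-disjoint clusters: the clusters, the plain edges, the slack units `{v, n}`
(`2 - g v` for each vertex `v < n`) and `n` loops at the slack vertex `n`. `cfgM` turns a 2-matching into a list of vectors,
one for each piece; `decM` turns a list of vectors of the exact pieces into a 2-matching.
-/

set_option autoImplicit false

namespace Pool.Agent.PF4

open Finset Pool.Agent.TFC Pool.Agent.Lib.helper60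

/-! ### the pieces -/

/-- the plain edges -/
def plE (x : Ins) (C : List Cl) : List Ed := rest x.2 (C.flatMap clE)

/-- piece of a plain edge -/
def edP (e : Ed) : Pc := (true, [e], [])

/-- the piece `{0, e_u + e_v}` -/
def unP (u v : ℕ) : Pc := (true, [], [[u, v]])

/-- the slack units -/
def slJ (n : ℕ) (g : List ℕ) : List (ℕ × ℕ) :=
  (List.range n).flatMap fun v => (List.range (2 - g.getD v 0)).map fun j => (v, j)

/-- all pieces; `φ` gives the pieces of the clusters -/
def pcs (φ : Cl → Pc) (x : Ins) (g : List ℕ) (C : List Cl) : List Pc :=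
  (C.map φ ++ (plE x C).map edP) ++ ((slJ x.1 g).map (fun p => unP p.1 x.1) ++
    (List.range x.1).map fun _ => unP x.1 x.1)

/-- the total -/
def ttl (ks : List (List ℕ)) (v : ℕ) : ℕ := (ks.map fun k => k.count v).sum

/-- number of the slack units used by `M` -/
def hsl (x : Ins) (g : List ℕ) (M : List Ed) : ℕ :=
  ((slJ x.1 g).filter fun p => decide (p.2 < 2 - degL M p.1)).length

/-- the configuration of the 2-matching `M` -/
def cfgM (x : Ins) (g : List ℕ) (C : List Cl) (M : List Ed) (ρ : ℕ) : List (List ℕ) :=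
  (C.map (fun c => ends2 (norm (clE c) M)) ++
    (plE x C).map (fun e => ends2 (bif hasE M e then [e] else []))) ++
  ((slJ x.1 g).map (fun p => bif decide (p.2 < 2 - degL M p.1) then [p.1, x.1] else []) ++
    (List.range x.1).map fun j => bif decide (hsl x g M + 2 * j + 2 + ρ ≤ 2 * x.1) then [x.1, x.1] else [])

/-- a 2-matching inside the piece with the vector `k` -/
def rlz (p : Pc) (k : List ℕ) : List Ed :=
  findD (fun S => okS S && eqK k (ends2 S)) (subs p.2.1 4) []

/-- the 2-matching of a configuration -/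
def decM (x : Ins) (C : List Cl) (ks : List (List ℕ)) : List Ed :=
  (List.range (C.map exP ++ (plE x C).map edP).length).flatMap fun i =>
    rlz ((C.map exP ++ (plE x C).map edP).getD i (false, [], [])) (ks.getD i [])

/-- the clusters -/
structure ClsOK (x : Ins) (C : List Cl) : Prop where
  ok : ∀ c ∈ C, ClOK c
  dj : C.Pairwise fun c c' => Disjoint (fs (clE c)) (fs (clE c'))
  sub : ∀ c ∈ C, fs (clE c) ⊆ fs x.2
  c4 : ∀ c ∈ C, Card4 (exP c)

/-! ### totals -/

theorem ttl_append (k l : List (List ℕ)) (v : ℕ) : ttl (k ++ l) v = ttl k v + ttl l v := by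
  simp [ttl]

theorem ttl_nil (v : ℕ) : ttl [] v = 0 := rfl

theorem ttl_cons (k : List ℕ) (l : List (List ℕ)) (v : ℕ) : ttl (k :: l) v = k.count v + ttl l v := by
  simp [ttl]

theorem degL_append (S T : List Ed) (v : ℕ) : degL (S ++ T) v = degL S v + degL T v := by
  simp [degL]

theorem degL_nil (v : ℕ) : degL [] v = 0 := rfl

theorem norm_append (S T M : List Ed) : norm (S ++ T) M = norm S M ++ norm T M := by
  simp [norm]

theorem NoLoop.mono {z w : Finset (Sym2 ℕ)} (h : NoLoop w) (hz : z ⊆ w) : NoLoop z := fun e he => h e (hz he)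

theorem fs_norm_sub (U M : List Ed) : fs (norm U M) ⊆ fs M := by
  rw [fs_norm]; exact Finset.inter_subset_right

theorem ttl_norm {M : List Ed} (hM : NoLoop (fs M)) (C : List Cl) (v : ℕ) :
    ttl (C.map fun c => ends2 (norm (clE c) M)) v = degL (norm (C.flatMap clE) M) v := by
  induction C with
  | nil => rfl
  | cons c C ih =>
    rw [List.map_cons, ttl_cons, ih, List.flatMap_cons, norm_append, degL_append,
      count_ends2 (hM.mono (fs_norm_sub _ _))]

theorem ttl_plain {M : List Ed} (hM : NoLoop (fs M)) (l : List Ed) (v : ℕ) :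
    ttl (l.map fun e => ends2 (bif hasE M e then [e] else [])) v = degL (norm l M) v := by
  induction l with
  | nil => rfl
  | cons e l ih =>
    rw [List.map_cons, ttl_cons, ih]
    cases h : hasE M e with
    | true =>
      have h1 : norm (e :: l) M = [e] ++ norm l M := by simp [norm, h]
      rw [h1, degL_append, cond_true, count_ends2]
      refine hM.mono ?_
      intro y hy
      rw [mem_fs] at hy
      obtain ⟨f, hf, rfl⟩ := hy
      rw [List.mem_singleton] at hf
      subst hf
      exact (hasE_iff _ _).1 h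
    | false =>
      have h1 : norm (e :: l) M = norm l M := by simp [norm, h]
      rw [h1, cond_false]
      simp [ends2]

theorem fs_flat (x : Ins) (C : List Cl) (hC : ∀ c ∈ C, fs (clE c) ⊆ fs x.2) :
    fs (C.flatMap clE ++ plE x C) = fs x.2 := by
  have h : fs (C.flatMap clE) ⊆ fs x.2 := by
    intro y hy
    rw [mem_fs] at hy
    obtain ⟨e, he, rfl⟩ := hy
    obtain ⟨c, hc, he⟩ := List.mem_flatMap.1 he
    exact hC c hc (fe_mem_fs he)
  rw [plE, fs_append, fs_rest, Finset.union_sdiff_of_subset h]

theorem wf_flat {x : Ins} {C : List Cl} (hx : WF x.2) (hC : ∀ c ∈ C, ClOK c)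
    (hd : C.Pairwise fun c c' => Disjoint (fs (clE c)) (fs (clE c'))) : WF (C.flatMap clE ++ plE x C) := by
  have h1 : WF (C.flatMap clE) := by
    clear hx
    induction C with
    | nil => exact WF.nil
    | cons c C ih =>
      rw [List.pairwise_cons] at hd
      rw [List.flatMap_cons]
      show ((clE c ++ C.flatMap clE).map fe).Nodup
      rw [List.map_append, List.nodup_append']
      refine ⟨wf_clE (hC c List.mem_cons_self), ih (fun c hc => hC c (List.mem_cons_of_mem _ hc)) hd.2, ?_⟩
      intro y h1 h2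
      obtain ⟨f, hf, hfy⟩ := List.mem_map.1 h2
      obtain ⟨c', hc', hf'⟩ := List.mem_flatMap.1 hf
      have h3 := hd.1 c' hc'
      rw [Finset.disjoint_left] at h3
      refine h3 (a := y) ?_ ?_
      · rw [fs, List.mem_toFinset]; exact h1
      · rw [← hfy]; exact fe_mem_fs hf'
  exact h1.uni hx

/-- the edges of `M` are split between the clusters and the plain edges -/
theorem ttl_edges {x : Ins} (hx : InsWF x) {C : List Cl} (hC : ClsOK x C) {M : List Ed} (hM : MG x M) (v : ℕ) :
    ttl (C.map (fun c => ends2 (norm (clE c) M)) ++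
      (plE x C).map (fun e => ends2 (bif hasE M e then [e] else []))) v = degL M v := by
  rw [ttl_append, ttl_norm hM.m2.nl, ttl_plain hM.m2.nl, ← degL_append, ← norm_append]
  have h1 := fs_flat x C hC.sub
  have h2 := wf_flat hx.wf hC.ok hC.dj
  rw [degL_eq (h2.norm M), degL_eq hM.wf, fs_norm, h1, Finset.inter_eq_right.2 hM.sub]

theorem degL_out {x : Ins} (hx : InsWF x) {M : List Ed} (hM : MG x M) {v : ℕ} (hv : x.1 ≤ v) : degL M v = 0 := by
  rw [degL_eq hM.wf, dg, Finset.card_eq_zero, Finset.filter_eq_empty_iff]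
  intro e he h
  have he := hM.sub he
  have := hx.vlt he h
  omega

theorem sumL (n : ℕ) (f : ℕ → ℕ) : ((List.range n).map f).sum = ∑ i ∈ Finset.range n, f i := rfl

theorem sum_count {n : ℕ} (l : List ℕ) (h : ∀ a ∈ l, a < n) :
    ((List.range n).map fun v => l.count v).sum = l.length := by
  rw [sumL]
  induction l with
  | nil => simp
  | cons a l ih =>
    have h1 := ih fun b hb => h b (List.mem_cons_of_mem _ hb)
    simp only [List.count_cons, Finset.sum_add_distrib, h1, List.length_cons]
    congr 1
    have h2 : ∀ i, (if (a == i) = true then 1 else 0) = if a = i then 1 else 0 := by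
      intro i; simp
    simp only [h2]
    rw [Finset.sum_ite_eq, if_pos (Finset.mem_range.2 (h a List.mem_cons_self))]

theorem len_ends2 (M : List Ed) : (ends2 M).length = 2 * M.length := by
  induction M with
  | nil => rfl
  | cons e M ih =>
    have h : ends2 (e :: M) = [e.1, e.2] ++ ends2 M := rfl
    rw [h, List.length_append, ih, List.length_cons]
    simp
    omega

theorem hand {x : Ins} (hx : InsWF x) {M : List Ed} (hM : MG x M) :
    ((List.range x.1).map fun v => degL M v).sum = 2 * M.length := by
  rw [← len_ends2, ← sum_count (n := x.1) (ends2 M)]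
  · congr 1
    refine List.map_congr_left ?_
    intro v _
    exact (count_ends2 hM.m2.nl v).symm
  · intro a ha
    obtain ⟨e, he, hae⟩ := mem_ends2.1 ha
    exact hx.vlt (hM.sub he) hae

/-! ### slack units -/

theorem mem_slJ {n : ℕ} {g : List ℕ} {p : ℕ × ℕ} : p ∈ slJ n g ↔ p.1 < n ∧ p.2 < 2 - g.getD p.1 0 := by
  obtain ⟨a, b⟩ := p
  simp only [slJ, List.mem_flatMap, List.mem_range, List.mem_map, Prod.mk.injEq]
  constructor
  · rintro ⟨v, hv, j, hj, rfl, rfl⟩
    exact ⟨hv, hj⟩
  · rintro ⟨h1, h2⟩
    exact ⟨a, h1, b, h2, rfl, rfl⟩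

/-- a sum over the slack units -/
theorem sum_slJ (n : ℕ) (g : List ℕ) (f : ℕ × ℕ → ℕ) :
    ((slJ n g).map f).sum = ∑ v ∈ Finset.range n, ∑ j ∈ Finset.range (2 - g.getD v 0), f (v, j) := by
  rw [slJ, List.map_flatMap, List.flatMap_def, List.sum_flatten, List.map_map, sumL]
  refine Finset.sum_congr rfl fun v _ => ?_
  simp only [Function.comp, List.map_map]
  rfl

theorem card_lt (a b : ℕ) : (∑ j ∈ Finset.range a, if j < b then 1 else 0) = min a b := by
  induction a with
  | zero => simp
  | succ a ih =>
    rw [Finset.sum_range_succ, ih]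
    split_ifs with h
    · omega
    · omega

theorem length_filter_sum {α : Type} (l : List α) (p : α → Bool) :
    (l.filter p).length = (l.map fun a => if p a = true then 1 else 0).sum := by
  induction l with
  | nil => rfl
  | cons a l ih =>
    rw [List.filter_cons, List.map_cons, List.sum_cons, ← ih]
    split_ifs
    · rw [List.length_cons]; omega
    · omega

theorem hsl_eq (x : Ins) (g : List ℕ) (M : List Ed) :
    hsl x g M = ∑ v ∈ Finset.range x.1, min (2 - g.getD v 0) (2 - degL M v) := by
  rw [hsl, length_filter_sum, sum_slJ]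
  refine Finset.sum_congr rfl fun v _ => ?_
  rw [← card_lt]
  simp

theorem ttl_slack (x : Ins) (g : List ℕ) (M : List Ed) (v : ℕ) :
    ttl ((slJ x.1 g).map fun p => bif decide (p.2 < 2 - degL M p.1) then [p.1, x.1] else []) v =
      if v < x.1 then min (2 - g.getD v 0) (2 - degL M v) else if v = x.1 then hsl x g M else 0 := by
  rw [ttl, List.map_map, sum_slJ]
  have h1 : ∀ u ∈ Finset.range x.1, (∑ j ∈ Finset.range (2 - g.getD u 0),
      ((fun k => k.count v) ∘ fun p : ℕ × ℕ => bif decide (p.2 < 2 - degL M p.1) then [p.1, x.1] else []) (u, j)) =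
      (if u = v then min (2 - g.getD u 0) (2 - degL M u) else 0) +
        (if v = x.1 then min (2 - g.getD u 0) (2 - degL M u) else 0) := by
    intro u hu
    rw [Finset.mem_range] at hu
    rw [← card_lt]
    have h2 : ∀ j, ((fun k => k.count v) ∘ fun p : ℕ × ℕ => bif decide (p.2 < 2 - degL M p.1) then [p.1, x.1]
        else []) (u, j) = (if u = v then (if j < 2 - degL M u then 1 else 0) else 0) +
        (if v = x.1 then (if j < 2 - degL M u then 1 else 0) else 0) := by
      intro j
      simp only [Function.comp]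
      by_cases h3 : j < 2 - degL M u
      · simp only [h3, decide_true, cond_true, List.count_cons, List.count_nil, beq_iff_eq, if_true]
        by_cases h4 : u = v
        · have h5 : x.1 ≠ v := by omega
          simp [h4, h5, Ne.symm h5]
        · by_cases h5 : x.1 = v
          · simp [h4, h5]
          · simp [h4, h5, Ne.symm h5]
      · simp only [h3, decide_false, cond_false, List.count_nil, if_false, ite_self]
    simp only [h2, Finset.sum_add_distrib]
    congr 1
    · split_ifs
      · rfl
      · simp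
    · split_ifs
      · rfl
      · simp
  rw [Finset.sum_congr rfl h1, Finset.sum_add_distrib, Finset.sum_ite_eq', hsl_eq]
  by_cases h3 : v < x.1
  · have h4 : v ≠ x.1 := by omega
    rw [if_pos (Finset.mem_range.2 h3), if_pos h3]
    simp [h4]
  · rw [if_neg (by simpa using h3), if_neg h3, zero_add]
    by_cases h4 : v = x.1
    · simp [h4]
    · simp [h4]

theorem ttl_loops (n h ρ v : ℕ) :
    ttl ((List.range n).map fun j => bif decide (h + 2 * j + 2 + ρ ≤ 2 * n) then [n, n] else []) v =
      if v = n then 2 * min n ((2 * n - ρ - h) / 2) else 0 := by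
  rw [ttl, List.map_map, sumL]
  have h1 : ∀ j, ((fun k => k.count v) ∘ fun j => bif decide (h + 2 * j + 2 + ρ ≤ 2 * n) then [n, n] else []) j =
      if v = n then (if j < (2 * n - ρ - h) / 2 then 1 else 0) * 2 else 0 := by
    intro j
    simp only [Function.comp]
    by_cases h2 : h + 2 * j + 2 + ρ ≤ 2 * n
    · have h3 : j < (2 * n - ρ - h) / 2 := by omega
      simp only [h2, decide_true, cond_true, h3, if_true, List.count_cons, List.count_nil, beq_iff_eq]
      by_cases h4 : v = n
      · simp [h4]
      · simp [h4, Ne.symm h4]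
    · have h3 : ¬ j < (2 * n - ρ - h) / 2 := by omega
      simp only [h2, decide_false, cond_false, h3, if_false, List.count_nil, zero_mul, ite_self]
  simp only [h1]
  split_ifs
  · rw [← Finset.sum_mul, card_lt, mul_comm]
  · simp

theorem deg_le {x : Ins} {M : List Ed} (hM : MG x M) (v : ℕ) : degL M v ≤ 2 := by
  rw [degL_eq hM.wf]; exact hM.m2.le v

theorem par_cover {x : Ins} (hx : InsWF x) {g : List ℕ} {M : List Ed} (hM : MG x M)
    (hc : Cov x.1 g (degL M)) : hsl x g M + 2 * M.length = 2 * x.1 := by
  rw [hsl_eq, ← hand hx hM, sumL, ← Finset.sum_add_distrib]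
  have h1 : ∀ v ∈ Finset.range x.1, min (2 - g.getD v 0) (2 - degL M v) + degL M v = 2 := by
    intro v hv
    have h2 := hc v (Finset.mem_range.1 hv)
    have h3 := deg_le hM v
    omega
  rw [Finset.sum_congr rfl h1, Finset.sum_const, Finset.card_range, smul_eq_mul, mul_comm]

theorem par_near {x : Ins} (hx : InsWF x) {g : List ℕ} {M : List Ed} (hM : MG x M) {w : ℕ} (hw : w < x.1)
    (hg : g.getD w 0 ≤ 2)
    (hc : ∀ u < x.1, g.getD u 0 ≤ degL M u + (if u = w then 1 else 0)) (hd : degL M w + 1 = g.getD w 0) :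
    hsl x g M + 2 * M.length + 1 = 2 * x.1 := by
  have h1 : ∀ v ∈ Finset.range x.1, min (2 - g.getD v 0) (2 - degL M v) + degL M v + (if v = w then 1 else 0) = 2 := by
    intro v hv
    have h2 := hc v (Finset.mem_range.1 hv)
    have h3 := deg_le hM v
    split_ifs at h2 ⊢ with h
    · subst h; omega
    · omega
  have h2 := Finset.sum_congr rfl h1
  rw [Finset.sum_add_distrib, Finset.sum_add_distrib, Finset.sum_const, Finset.card_range, smul_eq_mul,
    Finset.sum_ite_eq', if_pos (Finset.mem_range.2 hw), ← hsl_eq, ← sumL, hand hx hM] at h2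
  omega

/-! ### the configuration of a 2-matching -/

/-- the target: `2` at the vertices, `2 n - ρ` at the slack vertex -/
def tgt (n ρ v : ℕ) : ℕ := if v < n then 2 else if v = n then 2 * n - ρ else 0

theorem totR (x : Ins) (g : List ℕ) (C : List Cl) (M : List Ed) (ρ v : ℕ) :
    ttl (cfgM x g C M ρ) v =
      ttl (C.map (fun c => ends2 (norm (clE c) M)) ++
        (plE x C).map (fun e => ends2 (bif hasE M e then [e] else []))) v +
      ((if v < x.1 then min (2 - g.getD v 0) (2 - degL M v) else if v = x.1 then hsl x g M else 0) +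
       (if v = x.1 then 2 * min x.1 ((2 * x.1 - ρ - hsl x g M) / 2) else 0)) := by
  rw [cfgM, ttl_append]
  congr 1
  rw [ttl_append, ttl_slack, ttl_loops]

/-- a cover gives a configuration with the target total -/
theorem ttl_cover {x : Ins} (hx : InsWF x) {C : List Cl} (hC : ClsOK x C) {g : List ℕ} {M : List Ed}
    (hM : MG x M) (hc : Cov x.1 g (degL M)) (v : ℕ) : ttl (cfgM x g C M 0) v = tgt x.1 0 v := by
  rw [totR, ttl_edges hx hC hM, tgt]
  have h1 := par_cover hx hM hc
  have h2 := deg_le hM v
  by_cases hv : v < x.1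
  · have h3 := hc v hv
    have h4 : v ≠ x.1 := by omega
    rw [if_pos hv, if_pos hv, if_neg h4]
    omega
  · rw [if_neg hv, if_neg hv, degL_out hx hM (by omega)]
    by_cases h4 : v = x.1
    · rw [if_pos h4, if_pos h4, if_pos h4]
      omega
    · rw [if_neg h4, if_neg h4, if_neg h4]

/-- a near cover gives a configuration whose total is the near target minus a unit vector -/
theorem ttl_near {x : Ins} (hx : InsWF x) {C : List Cl} (hC : ClsOK x C) {g : List ℕ} {M : List Ed}
    (hM : MG x M) {w : ℕ} (hw : w < x.1) (hg : g.getD w 0 ≤ 2)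
    (hc : ∀ u < x.1, g.getD u 0 ≤ degL M u + (if u = w then 1 else 0)) (hd : degL M w + 1 = g.getD w 0) (v : ℕ) :
    ttl (cfgM x g C M 1) v + (if v = w then 1 else 0) = tgt x.1 1 v := by
  rw [totR, ttl_edges hx hC hM, tgt]
  have h1 := par_near hx hM hw hg hc hd
  have h2 := deg_le hM v
  by_cases hv : v < x.1
  · have h3 := hc v hv
    have h4 : v ≠ x.1 := by omega
    rw [if_pos hv, if_pos hv, if_neg h4]
    by_cases h5 : v = w
    · subst h5
      rw [if_pos rfl] at h3 ⊢
      omega
    · rw [if_neg h5] at h3 ⊢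
      omega
  · have h5 : v ≠ w := by omega
    rw [if_neg hv, if_neg hv, degL_out hx hM (by omega), if_neg h5]
    by_cases h4 : v = x.1
    · rw [if_pos h4, if_pos h4, if_pos h4]
      omega
    · rw [if_neg h4, if_neg h4, if_neg h4]

theorem pmem_unP {u v : ℕ} {k : List ℕ} (h : pmem (unP u v) k = true) : kvec k = kvec [] ∨ kvec k = kvec [u, v] := by
  rcases pmem_sound h with ⟨l, hl, e⟩ | ⟨_, z, hz, _, _, e⟩
  · rw [unP, List.mem_singleton] at hl
    rw [hl] at e
    exact Or.inr e
  · have : z = ∅ := Finset.subset_empty.1 hz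
    left
    rw [e, this]
    funext v
    simp [dv, dg, kvec]

theorem pmem_unP_nil (u v : ℕ) : pmem (unP u v) [] = true := by
  unfold pmem
  rw [Bool.or_eq_true, Bool.and_eq_true, List.any_eq_true]
  refine Or.inr ⟨rfl, ?_⟩
  rw [List.any_eq_true]
  exact ⟨[], mem_subs.2 ⟨by simp, by simp⟩, by decide⟩

theorem pmem_unP_one (u v : ℕ) : pmem (unP u v) [u, v] = true := by
  unfold pmem
  rw [Bool.or_eq_true, List.any_eq_true]
  exact Or.inl ⟨[u, v], List.mem_singleton.2 rfl, (eqK_iff _ _).2 rfl⟩

theorem forall2_map {α β γ : Type} {R : β → γ → Prop} {f : α → β} {h : α → γ} (l : List α)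
    (hl : ∀ a ∈ l, R (f a) (h a)) : List.Forall₂ R (l.map f) (l.map h) := by
  induction l with
  | nil => exact List.Forall₂.nil
  | cons a l ih =>
    exact List.Forall₂.cons (hl a List.mem_cons_self) (ih fun b hb => hl b (List.mem_cons_of_mem _ hb))

theorem forall2_append {β γ : Type} {R : β → γ → Prop} {a a' : List β} {b b' : List γ}
    (h : List.Forall₂ R a b) (h' : List.Forall₂ R a' b') : List.Forall₂ R (a ++ a') (b ++ b') := by
  induction h with
  | nil => exact h'
  | cons h1 _ ih => exact List.Forall₂.cons h1 ih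

theorem MG.squareFree {x : Ins} {M : List Ed} (hx : InsWF x) (h : VM x M) : Good none4 (fs M) := by
  intro a b c d hs
  obtain ⟨q, hq, e⟩ := sqG_full hx (hs.mono h.1.sub)
  have k := h.2 q hq
  have k2 : sqIn M q = true := by rw [sqIn_iff, e]; exact Sq.sub hs
  rw [k] at k2
  cases k2

theorem Good.mono {z w : Finset (Sym2 ℕ)} (h : Good none4 w) (hz : z ⊆ w) : Good none4 z :=
  fun a b c d hs => h a b c d (hs.mono hz)

/-- the configuration of a square-free 2-matching is exact -/
theorem cfgM_exact {x : Ins} (hx : InsWF x) {C : List Cl} (hC : ClsOK x C) (g : List ℕ) {M : List Ed}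
    (hM : VM x M) (ρ : ℕ) :
    List.Forall₂ (fun p k => pmem p k = true) (pcs exP x g C) (cfgM x g C M ρ) := by
  have hg := MG.squareFree hx hM
  refine forall2_append (forall2_append ?_ ?_) (forall2_append ?_ ?_)
  · refine forall2_map C fun c hc => pmem_complete (hC.c4 c hc) (Or.inr ⟨rfl, fs (norm (clE c) M), ?_, ?_, ?_, ?_⟩)
    · rw [fs_norm]; exact Finset.inter_subset_left
    · exact hM.1.m2.mono (fs_norm_sub _ _)
    · exact hg.mono (fs_norm_sub _ _)
    · exact kvec_ends2 ((wf_clE (hC.ok c hc)).norm M) (hM.1.m2.nl.mono (fs_norm_sub _ _))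
  · refine forall2_map (plE x C) fun e he => ?_
    have hne : e.1 ≠ e.2 := by
      intro h
      have h1 : fe e ∈ fs (plE x C) := fe_mem_fs he
      rw [plE, fs_rest, Finset.mem_sdiff] at h1
      refine hx.nl _ h1.1 ?_
      rw [fe, h]
      exact Sym2.mk_isDiag_iff.2 rfl
    unfold pmem
    rw [Bool.or_eq_true, Bool.and_eq_true, List.any_eq_true]
    refine Or.inr ⟨rfl, ?_⟩
    rw [List.any_eq_true]
    refine ⟨bif hasE M e then [e] else [], mem_subs.2 ⟨?_, ?_⟩, ?_⟩
    · cases hasE M e <;> simp
    · cases hasE M e <;> simp [edP]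
    · rw [Bool.and_eq_true, okS_iff]
      refine ⟨⟨?_, ?_, ?_⟩, (eqK_iff _ _).2 rfl⟩
      · cases hasE M e
        · exact WF.nil
        · exact WF.single e
      · refine hM.1.m2.mono ?_
        cases h : hasE M e
        · simp [fs_nil]
        · intro y hy
          obtain ⟨f, hf, rfl⟩ := mem_fs.1 hy
          rw [cond_true, List.mem_singleton] at hf
          subst hf
          exact (hasE_iff _ _).1 h
      · refine hg.mono ?_
        cases h : hasE M e
        · simp [fs_nil]
        · intro y hy
          obtain ⟨f, hf, rfl⟩ := mem_fs.1 hy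
          rw [cond_true, List.mem_singleton] at hf
          subst hf
          exact (hasE_iff _ _).1 h
  · refine forall2_map (slJ x.1 g) fun p _ => ?_
    cases decide (p.2 < 2 - degL M p.1)
    · exact pmem_unP_nil _ _
    · exact pmem_unP_one _ _
  · refine forall2_map (List.range x.1) fun j _ => ?_
    cases decide (hsl x g M + 2 * j + 2 + ρ ≤ 2 * x.1)
    · exact pmem_unP_nil _ _
    · exact pmem_unP_one _ _

/-! ### the 2-matching of a configuration -/

theorem rlz_spec {p : Pc} {k : List ℕ} (hX : p.2.2 = []) (h : pmem p k = true) :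
    WF (rlz p k) ∧ M2 (fs (rlz p k)) ∧ Good none4 (fs (rlz p k)) ∧ fs (rlz p k) ⊆ fs p.2.1 ∧
      ∀ v, degL (rlz p k) v = k.count v := by
  unfold pmem at h
  rw [hX, List.any_nil, Bool.false_or, Bool.and_eq_true, List.any_eq_true] at h
  obtain ⟨h1, h2⟩ := findD_spec (fun S => okS S && eqK k (ends2 S)) (subs p.2.1 4) [] h.2
  change rlz p k ∈ subs p.2.1 4 at h1
  change (okS (rlz p k) && eqK k (ends2 (rlz p k))) = true at h2
  rw [Bool.and_eq_true, okS_iff, eqK_iff] at h2
  refine ⟨h2.1.1, h2.1.2.1, h2.1.2.2, ?_, ?_⟩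
  · intro y hy
    obtain ⟨e, he, rfl⟩ := mem_fs.1 hy
    exact fe_mem_fs ((mem_subs.1 h1).2 e he)
  · intro v
    rw [← count_ends2 h2.1.2.1.nl]
    have := congrFun h2.2 v
    unfold kvec at this
    exact_mod_cast this.symm

/-- gluing -/
theorem glue {α : Type} (A : α → Finset (Sym2 ℕ)) (F : α → List ℕ → List Ed) {l : List α} {ks : List (List ℕ)}
    (h : List.Forall₂ (fun a k => WF (F a k) ∧ Good none4 (fs (F a k)) ∧ fs (F a k) ⊆ A a ∧
      ∀ v, degL (F a k) v = k.count v) l ks)
    (hd : l.Pairwise fun a b => Disjoint (A a) (A b)) :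
    WF (List.zipWith F l ks).flatten ∧ (∀ y ∈ fs (List.zipWith F l ks).flatten, ∃ a ∈ l, y ∈ A a) ∧
      (∀ v, degL (List.zipWith F l ks).flatten v = ttl ks v) ∧
      ∀ a ∈ l, Good none4 (fs (List.zipWith F l ks).flatten ∩ A a) := by
  induction h with
  | nil => exact ⟨WF.nil, by simp [fs_nil], fun v => rfl, by simp⟩
  | @cons a k l ks h1 h2 ih =>
    rw [List.pairwise_cons] at hd
    obtain ⟨i1, i2, i3, i4⟩ := ih hd.2
    have e : (List.zipWith F (a :: l) (k :: ks)).flatten = F a k ++ (List.zipWith F l ks).flatten := rfl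
    have hdis : Disjoint (fs (F a k)) (fs (List.zipWith F l ks).flatten) := by
      rw [Finset.disjoint_left]
      intro y hy hy'
      obtain ⟨b, hb, hyb⟩ := i2 y hy'
      exact Finset.disjoint_left.1 (hd.1 b hb) (h1.2.2.1 hy) hyb
    rw [e]
    refine ⟨?_, ?_, ?_, ?_⟩
    · show ((F a k ++ (List.zipWith F l ks).flatten).map fe).Nodup
      rw [List.map_append, List.nodup_append']
      refine ⟨h1.1, i1, ?_⟩
      intro y h3 h4
      have h5 := Finset.disjoint_left.1 hdis
      refine h5 (a := y) ?_ ?_
      · rw [fs, List.mem_toFinset]; exact h3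
      · rw [fs, List.mem_toFinset]; exact h4
    · intro y hy
      rw [fs_append, Finset.mem_union] at hy
      rcases hy with hy | hy
      · exact ⟨a, List.mem_cons_self, h1.2.2.1 hy⟩
      · obtain ⟨b, hb, hyb⟩ := i2 y hy
        exact ⟨b, List.mem_cons_of_mem _ hb, hyb⟩
    · intro v
      rw [degL_append, h1.2.2.2 v, i3 v, ttl_cons]
    · intro b hb
      rcases List.mem_cons.1 hb with rfl | hb
      · have h5 : fs (F b k ++ (List.zipWith F l ks).flatten) ∩ A b = fs (F b k) := by
          rw [fs_append, Finset.union_inter_distrib_right, Finset.inter_eq_left.2 h1.2.2.1]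
          have h6 : fs (List.zipWith F l ks).flatten ∩ A b = ∅ := by
            rw [← Finset.disjoint_iff_inter_eq_empty, Finset.disjoint_left]
            intro y hy hyb
            obtain ⟨c, hc, hyc⟩ := i2 y hy
            exact Finset.disjoint_left.1 (hd.1 c hc) hyb hyc
          rw [h6, Finset.union_empty]
        rw [h5]
        exact h1.2.1
      · have h5 : fs (F a k ++ (List.zipWith F l ks).flatten) ∩ A b = fs (List.zipWith F l ks).flatten ∩ A b := by
          rw [fs_append, Finset.union_inter_distrib_right]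
          have h6 : fs (F a k) ∩ A b = ∅ := by
            rw [← Finset.disjoint_iff_inter_eq_empty]
            exact (hd.1 b hb).mono_left h1.2.2.1
          rw [h6, Finset.empty_union]
        rw [h5]
        exact i4 b hb

theorem range_zip {α : Type} (d : α) (F : α → List ℕ → List Ed) {R : α → List ℕ → Prop} {l : List α}
    {ks : List (List ℕ)} (h : List.Forall₂ R l ks) (r : List (List ℕ)) :
    ((List.range l.length).flatMap fun i => F (l.getD i d) ((ks ++ r).getD i [])) =
      (List.zipWith F l ks).flatten := by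
  induction h with
  | nil => rfl
  | @cons a k l ks h1 h2 ih =>
    rw [List.length_cons, List.range_succ_eq_map, List.flatMap_cons, List.flatMap_map]
    have e : (List.zipWith F (a :: l) (k :: ks)).flatten = F a k ++ (List.zipWith F l ks).flatten := rfl
    rw [e, ← ih]
    rfl

/-- the edge pieces -/
def eps (x : Ins) (C : List Cl) : List Pc := C.map exP ++ (plE x C).map edP

theorem eps_pure {x : Ins} {C : List Cl} {p : Pc} (hp : p ∈ eps x C) : p.2.2 = [] ∧ p.1 = true := by
  rcases List.mem_append.1 hp with h | h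
  · obtain ⟨c, _, rfl⟩ := List.mem_map.1 h
    exact ⟨rfl, rfl⟩
  · obtain ⟨c, _, rfl⟩ := List.mem_map.1 h
    exact ⟨rfl, rfl⟩

theorem eps_disj {x : Ins} (hx : InsWF x) {C : List Cl} (hC : ClsOK x C) :
    (eps x C).Pairwise fun a b => Disjoint (fs a.2.1) (fs b.2.1) := by
  rw [eps, List.pairwise_append]
  refine ⟨?_, ?_, ?_⟩
  · rw [List.pairwise_map]
    exact hC.dj
  · rw [List.pairwise_map]
    have h : WF (plE x C) := hx.wf.rest _
    have h2 : (plE x C).Pairwise fun a b => fe a ≠ fe b := by
      have h3 : ((plE x C).map fe).Pairwise (· ≠ ·) := h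
      rwa [List.pairwise_map] at h3
    refine h2.imp ?_
    intro a b hab
    show Disjoint (fs [a]) (fs [b])
    rw [fs_cons, fs_cons, fs_nil]
    simpa using hab
  · intro p hp q hq
    obtain ⟨c, hc, rfl⟩ := List.mem_map.1 hp
    obtain ⟨e, he, rfl⟩ := List.mem_map.1 hq
    show Disjoint (fs (clE c)) (fs [e])
    rw [fs_cons, fs_nil]
    rw [Finset.disjoint_left]
    intro y hy hy'
    have hy2 : y = fe e := by simpa using hy'
    subst hy2
    have h1 : fe e ∈ fs (plE x C) := fe_mem_fs he
    rw [plE, fs_rest, Finset.mem_sdiff] at h1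
    apply h1.2
    obtain ⟨f, hf, hfe⟩ := mem_fs.1 hy
    exact mem_fs.2 ⟨f, List.mem_flatMap.2 ⟨c, hc, hf⟩, hfe⟩

theorem forall2_split {α β : Type} {R : α → β → Prop} {a b : List α} {ks : List β}
    (h : List.Forall₂ R (a ++ b) ks) : ∃ k1 k2, ks = k1 ++ k2 ∧ List.Forall₂ R a k1 ∧ List.Forall₂ R b k2 := by
  induction a generalizing ks with
  | nil => exact ⟨[], ks, rfl, List.Forall₂.nil, h⟩
  | cons x a ih =>
    cases h with
    | cons h1 h2 =>
      obtain ⟨k1, k2, rfl, h3, h4⟩ := ih h2
      exact ⟨_ :: k1, k2, rfl, List.Forall₂.cons h1 h3, h4⟩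

/-- the slack pieces contribute at most `2 - g v` at `v` -/
theorem ttl_un_le {n : ℕ} {g : List ℕ} {v : ℕ} (hv : v < n) {k2 : List (List ℕ)}
    (h : List.Forall₂ (fun p k => pmem p k = true) ((slJ n g).map (fun p => unP p.1 n) ++
      (List.range n).map fun _ => unP n n) k2) : ttl k2 v ≤ 2 - g.getD v 0 := by
  obtain ⟨k3, k4, rfl, h3, h4⟩ := forall2_split h
  have h5 : ttl k4 v = 0 := by
    clear h3 h
    rw [List.forall₂_map_left_iff] at h4
    generalize List.range n = l at h4
    induction h4 with
    | nil => rfl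
    | cons h1 _ ih =>
      rw [ttl_cons, ih]
      have h6 : ∀ k : List ℕ, pmem (unP n n) k = true → k.count v = 0 := by
        intro k hk
        rcases pmem_unP hk with e | e
        · have := congrFun e v
          unfold kvec at this
          simpa using this
        · have := congrFun e v
          unfold kvec at this
          have hne : n ≠ v := by omega
          simpa [hne] using this
      rw [h6 _ h1]
  have h6 : ∀ (l : List (ℕ × ℕ)) (ks : List (List ℕ)),
      List.Forall₂ (fun p k => pmem p k = true) (l.map (fun p => unP p.1 n)) ks →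
      ttl ks v ≤ (l.map fun p => if p.1 = v then 1 else 0).sum := by
    intro l
    induction l with
    | nil =>
      intro ks hks
      cases hks
      exact Nat.zero_le _
    | cons p l ih =>
      intro ks hks
      cases hks with
      | @cons _ kk _ _ h7 h8 =>
        rw [ttl_cons, List.map_cons, List.sum_cons]
        refine Nat.add_le_add ?_ (ih _ h8)
        rcases pmem_unP h7 with e | e
        · have := congrFun e v
          unfold kvec at this
          simp only [List.count_nil, Nat.cast_zero] at this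
          have h9 : List.count v kk = 0 := by exact_mod_cast this
          rw [h9]
          exact Nat.zero_le _
        · have := congrFun e v
          unfold kvec at this
          have hne : n ≠ v := by omega
          have h9 : List.count v kk = List.count v [p.1, n] := by exact_mod_cast this
          rw [h9]
          by_cases h10 : p.1 = v
          · simp [h10, hne]
          · simp [h10, hne]
  rw [ttl_append, h5, add_zero]
  refine (h6 _ _ h3).trans (le_of_eq ?_)
  rw [sum_slJ]
  have h7 : ∀ u ∈ Finset.range n, (∑ j ∈ Finset.range (2 - g.getD u 0),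
      (fun p : ℕ × ℕ => if p.1 = v then 1 else 0) (u, j)) = if u = v then 2 - g.getD u 0 else 0 := by
    intro u _
    simp only
    split_ifs <;> simp
  rw [Finset.sum_congr rfl h7, Finset.sum_ite_eq', if_pos (Finset.mem_range.2 hv)]

/-- **An exact configuration gives a cover.** -/
theorem decM_spec {x : Ins} (hx : InsWF x) {C : List Cl} (hC : ClsOK x C) {g : List ℕ}
    (hg : ∀ v, g.getD v 0 ≤ 2) {ks : List (List ℕ)}
    (h : List.Forall₂ (fun p k => pmem p k = true) (pcs exP x g C) ks) (ht : ∀ v < x.1, ttl ks v = 2) :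
    MG x (decM x C ks) ∧ Cov x.1 g (degL (decM x C ks)) ∧
      ∀ q : Sq4, SqOK q → (∃ c ∈ C, sqs q ⊆ fs (clE c)) → sqIn (decM x C ks) q = false := by
  obtain ⟨k1, k2, rfl, h1, h2⟩ := forall2_split h
  have e : decM x C (k1 ++ k2) = (List.zipWith rlz (eps x C) k1).flatten := range_zip _ rlz h1 k2
  have h3 : List.Forall₂ (fun (a : Pc) k => WF (rlz a k) ∧ Good none4 (fs (rlz a k)) ∧ fs (rlz a k) ⊆ fs a.2.1 ∧
      ∀ v, degL (rlz a k) v = k.count v) (eps x C) k1 := by
    have h4 : ∀ (l : List Pc) (ks : List (List ℕ)), (∀ p ∈ l, p.2.2 = []) →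
        List.Forall₂ (fun p k => pmem p k = true) l ks →
        List.Forall₂ (fun (a : Pc) k => WF (rlz a k) ∧ Good none4 (fs (rlz a k)) ∧ fs (rlz a k) ⊆ fs a.2.1 ∧
          ∀ v, degL (rlz a k) v = k.count v) l ks := by
      intro l ks hl hks
      induction hks with
      | nil => exact List.Forall₂.nil
      | cons h5 _ ih =>
        obtain ⟨i1, _, i3, i4, i5⟩ := rlz_spec (hl _ List.mem_cons_self) h5
        exact List.Forall₂.cons ⟨i1, i3, i4, i5⟩ (ih fun p hp => hl p (List.mem_cons_of_mem _ hp))
    exact h4 _ _ (fun p hp => (eps_pure hp).1) h1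
  obtain ⟨g1, g2, g3, g4⟩ := glue (fun p : Pc => fs p.2.1) rlz h3 (eps_disj hx hC)
  rw [e]
  set M := (List.zipWith rlz (eps x C) k1).flatten with hM
  have hsub : fs M ⊆ fs x.2 := by
    intro y hy
    obtain ⟨p, hp, hyp⟩ := g2 y hy
    rcases List.mem_append.1 hp with hp | hp
    · obtain ⟨c, hc, rfl⟩ := List.mem_map.1 hp
      exact hC.sub c hc hyp
    · obtain ⟨f, hf, rfl⟩ := List.mem_map.1 hp
      have h5 : fe f ∈ fs (plE x C) := fe_mem_fs hf
      rw [plE, fs_rest, Finset.mem_sdiff] at h5
      have h6 : y ∈ fs [f] := hyp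
      rw [fs_cons, fs_nil] at h6
      have h7 : y = fe f := by simpa using h6
      rw [h7]
      exact h5.1
  have hdeg : ∀ v < x.1, degL M v ≤ 2 ∧ g.getD v 0 ≤ degL M v := by
    intro v hv
    have h5 := ht v hv
    rw [ttl_append, ← g3 v] at h5
    have h6 := ttl_un_le hv h2
    have h7 := hg v
    omega
  have hMG : MG x M := by
    refine ⟨g1, ⟨hx.nl.mono hsub, fun v => ?_⟩, hsub⟩
    by_cases hv : v < x.1
    · rw [← degL_eq g1]
      exact (hdeg v hv).1
    · have : dg (fs M) v = 0 := by
        rw [dg, Finset.card_eq_zero, Finset.filter_eq_empty_iff]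
        intro y hy hvy
        exact hv (hx.vlt (hsub hy) hvy)
      omega
  refine ⟨hMG, fun v hv => (hdeg v hv).2, ?_⟩
  rintro q hq ⟨c, hc, hqc⟩
  rw [← Bool.not_eq_true, sqIn_iff]
  intro hs
  have hp : exP c ∈ eps x C := List.mem_append_left _ (List.mem_map_of_mem hc)
  have h5 := g4 _ hp
  have h6 : sqs q ⊆ fs M ∩ fs (clE c) := Finset.subset_inter hs hqc
  obtain ⟨a, b, c', d⟩ := q
  obtain ⟨hab, hac, had, hbc, hbd, hcd⟩ := hq
  refine h5 a b c' d ⟨hac, hbd, h6 ?_, h6 ?_, h6 ?_, h6 ?_⟩ <;> simp [sqs, TFC.sq]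

end Pool.Agent.PF4
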