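import Pool.Agent.TFC.Clus

/-!
The steps of the proof of `clusters` with explicit clusters.
-/

set_option autoImplicit false
set_option linter.unusedSectionVars false
set_option linter.unusedSimpArgs false

namespace Pool.Agent.TFC

open Finset
open scoped Pointwise

variable {V : Type*} [DecidableEq V]

/-- the conclusion of one step, with a given cluster -/
def StepY (D : Finset (Finset (Sym2 V))) (Q : Finset (Sym2 V)) (c : Clu V) : Prop :=
  ∃ (D' : Finset (Finset (Sym2 V))), D' ⊆ D ∧ Q ∈ D' ∧ c.Valid ∧ (∀ S ∈ D', S ⊆ c.edges) ∧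
    c.edges ⊆ D'.biUnion id ∧ ∀ T ∈ D, T ∉ D' → ∀ e ∈ T, e ∉ c.edges

/-- case 1 -/
lemma case1Y {D : Finset (Finset (Sym2 V))} (hD : ∀ Q ∈ D, IsSq Q)
    (hc : ∀ Q ∈ D, ∀ R ∈ D, Q ≠ R → #(Q ∩ R) ≠ 1) {Q R : Finset (Sym2 V)} (hQ : Q ∈ D) (hR : R ∈ D)
    (hne : Q ≠ R) {X : Finset V} (oQ : Clus_On Q X) (oR : Clus_On R X) :
    StepY D Q (Clu.k4 X) := by
  classical
  have sub : ∀ Z, Clus_On Z X → Z ⊆ (Clu.k4 X).edges := by
    intro Z hZ e he
    induction e using Sym2.ind with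
    | _ u v => exact Clus_k4.2 (Clus_mem hZ he)
  have cov : ∀ u v, s(u, v) ∈ (Clu.k4 X).edges → s(u, v) ∈ Q ∨ s(u, v) ∈ R := by
    intro u v huv
    by_contra hcon
    push Not at hcon
    obtain ⟨hu, hv, huv'⟩ := Clus_k4.1 huv
    have key : ∀ Z, Clus_On Z X → s(u, v) ∉ Z → ∃ b d, Clus_F Z X b u d v := by
      intro Z hZ hn
      obtain ⟨b, c, d, h⟩ := Clus_start hZ hu
      obtain ⟨⟨h1, h2, h3, h4, h5, h6⟩, eQ, eX⟩ := id h
      have hv' := hv
      rw [eX] at hv'
      simp only [mem_insert, mem_singleton] at hv'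
      rcases hv' with e | e | e | e
      · exact absurd e huv'.symm
      · exfalso
        apply hn
        rw [eQ, e]
        simp [sq]
      · subst e
        exact ⟨_, _, Clus_rot (Clus_ref (Clus_rot (Clus_ref (Clus_rot (Clus_rot (Clus_rot h))))))⟩
      · exfalso
        apply hn
        rw [eQ, e, Sym2.eq_swap]
        simp [sq]
    obtain ⟨b, d, ⟨a1, a2, a3, a4, a5, a6⟩, eQ, eX⟩ := key Q oQ hcon.1
    obtain ⟨b', d', ⟨b1, b2, b3, b4, b5, b6⟩, eR, eX'⟩ := key R oR hcon.2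
    have hbm : b ∈ X := by rw [eX]; simp
    have hdm : d ∈ X := by rw [eX]; simp
    rw [eX'] at hbm hdm
    simp only [mem_insert, mem_singleton] at hbm hdm
    apply hne
    have hb : b = b' ∨ b = d' := by
      rcases hbm with e | e | e | e
      · exact Or.inl e
      · exact absurd e a1
      · exact Or.inr e
      · exact absurd e a3
    have hd : d = b' ∨ d = d' := by
      rcases hdm with e | e | e | e
      · exact Or.inl e
      · exact absurd e a4.symm
      · exact Or.inr e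
      · exact absurd e a6
    rcases hb with rfl | rfl
    · rcases hd with rfl | rfl
      · exact absurd rfl a2
      · rw [eQ, eR]
    · rcases hd with rfl | rfl
      · rw [eQ, eR]
        have e1 : s(d, u) = s(u, d) := Sym2.eq_swap
        have e2 : s(u, b) = s(b, u) := Sym2.eq_swap
        have e3 : s(b, v) = s(v, b) := Sym2.eq_swap
        have e4 : s(v, d) = s(d, v) := Sym2.eq_swap
        ext e
        simp only [sq, mem_insert, mem_singleton, e1, e2, e3, e4]
        tauto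
      · exact absurd rfl a2
  refine ⟨D.filter (fun S => S ⊆ (Clu.k4 X).edges), filter_subset _ _, ?_, Clus_card oQ, ?_, ?_, ?_⟩
  · rw [mem_filter]
    exact ⟨hQ, sub Q oQ⟩
  · intro S hS
    exact (mem_filter.1 hS).2
  · intro e he
    rw [mem_biUnion]
    induction e using Sym2.ind with
    | _ u v =>
      rcases cov u v he with h | h
      · exact ⟨Q, mem_filter.2 ⟨hQ, sub Q oQ⟩, h⟩
      · exact ⟨R, mem_filter.2 ⟨hR, sub R oR⟩, h⟩
  · intro T hT hTn e heT heK
    have hTn' : ¬ T ⊆ (Clu.k4 X).edges := fun h => hTn (mem_filter.2 ⟨hT, h⟩)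
    obtain ⟨Y, oT⟩ := Clus_isSq (hD T hT)
    -- the main argument
    have main : ∀ p q r s, Clus_F T Y p q r s → p ∈ X → q ∈ X → s ∉ X → False := by
      intro p q r s h hp hq hs
      obtain ⟨⟨h1, h2, h3, h4, h5, h6⟩, eT, -⟩ := h
      have hiff : ∀ Z ∈ D, Clus_On Z X → (s(p, q) ∈ Z ↔ s(q, r) ∈ Z) := by
        intro Z hZ oZ
        have hTZ : T ≠ Z := by
          rintro rfl
          exact hTn' (sub _ oZ)
        have hcard := hc T hT Z hZ hTZ
        have n1 : s(r, s) ∉ Z := fun h => hs (Clus_mem oZ h).2.1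
        have n2 : s(s, p) ∉ Z := fun h => hs (Clus_mem oZ h).1
        constructor
        · intro h
          obtain ⟨e', he1, he2, he3⟩ := Clus_second hcard (e := s(p, q)) (by rw [eT]; simp [sq]) h
          rw [eT] at he1
          simp only [sq, mem_insert, mem_singleton] at he1
          rcases he1 with rfl | rfl | rfl | rfl
          · exact absurd rfl he3
          · exact he2
          · exact absurd he2 n1
          · exact absurd he2 n2
        · intro h
          obtain ⟨e', he1, he2, he3⟩ := Clus_second hcard (e := s(q, r)) (by rw [eT]; simp [sq]) h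
          rw [eT] at he1
          simp only [sq, mem_insert, mem_singleton] at he1
          rcases he1 with rfl | rfl | rfl | rfl
          · exact he2
          · exact absurd rfl he3
          · exact absurd he2 n1
          · exact absurd he2 n2
      have final : ∀ Z Z', Z ∈ D → Z' ∈ D → Clus_On Z X → Clus_On Z' X → Z ≠ Z' → s(p, q) ∈ Z → False := by
        intro Z Z' hZ hZ' oZ oZ' hZZ hpq
        have hqr := (hiff Z hZ oZ).1 hpq
        by_cases hpq' : s(p, q) ∈ Z'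
        · exact hZZ (Clus_eq oZ oZ' h2 hpq hqr hpq' ((hiff Z' hZ' oZ').1 hpq'))
        · have hqr' : s(q, r) ∉ Z' := fun h => hpq' ((hiff Z' hZ' oZ').2 h)
          have hr : r ∈ X := (Clus_mem oZ hqr).2.1
          obtain ⟨b, c, d, ⟨c1, c2, c3, c4, c5, c6⟩, eZ, eX⟩ := Clus_start oZ' hq
          have only : ∀ m, m ∈ X → m ≠ q → s(q, m) ∉ Z' → m = c := by
            intro m hm hmq hn
            rw [eX] at hm
            simp only [mem_insert, mem_singleton] at hm
            rcases hm with e | e | e | e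
            · exact absurd e hmq
            · exfalso
              apply hn
              rw [eZ, e]
              simp [sq]
            · exact e
            · exfalso
              apply hn
              rw [eZ, e, Sym2.eq_swap]
              simp [sq]
          have e1 := only p hp h1 (by rw [Sym2.eq_swap]; exact hpq')
          have e2 := only r hr h4.symm hqr'
          exact h2 (e1.trans e2.symm)
      rcases cov p q (Clus_k4.2 ⟨hp, hq, h1⟩) with h | h
      · exact final Q R hQ hR oQ oR hne h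
      · exact final R Q hR hQ oR oQ hne.symm h
    induction e using Sym2.ind with
    | _ p q =>
      obtain ⟨hp, hq, hpq⟩ := Clus_k4.1 heK
      obtain ⟨r, s, h⟩ := Clus_adj oT heT
      by_cases hs : s ∈ X
      · by_cases hr : r ∈ X
        · apply hTn'
          obtain ⟨⟨h1, h2, h3, h4, h5, h6⟩, eT, -⟩ := h
          rw [eT]
          intro e he
          simp only [sq, mem_insert, mem_singleton] at he
          rcases he with rfl | rfl | rfl | rfl
          · exact Clus_k4.2 ⟨hp, hq, h1⟩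
          · exact Clus_k4.2 ⟨hq, hr, h4⟩
          · exact Clus_k4.2 ⟨hr, hs, h6⟩
          · exact Clus_k4.2 ⟨hs, hp, h3.symm⟩
        · exact main q p s r (Clus_rot (Clus_rot (Clus_ref h))) hq hp hr
      · exact main p q r s h hp hq hs

/-- case 2 -/
lemma case2Y {D : Finset (Finset (Sym2 V))} (hD : ∀ Q ∈ D, IsSq Q)
    (hc : ∀ Q ∈ D, ∀ R ∈ D, Q ≠ R → #(Q ∩ R) ≠ 1) {x y a b c : V} (hQ : sq x a y b ∈ D)
    (hR : sq x a y c ∈ D) (dQ : Dist4 x a y b) (dR : Dist4 x a y c) (hbc : b ≠ c)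
    (Pr : Finset (Sym2 V) → Prop) (hPr : ∀ S, Pr S ↔ ∃ l l' l'', Dist4 x l y l' ∧
      Dist4 x l y l'' ∧ l' ≠ l'' ∧ S = sq x l y l' ∧ sq x l y l'' ∈ D) (L : Finset V)
    (hL : ∀ l, l ∈ L ↔ (∃ S ∈ D, Pr S ∧ ∃ e ∈ S, l ∈ e) ∧ l ≠ x ∧ l ≠ y) :
    StepY D (sq x a y b) (Clu.k2 x y L) := by
  classical
  set D' := D.filter Pr with hD'
  have hmD' : ∀ S, S ∈ D' ↔ S ∈ D ∧ Pr S := fun S => mem_filter
  have hmL : ∀ l, l ∈ L ↔ (∃ S ∈ D', ∃ e ∈ S, l ∈ e) ∧ l ≠ x ∧ l ≠ y := by
    intro l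
    rw [hL]
    simp only [hmD', and_assoc]
  -- leaves of members of D'
  have leafL : ∀ l l', Dist4 x l y l' → sq x l y l' ∈ D' → l ∈ L ∧ l' ∈ L := by
    rintro l l' ⟨h1, h2, h3, h4, h5, h6⟩ hS
    refine ⟨(hmL l).2 ⟨⟨_, hS, s(x, l), by simp [sq], by simp⟩, h1.symm, h4⟩,
      (hmL l').2 ⟨⟨_, hS, s(y, l'), by simp [sq], by simp⟩, h3.symm, h6.symm⟩⟩
  have ofL : ∀ l ∈ L, ∃ l', Dist4 x l y l' ∧ sq x l y l' ∈ D' ∧
      ∃ m m' m'', ((m = l ∧ m' = l') ∨ (m = l' ∧ m' = l)) ∧ Dist4 x m y m'' ∧ m'' ≠ m' ∧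
      sq x m y m'' ∈ D := by
    intro l hl
    obtain ⟨⟨S, hS, e, he, hle⟩, hlx, hly⟩ := (hmL l).1 hl
    have hS' := hS
    obtain ⟨hSD, m, m', m'', d1, d2, hmm, rfl, hSm⟩ := (hmD' S).1 hS |>.imp_right (hPr S).1
    have hl' : l = m ∨ l = m' := by
      simp only [sq, mem_insert, mem_singleton] at he
      rcases he with rfl | rfl | rfl | rfl <;> rw [Sym2.mem_iff] at hle <;> tauto
    rcases hl' with rfl | rfl
    · exact ⟨m', d1, hS', l, m', m'', Or.inl ⟨rfl, rfl⟩, d2, hmm.symm, hSm⟩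
    · obtain ⟨d3, e3⟩ := Clus_sq_leaf d1
      exact ⟨m, d3, by rw [← e3]; exact hS', m, l, m'', Or.inr ⟨rfl, rfl⟩, d2, hmm.symm, hSm⟩
  have hQ' : sq x a y b ∈ D' := (hmD' _).2 ⟨hQ, (hPr _).2 ⟨a, b, c, dQ, dR, hbc, rfl, hR⟩⟩
  have hedge : ∀ l ∈ L, s(x, l) ∈ (Clu.k2 x y L).edges ∧ s(y, l) ∈ (Clu.k2 x y L).edges := by
    intro l hl
    constructor
    · exact mem_union_left _ (mem_image_of_mem _ hl)
    · exact mem_union_right _ (mem_image_of_mem _ hl)
  refine ⟨D', filter_subset _ _, hQ', ⟨dQ.2.1, ?_, ?_, ?_⟩, ?_, ?_, ?_⟩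
  · intro h
    exact ((hmL x).1 h).2.1 rfl
  · intro h
    exact ((hmL y).1 h).2.2 rfl
  · obtain ⟨h1, h2⟩ := leafL a b dQ hQ'
    exact one_lt_card.2 ⟨a, h1, b, h2, dQ.2.2.2.2.1⟩
  · intro S hS
    have hS' := hS
    obtain ⟨hSD, m, m', m'', d1, d2, hmm, rfl, hSm⟩ := (hmD' S).1 hS |>.imp_right (hPr S).1
    obtain ⟨h1, h2⟩ := leafL m m' d1 hS'
    intro e he
    simp only [sq, mem_insert, mem_singleton] at he
    rcases he with rfl | rfl | rfl | rfl
    · exact (hedge m h1).1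
    · rw [Sym2.eq_swap]; exact (hedge m h1).2
    · exact (hedge m' h2).2
    · rw [Sym2.eq_swap]; exact (hedge m' h2).1
  · intro e he
    rw [mem_biUnion]
    have he' : (∃ l ∈ L, s(x, l) = e) ∨ (∃ l ∈ L, s(y, l) = e) := by
      simpa [Clu.edges] using he
    rcases he' with ⟨l, hl, rfl⟩ | ⟨l, hl, rfl⟩
    · obtain ⟨l', d, hS, -⟩ := ofL l hl
      exact ⟨_, hS, by simp [sq]⟩
    · obtain ⟨l', d, hS, -⟩ := ofL l hl
      exact ⟨_, hS, by rw [Sym2.eq_swap]; simp [sq]⟩
  · intro T hT hTn e heT heK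
    have he' : (∃ l ∈ L, s(x, l) = e) ∨ (∃ l ∈ L, s(y, l) = e) := by
      simpa [Clu.edges] using heK
    rcases he' with ⟨l, hl, rfl⟩ | ⟨l, hl, rfl⟩
    · obtain ⟨l', d, hS, hP⟩ := ofL l hl
      refine Clus_core hD hc hT d ((hmD' _).1 hS).1 (fun h => hTn (by rw [h]; exact hS)) ?_ heT hP
      intro m dm hm h
      apply hTn
      rw [hmD']
      exact ⟨hT, (hPr T).2 ⟨l, m, l', dm, d, hm, h, ((hmD' _).1 hS).1⟩⟩
    · obtain ⟨l', d, hS, m, m', m'', hm, d2, hmm, hSm⟩ := ofL l hl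
      obtain ⟨d', e'⟩ := Clus_sq_cen d
      obtain ⟨d2', e2'⟩ := Clus_sq_cen d2
      have hSD := ((hmD' _).1 hS).1
      refine Clus_core hD hc hT d' (by rw [← e']; exact hSD) (fun h => hTn (by rw [h, ← e']; exact hS)) ?_ heT
        ⟨m, m', m'', hm, d2', hmm, by rw [← e2']; exact hSm⟩
      intro k dk hk h
      obtain ⟨dk', ek'⟩ := Clus_sq_cen dk
      apply hTn
      rw [hmD']
      exact ⟨hT, (hPr T).2 ⟨l, k, l', dk', d, hk, by rw [h, ek'], hSD⟩⟩

/-- case 3 -/
lemma case3Y {D : Finset (Finset (Sym2 V))} {a b c d : V} (hd : Dist4 a b c d) (hQ : sq a b c d ∈ D)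
    (h : ∀ R ∈ D, R ≠ sq a b c d → ∀ e ∈ R, e ∉ sq a b c d) :
    StepY D (sq a b c d) (Clu.k2 a c {b, d}) := by
  obtain ⟨h1, h2, h3, h4, h5, h6⟩ := hd
  have hed : (Clu.k2 a c {b, d}).edges = sq a b c d := by
    ext e
    have e1 : s(b, c) = s(c, b) := Sym2.eq_swap
    have e2 : s(d, a) = s(a, d) := Sym2.eq_swap
    simp only [Clu.edges, sq, mem_union, mem_image, mem_insert, mem_singleton, e1, e2]
    constructor
    · rintro (⟨l, rfl | rfl, rfl⟩ | ⟨l, rfl | rfl, rfl⟩) <;> simp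
    · rintro (rfl | rfl | rfl | rfl)
      · exact Or.inl ⟨b, Or.inl rfl, rfl⟩
      · exact Or.inr ⟨b, Or.inl rfl, rfl⟩
      · exact Or.inr ⟨d, Or.inr rfl, rfl⟩
      · exact Or.inl ⟨d, Or.inr rfl, rfl⟩
  refine ⟨{sq a b c d}, by simpa using hQ, mem_singleton_self _,
    ⟨h2, by simp [h1, h3], by simp [h4.symm, h6], ?_⟩, ?_, ?_, ?_⟩
  · rw [card_pair h5]
  · intro S hS
    rw [mem_singleton] at hS
    rw [hS, hed]
  · rw [hed]
    intro e he
    rw [mem_biUnion]
    exact ⟨_, mem_singleton_self _, he⟩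
  · intro T hT hTn e he
    rw [hed]
    exact h T hT (fun hh => hTn (by rw [hh]; exact mem_singleton_self _)) e he


end Pool.Agent.TFC
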