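import Pool.Agent.PF4.PTB
import Pool.Agent.TFC.R2
import Pool.Agent.TFC.R4

/-!
# Pieces and clusters as data

A piece is `(z, E, X)`: its vectors are the members of `X` and (if `z`) the degree vectors of the square-free 2-matchings
inside `E`. `pmem` is a polynomial time membership test (for pieces where these have at most four edges). Clusters:
`(true, x, y, L)` is `K2(x,y;L)`, `(false, _, _, L)` is the complete graph on the four vertices of `L`.
-/

set_option autoImplicit false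

namespace Pool.Agent.PF4

open Finset Pool.Agent.TFC Pool.Agent.Lib.helper60

/-- piece -/
abbrev Pc : Type := Bool × List Ed × List (List ℕ)

/-- the list `k` (vertices with multiplicity) as a vector -/
def kvec (k : List ℕ) : ℕ → ℤ := fun v => (k.count v : ℤ)

/-- the vectors of the piece -/
def pcS (p : Pc) : Set (ℕ → ℤ) :=
  {x | (∃ k ∈ p.2.2, x = kvec k) ∨ (p.1 = true ∧ x ∈ JS (fs p.2.1) none4)}

/-- the same multiset -/
def eqK (k l : List ℕ) : Bool := (k ++ l).all fun v => decide (k.count v = l.count v)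

/-- the ends of the edges, with multiplicity -/
def ends2 (S : List Ed) : List ℕ := S.flatMap fun e => [e.1, e.2]

/-- no edge twice -/
def wfB (S : List Ed) : Bool := S.all fun e => decide ((S.filter fun f => eqE e f).length ≤ 1)

/-- no loop -/
def nlB (S : List Ed) : Bool := S.all fun e => !decide (e.1 = e.2)

/-- all degrees at most 2 -/
def dgB (S : List Ed) : Bool := (ends2 S).all fun v => decide (degL S v ≤ 2)

/-- all pairs -/
def prd {α β : Type} (l : List α) (m : List β) : List (α × β) := l.flatMap fun a => m.map fun b => (a, b)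

/-- no square -/
def sfB (S : List Ed) : Bool :=
  (prd (ends2 S) (prd (ends2 S) (prd (ends2 S) (ends2 S)))).all fun q =>
    decide (q.1 = q.2.2.1) || (decide (q.2.1 = q.2.2.2) || !sqIn S q)

/-- square-free 2-matching -/
def okS (S : List Ed) : Bool := wfB S && (nlB S && (dgB S && sfB S))

/-- all lists of at most `k` members of `E` -/
def subs (E : List Ed) : ℕ → List (List Ed)
  | 0 => [[]]
  | k + 1 => subs E k ++ (subs E k).flatMap fun S => E.map fun e => e :: S

/-- membership test -/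
def pmem (p : Pc) (k : List ℕ) : Bool :=
  (p.2.2.any fun l => eqK k l) || (p.1 && ((subs p.2.1 4).any fun S => okS S && eqK k (ends2 S)))

/-- the square-free 2-matchings in the piece have at most four edges -/
def Card4 (p : Pc) : Prop := p.1 = true → ∀ z ⊆ fs p.2.1, M2 z → Good none4 z → #z ≤ 4

theorem eqK_iff (k l : List ℕ) : eqK k l = true ↔ kvec k = kvec l := by
  simp only [eqK, List.all_eq_true, decide_eq_true_eq, List.mem_append]
  constructor
  · intro h
    funext v
    unfold kvec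
    by_cases hv : v ∈ k ∨ v ∈ l
    · rw [h v hv]
    · push Not at hv
      rw [List.count_eq_zero_of_not_mem hv.1, List.count_eq_zero_of_not_mem hv.2]
  · intro h v _
    have := congrFun h v
    unfold kvec at this
    exact_mod_cast this

theorem mem_prd {α β : Type} {l : List α} {m : List β} {p : α × β} : p ∈ prd l m ↔ p.1 ∈ l ∧ p.2 ∈ m := by
  obtain ⟨a, b⟩ := p
  simp only [prd, List.mem_flatMap, List.mem_map, Prod.mk.injEq]
  constructor
  · rintro ⟨x, hx, y, hy, rfl, rfl⟩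
    exact ⟨hx, hy⟩
  · rintro ⟨h1, h2⟩
    exact ⟨a, h1, b, h2, rfl, rfl⟩

theorem wfB_iff (S : List Ed) : wfB S = true ↔ WF S := by
  unfold wfB WF
  rw [List.all_eq_true, List.nodup_iff_count_le_one]
  constructor
  · intro h x
    by_cases hx : x ∈ S.map fe
    · obtain ⟨e, he, rfl⟩ := List.mem_map.1 hx
      have h1 := h e he
      rw [decide_eq_true_eq] at h1
      rw [List.count_eq_length_filter, List.filter_map, List.length_map]
      refine le_trans (le_of_eq ?_) h1
      congr 1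
      refine List.filter_congr ?_
      intro f _
      simp only [Function.comp]
      rw [Bool.eq_iff_iff, beq_iff_eq, eqE_iff]
      exact eq_comm
    · rw [List.count_eq_zero_of_not_mem hx]
      exact Nat.zero_le _
  · intro h e _
    rw [decide_eq_true_eq]
    have h1 := h (fe e)
    rw [List.count_eq_length_filter, List.filter_map, List.length_map] at h1
    refine le_trans (le_of_eq ?_) h1
    congr 1
    refine List.filter_congr ?_
    intro f _
    simp only [Function.comp]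
    rw [Bool.eq_iff_iff, beq_iff_eq, eqE_iff]
    exact eq_comm

theorem nlB_iff (S : List Ed) : nlB S = true ↔ NoLoop (fs S) := by
  unfold nlB NoLoop
  rw [List.all_eq_true]
  constructor
  · intro h x hx
    obtain ⟨e, he, rfl⟩ := mem_fs.1 hx
    have := h e he
    simp only [Bool.not_eq_true', decide_eq_false_iff_not] at this
    simpa [fe] using this
  · intro h e he
    have := h _ (fe_mem_fs he)
    simp only [Bool.not_eq_true', decide_eq_false_iff_not]
    simpa [fe] using this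

theorem mem_ends2 {S : List Ed} {v : ℕ} : v ∈ ends2 S ↔ ∃ x ∈ fs S, v ∈ x := by
  simp only [ends2, List.mem_flatMap, List.mem_cons, List.not_mem_nil, or_false]
  constructor
  · rintro ⟨e, he, h | h⟩
    · exact ⟨fe e, fe_mem_fs he, by rw [h]; exact Sym2.mem_mk_left _ _⟩
    · exact ⟨fe e, fe_mem_fs he, by rw [h]; exact Sym2.mem_mk_right _ _⟩
  · rintro ⟨x, hx, hv⟩
    obtain ⟨e, he, rfl⟩ := mem_fs.1 hx
    exact ⟨e, he, by simpa [fe] using hv⟩

theorem count_ends2 {S : List Ed} (hn : NoLoop (fs S)) (v : ℕ) : (ends2 S).count v = degL S v := by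
  unfold ends2 degL
  have h0 : ∀ e ∈ S, e.1 ≠ e.2 := by
    intro e he h
    refine hn _ (fe_mem_fs he) ?_
    rw [fe, h]
    exact Sym2.mk_isDiag_iff.2 rfl
  clear hn
  induction S with
  | nil => rfl
  | cons e S ih =>
    have h1 := ih fun f hf => h0 f (List.mem_cons_of_mem _ hf)
    have h2 := h0 e List.mem_cons_self
    rw [List.flatMap_cons, List.count_append, h1, List.filter_cons]
    by_cases ha : e.1 = v
    · have hb : e.2 ≠ v := fun h => h2 (ha.trans h.symm)
      simp [inc, ha, hb]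
      omega
    · by_cases hb : e.2 = v
      · simp [inc, ha, hb]
        omega
      · simp [inc, ha, hb]

theorem kvec_ends2 {S : List Ed} (hw : WF S) (hn : NoLoop (fs S)) : kvec (ends2 S) = dv (fs S) := by
  funext v
  rw [kvec, count_ends2 hn, degL_eq hw, dv]

theorem dgB_iff {S : List Ed} (hw : WF S) : dgB S = true ↔ ∀ v, dg (fs S) v ≤ 2 := by
  unfold dgB
  simp only [List.all_eq_true, decide_eq_true_eq]
  constructor
  · intro h v
    by_cases hv : v ∈ ends2 S
    · rw [← degL_eq hw]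
      exact h v hv
    · have : dg (fs S) v = 0 := by
        rw [dg, Finset.card_eq_zero, Finset.filter_eq_empty_iff]
        intro x hx h'
        exact hv (mem_ends2.2 ⟨x, hx, h'⟩)
      omega
  · intro h v _
    rw [degL_eq hw]
    exact h v

theorem sfB_iff {S : List Ed} : sfB S = true ↔ Good none4 (fs S) := by
  unfold sfB Good none4
  rw [List.all_eq_true]
  constructor
  · intro h a b c d hs
    have hm : (a, b, c, d) ∈ prd (ends2 S) (prd (ends2 S) (prd (ends2 S) (ends2 S))) := by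
      refine mem_prd.2 ⟨mem_ends2.2 ⟨_, hs.ab, Sym2.mem_mk_left _ _⟩, mem_prd.2
        ⟨mem_ends2.2 ⟨_, hs.ab, Sym2.mem_mk_right _ _⟩, mem_prd.2
        ⟨mem_ends2.2 ⟨_, hs.bc, Sym2.mem_mk_right _ _⟩, mem_ends2.2 ⟨_, hs.cd, Sym2.mem_mk_right _ _⟩⟩⟩⟩
    have h1 := h _ hm
    simp only [Bool.or_eq_true, decide_eq_true_eq, Bool.not_eq_true', hs.ac, hs.bd, false_or] at h1
    have h2 : sqIn S (a, b, c, d) = true := by
      simp only [sqIn, Bool.and_eq_true, hasE_iff, fe]
      exact ⟨hs.ab, hs.bc, hs.cd, hs.da⟩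
    rw [h1] at h2
    cases h2
  · rintro h ⟨a, b, c, d⟩ _
    simp only [Bool.or_eq_true, decide_eq_true_eq, Bool.not_eq_true']
    by_cases h1 : a = c
    · exact Or.inl h1
    · by_cases h2 : b = d
      · exact Or.inr (Or.inl h2)
      · refine Or.inr (Or.inr ?_)
        rw [← Bool.not_eq_true]
        intro h3
        simp only [sqIn, Bool.and_eq_true, hasE_iff, fe] at h3
        exact h a b c d ⟨h1, h2, h3.1, h3.2.1, h3.2.2.1, h3.2.2.2⟩

theorem okS_iff (S : List Ed) : okS S = true ↔ WF S ∧ M2 (fs S) ∧ Good none4 (fs S) := by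
  unfold okS
  rw [Bool.and_eq_true, Bool.and_eq_true, Bool.and_eq_true, wfB_iff, nlB_iff, sfB_iff]
  constructor
  · rintro ⟨h1, h2, h3, h4⟩
    exact ⟨h1, ⟨h2, (dgB_iff h1).1 h3⟩, h4⟩
  · rintro ⟨h1, h2, h4⟩
    exact ⟨h1, h2.nl, (dgB_iff h1).2 h2.le, h4⟩

theorem mem_subs {E : List Ed} {k : ℕ} {S : List Ed} : S ∈ subs E k ↔ S.length ≤ k ∧ ∀ e ∈ S, e ∈ E := by
  induction k generalizing S with
  | zero =>
    simp only [subs, List.mem_singleton]
    constructor
    · rintro rfl; simp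
    · rintro ⟨h, _⟩; exact List.length_eq_zero_iff.1 (Nat.le_zero.1 h)
  | succ k ih =>
    simp only [subs, List.mem_append, ih, List.mem_flatMap, List.mem_map]
    constructor
    · rintro (⟨h1, h2⟩ | ⟨T, ⟨h1, h2⟩, e, he, rfl⟩)
      · exact ⟨by omega, h2⟩
      · refine ⟨by simpa using h1, ?_⟩
        intro f hf
        rcases List.mem_cons.1 hf with rfl | hf
        · exact he
        · exact h2 f hf
    · rintro ⟨h1, h2⟩
      cases S with
      | nil => exact Or.inl ⟨Nat.zero_le _, h2⟩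
      | cons e S =>
        right
        exact ⟨S, ⟨by simpa using h1, fun f hf => h2 f (List.mem_cons_of_mem _ hf)⟩, e, h2 e List.mem_cons_self, rfl⟩

/-- representatives of a subset -/
theorem exists_rep {E : List Ed} (z : Finset (Sym2 ℕ)) (hz : z ⊆ fs E) :
    ∃ S : List Ed, (∀ e ∈ S, e ∈ E) ∧ WF S ∧ fs S = z ∧ S.length = #z := by
  induction z using Finset.induction_on with
  | empty => exact ⟨[], by simp, WF.nil, rfl, rfl⟩
  | insert x z hx ih =>
    obtain ⟨S, h1, h2, h3, h4⟩ := ih fun y hy => hz (Finset.mem_insert_of_mem hy)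
    obtain ⟨e, he, rfl⟩ := mem_fs.1 (hz (Finset.mem_insert_self _ _))
    refine ⟨e :: S, ?_, ?_, ?_, ?_⟩
    · intro f hf
      rcases List.mem_cons.1 hf with rfl | hf
      · exact he
      · exact h1 f hf
    · show ((e :: S).map fe).Nodup
      rw [List.map_cons, List.nodup_cons]
      refine ⟨fun h => hx ?_, h2⟩
      rw [← h3, fs, List.mem_toFinset]
      exact h
    · rw [fs_cons, h3]
    · rw [List.length_cons, h4, Finset.card_insert_of_notMem hx]

theorem pmem_sound {p : Pc} {k : List ℕ} (h : pmem p k = true) : kvec k ∈ pcS p := by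
  unfold pmem at h
  rw [Bool.or_eq_true, Bool.and_eq_true, List.any_eq_true, List.any_eq_true] at h
  rcases h with ⟨l, hl, h1⟩ | ⟨h0, S, hS, h1⟩
  · exact Or.inl ⟨l, hl, (eqK_iff _ _).1 h1⟩
  · rw [Bool.and_eq_true, okS_iff] at h1
    refine Or.inr ⟨h0, fs S, ?_, h1.1.2.1, h1.1.2.2, ?_⟩
    · intro x hx
      obtain ⟨e, he, rfl⟩ := mem_fs.1 hx
      exact fe_mem_fs ((mem_subs.1 hS).2 e he)
    · rw [(eqK_iff _ _).1 h1.2, kvec_ends2 h1.1.1 h1.1.2.1.nl]

theorem pmem_complete {p : Pc} (hc : Card4 p) {k : List ℕ} (h : kvec k ∈ pcS p) : pmem p k = true := by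
  unfold pmem
  rw [Bool.or_eq_true, Bool.and_eq_true, List.any_eq_true, List.any_eq_true]
  rcases h with ⟨l, hl, h1⟩ | ⟨h0, z, hz, h1, h2, h3⟩
  · exact Or.inl ⟨l, hl, (eqK_iff _ _).2 h1⟩
  · obtain ⟨S, k1, k2, k3, k4⟩ := exists_rep z hz
    refine Or.inr ⟨h0, S, mem_subs.2 ⟨by rw [k4]; exact hc h0 z hz h1 h2, k1⟩, ?_⟩
    rw [Bool.and_eq_true, okS_iff, eqK_iff, h3, ← k3]
    rw [← k3] at h1 h2
    exact ⟨⟨k2, h1, h2⟩, (kvec_ends2 k2 h1.nl).symm⟩

theorem pmem_iff {p : Pc} (hc : Card4 p) (k : List ℕ) : pmem p k = true ↔ kvec k ∈ pcS p :=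
  ⟨pmem_sound, pmem_complete hc⟩

/-! ### clusters -/

/-- cluster: `(true, x, y, L)` is `K2(x,y;L)`, `(false, _, _, L)` is the complete graph on `L` -/
abbrev Cl : Type := Bool × ℕ × ℕ × List ℕ

/-- the pairs `i < j` in the list -/
def prs (L : List ℕ) : List Ed := (prd L L).filter fun e => decide (e.1 < e.2)

/-- the edges of the cluster -/
def clE (c : Cl) : List Ed :=
  bif c.1 then (c.2.2.2.map fun l => (c.2.1, l)) ++ (c.2.2.2.map fun l => (c.2.2.1, l)) else prs c.2.2.2

/-- non-degenerate cluster -/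
structure ClOK (c : Cl) : Prop where
  nd : c.2.2.2.Nodup
  k2 : c.1 = true → c.2.1 ≠ c.2.2.1 ∧ c.2.1 ∉ c.2.2.2 ∧ c.2.2.1 ∉ c.2.2.2 ∧ 2 ≤ c.2.2.2.length
  k4 : c.1 = false → c.2.2.2.length = 4

/-- the cluster as in TFC -/
def cluF (c : Cl) : Clu ℕ := bif c.1 then .k2 c.2.1 c.2.2.1 c.2.2.2.toFinset else .k4 c.2.2.2.toFinset

theorem cluF_valid {c : Cl} (h : ClOK c) : (cluF c).Valid := by
  obtain ⟨b, x, y, L⟩ := c
  cases b with
  | true =>
    obtain ⟨h1, h2, h3, h4⟩ := h.k2 rfl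
    have := h.nd
    simp only at h1 h2 h3 h4 this
    refine ⟨h1, by simpa using h2, by simpa using h3, ?_⟩
    rw [List.toFinset_card_of_nodup this]
    exact h4
  | false =>
    have h4 := h.k4 rfl
    have := h.nd
    simp only at h4 this
    show #(L.toFinset) = 4
    rw [List.toFinset_card_of_nodup this, h4]

theorem fs_clE (c : Cl) : fs (clE c) = (cluF c).edges := by
  obtain ⟨b, x, y, L⟩ := c
  cases b with
  | true =>
    ext e
    simp only [clE, cluF, cond_true, Clu.edges, mem_fs, List.mem_append, List.mem_map, Finset.mem_union,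
      Finset.mem_image, List.mem_toFinset]
    constructor
    · rintro ⟨f, ⟨l, hl, rfl⟩ | ⟨l, hl, rfl⟩, rfl⟩
      · exact Or.inl ⟨l, hl, rfl⟩
      · exact Or.inr ⟨l, hl, rfl⟩
    · rintro (⟨l, hl, rfl⟩ | ⟨l, hl, rfl⟩)
      · exact ⟨_, Or.inl ⟨l, hl, rfl⟩, rfl⟩
      · exact ⟨_, Or.inr ⟨l, hl, rfl⟩, rfl⟩
  | false =>
    ext e
    induction e using Sym2.ind with
    | _ u v =>
      simp only [clE, cluF, cond_false, Clu.edges, mem_fs, prs, List.mem_filter, mem_prd, decide_eq_true_eq,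
        Finset.mem_filter, Finset.mk_mem_sym2_iff, List.mem_toFinset, Sym2.mk_isDiag_iff, fe, Sym2.eq_iff]
      constructor
      · rintro ⟨⟨a, b⟩, ⟨⟨h1, h2⟩, h3⟩, ⟨h4, h5⟩ | ⟨h4, h5⟩⟩
        · simp only at h1 h2 h3 h4 h5
          subst h4 h5
          exact ⟨⟨h1, h2⟩, by omega⟩
        · simp only at h1 h2 h3 h4 h5
          subst h4 h5
          exact ⟨⟨h2, h1⟩, by omega⟩
      · rintro ⟨⟨h1, h2⟩, h3⟩
        rcases lt_or_gt_of_ne h3 with h | h
        · exact ⟨(u, v), ⟨⟨h1, h2⟩, h⟩, Or.inl ⟨rfl, rfl⟩⟩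
        · exact ⟨(v, u), ⟨⟨h2, h1⟩, h⟩, Or.inr ⟨rfl, rfl⟩⟩

theorem wf_clE {c : Cl} (h : ClOK c) : WF (clE c) := by
  obtain ⟨b, x, y, L⟩ := c
  have hn := h.nd
  cases b with
  | true =>
    obtain ⟨h1, h2, h3, h4⟩ := h.k2 rfl
    simp only at h1 h2 h3 h4 hn
    simp only [clE, cond_true, WF, List.map_append, List.map_map]
    rw [List.nodup_append']
    refine ⟨hn.map_on ?_, hn.map_on ?_, ?_⟩
    · intro a ha b hb hab
      simp only [Function.comp, fe, Sym2.eq_iff] at hab
      rcases hab with ⟨_, h⟩ | ⟨h, h'⟩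
      · exact h
      · rw [h', h]
    · intro a ha b hb hab
      simp only [Function.comp, fe, Sym2.eq_iff] at hab
      rcases hab with ⟨_, h⟩ | ⟨h, h'⟩
      · exact h
      · rw [h', h]
    · intro e he he'
      obtain ⟨a, ha, rfl⟩ := List.mem_map.1 he
      obtain ⟨b, hb, hab⟩ := List.mem_map.1 he'
      simp only [Function.comp, fe, Sym2.eq_iff] at hab
      rcases hab with ⟨h, _⟩ | ⟨h, h'⟩
      · exact h1 h.symm
      · exact h3 (by rw [h]; exact ha)
  | false =>
    simp only at hn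
    simp only [clE, cond_false, WF]
    have hp : (prd L L).Nodup := by
      have : prd L L = L.product L := rfl
      rw [this]
      exact hn.product hn
    refine (hp.filter _).map_on ?_
    intro e he f hf hef
    rw [List.mem_filter, decide_eq_true_eq] at he hf
    obtain ⟨a, b⟩ := e
    obtain ⟨a', b'⟩ := f
    simp only [fe, Sym2.eq_iff] at hef
    have h1 := he.2
    have h2 := hf.2
    simp only at h1 h2
    rcases hef with ⟨rfl, rfl⟩ | ⟨rfl, rfl⟩
    · rfl
    · omega

/-- the exact piece of a cluster -/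
def exP (c : Cl) : Pc := (true, clE c, [])

/-- the additional vectors of the relaxed piece; choice `(w, c)` for `K2`, `(0, _)` or `(1, _)` for `K4` -/
def digs (c : Cl) (ch : ℕ × ℕ) : List (List ℕ) :=
  bif c.1 then (c.2.2.2.filter fun l => !decide (l = ch.2)).map fun l => [ch.1, ch.1, l, l]
  else bif decide (ch.1 = 0) then (c.2.2.2.map fun i => [i, i]) ++ ((prs c.2.2.2).map fun e => [e.1, e.1, e.2, e.2])
  else [c.2.2.2.flatMap fun i => [i, i]]

/-- the relaxed piece of a cluster -/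
def rxP (c : Cl) (ch : ℕ × ℕ) : Pc := (true, clE c, digs c ch)

/-- the units of the relaxed piece -/
def rxU (c : Cl) (ch : ℕ × ℕ) : List (List ℕ × List ℕ) :=
  bif c.1 then ((c.2.2.2.filter fun l => !decide (l = ch.2)).map fun l => ([l], [c.2.1, c.2.2.1])) ++
    [([ch.1], c.2.2.2), ([if ch.1 = c.2.1 then c.2.2.1 else c.2.1], [ch.2])]
  else bif decide (ch.1 = 0) then [(c.2.2.2, c.2.2.2), (c.2.2.2, c.2.2.2), (c.2.2.2, c.2.2.2)]
  else (prs c.2.2.2).map fun e => ([e.1], [e.2])

/-- a legal choice -/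
def ChOK (c : Cl) (ch : ℕ × ℕ) : Prop := c.1 = true → (ch.1 = c.2.1 ∨ ch.1 = c.2.2.1) ∧ ch.2 ∈ c.2.2.2

/-! ### polynomial time -/

section pt

variable {ι : Type} [DEnc ι]

theorem pt_count {k : ι → List ℕ} {v : ι → ℕ} (hk : PT k) (hv : PT v) : PT (fun x => (k x).count (v x)) := by
  have h := PT.length (PT.filter hk (p := fun y : ι × ℕ => decide (y.2 = v y.1)) (PT.neq PT.snd (hv.comp PT.fst)))
  refine h.congr fun x => ?_
  rw [List.count_eq_length_filter]
  congr 1

theorem pt_eqK {k l : ι → List ℕ} (hk : PT k) (hl : PT l) : PT (fun x => eqK (k x) (l x)) := by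
  unfold eqK
  exact PT.all (PT.append hk hl) (p := fun y : ι × ℕ => decide ((k y.1).count y.2 = (l y.1).count y.2))
    (PT.neq (pt_count (hk.comp PT.fst) PT.snd) (pt_count (hl.comp PT.fst) PT.snd))

theorem pt_ends2 {S : ι → List Ed} (hS : PT S) : PT (fun x => ends2 (S x)) :=
  PT.flatMap hS (g := fun y : ι × Ed => [y.2.1, y.2.2]) (PT.cons PT.snd.p1 (PT.cons PT.snd.p2 (PT.const [])))

theorem pt_prd {α β : Type} [DEnc α] [DEnc β] {l : ι → List α} {m : ι → List β} (hl : PT l) (hm : PT m) :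
    PT (fun x => prd (l x) (m x)) :=
  PT.flatMap hl (g := fun y : ι × α => (m y.1).map fun b => (y.2, b))
    (PT.map (hm.comp PT.fst) (g := fun z : (ι × α) × β => (z.1.2, z.2)) (PT.pair PT.fst.p2 PT.snd))

theorem pt_okS {S : ι → List Ed} (hS : PT S) : PT (fun x => okS (S x)) := by
  have he := pt_ends2 hS
  unfold okS
  refine PT.band ?_ (PT.band ?_ (PT.band ?_ ?_))
  · exact PT.all hS (p := fun y : ι × Ed => decide (((S y.1).filter fun f => eqE y.2 f).length ≤ 1))
      (PT.nle (PT.length (PT.filter (hS.comp PT.fst) (p := fun z : (ι × Ed) × Ed => eqE z.1.2 z.2)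
        (pt_eqE PT.fst.p2 PT.snd))) (PT.const 1))
  · exact PT.all hS (p := fun y : ι × Ed => !decide (y.2.1 = y.2.2)) (PT.bnot (PT.neq PT.snd.p1 PT.snd.p2))
  · exact PT.all he (p := fun y : ι × ℕ => decide (degL (S y.1) y.2 ≤ 2))
      (PT.nle (pt_degL (hS.comp PT.fst) PT.snd) (PT.const 2))
  · exact PT.all (pt_prd he (pt_prd he (pt_prd he he)))
      (p := fun y : ι × Sq4 => decide (y.2.1 = y.2.2.2.1) || (decide (y.2.2.1 = y.2.2.2.2) || !sqIn (S y.1) y.2))
      (PT.bor (PT.neq PT.snd.p1 PT.snd.p2.p2.p1) (PT.bor (PT.neq PT.snd.p2.p1 PT.snd.p2.p2.p2)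
        (PT.bnot (pt_sqIn (hS.comp PT.fst) PT.snd))))

theorem pt_subs {E : ι → List Ed} (hE : PT E) (k : ℕ) : PT (fun x => subs (E x) k) := by
  induction k with
  | zero => exact PT.const [[]]
  | succ k ih =>
    exact PT.append ih (PT.flatMap ih (g := fun y : ι × List Ed => (E y.1).map fun e => e :: y.2)
      (PT.map (hE.comp PT.fst) (g := fun z : (ι × List Ed) × Ed => z.2 :: z.1.2) (PT.cons PT.snd PT.fst.p2)))

theorem pt_pmem {p : ι → Pc} {k : ι → List ℕ} (hp : PT p) (hk : PT k) : PT (fun x => pmem (p x) (k x)) := by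
  unfold pmem
  refine PT.bor ?_ (PT.band (PT.p1 hp) ?_)
  · exact PT.any (PT.p2 (PT.p2 hp)) (p := fun y : ι × List ℕ => eqK (k y.1) y.2)
      (pt_eqK (hk.comp PT.fst) PT.snd)
  · exact PT.any (pt_subs (PT.p1 (PT.p2 hp)) 4)
      (p := fun y : ι × List Ed => okS y.2 && eqK (k y.1) (ends2 y.2))
      (PT.band (pt_okS PT.snd) (pt_eqK (hk.comp PT.fst) (pt_ends2 PT.snd)))

theorem pt_prs {L : ι → List ℕ} (hL : PT L) : PT (fun x => prs (L x)) :=
  PT.filter (pt_prd hL hL) (p := fun y : ι × Ed => decide (y.2.1 < y.2.2)) (PT.nlt PT.snd.p1 PT.snd.p2)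

theorem pt_clE {c : ι → Cl} (hc : PT c) : PT (fun x => clE (c x)) := by
  have hL := PT.p2 (PT.p2 (PT.p2 hc))
  have hx := PT.p1 (PT.p2 hc)
  have hy := PT.p1 (PT.p2 (PT.p2 hc))
  unfold clE
  exact PT.cond (PT.p1 hc) (PT.append
    (PT.map hL (g := fun y : ι × ℕ => ((c y.1).2.1, y.2)) (PT.pair (hx.comp PT.fst) PT.snd))
    (PT.map hL (g := fun y : ι × ℕ => ((c y.1).2.2.1, y.2)) (PT.pair (hy.comp PT.fst) PT.snd))) (pt_prs hL)

theorem pt_exP {c : ι → Cl} (hc : PT c) : PT (fun x => exP (c x)) :=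
  PT.pair (PT.const true) (PT.pair (pt_clE hc) (PT.const []))

theorem pt_digs {c : ι → Cl} {ch : ι → ℕ × ℕ} (hc : PT c) (hh : PT ch) : PT (fun x => digs (c x) (ch x)) := by
  have hL := PT.p2 (PT.p2 (PT.p2 hc))
  have h1 := PT.p1 hh
  have h2 := PT.p2 hh
  unfold digs
  refine PT.cond (PT.p1 hc) ?_ (PT.cond (PT.neq h1 (PT.const 0)) (PT.append ?_ ?_) ?_)
  · have hf := PT.filter hL (p := fun y : ι × ℕ => !decide (y.2 = (ch y.1).2))
      (PT.bnot (PT.neq PT.snd (h2.comp PT.fst)))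
    exact PT.map hf (g := fun y : ι × ℕ => [(ch y.1).1, (ch y.1).1, y.2, y.2])
      (PT.cons (h1.comp PT.fst) (PT.cons (h1.comp PT.fst) (PT.cons PT.snd (PT.cons PT.snd (PT.const [])))))
  · exact PT.map hL (g := fun y : ι × ℕ => [y.2, y.2]) (PT.cons PT.snd (PT.cons PT.snd (PT.const [])))
  · exact PT.map (pt_prs hL) (g := fun y : ι × Ed => [y.2.1, y.2.1, y.2.2, y.2.2])
      (PT.cons PT.snd.p1 (PT.cons PT.snd.p1 (PT.cons PT.snd.p2 (PT.cons PT.snd.p2 (PT.const [])))))
  · exact PT.cons (PT.flatMap hL (g := fun y : ι × ℕ => [y.2, y.2])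
      (PT.cons PT.snd (PT.cons PT.snd (PT.const [])))) (PT.const [])

theorem pt_rxP {c : ι → Cl} {ch : ι → ℕ × ℕ} (hc : PT c) (hh : PT ch) : PT (fun x => rxP (c x) (ch x)) :=
  PT.pair (PT.const true) (PT.pair (pt_clE hc) (pt_digs hc hh))

theorem pt_rxU {c : ι → Cl} {ch : ι → ℕ × ℕ} (hc : PT c) (hh : PT ch) : PT (fun x => rxU (c x) (ch x)) := by
  have hL := PT.p2 (PT.p2 (PT.p2 hc))
  have hx := PT.p1 (PT.p2 hc)
  have hy := PT.p1 (PT.p2 (PT.p2 hc))
  have h1 := PT.p1 hh
  have h2 := PT.p2 hh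
  have c0 : ∀ (α : Type) [DEnc α] (a : α), PT (fun _ : ι => a) := fun α _ a => PT.const a
  unfold rxU
  refine PT.cond (PT.p1 hc) (PT.append ?_ ?_) (PT.cond (PT.neq h1 (PT.const 0)) ?_ ?_)
  · have hf := PT.filter hL (p := fun y : ι × ℕ => !decide (y.2 = (ch y.1).2))
      (PT.bnot (PT.neq PT.snd (h2.comp PT.fst)))
    exact PT.map hf (g := fun y : ι × ℕ => ([y.2], [(c y.1).2.1, (c y.1).2.2.1]))
      (PT.pair (PT.cons PT.snd (PT.const []))
        (PT.cons (hx.comp PT.fst) (PT.cons (hy.comp PT.fst) (PT.const []))))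
  · exact PT.cons (PT.pair (PT.cons h1 (PT.const [])) hL) (PT.cons (PT.pair
      (PT.cons (PT.ite (PT.neq h1 hx) hy hx) (PT.const [])) (PT.cons h2 (PT.const []))) (PT.const []))
  · exact PT.cons (PT.pair hL hL) (PT.cons (PT.pair hL hL) (PT.cons (PT.pair hL hL) (PT.const [])))
  · exact PT.map (pt_prs hL) (g := fun y : ι × Ed => ([y.2.1], [y.2.2]))
      (PT.pair (PT.cons PT.snd.p1 (PT.const [])) (PT.cons PT.snd.p2 (PT.const [])))

end pt

end Pool.Agent.PF4
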