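import Pool.Agent.PF4.Cov
import Pool.Agent.PF4.Pc
import Pool.Agent.PF4.CluX

/-!
The clusters of a conflict-free list of squares as a polynomial-time function `clus` (cluster data `Cl` as in `Pc`).
-/

set_option autoImplicit false
set_option linter.unusedSimpArgs false
set_option linter.unusedVariables false

namespace Pool.Agent.PF4

open Finset Pool.Agent.TFC Pool.Agent.Lib.helper60

/-! ### one cluster -/

/-- the same square -/
def eqS (S R : Sq4) : Bool := sqIn (sqE R) S && sqIn (sqE S) R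

theorem eqS_iff {S R : Sq4} : eqS S R = true ↔ sqs S = sqs R := by
  unfold eqS
  rw [Bool.and_eq_true, sqIn_iff, sqIn_iff, fs_sqE, fs_sqE]
  exact ⟨fun h => Finset.Subset.antisymm h.1 h.2, fun h => ⟨h.subset, h.superset⟩⟩

/-- the corners -/
def crn (Q : Sq4) : List ℕ := [Q.1, Q.2.1, Q.2.2.1, Q.2.2.2]

/-- all corners of `R` are corners of `Q` -/
def sameV (Q R : Sq4) : Bool := (crn R).all fun v => (crn Q).any fun u => decide (u = v)

/-- the leaves of the square `S`, if `x`, `y` are opposite corners -/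
def lf (x y : ℕ) (S : Sq4) : List ℕ :=
  bif (decide (S.1 = x) && decide (S.2.2.1 = y)) || (decide (S.1 = y) && decide (S.2.2.1 = x)) then
    [S.2.1, S.2.2.2]
  else bif (decide (S.2.1 = x) && decide (S.2.2.2 = y)) || (decide (S.2.1 = y) && decide (S.2.2.2 = x)) then
    [S.1, S.2.2.1]
  else []

/-- `S` has a partner with respect to the centres `x`, `y` -/
def ptn (D : List Sq4) (x y : ℕ) (S : Sq4) : Bool :=
  D.any fun R => (!eqS S R) && ((lf x y S).any fun l => (lf x y R).any fun m => decide (l = m))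

/-- the leaves with respect to the centres -/
def lvs (n : ℕ) (D : List Sq4) (x y : ℕ) : List ℕ :=
  (List.range n).filter fun v => (D.filter fun S => ptn D x y S).any fun S => (lf x y S).any fun m => decide (m = v)

/-- the cluster of `Q` -/
def clOf (n : ℕ) (D : List Sq4) (Q : Sq4) : Cl :=
  bif D.any (fun R => sameV Q R && !eqS Q R) then (false, 0, 0, crn Q)
  else bif ptn D Q.1 Q.2.2.1 Q then (true, Q.1, Q.2.2.1, lvs n D Q.1 Q.2.2.1)
  else bif ptn D Q.2.1 Q.2.2.2 Q then (true, Q.2.1, Q.2.2.2, lvs n D Q.2.1 Q.2.2.2)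
  else (true, Q.1, Q.2.2.1, [Q.2.1, Q.2.2.2])

theorem lf_aux {a b c d x l y : ℕ} (h : Dist4 a b c d) (g2 : x ≠ y)
    (e1 : s(x, l) ∈ TFC.sq a b c d) (e2 : s(l, y) ∈ TFC.sq a b c d) :
    (((a = x ∧ c = y) ∨ (a = y ∧ c = x)) ∧ (l = b ∨ l = d)) ∨
      (((b = x ∧ d = y) ∨ (b = y ∧ d = x)) ∧ (l = a ∨ l = c)) := by
  obtain ⟨h1, h2, h3, h4, h5, h6⟩ := h
  simp only [TFC.sq, Finset.mem_insert, Finset.mem_singleton, Sym2.eq_iff] at e1
  rcases e1 with (⟨rfl, rfl⟩ | ⟨rfl, rfl⟩) | (⟨rfl, rfl⟩ | ⟨rfl, rfl⟩) | (⟨rfl, rfl⟩ | ⟨rfl, rfl⟩) |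
      (⟨rfl, rfl⟩ | ⟨rfl, rfl⟩) <;>
    simp only [TFC.sq, Finset.mem_insert, Finset.mem_singleton, Sym2.eq_iff, h1, h2, h3, h4, h5, h6,
      h1.symm, h2.symm, h3.symm, h4.symm, h5.symm, h6.symm, false_and, false_or, or_false, true_and,
      and_true, g2, g2.symm, true_or, or_true] at e2 <;>
    first
    | (exact absurd e2.symm g2)
    | (subst e2; simp)

theorem mem_lf {x y l : ℕ} {S : Sq4} (h : SqOK S) :
    l ∈ lf x y S ↔ ∃ l', Dist4 x l y l' ∧ sqs S = TFC.sq x l y l' := by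
  obtain ⟨a, b, c, d⟩ := S
  obtain ⟨h1, h2, h3, h4, h5, h6⟩ := id h
  simp only at h1 h2 h3 h4 h5 h6
  have k : l ∈ lf x y (a, b, c, d) ↔
      (((a = x ∧ c = y) ∨ (a = y ∧ c = x)) ∧ (l = b ∨ l = d)) ∨
      (((b = x ∧ d = y) ∨ (b = y ∧ d = x)) ∧ (l = a ∨ l = c)) := by
    unfold lf
    simp only
    by_cases c1 : (a = x ∧ c = y) ∨ (a = y ∧ c = x)
    · have e : ((decide (a = x) && decide (c = y)) || (decide (a = y) && decide (c = x))) = true := by
        simpa using c1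
      rw [e]
      simp only [cond_true, List.mem_cons, List.not_mem_nil, or_false]
      constructor
      · intro h; exact Or.inl ⟨c1, h⟩
      · rintro (⟨_, h⟩ | ⟨h, h'⟩)
        · exact h
        · omega
    · have e : ((decide (a = x) && decide (c = y)) || (decide (a = y) && decide (c = x))) = false := by
        rw [← Bool.not_eq_true]
        simpa using c1
      rw [e]
      simp only [cond_false]
      by_cases c2 : (b = x ∧ d = y) ∨ (b = y ∧ d = x)
      · have e : ((decide (b = x) && decide (d = y)) || (decide (b = y) && decide (d = x))) = true := by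
          simpa using c2
        rw [e]
        simp only [cond_true, List.mem_cons, List.not_mem_nil, or_false]
        constructor
        · intro h; exact Or.inr ⟨c2, h⟩
        · rintro (⟨h, _⟩ | ⟨_, h⟩)
          · exact absurd h c1
          · exact h
      · have e : ((decide (b = x) && decide (d = y)) || (decide (b = y) && decide (d = x))) = false := by
          rw [← Bool.not_eq_true]
          simpa using c2
        rw [e]
        simp only [cond_false, List.not_mem_nil, false_iff]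
        rintro (⟨h, _⟩ | ⟨h, _⟩)
        · exact c1 h
        · exact c2 h
  rw [k]
  have F : Clus_F (TFC.sq a b c d) {a, b, c, d} a b c d := ⟨h, rfl, rfl⟩
  have r1 := Clus_rot F
  have r2 := Clus_rot r1
  have r3 := Clus_rot r2
  have s0 := Clus_ref F
  have s1 := Clus_rot s0
  have s2 := Clus_rot s1
  have s3 := Clus_rot s2
  constructor
  · rintro (⟨⟨rfl, rfl⟩ | ⟨rfl, rfl⟩, rfl | rfl⟩ | ⟨⟨rfl, rfl⟩ | ⟨rfl, rfl⟩, rfl | rfl⟩)
    · exact ⟨_, F.1, F.2.1⟩
    · exact ⟨_, s3.1, s3.2.1⟩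
    · exact ⟨_, s1.1, s1.2.1⟩
    · exact ⟨_, r2.1, r2.2.1⟩
    · exact ⟨_, s2.1, s2.2.1⟩
    · exact ⟨_, r1.1, r1.2.1⟩
    · exact ⟨_, r3.1, r3.2.1⟩
    · exact ⟨_, s0.1, s0.2.1⟩
  · rintro ⟨l', ⟨g1, g2, g3, g4, g5, g6⟩, e⟩
    have e1 : s(x, l) ∈ TFC.sq a b c d := by
      have : s(x, l) ∈ TFC.sq x l y l' := by simp [TFC.sq]
      rw [← e] at this; exact this
    have e2 : s(l, y) ∈ TFC.sq a b c d := by
      have : s(l, y) ∈ TFC.sq x l y l' := by simp [TFC.sq]
      rw [← e] at this; exact this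
    exact lf_aux h g2 e1 e2

theorem sameV_iff {Q R : Sq4} : sameV Q R = true ↔ ∀ v ∈ crn R, v ∈ crn Q := by
  simp [sameV]

theorem lf_symm (x y : ℕ) (S : Sq4) : lf x y S = lf y x S := by
  unfold lf
  rw [Bool.or_comm (decide (S.1 = x) && decide (S.2.2.1 = y)),
    Bool.or_comm (decide (S.2.1 = x) && decide (S.2.2.2 = y))]

theorem lf_pos {x y v : ℕ} {S : Sq4} (h : v ∈ lf x y S) :
    ((S.1 = x ∧ S.2.2.1 = y) ∨ (S.1 = y ∧ S.2.2.1 = x)) ∨ ((S.2.1 = x ∧ S.2.2.2 = y) ∨ (S.2.1 = y ∧ S.2.2.2 = x)) := by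
  unfold lf at h
  by_contra hcon
  rw [not_or] at hcon
  obtain ⟨c1, c2⟩ := hcon
  have e1 : ((decide (S.1 = x) && decide (S.2.2.1 = y)) || (decide (S.1 = y) && decide (S.2.2.1 = x))) = false := by
    rw [← Bool.not_eq_true]
    simpa using c1
  have e2 : ((decide (S.2.1 = x) && decide (S.2.2.2 = y)) || (decide (S.2.1 = y) && decide (S.2.2.2 = x))) =
      false := by
    rw [← Bool.not_eq_true]
    simpa using c2
  rw [e1, e2] at h
  simp at h

theorem ptn_symm (D : List Sq4) (x y : ℕ) (S : Sq4) : ptn D x y S = ptn D y x S := by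
  unfold ptn
  simp only [lf_symm x y]

theorem ptn_iff {D : List Sq4} {x y : ℕ} {S : Sq4} :
    ptn D x y S = true ↔ ∃ R ∈ D, sqs S ≠ sqs R ∧ ∃ l, l ∈ lf x y S ∧ l ∈ lf x y R := by
  unfold ptn
  simp only [List.any_eq_true, Bool.and_eq_true, Bool.not_eq_true', decide_eq_true_eq, ← Bool.not_eq_true,
    eqS_iff]
  constructor
  · rintro ⟨R, h1, h2, l, h3, m, h4, rfl⟩
    exact ⟨R, h1, h2, l, h3, h4⟩
  · rintro ⟨R, h1, h2, l, h3, h4⟩
    exact ⟨R, h1, h2, l, h3, l, h4, rfl⟩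

theorem mem_lvs {n : ℕ} {D : List Sq4} {x y v : ℕ} :
    v ∈ lvs n D x y ↔ v < n ∧ ∃ S ∈ D, ptn D x y S = true ∧ v ∈ lf x y S := by
  unfold lvs
  simp only [List.mem_filter, List.mem_range, List.any_eq_true, decide_eq_true_eq]
  constructor
  · rintro ⟨h1, S, ⟨h2, h3⟩, m, h4, rfl⟩
    exact ⟨h1, S, h2, h3, h4⟩
  · rintro ⟨h1, S, h2, h3, h4⟩
    exact ⟨h1, S, ⟨h2, h3⟩, v, h4, rfl⟩

theorem lvs_nodup (n : ℕ) (D : List Sq4) (x y : ℕ) : (lvs n D x y).Nodup := List.nodup_range.filter _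

/-- the set of the squares of the list -/
def SF (D : List Sq4) : Finset (Finset (Sym2 ℕ)) := (D.map sqs).toFinset

theorem mem_SF {D : List Sq4} {S : Finset (Sym2 ℕ)} : S ∈ SF D ↔ ∃ q ∈ D, sqs q = S := by
  simp [SF]

theorem SF_isSq {D : List Sq4} (hD : ∀ q ∈ D, SqOK q) : ∀ S ∈ SF D, IsSq S := by
  intro S hS
  obtain ⟨q, hq, rfl⟩ := mem_SF.1 hS
  exact ⟨q.1, q.2.1, q.2.2.1, q.2.2.2, hD q hq, rfl⟩

theorem SF_conf {D : List Sq4} (hD : ∀ q ∈ D, SqOK q) (hc : ∀ Q ∈ D, ∀ R ∈ D, conf Q R = false) :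
    ∀ Q ∈ SF D, ∀ R ∈ SF D, Q ≠ R → #(Q ∩ R) ≠ 1 := by
  intro S hS R hR _ h
  obtain ⟨q, hq, rfl⟩ := mem_SF.1 hS
  obtain ⟨r, hr, rfl⟩ := mem_SF.1 hR
  have := (conf_iff (hD q hq)).2 h
  rw [hc q hq r hr] at this
  cases this

theorem mem_crn {q : Sq4} {e : Sym2 ℕ} {v : ℕ} (he : e ∈ sqs q) (hv : v ∈ e) : v ∈ crn q := by
  simp only [sqs, TFC.sq, Finset.mem_insert, Finset.mem_singleton] at he
  unfold crn
  simp only [List.mem_cons, List.not_mem_nil, or_false]
  rcases he with rfl | rfl | rfl | rfl <;> rw [Sym2.mem_iff] at hv <;> tauto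

theorem leaf_of {x l y l' v : ℕ} {e : Sym2 ℕ} (he : e ∈ TFC.sq x l y l') (hv : v ∈ e) (hx : v ≠ x)
    (hy : v ≠ y) : v = l ∨ v = l' := by
  simp only [TFC.sq, Finset.mem_insert, Finset.mem_singleton] at he
  rcases he with rfl | rfl | rfl | rfl <;> rw [Sym2.mem_iff] at hv <;> tauto

theorem swap_set (a b c d : ℕ) : ({a, b, c, d} : Finset ℕ) = {a, b, d, c} := by
  ext z
  simp only [mem_insert, mem_singleton]
  tauto

theorem sq_partner {x l y l' l'' : ℕ} (h1 : Dist4 x l y l') (h2 : Dist4 x l y l'') (hne : l' ≠ l'') :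
    TFC.sq x l y l' ≠ TFC.sq x l y l'' := by
  intro e
  have h3 : s(l', x) ∈ TFC.sq x l y l'' := by rw [← e]; simp [TFC.sq]
  obtain ⟨a1, a2, a3, a4, a5, a6⟩ := h1
  obtain ⟨b1, b2, b3, b4, b5, b6⟩ := h2
  simp only [TFC.sq, Finset.mem_insert, Finset.mem_singleton, Sym2.eq_iff] at h3
  omega

section
variable {n : ℕ} {D : List Sq4} (hD : ∀ q ∈ D, SqOK q) (hn : ∀ q ∈ D, ∀ v ∈ crn q, v < n)
  (hc : ∀ Q ∈ D, ∀ R ∈ D, conf Q R = false)
include hD hn hc

theorem caseB {Q : Sq4} (hQ : Q ∈ D) {x y : ℕ} (h : ptn D x y Q = true) :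
    ClOK (true, x, y, lvs n D x y) ∧ StepY (SF D) (sqs Q) (cluF (true, x, y, lvs n D x y)) := by
  have hPP : ∀ S ∈ D, ptn D x y S = true ↔ ∃ l l' l'', Dist4 x l y l' ∧ Dist4 x l y l'' ∧ l' ≠ l'' ∧
      sqs S = TFC.sq x l y l' ∧ TFC.sq x l y l'' ∈ SF D := by
    intro S hS
    rw [ptn_iff]
    constructor
    · rintro ⟨R, hR, hne, l, h1, h2⟩
      obtain ⟨l', d1, e1⟩ := (mem_lf (hD S hS)).1 h1
      obtain ⟨l'', d2, e2⟩ := (mem_lf (hD R hR)).1 h2
      refine ⟨l, l', l'', d1, d2, ?_, e1, mem_SF.2 ⟨R, hR, e2⟩⟩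
      rintro rfl
      exact hne (e1.trans e2.symm)
    · rintro ⟨l, l', l'', d1, d2, hne, e1, h2⟩
      obtain ⟨R, hR, e2⟩ := mem_SF.1 h2
      refine ⟨R, hR, ?_, l, (mem_lf (hD S hS)).2 ⟨l', d1, e1⟩, (mem_lf (hD R hR)).2 ⟨l'', d2, e2⟩⟩
      rw [e1, e2]
      exact sq_partner d1 d2 hne
  obtain ⟨a, b, c, dQ, dR, hbc, eQ, hR⟩ := (hPP Q hQ).1 h
  have hQ' : TFC.sq x a y b ∈ SF D := mem_SF.2 ⟨Q, hQ, eQ⟩
  have st := case2Y (SF_isSq hD) (SF_conf hD hc) hQ' hR dQ dR hbc
    (fun S => ∃ l l' l'', Dist4 x l y l' ∧ Dist4 x l y l'' ∧ l' ≠ l'' ∧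
      S = TFC.sq x l y l' ∧ TFC.sq x l y l'' ∈ SF D) (fun _ => Iff.rfl) (lvs n D x y).toFinset (by
      intro v
      rw [List.mem_toFinset, mem_lvs]
      constructor
      · rintro ⟨_, S, hS, h1, h2⟩
        obtain ⟨l', ⟨g1, g2, g3, g4, g5, g6⟩, e1⟩ := (mem_lf (hD S hS)).1 h2
        refine ⟨⟨sqs S, mem_SF.2 ⟨S, hS, rfl⟩, (hPP S hS).1 h1, s(x, v), ?_, Sym2.mem_mk_right _ _⟩, g1.symm, g4⟩
        rw [e1]; simp [TFC.sq]
      · rintro ⟨⟨S', hS', h1, e, he, hv⟩, hvx, hvy⟩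
        obtain ⟨S, hS, rfl⟩ := mem_SF.1 hS'
        refine ⟨hn S hS v (mem_crn he hv), S, hS, (hPP S hS).2 h1, ?_⟩
        obtain ⟨l, l', l'', d1, d2, hne, e1, h2⟩ := h1
        rw [mem_lf (hD S hS)]
        rw [e1] at he
        have hvl : v = l ∨ v = l' := leaf_of he hv hvx hvy
        rcases hvl with rfl | rfl
        · exact ⟨l', d1, e1⟩
        · obtain ⟨d3, e3⟩ := Clus_sq_leaf d1
          exact ⟨l, d3, e1.trans e3⟩)
  have st' : StepY (SF D) (sqs Q) (cluF (true, x, y, lvs n D x y)) := by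
    rw [eQ]; exact st
  refine ⟨⟨lvs_nodup _ _ _ _, fun _ => ⟨dQ.2.1, ?_, ?_, ?_⟩, by simp⟩, st'⟩
  · intro hx
    obtain ⟨_, S, hS, _, h2⟩ := mem_lvs.1 hx
    obtain ⟨l', g, _⟩ := (mem_lf (hD S hS)).1 h2
    exact g.1 rfl
  · intro hx
    obtain ⟨_, S, hS, _, h2⟩ := mem_lvs.1 hx
    obtain ⟨l', g, _⟩ := (mem_lf (hD S hS)).1 h2
    exact g.2.2.2.1 rfl
  · obtain ⟨_, _, _, hv, _⟩ := st'
    have h4 : 2 ≤ #(lvs n D x y).toFinset := hv.2.2.2
    rwa [List.toFinset_card_of_nodup (lvs_nodup _ _ _ _)] at h4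

theorem clOf_step {Q : Sq4} (hQ : Q ∈ D) :
    ClOK (clOf n D Q) ∧ StepY (SF D) (sqs Q) (cluF (clOf n D Q)) := by
  have hsq := SF_isSq hD
  have hcf := SF_conf hD hc
  have dQ := hD Q hQ
  have oQ : Clus_On (sqs Q) {Q.1, Q.2.1, Q.2.2.1, Q.2.2.2} := ⟨_, _, _, _, dQ, rfl, rfl⟩
  obtain ⟨h1, h2, h3, h4, h5, h6⟩ := id dQ
  unfold clOf
  cases hA : D.any (fun R => sameV Q R && !eqS Q R) with
  | true =>
    simp only [cond_true]
    rw [List.any_eq_true] at hA
    obtain ⟨R, hR, hA⟩ := hA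
    rw [Bool.and_eq_true, sameV_iff, Bool.not_eq_true', ← Bool.not_eq_true, eqS_iff] at hA
    obtain ⟨g1, g2⟩ := hA
    have oR' : Clus_On (sqs R) {R.1, R.2.1, R.2.2.1, R.2.2.2} := ⟨_, _, _, _, hD R hR, rfl, rfl⟩
    have eX : ({R.1, R.2.1, R.2.2.1, R.2.2.2} : Finset ℕ) = {Q.1, Q.2.1, Q.2.2.1, Q.2.2.2} := by
      apply Finset.eq_of_subset_of_card_le
      · intro v hv
        have := g1 v (by simpa [crn] using hv)
        simpa [crn] using this
      · rw [Clus_card oR', Clus_card oQ]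
    have oR : Clus_On (sqs R) {Q.1, Q.2.1, Q.2.2.1, Q.2.2.2} := by rw [← eX]; exact oR'
    have st := case1Y hsq hcf (mem_SF.2 ⟨Q, hQ, rfl⟩) (mem_SF.2 ⟨R, hR, rfl⟩) g2 oQ oR
    refine ⟨⟨?_, by simp, fun _ => rfl⟩, ?_⟩
    · simp [crn, h1, h2, h3, h4, h5, h6]
    · have e : cluF (false, 0, 0, crn Q) = Clu.k4 {Q.1, Q.2.1, Q.2.2.1, Q.2.2.2} := by
        simp [cluF, crn]
      rw [e]; exact st
  | false =>
    simp only [cond_false]
    cases hB : ptn D Q.1 Q.2.2.1 Q with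
    | true => exact caseB hD hn hc hQ hB
    | false =>
      simp only [cond_false]
      cases hB' : ptn D Q.2.1 Q.2.2.2 Q with
      | true => exact caseB hD hn hc hQ hB'
      | false =>
        simp only [cond_false]
        have st := case3Y (D := SF D) dQ (mem_SF.2 ⟨Q, hQ, rfl⟩) (by
          intro S hS hne e he heQ
          obtain ⟨R, hR, rfl⟩ := mem_SF.1 hS
          have heQ' : e ∈ sqs Q := heQ
          have hne' : sqs R ≠ sqs Q := hne
          -- adjacent common edges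
          have adj : ∀ u v w, u ≠ w → s(u, v) ∈ sqs Q → s(v, w) ∈ sqs Q → s(u, v) ∈ sqs R →
              s(v, w) ∈ sqs R → False := by
            intro u v w huw q1 q2 r1 r2
            have oR : Clus_On (sqs R) {R.1, R.2.1, R.2.2.1, R.2.2.2} := ⟨_, _, _, _, hD R hR, rfl, rfl⟩
            obtain ⟨t, d1, e1, -⟩ := Clus_adj2 oQ q1 q2 huw
            obtain ⟨t', d2, e2, -⟩ := Clus_adj2 oR r1 r2 huw
            have hp : ptn D u w Q = true := ptn_iff.2 ⟨R, hR, fun h => hne' h.symm, v,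
              (mem_lf (hD Q hQ)).2 ⟨t, d1, e1⟩, (mem_lf (hD R hR)).2 ⟨t', d2, e2⟩⟩
            have hm : v ∈ lf u w Q := (mem_lf (hD Q hQ)).2 ⟨t, d1, e1⟩
            rcases lf_pos hm with (⟨rfl, rfl⟩ | ⟨rfl, rfl⟩) | (⟨rfl, rfl⟩ | ⟨rfl, rfl⟩)
            · rw [hB] at hp; cases hp
            · rw [ptn_symm, hB] at hp; cases hp
            · rw [hB'] at hp; cases hp
            · rw [ptn_symm, hB'] at hp; cases hp
          have oR : Clus_On (sqs R) {R.1, R.2.1, R.2.2.1, R.2.2.2} := ⟨_, _, _, _, hD R hR, rfl, rfl⟩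
          obtain ⟨e', he1, he2, he3⟩ := Clus_second (hcf _ (mem_SF.2 ⟨Q, hQ, rfl⟩) _ (mem_SF.2 ⟨R, hR, rfl⟩)
            (fun h => hne' h.symm)) heQ' he
          induction e using Sym2.ind with
          | _ u v =>
            obtain ⟨w, t, hF⟩ := Clus_adj oQ heQ'
            obtain ⟨⟨k1, k2, k3, k4, k5, k6⟩, eQ, eX⟩ := id hF
            rw [eQ] at he1
            simp only [TFC.sq, mem_insert, mem_singleton] at he1
            rcases he1 with rfl | rfl | rfl | rfl
            · exact absurd rfl he3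
            · exact adj u v w k2 heQ' (by rw [eQ]; simp [TFC.sq]) he he2
            · obtain ⟨c, d, ⟨g1, g2, g3, g4, g5, g6⟩, eR, eX'⟩ := Clus_adj oR he
              have he2' := he2
              rw [eR] at he2'
              simp only [TFC.sq, mem_insert, mem_singleton, Sym2.eq_iff] at he2'
              have hcd : (w = c ∧ t = d) ∨ (w = d ∧ t = c) := by
                clear hD hn hc hsq hcf h1 h2 h3 h4 h5 h6 g1 g2 g3 g4 g5 g6
                rcases he2' with (⟨e1, e2⟩ | ⟨e1, e2⟩) | (⟨e1, e2⟩ | ⟨e1, e2⟩) | (⟨e1, e2⟩ | ⟨e1, e2⟩) |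
                  (⟨e1, e2⟩ | ⟨e1, e2⟩)
                · exact absurd e1.symm k2
                · exact absurd e1.symm k4
                · exact absurd e1.symm k4
                · exact absurd e2.symm k5
                · exact Or.inl ⟨e1, e2⟩
                · exact Or.inr ⟨e1, e2⟩
                · exact absurd e2.symm k3
                · exact absurd e1.symm k2
              have hXX : ({R.1, R.2.1, R.2.2.1, R.2.2.2} : Finset ℕ) = {Q.1, Q.2.1, Q.2.2.1, Q.2.2.2} := by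
                rw [eX, eX']
                rcases hcd with ⟨rfl, rfl⟩ | ⟨rfl, rfl⟩
                · rfl
                · exact swap_set _ _ _ _
              have hsV : sameV Q R = true := by
                rw [sameV_iff]
                intro z hz
                have hz' : z ∈ ({R.1, R.2.1, R.2.2.1, R.2.2.2} : Finset ℕ) := by simpa [crn] using hz
                rw [hXX] at hz'
                simpa [crn] using hz'
              have hA' : D.any (fun R => sameV Q R && !eqS Q R) = true := by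
                rw [List.any_eq_true]
                refine ⟨R, hR, ?_⟩
                rw [Bool.and_eq_true, Bool.not_eq_true', ← Bool.not_eq_true, eqS_iff]
                exact ⟨hsV, fun h => hne' h.symm⟩
              rw [hA] at hA'
              cases hA'
            · exact adj t u v k5.symm (by rw [eQ]; simp [TFC.sq]) heQ' he2 he)
        refine ⟨⟨?_, fun _ => ⟨h2, ?_, ?_, le_rfl⟩, by simp⟩, ?_⟩
        · simp [h5]
        · simp [h1, h3]
        · simp [h4.symm, h6]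
        · have e : cluF (true, Q.1, Q.2.2.1, [Q.2.1, Q.2.2.2]) = Clu.k2 Q.1 Q.2.2.1 {Q.2.1, Q.2.2.2} := by
            simp [cluF]
          rw [e]; exact st

end

/-! ### all clusters -/

/-- the squares which are in no cluster of `out` -/
def remD (D : List Sq4) (out : List Cl) : List Sq4 :=
  D.filter fun S => !out.any fun c => sqIn (clE c) S

/-- one step -/
def cstep (n : ℕ) (D : List Sq4) (out : List Cl) (Q : Sq4) : List Cl :=
  bif out.any (fun c => sqIn (clE c) Q) then out else clOf n (remD D out) Q :: out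

/-- the clusters of the list `D` of squares with corners less than `n` -/
def clus (n : ℕ) (D : List Sq4) : List Cl := D.foldl (cstep n D) []

theorem mem_remD {D : List Sq4} {out : List Cl} {S : Sq4} :
    S ∈ remD D out ↔ S ∈ D ∧ ∀ c ∈ out, ¬ sqs S ⊆ fs (clE c) := by
  unfold remD
  rw [List.mem_filter, Bool.not_eq_true', ← Bool.not_eq_true, List.any_eq_true]
  simp only [sqIn_iff, not_exists, not_and]

/-- the invariant of the loop: the squares of `D1` are treated -/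
structure CInv (D D1 : List Sq4) (out : List Cl) : Prop where
  ok : ∀ c ∈ out, ClOK c
  pw : out.Pairwise fun c c' => Disjoint (fs (clE c)) (fs (clE c'))
  sub : ∀ c ∈ out, ∀ e ∈ fs (clE c), ∃ Q ∈ D, e ∈ sqs Q ∧ sqs Q ⊆ fs (clE c)
  cov : ∀ Q ∈ D1, ∃ c ∈ out, sqs Q ⊆ fs (clE c)
  dis : ∀ Q ∈ D, ∀ c ∈ out, sqs Q ⊆ fs (clE c) ∨ Disjoint (sqs Q) (fs (clE c))

theorem sqs_ne {Q : Sq4} : ∃ e, e ∈ sqs Q := ⟨s(Q.1, Q.2.1), by simp [sqs, TFC.sq]⟩

theorem cstep_inv {n : ℕ} {D D1 : List Sq4} (hD : ∀ q ∈ D, SqOK q) (hn : ∀ q ∈ D, ∀ v ∈ crn q, v < n)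
    (hc : ∀ Q ∈ D, ∀ R ∈ D, conf Q R = false) {out : List Cl} (h : CInv D D1 out) {Q : Sq4} (hQ : Q ∈ D) :
    CInv D (Q :: D1) (cstep n D out Q) := by
  unfold cstep
  cases h1 : out.any (fun c => sqIn (clE c) Q) with
  | true =>
    simp only [cond_true]
    refine ⟨h.ok, h.pw, h.sub, ?_, h.dis⟩
    intro R hR
    rcases List.mem_cons.1 hR with rfl | hR
    · obtain ⟨c, hc, h2⟩ := List.any_eq_true.1 h1
      exact ⟨c, hc, (sqIn_iff _ _).1 h2⟩
    · exact h.cov R hR
  | false =>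
    simp only [cond_false]
    have hQr : Q ∈ remD D out := by
      rw [remD, List.mem_filter, h1]
      exact ⟨hQ, rfl⟩
    have hs : ∀ q ∈ remD D out, q ∈ D := fun q hq => (mem_remD.1 hq).1
    obtain ⟨k1, D', k2, k3, k4, k5, k6, k7⟩ := clOf_step (n := n) (D := remD D out)
      (fun q hq => hD q (hs q hq)) (fun q hq => hn q (hs q hq))
      (fun q hq r hr => hc q (hs q hq) r (hs r hr)) hQr
    rw [← fs_clE] at k5 k6 k7
    set c := clOf n (remD D out) Q with hcdef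
    -- every edge of `c` is in a remaining square
    have k8 : ∀ e ∈ fs (clE c), ∃ R ∈ remD D out, e ∈ sqs R ∧ sqs R ⊆ fs (clE c) := by
      intro e he
      obtain ⟨S, hS, h2⟩ := mem_biUnion.1 (k6 he)
      obtain ⟨R, hR, rfl⟩ := mem_SF.1 (k2 hS)
      exact ⟨R, hR, h2, k5 _ hS⟩
    -- the remaining squares are disjoint from the old clusters
    have k9 : ∀ R ∈ remD D out, ∀ c' ∈ out, Disjoint (sqs R) (fs (clE c')) := by
      intro R hR c' hc'
      obtain ⟨h2, h3⟩ := mem_remD.1 hR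
      rcases h.dis R h2 c' hc' with h4 | h4
      · exact absurd h4 (h3 c' hc')
      · exact h4
    have k10 : ∀ c' ∈ out, Disjoint (fs (clE c)) (fs (clE c')) := by
      intro c' hc'
      rw [disjoint_left]
      intro e he he'
      obtain ⟨R, hR, h2, _⟩ := k8 e he
      exact disjoint_left.1 (k9 R hR c' hc') h2 he'
    refine ⟨?_, ?_, ?_, ?_, ?_⟩
    · intro c' hc'
      rcases List.mem_cons.1 hc' with rfl | hc'
      · exact k1
      · exact h.ok c' hc'
    · exact List.pairwise_cons.2 ⟨k10, h.pw⟩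
    · intro c' hc'
      rcases List.mem_cons.1 hc' with rfl | hc'
      · intro e he
        obtain ⟨R, hR, h2, h3⟩ := k8 e he
        exact ⟨R, hs R hR, h2, h3⟩
      · exact h.sub c' hc'
    · intro R hR
      rcases List.mem_cons.1 hR with rfl | hR
      · exact ⟨c, List.mem_cons_self, k5 _ k3⟩
      · obtain ⟨c', hc', h2⟩ := h.cov R hR
        exact ⟨c', List.mem_cons_of_mem _ hc', h2⟩
    · intro R hR c' hc'
      rcases List.mem_cons.1 hc' with rfl | hc'
      · by_cases h2 : R ∈ remD D out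
        · by_cases h3 : sqs R ∈ D'
          · exact Or.inl (k5 _ h3)
          · refine Or.inr ?_
            rw [disjoint_left]
            exact k7 _ (mem_SF.2 ⟨R, h2, rfl⟩) h3
        · -- in an old cluster
          have h3 : ∃ c' ∈ out, sqs R ⊆ fs (clE c') := by
            by_contra hcon
            push Not at hcon
            exact h2 (mem_remD.2 ⟨hR, hcon⟩)
          obtain ⟨c', hc', h4⟩ := h3
          exact Or.inr ((k10 c' hc').symm.mono_left h4)
      · exact h.dis R hR c' hc'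

theorem clus_inv {n : ℕ} {D : List Sq4} (hD : ∀ q ∈ D, SqOK q) (hn : ∀ q ∈ D, ∀ v ∈ crn q, v < n)
    (hc : ∀ Q ∈ D, ∀ R ∈ D, conf Q R = false) : ∀ (l D1 : List Sq4) (out : List Cl), CInv D D1 out →
    (∀ q ∈ l, q ∈ D) → CInv D (l.reverse ++ D1) (l.foldl (cstep n D) out) := by
  intro l
  induction l with
  | nil => intro D1 out h _; exact h
  | cons q l ih =>
    intro D1 out h hl
    have h1 := ih (q :: D1) (cstep n D out q) (cstep_inv hD hn hc h (hl q List.mem_cons_self))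
      (fun r hr => hl r (List.mem_cons_of_mem _ hr))
    rw [List.foldl_cons, List.reverse_cons, List.append_assoc]
    exact h1

/-- **Specification of `clus`.** -/
theorem clus_spec {n : ℕ} {D : List Sq4} (hD : ∀ q ∈ D, SqOK q) (hn : ∀ q ∈ D, ∀ v ∈ crn q, v < n)
    (hc : ∀ Q ∈ D, ∀ R ∈ D, conf Q R = false) :
    (∀ c ∈ clus n D, ClOK c) ∧
    ((clus n D).Pairwise fun c c' => Disjoint (fs (clE c)) (fs (clE c'))) ∧
    (∀ c ∈ clus n D, ∀ e ∈ fs (clE c), ∃ Q ∈ D, e ∈ sqs Q ∧ sqs Q ⊆ fs (clE c)) ∧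
    (∀ Q ∈ D, ∃ c ∈ clus n D, sqs Q ⊆ fs (clE c)) ∧
    (∀ Q ∈ D, ∀ c ∈ clus n D, sqs Q ⊆ fs (clE c) ∨ Disjoint (sqs Q) (fs (clE c))) := by
  have h := clus_inv hD hn hc D [] [] ⟨by simp, List.Pairwise.nil, by simp, by simp, by simp⟩
    (fun _ h => h)
  refine ⟨h.ok, h.pw, h.sub, ?_, h.dis⟩
  intro Q hQ
  exact h.cov Q (by simpa using hQ)

/-- a bound for the corners -/
def bnd (D : List Sq4) : ℕ := (D.flatMap crn).foldl (fun s b => s + b) 0 + 1

theorem foldl_add_eq (l : List ℕ) (a : ℕ) : l.foldl (fun s b => s + b) a = a + l.sum := by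
  induction l generalizing a with
  | nil => simp
  | cons b l ih => rw [List.foldl_cons, ih, List.sum_cons]; omega

theorem lt_bnd {D : List Sq4} {q : Sq4} (hq : q ∈ D) {v : ℕ} (hv : v ∈ crn q) : v < bnd D := by
  unfold bnd
  rw [foldl_add_eq]
  have h1 : v ∈ D.flatMap crn := List.mem_flatMap.2 ⟨q, hq, hv⟩
  have h2 := List.single_le_sum (l := D.flatMap crn) (fun _ _ => Nat.zero_le _) v h1
  omega

/-- **The clusters of a list of squares.** -/
def clusters (D : List Sq4) : List Cl := clus (bnd D) D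

/-- **Specification of `clusters`.** -/
theorem clusters_spec {D : List Sq4} (hD : ∀ q ∈ D, SqOK q) (hc : ∀ Q ∈ D, ∀ R ∈ D, conf Q R = false) :
    (∀ c ∈ clusters D, ClOK c) ∧
    ((clusters D).Pairwise fun c c' => Disjoint (fs (clE c)) (fs (clE c'))) ∧
    (∀ c ∈ clusters D, ∀ e ∈ fs (clE c), ∃ Q ∈ D, e ∈ sqs Q ∧ sqs Q ⊆ fs (clE c)) ∧
    (∀ Q ∈ D, ∃ c ∈ clusters D, sqs Q ⊆ fs (clE c)) ∧
    (∀ Q ∈ D, ∀ c ∈ clusters D, sqs Q ⊆ fs (clE c) ∨ Disjoint (sqs Q) (fs (clE c))) :=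
  clus_spec hD (fun _ hq _ hv => lt_bnd hq hv) hc

/-! ### polynomial time -/

section
variable {ι : Type} [DEnc ι]

theorem pt_eqS {S R : ι → Sq4} (hS : PT S) (hR : PT R) : PT (fun x => eqS (S x) (R x)) :=
  PT.band (pt_sqIn (pt_sqE hR) hS) (pt_sqIn (pt_sqE hS) hR)

theorem pt_crn {Q : ι → Sq4} (hq : PT Q) : PT (fun x => crn (Q x)) := by
  have h1 := PT.p1 hq
  have h2 := PT.p1 (PT.p2 hq)
  have h3 := PT.p1 (PT.p2 (PT.p2 hq))
  have h4 := PT.p2 (PT.p2 (PT.p2 hq))
  exact PT.cons h1 (PT.cons h2 (PT.cons h3 (PT.cons h4 (PT.const []))))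

theorem pt_sameV {Q R : ι → Sq4} (hQ : PT Q) (hR : PT R) : PT (fun x => sameV (Q x) (R x)) :=
  PT.all (pt_crn hR) (p := fun y : ι × ℕ => (crn (Q y.1)).any fun u => decide (u = y.2))
    (PT.any (pt_crn (hQ.comp PT.fst)) (p := fun z : (ι × ℕ) × ℕ => decide (z.2 = z.1.2))
      (PT.neq PT.snd (PT.snd.comp PT.fst)))

theorem pt_lf {a b : ι → ℕ} {S : ι → Sq4} (ha : PT a) (hb : PT b) (hS : PT S) :
    PT (fun x => lf (a x) (b x) (S x)) := by
  have h1 := PT.p1 hS
  have h2 := PT.p1 (PT.p2 hS)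
  have h3 := PT.p1 (PT.p2 (PT.p2 hS))
  have h4 := PT.p2 (PT.p2 (PT.p2 hS))
  exact PT.cond (PT.bor (PT.band (PT.neq h1 ha) (PT.neq h3 hb)) (PT.band (PT.neq h1 hb) (PT.neq h3 ha)))
    (PT.cons h2 (PT.cons h4 (PT.const [])))
    (PT.cond (PT.bor (PT.band (PT.neq h2 ha) (PT.neq h4 hb)) (PT.band (PT.neq h2 hb) (PT.neq h4 ha)))
      (PT.cons h1 (PT.cons h3 (PT.const []))) (PT.const []))

theorem pt_ptn {D : ι → List Sq4} {a b : ι → ℕ} {S : ι → Sq4} (hD : PT D) (ha : PT a) (hb : PT b)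
    (hS : PT S) : PT (fun x => ptn (D x) (a x) (b x) (S x)) :=
  PT.any hD (p := fun y : ι × Sq4 => (!eqS (S y.1) y.2) &&
      ((lf (a y.1) (b y.1) (S y.1)).any fun l => (lf (a y.1) (b y.1) y.2).any fun m => decide (l = m)))
    (PT.band (PT.bnot (pt_eqS (hS.comp PT.fst) PT.snd))
      (PT.any (pt_lf (ha.comp PT.fst) (hb.comp PT.fst) (hS.comp PT.fst))
        (p := fun z : (ι × Sq4) × ℕ => (lf (a z.1.1) (b z.1.1) z.1.2).any fun m => decide (z.2 = m))
        (PT.any (pt_lf (ha.comp (PT.fst.comp PT.fst)) (hb.comp (PT.fst.comp PT.fst)) (PT.snd.comp PT.fst))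
          (p := fun w : ((ι × Sq4) × ℕ) × ℕ => decide (w.1.2 = w.2))
          (PT.neq (PT.snd.comp PT.fst) PT.snd))))

theorem pt_lvs {n : ι → ℕ} {D : ι → List Sq4} {a b : ι → ℕ} (hn : PT n) (hD : PT D) (ha : PT a)
    (hb : PT b) : PT (fun x => lvs (n x) (D x) (a x) (b x)) :=
  PT.filter (PT.range hn)
    (p := fun y : ι × ℕ => ((D y.1).filter fun S => ptn (D y.1) (a y.1) (b y.1) S).any
      fun S => (lf (a y.1) (b y.1) S).any fun m => decide (m = y.2))
    (PT.any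
      (PT.filter (hD.comp PT.fst) (p := fun z : (ι × ℕ) × Sq4 => ptn (D z.1.1) (a z.1.1) (b z.1.1) z.2)
        (pt_ptn (hD.comp (PT.fst.comp PT.fst)) (ha.comp (PT.fst.comp PT.fst)) (hb.comp (PT.fst.comp PT.fst))
          PT.snd))
      (p := fun z : (ι × ℕ) × Sq4 => (lf (a z.1.1) (b z.1.1) z.2).any fun m => decide (m = z.1.2))
      (PT.any (pt_lf (ha.comp (PT.fst.comp PT.fst)) (hb.comp (PT.fst.comp PT.fst)) PT.snd)
        (p := fun w : ((ι × ℕ) × Sq4) × ℕ => decide (w.2 = w.1.1.2))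
        (PT.neq PT.snd (PT.snd.comp (PT.fst.comp PT.fst)))))

theorem pt_clOf {n : ι → ℕ} {D : ι → List Sq4} {Q : ι → Sq4} (hn : PT n) (hD : PT D) (hQ : PT Q) :
    PT (fun x => clOf (n x) (D x) (Q x)) := by
  have h1 := PT.p1 hQ
  have h2 := PT.p1 (PT.p2 hQ)
  have h3 := PT.p1 (PT.p2 (PT.p2 hQ))
  have h4 := PT.p2 (PT.p2 (PT.p2 hQ))
  refine PT.cond ?_ (PT.pair (PT.const false) (PT.pair (PT.const 0) (PT.pair (PT.const 0) (pt_crn hQ))))
    (PT.cond (pt_ptn hD h1 h3 hQ) (PT.pair (PT.const true) (PT.pair h1 (PT.pair h3 (pt_lvs hn hD h1 h3))))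
      (PT.cond (pt_ptn hD h2 h4 hQ) (PT.pair (PT.const true) (PT.pair h2 (PT.pair h4 (pt_lvs hn hD h2 h4))))
        (PT.pair (PT.const true) (PT.pair h1 (PT.pair h3 (PT.cons h2 (PT.cons h4 (PT.const []))))))))
  exact PT.any hD (p := fun y : ι × Sq4 => sameV (Q y.1) y.2 && !eqS (Q y.1) y.2)
    (PT.band (pt_sameV (hQ.comp PT.fst) PT.snd) (PT.bnot (pt_eqS (hQ.comp PT.fst) PT.snd)))

theorem pt_remD {D : ι → List Sq4} {out : ι → List Cl} (hD : PT D) (ho : PT out) :
    PT (fun x => remD (D x) (out x)) :=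
  PT.filter hD (p := fun y : ι × Sq4 => !(out y.1).any fun c => sqIn (clE c) y.2)
    (PT.bnot (PT.any (ho.comp PT.fst) (p := fun z : (ι × Sq4) × Cl => sqIn (clE z.2) z.1.2)
      (pt_sqIn (pt_clE PT.snd) (PT.snd.comp PT.fst))))

theorem pt_cstep {n : ι → ℕ} {D : ι → List Sq4} {out : ι → List Cl} {Q : ι → Sq4} (hn : PT n)
    (hD : PT D) (ho : PT out) (hQ : PT Q) : PT (fun x => cstep (n x) (D x) (out x) (Q x)) :=
  PT.cond (PT.any ho (p := fun z : ι × Cl => sqIn (clE z.2) (Q z.1)) (pt_sqIn (pt_clE PT.snd) (hQ.comp PT.fst)))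
    ho (PT.cons (pt_clOf hn (pt_remD hD ho) hQ) ho)

theorem pt_clus {n : ι → ℕ} {D : ι → List Sq4} (hn : PT n) (hD : PT D) :
    PT (fun x => clus (n x) (D x)) := by
  -- size of one cluster
  have hcl : PT (fun y : ℕ × List Sq4 × Sq4 => clOf y.1 y.2.1 y.2.2) :=
    pt_clOf PT.fst PT.snd.p1 PT.snd.p2
  obtain ⟨P, hP⟩ := hcl.size
  let K : ι → ℕ := fun x => P.eval (tsize (n x) + (tsize (D x) + tsize (D x) + 1) + 1)
  have hK : PB K := by
    have h1 : PB (fun x => tsize (n x) + (tsize (D x) + tsize (D x) + 1) + 1) :=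
      ((hn.size.add ((hD.size.add hD.size).add (PB.const 1))).add (PB.const 1))
    obtain ⟨Q, hQ⟩ := h1
    exact ⟨P.comp Q, fun a => by rw [Polynomial.eval_comp]; exact evalMono P (hQ a)⟩
  have hsz : ∀ (x : ι) (out : List Cl) (l : List Sq4), (∀ q ∈ l, q ∈ D x) →
      tsize (l.foldl (cstep (n x) (D x)) out) ≤ tsize out + l.length * (K x + 1) := by
    intro x out l
    induction l generalizing out with
    | nil => intro _; simp
    | cons q l ih =>
      intro hl
      have h1 := ih (cstep (n x) (D x) out q) (fun r hr => hl r (List.mem_cons_of_mem _ hr))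
      have h2 : tsize (cstep (n x) (D x) out q) ≤ tsize out + (K x + 1) := by
        unfold cstep
        cases out.any (fun c => sqIn (clE c) q) with
        | true => simp only [cond_true]; omega
        | false =>
          simp only [cond_false, tsize_cons]
          have h3 := hP (n x, remD (D x) out, q)
          have h4 : tsize (n x, remD (D x) out, q) ≤ tsize (n x) + (tsize (D x) + tsize (D x) + 1) + 1 := by
            have h5 := tsize_filter_le (D x) fun S => !out.any fun c => sqIn (clE c) S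
            have h6 := tsize_mem_lt (hl q List.mem_cons_self)
            have h7 : tsize (remD (D x) out) ≤ tsize (D x) := h5
            simp only [tsize_pair]
            omega
          have h5 := h3.trans (evalMono P h4)
          have h6 : tsize (clOf (n x) (remD (D x) out) q) ≤ K x := h5
          omega
      have e : (q :: l).length * (K x + 1) = l.length * (K x + 1) + (K x + 1) := by
        rw [List.length_cons]; ring
      rw [List.foldl_cons, e]
      omega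
  refine PT.foldl (g := fun z : ι × List Cl × Sq4 => cstep (n z.1) (D z.1) z.2.1 z.2.2) hD (PT.const [])
    (pt_cstep (hn.comp PT.fst) (hD.comp PT.fst) PT.snd.p1 PT.snd.p2)
    ⟨fun x => tsize ([] : List Cl) + tsize (D x) * (K x + 1),
      (PB.const _).add (hD.size.mul (hK.add (PB.const 1))), ?_⟩
  intro x l₁ l₂ h
  have h1 := hsz x [] l₁ (fun q hq => by rw [← h]; exact List.mem_append_left _ hq)
  refine h1.trans ?_
  have h2 : l₁.length ≤ tsize (D x) := by
    have := length_lt_tsize (D x)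
    rw [← h] at this ⊢
    simp at this
    omega
  have := Nat.mul_le_mul_right (K x + 1) h2
  beta_reduce
  omega

theorem pt_bnd {D : ι → List Sq4} (hD : PT D) : PT (fun x => bnd (D x)) := by
  have hl : PT (fun x => (D x).flatMap crn) := PT.flatMap hD (g := fun y : ι × Sq4 => crn y.2) (pt_crn PT.snd)
  refine PT.nadd ?_ (PT.const 1)
  refine PT.foldl (g := fun z : ι × ℕ × ℕ => z.2.1 + z.2.2) hl (PT.const 0) (PT.nadd PT.snd.p1 PT.snd.p2)
    ⟨fun x => tsize ((D x).flatMap crn), hl.size, ?_⟩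
  intro x l₁ l₂ h
  have h1 : ∀ (l : List ℕ), tsize l.sum ≤ tsize l := by
    intro l
    induction l with
    | nil => simp
    | cons b l ih =>
      simp only [List.sum_cons, tsize_cons, tsize_nat] at ih ⊢
      omega
  have h2 : tsize l₁ ≤ tsize ((D x).flatMap crn) := by
    rw [← h]
    have := tsize_append l₁ l₂
    have := tsize_pos l₂
    omega
  have h3 : l₁.foldl (fun s b => s + b) 0 = l₁.sum := by rw [foldl_add_eq]; omega
  beta_reduce
  rw [h3]
  exact (h1 l₁).trans h2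

theorem pt_clusters {D : ι → List Sq4} (hD : PT D) : PT (fun x => clusters (D x)) := pt_clus (pt_bnd hD) hD

end

end Pool.Agent.PF4
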