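import Pool.Agent.PF4.SolZ
import Pool.Agent.PF4.Clu

/-! The cluster function fulfils the interface of the solver. -/

set_option autoImplicit false

namespace Pool.Agent.PF4.SV

open Finset Pool.Agent.TFC Pool.Agent.Lib.helper60

theorem clsFn_clusters : ClsFn clusters := by
  refine ⟨?_⟩
  intro x D hx _ hD hc
  obtain ⟨h1, h2, h3, h4, _⟩ := clusters_spec (D := D) (fun q hq => sqG_ok q (hD q hq)) hc
  refine ⟨⟨h1, h2, ?_, fun c hc => card4_exP (h1 c hc)⟩, h4⟩
  intro c hc e he
  obtain ⟨Q, hQ, he', _⟩ := h3 c hc e he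
  exact sqG_sub (hD Q hQ) he'

end Pool.Agent.PF4.SV
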