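import Pool.Agent.PF4.PTX

/-!
Pools of 2-matchings, closed under the exchange a constant number of times.
-/

set_option autoImplicit false

namespace Pool.Agent.PF4

open Finset Pool.Agent.TFC Pool.Agent.Lib.helper60

/-- a 2-matching without squares from `FS` -/
structure GM (FS : List Sq4) (x : List Ed) : Prop where
  wf : WF x
  m2 : M2 (fs x)
  gd : Good (alF FS) (fs x)

/-- exchange, if possible -/
def exch1 (FS : List Sq4) (x y : List Ed) (i : ℕ) (up : Bool) : List (List Ed) :=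
  bif (bif up then decide (degL x i < degL y i) else decide (degL y i < degL x i)) then
    [exch FS x y i up] else []

/-- one round of exchanges -/
def rnd (FS : List Sq4) (V : List ℕ) (P : List (List Ed)) : List (List Ed) :=
  P ++ P.flatMap fun x => P.flatMap fun y => V.flatMap fun i =>
    exch1 FS x y i true ++ exch1 FS x y i false

/-- the pool after `k` rounds -/
def pool (FS : List Sq4) (V : List ℕ) (P : List (List Ed)) (k : ℕ) : List (List Ed) :=
  (rnd FS V)^[k] P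

/-- `z` is a result of the two-step exchange from `x` towards `y` with first step `ε e_i` -/
def Two (x y z : ℕ → ℤ) (i : ℕ) (ε : ℤ) : Prop :=
  ∃ (j : ℕ) (δ : ℤ), (δ = 1 ∨ δ = -1) ∧ 0 < δ * (y j - (x + Pi.single i ε : ℕ → ℤ) j) ∧
    z = x + Pi.single i ε + Pi.single j δ

theorem sgn_or (up : Bool) : sgn up = 1 ∨ sgn up = -1 := by
  cases up <;> simp [sgn]

theorem XH.mk' {FS : List Sq4} {x y : List Ed} {i : ℕ} {up : Bool} (ok : ∀ q ∈ FS, SqOK q)
    (hx : GM FS x) (hy : GM FS y) (h : 0 < sgn up * (dv (fs y) i - dv (fs x) i)) :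
    XH FS x y i up := ⟨ok, hx.wf, hy.wf, hx.m2, hy.m2, hx.gd, hy.gd, h⟩

theorem mem_exch1 {FS : List Sq4} {x y z : List Ed} {i : ℕ} {up : Bool} (hx : WF x) (hy : WF y) :
    z ∈ exch1 FS x y i up ↔ 0 < sgn up * (dv (fs y) i - dv (fs x) i) ∧ z = exch FS x y i up := by
  rw [dv_apply, dv_apply, ← degL_eq hx, ← degL_eq hy]
  unfold exch1 sgn
  cases up with
  | true =>
    by_cases h : degL x i < degL y i
    · simp only [cond_true, h, decide_true, List.mem_singleton, one_mul]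
      constructor
      · intro h1; exact ⟨by omega, h1⟩
      · intro h1; exact h1.2
    · simp only [cond_true, h, decide_false, cond_false, List.not_mem_nil, one_mul, false_iff]
      intro h1; omega
  | false =>
    by_cases h : degL y i < degL x i
    · simp only [cond_false, h, decide_true, List.mem_singleton, cond_true]
      constructor
      · intro h1; exact ⟨by omega, h1⟩
      · intro h1; exact h1.2
    · simp only [cond_false, h, decide_false, List.not_mem_nil, false_iff]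
      intro h1; omega

theorem mem_rnd {FS : List Sq4} {V : List ℕ} {P : List (List Ed)} {z : List Ed} :
    z ∈ rnd FS V P ↔ z ∈ P ∨ ∃ x ∈ P, ∃ y ∈ P, ∃ i ∈ V, ∃ up, z ∈ exch1 FS x y i up := by
  simp only [rnd, List.mem_append, List.mem_flatMap]
  refine or_congr Iff.rfl ?_
  constructor
  · rintro ⟨x, hx, y, hy, i, hi, h | h⟩
    · exact ⟨x, hx, y, hy, i, hi, true, h⟩
    · exact ⟨x, hx, y, hy, i, hi, false, h⟩
  · rintro ⟨x, hx, y, hy, i, hi, up, h⟩
    cases up with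
    | true => exact ⟨x, hx, y, hy, i, hi, Or.inl h⟩
    | false => exact ⟨x, hx, y, hy, i, hi, Or.inr h⟩

/-- the result of the exchange -/
theorem exch_GM {FS : List Sq4} {x y : List Ed} {i : ℕ} {up : Bool} (ok : ∀ q ∈ FS, SqOK q)
    (hx : GM FS x) (hy : GM FS y) (h : 0 < sgn up * (dv (fs y) i - dv (fs x) i)) :
    GM FS (exch FS x y i up) ∧ fs (exch FS x y i up) ⊆ fs x ∪ fs y ∧
      Two (dv (fs x)) (dv (fs y)) (dv (fs (exch FS x y i up))) i (sgn up) := by
  obtain ⟨h1, h2, h3, h4, h5⟩ := exch_spec (XH.mk' ok hx hy h)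
  exact ⟨⟨h1, h3, h4⟩, h2, h5⟩

/-- every coordinate of the result lies between those of `x` and `y` -/
theorem Two.between {x y z : ℕ → ℤ} {i : ℕ} {ε : ℤ} (hε : ε = 1 ∨ ε = -1) (h0 : 0 < ε * (y i - x i))
    (h : Two x y z i ε) (v : ℕ) : min (x v) (y v) ≤ z v ∧ z v ≤ max (x v) (y v) := by
  obtain ⟨j, δ, hδ, h1, rfl⟩ := h
  have e1 : (x + Pi.single i ε + Pi.single j δ : ℕ → ℤ) v =
      x v + (if v = i then ε else 0) + (if v = j then δ else 0) := by
    simp only [Pi.add_apply, Pi.single_apply]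
  have e2 : (x + Pi.single i ε : ℕ → ℤ) j = x j + (if j = i then ε else 0) := by
    simp only [Pi.add_apply, Pi.single_apply]
  rw [e2] at h1
  rw [e1]
  by_cases hvi : v = i
  · subst hvi
    by_cases hvj : v = j
    · subst hvj
      simp only [if_true] at h1 ⊢
      rcases hε with rfl | rfl <;> rcases hδ with rfl | rfl <;> omega
    · rw [if_neg hvj, if_pos rfl]
      rcases hε with rfl | rfl <;> omega
  · by_cases hvj : v = j
    · subst hvj
      rw [if_neg hvi] at h1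
      rw [if_neg hvi, if_pos rfl]
      rcases hδ with rfl | rfl <;> omega
    · rw [if_neg hvi, if_neg hvj]
      omega

section
variable {FS : List Sq4} {V : List ℕ} {P : List (List Ed)}

theorem rnd_GM (ok : ∀ q ∈ FS, SqOK q) (hP : ∀ x ∈ P, GM FS x) : ∀ z ∈ rnd FS V P, GM FS z := by
  intro z hz
  rcases mem_rnd.1 hz with h | ⟨x, hx, y, hy, i, _, up, h⟩
  · exact hP z h
  · rw [mem_exch1 (hP x hx).wf (hP y hy).wf] at h
    obtain ⟨h1, rfl⟩ := h
    exact (exch_GM ok (hP x hx) (hP y hy) h1).1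

theorem sub_rnd : ∀ z ∈ P, z ∈ rnd FS V P := fun _ hz => mem_rnd.2 (Or.inl hz)

theorem rnd_sub (ok : ∀ q ∈ FS, SqOK q) (hP : ∀ x ∈ P, GM FS x) {E : Finset (Sym2 ℕ)}
    (hE : ∀ x ∈ P, fs x ⊆ E) : ∀ z ∈ rnd FS V P, fs z ⊆ E := by
  intro z hz
  rcases mem_rnd.1 hz with h | ⟨x, hx, y, hy, i, _, up, h⟩
  · exact hE z h
  · rw [mem_exch1 (hP x hx).wf (hP y hy).wf] at h
    obtain ⟨h1, rfl⟩ := h
    exact (exch_GM ok (hP x hx) (hP y hy) h1).2.1.trans (Finset.union_subset (hE x hx) (hE y hy))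

/-- bounds on a degree are preserved -/
theorem rnd_box (ok : ∀ q ∈ FS, SqOK q) (hP : ∀ x ∈ P, GM FS x) {v : ℕ} {a b : ℤ}
    (hE : ∀ x ∈ P, a ≤ dv (fs x) v ∧ dv (fs x) v ≤ b) :
    ∀ z ∈ rnd FS V P, a ≤ dv (fs z) v ∧ dv (fs z) v ≤ b := by
  intro z hz
  rcases mem_rnd.1 hz with h | ⟨x, hx, y, hy, i, _, up, h⟩
  · exact hE z h
  · rw [mem_exch1 (hP x hx).wf (hP y hy).wf] at h
    obtain ⟨h1, rfl⟩ := h
    have h2 := (exch_GM ok (hP x hx) (hP y hy) h1).2.2.between (sgn_or up) h1 v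
    have h3 := hE x hx
    have h4 := hE y hy
    omega

/-- the exchange property of the pool -/
theorem rnd_jump (ok : ∀ q ∈ FS, SqOK q) (hP : ∀ x ∈ P, GM FS x) {x y : List Ed} (hx : x ∈ P)
    (hy : y ∈ P) {i : ℕ} (hi : i ∈ V) {ε : ℤ} (hε : ε = 1 ∨ ε = -1)
    (h : 0 < ε * (dv (fs y) i - dv (fs x) i)) :
    ∃ z ∈ rnd FS V P, fs z ⊆ fs x ∪ fs y ∧ Two (dv (fs x)) (dv (fs y)) (dv (fs z)) i ε := by
  have key : ∀ up : Bool, sgn up = ε → ∃ z ∈ rnd FS V P, fs z ⊆ fs x ∪ fs y ∧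
      Two (dv (fs x)) (dv (fs y)) (dv (fs z)) i ε := by
    rintro up rfl
    refine ⟨exch FS x y i up, mem_rnd.2 (Or.inr ⟨x, hx, y, hy, i, hi, up, ?_⟩), ?_⟩
    · rw [mem_exch1 (hP x hx).wf (hP y hy).wf]
      exact ⟨h, rfl⟩
    · exact (exch_GM ok (hP x hx) (hP y hy) h).2
  rcases hε with rfl | rfl
  · exact key true rfl
  · exact key false rfl

theorem pool_zero : pool FS V P 0 = P := rfl

theorem pool_succ (k : ℕ) : pool FS V P (k + 1) = rnd FS V (pool FS V P k) :=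
  Function.iterate_succ_apply' _ _ _

theorem pool_mono {k l : ℕ} (h : k ≤ l) : ∀ z ∈ pool FS V P k, z ∈ pool FS V P l := by
  induction l, h using Nat.le_induction with
  | base => exact fun z hz => hz
  | succ l _ ih =>
    intro z hz
    rw [pool_succ]
    exact sub_rnd z (ih z hz)

theorem pool_GM (ok : ∀ q ∈ FS, SqOK q) (hP : ∀ x ∈ P, GM FS x) (k : ℕ) :
    ∀ z ∈ pool FS V P k, GM FS z := by
  induction k with
  | zero => exact hP
  | succ k ih => rw [pool_succ]; exact rnd_GM ok ih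

theorem pool_sub (ok : ∀ q ∈ FS, SqOK q) (hP : ∀ x ∈ P, GM FS x) {E : Finset (Sym2 ℕ)}
    (hE : ∀ x ∈ P, fs x ⊆ E) (k : ℕ) : ∀ z ∈ pool FS V P k, fs z ⊆ E := by
  induction k with
  | zero => exact hE
  | succ k ih => rw [pool_succ]; exact rnd_sub ok (pool_GM ok hP k) ih

theorem pool_box (ok : ∀ q ∈ FS, SqOK q) (hP : ∀ x ∈ P, GM FS x) {v : ℕ} {a b : ℤ}
    (hE : ∀ x ∈ P, a ≤ dv (fs x) v ∧ dv (fs x) v ≤ b) (k : ℕ) :
    ∀ z ∈ pool FS V P k, a ≤ dv (fs z) v ∧ dv (fs z) v ≤ b := by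
  induction k with
  | zero => exact hE
  | succ k ih => rw [pool_succ]; exact rnd_box ok (pool_GM ok hP k) ih

/-- **the staged exchange property** -/
theorem pool_jump (ok : ∀ q ∈ FS, SqOK q) (hP : ∀ x ∈ P, GM FS x) {k : ℕ} {x y : List Ed}
    (hx : x ∈ pool FS V P k) (hy : y ∈ pool FS V P k) {i : ℕ} (hi : i ∈ V) {ε : ℤ}
    (hε : ε = 1 ∨ ε = -1) (h : 0 < ε * (dv (fs y) i - dv (fs x) i)) :
    ∃ z ∈ pool FS V P (k + 1), fs z ⊆ fs x ∪ fs y ∧ Two (dv (fs x)) (dv (fs y)) (dv (fs z)) i ε := by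
  rw [pool_succ]
  exact rnd_jump ok (pool_GM ok hP k) hx hy hi hε h

end

/-! ### polynomial time -/

section
variable {ι : Type} [DEnc ι]

theorem pt_exch1 {FS : ι → List Sq4} {x y : ι → List Ed} {i : ι → ℕ} {up : ι → Bool} (hF : PT FS)
    (hx : PT x) (hy : PT y) (hi : PT i) (hu : PT up) :
    PT (fun a => exch1 (FS a) (x a) (y a) (i a) (up a)) :=
  PT.cond (PT.cond hu (PT.nlt (pt_degL hx hi) (pt_degL hy hi)) (PT.nlt (pt_degL hy hi) (pt_degL hx hi)))
    (PT.cons (pt_exch hF hx hy hi hu) (PT.const [])) (PT.const [])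

theorem pt_rnd {FS : ι → List Sq4} {V : ι → List ℕ} {P : ι → List (List Ed)} (hF : PT FS) (hV : PT V)
    (hP : PT P) : PT (fun a => rnd (FS a) (V a) (P a)) := by
  have h3 : PT (fun z : ((ι × List Ed) × List Ed) × ℕ =>
      exch1 (FS z.1.1.1) z.1.1.2 z.1.2 z.2 true ++ exch1 (FS z.1.1.1) z.1.1.2 z.1.2 z.2 false) := by
    have e1 : PT (fun z : ((ι × List Ed) × List Ed) × ℕ => FS z.1.1.1) :=
      hF.comp (PT.fst.comp (PT.fst.comp PT.fst))
    have e2 : PT (fun z : ((ι × List Ed) × List Ed) × ℕ => z.1.1.2) :=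
      PT.snd.comp (PT.fst.comp PT.fst)
    have e3 : PT (fun z : ((ι × List Ed) × List Ed) × ℕ => z.1.2) := PT.snd.comp PT.fst
    exact PT.append (pt_exch1 e1 e2 e3 PT.snd (PT.const true)) (pt_exch1 e1 e2 e3 PT.snd (PT.const false))
  have h2 : PT (fun z : (ι × List Ed) × List Ed => (V z.1.1).flatMap fun i =>
      exch1 (FS z.1.1) z.1.2 z.2 i true ++ exch1 (FS z.1.1) z.1.2 z.2 i false) :=
    PT.flatMap (hV.comp (PT.fst.comp PT.fst)) h3
  have h1 : PT (fun z : ι × List Ed => (P z.1).flatMap fun y => (V z.1).flatMap fun i =>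
      exch1 (FS z.1) z.2 y i true ++ exch1 (FS z.1) z.2 y i false) :=
    PT.flatMap (hP.comp PT.fst) h2
  exact PT.append hP (PT.flatMap hP h1)

/-- a constant number of rounds -/
theorem pt_pool {FS : ι → List Sq4} {V : ι → List ℕ} {P : ι → List (List Ed)} (hF : PT FS) (hV : PT V)
    (hP : PT P) (k : ℕ) : PT (fun a => pool (FS a) (V a) (P a) k) := by
  induction k with
  | zero => exact hP
  | succ k ih =>
    refine (pt_rnd hF hV ih).congr fun a => ?_
    rw [pool_succ]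

end

end Pool.Agent.PF4
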