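import Pool.Agent.PF4.Inner
import Pool.Agent.PF4.Pool

/-!
The concrete data of the inner loop: squares of the graph, harmful squares, conflicts, breaking of the harmless squares,
the exchange. `SX` is the interface of the two missing functions (`solver`, `xf`), `SX.toIn` the resulting `InApi`.
-/

set_option autoImplicit false

namespace Pool.Agent.PF4

open Finset Pool.Agent.TFC Pool.Agent.Lib.helper60

/-- instances: number of vertices, list of edges -/
abbrev Ins := ℕ × List Ed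

/-- the edges of a square -/
def sqE (q : Sq4) : List Ed := [(q.1, q.2.1), (q.2.1, q.2.2.1), (q.2.2.1, q.2.2.2), (q.2.2.2, q.1)]

theorem fs_sqE (q : Sq4) : fs (sqE q) = sqs q := by
  ext x
  simp [fs, sqE, sqs, TFC.sq, fe]

theorem WF_sqE {q : Sq4} (h : SqOK q) : WF (sqE q) := by
  obtain ⟨a, b, c, d⟩ := q
  obtain ⟨h1, h2, h3, h4, h5, h6⟩ := h
  simp only at h1 h2 h3 h4 h5 h6
  unfold WF sqE fe
  simp only [List.map_cons, List.map_nil, List.nodup_cons, List.mem_cons, List.not_mem_nil, or_false,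
    Sym2.eq_iff, not_or, not_false_eq_true, List.nodup_nil, and_true]
  refine ⟨⟨?_, ?_, ?_⟩, ⟨?_, ?_⟩, ?_⟩ <;> tauto

/-- number of common edges -/
def com (q r : Sq4) : ℕ := (norm (sqE q) (sqE r)).length

theorem com_eq {q r : Sq4} (h : SqOK q) : com q r = #(sqs q ∩ sqs r) := by
  have h1 := card_fs ((WF_sqE h).norm (sqE r))
  rw [com, ← h1, fs_norm, fs_sqE, fs_sqE]

/-- exactly one common edge -/
def conf (q r : Sq4) : Bool := decide (com q r = 1)

/-- two opposite corners of demand 2 -/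
def harm (g : List ℕ) (q : Sq4) : Bool :=
  (decide (2 ≤ g.getD q.1 0) && decide (2 ≤ g.getD q.2.2.1 0)) ||
    (decide (2 ≤ g.getD q.2.1 0) && decide (2 ≤ g.getD q.2.2.2 0))

/-- canonical form of a square of the graph -/
def cano (x : Ins) (q : Sq4) : Bool :=
  (decide (q.1 < q.2.1) && (decide (q.1 < q.2.2.1) && decide (q.2.1 < q.2.2.2))) &&
    ((!decide (q.2.1 = q.2.2.1) && !decide (q.2.2.1 = q.2.2.2)) && sqIn x.2 q)

/-- all pairs -/
def prodL {α β : Type} (l : List α) (m : List β) : List (α × β) := l.flatMap fun a => m.map fun b => (a, b)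

theorem prodL_eq {α β : Type} (l : List α) (m : List β) : prodL l m = l.product m := rfl

/-- the squares of the graph -/
def sqG (x : Ins) : List Sq4 :=
  (prodL (List.range x.1) (prodL (List.range x.1) (prodL (List.range x.1) (List.range x.1)))).filter
    fun q => cano x q

theorem mem_prodL {α β : Type} {l : List α} {m : List β} {p : α × β} : p ∈ prodL l m ↔ p.1 ∈ l ∧ p.2 ∈ m := by
  obtain ⟨a, b⟩ := p
  simp only [prodL, List.mem_flatMap, List.mem_map, Prod.mk.injEq]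
  constructor
  · rintro ⟨a', h1, b', h2, rfl, rfl⟩
    exact ⟨h1, h2⟩
  · rintro ⟨h1, h2⟩
    exact ⟨a, h1, b, h2, rfl, rfl⟩

theorem mem_sqG {x : Ins} {q : Sq4} :
    q ∈ sqG x ↔ (q.1 < x.1 ∧ q.2.1 < x.1 ∧ q.2.2.1 < x.1 ∧ q.2.2.2 < x.1) ∧ cano x q = true := by
  simp only [sqG, List.mem_filter, mem_prodL, List.mem_range]

theorem cano_iff {x : Ins} {q : Sq4} : cano x q = true ↔
    (q.1 < q.2.1 ∧ q.1 < q.2.2.1 ∧ q.2.1 < q.2.2.2) ∧ (q.2.1 ≠ q.2.2.1 ∧ q.2.2.1 ≠ q.2.2.2) ∧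
      sqs q ⊆ fs x.2 := by
  simp only [cano, Bool.and_eq_true, decide_eq_true_eq, Bool.not_eq_true', decide_eq_false_iff_not,
    sqIn_iff, ne_eq]

theorem sqG_nodup (x : Ins) : (sqG x).Nodup := by
  refine List.Nodup.filter _ ?_
  have h : ∀ {α β : Type} {l : List α} {m : List β}, l.Nodup → m.Nodup → (prodL l m).Nodup :=
    fun h1 h2 => List.Nodup.product h1 h2
  have r := List.nodup_range (n := x.1)
  exact h r (h r (h r r))

theorem sqG_ok {x : Ins} : ∀ q ∈ sqG x, SqOK q := by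
  intro q hq
  obtain ⟨_, h⟩ := mem_sqG.1 hq
  obtain ⟨⟨h1, h2, h3⟩, ⟨h4, h5⟩, _⟩ := cano_iff.1 h
  exact ⟨by omega, by omega, by omega, h4, by omega, h5⟩

theorem sqG_sub {x : Ins} {q : Sq4} (hq : q ∈ sqG x) : sqs q ⊆ fs x.2 := (cano_iff.1 (mem_sqG.1 hq).2).2.2

/-- well-formed instances -/
structure InsWF (x : Ins) : Prop where
  wf : WF x.2
  nl : NoLoop (fs x.2)
  lt : ∀ e ∈ x.2, e.1 < x.1 ∧ e.2 < x.1

theorem InsWF.vlt {x : Ins} (h : InsWF x) {e : Sym2 ℕ} (he : e ∈ fs x.2) {v : ℕ} (hv : v ∈ e) : v < x.1 := by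
  obtain ⟨f, hf, rfl⟩ := mem_fs.1 he
  have := h.lt f hf
  rcases Sym2.mem_iff.1 hv with rfl | rfl
  · exact this.1
  · exact this.2

/-- every square of the graph has a canonical form -/
theorem sqG_full {x : Ins} (hx : InsWF x) {a b c d : ℕ} (h : Sq (fs x.2) a b c d) :
    ∃ q ∈ sqG x, sqs q = TFC.sq a b c d := by
  -- the case where `a` is least and `b < d`
  have key : ∀ a b c d : ℕ, Sq (fs x.2) a b c d → a < b → a < c → b < d →
      ∃ q ∈ sqG x, sqs q = TFC.sq a b c d := by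
    intro a b c d h h1 h2 h3
    obtain ⟨g1, g2, g3, g4, g5, g6⟩ := h.dist4 hx.nl
    refine ⟨(a, b, c, d), mem_sqG.2 ⟨⟨?_, ?_, ?_, ?_⟩, cano_iff.2 ⟨⟨h1, h2, h3⟩, ⟨g4, g6⟩, Sq.sub h⟩⟩, rfl⟩
    · exact hx.vlt h.ab (Sym2.mem_mk_left _ _)
    · exact hx.vlt h.ab (Sym2.mem_mk_right _ _)
    · exact hx.vlt h.bc (Sym2.mem_mk_right _ _)
    · exact hx.vlt h.cd (Sym2.mem_mk_right _ _)
  -- the case where `a` is least
  have key2 : ∀ a b c d : ℕ, Sq (fs x.2) a b c d → a < b → a < c → a < d →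
      ∃ q ∈ sqG x, sqs q = TFC.sq a b c d := by
    intro a b c d h h1 h2 h3
    rcases lt_or_gt_of_ne h.bd with h4 | h4
    · exact key a b c d h h1 h2 h4
    · obtain ⟨q, hq, e⟩ := key a d c b (h.ref.rot.rot.rot) h3 h2 h4
      refine ⟨q, hq, ?_⟩
      rw [e, ← sq_ref' a b c d, sq_rot']
      ext x; simp only [TFC.sq, Finset.mem_insert, Finset.mem_singleton]; tauto
  obtain ⟨g1, g2, g3, g4, g5, g6⟩ := h.dist4 hx.nl
  have c1 : (a < b ∧ a < c ∧ a < d) ∨ (b < c ∧ b < d ∧ b < a) ∨ (c < d ∧ c < a ∧ c < b) ∨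
      (d < a ∧ d < b ∧ d < c) := by omega
  rcases c1 with ⟨h1, h2, h3⟩ | ⟨h1, h2, h3⟩ | ⟨h1, h2, h3⟩ | ⟨h1, h2, h3⟩
  · exact key2 a b c d h h1 h2 h3
  · obtain ⟨q, hq, e⟩ := key2 b c d a h.rot h1 h2 h3
    exact ⟨q, hq, by rw [e, sq_rot']⟩
  · obtain ⟨q, hq, e⟩ := key2 c d a b h.rot.rot h1 h2 h3
    exact ⟨q, hq, by rw [e, sq_rot', sq_rot']⟩
  · obtain ⟨q, hq, e⟩ := key2 d a b c h.rot.rot.rot h1 h2 h3
    exact ⟨q, hq, by rw [e, sq_rot', sq_rot', sq_rot']⟩

theorem sq_other {q : Sq4} (h : SqOK q) {v a : ℕ} (he : s(v, a) ∈ sqs q) :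
    ∃ b, b ≠ a ∧ s(v, b) ∈ sqs q := by
  obtain ⟨p, q, r, s⟩ := q
  obtain ⟨h1, h2, h3, h4, h5, h6⟩ := h
  simp only at h1 h2 h3 h4 h5 h6
  simp only [sqs, TFC.sq, Finset.mem_insert, Finset.mem_singleton, Sym2.eq_iff] at he ⊢
  rcases he with (⟨rfl, rfl⟩ | ⟨rfl, rfl⟩) | (⟨rfl, rfl⟩ | ⟨rfl, rfl⟩) | (⟨rfl, rfl⟩ | ⟨rfl, rfl⟩) |
    (⟨rfl, rfl⟩ | ⟨rfl, rfl⟩)
  · exact ⟨s, fun h => h5 h.symm, by tauto⟩
  · exact ⟨r, fun h => h2 h.symm, by tauto⟩
  · exact ⟨p, h2, by tauto⟩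
  · exact ⟨s, fun h => h5 h.symm, by tauto⟩
  · exact ⟨q, h5, by tauto⟩
  · exact ⟨p, h2, by tauto⟩
  · exact ⟨r, fun h => h2 h.symm, by tauto⟩
  · exact ⟨q, h5, by tauto⟩

/-- two squares of a 2-matching have not exactly one edge in common -/
theorem conf_m2 {z : Finset (Sym2 ℕ)} (hz : M2 z) {q r : Sq4} (hq : SqOK q) (hr : SqOK r) (h1 : sqs q ⊆ z)
    (h2 : sqs r ⊆ z) : conf q r = false := by
  have hne : #(sqs q ∩ sqs r) ≠ 1 := by
    intro hc
    obtain ⟨e, he⟩ := Finset.card_eq_one.1 hc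
    have he1 : e ∈ sqs q ∩ sqs r := by rw [he]; exact Finset.mem_singleton_self _
    induction e using Sym2.ind with
    | _ v a =>
      obtain ⟨e1, e2⟩ := Finset.mem_inter.1 he1
      obtain ⟨b, hb, e3⟩ := sq_other hq e1
      obtain ⟨c, hc, e4⟩ := sq_other hr e2
      rcases nbr_two (hz.le v) (h1 e1) (h1 e3) (Ne.symm hb) (h2 e4) with h | h
      · exact hc h
      · subst h
        have h3 : s(v, c) ∈ sqs q ∩ sqs r := Finset.mem_inter.2 ⟨e3, e4⟩
        rw [he, Finset.mem_singleton] at h3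
        exact hc (sym2_inj_left h3)
  unfold conf
  rw [com_eq hq]
  simpa using hne

theorem conf_symm {q r : Sq4} (hq : SqOK q) (hr : SqOK r) : conf q r = conf r q := by
  unfold conf
  rw [com_eq hq, com_eq hr, Finset.inter_comm]

theorem conf_iff {q r : Sq4} (hq : SqOK q) : conf q r = true ↔ #(sqs q ∩ sqs r) = 1 := by
  unfold conf
  rw [com_eq hq, decide_eq_true_eq]

theorem sq_corner {z : Finset (Sym2 ℕ)} {q : Sq4} (h : SqOK q) (hz : sqs q ⊆ z) {v a : ℕ}
    (he : s(v, a) ∈ sqs q) : 2 ≤ dg z v := by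
  obtain ⟨b, hb, e⟩ := sq_other h he
  exact dg_ge_two (hz he) (hz e) (Ne.symm hb)

/-! ### breaking of the harmless squares -/

/-- an edge of the square with demand at most 1 at both ends -/
def brkE (g : List ℕ) (q : Sq4) : Ed :=
  findD (fun e => decide (g.getD e.1 0 ≤ 1) && decide (g.getD e.2 0 ≤ 1)) (sqE q) (0, 0)

theorem brkE_spec {g : List ℕ} {q : Sq4} (h : harm g q = false) :
    brkE g q ∈ sqE q ∧ g.getD (brkE g q).1 0 ≤ 1 ∧ g.getD (brkE g q).2 0 ≤ 1 := by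
  have h1 : ∃ e ∈ sqE q, (decide (g.getD e.1 0 ≤ 1) && decide (g.getD e.2 0 ≤ 1)) = true := by
    obtain ⟨a, b, c, d⟩ := q
    simp only [harm, Bool.or_eq_false_iff, Bool.and_eq_false_iff, decide_eq_false_iff_not, not_le] at h
    obtain ⟨h1, h2⟩ := h
    simp only [Bool.and_eq_true, decide_eq_true_eq]
    unfold sqE
    rcases h1 with h1 | h1 <;> rcases h2 with h2 | h2
    · exact ⟨(a, b), by simp, by simp only; omega, by simp only; omega⟩
    · exact ⟨(d, a), by simp, by simp only; omega, by simp only; omega⟩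
    · exact ⟨(b, c), by simp, by simp only; omega, by simp only; omega⟩
    · exact ⟨(c, d), by simp, by simp only; omega, by simp only; omega⟩
  have h2 := findD_spec _ _ (0, 0) h1
  simp only [Bool.and_eq_true, decide_eq_true_eq] at h2
  exact h2

/-- one step of the breaking -/
def brk1 (g : List ℕ) (N : List Ed) (q : Sq4) : List Ed := bif sqIn N q then ersE N (brkE g q) else N

/-- break all squares of the list -/
def brk (g : List ℕ) (l : List Sq4) (N : List Ed) : List Ed := l.foldl (brk1 g) N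

theorem brk1_spec {g : List ℕ} {N : List Ed} {q : Sq4} (hq : SqOK q)
    (hh : harm g q = true → ¬ sqs q ⊆ fs N) (hN : WF N) {n : ℕ} (hc : Cov n g (degL N)) :
    WF (brk1 g N q) ∧ fs (brk1 g N q) ⊆ fs N ∧ Cov n g (degL (brk1 g N q)) ∧
      ¬ sqs q ⊆ fs (brk1 g N q) := by
  unfold brk1
  cases h : sqIn N q with
  | false =>
    simp only [cond_false]
    refine ⟨hN, subset_rfl, hc, ?_⟩
    rw [← sqIn_iff, h]; simp
  | true =>
    simp only [cond_true]
    have hs := (sqIn_iff N q).1 h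
    have hf : harm g q = false := by
      cases h' : harm g q with
      | false => rfl
      | true => exact absurd hs (hh h')
    obtain ⟨e1, e2, e3⟩ := brkE_spec hf
    rcases hab : brkE g q with ⟨a, b⟩
    rw [hab] at e1 e2 e3
    have e4 : s(a, b) ∈ sqs q := by
      rw [← fs_sqE]; exact fe_mem_fs e1
    have e5 : s(b, a) ∈ sqs q := msw e4
    refine ⟨hN.ersE _, ?_, ?_, ?_⟩
    · rw [fs_ersE]; exact Finset.erase_subset _ _
    · intro u hu
      have h1 := hc u hu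
      rw [degL_eq hN] at h1
      rw [degL_eq (hN.ersE _), fs_ersE]
      have h2 := dg_erase (hs e4) u
      show _ ≤ dg ((fs N).erase s(a, b)) u
      by_cases h3 : u ∈ s(a, b)
      · rw [if_pos h3] at h2
        rcases Sym2.mem_iff.1 h3 with rfl | rfl
        · have h4 := sq_corner hq hs e4
          simp only at e2
          omega
        · have h4 := sq_corner hq hs e5
          simp only at e3
          omega
      · rw [if_neg h3] at h2
        omega
    · intro h1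
      have h2 := h1 e4
      rw [fs_ersE] at h2
      exact Finset.notMem_erase _ _ h2

theorem brk_spec (g : List ℕ) (n : ℕ) : ∀ (l : List Sq4) (N : List Ed), (∀ q ∈ l, SqOK q) →
    (∀ q ∈ l, harm g q = true → ¬ sqs q ⊆ fs N) → WF N → Cov n g (degL N) →
    WF (brk g l N) ∧ fs (brk g l N) ⊆ fs N ∧ Cov n g (degL (brk g l N)) ∧
      ∀ q ∈ l, ¬ sqs q ⊆ fs (brk g l N) := by
  intro l
  induction l with
  | nil => exact fun N _ _ h1 h2 => ⟨h1, subset_rfl, h2, by simp⟩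
  | cons q l ih =>
    intro N hok hh hN hc
    obtain ⟨h1, h2, h3, h4⟩ := brk1_spec (hok q List.mem_cons_self) (hh q List.mem_cons_self) hN hc
    obtain ⟨k1, k2, k3, k4⟩ := ih (brk1 g N q) (fun r hr => hok r (List.mem_cons_of_mem _ hr))
      (fun r hr hr' hs => hh r (List.mem_cons_of_mem _ hr) hr' (hs.trans h2)) h1 h3
    refine ⟨k1, k2.trans h2, k3, ?_⟩
    intro r hr
    rcases List.mem_cons.1 hr with rfl | hr
    · exact fun hs => h4 (hs.trans k2)
    · exact k4 r hr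

theorem tsize_brk (g : List ℕ) : ∀ (l : List Sq4) (N : List Ed), tsize (brk g l N) ≤ tsize N := by
  intro l
  induction l with
  | nil => exact fun N => le_rfl
  | cons q l ih =>
    intro N
    refine (ih (brk1 g N q)).trans ?_
    unfold brk1
    cases sqIn N q with
    | false => exact le_rfl
    | true => exact tsize_filter_le _ _

section
variable {ι : Type} [DEnc ι]

theorem pt_sqE {q : ι → Sq4} (hq : PT q) : PT (fun x => sqE (q x)) := by
  have h1 := PT.p1 hq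
  have h2 := PT.p1 (PT.p2 hq)
  have h3 := PT.p1 (PT.p2 (PT.p2 hq))
  have h4 := PT.p2 (PT.p2 (PT.p2 hq))
  exact PT.cons (PT.pair h1 h2) (PT.cons (PT.pair h2 h3) (PT.cons (PT.pair h3 h4)
    (PT.cons (PT.pair h4 h1) (PT.const []))))

theorem pt_conf {q r : ι → Sq4} (hq : PT q) (hr : PT r) : PT (fun x => conf (q x) (r x)) :=
  PT.neq (PT.length (pt_norm (pt_sqE hq) (pt_sqE hr))) (PT.const 1)

theorem pt_harm {g : ι → List ℕ} {q : ι → Sq4} (hg : PT g) (hq : PT q) :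
    PT (fun x => harm (g x) (q x)) := by
  have h1 := PT.p1 hq
  have h2 := PT.p1 (PT.p2 hq)
  have h3 := PT.p1 (PT.p2 (PT.p2 hq))
  have h4 := PT.p2 (PT.p2 (PT.p2 hq))
  have k : ∀ {v : ι → ℕ}, PT v → PT (fun x => decide (2 ≤ (g x).getD (v x) 0)) := fun hv =>
    PT.nle (PT.const 2) (PT.getD hg hv (PT.const 0))
  exact PT.bor (PT.band (k h1) (k h3)) (PT.band (k h2) (k h4))

theorem pt_cano {x : ι → Ins} {q : ι → Sq4} (hx : PT x) (hq : PT q) : PT (fun y => cano (x y) (q y)) := by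
  have h1 := PT.p1 hq
  have h2 := PT.p1 (PT.p2 hq)
  have h3 := PT.p1 (PT.p2 (PT.p2 hq))
  have h4 := PT.p2 (PT.p2 (PT.p2 hq))
  exact PT.band (PT.band (PT.nlt h1 h2) (PT.band (PT.nlt h1 h3) (PT.nlt h2 h4)))
    (PT.band (PT.band (PT.bnot (PT.neq h2 h3)) (PT.bnot (PT.neq h3 h4))) (pt_sqIn (PT.p2 hx) hq))

theorem pt_prodL {α β : Type} [DEnc α] [DEnc β] {l : ι → List α} {m : ι → List β} (hl : PT l) (hm : PT m) :
    PT (fun x => prodL (l x) (m x)) :=
  PT.flatMap (g := fun z : ι × α => (m z.1).map fun b => (z.2, b)) hl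
    (PT.map (g := fun w : (ι × α) × β => (w.1.2, w.2)) (hm.comp PT.fst) (PT.pair PT.fst.p2 PT.snd))

theorem pt_sqG {x : ι → Ins} (hx : PT x) : PT (fun y => sqG (x y)) := by
  have r : PT (fun y => List.range (x y).1) := PT.range (PT.p1 hx)
  exact PT.filter (p := fun z : ι × Sq4 => cano (x z.1) z.2) (pt_prodL r (pt_prodL r (pt_prodL r r)))
    (pt_cano (hx.comp PT.fst) PT.snd)

theorem pt_brkE {g : ι → List ℕ} {q : ι → Sq4} (hg : PT g) (hq : PT q) : PT (fun x => brkE (g x) (q x)) := by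
  refine pt_findD (p := fun z : ι × Ed => decide ((g z.1).getD z.2.1 0 ≤ 1) && decide ((g z.1).getD z.2.2 0 ≤ 1))
    ?_ (pt_sqE hq) (PT.const (0, 0))
  have hg' : PT (fun z : ι × Ed => g z.1) := hg.comp PT.fst
  exact PT.band (PT.nle (PT.getD hg' PT.snd.p1 (PT.const 0)) (PT.const 1))
    (PT.nle (PT.getD hg' PT.snd.p2 (PT.const 0)) (PT.const 1))

theorem pt_brk1 {g : ι → List ℕ} {N : ι → List Ed} {q : ι → Sq4} (hg : PT g) (hN : PT N) (hq : PT q) :
    PT (fun x => brk1 (g x) (N x) (q x)) := PT.cond (pt_sqIn hN hq) (pt_ersE hN (pt_brkE hg hq)) hN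

theorem pt_brk {g : ι → List ℕ} {l : ι → List Sq4} {N : ι → List Ed} (hg : PT g) (hl : PT l) (hN : PT N) :
    PT (fun x => brk (g x) (l x) (N x)) := by
  refine PT.foldl (g := fun z : ι × List Ed × Sq4 => brk1 (g z.1) z.2.1 z.2.2) hl hN
    (pt_brk1 (hg.comp PT.fst) PT.snd.p1 PT.snd.p2) ⟨fun x => tsize (N x), hN.size, ?_⟩
  intro x l₁ l₂ _
  exact tsize_brk (g x) l₁ (N x)

end

end Pool.Agent.PF4
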