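import Pool.Agent.PF4.PTB
import Pool.Agent.TFC.JumpJS

/-!
The exchange as a polynomial time function.
-/

set_option autoImplicit false

namespace Pool.Agent.PF4

open Finset Pool.Agent.TFC Pool.Agent.Lib.helper60

/-- `1` if `v = w` -/
def one (v w : ℕ) : ℕ := bif decide (v = w) then 1 else 0

/-- the vector `deg A ± e_i` -/
def tau (A : List Ed) (i : ℕ) (up : Bool) (v : ℕ) : ℕ :=
  bif up then degL A v + one v i else degL A v - one v i

/-- the end vertices of the edges of a list -/
def ends (A : List Ed) : List ℕ := A.flatMap fun e => [e.1, e.2]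

/-- the relevant vertices -/
def vts (A B : List Ed) (i : ℕ) : List ℕ := i :: (ends A ++ ends B)

/-- `deg L = tau - e_w` -/
def eqDef (A B : List Ed) (i : ℕ) (up : Bool) (L : List Ed) (w : ℕ) : Bool :=
  (vts A B i).all fun v => decide (degL L v + one v w = tau A i up v)

/-- `deg L = tau + e_c` -/
def eqSur (A B : List Ed) (i : ℕ) (up : Bool) (L : List Ed) (c : ℕ) : Bool :=
  (vts A B i).all fun v => decide (degL L v = tau A i up v + one v c)

/-- `L` is a final result -/
def isFin (A B : List Ed) (i : ℕ) (up : Bool) (L : List Ed) : Bool :=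
  ((vts A B i).any fun w => eqDef A B i up L w && decide (degL B w < tau A i up w)) ||
    ((vts A B i).any fun c => eqSur A B i up L c && decide (tau A i up c < degL B c))

/-- distance -/
def distL (L B : List Ed) : ℕ := (rest L B).length + (rest B L).length

/-- progress from `L` to `L'` -/
def isProg (A B : List Ed) (i : ℕ) (up : Bool) (L L' : List Ed) : Bool :=
  ((vts A B i).any fun w => eqDef A B i up L' w) && decide (distL L' B < distL L B)

/-- all degrees are at most 2 -/
def le2 (W : List ℕ) (L : List Ed) : Bool := W.all fun v => decide (degL L v ≤ 2)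

/-- `L'` is an admissible successor of `L` -/
def isVal (FS : List Sq4) (A B : List Ed) (i : ℕ) (up : Bool) (L L' : List Ed) : Bool :=
  le2 (ends L') L' && (freeL FS L' && (isFin A B i up L' || isProg A B i up L L'))

/-- nothing or one edge -/
def opts (l : List Ed) : List (List Ed) := [] :: l.map fun e => [e]

/-- insert an edge of `B` -/
def stI (L B : List Ed) : List (List Ed) := B.map fun e => insE L e

/-- perhaps delete an edge -/
def stD (Ls O : List (List Ed)) : List (List Ed) := Ls.flatMap fun L => O.map fun o => rest L o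

/-- perhaps insert an edge -/
def stU (Ls O : List (List Ed)) : List (List Ed) := Ls.flatMap fun L => O.map fun o => uni L o

/-- all candidates -/
def cand (L B : List Ed) : List (List Ed) :=
  stD (stU (stD (stI L B) (opts (L ++ B))) (opts B)) (opts (L ++ B))

/-- one step -/
def xstep (FS : List Sq4) (A B : List Ed) (i : ℕ) (up : Bool) (L : List Ed) : List Ed :=
  bif isFin A B i up L then L
  else norm (uni A B) (findD (fun L' => isVal FS A B i up L L') (cand L B) L)

/-- the start -/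
def xinit (A B : List Ed) (i : ℕ) (up : Bool) : List Ed :=
  bif up then A else ersE A (findD (fun e => inc i e && !hasE B e) A (0, 0))

/-- **the exchange** -/
def exch (FS : List Sq4) (A B : List Ed) (i : ℕ) (up : Bool) : List Ed :=
  (xstep FS A B i up)^[A.length + B.length + 1] (xinit A B i up)

/-! ### correctness -/

theorem one_eq (v w : ℕ) : (one v w : ℤ) = ev w v := by
  rw [one, ev_apply]
  by_cases h : v = w <;> simp [h]

theorem mem_ends {A : List Ed} {v : ℕ} : v ∈ ends A ↔ ∃ x ∈ fs A, v ∈ x := by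
  rw [ends, List.mem_flatMap]
  constructor
  · rintro ⟨e, he, hv⟩
    refine ⟨fe e, fe_mem_fs he, ?_⟩
    simp only [List.mem_cons, List.not_mem_nil, or_false] at hv
    rw [fe, Sym2.mem_iff]
    exact hv
  · rintro ⟨x, hx, hv⟩
    obtain ⟨e, he, rfl⟩ := mem_fs.1 hx
    refine ⟨e, he, ?_⟩
    rw [fe, Sym2.mem_iff] at hv
    simpa using hv

theorem dg_eq_zero {z : Finset (Sym2 ℕ)} {A : List Ed} {v : ℕ} (h : z ⊆ fs A) (hv : v ∉ ends A) :
    dg z v = 0 := by
  rw [dg, Finset.card_eq_zero, Finset.filter_eq_empty_iff]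
  intro x hx hvx
  exact hv (mem_ends.2 ⟨x, h hx, hvx⟩)

theorem dg_eq_zero' {z : Finset (Sym2 ℕ)} {A B : List Ed} {i v : ℕ} (h : z ⊆ fs A ∪ fs B)
    (hv : v ∉ vts A B i) : dg z v = 0 := by
  rw [dg, Finset.card_eq_zero, Finset.filter_eq_empty_iff]
  intro x hx hvx
  apply hv
  rw [vts, List.mem_cons, List.mem_append, mem_ends, mem_ends]
  rcases Finset.mem_union.1 (h hx) with h1 | h1
  · exact Or.inr (Or.inl ⟨x, h1, hvx⟩)
  · exact Or.inr (Or.inr ⟨x, h1, hvx⟩)

/-- the sign -/
def sgn (up : Bool) : ℤ := bif up then 1 else -1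

/-- the data and hypotheses of an exchange -/
structure XH (FS : List Sq4) (A B : List Ed) (i : ℕ) (up : Bool) : Prop where
  ok : ∀ q ∈ FS, SqOK q
  wa : WF A
  wb : WF B
  ma : M2 (fs A)
  mb : M2 (fs B)
  ga : Good (alF FS) (fs A)
  gb : Good (alF FS) (fs B)
  lt : 0 < sgn up * (dv (fs B) i - dv (fs A) i)

/-- the target vector -/
def TT (A : List Ed) (i : ℕ) (up : Bool) : ℕ → ℤ := dv (fs A) + Pi.single i (sgn up)

section
variable {FS : List Sq4} {A B : List Ed} {i : ℕ} {up : Bool}

theorem TT_apply (A : List Ed) (i : ℕ) (up : Bool) (v : ℕ) :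
    TT A i up v = dv (fs A) v + sgn up * ev i v := by
  rw [TT, Pi.add_apply, ev_apply]
  by_cases h : v = i
  · subst h; simp
  · simp [h]

theorem XH.tau (H : XH FS A B i up) (v : ℕ) : (tau A i up v : ℤ) = TT A i up v := by
  have hl := H.lt
  have hb : 0 ≤ dv (fs B) i := by rw [dv_apply]; positivity
  rw [TT_apply, ← one_eq, dv_apply, ← degL_eq H.wa]
  rw [dv_apply (fs A) i, ← degL_eq H.wa] at hl
  unfold PF4.tau sgn at *
  cases up with
  | true => simp
  | false =>
    simp only [cond_false, neg_mul, one_mul] at hl ⊢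
    have h1 : one v i ≤ degL A v := by
      unfold one
      by_cases h : v = i
      · subst h; simp only [decide_true, cond_true]; omega
      · simp [h]
    omega

theorem XH.le (H : XH FS A B i up) (v : ℕ) : TT A i up v ≤ 2 := by
  have h1 := H.ma.le v
  have h2 := H.mb.le i
  have hl := H.lt
  rw [TT_apply, ev_apply, dv_apply]
  simp only [dv_apply] at hl
  unfold sgn at *
  cases up with
  | true =>
    simp only [cond_true, one_mul] at hl ⊢
    split_ifs with h
    · subst h; omega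
    · omega
  | false =>
    simp only [cond_false, neg_mul, one_mul]
    split_ifs <;> omega

theorem XH.out (H : XH FS A B i up) {v : ℕ} (hv : v ∉ vts A B i) : TT A i up v = 0 := by
  have h1 : dg (fs A) v = 0 := dg_eq_zero' (B := B) (i := i) Finset.subset_union_left hv
  have h2 : v ≠ i := by rintro rfl; exact hv List.mem_cons_self
  have := H.wa
  rw [TT_apply, dv_apply, h1, ev_ne h2]
  simp

theorem XH.def_iff (H : XH FS A B i up) {L : List Ed} (hL : WF L) (hs : fs L ⊆ fs A ∪ fs B) {w : ℕ}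
    (hw : w ∈ vts A B i) :
    eqDef A B i up L w = true ↔ dv (fs L) = TT A i up - ev w := by
  simp only [eqDef, List.all_eq_true, decide_eq_true_eq]
  constructor
  · intro h
    funext v
    by_cases hv : v ∈ vts A B i
    · have h1 := h v hv
      rw [Pi.sub_apply, ← H.tau, ← one_eq, dv_apply, ← degL_eq hL]
      omega
    · have h2 : v ≠ w := by rintro rfl; exact hv hw
      rw [Pi.sub_apply, H.out hv, ev_ne h2, dv_apply, dg_eq_zero' hs hv]
      simp
  · intro h v hv
    have h1 := congrFun h v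
    rw [Pi.sub_apply, ← H.tau, ← one_eq, dv_apply, ← degL_eq hL] at h1
    omega

theorem XH.sur_iff (H : XH FS A B i up) {L : List Ed} (hL : WF L) (hs : fs L ⊆ fs A ∪ fs B) {c : ℕ}
    (hc : c ∈ vts A B i) :
    eqSur A B i up L c = true ↔ dv (fs L) = TT A i up + ev c := by
  simp only [eqSur, List.all_eq_true, decide_eq_true_eq]
  constructor
  · intro h
    funext v
    by_cases hv : v ∈ vts A B i
    · have h1 := h v hv
      rw [Pi.add_apply, ← H.tau, ← one_eq, dv_apply, ← degL_eq hL]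
      omega
    · have h2 : v ≠ c := by rintro rfl; exact hv hc
      rw [Pi.add_apply, H.out hv, ev_ne h2, dv_apply, dg_eq_zero' hs hv]
      simp
  · intro h v hv
    have h1 := congrFun h v
    rw [Pi.add_apply, ← H.tau, ← one_eq, dv_apply, ← degL_eq hL] at h1
    omega

/-- final results -/
def FinP (A B : List Ed) (i : ℕ) (up : Bool) (z : Finset (Sym2 ℕ)) : Prop :=
  (∃ w, dv z = TT A i up - ev w ∧ dv (fs B) w < TT A i up w) ∨
    (∃ c, dv z = TT A i up + ev c ∧ TT A i up c < dv (fs B) c)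

theorem XH.defmem (H : XH FS A B i up) {z : Finset (Sym2 ℕ)} {w : ℕ}
    (h : dv z = TT A i up - ev w) : w ∈ vts A B i := by
  by_contra hw
  have h1 := congrFun h w
  rw [Pi.sub_apply, H.out hw, ev_self, dv_apply] at h1
  omega

theorem XH.fin_iff (H : XH FS A B i up) {L : List Ed} (hL : WF L) (hs : fs L ⊆ fs A ∪ fs B) :
    isFin A B i up L = true ↔ FinP A B i up (fs L) := by
  simp only [isFin, FinP, Bool.or_eq_true, List.any_eq_true, Bool.and_eq_true, decide_eq_true_eq]
  refine or_congr ?_ ?_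
  · constructor
    · rintro ⟨w, hw, h1, h2⟩
      refine ⟨w, (H.def_iff hL hs hw).1 h1, ?_⟩
      rw [← H.tau, dv_apply, ← degL_eq H.wb]
      exact_mod_cast h2
    · rintro ⟨w, h1, h2⟩
      have hw := H.defmem h1
      refine ⟨w, hw, (H.def_iff hL hs hw).2 h1, ?_⟩
      rw [← H.tau, dv_apply, ← degL_eq H.wb] at h2
      exact_mod_cast h2
  · constructor
    · rintro ⟨c, hc, h1, h2⟩
      refine ⟨c, (H.sur_iff hL hs hc).1 h1, ?_⟩
      rw [← H.tau, dv_apply, ← degL_eq H.wb]
      exact_mod_cast h2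
    · rintro ⟨c, h1, h2⟩
      have hc : c ∈ vts A B i := by
        by_contra hc
        have h3 := congrFun h1 c
        rw [Pi.add_apply, H.out hc, ev_self, dv_apply, dg_eq_zero' hs hc] at h3
        simp at h3
      refine ⟨c, hc, (H.sur_iff hL hs hc).2 h1, ?_⟩
      rw [← H.tau, dv_apply, ← degL_eq H.wb] at h2
      exact_mod_cast h2

theorem distL_eq {L B : List Ed} (hL : WF L) (hB : WF B) :
    distL L B = #(fs L \ fs B) + #(fs B \ fs L) := by
  rw [distL, ← fs_rest, ← fs_rest, card_fs (hL.rest B), card_fs (hB.rest L)]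

/-- the common part of the invariant -/
structure Inv0 (FS : List Sq4) (A B : List Ed) (L : List Ed) : Prop where
  wf : WF L
  sub : fs L ⊆ fs A ∪ fs B
  m2 : M2 (fs L)
  gd : Good (alF FS) (fs L)

theorem le2_iff {L : List Ed} (hL : WF L) : le2 (ends L) L = true ↔ ∀ v, dg (fs L) v ≤ 2 := by
  simp only [le2, List.all_eq_true, decide_eq_true_eq]
  constructor
  · intro h v
    by_cases hv : v ∈ ends L
    · rw [← degL_eq hL]; exact h v hv
    · rw [dg_eq_zero (Finset.Subset.refl _) hv]; omega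
  · intro h v _
    rw [degL_eq hL]; exact h v

theorem mem_opts {l o : List Ed} : o ∈ opts l ↔ o = [] ∨ ∃ e ∈ l, o = [e] := by
  rw [opts, List.mem_cons, List.mem_map]
  constructor
  · rintro (h | ⟨e, he, h⟩)
    · exact Or.inl h
    · exact Or.inr ⟨e, he, h.symm⟩
  · rintro (h | ⟨e, he, h⟩)
    · exact Or.inl h
    · exact Or.inr ⟨e, he, h.symm⟩

theorem WF.single (e : Ed) : WF [e] := List.nodup_singleton _

theorem opts_wf {l o : List Ed} (h : o ∈ opts l) : WF o ∧ fs o ⊆ fs l := by
  rcases mem_opts.1 h with rfl | ⟨e, he, rfl⟩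
  · exact ⟨WF.nil, by simp [fs_nil]⟩
  · refine ⟨WF.single e, ?_⟩
    rw [fs_cons, fs_nil]
    intro x hx
    simp only [insert_empty_eq, Finset.mem_singleton] at hx
    rw [hx]; exact fe_mem_fs he

theorem mem_cand {L B f : List Ed} : f ∈ cand L B ↔ ∃ e ∈ B, ∃ o2 ∈ opts (L ++ B), ∃ o3 ∈ opts B,
    ∃ o4 ∈ opts (L ++ B), f = rest (uni (rest (insE L e) o2) o3) o4 := by
  simp only [cand, stD, stU, stI, List.mem_flatMap, List.mem_map]
  constructor
  · rintro ⟨l3, ⟨l2, ⟨l1, ⟨e, he, rfl⟩, o2, h2, rfl⟩, o3, h3, rfl⟩, o4, h4, rfl⟩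
    exact ⟨e, he, o2, h2, o3, h3, o4, h4, rfl⟩
  · rintro ⟨e, he, o2, h2, o3, h3, o4, h4, rfl⟩
    exact ⟨_, ⟨_, ⟨_, ⟨e, he, rfl⟩, o2, h2, rfl⟩, o3, h3, rfl⟩, o4, h4, rfl⟩

theorem cand_ok {L B f : List Ed} (hL : WF L) (h : f ∈ cand L B) :
    WF f ∧ fs f ⊆ fs L ∪ fs B := by
  obtain ⟨e, he, o2, h2, o3, h3, o4, h4, rfl⟩ := mem_cand.1 h
  refine ⟨((((hL.insE e).rest o2).uni (opts_wf h3).1).rest o4), ?_⟩
  rw [fs_rest, fs_uni, fs_rest, fs_insE]
  intro x hx
  rw [Finset.mem_sdiff, Finset.mem_union, Finset.mem_sdiff, Finset.mem_insert] at hx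
  rcases hx.1 with ⟨rfl | h, _⟩ | h
  · exact Finset.mem_union_right _ (fe_mem_fs he)
  · exact Finset.mem_union_left _ h
  · exact Finset.mem_union_right _ ((opts_wf h3).2 h)

theorem opt_exists {l : List Ed} {o : Option (Sym2 ℕ)} (h : OIn o (fs l)) :
    ∃ o' ∈ opts l, (∀ M, fs (rest M o') = ersO o (fs M)) ∧ (∀ M, fs (uni M o') = insO o (fs M)) := by
  cases o with
  | none =>
    refine ⟨[], mem_opts.2 (Or.inl rfl), fun M => ?_, fun M => ?_⟩
    · rw [fs_rest, fs_nil, Finset.sdiff_empty]; rfl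
    · rw [fs_uni, fs_nil, Finset.union_empty]; rfl
  | some x =>
    obtain ⟨e, he, rfl⟩ := mem_fs.1 (h x rfl)
    refine ⟨[e], mem_opts.2 (Or.inr ⟨e, he, rfl⟩), fun M => ?_, fun M => ?_⟩
    · rw [fs_rest, fs_cons, fs_nil]
      show fs M \ {fe e} = (fs M).erase (fe e)
      rw [Finset.sdiff_singleton_eq_erase]
    · rw [fs_uni, fs_cons, fs_nil]
      show fs M ∪ {fe e} = insert (fe e) (fs M)
      rw [Finset.union_comm]; rfl

theorem XH.val_iff (H : XH FS A B i up) {L f : List Ed} (hL : WF L) (hf : WF f) (hn : NoLoop (fs f))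
    (hs : fs f ⊆ fs A ∪ fs B) : isVal FS A B i up L f = true ↔
      M2 (fs f) ∧ Good (alF FS) (fs f) ∧ (FinP A B i up (fs f) ∨
        ((∃ w, dv (fs f) = TT A i up - ev w) ∧
          #(fs f \ fs B) + #(fs B \ fs f) < #(fs L \ fs B) + #(fs B \ fs L))) := by
  rw [isVal, Bool.and_eq_true, Bool.and_eq_true, Bool.or_eq_true, le2_iff hf, freeL_good H.ok,
    H.fin_iff hf hs, isProg, Bool.and_eq_true, decide_eq_true_eq, distL_eq hf H.wb, distL_eq hL H.wb,
    List.any_eq_true]
  refine and_congr ⟨fun h => ⟨hn, h⟩, fun h => h.le⟩ (and_congr Iff.rfl (or_congr Iff.rfl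
    (and_congr ?_ Iff.rfl)))
  constructor
  · rintro ⟨w, hw, h⟩
    exact ⟨w, (H.def_iff hf hs hw).1 h⟩
  · rintro ⟨w, h⟩
    have hw := H.defmem h
    exact ⟨w, hw, (H.def_iff hf hs hw).2 h⟩

theorem XH.step (H : XH FS A B i up) {L : List Ed} (hI : Inv0 FS A B L)
    (hz : FinP A B i up (fs L) ∨ ∃ z, dv (fs L) = TT A i up - ev z) :
    Inv0 FS A B (xstep FS A B i up L) ∧ (FinP A B i up (fs (xstep FS A B i up L)) ∨
      ((∃ z, dv (fs (xstep FS A B i up L)) = TT A i up - ev z) ∧
        distL (xstep FS A B i up L) B < distL L B)) := by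
  have hn : NoLoop (fs A ∪ fs B) := by
    intro x hx
    rcases Finset.mem_union.1 hx with h | h
    · exact H.ma.nl x h
    · exact H.mb.nl x h
  unfold xstep
  cases hf : isFin A B i up L with
  | true =>
    rw [H.fin_iff hI.wf hI.sub] at hf
    exact ⟨hI, Or.inl hf⟩
  | false =>
    have hnf : ¬ FinP A B i up (fs L) := by
      rw [← H.fin_iff hI.wf hI.sub, hf]; simp
    obtain ⟨z, hz⟩ := hz.resolve_left hnf
    have h0 : TT A i up z ≤ dv (fs B) z := by
      by_contra h
      exact hnf (Or.inl ⟨z, hz, not_le.1 h⟩)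
    obtain ⟨x1, hx1, o2, ho2, o3, ho3, o4, ho4, hm, hg, hr⟩ :=
      wstep (alF_sym FS) H.mb H.gb H.le hI.m2 hI.gd hz h0
    obtain ⟨e1, he1, rfl⟩ := mem_fs.1 hx1
    rw [← fs_append] at ho2 ho4
    obtain ⟨p2, hp2, hp2e, -⟩ := opt_exists ho2
    obtain ⟨p3, hp3, -, hp3e⟩ := opt_exists ho3
    obtain ⟨p4, hp4, hp4e, -⟩ := opt_exists ho4
    have hc : rest (uni (rest (insE L e1) p2) p3) p4 ∈ cand L B :=
      mem_cand.2 ⟨e1, he1, p2, hp2, p3, hp3, p4, hp4, rfl⟩
    have hce : fs (rest (uni (rest (insE L e1) p2) p3) p4) =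
        ersO o4 (insO o3 (ersO o2 (insert (fe e1) (fs L)))) := by
      rw [hp4e, hp3e, hp2e, fs_insE]
    have hsubc : ∀ f ∈ cand L B, fs f ⊆ fs A ∪ fs B := fun f hf =>
      (cand_ok hI.wf hf).2.trans (Finset.union_subset hI.sub Finset.subset_union_right)
    have hv : isVal FS A B i up L (rest (uni (rest (insE L e1) p2) p3) p4) = true := by
      rw [H.val_iff hI.wf (cand_ok hI.wf hc).1 (hn.mono (hsubc _ hc)) (hsubc _ hc), hce]
      refine ⟨hm, hg, ?_⟩
      rcases hr with ⟨w, hw, h1 | h1⟩ | ⟨c, h1, h2⟩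
      · exact Or.inl (Or.inl ⟨w, hw, h1⟩)
      · exact Or.inr ⟨⟨w, hw⟩, h1⟩
      · exact Or.inl (Or.inr ⟨c, h1, h2⟩)
    obtain ⟨hf1, hf2⟩ := findD_spec (fun L' => isVal FS A B i up L L') (cand L B) L ⟨_, hc, hv⟩
    set f := findD (fun L' => isVal FS A B i up L L') (cand L B) L with hfdef
    have hwf : WF f := (cand_ok hI.wf hf1).1
    have hsf := hsubc f hf1
    rw [H.val_iff hI.wf hwf (hn.mono hsf) hsf] at hf2
    have hU : fs f ⊆ fs (uni A B) := by rw [fs_uni]; exact hsf
    have he : fs (norm (uni A B) f) = fs f := fs_norm_of hU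
    have hw2 : WF (norm (uni A B) f) := (H.wa.uni H.wb).norm f
    simp only [cond_false]
    refine ⟨⟨hw2, by rw [he]; exact hsf, by rw [he]; exact hf2.1, by rw [he]; exact hf2.2.1⟩, ?_⟩
    rw [distL_eq hw2 H.wb, distL_eq hI.wf H.wb, he]
    exact hf2.2.2

theorem XH.init (H : XH FS A B i up) : Inv0 FS A B (xinit A B i up) ∧
    (∃ z, dv (fs (xinit A B i up)) = TT A i up - ev z) := by
  have hl := H.lt
  unfold xinit
  cases up with
  | true =>
    refine ⟨⟨H.wa, Finset.subset_union_left, H.ma, H.ga⟩, i, ?_⟩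
    simp only [cond_true, TT, sgn]
    rw [single_one]; abel
  | false =>
    have hlt : dg (fs B) i < dg (fs A) i := by
      simp only [sgn, cond_false, dv_apply] at hl
      omega
    obtain ⟨u, hu1, hu2⟩ := exists_nbr_notMem hlt
    obtain ⟨e, he, hee⟩ := mem_fs.1 hu1
    have hp : (inc i e && !hasE B e) = true := by
      rw [Bool.and_eq_true, inc_iff, hee]
      refine ⟨by simp, ?_⟩
      rw [Bool.not_eq_true', hasE_false, hee]
      exact hu2
    obtain ⟨h1, h2⟩ := findD_spec (fun e => inc i e && !hasE B e) A (0, 0) ⟨e, he, hp⟩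
    set f := findD (fun e => inc i e && !hasE B e) A (0, 0) with hfdef
    rw [Bool.and_eq_true, inc_iff] at h2
    obtain ⟨u', hu'⟩ := Sym2.mem_iff_exists.1 h2.1
    have hiu : i ≠ u' := by
      have := fe_mem_fs h1
      rw [hu'] at this
      exact H.ma.nl.ne this
    have hmem : s(i, u') ∈ fs A := by rw [← hu']; exact fe_mem_fs h1
    simp only [cond_false]
    refine ⟨⟨H.wa.ersE f, ?_, ?_, ?_⟩, u', ?_⟩
    · rw [fs_ersE]; exact (Finset.erase_subset _ _).trans Finset.subset_union_left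
    · rw [fs_ersE]; exact H.ma.mono (Finset.erase_subset _ _)
    · rw [fs_ersE]; exact H.ga.mono (Finset.erase_subset _ _)
    · rw [fs_ersE, hu', dv_erase hiu hmem, TT, sgn, cond_false, single_neg_one]; abel

theorem XH.iter (H : XH FS A B i up) (k : ℕ) :
    Inv0 FS A B ((xstep FS A B i up)^[k] (xinit A B i up)) ∧
      (FinP A B i up (fs ((xstep FS A B i up)^[k] (xinit A B i up))) ∨
        ((∃ z, dv (fs ((xstep FS A B i up)^[k] (xinit A B i up))) = TT A i up - ev z) ∧
          distL ((xstep FS A B i up)^[k] (xinit A B i up)) B + k ≤ distL (xinit A B i up) B)) := by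
  induction k with
  | zero => exact ⟨H.init.1, Or.inr ⟨H.init.2, le_rfl⟩⟩
  | succ k ih =>
    rw [Function.iterate_succ_apply']
    generalize (xstep FS A B i up)^[k] (xinit A B i up) = L at ih
    obtain ⟨h1, h2⟩ := H.step ih.1 (ih.2.imp id fun h => h.1)
    refine ⟨h1, ?_⟩
    rcases ih.2 with h3 | ⟨h3, h4⟩
    · left
      have hf : isFin A B i up L = true := (H.fin_iff ih.1.wf ih.1.sub).2 h3
      have : xstep FS A B i up L = L := by rw [xstep, hf]; rfl
      rw [this]; exact h3
    · rcases h2 with h2 | ⟨h2, h5⟩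
      · exact Or.inl h2
      · exact Or.inr ⟨h2, by omega⟩

theorem distL_le {L B : List Ed} : distL L B ≤ L.length + B.length :=
  Nat.add_le_add (List.length_filter_le _ _) (List.length_filter_le _ _)

theorem xinit_len (A B : List Ed) (i : ℕ) (up : Bool) : (xinit A B i up).length ≤ A.length := by
  unfold xinit
  cases up with
  | true => exact le_rfl
  | false => exact List.length_filter_le _ _

/-- **Specification of the exchange**: the two-step axiom. -/
theorem exch_spec (H : XH FS A B i up) : WF (exch FS A B i up) ∧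
    fs (exch FS A B i up) ⊆ fs A ∪ fs B ∧ M2 (fs (exch FS A B i up)) ∧
    Good (alF FS) (fs (exch FS A B i up)) ∧
    ∃ (j : ℕ) (δ : ℤ), (δ = 1 ∨ δ = -1) ∧
      0 < δ * (dv (fs B) j - (dv (fs A) + Pi.single i (sgn up) : ℕ → ℤ) j) ∧
      dv (fs (exch FS A B i up)) = dv (fs A) + Pi.single i (sgn up) + Pi.single j δ := by
  obtain ⟨h1, h2⟩ := H.iter (A.length + B.length + 1)
  have h3 : FinP A B i up (fs (exch FS A B i up)) := by
    rcases h2 with h2 | ⟨-, h2⟩
    · exact h2
    · have h4 := distL_le (L := xinit A B i up) (B := B)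
      have h5 := xinit_len A B i up
      omega
  refine ⟨h1.wf, h1.sub, h1.m2, h1.gd, ?_⟩
  rcases h3 with ⟨w, h4, h5⟩ | ⟨c, h4, h5⟩
  · refine ⟨w, -1, Or.inr rfl, ?_, ?_⟩
    · show 0 < -1 * (dv (fs B) w - TT A i up w)
      linarith
    · rw [h4, single_neg_one, TT]; abel
  · refine ⟨c, 1, Or.inl rfl, ?_, ?_⟩
    · show 0 < 1 * (dv (fs B) c - TT A i up c)
      linarith
    · rw [h4, single_one, TT]

end

end Pool.Agent.PF4
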