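import Pool.Agent.PF4.GadG
import Pool.Agent.EDM.Gra

/-!
2-factors without 4-cycles in polynomial time: the matching gadget with degree intervals. `us` is a list of
units `(S, T)` (choose nothing, or `s` in `S` and `t` in `T`), `lo` and `hi` are the lists of the bounds of
the degrees of the vertices `0, ..., n - 1`. `feas n us lo hi` decides whether there is a choice
(`feas_iff`), `sel n us lo hi` is one (`sel_ok`); both are polynomial time functions (`pt_feas`, `pt_sel`).
-/

set_option autoImplicit false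

namespace Pool.Agent.PF4.Gd

open Finset Pool.Agent.Lib.helper60

/-! ### definitions -/

/-- the copies of the vertices which need not be covered (`K` copies of each vertex) -/
def optC (n K : ℕ) (lo : List ℕ) : List ℕ :=
  (List.range n).flatMap fun v =>
    ((List.range K).filter fun c => decide (lo.getD v 0 ≤ c)).map fun c => K * v + c

/-- the edges from the node `a` to the copies of the elements of `S` -/
def endE (n K a : ℕ) (hi S : List ℕ) : List (ℕ × ℕ) :=
  (S.filter fun s => decide (s < n)).flatMap fun s =>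
    ((List.range K).filter fun c => decide (c < hi.getD s 0)).map fun c => (a, K * s + c)

/-- the edges of the gadget -/
def gadE (n K : ℕ) (us : List (List ℕ × List ℕ)) (lo hi : List ℕ) : List (ℕ × ℕ) :=
  ((List.range us.length).flatMap fun i => (K * n + 2 * i, K * n + 2 * i + 1) ::
    (endE n K (K * n + 2 * i) hi (us.getD i ([], [])).1 ++
      endE n K (K * n + 2 * i + 1) hi (us.getD i ([], [])).2)) ++
  (optC n K lo).flatMap fun a => (optC n K lo).map fun b => (a, b)

/-- the matching of the gadget -/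
def gpm (n : ℕ) (us : List (List ℕ × List ℕ)) (lo hi : List ℕ) : Bool × List (ℕ × ℕ) :=
  EDM.pm (2 * us.length * n + 2 * us.length) (gadE n (2 * us.length) us lo hi)

/-- is there a choice? -/
def feas (n : ℕ) (us : List (List ℕ × List ℕ)) (lo hi : List ℕ) : Bool :=
  (List.range n).all (fun v => decide (lo.getD v 0 ≤ 2 * us.length)) && (gpm n us lo hi).1

/-- the quotient `m / K` for `K > 0` -/
def quo (K m : ℕ) : ℕ := ((List.range m).filter fun x => decide (K * (x + 1) ≤ m)).length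

/-- the choice for the unit `i` -/
def selU (n K : ℕ) (M : List (ℕ × ℕ)) (i : ℕ) : List (ℕ × ℕ) :=
  bif decide (EDM.mate M (K * n + 2 * i) < K * n) then
    [(quo K (EDM.mate M (K * n + 2 * i)), quo K (EDM.mate M (K * n + 2 * i + 1)))] else []

/-- a choice -/
def sel (n : ℕ) (us : List (List ℕ × List ℕ)) (lo hi : List ℕ) : List (List (ℕ × ℕ)) :=
  (List.range us.length).map fun i => selU n (2 * us.length) (gpm n us lo hi).2 i

/-- how often is `v` used by one unit? -/
def useU (c : List (ℕ × ℕ)) (v : ℕ) : ℕ :=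
  (c.filter fun e => decide (e.1 = v)).length + (c.filter fun e => decide (e.2 = v)).length

/-- how often is `v` used? -/
def use (C : List (List (ℕ × ℕ))) (v : ℕ) : ℕ := (C.map fun c => useU c v).sum

/-- a choice for one unit -/
def ChU (n : ℕ) (u : List ℕ × List ℕ) (c : List (ℕ × ℕ)) : Prop :=
  c = [] ∨ ∃ s ∈ u.1, ∃ t ∈ u.2, s < n ∧ t < n ∧ c = [(s, t)]

/-- a choice for each unit, with the bounds `lo` and `hi` -/
structure Ch (n : ℕ) (us : List (List ℕ × List ℕ)) (lo hi : List ℕ) (C : List (List (ℕ × ℕ))) :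
    Prop where
  ch : List.Forall₂ (ChU n) us C
  lo : ∀ v < n, lo.getD v 0 ≤ use C v
  hi : ∀ v < n, use C v ≤ hi.getD v 0

/-! ### polynomial time -/

variable {ι : Type} [DEnc ι]

theorem pt_quo {K m : ι → ℕ} (hK : PT K) (hm : PT m) : PT (fun x => quo (K x) (m x)) :=
  PT.length (PT.filter (PT.range hm) (p := fun y : ι × ℕ => decide (K y.1 * (y.2 + 1) ≤ m y.1))
    (PT.nle (PT.nmul (hK.comp PT.fst) (PT.nsucc PT.snd)) (hm.comp PT.fst)))

theorem pt_optC {n K : ι → ℕ} {lo : ι → List ℕ} (hn : PT n) (hK : PT K) (hg : PT lo) :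
    PT (fun x => optC (n x) (K x) (lo x)) := by
  have h1 : PT (fun y : ι × ℕ => (List.range (K y.1)).filter fun c => decide ((lo y.1).getD y.2 0 ≤ c)) :=
    PT.filter (PT.range (hK.comp PT.fst)) (p := fun z : (ι × ℕ) × ℕ =>
      decide ((lo z.1.1).getD z.1.2 0 ≤ z.2))
      (PT.nle (PT.getD (hg.comp (PT.p1 PT.fst)) (PT.p2 PT.fst) (PT.const 0)) PT.snd)
  have h2 := PT.map h1 (g := fun z : (ι × ℕ) × ℕ => K z.1.1 * z.1.2 + z.2)
    (PT.nadd (PT.nmul (hK.comp (PT.p1 PT.fst)) (PT.p2 PT.fst)) PT.snd)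
  exact PT.flatMap (PT.range hn) (g := fun y : ι × ℕ =>
    ((List.range (K y.1)).filter fun c => decide ((lo y.1).getD y.2 0 ≤ c)).map fun c =>
      K y.1 * y.2 + c) h2

theorem pt_endE {n K a : ι → ℕ} {hi S : ι → List ℕ} (hn : PT n) (hK : PT K) (ha : PT a) (hh : PT hi)
    (hS : PT S) : PT (fun x => endE (n x) (K x) (a x) (hi x) (S x)) := by
  have h0 : PT (fun x => (S x).filter fun s => decide (s < n x)) :=
    PT.filter hS (p := fun y : ι × ℕ => decide (y.2 < n y.1)) (PT.nlt PT.snd (hn.comp PT.fst))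
  have h1 : PT (fun y : ι × ℕ => (List.range (K y.1)).filter fun c => decide (c < (hi y.1).getD y.2 0)) :=
    PT.filter (PT.range (hK.comp PT.fst)) (p := fun z : (ι × ℕ) × ℕ =>
      decide (z.2 < (hi z.1.1).getD z.1.2 0))
      (PT.nlt PT.snd (PT.getD (hh.comp (PT.p1 PT.fst)) (PT.p2 PT.fst) (PT.const 0)))
  have h2 := PT.map h1 (g := fun z : (ι × ℕ) × ℕ => (a z.1.1, K z.1.1 * z.1.2 + z.2))
    (PT.pair (ha.comp (PT.p1 PT.fst))
      (PT.nadd (PT.nmul (hK.comp (PT.p1 PT.fst)) (PT.p2 PT.fst)) PT.snd))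
  exact PT.flatMap h0 (g := fun y : ι × ℕ =>
    ((List.range (K y.1)).filter fun c => decide (c < (hi y.1).getD y.2 0)).map fun c =>
      (a y.1, K y.1 * y.2 + c)) h2

theorem pt_gadE {n K : ι → ℕ} {us : ι → List (List ℕ × List ℕ)} {lo hi : ι → List ℕ} (hn : PT n)
    (hK : PT K) (hu : PT us) (hl : PT lo) (hh : PT hi) :
    PT (fun x => gadE (n x) (K x) (us x) (lo x) (hi x)) := by
  have hb : PT (fun y : ι × ℕ => K y.1 * n y.1 + 2 * y.2) :=
    PT.nadd (PT.nmul (hK.comp PT.fst) (hn.comp PT.fst)) (PT.nmul (PT.const 2) PT.snd)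
  have hui : PT (fun y : ι × ℕ => (us y.1).getD y.2 ([], [])) :=
    PT.getD (hu.comp PT.fst) PT.snd (PT.const ([], []))
  have ho := pt_optC hn hK hl
  refine PT.append ?_ ?_
  · exact PT.flatMap (PT.range (PT.length hu)) (g := fun y : ι × ℕ =>
      (K y.1 * n y.1 + 2 * y.2, K y.1 * n y.1 + 2 * y.2 + 1) ::
      (endE (n y.1) (K y.1) (K y.1 * n y.1 + 2 * y.2) (hi y.1) ((us y.1).getD y.2 ([], [])).1 ++
        endE (n y.1) (K y.1) (K y.1 * n y.1 + 2 * y.2 + 1) (hi y.1) ((us y.1).getD y.2 ([], [])).2))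
      (PT.cons (PT.pair hb (PT.nsucc hb)) (PT.append
        (pt_endE (hn.comp PT.fst) (hK.comp PT.fst) hb (hh.comp PT.fst) (PT.p1 hui))
        (pt_endE (hn.comp PT.fst) (hK.comp PT.fst) (PT.nsucc hb) (hh.comp PT.fst) (PT.p2 hui))))
  · exact PT.flatMap ho (g := fun y : ι × ℕ => (optC (n y.1) (K y.1) (lo y.1)).map fun b => (y.2, b))
      (PT.map (ho.comp PT.fst) (g := fun z : (ι × ℕ) × ℕ => (z.1.2, z.2))
        (PT.pair (PT.p2 PT.fst) PT.snd))

theorem pt_gpm {n : ι → ℕ} {us : ι → List (List ℕ × List ℕ)} {lo hi : ι → List ℕ} (hn : PT n)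
    (hu : PT us) (hl : PT lo) (hh : PT hi) : PT (fun x => gpm (n x) (us x) (lo x) (hi x)) := by
  have hK : PT (fun x => 2 * (us x).length) := PT.nmul (PT.const 2) (PT.length hu)
  have h1 : PT (fun x => (2 * (us x).length * n x + 2 * (us x).length,
      gadE (n x) (2 * (us x).length) (us x) (lo x) (hi x))) :=
    PT.pair (PT.nadd (PT.nmul hK hn) hK) (pt_gadE hn hK hu hl hh)
  have h2 := PT.comp EDM.pt_pm h1
  exact h2

/-- `feas` is a polynomial time function -/
theorem pt_feas {n : ι → ℕ} {us : ι → List (List ℕ × List ℕ)} {lo hi : ι → List ℕ} (hn : PT n)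
    (hu : PT us) (hl : PT lo) (hh : PT hi) : PT (fun x => feas (n x) (us x) (lo x) (hi x)) :=
  PT.band (PT.all (PT.range hn) (p := fun y : ι × ℕ =>
      decide ((lo y.1).getD y.2 0 ≤ 2 * (us y.1).length))
    (PT.nle (PT.getD (hl.comp PT.fst) PT.snd (PT.const 0))
      (PT.nmul (PT.const 2) (PT.length (hu.comp PT.fst))))) (PT.p1 (pt_gpm hn hu hl hh))

theorem pt_selU {n K i : ι → ℕ} {M : ι → List (ℕ × ℕ)} (hn : PT n) (hK : PT K) (hM : PT M) (hi : PT i) :
    PT (fun x => selU (n x) (K x) (M x) (i x)) := by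
  have hb : PT (fun x => K x * n x + 2 * i x) :=
    PT.nadd (PT.nmul hK hn) (PT.nmul (PT.const 2) hi)
  have h1 := EDM.pt_mate hM hb
  have h2 := EDM.pt_mate hM (PT.nsucc hb)
  exact PT.cond (PT.nlt h1 (PT.nmul hK hn))
    (PT.cons (PT.pair (pt_quo hK h1) (pt_quo hK h2)) (PT.const [])) (PT.const [])

/-- `sel` is a polynomial time function -/
theorem pt_sel {n : ι → ℕ} {us : ι → List (List ℕ × List ℕ)} {lo hi : ι → List ℕ} (hn : PT n)
    (hu : PT us) (hl : PT lo) (hh : PT hi) : PT (fun x => sel (n x) (us x) (lo x) (hi x)) := by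
  have hM : PT (fun x => (gpm (n x) (us x) (lo x) (hi x)).2) := PT.p2 (pt_gpm hn hu hl hh)
  have h := PT.map (ι := ι × List (ℕ × ℕ)) (l := fun x => List.range (us x.1).length)
    (g := fun y : (ι × List (ℕ × ℕ)) × ℕ => selU (n y.1.1) (2 * (us y.1.1).length) y.1.2 y.2)
    (PT.range (PT.length (hu.comp PT.fst)))
    (pt_selU (hn.comp (PT.p1 PT.fst)) (PT.nmul (PT.const 2) (PT.length (hu.comp (PT.p1 PT.fst))))
      (PT.p2 PT.fst) PT.snd)
  exact h.comp (f := fun x => (x, (gpm (n x) (us x) (lo x) (hi x)).2)) (PT.pair PT.id hM)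

theorem pt_useU {c : ι → List (ℕ × ℕ)} {v : ι → ℕ} (hc : PT c) (hv : PT v) :
    PT (fun x => useU (c x) (v x)) :=
  PT.nadd (PT.length (PT.filter hc (p := fun y : ι × (ℕ × ℕ) => decide (y.2.1 = v y.1))
      (PT.neq (PT.p1 PT.snd) (hv.comp PT.fst))))
    (PT.length (PT.filter hc (p := fun y : ι × (ℕ × ℕ) => decide (y.2.2 = v y.1))
      (PT.neq (PT.p2 PT.snd) (hv.comp PT.fst))))

/-! ### correctness -/

theorem quo_eq {K : ℕ} (hK : 0 < K) (m : ℕ) : quo K m = m / K := by
  unfold quo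
  have h : ∀ k, ((List.range k).filter fun x => decide (K * (x + 1) ≤ m)).length = min k (m / K) := by
    intro k
    induction k with
    | zero => simp
    | succ k ih =>
      rw [List.range_succ, List.filter_append, List.length_append, ih]
      have h1 : K * (k + 1) ≤ m ↔ k + 1 ≤ m / K := by
        rw [Nat.le_div_iff_mul_le hK, mul_comm]
      by_cases hk : K * (k + 1) ≤ m
      · have := h1.1 hk
        simp [hk]; omega
      · have := mt h1.2 hk
        simp [hk]; omega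
  rw [h]
  have := Nat.div_le_self m K
  omega

theorem mem_optC {n K : ℕ} {lo : List ℕ} {x : ℕ} :
    x ∈ optC n K lo ↔ ∃ v < n, ∃ c < K, lo.getD v 0 ≤ c ∧ x = K * v + c := by
  simp only [optC, List.mem_flatMap, List.mem_range, List.mem_map, List.mem_filter, decide_eq_true_eq]
  refine exists_congr fun v => and_congr_right fun _ => ?_
  refine exists_congr fun c => ?_
  rw [and_assoc]
  refine and_congr_right fun _ => and_congr_right fun _ => eq_comm

theorem mem_endE {n K a : ℕ} {hi S : List ℕ} {x y : ℕ} :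
    (x, y) ∈ endE n K a hi S ↔
      ∃ s ∈ S, s < n ∧ x = a ∧ ∃ c < K, c < hi.getD s 0 ∧ y = K * s + c := by
  simp only [endE, List.mem_flatMap, List.mem_filter, decide_eq_true_eq, List.mem_map, List.mem_range,
    Prod.mk.injEq]
  refine exists_congr fun s => ?_
  constructor
  · rintro ⟨⟨h1, h2⟩, c, ⟨h3, h4⟩, rfl, rfl⟩; exact ⟨h1, h2, rfl, c, h3, h4, rfl⟩
  · rintro ⟨h1, h2, rfl, c, h3, h4, rfl⟩; exact ⟨⟨h1, h2⟩, c, ⟨h3, h4⟩, rfl, rfl⟩

theorem mem_gadE {n K : ℕ} {us : List (List ℕ × List ℕ)} {lo hi : List ℕ} {x y : ℕ} :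
    (x, y) ∈ gadE n K us lo hi ↔ (∃ i < us.length, (x = K * n + 2 * i ∧ y = K * n + 2 * i + 1) ∨
      (∃ s ∈ (us.getD i ([], [])).1, s < n ∧ x = K * n + 2 * i ∧ ∃ c < K, c < hi.getD s 0 ∧
        y = K * s + c) ∨
      (∃ t ∈ (us.getD i ([], [])).2, t < n ∧ x = K * n + 2 * i + 1 ∧ ∃ c < K, c < hi.getD t 0 ∧
        y = K * t + c)) ∨ (x ∈ optC n K lo ∧ y ∈ optC n K lo) := by
  simp only [gadE, List.mem_append, List.mem_flatMap, List.mem_range, List.mem_cons, mem_endE,
    Prod.mk.injEq, List.mem_map]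
  refine or_congr Iff.rfl ?_
  constructor
  · rintro ⟨a, ha, b, hb, rfl, rfl⟩; exact ⟨ha, hb⟩
  · rintro ⟨ha, hb⟩; exact ⟨x, ha, y, hb, rfl, rfl⟩

end Pool.Agent.PF4.Gd
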