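import Pool.Agent.PF4.Gad

/-!
2-factors without 4-cycles in polynomial time: correctness of the matching gadget with degree intervals.
-/

set_option autoImplicit false

namespace Pool.Agent.PF4.Gd

open Finset

theorem lin_inj {K v w c d : ℕ} (hc : c < K) (hd : d < K) (h : K * v + c = K * w + d) : v = w ∧ c = d := by
  have hK : 0 < K := by omega
  have h1 : (K * v + c) / K = v := by rw [Nat.mul_add_div hK, Nat.div_eq_of_lt hc, add_zero]
  have h2 : (K * w + d) / K = w := by rw [Nat.mul_add_div hK, Nat.div_eq_of_lt hd, add_zero]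
  have h3 : v = w := by rw [← h1, ← h2, h]
  subst h3
  exact ⟨rfl, by omega⟩

theorem lin_lt {K v n c : ℕ} (hc : c < K) (hv : v < n) : K * v + c < K * n := by
  have : K * (v + 1) ≤ K * n := Nat.mul_le_mul_left _ hv
  rw [Nat.mul_add] at this
  omega

theorem lin_lt_swap {n J j v : ℕ} (hv : v < n) (hj : j < J) : n * j + v < n * J := lin_lt hv hj

/-- allowed end points of a node -/
def gA (n : ℕ) (us : List (List ℕ × List ℕ)) (p : Fin us.length × Bool) (v : Fin n) : Prop :=
  (v : ℕ) ∈ (bif p.2 then (us.getD p.1 ([], [])).2 else (us.getD p.1 ([], [])).1)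

/-- bounds -/
def gB (n : ℕ) (g : List ℕ) (v : Fin n) : ℕ := g.getD v 0

/-- the numbers of the nodes -/
def gφ (n K : ℕ) (us : List (List ℕ × List ℕ)) : Nod (Fin n) (Fin us.length) K → ℕ
  | .inl (v, c) => K * v + c
  | .inr (i, b) => K * n + 2 * i + b.toNat

theorem gφ_inj (n K : ℕ) (us : List (List ℕ × List ℕ)) : Function.Injective (gφ n K us) := by
  rintro (⟨v, b⟩ | ⟨i, b⟩) (⟨w, c⟩ | ⟨j, c⟩) h
  · simp only [gφ] at h
    obtain ⟨h1, h2⟩ := lin_inj b.2 c.2 h
    rw [Fin.ext h1, Fin.ext h2]
  · have h1 := lin_lt b.2 v.2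
    simp only [gφ] at h
    omega
  · have h1 := lin_lt c.2 w.2
    simp only [gφ] at h
    omega
  · rcases b with _ | _ <;> rcases c with _ | _ <;> simp only [gφ, Bool.toNat_false, Bool.toNat_true] at h
    · obtain rfl : i = j := Fin.ext (by omega)
      rfl
    · omega
    · omega
    · obtain rfl : i = j := Fin.ext (by omega)
      rfl

theorem gφ_lt (n K : ℕ) (us : List (List ℕ × List ℕ)) (w : Nod (Fin n) (Fin us.length) K) :
    gφ n K us w < K * n + 2 * us.length := by
  rcases w with ⟨v, b⟩ | ⟨i, b⟩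
  · have := lin_lt b.2 v.2
    simp only [gφ]; omega
  · have := i.2
    have := Bool.toNat_lt b
    simp only [gφ]; omega

theorem gφ_surj (n K : ℕ) (us : List (List ℕ × List ℕ)) (k : ℕ) (hk : k < K * n + 2 * us.length) :
    ∃ w, gφ n K us w = k := by
  by_cases h : k < K * n
  · have hK : 0 < K := by
      rcases Nat.eq_zero_or_pos K with h1 | h1
      · subst h1; simp at h
      · exact h1
    refine ⟨.inl (⟨k / K, ?_⟩, ⟨k % K, Nat.mod_lt _ hK⟩), ?_⟩
    · exact Nat.div_lt_of_lt_mul h
    · simp only [gφ]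
      exact Nat.div_add_mod k K
  · have hb : (decide ((k - K * n) % 2 = 1)).toNat = (k - K * n) % 2 := by
      rcases Nat.mod_two_eq_zero_or_one (k - K * n) with h | h <;> simp [h]
    refine ⟨.inr (⟨(k - K * n) / 2, by omega⟩, decide ((k - K * n) % 2 = 1)), ?_⟩
    simp only [gφ, hb]; omega

theorem optC_lt {n K : ℕ} {g : List ℕ} {x : ℕ} (h : x ∈ optC n K g) : x < K * n := by
  obtain ⟨v, hv, c, hc, _, rfl⟩ := mem_optC.1 h
  exact lin_lt hc hv

theorem optC_φ {n K : ℕ} {g : List ℕ} (v : Fin n) (c : Fin K) :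
    K * (v : ℕ) + c ∈ optC n K g ↔ g.getD v 0 ≤ c := by
  rw [mem_optC]
  constructor
  · rintro ⟨w, _, d, hd, h, h2⟩
    obtain ⟨h3, h4⟩ := lin_inj c.2 hd h2
    rw [h3, h4]; exact h
  · intro h; exact ⟨v, v.2, c, c.2, h, rfl⟩

theorem gφ_rel (n K : ℕ) (us : List (List ℕ × List ℕ)) (lo hi : List ℕ)
    (x y : Nod (Fin n) (Fin us.length) K) :
    gr (gA n us) (gB n lo) (gB n hi) x y ↔ (gφ n K us x, gφ n K us y) ∈ gadE n K us lo hi := by
  rw [mem_gadE]
  rcases x with ⟨v, b⟩ | ⟨i, b⟩
  · have hv := lin_lt b.2 v.2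
    rcases y with ⟨w, c⟩ | ⟨j, c⟩
    · simp only [gr, gB, gφ]
      rw [optC_φ, optC_φ]
      constructor
      · intro h; exact Or.inr h
      · rintro (⟨i, _, ⟨h1, _⟩ | ⟨s, _, _, h1, _⟩ | ⟨s, _, _, h1, _⟩⟩ | h)
        · omega
        · omega
        · omega
        · exact h
    · simp only [gr, gφ]
      constructor
      · intro h; exact h.elim
      · rintro (⟨i, _, ⟨h1, _⟩ | ⟨s, _, _, h1, _⟩ | ⟨s, _, _, h1, _⟩⟩ | h)
        · omega
        · omega
        · omega
        · have := optC_lt h.2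
          omega
  · have hi' := i.2
    rcases y with ⟨w, c⟩ | ⟨j, c⟩
    · have hw := lin_lt c.2 w.2
      rcases b with _ | _
      · simp only [gr, gA, gB, gφ, Bool.toNat_false, cond_false]
        constructor
        · intro h
          exact Or.inl ⟨i, hi', Or.inr (Or.inl ⟨w, h.1, w.2, by omega, c, c.2, h.2, rfl⟩)⟩
        · rintro (⟨i', _, ⟨h1, h2⟩ | ⟨s, h, h2, h1, d, hd, h3, h4⟩ | ⟨s, _, _, h1, _⟩⟩ | h)
          · omega
          · obtain rfl : (i : ℕ) = i' := by omega
            obtain ⟨h5, h6⟩ := lin_inj c.2 hd h4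
            rw [h5, h6]
            exact ⟨h, h3⟩
          · omega
          · have := optC_lt h.1
            omega
      · simp only [gr, gA, gB, gφ, Bool.toNat_true, cond_true]
        constructor
        · intro h
          exact Or.inl ⟨i, hi', Or.inr (Or.inr ⟨w, h.1, w.2, by omega, c, c.2, h.2, rfl⟩)⟩
        · rintro (⟨i', _, ⟨h1, h2⟩ | ⟨s, _, _, h1, _⟩ | ⟨s, h, h2, h1, d, hd, h3, h4⟩⟩ | h)
          · omega
          · omega
          · obtain rfl : (i : ℕ) = i' := by omega
            obtain ⟨h5, h6⟩ := lin_inj c.2 hd h4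
            rw [h5, h6]
            exact ⟨h, h3⟩
          · have := optC_lt h.1
            omega
    · have hj := j.2
      have key : ∀ b c : Bool, (K * n + 2 * (i : ℕ) + b.toNat, K * n + 2 * (j : ℕ) + c.toNat) ∈
          gadE n K us lo hi ↔ (b = false ∧ c = true ∧ i = j) := by
        intro b c
        have hb := Bool.toNat_lt b
        have hc := Bool.toNat_lt c
        rw [mem_gadE]
        constructor
        · rintro (⟨i', _, ⟨h1, h2⟩ | ⟨s, _, hs, _, d, hd, _, h3⟩ | ⟨s, _, hs, _, d, hd, _, h3⟩⟩ | h)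
          · rcases b with _ | _ <;> rcases c with _ | _ <;>
              simp only [Bool.toNat_false, Bool.toNat_true] at h1 h2
            · omega
            · exact ⟨rfl, rfl, Fin.ext (by omega)⟩
            · omega
            · omega
          · have := lin_lt hd hs
            omega
          · have := lin_lt hd hs
            omega
          · have := optC_lt h.1
            omega
        · rintro ⟨rfl, rfl, rfl⟩
          exact Or.inl ⟨i, hi', Or.inl ⟨rfl, rfl⟩⟩
      rw [← mem_gadE]
      simp only [gφ]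
      rw [key]
      rcases b with _ | _ <;> rcases c with _ | _ <;> simp [gr]

theorem gφ_adj (n K : ℕ) (us : List (List ℕ × List ℕ)) (lo hi : List ℕ)
    (x y : Nod (Fin n) (Fin us.length) K) :
    (gG (gA n us) (gB n lo) (gB n hi)).Adj x y ↔ x ≠ y ∧
      ((gφ n K us x, gφ n K us y) ∈ gadE n K us lo hi ∨
        (gφ n K us y, gφ n K us x) ∈ gadE n K us lo hi) := by
  rw [gG, SimpleGraph.fromRel_adj, gφ_rel, gφ_rel]

/-! ### lists of choices and selections -/

theorem sum_getD {β : Type*} (f : β → ℕ) (d : β) (l : List β) :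
    ∑ i : Fin l.length, f (l.getD i d) = (l.map f).sum := by
  rw [← Finset.sum_range (n := l.length) (f := fun i => f (l.getD i d))]
  induction l with
  | nil => simp
  | cons a l ih =>
    rw [List.length_cons, Finset.sum_range_succ', List.map_cons, List.sum_cons, ← ih]
    simp only [List.getD_cons_succ, List.getD_cons_zero]
    ring

theorem card_sel {k n : ℕ} (s : Fin k × Bool → Option (Fin n)) (v : Fin n) :
    #{p | s p = some v} =
      ∑ i : Fin k, ((if s (i, false) = some v then 1 else 0) + (if s (i, true) = some v then 1 else 0)) := by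
  rw [Finset.card_filter, Fintype.sum_prod_type]
  refine Finset.sum_congr rfl fun i _ => ?_
  rw [Fintype.sum_bool, add_comm]

theorem useU_nil (v : ℕ) : useU [] v = 0 := rfl

theorem useU_single (s t v : ℕ) :
    useU [(s, t)] v = (if s = v then 1 else 0) + (if t = v then 1 else 0) := by
  unfold useU
  by_cases h1 : s = v <;> by_cases h2 : t = v <;> simp [h1, h2]

theorem use_nil (v : ℕ) : use [] v = 0 := rfl

theorem use_cons (c : List (ℕ × ℕ)) (C : List (List (ℕ × ℕ))) (v : ℕ) :
    use (c :: C) v = useU c v + use C v := rfl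

theorem use_append (C D : List (List (ℕ × ℕ))) (v : ℕ) : use (C ++ D) v = use C v + use D v := by
  simp [use]

theorem useU_le {n : ℕ} {u : List ℕ × List ℕ} {c : List (ℕ × ℕ)} (h : ChU n u c) (v : ℕ) :
    useU c v ≤ 2 := by
  rcases h with rfl | ⟨s, _, t, _, _, _, rfl⟩
  · simp [useU_nil]
  · rw [useU_single]
    split_ifs <;> omega

/-- a vertex is used at most twice by each unit -/
theorem use_le {n : ℕ} {us : List (List ℕ × List ℕ)} {C : List (List (ℕ × ℕ))}
    (h : List.Forall₂ (ChU n) us C) (v : ℕ) : use C v ≤ 2 * us.length := by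
  induction h with
  | nil => simp [use_nil]
  | cons h1 _ ih =>
    rw [use_cons, List.length_cons]
    have := useU_le h1 v
    omega

/-- the choices in terms of indices -/
theorem ch_iff {n : ℕ} {us : List (List ℕ × List ℕ)} {lo hi : List ℕ} {C : List (List (ℕ × ℕ))} :
    Ch n us lo hi C ↔ C.length = us.length ∧
      (∀ i < us.length, ChU n (us.getD i ([], [])) (C.getD i [])) ∧
      ∀ v < n, lo.getD v 0 ≤ use C v ∧ use C v ≤ hi.getD v 0 := by
  constructor
  · intro h
    have h1 := h.ch.length_eq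
    refine ⟨h1.symm, ?_, fun v hv => ⟨h.lo v hv, h.hi v hv⟩⟩
    intro i hi
    have h2 := (List.forall₂_iff_get.1 h.ch).2 i hi (h1 ▸ hi)
    rw [List.getD_eq_getElem _ _ hi, List.getD_eq_getElem _ _ (h1 ▸ hi)]
    simpa using h2
  · rintro ⟨h1, h2, h3⟩
    refine ⟨?_, fun v hv => (h3 v hv).1, fun v hv => (h3 v hv).2⟩
    rw [List.forall₂_iff_get]
    refine ⟨h1.symm, ?_⟩
    intro i hi hi'
    have := h2 i hi
    rw [List.getD_eq_getElem _ _ hi, List.getD_eq_getElem _ _ hi'] at this
    simpa using this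

theorem use_sum {n : ℕ} {us : List (List ℕ × List ℕ)} {C : List (List (ℕ × ℕ))}
    (s : Fin us.length × Bool → Option (Fin n)) (hC : C.length = us.length)
    (h : ∀ (i : Fin us.length) (v : Fin n), useU (C.getD i []) v =
      (if s (i, false) = some v then 1 else 0) + (if s (i, true) = some v then 1 else 0)) (v : Fin n) :
    use C v = #{p | s p = some v} := by
  rw [card_sel]
  unfold use
  rw [← sum_getD (fun c => useU c v) []]
  have e : ∑ i : Fin C.length, useU (C.getD i []) v = ∑ i : Fin us.length, useU (C.getD i []) v := by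
    rw [← Finset.sum_range (n := C.length) (f := fun i => useU (C.getD i []) v),
      ← Finset.sum_range (n := us.length) (f := fun i => useU (C.getD i []) v), hC]
  rw [e]
  exact Finset.sum_congr rfl fun i _ => h i v

/-- the choice list of a selection -/
theorem ch_of_gsel {n : ℕ} {us : List (List ℕ × List ℕ)} {lo hi : List ℕ}
    {s : Fin us.length × Bool → Option (Fin n)} (hs : GSel (gA n us) (gB n lo) (gB n hi) s)
    {C : List (List (ℕ × ℕ))} (hC : C.length = us.length)
    (h : ∀ i : Fin us.length, (s (i, false) = none ∧ C.getD i [] = []) ∨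
      ∃ a b : Fin n, s (i, false) = some a ∧ s (i, true) = some b ∧ C.getD i [] = [((a : ℕ), (b : ℕ))]) :
    Ch n us lo hi C := by
  have hu : ∀ v : Fin n, use C v = #{p | s p = some v} := by
    refine use_sum s hC ?_
    intro i v
    rcases h i with ⟨h1, h2⟩ | ⟨a, b, h1, h2, h3⟩
    · rw [h2, h1, (hs.pair i).1 h1]
      simp [useU_nil]
    · rw [h3, h1, h2, useU_single]
      simp only [Option.some.injEq, Fin.ext_iff]
  rw [ch_iff]
  refine ⟨hC, ?_, ?_⟩
  · intro i hi
    rcases h ⟨i, hi⟩ with ⟨_, h2⟩ | ⟨a, b, h1, h2, h3⟩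
    · exact Or.inl h2
    · exact Or.inr ⟨a, hs.mem _ _ h1, b, hs.mem _ _ h2, a.2, b.2, h3⟩
  · intro v hv
    rw [hu ⟨v, hv⟩]
    exact ⟨hs.lo ⟨v, hv⟩, hs.hi ⟨v, hv⟩⟩

/-- the selection of a choice list -/
theorem gsel_of_ch {n : ℕ} {us : List (List ℕ × List ℕ)} {lo hi : List ℕ} {C : List (List (ℕ × ℕ))}
    (h : Ch n us lo hi C) : ∃ s, GSel (gA n us) (gB n lo) (gB n hi) s ∧
      ∀ v : Fin n, use C v = #{p | s p = some v} := by
  classical
  obtain ⟨hC, h1, h2⟩ := ch_iff.1 h
  have h3 : ∀ i : Fin us.length, ∃ f : Bool → Option (Fin n), (f false = none ↔ f true = none) ∧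
      (∀ b v, f b = some v → gA n us (i, b) v) ∧
      ∀ v : Fin n, useU (C.getD i []) v =
        (if f false = some v then 1 else 0) + (if f true = some v then 1 else 0) := by
    intro i
    rcases h1 i i.2 with h4 | ⟨s, hs, t, ht, hs', ht', h4⟩
    · refine ⟨fun _ => none, by simp, by simp, ?_⟩
      intro v
      rw [h4]; simp [useU_nil]
    · refine ⟨fun b => bif b then some ⟨t, ht'⟩ else some ⟨s, hs'⟩, by simp, ?_, ?_⟩
      · intro b v hv
        rcases b with _ | _
        · simp only [cond_false, Option.some.injEq] at hv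
          subst hv
          exact hs
        · simp only [cond_true, Option.some.injEq] at hv
          subst hv
          exact ht
      · intro v
        rw [h4, useU_single]
        simp only [cond_false, cond_true, Option.some.injEq, Fin.ext_iff]
  choose f hf1 hf2 hf3 using h3
  have hu := use_sum (fun p : Fin us.length × Bool => f p.1 p.2) hC hf3
  refine ⟨fun p => f p.1 p.2, ⟨fun i => hf1 i, fun p v hv => hf2 p.1 p.2 v hv, ?_, ?_⟩, hu⟩
  · intro v
    rw [← hu]
    exact (h2 v v.2).1
  · intro v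
    rw [← hu]
    exact (h2 v v.2).2

/-! ### the theorems -/

/-- the length of `sel` -/
theorem sel_length (n : ℕ) (us : List (List ℕ × List ℕ)) (lo hi : List ℕ) :
    (sel n us lo hi).length = us.length := by
  simp [sel]

theorem sel_getD (n : ℕ) (us : List (List ℕ × List ℕ)) (lo hi : List ℕ) {i : ℕ} (h : i < us.length) :
    (sel n us lo hi).getD i [] = selU n (2 * us.length) (gpm n us lo hi).2 i := by
  unfold sel
  rw [List.getD_eq_getElem _ _ (by simpa using h)]
  simp

theorem gφ_quo {n K : ℕ} {us : List (List ℕ × List ℕ)} (v : Fin n) (c : Fin K) :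
    quo K (gφ n K us (.inl (v, c))) = v := by
  have hc := c.2
  have hK : 0 < K := by omega
  rw [quo_eq hK]
  simp only [gφ]
  rw [Nat.mul_add_div hK, Nat.div_eq_of_lt hc, add_zero]

/-- `sel` is a choice -/
theorem sel_ok {n : ℕ} {us : List (List ℕ × List ℕ)} {lo hi : List ℕ} (h : feas n us lo hi = true) :
    Ch n us lo hi (sel n us lo hi) := by
  unfold feas at h
  rw [Bool.and_eq_true, List.all_eq_true] at h
  obtain ⟨h1, h2⟩ := h
  have hlo : ∀ v : Fin n, gB n lo v ≤ 2 * us.length := by
    intro v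
    have := h1 v (List.mem_range.2 v.2)
    simpa [gB] using this
  have hP := (EDM.pm_spec (2 * us.length * n + 2 * us.length)
    (gadE n (2 * us.length) us lo hi)).1 h2
  have hI := (EDM.gra_pm (gφ_inj n (2 * us.length) us) (gφ_lt n _ us) (gφ_surj n _ us)
    (gφ_adj n _ us lo hi) _).1 hP
  change EDM.PM _ _ (gpm n us lo hi).2 at hP
  change EDM.IsPMof _ _ (gpm n us lo hi).2 at hI
  choose m hm hm' using hI.ex
  have hmm : ∀ w, m (m w) = w := fun w => (hm' (m w) w (hI.symm _ _ (hm w))).symm
  have hma : ∀ w, (gG (gA n us) (gB n lo) (gB n hi)).Adj w (m w) := fun w => hI.sub _ _ (hm w)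
  have hmate : ∀ w, EDM.mate (gpm n us lo hi).2 (gφ n (2 * us.length) us w) =
      gφ n (2 * us.length) us (m w) := fun w => EDM.mate_eq hP.mt (hm w)
  have hs := gsel_of_inv hlo hmm hma
  refine ch_of_gsel hs (sel_length n us lo hi) ?_
  intro i
  rw [sel_getD n us lo hi i.2]
  have e1 : 2 * us.length * n + 2 * (i : ℕ) = gφ n (2 * us.length) us (.inr (i, false)) := by
    simp [gφ]
  have e2 : 2 * us.length * n + 2 * (i : ℕ) + 1 = gφ n (2 * us.length) us (.inr (i, true)) := by
    simp [gφ]
  unfold selU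
  rw [e2, e1, hmate, hmate]
  rcases hf : m (.inr (i, false)) with ⟨a, c⟩ | q
  · right
    have h3 : rd m (i, false) = some a := rd_some.2 ⟨c, hf⟩
    have h4 : rd m (i, true) ≠ none := by
      intro h4
      rw [(hs.pair i).2 h4] at h3
      simp at h3
    obtain ⟨b, hb⟩ := Option.ne_none_iff_exists'.1 h4
    obtain ⟨c', hc'⟩ := rd_some.1 hb
    refine ⟨a, b, h3, hb, ?_⟩
    rw [hc', gφ_quo, gφ_quo]
    have h5 : gφ n (2 * us.length) us (.inl (a, c)) < 2 * us.length * n := lin_lt c.2 a.2
    rw [decide_eq_true h5, cond_true]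
  · left
    refine ⟨rd_none.2 ⟨q, hf⟩, ?_⟩
    have h5 : ¬ gφ n (2 * us.length) us (.inr q) < 2 * us.length * n := by
      simp only [gφ]; omega
    rw [decide_eq_false h5, cond_false]

/-- an involution along edges gives a perfect matching -/
theorem pm_of_inv {W : Type*} (G : SimpleGraph W) (m : W → W) (h1 : ∀ w, m (m w) = w)
    (h2 : ∀ w, G.Adj w (m w)) : ∃ M : G.Subgraph, M.IsPerfectMatching := by
  refine ⟨{ verts := Set.univ, Adj := fun a b => m a = b, adj_sub := ?_, edge_vert := ?_,
            symm := ?_ }, ?_, ?_⟩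
  · rintro a b rfl; exact h2 a
  · intro a b _; trivial
  · exact ⟨by rintro a b rfl; exact h1 a⟩
  · intro a _
    refine ⟨m a, rfl, fun b hb => ?_⟩
    have hb' : m a = b := hb
    exact hb'.symm
  · intro a; trivial

/-- `feas` decides whether there is a choice -/
theorem feas_iff (n : ℕ) (us : List (List ℕ × List ℕ)) (lo hi : List ℕ) :
    feas n us lo hi = true ↔ ∃ C, Ch n us lo hi C := by
  constructor
  · intro h; exact ⟨_, sel_ok h⟩
  · rintro ⟨C, hC⟩
    obtain ⟨s, hs, hu⟩ := gsel_of_ch hC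
    obtain ⟨m, h1, h2⟩ := inv_of_gsel (K := 2 * us.length) hs
      (fun v => by rw [← hu]; exact use_le hC.ch v) (by omega)
    have h3 := (EDM.pm_graph (gφ_inj n (2 * us.length) us) (gφ_lt n _ us) (gφ_surj n _ us)
      (gφ_adj n _ us lo hi)).2 (pm_of_inv _ m h1 h2)
    unfold feas
    rw [Bool.and_eq_true, List.all_eq_true]
    refine ⟨?_, h3⟩
    intro v hv
    rw [List.mem_range] at hv
    have := hC.lo v hv
    have := use_le hC.ch v
    rw [decide_eq_true_eq]
    omega

end Pool.Agent.PF4.Gd
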