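import Mathlib

/-!
2-factors without 4-cycles: the matching gadget with degree intervals (the graph part). A unit `i` has two
nodes `(i, false)`, `(i, true)`; every vertex has `K` copies, `K` even; the copies which need not be covered
form a clique.
-/

set_option autoImplicit false
set_option linter.unusedSectionVars false

namespace Pool.Agent.PF4.Gd

open Finset

variable {V I : Type*} [Fintype V] [DecidableEq V] [Fintype I] [DecidableEq I] {K : ℕ}

/-- the nodes -/
abbrev Nod (V I : Type*) (K : ℕ) := (V × Fin K) ⊕ (I × Bool)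

/-- the relation which generates the gadget graph -/
def gr (A : I × Bool → V → Prop) (lo hi : V → ℕ) (α β : Nod V I K) : Prop :=
  match α, β with
  | .inr (i, false), .inr (j, true) => i = j
  | .inr p, .inl (v, c) => A p v ∧ (c : ℕ) < hi v
  | .inl p, .inl q => lo p.1 ≤ p.2 ∧ lo q.1 ≤ q.2
  | _, _ => False

/-- the gadget graph -/
def gG (A : I × Bool → V → Prop) (lo hi : V → ℕ) : SimpleGraph (Nod V I K) :=
  SimpleGraph.fromRel (gr A lo hi)

/-- selections: for each unit nothing or a pair of end points -/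
structure GSel (A : I × Bool → V → Prop) (lo hi : V → ℕ) (g : I × Bool → Option V) : Prop where
  pair : ∀ i, g (i, false) = none ↔ g (i, true) = none
  mem : ∀ p v, g p = some v → A p v
  lo : ∀ v, lo v ≤ #{p | g p = some v}
  hi : ∀ v, #{p | g p = some v} ≤ hi v

/-- the selection of an involution -/
def rd (m : Nod V I K → Nod V I K) (p : I × Bool) : Option V :=
  match m (.inr p) with
  | .inl q => some q.1
  | .inr _ => none

theorem rd_some {m : Nod V I K → Nod V I K} {p : I × Bool} {v : V} :
    rd m p = some v ↔ ∃ c, m (.inr p) = .inl (v, c) := by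
  unfold rd
  rcases h : m (.inr p) with ⟨w, c⟩ | q
  · simp
  · simp

theorem rd_none {m : Nod V I K → Nod V I K} {p : I × Bool} :
    rd m p = none ↔ ∃ q, m (.inr p) = .inr q := by
  unfold rd
  rcases h : m (.inr p) with ⟨w, c⟩ | q
  · simp
  · simp

theorem gG_rr {A : I × Bool → V → Prop} {lo hi : V → ℕ} {p q : I × Bool}
    (h : (gG (K := K) A lo hi).Adj (.inr p) (.inr q)) : q = (p.1, !p.2) := by
  obtain ⟨i, b⟩ := p
  obtain ⟨j, c⟩ := q
  rw [gG, SimpleGraph.fromRel_adj] at h
  rcases b with _ | _ <;> rcases c with _ | _ <;> simp only [gr] at h ⊢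
  · simp at h
  · rcases h.2 with h | h
    · simp [h]
    · exact h.elim
  · rcases h.2 with h | h
    · exact h.elim
    · simp [h]
  · simp at h

theorem gG_rl {A : I × Bool → V → Prop} {lo hi : V → ℕ} {p : I × Bool} {q : V × Fin K} :
    (gG A lo hi).Adj (.inr p) (.inl q) ↔ A p q.1 ∧ (q.2 : ℕ) < hi q.1 := by
  obtain ⟨i, b⟩ := p
  obtain ⟨v, c⟩ := q
  rw [gG, SimpleGraph.fromRel_adj]
  rcases b with _ | _ <;> simp [gr]

theorem gG_ll {A : I × Bool → V → Prop} {lo hi : V → ℕ} {p q : V × Fin K} :
    (gG (I := I) A lo hi).Adj (.inl p) (.inl q) ↔ p ≠ q ∧ lo p.1 ≤ p.2 ∧ lo q.1 ≤ q.2 := by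
  rw [gG, SimpleGraph.fromRel_adj]
  simp only [gr, ne_eq, Sum.inl.injEq]
  tauto

theorem card_fin_lt {c : ℕ} (h : c ≤ K) : Fintype.card {b : Fin K // (b : ℕ) < c} = c := by
  rw [Fintype.card_congr (⟨fun b => ⟨b.1, b.2⟩, fun b => ⟨⟨b.1, b.2.trans_le h⟩, b.2⟩, fun b => rfl, fun b => rfl⟩ :
    {b : Fin K // (b : ℕ) < c} ≃ Fin c), Fintype.card_fin]

/-- an involution along edges gives a selection -/
theorem gsel_of_inv {A : I × Bool → V → Prop} {lo hi : V → ℕ} (hlo : ∀ v, lo v ≤ K)
    {m : Nod V I K → Nod V I K} (hm : ∀ w, m (m w) = w)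
    (ha : ∀ w, (gG A lo hi).Adj w (m w)) : GSel A lo hi (rd m) := by
  classical
  have card : ∀ v, #{p | rd m p = some v} = #{c : Fin K | (m (.inl (v, c))).isRight} := by
    intro v
    symm
    refine Finset.card_bij (fun c hc => (m (.inl (v, c))).getRight (by simpa using hc)) ?_ ?_ ?_
    · intro c hc
      simp only [Finset.mem_filter, Finset.mem_univ, true_and]
      rw [rd_some]
      exact ⟨c, by rw [Sum.inr_getRight, hm]⟩
    · intro c hc c' hc' h
      have h1 : m (.inl (v, c)) = m (.inl (v, c')) := by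
        rw [← Sum.inr_getRight (m (.inl (v, c))) (by simpa using hc), h, Sum.inr_getRight]
      have h2 := congrArg m h1
      rw [hm, hm] at h2
      simpa using h2
    · intro p hp
      have := (Finset.mem_filter.1 hp).2
      obtain ⟨c, hc⟩ := rd_some.1 this
      have h2 : m (.inl (v, c)) = .inr p := by rw [← hc, hm]
      exact ⟨c, by simp [h2], (Sum.getRight_eq_iff _).2 h2⟩
  refine ⟨?_, ?_, ?_, ?_⟩
  · have aux : ∀ i b, rd m (i, b) = none → rd m (i, !b) = none := by
      intro i b h
      obtain ⟨q, hq⟩ := rd_none.1 h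
      have h1 := ha (.inr (i, b))
      rw [hq] at h1
      have := gG_rr h1
      subst this
      rw [rd_none]
      exact ⟨(i, b), by rw [← hq, hm]⟩
    intro i
    exact ⟨fun h => by simpa using aux i false h, fun h => by simpa using aux i true h⟩
  · intro p v h
    obtain ⟨c, hc⟩ := rd_some.1 h
    have h1 := ha (.inr p)
    rw [hc, gG_rl] at h1
    exact h1.1
  · intro v
    rw [card]
    have h1 : ({c : Fin K | (c : ℕ) < lo v} : Finset (Fin K)) ⊆
        ({c : Fin K | (m (.inl (v, c))).isRight} : Finset (Fin K)) := by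
      intro c hc
      simp only [Finset.mem_filter, Finset.mem_univ, true_and] at hc ⊢
      rcases h : m (.inl (v, c)) with q | p
      · have h1 := ha (.inl (v, c))
        rw [h, gG_ll] at h1
        have := h1.2.1
        dsimp only at this
        omega
      · rfl
    refine le_trans ?_ (Finset.card_le_card h1)
    rw [← Fintype.card_subtype, card_fin_lt (hlo v)]
  · intro v
    rw [card]
    by_cases hK : hi v ≤ K
    · have h1 : ({c : Fin K | (m (.inl (v, c))).isRight} : Finset (Fin K)) ⊆
          ({c : Fin K | (c : ℕ) < hi v} : Finset (Fin K)) := by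
        intro c hc
        simp only [Finset.mem_filter, Finset.mem_univ, true_and] at hc ⊢
        rcases h : m (.inl (v, c)) with q | p
        · rw [h] at hc; simp at hc
        · have h1 := (ha (.inl (v, c))).symm
          rw [h, gG_rl] at h1
          exact h1.2
      refine (Finset.card_le_card h1).trans ?_
      rw [← Fintype.card_subtype, card_fin_lt hK]
    · refine (Finset.card_le_univ _).trans ?_
      rw [Fintype.card_fin]
      omega

/-- a selection gives an involution along edges -/
theorem inv_of_gsel {A : I × Bool → V → Prop} {lo hi : V → ℕ} {g : I × Bool → Option V}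
    (h : GSel A lo hi g) (hK : ∀ v, #{p | g p = some v} ≤ K) (hev : K % 2 = 0) :
    ∃ m : Nod V I K → Nod V I K, (∀ w, m (m w) = w) ∧
      ∀ w, (gG A lo hi).Adj w (m w) := by
  classical
  set c : V → ℕ := fun v => #{p | g p = some v} with hc
  -- the bijection of the used nodes and the used copies
  have hcard : ∀ v, Fintype.card {p : {p : I × Bool // (g p).isSome} // (g p.1).get p.2 = v} =
      Fintype.card {b : Fin K // (b : ℕ) < c v} := by
    intro v
    rw [card_fin_lt (hK v), ← Fintype.card_subtype]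
    refine Fintype.card_congr ⟨fun p => ⟨p.1.1, ?_⟩, fun p => ⟨⟨p.1, ?_⟩, ?_⟩, ?_, ?_⟩
    · exact (Option.some_get p.1.2).symm.trans (congrArg some p.2)
    · rw [p.2]; rfl
    · simp [p.2]
    · intro p; rfl
    · intro p; rfl
  let e : {p : I × Bool // (g p).isSome} ≃ {q : V × Fin K // (q.2 : ℕ) < c q.1} :=
    (Equiv.sigmaFiberEquiv fun p : {p : I × Bool // (g p).isSome} =>
      (g p.1).get p.2).symm.trans ((Equiv.sigmaCongrRight fun v =>
        Fintype.equivOfCardEq (hcard v)).trans
        (Equiv.subtypeProdEquivSigmaSubtype (fun (v : V) (b : Fin K) => (b : ℕ) < c v)).symm)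
  have he : ∀ p, g p.1 = some (e p).1.1 := by
    intro p
    have : (e p).1.1 = (g p.1).get p.2 := rfl
    rw [this]; simp
  have he' : ∀ q, g (e.symm q).1 = some q.1.1 := by
    intro q
    have := he (e.symm q)
    simpa using this
  have hsome : ∀ i b, (g (i, b)).isSome → ∀ b', (g (i, b')).isSome := by
    intro i b hb b'
    have := h.pair i
    rcases b with _ | _ <;> rcases b' with _ | _
    · exact hb
    · by_contra h
      rw [Option.not_isSome_iff_eq_none] at h
      rw [this.2 h] at hb; simp at hb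
    · by_contra h
      rw [Option.not_isSome_iff_eq_none] at h
      rw [this.1 h] at hb; simp at hb
    · exact hb
  -- the unused copies
  have hU : ∃ k, Fintype.card {p : I × Bool // (g p).isSome} = k * 2 := by
    refine ⟨Fintype.card {i : I // (g (i, false)).isSome}, ?_⟩
    rw [← Fintype.card_bool, ← Fintype.card_prod]
    refine Fintype.card_congr ⟨fun p => (⟨p.1.1, hsome p.1.1 p.1.2 p.2 _⟩, p.1.2),
      fun q => ⟨(q.1.1, q.2), hsome q.1.1 false q.1.2 _⟩, ?_, ?_⟩
    · intro p; rfl
    · intro p; rfl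
  obtain ⟨k, hk⟩ := hU
  have hR : Fintype.card {q : V × Fin K // ¬ (q.2 : ℕ) < c q.1} + k * 2 =
      Fintype.card V * K := by
    rw [← hk, Fintype.card_congr e, add_comm]
    have := Fintype.card_subtype_compl (fun q : V × Fin K => (q.2 : ℕ) < c q.1)
    have h2 := Fintype.card_subtype_le (fun q : V × Fin K => (q.2 : ℕ) < c q.1)
    rw [this, Fintype.card_prod, Fintype.card_fin] at *
    omega
  obtain ⟨r, hr⟩ : ∃ r, Fintype.card {q : V × Fin K // ¬ (q.2 : ℕ) < c q.1} = r * 2 := by
    have h3 : Fintype.card V * K % 2 = 0 := by rw [Nat.mul_mod, hev]; simp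
    exact ⟨Fintype.card {q : V × Fin K // ¬ (q.2 : ℕ) < c q.1} / 2, by omega⟩
  let ρ : {q : V × Fin K // ¬ (q.2 : ℕ) < c q.1} ≃ Fin r × Bool :=
    Fintype.equivOfCardEq (by rw [hr, Fintype.card_prod, Fintype.card_fin, Fintype.card_bool])
  refine ⟨fun w => match w with
    | .inl q => if hq : (q.2 : ℕ) < c q.1 then .inr (e.symm ⟨q, hq⟩).1 else
        .inl (ρ.symm ((ρ ⟨q, hq⟩).1, !(ρ ⟨q, hq⟩).2)).1
    | .inr p => if hp : (g p).isSome then .inl (e ⟨p, hp⟩).1 else .inr (p.1, !p.2), ?_, ?_⟩
  · rintro (q | ⟨i, b⟩)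
    · by_cases hq : (q.2 : ℕ) < c q.1
      · have := (e.symm ⟨q, hq⟩).2
        simp [hq, this]
      · have := (ρ.symm ((ρ ⟨q, hq⟩).1, !(ρ ⟨q, hq⟩).2)).2
        simp only [hq, dite_false, this]
        simp
    · by_cases hp : (g (i, b)).isSome
      · have := (e ⟨(i, b), hp⟩).2
        simp [hp, this]
      · have h' : ¬ (g (i, !b)).isSome := fun h' => hp (hsome i _ h' _)
        simp only [hp]
        simp [h']
  · rintro (q | ⟨i, b⟩)
    · by_cases hq : (q.2 : ℕ) < c q.1
      · simp only [hq, dite_true]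
        refine ((gG_rl).2 ⟨?_, hq.trans_le (h.hi _)⟩).symm
        exact h.mem _ _ (he' ⟨q, hq⟩)
      · simp only [hq, dite_false]
        rw [gG_ll]
        have h2 := (ρ.symm ((ρ ⟨q, hq⟩).1, !(ρ ⟨q, hq⟩).2)).2
        refine ⟨?_, ?_, ?_⟩
        · intro h3
          have h4 : ρ.symm ((ρ ⟨q, hq⟩).1, !(ρ ⟨q, hq⟩).2) = ⟨q, hq⟩ := Subtype.ext h3.symm
          rw [Equiv.symm_apply_eq] at h4
          have := congrArg Prod.snd h4
          simp at this
        · exact (h.lo _).trans (not_lt.1 hq)
        · exact (h.lo _).trans (not_lt.1 h2)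
    · by_cases hp : (g (i, b)).isSome
      · simp only [hp, dite_true]
        rw [gG_rl]
        exact ⟨h.mem _ _ (he ⟨(i, b), hp⟩), (e ⟨(i, b), hp⟩).2.trans_le (h.hi _)⟩
      · simp only [hp]
        rcases b with _ | _
        · simp [gG, SimpleGraph.fromRel_adj, gr]
        · simp [gG, SimpleGraph.fromRel_adj, gr]

end Pool.Agent.PF4.Gd
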