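import Pool.Agent.PF4.GadC
import Pool.Agent.TFC.Defs

/-!
2-factors without 4-cycles in polynomial time: the matching gadget with degree intervals in terms of the sums
of units `sumU`.
-/

set_option autoImplicit false

namespace Pool.Agent.PF4.Gd

open Finset Pool.Agent.TFC
open scoped Pointwise

/-- the unit of a pair of lists -/
def tf (u : List ℕ × List ℕ) : Finset ℕ × Finset ℕ := (u.1.toFinset, u.2.toFinset)

theorem ev_apply (s v : ℕ) : (ev s : ℕ → ℤ) v = if s = v then 1 else 0 := by
  simp only [ev, Pi.single_apply, eq_comm]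

theorem chU_Un {n : ℕ} {u : List ℕ × List ℕ} {c : List (ℕ × ℕ)} (h : ChU n u c) :
    (fun v => (useU c v : ℤ)) ∈ Un (tf u).1 (tf u).2 := by
  rcases h with rfl | ⟨s, hs, t, ht, _, _, rfl⟩
  · left
    funext v
    simp [useU_nil]
  · right
    refine ⟨s, by simpa [tf] using hs, t, by simpa [tf] using ht, ?_⟩
    funext v
    rw [useU_single, Pi.add_apply, ev_apply, ev_apply]
    push_cast
    rfl

/-- the degree vector of a choice list is a sum of units -/
theorem ch_sumU {n : ℕ} {us : List (List ℕ × List ℕ)} {C : List (List (ℕ × ℕ))}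
    (h : List.Forall₂ (ChU n) us C) : (fun v => (use C v : ℤ)) ∈ sumU (us.map tf) := by
  induction h with
  | nil =>
    simp only [List.map_nil, sumU, Set.mem_singleton_iff]
    funext v
    simp [use_nil]
  | @cons u c us C h1 _ ih =>
    rw [List.map_cons, sumU, Set.mem_add]
    refine ⟨_, chU_Un h1, _, ih, ?_⟩
    funext v
    rw [Pi.add_apply, use_cons]
    push_cast
    rfl

/-- every sum of units is the degree vector of a choice list -/
theorem sumU_ch {n : ℕ} {us : List (List ℕ × List ℕ)}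
    (hn : ∀ u ∈ us, (∀ s ∈ u.1, s < n) ∧ ∀ t ∈ u.2, t < n) {x : ℕ → ℤ} (hx : x ∈ sumU (us.map tf)) :
    ∃ C, List.Forall₂ (ChU n) us C ∧ ∀ v, x v = use C v := by
  induction us generalizing x with
  | nil =>
    simp only [List.map_nil, sumU, Set.mem_singleton_iff] at hx
    subst hx
    exact ⟨[], List.Forall₂.nil, fun v => by simp [use_nil]⟩
  | cons u us ih =>
    rw [List.map_cons, sumU, Set.mem_add] at hx
    obtain ⟨a, ha, b, hb, rfl⟩ := hx
    obtain ⟨C, hC, hb'⟩ := ih (fun w hw => hn w (List.mem_cons_of_mem _ hw)) hb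
    have hu := hn u List.mem_cons_self
    rcases ha with rfl | ⟨s, hs, t, ht, rfl⟩
    · refine ⟨[] :: C, List.Forall₂.cons (Or.inl rfl) hC, fun v => ?_⟩
      rw [use_cons, useU_nil, Pi.add_apply, hb']
      simp
    · have hs' : s ∈ u.1 := by simpa [tf] using hs
      have ht' : t ∈ u.2 := by simpa [tf] using ht
      refine ⟨[(s, t)] :: C,
        List.Forall₂.cons (Or.inr ⟨s, hs', t, ht', hu.1 s hs', hu.2 t ht', rfl⟩) hC, fun v => ?_⟩
      rw [use_cons, useU_single, Pi.add_apply, Pi.add_apply, ev_apply, ev_apply, hb']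
      push_cast
      rfl

/-- `feas` decides whether a sum of units is in the box given by `lo` and `hi` -/
theorem feas_sumU {n : ℕ} {us : List (List ℕ × List ℕ)}
    (hn : ∀ u ∈ us, (∀ s ∈ u.1, s < n) ∧ ∀ t ∈ u.2, t < n) (lo hi : List ℕ) :
    feas n us lo hi = true ↔ ∃ x ∈ sumU (us.map tf), ∀ v < n,
      (lo.getD v 0 : ℤ) ≤ x v ∧ x v ≤ (hi.getD v 0 : ℤ) := by
  rw [feas_iff]
  constructor
  · rintro ⟨C, hC⟩
    refine ⟨_, ch_sumU hC.ch, fun v hv => ⟨?_, ?_⟩⟩
    · exact_mod_cast hC.lo v hv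
    · exact_mod_cast hC.hi v hv
  · rintro ⟨x, hx, h⟩
    obtain ⟨C, hC, hx'⟩ := sumU_ch hn hx
    refine ⟨C, hC, fun v hv => ?_, fun v hv => ?_⟩
    · have := (h v hv).1
      rw [hx'] at this
      exact_mod_cast this
    · have := (h v hv).2
      rw [hx'] at this
      exact_mod_cast this

end Pool.Agent.PF4.Gd
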