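import Pool.Agent.PF4.Outer

/-!
# The inner loop (population of clauses)

`cl x g N` is the clause of a `g`-cover `N`: the forbidden squares of `N` with two opposite corners of demand `2`. The state
of the loop is a population `P` of `g`-covers with pairwise disjoint nonempty clauses whose union `DD` has no conflict, and
at most one further `g`-cover `N` without member of `DD`. Interfaces: `solver` finds a `g`-cover without member of `DD` (or
reports that there is no valid one), `xf` resolves a conflict of two clauses, `brk` breaks the harmless squares.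
-/

set_option autoImplicit false

namespace Pool.Agent.PF4

open Pool.Agent.Lib.helper60

/-- the interface of the inner loop -/
structure InApi (ι O κ : Type) [DEnc ι] [DEnc O] [DEnc κ] [DecidableEq κ] where
  /-- number of vertices -/
  nv : ι → ℕ
  /-- degree of a vertex in an object -/
  deg : ι → O → ℕ → ℕ
  /-- 2-matchings -/
  m2 : ι → O → Prop
  /-- well-formed instances -/
  wf : ι → Prop
  /-- the list of the forbidden squares -/
  sqs : ι → List κ
  /-- the square is contained in the object -/
  has : ι → O → κ → Bool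
  /-- the square has two opposite corners of demand 2 -/
  opp : ι → List ℕ → κ → Bool
  /-- the two squares share exactly one edge -/
  conf : κ → κ → Bool
  /-- the empty object -/
  emp : O
  /-- a dummy square -/
  k0 : κ
  /-- `exch (x, M, L, v)`: the two-step exchange from `M` towards `L` with first step `+ e_v` -/
  exch : ι × O × O × ℕ → O
  /-- `solver (x, g, W, DD, P)` -/
  solver : ι × List ℕ × List (ℕ × O) × List κ × List O → Bool × O
  /-- `xf (x, g, W, F, N, Q, R)` -/
  xf : ι × List ℕ × List (ℕ × O) × O × O × κ × κ → O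
  /-- `brk (x, g, N)` -/
  brk : ι × List ℕ × O → O
  /-- bound of the sizes of the objects -/
  B : ι → ℕ
  pt_nv : PT nv
  pt_deg : PT (fun y : ι × O × ℕ => deg y.1 y.2.1 y.2.2)
  pt_sqs : PT sqs
  pt_has : PT (fun y : ι × O × κ => has y.1 y.2.1 y.2.2)
  pt_opp : PT (fun y : ι × List ℕ × κ => opp y.1 y.2.1 y.2.2)
  pt_conf : PT (fun y : κ × κ => conf y.1 y.2)
  pt_eq : PT (fun y : κ × κ => decide (y.1 = y.2))
  pt_exch : PT exch
  pt_solver : PT solver
  pt_xf : PT xf
  pt_brk : PT brk
  pb : PB B
  size_exch : ∀ y, tsize (exch y) ≤ B y.1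
  size_solver : ∀ y, tsize (solver y).2 ≤ B y.1
  size_xf : ∀ y, tsize (xf y) ≤ B y.1
  sqs_nodup : ∀ x, wf x → (sqs x).Nodup
  conf_symm : ∀ x Q R, wf x → Q ∈ sqs x → R ∈ sqs x → conf Q R = conf R Q
  conf_has : ∀ x N Q R, wf x → m2 x N → Q ∈ sqs x → R ∈ sqs x → has x N Q = true → has x N R = true →
    conf Q R = false
  emp_valid : ∀ x, wf x → m2 x emp ∧ ∀ Q ∈ sqs x, has x emp Q = false
  exch_spec : ∀ x M L v, wf x → (m2 x M ∧ ∀ Q ∈ sqs x, has x M Q = false) →
    (m2 x L ∧ ∀ Q ∈ sqs x, has x L Q = false) → v < nv x → deg x M v < deg x L v →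
    (m2 x (exch (x, M, L, v)) ∧ ∀ Q ∈ sqs x, has x (exch (x, M, L, v)) Q = false) ∧
      ((∀ u < nv x, deg x M u + (if u = v then 1 else 0) ≤ deg x (exch (x, M, L, v)) u) ∨
        ∃ j < nv x, j ≠ v ∧ deg x L j < deg x M j ∧ ∀ u < nv x,
          deg x M u + (if u = v then 1 else 0) =
            deg x (exch (x, M, L, v)) u + (if u = j then 1 else 0))
  solver_spec : ∀ x g W v P, wf x →
    Dat nv deg (fun x M => m2 x M ∧ ∀ Q ∈ sqs x, has x M Q = false) x g W v →
    (∀ N ∈ P, m2 x N ∧ Cov (nv x) g (deg x N) ∧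
      (sqs x).filter (fun Q => opp x g Q && has x N Q) ≠ []) →
    (P.flatMap (fun N => (sqs x).filter (fun Q => opp x g Q && has x N Q))).Nodup →
    (∀ Q ∈ P.flatMap (fun N => (sqs x).filter (fun Q => opp x g Q && has x N Q)),
      ∀ R ∈ P.flatMap (fun N => (sqs x).filter (fun Q => opp x g Q && has x N Q)), conf Q R = false) →
    ((solver (x, g, W, P.flatMap (fun N => (sqs x).filter (fun Q => opp x g Q && has x N Q)), P)).1 = true →
      m2 x (solver (x, g, W, P.flatMap (fun N => (sqs x).filter (fun Q => opp x g Q && has x N Q)), P)).2 ∧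
      Cov (nv x) g (deg x
        (solver (x, g, W, P.flatMap (fun N => (sqs x).filter (fun Q => opp x g Q && has x N Q)), P)).2) ∧
      ∀ Q ∈ P.flatMap (fun N => (sqs x).filter (fun Q => opp x g Q && has x N Q)), has x
        (solver (x, g, W, P.flatMap (fun N => (sqs x).filter (fun Q => opp x g Q && has x N Q)), P)).2 Q =
          false) ∧
    ((solver (x, g, W, P.flatMap (fun N => (sqs x).filter (fun Q => opp x g Q && has x N Q)), P)).1 = false →
      ¬ ∃ L, (m2 x L ∧ ∀ Q ∈ sqs x, has x L Q = false) ∧ Cov (nv x) g (deg x L))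
  xf_spec : ∀ x g W v F N Q R, wf x →
    Dat nv deg (fun x M => m2 x M ∧ ∀ Q ∈ sqs x, has x M Q = false) x g W v →
    m2 x F → Cov (nv x) g (deg x F) → m2 x N → Cov (nv x) g (deg x N) →
    Q ∈ (sqs x).filter (fun Q => opp x g Q && has x F Q) →
    R ∈ (sqs x).filter (fun Q => opp x g Q && has x N Q) → conf Q R = true →
    m2 x (xf (x, g, W, F, N, Q, R)) ∧ Cov (nv x) g (deg x (xf (x, g, W, F, N, Q, R))) ∧
      ((∀ Z ∈ (sqs x).filter (fun Q' => opp x g Q' && has x (xf (x, g, W, F, N, Q, R)) Q'),
          Z ∈ (sqs x).filter (fun Q => opp x g Q && has x F Q) ∧ Z ≠ Q) ∨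
        (∀ Z ∈ (sqs x).filter (fun Q' => opp x g Q' && has x (xf (x, g, W, F, N, Q, R)) Q'),
          Z ∈ (sqs x).filter (fun Q => opp x g Q && has x N Q) ∧ Z ≠ R))
  brk_spec : ∀ x g N, wf x → g.length = nv x → (∀ u < nv x, g.getD u 0 ≤ 2) → m2 x N →
    Cov (nv x) g (deg x N) → (sqs x).filter (fun Q => opp x g Q && has x N Q) = [] →
    (m2 x (brk (x, g, N)) ∧ ∀ Q ∈ sqs x, has x (brk (x, g, N)) Q = false) ∧
      Cov (nv x) g (deg x (brk (x, g, N)))

namespace InApi

variable {ι O κ : Type} [DEnc ι] [DEnc O] [DEnc κ] [DecidableEq κ] (A : InApi ι O κ)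

/-- 2-matching without forbidden square -/
def valid (x : ι) (M : O) : Prop := A.m2 x M ∧ ∀ Q ∈ A.sqs x, A.has x M Q = false

/-- the clause of `N` -/
def cl (x : ι) (g : List ℕ) (N : O) : List κ := (A.sqs x).filter (fun Q => A.opp x g Q && A.has x N Q)

/-- the conflicts between the population and `N` -/
def cfs (x : ι) (g : List ℕ) (P : List O) (N : O) : List (κ × κ) :=
  (P.flatMap (fun F => A.cl x g F)).flatMap (fun Q =>
    ((A.cl x g N).filter (fun R => A.conf Q R)).map (fun R => (Q, R)))

/-- the square `Q` is in the clause of `F` -/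
def inc' (x : ι) (g : List ℕ) (Q : κ) (F : O) : Bool := (A.cl x g F).any (fun Z => decide (Z = Q))

/-- data of the inner problem -/
abbrev Cx (ι O : Type) : Type := ι × List ℕ × List (ℕ × O)

/-- state: data, population, mode (0: call the solver, 1: treat `N`, 2: found, 3: none), `N` -/
abbrev Is (ι O : Type) : Type := Cx ι O × List O × ℕ × O

/-- one round -/
def istep (s : Is ι O) : Is ι O :=
  let x := s.1.1
  let g := s.1.2.1
  let W := s.1.2.2
  let P := s.2.1
  let N := s.2.2.2
  if s.2.2.1 = 0 then
    let r := A.solver (x, g, W, P.flatMap (fun F => A.cl x g F), P)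
    bif r.1 then ((x, g, W), P, 1, r.2) else ((x, g, W), P, 3, N)
  else if s.2.2.1 = 1 then
    if (A.cl x g N).length = 0 then ((x, g, W), P, 2, N)
    else if (A.cfs x g P N).length = 0 then ((x, g, W), N :: P, 0, N)
    else
      let c := (A.cfs x g P N).headD (A.k0, A.k0)
      let F := (P.filter (fun F => A.inc' x g c.1 F)).headD N
      let L := A.xf (x, g, W, F, N, c.1, c.2)
      if (A.cl x g L).length = 0 then ((x, g, W), P, 2, L)
      else
        bif (A.cl x g L).all (fun Z => A.inc' x g Z F && !decide (Z = c.1)) then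
          ((x, g, W), L :: P.filter (fun F => !A.inc' x g c.1 F), 1, N)
        else ((x, g, W), P, 1, L)
  else s

/-- number of rounds -/
def rounds (x : ι) : ℕ :=
  (A.sqs x).length * ((A.sqs x).length + 3) + (A.sqs x).length + 3

/-- the inner algorithm -/
def inner (y : Cx ι O) : Bool × O :=
  let s := (A.istep)^[A.rounds y.1] (y, [], 0, A.emp)
  if s.2.2.1 = 2 then (true, A.brk (s.1.1, s.1.2.1, s.2.2.2)) else (false, A.emp)

/-! ### correctness -/

theorem inc'_iff {x : ι} {g : List ℕ} {Q : κ} {F : O} : A.inc' x g Q F = true ↔ Q ∈ A.cl x g F := by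
  simp [inc']

theorem mem_cfs {x : ι} {g : List ℕ} {P : List O} {N : O} {c : κ × κ} :
    c ∈ A.cfs x g P N ↔ c.1 ∈ P.flatMap (fun F => A.cl x g F) ∧ c.2 ∈ A.cl x g N ∧
      A.conf c.1 c.2 = true := by
  unfold cfs
  constructor
  · intro h
    obtain ⟨Q, hQ, h2⟩ := List.mem_flatMap.1 h
    obtain ⟨R, hR, rfl⟩ := List.mem_map.1 h2
    obtain ⟨h3, h4⟩ := List.mem_filter.1 hR
    exact ⟨hQ, h3, h4⟩
  · rintro ⟨h1, h2, h3⟩
    exact List.mem_flatMap.2 ⟨c.1, h1, List.mem_map.2 ⟨c.2, List.mem_filter.2 ⟨h2, h3⟩, rfl⟩⟩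

theorem cl_sub {x : ι} {g : List ℕ} {N : O} {Q : κ} (h : Q ∈ A.cl x g N) : Q ∈ A.sqs x :=
  (List.mem_filter.1 h).1

theorem cl_has {x : ι} {g : List ℕ} {N : O} {Q : κ} (h : Q ∈ A.cl x g N) : A.has x N Q = true :=
  (Bool.and_eq_true _ _ ▸ (List.mem_filter.1 h).2).2

theorem cl_nodup {x : ι} (hx : A.wf x) (g : List ℕ) (N : O) : (A.cl x g N).Nodup :=
  (A.sqs_nodup x hx).filter _

/-- the union of the clauses -/
def dd (x : ι) (g : List ℕ) (P : List O) : List κ := P.flatMap (fun F => A.cl x g F)

/-- the invariant of the inner loop -/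
structure IInv (x : ι) (g : List ℕ) (W : List (ℕ × O)) (k : ℕ) (s : Is ι O) : Prop where
  e : s.1 = (x, g, W)
  mem : ∀ N ∈ s.2.1, A.m2 x N ∧ Cov (A.nv x) g (A.deg x N) ∧ A.cl x g N ≠ []
  nod : (A.dd x g s.2.1).Nodup
  free : ∀ Q ∈ A.dd x g s.2.1, ∀ R ∈ A.dd x g s.2.1, A.conf Q R = false
  m0 : s.2.2.1 = 0 → k + (((A.sqs x).length - s.2.1.length) * ((A.sqs x).length + 3) +
    ((A.sqs x).length + 2)) < A.rounds x
  m1 : s.2.2.1 = 1 → (k + (((A.sqs x).length - s.2.1.length) * ((A.sqs x).length + 3) +
    ((A.dd x g s.2.1).length + (A.cl x g s.2.2.2).length + 1)) < A.rounds x) ∧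
    A.m2 x s.2.2.2 ∧ Cov (A.nv x) g (A.deg x s.2.2.2) ∧
    ∀ Q ∈ A.cl x g s.2.2.2, Q ∉ A.dd x g s.2.1
  m2 : s.2.2.1 = 2 → A.m2 x s.2.2.2 ∧ Cov (A.nv x) g (A.deg x s.2.2.2) ∧ A.cl x g s.2.2.2 = []
  m3 : s.2.2.1 = 3 → ¬ ∃ L, A.valid x L ∧ Cov (A.nv x) g (A.deg x L)
  md : s.2.2.1 ≤ 3

theorem dd_sub {x : ι} {g : List ℕ} {P : List O} {Q : κ} (h : Q ∈ A.dd x g P) : Q ∈ A.sqs x := by
  obtain ⟨N, _, h⟩ := List.mem_flatMap.1 h
  exact A.cl_sub h

theorem len_le (x : ι) (g : List ℕ) : ∀ (P : List O), (∀ N ∈ P, A.cl x g N ≠ []) →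
    P.length ≤ (A.dd x g P).length := by
  intro P
  induction P with
  | nil => intro _; simp
  | cons N P ih =>
    intro h
    have h1 := ih (fun N hN => h N (List.mem_cons_of_mem _ hN))
    have h2 : 0 < (A.cl x g N).length := List.length_pos_iff.2 (h N List.mem_cons_self)
    simp only [dd, List.flatMap_cons, List.length_append, List.length_cons] at h1 ⊢
    omega

theorem dd_len {x : ι} {g : List ℕ} {P : List O} (h : (A.dd x g P).Nodup) :
    (A.dd x g P).length ≤ (A.sqs x).length :=
  (h.subperm fun _ hQ => A.dd_sub hQ).length_le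

/-- the split of the population at the member which contains `Q` -/
theorem split {x : ι} {g : List ℕ} {P : List O} {Q : κ} (hn : (A.dd x g P).Nodup)
    (hQ : Q ∈ A.dd x g P) (N : O) :
    ∃ l₁ F l₂, P = l₁ ++ F :: l₂ ∧ Q ∈ A.cl x g F ∧
      (P.filter (fun F => A.inc' x g Q F)).headD N = F ∧
      P.filter (fun F => !A.inc' x g Q F) = l₁ ++ l₂ := by
  obtain ⟨F, hF, hQF⟩ := List.mem_flatMap.1 hQ
  obtain ⟨l₁, l₂, rfl⟩ := List.append_of_mem hF
  refine ⟨l₁, F, l₂, rfl, hQF, ?_, ?_⟩
  all_goals
    rw [dd, List.flatMap_append, List.flatMap_cons, List.nodup_append', List.nodup_append'] at hn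
    obtain ⟨h1, ⟨h2, h3, h4⟩, h5⟩ := hn
    have g1 : ∀ E ∈ l₁, A.inc' x g Q E = false := by
      intro E hE
      rw [← Bool.not_eq_true, A.inc'_iff]
      intro h
      exact h5 (List.mem_flatMap.2 ⟨E, hE, h⟩) (List.mem_append_left _ hQF)
    have g2 : ∀ E ∈ l₂, A.inc' x g Q E = false := by
      intro E hE
      rw [← Bool.not_eq_true, A.inc'_iff]
      intro h
      exact h4 hQF (List.mem_flatMap.2 ⟨E, hE, h⟩)
    have g3 : A.inc' x g Q F = true := A.inc'_iff.2 hQF
    rw [List.filter_append, List.filter_cons]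
  · rw [List.filter_eq_nil_iff.2 (fun E hE => by rw [g1 E hE]; simp), if_pos g3]
    rfl
  · rw [if_neg (by rw [g3]; simp), List.filter_eq_self.2 (fun E hE => by rw [g1 E hE]; rfl),
      List.filter_eq_self.2 (fun E hE => by rw [g2 E hE]; rfl)]

theorem iinv_step {x : ι} {g : List ℕ} {W : List (ℕ × O)} {v k : ℕ} {s : Is ι O} (hx : A.wf x)
    (hd : Dat A.nv A.deg A.valid x g W v) (h : A.IInv x g W k s) :
    A.IInv x g W (k + 1) (A.istep s) := by
  obtain ⟨⟨x', g', W'⟩, P, m, N⟩ := s
  obtain ⟨e, mem, nod, free, m0, m1, m2, m3, md⟩ := h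
  simp only [Prod.mk.injEq] at e mem nod free m0 m1 m2 m3 md
  obtain ⟨rfl, rfl, rfl⟩ := e
  unfold istep
  simp only
  have hlen := A.len_le x' g' P (fun N hN => (mem N hN).2.2)
  have hddl := A.dd_len nod
  by_cases h0 : m = 0
  · rw [if_pos h0]
    have key := A.solver_spec x' g' W' v P hx hd mem nod free
    change ((A.solver (x', g', W', P.flatMap (fun F => A.cl x' g' F), P)).1 = true → _) ∧
      ((A.solver (x', g', W', P.flatMap (fun F => A.cl x' g' F), P)).1 = false → _) at key
    generalize hr : A.solver (x', g', W', P.flatMap (fun F => A.cl x' g' F), P) = r at key ⊢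
    have hr' : A.solver (x', g', W', P.flatMap (fun N => (A.sqs x').filter
      (fun Q => A.opp x' g' Q && A.has x' N Q)), P) = r := hr
    rw [hr'] at key
    obtain ⟨r1, L⟩ := r
    have hm0 := m0 h0
    cases r1 with
    | false =>
      simp only [cond_false]
      refine ⟨rfl, mem, nod, free, ?_, ?_, ?_, ?_, by simp⟩
      · intro h; simp at h
      · intro h; simp at h
      · intro h; simp at h
      · intro _
        exact key.2 rfl
    | true =>
      simp only [cond_true]
      obtain ⟨k1, k2, k3⟩ := key.1 rfl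
      have hdis : ∀ Q ∈ A.cl x' g' L, Q ∉ A.dd x' g' P := by
        intro Q hQ hQ'
        have := k3 Q hQ'
        rw [A.cl_has hQ] at this
        simp at this
      refine ⟨rfl, mem, nod, free, ?_, ?_, ?_, ?_, by simp⟩
      · intro h; simp at h
      · intro _
        refine ⟨?_, k1, k2, hdis⟩
        have h1 : (A.cl x' g' L ++ A.dd x' g' P).Nodup :=
          List.nodup_append'.2 ⟨A.cl_nodup hx g' L, nod, fun Q h1 h2 => hdis Q h1 h2⟩
        have h2 : (A.cl x' g' L ++ A.dd x' g' P).length ≤ (A.sqs x').length :=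
          (h1.subperm fun Q hQ => by
            rcases List.mem_append.1 hQ with hQ | hQ
            · exact A.cl_sub hQ
            · exact A.dd_sub hQ).length_le
        rw [List.length_append] at h2
        simp only
        omega
      · intro h; simp at h
      · intro h; simp at h
  · rw [if_neg h0]
    by_cases h1 : m = 1
    · rw [if_pos h1]
      obtain ⟨hb, n1, n2, n3⟩ := m1 h1
      by_cases hc : (A.cl x' g' N).length = 0
      · rw [if_pos hc]
        refine ⟨rfl, mem, nod, free, ?_, ?_, ?_, ?_, by simp⟩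
        · intro h; simp at h
        · intro h; simp at h
        · intro _
          exact ⟨n1, n2, List.length_eq_zero_iff.1 hc⟩
        · intro h; simp at h
      · rw [if_neg hc]
        by_cases hf : (A.cfs x' g' P N).length = 0
        · rw [if_pos hf]
          have hf' : ∀ Q ∈ A.dd x' g' P, ∀ R ∈ A.cl x' g' N, A.conf Q R = false := by
            intro Q hQ R hR
            rw [← Bool.not_eq_true]
            intro h
            have : (Q, R) ∈ A.cfs x' g' P N := A.mem_cfs.2 ⟨hQ, hR, h⟩
            rw [List.length_eq_zero_iff.1 hf] at this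
            simp at this
          have e1 : A.dd x' g' (N :: P) = A.cl x' g' N ++ A.dd x' g' P := by
            simp [dd]
          have hnod : (A.dd x' g' (N :: P)).Nodup := by
            rw [e1]
            exact List.nodup_append'.2 ⟨A.cl_nodup hx g' N, nod, fun Q h1 h2 => n3 Q h1 h2⟩
          have hmem : ∀ E ∈ N :: P, A.m2 x' E ∧ Cov (A.nv x') g' (A.deg x' E) ∧
              A.cl x' g' E ≠ [] := by
            intro E hE
            rcases List.mem_cons.1 hE with rfl | hE
            · exact ⟨n1, n2, fun h => hc (by rw [h]; rfl)⟩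
            · exact mem E hE
          refine ⟨rfl, hmem, hnod, ?_, ?_, ?_, ?_, ?_, by simp⟩
          · intro Q hQ R hR
            simp only [e1, List.mem_append] at hQ hR
            rcases hQ with hQ | hQ <;> rcases hR with hR | hR
            · exact A.conf_has x' N Q R hx n1 (A.cl_sub hQ) (A.cl_sub hR) (A.cl_has hQ)
                (A.cl_has hR)
            · rw [A.conf_symm x' Q R hx (A.cl_sub hQ) (A.dd_sub hR)]
              exact hf' R hR Q hQ
            · exact hf' Q hQ R hR
            · exact free Q hQ R hR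
          · intro _
            have h3 := A.len_le x' g' (N :: P) (fun N hN => (hmem N hN).2.2)
            have h4 := A.dd_len hnod
            simp only [List.length_cons] at h3 ⊢
            have h5 : (A.sqs x').length - P.length =
                ((A.sqs x').length - (P.length + 1)) + 1 := by omega
            rw [h5, Nat.add_mul] at hb
            omega
          · intro h; simp at h
          · intro h; simp at h
          · intro h; simp at h
        · rw [if_neg hf]
          obtain ⟨c, hc1, hc2⟩ : ∃ c, (A.cfs x' g' P N).headD (A.k0, A.k0) = c ∧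
              c ∈ A.cfs x' g' P N := by
            cases hcc : A.cfs x' g' P N with
            | nil => rw [hcc] at hf; exact absurd rfl hf
            | cons a l => exact ⟨a, rfl, List.mem_cons_self⟩
          rw [hc1]
          obtain ⟨d1, d2, d3⟩ := A.mem_cfs.1 hc2
          obtain ⟨l₁, F, l₂, hP, hQF, hF, hfil⟩ := A.split nod d1 N
          rw [hF, hfil]
          have hFP : F ∈ P := by rw [hP]; simp
          obtain ⟨f1, f2, f3⟩ := mem F hFP
          have key := A.xf_spec x' g' W' v F N c.1 c.2 hx hd f1 f2 n1 n2 hQF d2 d3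
          generalize A.xf (x', g', W', F, N, c.1, c.2) = L at key ⊢
          obtain ⟨k1, k2, k3⟩ := key
          by_cases hL : (A.cl x' g' L).length = 0
          · rw [if_pos hL]
            refine ⟨rfl, mem, nod, free, ?_, ?_, ?_, ?_, by simp⟩
            · intro h; simp at h
            · intro h; simp at h
            · intro _
              exact ⟨k1, k2, List.length_eq_zero_iff.1 hL⟩
            · intro h; simp at h
          · rw [if_neg hL]
            cases hall : (A.cl x' g' L).all (fun Z => A.inc' x' g' Z F && !decide (Z = c.1)) with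
            | true =>
              simp only [cond_true]
              have hsub : ∀ Z ∈ A.cl x' g' L, Z ∈ A.cl x' g' F ∧ Z ≠ c.1 := by
                intro Z hZ
                have := List.all_eq_true.1 hall Z hZ
                simp only [Bool.and_eq_true, A.inc'_iff, Bool.not_eq_true', decide_eq_false_iff_not]
                  at this
                exact this
              have e1 : A.dd x' g' (L :: (l₁ ++ l₂)) = A.cl x' g' L ++ A.dd x' g' (l₁ ++ l₂) := by
                simp [dd]
              have e2 : (A.dd x' g' P).Perm (A.cl x' g' F ++ A.dd x' g' (l₁ ++ l₂)) := by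
                rw [hP]
                simp only [dd, List.flatMap_append, List.flatMap_cons]
                rw [← List.append_assoc, ← List.append_assoc]
                exact List.Perm.append_right _ List.perm_append_comm
              have hn2 := (e2.nodup_iff.1 nod)
              rw [List.nodup_append'] at hn2
              obtain ⟨_, hn3, hn4⟩ := hn2
              have hsubdd : ∀ Z ∈ A.dd x' g' (L :: (l₁ ++ l₂)), Z ∈ A.dd x' g' P := by
                intro Z hZ
                rw [e1] at hZ
                rw [e2.mem_iff]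
                rcases List.mem_append.1 hZ with hZ | hZ
                · exact List.mem_append_left _ (hsub Z hZ).1
                · exact List.mem_append_right _ hZ
              have hcF : (A.cl x' g' L).length + 1 ≤ (A.cl x' g' F).length := by
                have h5 : (c.1 :: A.cl x' g' L).Nodup :=
                  List.nodup_cons.2 ⟨fun h => (hsub _ h).2 rfl, A.cl_nodup hx g' L⟩
                exact (h5.subperm fun Z hZ => by
                  rcases List.mem_cons.1 hZ with rfl | hZ
                  · exact hQF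
                  · exact (hsub Z hZ).1).length_le
              refine ⟨rfl, ?_, ?_, ?_, ?_, ?_, ?_, ?_, by simp⟩
              · intro E hE
                rcases List.mem_cons.1 hE with rfl | hE
                · exact ⟨k1, k2, fun h => hL (by rw [h]; rfl)⟩
                · refine mem E ?_
                  rw [hP]
                  rcases List.mem_append.1 hE with hE | hE
                  · exact List.mem_append_left _ hE
                  · exact List.mem_append_right _ (List.mem_cons_of_mem _ hE)
              · show (A.dd x' g' (L :: (l₁ ++ l₂))).Nodup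
                rw [e1, List.nodup_append']
                exact ⟨A.cl_nodup hx g' L, hn3, fun Z h1 h2 => hn4 (hsub Z h1).1 h2⟩
              · intro Q hQ R hR
                exact free Q (hsubdd Q hQ) R (hsubdd R hR)
              · intro h; simp at h
              · intro _
                refine ⟨?_, n1, n2, ?_⟩
                · have e3 : (A.dd x' g' P).length =
                      (A.cl x' g' F).length + (A.dd x' g' (l₁ ++ l₂)).length := by
                    rw [e2.length_eq, List.length_append]
                  have e4 : (A.dd x' g' (L :: (l₁ ++ l₂))).length =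
                      (A.cl x' g' L).length + (A.dd x' g' (l₁ ++ l₂)).length := by
                    rw [e1, List.length_append]
                  have e5 : (L :: (l₁ ++ l₂)).length = P.length := by
                    rw [hP]; simp only [List.length_cons, List.length_append]; omega
                  simp only
                  rw [e4, e5]
                  omega
                · intro Q hQ hQ'
                  exact n3 Q hQ (hsubdd Q hQ')
              · intro h; simp at h
              · intro h; simp at h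
            | false =>
              simp only [cond_false]
              have hsub : ∀ Z ∈ A.cl x' g' L, Z ∈ A.cl x' g' N ∧ Z ≠ c.2 := by
                rcases k3 with k3 | k3
                · exfalso
                  rw [← Bool.not_eq_true] at hall
                  apply hall
                  rw [List.all_eq_true]
                  intro Z hZ
                  simp only [Bool.and_eq_true, A.inc'_iff, Bool.not_eq_true',
                    decide_eq_false_iff_not]
                  exact k3 Z hZ
                · exact k3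
              have hcN : (A.cl x' g' L).length + 1 ≤ (A.cl x' g' N).length := by
                have h5 : (c.2 :: A.cl x' g' L).Nodup :=
                  List.nodup_cons.2 ⟨fun h => (hsub _ h).2 rfl, A.cl_nodup hx g' L⟩
                exact (h5.subperm fun Z hZ => by
                  rcases List.mem_cons.1 hZ with rfl | hZ
                  · exact d2
                  · exact (hsub Z hZ).1).length_le
              refine ⟨rfl, mem, nod, free, ?_, ?_, ?_, ?_, by simp⟩
              · intro h; simp at h
              · intro _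
                refine ⟨?_, k1, k2, fun Q hQ => n3 Q (hsub Q hQ).1⟩
                simp only
                omega
              · intro h; simp at h
              · intro h; simp at h
    · rw [if_neg h1]
      exact ⟨rfl, mem, nod, free, fun h => absurd h h0, fun h => absurd h h1, m2, m3, md⟩

theorem iinv_iter {x : ι} {g : List ℕ} {W : List (ℕ × O)} {v : ℕ} (hx : A.wf x)
    (hd : Dat A.nv A.deg A.valid x g W v) (k : ℕ) :
    A.IInv x g W k ((A.istep)^[k] ((x, g, W), [], 0, A.emp)) := by
  induction k with
  | zero =>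
    refine ⟨rfl, ?_, ?_, ?_, ?_, ?_, ?_, ?_, by simp⟩
    · intro N hN; simp at hN
    · simp [dd]
    · intro Q hQ; simp [dd] at hQ
    · intro _
      simp only [Function.iterate_zero, id_eq, List.length_nil, rounds, Nat.sub_zero]
      omega
    · intro h; simp at h
    · intro h; simp at h
    · intro h; simp at h
  | succ k ih =>
    rw [Function.iterate_succ_apply']
    exact A.iinv_step hx hd ih

theorem inner_spec {x : ι} {g : List ℕ} {W : List (ℕ × O)} {v : ℕ} (hx : A.wf x)
    (hd : Dat A.nv A.deg A.valid x g W v) :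
    ((A.inner (x, g, W)).1 = true → A.valid x (A.inner (x, g, W)).2 ∧
      Cov (A.nv x) g (A.deg x (A.inner (x, g, W)).2)) ∧
    ((A.inner (x, g, W)).1 = false → ¬ ∃ L, A.valid x L ∧ Cov (A.nv x) g (A.deg x L)) := by
  have h := A.iinv_iter hx hd (A.rounds x)
  unfold inner
  simp only
  generalize (A.istep)^[A.rounds x] ((x, g, W), [], 0, A.emp) = s at h ⊢
  obtain ⟨⟨x', g', W'⟩, P, m, N⟩ := s
  obtain ⟨e, mem, nod, free, m0, m1, m2, m3, md⟩ := h
  simp only [Prod.mk.injEq] at e mem nod free m0 m1 m2 m3 md
  obtain ⟨rfl, rfl, rfl⟩ := e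
  have h0 : m ≠ 0 := fun h => by have := m0 h; omega
  have h1 : m ≠ 1 := fun h => by have := (m1 h).1; omega
  by_cases h2 : m = 2
  · rw [if_pos h2]
    refine ⟨fun _ => ?_, fun h => by simp at h⟩
    obtain ⟨n1, n2, n3⟩ := m2 h2
    refine A.brk_spec x' g' N hx hd.len ?_ n1 n2 n3
    intro u hu
    by_cases huv : u = v
    · rw [huv]; exact hd.two
    · rcases hd.off u hu huv with h | h <;> omega
  · rw [if_neg h2]
    refine ⟨fun h => by simp at h, fun _ => m3 (by omega)⟩

/-! ### polynomial time -/

section pt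

variable {τ : Type} [DEnc τ]

theorem pt_cl {x : τ → ι} {g : τ → List ℕ} {N : τ → O} (hx : PT x) (hg : PT g) (hN : PT N) :
    PT (fun y => A.cl (x y) (g y) (N y)) := by
  unfold cl
  refine PT.filter (p := fun z : τ × κ => A.opp (x z.1) (g z.1) z.2 && A.has (x z.1) (N z.1) z.2)
    (A.pt_sqs.comp hx) ?_
  exact PT.band (A.pt_opp.comp (PT.pair (hx.comp PT.fst) (PT.pair (hg.comp PT.fst) PT.snd)))
    (A.pt_has.comp (PT.pair (hx.comp PT.fst) (PT.pair (hN.comp PT.fst) PT.snd)))

theorem pt_inc' {x : τ → ι} {g : τ → List ℕ} {Q : τ → κ} {N : τ → O} (hx : PT x) (hg : PT g)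
    (hQ : PT Q) (hN : PT N) : PT (fun y => A.inc' (x y) (g y) (Q y) (N y)) := by
  unfold inc'
  exact PT.any (p := fun z : τ × κ => decide (z.2 = Q z.1)) (A.pt_cl hx hg hN)
    (A.pt_eq.comp (PT.pair PT.snd (hQ.comp PT.fst)))

theorem pt_dd {x : τ → ι} {g : τ → List ℕ} {P : τ → List O} (hx : PT x) (hg : PT g) (hP : PT P) :
    PT (fun y => (P y).flatMap (fun F => A.cl (x y) (g y) F)) :=
  PT.flatMap (g := fun z : τ × O => A.cl (x z.1) (g z.1) z.2) hP
    (A.pt_cl (hx.comp PT.fst) (hg.comp PT.fst) PT.snd)

theorem pt_cfs {x : τ → ι} {g : τ → List ℕ} {P : τ → List O} {N : τ → O} (hx : PT x) (hg : PT g)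
    (hP : PT P) (hN : PT N) : PT (fun y => A.cfs (x y) (g y) (P y) (N y)) := by
  unfold cfs
  refine PT.flatMap (g := fun z : τ × κ => ((A.cl (x z.1) (g z.1) (N z.1)).filter
    (fun R => A.conf z.2 R)).map (fun R => (z.2, R))) (A.pt_dd hx hg hP) ?_
  refine PT.map (g := fun w : (τ × κ) × κ => (w.1.2, w.2)) ?_ (PT.pair PT.fst.p2 PT.snd)
  exact PT.filter (p := fun w : (τ × κ) × κ => A.conf w.1.2 w.2)
    (A.pt_cl (hx.comp PT.fst) (hg.comp PT.fst) (hN.comp PT.fst))
    (A.pt_conf.comp (PT.pair PT.fst.p2 PT.snd))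

end pt

theorem pt_istep : PT A.istep := by
  unfold istep
  have x : PT (fun s : Is ι O => s.1.1) := PT.fst.p1
  have g : PT (fun s : Is ι O => s.1.2.1) := PT.fst.p2.p1
  have W : PT (fun s : Is ι O => s.1.2.2) := PT.fst.p2.p2
  have P : PT (fun s : Is ι O => s.2.1) := PT.snd.p1
  have m : PT (fun s : Is ι O => s.2.2.1) := PT.snd.p2.p1
  have N : PT (fun s : Is ι O => s.2.2.2) := PT.snd.p2.p2
  have D : PT (fun s : Is ι O => (s.1.1, s.1.2.1, s.1.2.2)) := PT.pair x (PT.pair g W)
  have r := A.pt_solver.comp (PT.pair x (PT.pair g (PT.pair W (PT.pair (A.pt_dd x g P) P))))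
  have cN := A.pt_cl x g N
  have cs := A.pt_cfs x g P N
  have c := PT.headD cs (PT.const (A.k0, A.k0))
  have F := PT.headD (PT.filter (p := fun z : Is ι O × O => A.inc' z.1.1.1 z.1.1.2.1
    ((A.cfs z.1.1.1 z.1.1.2.1 z.1.2.1 z.1.2.2.2).headD (A.k0, A.k0)).1 z.2) P
    (A.pt_inc' (x.comp PT.fst) (g.comp PT.fst) (c.p1.comp PT.fst) PT.snd)) N
  have L := A.pt_xf.comp (PT.pair x (PT.pair g (PT.pair W (PT.pair F (PT.pair N (PT.pair c.p1 c.p2))))))
  have cL := A.pt_cl x g L
  refine PT.ite (PT.neq m (PT.const 0)) (PT.cond r.p1 ?_ ?_) (PT.ite (PT.neq m (PT.const 1))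
    (PT.ite (PT.neq (PT.length cN) (PT.const 0)) ?_ (PT.ite (PT.neq (PT.length cs) (PT.const 0)) ?_
      (PT.ite (PT.neq (PT.length cL) (PT.const 0)) ?_ (PT.cond ?_ ?_ ?_)))) PT.id)
  · exact PT.pair D (PT.pair P (PT.pair (PT.const 1) r.p2))
  · exact PT.pair D (PT.pair P (PT.pair (PT.const 3) N))
  · exact PT.pair D (PT.pair P (PT.pair (PT.const 2) N))
  · exact PT.pair D (PT.pair (PT.cons N P) (PT.pair (PT.const 0) N))
  · exact PT.pair D (PT.pair P (PT.pair (PT.const 2) L))
  · refine PT.all (p := fun z : Is ι O × κ => A.inc' z.1.1.1 z.1.1.2.1 z.2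
      ((z.1.2.1.filter (fun F => A.inc' z.1.1.1 z.1.1.2.1
        ((A.cfs z.1.1.1 z.1.1.2.1 z.1.2.1 z.1.2.2.2).headD (A.k0, A.k0)).1 F)).headD z.1.2.2.2) &&
      !decide (z.2 = ((A.cfs z.1.1.1 z.1.1.2.1 z.1.2.1 z.1.2.2.2).headD (A.k0, A.k0)).1)) cL ?_
    exact PT.band (A.pt_inc' (x.comp PT.fst) (g.comp PT.fst) PT.snd (F.comp PT.fst))
      (PT.bnot (A.pt_eq.comp (PT.pair PT.snd (c.p1.comp PT.fst))))
  · refine PT.pair D (PT.pair (PT.cons L ?_) (PT.pair (PT.const 1) N))
    exact PT.filter (p := fun z : Is ι O × O => !A.inc' z.1.1.1 z.1.1.2.1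
      ((A.cfs z.1.1.1 z.1.1.2.1 z.1.2.1 z.1.2.2.2).headD (A.k0, A.k0)).1 z.2) P
      (PT.bnot (A.pt_inc' (x.comp PT.fst) (g.comp PT.fst) (c.p1.comp PT.fst) PT.snd))
  · exact PT.pair D (PT.pair P (PT.pair (PT.const 1) L))

theorem isz_iter (y : Cx ι O) (k : ℕ) :
    ((A.istep)^[k] (y, [], 0, A.emp)).1 = y ∧
      ((A.istep)^[k] (y, [], 0, A.emp)).2.1.length ≤ k ∧
      (∀ N ∈ ((A.istep)^[k] (y, [], 0, A.emp)).2.1, tsize N ≤ tsize A.emp + A.B y.1) ∧
      ((A.istep)^[k] (y, [], 0, A.emp)).2.2.1 ≤ 3 ∧
      tsize ((A.istep)^[k] (y, [], 0, A.emp)).2.2.2 ≤ tsize A.emp + A.B y.1 := by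
  induction k with
  | zero =>
    refine ⟨rfl, le_rfl, ?_, by simp, by simp⟩
    intro N hN; simp at hN
  | succ k ih =>
    rw [Function.iterate_succ_apply']
    generalize (A.istep)^[k] (y, [], 0, A.emp) = s at ih ⊢
    obtain ⟨⟨x, g, W⟩, P, m, N⟩ := s
    obtain ⟨e, h1, h2, h3, h4⟩ := ih
    simp only at e h1 h2 h3 h4
    subst e
    unfold istep
    simp only at h2 h4 ⊢
    split_ifs
    · have hS := A.size_solver (x, g, W, P.flatMap (fun F => A.cl x g F), P)
      simp only at hS
      cases (A.solver (x, g, W, P.flatMap (fun F => A.cl x g F), P)).1 with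
      | true => exact ⟨rfl, by simp only [cond_true]; omega, h2, by simp, by
          simp only [cond_true]; omega⟩
      | false => exact ⟨rfl, by simp only [cond_false]; omega, h2, by simp, h4⟩
    · exact ⟨rfl, by simp only; omega, h2, by simp, h4⟩
    · refine ⟨rfl, by simp only [List.length_cons]; omega, ?_, by simp, h4⟩
      intro E hE
      rcases List.mem_cons.1 hE with rfl | hE
      · exact h4
      · exact h2 E hE
    · exact ⟨rfl, by simp only; omega, h2, by simp, by
        have := A.size_xf (x, g, W, (P.filter (fun F => A.inc' x g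
          ((A.cfs x g P N).headD (A.k0, A.k0)).1 F)).headD N, N,
          ((A.cfs x g P N).headD (A.k0, A.k0)).1, ((A.cfs x g P N).headD (A.k0, A.k0)).2)
        simp only at this ⊢
        omega⟩
    · have hX := A.size_xf (x, g, W, (P.filter (fun F => A.inc' x g
          ((A.cfs x g P N).headD (A.k0, A.k0)).1 F)).headD N, N,
          ((A.cfs x g P N).headD (A.k0, A.k0)).1, ((A.cfs x g P N).headD (A.k0, A.k0)).2)
      simp only at hX
      cases (A.cl x g (A.xf (x, g, W, (P.filter (fun F => A.inc' x g
          ((A.cfs x g P N).headD (A.k0, A.k0)).1 F)).headD N, N,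
          ((A.cfs x g P N).headD (A.k0, A.k0)).1, ((A.cfs x g P N).headD (A.k0, A.k0)).2))).all
          (fun Z => A.inc' x g Z ((P.filter (fun F => A.inc' x g
          ((A.cfs x g P N).headD (A.k0, A.k0)).1 F)).headD N) &&
          !decide (Z = ((A.cfs x g P N).headD (A.k0, A.k0)).1)) with
      | true =>
        refine ⟨rfl, ?_, ?_, by simp, h4⟩
        · simp only [cond_true, List.length_cons]
          have := List.length_filter_le (fun F => !A.inc' x g
            ((A.cfs x g P N).headD (A.k0, A.k0)).1 F) P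
          omega
        · intro E hE
          rcases List.mem_cons.1 hE with rfl | hE
          · exact hX.trans (Nat.le_add_left _ _)
          · exact h2 E (List.mem_filter.1 hE).1
      | false =>
        exact ⟨rfl, by simp only [cond_false]; omega, h2, by simp, hX.trans (Nat.le_add_left _ _)⟩
    · exact ⟨rfl, by simp only; omega, h2, h3, h4⟩

theorem pt_inner : PT A.inner := by
  have hr : PT (fun y : Cx ι O => A.rounds y.1) := by
    unfold rounds
    have l : PT (fun y : Cx ι O => (A.sqs y.1).length) := PT.length (A.pt_sqs.comp PT.fst)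
    exact PT.nadd (PT.nadd (PT.nmul l (PT.nadd l (PT.const 3))) l) (PT.const 3)
  have hrb : PB (fun y : Cx ι O => A.rounds y.1) :=
    hr.size.of_le fun y => by simp only [tsize_nat]; omega
  have hB : PB (fun y : Cx ι O => tsize A.emp + A.B y.1) :=
    (PB.const _).add (A.pb.comp PT.fst.size)
  have h := PT.iterateNat (count := fun y : Cx ι O => A.rounds y.1)
    (init := fun y : Cx ι O => (y, ([] : List O), 0, A.emp)) hr
    (PT.pair PT.id (PT.const ([], 0, A.emp))) A.pt_istep
    ⟨fun y => tsize y + (A.rounds y.1 * ((tsize A.emp + A.B y.1) + 1) + 1) +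
      (tsize A.emp + A.B y.1) + 20, ?_, ?_⟩
  · unfold inner
    have m := h.p2.p2.p1
    have N := h.p2.p2.p2
    refine PT.ite (PT.neq m (PT.const 2)) (PT.pair (PT.const true) ?_) (PT.const (false, A.emp))
    exact A.pt_brk.comp (PT.pair h.p1.p1 (PT.pair h.p1.p2.p1 N))
  · exact ((PB.tsize.add ((hrb.mul (hB.add (PB.const 1))).add (PB.const 1))).add hB).add
      (PB.const 20)
  · intro y k hk
    obtain ⟨e, h1, h2, h3, h4⟩ := A.isz_iter y k
    generalize (A.istep)^[k] (y, ([] : List O), 0, A.emp) = s at *
    obtain ⟨y', P, m, N⟩ := s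
    simp only at e h1 h2 h3 h4
    subst e
    have h5 := tsize_le_of_forall h2
    have h6 : P.length * ((tsize A.emp + A.B y'.1) + 1) ≤
        A.rounds y'.1 * ((tsize A.emp + A.B y'.1) + 1) := Nat.mul_le_mul_right _ (by omega)
    have h7 : tsize (y', P, m, N) = tsize y' + (tsize P + ((2 * m + 1) + tsize N + 1) + 1) + 1 := by
      simp only [tsize_pair, tsize_nat]
    rw [h7]
    show _ ≤ tsize y' + (A.rounds y'.1 * ((tsize A.emp + A.B y'.1) + 1) + 1) +
      (tsize A.emp + A.B y'.1) + 20
    omega

/-- the interface of the outer loop -/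
def toOut : OutApi ι O where
  nv := A.nv
  deg := A.deg
  valid := A.valid
  wf := A.wf
  emp := A.emp
  exch := A.exch
  inner := A.inner
  B := A.B
  pt_nv := A.pt_nv
  pt_deg := A.pt_deg
  pt_exch := A.pt_exch
  pt_inner := A.pt_inner
  pb := A.pb
  size_exch := A.size_exch
  emp_valid := A.emp_valid
  exch_spec := A.exch_spec
  inner_spec := fun _ _ _ _ hx hd => A.inner_spec hx hd

/-- **The algorithm.** It runs in polynomial time and finds a 2-matching without forbidden square with all degrees at least
`2`, or reports that there is none. -/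
theorem main : PT A.toOut.alg ∧ ∀ x, A.wf x →
    ((A.toOut.alg x).1 = true → A.valid x (A.toOut.alg x).2 ∧
      ∀ u < A.nv x, 2 ≤ A.deg x (A.toOut.alg x).2 u) ∧
    ((A.toOut.alg x).1 = false → ¬ ∃ L, A.valid x L ∧ ∀ u < A.nv x, 2 ≤ A.deg x L u) :=
  ⟨A.toOut.pt_alg, fun _ hx => A.toOut.alg_spec hx⟩

end InApi

end Pool.Agent.PF4
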