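import Pool.Agent.PF4.XI

/-!
One world at one cluster with two hubs `a`, `b` and leaves `L`: the abstract form of the data, and the rules for excluded vectors.
-/

set_option autoImplicit false
set_option linter.unusedSectionVars false
set_option linter.unusedVariables false
set_option linter.unusedSimpArgs false

namespace Pool.Agent.PF4.XF

open Finset Pool.Agent.TFC

/-- what the edge set `{a x | x ∈ A} ∪ {b x | x ∈ B}` supplies -/
def kv (a b : ℕ) (A B : List ℕ) : ℕ → ℤ :=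
  (A.length : ℤ) • ev a + (B.length : ℤ) • ev b + (A.map ev).sum + (B.map ev).sum

/-- admissible pair of lists of leaves: no pair of `D` is joined to both hubs -/
structure Gd (L : Finset ℕ) (D : ℕ → ℕ → Prop) (A B : List ℕ) : Prop where
  nA : A.Nodup
  nB : B.Nodup
  lA : ∀ x ∈ A, x ∈ L
  lB : ∀ x ∈ B, x ∈ L
  cA : A.length ≤ 2
  cB : B.length ≤ 2
  g : ∀ u w, D u w → u ∈ A → w ∈ A → u ∈ B → w ∈ B → False

/-- the abstract world at a cluster with hubs `a`, `b`, leaves `L`, free vertices `Fr`; `Rp y r`: an edge `y r` outside the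
cluster may be used for repairs; `D u w`: the square `a u b w` is in the family -/
structure KW (n a b : ℕ) (L : Finset ℕ) (Fr : ℕ → Prop) (Rp : ℕ → ℕ → Prop) (D : ℕ → ℕ → Prop) (J : (ℕ → ℤ) → Prop) : Prop where
  ex : ∀ k k' (i : ℕ) (ε : ℤ), J k → J k' → (i = a ∨ i = b ∨ i ∈ L) → (ε = 1 ∨ ε = -1) →
    0 < ε * (k' i - k i) → ∃ k'', J k'' ∧ Two k k' k'' i ε
  X : ∀ (A B : List ℕ) (z : ℕ → ℤ), Gd L D A B → (∀ v, v ≠ n → 0 ≤ z v) →
    (∀ v, v ≠ n → ¬ Fr v → z v = 0) → ¬ J (kv a b A B + z)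
  XR : ∀ (y r : ℕ) (A B : List ℕ) (τ : ℤ), Rp y r → Gd L D A B → kv a b A B y = 1 →
    ¬ J (kv a b A B + ev y + ev r + τ • ev n)
  ab : a ≠ b
  aL : a ∉ L
  bL : b ∉ L
  na : n ≠ a
  nb : n ≠ b
  nL : n ∉ L
  irr : ∀ u, ¬ D u u
  sym : ∀ u w, D u w → D w u
  DL : ∀ u w, D u w → u ∈ L

/-- the witnesses -/
def FDs (a b : ℕ) (D : ℕ → ℕ → Prop) (J : (ℕ → ℤ) → Prop) : Prop :=
  ∀ u w, D u w → J ((2 : ℤ) • ev a + (2 : ℤ) • ev b + (2 : ℤ) • ev u + (2 : ℤ) • ev w)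

/-- a target vector -/
structure Tg (n a b : ℕ) (L R : Finset ℕ) (M : ℕ → ℤ) : Prop where
  nn : ∀ v, v ≠ n → 0 ≤ M v
  le : ∀ v, v ≠ n → M v ≤ 2
  sup : ∀ v, v ≠ a → v ≠ b → v ∉ L → v ≠ n → v ∉ R → M v = 0

lemma ev_single (i : ℕ) (ε : ℤ) : (Pi.single i ε : ℕ → ℤ) = ε • ev i := by
  funext v
  simp [ev, Pi.single_apply]

section

variable {n a b : ℕ} {L R : Finset ℕ} {Fr : ℕ → Prop} {Rp : ℕ → ℕ → Prop} {D : ℕ → ℕ → Prop} {J : (ℕ → ℤ) → Prop}

namespace KW

/-- the exchange, with explicit second step -/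
lemma st (W : KW n a b L Fr Rp D J) {u M : ℕ → ℤ} (hu : J u) (hM : J M) (i : ℕ) (ε : ℤ)
    (hi : i = a ∨ i = b ∨ i ∈ L) (hε : ε = 1 ∨ ε = -1) (h : 0 < ε * (M i - u i)) :
    ∃ (j : ℕ) (δ : ℤ), (δ = 1 ∨ δ = -1) ∧ 0 < δ * (M j - (u j + ε * ev i j)) ∧
      J (u + ε • ev i + δ • ev j) := by
  obtain ⟨k'', h1, j, δ, h2, h3, rfl⟩ := W.ex u M i ε hu hM hi hε h
  refine ⟨j, δ, h2, ?_, ?_⟩
  · simpa [ev_single] using h3
  · simpa [ev_single] using h1

/-- one free vertex -/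
lemma x (W : KW n a b L Fr Rp D J) {k : ℕ → ℤ} (h : J k) {y : ℕ} (hy : Fr y) (hyn : y ≠ n)
    (A B : List ℕ) (c τ : ℤ) (e : k = kv a b A B + c • ev y + τ • ev n) (hc : 0 ≤ c) (g : Gd L D A B) : False := by
  refine W.X A B (c • ev y + τ • ev n) g ?_ ?_ (by rw [← add_assoc, ← e]; exact h)
  · intro v hv
    simp only [Pi.add_apply, Pi.smul_apply, ev_apply, if_neg hv, smul_eq_mul, mul_zero, add_zero]
    split_ifs <;> simp [hc]
  · intro v hv hf
    have : v ≠ y := fun hh => hf (hh ▸ hy)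
    simp [ev_apply, hv, this]

/-- two free vertices -/
lemma x2 (W : KW n a b L Fr Rp D J) {k : ℕ → ℤ} (h : J k) {y y' : ℕ} (hy : Fr y) (hy' : Fr y')
    (A B : List ℕ) (c c' τ : ℤ) (e : k = kv a b A B + c • ev y + c' • ev y' + τ • ev n) (hc : 0 ≤ c) (hc' : 0 ≤ c')
    (g : Gd L D A B) : False := by
  refine W.X A B (c • ev y + c' • ev y' + τ • ev n) g ?_ ?_
    (by rw [← add_assoc, ← add_assoc, ← e]; exact h)
  · intro v hv
    simp only [Pi.add_apply, Pi.smul_apply, ev_apply, if_neg hv, smul_eq_mul, mul_zero, add_zero]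
    split_ifs <;> simp [hc, hc'] <;> omega
  · intro v hv hf
    have h1 : v ≠ y := fun hh => hf (hh ▸ hy)
    have h2 : v ≠ y' := fun hh => hf (hh ▸ hy')
    simp [ev_apply, hv, h1, h2]

end KW

/-! admissible pairs -/

lemma gd_le1 (hirr : ∀ u, ¬ D u u) {A B : List ℕ} (nA : A.Nodup) (nB : B.Nodup) (lA : ∀ x ∈ A, x ∈ L) (lB : ∀ x ∈ B, x ∈ L)
    (cA : A.length ≤ 2) (cB : B.length ≤ 2) (x : ℕ) (h : ∀ u ∈ A, u ∈ B → u = x) : Gd L D A B :=
  ⟨nA, nB, lA, lB, cA, cB, fun u w hD h1 h2 h3 h4 => by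
    have e1 := h u h1 h3
    have e2 := h w h2 h4
    rw [e1, e2] at hD
    exact hirr x hD⟩


section shapes

variable (W : KW n a b L Fr Rp D J)
include W

lemma KW.g00 : Gd L D [] [] :=
  gd_le1 W.irr (by simp) (by simp) (by simp) (by simp) (by simp) (by simp) 0 (by simp)

lemma KW.g01 {x : ℕ} (hx : x ∈ L) : Gd L D [] [x] :=
  gd_le1 W.irr (by simp) (by simp) (by simp) (by simpa using hx) (by simp) (by simp) 0 (by simp)

lemma KW.g10 {x : ℕ} (hx : x ∈ L) : Gd L D [x] [] :=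
  gd_le1 W.irr (by simp) (by simp) (by simpa using hx) (by simp) (by simp) (by simp) x (by simp)

lemma KW.g11 {x z : ℕ} (hx : x ∈ L) (hz : z ∈ L) : Gd L D [x] [z] :=
  gd_le1 W.irr (by simp) (by simp) (by simpa using hx) (by simpa using hz) (by simp) (by simp) x (by simp)

lemma KW.g02 {x z : ℕ} (hx : x ∈ L) (hz : z ∈ L) (h : x ≠ z) : Gd L D [] [x, z] :=
  gd_le1 W.irr (by simp) (by simp [h]) (by simp) (by simp [hx, hz]) (by simp) (by simp) x (by simp)

lemma KW.g20 {x z : ℕ} (hx : x ∈ L) (hz : z ∈ L) (h : x ≠ z) : Gd L D [x, z] [] :=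
  gd_le1 W.irr (by simp [h]) (by simp) (by simp [hx, hz]) (by simp) (by simp) (by simp) x (by simp)

lemma KW.g12 {x z w : ℕ} (hx : x ∈ L) (hz : z ∈ L) (hw : w ∈ L) (h : z ≠ w) : Gd L D [x] [z, w] :=
  gd_le1 W.irr (by simp) (by simp [h]) (by simp [hx]) (by simp [hw, hz]) (by simp) (by simp) x (by simp)

lemma KW.g21 {x z w : ℕ} (hx : x ∈ L) (hz : z ∈ L) (hw : w ∈ L) (h : x ≠ z) : Gd L D [x, z] [w] :=
  gd_le1 W.irr (by simp [h]) (by simp) (by simp [hx, hz]) (by simp [hw]) (by simp) (by simp) w (by simp)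

lemma KW.g22 {x z w : ℕ} (hx : x ∈ L) (hz : z ∈ L) (hw : w ∈ L) (h : x ≠ z) (h1 : x ≠ w) (h2 : z ≠ w) :
    Gd L D [x, z] [x, w] :=
  gd_le1 W.irr (by simp [h]) (by simp [h1]) (by simp [hx, hz]) (by simp [hx, hw]) (by simp) (by simp) x (by
    intro u h3 h4
    simp only [List.mem_cons, List.not_mem_nil, or_false] at h3 h4
    rcases h3 with rfl | rfl
    · rfl
    · rcases h4 with h4 | h4
      · exact h4
      · exact absurd h4 h2)

lemma KW.g2e {x z : ℕ} (hx : x ∈ L) (hz : z ∈ L) (h : x ≠ z) (hD : ¬ D x z) : Gd L D [x, z] [x, z] :=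
  ⟨by simp [h], by simp [h], by simp [hx, hz], by simp [hx, hz], by simp, by simp, by
    intro u w hD' h3 h4 _ _
    simp only [List.mem_cons, List.not_mem_nil, or_false] at h3 h4
    rcases h3 with rfl | rfl
    · rcases h4 with rfl | rfl
      · exact W.irr _ hD'
      · exact hD hD'
    · rcases h4 with rfl | rfl
      · exact hD (W.sym _ _ hD')
      · exact W.irr _ hD'⟩

lemma KW.DL' {u w : ℕ} (h : D u w) : u ∈ L ∧ w ∈ L ∧ u ≠ w ∧ u ≠ a ∧ u ≠ b ∧ u ≠ n ∧ w ≠ a ∧ w ≠ b ∧ w ≠ n := by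
  have h1 := W.DL _ _ h
  have h2 := W.DL _ _ (W.sym _ _ h)
  refine ⟨h1, h2, ?_, ?_, ?_, ?_, ?_, ?_, ?_⟩
  · rintro rfl; exact W.irr _ h
  · rintro rfl; exact W.aL h1
  · rintro rfl; exact W.bL h1
  · rintro rfl; exact W.nL h1
  · rintro rfl; exact W.aL h2
  · rintro rfl; exact W.bL h2
  · rintro rfl; exact W.nL h2

lemma KW.L' {u : ℕ} (h : u ∈ L) : u ≠ a ∧ u ≠ b ∧ u ≠ n := by
  refine ⟨?_, ?_, ?_⟩
  · rintro rfl; exact W.aL h
  · rintro rfl; exact W.bL h
  · rintro rfl; exact W.nL h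

end shapes

/-! rules by shape -/

section rules

variable (W : KW n a b L Fr Rp D J)
include W

lemma KW.x00 {k : ℕ → ℤ} (h : J k) {y : ℕ} (hy : Fr y) (hyn : y ≠ n)   (c τ : ℤ)
    (hc : 0 ≤ c) (e : k = (0 : ℤ) • ev a + (0 : ℤ) • ev b + c • ev y + τ • ev n) : False := by
  refine W.x h hy hyn [] [] c τ ?_ hc (W.g00 )
  rw [e]
  simp only [kv, List.length_cons, List.length_nil, List.map_cons, List.map_nil, List.sum_cons, List.sum_nil]
  push_cast
  module

lemma KW.r00 {k : ℕ → ℤ} (h : J k) {y r : ℕ} (hr : Rp y r)   (τ : ℤ)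
    (hy : ((0 : ℤ) • ev a + (0 : ℤ) • ev b : ℕ → ℤ) y = 1)
    (e : k = (0 : ℤ) • ev a + (0 : ℤ) • ev b + ev y + ev r + τ • ev n) : False := by
  refine W.XR y r [] [] τ hr (W.g00 ) ?_ ?_
  · rw [← hy]
    simp only [kv, List.length_cons, List.length_nil, List.map_cons, List.map_nil, List.sum_cons, List.sum_nil, Pi.add_apply,
      Pi.smul_apply, smul_eq_mul, Pi.zero_apply]
    push_cast
    ring
  · convert h using 1
    rw [e]
    simp only [kv, List.length_cons, List.length_nil, List.map_cons, List.map_nil, List.sum_cons, List.sum_nil]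
    push_cast
    module

lemma KW.x01 {k : ℕ → ℤ} (h : J k) {y : ℕ} (hy : Fr y) (hyn : y ≠ n) {x : ℕ} (hx : x ∈ L)  (c τ : ℤ)
    (hc : 0 ≤ c) (e : k = (0 : ℤ) • ev a + (1 : ℤ) • ev b + ev x + c • ev y + τ • ev n) : False := by
  refine W.x h hy hyn [] [x] c τ ?_ hc (W.g01 hx)
  rw [e]
  simp only [kv, List.length_cons, List.length_nil, List.map_cons, List.map_nil, List.sum_cons, List.sum_nil]
  push_cast
  module

lemma KW.r01 {k : ℕ → ℤ} (h : J k) {y r : ℕ} (hr : Rp y r) {x : ℕ} (hx : x ∈ L)  (τ : ℤ)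
    (hy : ((0 : ℤ) • ev a + (1 : ℤ) • ev b + ev x : ℕ → ℤ) y = 1)
    (e : k = (0 : ℤ) • ev a + (1 : ℤ) • ev b + ev x + ev y + ev r + τ • ev n) : False := by
  refine W.XR y r [] [x] τ hr (W.g01 hx) ?_ ?_
  · rw [← hy]
    simp only [kv, List.length_cons, List.length_nil, List.map_cons, List.map_nil, List.sum_cons, List.sum_nil, Pi.add_apply,
      Pi.smul_apply, smul_eq_mul, Pi.zero_apply]
    push_cast
    ring
  · convert h using 1
    rw [e]
    simp only [kv, List.length_cons, List.length_nil, List.map_cons, List.map_nil, List.sum_cons, List.sum_nil]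
    push_cast
    module

lemma KW.x10 {k : ℕ → ℤ} (h : J k) {y : ℕ} (hy : Fr y) (hyn : y ≠ n) {x : ℕ} (hx : x ∈ L)  (c τ : ℤ)
    (hc : 0 ≤ c) (e : k = (1 : ℤ) • ev a + (0 : ℤ) • ev b + ev x + c • ev y + τ • ev n) : False := by
  refine W.x h hy hyn [x] [] c τ ?_ hc (W.g10 hx)
  rw [e]
  simp only [kv, List.length_cons, List.length_nil, List.map_cons, List.map_nil, List.sum_cons, List.sum_nil]
  push_cast
  module

lemma KW.r10 {k : ℕ → ℤ} (h : J k) {y r : ℕ} (hr : Rp y r) {x : ℕ} (hx : x ∈ L)  (τ : ℤ)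
    (hy : ((1 : ℤ) • ev a + (0 : ℤ) • ev b + ev x : ℕ → ℤ) y = 1)
    (e : k = (1 : ℤ) • ev a + (0 : ℤ) • ev b + ev x + ev y + ev r + τ • ev n) : False := by
  refine W.XR y r [x] [] τ hr (W.g10 hx) ?_ ?_
  · rw [← hy]
    simp only [kv, List.length_cons, List.length_nil, List.map_cons, List.map_nil, List.sum_cons, List.sum_nil, Pi.add_apply,
      Pi.smul_apply, smul_eq_mul, Pi.zero_apply]
    push_cast
    ring
  · convert h using 1
    rw [e]
    simp only [kv, List.length_cons, List.length_nil, List.map_cons, List.map_nil, List.sum_cons, List.sum_nil]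
    push_cast
    module

lemma KW.x11 {k : ℕ → ℤ} (h : J k) {y : ℕ} (hy : Fr y) (hyn : y ≠ n) {x z : ℕ} (hx : x ∈ L) (hz : z ∈ L)  (c τ : ℤ)
    (hc : 0 ≤ c) (e : k = (1 : ℤ) • ev a + (1 : ℤ) • ev b + ev x + ev z + c • ev y + τ • ev n) : False := by
  refine W.x h hy hyn [x] [z] c τ ?_ hc (W.g11 hx hz)
  rw [e]
  simp only [kv, List.length_cons, List.length_nil, List.map_cons, List.map_nil, List.sum_cons, List.sum_nil]
  push_cast
  module

lemma KW.r11 {k : ℕ → ℤ} (h : J k) {y r : ℕ} (hr : Rp y r) {x z : ℕ} (hx : x ∈ L) (hz : z ∈ L)  (τ : ℤ)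
    (hy : ((1 : ℤ) • ev a + (1 : ℤ) • ev b + ev x + ev z : ℕ → ℤ) y = 1)
    (e : k = (1 : ℤ) • ev a + (1 : ℤ) • ev b + ev x + ev z + ev y + ev r + τ • ev n) : False := by
  refine W.XR y r [x] [z] τ hr (W.g11 hx hz) ?_ ?_
  · rw [← hy]
    simp only [kv, List.length_cons, List.length_nil, List.map_cons, List.map_nil, List.sum_cons, List.sum_nil, Pi.add_apply,
      Pi.smul_apply, smul_eq_mul, Pi.zero_apply]
    push_cast
    ring
  · convert h using 1
    rw [e]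
    simp only [kv, List.length_cons, List.length_nil, List.map_cons, List.map_nil, List.sum_cons, List.sum_nil]
    push_cast
    module

lemma KW.x02 {k : ℕ → ℤ} (h : J k) {y : ℕ} (hy : Fr y) (hyn : y ≠ n) {x z : ℕ} (hx : x ∈ L) (hz : z ∈ L) (h0 : x ≠ z) (c τ : ℤ)
    (hc : 0 ≤ c) (e : k = (0 : ℤ) • ev a + (2 : ℤ) • ev b + ev x + ev z + c • ev y + τ • ev n) : False := by
  refine W.x h hy hyn [] [x, z] c τ ?_ hc (W.g02 hx hz h0)
  rw [e]
  simp only [kv, List.length_cons, List.length_nil, List.map_cons, List.map_nil, List.sum_cons, List.sum_nil]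
  push_cast
  module

lemma KW.r02 {k : ℕ → ℤ} (h : J k) {y r : ℕ} (hr : Rp y r) {x z : ℕ} (hx : x ∈ L) (hz : z ∈ L) (h0 : x ≠ z) (τ : ℤ)
    (hy : ((0 : ℤ) • ev a + (2 : ℤ) • ev b + ev x + ev z : ℕ → ℤ) y = 1)
    (e : k = (0 : ℤ) • ev a + (2 : ℤ) • ev b + ev x + ev z + ev y + ev r + τ • ev n) : False := by
  refine W.XR y r [] [x, z] τ hr (W.g02 hx hz h0) ?_ ?_
  · rw [← hy]
    simp only [kv, List.length_cons, List.length_nil, List.map_cons, List.map_nil, List.sum_cons, List.sum_nil, Pi.add_apply,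
      Pi.smul_apply, smul_eq_mul, Pi.zero_apply]
    push_cast
    ring
  · convert h using 1
    rw [e]
    simp only [kv, List.length_cons, List.length_nil, List.map_cons, List.map_nil, List.sum_cons, List.sum_nil]
    push_cast
    module

lemma KW.x20 {k : ℕ → ℤ} (h : J k) {y : ℕ} (hy : Fr y) (hyn : y ≠ n) {x z : ℕ} (hx : x ∈ L) (hz : z ∈ L) (h0 : x ≠ z) (c τ : ℤ)
    (hc : 0 ≤ c) (e : k = (2 : ℤ) • ev a + (0 : ℤ) • ev b + ev x + ev z + c • ev y + τ • ev n) : False := by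
  refine W.x h hy hyn [x, z] [] c τ ?_ hc (W.g20 hx hz h0)
  rw [e]
  simp only [kv, List.length_cons, List.length_nil, List.map_cons, List.map_nil, List.sum_cons, List.sum_nil]
  push_cast
  module

lemma KW.r20 {k : ℕ → ℤ} (h : J k) {y r : ℕ} (hr : Rp y r) {x z : ℕ} (hx : x ∈ L) (hz : z ∈ L) (h0 : x ≠ z) (τ : ℤ)
    (hy : ((2 : ℤ) • ev a + (0 : ℤ) • ev b + ev x + ev z : ℕ → ℤ) y = 1)
    (e : k = (2 : ℤ) • ev a + (0 : ℤ) • ev b + ev x + ev z + ev y + ev r + τ • ev n) : False := by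
  refine W.XR y r [x, z] [] τ hr (W.g20 hx hz h0) ?_ ?_
  · rw [← hy]
    simp only [kv, List.length_cons, List.length_nil, List.map_cons, List.map_nil, List.sum_cons, List.sum_nil, Pi.add_apply,
      Pi.smul_apply, smul_eq_mul, Pi.zero_apply]
    push_cast
    ring
  · convert h using 1
    rw [e]
    simp only [kv, List.length_cons, List.length_nil, List.map_cons, List.map_nil, List.sum_cons, List.sum_nil]
    push_cast
    module

lemma KW.x12 {k : ℕ → ℤ} (h : J k) {y : ℕ} (hy : Fr y) (hyn : y ≠ n) {x z w : ℕ} (hx : x ∈ L) (hz : z ∈ L) (hw : w ∈ L) (h0 : z ≠ w) (c τ : ℤ)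
    (hc : 0 ≤ c) (e : k = (1 : ℤ) • ev a + (2 : ℤ) • ev b + ev x + ev z + ev w + c • ev y + τ • ev n) : False := by
  refine W.x h hy hyn [x] [z, w] c τ ?_ hc (W.g12 hx hz hw h0)
  rw [e]
  simp only [kv, List.length_cons, List.length_nil, List.map_cons, List.map_nil, List.sum_cons, List.sum_nil]
  push_cast
  module

lemma KW.r12 {k : ℕ → ℤ} (h : J k) {y r : ℕ} (hr : Rp y r) {x z w : ℕ} (hx : x ∈ L) (hz : z ∈ L) (hw : w ∈ L) (h0 : z ≠ w) (τ : ℤ)
    (hy : ((1 : ℤ) • ev a + (2 : ℤ) • ev b + ev x + ev z + ev w : ℕ → ℤ) y = 1)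
    (e : k = (1 : ℤ) • ev a + (2 : ℤ) • ev b + ev x + ev z + ev w + ev y + ev r + τ • ev n) : False := by
  refine W.XR y r [x] [z, w] τ hr (W.g12 hx hz hw h0) ?_ ?_
  · rw [← hy]
    simp only [kv, List.length_cons, List.length_nil, List.map_cons, List.map_nil, List.sum_cons, List.sum_nil, Pi.add_apply,
      Pi.smul_apply, smul_eq_mul, Pi.zero_apply]
    push_cast
    ring
  · convert h using 1
    rw [e]
    simp only [kv, List.length_cons, List.length_nil, List.map_cons, List.map_nil, List.sum_cons, List.sum_nil]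
    push_cast
    module

lemma KW.x21 {k : ℕ → ℤ} (h : J k) {y : ℕ} (hy : Fr y) (hyn : y ≠ n) {x z w : ℕ} (hx : x ∈ L) (hz : z ∈ L) (hw : w ∈ L) (h0 : x ≠ z) (c τ : ℤ)
    (hc : 0 ≤ c) (e : k = (2 : ℤ) • ev a + (1 : ℤ) • ev b + ev x + ev z + ev w + c • ev y + τ • ev n) : False := by
  refine W.x h hy hyn [x, z] [w] c τ ?_ hc (W.g21 hx hz hw h0)
  rw [e]
  simp only [kv, List.length_cons, List.length_nil, List.map_cons, List.map_nil, List.sum_cons, List.sum_nil]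
  push_cast
  module

lemma KW.r21 {k : ℕ → ℤ} (h : J k) {y r : ℕ} (hr : Rp y r) {x z w : ℕ} (hx : x ∈ L) (hz : z ∈ L) (hw : w ∈ L) (h0 : x ≠ z) (τ : ℤ)
    (hy : ((2 : ℤ) • ev a + (1 : ℤ) • ev b + ev x + ev z + ev w : ℕ → ℤ) y = 1)
    (e : k = (2 : ℤ) • ev a + (1 : ℤ) • ev b + ev x + ev z + ev w + ev y + ev r + τ • ev n) : False := by
  refine W.XR y r [x, z] [w] τ hr (W.g21 hx hz hw h0) ?_ ?_
  · rw [← hy]
    simp only [kv, List.length_cons, List.length_nil, List.map_cons, List.map_nil, List.sum_cons, List.sum_nil, Pi.add_apply,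
      Pi.smul_apply, smul_eq_mul, Pi.zero_apply]
    push_cast
    ring
  · convert h using 1
    rw [e]
    simp only [kv, List.length_cons, List.length_nil, List.map_cons, List.map_nil, List.sum_cons, List.sum_nil]
    push_cast
    module

lemma KW.x22 {k : ℕ → ℤ} (h : J k) {y : ℕ} (hy : Fr y) (hyn : y ≠ n) {x z w : ℕ} (hx : x ∈ L) (hz : z ∈ L) (hw : w ∈ L) (h0 : x ≠ z) (h1 : x ≠ w) (h2 : z ≠ w) (c τ : ℤ)
    (hc : 0 ≤ c) (e : k = (2 : ℤ) • ev a + (2 : ℤ) • ev b + ev x + ev z + ev x + ev w + c • ev y + τ • ev n) : False := by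
  refine W.x h hy hyn [x, z] [x, w] c τ ?_ hc (W.g22 hx hz hw h0 h1 h2)
  rw [e]
  simp only [kv, List.length_cons, List.length_nil, List.map_cons, List.map_nil, List.sum_cons, List.sum_nil]
  push_cast
  module

lemma KW.r22 {k : ℕ → ℤ} (h : J k) {y r : ℕ} (hr : Rp y r) {x z w : ℕ} (hx : x ∈ L) (hz : z ∈ L) (hw : w ∈ L) (h0 : x ≠ z) (h1 : x ≠ w) (h2 : z ≠ w) (τ : ℤ)
    (hy : ((2 : ℤ) • ev a + (2 : ℤ) • ev b + ev x + ev z + ev x + ev w : ℕ → ℤ) y = 1)
    (e : k = (2 : ℤ) • ev a + (2 : ℤ) • ev b + ev x + ev z + ev x + ev w + ev y + ev r + τ • ev n) : False := by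
  refine W.XR y r [x, z] [x, w] τ hr (W.g22 hx hz hw h0 h1 h2) ?_ ?_
  · rw [← hy]
    simp only [kv, List.length_cons, List.length_nil, List.map_cons, List.map_nil, List.sum_cons, List.sum_nil, Pi.add_apply,
      Pi.smul_apply, smul_eq_mul, Pi.zero_apply]
    push_cast
    ring
  · convert h using 1
    rw [e]
    simp only [kv, List.length_cons, List.length_nil, List.map_cons, List.map_nil, List.sum_cons, List.sum_nil]
    push_cast
    module

lemma KW.x2e {k : ℕ → ℤ} (h : J k) {y : ℕ} (hy : Fr y) (hyn : y ≠ n) {x z : ℕ} (hx : x ∈ L) (hz : z ∈ L) (h0 : x ≠ z) (hD : ¬ D x z) (c τ : ℤ)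
    (hc : 0 ≤ c) (e : k = (2 : ℤ) • ev a + (2 : ℤ) • ev b + ev x + ev z + ev x + ev z + c • ev y + τ • ev n) : False := by
  refine W.x h hy hyn [x, z] [x, z] c τ ?_ hc (W.g2e hx hz h0 hD)
  rw [e]
  simp only [kv, List.length_cons, List.length_nil, List.map_cons, List.map_nil, List.sum_cons, List.sum_nil]
  push_cast
  module

lemma KW.r2e {k : ℕ → ℤ} (h : J k) {y r : ℕ} (hr : Rp y r) {x z : ℕ} (hx : x ∈ L) (hz : z ∈ L) (h0 : x ≠ z) (hD : ¬ D x z) (τ : ℤ)
    (hy : ((2 : ℤ) • ev a + (2 : ℤ) • ev b + ev x + ev z + ev x + ev z : ℕ → ℤ) y = 1)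
    (e : k = (2 : ℤ) • ev a + (2 : ℤ) • ev b + ev x + ev z + ev x + ev z + ev y + ev r + τ • ev n) : False := by
  refine W.XR y r [x, z] [x, z] τ hr (W.g2e hx hz h0 hD) ?_ ?_
  · rw [← hy]
    simp only [kv, List.length_cons, List.length_nil, List.map_cons, List.map_nil, List.sum_cons, List.sum_nil, Pi.add_apply,
      Pi.smul_apply, smul_eq_mul, Pi.zero_apply]
    push_cast
    ring
  · convert h using 1
    rw [e]
    simp only [kv, List.length_cons, List.length_nil, List.map_cons, List.map_nil, List.sum_cons, List.sum_nil]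
    push_cast
    module

end rules

end

end Pool.Agent.PF4.XF
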