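import Pool.Agent.PF4.KW0

/-!
Clusters with both hubs in `T` and one free leaf `y`: the steps.
-/

set_option autoImplicit false
set_option linter.unusedSectionVars false
set_option linter.unusedVariables false
set_option linter.unusedSimpArgs false

namespace Pool.Agent.PF4.XF

open Finset Pool.Agent.TFC

variable {n a b : ℕ} {L R : Finset ℕ} {Fr : ℕ → Prop} {Rp : ℕ → ℕ → Prop} {D : ℕ → ℕ → Prop} {J : (ℕ → ℤ) → Prop}
variable (W : KW n a b L Fr Rp D J)
include W

/-- step `a` down from the witness of the pair `p y` -/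
theorem KW.A1 {p y : ℕ} (hFr : Fr y) (yL : y ∈ L) (hR : ∀ r ∈ R, Rp y r) (pL : p ∈ L) (py : p ≠ y) {M : ℕ → ℤ} (T : Tg n a b L R M)
    (hM : J M) (h : M a ≤ 1) (hF : J ((2 : ℤ) • ev a + (2 : ℤ) • ev b + (2 : ℤ) • ev p + (2 : ℤ) • ev y)) :
    M a = 0 ∧ J ((2 : ℤ) • ev b + (2 : ℤ) • ev p + (2 : ℤ) • ev y) := by
  have ab := W.ab
  have na := W.na
  have nb := W.nb
  obtain ⟨pa, pb, pn⟩ := W.L' pL
  obtain ⟨ya, yb, yn⟩ := W.L' yL
  obtain ⟨j, δ, hδ, hlt, hk⟩ := W.st hF hM a (-1) (Or.inl rfl) (Or.inr rfl) (by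
    simp only [Pi.add_apply, Pi.smul_apply, Pi.zero_apply, ev_apply, smul_eq_mul, if_true, if_neg ab, if_neg pa.symm, if_neg ya.symm]; omega)
  simp only [Pi.add_apply, Pi.smul_apply, Pi.zero_apply, ev_apply, smul_eq_mul] at hlt
  have hc : j = n ∨ j = a ∨ j = b ∨ j = p ∨ j = y ∨ (j ≠ n ∧ j ≠ a ∧ j ≠ b ∧ j ≠ p ∧ j ≠ y) := by omega
  rcases hc with h1 | h1 | h1 | h1 | h1 | ⟨jn, ja, jb, jp, jy⟩
  · rw [h1] at hk
    exact (W.x12 hk hFr yn pL pL yL py (1) (δ) (by norm_num) (by module)).elim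
  · rw [h1] at hlt hk
    have hle := T.le a na.symm
    have hnn := T.nn a na.symm
    simp only [if_true, if_neg ab, if_neg pa.symm, if_neg ya.symm] at hlt
    rcases hδ with h2 | h2 <;> rw [h2] at hlt hk
    · omega
    · refine ⟨by omega, ?_⟩
      convert hk using 1
      module
  · rw [h1] at hlt hk
    have hle := T.le b nb.symm
    have hnn := T.nn b nb.symm
    simp only [if_true, if_neg ab.symm, if_neg pb.symm, if_neg yb.symm] at hlt
    rcases hδ with h2 | h2 <;> rw [h2] at hlt hk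
    · omega
    · exact (W.x11 hk hFr yn pL pL (2) (0) (by norm_num) (by module)).elim
  · rw [h1] at hlt hk
    have hle := T.le p pn
    have hnn := T.nn p pn
    simp only [if_true, if_neg pa, if_neg pb, if_neg py] at hlt
    rcases hδ with h2 | h2 <;> rw [h2] at hlt hk
    · omega
    · exact (W.x12 hk hFr yn yL pL yL py (0) (0) (by norm_num) (by module)).elim
  · rw [h1] at hlt hk
    have hle := T.le y yn
    have hnn := T.nn y yn
    simp only [if_true, if_neg ya, if_neg yb, if_neg py.symm] at hlt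
    rcases hδ with h2 | h2 <;> rw [h2] at hlt hk
    · omega
    · exact (W.x12 hk hFr yn pL pL yL py (0) (0) (by norm_num) (by module)).elim
  · have hnn := T.nn j jn
    simp only [if_neg ja, if_neg jb, if_neg jp, if_neg jy] at hlt
    rcases hδ with h2 | h2 <;> rw [h2] at hlt hk
    · by_cases jL : j ∈ L
      · exact (W.x12 hk hFr yn pL pL jL jp.symm (2) (0) (by norm_num) (by module)).elim
      · by_cases jR : j ∈ R
        · exact (W.r12 hk (hR j jR) pL pL yL py 0 (by
          simp [ev_apply, ya, yb, py.symm]) (by module)).elim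
        · have := T.sup j ja jb jL jn jR
          omega
    · omega

theorem KW.A2 {p y : ℕ} (hFr : Fr y) (yL : y ∈ L) (hR : ∀ r ∈ R, Rp y r) (pL : p ∈ L) (py : p ≠ y) {M : ℕ → ℤ} (T : Tg n a b L R M)
    (hM : J M) (h : M p ≤ 1) (hF : J ((2 : ℤ) • ev b + (2 : ℤ) • ev p + (2 : ℤ) • ev y)) :
    M p = 0 ∧ J ((2 : ℤ) • ev b + (2 : ℤ) • ev y) := by
  have ab := W.ab
  have na := W.na
  have nb := W.nb
  obtain ⟨pa, pb, pn⟩ := W.L' pL
  obtain ⟨ya, yb, yn⟩ := W.L' yL
  obtain ⟨j, δ, hδ, hlt, hk⟩ := W.st hF hM p (-1) (Or.inr (Or.inr pL)) (Or.inr rfl) (by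
    simp only [Pi.add_apply, Pi.smul_apply, Pi.zero_apply, ev_apply, smul_eq_mul, if_true, if_neg pb, if_neg py]; omega)
  simp only [Pi.add_apply, Pi.smul_apply, Pi.zero_apply, ev_apply, smul_eq_mul] at hlt
  have hc : j = n ∨ j = a ∨ j = b ∨ j = p ∨ j = y ∨ (j ≠ n ∧ j ≠ a ∧ j ≠ b ∧ j ≠ p ∧ j ≠ y) := by omega
  rcases hc with h1 | h1 | h1 | h1 | h1 | ⟨jn, ja, jb, jp, jy⟩
  · rw [h1] at hk
    exact (W.x02 hk hFr yn pL yL py (1) (δ) (by norm_num) (by module)).elim
  · rw [h1] at hlt hk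
    have hle := T.le a na.symm
    have hnn := T.nn a na.symm
    simp only [if_true, if_neg ab, if_neg pa.symm, if_neg ya.symm] at hlt
    rcases hδ with h2 | h2 <;> rw [h2] at hlt hk
    · exact (W.x12 hk hFr yn yL pL yL py (0) (0) (by norm_num) (by module)).elim
    · omega
  · rw [h1] at hlt hk
    have hle := T.le b nb.symm
    have hnn := T.nn b nb.symm
    simp only [if_true, if_neg pb.symm, if_neg yb.symm] at hlt
    rcases hδ with h2 | h2 <;> rw [h2] at hlt hk
    · omega
    · exact (W.x01 hk hFr yn pL (2) (0) (by norm_num) (by module)).elim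
  · rw [h1] at hlt hk
    have hle := T.le p pn
    have hnn := T.nn p pn
    simp only [if_true, if_neg pb, if_neg py] at hlt
    rcases hδ with h2 | h2 <;> rw [h2] at hlt hk
    · omega
    · refine ⟨by omega, ?_⟩
      convert hk using 1
      module
  · rw [h1] at hlt hk
    have hle := T.le y yn
    have hnn := T.nn y yn
    simp only [if_true, if_neg yb, if_neg py.symm] at hlt
    rcases hδ with h2 | h2 <;> rw [h2] at hlt hk
    · omega
    · exact (W.x02 hk hFr yn pL yL py (0) (0) (by norm_num) (by module)).elim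
  · have hnn := T.nn j jn
    simp only [if_neg jb, if_neg jp, if_neg jy] at hlt
    rcases hδ with h2 | h2 <;> rw [h2] at hlt hk
    · by_cases jL : j ∈ L
      · exact (W.x02 hk hFr yn pL jL jp.symm (2) (0) (by norm_num) (by module)).elim
      · by_cases jR : j ∈ R
        · exact (W.r02 hk (hR j jR) pL yL py 0 (by
          simp [ev_apply, ya, yb, py.symm]) (by module)).elim
        · have := T.sup j ja jb jL jn jR
          omega
    · omega

theorem KW.A3 {y : ℕ} (hFr : Fr y) (yL : y ∈ L) (hR : ∀ r ∈ R, Rp y r) {M : ℕ → ℤ} (T : Tg n a b L R M)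
    (hM : J M) (h : M b ≤ 1) (hF : J ((2 : ℤ) • ev b + (2 : ℤ) • ev y)) :
    False := by
  have ab := W.ab
  have na := W.na
  have nb := W.nb
  obtain ⟨ya, yb, yn⟩ := W.L' yL
  obtain ⟨j, δ, hδ, hlt, hk⟩ := W.st hF hM b (-1) (Or.inr (Or.inl rfl)) (Or.inr rfl) (by
    simp only [Pi.add_apply, Pi.smul_apply, Pi.zero_apply, ev_apply, smul_eq_mul, if_true, if_neg yb.symm]; omega)
  simp only [Pi.add_apply, Pi.smul_apply, Pi.zero_apply, ev_apply, smul_eq_mul] at hlt
  have hc : j = n ∨ j = a ∨ j = b ∨ j = y ∨ (j ≠ n ∧ j ≠ a ∧ j ≠ b ∧ j ≠ y) := by omega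
  rcases hc with h1 | h1 | h1 | h1 | ⟨jn, ja, jb, jy⟩
  · rw [h1] at hk
    exact (W.x01 hk hFr yn yL (1) (δ) (by norm_num) (by module)).elim
  · rw [h1] at hlt hk
    have hle := T.le a na.symm
    have hnn := T.nn a na.symm
    simp only [if_true, if_neg ab, if_neg ya.symm] at hlt
    rcases hδ with h2 | h2 <;> rw [h2] at hlt hk
    · exact (W.x11 hk hFr yn yL yL (0) (0) (by norm_num) (by module)).elim
    · omega
  · rw [h1] at hlt hk
    have hle := T.le b nb.symm
    have hnn := T.nn b nb.symm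
    simp only [if_true, if_neg yb.symm] at hlt
    rcases hδ with h2 | h2 <;> rw [h2] at hlt hk
    · omega
    · exact (W.x00 hk hFr yn  (2) (0) (by norm_num) (by module)).elim
  · rw [h1] at hlt hk
    have hle := T.le y yn
    have hnn := T.nn y yn
    simp only [if_true, if_neg yb] at hlt
    rcases hδ with h2 | h2 <;> rw [h2] at hlt hk
    · omega
    · exact (W.x01 hk hFr yn yL (0) (0) (by norm_num) (by module)).elim
  · have hnn := T.nn j jn
    simp only [if_neg jb, if_neg jy] at hlt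
    rcases hδ with h2 | h2 <;> rw [h2] at hlt hk
    · by_cases jL : j ∈ L
      · exact (W.x01 hk hFr yn jL (2) (0) (by norm_num) (by module)).elim
      · by_cases jR : j ∈ R
        · exact (W.r01 hk (hR j jR) yL 0 (by
          simp [ev_apply, ya, yb]) (by module)).elim
        · have := T.sup j ja jb jL jn jR
          omega
    · omega

/-- step `b` down from the witness of the pair `p y` -/
theorem KW.A1b {p y : ℕ} (hFr : Fr y) (yL : y ∈ L) (hR : ∀ r ∈ R, Rp y r) (pL : p ∈ L) (py : p ≠ y) {M : ℕ → ℤ} (T : Tg n a b L R M)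
    (hM : J M) (h : M b ≤ 1) (hF : J ((2 : ℤ) • ev a + (2 : ℤ) • ev b + (2 : ℤ) • ev p + (2 : ℤ) • ev y)) :
    M b = 0 ∧ J ((2 : ℤ) • ev a + (2 : ℤ) • ev p + (2 : ℤ) • ev y) := by
  have ab := W.ab
  have na := W.na
  have nb := W.nb
  obtain ⟨pa, pb, pn⟩ := W.L' pL
  obtain ⟨ya, yb, yn⟩ := W.L' yL
  obtain ⟨j, δ, hδ, hlt, hk⟩ := W.st hF hM b (-1) (Or.inr (Or.inl rfl)) (Or.inr rfl) (by
    simp only [Pi.add_apply, Pi.smul_apply, Pi.zero_apply, ev_apply, smul_eq_mul, if_true, if_neg ab.symm, if_neg pb.symm, if_neg yb.symm]; omega)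
  simp only [Pi.add_apply, Pi.smul_apply, Pi.zero_apply, ev_apply, smul_eq_mul] at hlt
  have hc : j = n ∨ j = a ∨ j = b ∨ j = p ∨ j = y ∨ (j ≠ n ∧ j ≠ a ∧ j ≠ b ∧ j ≠ p ∧ j ≠ y) := by omega
  rcases hc with h1 | h1 | h1 | h1 | h1 | ⟨jn, ja, jb, jp, jy⟩
  · rw [h1] at hk
    exact (W.x21 hk hFr yn pL yL pL py (1) (δ) (by norm_num) (by module)).elim
  · rw [h1] at hlt hk
    have hle := T.le a na.symm
    have hnn := T.nn a na.symm
    simp only [if_true, if_neg ab, if_neg pa.symm, if_neg ya.symm] at hlt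
    rcases hδ with h2 | h2 <;> rw [h2] at hlt hk
    · omega
    · exact (W.x11 hk hFr yn pL pL (2) (0) (by norm_num) (by module)).elim
  · rw [h1] at hlt hk
    have hle := T.le b nb.symm
    have hnn := T.nn b nb.symm
    simp only [if_true, if_neg ab.symm, if_neg pb.symm, if_neg yb.symm] at hlt
    rcases hδ with h2 | h2 <;> rw [h2] at hlt hk
    · omega
    · refine ⟨by omega, ?_⟩
      convert hk using 1
      module
  · rw [h1] at hlt hk
    have hle := T.le p pn
    have hnn := T.nn p pn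
    simp only [if_true, if_neg pa, if_neg pb, if_neg py] at hlt
    rcases hδ with h2 | h2 <;> rw [h2] at hlt hk
    · omega
    · exact (W.x21 hk hFr yn pL yL yL py (0) (0) (by norm_num) (by module)).elim
  · rw [h1] at hlt hk
    have hle := T.le y yn
    have hnn := T.nn y yn
    simp only [if_true, if_neg ya, if_neg yb, if_neg py.symm] at hlt
    rcases hδ with h2 | h2 <;> rw [h2] at hlt hk
    · omega
    · exact (W.x21 hk hFr yn pL yL pL py (0) (0) (by norm_num) (by module)).elim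
  · have hnn := T.nn j jn
    simp only [if_neg ja, if_neg jb, if_neg jp, if_neg jy] at hlt
    rcases hδ with h2 | h2 <;> rw [h2] at hlt hk
    · by_cases jL : j ∈ L
      · exact (W.x21 hk hFr yn pL jL pL jp.symm (2) (0) (by norm_num) (by module)).elim
      · by_cases jR : j ∈ R
        · exact (W.r21 hk (hR j jR) pL yL pL py 0 (by
          simp [ev_apply, ya, yb, py.symm]) (by module)).elim
        · have := T.sup j ja jb jL jn jR
          omega
    · omega

theorem KW.A2b {p y : ℕ} (hFr : Fr y) (yL : y ∈ L) (hR : ∀ r ∈ R, Rp y r) (pL : p ∈ L) (py : p ≠ y) {M : ℕ → ℤ} (T : Tg n a b L R M)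
    (hM : J M) (h : M p ≤ 1) (hF : J ((2 : ℤ) • ev a + (2 : ℤ) • ev p + (2 : ℤ) • ev y)) :
    M p = 0 ∧ J ((2 : ℤ) • ev a + (2 : ℤ) • ev y) := by
  have ab := W.ab
  have na := W.na
  have nb := W.nb
  obtain ⟨pa, pb, pn⟩ := W.L' pL
  obtain ⟨ya, yb, yn⟩ := W.L' yL
  obtain ⟨j, δ, hδ, hlt, hk⟩ := W.st hF hM p (-1) (Or.inr (Or.inr pL)) (Or.inr rfl) (by
    simp only [Pi.add_apply, Pi.smul_apply, Pi.zero_apply, ev_apply, smul_eq_mul, if_true, if_neg pa, if_neg py]; omega)
  simp only [Pi.add_apply, Pi.smul_apply, Pi.zero_apply, ev_apply, smul_eq_mul] at hlt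
  have hc : j = n ∨ j = a ∨ j = b ∨ j = p ∨ j = y ∨ (j ≠ n ∧ j ≠ a ∧ j ≠ b ∧ j ≠ p ∧ j ≠ y) := by omega
  rcases hc with h1 | h1 | h1 | h1 | h1 | ⟨jn, ja, jb, jp, jy⟩
  · rw [h1] at hk
    exact (W.x20 hk hFr yn pL yL py (1) (δ) (by norm_num) (by module)).elim
  · rw [h1] at hlt hk
    have hle := T.le a na.symm
    have hnn := T.nn a na.symm
    simp only [if_true, if_neg pa.symm, if_neg ya.symm] at hlt
    rcases hδ with h2 | h2 <;> rw [h2] at hlt hk
    · omega
    · exact (W.x10 hk hFr yn pL (2) (0) (by norm_num) (by module)).elim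
  · rw [h1] at hlt hk
    have hle := T.le b nb.symm
    have hnn := T.nn b nb.symm
    simp only [if_true, if_neg ab.symm, if_neg pb.symm, if_neg yb.symm] at hlt
    rcases hδ with h2 | h2 <;> rw [h2] at hlt hk
    · exact (W.x21 hk hFr yn pL yL yL py (0) (0) (by norm_num) (by module)).elim
    · omega
  · rw [h1] at hlt hk
    have hle := T.le p pn
    have hnn := T.nn p pn
    simp only [if_true, if_neg pa, if_neg py] at hlt
    rcases hδ with h2 | h2 <;> rw [h2] at hlt hk
    · omega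
    · refine ⟨by omega, ?_⟩
      convert hk using 1
      module
  · rw [h1] at hlt hk
    have hle := T.le y yn
    have hnn := T.nn y yn
    simp only [if_true, if_neg ya, if_neg py.symm] at hlt
    rcases hδ with h2 | h2 <;> rw [h2] at hlt hk
    · omega
    · exact (W.x20 hk hFr yn pL yL py (0) (0) (by norm_num) (by module)).elim
  · have hnn := T.nn j jn
    simp only [if_neg ja, if_neg jp, if_neg jy] at hlt
    rcases hδ with h2 | h2 <;> rw [h2] at hlt hk
    · by_cases jL : j ∈ L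
      · exact (W.x20 hk hFr yn pL jL jp.symm (2) (0) (by norm_num) (by module)).elim
      · by_cases jR : j ∈ R
        · exact (W.r20 hk (hR j jR) pL yL py 0 (by
          simp [ev_apply, ya, yb, py.symm]) (by module)).elim
        · have := T.sup j ja jb jL jn jR
          omega
    · omega

theorem KW.A3b {y : ℕ} (hFr : Fr y) (yL : y ∈ L) (hR : ∀ r ∈ R, Rp y r) {M : ℕ → ℤ} (T : Tg n a b L R M)
    (hM : J M) (h : M a ≤ 1) (hF : J ((2 : ℤ) • ev a + (2 : ℤ) • ev y)) :
    False := by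
  have ab := W.ab
  have na := W.na
  have nb := W.nb
  obtain ⟨ya, yb, yn⟩ := W.L' yL
  obtain ⟨j, δ, hδ, hlt, hk⟩ := W.st hF hM a (-1) (Or.inl rfl) (Or.inr rfl) (by
    simp only [Pi.add_apply, Pi.smul_apply, Pi.zero_apply, ev_apply, smul_eq_mul, if_true, if_neg ya.symm]; omega)
  simp only [Pi.add_apply, Pi.smul_apply, Pi.zero_apply, ev_apply, smul_eq_mul] at hlt
  have hc : j = n ∨ j = a ∨ j = b ∨ j = y ∨ (j ≠ n ∧ j ≠ a ∧ j ≠ b ∧ j ≠ y) := by omega
  rcases hc with h1 | h1 | h1 | h1 | ⟨jn, ja, jb, jy⟩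
  · rw [h1] at hk
    exact (W.x10 hk hFr yn yL (1) (δ) (by norm_num) (by module)).elim
  · rw [h1] at hlt hk
    have hle := T.le a na.symm
    have hnn := T.nn a na.symm
    simp only [if_true, if_neg ya.symm] at hlt
    rcases hδ with h2 | h2 <;> rw [h2] at hlt hk
    · omega
    · exact (W.x00 hk hFr yn  (2) (0) (by norm_num) (by module)).elim
  · rw [h1] at hlt hk
    have hle := T.le b nb.symm
    have hnn := T.nn b nb.symm
    simp only [if_true, if_neg ab.symm, if_neg yb.symm] at hlt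
    rcases hδ with h2 | h2 <;> rw [h2] at hlt hk
    · exact (W.x11 hk hFr yn yL yL (0) (0) (by norm_num) (by module)).elim
    · omega
  · rw [h1] at hlt hk
    have hle := T.le y yn
    have hnn := T.nn y yn
    simp only [if_true, if_neg ya] at hlt
    rcases hδ with h2 | h2 <;> rw [h2] at hlt hk
    · omega
    · exact (W.x10 hk hFr yn yL (0) (0) (by norm_num) (by module)).elim
  · have hnn := T.nn j jn
    simp only [if_neg ja, if_neg jy] at hlt
    rcases hδ with h2 | h2 <;> rw [h2] at hlt hk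
    · by_cases jL : j ∈ L
      · exact (W.x10 hk hFr yn jL (2) (0) (by norm_num) (by module)).elim
      · by_cases jR : j ∈ R
        · exact (W.r10 hk (hR j jR) yL 0 (by
          simp [ev_apply, ya, yb]) (by module)).elim
        · have := T.sup j ja jb jL jn jR
          omega
    · omega

/-- step `l` up from the witness of the pair `p y` -/
theorem KW.A5 {p l y : ℕ} (hFr : Fr y) (yL : y ∈ L) (hR : ∀ r ∈ R, Rp y r) (pL : p ∈ L) (py : p ≠ y) (lL : l ∈ L) (pl : p ≠ l) (ly : l ≠ y) {M : ℕ → ℤ} (T : Tg n a b L R M)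
    (hM : J M) (h : 1 ≤ M l) (hF : J ((2 : ℤ) • ev a + (2 : ℤ) • ev b + (2 : ℤ) • ev p + (2 : ℤ) • ev y)) :
    M l = 2 ∧ D p l ∧ J ((2 : ℤ) • ev a + (2 : ℤ) • ev b + (2 : ℤ) • ev p + (2 : ℤ) • ev l + (2 : ℤ) • ev y) := by
  have ab := W.ab
  have na := W.na
  have nb := W.nb
  obtain ⟨pa, pb, pn⟩ := W.L' pL
  obtain ⟨ya, yb, yn⟩ := W.L' yL
  obtain ⟨la, lb, ln⟩ := W.L' lL
  obtain ⟨j, δ, hδ, hlt, hk⟩ := W.st hF hM l (1) (Or.inr (Or.inr lL)) (Or.inl rfl) (by
    simp only [Pi.add_apply, Pi.smul_apply, Pi.zero_apply, ev_apply, smul_eq_mul, if_true, if_neg la, if_neg lb, if_neg pl.symm, if_neg ly]; omega)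
  simp only [Pi.add_apply, Pi.smul_apply, Pi.zero_apply, ev_apply, smul_eq_mul] at hlt
  have hc : j = n ∨ j = a ∨ j = b ∨ j = p ∨ j = l ∨ j = y ∨ (j ≠ n ∧ j ≠ a ∧ j ≠ b ∧ j ≠ p ∧ j ≠ l ∧ j ≠ y) := by omega
  rcases hc with h1 | h1 | h1 | h1 | h1 | h1 | ⟨jn, ja, jb, jp, jl, jy⟩
  · rw [h1] at hk
    exact (W.x22 hk hFr yn pL lL yL pl py ly (1) (δ) (by norm_num) (by module)).elim
  · rw [h1] at hlt hk
    have hle := T.le a na.symm
    have hnn := T.nn a na.symm
    simp only [if_true, if_neg ab, if_neg pa.symm, if_neg la.symm, if_neg ya.symm] at hlt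
    rcases hδ with h2 | h2 <;> rw [h2] at hlt hk
    · omega
    · exact (W.x12 hk hFr yn pL pL lL pl (2) (0) (by norm_num) (by module)).elim
  · rw [h1] at hlt hk
    have hle := T.le b nb.symm
    have hnn := T.nn b nb.symm
    simp only [if_true, if_neg ab.symm, if_neg pb.symm, if_neg lb.symm, if_neg yb.symm] at hlt
    rcases hδ with h2 | h2 <;> rw [h2] at hlt hk
    · omega
    · exact (W.x21 hk hFr yn pL lL pL pl (2) (0) (by norm_num) (by module)).elim
  · rw [h1] at hlt hk
    have hle := T.le p pn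
    have hnn := T.nn p pn
    simp only [if_true, if_neg pa, if_neg pb, if_neg pl, if_neg py] at hlt
    rcases hδ with h2 | h2 <;> rw [h2] at hlt hk
    · omega
    · exact (W.x22 hk hFr yn yL pL lL py.symm ly.symm pl (0) (0) (by norm_num) (by module)).elim
  · rw [h1] at hlt hk
    have hle := T.le l ln
    have hnn := T.nn l ln
    simp only [if_true, if_neg la, if_neg lb, if_neg pl.symm, if_neg ly] at hlt
    rcases hδ with h2 | h2 <;> rw [h2] at hlt hk
    · by_cases hD : D p l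
      · refine ⟨by omega, hD, ?_⟩
        convert hk using 1
        module
      · exact (W.x2e hk hFr yn pL lL pl hD 2 0 (by norm_num) (by module)).elim
    · omega
  · rw [h1] at hlt hk
    have hle := T.le y yn
    have hnn := T.nn y yn
    simp only [if_true, if_neg ya, if_neg yb, if_neg py.symm, if_neg ly.symm] at hlt
    rcases hδ with h2 | h2 <;> rw [h2] at hlt hk
    · omega
    · exact (W.x22 hk hFr yn pL lL yL pl py ly (0) (0) (by norm_num) (by module)).elim
  · have hnn := T.nn j jn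
    simp only [if_neg ja, if_neg jb, if_neg jp, if_neg jl, if_neg jy] at hlt
    rcases hδ with h2 | h2 <;> rw [h2] at hlt hk
    · by_cases jL : j ∈ L
      · exact (W.x22 hk hFr yn pL lL jL pl jp.symm jl.symm (2) (0) (by norm_num) (by module)).elim
      · by_cases jR : j ∈ R
        · exact (W.r22 hk (hR j jR) pL lL yL pl py ly 0 (by
          simp [ev_apply, ya, yb, ly.symm, py.symm]) (by module)).elim
        · have := T.sup j ja jb jL jn jR
          omega
    · omega

theorem KW.A6 {p l y : ℕ} (hFr : Fr y) (yL : y ∈ L) (hR : ∀ r ∈ R, Rp y r) (pL : p ∈ L) (py : p ≠ y) (lL : l ∈ L) (pl : p ≠ l) (ly : l ≠ y) {M : ℕ → ℤ} (T : Tg n a b L R M)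
    (hM : J M) (h : M p ≤ 1) (hF : J ((2 : ℤ) • ev a + (2 : ℤ) • ev b + (2 : ℤ) • ev p + (2 : ℤ) • ev l + (2 : ℤ) • ev y)) :
    M p = 0 ∧ D l y ∧ J ((2 : ℤ) • ev a + (2 : ℤ) • ev b + (2 : ℤ) • ev l + (2 : ℤ) • ev y) := by
  have ab := W.ab
  have na := W.na
  have nb := W.nb
  obtain ⟨pa, pb, pn⟩ := W.L' pL
  obtain ⟨ya, yb, yn⟩ := W.L' yL
  obtain ⟨la, lb, ln⟩ := W.L' lL
  obtain ⟨j, δ, hδ, hlt, hk⟩ := W.st hF hM p (-1) (Or.inr (Or.inr pL)) (Or.inr rfl) (by
    simp only [Pi.add_apply, Pi.smul_apply, Pi.zero_apply, ev_apply, smul_eq_mul, if_true, if_neg pa, if_neg pb, if_neg pl, if_neg py]; omega)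
  simp only [Pi.add_apply, Pi.smul_apply, Pi.zero_apply, ev_apply, smul_eq_mul] at hlt
  have hc : j = n ∨ j = a ∨ j = b ∨ j = p ∨ j = l ∨ j = y ∨ (j ≠ n ∧ j ≠ a ∧ j ≠ b ∧ j ≠ p ∧ j ≠ l ∧ j ≠ y) := by omega
  rcases hc with h1 | h1 | h1 | h1 | h1 | h1 | ⟨jn, ja, jb, jp, jl, jy⟩
  · rw [h1] at hk
    exact (W.x22 hk hFr yn lL pL yL pl.symm ly py (1) (δ) (by norm_num) (by module)).elim
  · rw [h1] at hlt hk
    have hle := T.le a na.symm
    have hnn := T.nn a na.symm
    simp only [if_true, if_neg ab, if_neg pa.symm, if_neg la.symm, if_neg ya.symm] at hlt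
    rcases hδ with h2 | h2 <;> rw [h2] at hlt hk
    · omega
    · exact (W.x12 hk hFr yn lL pL lL pl (2) (0) (by norm_num) (by module)).elim
  · rw [h1] at hlt hk
    have hle := T.le b nb.symm
    have hnn := T.nn b nb.symm
    simp only [if_true, if_neg ab.symm, if_neg pb.symm, if_neg lb.symm, if_neg yb.symm] at hlt
    rcases hδ with h2 | h2 <;> rw [h2] at hlt hk
    · omega
    · exact (W.x21 hk hFr yn pL lL lL pl (2) (0) (by norm_num) (by module)).elim
  · rw [h1] at hlt hk
    have hle := T.le p pn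
    have hnn := T.nn p pn
    simp only [if_true, if_neg pa, if_neg pb, if_neg pl, if_neg py] at hlt
    rcases hδ with h2 | h2 <;> rw [h2] at hlt hk
    · omega
    · by_cases hD : D l y
      · refine ⟨by omega, hD, ?_⟩
        convert hk using 1
        module
      · exact (W.x2e hk hFr yn lL yL ly hD 0 0 (by norm_num) (by module)).elim
  · rw [h1] at hlt hk
    have hle := T.le l ln
    have hnn := T.nn l ln
    simp only [if_true, if_neg la, if_neg lb, if_neg pl.symm, if_neg ly] at hlt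
    rcases hδ with h2 | h2 <;> rw [h2] at hlt hk
    · omega
    · exact (W.x22 hk hFr yn yL pL lL py.symm ly.symm pl (0) (0) (by norm_num) (by module)).elim
  · rw [h1] at hlt hk
    have hle := T.le y yn
    have hnn := T.nn y yn
    simp only [if_true, if_neg ya, if_neg yb, if_neg py.symm, if_neg ly.symm] at hlt
    rcases hδ with h2 | h2 <;> rw [h2] at hlt hk
    · omega
    · exact (W.x22 hk hFr yn lL pL yL pl.symm ly py (0) (0) (by norm_num) (by module)).elim
  · have hnn := T.nn j jn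
    simp only [if_neg ja, if_neg jb, if_neg jp, if_neg jl, if_neg jy] at hlt
    rcases hδ with h2 | h2 <;> rw [h2] at hlt hk
    · by_cases jL : j ∈ L
      · exact (W.x22 hk hFr yn lL pL jL pl.symm jl.symm jp.symm (2) (0) (by norm_num) (by module)).elim
      · by_cases jR : j ∈ R
        · exact (W.r22 hk (hR j jR) lL pL yL pl.symm ly py 0 (by
          simp [ev_apply, ya, yb, ly.symm, py.symm]) (by module)).elim
        · have := T.sup j ja jb jL jn jR
          omega
    · omega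

/-- the free vertex `y` has no further edge to a leaf -/
theorem KW.A8 {p l y : ℕ} (hFr : Fr y) (yL : y ∈ L) (hR : ∀ r ∈ R, Rp y r) (pL : p ∈ L) (py : p ≠ y) (lL : l ∈ L) (pl : p ≠ l) (ly : l ≠ y) (hyl : Rp y l) {M : ℕ → ℤ} (T : Tg n a b L R M)
    (hM : J M) (h : 1 ≤ M l) (hF : J ((2 : ℤ) • ev a + (2 : ℤ) • ev b + (2 : ℤ) • ev p + (2 : ℤ) • ev y)) :
    False := by
  have ab := W.ab
  have na := W.na
  have nb := W.nb
  obtain ⟨pa, pb, pn⟩ := W.L' pL
  obtain ⟨ya, yb, yn⟩ := W.L' yL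
  obtain ⟨la, lb, ln⟩ := W.L' lL
  obtain ⟨j, δ, hδ, hlt, hk⟩ := W.st hF hM l (1) (Or.inr (Or.inr lL)) (Or.inl rfl) (by
    simp only [Pi.add_apply, Pi.smul_apply, Pi.zero_apply, ev_apply, smul_eq_mul, if_true, if_neg la, if_neg lb, if_neg pl.symm, if_neg ly]; omega)
  simp only [Pi.add_apply, Pi.smul_apply, Pi.zero_apply, ev_apply, smul_eq_mul] at hlt
  have hc : j = n ∨ j = a ∨ j = b ∨ j = p ∨ j = l ∨ j = y ∨ (j ≠ n ∧ j ≠ a ∧ j ≠ b ∧ j ≠ p ∧ j ≠ l ∧ j ≠ y) := by omega
  rcases hc with h1 | h1 | h1 | h1 | h1 | h1 | ⟨jn, ja, jb, jp, jl, jy⟩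
  · rw [h1] at hk
    exact (W.x22 hk hFr yn pL lL yL pl py ly (1) (δ) (by norm_num) (by module)).elim
  · rw [h1] at hlt hk
    have hle := T.le a na.symm
    have hnn := T.nn a na.symm
    simp only [if_true, if_neg ab, if_neg pa.symm, if_neg la.symm, if_neg ya.symm] at hlt
    rcases hδ with h2 | h2 <;> rw [h2] at hlt hk
    · omega
    · exact (W.x12 hk hFr yn pL pL lL pl (2) (0) (by norm_num) (by module)).elim
  · rw [h1] at hlt hk
    have hle := T.le b nb.symm
    have hnn := T.nn b nb.symm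
    simp only [if_true, if_neg ab.symm, if_neg pb.symm, if_neg lb.symm, if_neg yb.symm] at hlt
    rcases hδ with h2 | h2 <;> rw [h2] at hlt hk
    · omega
    · exact (W.x21 hk hFr yn pL lL pL pl (2) (0) (by norm_num) (by module)).elim
  · rw [h1] at hlt hk
    have hle := T.le p pn
    have hnn := T.nn p pn
    simp only [if_true, if_neg pa, if_neg pb, if_neg pl, if_neg py] at hlt
    rcases hδ with h2 | h2 <;> rw [h2] at hlt hk
    · omega
    · exact (W.x22 hk hFr yn yL pL lL py.symm ly.symm pl (0) (0) (by norm_num) (by module)).elim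
  · rw [h1] at hlt hk
    have hle := T.le l ln
    have hnn := T.nn l ln
    simp only [if_true, if_neg la, if_neg lb, if_neg pl.symm, if_neg ly] at hlt
    rcases hδ with h2 | h2 <;> rw [h2] at hlt hk
    · exact W.r22 hk hyl pL lL yL pl py ly 0 (by simp [ev_apply, ya, yb, py.symm, ly.symm]) (by module)
    · omega
  · rw [h1] at hlt hk
    have hle := T.le y yn
    have hnn := T.nn y yn
    simp only [if_true, if_neg ya, if_neg yb, if_neg py.symm, if_neg ly.symm] at hlt
    rcases hδ with h2 | h2 <;> rw [h2] at hlt hk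
    · omega
    · exact (W.x22 hk hFr yn pL lL yL pl py ly (0) (0) (by norm_num) (by module)).elim
  · have hnn := T.nn j jn
    simp only [if_neg ja, if_neg jb, if_neg jp, if_neg jl, if_neg jy] at hlt
    rcases hδ with h2 | h2 <;> rw [h2] at hlt hk
    · by_cases jL : j ∈ L
      · exact (W.x22 hk hFr yn pL lL jL pl jp.symm jl.symm (2) (0) (by norm_num) (by module)).elim
      · by_cases jR : j ∈ R
        · exact (W.r22 hk (hR j jR) pL lL yL pl py ly 0 (by
          simp [ev_apply, ya, yb, ly.symm, py.symm]) (by module)).elim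
        · have := T.sup j ja jb jL jn jR
          omega
    · omega

end Pool.Agent.PF4.XF
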