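import Pool.Agent.PF4.KW0

/-!
Clusters with one free hub (`b`): the four steps.
-/

set_option autoImplicit false
set_option linter.unusedSectionVars false
set_option linter.unusedVariables false
set_option linter.unusedSimpArgs false

namespace Pool.Agent.PF4.XF

open Finset Pool.Agent.TFC

variable {n a b : ℕ} {L R : Finset ℕ} {Fr : ℕ → Prop} {Rp : ℕ → ℕ → Prop} {D : ℕ → ℕ → Prop} {J : (ℕ → ℤ) → Prop}
variable (W : KW n a b L Fr Rp D J) (hFr : Fr b) (hR : ∀ r ∈ R, Rp b r)
include W hFr hR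

/-- step `p` down from the witness of the pair `p l` -/
theorem KW.B1 {p l : ℕ} (hD : D p l) {M : ℕ → ℤ} (T : Tg n a b L R M)
    (hM : J M) (h : M p ≤ 1) (hF : J ((2 : ℤ) • ev a + (2 : ℤ) • ev b + (2 : ℤ) • ev p + (2 : ℤ) • ev l)) :
    M p = 0 ∧ J ((2 : ℤ) • ev a + (2 : ℤ) • ev b + (2 : ℤ) • ev l) := by
  have ab := W.ab
  have na := W.na
  have nb := W.nb
  obtain ⟨pL, lL, pl, pa, pb, pn, la, lb, ln⟩ := W.DL' hD
  obtain ⟨j, δ, hδ, hlt, hk⟩ := W.st hF hM p (-1) (Or.inr (Or.inr pL)) (Or.inr rfl) (by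
    simp only [Pi.add_apply, Pi.smul_apply, Pi.zero_apply, ev_apply, smul_eq_mul, if_true, if_neg pa, if_neg pb, if_neg pl]; omega)
  simp only [Pi.add_apply, Pi.smul_apply, Pi.zero_apply, ev_apply, smul_eq_mul] at hlt
  have hc : j = n ∨ j = a ∨ j = b ∨ j = p ∨ j = l ∨ (j ≠ n ∧ j ≠ a ∧ j ≠ b ∧ j ≠ p ∧ j ≠ l) := by omega
  rcases hc with h1 | h1 | h1 | h1 | h1 | ⟨jn, ja, jb, jp, jl⟩
  · rw [h1] at hk
    exact (W.x21 hk hFr nb.symm pL lL lL pl (1) (δ) (by norm_num) (by module)).elim
  · rw [h1] at hlt hk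
    have hle := T.le a na.symm
    have hnn := T.nn a na.symm
    simp only [if_true, if_neg ab, if_neg pa.symm, if_neg la.symm] at hlt
    rcases hδ with h2 | h2 <;> rw [h2] at hlt hk
    · omega
    · exact (W.x12 hk hFr nb.symm lL pL lL pl (0) (0) (by norm_num) (by module)).elim
  · rw [h1] at hlt hk
    have hle := T.le b nb.symm
    have hnn := T.nn b nb.symm
    simp only [if_true, if_neg ab.symm, if_neg pb.symm, if_neg lb.symm] at hlt
    rcases hδ with h2 | h2 <;> rw [h2] at hlt hk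
    · omega
    · exact (W.x21 hk hFr nb.symm pL lL lL pl (0) (0) (by norm_num) (by module)).elim
  · rw [h1] at hlt hk
    have hle := T.le p pn
    have hnn := T.nn p pn
    simp only [if_true, if_neg pa, if_neg pb, if_neg pl] at hlt
    rcases hδ with h2 | h2 <;> rw [h2] at hlt hk
    · omega
    · refine ⟨by omega, ?_⟩
      convert hk using 1
      module
  · rw [h1] at hlt hk
    have hle := T.le l ln
    have hnn := T.nn l ln
    simp only [if_true, if_neg la, if_neg lb, if_neg pl.symm] at hlt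
    rcases hδ with h2 | h2 <;> rw [h2] at hlt hk
    · omega
    · exact (W.x20 hk hFr nb.symm pL lL pl (2) (0) (by norm_num) (by module)).elim
  · have hnn := T.nn j jn
    simp only [if_neg ja, if_neg jb, if_neg jp, if_neg jl] at hlt
    rcases hδ with h2 | h2 <;> rw [h2] at hlt hk
    · by_cases jL : j ∈ L
      · exact (W.x22 hk hFr nb.symm lL pL jL pl.symm jl.symm jp.symm (0) (0) (by norm_num) (by module)).elim
      · by_cases jR : j ∈ R
        · exact (W.r21 hk (hR j jR) pL lL lL pl 0 (by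
          simp [ev_apply, ab.symm, lb.symm, pb.symm]) (by module)).elim
        · have := T.sup j ja jb jL jn jR
          omega
    · omega

/-- step `a` down from the single vector of `l` -/
theorem KW.B2 {l : ℕ} (lL : l ∈ L) {M : ℕ → ℤ} (T : Tg n a b L R M)
    (hM : J M) (h : M a ≤ 1) (hF : J ((2 : ℤ) • ev a + (2 : ℤ) • ev b + (2 : ℤ) • ev l)) :
    M a = 0 ∧ J ((2 : ℤ) • ev b + (2 : ℤ) • ev l) := by
  have ab := W.ab
  have na := W.na
  have nb := W.nb
  obtain ⟨la, lb, ln⟩ := W.L' lL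
  obtain ⟨j, δ, hδ, hlt, hk⟩ := W.st hF hM a (-1) (Or.inl rfl) (Or.inr rfl) (by
    simp only [Pi.add_apply, Pi.smul_apply, Pi.zero_apply, ev_apply, smul_eq_mul, if_true, if_neg ab, if_neg la.symm]; omega)
  simp only [Pi.add_apply, Pi.smul_apply, Pi.zero_apply, ev_apply, smul_eq_mul] at hlt
  have hc : j = n ∨ j = a ∨ j = b ∨ j = l ∨ (j ≠ n ∧ j ≠ a ∧ j ≠ b ∧ j ≠ l) := by omega
  rcases hc with h1 | h1 | h1 | h1 | ⟨jn, ja, jb, jl⟩
  · rw [h1] at hk
    exact (W.x11 hk hFr nb.symm lL lL (1) (δ) (by norm_num) (by module)).elim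
  · rw [h1] at hlt hk
    have hle := T.le a na.symm
    have hnn := T.nn a na.symm
    simp only [if_true, if_neg ab, if_neg la.symm] at hlt
    rcases hδ with h2 | h2 <;> rw [h2] at hlt hk
    · omega
    · refine ⟨by omega, ?_⟩
      convert hk using 1
      module
  · rw [h1] at hlt hk
    have hle := T.le b nb.symm
    have hnn := T.nn b nb.symm
    simp only [if_true, if_neg ab.symm, if_neg lb.symm] at hlt
    rcases hδ with h2 | h2 <;> rw [h2] at hlt hk
    · omega
    · exact (W.x11 hk hFr nb.symm lL lL (0) (0) (by norm_num) (by module)).elim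
  · rw [h1] at hlt hk
    have hle := T.le l ln
    have hnn := T.nn l ln
    simp only [if_true, if_neg la, if_neg lb] at hlt
    rcases hδ with h2 | h2 <;> rw [h2] at hlt hk
    · omega
    · exact (W.x10 hk hFr nb.symm lL (2) (0) (by norm_num) (by module)).elim
  · have hnn := T.nn j jn
    simp only [if_neg ja, if_neg jb, if_neg jl] at hlt
    rcases hδ with h2 | h2 <;> rw [h2] at hlt hk
    · by_cases jL : j ∈ L
      · exact (W.x12 hk hFr nb.symm lL lL jL jl.symm (0) (0) (by norm_num) (by module)).elim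
      · by_cases jR : j ∈ R
        · exact (W.r11 hk (hR j jR) lL lL 0 (by
          simp [ev_apply, ab.symm, lb.symm]) (by module)).elim
        · have := T.sup j ja jb jL jn jR
          omega
    · omega

/-- step `l` down from `(0|2;2l)` -/
theorem KW.B3 {l : ℕ} (lL : l ∈ L) {M : ℕ → ℤ} (T : Tg n a b L R M)
    (hM : J M) (h : M l ≤ 1) (hF : J ((2 : ℤ) • ev b + (2 : ℤ) • ev l)) :
    False := by
  have ab := W.ab
  have na := W.na
  have nb := W.nb
  obtain ⟨la, lb, ln⟩ := W.L' lL
  obtain ⟨j, δ, hδ, hlt, hk⟩ := W.st hF hM l (-1) (Or.inr (Or.inr lL)) (Or.inr rfl) (by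
    simp only [Pi.add_apply, Pi.smul_apply, Pi.zero_apply, ev_apply, smul_eq_mul, if_true, if_neg lb]; omega)
  simp only [Pi.add_apply, Pi.smul_apply, Pi.zero_apply, ev_apply, smul_eq_mul] at hlt
  have hc : j = n ∨ j = a ∨ j = b ∨ j = l ∨ (j ≠ n ∧ j ≠ a ∧ j ≠ b ∧ j ≠ l) := by omega
  rcases hc with h1 | h1 | h1 | h1 | ⟨jn, ja, jb, jl⟩
  · rw [h1] at hk
    exact (W.x01 hk hFr nb.symm lL (1) (δ) (by norm_num) (by module)).elim
  · rw [h1] at hlt hk
    have hle := T.le a na.symm
    have hnn := T.nn a na.symm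
    simp only [if_true, if_neg ab, if_neg la.symm] at hlt
    rcases hδ with h2 | h2 <;> rw [h2] at hlt hk
    · exact (W.x10 hk hFr nb.symm lL (2) (0) (by norm_num) (by module)).elim
    · omega
  · rw [h1] at hlt hk
    have hle := T.le b nb.symm
    have hnn := T.nn b nb.symm
    simp only [if_true, if_neg lb.symm] at hlt
    rcases hδ with h2 | h2 <;> rw [h2] at hlt hk
    · omega
    · exact (W.x01 hk hFr nb.symm lL (0) (0) (by norm_num) (by module)).elim
  · rw [h1] at hlt hk
    have hle := T.le l ln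
    have hnn := T.nn l ln
    simp only [if_true, if_neg lb] at hlt
    rcases hδ with h2 | h2 <;> rw [h2] at hlt hk
    · omega
    · exact (W.x00 hk hFr nb.symm  (2) (0) (by norm_num) (by module)).elim
  · have hnn := T.nn j jn
    simp only [if_neg jb, if_neg jl] at hlt
    rcases hδ with h2 | h2 <;> rw [h2] at hlt hk
    · by_cases jL : j ∈ L
      · exact (W.x02 hk hFr nb.symm lL jL jl.symm (0) (0) (by norm_num) (by module)).elim
      · by_cases jR : j ∈ R
        · exact (W.r01 hk (hR j jR) lL 0 (by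
          simp [ev_apply, ab.symm, lb.symm]) (by module)).elim
        · have := T.sup j ja jb jL jn jR
          omega
    · omega

/-- step `z` up from the single vector of `l` -/
theorem KW.B4 {l z : ℕ} (lL : l ∈ L) (zL : z ∈ L) (lz : l ≠ z) {M : ℕ → ℤ} (T : Tg n a b L R M)
    (hM : J M) (h : 1 ≤ M z) (hF : J ((2 : ℤ) • ev a + (2 : ℤ) • ev b + (2 : ℤ) • ev l)) :
    M z = 2 ∧ D l z ∧ J ((2 : ℤ) • ev a + (2 : ℤ) • ev b + (2 : ℤ) • ev l + (2 : ℤ) • ev z) := by
  have ab := W.ab
  have na := W.na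
  have nb := W.nb
  obtain ⟨la, lb, ln⟩ := W.L' lL
  obtain ⟨za, zb, zn⟩ := W.L' zL
  obtain ⟨j, δ, hδ, hlt, hk⟩ := W.st hF hM z (1) (Or.inr (Or.inr zL)) (Or.inl rfl) (by
    simp only [Pi.add_apply, Pi.smul_apply, Pi.zero_apply, ev_apply, smul_eq_mul, if_true, if_neg za, if_neg zb, if_neg lz.symm]; omega)
  simp only [Pi.add_apply, Pi.smul_apply, Pi.zero_apply, ev_apply, smul_eq_mul] at hlt
  have hc : j = n ∨ j = a ∨ j = b ∨ j = l ∨ j = z ∨ (j ≠ n ∧ j ≠ a ∧ j ≠ b ∧ j ≠ l ∧ j ≠ z) := by omega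
  rcases hc with h1 | h1 | h1 | h1 | h1 | ⟨jn, ja, jb, jl, jz⟩
  · rw [h1] at hk
    exact (W.x21 hk hFr nb.symm lL zL lL lz (1) (δ) (by norm_num) (by module)).elim
  · rw [h1] at hlt hk
    have hle := T.le a na.symm
    have hnn := T.nn a na.symm
    simp only [if_true, if_neg ab, if_neg la.symm, if_neg za.symm] at hlt
    rcases hδ with h2 | h2 <;> rw [h2] at hlt hk
    · omega
    · exact (W.x12 hk hFr nb.symm lL lL zL lz (0) (0) (by norm_num) (by module)).elim
  · rw [h1] at hlt hk
    have hle := T.le b nb.symm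
    have hnn := T.nn b nb.symm
    simp only [if_true, if_neg ab.symm, if_neg lb.symm, if_neg zb.symm] at hlt
    rcases hδ with h2 | h2 <;> rw [h2] at hlt hk
    · omega
    · exact (W.x21 hk hFr nb.symm lL zL lL lz (0) (0) (by norm_num) (by module)).elim
  · rw [h1] at hlt hk
    have hle := T.le l ln
    have hnn := T.nn l ln
    simp only [if_true, if_neg la, if_neg lb, if_neg lz] at hlt
    rcases hδ with h2 | h2 <;> rw [h2] at hlt hk
    · omega
    · exact (W.x20 hk hFr nb.symm lL zL lz (2) (0) (by norm_num) (by module)).elim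
  · rw [h1] at hlt hk
    have hle := T.le z zn
    have hnn := T.nn z zn
    simp only [if_true, if_neg za, if_neg zb, if_neg lz.symm] at hlt
    rcases hδ with h2 | h2 <;> rw [h2] at hlt hk
    · by_cases hD : D l z
      · refine ⟨by omega, hD, ?_⟩
        convert hk using 1
        module
      · exact (W.x2e hk hFr nb.symm lL zL lz hD 0 0 (by norm_num) (by module)).elim
    · omega
  · have hnn := T.nn j jn
    simp only [if_neg ja, if_neg jb, if_neg jl, if_neg jz] at hlt
    rcases hδ with h2 | h2 <;> rw [h2] at hlt hk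
    · by_cases jL : j ∈ L
      · exact (W.x22 hk hFr nb.symm lL zL jL lz jl.symm jz.symm (0) (0) (by norm_num) (by module)).elim
      · by_cases jR : j ∈ R
        · exact (W.r21 hk (hR j jR) lL zL lL lz 0 (by
          simp [ev_apply, ab.symm, lb.symm, zb.symm]) (by module)).elim
        · have := T.sup j ja jb jL jn jR
          omega
    · omega

end Pool.Agent.PF4.XF
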