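import Pool.Agent.PF4.KWL

/-!
Clusters with two free vertices: the steps.
-/

set_option autoImplicit false
set_option linter.unusedSectionVars false
set_option linter.unusedVariables false
set_option linter.unusedSimpArgs false

namespace Pool.Agent.PF4.XF

open Finset Pool.Agent.TFC

variable {n a b : ℕ} {L R : Finset ℕ} {Fr : ℕ → Prop} {Rp : ℕ → ℕ → Prop} {D : ℕ → ℕ → Prop}
  {J : (ℕ → ℤ) → Prop} {A B : List ℕ}
variable (W : KW n a b L Fr Rp D J)
include W

/-- two free leaves `y`, `z` which are a pair, and a third leaf `l` -/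
theorem KW.C1 {y z l : ℕ} (hFr : Fr y) (hFr2 : Fr z) (hR : ∀ r ∈ R, False) (yL : y ∈ L) (zL : z ∈ L) (lL : l ∈ L) (yz : y ≠ z) (yl : y ≠ l) (zl : z ≠ l) {M : ℕ → ℤ} (T : Tg n a b L R M)
    (hM : J M) (h : 1 ≤ M l) (hF : J ((2 : ℤ) • ev a + (2 : ℤ) • ev b + (2 : ℤ) • ev y + (2 : ℤ) • ev z)) :
    False := by
  have ab := W.ab
  have na := W.na
  have nb := W.nb
  obtain ⟨ya, yb, yn⟩ := W.L' yL
  obtain ⟨za, zb, zn⟩ := W.L' zL
  obtain ⟨la, lb, ln⟩ := W.L' lL
  obtain ⟨j, δ, hδ, hlt, hk⟩ := W.st hF hM l (1) (Or.inr (Or.inr lL)) (Or.inl rfl) (by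
    simp only [Pi.add_apply, Pi.smul_apply, Pi.zero_apply, ev_apply, smul_eq_mul, if_true, if_neg la, if_neg lb, if_neg yl.symm, if_neg zl.symm]; omega)
  simp only [Pi.add_apply, Pi.smul_apply, Pi.zero_apply, ev_apply, smul_eq_mul] at hlt
  have hc : j = n ∨ j = a ∨ j = b ∨ j = y ∨ j = z ∨ j = l ∨ (j ≠ n ∧ j ≠ a ∧ j ≠ b ∧ j ≠ y ∧ j ≠ z ∧ j ≠ l) := by omega
  rcases hc with h1 | h1 | h1 | h1 | h1 | h1 | ⟨jn, ja, jb, jy, jz, jl⟩
  · rw [h1] at hk
    exact (W.x2 hk hFr hFr2 [y, z] [y, l] (0) (1) (δ) (by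
      simp only [kv, List.length_cons, List.length_nil, List.map_cons, List.map_nil, List.sum_cons, List.sum_nil]
      push_cast
      module) (by norm_num) (by norm_num) (W.g22 yL zL lL yz yl zl)).elim
  · rw [h1] at hlt hk
    have hle := T.le a na.symm
    have hnn := T.nn a na.symm
    simp only [if_true, if_neg ab, if_neg ya.symm, if_neg za.symm, if_neg la.symm] at hlt
    rcases hδ with h2 | h2 <;> rw [h2] at hlt hk
    · omega
    · exact (W.x2 hk hFr hFr2 [y] [y, l] (0) (2) (0) (by
      simp only [kv, List.length_cons, List.length_nil, List.map_cons, List.map_nil, List.sum_cons, List.sum_nil]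
      push_cast
      module) (by norm_num) (by norm_num) (W.g12 yL yL lL yl)).elim
  · rw [h1] at hlt hk
    have hle := T.le b nb.symm
    have hnn := T.nn b nb.symm
    simp only [if_true, if_neg ab.symm, if_neg yb.symm, if_neg zb.symm, if_neg lb.symm] at hlt
    rcases hδ with h2 | h2 <;> rw [h2] at hlt hk
    · omega
    · exact (W.x2 hk hFr hFr2 [y, z] [l] (1) (1) (0) (by
      simp only [kv, List.length_cons, List.length_nil, List.map_cons, List.map_nil, List.sum_cons, List.sum_nil]
      push_cast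
      module) (by norm_num) (by norm_num) (W.g21 yL zL lL yz)).elim
  · rw [h1] at hlt hk
    have hle := T.le y yn
    have hnn := T.nn y yn
    simp only [if_true, if_neg ya, if_neg yb, if_neg yz, if_neg yl] at hlt
    rcases hδ with h2 | h2 <;> rw [h2] at hlt hk
    · omega
    · exact (W.x2 hk hFr hFr2 [z, y] [z, l] (0) (0) (0) (by
      simp only [kv, List.length_cons, List.length_nil, List.map_cons, List.map_nil, List.sum_cons, List.sum_nil]
      push_cast
      module) (by norm_num) (by norm_num) (W.g22 zL yL lL yz.symm zl yl)).elim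
  · rw [h1] at hlt hk
    have hle := T.le z zn
    have hnn := T.nn z zn
    simp only [if_true, if_neg za, if_neg zb, if_neg yz.symm, if_neg zl] at hlt
    rcases hδ with h2 | h2 <;> rw [h2] at hlt hk
    · omega
    · exact (W.x2 hk hFr hFr2 [y, z] [y, l] (0) (0) (0) (by
      simp only [kv, List.length_cons, List.length_nil, List.map_cons, List.map_nil, List.sum_cons, List.sum_nil]
      push_cast
      module) (by norm_num) (by norm_num) (W.g22 yL zL lL yz yl zl)).elim
  · rw [h1] at hlt hk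
    have hle := T.le l ln
    have hnn := T.nn l ln
    simp only [if_true, if_neg la, if_neg lb, if_neg yl.symm, if_neg zl.symm] at hlt
    rcases hδ with h2 | h2 <;> rw [h2] at hlt hk
    · exact (W.x2 hk hFr hFr2 [l, y] [l, z] (1) (1) (0) (by
      simp only [kv, List.length_cons, List.length_nil, List.map_cons, List.map_nil, List.sum_cons, List.sum_nil]
      push_cast
      module) (by norm_num) (by norm_num) (W.g22 lL yL zL yl.symm zl.symm yz)).elim
    · omega
  · have hnn := T.nn j jn
    simp only [if_neg ja, if_neg jb, if_neg jy, if_neg jz, if_neg jl] at hlt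
    rcases hδ with h2 | h2 <;> rw [h2] at hlt hk
    · by_cases jL : j ∈ L
      · exact (W.x2 hk hFr hFr2 [y, l] [y, j] (0) (2) (0) (by
      simp only [kv, List.length_cons, List.length_nil, List.map_cons, List.map_nil, List.sum_cons, List.sum_nil]
      push_cast
      module) (by norm_num) (by norm_num) (W.g22 yL lL jL yl jy.symm jl.symm)).elim
      · by_cases jR : j ∈ R
        · exact (hR j jR).elim
        · have := T.sup j ja jb jL jn jR
          omega
    · omega

/-- two free leaves `y`, `z`, a pair `l y` -/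
theorem KW.C2 {y z l : ℕ} (hFr : Fr y) (hFr2 : Fr z) (hR : ∀ r ∈ R, False) (yL : y ∈ L) (zL : z ∈ L) (lL : l ∈ L) (yz : y ≠ z) (yl : y ≠ l) (zl : z ≠ l) {M : ℕ → ℤ} (T : Tg n a b L R M)
    (hM : J M) (h : 1 ≤ M z) (hF : J ((2 : ℤ) • ev a + (2 : ℤ) • ev b + (2 : ℤ) • ev y + (2 : ℤ) • ev l)) :
    False := by
  have ab := W.ab
  have na := W.na
  have nb := W.nb
  obtain ⟨ya, yb, yn⟩ := W.L' yL
  obtain ⟨za, zb, zn⟩ := W.L' zL
  obtain ⟨la, lb, ln⟩ := W.L' lL
  obtain ⟨j, δ, hδ, hlt, hk⟩ := W.st hF hM z (1) (Or.inr (Or.inr zL)) (Or.inl rfl) (by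
    simp only [Pi.add_apply, Pi.smul_apply, Pi.zero_apply, ev_apply, smul_eq_mul, if_true, if_neg za, if_neg zb, if_neg yz.symm, if_neg zl]; omega)
  simp only [Pi.add_apply, Pi.smul_apply, Pi.zero_apply, ev_apply, smul_eq_mul] at hlt
  have hc : j = n ∨ j = a ∨ j = b ∨ j = y ∨ j = z ∨ j = l ∨ (j ≠ n ∧ j ≠ a ∧ j ≠ b ∧ j ≠ y ∧ j ≠ z ∧ j ≠ l) := by omega
  rcases hc with h1 | h1 | h1 | h1 | h1 | h1 | ⟨jn, ja, jb, jy, jz, jl⟩
  · rw [h1] at hk
    exact (W.x2 hk hFr hFr2 [l, y] [l, z] (1) (0) (δ) (by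
      simp only [kv, List.length_cons, List.length_nil, List.map_cons, List.map_nil, List.sum_cons, List.sum_nil]
      push_cast
      module) (by norm_num) (by norm_num) (W.g22 lL yL zL yl.symm zl.symm yz)).elim
  · rw [h1] at hlt hk
    have hle := T.le a na.symm
    have hnn := T.nn a na.symm
    simp only [if_true, if_neg ab, if_neg ya.symm, if_neg za.symm, if_neg la.symm] at hlt
    rcases hδ with h2 | h2 <;> rw [h2] at hlt hk
    · omega
    · exact (W.x2 hk hFr hFr2 [l] [y, l] (1) (1) (0) (by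
      simp only [kv, List.length_cons, List.length_nil, List.map_cons, List.map_nil, List.sum_cons, List.sum_nil]
      push_cast
      module) (by norm_num) (by norm_num) (W.g12 lL yL lL yl)).elim
  · rw [h1] at hlt hk
    have hle := T.le b nb.symm
    have hnn := T.nn b nb.symm
    simp only [if_true, if_neg ab.symm, if_neg yb.symm, if_neg zb.symm, if_neg lb.symm] at hlt
    rcases hδ with h2 | h2 <;> rw [h2] at hlt hk
    · omega
    · exact (W.x2 hk hFr hFr2 [y, l] [l] (1) (1) (0) (by
      simp only [kv, List.length_cons, List.length_nil, List.map_cons, List.map_nil, List.sum_cons, List.sum_nil]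
      push_cast
      module) (by norm_num) (by norm_num) (W.g21 yL lL lL yl)).elim
  · rw [h1] at hlt hk
    have hle := T.le y yn
    have hnn := T.nn y yn
    simp only [if_true, if_neg ya, if_neg yb, if_neg yz, if_neg yl] at hlt
    rcases hδ with h2 | h2 <;> rw [h2] at hlt hk
    · omega
    · exact (W.x2 hk hFr hFr2 [l, y] [l, z] (0) (0) (0) (by
      simp only [kv, List.length_cons, List.length_nil, List.map_cons, List.map_nil, List.sum_cons, List.sum_nil]
      push_cast
      module) (by norm_num) (by norm_num) (W.g22 lL yL zL yl.symm zl.symm yz)).elim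
  · rw [h1] at hlt hk
    have hle := T.le z zn
    have hnn := T.nn z zn
    simp only [if_true, if_neg za, if_neg zb, if_neg yz.symm, if_neg zl] at hlt
    rcases hδ with h2 | h2 <;> rw [h2] at hlt hk
    · exact (W.x2 hk hFr hFr2 [l, y] [l, z] (1) (1) (0) (by
      simp only [kv, List.length_cons, List.length_nil, List.map_cons, List.map_nil, List.sum_cons, List.sum_nil]
      push_cast
      module) (by norm_num) (by norm_num) (W.g22 lL yL zL yl.symm zl.symm yz)).elim
    · omega
  · rw [h1] at hlt hk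
    have hle := T.le l ln
    have hnn := T.nn l ln
    simp only [if_true, if_neg la, if_neg lb, if_neg yl.symm, if_neg zl.symm] at hlt
    rcases hδ with h2 | h2 <;> rw [h2] at hlt hk
    · omega
    · exact (W.x2 hk hFr hFr2 [y, z] [y, l] (0) (0) (0) (by
      simp only [kv, List.length_cons, List.length_nil, List.map_cons, List.map_nil, List.sum_cons, List.sum_nil]
      push_cast
      module) (by norm_num) (by norm_num) (W.g22 yL zL lL yz yl zl)).elim
  · have hnn := T.nn j jn
    simp only [if_neg ja, if_neg jb, if_neg jy, if_neg jz, if_neg jl] at hlt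
    rcases hδ with h2 | h2 <;> rw [h2] at hlt hk
    · by_cases jL : j ∈ L
      · exact (W.x2 hk hFr hFr2 [l, y] [l, j] (1) (1) (0) (by
      simp only [kv, List.length_cons, List.length_nil, List.map_cons, List.map_nil, List.sum_cons, List.sum_nil]
      push_cast
      module) (by norm_num) (by norm_num) (W.g22 lL yL jL yl.symm jl.symm jy.symm)).elim
      · by_cases jR : j ∈ R
        · exact (hR j jR).elim
        · have := T.sup j ja jb jL jn jR
          omega
    · omega

/-- two free hubs -/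
theorem KW.H1 {p q : ℕ} (hFr : Fr a) (hFr2 : Fr b) (hR : ∀ r ∈ R, False) (pL : p ∈ L) (qL : q ∈ L) (pq : p ≠ q) {M : ℕ → ℤ} (T : Tg n a b L R M)
    (hM : J M) (h : M q ≤ 1) (hF : J ((2 : ℤ) • ev a + (2 : ℤ) • ev b + (2 : ℤ) • ev p + (2 : ℤ) • ev q)) :
    False := by
  have ab := W.ab
  have na := W.na
  have nb := W.nb
  obtain ⟨pa, pb, pn⟩ := W.L' pL
  obtain ⟨qa, qb, qn⟩ := W.L' qL
  obtain ⟨j, δ, hδ, hlt, hk⟩ := W.st hF hM q (-1) (Or.inr (Or.inr qL)) (Or.inr rfl) (by
    simp only [Pi.add_apply, Pi.smul_apply, Pi.zero_apply, ev_apply, smul_eq_mul, if_true, if_neg qa, if_neg qb, if_neg pq.symm]; omega)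
  simp only [Pi.add_apply, Pi.smul_apply, Pi.zero_apply, ev_apply, smul_eq_mul] at hlt
  have hc : j = n ∨ j = a ∨ j = b ∨ j = p ∨ j = q ∨ (j ≠ n ∧ j ≠ a ∧ j ≠ b ∧ j ≠ p ∧ j ≠ q) := by omega
  rcases hc with h1 | h1 | h1 | h1 | h1 | ⟨jn, ja, jb, jp, jq⟩
  · rw [h1] at hk
    exact (W.x2 hk hFr hFr2 [p] [p, q] (1) (0) (δ) (by
      simp only [kv, List.length_cons, List.length_nil, List.map_cons, List.map_nil, List.sum_cons, List.sum_nil]
      push_cast
      module) (by norm_num) (by norm_num) (W.g12 pL pL qL pq)).elim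
  · rw [h1] at hlt hk
    have hle := T.le a na.symm
    have hnn := T.nn a na.symm
    simp only [if_true, if_neg ab, if_neg pa.symm, if_neg qa.symm] at hlt
    rcases hδ with h2 | h2 <;> rw [h2] at hlt hk
    · omega
    · exact (W.x2 hk hFr hFr2 [p] [p, q] (0) (0) (0) (by
      simp only [kv, List.length_cons, List.length_nil, List.map_cons, List.map_nil, List.sum_cons, List.sum_nil]
      push_cast
      module) (by norm_num) (by norm_num) (W.g12 pL pL qL pq)).elim
  · rw [h1] at hlt hk
    have hle := T.le b nb.symm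
    have hnn := T.nn b nb.symm
    simp only [if_true, if_neg ab.symm, if_neg pb.symm, if_neg qb.symm] at hlt
    rcases hδ with h2 | h2 <;> rw [h2] at hlt hk
    · omega
    · exact (W.x2 hk hFr hFr2 [p, q] [p] (0) (0) (0) (by
      simp only [kv, List.length_cons, List.length_nil, List.map_cons, List.map_nil, List.sum_cons, List.sum_nil]
      push_cast
      module) (by norm_num) (by norm_num) (W.g21 pL qL pL pq)).elim
  · rw [h1] at hlt hk
    have hle := T.le p pn
    have hnn := T.nn p pn
    simp only [if_true, if_neg pa, if_neg pb, if_neg pq] at hlt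
    rcases hδ with h2 | h2 <;> rw [h2] at hlt hk
    · omega
    · exact (W.x2 hk hFr hFr2 [] [p, q] (2) (0) (0) (by
      simp only [kv, List.length_cons, List.length_nil, List.map_cons, List.map_nil, List.sum_cons, List.sum_nil]
      push_cast
      module) (by norm_num) (by norm_num) (W.g02 pL qL pq)).elim
  · rw [h1] at hlt hk
    have hle := T.le q qn
    have hnn := T.nn q qn
    simp only [if_true, if_neg qa, if_neg qb, if_neg pq.symm] at hlt
    rcases hδ with h2 | h2 <;> rw [h2] at hlt hk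
    · omega
    · exact (W.x2 hk hFr hFr2 [p] [p] (1) (1) (0) (by
      simp only [kv, List.length_cons, List.length_nil, List.map_cons, List.map_nil, List.sum_cons, List.sum_nil]
      push_cast
      module) (by norm_num) (by norm_num) (W.g11 pL pL)).elim
  · have hnn := T.nn j jn
    simp only [if_neg ja, if_neg jb, if_neg jp, if_neg jq] at hlt
    rcases hδ with h2 | h2 <;> rw [h2] at hlt hk
    · by_cases jL : j ∈ L
      · exact (W.x2 hk hFr hFr2 [p, q] [p, j] (0) (0) (0) (by
      simp only [kv, List.length_cons, List.length_nil, List.map_cons, List.map_nil, List.sum_cons, List.sum_nil]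
      push_cast
      module) (by norm_num) (by norm_num) (W.g22 pL qL jL pq jp.symm jq.symm)).elim
      · by_cases jR : j ∈ R
        · exact (hR j jR).elim
        · have := T.sup j ja jb jL jn jR
          omega
    · omega

theorem KW.S1 {y p : ℕ} (hFr : Fr y) (hFr2 : Fr p) (hR : ∀ r ∈ R, Rp y r) (yL : y ∈ L) (pL : p ∈ L) (yp : y ≠ p) {M : ℕ → ℤ} (T : Tg n a b L R M)
    (hM : J M) (h : M a ≤ 1) (hF : J ((2 : ℤ) • ev a + (2 : ℤ) • ev b + (2 : ℤ) • ev y + (2 : ℤ) • ev p)) :
    False := by
  have ab := W.ab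
  have na := W.na
  have nb := W.nb
  obtain ⟨ya, yb, yn⟩ := W.L' yL
  obtain ⟨pa, pb, pn⟩ := W.L' pL
  obtain ⟨j, δ, hδ, hlt, hk⟩ := W.st hF hM a (-1) (Or.inl rfl) (Or.inr rfl) (by
    simp only [Pi.add_apply, Pi.smul_apply, Pi.zero_apply, ev_apply, smul_eq_mul, if_true, if_neg ab, if_neg ya.symm, if_neg pa.symm]; omega)
  simp only [Pi.add_apply, Pi.smul_apply, Pi.zero_apply, ev_apply, smul_eq_mul] at hlt
  have hc : j = n ∨ j = a ∨ j = b ∨ j = y ∨ j = p ∨ (j ≠ n ∧ j ≠ a ∧ j ≠ b ∧ j ≠ y ∧ j ≠ p) := by omega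
  rcases hc with h1 | h1 | h1 | h1 | h1 | ⟨jn, ja, jb, jy, jp⟩
  · rw [h1] at hk
    exact (W.x2 hk hFr hFr2 [y] [y, p] (0) (1) (δ) (by
      simp only [kv, List.length_cons, List.length_nil, List.map_cons, List.map_nil, List.sum_cons, List.sum_nil]
      push_cast
      module) (by norm_num) (by norm_num) (W.g12 yL yL pL yp)).elim
  · rw [h1] at hlt hk
    have hle := T.le a na.symm
    have hnn := T.nn a na.symm
    simp only [if_true, if_neg ab, if_neg ya.symm, if_neg pa.symm] at hlt
    rcases hδ with h2 | h2 <;> rw [h2] at hlt hk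
    · omega
    · exact (W.x2 hk hFr hFr2 [] [y, p] (1) (1) (0) (by
      simp only [kv, List.length_cons, List.length_nil, List.map_cons, List.map_nil, List.sum_cons, List.sum_nil]
      push_cast
      module) (by norm_num) (by norm_num) (W.g02 yL pL yp)).elim
  · rw [h1] at hlt hk
    have hle := T.le b nb.symm
    have hnn := T.nn b nb.symm
    simp only [if_true, if_neg ab.symm, if_neg yb.symm, if_neg pb.symm] at hlt
    rcases hδ with h2 | h2 <;> rw [h2] at hlt hk
    · omega
    · exact (W.x2 hk hFr hFr2 [y] [y] (0) (2) (0) (by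
      simp only [kv, List.length_cons, List.length_nil, List.map_cons, List.map_nil, List.sum_cons, List.sum_nil]
      push_cast
      module) (by norm_num) (by norm_num) (W.g11 yL yL)).elim
  · rw [h1] at hlt hk
    have hle := T.le y yn
    have hnn := T.nn y yn
    simp only [if_true, if_neg ya, if_neg yb, if_neg yp] at hlt
    rcases hδ with h2 | h2 <;> rw [h2] at hlt hk
    · omega
    · exact (W.x2 hk hFr hFr2 [p] [y, p] (0) (0) (0) (by
      simp only [kv, List.length_cons, List.length_nil, List.map_cons, List.map_nil, List.sum_cons, List.sum_nil]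
      push_cast
      module) (by norm_num) (by norm_num) (W.g12 pL yL pL yp)).elim
  · rw [h1] at hlt hk
    have hle := T.le p pn
    have hnn := T.nn p pn
    simp only [if_true, if_neg pa, if_neg pb, if_neg yp.symm] at hlt
    rcases hδ with h2 | h2 <;> rw [h2] at hlt hk
    · omega
    · exact (W.x2 hk hFr hFr2 [y] [y, p] (0) (0) (0) (by
      simp only [kv, List.length_cons, List.length_nil, List.map_cons, List.map_nil, List.sum_cons, List.sum_nil]
      push_cast
      module) (by norm_num) (by norm_num) (W.g12 yL yL pL yp)).elim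
  · have hnn := T.nn j jn
    simp only [if_neg ja, if_neg jb, if_neg jy, if_neg jp] at hlt
    rcases hδ with h2 | h2 <;> rw [h2] at hlt hk
    · by_cases jL : j ∈ L
      · exact (W.x2 hk hFr hFr2 [y] [y, j] (0) (2) (0) (by
      simp only [kv, List.length_cons, List.length_nil, List.map_cons, List.map_nil, List.sum_cons, List.sum_nil]
      push_cast
      module) (by norm_num) (by norm_num) (W.g12 yL yL jL jy.symm)).elim
      · by_cases jR : j ∈ R
        · exact (W.r12 hk (hR j jR) pL yL pL yp 0 (by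
          simp [ev_apply, ya, yb, yp]) (by module)).elim
        · have := T.sup j ja jb jL jn jR
          omega
    · omega

theorem KW.S1b {y p : ℕ} (hFr : Fr y) (hFr2 : Fr p) (hR : ∀ r ∈ R, Rp y r) (yL : y ∈ L) (pL : p ∈ L) (yp : y ≠ p) {M : ℕ → ℤ} (T : Tg n a b L R M)
    (hM : J M) (h : M b ≤ 1) (hF : J ((2 : ℤ) • ev a + (2 : ℤ) • ev b + (2 : ℤ) • ev y + (2 : ℤ) • ev p)) :
    False := by
  have ab := W.ab
  have na := W.na
  have nb := W.nb
  obtain ⟨ya, yb, yn⟩ := W.L' yL
  obtain ⟨pa, pb, pn⟩ := W.L' pL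
  obtain ⟨j, δ, hδ, hlt, hk⟩ := W.st hF hM b (-1) (Or.inr (Or.inl rfl)) (Or.inr rfl) (by
    simp only [Pi.add_apply, Pi.smul_apply, Pi.zero_apply, ev_apply, smul_eq_mul, if_true, if_neg ab.symm, if_neg yb.symm, if_neg pb.symm]; omega)
  simp only [Pi.add_apply, Pi.smul_apply, Pi.zero_apply, ev_apply, smul_eq_mul] at hlt
  have hc : j = n ∨ j = a ∨ j = b ∨ j = y ∨ j = p ∨ (j ≠ n ∧ j ≠ a ∧ j ≠ b ∧ j ≠ y ∧ j ≠ p) := by omega
  rcases hc with h1 | h1 | h1 | h1 | h1 | ⟨jn, ja, jb, jy, jp⟩
  · rw [h1] at hk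
    exact (W.x2 hk hFr hFr2 [y, p] [y] (0) (1) (δ) (by
      simp only [kv, List.length_cons, List.length_nil, List.map_cons, List.map_nil, List.sum_cons, List.sum_nil]
      push_cast
      module) (by norm_num) (by norm_num) (W.g21 yL pL yL yp)).elim
  · rw [h1] at hlt hk
    have hle := T.le a na.symm
    have hnn := T.nn a na.symm
    simp only [if_true, if_neg ab, if_neg ya.symm, if_neg pa.symm] at hlt
    rcases hδ with h2 | h2 <;> rw [h2] at hlt hk
    · omega
    · exact (W.x2 hk hFr hFr2 [y] [y] (0) (2) (0) (by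
      simp only [kv, List.length_cons, List.length_nil, List.map_cons, List.map_nil, List.sum_cons, List.sum_nil]
      push_cast
      module) (by norm_num) (by norm_num) (W.g11 yL yL)).elim
  · rw [h1] at hlt hk
    have hle := T.le b nb.symm
    have hnn := T.nn b nb.symm
    simp only [if_true, if_neg ab.symm, if_neg yb.symm, if_neg pb.symm] at hlt
    rcases hδ with h2 | h2 <;> rw [h2] at hlt hk
    · omega
    · exact (W.x2 hk hFr hFr2 [y, p] [] (1) (1) (0) (by
      simp only [kv, List.length_cons, List.length_nil, List.map_cons, List.map_nil, List.sum_cons, List.sum_nil]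
      push_cast
      module) (by norm_num) (by norm_num) (W.g20 yL pL yp)).elim
  · rw [h1] at hlt hk
    have hle := T.le y yn
    have hnn := T.nn y yn
    simp only [if_true, if_neg ya, if_neg yb, if_neg yp] at hlt
    rcases hδ with h2 | h2 <;> rw [h2] at hlt hk
    · omega
    · exact (W.x2 hk hFr hFr2 [y, p] [p] (0) (0) (0) (by
      simp only [kv, List.length_cons, List.length_nil, List.map_cons, List.map_nil, List.sum_cons, List.sum_nil]
      push_cast
      module) (by norm_num) (by norm_num) (W.g21 yL pL pL yp)).elim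
  · rw [h1] at hlt hk
    have hle := T.le p pn
    have hnn := T.nn p pn
    simp only [if_true, if_neg pa, if_neg pb, if_neg yp.symm] at hlt
    rcases hδ with h2 | h2 <;> rw [h2] at hlt hk
    · omega
    · exact (W.x2 hk hFr hFr2 [y, p] [y] (0) (0) (0) (by
      simp only [kv, List.length_cons, List.length_nil, List.map_cons, List.map_nil, List.sum_cons, List.sum_nil]
      push_cast
      module) (by norm_num) (by norm_num) (W.g21 yL pL yL yp)).elim
  · have hnn := T.nn j jn
    simp only [if_neg ja, if_neg jb, if_neg jy, if_neg jp] at hlt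
    rcases hδ with h2 | h2 <;> rw [h2] at hlt hk
    · by_cases jL : j ∈ L
      · exact (W.x2 hk hFr hFr2 [y, p] [j] (1) (1) (0) (by
      simp only [kv, List.length_cons, List.length_nil, List.map_cons, List.map_nil, List.sum_cons, List.sum_nil]
      push_cast
      module) (by norm_num) (by norm_num) (W.g21 yL pL jL yp)).elim
      · by_cases jR : j ∈ R
        · exact (W.r21 hk (hR j jR) yL pL pL yp 0 (by
          simp [ev_apply, ya, yb, yp]) (by module)).elim
        · have := T.sup j ja jb jL jn jR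
          omega
    · omega

/-- two free leaves: there is no third leaf -/
theorem KW.twoleaf (FD : FDs a b D J) (hcov : ∀ l ∈ L, ∃ v, D l v) {y z l : ℕ} (hy : Fr y) (hz : Fr z) (yL : y ∈ L) (zL : z ∈ L)
    (lL : l ∈ L) (yz : y ≠ z) (yl : y ≠ l) (zl : z ≠ l) : False := by
  by_cases h : D y z
  · obtain ⟨v, hv⟩ := hcov l lL
    obtain ⟨_, _, lv, la, lb, _⟩ := W.DL' hv
    refine W.C1 hy hz (R := ∅) (by simp) yL zL lL yz yl zl (W.tgF hv) (FD _ _ hv) ?_ (FD _ _ h)
    simp [ev_apply, la, lb, lv]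
  · obtain ⟨u, hu⟩ := hcov y yL
    obtain ⟨v, hv⟩ := hcov z zL
    obtain ⟨_, uL, yu, _⟩ := W.DL' hu
    obtain ⟨_, _, zv, za, zb, _⟩ := W.DL' hv
    have hzu : z ≠ u := by rintro rfl; exact h hu
    refine W.C2 hy hz (R := ∅) (by simp) yL zL uL yz yu hzu (W.tgF hv) (FD _ _ hv) ?_ (FD _ _ hu)
    simp [ev_apply, za, zb, zv]

/-- two free hubs: there is no third leaf -/
theorem KW.twohub (FD : FDs a b D J) (hcov : ∀ l ∈ L, ∃ v, D l v) {p q l : ℕ} (ha : Fr a) (hb : Fr b) (hD : D p q)
    (lL : l ∈ L) (pl : l ≠ p) (ql : l ≠ q) : False := by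
  obtain ⟨pL, qL, pq, pa, pb, pn, qa, qb, qn⟩ := W.DL' hD
  obtain ⟨v, hv⟩ := hcov l lL
  by_cases hvq : v = q
  · subst hvq
    refine W.H1 ha hb (R := ∅) (by simp) qL pL pq.symm (W.tgF hv) (FD _ _ hv) ?_ (FD _ _ (W.sym _ _ hD))
    simp [ev_apply, pa, pb, pl.symm, pq]
  · refine W.H1 ha hb (R := ∅) (by simp) pL qL pq (W.tgF hv) (FD _ _ hv) ?_ (FD _ _ hD)
    simp [ev_apply, qa, qb, ql.symm, Ne.symm hvq]

/-- no free hub next to a free leaf -/
theorem KW.hubleaf {l v : ℕ} (hD : D l v) (F : J ((2 : ℤ) • ev a + (2 : ℤ) • ev b + (2 : ℤ) • ev l + (2 : ℤ) • ev v))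
    (hl : Fr l) (h : Fr a ∨ Fr b) : False := by
  obtain ⟨lL, vL, lv, la, lb, ln, va, vb, vn⟩ := W.DL' hD
  rcases h with h | h
  · exact W.x2 F h hl [v] [v, l] 1 1 0 (by
      simp only [kv, List.length_cons, List.length_nil, List.map_cons, List.map_nil, List.sum_cons, List.sum_nil]
      push_cast
      module) (by norm_num) (by norm_num) (W.g12 vL vL lL lv.symm)
  · exact W.x2 F h hl [v, l] [v] 1 1 0 (by
      simp only [kv, List.length_cons, List.length_nil, List.map_cons, List.map_nil, List.sum_cons, List.sum_nil]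
      push_cast
      module) (by norm_num) (by norm_num) (W.g21 vL lL vL lv.symm)

/-- free corner lemma for a square with two opposite free corners -/
theorem KW.bS {y p r : ℕ} (hy : Fr y) (hp : Fr p) (hD : D y p)
    (F : J ((2 : ℤ) • ev a + (2 : ℤ) • ev b + (2 : ℤ) • ev y + (2 : ℤ) • ev p)) (hL : ∀ x ∈ L, x = y ∨ x = p)
    (hr : Rp y r) (hra : r ≠ a) (hrb : r ≠ b) (hrL : r ∉ L) (hrn : r ≠ n) {c τ : ℤ} (hc : 0 ≤ c) (hc2 : c ≤ 2)
    (g : Gd L D A B) (hM : J (rv n a b r c τ A B)) : False := by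
  obtain ⟨yL, pL, yp, ya, yb, yn, pa, pb, pn⟩ := W.DL' hD
  have T := W.tgr g hra hrb hrL hrn (τ := τ) hc hc2
  have R0 : ∀ x ∈ ({r} : Finset ℕ), Rp y x := by
    intro x hx
    rw [Finset.mem_singleton.1 hx]
    exact hr
  have ha : rv n a b r c τ A B a = A.length := by
    rw [rv_apply W.na.symm hra.symm, W.kv_a g]
  have hb : rv n a b r c τ A B b = B.length := by
    rw [rv_apply W.nb.symm hrb.symm, W.kv_b g]
  by_cases hA : A.length ≤ 1
  · exact W.S1 hy hp R0 yL pL yp T hM (by rw [ha]; omega) F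
  by_cases hB : B.length ≤ 1
  · exact W.S1b hy hp R0 yL pL yp T hM (by rw [hb]; omega) F
  have both : ∀ A : List ℕ, A.Nodup → 2 ≤ A.length → (∀ x ∈ A, x ∈ L) → y ∈ A ∧ p ∈ A := by
    intro A nA h2 lA
    obtain ⟨u, hu⟩ : ∃ u, u ∈ A := by
      match A, h2 with
      | [], h => simp at h
      | u :: _, _ => exact ⟨u, by simp⟩
    obtain ⟨u', hu', hne⟩ := two_of_len nA h2 hu
    rcases hL u (lA u hu) with h | h
    · rcases hL u' (lA u' hu') with h' | h'
      · exact absurd (h'.trans h.symm) hne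
      · exact ⟨h ▸ hu, h' ▸ hu'⟩
    · rcases hL u' (lA u' hu') with h' | h'
      · exact ⟨h' ▸ hu', h ▸ hu⟩
      · exact absurd (h'.trans h.symm) hne
  have h1 := both A g.nA (by omega) g.lA
  have h2 := both B g.nB (by omega) g.lB
  exact g.g y p hD h1.1 h1.2 h2.1 h2.2

end Pool.Agent.PF4.XF
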