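import Pool.Agent.PF4.KWB
import Pool.Agent.PF4.KWA

/-!
The one-world lemmas for clusters with one free vertex: the position of the near covers, the free corner lemma.
-/

set_option autoImplicit false
set_option linter.unusedSectionVars false
set_option linter.unusedVariables false
set_option linter.unusedSimpArgs false

namespace Pool.Agent.PF4.XF

open Finset Pool.Agent.TFC

lemma sum_ev {A : List ℕ} (h : A.Nodup) (v : ℕ) : ((A.map ev).sum : ℕ → ℤ) v = if v ∈ A then 1 else 0 := by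
  induction A with
  | nil => simp
  | cons x A ih =>
    obtain ⟨h1, h2⟩ := List.nodup_cons.1 h
    rw [List.map_cons, List.sum_cons, Pi.add_apply, ih h2, ev_apply]
    by_cases hx : v = x
    · subst hx
      simp [h1]
    · simp [hx]

variable {n a b : ℕ} {L R : Finset ℕ} {Fr : ℕ → Prop} {Rp : ℕ → ℕ → Prop} {D : ℕ → ℕ → Prop}
  {J : (ℕ → ℤ) → Prop} {A B : List ℕ}

lemma Gd.kv_apply (g : Gd L D A B) (v : ℕ) :
    kv a b A B v = (A.length : ℤ) * (if v = a then 1 else 0) + (B.length : ℤ) * (if v = b then 1 else 0) +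
      (if v ∈ A then 1 else 0) + (if v ∈ B then 1 else 0) := by
  simp only [kv, Pi.add_apply, Pi.smul_apply, ev_apply, smul_eq_mul, sum_ev g.nA, sum_ev g.nB]

lemma KW.kv_a (W : KW n a b L Fr Rp D J) (g : Gd L D A B) : kv a b A B a = A.length := by
  rw [g.kv_apply, if_pos rfl, if_neg W.ab, if_neg (fun h => W.aL (g.lA _ h)), if_neg (fun h => W.aL (g.lB _ h))]
  ring

lemma KW.kv_b (W : KW n a b L Fr Rp D J) (g : Gd L D A B) : kv a b A B b = B.length := by
  rw [g.kv_apply, if_pos rfl, if_neg W.ab.symm, if_neg (fun h => W.bL (g.lA _ h)), if_neg (fun h => W.bL (g.lB _ h))]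
  ring

lemma KW.kv_l (W : KW n a b L Fr Rp D J) (g : Gd L D A B) {v : ℕ} (hv : v ∈ L) :
    kv a b A B v = (if v ∈ A then 1 else 0) + (if v ∈ B then 1 else 0) := by
  obtain ⟨h1, h2, h3⟩ := W.L' hv
  rw [g.kv_apply, if_neg h1, if_neg h2]
  ring

lemma KW.kv_o (W : KW n a b L Fr Rp D J) (g : Gd L D A B) {v : ℕ} (ha : v ≠ a) (hb : v ≠ b) (hv : v ∉ L) :
    kv a b A B v = 0 := by
  rw [g.kv_apply, if_neg ha, if_neg hb, if_neg (fun h => hv (g.lA _ h)), if_neg (fun h => hv (g.lB _ h))]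
  ring

lemma KW.kv_nn (W : KW n a b L Fr Rp D J) (g : Gd L D A B) (v : ℕ) : 0 ≤ kv a b A B v := by
  rw [g.kv_apply]
  have h1 : (0 : ℤ) ≤ A.length := by positivity
  have h2 : (0 : ℤ) ≤ B.length := by positivity
  split_ifs <;> omega

lemma KW.kv_le (W : KW n a b L Fr Rp D J) (g : Gd L D A B) (v : ℕ) : kv a b A B v ≤ 2 := by
  by_cases ha : v = a
  · have := g.cA
    rw [ha, W.kv_a g]; omega
  by_cases hb : v = b
  · have := g.cB
    rw [hb, W.kv_b g]; omega
  by_cases hv : v ∈ L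
  · rw [W.kv_l g hv]; split_ifs <;> omega
  · rw [W.kv_o g ha hb hv]; omega

/-- the demand vector of a near cover -/
def nv (n a b w : ℕ) (A B : List ℕ) : ℕ → ℤ := kv a b A B + ev w + ev n

lemma nv_apply {w v : ℕ} (hv : v ≠ n) : nv n a b w A B v = kv a b A B v + if v = w then 1 else 0 := by
  simp [nv, ev_apply, hv]

lemma KW.tg (W : KW n a b L Fr Rp D J) (g : Gd L D A B) {w : ℕ} (hw : w = a ∨ w = b ∨ w ∈ L)
    (h1 : kv a b A B w ≤ 1) : Tg n a b L ∅ (nv n a b w A B) := by
  refine ⟨?_, ?_, ?_⟩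
  · intro v hv
    rw [nv_apply hv]
    have := W.kv_nn g v
    split_ifs <;> omega
  · intro v hv
    rw [nv_apply hv]
    have := W.kv_le g v
    split_ifs with h
    · rw [h]; omega
    · omega
  · intro v ha hb hL hn _
    rw [nv_apply hn, W.kv_o g ha hb hL, if_neg]
    · ring
    · rintro rfl
      rcases hw with h | h | h
      · exact ha h
      · exact hb h
      · exact hL h

/-- the demand vector of a witness as a target -/
lemma KW.tgF (W : KW n a b L Fr Rp D J) {u w : ℕ} (hD : D u w) :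
    Tg n a b L R ((2 : ℤ) • ev a + (2 : ℤ) • ev b + (2 : ℤ) • ev u + (2 : ℤ) • ev w) := by
  obtain ⟨uL, wL, uw, ua, ub, un, wa, wb, wn⟩ := W.DL' hD
  have ab := W.ab
  refine ⟨?_, ?_, ?_⟩
  · intro v hv
    simp only [Pi.add_apply, Pi.smul_apply, ev_apply, smul_eq_mul]
    split_ifs <;> omega
  · intro v hv
    simp only [Pi.add_apply, Pi.smul_apply, ev_apply, smul_eq_mul]
    split_ifs <;> omega
  · intro v ha hb hL hn _
    have h1 : v ≠ u := by rintro rfl; exact hL uL
    have h2 : v ≠ w := by rintro rfl; exact hL wL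
    simp [ev_apply, ha, hb, h1, h2]

lemma two_of_len {A : List ℕ} (h : A.Nodup) (h2 : 2 ≤ A.length) {x : ℕ} (hx : x ∈ A) : ∃ z ∈ A, z ≠ x := by
  match A, h, h2 with
  | [], _, h2 => simp at h2
  | [y], _, h2 => simp at h2
  | y :: z :: A', h, _ =>
    by_cases hy : y = x
    · refine ⟨z, by simp, ?_⟩
      rintro rfl
      rw [hy] at h
      simp at h
    · exact ⟨y, by simp, hy⟩

lemma mem_of_len2 {A : List ℕ} (h2 : A.length ≤ 2) (hn : A.Nodup) {x z v : ℕ} (hx : x ∈ A) (hz : z ∈ A) (hxz : x ≠ z)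
    (hv : v ∈ A) : v = x ∨ v = z := by
  match A, hn, h2 with
  | [], _, h2 => simp at hx
  | [y], _, h2 =>
    simp only [List.mem_singleton] at hx hz
    exact absurd (hx.trans hz.symm) hxz
  | [y, y'], h, _ =>
    simp only [List.mem_cons, List.not_mem_nil, or_false] at hx hz hv
    rcases hx with rfl | rfl <;> rcases hz with rfl | rfl <;> rcases hv with rfl | rfl <;> simp_all
  | y :: y' :: y'' :: A', _, h2 => simp at h2

section typeB

variable (W : KW n a b L Fr Rp D J) (FD : FDs a b D J) (hFr : Fr b)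
include W FD hFr

/-- P-lemma, free hub -/
theorem KW.PB {p q : ℕ} (hpq : D p q) (hcov : ∀ l ∈ L, ∃ v, D l v) (g : Gd L D A B) (hA : A.length ≤ 1)
    (hM : J (nv n a b a A B)) : ∃ l ∈ L, A = [l] ∧ B = [l] := by
  have T := W.tg g (w := a) (Or.inl rfl) (by rw [W.kv_a g]; omega)
  have R0 : ∀ r ∈ (∅ : Finset ℕ), Rp b r := by simp
  have val : ∀ v ∈ L, nv n a b a A B v = (if v ∈ A then 1 else 0) + (if v ∈ B then 1 else 0) := by
    intro v hv
    obtain ⟨h1, h2, h3⟩ := W.L' hv
    rw [nv_apply h3, W.kv_l g hv, if_neg h1, add_zero]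
  have key : ∀ v ∈ L, (v ∈ A ↔ v ∈ B) ∧ (v ∉ A → ∀ u, D v u → J ((2 : ℤ) • ev a + (2 : ℤ) • ev b + (2 : ℤ) • ev u)) := by
    intro v hv
    obtain ⟨u0, hu0⟩ := hcov v hv
    have h0 := val v hv
    refine ⟨?_, ?_⟩
    · by_cases h1 : v ∈ A <;> by_cases h2 : v ∈ B <;> simp only [h1, h2, if_true, if_false] at h0 ⊢
      · have := (W.B1 hFr R0 hu0 T hM (by omega) (FD _ _ hu0)).1
        omega
      · have := (W.B1 hFr R0 hu0 T hM (by omega) (FD _ _ hu0)).1
        omega
    · intro h1 u hu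
      refine (W.B1 hFr R0 hu T hM ?_ (FD _ _ hu)).2
      rw [if_neg h1] at h0
      split_ifs at h0 <;> omega
  match A, B, g, hA, hM, T, val, key with
  | [], B, g, _, hM, T, val, key =>
    exfalso
    have hB : B = [] := by
      rw [List.eq_nil_iff_forall_not_mem]
      intro x hx
      have := (key x (g.lB x hx)).1.2 hx
      simp at this
    subst hB
    have h1 := (key p (W.DL _ _ hpq)).2 (by simp) q hpq
    have h2 := (W.B2 hFr R0 (W.DL _ _ (W.sym _ _ hpq)) T hM (by
      rw [nv_apply W.na.symm, W.kv_a g]; simp) h1).1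
    rw [nv_apply W.na.symm, W.kv_a g] at h2
    simp at h2
  | [l], B, g, _, hM, T, val, key =>
    have hl : l ∈ L := g.lA l (by simp)
    refine ⟨l, hl, rfl, ?_⟩
    have h1 : l ∈ B := (key l hl).1.1 (by simp)
    have h2 : ∀ x ∈ B, x = l := by
      intro x hx
      have := (key x (g.lB x hx)).1.2 hx
      simpa using this
    match B, g.nB, h1, h2 with
    | [x], _, h1, h2 => rw [h2 x (by simp)]
    | x :: x' :: B', h3, _, h2 =>
      exfalso
      have e1 := h2 x (by simp)
      have e2 := h2 x' (by simp)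
      rw [e1, e2] at h3
      simp at h3
  | _ :: _ :: _, _, _, hA, _, _, _, _ => simp at hA

/-- E-lemma, free hub -/
theorem KW.EB {l v : ℕ} (hD : D l v) (g : Gd L D A B) (hl : ¬ (l ∈ A ∧ l ∈ B)) (hM : J (nv n a b l A B)) :
    l ∈ B ∨ (l ∈ A ∧ ∃ z ∈ A, z ≠ l ∧ z ∈ B) := by
  obtain ⟨lL, vL, lv, la, lb, ln, va, vb, vn⟩ := W.DL' hD
  have T := W.tg g (w := l) (Or.inr (Or.inr lL)) (by rw [W.kv_l g lL]; split_ifs <;> simp_all)
  have R0 : ∀ r ∈ (∅ : Finset ℕ), Rp b r := by simp
  have h0 : nv n a b l A B l = (if l ∈ A then 1 else 0) + (if l ∈ B then 1 else 0) + 1 := by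
    rw [nv_apply ln, W.kv_l g lL, if_pos rfl]
  by_cases hB : l ∈ B
  · exact Or.inl hB
  have hA : l ∈ A := by
    by_contra hA
    rw [if_neg hA, if_neg hB] at h0
    have := (W.B1 hFr R0 hD T hM (by omega) (FD _ _ hD)).1
    omega
  refine Or.inr ⟨hA, ?_⟩
  have hv : nv n a b l A B v = (if v ∈ A then 1 else 0) + (if v ∈ B then 1 else 0) := by
    rw [nv_apply vn, W.kv_l g vL, if_neg lv.symm, add_zero]
  by_cases hv2 : v ∈ A ∧ v ∈ B
  · exact ⟨v, hv2.1, lv.symm, hv2.2⟩
  have solo : J ((2 : ℤ) • ev a + (2 : ℤ) • ev b + (2 : ℤ) • ev l) := by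
    refine (W.B1 hFr R0 (W.sym _ _ hD) T hM ?_ (FD _ _ (W.sym _ _ hD))).2
    rw [hv]
    by_cases h1 : v ∈ A <;> by_cases h2 : v ∈ B <;> simp_all
  have ha : nv n a b l A B a = A.length := by
    rw [nv_apply W.na.symm, W.kv_a g, if_neg la.symm, add_zero]
  have hlen : 2 ≤ A.length := by
    by_contra hc
    have h1 := (W.B2 hFr R0 lL T hM (by rw [ha]; omega) solo).1
    rw [ha] at h1
    have : A = [] := by simpa using h1
    rw [this] at hA
    simp at hA
  obtain ⟨z, hz, hzl⟩ := two_of_len g.nA hlen hA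
  refine ⟨z, hz, hzl, ?_⟩
  have zL := g.lA z hz
  obtain ⟨za, zb, zn⟩ := W.L' zL
  have hzv : nv n a b l A B z = 1 + (if z ∈ B then 1 else 0) := by
    rw [nv_apply zn, W.kv_l g zL, if_neg hzl, add_zero, if_pos hz]
  have h1 := (W.B4 hFr R0 lL zL hzl.symm T hM (by rw [hzv]; split_ifs <;> omega) solo).1
  by_contra hzB
  rw [hzv, if_neg hzB] at h1
  omega

/-- Lemma B', free hub: the near cover at a leaf `l` which is no star centre uses the edge `a l` -/
theorem KW.Bp {l v u w : ℕ} (hD : D l v) (hE : D u w) (hu : u ≠ l) (hw : w ≠ l) (g : Gd L D A B)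
    (hl : ¬ (l ∈ A ∧ l ∈ B)) (hM : J (nv n a b l A B)) : l ∈ A := by
  obtain ⟨lL, vL, lv, la, lb, ln, va, vb, vn⟩ := W.DL' hD
  obtain ⟨uL, wL, uw, ua, ub, un, wa, wb, wn⟩ := W.DL' hE
  by_contra hA
  have hB : l ∈ B := by
    rcases W.EB FD hFr hD g hl hM with h | ⟨h, _⟩
    · exact h
    · exact absurd h hA
  have T := W.tg g (w := l) (Or.inr (Or.inr lL)) (by rw [W.kv_l g lL]; split_ifs <;> simp_all)
  have R0 : ∀ r ∈ (∅ : Finset ℕ), Rp b r := by simp
  have ha : nv n a b l A B a = A.length := by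
    rw [nv_apply W.na.symm, W.kv_a g, if_neg la.symm, add_zero]
  have hx : ∀ x ∈ L, x ≠ l → nv n a b l A B x = (if x ∈ A then 1 else 0) + (if x ∈ B then 1 else 0) := by
    intro x xL xl
    obtain ⟨xa, xb, xn⟩ := W.L' xL
    rw [nv_apply xn, W.kv_l g xL, if_neg xl, add_zero]
  -- the single vector of `l` is impossible
  have nosolo : ¬ J ((2 : ℤ) • ev a + (2 : ℤ) • ev b + (2 : ℤ) • ev l) := by
    intro solo
    by_cases hlen : A.length ≤ 1
    · obtain ⟨h1, h2⟩ := W.B2 hFr R0 lL T hM (by rw [ha]; omega) solo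
      refine W.B3 hFr R0 lL (W.tgF (R := ∅) hE) (FD _ _ hE) ?_ h2
      simp [ev_apply, la, lb, hu.symm, hw.symm]
    · have hlen2 := g.cA
      obtain ⟨z, hz⟩ : ∃ z, z ∈ A := by
        match A, hlen with
        | [], h => simp at h
        | z :: _, _ => exact ⟨z, by simp⟩
      obtain ⟨z', hz', hne⟩ := two_of_len g.nA (by omega) hz
      have inB : ∀ x ∈ A, x ∈ B := by
        intro x hxA
        have xL := g.lA x hxA
        have xl : x ≠ l := by rintro rfl; exact hA hxA
        have h0 := hx x xL xl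
        rw [if_pos hxA] at h0
        have h1 := (W.B4 hFr R0 lL xL xl.symm T hM (by rw [h0]; split_ifs <;> omega) solo).1
        by_contra hc
        rw [h0, if_neg hc] at h1
        omega
      rcases mem_of_len2 g.cB g.nB (inB z hz) (inB z' hz') hne.symm hB with h | h
      · exact hA (h ▸ hz)
      · exact hA (h ▸ hz')
  have nb : ∀ x, D l x → x ∈ A ∧ x ∈ B := by
    intro x hlx
    obtain ⟨_, xL, lx, _, _, _, xa, xb, xn⟩ := W.DL' hlx
    by_contra hc
    apply nosolo
    refine (W.B1 hFr R0 (W.sym _ _ hlx) T hM ?_ (FD _ _ (W.sym _ _ hlx))).2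
    rw [hx x xL lx.symm]
    by_cases h1 : x ∈ A <;> by_cases h2 : x ∈ B <;> simp_all
  obtain ⟨hvA, hvB⟩ := nb v hD
  -- the general step for an edge `x z` avoiding `l` with `x ≠ v`
  have fin : ∀ x z, D x z → x ≠ l → z ≠ l → x ≠ v → False := by
    intro x z hxz xl zl xv
    obtain ⟨xL, zL, _, xa, xb, xn, za, zb, zn⟩ := W.DL' hxz
    have hxB : x ∉ B := by
      intro h
      rcases mem_of_len2 g.cB g.nB hB hvB lv h with h | h
      · exact xl h
      · exact xv h
    have hz2 := (W.B1 hFr R0 hxz T hM (by rw [hx x xL xl, if_neg hxB]; split_ifs <;> omega) (FD _ _ hxz)).2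
    by_cases hzv : z = v
    · subst hzv
      by_cases hlen : A.length ≤ 1
      · have h1 := (W.B2 hFr R0 zL T hM (by rw [ha]; omega) hz2).1
        rw [ha] at h1
        have : A = [] := by simpa using h1
        rw [this] at hvA
        simp at hvA
      · obtain ⟨z', hz', hne⟩ := two_of_len g.nA (by omega) hvA
        have zL' := g.lA z' hz'
        have zl' : z' ≠ l := by rintro rfl; exact hA hz'
        have h0 := hx z' zL' zl'
        rw [if_pos hz'] at h0
        have h1 := (W.B4 hFr R0 zL zL' hne.symm T hM (by rw [h0]; split_ifs <;> omega) hz2).1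
        have hzB : z' ∈ B := by
          by_contra hc
          rw [h0, if_neg hc] at h1
          omega
        rcases mem_of_len2 g.cB g.nB hB hvB lv hzB with h | h
        · exact zl' h
        · exact hne h
    · have h1 := (W.B4 hFr R0 zL lL zl (W.tgF (R := ∅) hD) (FD _ _ hD) (by
        simp [ev_apply, la, lb, lv]) hz2).2.1
      obtain ⟨hzA, hzB⟩ := nb z (W.sym _ _ h1)
      rcases mem_of_len2 g.cB g.nB hB hvB lv hzB with h | h
      · exact zl h
      · exact hzv h
  by_cases huv : u = v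
  · exact fin w u (W.sym _ _ hE) hw hu (by rw [← huv]; exact uw.symm)
  · exact fin u w hE hu hw huv

end typeB

/-! the free corner lemma -/

/-- target of a near cover whose deficient vertex `r` is outside the cluster -/
def rv (n a b r : ℕ) (c τ : ℤ) (A B : List ℕ) : ℕ → ℤ := kv a b A B + c • ev r + τ • ev n

lemma rv_apply {r v : ℕ} {c τ : ℤ} (hv : v ≠ n) (hr : v ≠ r) : rv n a b r c τ A B v = kv a b A B v := by
  simp [rv, ev_apply, hv, hr]

lemma KW.tgr (W : KW n a b L Fr Rp D J) (g : Gd L D A B) {r : ℕ} (hra : r ≠ a) (hrb : r ≠ b) (hrL : r ∉ L) (hrn : r ≠ n)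
    {c τ : ℤ} (hc : 0 ≤ c) (hc2 : c ≤ 2) : Tg n a b L {r} (rv n a b r c τ A B) := by
  have hr : rv n a b r c τ A B r = c := by
    have := W.kv_o g hra hrb hrL
    simp [rv, ev_apply, hrn, this]
  refine ⟨?_, ?_, ?_⟩
  · intro v hv
    by_cases h : v = r
    · rw [h, hr]; exact hc
    · rw [rv_apply hv h]; exact W.kv_nn g v
  · intro v hv
    by_cases h : v = r
    · rw [h, hr]; exact hc2
    · rw [rv_apply hv h]; exact W.kv_le g v
  · intro v ha hb hL hn hR
    rw [rv_apply hn (by simpa using hR), W.kv_o g ha hb hL]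

/-- free corner lemma, free hub -/
theorem KW.bB (W : KW n a b L Fr Rp D J) (FD : FDs a b D J) (hFr : Fr b) {p l r : ℕ} (hD : D p l) (hr : Rp b r) (hra : r ≠ a) (hrb : r ≠ b)
    (hrL : r ∉ L) (hrn : r ≠ n) {c τ : ℤ} (hc : 0 ≤ c) (hc2 : c ≤ 2) (g : Gd L D A B)
    (hM : J (rv n a b r c τ A B)) : False := by
  have T := W.tgr g hra hrb hrL hrn (τ := τ) hc hc2
  have R0 : ∀ x ∈ ({r} : Finset ℕ), Rp b x := by
    intro x hx
    rw [Finset.mem_singleton.1 hx]
    exact hr
  have hx : ∀ x ∈ L, rv n a b r c τ A B x = (if x ∈ A then 1 else 0) + (if x ∈ B then 1 else 0) := by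
    intro x xL
    obtain ⟨xa, xb, xn⟩ := W.L' xL
    rw [rv_apply xn (by rintro rfl; exact hrL xL), W.kv_l g xL]
  have ha : rv n a b r c τ A B a = A.length := by
    rw [rv_apply W.na.symm hra.symm, W.kv_a g]
  -- one of `p`, `l` has demand 0
  have main : ∀ p l, D p l → ¬ (p ∈ A ∧ p ∈ B) → False := by
    intro p l hD hp
    obtain ⟨pL, lL, pl, pa, pb, pn, la, lb, ln⟩ := W.DL' hD
    obtain ⟨p0, S⟩ := W.B1 hFr R0 hD T hM (by
      rw [hx p pL]; by_cases h1 : p ∈ A <;> by_cases h2 : p ∈ B <;> simp_all) (FD _ _ hD)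
    have pA : p ∉ A ∧ p ∉ B := by
      rw [hx p pL] at p0
      by_cases h1 : p ∈ A <;> by_cases h2 : p ∈ B <;> simp_all
    -- demand of `l` is 0 or 2
    have hl01 : l ∉ A → l ∉ B := by
      intro hlA hlB
      have h0 := hx l lL
      rw [if_neg hlA, if_pos hlB] at h0
      have := (W.B1 hFr R0 (W.sym _ _ hD) T hM (by omega) (FD _ _ (W.sym _ _ hD))).1
      omega
    have hl10 : l ∈ A → l ∈ B := by
      intro hlA
      by_contra hlB
      have h0 := hx l lL
      rw [if_neg hlB, if_pos hlA] at h0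
      have := (W.B1 hFr R0 (W.sym _ _ hD) T hM (by omega) (FD _ _ (W.sym _ _ hD))).1
      omega
    by_cases hlen : A.length ≤ 1
    · obtain ⟨a0, Z0⟩ := W.B2 hFr R0 lL T hM (by rw [ha]; omega) S
      have hA : A = [] := by
        rw [ha] at a0
        simpa using a0
      have hlA : l ∉ A := by rw [hA]; simp
      exact W.B3 hFr R0 lL T hM (by rw [hx l lL, if_neg hlA, if_neg (hl01 hlA)]; norm_num) Z0
    · have hlen2 := g.cA
      obtain ⟨z, hz⟩ : ∃ z, z ∈ A := by
        match A, hlen with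
        | [], h => simp at h
        | z :: _, _ => exact ⟨z, by simp⟩
      obtain ⟨z', hz', hne⟩ := two_of_len g.nA (by omega) hz
      -- every other neighbour of `a` is a neighbour of `b` and a partner of `l`
      have B4' : ∀ x ∈ A, x ≠ l → x ∈ B ∧ D l x ∧
          J ((2 : ℤ) • ev a + (2 : ℤ) • ev b + (2 : ℤ) • ev l + (2 : ℤ) • ev x) := by
        intro x hxA xl
        have xL := g.lA x hxA
        have h0 := hx x xL
        rw [if_pos hxA] at h0
        obtain ⟨h1, h2, h3⟩ := W.B4 hFr R0 lL xL xl.symm T hM (by rw [h0]; split_ifs <;> omega) S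
        refine ⟨?_, h2, h3⟩
        by_contra hc
        rw [h0, if_neg hc] at h1
        omega
      by_cases hlA : l ∈ A
      · obtain ⟨x, hxA, xl⟩ := two_of_len g.nA (by omega) hlA
        obtain ⟨h1, h2, _⟩ := B4' x hxA xl
        exact g.g l x h2 hlA hxA (hl10 hlA) h1
      · have zl : z ≠ l := by rintro rfl; exact hlA hz
        have zl' : z' ≠ l := by rintro rfl; exact hlA hz'
        obtain ⟨zB, hlz, U⟩ := B4' z hz zl
        obtain ⟨zB', _, _⟩ := B4' z' hz' zl'
        have zL := g.lA z hz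
        have zL' := g.lA z' hz'
        obtain ⟨_, S'⟩ := W.B1 hFr R0 hlz T hM (by
          rw [hx l lL, if_neg hlA, if_neg (hl01 hlA)]; norm_num) (FD _ _ hlz)
        have h0 := hx z' zL'
        rw [if_pos hz', if_pos zB'] at h0
        have h2 := (W.B4 hFr R0 zL zL' hne.symm T hM (by omega) S').2.1
        exact g.g z z' h2 hz hz' zB zB'
  by_cases hp : p ∈ A ∧ p ∈ B
  · by_cases hl : l ∈ A ∧ l ∈ B
    · exact g.g p l hD hp.1 hl.1 hp.2 hl.2
    · exact main l p (W.sym _ _ hD) hl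
  · exact main p l hD hp

/-! both hubs in `T`, one free leaf `y` -/

section typeA

variable (W : KW n a b L Fr Rp D J) {y : ℕ} (hFr : Fr y) (yL : y ∈ L)
include W hFr yL

/-- free corner lemma, free leaf, the other end outside the cluster -/
theorem KW.bA {p r : ℕ} (hD : D p y) (F : J ((2 : ℤ) • ev a + (2 : ℤ) • ev b + (2 : ℤ) • ev p + (2 : ℤ) • ev y)) (hr : Rp y r) (hra : r ≠ a) (hrb : r ≠ b)
    (hrL : r ∉ L) (hrn : r ≠ n) {c τ : ℤ} (hc : 0 ≤ c) (hc2 : c ≤ 2) (g : Gd L D A B)
    (hM : J (rv n a b r c τ A B)) : False := by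
  have T := W.tgr g hra hrb hrL hrn (τ := τ) hc hc2
  have R0 : ∀ x ∈ ({r} : Finset ℕ), Rp y x := by
    intro x hx
    rw [Finset.mem_singleton.1 hx]
    exact hr
  obtain ⟨pL, _, py, pa, pb, pn, ya, yb, yn⟩ := W.DL' hD
  have hx : ∀ x ∈ L, rv n a b r c τ A B x = (if x ∈ A then 1 else 0) + (if x ∈ B then 1 else 0) := by
    intro x xL
    obtain ⟨xa, xb, xn⟩ := W.L' xL
    rw [rv_apply xn (by rintro rfl; exact hrL xL), W.kv_l g xL]
  have ha : rv n a b r c τ A B a = A.length := by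
    rw [rv_apply W.na.symm hra.symm, W.kv_a g]
  have hb : rv n a b r c τ A B b = B.length := by
    rw [rv_apply W.nb.symm hrb.symm, W.kv_b g]
  -- the other leaves
  have A5' : ∀ x ∈ L, x ≠ p → x ≠ y → (x ∈ A ∨ x ∈ B) → x ∈ A ∧ x ∈ B ∧ D p x ∧
      J ((2 : ℤ) • ev a + (2 : ℤ) • ev b + (2 : ℤ) • ev p + (2 : ℤ) • ev x + (2 : ℤ) • ev y) := by
    intro x xL xp xy hAB
    have h0 := hx x xL
    obtain ⟨h1, h2, h3⟩ := W.A5 hFr yL R0 pL py xL xp.symm xy T hM (by
      rw [h0]; rcases hAB with h | h <;> rw [if_pos h] <;> split_ifs <;> omega) F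
    rw [h0] at h1
    refine ⟨?_, ?_, h2, h3⟩
    · by_contra hc
      rw [if_neg hc] at h1
      split_ifs at h1 <;> omega
    · by_contra hc
      rw [if_neg hc] at h1
      split_ifs at h1 <;> omega
  by_cases hA1 : A.length ≤ 1
  · obtain ⟨a0, U0⟩ := W.A1 hFr yL R0 pL py T hM (by rw [ha]; omega) F
    have hA : A = [] := by
      rw [ha] at a0
      simpa using a0
    have hpA : p ∉ A := by rw [hA]; simp
    obtain ⟨p0, U00⟩ := W.A2 hFr yL R0 pL py T hM (by rw [hx p pL, if_neg hpA]; split_ifs <;> omega) U0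
    have hpB : p ∉ B := by
      intro h
      rw [hx p pL, if_pos h, if_neg hpA] at p0
      omega
    refine W.A3 hFr yL R0 T hM ?_ U00
    rw [hb]
    by_contra hlen
    obtain ⟨z, hz⟩ : ∃ z, z ∈ B := by
      match B, hlen with
      | [], h => simp at h
      | z :: _, _ => exact ⟨z, by simp⟩
    have key : ∀ x ∈ B, x = y := by
      intro x hxB
      by_contra hxy
      have := (A5' x (g.lB x hxB) (by rintro rfl; exact hpB hxB) hxy (Or.inr hxB)).1
      rw [hA] at this
      simp at this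
    obtain ⟨z', hz', hne⟩ := two_of_len g.nB (by omega) hz
    exact hne ((key z' hz').trans (key z hz).symm)
  by_cases hB1 : B.length ≤ 1
  · obtain ⟨b0, U0⟩ := W.A1b hFr yL R0 pL py T hM (by rw [hb]; omega) F
    have hB : B = [] := by
      rw [hb] at b0
      simpa using b0
    have hpB : p ∉ B := by rw [hB]; simp
    obtain ⟨p0, U00⟩ := W.A2b hFr yL R0 pL py T hM (by rw [hx p pL, if_neg hpB]; split_ifs <;> omega) U0
    have hpA : p ∉ A := by
      intro h
      rw [hx p pL, if_pos h, if_neg hpB] at p0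
      omega
    refine W.A3b hFr yL R0 T hM ?_ U00
    rw [ha]
    by_contra hlen
    obtain ⟨z, hz⟩ : ∃ z, z ∈ A := by
      match A, hlen with
      | [], h => simp at h
      | z :: _, _ => exact ⟨z, by simp⟩
    have key : ∀ x ∈ A, x = y := by
      intro x hxA
      by_contra hxy
      have := (A5' x (g.lA x hxA) (by rintro rfl; exact hpA hxA) hxy (Or.inl hxA)).2.1
      rw [hB] at this
      simp at this
    obtain ⟨z', hz', hne⟩ := two_of_len g.nA (by omega) hz
    exact hne ((key z' hz').trans (key z hz).symm)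
  have cA := g.cA
  have cB := g.cB
  by_cases hpA : p ∈ A
  · obtain ⟨z, hz, zp⟩ := two_of_len g.nA (by omega) hpA
    by_cases hzy : z = y
    · subst hzy
      -- `A = {p, y}`
      have hB : ∀ x ∈ B, x = p ∨ x = z := by
        intro x hxB
        by_cases hxp : x = p
        · exact Or.inl hxp
        by_cases hxy : x = z
        · exact Or.inr hxy
        exact mem_of_len2 g.cA g.nA hpA hz py (A5' x (g.lB x hxB) hxp hxy (Or.inr hxB)).1
      obtain ⟨u, hu⟩ : ∃ u, u ∈ B := by
        match B, hB1 with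
        | [], h => simp at h
        | u :: _, _ => exact ⟨u, by simp⟩
      obtain ⟨u', hu', hne⟩ := two_of_len g.nB (by omega) hu
      have hpB : p ∈ B := by
        rcases hB u hu with h | h
        · exact h ▸ hu
        · rcases hB u' hu' with h' | h'
          · exact h' ▸ hu'
          · exact absurd (h'.trans h.symm) hne
      have hzB : z ∈ B := by
        rcases hB u hu with h | h
        · rcases hB u' hu' with h' | h'
          · exact absurd (h'.trans h.symm) hne
          · exact h' ▸ hu'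
        · exact h ▸ hu
      exact g.g p z hD hpA hz hpB hzB
    · have zL := g.lA z hz
      obtain ⟨_, zB, hpz, U1⟩ := A5' z zL zp hzy (Or.inl hz)
      by_cases hpB : p ∈ B
      · exact g.g p z hpz hpA hz hpB zB
      · have := (W.A6 hFr yL R0 pL py zL zp.symm hzy T hM (by
          rw [hx p pL, if_pos hpA, if_neg hpB]; norm_num) U1).1
        rw [hx p pL, if_pos hpA, if_neg hpB] at this
        omega
  · obtain ⟨z, hz⟩ : ∃ z, z ∈ A := by
      match A, hA1 with
      | [], h => simp at h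
      | z :: _, _ => exact ⟨z, by simp⟩
    obtain ⟨z', hz', hne⟩ := two_of_len g.nA (by omega) hz
    -- a leaf `x ≠ y` of `A` gives: `p` not in `B`, pair `x y`, the vector `(2,2;2x|2)`
    have key : ∀ x ∈ A, x ≠ y → x ∈ B ∧ p ∉ B ∧ D x y ∧
        J ((2 : ℤ) • ev a + (2 : ℤ) • ev b + (2 : ℤ) • ev x + (2 : ℤ) • ev y) := by
      intro x hxA hxy
      have xL := g.lA x hxA
      have xp : x ≠ p := by rintro rfl; exact hpA hxA
      obtain ⟨_, xB, hpx, U1⟩ := A5' x xL xp hxy (Or.inl hxA)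
      obtain ⟨h1, h2, h3⟩ := W.A6 hFr yL R0 pL py xL xp.symm hxy T hM (by
          rw [hx p pL, if_neg hpA]; split_ifs <;> omega) U1
      refine ⟨xB, ?_, h2, h3⟩
      intro h
      rw [hx p pL, if_pos h, if_neg hpA] at h1
      omega
    -- two leaves `≠ y`
    have two : ∀ x x', x ∈ A → x' ∈ A → x ≠ x' → x ≠ y → x' ≠ y → False := by
      intro x x' hxA hxA' hne hxy hxy'
      obtain ⟨xB, _, hDx, U2⟩ := key x hxA hxy
      obtain ⟨xB', _, _, _⟩ := key x' hxA' hxy'
      have xL := g.lA x hxA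
      have xL' := g.lA x' hxA'
      have h0 := hx x' xL'
      rw [if_pos hxA', if_pos xB'] at h0
      have h2 := (W.A5 hFr yL R0 xL hxy xL' hne hxy' T hM (by omega) U2).2.1
      exact g.g x x' h2 hxA hxA' xB xB'
    have one : ∀ x, x ∈ A → x ≠ y → y ∈ A → False := by
      intro x hxA hxy hyA
      obtain ⟨xB, hpB, hDx, U2⟩ := key x hxA hxy
      obtain ⟨u, hu, hux⟩ := two_of_len g.nB (by omega) xB
      by_cases huy : u = y
      · exact g.g x y hDx hxA hyA xB (huy ▸ hu)
      · have uA := (A5' u (g.lB u hu) (by rintro rfl; exact hpB hu) huy (Or.inr hu)).1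
        rcases mem_of_len2 g.cA g.nA hxA hyA hxy uA with h | h
        · exact hux h
        · exact huy h
    by_cases hzy : z = y
    · exact one z' hz' (by rw [← hzy]; exact hne) (hzy ▸ hz)
    · by_cases hzy' : z' = y
      · exact one z hz hzy (hzy' ▸ hz')
      · exact two z z' hz hz' hne.symm hzy hzy'

/-- free corner lemma, free leaf, the other end is a leaf -/
theorem KW.bA' {p r : ℕ} (hD : D p y) (F : J ((2 : ℤ) • ev a + (2 : ℤ) • ev b + (2 : ℤ) • ev p + (2 : ℤ) • ev y)) (hr : Rp y r) (hrL : r ∈ L) (hrp : r ≠ p) (hry : r ≠ y) {M : ℕ → ℤ}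
    (T : Tg n a b L ∅ M) (hM : J M) (h : 1 ≤ M r) : False := by
  obtain ⟨pL, _, py, _⟩ := W.DL' hD
  exact W.A8 hFr yL (by simp) pL py hrL hrp.symm hry hr T hM h F

/-- P-lemma, free leaf -/
theorem KW.PA {l : ℕ} (hD : D l y) (F : J ((2 : ℤ) • ev a + (2 : ℤ) • ev b + (2 : ℤ) • ev l + (2 : ℤ) • ev y)) (g : Gd L D A B) (hl : ¬ (l ∈ A ∧ l ∈ B)) (hM : J (nv n a b l A B)) :
    (l ∈ A ∧ (y ∈ A ∨ ∃ v ∈ A, v ∈ B ∧ v ≠ l ∧ v ≠ y)) ∨ (l ∈ B ∧ (y ∈ B ∨ ∃ v ∈ B, v ∈ A ∧ v ≠ l ∧ v ≠ y)) := by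
  obtain ⟨lL, _, ly, la, lb, ln, ya, yb, yn⟩ := W.DL' hD
  have T := W.tg g (w := l) (Or.inr (Or.inr lL)) (by rw [W.kv_l g lL]; split_ifs <;> simp_all)
  have R0 : ∀ r ∈ (∅ : Finset ℕ), Rp y r := by simp
  have hl0 : nv n a b l A B l = (if l ∈ A then 1 else 0) + (if l ∈ B then 1 else 0) + 1 := by
    rw [nv_apply ln, W.kv_l g lL, if_pos rfl]
  have hx : ∀ x ∈ L, x ≠ l → nv n a b l A B x = (if x ∈ A then 1 else 0) + (if x ∈ B then 1 else 0) := by
    intro x xL xl
    obtain ⟨xa, xb, xn⟩ := W.L' xL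
    rw [nv_apply xn, W.kv_l g xL, if_neg xl, add_zero]
  have ha : nv n a b l A B a = A.length := by
    rw [nv_apply W.na.symm, W.kv_a g, if_neg la.symm, add_zero]
  have hb : nv n a b l A B b = B.length := by
    rw [nv_apply W.nb.symm, W.kv_b g, if_neg lb.symm, add_zero]
  have A5' : ∀ x ∈ L, x ≠ l → x ≠ y → (x ∈ A ∨ x ∈ B) → x ∈ A ∧ x ∈ B ∧
      J ((2 : ℤ) • ev a + (2 : ℤ) • ev b + (2 : ℤ) • ev l + (2 : ℤ) • ev x + (2 : ℤ) • ev y) := by
    intro x xL xl xy hAB
    have h0 := hx x xL xl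
    obtain ⟨h1, h2, h3⟩ := W.A5 hFr yL R0 lL ly xL xl.symm xy T hM (by
      rw [h0]; rcases hAB with h | h <;> rw [if_pos h] <;> split_ifs <;> omega) F
    rw [h0] at h1
    refine ⟨?_, ?_, h3⟩
    · by_contra hc
      rw [if_neg hc] at h1
      split_ifs at h1 <;> omega
    · by_contra hc
      rw [if_neg hc] at h1
      split_ifs at h1 <;> omega
  -- demand 1 at `l` is impossible if a common leaf exists
  have A6' : ∀ x ∈ L, x ≠ l → x ≠ y → (x ∈ A ∨ x ∈ B) → l ∈ A ∨ l ∈ B := by
    intro x xL xl xy hAB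
    by_contra hc
    rw [not_or] at hc
    have := (W.A6 hFr yL R0 lL ly xL xl.symm xy T hM (by rw [hl0, if_neg hc.1, if_neg hc.2]; norm_num)
      (A5' x xL xl xy hAB).2.2).1
    rw [hl0, if_neg hc.1, if_neg hc.2] at this
    omega
  have nonempty : ∀ A : List ℕ, A ≠ [] → ∃ z, z ∈ A := by
    intro A h
    match A, h with
    | [], h => exact absurd rfl h
    | z :: _, _ => exact ⟨z, by simp⟩
  by_cases hA : A = []
  · -- then `B` has two elements
    have hnA : ∀ x, x ∉ A := by rw [hA]; simp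
    have hlA : A.length = 0 := by rw [hA]; rfl
    have sub : ∀ x ∈ B, x = l ∨ x = y := by
      intro x hxB
      by_contra hc
      rw [not_or] at hc
      exact hnA x (A5' x (g.lB x hxB) hc.1 hc.2 (Or.inr hxB)).1
    by_cases hB : B = []
    · exfalso
      have U0 := (W.A1 hFr yL R0 lL ly T hM (by rw [ha, hlA]; norm_num) F).2
      have hnB : ∀ x, x ∉ B := by rw [hB]; simp
      have := (W.A2 hFr yL R0 lL ly T hM (by rw [hl0, if_neg (hnA l), if_neg (hnB l)]; norm_num) U0).1
      rw [hl0, if_neg (hnA l), if_neg (hnB l)] at this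
      omega
    · obtain ⟨z, hz⟩ := nonempty B hB
      have hlen : 2 ≤ B.length := by
        by_contra hc
        have := (W.A1b hFr yL R0 lL ly T hM (by rw [hb]; omega) F).1
        rw [hb] at this
        exact hB (by simpa using this)
      obtain ⟨z', hz', hne⟩ := two_of_len g.nB hlen hz
      right
      rcases sub z hz with h | h
      · rcases sub z' hz' with h' | h'
        · exact absurd (h'.trans h.symm) hne
        · exact ⟨h ▸ hz, Or.inl (h' ▸ hz')⟩
      · rcases sub z' hz' with h' | h'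
        · exact ⟨h' ▸ hz', Or.inl (h ▸ hz)⟩
        · exact absurd (h'.trans h.symm) hne
  by_cases hB : B = []
  · have hnB : ∀ x, x ∉ B := by rw [hB]; simp
    have sub : ∀ x ∈ A, x = l ∨ x = y := by
      intro x hxA
      by_contra hc
      rw [not_or] at hc
      exact hnB x (A5' x (g.lA x hxA) hc.1 hc.2 (Or.inl hxA)).2.1
    obtain ⟨z, hz⟩ := nonempty A hA
    have hlen : 2 ≤ A.length := by
      by_contra hc
      have := (W.A1 hFr yL R0 lL ly T hM (by rw [ha]; omega) F).1
      rw [ha] at this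
      exact hA (by simpa using this)
    obtain ⟨z', hz', hne⟩ := two_of_len g.nA hlen hz
    left
    rcases sub z hz with h | h
    · rcases sub z' hz' with h' | h'
      · exact absurd (h'.trans h.symm) hne
      · exact ⟨h ▸ hz, Or.inl (h' ▸ hz')⟩
    · rcases sub z' hz' with h' | h'
      · exact ⟨h' ▸ hz', Or.inl (h ▸ hz)⟩
      · exact absurd (h'.trans h.symm) hne
  -- both of length two
  have lenA : 2 ≤ A.length := by
    by_contra hc
    have := (W.A1 hFr yL R0 lL ly T hM (by rw [ha]; omega) F).1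
    rw [ha] at this
    exact hA (by simpa using this)
  have lenB : 2 ≤ B.length := by
    by_contra hc
    have := (W.A1b hFr yL R0 lL ly T hM (by rw [hb]; omega) F).1
    rw [hb] at this
    exact hB (by simpa using this)
  have hlAB : l ∈ A ∨ l ∈ B := by
    obtain ⟨z, hz⟩ := nonempty A hA
    obtain ⟨z', hz', hne⟩ := two_of_len g.nA lenA hz
    by_contra hc
    have hc' := hc
    rw [not_or] at hc'
    have h1 : ∀ x ∈ A, x = y := by
      intro x hxA
      by_contra hxy
      exact hc (A6' x (g.lA x hxA) (by rintro rfl; exact hc'.1 hxA) hxy (Or.inl hxA))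
    exact hne ((h1 z' hz').trans (h1 z hz).symm)
  rcases hlAB with h | h
  · left
    refine ⟨h, ?_⟩
    obtain ⟨z, hz, hzl⟩ := two_of_len g.nA lenA h
    by_cases hzy : z = y
    · exact Or.inl (hzy ▸ hz)
    · exact Or.inr ⟨z, hz, (A5' z (g.lA z hz) hzl hzy (Or.inl hz)).2.1, hzl, hzy⟩
  · right
    refine ⟨h, ?_⟩
    obtain ⟨z, hz, hzl⟩ := two_of_len g.nB lenB h
    by_cases hzy : z = y
    · exact Or.inl (hzy ▸ hz)
    · exact Or.inr ⟨z, hz, (A5' z (g.lB z hz) hzl hzy (Or.inr hz)).1, hzl, hzy⟩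

/-- E-lemma, free leaf, at the hub `a` -/
theorem KW.EA {l : ℕ} (hD : D l y) (F : J ((2 : ℤ) • ev a + (2 : ℤ) • ev b + (2 : ℤ) • ev l + (2 : ℤ) • ev y)) (g : Gd L D A B) (hA : A.length ≤ 1) (hM : J (nv n a b a A B)) :
    y ∈ A ∨ ∃ v ∈ A, v ≠ y ∧ v ∈ B ∧ y ∈ B := by
  obtain ⟨lL, _, ly, la, lb, ln, ya, yb, yn⟩ := W.DL' hD
  have T := W.tg g (w := a) (Or.inl rfl) (by rw [W.kv_a g]; omega)
  have R0 : ∀ r ∈ (∅ : Finset ℕ), Rp y r := by simp
  have hx : ∀ x ∈ L, nv n a b a A B x = (if x ∈ A then 1 else 0) + (if x ∈ B then 1 else 0) := by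
    intro x xL
    obtain ⟨xa, xb, xn⟩ := W.L' xL
    rw [nv_apply xn, W.kv_l g xL, if_neg xa, add_zero]
  have ha : nv n a b a A B a = A.length + 1 := by
    rw [nv_apply W.na.symm, W.kv_a g, if_pos rfl]
  have hb : nv n a b a A B b = B.length := by
    rw [nv_apply W.nb.symm, W.kv_b g, if_neg W.ab.symm, add_zero]
  have A5' : ∀ x ∈ L, x ≠ l → x ≠ y → (x ∈ A ∨ x ∈ B) → x ∈ A ∧ x ∈ B ∧
      J ((2 : ℤ) • ev a + (2 : ℤ) • ev b + (2 : ℤ) • ev l + (2 : ℤ) • ev x + (2 : ℤ) • ev y) := by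
    intro x xL xl xy hAB
    have h0 := hx x xL
    obtain ⟨h1, h2, h3⟩ := W.A5 hFr yL R0 lL ly xL xl.symm xy T hM (by
      rw [h0]; rcases hAB with h | h <;> rw [if_pos h] <;> split_ifs <;> omega) F
    rw [h0] at h1
    refine ⟨?_, ?_, h3⟩
    · by_contra hc
      rw [if_neg hc] at h1
      split_ifs at h1 <;> omega
    · by_contra hc
      rw [if_neg hc] at h1
      split_ifs at h1 <;> omega
  -- `A` has exactly one element `z`
  obtain ⟨z, hAz⟩ : ∃ z, A = [z] := by
    match A, hA, ha with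
    | [], _, ha =>
      exfalso
      have := (W.A1 hFr yL R0 lL ly T hM (by rw [ha]; simp) F).1
      rw [ha] at this
      simp at this
    | [z], _, _ => exact ⟨z, rfl⟩
    | _ :: _ :: _, h, _ => simp at h
  have hz : z ∈ A := by rw [hAz]; simp
  have onlyz : ∀ x ∈ A, x = z := by
    intro x hx
    rw [hAz] at hx
    simpa using hx
  have zL := g.lA z hz
  by_cases hzy : z = y
  · exact Or.inl (hzy ▸ hz)
  refine Or.inr ⟨z, hz, hzy, ?_⟩
  by_cases hB : B.length ≤ 1
  · exfalso
    obtain ⟨b0, U0⟩ := W.A1b hFr yL R0 lL ly T hM (by rw [hb]; omega) F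
    have hB0 : B = [] := by
      rw [hb] at b0
      simpa using b0
    by_cases hzl : z = l
    · subst hzl
      have := (W.A2b hFr yL R0 lL ly T hM (by rw [hx z zL, if_pos hz, hB0]; simp) U0).1
      rw [hx z zL, if_pos hz, hB0] at this
      simp at this
    · have := (A5' z zL hzl hzy (Or.inl hz)).2.1
      rw [hB0] at this
      simp at this
  · -- every leaf of `B` other than `l`, `y` is `z`
    have sub : ∀ x ∈ B, x = l ∨ x = y ∨ x = z := by
      intro x hxB
      by_cases h1 : x = l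
      · exact Or.inl h1
      by_cases h2 : x = y
      · exact Or.inr (Or.inl h2)
      exact Or.inr (Or.inr (onlyz x (A5' x (g.lB x hxB) h1 h2 (Or.inr hxB)).1))
    have hlz : l ∈ B → l ≠ z → False := by
      intro h1 h2
      -- then `z ∈ B` and the demand of `l` is one
      have h3 := A5' z zL h2.symm hzy (Or.inl hz)
      have hlA : l ∉ A := fun h => h2 (onlyz l h)
      have := (W.A6 hFr yL R0 lL ly zL h2 hzy T hM (by rw [hx l lL, if_pos h1, if_neg hlA]; norm_num) h3.2.2).1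
      rw [hx l lL, if_pos h1, if_neg hlA] at this
      omega
    obtain ⟨u, hu⟩ : ∃ u, u ∈ B := by
      match B, hB with
      | [], h => simp at h
      | u :: _, _ => exact ⟨u, by simp⟩
    obtain ⟨u', hu', hne⟩ := two_of_len g.nB (by omega) hu
    have sub2 : ∀ x ∈ B, x = z ∨ x = y := by
      intro x hxB
      rcases sub x hxB with h | h | h
      · by_cases hlz' : l = z
        · exact Or.inl (h.trans hlz')
        · exact (hlz (h ▸ hxB) hlz').elim
      · exact Or.inr h
      · exact Or.inl h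
    rcases sub2 u hu with h | h
    · rcases sub2 u' hu' with h' | h'
      · exact absurd (h'.trans h.symm) hne
      · exact ⟨h ▸ hu, h' ▸ hu'⟩
    · rcases sub2 u' hu' with h' | h'
      · exact ⟨h' ▸ hu', h ▸ hu⟩
      · exact absurd (h'.trans h.symm) hne

end typeA

end Pool.Agent.PF4.XF
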