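import Pool.Agent.PF4.LemD

/-!
Calculus of graded families of vectors: sum with a fixed jump set, partner exchange, loops.
-/

set_option autoImplicit false

namespace Pool.Agent.PF4.XC

open Finset Pool.Agent.TFC Pool.Agent.PF4 Pool.Agent.PF4.LD

/-- `B` is a jump set of vectors -/
def JB (B : (ℕ → ℤ) → Prop) : Prop :=
  ∀ x y (i : ℕ) (ε : ℤ), B x → B y → (ε = 1 ∨ ε = -1) → 0 < ε * (y i - x i) → ∃ z, B z ∧ Two x y z i ε

/-- `ℓ1` distance on `S` -/
def dS (S : Finset ℕ) (x y : ℕ → ℤ) : ℕ := ∑ v ∈ S, (y v - x v).natAbs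

theorem dS_step (S : Finset ℕ) (x y : ℕ → ℤ) (i : ℕ) (ε : ℤ) (hi : i ∈ S) (hε : ε = 1 ∨ ε = -1)
    (h : 0 < ε * (y i - x i)) : dS S (x + Pi.single i ε) y + 1 = dS S x y := by
  unfold dS
  have e : ∀ v ∈ S, (y v - x v).natAbs =
      (y v - (x + Pi.single i ε : ℕ → ℤ) v).natAbs + if v = i then 1 else 0 := by
    intro v _
    rw [Pi.add_apply, sgl]
    by_cases hv : v = i
    · subst hv
      simp only [if_true]
      rcases hε with rfl | rfl <;> omega
    · simp only [if_neg hv, add_zero]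
  rw [Finset.sum_congr rfl e, Finset.sum_add_distrib]
  simp [hi]

/-- a two-step exchange inside `S` decreases the distance by 2 -/
theorem dS_two {S : Finset ℕ} {x y z : ℕ → ℤ} {i : ℕ} {ε : ℤ} (hx : ∀ v, v ∉ S → x v = y v)
    (hε : ε = 1 ∨ ε = -1) (h : 0 < ε * (y i - x i)) (h2 : Two x y z i ε) :
    ∃ (j : ℕ) (δ : ℤ), j ∈ S ∧ i ∈ S ∧ (δ = 1 ∨ δ = -1) ∧
      0 < δ * (y j - (x + Pi.single i ε : ℕ → ℤ) j) ∧ z = x + Pi.single i ε + Pi.single j δ ∧
      dS S z y + 2 = dS S x y := by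
  obtain ⟨j, δ, hδ, hj, rfl⟩ := h2
  have hi : i ∈ S := by
    by_contra hc
    rw [hx i hc] at h
    simp at h
  have hjS : j ∈ S := by
    by_contra hc
    rw [Pi.add_apply, sgl, hx j hc, if_neg (fun e : j = i => hc (by rw [e]; exact hi))] at hj
    simp at hj
  refine ⟨j, δ, hjS, hi, hδ, hj, rfl, ?_⟩
  have h1 := dS_step S x y i ε hi hε h
  have h2 := dS_step S (x + Pi.single i ε) y j δ hjS hδ hj
  omega

/-- the result of an exchange in a sum -/
def Res (A B : (ℕ → ℤ) → Prop) (y u : ℕ → ℤ) : Prop :=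
  ∃ (j : ℕ) (δ : ℤ) (a b : ℕ → ℤ), (δ = 1 ∨ δ = -1) ∧ 0 < δ * (y j - u j) ∧ A a ∧ B b ∧
    a + b = u + Pi.single j δ

theorem Res.mono {A A' B : (ℕ → ℤ) → Prop} {y u : ℕ → ℤ} (h : ∀ a, A a → A' a) :
    Res A B y u → Res A' B y u := by
  rintro ⟨j, δ, a, b, h1, h2, h3, h4, h5⟩
  exact ⟨j, δ, a, b, h1, h2, h a h3, h4, h5⟩

variable {I : ℕ → Prop} {A : ℕ → (ℕ → ℤ) → Prop} {B : (ℕ → ℤ) → Prop} {S : Finset ℕ}

/-- the exchange in a sum, starting with a step `(i, δ)` -/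
theorem sum_aux (GA : Gr I A) (hB : JB B) (hS : ∀ v ∈ S, I v) (hBS : ∀ b, B b → ∀ v, v ∉ S → b v = 0)
    {a' b' u : ℕ → ℤ} (hb' : B b') : ∀ (n k : ℕ), A k a' → ∀ (a b : ℕ → ℤ) (i : ℕ) (δ : ℤ), A k a →
    B b → I i → (δ = 1 ∨ δ = -1) → dS S b b' ≤ 2 * n + 1 → a + b + Pi.single i δ = u →
    (0 < δ * (a' i - a i) ∨ 0 < δ * (b' i - b i)) → Res (A (k + n + 1)) B (a' + b') u := by
  intro n
  induction n with
  | zero =>
    intro k ha' a b i δ ha hb hi hδ hn hu h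
    -- no step in `B` is possible
    have nb : ∀ (j : ℕ) (δ : ℤ), (δ = 1 ∨ δ = -1) → ¬ 0 < δ * (b' j - b j) := by
      intro j δ hδ hj
      obtain ⟨z, _, hz⟩ := hB b b' j δ hb hb' hδ hj
      obtain ⟨_, _, _, _, _, _, _, hd⟩ := dS_two (fun v hv => (hBS b hb v hv).trans (hBS b' hb' v hv).symm)
        hδ hj hz
      omega
    rcases h with h | h
    · obtain ⟨z, hz, j, δ', hδ', hj, rfl⟩ := GA.ex k a a' i δ hi ha ha' hδ h
      refine ⟨j, δ', _, b, hδ', ?_, hz, hb, by rw [← hu]; abel⟩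
      by_contra hc
      refine nb j (-δ') (by omega) ?_
      rw [← hu] at hc
      simp only [Pi.add_apply] at hc hj ⊢
      rcases hδ' with rfl | rfl <;> omega
    · exact absurd h (nb i δ hδ)
  | succ n ih =>
    intro k ha' a b i δ ha hb hi hδ hn hu h
    -- a step in `B`
    have sb : ∀ (l : ℕ) (a : ℕ → ℤ) (j : ℕ) (δ : ℤ), A l a' → A l a → (δ = 1 ∨ δ = -1) →
        a + b + Pi.single j δ = u → 0 < δ * (b' j - b j) → Res (A (l + n + 1)) B (a' + b') u := by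
      intro l a j δ ha' ha hδ hu hj
      obtain ⟨z, hz, hz2⟩ := hB b b' j δ hb hb' hδ hj
      obtain ⟨j', δ', hjS, _, hδ', hj', rfl, hd⟩ := dS_two
        (fun v hv => (hBS b hb v hv).trans (hBS b' hb' v hv).symm) hδ hj hz2
      by_cases hc : 0 < δ' * ((a' + b') j' - u j')
      · exact ⟨j', δ', a, _, hδ', hc, GA.up (by omega) ha, hz, by rw [← hu]; abel⟩
      · refine ih l ha' a _ j' (-δ') ha hz (hS j' hjS) (by omega) (by omega) ?_ ?_
        · rw [← hu, Pi.single_neg]; abel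
        · rw [← hu] at hc
          simp only [Pi.add_apply, Pi.single_eq_same] at hc hj' ⊢
          rcases hδ' with rfl | rfl <;> omega
    rcases h with h | h
    · obtain ⟨z, hz, j, δ', hδ', hj, rfl⟩ := GA.ex k a a' i δ hi ha ha' hδ h
      by_cases hc : 0 < δ' * ((a' + b') j - u j)
      · exact ⟨j, δ', _, b, hδ', hc, GA.up (by omega) hz, hb, by rw [← hu]; abel⟩
      · have := sb (k + 1) _ j (-δ') (GA.mono _ _ ha') hz (by omega)
          (by rw [← hu, Pi.single_neg]; abel) (by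
          rw [← hu] at hc
          simp only [Pi.add_apply] at hc hj ⊢
          rcases hδ' with rfl | rfl <;> omega)
        exact this.mono fun x hx => GA.up (by omega) hx
    · exact (sb k a i δ ha' ha hδ hu h).mono fun x hx => GA.up (by omega) hx

/-- **sum of a graded family and a fixed jump set** -/
theorem gr_sum (GA : Gr I A) (hB : JB B) (hS : ∀ v ∈ S, I v) (hBS : ∀ b, B b → ∀ v, v ∉ S → b v = 0)
    (m : ℕ) (hm : ∀ b b', B b → B b' → dS S b b' ≤ 2 * m + 1) :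
    Gr I (fun k z => ∃ a b, A ((m + 1) * k) a ∧ B b ∧ z = a + b) where
  mono := by
    rintro k _ ⟨a, b, ha, hb, rfl⟩
    exact ⟨a, b, GA.up (Nat.mul_le_mul_left _ (Nat.le_succ k)) ha, hb, rfl⟩
  ex := by
    rintro k _ _ i ε hi ⟨a, b, ha, hb, rfl⟩ ⟨a', b', ha', hb', rfl⟩ hε h
    obtain ⟨j, δ, a₂, b₂, hδ, hj, h1, h2, h3⟩ := sum_aux GA hB hS hBS (u := a + b + Pi.single i ε) hb' m
      ((m + 1) * k) ha' a b i ε ha hb hi hε (hm b b' hb hb') rfl (by
        simp only [Pi.add_apply] at h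
        rcases hε with rfl | rfl <;> omega)
    refine ⟨a₂ + b₂, ⟨a₂, b₂, ?_, h2, rfl⟩, j, δ, hδ, hj, h3⟩
    have e : (m + 1) * (k + 1) = (m + 1) * k + m + 1 := by ring
    rw [e]; exact h1

/-- sum of two jump sets, the second one living on a finite set of coordinates -/
theorem JB.add {A B : (ℕ → ℤ) → Prop} {S : Finset ℕ} (hA : JB A) (hB : JB B)
    (hBS : ∀ b, B b → ∀ v, v ∉ S → b v = 0) : JB (fun z => ∃ a b, A a ∧ B b ∧ z = a + b) := by
  have GA : Gr (fun _ => True) (fun _ => A) :=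
    ⟨fun _ _ h => h, fun _ x y i ε _ hx hy hε h => hA x y i ε hx hy hε h⟩
  rintro _ _ i ε ⟨a, b, ha, hb, rfl⟩ ⟨a', b', ha', hb', rfl⟩ hε h
  obtain ⟨j, δ, a₂, b₂, hδ, hj, h1, h2, h3⟩ := sum_aux GA hB (fun _ _ => trivial) hBS
    (u := a + b + Pi.single i ε) hb' (dS S b b') 0 ha' a b i ε ha hb trivial hε (by omega) rfl (by
      simp only [Pi.add_apply] at h
      rcases hε with rfl | rfl <;> omega)
  exact ⟨a₂ + b₂, ⟨a₂, b₂, h1, h2, rfl⟩, j, δ, hδ, hj, h3⟩

theorem JB.neg {A : (ℕ → ℤ) → Prop} (hA : JB A) : JB (fun z => A (-z)) := by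
  intro x y i ε hx hy hε h
  obtain ⟨z, hz, j, δ, hδ, hj, rfl⟩ := hA (-x) (-y) i (-ε) hx hy (by omega) (by
    simp only [Pi.neg_apply]
    rcases hε with rfl | rfl <;> omega)
  refine ⟨-(-x + Pi.single i (-ε) + Pi.single j δ), ?_, j, -δ, by omega, ?_, ?_⟩
  · show A (- -(-x + Pi.single i (-ε) + Pi.single j δ))
    rw [neg_neg]; exact hz
  · simp only [Pi.neg_apply, Pi.add_apply, sgl] at hj ⊢
    split_ifs at hj ⊢ <;> rcases hε with rfl | rfl <;> rcases hδ with rfl | rfl <;> omega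
  · simp only [Pi.single_neg]; abel

/-! ### a closed stage -/

open Classical in
/-- the vectors of the box `{0,1,2}^S` -/
noncomputable def boxV (S : Finset ℕ) : Finset (ℕ → ℤ) :=
  (Finset.univ : Finset (S → Fin 3)).image fun g v => if h : v ∈ S then ((g ⟨v, h⟩ : ℕ) : ℤ) else 0

open Classical in
theorem card_boxV (S : Finset ℕ) : #(boxV S) ≤ 3 ^ #S := by
  refine Finset.card_image_le.trans ?_
  simp

open Classical in
theorem mem_boxV {S : Finset ℕ} {z : ℕ → ℤ} (h0 : ∀ v, v ∉ S → z v = 0)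
    (h1 : ∀ v ∈ S, 0 ≤ z v ∧ z v ≤ 2) : z ∈ boxV S := by
  unfold boxV
  rw [Finset.mem_image]
  refine ⟨fun v => ⟨(z v).toNat, ?_⟩, Finset.mem_univ _, ?_⟩
  · have := h1 v v.2
    omega
  · funext v
    by_cases hv : v ∈ S
    · have := h1 v hv
      simp only [hv, dif_pos]
      omega
    · simp only [hv, dif_neg, not_false_iff]
      exact (h0 v hv).symm

/-- among the stages `j, ..., j + #F` there is one which is closed -/
theorem exists_closed {α : Type*} {H : ℕ → α → Prop} (mono : ∀ k z, H k z → H (k + 1) z)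
    (F : Finset α) (hF : ∀ k z, H k z → z ∈ F) (j : ℕ) :
    ∃ k, j ≤ k ∧ k ≤ j + #F ∧ ∀ z, H (k + 1) z → H k z := by
  classical
  by_contra hc
  push Not at hc
  have key : ∀ n, n ≤ #F + 1 → n ≤ #(F.filter (H (j + n))) := by
    intro n
    induction n with
    | zero => intro _; exact Nat.zero_le _
    | succ n ih =>
      intro hn
      have h1 := ih (by omega)
      obtain ⟨z, hz, hz'⟩ := hc (j + n) (by omega) (by omega)
      have h2 : F.filter (H (j + n)) ⊂ F.filter (H (j + (n + 1))) := by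
        rw [Finset.ssubset_iff_of_subset]
        · exact ⟨z, Finset.mem_filter.2 ⟨hF _ _ hz, hz⟩, fun h => hz' (Finset.mem_filter.1 h).2⟩
        · intro w hw
          rw [Finset.mem_filter] at hw ⊢
          exact ⟨hw.1, mono _ _ hw.2⟩
      have := Finset.card_lt_card h2
      omega
  have h1 := key (#F + 1) le_rfl
  have h2 := Finset.card_filter_le F (H (j + (#F + 1)))
  omega

/-- **a closed stage is a jump set** -/
theorem closed_stage {I : ℕ → Prop} {H : ℕ → (ℕ → ℤ) → Prop} (G : Gr I H) (S : Finset ℕ)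
    (hI : ∀ v ∈ S, I v) (h0 : ∀ k z, H k z → ∀ v, v ∉ S → z v = 0)
    (h1 : ∀ k z, H k z → ∀ v ∈ S, 0 ≤ z v ∧ z v ≤ 2) (j : ℕ) :
    ∃ k, j ≤ k ∧ k ≤ j + 3 ^ #S ∧ JB (H k) := by
  obtain ⟨k, hk1, hk2, hk⟩ := exists_closed G.mono (boxV S)
    (fun k z hz => mem_boxV (h0 k z hz) (h1 k z hz)) j
  refine ⟨k, hk1, hk2.trans (Nat.add_le_add_left (card_boxV S) j), ?_⟩
  intro x y i ε hx hy hε h
  have hi : i ∈ S := by
    by_contra hc
    rw [h0 k x hx i hc, h0 k y hy i hc] at h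
    simp at h
  obtain ⟨z, hz, hz2⟩ := G.ex k x y i ε (hI i hi) hx hy hε h
  exact ⟨z, hk z hz, hz2⟩

end Pool.Agent.PF4.XC
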