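import Pool.Agent.PF4.XE
import Pool.Agent.PF4.XCal

/-!
From a world with stages to a world without stages: a closed stage is a jump set.
-/

set_option autoImplicit false

namespace Pool.Agent.PF4.XF

open Finset Pool.Agent.TFC Pool.Agent.PF4

/-- **one world at one cluster (or at a union of clusters), without stages**: `J` is a jump set -/
structure WJ (n : ℕ) (T V2 : Finset ℕ) (C ER PL : Finset (Sym2 ℕ)) (DC : Finset (Finset (Sym2 ℕ)))
    (J : (ℕ → ℤ) → Prop) : Prop where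
  jb : XC.JB J
  rg : ∀ k, J k → ∀ v < n, 0 ≤ k v ∧ k v ≤ 2
  off : ∀ k, J k → ∀ v < n, v ∉ V2 → k v = 0
  tok : ∀ k, J k → k n = 0 ∨ k n = 1
  up : ∀ k, J k → ∀ v, n < v → k v = 0
  par : ∀ k, J k → Even (∑ v ∈ Finset.range (n + 1), k v)
  /-- at a free vertex the demand may be lowered, the parity token is changed accordingly -/
  dn : ∀ k k', J k → (∀ v < n, v ∈ T → k' v = k v) → (∀ v < n, v ∉ T → 0 ≤ k' v ∧ k' v ≤ k v) →
    (k' n = 0 ∨ k' n = 1) → Even (∑ v ∈ Finset.range (n + 1), k' v) → (∀ v, n < v → k' v = 0) → J k'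
  /-- there is no completion without square of `D` -/
  blk : ∀ k, J k → ∀ K ⊆ C ∪ ER, M2 K → (∀ Z ∈ DC, ¬ Z ⊆ K) →
    (∀ e ∈ K, e ∉ C → e ∈ PL ∨ ∃ y ∈ e, 1 ≤ dg (K ∩ C) y) → dv K ≠ k

theorem World.up' {n : ℕ} {T V2 : Finset ℕ} {C ER PL : Finset (Sym2 ℕ)} {DC : Finset (Finset (Sym2 ℕ))}
    {m : ℕ} {H : ℕ → (ℕ → ℤ) → Prop} (h : World n T V2 C ER PL DC m H) {s t : ℕ} (hst : s ≤ t)
    {k : ℕ → ℤ} (hk : H s k) : H t k := by
  induction t, hst using Nat.le_induction with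
  | base => exact hk
  | succ t _ ih => exact h.mono _ _ ih

/-- **a closed stage** -/
theorem World.toWJ {n : ℕ} {T V2 : Finset ℕ} {C ER PL : Finset (Sym2 ℕ)} {DC : Finset (Finset (Sym2 ℕ))}
    {m : ℕ} {H : ℕ → (ℕ → ℤ) → Prop} (h : World n T V2 C ER PL DC m H) (hV : ∀ v ∈ V2, v < n)
    (hm : 3 ^ (#V2 + 1) ≤ m) :
    ∃ t ≤ m, (∀ k, H 0 k → H t k) ∧ WJ n T V2 C ER PL DC (H t) := by
  have G : LD.Gr (fun i => i ∈ V2 ∨ i = n) H :=
    ⟨h.mono, fun k x y i ε hi hx hy hε h1 => h.ex k x y i ε hx hy hi hε h1⟩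
  have hn : n ∉ V2 := fun hc => lt_irrefl _ (hV n hc)
  have hc : #(insert n V2) = #V2 + 1 := Finset.card_insert_of_notMem hn
  obtain ⟨t, _, ht, hJ⟩ := XC.closed_stage G (insert n V2)
    (by
      intro v hv
      rcases Finset.mem_insert.1 hv with h1 | h1
      · exact Or.inr h1
      · exact Or.inl h1)
    (by
      intro k z hz v hv
      rw [Finset.mem_insert, not_or] at hv
      rcases Nat.lt_trichotomy v n with h1 | h1 | h1
      · exact h.off k z hz v h1 hv.2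
      · exact absurd h1 hv.1
      · exact h.up k z hz v h1)
    (by
      intro k z hz v hv
      rcases Finset.mem_insert.1 hv with h1 | h1
      · subst h1
        have := h.tok k z hz
        omega
      · exact h.rg k z hz v (hV v h1)) 0
  rw [hc] at ht
  have htm : t ≤ m := by omega
  refine ⟨t, htm, fun k hk => h.up' (Nat.zero_le t) hk, ?_⟩
  exact ⟨hJ, h.rg t, h.off t, h.tok t, h.up t, h.par t, h.dn t, h.blk t htm⟩

end Pool.Agent.PF4.XF
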