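import Pool.Agent.PF4.KWL
import Pool.Agent.PF4.XW
import Pool.Agent.TFC.CE2
import Pool.Agent.TFC.Clus

/-!
From a world at a cluster with two hubs to the abstract form `KW`.
-/

set_option autoImplicit false
set_option linter.unusedSectionVars false
set_option linter.unusedVariables false
set_option linter.unusedSimpArgs false

namespace Pool.Agent.PF4.XF

open Finset Pool.Agent.TFC

/-- add the edges from `a` to the members of the list -/
def star (a : ℕ) (A : List ℕ) (s0 : Finset (Sym2 ℕ)) : Finset (Sym2 ℕ) :=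
  A.foldr (fun x s => insert s(a, x) s) s0

lemma mem_star {a : ℕ} {A : List ℕ} {s0 : Finset (Sym2 ℕ)} {e : Sym2 ℕ} :
    e ∈ star a A s0 ↔ (∃ x ∈ A, e = s(a, x)) ∨ e ∈ s0 := by
  induction A with
  | nil => simp [star]
  | cons y A ih =>
    rw [star, List.foldr_cons, ← star, Finset.mem_insert, ih]
    simp only [List.mem_cons, exists_eq_or_imp]
    rw [or_assoc]

lemma dv_star {a : ℕ} {A : List ℕ} {s0 : Finset (Sym2 ℕ)} (hn : A.Nodup) (ha : a ∉ A)
    (h0 : ∀ x ∈ A, s(a, x) ∉ s0) : dv (star a A s0) = (A.length : ℤ) • ev a + (A.map ev).sum + dv s0 := by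
  induction A with
  | nil => simp [star]
  | cons y A ih =>
    obtain ⟨h1, h2⟩ := List.nodup_cons.1 hn
    have hay : a ≠ y := fun h => ha (by simp [h])
    have haA : a ∉ A := fun h => ha (by simp [h])
    have hni : s(a, y) ∉ star a A s0 := by
      rw [mem_star]
      rintro (⟨x, hx, h⟩ | h)
      · exact h1 (sym2_inj_left h ▸ hx)
      · exact h0 y (by simp) h
    rw [star, List.foldr_cons, ← star, dv_insert hay hni, ih h2 haA (fun x hx => h0 x (by simp [hx])),
      List.length_cons, List.map_cons, List.sum_cons]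
    push_cast
    module

/-- the edge set of a pair of lists -/
def ks (a b : ℕ) (A B : List ℕ) : Finset (Sym2 ℕ) := star a A (star b B ∅)

lemma mem_ks {a b : ℕ} {A B : List ℕ} {e : Sym2 ℕ} :
    e ∈ ks a b A B ↔ (∃ x ∈ A, e = s(a, x)) ∨ ∃ x ∈ B, e = s(b, x) := by
  rw [ks, mem_star, mem_star]
  simp

lemma dv_ks {a b : ℕ} {A B : List ℕ} (hab : a ≠ b) (nA : A.Nodup) (nB : B.Nodup) (aA : a ∉ A) (aB : a ∉ B)
    (bA : b ∉ A) (bB : b ∉ B) : dv (ks a b A B) = kv a b A B := by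
  have h0 : dv (∅ : Finset (Sym2 ℕ)) = 0 := by
    funext v
    simp [dv, dg]
  rw [ks, dv_star nA aA, dv_star nB bB (by simp), h0, kv]
  · module
  · intro x hx h
    rw [mem_star] at h
    rcases h with ⟨y, hy, h⟩ | h
    · rcases Sym2.eq_iff.1 h with ⟨h1, _⟩ | ⟨h1, _⟩
      · exact hab h1
      · exact aB (h1 ▸ hy)
    · simp at h

/-- the cluster with hubs `a`, `b` and leaves `L`: its edges `C`, the squares `DC` of the family in it -/
structure K2At (n : ℕ) (C : Finset (Sym2 ℕ)) (DC : Finset (Finset (Sym2 ℕ))) (a b : ℕ) (L : Finset ℕ) : Prop where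
  C : C = (Clu.k2 a b L).edges
  ab : a ≠ b
  aL : a ∉ L
  bL : b ∉ L
  an : a < n
  bn : b < n
  Ln : ∀ v ∈ L, v < n
  sqs : ∀ Z ∈ DC, ∃ u w, u ∈ L ∧ w ∈ L ∧ u ≠ w ∧ Z = TFC.sq a u b w

/-- the pairs of leaves which belong to the family -/
def Dp (DC : Finset (Finset (Sym2 ℕ))) (a b : ℕ) (L : Finset ℕ) (u w : ℕ) : Prop :=
  u ∈ L ∧ w ∈ L ∧ u ≠ w ∧ TFC.sq a u b w ∈ DC

section

variable {n a b : ℕ} {T V2 L : Finset ℕ} {C ER PL : Finset (Sym2 ℕ)} {DC : Finset (Finset (Sym2 ℕ))}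
  {J : (ℕ → ℤ) → Prop}

lemma K2At.mem (K : K2At n C DC a b L) {e : Sym2 ℕ} : e ∈ C ↔ ∃ l ∈ L, e = s(a, l) ∨ e = s(b, l) := by
  rw [K.C]
  simp only [Clu.edges, Finset.mem_union, Finset.mem_image]
  constructor
  · rintro (⟨l, h1, h2⟩ | ⟨l, h1, h2⟩)
    · exact ⟨l, h1, Or.inl h2.symm⟩
    · exact ⟨l, h1, Or.inr h2.symm⟩
  · rintro ⟨l, h1, h2 | h2⟩
    · exact Or.inl ⟨l, h1, h2.symm⟩
    · exact Or.inr ⟨l, h1, h2.symm⟩

lemma K2At.ks_sub (K : K2At n C DC a b L) {D : ℕ → ℕ → Prop} {A B : List ℕ} (g : Gd L D A B) : ks a b A B ⊆ C := by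
  intro e he
  rw [mem_ks] at he
  rw [K.mem]
  rcases he with ⟨x, hx, h⟩ | ⟨x, hx, h⟩
  · exact ⟨x, g.lA x hx, Or.inl h⟩
  · exact ⟨x, g.lB x hx, Or.inr h⟩

lemma K2At.nl (K : K2At n C DC a b L) : NoLoop C := by
  intro e he hd
  rw [K.mem] at he
  obtain ⟨l, hl, rfl | rfl⟩ := he
  · rw [Sym2.mk_isDiag_iff] at hd
    exact K.aL (hd ▸ hl)
  · rw [Sym2.mk_isDiag_iff] at hd
    exact K.bL (hd ▸ hl)

lemma K2At.lt (K : K2At n C DC a b L) : ∀ e ∈ C, ∀ v ∈ e, v < n := by
  intro e he v hv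
  rw [K.mem] at he
  obtain ⟨l, hl, rfl | rfl⟩ := he
  · rcases Sym2.mem_iff.1 hv with rfl | rfl
    · exact K.an
    · exact K.Ln _ hl
  · rcases Sym2.mem_iff.1 hv with rfl | rfl
    · exact K.bn
    · exact K.Ln _ hl

lemma K2At.dv_ks (K : K2At n C DC a b L) {D : ℕ → ℕ → Prop} {A B : List ℕ} (g : Gd L D A B) :
    dv (ks a b A B) = kv a b A B :=
  XF.dv_ks K.ab g.nA g.nB (fun h => K.aL (g.lA _ h)) (fun h => K.aL (g.lB _ h)) (fun h => K.bL (g.lA _ h))
    (fun h => K.bL (g.lB _ h))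

lemma K2At.good (K : K2At n C DC a b L) {A B : List ℕ} (g : Gd L (Dp DC a b L) A B) :
    ∀ Z ∈ DC, ¬ Z ⊆ ks a b A B := by
  intro Z hZ hs
  obtain ⟨u, w, hu, hw, huw, rfl⟩ := K.sqs Z hZ
  have au : ∀ x ∈ L, a ≠ x := by rintro x hx rfl; exact K.aL hx
  have bu : ∀ x ∈ L, b ≠ x := by rintro x hx rfl; exact K.bL hx
  have mA : ∀ x ∈ L, s(a, x) ∈ ks a b A B → x ∈ A := by
    intro x hx h
    rw [mem_ks] at h
    rcases h with ⟨y, hy, h⟩ | ⟨y, hy, h⟩
    · exact sym2_inj_left h ▸ hy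
    · rcases Sym2.eq_iff.1 h with ⟨h1, _⟩ | ⟨h1, _⟩
      · exact absurd h1 K.ab
      · exact absurd h1 (au y (g.lB y hy))
  have mB : ∀ x ∈ L, s(b, x) ∈ ks a b A B → x ∈ B := by
    intro x hx h
    rw [mem_ks] at h
    rcases h with ⟨y, hy, h⟩ | ⟨y, hy, h⟩
    · rcases Sym2.eq_iff.1 h with ⟨h1, _⟩ | ⟨h1, _⟩
      · exact absurd h1.symm K.ab
      · exact absurd h1 (bu y (g.lA y hy))
    · exact sym2_inj_left h ▸ hy
  refine g.g u w ⟨hu, hw, huw, hZ⟩ ?_ ?_ ?_ ?_
  · exact mA u hu (hs (by simp [TFC.sq]))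
  · exact mA w hw (hs (by simp [TFC.sq, Sym2.eq_swap]))
  · exact mB u hu (hs (by simp [TFC.sq, Sym2.eq_swap]))
  · exact mB w hw (hs (by simp [TFC.sq]))

lemma kv_off' {a b : ℕ} {A B : List ℕ} {D : ℕ → ℕ → Prop} (g : Gd L D A B) {v : ℕ} (ha : v ≠ a) (hb : v ≠ b) (hv : v ∉ L) :
    kv a b A B v = 0 := by
  rw [g.kv_apply, if_neg ha, if_neg hb, if_neg (fun h => hv (g.lA _ h)), if_neg (fun h => hv (g.lB _ h))]
  ring

lemma kv_nn' {a b : ℕ} {A B : List ℕ} {D : ℕ → ℕ → Prop} (g : Gd L D A B) (v : ℕ) : 0 ≤ kv a b A B v := by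
  rw [g.kv_apply]
  have h1 : (0 : ℤ) ≤ A.length := by positivity
  have h2 : (0 : ℤ) ≤ B.length := by positivity
  split_ifs <;> omega

/-- **the bridge** -/
theorem KW.of_WJ (W : WJ n T V2 C ER PL DC J) (K : K2At n C DC a b L) :
    KW n a b L (fun v => v ∉ T ∧ v < n) (fun y r => s(y, r) ∈ ER ∧ s(y, r) ∉ C ∧ y ≠ r ∧ y < n ∧ r < n)
      (Dp DC a b L) J := by
  have au : ∀ x ∈ L, a ≠ x := by rintro x hx rfl; exact K.aL hx
  have bu : ∀ x ∈ L, b ≠ x := by rintro x hx rfl; exact K.bL hx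
  have kvn : ∀ {A B : List ℕ}, Gd L (Dp DC a b L) A B → ∀ v, n ≤ v → kv a b A B v = 0 := by
    intro A B g v hv
    refine kv_off' g ?_ ?_ ?_
    · have := K.an; omega
    · have := K.bn; omega
    · intro h
      have := K.Ln v h
      omega
  refine ⟨?_, ?_, ?_, K.ab, K.aL, K.bL, ?_, ?_, ?_, ?_, ?_, ?_⟩
  · intro k k' i ε h1 h2 _ h3 h4
    exact W.jb k k' i ε h1 h2 h3 h4
  · intro A B z g hz hz2 hJ
    have hsub := K.ks_sub g
    have e := K.dv_ks g
    have hJ' : J (kv a b A B) := by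
      refine W.dn _ _ hJ ?_ ?_ (Or.inl (kvn g n le_rfl)) ?_ ?_
      · intro v hv hT
        have := hz2 v hv.ne (fun h => h.1 hT)
        simp [this]
      · intro v hv hT
        have := hz v hv.ne
        exact ⟨kv_nn' g v, by rw [Pi.add_apply]; omega⟩
      · rw [← e, sum_dv (K.nl.mono hsub) (fun f hf v hv => K.lt f (hsub hf) v hv)]
        exact ⟨_, two_mul _⟩
      · intro v hv
        exact kvn g v (by omega)
    refine W.blk _ hJ' (ks a b A B) (hsub.trans Finset.subset_union_left) ?_ (K.good g) ?_ e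
    · refine M2.of_dv (K.nl.mono hsub) ?_
      intro v
      rw [e]
      by_cases hv : v < n
      · exact (W.rg _ hJ' v hv).2
      · rw [kvn g v (by omega)]; omega
    · intro f hf hfC
      exact absurd (hsub hf) hfC
  · rintro y r A B τ ⟨h1, h2, h3, h4, h5⟩ g hy hJ
    have hsub := K.ks_sub g
    have e := K.dv_ks g
    have hni : s(y, r) ∉ ks a b A B := fun h => h2 (hsub h)
    have yn : n ≠ y := by omega
    have rn : n ≠ r := by omega
    have hτ : τ = 0 := by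
      have h6 := W.tok _ hJ
      have h7 := W.par _ hJ
      have h8 : (kv a b A B + ev y + ev r + τ • ev n : ℕ → ℤ) n = τ := by
        simp [ev_apply, kvn g n le_rfl, yn, rn]
      rw [h8] at h6
      have h9 : ∑ v ∈ Finset.range (n + 1), (kv a b A B + ev y + ev r + τ • ev n : ℕ → ℤ) v =
          2 * (#(ks a b A B) : ℤ) + 1 + 1 + τ := by
        simp only [Pi.add_apply, Pi.smul_apply, smul_eq_mul, Finset.sum_add_distrib]
        rw [← e, sum_dv (K.nl.mono hsub) (fun f hf v hv => K.lt f (hsub hf) v hv)]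
        simp only [ev_apply, mul_ite, mul_one, mul_zero]
        rw [Finset.sum_ite_eq', Finset.sum_ite_eq', Finset.sum_ite_eq', if_pos (Finset.mem_range.2 (by omega)),
          if_pos (Finset.mem_range.2 (by omega)), if_pos (Finset.mem_range.2 (by omega))]
      rw [h9] at h7
      rcases h6 with h | h
      · exact h
      · rw [h] at h7
        obtain ⟨q, hq⟩ := h7
        omega
    have e2 : dv (insert s(y, r) (ks a b A B)) = kv a b A B + ev y + ev r + τ • ev n := by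
      rw [dv_insert h3 hni, e, hτ]
      module
    refine W.blk _ hJ (insert s(y, r) (ks a b A B)) ?_ ?_ ?_ ?_ e2
    · intro f hf
      rcases Finset.mem_insert.1 hf with rfl | hf
      · exact Finset.mem_union_right _ h1
      · exact Finset.mem_union_left _ (hsub hf)
    · refine M2.of_dv ((K.nl.mono hsub).insert h3) ?_
      intro v
      rw [e2]
      rcases Nat.lt_trichotomy v n with hv | hv | hv
      · exact (W.rg _ hJ v hv).2
      · rw [hv]
        rcases W.tok _ hJ with h | h <;> rw [h] <;> norm_num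
      · rw [W.up _ hJ v hv]; norm_num
    · intro Z hZ hs
      apply K.good g Z hZ
      intro f hf
      rcases Finset.mem_insert.1 (hs hf) with h | h
      · exfalso
        apply h2
        rw [← h]
        obtain ⟨u, w, hu, hw, huw, rfl⟩ := K.sqs Z hZ
        rw [K.mem]
        simp only [TFC.sq, Finset.mem_insert, Finset.mem_singleton] at hf
        rcases hf with rfl | rfl | rfl | rfl
        · exact ⟨u, hu, Or.inl rfl⟩
        · exact ⟨u, hu, Or.inr Sym2.eq_swap⟩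
        · exact ⟨w, hw, Or.inr rfl⟩
        · exact ⟨w, hw, Or.inl Sym2.eq_swap⟩
      · exact h
    · intro f hf hfC
      rcases Finset.mem_insert.1 hf with rfl | hf
      · right
        refine ⟨y, Sym2.mem_mk_left _ _, ?_⟩
        have h6 : dg (ks a b A B) y = 1 := by
          have := congrFun e y
          rw [dv_apply, hy] at this
          exact_mod_cast this
        rw [← h6]
        exact dg_mono (Finset.subset_inter (Finset.subset_insert _ _) hsub) y
      · exact absurd (hsub hf) hfC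
  · have := K.an; omega
  · have := K.bn; omega
  · intro h
    have := K.Ln n h
    omega
  · rintro u ⟨_, _, h, _⟩
    exact h rfl
  · rintro u w ⟨h1, h2, h3, h4⟩
    refine ⟨h2, h1, h3.symm, ?_⟩
    have h5 : Dist4 a u b w := ⟨au u h1, K.ab, au w h2, (bu u h1).symm, h3, bu w h2⟩
    rw [← (Clus_sq_leaf h5).2]
    exact h4
  · rintro u w ⟨h1, _⟩
    exact h1

/-- the witnesses -/
theorem K2At.fds (K : K2At n C DC a b L) (hF : ∀ Z ∈ DC, J (dv Z)) : FDs a b (Dp DC a b L) J := by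
  have au : ∀ x ∈ L, a ≠ x := by rintro x hx rfl; exact K.aL hx
  have bu : ∀ x ∈ L, b ≠ x := by rintro x hx rfl; exact K.bL hx
  rintro u w ⟨h1, h2, h3, h4⟩
  have h5 : Dist4 a u b w := ⟨au u h1, K.ab, au w h2, (bu u h1).symm, h3, bu w h2⟩
  have h6 : dv (TFC.sq a u b w) = (2 : ℤ) • ev a + (2 : ℤ) • ev b + (2 : ℤ) • ev u + (2 : ℤ) • ev w := by
    funext v
    rw [CE.dv_sq h5]
    simp only [Pi.add_apply, Pi.smul_apply, smul_eq_mul]
    ring
  rw [← h6]
  exact hF _ h4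

end

end Pool.Agent.PF4.XF
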