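import Pool.Agent.PF4.XW
import Pool.Agent.PF4.Cov

/-!
The interface between the algorithm (pool, minimal blocking family) and the theorem on two conflicting squares: everything
that is known in one world (`OW`), and the statement of the theorem for two worlds (`XfStatement`).
-/

set_option autoImplicit false

namespace Pool.Agent.PF4.XF

open Finset Pool.Agent.TFC Pool.Agent.PF4

/-- reachable from `S` in at most `k` steps -/
def Rch (E : Finset (Sym2 ℕ)) (S : Finset ℕ) : ℕ → ℕ → Prop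
  | 0, v => v ∈ S
  | k + 1, v => Rch E S k v ∨ ∃ u, Rch E S k u ∧ s(u, v) ∈ E

/-- **everything that is known in one world**: the pool `P`, the minimal blocking family `D` (minimal at stage `j`, blocking
until stage `j + m`), the near covers `M w` of the vertices `w` of `S` (the corners of the two squares) -/
structure OW (X : XD) (P : ℕ → Finset (Sym2 ℕ) → Prop) (D : Finset (Finset (Sym2 ℕ))) (j m : ℕ)
    (S : Finset ℕ) (M : ℕ → Finset (Sym2 ℕ)) : Prop where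
  ok : X.OK
  xp : XP X P
  blk : Blk X P D j m
  mb : 3 ^ (#X.V2 + 1) + 20 ≤ m
  /-- all edges with an end at distance at most 4 from `S` are near edges -/
  rch : ∀ v, Rch X.E S 4 v → ∀ e ∈ X.E, v ∈ e → e ∈ X.En
  sv : ∀ v ∈ S, v ∈ X.V2
  nc : ∀ w ∈ S, w ∈ X.T → NC X w (M w) ∧ P j (M w) ∧ ∀ Z, Hs X.T Z → ¬ Z ⊆ M w

/-- the corners of a square -/
def cr (Q : Sq4) : Finset ℕ := {Q.1, Q.2.1, Q.2.2.1, Q.2.2.2}

/-- **the theorem on two conflicting squares** -/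
def XfStatement : Prop :=
  ∀ (X₁ X₂ : XD) (P₁ P₂ : ℕ → Finset (Sym2 ℕ) → Prop) (D₁ D₂ : Finset (Finset (Sym2 ℕ))) (j₁ m₁ j₂ m₂ : ℕ)
    (M : ℕ → Finset (Sym2 ℕ)) (Q R : Sq4), SqOK Q → SqOK R → #(sqs Q ∩ sqs R) = 1 →
    OW X₁ P₁ D₁ j₁ m₁ (cr Q ∪ cr R) M → OW X₂ P₂ D₂ j₂ m₂ (cr Q ∪ cr R) M →
    X₁.n = X₂.n → X₁.T = X₂.T → sqs Q ∈ D₁ → sqs R ∈ D₂ → sqs R ⊆ X₁.E → sqs Q ⊆ X₂.E → False

section
variable {X : XD} {P : ℕ → Finset (Sym2 ℕ) → Prop} {D : Finset (Finset (Sym2 ℕ))} {j m : ℕ} {S : Finset ℕ}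
  {M : ℕ → Finset (Sym2 ℕ)}

theorem OW.cE (h : OW X P D j m S M) {C : Finset (Sym2 ℕ)} (hC : C ⊆ X.En) : C ⊆ X.E2 := hC.trans h.ok.e1

theorem Av_mono_D (h : OW X P D j m S M) {C : Finset (Sym2 ℕ)} {t : ℕ} {k : ℕ → ℤ} (hk : Av X P D j C t k) :
    Av X P D j C (t + 1) k := by
  obtain ⟨O, h1, h2⟩ := hk
  exact ⟨O, h.xp.mono _ _ h1, h2⟩

/-- **the world at a union of clusters**: a jump set `J` which contains the vectors of the covers whose squares of `D` meet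
`C ∪ ER`, and the vectors of the near covers -/
theorem OW.world (h : OW X P D j m S M) {C ER PL : Finset (Sym2 ℕ)} (hC : ∀ Z ∈ D, Z ⊆ C ∨ Disjoint Z C)
    (hCn : C ⊆ X.En) (hER : ER ⊆ X.En) (hPL : ∀ e ∈ PL, ∀ Z ∈ D, e ∉ Z) :
    ∃ J : (ℕ → ℤ) → Prop, WJ X.n X.T X.V2 C ER PL (D.filter fun Z => Z ⊆ C) J ∧
      (∀ L, P j L → Cv X L → (∀ Z ∈ D, Z ⊆ L → ¬ Disjoint Z (C ∪ ER)) → J (dv (L ∩ (C ∪ ER)))) ∧
      (∀ w ∈ S, w ∈ X.T → J (dv (M w ∩ (C ∪ ER)) + ev w + ev X.n)) := by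
  have hCE : C ∪ ER ⊆ X.E2 := h.cE (Finset.union_subset hCn hER)
  have hm := h.mb
  obtain ⟨c, hc⟩ : ∃ c, c = 3 ^ (#X.V2 + 1) := ⟨_, rfl⟩
  rw [← hc] at hm
  obtain ⟨t, _, hJ0, hJ⟩ := (world_of h.ok h.xp h.blk hC hCn hER hPL (show 2 ≤ m by omega)).toWJ h.ok.vn
    (by rw [← hc]; omega)
  refine ⟨_, hJ, ?_, ?_⟩
  · intro L hL hc hD
    exact hJ0 _ (av_of h.xp hCE hL hD (fit_cover h.ok (h.xp.m2 _ _ hL).1 (h.xp.m2 _ _ hL).2 hc hCE))
  · intro w hw hT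
    obtain ⟨h1, h2, h3⟩ := h.nc w hw hT
    exact hJ0 _ (av_of h.xp hCE h2 (fun Z hZ hs => absurd hs (h3 Z (h.blk.hs Z hZ).1))
      (fit_near h.ok h1 hT (h.sv w hw) hCE))

end

end Pool.Agent.PF4.XF
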