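import Pool.Agent.PF4.KWF
import Pool.Agent.PF4.KWM
import Pool.Agent.PF4.XOW

/-!
The one-world lemmas in terms of the data `OW` of one world.
-/

set_option autoImplicit false
set_option linter.unusedSectionVars false
set_option linter.unusedVariables false
set_option linter.unusedSimpArgs false

namespace Pool.Agent.PF4.XF

open Finset Pool.Agent.TFC

/-- the cluster `c` of the square `Q` of the family -/
structure CD (X : XD) (D : Finset (Finset (Sym2 ℕ))) (Q : Finset (Sym2 ℕ)) (c : Clu ℕ) : Prop where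
  val : c.Valid
  mem : Q ∈ D
  sub : Q ⊆ c.edges
  near : c.edges ⊆ X.En
  sep : ∀ Z ∈ D, Z ⊆ c.edges ∨ Disjoint Z c.edges
  cov : ∀ e ∈ c.edges, ∃ Z ∈ D, e ∈ Z ∧ Z ⊆ c.edges

lemma k2_mem {a b : ℕ} {L : Finset ℕ} {e : Sym2 ℕ} :
    e ∈ (Clu.k2 a b L).edges ↔ ∃ l ∈ L, e = s(a, l) ∨ e = s(b, l) := by
  simp only [Clu.edges, Finset.mem_union, Finset.mem_image]
  constructor
  · rintro (⟨l, h1, h2⟩ | ⟨l, h1, h2⟩)
    · exact ⟨l, h1, Or.inl h2.symm⟩
    · exact ⟨l, h1, Or.inr h2.symm⟩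
  · rintro ⟨l, h1, h2 | h2⟩
    · exact Or.inl ⟨l, h1, h2.symm⟩
    · exact Or.inr ⟨l, h1, h2.symm⟩

lemma k2_mem2 {a b : ℕ} {L : Finset ℕ} {u v : ℕ} :
    s(u, v) ∈ (Clu.k2 a b L).edges ↔ ((u = a ∨ u = b) ∧ v ∈ L) ∨ ((v = a ∨ v = b) ∧ u ∈ L) := by
  rw [k2_mem]
  constructor
  · rintro ⟨l, hl, h | h⟩
    · rcases Sym2.eq_iff.1 h with ⟨rfl, rfl⟩ | ⟨rfl, rfl⟩
      · exact Or.inl ⟨Or.inl rfl, hl⟩
      · exact Or.inr ⟨Or.inl rfl, hl⟩
    · rcases Sym2.eq_iff.1 h with ⟨rfl, rfl⟩ | ⟨rfl, rfl⟩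
      · exact Or.inl ⟨Or.inr rfl, hl⟩
      · exact Or.inr ⟨Or.inr rfl, hl⟩
  · rintro (⟨rfl | rfl, h⟩ | ⟨rfl | rfl, h⟩)
    · exact ⟨v, h, Or.inl rfl⟩
    · exact ⟨v, h, Or.inr rfl⟩
    · exact ⟨u, h, Or.inl Sym2.eq_swap⟩
    · exact ⟨u, h, Or.inr Sym2.eq_swap⟩

lemma k2_swap (a b : ℕ) (L : Finset ℕ) : (Clu.k2 b a L).edges = (Clu.k2 a b L).edges := by
  simp only [Clu.edges, Finset.union_comm]

/-- the three shapes of a square in a cluster -/
lemma shapeK {x y q p : ℕ} (hd : Dist4 x y q p) {c : Clu ℕ} (hv : c.Valid) (hs : TFC.sq x y q p ⊆ c.edges) :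
    (∃ V, c = Clu.k4 V ∧ x ∈ V ∧ y ∈ V ∧ q ∈ V ∧ p ∈ V) ∨
    (∃ L, c.edges = (Clu.k2 x q L).edges ∧ (Clu.k2 x q L).Valid ∧ y ∈ L ∧ p ∈ L) ∨
    (∃ L, c.edges = (Clu.k2 y p L).edges ∧ (Clu.k2 y p L).Valid ∧ x ∈ L ∧ q ∈ L) := by
  obtain ⟨h1, h2, h3, h4, h5, h6⟩ := hd
  cases c with
  | k4 V =>
    left
    have m1 : s(x, y) ∈ (Clu.k4 V).edges := hs (by simp [TFC.sq])
    have m2 : s(q, p) ∈ (Clu.k4 V).edges := hs (by simp [TFC.sq])
    simp only [Clu.edges, Finset.mem_filter, Finset.mk_mem_sym2_iff] at m1 m2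
    exact ⟨V, rfl, m1.1.1, m1.1.2, m2.1.1, m2.1.2⟩
  | k2 a b L =>
    right
    obtain ⟨hab, haL, hbL, hc⟩ := hv
    have m1 := k2_mem2.1 (hs (show s(x, y) ∈ TFC.sq x y q p by simp [TFC.sq]))
    have m2 := k2_mem2.1 (hs (show s(y, q) ∈ TFC.sq x y q p by simp [TFC.sq]))
    have m3 := k2_mem2.1 (hs (show s(q, p) ∈ TFC.sq x y q p by simp [TFC.sq]))
    have hub : ∀ v, v = a ∨ v = b → v ∉ L := by
      rintro v (rfl | rfl)
      · exact haL
      · exact hbL
    -- `x` is a hub or a leaf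
    rcases m1 with ⟨hx, hy⟩ | ⟨hy, hx⟩
    · left
      have hq : q = a ∨ q = b := by
        rcases m2 with ⟨h, _⟩ | ⟨h, _⟩
        · exact absurd hy (hub y h)
        · exact h
      have hp : p ∈ L := by
        rcases m3 with ⟨_, h⟩ | ⟨_, h⟩
        · exact h
        · exact absurd h (hub q hq)
      rcases hx with rfl | rfl
      · rcases hq with rfl | rfl
        · exact absurd rfl h2
        · exact ⟨L, rfl, ⟨hab, haL, hbL, hc⟩, hy, hp⟩
      · rcases hq with rfl | rfl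
        · exact ⟨L, k2_swap _ _ _, ⟨hab.symm, hbL, haL, hc⟩, hy, hp⟩
        · exact absurd rfl h2
    · right
      have hq : q ∈ L := by
        rcases m2 with ⟨_, h⟩ | ⟨_, h⟩
        · exact h
        · exact absurd h (hub y hy)
      have hp : p = a ∨ p = b := by
        rcases m3 with ⟨h, _⟩ | ⟨h, _⟩
        · exact absurd hq (hub q h)
        · exact h
      rcases hy with rfl | rfl
      · rcases hp with rfl | rfl
        · exact absurd rfl h5
        · exact ⟨L, rfl, ⟨hab, haL, hbL, hc⟩, hx, hq⟩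
      · rcases hp with rfl | rfl
        · exact ⟨L, k2_swap _ _ _, ⟨hab.symm, hbL, haL, hc⟩, hx, hq⟩
        · exact absurd rfl h5

/-- a square in a cluster with two hubs -/
lemma sq_in_k2 {a b : ℕ} {L : Finset ℕ} {Z : Finset (Sym2 ℕ)} (hv : (Clu.k2 a b L).Valid) (hZ : IsSq Z)
    (hs : Z ⊆ (Clu.k2 a b L).edges) : ∃ u w, u ∈ L ∧ w ∈ L ∧ u ≠ w ∧ Z = TFC.sq a u b w := by
  obtain ⟨x, y, q, p, hd, rfl⟩ := hZ
  obtain ⟨hab, haL, hbL, hc⟩ := hv
  obtain ⟨h1, h2, h3, h4, h5, h6⟩ := id hd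
  have m1 := k2_mem2.1 (hs (show s(x, y) ∈ TFC.sq x y q p by simp [TFC.sq]))
  have m2 := k2_mem2.1 (hs (show s(y, q) ∈ TFC.sq x y q p by simp [TFC.sq]))
  have m3 := k2_mem2.1 (hs (show s(q, p) ∈ TFC.sq x y q p by simp [TFC.sq]))
  have hub : ∀ v, v = a ∨ v = b → v ∉ L := by
    rintro v (rfl | rfl)
    · exact haL
    · exact hbL
  rcases m1 with ⟨hx, hy⟩ | ⟨hy, hx⟩
  · have hq : q = a ∨ q = b := by
      rcases m2 with ⟨h, _⟩ | ⟨h, _⟩
      · exact absurd hy (hub y h)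
      · exact h
    have hp : p ∈ L := by
      rcases m3 with ⟨_, h⟩ | ⟨_, h⟩
      · exact h
      · exact absurd h (hub q hq)
    rcases hx with rfl | rfl
    · rcases hq with rfl | rfl
      · exact absurd rfl h2
      · exact ⟨y, p, hy, hp, h5, rfl⟩
    · rcases hq with rfl | rfl
      · refine ⟨y, p, hy, hp, h5, (Clus_sq_cen hd).2⟩
      · exact absurd rfl h2
  · have hq : q ∈ L := by
      rcases m2 with ⟨_, h⟩ | ⟨_, h⟩
      · exact h
      · exact absurd h (hub y hy)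
    have hp : p = a ∨ p = b := by
      rcases m3 with ⟨h, _⟩ | ⟨h, _⟩
      · exact absurd hq (hub q h)
      · exact h
    have hd' : Dist4 y q p x := ⟨h4, h5, h1.symm, h6, h2.symm, h3.symm⟩
    have e1 : TFC.sq x y q p = TFC.sq y q p x :=
      (Clus_rot (show Clus_F (TFC.sq x y q p) {x, y, q, p} x y q p from ⟨hd, rfl, rfl⟩)).2.1
    rw [e1]
    rcases hy with rfl | rfl
    · rcases hp with rfl | rfl
      · exact absurd rfl h5
      · exact ⟨q, x, hq, hx, h2.symm, rfl⟩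
    · rcases hp with rfl | rfl
      · exact ⟨q, x, hq, hx, h2.symm, (Clus_sq_cen hd').2⟩
      · exact absurd rfl h5

section

variable {X : XD} {P : ℕ → Finset (Sym2 ℕ) → Prop} {D : Finset (Finset (Sym2 ℕ))} {j m : ℕ} {S : Finset ℕ}
  {M : ℕ → Finset (Sym2 ℕ)} {Q : Finset (Sym2 ℕ)} {a b : ℕ} {L : Finset ℕ}

/-- the pairs of leaves -/
def Dq (D : Finset (Finset (Sym2 ℕ))) (a b : ℕ) (L : Finset ℕ) (u w : ℕ) : Prop :=
  u ∈ L ∧ w ∈ L ∧ u ≠ w ∧ TFC.sq a u b w ∈ D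

lemma sq_sub_k2 {u w : ℕ} (hu : u ∈ L) (hw : w ∈ L) : TFC.sq a u b w ⊆ (Clu.k2 a b L).edges := by
  intro e he
  rw [k2_mem]
  simp only [TFC.sq, Finset.mem_insert, Finset.mem_singleton] at he
  rcases he with rfl | rfl | rfl | rfl
  · exact ⟨u, hu, Or.inl rfl⟩
  · exact ⟨u, hu, Or.inr Sym2.eq_swap⟩
  · exact ⟨w, hw, Or.inr rfl⟩
  · exact ⟨w, hw, Or.inl Sym2.eq_swap⟩

lemma Dp_iff {u w : ℕ} : Dp (D.filter fun Z => Z ⊆ (Clu.k2 a b L).edges) a b L u w ↔ Dq D a b L u w := by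
  unfold Dp Dq
  simp only [Finset.mem_filter]
  constructor
  · rintro ⟨h1, h2, h3, h4, _⟩
    exact ⟨h1, h2, h3, h4⟩
  · rintro ⟨h1, h2, h3, h4⟩
    exact ⟨h1, h2, h3, h4, sq_sub_k2 h1 h2⟩

lemma OW.vlt (h : OW X P D j m S M) {e : Sym2 ℕ} (he : e ∈ X.En) {v : ℕ} (hv : v ∈ e) : v < X.n :=
  h.ok.lt e (h.ok.e2 (h.ok.e1 he)) v hv

lemma CD.k2At (h : OW X P D j m S M) (hc : CD X D Q (Clu.k2 a b L)) :
    K2At X.n (Clu.k2 a b L).edges (D.filter fun Z => Z ⊆ (Clu.k2 a b L).edges) a b L := by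
  obtain ⟨hab, haL, hbL, hcard⟩ := hc.val
  have hL : ∃ l, l ∈ L := by
    rcases Finset.eq_empty_or_nonempty L with h | h
    · rw [h] at hcard
      simp at hcard
    · exact h
  obtain ⟨l0, hl0⟩ := hL
  refine ⟨rfl, hab, haL, hbL, ?_, ?_, ?_, ?_⟩
  · exact h.vlt (hc.near (k2_mem.2 ⟨l0, hl0, Or.inl rfl⟩)) (Sym2.mem_mk_left _ _)
  · exact h.vlt (hc.near (k2_mem.2 ⟨l0, hl0, Or.inr rfl⟩)) (Sym2.mem_mk_left _ _)
  · intro v hv
    exact h.vlt (hc.near (k2_mem.2 ⟨v, hv, Or.inl rfl⟩)) (Sym2.mem_mk_right _ _)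
  · intro Z hZ
    obtain ⟨h1, h2⟩ := Finset.mem_filter.1 hZ
    exact sq_in_k2 hc.val (h.blk.hs Z h1).1.isSq h2

/-- every leaf has a partner -/
lemma CD.cov' (h : OW X P D j m S M) (hc : CD X D Q (Clu.k2 a b L)) : ∀ l ∈ L, ∃ v, Dq D a b L l v := by
  intro l hl
  obtain ⟨hab, haL, hbL, hcard⟩ := hc.val
  obtain ⟨Z, hZ, he, hs⟩ := hc.cov s(a, l) (k2_mem.2 ⟨l, hl, Or.inl rfl⟩)
  obtain ⟨u, w, hu, hw, huw, rfl⟩ := sq_in_k2 hc.val (h.blk.hs Z hZ).1.isSq hs
  simp only [TFC.sq, Finset.mem_insert, Finset.mem_singleton, Sym2.eq_iff] at he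
  have au : a ≠ u := by rintro rfl; exact haL hu
  have aw : a ≠ w := by rintro rfl; exact haL hw
  have al : a ≠ l := by rintro rfl; exact haL hl
  have hd : Dist4 a u b w := ⟨au, hab, aw, by rintro rfl; exact hbL hu, huw, by rintro rfl; exact hbL hw⟩
  have key : l = u ∨ l = w := by
    rcases he with (⟨_, h1⟩ | ⟨h1, _⟩) | (⟨h1, _⟩ | ⟨h1, _⟩) | (⟨h1, _⟩ | ⟨h1, _⟩) | (⟨h1, _⟩ | ⟨_, h1⟩)
    · exact Or.inl h1
    · exact absurd h1 au
    · exact absurd h1 au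
    · exact absurd h1 hab
    · exact absurd h1 hab
    · exact absurd h1 aw
    · exact absurd h1 aw
    · exact Or.inr h1
  rcases key with rfl | rfl
  · exact ⟨w, hu, hw, huw, hZ⟩
  · refine ⟨u, hw, hu, huw.symm, ?_⟩
    rw [← (Clus_sq_leaf hd).2]
    exact hZ

/-- the lists of neighbours of the hubs in `M` -/
noncomputable def nA (L : Finset ℕ) (a : ℕ) (M : Finset (Sym2 ℕ)) : List ℕ := (L.filter fun l => s(a, l) ∈ M).toList

lemma mem_nA {L : Finset ℕ} {a l : ℕ} {M : Finset (Sym2 ℕ)} : l ∈ nA L a M ↔ l ∈ L ∧ s(a, l) ∈ M := by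
  simp [nA]

lemma len_nA {L : Finset ℕ} {a : ℕ} {M : Finset (Sym2 ℕ)} : (nA L a M).length ≤ dg M a := by
  rw [nA, Finset.length_toList, dg]
  refine Finset.card_le_card_of_injOn (fun l => s(a, l)) ?_ ?_
  · intro l hl
    obtain ⟨h1, h2⟩ := Finset.mem_filter.1 (Finset.mem_coe.1 hl)
    exact Finset.mem_coe.2 (Finset.mem_filter.2 ⟨h2, Sym2.mem_mk_left _ _⟩)
  · intro l _ l' _ h
    exact sym2_inj_left h

lemma ks_nA (L : Finset ℕ) (a b : ℕ) (M : Finset (Sym2 ℕ)) :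
    ks a b (nA L a M) (nA L b M) = M ∩ (Clu.k2 a b L).edges := by
  ext e
  rw [mem_ks, Finset.mem_inter, k2_mem]
  constructor
  · rintro (⟨x, hx, rfl⟩ | ⟨x, hx, rfl⟩)
    · exact ⟨(mem_nA.1 hx).2, x, (mem_nA.1 hx).1, Or.inl rfl⟩
    · exact ⟨(mem_nA.1 hx).2, x, (mem_nA.1 hx).1, Or.inr rfl⟩
  · rintro ⟨h1, l, hl, rfl | rfl⟩
    · exact Or.inl ⟨l, mem_nA.2 ⟨hl, h1⟩, rfl⟩
    · exact Or.inr ⟨l, mem_nA.2 ⟨hl, h1⟩, rfl⟩

lemma gd_nA (h : OW X P D j m S M) {N : Finset (Sym2 ℕ)} (hN : M2 N) (hs : ∀ Z, Hs X.T Z → ¬ Z ⊆ N) :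
    Gd L (Dq D a b L) (nA L a N) (nA L b N) := by
  refine ⟨Finset.nodup_toList _, Finset.nodup_toList _, fun x hx => (mem_nA.1 hx).1, fun x hx => (mem_nA.1 hx).1,
    len_nA.trans (hN.le a), len_nA.trans (hN.le b), ?_⟩
  rintro u w ⟨_, _, _, h4⟩ h5 h6 h7 h8
  apply hs _ (h.blk.hs _ h4).1
  intro e he
  simp only [TFC.sq, Finset.mem_insert, Finset.mem_singleton] at he
  rcases he with rfl | rfl | rfl | rfl
  · exact (mem_nA.1 h5).2
  · exact msw (mem_nA.1 h7).2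
  · exact (mem_nA.1 h8).2
  · exact msw (mem_nA.1 h6).2

lemma wit_inter {F : Finset (Sym2 ℕ)} {u w : ℕ} (hF : M2 F) (hZ : IsSq (TFC.sq a u b w)) (hu : u ∈ L) (hw : w ∈ L)
    (hs : TFC.sq a u b w ⊆ F) : F ∩ (Clu.k2 a b L).edges = TFC.sq a u b w := by
  apply Finset.Subset.antisymm
  · intro f hf
    obtain ⟨h1, h2⟩ := Finset.mem_inter.1 hf
    rw [k2_mem] at h2
    obtain ⟨l, hl, rfl | rfl⟩ := h2
    · exact sq_closed hF hZ hs (show s(a, u) ∈ TFC.sq a u b w by simp [TFC.sq]) (Sym2.mem_mk_left _ _) h1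
        (Sym2.mem_mk_left _ _)
    · exact sq_closed hF hZ hs (show s(u, b) ∈ TFC.sq a u b w by simp [TFC.sq]) (Sym2.mem_mk_right _ _) h1
        (Sym2.mem_mk_left _ _)
  · exact Finset.subset_inter hs (sq_sub_k2 hu hw)

/-- free vertices of the world -/
def Fre (X : XD) : ℕ → Prop := fun v => v ∉ X.T ∧ v < X.n

/-- **the world at a cluster with two hubs** -/
theorem OW.kw (h : OW X P D j m S M) (hc : CD X D Q (Clu.k2 a b L)) :
    ∃ J : (ℕ → ℤ) → Prop, KW X.n a b L (Fre X) (fun _ _ => False) (Dq D a b L) J ∧ FDs a b (Dq D a b L) J ∧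
      (∀ w ∈ S, w ∈ X.T → J (nv X.n a b w (nA L a (M w)) (nA L b (M w)))) := by
  obtain ⟨J, W, hF, hN⟩ := h.world (C := (Clu.k2 a b L).edges) (ER := ∅) (PL := ∅) hc.sep hc.near (by simp) (by simp)
  rw [Finset.union_empty] at hF hN
  have K := hc.k2At h
  have e : Dp (D.filter fun Z => Z ⊆ (Clu.k2 a b L).edges) a b L = Dq D a b L := by
    funext u w
    exact propext Dp_iff
  have W1 := KW.of_WJ W K
  rw [e] at W1
  refine ⟨J, ?_, ?_, ?_⟩
  · refine { W1 with XR := ?_ }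
    intro y r A B τ hh
    exact hh.elim
  · have hfd := K.fds (J := J) (by
      intro Z hZ
      obtain ⟨h1, h2⟩ := Finset.mem_filter.1 hZ
      obtain ⟨F, g1, g2, g3, g4⟩ := h.blk.wit Z h1
      obtain ⟨u, w, hu, hw, huw, rfl⟩ := K.sqs Z hZ
      have h3 := hF F g1 g2 (by
        intro Z' hZ' hs'
        rw [g4 Z' hZ' hs']
        intro hd
        have : s(a, u) ∈ TFC.sq a u b w := by simp [TFC.sq]
        exact Finset.disjoint_left.1 hd this (h2 this))
      rw [wit_inter (h.xp.m2 _ _ g1).1 (h.blk.hs _ h1).1.isSq hu hw g3] at h3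
      exact h3)
    rw [e] at hfd
    exact hfd
  · intro w hw hT
    obtain ⟨h1, h2, h3⟩ := h.nc w hw hT
    have h4 := hN w hw hT
    have g := gd_nA (L := L) (a := a) (b := b) h h1.m2 h3
    rw [← ks_nA, K.dv_ks g] at h4
    exact h4

/-- **the world at a cluster with two hubs, with an extra edge `y r`** -/
theorem OW.kwr (h : OW X P D j m S M) (hc : CD X D Q (Clu.k2 a b L)) {y r : ℕ} (hy : y ∉ X.T) (hr : r ∈ X.T) (hrS : r ∈ S)
    (he : s(y, r) ∈ X.En) (hni : s(y, r) ∉ (Clu.k2 a b L).edges) :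
    ∃ J : (ℕ → ℤ) → Prop, KW X.n a b L (Fre X) (fun y' r' => y' = y ∧ r' = r) (Dq D a b L) J ∧
      (∀ u w, Dq D a b L u w → (y = a ∨ y = b ∨ y = u ∨ y = w) →
        J ((2 : ℤ) • ev a + (2 : ℤ) • ev b + (2 : ℤ) • ev u + (2 : ℤ) • ev w)) ∧
      (∀ k, J k → ∀ v, v ≠ X.n → 0 ≤ k v ∧ k v ≤ 2) ∧
      (∃ c τ : ℤ, 1 ≤ c ∧ c ≤ 2 ∧ J (rv X.n a b r c τ (nA L a (M r)) (nA L b (M r)))) := by
  obtain ⟨J, W, hF, hN⟩ := h.world (C := (Clu.k2 a b L).edges) (ER := {s(y, r)}) (PL := ∅) hc.sep hc.near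
    (by simpa using he) (by simp)
  have yr : y ≠ r := by rintro rfl; exact hy hr
  have yn : y < X.n := h.vlt he (Sym2.mem_mk_left _ _)
  have rn : r < X.n := h.vlt he (Sym2.mem_mk_right _ _)
  have K := hc.k2At h
  have e : Dp (D.filter fun Z => Z ⊆ (Clu.k2 a b L).edges) a b L = Dq D a b L := by
    funext u w
    exact propext Dp_iff
  have W1 := KW.of_WJ W K
  rw [e] at W1
  refine ⟨J, ?_, ?_, ?_, ?_⟩
  · refine { W1 with XR := ?_ }
    rintro y' r' A B τ ⟨rfl, rfl⟩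
    exact W1.XR y' r' A B τ ⟨by simp, hni, yr, yn, rn⟩
  · rintro u w ⟨hu, hw, huw, hZ⟩ hyZ
    have sub := sq_sub_k2 (a := a) (b := b) hu hw
    have hsq := (h.blk.hs _ hZ).1.isSq
    obtain ⟨F, g1, g2, g3, g4⟩ := h.blk.wit _ hZ
    have h3 := hF F g1 g2 (by
        intro Z' hZ' hs'
        rw [g4 Z' hZ' hs']
        intro hd
        have : s(a, u) ∈ TFC.sq a u b w := by simp [TFC.sq]
        exact Finset.disjoint_left.1 hd this (Finset.mem_union_left _ (sub this)))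
    have h4 : F ∩ ((Clu.k2 a b L).edges ∪ {s(y, r)}) = TFC.sq a u b w := by
      rw [Finset.inter_union_distrib_left, wit_inter (h.xp.m2 _ _ g1).1 hsq hu hw g3, Finset.union_eq_left]
      intro f hf
      obtain ⟨f1, f2⟩ := Finset.mem_inter.1 hf
      rw [Finset.mem_singleton] at f2
      subst f2
      exfalso
      apply hni
      apply sub
      rcases hyZ with rfl | rfl | rfl | rfl
      · exact sq_closed (h.xp.m2 _ _ g1).1 hsq g3 (show s(y, u) ∈ TFC.sq y u b w by simp [TFC.sq])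
          (Sym2.mem_mk_left _ _) f1 (Sym2.mem_mk_left _ _)
      · exact sq_closed (h.xp.m2 _ _ g1).1 hsq g3 (show s(u, y) ∈ TFC.sq a u y w by simp [TFC.sq])
          (Sym2.mem_mk_right _ _) f1 (Sym2.mem_mk_left _ _)
      · exact sq_closed (h.xp.m2 _ _ g1).1 hsq g3 (show s(a, y) ∈ TFC.sq a y b w by simp [TFC.sq])
          (Sym2.mem_mk_right _ _) f1 (Sym2.mem_mk_left _ _)
      · exact sq_closed (h.xp.m2 _ _ g1).1 hsq g3 (show s(b, y) ∈ TFC.sq a u b y by simp [TFC.sq])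
          (Sym2.mem_mk_right _ _) f1 (Sym2.mem_mk_left _ _)
    rw [h4] at h3
    have := K.ab
    have au : a ≠ u := by rintro rfl; exact K.aL hu
    have aw : a ≠ w := by rintro rfl; exact K.aL hw
    have bu : b ≠ u := by rintro rfl; exact K.bL hu
    have bw : b ≠ w := by rintro rfl; exact K.bL hw
    have h5 : Dist4 a u b w := ⟨au, K.ab, aw, bu.symm, huw, bw⟩
    have h6 : dv (TFC.sq a u b w) = (2 : ℤ) • ev a + (2 : ℤ) • ev b + (2 : ℤ) • ev u + (2 : ℤ) • ev w := by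
      funext v
      rw [CE.dv_sq h5]
      simp only [Pi.add_apply, Pi.smul_apply, smul_eq_mul]
      ring
    rw [← h6]
    exact h3
  · intro k hk v hv
    rcases Nat.lt_or_gt_of_ne hv with h1 | h1
    · exact W.rg k hk v h1
    · rw [W.up k hk v h1]
      norm_num
  · obtain ⟨h1, h2, h3⟩ := h.nc r hrS hr
    have h4 := hN r hrS hr
    have g := gd_nA (L := L) (a := a) (b := b) h h1.m2 h3
    by_cases hm : s(y, r) ∈ M r
    · -- the edge is in the near cover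
      have e1 : M r ∩ ((Clu.k2 a b L).edges ∪ {s(y, r)}) = insert s(y, r) (ks a b (nA L a (M r)) (nA L b (M r))) := by
        rw [ks_nA, Finset.inter_union_distrib_left, Finset.inter_singleton_of_mem hm, Finset.union_comm]
        rfl
      have hni2 : s(y, r) ∉ ks a b (nA L a (M r)) (nA L b (M r)) := by
        rw [ks_nA]
        intro hh
        exact hni (Finset.mem_inter.1 hh).2
      rw [e1, dv_insert yr hni2, K.dv_ks g] at h4
      refine ⟨2, 0, by norm_num, le_rfl, ?_⟩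
      have vn : X.n ≠ y := by omega
      have vr : X.n ≠ r := by omega
      have kn : kv a b (nA L a (M r)) (nA L b (M r)) X.n = 0 := by
        refine kv_off' g ?_ ?_ ?_
        · have := K.an; omega
        · have := K.bn; omega
        · intro hh
          have := K.Ln _ hh
          omega
      refine W.dn _ _ h4 ?_ ?_ ?_ ?_ ?_
      · intro v hv hT
        have v1 : v ≠ y := by rintro rfl; exact hy hT
        have v2 : v ≠ X.n := by omega
        simp only [rv, Pi.add_apply, Pi.smul_apply, smul_eq_mul, ev_apply, if_neg v1, if_neg v2]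
        split_ifs <;> ring
      · intro v hv hT
        have v1 : v ≠ r := by rintro rfl; exact hT hr
        have v2 : v ≠ X.n := by omega
        have := kv_nn' g v (a := a) (b := b)
        simp only [rv, Pi.add_apply, Pi.smul_apply, smul_eq_mul, ev_apply, if_neg v1, if_neg v2]
        split_ifs <;> constructor <;> omega
      · left
        simp [rv, ev_apply, vr, kn]
      · have h7 := W.par _ h4
        have sub : ks a b (nA L a (M r)) (nA L b (M r)) ⊆ (Clu.k2 a b L).edges := by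
          rw [ks_nA]; exact Finset.inter_subset_right
        have h8 : ∑ v ∈ Finset.range (X.n + 1), rv X.n a b r 2 0 (nA L a (M r)) (nA L b (M r)) v =
            2 * (#(ks a b (nA L a (M r)) (nA L b (M r))) : ℤ) + 2 := by
          simp only [rv, Pi.add_apply, Pi.smul_apply, smul_eq_mul, Finset.sum_add_distrib]
          rw [← K.dv_ks g, sum_dv (K.nl.mono sub) (fun f hf v hv => K.lt f (sub hf) v hv)]
          simp only [ev_apply, mul_ite, mul_one, mul_zero, zero_mul]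
          rw [Finset.sum_ite_eq', if_pos (Finset.mem_range.2 (by omega))]
          simp
        rw [h8]
        exact ⟨#(ks a b (nA L a (M r)) (nA L b (M r))) + 1, by ring⟩
      · intro v hv
        have v1 : v ≠ r := by omega
        have v2 : v ≠ X.n := by omega
        have : kv a b (nA L a (M r)) (nA L b (M r)) v = 0 := by
          refine kv_off' g ?_ ?_ ?_
          · have := K.an; omega
          · have := K.bn; omega
          · intro hh
            have := K.Ln _ hh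
            omega
        simp [rv, ev_apply, v1, v2, this]
    · have e1 : M r ∩ ((Clu.k2 a b L).edges ∪ {s(y, r)}) = ks a b (nA L a (M r)) (nA L b (M r)) := by
        rw [ks_nA, Finset.inter_union_distrib_left, Finset.inter_singleton_of_notMem hm, Finset.union_empty]
      rw [e1, K.dv_ks g] at h4
      refine ⟨1, 1, le_rfl, by norm_num, ?_⟩
      convert h4 using 1
      simp [rv]

end

end Pool.Agent.PF4.XF
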