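import Pool.Agent.PF4.XRes
import Pool.Agent.PF4.XOW
import Pool.Agent.TFC.Clus

/-!
The clusters of a minimal blocking family.
-/

set_option autoImplicit false

namespace Pool.Agent.PF4.XF

open Finset Pool.Agent.TFC Pool.Agent.PF4

/-- edges of a `K4` cluster -/
theorem mem_k4 {X : Finset ℕ} {a b : ℕ} : s(a, b) ∈ (Clu.k4 X).edges ↔ a ∈ X ∧ b ∈ X ∧ a ≠ b :=
  R4_mem_edges

/-- edges of a `K2` cluster -/
theorem mem_k2 {u v : ℕ} {L : Finset ℕ} {a b : ℕ} : s(a, b) ∈ (Clu.k2 u v L).edges ↔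
    ((a = u ∨ a = v) ∧ b ∈ L) ∨ ((b = u ∨ b = v) ∧ a ∈ L) := by
  simp only [Clu.edges, mem_union, mem_image, Sym2.eq_iff]
  constructor
  · rintro (⟨l, hl, (⟨rfl, rfl⟩ | ⟨rfl, rfl⟩)⟩ | ⟨l, hl, (⟨rfl, rfl⟩ | ⟨rfl, rfl⟩)⟩)
    · exact Or.inl ⟨Or.inl rfl, hl⟩
    · exact Or.inr ⟨Or.inl rfl, hl⟩
    · exact Or.inl ⟨Or.inr rfl, hl⟩
    · exact Or.inr ⟨Or.inr rfl, hl⟩
  · rintro (⟨rfl | rfl, h⟩ | ⟨rfl | rfl, h⟩)
    · exact Or.inl ⟨b, h, Or.inl ⟨rfl, rfl⟩⟩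
    · exact Or.inr ⟨b, h, Or.inl ⟨rfl, rfl⟩⟩
    · exact Or.inl ⟨a, h, Or.inr ⟨rfl, rfl⟩⟩
    · exact Or.inr ⟨a, h, Or.inr ⟨rfl, rfl⟩⟩

theorem valid_nonempty {c : Clu ℕ} (h : c.Valid) : ∃ e, e ∈ c.edges := by
  cases c with
  | k4 X =>
    have h4 : #X = 4 := h
    obtain ⟨a, ha, b, hb, hab⟩ := one_lt_card.1 (by omega : 1 < #X)
    exact ⟨s(a, b), mem_k4.2 ⟨ha, hb, hab⟩⟩
  | k2 u v L =>
    obtain ⟨_, _, _, h4⟩ : u ≠ v ∧ u ∉ L ∧ v ∉ L ∧ 2 ≤ #L := h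
    obtain ⟨a, ha⟩ := card_pos.1 (by omega : 0 < #L)
    exact ⟨s(u, a), mem_k2.2 (Or.inl ⟨Or.inl rfl, ha⟩)⟩

/-- a square in a cluster: the shape of the cluster -/
theorem shape {c : Clu ℕ} (hc : c.Valid) {x y q p : ℕ} (h4 : Dist4 x y q p)
    (hs : TFC.sq x y q p ⊆ c.edges) :
    c = Clu.k4 {x, y, q, p} ∨
    (∃ L, (c = Clu.k2 x q L ∨ c = Clu.k2 q x L) ∧ y ∈ L ∧ p ∈ L ∧ x ∉ L ∧ q ∉ L) ∨
    (∃ L, (c = Clu.k2 y p L ∨ c = Clu.k2 p y L) ∧ x ∈ L ∧ q ∈ L ∧ y ∉ L ∧ p ∉ L) := by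
  obtain ⟨xy, xq, xp, yq, yp, qp⟩ := h4
  have e1 : s(x, y) ∈ c.edges := hs (by simp [TFC.sq])
  have e2 : s(y, q) ∈ c.edges := hs (by simp [TFC.sq])
  have e3 : s(q, p) ∈ c.edges := hs (by simp [TFC.sq])
  have e4 : s(p, x) ∈ c.edges := hs (by simp [TFC.sq])
  cases c with
  | k4 X =>
    left
    rw [mem_k4] at e1 e3
    have h4 : #X = 4 := hc
    have h1 : ({x, y, q, p} : Finset ℕ) ⊆ X := by
      intro v hv
      simp only [mem_insert, mem_singleton] at hv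
      rcases hv with rfl | rfl | rfl | rfl
      · exact e1.1
      · exact e1.2.1
      · exact e3.1
      · exact e3.2.1
    have h2 : #({x, y, q, p} : Finset ℕ) = 4 := by
      rw [card_insert_of_notMem (by simp [xy, xq, xp]), card_insert_of_notMem (by simp [yq, yp]),
        card_insert_of_notMem (by simp [qp]), card_singleton]
    rw [eq_of_subset_of_card_le h1 (by rw [h4, h2])]
  | k2 u v L =>
    right
    obtain ⟨uv, uL, vL, _⟩ : u ≠ v ∧ u ∉ L ∧ v ∉ L ∧ 2 ≤ #L := hc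
    rw [mem_k2] at e1 e2 e3 e4
    have cl : ∀ a, (a = u ∨ a = v) → a ∉ L := by
      rintro a (rfl | rfl)
      · exact uL
      · exact vL
    rcases e1 with ⟨hx, hy⟩ | ⟨hy, hx⟩
    · left
      have hq : q = u ∨ q = v := by
        rcases e2 with ⟨h, _⟩ | ⟨h, _⟩
        · exact absurd hy (cl y h)
        · exact h
      have hp : p ∈ L := by
        rcases e3 with ⟨_, h⟩ | ⟨_, h⟩
        · exact h
        · exact absurd h (cl q hq)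
      refine ⟨L, ?_, hy, hp, cl x hx, cl q hq⟩
      rcases hx with rfl | rfl <;> rcases hq with rfl | rfl
      · exact absurd rfl xq
      · exact Or.inl rfl
      · exact Or.inr rfl
      · exact absurd rfl xq
    · right
      have hp : p = u ∨ p = v := by
        rcases e4 with ⟨h, _⟩ | ⟨h, _⟩
        · exact h
        · exact absurd hx (cl x h)
      have hq : q ∈ L := by
        rcases e3 with ⟨_, h⟩ | ⟨_, h⟩
        · exact absurd h (cl p hp)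
        · exact h
      refine ⟨L, ?_, hx, hq, cl y hy, cl p hp⟩
      rcases hy with rfl | rfl <;> rcases hp with rfl | rfl
      · exact absurd rfl yp
      · exact Or.inl rfl
      · exact Or.inr rfl
      · exact absurd rfl yp

/-- the clusters of a family of squares -/
structure Cls (D : Finset (Finset (Sym2 ℕ))) (CL : List (Clu ℕ)) : Prop where
  val : ∀ c ∈ CL, c.Valid
  dj : CL.Pairwise fun c c' => Disjoint c.edges c'.edges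
  sub : ∀ c ∈ CL, c.edges ⊆ D.biUnion id
  cov : ∀ Z ∈ D, ∃ c ∈ CL, Z ⊆ c.edges

/-- **the clusters of a minimal blocking family** -/
theorem cls_of {X : XD} {P : ℕ → Finset (Sym2 ℕ) → Prop} {D : Finset (Finset (Sym2 ℕ))} {j m : ℕ}
    (hX : X.OK) (hP : XP X P) (hD : Blk X P D j m) (hm : 10 ≤ m) : ∃ CL, Cls D CL := by
  obtain ⟨C, h1, h2, h3, h4⟩ := TFC.clusters D (fun Z hZ => (hD.hs Z hZ).1.isSq) (res hX hP hD hm)
  exact ⟨C, h1, h2, h3, h4⟩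

/-- the edges of several clusters -/
def Ucl : List (Clu ℕ) → Finset (Sym2 ℕ)
  | [] => ∅
  | c :: S => c.edges ∪ Ucl S

theorem mem_Ucl {e : Sym2 ℕ} : ∀ {S : List (Clu ℕ)}, e ∈ Ucl S ↔ ∃ c ∈ S, e ∈ c.edges
  | [] => by simp [Ucl]
  | c :: S => by
    rw [Ucl, mem_union, mem_Ucl]
    simp

section
variable {D : Finset (Finset (Sym2 ℕ))} {CL : List (Clu ℕ)}

/-- clusters with a common edge are equal -/
theorem Cls.eq (h : Cls D CL) {c c' : Clu ℕ} (hc : c ∈ CL) (hc' : c' ∈ CL) {e : Sym2 ℕ}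
    (he : e ∈ c.edges) (he' : e ∈ c'.edges) : c = c' := by
  by_contra hne
  have : Std.Symm (fun c c' : Clu ℕ => Disjoint c.edges c'.edges) := ⟨fun _ _ h => h.symm⟩
  have h1 := h.dj.forall hc hc' hne
  exact Finset.disjoint_left.1 h1 he he'

/-- a square of the family and a cluster -/
theorem Cls.whole (h : Cls D CL) {c : Clu ℕ} (hc : c ∈ CL) {Z : Finset (Sym2 ℕ)} (hZ : Z ∈ D) :
    Z ⊆ c.edges ∨ Disjoint Z c.edges := by
  obtain ⟨c', hc', hs⟩ := h.cov Z hZ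
  by_cases he : c = c'
  · subst he; exact Or.inl hs
  · right
    rw [Finset.disjoint_left]
    intro e h1 h2
    exact he (h.eq hc hc' h2 (hs h1))

/-- a square of the family and a union of clusters -/
theorem Cls.wholeU (h : Cls D CL) {S : List (Clu ℕ)} (hS : ∀ c ∈ S, c ∈ CL) {Z : Finset (Sym2 ℕ)} (hZ : Z ∈ D) :
    Z ⊆ Ucl S ∨ Disjoint Z (Ucl S) := by
  obtain ⟨c', hc', hs⟩ := h.cov Z hZ
  by_cases he : c' ∈ S
  · left
    intro e h1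
    exact mem_Ucl.2 ⟨c', he, hs h1⟩
  · right
    rw [Finset.disjoint_left]
    intro e h1 h2
    obtain ⟨c, hc, h3⟩ := mem_Ucl.1 h2
    have := h.eq (hS c hc) hc' h3 (hs h1)
    subst this
    exact he hc

/-- an edge is in a cluster iff it is in a square of the family -/
theorem Cls.edge (h : Cls D CL) {e : Sym2 ℕ} : (∃ c ∈ CL, e ∈ c.edges) ↔ ∃ Z ∈ D, e ∈ Z := by
  constructor
  · rintro ⟨c, hc, he⟩
    have := h.sub c hc he
    rw [mem_biUnion] at this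
    exact this
  · rintro ⟨Z, hZ, he⟩
    obtain ⟨c, hc, hs⟩ := h.cov Z hZ
    exact ⟨c, hc, hs he⟩

/-- every edge of a cluster lies in a square of the family inside the cluster -/
theorem Cls.edge_sq (h : Cls D CL) {c : Clu ℕ} (hc : c ∈ CL) {f : Sym2 ℕ} (hf : f ∈ c.edges) :
    ∃ Z ∈ D, f ∈ Z ∧ Z ⊆ c.edges := by
  obtain ⟨Z, hZ, hfZ⟩ := h.edge.1 ⟨c, hc, hf⟩
  refine ⟨Z, hZ, hfZ, (h.whole hc hZ).resolve_right fun hd => ?_⟩
  exact Finset.disjoint_left.1 hd hfZ hf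

/-- two vertices of a cluster: all edges of the cluster have an end which is the first vertex or adjacent to it -/
theorem near_edge {c : Clu ℕ} (hc : c.Valid) {e f : Sym2 ℕ} (he : e ∈ c.edges) {a : ℕ} (ha : a ∈ e)
    (hf : f ∈ c.edges) : ∃ w ∈ f, w = a ∨ s(a, w) ∈ c.edges := by
  obtain ⟨b, rfl⟩ := ha
  induction f using Sym2.ind with
  | _ u v =>
  cases c with
  | k4 X =>
    rw [mem_k4] at he hf
    by_cases h : u = a
    · exact ⟨u, by simp, Or.inl h⟩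
    · exact ⟨u, by simp, Or.inr (mem_k4.2 ⟨he.1, hf.1, fun h' => h h'.symm⟩)⟩
  | k2 x y L =>
    obtain ⟨xy, xL, yL, _⟩ : x ≠ y ∧ x ∉ L ∧ y ∉ L ∧ 2 ≤ #L := hc
    rw [mem_k2] at he hf
    rcases he with ⟨ha, hb⟩ | ⟨hb, ha⟩
    · -- `a` is a centre
      rcases hf with ⟨_, hv⟩ | ⟨_, hu⟩
      · exact ⟨v, by simp, Or.inr (mem_k2.2 (Or.inl ⟨ha, hv⟩))⟩
      · exact ⟨u, by simp, Or.inr (mem_k2.2 (Or.inl ⟨ha, hu⟩))⟩
    · -- `a` is a leaf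
      rcases hf with ⟨hu, _⟩ | ⟨hv, _⟩
      · exact ⟨u, by simp, Or.inr (mem_k2.2 (Or.inr ⟨hu, ha⟩))⟩
      · exact ⟨v, by simp, Or.inr (mem_k2.2 (Or.inr ⟨hv, ha⟩))⟩

theorem Rch.mono {E : Finset (Sym2 ℕ)} {S : Finset ℕ} {r s : ℕ} (h : r ≤ s) {v : ℕ} (hv : Rch E S r v) :
    Rch E S s v := by
  induction s, h using Nat.le_induction with
  | base => exact hv
  | succ s _ ih => exact Or.inl ih

theorem Rch.step {E : Finset (Sym2 ℕ)} {S : Finset ℕ} {r : ℕ} {u v : ℕ} (hu : Rch E S r u) (h : s(u, v) ∈ E) :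
    Rch E S (r + 1) v := Or.inr ⟨u, hu, h⟩

end

section
variable {X : XD} {P : ℕ → Finset (Sym2 ℕ) → Prop} {D : Finset (Finset (Sym2 ℕ))} {j m : ℕ} {S : Finset ℕ}
  {M : ℕ → Finset (Sym2 ℕ)} {CL : List (Clu ℕ)}

theorem OW.ten (h : OW X P D j m S M) : 10 ≤ m :=
  le_trans (by norm_num) (le_trans (Nat.le_add_left 20 _) h.mb)

/-- two squares of the family do not share exactly one edge -/
theorem OW.res (h : OW X P D j m S M) : ∀ Z ∈ D, ∀ Z' ∈ D, Z ≠ Z' → #(Z ∩ Z') ≠ 1 :=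
  XF.res h.ok h.xp h.blk (h.ten)

/-- the clusters -/
theorem OW.cls (h : OW X P D j m S M) : ∃ CL, Cls D CL :=
  cls_of h.ok h.xp h.blk (h.ten)

theorem OW.sqE (h : OW X P D j m S M) {Z : Finset (Sym2 ℕ)} (hZ : Z ∈ D) : Z ⊆ X.E :=
  (h.blk.hs Z hZ).2.trans h.ok.e2

theorem OW.isq (h : OW X P D j m S M) {Z : Finset (Sym2 ℕ)} (hZ : Z ∈ D) : IsSq Z :=
  (h.blk.hs Z hZ).1.isSq

theorem OW.clE (h : OW X P D j m S M) (hc : Cls D CL) {c : Clu ℕ} (hcC : c ∈ CL) : c.edges ⊆ X.E := by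
  intro f hf
  have := hc.sub c hcC hf
  rw [mem_biUnion] at this
  obtain ⟨Z, hZ, hfZ⟩ := this
  exact h.sqE hZ hfZ

/-- a cluster with a vertex near `S` is in `En` -/
theorem OW.near (h : OW X P D j m S M) (hc : Cls D CL) {c : Clu ℕ} (hcC : c ∈ CL) {e : Sym2 ℕ}
    (he : e ∈ c.edges) {a : ℕ} (ha : a ∈ e) (haS : Rch X.E S 3 a) : c.edges ⊆ X.En := by
  have hcE := h.clE hc hcC
  intro f hf
  obtain ⟨w, hw, h1⟩ := near_edge (hc.val c hcC) he ha hf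
  refine h.rch w ?_ f (hcE hf) hw
  rcases h1 with rfl | h1
  · exact haS.mono (by omega)
  · exact haS.step (hcE h1)

/-- an edge at `S` -/
theorem OW.edgeS (h : OW X P D j m S M) {e : Sym2 ℕ} (he : e ∈ X.E) {a : ℕ} (ha : a ∈ e) (haS : a ∈ S) :
    e ∈ X.En :=
  h.rch a (Rch.mono (r := 0) (Nat.zero_le 4) haS) e he ha

/-- **an edge of `E` at a vertex of `S`**: it is in a cluster, which is in `En`, or in no square of `D` -/
theorem OW.edge_cases (h : OW X P D j m S M) (hc : Cls D CL) {e : Sym2 ℕ} {a : ℕ} (ha : a ∈ e) (haS : a ∈ S) :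
    (∃ c ∈ CL, e ∈ c.edges ∧ c.edges ⊆ X.En) ∨ ∀ Z ∈ D, e ∉ Z := by
  by_cases h1 : ∃ Z ∈ D, e ∈ Z
  · obtain ⟨c, hcC, hec⟩ := hc.edge.2 h1
    exact Or.inl ⟨c, hcC, hec, h.near hc hcC hec ha (Rch.mono (r := 0) (Nat.zero_le 3) haS)⟩
  · push Not at h1
    exact Or.inr h1

/-- **the cluster of a square of `D` with a vertex in `S`** -/
theorem OW.cluster (h : OW X P D j m S M) (hc : Cls D CL) {Z : Finset (Sym2 ℕ)} (hZ : Z ∈ D) {e : Sym2 ℕ}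
    (he : e ∈ Z) {a : ℕ} (ha : a ∈ e) (haS : a ∈ S) :
    ∃ c ∈ CL, Z ⊆ c.edges ∧ c.edges ⊆ X.En ∧ c.Valid := by
  obtain ⟨c, hcC, hs⟩ := hc.cov Z hZ
  exact ⟨c, hcC, hs, h.near hc hcC (hs he) ha (Rch.mono (r := 0) (Nat.zero_le 3) haS), hc.val c hcC⟩

/-- **the cluster of a square of `D`, all in one** -/
theorem OW.clq (h : OW X P D j m S M) {Z : Finset (Sym2 ℕ)} (hZ : Z ∈ D) {e : Sym2 ℕ} (he : e ∈ Z) {a : ℕ}
    (ha : a ∈ e) (haS : a ∈ S) :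
    ∃ c : Clu ℕ, c.Valid ∧ Z ⊆ c.edges ∧ c.edges ⊆ X.En ∧ (∀ Z' ∈ D, Z' ⊆ c.edges ∨ Disjoint Z' c.edges) ∧
      ∀ f ∈ c.edges, ∃ Z' ∈ D, f ∈ Z' ∧ Z' ⊆ c.edges := by
  obtain ⟨CL, hc⟩ := h.cls
  obtain ⟨c, hcC, h1, h2, h3⟩ := h.cluster hc hZ he ha haS
  exact ⟨c, h3, h1, h2, fun Z' hZ' => hc.whole hcC hZ', fun f hf => hc.edge_sq hcC hf⟩

/-- the witness of a square of `D`: a cover in the pool, whose only square of `D` is `Z` -/
theorem OW.wit (h : OW X P D j m S M) {Z : Finset (Sym2 ℕ)} (hZ : Z ∈ D) :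
    ∃ L, P j L ∧ Cv X L ∧ M2 L ∧ L ⊆ X.E ∧ Z ⊆ L ∧ ∀ Z' ∈ D, Z' ⊆ L → Z' = Z := by
  obtain ⟨L, h1, h2, h3, h4⟩ := h.blk.wit Z hZ
  exact ⟨L, h1, h2, (h.xp.m2 _ _ h1).1, (h.xp.m2 _ _ h1).2, h3, h4⟩

/-- **the world at a union of clusters**, with the vectors of the witnesses of all squares in it -/
theorem OW.world' (h : OW X P D j m S M) (hc : Cls D CL) {U : List (Clu ℕ)} (hU : ∀ c ∈ U, c ∈ CL)
    (hUn : ∀ c ∈ U, c.edges ⊆ X.En) {ER PL : Finset (Sym2 ℕ)} (hER : ER ⊆ X.En)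
    (hPL : ∀ e ∈ PL, ∀ Z ∈ D, e ∉ Z) :
    ∃ J : (ℕ → ℤ) → Prop, WJ X.n X.T X.V2 (Ucl U) ER PL (D.filter fun Z => Z ⊆ Ucl U) J ∧
      (∀ L Z, Z ∈ D → P j L → Cv X L → (∀ Z' ∈ D, Z' ⊆ L → Z' = Z) → ¬ Disjoint Z (Ucl U ∪ ER) →
        J (dv (L ∩ (Ucl U ∪ ER)))) ∧
      (∀ w ∈ S, w ∈ X.T → J (dv (M w ∩ (Ucl U ∪ ER)) + ev w + ev X.n)) := by
  obtain ⟨J, h1, h2, h3⟩ := h.world (C := Ucl U) (ER := ER) (PL := PL) (fun Z hZ => hc.wholeU hU hZ)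
    (by
      intro e he
      obtain ⟨c, hcU, hec⟩ := mem_Ucl.1 he
      exact hUn c hcU hec) hER hPL
  refine ⟨J, h1, ?_, h3⟩
  intro L Z hZ hL hcv hu hd
  refine h2 L hL hcv fun Z' hZ' hs => ?_
  rw [hu Z' hZ' hs]
  exact hd

end

end Pool.Agent.PF4.XF
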