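import Pool.Agent.PF4.XOW

/-!
The theorem on two conflicting squares: the statements of the pattern theorems (`Pat`) and the case split
`Pat → XfStatement`.

NOTATION (six vertices): the common edge is `x y`; `Q = sq x y q p` (edges `xy, yq, qp, px`) is in `D₁`,
`R = sq x y r s` (edges `xy, yr, rs, sx`) is in `D₂`. So `y` is adjacent to `q` (in `Q`) and to `r` (in `R`),
`x` is adjacent to `p` (in `Q`) and to `s` (in `R`).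
Five vertices: `Q = sq x y q p` (edges `xy, yq, qp, px`), `R = sq x y r q` (edges `xy, yr, rq, qx`).
-/

set_option autoImplicit false

namespace Pool.Agent.PF4.XF

open Finset Pool.Agent.TFC Pool.Agent.PF4

/-- a pattern theorem for six vertices; `c T x y q p r s` is the assumption on the demands -/
def Pt6 (c : Finset ℕ → ℕ → ℕ → ℕ → ℕ → ℕ → ℕ → Prop) : Prop :=
  ∀ (X₁ X₂ : XD) (P₁ P₂ : ℕ → Finset (Sym2 ℕ) → Prop) (D₁ D₂ : Finset (Finset (Sym2 ℕ))) (j₁ m₁ j₂ m₂ : ℕ)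
    (S : Finset ℕ) (M : ℕ → Finset (Sym2 ℕ)),
    OW X₁ P₁ D₁ j₁ m₁ S M → OW X₂ P₂ D₂ j₂ m₂ S M → X₁.n = X₂.n → X₁.T = X₂.T →
    ∀ x y q p r s : ℕ, [x, y, q, p, r, s].Nodup → x ∈ S → y ∈ S → q ∈ S → p ∈ S → r ∈ S → s ∈ S →
      sq x y q p ∈ D₁ → sq x y r s ∈ D₂ → sq x y r s ⊆ X₁.E → sq x y q p ⊆ X₂.E →
      c X₁.T x y q p r s → False

/-- the pattern theorem for five vertices -/
def Pt5 : Prop :=
  ∀ (X₁ X₂ : XD) (P₁ P₂ : ℕ → Finset (Sym2 ℕ) → Prop) (D₁ D₂ : Finset (Finset (Sym2 ℕ))) (j₁ m₁ j₂ m₂ : ℕ)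
    (S : Finset ℕ) (M : ℕ → Finset (Sym2 ℕ)),
    OW X₁ P₁ D₁ j₁ m₁ S M → OW X₂ P₂ D₂ j₂ m₂ S M → X₁.n = X₂.n → X₁.T = X₂.T →
    ∀ x y q p r : ℕ, [x, y, q, p, r].Nodup → x ∈ S → y ∈ S → q ∈ S → p ∈ S → r ∈ S →
      sq x y q p ∈ D₁ → sq x y r q ∈ D₂ → sq x y r q ⊆ X₁.E → sq x y q p ⊆ X₂.E → False

/-- the pattern theorems -/
structure Pat : Prop where
  /-- (8.1) a free common vertex -/
  p1 : Pt6 fun T _ y _ _ _ _ => y ∉ T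
  /-- (8.2) two free corners, both adjacent to `x` -/
  p2 : Pt6 fun T x y q p r s => x ∈ T ∧ y ∈ T ∧ q ∈ T ∧ r ∈ T ∧ p ∉ T ∧ s ∉ T
  /-- (8.3) two free corners, `p` adjacent to `x`, `r` adjacent to `y` -/
  p3 : Pt6 fun T x y q p r s => x ∈ T ∧ y ∈ T ∧ q ∈ T ∧ s ∈ T ∧ p ∉ T ∧ r ∉ T
  /-- all corners of `R` have demand 2 -/
  p4 : Pt6 fun T x y _ _ r s => x ∈ T ∧ y ∈ T ∧ r ∈ T ∧ s ∈ T
  /-- five vertices -/
  p5 : Pt5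

theorem sq_ref (x y q p : ℕ) : sq x y q p = sq y x p q := by
  ext e; simp only [TFC.sq, mem_insert, mem_singleton]
  rw [Sym2.eq_swap (a := y) (b := x), Sym2.eq_swap (a := x) (b := p), Sym2.eq_swap (a := p) (b := q),
    Sym2.eq_swap (a := q) (b := y)]
  tauto

theorem sq_rot (x y q p : ℕ) : sq x y q p = sq y q p x := by
  ext e; simp only [TFC.sq, mem_insert, mem_singleton]; tauto

theorem d4rot {x y q p : ℕ} (h : Dist4 x y q p) : Dist4 y q p x := by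
  obtain ⟨h1, h2, h3, h4, h5, h6⟩ := h
  exact ⟨h4, h5, h1.symm, h6, h2.symm, h3.symm⟩

theorem d4ref {x y q p : ℕ} (h : Dist4 x y q p) : Dist4 y x p q := by
  obtain ⟨h1, h2, h3, h4, h5, h6⟩ := h
  exact ⟨h1.symm, h5, h4, h3, h2, h6.symm⟩

theorem fs_rot (a b c d : ℕ) : ({a, b, c, d} : Finset ℕ) = {b, c, d, a} := by
  ext v; simp only [mem_insert, mem_singleton]; tauto

theorem fs_ref (a b c d : ℕ) : ({a, b, c, d} : Finset ℕ) = {b, a, d, c} := by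
  ext v; simp only [mem_insert, mem_singleton]; tauto

/-- a square, read from one of its edges -/
theorem sq_at {a b c d : ℕ} (h : Dist4 a b c d) {e : Sym2 ℕ} (he : e ∈ sq a b c d) :
    ∃ x y q p, Dist4 x y q p ∧ e = s(x, y) ∧ sq a b c d = sq x y q p ∧
      ({a, b, c, d} : Finset ℕ) = {x, y, q, p} := by
  simp only [TFC.sq, mem_insert, mem_singleton] at he
  rcases he with rfl | rfl | rfl | rfl
  · exact ⟨a, b, c, d, h, rfl, rfl, rfl⟩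
  · exact ⟨b, c, d, a, d4rot h, rfl, sq_rot .., fs_rot ..⟩
  · exact ⟨c, d, a, b, d4rot (d4rot h), rfl, by rw [sq_rot, sq_rot], by rw [fs_rot, fs_rot]⟩
  · exact ⟨d, a, b, c, d4rot (d4rot (d4rot h)), rfl, by rw [sq_rot, sq_rot, sq_rot],
      by rw [fs_rot, fs_rot, fs_rot]⟩

theorem sq_at' {a b c d : ℕ} (h : Dist4 a b c d) {x y : ℕ} (he : s(x, y) ∈ sq a b c d) :
    ∃ r s, Dist4 x y r s ∧ sq a b c d = sq x y r s ∧ ({a, b, c, d} : Finset ℕ) = {x, y, r, s} := by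
  obtain ⟨x', y', q, p, h1, h2, h3, h4⟩ := sq_at h he
  rw [Sym2.eq_iff] at h2
  rcases h2 with ⟨rfl, rfl⟩ | ⟨rfl, rfl⟩
  · exact ⟨q, p, h1, h3, h4⟩
  · exact ⟨p, q, d4ref h1, by rw [h3, sq_ref], by rw [h4, fs_ref]⟩

/-- **normal form** of two squares with exactly one common edge -/
theorem normal_form {Q R : Sq4} (hQ : SqOK Q) (hR : SqOK R) (h : #(sqs Q ∩ sqs R) = 1) :
    (∃ x y q p r s, [x, y, q, p, r, s].Nodup ∧ sqs Q = sq x y q p ∧ sqs R = sq x y r s ∧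
      cr Q = {x, y, q, p} ∧ cr R = {x, y, r, s}) ∨
    (∃ x y q p r, [x, y, q, p, r].Nodup ∧ sqs Q = sq x y q p ∧ sqs R = sq x y r q ∧
      cr Q = {x, y, q, p} ∧ cr R = {x, y, r, q}) := by
  obtain ⟨e, he⟩ := card_eq_one.1 h
  have hu : ∀ f, f ∈ sqs Q → f ∈ sqs R → f = e := fun f h1 h2 => by
    have : f ∈ sqs Q ∩ sqs R := mem_inter.2 ⟨h1, h2⟩
    rw [he] at this; exact mem_singleton.1 this
  have hm : e ∈ sqs Q ∩ sqs R := by rw [he]; exact mem_singleton_self e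
  obtain ⟨hm1, hm2⟩ := mem_inter.1 hm
  obtain ⟨x, y, q, p, d1, rfl, e1, c1⟩ := sq_at hQ hm1
  obtain ⟨r, s, d2, e2, c2⟩ := sq_at' hR hm2
  have e1' : sqs Q = sq x y q p := e1
  have e2' : sqs R = sq x y r s := e2
  rw [e1', e2'] at hu
  obtain ⟨a1, a2, a3, a4, a5, a6⟩ := d1
  obtain ⟨-, b2, b3, b4, b5, b6⟩ := d2
  have hqr : q ≠ r := by
    rintro rfl
    have := hu s(y, q) (by simp [TFC.sq]) (by simp [TFC.sq])
    rw [Sym2.eq_iff] at this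
    rcases this with ⟨h1, h2⟩ | ⟨h1, h2⟩
    · exact a1 h1.symm
    · exact a2 h2.symm
  have hps : p ≠ s := by
    rintro rfl
    have := hu s(p, x) (by simp [TFC.sq]) (by simp [TFC.sq])
    rw [Sym2.eq_iff] at this
    rcases this with ⟨h1, h2⟩ | ⟨h1, h2⟩
    · exact a3 h1.symm
    · exact a5 h1.symm
  by_cases hqs : q = s
  · right
    subst hqs
    have hpr : p ≠ r := by
      rintro rfl
      have := hu s(q, p) (by simp [TFC.sq]) (by simp [TFC.sq])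
      rw [Sym2.eq_iff] at this
      rcases this with ⟨h1, h2⟩ | ⟨h1, h2⟩
      · exact a2 h1.symm
      · exact a4 h1.symm
    refine ⟨x, y, q, p, r, ?_, e1', e2', c1, c2⟩
    simp only [List.nodup_cons, List.mem_cons, List.not_mem_nil, or_false, not_or, List.nodup_nil, and_true,
      not_false_eq_true]
    exact ⟨⟨a1, a2, a3, b2⟩, ⟨a4, a5, b4⟩, ⟨a6, hqr⟩, hpr⟩
  · by_cases hpr : p = r
    · right
      subst hpr
      refine ⟨y, x, p, q, s, ?_, by rw [e1', sq_ref], by rw [e2', sq_ref], ?_, ?_⟩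
      · simp only [List.nodup_cons, List.mem_cons, List.not_mem_nil, or_false, not_or, List.nodup_nil, and_true,
          not_false_eq_true]
        exact ⟨⟨a1.symm, a5, a4, b5⟩, ⟨a3, a2, b3⟩, ⟨a6.symm, hps⟩, hqs⟩
      · rw [show cr Q = _ from c1, fs_ref]
      · rw [show cr R = _ from c2, fs_ref]
    · left
      refine ⟨x, y, q, p, r, s, ?_, e1', e2', c1, c2⟩
      simp only [List.nodup_cons, List.mem_cons, List.not_mem_nil, or_false, not_or, List.nodup_nil, and_true,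
        not_false_eq_true]
      exact ⟨⟨a1, a2, a3, b2, b3⟩, ⟨a4, a5, b4, b5⟩, ⟨a6, hqr, hqs⟩, ⟨hpr, hps⟩, b6⟩

/-- opposite corners of a square -/
theorem opp_eq {x y q p c d : ℕ} (hd : Dist4 x y q p) (h4 : Dist4 x y c d) (he : sq x y q p = sq x y c d) :
    c = q ∧ d = p := by
  obtain ⟨d1, d2, d3, d4, d5, d6⟩ := hd
  obtain ⟨g1, g2, g3, g4, g5, g6⟩ := h4
  have h1 : s(y, c) ∈ sq x y q p := by rw [he]; simp [TFC.sq]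
  have h2 : s(d, x) ∈ sq x y q p := by rw [he]; simp [TFC.sq]
  simp only [TFC.sq, mem_insert, mem_singleton, Sym2.eq_iff] at h1 h2
  constructor
  · omega
  · omega

/-- harmful squares: a pair of opposite corners in `T` -/
theorem hs_opp {T : Finset ℕ} {x y q p : ℕ} (hd : Dist4 x y q p) (h : Hs T (sq x y q p)) :
    (x ∈ T ∧ q ∈ T) ∨ (y ∈ T ∧ p ∈ T) := by
  obtain ⟨a, b, c, d, h4, he, ha, hc⟩ := h
  have hab : s(a, b) ∈ sq x y q p := by rw [he]; simp [TFC.sq]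
  simp only [TFC.sq, mem_insert, mem_singleton, Sym2.eq_iff] at hab
  rcases hab with (⟨rfl, rfl⟩ | ⟨rfl, rfl⟩) | (⟨rfl, rfl⟩ | ⟨rfl, rfl⟩) | (⟨rfl, rfl⟩ | ⟨rfl, rfl⟩) |
      (⟨rfl, rfl⟩ | ⟨rfl, rfl⟩)
  · obtain ⟨rfl, rfl⟩ := opp_eq hd h4 he
    exact Or.inl ⟨ha, hc⟩
  · rw [sq_ref] at he
    obtain ⟨rfl, rfl⟩ := opp_eq (d4ref hd) h4 he
    exact Or.inr ⟨ha, hc⟩
  · rw [sq_rot] at he
    obtain ⟨rfl, rfl⟩ := opp_eq (d4rot hd) h4 he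
    exact Or.inr ⟨ha, hc⟩
  · rw [sq_rot, sq_ref] at he
    obtain ⟨rfl, rfl⟩ := opp_eq (d4ref (d4rot hd)) h4 he
    exact Or.inl ⟨hc, ha⟩
  · rw [sq_rot, sq_rot] at he
    obtain ⟨rfl, rfl⟩ := opp_eq (d4rot (d4rot hd)) h4 he
    exact Or.inl ⟨hc, ha⟩
  · rw [sq_rot, sq_rot, sq_ref] at he
    obtain ⟨rfl, rfl⟩ := opp_eq (d4ref (d4rot (d4rot hd))) h4 he
    exact Or.inr ⟨hc, ha⟩
  · rw [sq_rot, sq_rot, sq_rot] at he
    obtain ⟨rfl, rfl⟩ := opp_eq (d4rot (d4rot (d4rot hd))) h4 he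
    exact Or.inr ⟨hc, ha⟩
  · rw [sq_rot, sq_rot, sq_rot, sq_ref] at he
    obtain ⟨rfl, rfl⟩ := opp_eq (d4ref (d4rot (d4rot (d4rot hd)))) h4 he
    exact Or.inl ⟨ha, hc⟩

theorem sq_mem {x y q p : ℕ} {Q R : Sq4} (h : cr Q = {x, y, q, p}) : x ∈ cr Q ∪ cr R ∧ y ∈ cr Q ∪ cr R ∧
    q ∈ cr Q ∪ cr R ∧ p ∈ cr Q ∪ cr R := by
  rw [h]; simp

theorem sq_mem' {x y q p : ℕ} {Q R : Sq4} (h : cr R = {x, y, q, p}) : x ∈ cr Q ∪ cr R ∧ y ∈ cr Q ∪ cr R ∧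
    q ∈ cr Q ∪ cr R ∧ p ∈ cr Q ∪ cr R := by
  rw [h]; simp

theorem nodup6 {x y q p r s : ℕ} : [x, y, q, p, r, s].Nodup ↔ (x ≠ y ∧ x ≠ q ∧ x ≠ p ∧ x ≠ r ∧ x ≠ s) ∧
    (y ≠ q ∧ y ≠ p ∧ y ≠ r ∧ y ≠ s) ∧ (q ≠ p ∧ q ≠ r ∧ q ≠ s) ∧ (p ≠ r ∧ p ≠ s) ∧ r ≠ s := by
  simp only [List.nodup_cons, List.mem_cons, List.not_mem_nil, or_false, not_or, List.nodup_nil, and_true,
    not_false_eq_true, ne_eq]

theorem nodup5 {x y q p r : ℕ} : [x, y, q, p, r].Nodup ↔ (x ≠ y ∧ x ≠ q ∧ x ≠ p ∧ x ≠ r) ∧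
    (y ≠ q ∧ y ≠ p ∧ y ≠ r) ∧ (q ≠ p ∧ q ≠ r) ∧ p ≠ r := by
  simp only [List.nodup_cons, List.mem_cons, List.not_mem_nil, or_false, not_or, List.nodup_nil, and_true,
    not_false_eq_true, ne_eq]

/-- exchange of the two sides -/
theorem nd_side {x y q p r s : ℕ} (h : [x, y, q, p, r, s].Nodup) : [y, x, p, q, s, r].Nodup := by
  rw [nodup6] at h ⊢
  obtain ⟨⟨a1, a2, a3, a4, a5⟩, ⟨b1, b2, b3, b4⟩, ⟨c1, c2, c3⟩, ⟨d1, d2⟩, e1⟩ := h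
  exact ⟨⟨a1.symm, b2, b1, b4, b3⟩, ⟨a3, a2, a5, a4⟩, ⟨c1.symm, d2, d1⟩, ⟨c3, c2⟩, e1.symm⟩

/-- exchange of the two worlds -/
theorem nd_world {x y q p r s : ℕ} (h : [x, y, q, p, r, s].Nodup) : [x, y, r, s, q, p].Nodup := by
  rw [nodup6] at h ⊢
  obtain ⟨⟨a1, a2, a3, a4, a5⟩, ⟨b1, b2, b3, b4⟩, ⟨c1, c2, c3⟩, ⟨d1, d2⟩, e1⟩ := h
  exact ⟨⟨a1, a4, a5, a2, a3⟩, ⟨b3, b4, b1, b2⟩, ⟨e1, c2.symm, d1.symm⟩, ⟨c3.symm, d2.symm⟩, c1⟩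

/-- **the theorem on two conflicting squares, from the pattern theorems** -/
theorem xf_of_pat (hP : Pat) : XfStatement := by
  intro X₁ X₂ P₁ P₂ D₁ D₂ j₁ m₁ j₂ m₂ M Q R hQ hR h1 w₁ w₂ hn hT q1 q2 e1 e2
  obtain ⟨x, y, q, p, r, s, hd, eQ, eR, cQ, cR⟩ | ⟨x, y, q, p, r, hd, eQ, eR, cQ, cR⟩ := normal_form hQ hR h1
  · obtain ⟨mx, my, mq, mp⟩ := sq_mem (R := R) cQ
    obtain ⟨-, -, mr, ms⟩ := sq_mem' (Q := Q) cR
    rw [eQ] at q1 e2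
    rw [eR] at q2 e1
    obtain ⟨⟨a1, a2, a3, a4, a5⟩, ⟨b1, b2, b3, b4⟩, ⟨c1, c2, c3⟩, ⟨d1, d2⟩, f1⟩ := nodup6.1 hd
    have hQ1 : Dist4 x y q p := ⟨a1, a2, a3, b1, b2, c1⟩
    have hR1 : Dist4 x y r s := ⟨a1, a4, a5, b3, b4, f1⟩
    have o1 := hs_opp hQ1 (w₁.blk.hs _ q1).1
    have o2 := hs_opp hR1 (w₂.blk.hs _ q2).1
    rw [← hT] at o2
    have hd' := nd_side hd
    have hdw := nd_world hd
    have hdw' := nd_side hdw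
    have q1' := q1
    have q2' := q2
    have e1' := e1
    have e2' := e2
    rw [sq_ref] at q1' q2' e1' e2'
    by_cases hy : y ∈ X₁.T
    swap
    · exact hP.p1 X₁ X₂ P₁ P₂ D₁ D₂ j₁ m₁ j₂ m₂ _ M w₁ w₂ hn hT x y q p r s hd mx my mq mp mr ms q1 q2 e1 e2 hy
    by_cases hx : x ∈ X₁.T
    swap
    · exact hP.p1 X₁ X₂ P₁ P₂ D₁ D₂ j₁ m₁ j₂ m₂ _ M w₁ w₂ hn hT y x p q s r hd' my mx mp mq ms mr q1' q2' e1'
        e2' hx
    by_cases hr : r ∈ X₁.T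
    · by_cases hs : s ∈ X₁.T
      · exact hP.p4 X₁ X₂ P₁ P₂ D₁ D₂ j₁ m₁ j₂ m₂ _ M w₁ w₂ hn hT x y q p r s hd mx my mq mp mr ms q1 q2 e1 e2
          ⟨hx, hy, hr, hs⟩
      · by_cases hq : q ∈ X₁.T
        · by_cases hp : p ∈ X₁.T
          · exact hP.p4 X₂ X₁ P₂ P₁ D₂ D₁ j₂ m₂ j₁ m₁ _ M w₂ w₁ hn.symm hT.symm x y r s q p hdw mx my mr ms mq mp
              q2 q1 e2 e1 (by rw [← hT]; exact ⟨hx, hy, hq, hp⟩)
          · exact hP.p2 X₁ X₂ P₁ P₂ D₁ D₂ j₁ m₁ j₂ m₂ _ M w₁ w₂ hn hT x y q p r s hd mx my mq mp mr ms q1 q2 e1 e2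
              ⟨hx, hy, hq, hr, hp, hs⟩
        · have hp : p ∈ X₁.T := by tauto
          exact hP.p3 X₁ X₂ P₁ P₂ D₁ D₂ j₁ m₁ j₂ m₂ _ M w₁ w₂ hn hT y x p q s r hd' my mx mp mq ms mr q1' q2' e1'
            e2' ⟨hy, hx, hp, hr, hq, hs⟩
    · have hs : s ∈ X₁.T := by tauto
      by_cases hq : q ∈ X₁.T
      · by_cases hp : p ∈ X₁.T
        · exact hP.p4 X₂ X₁ P₂ P₁ D₂ D₁ j₂ m₂ j₁ m₁ _ M w₂ w₁ hn.symm hT.symm x y r s q p hdw mx my mr ms mq mp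
            q2 q1 e2 e1 (by rw [← hT]; exact ⟨hx, hy, hq, hp⟩)
        · exact hP.p3 X₁ X₂ P₁ P₂ D₁ D₂ j₁ m₁ j₂ m₂ _ M w₁ w₂ hn hT x y q p r s hd mx my mq mp mr ms q1 q2 e1 e2
            ⟨hx, hy, hq, hs, hp, hr⟩
      · have hp : p ∈ X₁.T := by tauto
        exact hP.p2 X₁ X₂ P₁ P₂ D₁ D₂ j₁ m₁ j₂ m₂ _ M w₁ w₂ hn hT y x p q s r hd' my mx mp mq ms mr q1' q2' e1'
          e2' ⟨hy, hx, hp, hs, hq, hr⟩
  · obtain ⟨mx, my, mq, mp⟩ := sq_mem (R := R) cQ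
    obtain ⟨-, -, mr, -⟩ := sq_mem' (Q := Q) cR
    rw [eQ] at q1 e2
    rw [eR] at q2 e1
    exact hP.p5 X₁ X₂ P₁ P₂ D₁ D₂ j₁ m₁ j₂ m₂ _ M w₁ w₂ hn hT x y q p r hd mx my mq mp mr q1 q2 e1 e2

end Pool.Agent.PF4.XF
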