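import Pool.Agent.PF4.KWP
import Pool.Agent.PF4.XG

/-!
The fields `p1`, `p2`, `p3` of `Pat`.
-/

set_option autoImplicit false

namespace Pool.Agent.PF4.XF

open Finset Pool.Agent.TFC Pool.Agent.PF4

theorem nd6 {x y q p r s : ℕ} (h : [x, y, q, p, r, s].Nodup) :
    Dist4 x y q p ∧ Dist4 x y r s ∧ q ≠ r ∧ q ≠ s ∧ p ≠ r ∧ p ≠ s := by
  simp only [List.nodup_cons, List.mem_cons, List.not_mem_nil, or_false, not_or, List.nodup_nil, and_true,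
    not_false_eq_true] at h
  obtain ⟨⟨a1, a2, a3, a4, a5⟩, ⟨b1, b2, b3, b4⟩, ⟨c1, c2, c3⟩, ⟨d1, d2⟩, e1⟩ := h
  exact ⟨⟨a1, a2, a3, b1, b2, c1⟩, ⟨a1, a4, a5, b3, b4, e1⟩, c2, c3, d1, d2⟩

theorem pt_p1 : Pt6 fun T _ y _ _ _ _ => y ∉ T := by
  intro X₁ X₂ P₁ P₂ D₁ D₂ j₁ m₁ j₂ m₂ S M h₁ h₂ _ hT x y q p r s hn hx hy hq hp hr hs hQ hR hR1 hQ2 hc
  obtain ⟨d1, d2, d3, d4, d5, d6⟩ := nd6 hn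
  exact pat81 h₁ h₂ hT ⟨d1, hQ, hx, hy, hq, hp⟩ ⟨d2, hR, hx, hy, hr, hs⟩ d3 d4 d5 d6 hQ2 hR1 hc

theorem pt_p2 : Pt6 fun T x y q p r s => x ∈ T ∧ y ∈ T ∧ q ∈ T ∧ r ∈ T ∧ p ∉ T ∧ s ∉ T := by
  intro X₁ X₂ P₁ P₂ D₁ D₂ j₁ m₁ j₂ m₂ S M h₁ h₂ _ hT x y q p r s hn hx hy hq hp hr hs hQ hR hR1 hQ2 hc
  obtain ⟨d1, d2, d3, d4, d5, d6⟩ := nd6 hn
  exact pat82 h₁ h₂ hT ⟨d1, hQ, hx, hy, hq, hp⟩ ⟨d2, hR, hx, hy, hr, hs⟩ d3 d6 hc.2.1 hc.2.2.2.2.1 hc.2.2.2.2.2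

theorem pt_p3 : Pt6 fun T x y q p r s => x ∈ T ∧ y ∈ T ∧ q ∈ T ∧ s ∈ T ∧ p ∉ T ∧ r ∉ T := by
  intro X₁ X₂ P₁ P₂ D₁ D₂ j₁ m₁ j₂ m₂ S M h₁ h₂ _ hT x y q p r s hn hx hy hq hp hr hs hQ hR hR1 hQ2 hc
  obtain ⟨d1, d2, d3, d4, d5, d6⟩ := nd6 hn
  exact pat83 h₁ h₂ hT ⟨d1, hQ, hx, hy, hq, hp⟩ ⟨d2, hR, hx, hy, hr, hs⟩ d3 hc.2.1 hc.2.2.2.2.1 hc.2.2.2.2.2

end Pool.Agent.PF4.XF
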