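import Pool.Agent.PF4.X5E

/-!
Two squares `x y q p`, `x y r q`: the full cluster is a `K2` cluster in which the witness contains a square.
-/

set_option autoImplicit false

namespace Pool.Agent.PF4.XT

open Finset Pool.Agent.TFC Pool.Agent.PF4 Pool.Agent.PF4.XF Pool.Agent.PF4.XU

theorem k2_comm (u v : ℕ) (L : Finset ℕ) : (Clu.k2 u v L).edges = (Clu.k2 v u L).edges := by
  simp only [Clu.edges]
  exact union_comm _ _

/-- small sets of edges of a `K2` cluster -/
theorem acap_tw {D : Finset (Finset (Sym2 ℕ))} (hD : ∀ Z ∈ D, IsSq Z) {u v : ℕ} {L P Q : Finset ℕ} (uv : u ≠ v)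
    (uL : u ∉ L) (vL : v ∉ L) (hP : P ⊆ L) (hQ : Q ⊆ L) (cP : #P ≤ 2) (cQ : #Q ≤ 2) (cI : #(P ∩ Q) ≤ 1) :
    Acap D (tw u v P Q) := by
  refine ⟨M2.of_dv (tw_nl (fun h => uL (hP h)) (fun h => vL (hQ h))) ?_, fun Z hZ =>
    (tw_free uv uL vL hP hQ).2 cI Z (hD Z hZ)⟩
  intro w
  rw [dv_tw uv uL vL hP hQ]
  have c1 : (#P : ℤ) ≤ 2 := by exact_mod_cast cP
  have c2 : (#Q : ℤ) ≤ 2 := by exact_mod_cast cQ
  by_cases e1 : w = u
  · subst e1
    rw [if_neg (fun h => uL (hP h)), if_neg (fun h => uL (hQ h)), if_pos rfl, if_neg uv]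
    linarith
  · by_cases e2 : w = v
    · subst e2
      rw [if_neg (fun h => vL (hP h)), if_neg (fun h => vL (hQ h)), if_neg e1, if_pos rfl]
      linarith
    · rw [if_neg e1, if_neg e2]
      split_ifs <;> norm_num

theorem ind_pair {a b : ℕ} (h : a ≠ b) (v : ℕ) :
    (if v ∈ ({a, b} : Finset ℕ) then (1 : ℤ) else 0) = ev a v + ev b v := by
  rw [ev_apply, ev_apply]
  by_cases h1 : v = a
  · subst h1
    simp [h]
  · by_cases h2 : v = b
    · subst h2
      simp [h1]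
    · simp [h1, h2]

theorem ind_one {a : ℕ} (v : ℕ) : (if v ∈ ({a} : Finset ℕ) then (1 : ℤ) else 0) = ev a v := by
  rw [ev_apply]
  simp only [mem_singleton]

/-- two leaves at each hub -/
theorem dv_tw22 {u v : ℕ} {L : Finset ℕ} (uv : u ≠ v) (uL : u ∉ L) (vL : v ∉ L) {a b c d : ℕ} (ab : a ≠ b)
    (cd : c ≠ d) (h1 : ({a, b} : Finset ℕ) ⊆ L) (h2 : ({c, d} : Finset ℕ) ⊆ L) :
    dv (tw u v {a, b} {c, d}) = ev a + ev b + (ev c + ev d) + ((2 : ℤ) • ev u + (2 : ℤ) • ev v) := by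
  funext w
  rw [dv_tw uv uL vL h1 h2, ind_pair ab, ind_pair cd, card_pair ab, card_pair cd]
  simp only [Pi.add_apply, Pi.smul_apply, ev_apply, smul_eq_mul]
  congr 1
  split_ifs <;> norm_num

/-- one leaf at the first hub, two leaves at the second hub -/
theorem dv_tw12 {u v : ℕ} {L : Finset ℕ} (uv : u ≠ v) (uL : u ∉ L) (vL : v ∉ L) {a c d : ℕ}
    (cd : c ≠ d) (h1 : ({a} : Finset ℕ) ⊆ L) (h2 : ({c, d} : Finset ℕ) ⊆ L) :
    dv (tw u v {a} {c, d}) = ev a + (ev c + ev d) + (ev u + (2 : ℤ) • ev v) := by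
  funext w
  rw [dv_tw uv uL vL h1 h2, ind_one, ind_pair cd, card_singleton, card_pair cd]
  simp only [Pi.add_apply, Pi.smul_apply, ev_apply, smul_eq_mul]
  congr 1
  split_ifs <;> norm_num

theorem card_inter_le {a b c : ℕ} (ab : a ≠ b) (bc : b ≠ c) : #(({a, b} : Finset ℕ) ∩ {a, c}) ≤ 1 := by
  have : ({a, b} : Finset ℕ) ∩ {a, c} ⊆ {a} := by
    intro w hw
    simp only [mem_inter, mem_insert, mem_singleton] at hw ⊢
    rcases hw with ⟨rfl | rfl, h | h⟩
    · rfl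
    · rfl
    · exact h
    · exact absurd h bc
  exact (card_le_card this).trans (card_singleton a).le

/-- a vertex that is not of type X -/
theorem con_notX {p m : Prop} (h : m → p) : con p m (-2) ≤ 0 := by
  unfold con
  split_ifs with h1 h2 h2
  · norm_num
  · norm_num
  · exact absurd (h h2) h1
  · norm_num

section
variable {X : XD} {P : ℕ → Finset (Sym2 ℕ) → Prop} {D : Finset (Finset (Sym2 ℕ))} {j : ℕ} {S : Finset ℕ}
  {M : ℕ → Finset (Sym2 ℕ)} {CL U : List (Clu ℕ)} {PL : Finset (Sym2 ℕ)}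
  {pl mi : ℕ → Prop} {c1 : Clu ℕ} {L : Finset (Sym2 ℕ)} {x y q p r : ℕ}

/-- the full cluster is a `K2` cluster with hubs `r`, `h`, in which the witness contains a square -/
theorem Five.hub (F : Five D CL c1 L x y q p r) (W : PW X P D j S M (fun _ => Acap D) CL U PL pl mi) (hL : P j L)
    (hcv : Cv X L) (hQ : TFC.sq x y q p ∈ D) (h1 : c1 ∈ U) (hyr : s(y, r) ∈ Ucl U ∪ PL)
    (hrq : s(r, q) ∈ Ucl U ∪ PL) {h : ℕ} {L0 : Finset ℕ} {c0 : Clu ℕ} (h0 : c0 ∈ U)
    (hc0 : c0 = Clu.k2 r h L0 ∨ c0 = Clu.k2 h r L0) (hf : 3 ≤ dg (Gx L y q r ∩ c0.edges) r)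
    (hS : ¬ Sf (L ∩ c0.edges)) : False := by
  have h01 : c0 ≠ c1 := by
    rintro rfl
    have := F.c1low
    omega
  have hE : c0.edges = (Clu.k2 r h L0).edges := by
    rcases hc0 with e | e
    · rw [e]
    · rw [e]; exact k2_comm _ _ _
  have hval : (Clu.k2 r h L0).Valid := by
    have := W.val h0
    rcases hc0 with rfl | rfl
    · exact this
    · obtain ⟨g1, g2, g3, g4⟩ : h ≠ r ∧ h ∉ L0 ∧ r ∉ L0 ∧ 2 ≤ #L0 := this
      exact ⟨g1.symm, g3, g2, g4⟩
  have hval' := hval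
  obtain ⟨rh, rL, hL0, _⟩ : r ≠ h ∧ r ∉ L0 ∧ h ∉ L0 ∧ 2 ≤ #L0 := hval'
  -- the square in the witness
  have hS' : ∃ Z, IsSq Z ∧ Z ⊆ L ∩ c0.edges := by
    by_contra hn
    push Not at hn
    exact hS hn
  obtain ⟨Z, hZ, hZs⟩ := hS'
  have hZL : L ∩ c0.edges = Z := inter_eq (W.val h0) hZ (hZs.trans inter_subset_right) F.m2 (hZs.trans inter_subset_left)
  obtain ⟨⟨b, hbL, hbc⟩, hnew⟩ := F.full hf
  have hbZ : s(r, b) ∈ Z := by rw [← hZL]; exact mem_inter.2 ⟨hbL, hbc⟩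
  obtain ⟨c, hc, hb, hcb, hZe⟩ := k2_sq hval hZ (by
    rw [← hE]; exact hZs.trans inter_subset_right) hbZ
  have hZD : Z ∉ D := by
    intro hD
    have g1 := F.un Z hD (hZs.trans inter_subset_left)
    refine h01 (W.cls.eq ((W.uc c0).1 h0).1 F.c1m hbc (F.sc ?_))
    rw [← g1]; exact hbZ
  have hsw : TFC.sq h b r c = TFC.sq r b h c := by
    rw [sq_rot, sq_rot, sq_ref, sq_rot, sq_rot, sq_rot]
  obtain ⟨e, he, heb, hec, hX, hbX, _⟩ : ∃ e ∈ L0, e ≠ b ∧ e ≠ c ∧ (mi e ∧ ¬ pl e) ∧ (mi b → pl b) ∧ (mi c → pl c) := by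
    rcases hc0 with e0 | e0
    · rw [e0] at h0
      exact W.star h0 (fun _ _ => rfl) hb hc hcb.symm (by rw [← hZe]; exact hZD)
    · rw [e0] at h0
      exact W.star h0 (fun _ _ => rfl) hb hc hcb.symm (by rw [hsw, ← hZe]; exact hZD)
  have hcZ : s(r, c) ∈ Z := by rw [hZe]; simp [TFC.sq, Sym2.eq_swap]
  have hZin : ∀ f ∈ Z, f ∈ L ∧ f ∈ c0.edges := fun f hf => by
    rw [← hZL] at hf; exact mem_inter.1 hf
  have yb : y ≠ b := by
    rintro rfl
    exact (F.ne ((W.uc c0).1 h0).1 h01 (hZin _ hbZ).1 (hZin _ hbZ).2).1 (by simp)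
  have qb : q ≠ b := by
    rintro rfl
    exact (F.ne ((W.uc c0).1 h0).1 h01 (hZin _ hbZ).1 (hZin _ hbZ).2).2 (by simp)
  have yc : y ≠ c := by
    rintro rfl
    exact (F.ne ((W.uc c0).1 h0).1 h01 (hZin _ hcZ).1 (hZin _ hcZ).2).1 (by simp)
  have qc : q ≠ c := by
    rintro rfl
    exact (F.ne ((W.uc c0).1 h0).1 h01 (hZin _ hcZ).1 (hZin _ hcZ).2).2 (by simp)
  have lf : ∀ w, s(r, w) ∈ c0.edges → w ∈ L0 := by
    intro w hw
    rw [hE, mem_k2] at hw
    rcases hw with ⟨_, g⟩ | ⟨_, g⟩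
    · exact g
    · exact absurd g rL
  have fl : ∀ w ∈ L0, s(r, w) ∈ c0.edges := by
    intro w hw
    rw [hE, mem_k2]
    exact Or.inl ⟨Or.inl rfl, hw⟩
  have v2 : ∀ w ∈ L0, w ∈ X.V2 := fun w hw => W.v2 h0 (fl w hw) (by simp)
  have vr : r ∈ X.V2 := W.v2 h0 (fl b hb) (by simp)
  have ne : ∀ w ∈ L0, r ≠ w := fun w hw e => rL (e ▸ hw)
  have ne' : ∀ w ∈ L0, h ≠ w := fun w hw e => hL0 (e ▸ hw)
  -- the general step
  have step : ∀ (P' Q' : Finset ℕ) (B : Finset (Sym2 ℕ)), P' ⊆ L0 → Q' ⊆ L0 → #P' ≤ 2 → #Q' ≤ 2 → #(P' ∩ Q') ≤ 1 →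
      B ⊆ {s(y, r), s(r, q)} → Disjoint B c0.edges →
      1 ≤ ph X.V2 pl mi (dv (tw r h P' Q') - dv (TFC.sq r b h c) - ev y - ev q + dv B) := by
    intro P' Q' B g1 g2 g3 g4 g5 g6 g7
    have g8 := F.rep W hL hcv hQ h1 h0 (fun _ _ _ => rfl) hf g6 (fun f hf => by
      have := g6 hf
      rw [mem_insert, mem_singleton] at this
      rcases this with rfl | rfl
      · exact hyr
      · exact hrq) g7 (K0 := tw r h P' Q') (by rw [hE]; exact tw_sub g1 g2)
      (acap_tw W.isq rh rL hL0 g1 g2 g3 g4 g5)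
    rw [hZL, hZe] at g8
    exact g8
  have d4 : Dist4 r b h c := ⟨ne b hb, rh, ne c hc, (ne' b hb).symm, hcb.symm, ne' c hc⟩
  have dS := dv_sq d4
  have sub2 : ∀ a d : ℕ, a ∈ L0 → d ∈ L0 → ({a, d} : Finset ℕ) ⊆ L0 := by
    intro a d ha hd w hw
    simp only [mem_insert, mem_singleton] at hw
    rcases hw with rfl | rfl <;> assumption
  have sub1 : ∀ a : ℕ, a ∈ L0 → ({a} : Finset ℕ) ⊆ L0 := by
    intro a ha w hw
    rw [mem_singleton] at hw
    rw [hw]; exact ha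
  have T1 := con_neg_one (pl c) (mi c)
  have T2 := con_notX hbX
  -- the key with a choice of the new leaf
  have key : ∀ t t' : ℕ, ((t = y ∧ t' = q) ∨ (t = q ∧ t' = y)) → s(r, t) ∈ c0.edges →
      (e = t ∨ (e ≠ t ∧ e ≠ t')) → False := by
    intro t t' htt ht hcase
    have htL := lf t ht
    have httne : t ≠ t' := by
      rcases htt with ⟨rfl, rfl⟩ | ⟨rfl, rfl⟩
      · exact F.yq
      · exact F.yq.symm
    have tb : t ≠ b := by rcases htt with ⟨rfl, rfl⟩ | ⟨rfl, rfl⟩ <;> assumption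
    have tc : t ≠ c := by rcases htt with ⟨rfl, rfl⟩ | ⟨rfl, rfl⟩ <;> assumption
    have t'b : t' ≠ b := by rcases htt with ⟨rfl, rfl⟩ | ⟨rfl, rfl⟩ <;> assumption
    have t'c : t' ≠ c := by rcases htt with ⟨rfl, rfl⟩ | ⟨rfl, rfl⟩ <;> assumption
    have t'r : r ≠ t' := by
      rcases htt with ⟨_, rfl⟩ | ⟨_, rfl⟩
      · exact F.rq
      · exact F.ry
    have hev : ∀ f g : ℕ → ℤ, f - ev y - ev q + g = f - ev t - ev t' + g := by
      intro f g
      rcases htt with ⟨rfl, rfl⟩ | ⟨rfl, rfl⟩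
      · rfl
      · abel
    have hB : ({s(r, t')} : Finset (Sym2 ℕ)) ⊆ {s(y, r), s(r, q)} := by
      rw [singleton_subset_iff, mem_insert, mem_singleton]
      rcases htt with ⟨_, rfl⟩ | ⟨_, rfl⟩
      · exact Or.inr rfl
      · exact Or.inl Sym2.eq_swap
    rcases hcase with rfl | ⟨et, et'⟩
    · -- the centre is the new leaf
      have fin : Pi.single e 1 + Pi.single c (-1) + Pi.single b (-2) = (ev e - ev c - (2 : ℤ) • ev b : ℕ → ℤ) := by
        rw [single_ev, single_ev, single_ev]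
        module
      by_cases hc0' : s(r, t') ∈ c0.edges
      · have ht'L := lf t' hc0'
        have g := step {e, t'} {e, c} ∅ (sub2 _ _ he ht'L) (sub2 _ _ he hc) card_le_two card_le_two
          (card_inter_le httne t'c) (by simp) (by simp)
        have e1 : dv (tw r h {e, t'} {e, c}) - dv (TFC.sq r b h c) - ev y - ev q + dv ∅ =
            Pi.single e 1 + Pi.single c (-1) + Pi.single b (-2) := by
          rw [hev, dS, XT.dv_empty, fin, dv_tw22 rh rL hL0 httne hec (sub2 _ _ he ht'L) (sub2 _ _ he hc)]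
          module
        rw [e1, ph_thr5 (v2 e he) (v2 c hc) (v2 b hb) hec heb hcb, con_X hX.2 hX.1] at g
        omega
      · have g := step {e} {e, c} {s(r, t')} (sub1 _ he) (sub2 _ _ he hc) (by simp) card_le_two
          (by refine (card_le_card inter_subset_left).trans (by simp)) hB (by
            rw [disjoint_singleton_left]; exact hc0')
        have e1 : dv (tw r h {e} {e, c}) - dv (TFC.sq r b h c) - ev y - ev q + dv {s(r, t')} =
            Pi.single e 1 + Pi.single c (-1) + Pi.single b (-2) := by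
          rw [hev, dS, XT.dv_pair t'r, fin, dv_tw12 rh rL hL0 hec (sub1 _ he) (sub2 _ _ he hc), single_ev, single_ev]
          module
        rw [e1, ph_thr5 (v2 e he) (v2 c hc) (v2 b hb) hec heb hcb, con_X hX.2 hX.1] at g
        omega
    · have T3 := con_one (pl r) (mi r)
      by_cases hc0' : s(r, t') ∈ c0.edges
      · have ht'L := lf t' hc0'
        have g := step {e, t} {e, c} ∅ (sub2 _ _ he htL) (sub2 _ _ he hc) card_le_two card_le_two
          (card_inter_le et tc) (by simp) (by simp)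
        have e1 : dv (tw r h {e, t} {e, c}) - dv (TFC.sq r b h c) - ev y - ev q + dv ∅ =
            Pi.single e 2 + Pi.single c (-1) + Pi.single b (-2) + Pi.single t' (-1) := by
          rw [hev, dS, XT.dv_empty, dv_tw22 rh rL hL0 et hec (sub2 _ _ he htL) (sub2 _ _ he hc), single_ev,
            single_ev, single_ev, single_ev]
          module
        rw [e1, ph_fou5 (v2 e he) (v2 c hc) (v2 b hb) (v2 t' ht'L) hec heb hcb et' t'c.symm t'b.symm,
          con_X hX.2 hX.1] at g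
        have T4 := con_neg_one (pl t') (mi t')
        omega
      · have g := step {e, t} {e, c} {s(r, t')} (sub2 _ _ he htL) (sub2 _ _ he hc) card_le_two card_le_two
          (card_inter_le et tc) hB (by rw [disjoint_singleton_left]; exact hc0')
        have e1 : dv (tw r h {e, t} {e, c}) - dv (TFC.sq r b h c) - ev y - ev q + dv {s(r, t')} =
            Pi.single e 2 + Pi.single c (-1) + Pi.single b (-2) + Pi.single r 1 := by
          rw [hev, dS, XT.dv_pair t'r, dv_tw22 rh rL hL0 et hec (sub2 _ _ he htL) (sub2 _ _ he hc), single_ev,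
            single_ev, single_ev, single_ev, single_ev]
          module
        rw [e1, ph_fou5 (v2 e he) (v2 c hc) (v2 b hb) vr hec heb hcb (ne e he).symm (ne c hc).symm (ne b hb).symm,
          con_X hX.2 hX.1] at g
        omega
  -- choice of the new leaf
  by_cases ey : e = y
  · exact key y q (Or.inl ⟨rfl, rfl⟩) (ey ▸ fl e he) (Or.inl ey)
  · by_cases eq : e = q
    · exact key q y (Or.inr ⟨rfl, rfl⟩) (eq ▸ fl e he) (Or.inl eq)
    · rcases hnew with g | g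
      · exact key y q (Or.inl ⟨rfl, rfl⟩) (by rw [Sym2.eq_swap]; exact g) (Or.inr ⟨ey, eq⟩)
      · exact key q y (Or.inr ⟨rfl, rfl⟩) g (Or.inr ⟨eq, ey⟩)

end

end Pool.Agent.PF4.XT
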