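import Pool.Agent.PF4.XP4
import Pool.Agent.PF4.X5F

/-!
# Local moves in one cluster
-/

set_option autoImplicit false

namespace Pool.Agent.PF4.LM

open Finset Pool.Agent.TFC Pool.Agent.PF4 Pool.Agent.PF4.XF Pool.Agent.PF4.XU Pool.Agent.PF4.XT

/-! ### the form is subadditive -/

theorem con_add (p m : Prop) (a b : ℤ) : con p m (a + b) ≤ con p m a + con p m b := by
  unfold con
  split_ifs <;> omega

theorem ph_le (V : Finset ℕ) (pl mi : ℕ → Prop) (d e : ℕ → ℤ) :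
    ph V pl mi (d + e) ≤ ph V pl mi d + ph V pl mi e := by
  unfold ph
  rw [← sum_add_distrib]
  exact sum_le_sum fun v _ => con_add _ _ _ _

/-- there is an allowed set in the cluster with the vector of `F` changed by `d`, up to a vector without cost -/
def Mv (V : Finset ℕ) (pl mi : ℕ → Prop) (c : Clu ℕ) (Ac : Finset (Sym2 ℕ) → Prop) (F : Finset (Sym2 ℕ))
    (d : ℕ → ℤ) : Prop := ∃ K ⊆ c.edges, Ac K ∧ ∃ z, ph V pl mi z ≤ 0 ∧ dv K = dv F + d + z

/-- `c` has the hubs `r`, `h` and the leaves `L` -/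
structure Hub (c : Clu ℕ) (r h : ℕ) (L : Finset ℕ) : Prop where
  val : (Clu.k2 r h L).Valid
  eq : c = Clu.k2 r h L ∨ c = Clu.k2 h r L

section
variable {c : Clu ℕ} {r h : ℕ} {L : Finset ℕ}

theorem Hub.edges (H : Hub c r h L) : c.edges = (Clu.k2 r h L).edges := by
  rcases H.eq with e | e
  · rw [e]
  · rw [e]; exact k2_comm _ _ _

theorem Hub.rh (H : Hub c r h L) : r ≠ h := H.val.1
theorem Hub.rL (H : Hub c r h L) : r ∉ L := H.val.2.1
theorem Hub.hL (H : Hub c r h L) : h ∉ L := H.val.2.2.1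

theorem Hub.symm (H : Hub c r h L) : Hub c h r L :=
  ⟨⟨H.rh.symm, H.hL, H.rL, H.val.2.2.2⟩, H.eq.symm⟩

theorem Hub.mem (H : Hub c r h L) {w : ℕ} : s(r, w) ∈ c.edges ↔ w ∈ L := by
  rw [H.edges, mem_k2]
  constructor
  · rintro (⟨_, g⟩ | ⟨_, g⟩)
    · exact g
    · exact absurd g H.rL
  · exact fun g => Or.inl ⟨Or.inl rfl, g⟩

theorem Hub.mem' (H : Hub c r h L) {w : ℕ} : s(h, w) ∈ c.edges ↔ w ∈ L := H.symm.mem

/-- an edge of a cluster with two hubs -/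
theorem hub_edge (hc : c.Valid) (h2 : K2 c) {u v : ℕ} (he : s(u, v) ∈ c.edges) :
    (∃ h L, Hub c u h L ∧ v ∈ L) ∨ ∃ h L, Hub c v h L ∧ u ∈ L := by
  obtain ⟨a, b, L, rfl⟩ := h2
  have hv := hc
  obtain ⟨ab, aL, bL, hL⟩ : a ≠ b ∧ a ∉ L ∧ b ∉ L ∧ 2 ≤ #L := hv
  have hv' : (Clu.k2 b a L).Valid := ⟨ab.symm, bL, aL, hL⟩
  rcases mem_k2.1 he with ⟨rfl | rfl, g⟩ | ⟨rfl | rfl, g⟩
  · exact Or.inl ⟨b, L, ⟨hc, Or.inl rfl⟩, g⟩
  · exact Or.inl ⟨a, L, ⟨hv', Or.inr rfl⟩, g⟩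
  · exact Or.inr ⟨b, L, ⟨hc, Or.inl rfl⟩, g⟩
  · exact Or.inr ⟨a, L, ⟨hv', Or.inr rfl⟩, g⟩

/-- a 2-matching in the cluster which contains a square is this square -/
theorem Hub.sq (H : Hub c r h L) {F : Finset (Sym2 ℕ)} (hF : F ⊆ c.edges) (hM : M2 F) (hS : ¬ Sf F) :
    ∃ a b, a ∈ L ∧ b ∈ L ∧ a ≠ b ∧ F = TFC.sq r a h b := by
  have hS' : ∃ Z, IsSq Z ∧ Z ⊆ F := by
    by_contra hn
    push Not at hn
    exact hS hn
  obtain ⟨Z, hZ, hZs⟩ := hS'
  have e1 : F = Z := by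
    have := inter_eq H.val hZ (by rw [← H.edges]; exact hZs.trans hF) hM hZs
    rw [← this]
    symm
    rw [inter_eq_left, ← H.edges]
    exact hF
  -- an edge at `r`
  have key : ∃ a, s(r, a) ∈ Z := by
    have hZ2 := hZ
    obtain ⟨a, b, c', d, h4, rfl⟩ := hZ2
    have e1 : s(a, b) ∈ (Clu.k2 r h L).edges := by rw [← H.edges]; exact hF (hZs (by simp [TFC.sq]))
    have e2 : s(b, c') ∈ (Clu.k2 r h L).edges := by rw [← H.edges]; exact hF (hZs (by simp [TFC.sq]))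
    have e4 : s(d, a) ∈ (Clu.k2 r h L).edges := by rw [← H.edges]; exact hF (hZs (by simp [TFC.sq]))
    obtain ⟨ab, ac, ad, bc, bd, cd⟩ := h4
    rw [mem_k2] at e1 e2 e4
    rcases e1 with ⟨rfl | rfl, g1⟩ | ⟨rfl | rfl, g1⟩
    · exact ⟨b, by simp [TFC.sq]⟩
    · rcases e2 with ⟨rfl | rfl, g2⟩ | ⟨rfl | rfl, g2⟩
      · exact absurd g1 H.rL
      · exact absurd g1 H.hL
      · exact ⟨b, by simp [TFC.sq, Sym2.eq_swap]⟩
      · exact absurd rfl ac
    · exact ⟨a, by simp [TFC.sq, Sym2.eq_swap]⟩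
    · rcases e4 with ⟨rfl | rfl, g2⟩ | ⟨rfl | rfl, g2⟩
      · exact ⟨a, by simp [TFC.sq]⟩
      · exact absurd rfl bd
      · exact absurd g1 H.rL
      · exact absurd g1 H.hL
  obtain ⟨a, ha⟩ := key
  obtain ⟨b, hb, haL, hba, hZe⟩ := k2_sq H.val hZ (by rw [← H.edges]; exact hZs.trans hF) ha
  exact ⟨a, b, haL, hb, hba.symm, e1.trans hZe⟩

end

/-- the part `F` in the cluster `c` -/
structure Lo (D : Finset (Finset (Sym2 ℕ))) (c : Clu ℕ) (F : Finset (Sym2 ℕ)) (Ac : Finset (Sym2 ℕ) → Prop)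
    (V : Finset ℕ) : Prop where
  val : c.Valid
  isq : ∀ Z ∈ D, IsSq Z
  nl : NoLoop c.edges
  sub : F ⊆ c.edges
  m2 : M2 F
  fr : ∀ Z ∈ D, ¬ Z ⊆ F
  kd : ∀ Y, c = Clu.k4 Y → ∀ Z, IsSq Z → Z ⊆ c.edges → Z ∈ D
  a4 : ∀ Y, c = Clu.k4 Y → Ac = Acap D
  a2 : K2 c → Sf F → Ac = TFC.SqFree
  a2' : K2 c → ¬ Sf F → Ac = Acap D
  vV : ∀ e ∈ c.edges, ∀ v ∈ e, v ∈ V

/-- one of the two leaves is not of type X -/
def Vf (pl mi : ℕ → Prop) (c : Clu ℕ) (F : Finset (Sym2 ℕ)) (r : ℕ) : Prop :=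
  ∀ h L a b, Hub c r h L → a ∈ L → b ∈ L → a ≠ b → F = TFC.sq r a h b → (mi a → pl a) ∨ (mi b → pl b)

theorem dv_sq' {a b c d : ℕ} (h : Dist4 a b c d) :
    dv (TFC.sq a b c d) = (2 : ℤ) • ev a + (2 : ℤ) • ev b + (2 : ℤ) • ev c + (2 : ℤ) • ev d := by
  rw [dv_sq h]
  module

section
variable {D : Finset (Finset (Sym2 ℕ))} {c : Clu ℕ} {F : Finset (Sym2 ℕ)} {Ac : Finset (Sym2 ℕ) → Prop}
  {V : Finset ℕ} {pl mi : ℕ → Prop} {x y r s : ℕ}

theorem sf_free (hD : ∀ Z ∈ D, IsSq Z) {K : Finset (Sym2 ℕ)} (h : Sf K) : ∀ Z ∈ D, ¬ Z ⊆ K :=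
  fun Z hZ => h Z (hD Z hZ)

/-- a pendant edge closes no square of the family -/
theorem free_insert (hD : ∀ Z ∈ D, IsSq Z) {K : Finset (Sym2 ℕ)} (h : ∀ Z ∈ D, ¬ Z ⊆ K) {v : ℕ} {e : Sym2 ℕ}
    (hv : v ∈ e) (h0 : ∀ f ∈ K, v ∉ f) : ∀ Z ∈ D, ¬ Z ⊆ insert e K := by
  intro Z hZ hs
  by_cases he : e ∈ Z
  · obtain ⟨f, hf, hfe, hvf⟩ := sq_two (hD Z hZ) he hv
    rcases mem_insert.1 (hs hf) with h1 | h1
    · exact hfe h1
    · exact h0 f h1 hvf
  · exact h Z hZ ((subset_insert_iff_of_notMem he).1 hs)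

theorem Lo.sqf (H : Lo D c F Ac V) {K : Finset (Sym2 ℕ)} (hK : K ⊆ c.edges) (h : Sf K) : TFC.SqFree K :=
  (sqFree_iff (H.nl.mono hK)).2 h

/-- hubs have edges if `F` contains a square -/
theorem Lo.full (H : Lo D c F Ac V) {h : ℕ} {L : Finset ℕ} (hH : Hub c r h L) (hS : ¬ Sf F) : ∃ f ∈ F, r ∈ f := by
  obtain ⟨a, b, _, _, _, rfl⟩ := hH.sq H.sub H.m2 hS
  exact ⟨s(r, a), by simp [TFC.sq], by simp⟩

theorem dg_zero {K : Finset (Sym2 ℕ)} {v : ℕ} (h : ∀ f ∈ K, v ∉ f) : dg K v = 0 := by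
  rw [dg, card_eq_zero, filter_eq_empty_iff]
  exact fun f hf hv => h f hf hv

theorem not_mem_of {K : Finset (Sym2 ℕ)} {u v : ℕ} (h : ∀ f ∈ K, u ∉ f) : s(u, v) ∉ K :=
  fun hc => h _ hc (by simp)

/-- **(L1)** attach `x` to `r` -/
theorem Lo.L1 (H : Lo D c F Ac V) (hx : ∀ f ∈ F, x ∉ f) (he : s(x, r) ∈ c.edges) (hv : Vf pl mi c F r) :
    Mv V pl mi c Ac F (ev x + ev r) ∨ (Mv V pl mi c Ac F (ev x - ev r) ∧ dg F r = 2) := by
  have hxr : x ≠ r := H.nl.ne he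
  have hni : s(x, r) ∉ F := not_mem_of hx
  have hins : insert s(x, r) F ⊆ c.edges := insert_subset he H.sub
  have hdv : dv (insert s(x, r) F) = dv F + (ev x + ev r) + 0 := by
    rw [TFC.dv_insert hxr hni]; module
  have z0 : ph V pl mi 0 ≤ 0 := (ph_zero V pl mi).le
  cases hc : c with
  | k4 Y =>
    subst hc
    by_cases h1 : dg F r ≤ 1
    · left
      refine ⟨_, hins, ?_, 0, z0, hdv⟩
      rw [H.a4 Y rfl]
      refine ⟨M2.of_dv (H.nl.mono hins) ?_, free_insert H.isq H.fr (v := x) (by simp) hx⟩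
      intro w
      rw [hdv]
      have g1 := H.m2.le w
      have g2 : dv F w = (dg F w : ℤ) := rfl
      simp only [Pi.add_apply, Pi.zero_apply, ev_apply]
      by_cases e1 : w = x
      · subst e1
        rw [g2, dg_zero hx, if_pos rfl, if_neg hxr]
        norm_num
      · by_cases e2 : w = r
        · subst e2
          rw [g2, if_neg e1, if_pos rfl]
          have : (dg F w : ℤ) ≤ 1 := by exact_mod_cast h1
          linarith
        · rw [g2, if_neg e1, if_neg e2]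
          have : (dg F w : ℤ) ≤ 2 := by exact_mod_cast g1
          linarith
    · right
      have h2 : dg F r = 2 := by have := H.m2.le r; omega
      refine ⟨?_, h2⟩
      obtain ⟨k, hk⟩ := exists_nbr (z := F) (v := r) (by omega)
      have hrk : r ≠ k := H.m2.nl.ne hk
      have hxk : x ≠ k := by
        rintro rfl
        exact hx _ hk (by simp)
      have hke := H.sub hk
      have hxk' : s(x, k) ∈ (Clu.k4 Y).edges := mem_k4.2 ⟨(mem_k4.1 he).1, (mem_k4.1 hke).2.1, hxk⟩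
      have hx' : ∀ f ∈ F.erase s(r, k), x ∉ f := fun f hf => hx f (mem_of_mem_erase hf)
      have hdv' : dv (insert s(x, k) (F.erase s(r, k))) = dv F + (ev x - ev r) + 0 := by
        rw [TFC.dv_insert hxk (not_mem_of hx'), TFC.dv_erase hrk hk]; module
      have hK : insert s(x, k) (F.erase s(r, k)) ⊆ (Clu.k4 Y).edges :=
        insert_subset hxk' ((erase_subset _ _).trans H.sub)
      refine ⟨_, hK, ?_, 0, z0, hdv'⟩
      rw [H.a4 Y rfl]
      refine ⟨M2.of_dv (H.nl.mono hK) ?_, free_insert H.isq (fun Z hZ hs => H.fr Z hZ (hs.trans (erase_subset _ _)))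
        (v := x) (by simp) hx'⟩
      intro w
      rw [hdv']
      have g1 := H.m2.le w
      have g2 : dv F w = (dg F w : ℤ) := rfl
      simp only [Pi.add_apply, Pi.sub_apply, Pi.zero_apply, ev_apply]
      by_cases e1 : w = x
      · subst e1
        rw [g2, dg_zero hx, if_pos rfl, if_neg hxr]
        norm_num
      · rw [g2, if_neg e1]
        have : (dg F w : ℤ) ≤ 2 := by exact_mod_cast g1
        split_ifs <;> linarith
  | k2 u v L =>
    subst hc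
    have hk2 : K2 (Clu.k2 u v L) := ⟨u, v, L, rfl⟩
    by_cases hS : Sf F
    · left
      refine ⟨_, hins, ?_, 0, z0, hdv⟩
      rw [H.a2 hk2 hS]
      exact H.sqf hins (hS.insert (v := x) (by simp) hx)
    · right
      rcases hub_edge H.val hk2 he with ⟨h, L', hH, hr⟩ | ⟨h, L', hH, hxL⟩
      · obtain ⟨f, hf, hxf⟩ := H.full hH hS
        exact absurd hxf (hx f hf)
      · obtain ⟨a, b, ha, hb, hab, hF⟩ := hH.sq H.sub H.m2 hS
        have key : ∀ a b, a ∈ L' → b ∈ L' → a ≠ b → F = TFC.sq r a h b → (mi b → pl b) →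
            Mv V pl mi (Clu.k2 u v L) Ac F (ev x - ev r) := by
          intro a b ha hb hab hF hnX
          have hxa : x ≠ a := by
            rintro rfl
            exact hx s(r, x) (by rw [hF]; simp [TFC.sq]) (by simp)
          have d4 : Dist4 r a h b := ⟨fun e => hH.rL (e ▸ ha), hH.rh, fun e => hH.rL (e ▸ hb),
            fun e => hH.hL (e ▸ ha), hab, fun e => hH.hL (e ▸ hb)⟩
          have s1 : ({a} : Finset ℕ) ⊆ L' := singleton_subset_iff.2 ha
          have s2 : ({a, x} : Finset ℕ) ⊆ L' := insert_subset ha (singleton_subset_iff.2 hxL)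
          refine ⟨tw r h {a} {a, x}, by rw [hH.edges]; exact tw_sub s1 s2, ?_, (-2 : ℤ) • ev b, ?_, ?_⟩
          · rw [H.a2' hk2 hS]
            refine acap_tw H.isq hH.rh hH.rL hH.hL s1 s2 (by simp) card_le_two ?_
            exact (card_le_card inter_subset_left).trans (by simp)
          · rw [← single_ev, ph_one (H.vV s(r, b) (hH.mem.2 hb) b (by simp))]
            exact con_notX hnX
          · rw [dv_tw12 hH.rh hH.rL hH.hL hxa.symm s1 s2, hF, dv_sq' d4]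
            module
        refine ⟨?_, ?_⟩
        · rcases hv h L' a b hH ha hb hab hF with g | g
          · refine key b a hb ha hab.symm ?_ g
            rw [hF, XT.sq_ref, XT.sq_rot, XT.sq_rot, XT.sq_rot]
          · exact key a b ha hb hab hF g
        · have g1 := H.m2.le r
          have g2 : 2 ≤ dg F r := dg_ge_two (a := a) (b := b) (by rw [hF]; simp [TFC.sq]) (by
            rw [hF]; simp [TFC.sq, Sym2.eq_swap]) hab
          omega

end

end Pool.Agent.PF4.LM
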