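import Pool.Agent.PF4.LM

/-!
# Local moves in one cluster: the link edge, two new edges
-/

set_option autoImplicit false

namespace Pool.Agent.PF4.LM

open Finset Pool.Agent.TFC Pool.Agent.PF4 Pool.Agent.PF4.XF Pool.Agent.PF4.XU Pool.Agent.PF4.XT

section
variable {D : Finset (Finset (Sym2 ℕ))} {c : Clu ℕ} {F : Finset (Sym2 ℕ)} {Ac : Finset (Sym2 ℕ) → Prop}
  {V : Finset ℕ} {pl mi : ℕ → Prop} {x y r s : ℕ}

/-- the path that blocks `r s` -/
def Blk3 (c : Clu ℕ) (F : Finset (Sym2 ℕ)) (r s : ℕ) : Prop := K2 c ∧ Sf F ∧ ∃ a b, P3 F r a b s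

theorem m2_of_le {K : Finset (Sym2 ℕ)} (hn : NoLoop K) (h : ∀ w, dv K w ≤ 2) : M2 K := M2.of_dv hn h

theorem Lo.le (H : Lo D c F Ac V) (w : ℕ) : dv F w ≤ 2 := by
  rw [dv_apply]; exact_mod_cast H.m2.le w

theorem Lo.k4le (H : Lo D c F Ac V) {Y : Finset ℕ} (hc : c = Clu.k4 Y) : #F ≤ 3 := by
  have hv := H.val
  have hs := H.sub
  have hk := H.kd Y hc
  rw [hc] at hv hs
  exact k4_le hv (fun Z h1 h2 => hk Z h1 (by rw [hc]; exact h2)) hs ⟨H.m2, H.fr⟩

theorem free_card' (hD : ∀ Z ∈ D, IsSq Z) {K : Finset (Sym2 ℕ)} (h : #K ≤ 3) : ∀ Z ∈ D, ¬ Z ⊆ K :=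
  fun Z hZ => sf_of_card (by omega) Z (hD Z hZ)

/-- move one end of an edge: `a b` is replaced by `d b` -/
theorem swap_card {K : Finset (Sym2 ℕ)} {e f : Sym2 ℕ} (he : e ∈ K) : #(insert f (K.erase e)) ≤ #K := by
  refine (card_insert_le _ _).trans ?_
  rw [card_erase_of_mem he]
  have : 0 < #K := card_pos.2 ⟨e, he⟩
  omega

/-- **(L2)**, `K4`: `r` has two edges -/
theorem Lo.L2k (H : Lo D c F Ac V) {Y : Finset ℕ} (hc : c = Clu.k4 Y) (he : s(r, s) ∈ c.edges) (hn : s(r, s) ∉ F)
    (hr : 2 ≤ dg F r) : Mv V pl mi c Ac F (ev s - ev r) := by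
  have z0 : ph V pl mi 0 ≤ 0 := (ph_zero V pl mi).le
  have hrs : r ≠ s := H.nl.ne he
  have h3 := H.k4le hc
  subst hc
  obtain ⟨k, hk⟩ := exists_nbr (z := F) (v := r) (by omega)
  obtain ⟨k', hk'k, hk'⟩ := exists_nbr_ne hr k
  have hrk : r ≠ k := H.m2.nl.ne hk
  have hrk' : r ≠ k' := H.m2.nl.ne hk'
  have hsk : s ≠ k := by rintro rfl; exact hn hk
  have hsk' : s ≠ k' := by rintro rfl; exact hn hk'
  -- the general step
  have key : ∀ k, s(r, k) ∈ F → s ≠ k → s(s, k) ∉ F → dg F s ≤ 1 → Mv V pl mi (Clu.k4 Y) Ac F (ev s - ev r) := by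
    intro k hk hsk hnk hds
    have hrk : r ≠ k := H.m2.nl.ne hk
    have hke := H.sub hk
    have hske : s(s, k) ∈ (Clu.k4 Y).edges := mem_k4.2 ⟨(mem_k4.1 he).2.1, (mem_k4.1 hke).2.1, hsk⟩
    have hK : insert s(s, k) (F.erase s(r, k)) ⊆ (Clu.k4 Y).edges :=
      insert_subset hske ((erase_subset _ _).trans H.sub)
    have hdv' : dv (insert s(s, k) (F.erase s(r, k))) = dv F + (ev s - ev r) + 0 := by
      rw [TFC.dv_insert hsk (fun h => hnk (mem_of_mem_erase h)), TFC.dv_erase hrk hk]; module
    refine ⟨_, hK, ?_, 0, z0, hdv'⟩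
    rw [H.a4 Y rfl]
    refine ⟨M2.of_dv (H.nl.mono hK) ?_, free_card' H.isq ((swap_card hk).trans h3)⟩
    intro w
    rw [hdv']
    have g1 := H.le w
    simp only [Pi.add_apply, Pi.sub_apply, Pi.zero_apply, ev_apply]
    by_cases e1 : w = s
    · subst e1
      have : dv F w ≤ 1 := by rw [dv_apply]; exact_mod_cast hds
      rw [if_pos rfl, if_neg hrs.symm]
      linarith
    · rw [if_neg e1]
      split_ifs <;> linarith
  by_cases h1 : s(s, k) ∈ F
  · have h2 : s(s, k') ∉ F := by
      intro h2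
      -- four edges
      have : ({s(r, k), s(r, k'), s(s, k), s(s, k')} : Finset (Sym2 ℕ)) ⊆ F := by
        intro e he
        simp only [mem_insert, mem_singleton] at he
        rcases he with rfl | rfl | rfl | rfl <;> assumption
      have h5 := card_le_card this
      have h6 : #({s(r, k), s(r, k'), s(s, k), s(s, k')} : Finset (Sym2 ℕ)) = 4 := by
        rw [card_insert_of_notMem, card_insert_of_notMem, card_insert_of_notMem, card_singleton]
        · rw [mem_singleton]
          intro h; exact hk'k (sym2_inj_left h).symm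
        · simp only [mem_insert, mem_singleton, Sym2.eq_iff]
          rintro ((⟨g, _⟩ | ⟨g, _⟩) | (⟨g, _⟩ | ⟨g, _⟩))
          · exact hrs g
          · exact hrk g
          · exact hrs g
          · exact hrk' g
        · simp only [mem_insert, mem_singleton, Sym2.eq_iff]
          rintro ((⟨_, g⟩ | ⟨g, _⟩) | (⟨g, _⟩ | ⟨g, _⟩) | (⟨g, _⟩ | ⟨g, _⟩))
          · exact hk'k g.symm
          · exact hrk' g
          · exact hrs g
          · exact hrk g
          · exact hrs g
          · exact hrk' g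
      omega
    refine key k' hk' hsk' h2 ?_
    by_contra h4
    -- the edges at `s` are `sk` and `s w` with `w` the fourth vertex, which does not exist
    obtain ⟨w, hwk, hw⟩ := exists_nbr_ne (z := F) (v := s) (by omega) k
    have m1 := mem_k4.1 (H.sub hw)
    have m2 := mem_k4.1 (H.sub hk)
    have m3 := mem_k4.1 (H.sub hk')
    have hwr : w ≠ r := by rintro rfl; exact hn (by rw [Sym2.eq_swap]; exact hw)
    have hwk' : w ≠ k' := by rintro rfl; exact h2 hw
    have h5 : ({s, w, r, k, k'} : Finset ℕ) ⊆ Y := by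
      intro v hv
      simp only [mem_insert, mem_singleton] at hv
      rcases hv with rfl | rfl | rfl | rfl | rfl
      · exact m1.1
      · exact m1.2.1
      · exact m2.1
      · exact m2.2.1
      · exact m3.2.1
    have h6 := card_le_card h5
    have h7 : #({s, w, r, k, k'} : Finset ℕ) = 5 := by
      rw [card_insert_of_notMem, card_insert_of_notMem, card_insert_of_notMem, card_insert_of_notMem, card_singleton]
      · rw [mem_singleton]; exact Ne.symm hk'k
      · simp only [mem_insert, mem_singleton, not_or]; exact ⟨hrk, hrk'⟩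
      · simp only [mem_insert, mem_singleton, not_or]; exact ⟨hwr, hwk, hwk'⟩
      · simp only [mem_insert, mem_singleton, not_or]; exact ⟨m1.2.2, hrs.symm, hsk, hsk'⟩
    have h8 : #Y = 4 := H.val
    omega
  · refine key k hk hsk h1 ?_
    by_contra h4
    obtain ⟨w, hwk, hw⟩ := exists_nbr_ne (z := F) (v := s) (by omega) k'
    have m1 := mem_k4.1 (H.sub hw)
    have m2 := mem_k4.1 (H.sub hk)
    have m3 := mem_k4.1 (H.sub hk')
    have hwr : w ≠ r := by rintro rfl; exact hn (by rw [Sym2.eq_swap]; exact hw)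
    have hwk' : w ≠ k := by rintro rfl; exact h1 hw
    have h5 : ({s, w, r, k, k'} : Finset ℕ) ⊆ Y := by
      intro v hv
      simp only [mem_insert, mem_singleton] at hv
      rcases hv with rfl | rfl | rfl | rfl | rfl
      · exact m1.1
      · exact m1.2.1
      · exact m2.1
      · exact m2.2.1
      · exact m3.2.1
    have h6 := card_le_card h5
    have h7 : #({s, w, r, k, k'} : Finset ℕ) = 5 := by
      rw [card_insert_of_notMem, card_insert_of_notMem, card_insert_of_notMem, card_insert_of_notMem, card_singleton]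
      · rw [mem_singleton]; exact Ne.symm hk'k
      · simp only [mem_insert, mem_singleton, not_or]; exact ⟨hrk, hrk'⟩
      · simp only [mem_insert, mem_singleton, not_or]; exact ⟨hwr, hwk', hwk⟩
      · simp only [mem_insert, mem_singleton, not_or]; exact ⟨m1.2.2, hrs.symm, hsk, hsk'⟩
    have h8 : #Y = 4 := H.val
    omega

/-- **(L2)** the link edge `r s` -/
theorem Lo.L2 (H : Lo D c F Ac V) (he : s(r, s) ∈ c.edges) (hn : s(r, s) ∉ F) (hvr : Vf pl mi c F r)
    (hvs : Vf pl mi c F s) :
    Mv V pl mi c Ac F (ev r + ev s) ∨ (Mv V pl mi c Ac F (ev r - ev s) ∧ 1 ≤ dg F s) ∨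
      (Mv V pl mi c Ac F (ev s - ev r) ∧ 1 ≤ dg F r) ∨ Blk3 c F r s := by
  have hrs : r ≠ s := H.nl.ne he
  have hins : insert s(r, s) F ⊆ c.edges := insert_subset he H.sub
  have hdv : dv (insert s(r, s) F) = dv F + (ev r + ev s) + 0 := by
    rw [TFC.dv_insert hrs hn]; module
  have z0 : ph V pl mi 0 ≤ 0 := (ph_zero V pl mi).le
  by_cases h4 : ∃ Y, c = Clu.k4 Y
  · obtain ⟨Y, hY⟩ := h4
    by_cases hr : 2 ≤ dg F r
    · exact Or.inr (Or.inr (Or.inl ⟨H.L2k hY he hn hr, by omega⟩))
    by_cases hs : 2 ≤ dg F s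
    · exact Or.inr (Or.inl ⟨H.L2k hY (by rw [Sym2.eq_swap]; exact he) (by rw [Sym2.eq_swap]; exact hn) hs, by omega⟩)
    have hcap : M2 (insert s(r, s) F) := by
      refine M2.of_dv (H.nl.mono hins) fun w => ?_
      rw [hdv]
      have g1 := H.le w
      simp only [Pi.add_apply, Pi.zero_apply, ev_apply]
      by_cases e1 : w = r
      · subst e1
        have : dv F w ≤ 1 := by rw [dv_apply]; exact_mod_cast (by omega : dg F w ≤ 1)
        rw [if_pos rfl, if_neg hrs]
        linarith
      · by_cases e2 : w = s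
        · subst e2
          have : dv F w ≤ 1 := by rw [dv_apply]; exact_mod_cast (by omega : dg F w ≤ 1)
          rw [if_neg e1, if_pos rfl]
          linarith
        · rw [if_neg e1, if_neg e2]
          linarith
    by_cases hf : ∀ Z ∈ D, ¬ Z ⊆ insert s(r, s) F
    · left
      refine ⟨_, hins, ?_, 0, z0, hdv⟩
      rw [H.a4 Y hY]
      exact ⟨hcap, hf⟩
    · right; left
      push Not at hf
      obtain ⟨Z, hZ, hZs⟩ := hf
      have hrZ : s(r, s) ∈ Z := by
        by_contra h'
        exact H.fr Z hZ ((subset_insert_iff_of_notMem h').1 hZs)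
      obtain ⟨a, b, ⟨ra, rb, _, ab, as, bs⟩, hZe⟩ := sq_edge (H.isq Z hZ) hrZ
      have hin : ∀ f ∈ Z, f ≠ s(r, s) → f ∈ F := fun f hf hne =>
        (mem_insert.1 (hZs hf)).resolve_left hne
      have f1 : s(r, a) ∈ F := hin _ (by rw [hZe]; simp [TFC.sq]) (fun h => as (sym2_inj_left h))
      have f2 : s(a, b) ∈ F := hin _ (by rw [hZe]; simp [TFC.sq]) (by
        rw [ne_eq, Sym2.eq_iff]
        rintro (⟨g, _⟩ | ⟨g, _⟩)
        · exact ra g.symm
        · exact as g)
      have f3 : s(s, b) ∈ F := hin _ (by rw [hZe]; simp [TFC.sq, Sym2.eq_swap]) (by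
        rw [ne_eq, Sym2.eq_iff]
        rintro (⟨g, _⟩ | ⟨_, g⟩)
        · exact hrs g.symm
        · exact rb g.symm)
      have h3 := H.k4le hY
      -- the triangle
      have hrb : s(r, b) ∉ F := fun h => hr (dg_ge_two f1 h ab)
      have hrbe : s(r, b) ∈ c.edges := by
        have e1 := H.sub f2
        have e2 := he
        rw [hY] at e1 e2 ⊢
        exact mem_k4.2 ⟨(mem_k4.1 e2).1, (mem_k4.1 e1).2.1, rb⟩
      have hK : insert s(r, b) (F.erase s(s, b)) ⊆ c.edges := insert_subset hrbe ((erase_subset _ _).trans H.sub)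
      have hdv' : dv (insert s(r, b) (F.erase s(s, b))) = dv F + (ev r - ev s) + 0 := by
        rw [TFC.dv_insert rb (fun h => hrb (mem_of_mem_erase h)), TFC.dv_erase bs.symm f3]; module
      refine ⟨⟨_, hK, ?_, 0, z0, hdv'⟩, dg_pos f3⟩
      rw [H.a4 Y hY]
      refine ⟨M2.of_dv (H.nl.mono hK) ?_, free_card' H.isq ((swap_card f3).trans h3)⟩
      intro w
      rw [hdv']
      have g1 := H.le w
      simp only [Pi.add_apply, Pi.sub_apply, Pi.zero_apply, ev_apply]
      by_cases e1 : w = r
      · subst e1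
        have : dv F w ≤ 1 := by rw [dv_apply]; exact_mod_cast (by omega : dg F w ≤ 1)
        rw [if_pos rfl, if_neg hrs]
        linarith
      · rw [if_neg e1]
        split_ifs <;> linarith
  · have hk2 : K2 c := by
      cases c with
      | k4 Y => exact absurd ⟨Y, rfl⟩ h4
      | k2 u v L => exact ⟨u, v, L, rfl⟩
    by_cases hS : Sf F
    · by_cases hS' : Sf (insert s(r, s) F)
      · left
        refine ⟨_, hins, ?_, 0, z0, hdv⟩
        rw [H.a2 hk2 hS]
        exact H.sqf hins hS'
      · obtain ⟨a, b, g1, g2, g3, g4⟩ := nsq_insert hS hS'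
        exact Or.inr (Or.inr (Or.inr ⟨hk2, hS, a, b, g1, g2, g3, g4⟩))
    · -- `F` is a square, `r` or `s` is a hub
      have key : ∀ r s h L', Hub c r h L' → s ∈ L' → s(r, s) ∉ F → Vf pl mi c F r → r ≠ s →
          Mv V pl mi c Ac F (ev s - ev r) ∧ 1 ≤ dg F r := by
        intro r s h L' hH hsL hn hvr hrs
        obtain ⟨a, b, ha, hb, hab, hF⟩ := hH.sq H.sub H.m2 hS
        have key : ∀ a b, a ∈ L' → b ∈ L' → a ≠ b → F = TFC.sq r a h b → (mi b → pl b) →
            Mv V pl mi c Ac F (ev s - ev r) := by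
          intro a b ha hb hab hF hnX
          have hsa : s ≠ a := by
            rintro rfl
            exact hn (by rw [hF]; simp [TFC.sq])
          have d4 : Dist4 r a h b := ⟨fun e => hH.rL (e ▸ ha), hH.rh, fun e => hH.rL (e ▸ hb),
            fun e => hH.hL (e ▸ ha), hab, fun e => hH.hL (e ▸ hb)⟩
          have s1 : ({a} : Finset ℕ) ⊆ L' := singleton_subset_iff.2 ha
          have s2 : ({a, s} : Finset ℕ) ⊆ L' := insert_subset ha (singleton_subset_iff.2 hsL)
          refine ⟨tw r h {a} {a, s}, by rw [hH.edges]; exact tw_sub s1 s2, ?_, (-2 : ℤ) • ev b, ?_, ?_⟩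
          · rw [H.a2' hk2 hS]
            refine acap_tw H.isq hH.rh hH.rL hH.hL s1 s2 (by simp) card_le_two ?_
            exact (card_le_card inter_subset_left).trans (by simp)
          · rw [← single_ev, ph_one (H.vV s(r, b) (hH.mem.2 hb) b (by simp))]
            exact con_notX hnX
          · rw [dv_tw12 hH.rh hH.rL hH.hL hsa.symm s1 s2, hF, dv_sq' d4]
            module
        refine ⟨?_, ?_⟩
        · rcases hvr h L' a b hH ha hb hab hF with g | g
          · refine key b a hb ha hab.symm ?_ g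
            rw [hF, XT.sq_ref, XT.sq_rot, XT.sq_rot, XT.sq_rot]
          · exact key a b ha hb hab hF g
        · exact dg_pos (a := a) (by rw [hF]; simp [TFC.sq])
      rcases hub_edge H.val hk2 he with ⟨h, L', hH, hsL⟩ | ⟨h, L', hH, hrL⟩
      · exact Or.inr (Or.inr (Or.inl (key r s h L' hH hsL hn hvr hrs)))
      · exact Or.inr (Or.inl (key s r h L' hH hrL (by rw [Sym2.eq_swap]; exact hn) hvs hrs.symm))

/-- **(L3)** the edges `x r` and `r s` in one cluster -/
theorem Lo.L3 (H : Lo D c F Ac V) (hx : ∀ f ∈ F, x ∉ f) (he : s(x, r) ∈ c.edges) (he' : s(r, s) ∈ c.edges)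
    (hn : s(r, s) ∉ F) (hxs : x ≠ s) (hvr : Vf pl mi c F r) :
    Mv V pl mi c Ac F (ev x + ev r + (ev r + ev s)) ∨ Mv V pl mi c Ac F (ev x + ev s) ∨ Blk3 c F r s := by
  have hrs : r ≠ s := H.nl.ne he'
  have hxr : x ≠ r := H.nl.ne he
  have z0 : ph V pl mi 0 ≤ 0 := (ph_zero V pl mi).le
  by_cases h4 : ∃ Y, c = Clu.k4 Y
  · obtain ⟨Y, hY⟩ := h4
    right; left
    have hxse : s(x, s) ∈ c.edges := by
      rw [hY] at he he' ⊢
      exact mem_k4.2 ⟨(mem_k4.1 he).1, (mem_k4.1 he').2.1, hxs⟩
    have hni : s(x, s) ∉ F := not_mem_of hx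
    have hins : insert s(x, s) F ⊆ c.edges := insert_subset hxse H.sub
    have hdv : dv (insert s(x, s) F) = dv F + (ev x + ev s) + 0 := by
      rw [TFC.dv_insert hxs hni]; module
    have hds : dg F s ≤ 1 := by
      by_contra hc
      obtain ⟨k, hk⟩ := exists_nbr (z := F) (v := s) (by omega)
      obtain ⟨k', hk'k, hk'⟩ := exists_nbr_ne (z := F) (v := s) (by omega) k
      have m0 := he
      have m0' := he'
      have m1 := H.sub hk
      have m2 := H.sub hk'
      rw [hY] at m0 m0' m1 m2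
      rw [mem_k4] at m0 m0' m1 m2
      have n1 : k ≠ x := by rintro rfl; exact hx _ hk (by simp)
      have n2 : k' ≠ x := by rintro rfl; exact hx _ hk' (by simp)
      have n3 : k ≠ r := by rintro rfl; exact hn (by rw [Sym2.eq_swap]; exact hk)
      have n4 : k' ≠ r := by rintro rfl; exact hn (by rw [Sym2.eq_swap]; exact hk')
      have h5 : ({s, x, r, k, k'} : Finset ℕ) ⊆ Y := by
        intro v hv
        simp only [mem_insert, mem_singleton] at hv
        rcases hv with rfl | rfl | rfl | rfl | rfl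
        · exact m1.1
        · exact m0.1
        · exact m0.2.1
        · exact m1.2.1
        · exact m2.2.1
      have h6 := card_le_card h5
      have h7 : #({s, x, r, k, k'} : Finset ℕ) = 5 := by
        rw [card_insert_of_notMem, card_insert_of_notMem, card_insert_of_notMem, card_insert_of_notMem, card_singleton]
        · rw [mem_singleton]; exact Ne.symm hk'k
        · simp only [mem_insert, mem_singleton, not_or]; exact ⟨n3.symm, n4.symm⟩
        · simp only [mem_insert, mem_singleton, not_or]; exact ⟨hxr, n1.symm, n2.symm⟩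
        · simp only [mem_insert, mem_singleton, not_or]; exact ⟨hxs.symm, hrs.symm, m1.2.2, m2.2.2⟩
      have h8 : #Y = 4 := by have := H.val; rw [hY] at this; exact this
      omega
    refine ⟨_, hins, ?_, 0, z0, hdv⟩
    rw [H.a4 Y hY]
    refine ⟨M2.of_dv (H.nl.mono hins) ?_, free_insert H.isq H.fr (v := x) (by simp) hx⟩
    intro w
    rw [hdv]
    have g1 := H.le w
    simp only [Pi.add_apply, Pi.zero_apply, ev_apply]
    by_cases e1 : w = x
    · subst e1
      have : dv F w = 0 := by rw [dv_apply, dg_zero hx]; rfl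
      rw [if_pos rfl, if_neg hxs]
      linarith
    · by_cases e2 : w = s
      · subst e2
        have : dv F w ≤ 1 := by rw [dv_apply]; exact_mod_cast hds
        rw [if_neg e1, if_pos rfl]
        linarith
      · rw [if_neg e1, if_neg e2]
        linarith
  · have hk2 : K2 c := by
      cases c with
      | k4 Y => exact absurd ⟨Y, rfl⟩ h4
      | k2 u v L => exact ⟨u, v, L, rfl⟩
    by_cases hS : Sf F
    · by_cases hS' : Sf (insert s(r, s) F)
      · left
        have hx' : ∀ f ∈ insert s(r, s) F, x ∉ f := by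
          intro f hf
          rcases mem_insert.1 hf with rfl | hf
          · rw [Sym2.mem_iff]; exact fun h => h.elim hxr hxs
          · exact hx f hf
        have hins : insert s(x, r) (insert s(r, s) F) ⊆ c.edges := insert_subset he (insert_subset he' H.sub)
        refine ⟨_, hins, ?_, 0, z0, ?_⟩
        · rw [H.a2 hk2 hS]
          exact H.sqf hins (hS'.insert (v := x) (by simp) hx')
        · rw [TFC.dv_insert hxr (not_mem_of hx'), TFC.dv_insert hrs hn]; module
      · obtain ⟨a, b, g1, g2, g3, g4⟩ := nsq_insert hS hS'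
        exact Or.inr (Or.inr ⟨hk2, hS, a, b, g1, g2, g3, g4⟩)
    · right; left
      rcases hub_edge H.val hk2 he with ⟨h, L', hH, hr⟩ | ⟨h, L', hH, hxL⟩
      · obtain ⟨f, hf, hxf⟩ := H.full hH hS
        exact absurd hxf (hx f hf)
      · have hsL : s ∈ L' := hH.mem.1 he'
        obtain ⟨a, b, ha, hb, hab, hF⟩ := hH.sq H.sub H.m2 hS
        have key : ∀ a b, a ∈ L' → b ∈ L' → a ≠ b → F = TFC.sq r a h b → (mi b → pl b) →
            Mv V pl mi c Ac F (ev x + ev s) := by
          intro a b ha hb hab hF hnX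
          have hxa : x ≠ a := by
            rintro rfl
            exact hx s(r, x) (by rw [hF]; simp [TFC.sq]) (by simp)
          have hsa : s ≠ a := by
            rintro rfl
            exact hn (by rw [hF]; simp [TFC.sq])
          have d4 : Dist4 r a h b := ⟨fun e => hH.rL (e ▸ ha), hH.rh, fun e => hH.rL (e ▸ hb),
            fun e => hH.hL (e ▸ ha), hab, fun e => hH.hL (e ▸ hb)⟩
          have s1 : ({a, x} : Finset ℕ) ⊆ L' := insert_subset ha (singleton_subset_iff.2 hxL)
          have s2 : ({a, s} : Finset ℕ) ⊆ L' := insert_subset ha (singleton_subset_iff.2 hsL)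
          refine ⟨tw r h {a, x} {a, s}, by rw [hH.edges]; exact tw_sub s1 s2, ?_, (-2 : ℤ) • ev b, ?_, ?_⟩
          · rw [H.a2' hk2 hS]
            exact acap_tw H.isq hH.rh hH.rL hH.hL s1 s2 card_le_two card_le_two (card_inter_le hxa.symm hxs)
          · rw [← single_ev, ph_one (H.vV s(r, b) (hH.mem.2 hb) b (by simp))]
            exact con_notX hnX
          · rw [dv_tw22 hH.rh hH.rL hH.hL hxa.symm hsa.symm s1 s2, hF, dv_sq' d4]
            module
        rcases hvr h L' a b hH ha hb hab hF with g | g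
        · refine key b a hb ha hab.symm ?_ g
          rw [hF, XT.sq_ref, XT.sq_rot, XT.sq_rot, XT.sq_rot]
        · exact key a b ha hb hab hF g

/-- **(L5)** the edges `x r` and `y s` in one cluster which does not contain `x y` -/
theorem Lo.L5 (H : Lo D c F Ac V) (hx : ∀ f ∈ F, x ∉ f) (hy : ∀ f ∈ F, y ∉ f) (he : s(x, r) ∈ c.edges)
    (he' : s(y, s) ∈ c.edges) (hxy : s(x, y) ∉ c.edges) (nxy : x ≠ y) (hxs : x ≠ s) (hyr : y ≠ r) (nrs : r ≠ s)
    (hvr : Vf pl mi c F r) :
    Mv V pl mi c Ac F (ev x + ev r + (ev y + ev s)) ∨ Mv V pl mi c Ac F (ev x + ev y) := by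
  have hxr : x ≠ r := H.nl.ne he
  have hys : y ≠ s := H.nl.ne he'
  have z0 : ph V pl mi 0 ≤ 0 := (ph_zero V pl mi).le
  have hk2 : K2 c := by
    cases c with
    | k4 Y =>
      exact absurd (mem_k4.2 ⟨(mem_k4.1 he).1, (mem_k4.1 he').1, nxy⟩) hxy
    | k2 u v L => exact ⟨u, v, L, rfl⟩
  by_cases hS : Sf F
  · left
    have hx' : ∀ f ∈ insert s(y, s) F, x ∉ f := by
      intro f hf
      rcases mem_insert.1 hf with rfl | hf
      · rw [Sym2.mem_iff]; exact fun h => h.elim nxy hxs
      · exact hx f hf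
    have hins : insert s(x, r) (insert s(y, s) F) ⊆ c.edges := insert_subset he (insert_subset he' H.sub)
    refine ⟨_, hins, ?_, 0, z0, ?_⟩
    · rw [H.a2 hk2 hS]
      exact H.sqf hins ((hS.insert (v := y) (by simp) hy).insert (v := x) (by simp) hx')
    · rw [TFC.dv_insert hxr (not_mem_of hx'), TFC.dv_insert hys (not_mem_of hy)]; module
  · right
    rcases hub_edge H.val hk2 he with ⟨h, L', hH, hr⟩ | ⟨h, L', hH, hxL⟩
    · obtain ⟨f, hf, hxf⟩ := H.full hH hS
      exact absurd hxf (hx f hf)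
    · -- `y` is a leaf, `s = h`
      have hyL : y ∈ L' ∧ s = h := by
        have h1 := he'
        rw [hH.edges, mem_k2] at h1
        rcases h1 with ⟨g | g, _⟩ | ⟨g | g, g'⟩
        · exact absurd g hyr
        · obtain ⟨f, hf, hyf⟩ := H.full hH.symm hS
          rw [← g] at hyf
          exact absurd hyf (hy f hf)
        · exact absurd g nrs.symm
        · exact ⟨g', g⟩
      obtain ⟨hyL, rfl⟩ := hyL
      obtain ⟨a, b, ha, hb, hab, hF⟩ := hH.sq H.sub H.m2 hS
      have key : ∀ a b, a ∈ L' → b ∈ L' → a ≠ b → F = TFC.sq r a s b → (mi b → pl b) →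
          Mv V pl mi c Ac F (ev x + ev y) := by
        intro a b ha hb hab hF hnX
        have hxa : x ≠ a := by
          rintro rfl
          exact hx s(r, x) (by rw [hF]; simp [TFC.sq]) (by simp)
        have hya : y ≠ a := by
          rintro rfl
          exact hy s(r, y) (by rw [hF]; simp [TFC.sq]) (by simp)
        have d4 : Dist4 r a s b := ⟨fun e => hH.rL (e ▸ ha), hH.rh, fun e => hH.rL (e ▸ hb),
          fun e => hH.hL (e ▸ ha), hab, fun e => hH.hL (e ▸ hb)⟩
        have s1 : ({a, x} : Finset ℕ) ⊆ L' := insert_subset ha (singleton_subset_iff.2 hxL)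
        have s2 : ({a, y} : Finset ℕ) ⊆ L' := insert_subset ha (singleton_subset_iff.2 hyL)
        refine ⟨tw r s {a, x} {a, y}, by rw [hH.edges]; exact tw_sub s1 s2, ?_, (-2 : ℤ) • ev b, ?_, ?_⟩
        · rw [H.a2' hk2 hS]
          exact acap_tw H.isq hH.rh hH.rL hH.hL s1 s2 card_le_two card_le_two (card_inter_le hxa.symm nxy)
        · rw [← single_ev, ph_one (H.vV s(r, b) (hH.mem.2 hb) b (by simp))]
          exact con_notX hnX
        · rw [dv_tw22 hH.rh hH.rL hH.hL hxa.symm hya.symm s1 s2, hF, dv_sq' d4]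
          module
      rcases hvr s L' a b hH ha hb hab hF with g | g
      · refine key b a hb ha hab.symm ?_ g
        rw [hF, XT.sq_ref, XT.sq_rot, XT.sq_rot, XT.sq_rot]
      · exact key a b ha hb hab hF g

end

end Pool.Agent.PF4.LM
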