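import Pool.Agent.PF4.Pool

/-!
The digon lemma of the solver for a conflict-free family of squares (note 1993 on MP_d66f00_lc), in
abstract graded form.  `H k x` = the vector `x` is available at stage `k`.  `o` is the vector of the
relaxed configuration (token `t` used), `o - e_t - e_v` and `o - e_t + e_v` are the vectors of the
facts `(v, -)` and `(v, +)` (token not used).
-/

set_option autoImplicit false

namespace Pool.Agent.PF4.LD

open Pool.Agent.TFC

/-- a graded family of vectors, closed under the two-step exchange (first step in `I`) -/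
structure Gr (I : ℕ → Prop) (H : ℕ → (ℕ → ℤ) → Prop) : Prop where
  mono : ∀ k x, H k x → H (k + 1) x
  ex : ∀ k x y (i : ℕ) (ε : ℤ), I i → H k x → H k y → (ε = 1 ∨ ε = -1) → 0 < ε * (y i - x i) →
    ∃ z, H (k + 1) z ∧ Two x y z i ε

theorem Gr.up {I : ℕ → Prop} {H : ℕ → (ℕ → ℤ) → Prop} (G : Gr I H) {k l : ℕ} (h : k ≤ l)
    {x : ℕ → ℤ} (hx : H k x) : H l x := by
  induction l, h using Nat.le_induction with
  | base => exact hx
  | succ n _ ih => exact G.mono _ _ ih

theorem evv (a v : ℕ) : (ev a : ℕ → ℤ) v = if v = a then 1 else 0 := ev_apply a v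

theorem sgl (i : ℕ) (ε : ℤ) (v : ℕ) : (Pi.single i ε : ℕ → ℤ) v = if v = i then ε else 0 := by
  rw [Pi.single_apply]

/-- change the vector -/
theorem cgH {H : ℕ → (ℕ → ℤ) → Prop} {k : ℕ} {x y : ℕ → ℤ} (h : H k x) (e : ∀ v, x v = y v) :
    H k y := by
  rw [← funext e]; exact h

section
variable {I : ℕ → Prop} {H : ℕ → (ℕ → ℤ) → Prop} {o : ℕ → ℤ} {t a p c w k : ℕ}

/-- STAR: both ends of the digon have an unknown deficit port -/
theorem d_star (G : Gr I H) {σ : ℤ} (hσ : σ = 1 ∨ σ = -1) (hw : I w) (hat : a ≠ t) (hpt : p ≠ t)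
    (hap : a ≠ p) (hwt : w ≠ t) (hY : H k (o - ev t + σ • ev w)) (ha : ¬(σ = -1 ∧ w = a))
    (hp : ¬(σ = -1 ∧ w = p)) (h1 : H k (o - ev a - ev p)) :
    H (k + 1) o ∨ H (k + 1) (o - ev t - ev a) ∨ H (k + 1) (o - ev t - ev p) := by
  obtain ⟨z, hz, j, δ, hδ, h, rfl⟩ := G.ex k _ _ w (-σ) hw hY h1 (by omega) (by
    simp only [Pi.add_apply, Pi.sub_apply, Pi.smul_apply, evv, smul_eq_mul]
    split_ifs <;> rcases hσ with rfl | rfl <;>
      first | (exfalso; omega) | omega | (simp_all; done) | (exfalso; simp_all; omega))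
  simp only [Pi.add_apply, Pi.sub_apply, Pi.smul_apply, evv, sgl, smul_eq_mul] at h
  have key : (j = t ∧ δ = 1) ∨ (j = a ∧ δ = -1) ∨ (j = p ∧ δ = -1) := by
    split_ifs at h <;> rcases hσ with rfl | rfl <;> rcases hδ with rfl | rfl <;>
      first | (exfalso; omega) | omega | (simp_all; done) | (exfalso; simp_all; omega)
  rcases key with ⟨rfl, rfl⟩ | ⟨rfl, rfl⟩ | ⟨rfl, rfl⟩
  · left; exact cgH hz (by intro v; simp only [Pi.add_apply, Pi.sub_apply, Pi.smul_apply, evv, sgl, smul_eq_mul]; split_ifs <;> ring)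
  · right; left; exact cgH hz (by intro v; simp only [Pi.add_apply, Pi.sub_apply, Pi.smul_apply, evv, sgl, smul_eq_mul]; split_ifs <;> ring)
  · right; right; exact cgH hz (by intro v; simp only [Pi.add_apply, Pi.sub_apply, Pi.smul_apply, evv, sgl, smul_eq_mul]; split_ifs <;> ring)

/-- L2: the vertex `c` has a known deficit port -/
theorem d_plus (G : Gr I H) (ha : I a) (hat : a ≠ t) (hct : c ≠ t) (hac : a ≠ c)
    (hY : H k (o - ev t - ev c)) (hX : H k (o - ev a + ev c)) :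
    H (k + 1) o ∨ H (k + 1) (o - ev t + ev c) := by
  obtain ⟨z, hz, j, δ, hδ, h, rfl⟩ := G.ex k _ _ a 1 ha hX hY (by omega) (by
    simp only [Pi.add_apply, Pi.sub_apply, evv]
    split_ifs <;>
      first | (exfalso; omega) | omega | (simp_all; done) | (exfalso; simp_all; omega))
  simp only [Pi.add_apply, Pi.sub_apply, evv, sgl] at h
  have key : (j = t ∧ δ = -1) ∨ (j = c ∧ δ = -1) := by
    split_ifs at h <;> rcases hδ with rfl | rfl <;>
      first | (exfalso; omega) | omega | (simp_all; done) | (exfalso; simp_all; omega)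
  rcases key with ⟨rfl, rfl⟩ | ⟨rfl, rfl⟩
  · right; exact cgH hz (by intro v; simp only [Pi.add_apply, Pi.sub_apply, Pi.smul_apply, evv, sgl, smul_eq_mul]; split_ifs <;> ring)
  · left; exact cgH hz (by intro v; simp only [Pi.add_apply, Pi.sub_apply, Pi.smul_apply, evv, sgl, smul_eq_mul]; split_ifs <;> ring)

/-- L1a: `a` has a known surplus port -/
theorem d_a (G : Gr I H) (ha : I a) (hp : I p) (ht : I t) (hat : a ≠ t) (hpt : p ≠ t)
    (hap : a ≠ p) (hY : H k (o - ev t + ev a)) (h1 : H k (o - ev a - ev p))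
    (h2 : H k (o - (2 : ℤ) • ev a - (2 : ℤ) • ev p)) :
    H (k + 3) o ∨ H (k + 3) (o - ev t - ev p) := by
  -- step 1: from Y towards X1, first step at a
  obtain ⟨z, hz, j, δ, hδ, h, rfl⟩ := G.ex k _ _ a (-1) ha hY h1 (by omega) (by
    simp only [Pi.add_apply, Pi.sub_apply, evv]
    split_ifs <;>
      first | (exfalso; omega) | omega | (simp_all; done) | (exfalso; simp_all; omega))
  simp only [Pi.add_apply, Pi.sub_apply, evv, sgl] at h
  have key : (j = t ∧ δ = 1) ∨ (j = a ∧ δ = -1) ∨ (j = p ∧ δ = -1) := by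
    split_ifs at h <;> rcases hδ with rfl | rfl <;>
      first | (exfalso; omega) | omega | (simp_all; done) | (exfalso; simp_all; omega)
  rcases key with ⟨rfl, rfl⟩ | ⟨rfl, rfl⟩ | ⟨rfl, rfl⟩
  · left; apply G.up (show k + 1 ≤ k + 3 by omega); exact cgH hz (by intro v; simp only [Pi.add_apply, Pi.sub_apply, Pi.smul_apply, evv, sgl, smul_eq_mul]; split_ifs <;> ring)
  · -- z1 = o - e_t - e_a
    have hz1 : H (k + 1) (o - ev t - ev j) := by exact cgH hz (by intro v; simp only [Pi.add_apply, Pi.sub_apply, Pi.smul_apply, evv, sgl, smul_eq_mul]; split_ifs <;> ring)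
    obtain ⟨z, hz, i, δ, hδ, h, rfl⟩ := G.ex (k + 1) _ _ j (-1) ha hz1 (G.mono _ _ h2) (by omega) (by
      simp only [Pi.sub_apply, Pi.smul_apply, evv, smul_eq_mul]
      split_ifs <;>
      first | (exfalso; omega) | omega | (simp_all; done) | (exfalso; simp_all; omega))
    simp only [Pi.add_apply, Pi.sub_apply, Pi.smul_apply, evv, sgl, smul_eq_mul] at h
    have key : (i = t ∧ δ = 1) ∨ (i = p ∧ δ = -1) := by
      split_ifs at h <;> rcases hδ with rfl | rfl <;>
      first | (exfalso; omega) | omega | (simp_all; done) | (exfalso; simp_all; omega)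
    rcases key with ⟨rfl, rfl⟩ | ⟨rfl, rfl⟩
    · -- z3 = o - 2 e_a
      have hz3 : H (k + 2) (o - (2 : ℤ) • ev j) := by exact cgH hz (by intro v; simp only [Pi.add_apply, Pi.sub_apply, Pi.smul_apply, evv, sgl, smul_eq_mul]; split_ifs <;> ring)
      obtain ⟨z, hz, l, δ, hδ, h, rfl⟩ := G.ex (k + 2) _ _ i 1 ht
        (G.up (show k ≤ k + 2 by omega) hY) hz3 (by omega) (by
        simp only [Pi.add_apply, Pi.sub_apply, Pi.smul_apply, evv, smul_eq_mul]
        split_ifs <;>
      first | (exfalso; omega) | omega | (simp_all; done) | (exfalso; simp_all; omega))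
      simp only [Pi.add_apply, Pi.sub_apply, Pi.smul_apply, evv, sgl, smul_eq_mul] at h
      have key : l = j ∧ δ = -1 := by
        split_ifs at h <;> rcases hδ with rfl | rfl <;>
      first | (exfalso; omega) | omega | (simp_all; done) | (exfalso; simp_all; omega)
      obtain ⟨rfl, rfl⟩ := key
      left; exact cgH hz (by intro v; simp only [Pi.add_apply, Pi.sub_apply, Pi.smul_apply, evv, sgl, smul_eq_mul]; split_ifs <;> ring)
    · -- z2 = o - e_t - 2 e_a - e_p
      have hz2 : H (k + 2) (o - ev t - (2 : ℤ) • ev j - ev i) := by exact cgH hz (by intro v; simp only [Pi.add_apply, Pi.sub_apply, Pi.smul_apply, evv, sgl, smul_eq_mul]; split_ifs <;> ring)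
      obtain ⟨z, hz, l, δ, hδ, h, rfl⟩ := G.ex (k + 2) _ _ i (-1) hp
        (G.up (show k ≤ k + 2 by omega) hY) hz2 (by omega) (by
        simp only [Pi.add_apply, Pi.sub_apply, Pi.smul_apply, evv, smul_eq_mul]
        split_ifs <;>
      first | (exfalso; omega) | omega | (simp_all; done) | (exfalso; simp_all; omega))
      simp only [Pi.add_apply, Pi.sub_apply, Pi.smul_apply, evv, sgl, smul_eq_mul] at h
      have key : l = j ∧ δ = -1 := by
        split_ifs at h <;> rcases hδ with rfl | rfl <;>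
      first | (exfalso; omega) | omega | (simp_all; done) | (exfalso; simp_all; omega)
      obtain ⟨rfl, rfl⟩ := key
      right; exact cgH hz (by intro v; simp only [Pi.add_apply, Pi.sub_apply, Pi.smul_apply, evv, sgl, smul_eq_mul]; split_ifs <;> ring)
  · right; apply G.up (show k + 1 ≤ k + 3 by omega); exact cgH hz (by intro v; simp only [Pi.add_apply, Pi.sub_apply, Pi.smul_apply, evv, sgl, smul_eq_mul]; split_ifs <;> ring)

/-- L1b: both ends of the digon have a known surplus port -/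
theorem d_ab (G : Gr I H) (hp : I p) (ht : I t) (hat : a ≠ t) (hpt : p ≠ t)
    (hap : a ≠ p) (hY : H k (o - ev t + ev a)) (hY' : H k (o - ev t + ev p))
    (h1 : H k (o - ev a - ev p)) (h2 : H k (o - (2 : ℤ) • ev a - (2 : ℤ) • ev p)) :
    H (k + 3) o := by
  obtain ⟨z, hz, j, δ, hδ, h, rfl⟩ := G.ex k _ _ t 1 ht hY h1 (by omega) (by
    simp only [Pi.add_apply, Pi.sub_apply, evv]
    split_ifs <;>
      first | (exfalso; omega) | omega | (simp_all; done) | (exfalso; simp_all; omega))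
  simp only [Pi.add_apply, Pi.sub_apply, evv, sgl] at h
  have key : (j = a ∧ δ = -1) ∨ (j = p ∧ δ = -1) := by
    split_ifs at h <;> rcases hδ with rfl | rfl <;>
      first | (exfalso; omega) | omega | (simp_all; done) | (exfalso; simp_all; omega)
  rcases key with ⟨rfl, rfl⟩ | ⟨rfl, rfl⟩
  · apply G.up (show k + 1 ≤ k + 3 by omega); exact cgH hz (by intro v; simp only [Pi.add_apply, Pi.sub_apply, Pi.smul_apply, evv, sgl, smul_eq_mul]; split_ifs <;> ring)
  · have hz1 : H (k + 1) (o + ev a - ev j) := by exact cgH hz (by intro v; simp only [Pi.add_apply, Pi.sub_apply, Pi.smul_apply, evv, sgl, smul_eq_mul]; split_ifs <;> ring)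
    obtain ⟨z, hz, i, δ, hδ, h, rfl⟩ := G.ex (k + 1) _ _ j (-1) hp hz1 (G.mono _ _ h2) (by omega) (by
      simp only [Pi.add_apply, Pi.sub_apply, Pi.smul_apply, evv, smul_eq_mul]
      split_ifs <;>
      first | (exfalso; omega) | omega | (simp_all; done) | (exfalso; simp_all; omega))
    simp only [Pi.add_apply, Pi.sub_apply, Pi.smul_apply, evv, sgl, smul_eq_mul] at h
    have key : i = a ∧ δ = -1 := by
      split_ifs at h <;> rcases hδ with rfl | rfl <;>
      first | (exfalso; omega) | omega | (simp_all; done) | (exfalso; simp_all; omega)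
    obtain ⟨rfl, rfl⟩ := key
    have hz2 : H (k + 2) (o - (2 : ℤ) • ev j) := by exact cgH hz (by intro v; simp only [Pi.add_apply, Pi.sub_apply, Pi.smul_apply, evv, sgl, smul_eq_mul]; split_ifs <;> ring)
    obtain ⟨z, hz, l, δ, hδ, h, rfl⟩ := G.ex (k + 2) _ _ t 1 ht
      (G.up (show k ≤ k + 2 by omega) hY') hz2 (by omega) (by
      simp only [Pi.add_apply, Pi.sub_apply, Pi.smul_apply, evv, smul_eq_mul]
      split_ifs <;>
      first | (exfalso; omega) | omega | (simp_all; done) | (exfalso; simp_all; omega))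
    simp only [Pi.add_apply, Pi.sub_apply, Pi.smul_apply, evv, sgl, smul_eq_mul] at h
    have key : l = j ∧ δ = -1 := by
      split_ifs at h <;> rcases hδ with rfl | rfl <;>
      first | (exfalso; omega) | omega | (simp_all; done) | (exfalso; simp_all; omega)
    obtain ⟨rfl, rfl⟩ := key
    exact cgH hz (by intro v; simp only [Pi.add_apply, Pi.sub_apply, Pi.smul_apply, evv, sgl, smul_eq_mul]; split_ifs <;> ring)

/-- K4: the full square, `c` has a known surplus port -/
theorem d_sq (G : Gr I H) (ht : I t) (hct : c ≠ t) (hY : H k (o - ev t + ev c))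
    (hX : H k (o - (2 : ℤ) • ev c)) : H (k + 1) o := by
  obtain ⟨z, hz, j, δ, hδ, h, rfl⟩ := G.ex k _ _ t 1 ht hY hX (by omega) (by
    simp only [Pi.add_apply, Pi.sub_apply, Pi.smul_apply, evv, smul_eq_mul]
    split_ifs <;>
      first | (exfalso; omega) | omega | (simp_all; done) | (exfalso; simp_all; omega))
  simp only [Pi.add_apply, Pi.sub_apply, Pi.smul_apply, evv, sgl, smul_eq_mul] at h
  have key : j = c ∧ δ = -1 := by
    split_ifs at h <;> rcases hδ with rfl | rfl <;>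
      first | (exfalso; omega) | omega | (simp_all; done) | (exfalso; simp_all; omega)
  obtain ⟨rfl, rfl⟩ := key
  exact cgH hz (by intro v; simp only [Pi.add_apply, Pi.sub_apply, Pi.smul_apply, evv, sgl, smul_eq_mul]; split_ifs <;> ring)

/-- K4: the full square, the deficit port of `c` is unknown -/
theorem d_sq' (G : Gr I H) {σ : ℤ} (hσ : σ = 1 ∨ σ = -1) (hw : I w) (hct : c ≠ t) (hwt : w ≠ t)
    (hY : H k (o - ev t + σ • ev w)) (hc : ¬(σ = -1 ∧ w = c))
    (hX : H k (o - (2 : ℤ) • ev c)) : H (k + 1) o ∨ H (k + 1) (o - ev t - ev c) := by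
  obtain ⟨z, hz, j, δ, hδ, h, rfl⟩ := G.ex k _ _ w (-σ) hw hY hX (by omega) (by
    simp only [Pi.add_apply, Pi.sub_apply, Pi.smul_apply, evv, smul_eq_mul]
    split_ifs <;> rcases hσ with rfl | rfl <;>
      first | (exfalso; omega) | omega | (simp_all; done) | (exfalso; simp_all; omega))
  simp only [Pi.add_apply, Pi.sub_apply, Pi.smul_apply, evv, sgl, smul_eq_mul] at h
  have key : (j = t ∧ δ = 1) ∨ (j = c ∧ δ = -1) := by
    split_ifs at h <;> rcases hσ with rfl | rfl <;> rcases hδ with rfl | rfl <;>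
      first | (exfalso; omega) | omega | (simp_all; done) | (exfalso; simp_all; omega)
  rcases key with ⟨rfl, rfl⟩ | ⟨rfl, rfl⟩
  · left; exact cgH hz (by intro v; simp only [Pi.add_apply, Pi.sub_apply, Pi.smul_apply, evv, sgl, smul_eq_mul]; split_ifs <;> ring)
  · right; exact cgH hz (by intro v; simp only [Pi.add_apply, Pi.sub_apply, Pi.smul_apply, evv, sgl, smul_eq_mul]; split_ifs <;> ring)

end

/-! ### known and unknown ports -/

/-- the known ports: `Fm v` = `(v, -)` is known, `Fp v` = `(v, +)` is known -/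
structure Facts (I : ℕ → Prop) (H : ℕ → (ℕ → ℤ) → Prop) (o : ℕ → ℤ) (t k : ℕ)
    (Fm Fp : ℕ → Prop) : Prop where
  gr : Gr I H
  tI : I t
  m : ∀ v, Fm v → v ≠ t ∧ I v ∧ H k (o - ev t - ev v)
  p : ∀ v, Fp v → v ≠ t ∧ I v ∧ H k (o - ev t + ev v)
  some : (∃ v, Fm v) ∨ ∃ v, Fp v

/-- the vectors we want: `o` itself or an unknown port -/
def Gv (o : ℕ → ℤ) (t : ℕ) (Fm Fp : ℕ → Prop) (z : ℕ → ℤ) : Prop :=
  z = o ∨ (∃ v, v ≠ t ∧ ¬Fm v ∧ z = o - ev t - ev v) ∨ ∃ v, v ≠ t ∧ ¬Fp v ∧ z = o - ev t + ev v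

section
variable {I : ℕ → Prop} {H : ℕ → (ℕ → ℤ) → Prop} {o : ℕ → ℤ} {t a p c k : ℕ}
  {Fm Fp : ℕ → Prop}

/-- LEMMA D, case of a PLUS vertex `c` (deficit port known, surplus port unknown) -/
theorem lemD_plus (F : Facts I H o t k Fm Fp) (hc : Fm c) (hc' : ¬Fp c) (ha : I a) (hat : a ≠ t)
    (hac : a ≠ c) (hX : H k (o - ev a + ev c)) : ∃ z, Gv o t Fm Fp z ∧ H (k + 3) z := by
  obtain ⟨hct, _, hY⟩ := F.m c hc
  rcases d_plus F.gr ha hat hct hac hY hX with h | h
  · exact ⟨_, Or.inl rfl, F.gr.up (show k + 1 ≤ k + 3 by omega) h⟩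
  · exact ⟨_, Or.inr (Or.inr ⟨c, hct, hc', rfl⟩), F.gr.up (show k + 1 ≤ k + 3 by omega) h⟩

/-- LEMMA D, case of a digon without PLUS vertex -/
theorem lemD_digon (F : Facts I H o t k Fm Fp) (ha : I a) (hp : I p) (hat : a ≠ t) (hpt : p ≠ t)
    (hap : a ≠ p) (hFa : Fm a → Fp a) (hFp : Fm p → Fp p) (h1 : H k (o - ev a - ev p))
    (h2 : H k (o - (2 : ℤ) • ev a - (2 : ℤ) • ev p)) :
    ∃ z, Gv o t Fm Fp z ∧ H (k + 3) z := by
  classical
  have up1 : ∀ {x}, H (k + 1) x → H (k + 3) x := fun {x} h => F.gr.up (by omega) h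
  have h1' : H k (o - ev p - ev a) := by exact cgH h1 (by intro v; simp only [Pi.add_apply, Pi.sub_apply, Pi.smul_apply, evv, sgl, smul_eq_mul]; split_ifs <;> ring)
  have h2' : H k (o - (2 : ℤ) • ev p - (2 : ℤ) • ev a) := by exact cgH h2 (by intro v; simp only [Pi.add_apply, Pi.sub_apply, Pi.smul_apply, evv, sgl, smul_eq_mul]; split_ifs <;> ring)
  by_cases ma : Fm a
  · have pa := hFa ma
    by_cases mp : Fm p
    · exact ⟨_, Or.inl rfl, d_ab F.gr hp F.tI hat hpt hap (F.p a pa).2.2 (F.p p (hFp mp)).2.2 h1 h2⟩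
    · rcases d_a F.gr ha hp F.tI hat hpt hap (F.p a pa).2.2 h1 h2 with h | h
      · exact ⟨_, Or.inl rfl, h⟩
      · exact ⟨_, Or.inr (Or.inl ⟨p, hpt, mp, rfl⟩), h⟩
  · by_cases mp : Fm p
    · rcases d_a F.gr hp ha F.tI hpt hat (Ne.symm hap) (F.p p (hFp mp)).2.2 h1' h2' with h | h
      · exact ⟨_, Or.inl rfl, h⟩
      · exact ⟨_, Or.inr (Or.inl ⟨a, hat, ma, rfl⟩), h⟩
    · obtain ⟨σ, w, hσ, hw, hwt, hY, hwa, hwp⟩ : ∃ (σ : ℤ) (w : ℕ), (σ = 1 ∨ σ = -1) ∧ I w ∧ w ≠ t ∧
          H k (o - ev t + σ • ev w) ∧ ¬(σ = -1 ∧ w = a) ∧ ¬(σ = -1 ∧ w = p) := by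
        rcases F.some with ⟨v, hv⟩ | ⟨v, hv⟩
        · obtain ⟨q1, q2, q3⟩ := F.m v hv
          refine ⟨-1, v, by simp, q2, q1, ?_, ?_, ?_⟩
          · exact cgH q3 (by intro v; simp only [Pi.add_apply, Pi.sub_apply, Pi.smul_apply, evv, sgl, smul_eq_mul]; split_ifs <;> ring)
          · rintro ⟨_, rfl⟩; exact ma hv
          · rintro ⟨_, rfl⟩; exact mp hv
        · obtain ⟨q1, q2, q3⟩ := F.p v hv
          refine ⟨1, v, by simp, q2, q1, ?_, ?_, ?_⟩
          · exact cgH q3 (by intro v; simp only [Pi.add_apply, Pi.sub_apply, Pi.smul_apply, evv, sgl, smul_eq_mul]; split_ifs <;> ring)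
          · rintro ⟨h, _⟩; omega
          · rintro ⟨h, _⟩; omega
      rcases d_star F.gr hσ hw hat hpt hap hwt hY hwa hwp h1 with h | h | h
      · exact ⟨_, Or.inl rfl, up1 h⟩
      · exact ⟨_, Or.inr (Or.inl ⟨a, hat, ma, rfl⟩), up1 h⟩
      · exact ⟨_, Or.inr (Or.inl ⟨p, hpt, mp, rfl⟩), up1 h⟩

/-- LEMMA D, case of the full square of a `K4` with a vertex `c` which is not PLUS -/
theorem lemD_sq (F : Facts I H o t k Fm Fp) (hct : c ≠ t) (hFc : Fm c → Fp c)
    (hX : H k (o - (2 : ℤ) • ev c)) : ∃ z, Gv o t Fm Fp z ∧ H (k + 3) z := by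
  classical
  have up1 : ∀ {x}, H (k + 1) x → H (k + 3) x := fun {x} h => F.gr.up (by omega) h
  by_cases mc : Fm c
  · exact ⟨_, Or.inl rfl, up1 (d_sq F.gr F.tI hct (F.p c (hFc mc)).2.2 hX)⟩
  · obtain ⟨σ, w, hσ, hw, hwt, hY, hwc⟩ : ∃ (σ : ℤ) (w : ℕ), (σ = 1 ∨ σ = -1) ∧ I w ∧ w ≠ t ∧
        H k (o - ev t + σ • ev w) ∧ ¬(σ = -1 ∧ w = c) := by
      rcases F.some with ⟨v, hv⟩ | ⟨v, hv⟩
      · obtain ⟨q1, q2, q3⟩ := F.m v hv
        refine ⟨-1, v, by simp, q2, q1, ?_, ?_⟩
        · exact cgH q3 (by intro v; simp only [Pi.add_apply, Pi.sub_apply, Pi.smul_apply, evv, sgl, smul_eq_mul]; split_ifs <;> ring)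
        · rintro ⟨_, rfl⟩; exact mc hv
      · obtain ⟨q1, q2, q3⟩ := F.p v hv
        refine ⟨1, v, by simp, q2, q1, ?_, ?_⟩
        · exact cgH q3 (by intro v; simp only [Pi.add_apply, Pi.sub_apply, Pi.smul_apply, evv, sgl, smul_eq_mul]; split_ifs <;> ring)
        · rintro ⟨h, _⟩; omega
    rcases d_sq' F.gr hσ hw hct hwt hY hwc hX with h | h
    · exact ⟨_, Or.inl rfl, up1 h⟩
    · exact ⟨_, Or.inr (Or.inl ⟨c, hct, mc, rfl⟩), up1 h⟩

end

end Pool.Agent.PF4.LD
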