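import Pool.Agent.Lib.helper60.PTLib

/-!
# Loops of polynomial-time functions, with a size guard

`PT.sizeLe`: the test `tsize (f x) ≤ B x` is a polynomial-time function.
`gstep B f s` is `f s` if this has size at most `B` and `s` otherwise. `PT.iterG`: iterating a guarded step a polynomial
number of times is polynomial-time computable, without any condition on the step. `gstep_eq`: as long as the sizes on
the way are at most `B`, this is the ordinary iteration.
-/

set_option autoImplicit false

namespace Pool.Agent.PF4

open Pool.Agent.Lib.helper60

/-- one step of the traversal of a list of trees -/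
def trav : List D → List D
  | [] => []
  | .nil :: l => l
  | .node a b :: l => a :: b :: l

/-- number of nodes of a list of trees -/
def tot (l : List D) : ℕ := (l.map D.size).sum

theorem tot_trav (l : List D) (h : l ≠ []) : tot (trav l) + 1 = tot l := by
  cases l with
  | nil => exact absurd rfl h
  | cons d l =>
    cases d with
    | nil => simp [trav, tot]; omega
    | node a b => simp [trav, tot]; omega

theorem tot_eq_zero (l : List D) : tot l = 0 ↔ l = [] := by
  cases l with
  | nil => simp [tot]
  | cons d l =>
    have := d.size_pos
    simp [tot]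
    omega

theorem tot_iter (k : ℕ) (l : List D) : tot (trav^[k] l) = tot l - k := by
  induction k with
  | zero => simp
  | succ k ih =>
    rw [Function.iterate_succ_apply']
    by_cases h : trav^[k] l = []
    · have h1 : tot (trav^[k] l) = 0 := by rw [h]; rfl
      rw [h]
      have h2 : tot (trav []) = 0 := rfl
      rw [h2]
      omega
    · have := tot_trav _ h
      omega

theorem trav_nil_iff (k : ℕ) (d : D) : trav^[k] [d] = [] ↔ d.size ≤ k := by
  rw [← tot_eq_zero, tot_iter]
  simp [tot]
  omega

theorem tsize_le_tot (l : List D) : tsize l ≤ 2 * tot l + 1 := by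
  induction l with
  | nil => simp [tot]
  | cons d l ih =>
    have h1 : tsize d = d.size := rfl
    have := d.size_pos
    have h2 : tot (d :: l) = d.size + tot l := by simp [tot]
    rw [tsize_cons, h1, h2]
    omega

theorem pt_trav : PT trav := by
  have h0 : PT (fun x : (List D) × D × List D => (match x.2.1 with | .nil => D.nil | .node a _ => a)) :=
    PT.hdD.comp PT.snd.p1
  have h1 : PT (fun x : (List D) × D × List D => (match x.2.1 with | .nil => D.nil | .node _ b => b)) :=
    PT.tlD.comp PT.snd.p1
  have h2 : PT (fun x : (List D) × D × List D =>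
      (match x.2.1 with
        | .nil => x.2.2
        | .node a b => (fun y : ((List D) × D × List D) × D × D => y.2.1 :: y.2.2 :: y.1.2.2) (x, a, b))) :=
    PT.casesD (c := fun x : (List D) × D × List D => x.2.1) (f := fun x => x.2.2)
      (g := fun y : ((List D) × D × List D) × D × D => y.2.1 :: y.2.2 :: y.1.2.2) PT.snd.p1 PT.snd.p2
      (PT.cons PT.snd.p1 (PT.cons PT.snd.p2 PT.fst.p2.p2))
  refine (PT.listCases (l := fun l : List D => l) (f := fun _ => ([] : List D))
    (g := fun x : (List D) × D × List D => (match x.2.1 with
        | .nil => x.2.2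
        | .node a b => a :: b :: x.2.2)) PT.id (PT.const []) (h2.congr ?_)).congr ?_
  · rintro ⟨l, d, t⟩
    cases d <;> rfl
  · intro l
    cases l with
    | nil => rfl
    | cons d l => cases d <;> rfl

section

variable {ι σ : Type} [DEnc ι] [DEnc σ]

theorem PT.sizeLe {f : ι → σ} {B : ι → ℕ} (hf : PT f) (hB : PT B) :
    PT (fun x => decide (tsize (f x) ≤ B x)) := by
  have h1 : PT (fun x => trav^[B x] [toD (f x)]) := by
    refine PT.iterateNat hB (PT.cons (PT.code.comp hf) (PT.const [])) pt_trav
      ⟨fun x => 2 * tsize (f x) + 1, ((PB.const 2).mul hf.size).add (PB.const 1), ?_⟩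
    intro x i _
    refine (tsize_le_tot _).trans ?_
    rw [tot_iter]
    have : tot [toD (f x)] = tsize (f x) := by simp [tot, tsize]
    rw [this]
    beta_reduce
    omega
  refine (PT.isZero (PT.length h1)).congr fun x => ?_
  rw [decide_eq_decide, List.length_eq_zero_iff, trav_nil_iff]
  exact Iff.rfl

/-- a step with a size guard -/
def gstep (B : ℕ) (f : σ → σ) (s : σ) : σ := if tsize (f s) ≤ B then f s else s

theorem PT.iterG {count B : ι → ℕ} {init : ι → σ} {step : ι × σ → σ} (hc : PT count) (hB : PT B)
    (hi : PT init) (hs : PT step) :
    PT (fun x => (gstep (B x) (fun s => step (x, s)))^[count x] (init x)) := by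
  let stp : ι × σ → ι × σ := fun y => (y.1, if tsize (step y) ≤ B y.1 then step y else y.2)
  have hstp : PT stp := by
    refine PT.pair PT.fst ?_
    exact PT.ite (c := fun y : ι × σ => tsize (step y) ≤ B y.1) (PT.sizeLe hs (hB.comp PT.fst)) hs PT.snd
  have hit : ∀ (k : ℕ) (x : ι) (s : σ), stp^[k] (x, s) = (x, (gstep (B x) (fun s => step (x, s)))^[k] s) := by
    intro k x
    induction k with
    | zero => intro s; rfl
    | succ k ih =>
      intro s
      rw [Function.iterate_succ_apply, Function.iterate_succ_apply]
      exact ih _
  have hsz : ∀ (k : ℕ) (x : ι) (s : σ), tsize ((gstep (B x) (fun s => step (x, s)))^[k] s) ≤ tsize s + B x := by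
    intro k x
    induction k with
    | zero => intro s; simp
    | succ k ih =>
      intro s
      rw [Function.iterate_succ_apply']
      have := ih s
      unfold gstep at this ⊢
      split_ifs <;> omega
  have h := PT.iterateNat (init := fun x => (x, init x)) hc (PT.pair PT.id hi) hstp
    ⟨fun x => tsize x + (tsize (init x) + B x) + 1, by
      have hB' : PB (fun x => B x) := PB.of_le hB.size (fun a => by rw [tsize_nat]; omega)
      exact (PB.tsize.add (hi.size.add hB')).add (PB.const 1), by
      intro x i _
      rw [hit]
      have := hsz i x (init x)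
      simp only [tsize_pair]
      omega⟩
  refine (PT.snd.comp h).congr fun x => ?_
  rw [hit]

theorem gstep_iter {B k : ℕ} {f : σ → σ} {s : σ} (h : ∀ i ≤ k, tsize (f^[i] s) ≤ B) :
    (gstep B f)^[k] s = f^[k] s := by
  induction k with
  | zero => rfl
  | succ k ih =>
    rw [Function.iterate_succ_apply', Function.iterate_succ_apply', ih fun i hi => h i (by omega)]
    have := h (k + 1) le_rfl
    rw [Function.iterate_succ_apply'] at this
    unfold gstep
    rw [if_pos this]

end

end Pool.Agent.PF4
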