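import Pool.Agent.Lib.helper60.PTLib

/-!
# The outer loop (polymatroid form)

Objects `M : O` with degrees `deg x M : ℕ → ℕ` on the vertices `0, ..., nv x - 1`. A polynomial time function `exch`
(the two-step exchange) and a polynomial time function `inner` (find an object that covers the demand `g`, where near covers
are known for all vertices of the support of `g`) give a polynomial time function `alg` that finds an object with all degrees
at least `2` or reports that there is none.
-/

set_option autoImplicit false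

namespace Pool.Agent.PF4

open Pool.Agent.Lib.helper60

section defs

/-- the demand `g` restricted to the vertices in `T` -/
def res (n : ℕ) (g T : List ℕ) : List ℕ :=
  (List.range n).map (fun u => bif T.any (fun t => decide (t = u)) then g.getD u 0 else 0)

/-- the demand `2` on the vertices below `v`, `r` at `v` and `0` above -/
def dem (n v r : ℕ) : List ℕ :=
  (List.range n).map (fun u => if u < v then 2 else if u = v then r else 0)

theorem getD_map_range (n : ℕ) (f : ℕ → ℕ) (u : ℕ) :
    ((List.range n).map f).getD u 0 = if u < n then f u else 0 := by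
  rw [List.getD_eq_getElem?_getD, List.getElem?_map]
  by_cases h : u < n
  · rw [List.getElem?_range h, if_pos h]
    rfl
  · rw [List.getElem?_eq_none (by simpa using h), if_neg h]
    rfl

theorem res_getD {n : ℕ} {g T : List ℕ} {u : ℕ} (hu : u < n) :
    (res n g T).getD u 0 = if u ∈ T then g.getD u 0 else 0 := by
  unfold res
  rw [getD_map_range, if_pos hu]
  by_cases h : u ∈ T
  · have : T.any (fun t => decide (t = u)) = true := by simpa using h
    rw [this, if_pos h]
    rfl
  · have : T.any (fun t => decide (t = u)) = false := by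
      rw [List.any_eq_false]
      intro t ht
      simp only [decide_eq_true_eq]
      rintro rfl
      exact h ht
    rw [this, if_neg h]
    rfl

theorem dem_getD {n v r u : ℕ} (hu : u < n) :
    (dem n v r).getD u 0 = if u < v then 2 else if u = v then r else 0 := by
  unfold dem
  rw [getD_map_range, if_pos hu]

/-- the demand `g` is covered by the degrees `dg` on `n` vertices -/
def Cov (n : ℕ) (g : List ℕ) (dg : ℕ → ℕ) : Prop := ∀ u < n, g.getD u 0 ≤ dg u

end defs

/-- What the inner problem knows: the demand `g` is `0` or `2` off `v` and `1` or `2` at `v`, and the table `W` contains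
for every vertex `w` of the support of `g` exactly one valid object with degrees at least `g - e_w`. -/
structure Dat {ι O : Type} (nv : ι → ℕ) (deg : ι → O → ℕ → ℕ) (valid : ι → O → Prop) (x : ι) (g : List ℕ)
    (W : List (ℕ × O)) (v : ℕ) : Prop where
  len : g.length = nv x
  lt : v < nv x
  one : 1 ≤ g.getD v 0
  two : g.getD v 0 ≤ 2
  off : ∀ u < nv x, u ≠ v → g.getD u 0 = 0 ∨ g.getD u 0 = 2
  tab : ∀ p ∈ W, p.1 < nv x ∧ valid x p.2 ∧
    ∀ u < nv x, g.getD u 0 ≤ deg x p.2 u + (if u = p.1 then 1 else 0)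
  sup : ∀ w < nv x, 1 ≤ g.getD w 0 ↔ w ∈ W.map Prod.fst
  nod : (W.map Prod.fst).Nodup

/-- the interface of the outer loop -/
structure OutApi (ι O : Type) [DEnc ι] [DEnc O] where
  /-- number of vertices -/
  nv : ι → ℕ
  /-- degree of a vertex in an object -/
  deg : ι → O → ℕ → ℕ
  /-- valid objects (2-matchings without forbidden squares) -/
  valid : ι → O → Prop
  /-- well-formed instances -/
  wf : ι → Prop
  /-- the empty object -/
  emp : O
  /-- `exch (x, M, L, v)`: the two-step exchange from `M` towards `L` with first step `+ e_v` -/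
  exch : ι × O × O × ℕ → O
  /-- `inner (x, g, W)`: an object that covers `g`; `W` is the table of the near covers -/
  inner : ι × List ℕ × List (ℕ × O) → Bool × O
  /-- bound of the sizes of the objects -/
  B : ι → ℕ
  pt_nv : PT nv
  pt_deg : PT (fun y : ι × O × ℕ => deg y.1 y.2.1 y.2.2)
  pt_exch : PT exch
  pt_inner : PT inner
  pb : PB B
  size_exch : ∀ y, tsize (exch y) ≤ B y.1
  emp_valid : ∀ x, wf x → valid x emp
  exch_spec : ∀ x M L v, wf x → valid x M → valid x L → v < nv x → deg x M v < deg x L v →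
    valid x (exch (x, M, L, v)) ∧
      ((∀ u < nv x, deg x M u + (if u = v then 1 else 0) ≤ deg x (exch (x, M, L, v)) u) ∨
        ∃ j < nv x, j ≠ v ∧ deg x L j < deg x M j ∧ ∀ u < nv x,
          deg x M u + (if u = v then 1 else 0) =
            deg x (exch (x, M, L, v)) u + (if u = j then 1 else 0))
  inner_spec : ∀ x g W v, wf x → Dat nv deg valid x g W v →
    ((inner (x, g, W)).1 = true → valid x (inner (x, g, W)).2 ∧
      Cov (nv x) g (deg x (inner (x, g, W)).2)) ∧
    ((inner (x, g, W)).1 = false → ¬ ∃ L, valid x L ∧ Cov (nv x) g (deg x L))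

namespace OutApi

variable {ι O : Type} [DEnc ι] [DEnc O] (A : OutApi ι O)

/-- the vertices where `M` does not cover `g` -/
def bad (x : ι) (g : List ℕ) (M : O) : List ℕ :=
  (List.range (A.nv x)).filter (fun u => decide (A.deg x M u < g.getD u 0))

/-- state of `aug`: instance, demand, vertex, object, table, status (0 running, 1 found, 2 none), result -/
abbrev St (ι O : Type) : Type := ι × List ℕ × ℕ × O × List (ℕ × O) × ℕ × O

/-- one round of `aug` -/
def step (s : St ι O) : St ι O :=
  let x := s.1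
  let g := s.2.1
  let v := s.2.2.1
  let M := s.2.2.2.1
  let W := s.2.2.2.2.1
  if s.2.2.2.2.2.1 = 0 then
    let r := A.inner (x, res (A.nv x) g (W.map Prod.fst), W)
    bif r.1 then
      let N := A.exch (x, M, r.2, v)
      if (A.bad x g N).length = 0 then (x, g, v, M, W, 1, N)
      else (x, g, v, M, ((A.bad x g N).headD 0, N) :: W, 0, M)
    else (x, g, v, M, W, 2, M)
  else s

/-- raise the demand at `v` by one unit: `M` covers `g - e_v` -/
def aug (y : ι × List ℕ × ℕ × O) : ℕ × O :=
  if (A.bad y.1 y.2.1 y.2.2.2).length = 0 then (1, y.2.2.2)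
  else ((A.step)^[A.nv y.1 + 1]
    (y.1, y.2.1, y.2.2.1, y.2.2.2, [(y.2.2.1, y.2.2.2)], 0, y.2.2.2)).2.2.2.2.2

/-- state of the main loop: instance, vertex, level, status (0 running, 2 none), object -/
abbrev Ou (ι O : Type) : Type := ι × ℕ × ℕ × ℕ × O

/-- one round of the main loop -/
def ostep (s : Ou ι O) : Ou ι O :=
  let x := s.1
  let v := s.2.1
  let r := s.2.2.1
  let M := s.2.2.2.2
  if s.2.2.2.1 = 0 then
    let a := A.aug (x, dem (A.nv x) v (r + 1), v, M)
    if a.1 = 1 then
      if r = 0 then (x, v, 1, 0, a.2) else (x, v + 1, 0, 0, a.2)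
    else (x, v, r, 2, M)
  else s

/-- the algorithm -/
def alg (x : ι) : Bool × O :=
  let s := (A.ostep)^[2 * A.nv x] (x, 0, 0, 0, A.emp)
  (decide (s.2.2.2.1 = 0), s.2.2.2.2)

/-! ### correctness of `aug` -/

theorem mem_bad {x : ι} {g : List ℕ} {M : O} {u : ℕ} :
    u ∈ A.bad x g M ↔ u < A.nv x ∧ A.deg x M u < g.getD u 0 := by
  simp [bad]

theorem bad_nil {x : ι} {g : List ℕ} {M : O} :
    (A.bad x g M).length = 0 ↔ ∀ u < A.nv x, g.getD u 0 ≤ A.deg x M u := by
  rw [List.length_eq_zero_iff, List.eq_nil_iff_forall_not_mem]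
  constructor
  · intro h u hu
    by_contra h1
    exact h u (A.mem_bad.2 ⟨hu, by omega⟩)
  · intro h u hu
    have h1 := A.mem_bad.1 hu
    have h2 := h u h1.1
    omega

/-- the demand `g` is `2` or `0` off `v` and `1` or `2` at `v` -/
structure Dm (x : ι) (g : List ℕ) (v : ℕ) : Prop where
  lt : v < A.nv x
  one : 1 ≤ g.getD v 0
  two : g.getD v 0 ≤ 2
  off : ∀ u < A.nv x, u ≠ v → g.getD u 0 = 0 ∨ g.getD u 0 = 2

/-- near cover -/
def Nr (x : ι) (g : List ℕ) (w : ℕ) (M : O) : Prop :=
  w < A.nv x ∧ A.valid x M ∧ ∀ u < A.nv x, g.getD u 0 ≤ A.deg x M u + (if u = w then 1 else 0)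

/-- the invariant of the loop of `aug` -/
structure Inv (x : ι) (g : List ℕ) (v : ℕ) (M : O) (k : ℕ) (s : St ι O) : Prop where
  e1 : s.1 = x
  e2 : s.2.1 = g
  e3 : s.2.2.1 = v
  e4 : s.2.2.2.1 = M
  tab : ∀ p ∈ s.2.2.2.2.1, A.Nr x g p.1 p.2 ∧ 1 ≤ g.getD p.1 0
  vin : v ∈ s.2.2.2.2.1.map Prod.fst
  nod : (s.2.2.2.2.1.map Prod.fst).Nodup
  len : s.2.2.2.2.2.1 = 0 → s.2.2.2.2.1.length = k + 1
  st : s.2.2.2.2.2.1 = 0 ∨ s.2.2.2.2.2.1 = 1 ∨ s.2.2.2.2.2.1 = 2
  fin1 : s.2.2.2.2.2.1 = 1 → A.valid x s.2.2.2.2.2.2 ∧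
    ∀ u < A.nv x, g.getD u 0 ≤ A.deg x s.2.2.2.2.2.2 u
  fin2 : s.2.2.2.2.2.1 = 2 → ¬ ∃ L, A.valid x L ∧ ∀ u < A.nv x, g.getD u 0 ≤ A.deg x L u

theorem inv_step {x : ι} {g : List ℕ} {v : ℕ} {M : O} {k : ℕ} {s : St ι O} (hx : A.wf x)
    (hg : A.Dm x g v) (hM : A.Nr x g v M) (hb : A.deg x M v < g.getD v 0)
    (h : A.Inv x g v M k s) : A.Inv x g v M (k + 1) (A.step s) := by
  obtain ⟨x', g', v', M', W, st, R⟩ := s
  obtain ⟨e1, e2, e3, e4, tab, vin, nod, len, hst, fin1, fin2⟩ := h
  simp only at e1 e2 e3 e4 tab vin nod len hst fin1 fin2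
  subst e1 e2 e3 e4
  unfold step
  simp only
  by_cases h0 : st = 0
  · rw [if_pos h0]
    set gg := res (A.nv x') g' (W.map Prod.fst) with hgg
    have hgD : ∀ u < A.nv x', gg.getD u 0 = if u ∈ W.map Prod.fst then g'.getD u 0 else 0 :=
      fun u hu => res_getD hu
    have hle : ∀ u < A.nv x', gg.getD u 0 ≤ g'.getD u 0 := by
      intro u hu
      rw [hgD u hu]
      split_ifs
      · exact le_rfl
      · exact Nat.zero_le _
    have hv : gg.getD v' 0 = g'.getD v' 0 := by rw [hgD v' hg.lt, if_pos vin]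
    have key := A.inner_spec x' gg W v' hx ⟨by simp [hgg, res], hg.lt, by rw [hv]; exact hg.one,
      by rw [hv]; exact hg.two,
      by
        intro u hu huv
        rw [hgD u hu]
        split_ifs
        · exact hg.off u hu huv
        · exact Or.inl rfl,
      fun p hp => ⟨(tab p hp).1.1, (tab p hp).1.2.1, fun u hu =>
        (hle u hu).trans ((tab p hp).1.2.2 u hu)⟩,
      by
        intro w hw
        rw [hgD w hw]
        constructor
        · intro h1
          by_contra h2
          rw [if_neg h2] at h1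
          omega
        · intro h1
          rw [if_pos h1]
          obtain ⟨p, hp, rfl⟩ := List.mem_map.1 h1
          exact (tab p hp).2, nod⟩
    generalize hr : A.inner (x', gg, W) = r at key ⊢
    obtain ⟨r1, L⟩ := r
    cases r1 with
    | false =>
      have h2 := key.2 rfl
      refine ⟨rfl, rfl, rfl, rfl, tab, vin, nod, ?_, Or.inr (Or.inr rfl), ?_, ?_⟩
      · intro h; simp at h
      · intro h; simp at h
      · rintro - ⟨L, hL, hL2⟩
        exact h2 ⟨L, hL, fun u hu => (hle u hu).trans (hL2 u hu)⟩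
    | true =>
      have h2 := key.1 rfl
      simp only at h2
      obtain ⟨hL, hL2⟩ := h2
      have hvL : A.deg x' M' v' < A.deg x' L v' := by
        have := hL2 v' hg.lt
        omega
      obtain ⟨hN, hN2⟩ := A.exch_spec x' M' L v' hx hM.2.1 hL hg.lt hvL
      simp only [cond_true]
      set N := A.exch (x', M', L, v') with hNdef
      by_cases hbN : (A.bad x' g' N).length = 0
      · rw [if_pos hbN]
        refine ⟨rfl, rfl, rfl, rfl, tab, vin, nod, ?_, Or.inr (Or.inl rfl), ?_, ?_⟩
        · intro h; simp at h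
        · intro _
          exact ⟨hN, A.bad_nil.1 hbN⟩
        · intro h; simp at h
      · rw [if_neg hbN]
        have hcov : ∀ u < A.nv x', g'.getD u 0 ≤ A.deg x' M' u + (if u = v' then 1 else 0) :=
          hM.2.2
        rcases hN2 with hN2 | ⟨j, hj, hjv, hjL, hN2⟩
        · exact absurd (A.bad_nil.2 fun u hu => (hcov u hu).trans (hN2 u hu)) hbN
        · have hall : ∀ u ∈ A.bad x' g' N, u = j := by
            intro u hu
            have h1 := A.mem_bad.1 hu
            by_contra h2
            have h3 := hN2 u h1.1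
            rw [if_neg h2] at h3
            have h4 := hcov u h1.1
            omega
          have hne : A.bad x' g' N ≠ [] := fun h => hbN (by rw [h]; rfl)
          have hhead : (A.bad x' g' N).headD 0 = j := by
            cases hbb : A.bad x' g' N with
            | nil => exact absurd hbb hne
            | cons a l => exact hall a (by rw [hbb]; exact List.mem_cons_self)
          have hjb : j ∈ A.bad x' g' N := by
            cases hbb : A.bad x' g' N with
            | nil => exact absurd hbb hne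
            | cons a l =>
              have := hall a (by rw [hbb]; exact List.mem_cons_self)
              rw [← this]
              exact List.mem_cons_self
          have hjd := (A.mem_bad.1 hjb).2
          have hjn : j ∉ W.map Prod.fst := by
            intro h1
            have h2 := hL2 j hj
            rw [hgD j hj, if_pos h1] at h2
            have h3 := hN2 j hj
            rw [if_neg hjv, if_pos rfl] at h3
            omega
          refine ⟨rfl, rfl, rfl, rfl, ?_, ?_, ?_, ?_, Or.inl rfl, ?_, ?_⟩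
          · intro p hp
            rcases List.mem_cons.1 hp with rfl | hp
            · simp only [hhead]
              refine ⟨⟨hj, hN, ?_⟩, by omega⟩
              intro u hu
              have h1 := hcov u hu
              have h2 := hN2 u hu
              omega
            · exact tab p hp
          · exact List.mem_cons_of_mem _ vin
          · simp only [List.map_cons, List.nodup_cons, hhead]
            exact ⟨hjn, nod⟩
          · intro _
            simp only [List.length_cons]
            rw [len h0]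
          · intro h; simp at h
          · intro h; simp at h
  · rw [if_neg h0]
    exact ⟨rfl, rfl, rfl, rfl, tab, vin, nod, fun h => absurd h h0, hst, fin1, fin2⟩

theorem inv_iter {x : ι} {g : List ℕ} {v : ℕ} {M : O} (hx : A.wf x)
    (hg : A.Dm x g v) (hM : A.Nr x g v M) (hb : A.deg x M v < g.getD v 0) (k : ℕ) :
    A.Inv x g v M k ((A.step)^[k] (x, g, v, M, [(v, M)], 0, M)) := by
  induction k with
  | zero =>
    refine ⟨rfl, rfl, rfl, rfl, ?_, ?_, ?_, fun _ => rfl, Or.inl rfl, ?_, ?_⟩
    · intro p hp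
      simp only [Function.iterate_zero, id_eq, List.mem_singleton] at hp
      subst hp
      exact ⟨hM, hg.one⟩
    · simp
    · simp
    · intro h; simp at h
    · intro h; simp at h
  | succ k ih =>
    rw [Function.iterate_succ_apply']
    exact A.inv_step hx hg hM hb ih

theorem aug_spec {x : ι} {g : List ℕ} {v : ℕ} {M : O} (hx : A.wf x)
    (hg : A.Dm x g v) (hM : A.Nr x g v M) :
    ((A.aug (x, g, v, M)).1 = 1 ∧ A.valid x (A.aug (x, g, v, M)).2 ∧
        ∀ u < A.nv x, g.getD u 0 ≤ A.deg x (A.aug (x, g, v, M)).2 u) ∨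
      ((A.aug (x, g, v, M)).1 = 2 ∧
        ¬ ∃ L, A.valid x L ∧ ∀ u < A.nv x, g.getD u 0 ≤ A.deg x L u) := by
  unfold aug
  simp only
  by_cases h0 : (A.bad x g M).length = 0
  · rw [if_pos h0]
    exact Or.inl ⟨rfl, hM.2.1, A.bad_nil.1 h0⟩
  · rw [if_neg h0]
    have hb : A.deg x M v < g.getD v 0 := by
      by_contra h1
      refine h0 (A.bad_nil.2 fun u hu => ?_)
      by_cases huv : u = v
      · subst huv
        omega
      · have := hM.2.2 u hu
        rw [if_neg huv] at this
        exact this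
    have h := A.inv_iter hx hg hM hb (A.nv x + 1)
    generalize (A.step)^[A.nv x + 1] (x, g, v, M, [(v, M)], 0, M) = s at h ⊢
    rcases h.st with h1 | h1 | h1
    · exfalso
      have h2 := h.len h1
      have h3 : (s.2.2.2.2.1.map Prod.fst).length ≤ A.nv x := by
        have := h.nod.subperm (l₂ := List.range (A.nv x)) (by
          intro j hj
          obtain ⟨p, hp, rfl⟩ := List.mem_map.1 hj
          exact List.mem_range.2 (h.tab p hp).1.1)
        simpa using this.length_le
      rw [List.length_map] at h3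
      omega
    · exact Or.inl ⟨h1, h.fin1 h1⟩
    · exact Or.inr ⟨h1, h.fin2 h1⟩

/-! ### correctness of the main loop -/

/-- the invariant of the main loop -/
structure OInv (x : ι) (k : ℕ) (s : Ou ι O) : Prop where
  e1 : s.1 = x
  run : s.2.2.2.1 = 0 → 2 * s.2.1 + s.2.2.1 = k ∧ s.2.2.1 ≤ 1 ∧ A.valid x s.2.2.2.2 ∧
    ∀ u < A.nv x, (dem (A.nv x) s.2.1 s.2.2.1).getD u 0 ≤ A.deg x s.2.2.2.2 u
  fin : s.2.2.2.1 ≠ 0 → ¬ ∃ L, A.valid x L ∧ ∀ u < A.nv x, 2 ≤ A.deg x L u

theorem oinv_step {x : ι} {k : ℕ} {s : Ou ι O} (hx : A.wf x) (hk : k < 2 * A.nv x)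
    (h : A.OInv x k s) : A.OInv x (k + 1) (A.ostep s) := by
  obtain ⟨x', v, r, st, M⟩ := s
  obtain ⟨e1, run, fin⟩ := h
  simp only at e1 run fin
  subst e1
  unfold ostep
  simp only
  by_cases h0 : st = 0
  · rw [if_pos h0]
    obtain ⟨h1, h2, h3, h4⟩ := run h0
    have hvn : v < A.nv x' := by omega
    have hdm : A.Dm x' (dem (A.nv x') v (r + 1)) v := by
      refine ⟨hvn, ?_, ?_, ?_⟩
      · rw [dem_getD hvn, if_neg (lt_irrefl _), if_pos rfl]
        omega
      · rw [dem_getD hvn, if_neg (lt_irrefl _), if_pos rfl]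
        omega
      · intro u hu huv
        rw [dem_getD hu, if_neg huv]
        split_ifs
        · exact Or.inr rfl
        · exact Or.inl rfl
    have hnr : A.Nr x' (dem (A.nv x') v (r + 1)) v M := by
      refine ⟨hvn, h3, fun u hu => ?_⟩
      have := h4 u hu
      rw [dem_getD hu] at this ⊢
      split_ifs at this ⊢ <;> omega
    have key := A.aug_spec hx hdm hnr
    generalize A.aug (x', dem (A.nv x') v (r + 1), v, M) = a at key ⊢
    rcases key with ⟨k1, k2, k3⟩ | ⟨k1, k2⟩
    · rw [if_pos k1]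
      by_cases hr : r = 0
      · rw [if_pos hr]
        subst hr
        exact ⟨rfl, fun _ => ⟨by simp only; omega, le_rfl, k2, k3⟩, fun h => absurd rfl h⟩
      · rw [if_neg hr]
        refine ⟨rfl, fun _ => ⟨by simp only; omega, by simp, k2, ?_⟩, fun h => absurd rfl h⟩
        intro u hu
        refine le_trans ?_ (k3 u hu)
        rw [dem_getD hu, dem_getD hu]
        simp only
        split_ifs <;> omega
    · rw [if_neg (by omega)]
      refine ⟨rfl, fun h => ?_, fun _ => ?_⟩
      · simp at h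
      · rintro ⟨L, hL, hL2⟩
        refine k2 ⟨L, hL, fun u hu => le_trans ?_ (hL2 u hu)⟩
        rw [dem_getD hu]
        split_ifs <;> omega
  · rw [if_neg h0]
    exact ⟨rfl, fun h => absurd h h0, fin⟩

/-- **Correctness of the algorithm.** -/
theorem alg_spec {x : ι} (hx : A.wf x) :
    ((A.alg x).1 = true → A.valid x (A.alg x).2 ∧ ∀ u < A.nv x, 2 ≤ A.deg x (A.alg x).2 u) ∧
      ((A.alg x).1 = false → ¬ ∃ L, A.valid x L ∧ ∀ u < A.nv x, 2 ≤ A.deg x L u) := by
  have h : ∀ k, k ≤ 2 * A.nv x → A.OInv x k ((A.ostep)^[k] (x, 0, 0, 0, A.emp)) := by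
    intro k
    induction k with
    | zero =>
      intro _
      refine ⟨rfl, fun _ => ⟨rfl, by simp, A.emp_valid x hx, ?_⟩, fun h => absurd rfl h⟩
      intro u hu
      simp only [Function.iterate_zero, id_eq]
      rw [dem_getD hu]
      simp
    | succ k ih =>
      intro hk
      rw [Function.iterate_succ_apply']
      exact A.oinv_step hx (by omega) (ih (by omega))
  have h1 := h _ le_rfl
  unfold alg
  simp only [decide_eq_true_eq, decide_eq_false_iff_not]
  generalize (A.ostep)^[2 * A.nv x] (x, 0, 0, 0, A.emp) = s at h1 ⊢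
  refine ⟨fun h2 => ?_, h1.fin⟩
  obtain ⟨h3, h4, h5, h6⟩ := h1.run h2
  refine ⟨h5, fun u hu => le_trans ?_ (h6 u hu)⟩
  rw [dem_getD hu, if_pos (by omega)]

/-! ### polynomial time -/

theorem pt_res {κ : Type} [DEnc κ] {n : κ → ℕ} {g T : κ → List ℕ} (hn : PT n) (hg : PT g) (hT : PT T) :
    PT (fun y => res (n y) (g y) (T y)) := by
  unfold res
  refine PT.map (g := fun z : κ × ℕ =>
    bif (T z.1).any (fun t => decide (t = z.2)) then (g z.1).getD z.2 0 else 0) (PT.range hn) ?_
  refine PT.cond ?_ (PT.getD (hg.comp PT.fst) PT.snd (PT.const 0)) (PT.const 0)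
  exact PT.any (p := fun w : (κ × ℕ) × ℕ => decide (w.2 = w.1.2)) (hT.comp PT.fst)
    (PT.neq PT.snd PT.fst.p2)

theorem pt_dem {κ : Type} [DEnc κ] {n v r : κ → ℕ} (hn : PT n) (hv : PT v) (hr : PT r) :
    PT (fun y => dem (n y) (v y) (r y)) := by
  unfold dem
  refine PT.map (g := fun z : κ × ℕ => if z.2 < v z.1 then 2 else if z.2 = v z.1 then r z.1 else 0)
    (PT.range hn) ?_
  exact PT.ite (PT.nlt PT.snd (hv.comp PT.fst)) (PT.const 2)
    (PT.ite (PT.neq PT.snd (hv.comp PT.fst)) (hr.comp PT.fst) (PT.const 0))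

theorem pt_bad {κ : Type} [DEnc κ] {x : κ → ι} {g : κ → List ℕ} {M : κ → O} (hx : PT x) (hg : PT g)
    (hM : PT M) : PT (fun y => A.bad (x y) (g y) (M y)) := by
  unfold bad
  refine PT.filter (p := fun z : κ × ℕ => decide (A.deg (x z.1) (M z.1) z.2 < (g z.1).getD z.2 0))
    (PT.range (A.pt_nv.comp hx)) ?_
  exact PT.nlt (A.pt_deg.comp (PT.pair (hx.comp PT.fst) (PT.pair (hM.comp PT.fst) PT.snd)))
    (PT.getD (hg.comp PT.fst) PT.snd (PT.const 0))

theorem pt_step : PT A.step := by
  unfold step
  have x : PT (fun s : St ι O => s.1) := PT.fst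
  have g : PT (fun s : St ι O => s.2.1) := PT.snd.p1
  have v : PT (fun s : St ι O => s.2.2.1) := PT.snd.p2.p1
  have M : PT (fun s : St ι O => s.2.2.2.1) := PT.snd.p2.p2.p1
  have W : PT (fun s : St ι O => s.2.2.2.2.1) := PT.snd.p2.p2.p2.p1
  have st : PT (fun s : St ι O => s.2.2.2.2.2.1) := PT.snd.p2.p2.p2.p2.p1
  have W1 : PT (fun s : St ι O => s.2.2.2.2.1.map Prod.fst) :=
    PT.map (g := fun z : St ι O × (ℕ × O) => z.2.1) W PT.snd.p1
  have r : PT (fun s : St ι O =>
      A.inner (s.1, res (A.nv s.1) s.2.1 (s.2.2.2.2.1.map Prod.fst), s.2.2.2.2.1)) :=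
    A.pt_inner.comp (PT.pair x (PT.pair (pt_res (A.pt_nv.comp x) g W1) W))
  have N : PT (fun s : St ι O => A.exch (s.1, s.2.2.2.1,
      (A.inner (s.1, res (A.nv s.1) s.2.1 (s.2.2.2.2.1.map Prod.fst), s.2.2.2.2.1)).2, s.2.2.1)) :=
    A.pt_exch.comp (PT.pair x (PT.pair M (PT.pair r.p2 v)))
  have b := A.pt_bad x g N
  refine PT.ite (PT.neq st (PT.const 0)) (PT.cond r.p1 (PT.ite (PT.neq (PT.length b) (PT.const 0))
    ?_ ?_) ?_) PT.id
  · exact PT.pair x (PT.pair g (PT.pair v (PT.pair M (PT.pair W (PT.pair (PT.const 1) N)))))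
  · exact PT.pair x (PT.pair g (PT.pair v (PT.pair M (PT.pair
      (PT.cons (PT.pair (PT.headD b (PT.const 0)) N) W) (PT.pair (PT.const 0) M)))))
  · exact PT.pair x (PT.pair g (PT.pair v (PT.pair M (PT.pair W (PT.pair (PT.const 2) M)))))

/-- the size invariant of the loop of `aug` -/
structure Sz (x : ι) (g : List ℕ) (v : ℕ) (M : O) (C k : ℕ) (s : St ι O) : Prop where
  e1 : s.1 = x
  e2 : s.2.1 = g
  e3 : s.2.2.1 = v
  e4 : s.2.2.2.1 = M
  len : s.2.2.2.2.1.length ≤ k + 1
  mem : ∀ p ∈ s.2.2.2.2.1, tsize p ≤ C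
  st : s.2.2.2.2.2.1 ≤ 2
  r : tsize s.2.2.2.2.2.2 ≤ C

theorem bad_headD (x : ι) (g : List ℕ) (N : O) : (A.bad x g N).headD 0 ≤ A.nv x := by
  cases h : A.bad x g N with
  | nil => exact Nat.zero_le _
  | cons a l => exact (A.mem_bad.1 (by rw [h]; exact List.mem_cons_self)).1.le

theorem sz_iter (x : ι) (g : List ℕ) (v : ℕ) (M : O) (k : ℕ) :
    Sz x g v M (2 * (v + A.nv x) + 2 + (A.B x + tsize M)) k
      ((A.step)^[k] (x, g, v, M, [(v, M)], 0, M)) := by
  induction k with
  | zero =>
    refine ⟨rfl, rfl, rfl, rfl, le_rfl, ?_, by simp, ?_⟩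
    · intro p hp
      simp only [Function.iterate_zero, id_eq, List.mem_singleton] at hp
      subst hp
      simp only [tsize_pair, tsize_nat]
      omega
    · simp only [Function.iterate_zero, id_eq]
      omega
  | succ k ih =>
    rw [Function.iterate_succ_apply']
    generalize (A.step)^[k] (x, g, v, M, [(v, M)], 0, M) = s at ih ⊢
    obtain ⟨x', g', v', M', W, st, R⟩ := s
    obtain ⟨e1, e2, e3, e4, len, mem, hst, hr⟩ := ih
    simp only at e1 e2 e3 e4 len mem hst hr
    subst e1 e2 e3 e4
    unfold step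
    simp only
    by_cases h0 : st = 0
    · rw [if_pos h0]
      generalize A.inner (x', res (A.nv x') g' (W.map Prod.fst), W) = r
      obtain ⟨r1, L⟩ := r
      have hN := A.size_exch (x', M', L, v')
      cases r1 with
      | false => exact ⟨rfl, rfl, rfl, rfl, by simp only [cond_false]; omega, mem, le_rfl, by
          simp only [cond_false]; omega⟩
      | true =>
        simp only [cond_true]
        generalize A.exch (x', M', L, v') = N at hN ⊢
        simp only at hN
        split_ifs
        · exact ⟨rfl, rfl, rfl, rfl, by simp only; omega, mem, by simp, by simp only; omega⟩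
        · refine ⟨rfl, rfl, rfl, rfl, by simp only [List.length_cons]; omega, ?_, by simp, by
            simp only; omega⟩
          intro p hp
          rcases List.mem_cons.1 hp with rfl | hp
          · have := A.bad_headD x' g' N
            simp only [tsize_pair, tsize_nat]
            omega
          · exact mem p hp
    · rw [if_neg h0]
      exact ⟨rfl, rfl, rfl, rfl, by simp only; omega, mem, hst, hr⟩

theorem pt_aug : PT A.aug := by
  unfold aug
  have x : PT (fun y : ι × List ℕ × ℕ × O => y.1) := PT.fst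
  have g : PT (fun y : ι × List ℕ × ℕ × O => y.2.1) := PT.snd.p1
  have v : PT (fun y : ι × List ℕ × ℕ × O => y.2.2.1) := PT.snd.p2.p1
  have M : PT (fun y : ι × List ℕ × ℕ × O => y.2.2.2) := PT.snd.p2.p2
  refine PT.ite (PT.neq (PT.length (A.pt_bad x g M)) (PT.const 0)) (PT.pair (PT.const 1) M) ?_
  refine PT.p2 (PT.p2 (PT.p2 (PT.p2 (PT.p2 ?_))))
  have hC : PB (fun y : ι × List ℕ × ℕ × O =>
      2 * (y.2.2.1 + A.nv y.1) + 2 + (A.B y.1 + tsize y.2.2.2)) := by
    have h1 : PB (fun y : ι × List ℕ × ℕ × O => y.2.2.1) :=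
      v.size.of_le fun y => by simp only [tsize_nat]; omega
    have h2 : PB (fun y : ι × List ℕ × ℕ × O => A.nv y.1) :=
      (A.pt_nv.comp x).size.of_le fun y => by simp only [tsize_nat]; omega
    exact (((PB.const 2).mul (h1.add h2)).add (PB.const 2)).add ((A.pb.comp x.size).add M.size)
  have hn : PB (fun y : ι × List ℕ × ℕ × O => A.nv y.1) :=
    (A.pt_nv.comp x).size.of_le fun y => by simp only [tsize_nat]; omega
  refine PT.iterateNat (count := fun y : ι × List ℕ × ℕ × O => A.nv y.1 + 1)
    (init := fun y : ι × List ℕ × ℕ × O =>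
      (y.1, y.2.1, y.2.2.1, y.2.2.2, [(y.2.2.1, y.2.2.2)], 0, y.2.2.2))
    (PT.nsucc (A.pt_nv.comp x))
    (PT.pair x (PT.pair g (PT.pair v (PT.pair M (PT.pair (PT.cons (PT.pair v M) (PT.const []))
      (PT.pair (PT.const 0) M)))))) A.pt_step
    ⟨fun y => tsize y + ((A.nv y.1 + 2) *
      ((2 * (y.2.2.1 + A.nv y.1) + 2 + (A.B y.1 + tsize y.2.2.2)) + 1) + 1) +
      (2 * (y.2.2.1 + A.nv y.1) + 2 + (A.B y.1 + tsize y.2.2.2)) + 10, ?_, ?_⟩
  · exact ((PB.tsize.add (((hn.add (PB.const 2)).mul (hC.add (PB.const 1))).add (PB.const 1))).add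
      hC).add (PB.const 10)
  · rintro ⟨x, g, v, M⟩ k hk
    have h := A.sz_iter x g v M k
    simp only at hk ⊢
    generalize (A.step)^[k] (x, g, v, M, [(v, M)], 0, M) = s at h ⊢
    obtain ⟨x', g', v', M', W, st, R⟩ := s
    obtain ⟨e1, e2, e3, e4, len, mem, hst, hr⟩ := h
    simp only at e1 e2 e3 e4 len mem hst hr
    subst e1 e2 e3 e4
    have h6 := tsize_le_of_forall mem
    generalize 2 * (v' + A.nv x') + 2 + (A.B x' + tsize M') = C at *
    have h7 : W.length * (C + 1) ≤ (A.nv x' + 2) * (C + 1) := Nat.mul_le_mul_right _ (by omega)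
    simp only [tsize_pair, tsize_nat]
    omega

theorem pt_ostep : PT A.ostep := by
  unfold ostep
  have x : PT (fun s : Ou ι O => s.1) := PT.fst
  have v : PT (fun s : Ou ι O => s.2.1) := PT.snd.p1
  have r : PT (fun s : Ou ι O => s.2.2.1) := PT.snd.p2.p1
  have st : PT (fun s : Ou ι O => s.2.2.2.1) := PT.snd.p2.p2.p1
  have M : PT (fun s : Ou ι O => s.2.2.2.2) := PT.snd.p2.p2.p2
  have a : PT (fun s : Ou ι O =>
      A.aug (s.1, dem (A.nv s.1) s.2.1 (s.2.2.1 + 1), s.2.1, s.2.2.2.2)) :=
    A.pt_aug.comp (PT.pair x (PT.pair (pt_dem (A.pt_nv.comp x) v (PT.nsucc r)) (PT.pair v M)))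
  refine PT.ite (PT.neq st (PT.const 0)) (PT.ite (PT.neq a.p1 (PT.const 1))
    (PT.ite (PT.neq r (PT.const 0)) ?_ ?_) ?_) PT.id
  · exact PT.pair x (PT.pair v (PT.pair (PT.const 1) (PT.pair (PT.const 0) a.p2)))
  · exact PT.pair x (PT.pair (PT.nsucc v) (PT.pair (PT.const 0) (PT.pair (PT.const 0) a.p2)))
  · exact PT.pair x (PT.pair v (PT.pair r (PT.pair (PT.const 2) M)))

theorem aug_size (x : ι) (g : List ℕ) (v : ℕ) (M : O) :
    tsize (A.aug (x, g, v, M)).2 ≤ max (tsize M) (A.B x) := by
  unfold aug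
  simp only
  split_ifs
  · exact le_max_left _ _
  · have h : ∀ k, ((A.step)^[k] (x, g, v, M, [(v, M)], 0, M)).1 = x ∧
        ((A.step)^[k] (x, g, v, M, [(v, M)], 0, M)).2.2.2.1 = M ∧
        tsize ((A.step)^[k] (x, g, v, M, [(v, M)], 0, M)).2.2.2.2.2.2 ≤ max (tsize M) (A.B x) := by
      intro k
      induction k with
      | zero => exact ⟨rfl, rfl, le_max_left _ _⟩
      | succ k ih =>
        rw [Function.iterate_succ_apply']
        generalize (A.step)^[k] (x, g, v, M, [(v, M)], 0, M) = s at ih ⊢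
        obtain ⟨x', g', v', M', W, st, R⟩ := s
        obtain ⟨e1, e4, hr⟩ := ih
        simp only at e1 e4 hr
        subst e1 e4
        unfold step
        simp only
        by_cases h0 : st = 0
        · rw [if_pos h0]
          generalize A.inner (x', res (A.nv x') g' (W.map Prod.fst), W) = r
          obtain ⟨r1, L⟩ := r
          have hN := A.size_exch (x', M', L, v')
          cases r1 with
          | false => exact ⟨rfl, rfl, le_max_left _ _⟩
          | true =>
            simp only [cond_true]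
            split_ifs
            · exact ⟨rfl, rfl, hN.trans (le_max_right _ _)⟩
            · exact ⟨rfl, rfl, le_max_left _ _⟩
        · rw [if_neg h0]
          exact ⟨rfl, rfl, hr⟩
    exact (h _).2.2

theorem osz_iter (x : ι) (k : ℕ) :
    ((A.ostep)^[k] (x, 0, 0, 0, A.emp)).1 = x ∧ ((A.ostep)^[k] (x, 0, 0, 0, A.emp)).2.1 ≤ k ∧
      ((A.ostep)^[k] (x, 0, 0, 0, A.emp)).2.2.1 ≤ 1 ∧
      ((A.ostep)^[k] (x, 0, 0, 0, A.emp)).2.2.2.1 ≤ 2 ∧
      tsize ((A.ostep)^[k] (x, 0, 0, 0, A.emp)).2.2.2.2 ≤ max (tsize A.emp) (A.B x) := by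
  induction k with
  | zero => exact ⟨rfl, le_rfl, by simp, by simp, le_max_left _ _⟩
  | succ k ih =>
    rw [Function.iterate_succ_apply']
    generalize (A.ostep)^[k] (x, 0, 0, 0, A.emp) = s at ih ⊢
    obtain ⟨x', v, r, st, M⟩ := s
    obtain ⟨e1, h1, h2, h3, h4⟩ := ih
    simp only at e1 h1 h2 h3 h4
    subst e1
    unfold ostep
    simp only
    have ha := A.aug_size x' (dem (A.nv x') v (r + 1)) v M
    split_ifs
    · exact ⟨rfl, by simp only; omega, le_rfl, by simp, ha.trans (max_le h4 (le_max_right _ _))⟩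
    · exact ⟨rfl, by simp only; omega, by simp, by simp, ha.trans (max_le h4 (le_max_right _ _))⟩
    · exact ⟨rfl, by simp only; omega, h2, le_rfl, h4⟩
    · exact ⟨rfl, by simp only; omega, h2, h3, h4⟩

/-- **The algorithm runs in polynomial time.** -/
theorem pt_alg : PT A.alg := by
  have h := PT.iterateNat (count := fun x : ι => 2 * A.nv x)
    (init := fun x : ι => (x, 0, 0, 0, A.emp)) (PT.nmul (PT.const 2) A.pt_nv)
    (PT.pair PT.id (PT.const (0, 0, 0, A.emp))) A.pt_ostep
    ⟨fun x => tsize x + 4 * A.nv x + (tsize A.emp + A.B x) + 20, by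
      have hn : PB (fun x : ι => A.nv x) :=
        A.pt_nv.size.of_le fun y => by simp only [tsize_nat]; omega
      exact ((PB.tsize.add ((PB.const 4).mul hn)).add ((PB.const _).add A.pb)).add (PB.const 20), by
      intro x k hk
      obtain ⟨e1, h1, h2, h3, h4⟩ := A.osz_iter x k
      generalize (A.ostep)^[k] (x, 0, 0, 0, A.emp) = s at *
      obtain ⟨x', v, r, st, M⟩ := s
      simp only at e1 h1 h2 h3 h4
      subst e1
      have h5 : max (tsize A.emp) (A.B x') ≤ tsize A.emp + A.B x' :=
        max_le (Nat.le_add_right _ _) (Nat.le_add_left _ _)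
      simp only [tsize_pair, tsize_nat]
      omega⟩
  unfold alg
  exact PT.pair (PT.neq h.p2.p2.p2.p1 (PT.const 0)) h.p2.p2.p2.p2

end OutApi

end Pool.Agent.PF4
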