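import Pool.Agent.PF4.XP4

/-!
Two conflicting squares, a free corner `p` of the first square, all corners of the second square in `T`: the last step,
in the second world.
-/

set_option autoImplicit false
set_option linter.unusedSectionVars false
set_option linter.unusedVariables false

namespace Pool.Agent.PF4.XT

open Finset Pool.Agent.TFC Pool.Agent.PF4 Pool.Agent.PF4.LD Pool.Agent.PF4.XC Pool.Agent.PF4.XF

/-- degrees in a set of three edges of a `K4` -/
theorem s2_k4deg {Y : Finset ℕ} (hY : #Y = 4) {K : Finset (Sym2 ℕ)} (hK : K ⊆ (Clu.k4 Y).edges)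
    (h2 : ∀ v, dg K v ≤ 2) (h3 : #K = 3) {y q l : ℕ} (hy : y ∈ Y) (hq : q ∈ Y) (hqy : q ≠ y)
    (h : dg K q = 0 ∨ (dg K q ≤ 1 ∧ l ∈ Y ∧ l ≠ y ∧ l ≠ q ∧ dg K l ≤ 1)) : dg K y = 2 := by
  have hs := sum_dv_k4 hK
  rw [← Finset.add_sum_erase Y _ hy, h3] at hs
  have hc : #(Y.erase y) = 3 := by rw [card_erase_of_mem hy, hY]
  have hq' : q ∈ Y.erase y := mem_erase.2 ⟨hqy, hq⟩
  have key : ∑ v ∈ Y.erase y, dv K v ≤ 4 := by
    rcases h with h | ⟨h4, h5, h6, h7, h8⟩
    · have h1 : ∑ v ∈ Y.erase y, dv K v ≤ ∑ v ∈ Y.erase y, ((2 : ℤ) - if v = q then 2 else 0) := by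
        refine Finset.sum_le_sum fun v _ => ?_
        rw [dv_apply]
        by_cases hv : v = q
        · rw [if_pos hv, hv, h]; norm_num
        · rw [if_neg hv]
          have := h2 v
          omega
      rw [Finset.sum_sub_distrib, Finset.sum_const, hc, Finset.sum_ite_eq' (Y.erase y) q fun _ => (2 : ℤ),
        if_pos hq'] at h1
      norm_num at h1
      exact h1
    · have hl' : l ∈ Y.erase y := mem_erase.2 ⟨h6, h5⟩
      have h1 : ∑ v ∈ Y.erase y, dv K v ≤
          ∑ v ∈ Y.erase y, ((2 : ℤ) - (if v = q then 1 else 0) - if v = l then 1 else 0) := by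
        refine Finset.sum_le_sum fun v _ => ?_
        rw [dv_apply]
        by_cases hv : v = q
        · have : ¬ v = l := fun e => h7 (e.symm.trans hv)
          rw [if_pos hv, if_neg this, hv]
          omega
        · rw [if_neg hv]
          by_cases hv' : v = l
          · rw [if_pos hv', hv']
            omega
          · rw [if_neg hv']
            have := h2 v
            omega
      rw [Finset.sum_sub_distrib, Finset.sum_sub_distrib, Finset.sum_const, hc,
        Finset.sum_ite_eq' (Y.erase y) q fun _ => (1 : ℤ), Finset.sum_ite_eq' (Y.erase y) l fun _ => (1 : ℤ),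
        if_pos hq', if_pos hl'] at h1
      norm_num at h1
      exact h1
  have := h2 y
  rw [dv_apply] at hs
  push_cast at hs
  omega

/-- all neighbours are equal -/
theorem s2_dg1 {K : Finset (Sym2 ℕ)} {v a : ℕ} (h : ∀ b, s(v, b) ∈ K → b = a) : dg K v ≤ 1 := by
  by_contra hc
  obtain ⟨b, hb, hbK⟩ := exists_nbr_ne (z := K) (v := v) (by omega) a
  exact hb (h b hbK)

/-- all edges at a vertex are in the subset -/
theorem s2_full {K M : Finset (Sym2 ℕ)} (hK : K ⊆ M) {v : ℕ} (h1 : dg K v = 2) (h2 : dg M v ≤ 2) {e : Sym2 ℕ}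
    (he : e ∈ M) (hv : v ∈ e) : e ∈ K := by
  have h3 : K.filter (fun e => v ∈ e) = M.filter (fun e => v ∈ e) := by
    refine Finset.eq_of_subset_of_card_le (Finset.filter_subset_filter _ hK) ?_
    unfold dg at h1 h2
    rw [h1]
    exact h2
  have h4 : e ∈ M.filter (fun e => v ∈ e) := mem_filter.2 ⟨he, hv⟩
  rw [← h3] at h4
  exact (mem_filter.1 h4).1

section
variable {X : XD} {P : ℕ → Finset (Sym2 ℕ) → Prop} {D : Finset (Finset (Sym2 ℕ))} {j m : ℕ} {S : Finset ℕ}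
  {M : ℕ → Finset (Sym2 ℕ)} {CL U : List (Clu ℕ)} {PL : Finset (Sym2 ℕ)} {F : Clu ℕ → Prop} {pl mi : ℕ → Prop}

theorem PW.reg_s {A : Clu ℕ → Finset (Sym2 ℕ) → Prop} (h : PW X P D j S M A CL U PL pl mi) {v : ℕ} (hv : v ∈ S)
    {e : Sym2 ℕ} (he : e ∈ X.E) (hve : v ∈ e) : e ∈ Ucl U ∪ PL :=
  h.rch v (Rch.mono (r := 0) (Nat.zero_le 3) hv) e he hve

theorem PW.reg_s1 {A : Clu ℕ → Finset (Sym2 ℕ) → Prop} (h : PW X P D j S M A CL U PL pl mi) {u v : ℕ} (hu : u ∈ S)
    (huv : s(u, v) ∈ X.E) {e : Sym2 ℕ} (he : e ∈ X.E) (hve : v ∈ e) : e ∈ Ucl U ∪ PL :=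
  h.rch v (Rch.mono (r := 1) (by norm_num) (Or.inr ⟨u, hu, huv⟩)) e he hve

theorem PW.clz_s {A : Clu ℕ → Finset (Sym2 ℕ) → Prop} (h : PW X P D j S M A CL U PL pl mi) {Z : Finset (Sym2 ℕ)}
    (hZ : Z ∈ D) {e : Sym2 ℕ} (he : e ∈ Z) (hW : e ∈ Ucl U ∪ PL) : ∃ c ∈ U, Z ⊆ c.edges := by
  rcases mem_union.1 hW with h1 | h1
  · obtain ⟨c, hc, hec⟩ := mem_Ucl.1 h1
    exact ⟨c, hc, (h.cls.whole ((h.uc c).1 hc).1 hZ).resolve_right fun hd => disjoint_left.1 hd he hec⟩
  · exact absurd he (((h.pm e).1 h1).2 Z hZ)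

/-- near covers are allowed -/
theorem WA.au_s (h : WA X P D j m S M CL U PL) (hF : ∀ c, F c → K2 c)
    (g : PW X P D j S M (Fr D F) CL U PL pl mi) {w : ℕ} (hw : w ∈ S) (hT : w ∈ X.T) :
    AU (Fr D F) U PL (M w ∩ (Ucl U ∪ PL)) := by
  refine ⟨inter_subset_right, fun c hcU => ?_⟩
  rw [g.interW hcU]
  exact fr_near h.ow h.cls hF hw hT ((g.uc c).1 hcU).1

theorem fr_dwn_s : Dwn (Fr D F) := by
  intro c K K' hK hA
  by_cases hf : F c
  · rw [Fr_pos hf] at hA ⊢
    exact Good.mono hA hK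
  · rw [Fr_neg hf] at hA ⊢
    exact ⟨hA.1.mono hK, fun Z hZ hs => hA.2 Z hZ (hs.trans hK)⟩

/-- the frame at an uncapped cluster -/
theorem fr_asf_s (g : PW X P D j S M (Fr D F) CL U PL pl mi) {c : Clu ℕ} (hc : c ∈ U) (hf : F c) :
    ASf (Fr D F) c := by
  intro K hK hs
  rw [Fr_pos hf]
  exact sqFree_of ((g.nl (g.cW hc)).mono hK) hs

theorem WA.nsq_s (h : WA X P D j m S M CL U PL) (g : PW X P D j S M (Fr D F) CL U PL pl mi) {c : Clu ℕ} (hc : c ∈ U)
    (h2 : K2 c) {w : ℕ} (hw : w ∈ S) (hT : w ∈ X.T) : NSq (M w ∩ c.edges) :=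
  (XU.sqFree_iff ((g.nl (g.cW hc)).mono inter_subset_right)).1 (h.msf w hw hT c ((g.uc c).1 hc).1 h2)

/-- a near cover at an edge of an uncapped cluster -/
theorem WA.free_s (h : WA X P D j m S M CL U PL) (hF : ∀ c, F c → K2 c) (g : PW X P D j S M (Fr D F) CL U PL pl mi)
    {c : Clu ℕ} (hc : c ∈ U) (hf : F c) {e : Sym2 ℕ} (he : e ∈ c.edges) {w : ℕ} (hw : w ∈ S) (hT : w ∈ X.T) :
    Free (Fr D F) U (M w) e := by
  intro c' hc' he'
  have := g.eqc hc hc' he he'
  subst this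
  exact ⟨fr_asf_s g hc hf, h.nsq_s g hc (hF c hf) hw hT⟩

/-- `K4` clusters: near covers have three edges, all vertices are in `T` -/
theorem WA.k4_s (h : WA X P D j m S M CL U PL) {Y : Finset ℕ} (hU : Clu.k4 Y ∈ U) {w : ℕ} (hw : w ∈ S) (hT : w ∈ X.T) :
    #(M w ∩ (Clu.k4 Y).edges) = 3 ∧ ∀ v ∈ Y, v ∈ X.T := by
  obtain ⟨pl, mi, g, _⟩ := h.fr (fun _ => False) fun _ h => h.elim
  have hA : ∀ c, Fr D (fun _ => False) c = Acap D := fun c => Fr_neg (fun h => h)
  obtain ⟨f, hf⟩ := valid_nonempty (g.val hU)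
  obtain ⟨Z, hZ, hfZ, hZs⟩ := h.cls.edge_sq ((g.uc _).1 hU).1 hf
  obtain ⟨L, hL⟩ := g.wt hZ
  have hX : ∀ v ∈ Y, mi v ∧ ¬ pl v := fun v hv => g.k4X hU (fun c _ _ => hA c) (hA _) hv
  have hO : Out (Fr D fun _ => False) U (Clu.k4 Y) L := by
    intro c hcU hne
    rw [hA]
    refine ⟨hL.m2.mono inter_subset_left, fun Z' hZ' hs => ?_⟩
    have := hL.uni Z' hZ' (hs.trans inter_subset_left)
    subst this
    exact hne (g.eqc hcU hU (mem_inter.1 (hs hfZ)).2 hf)
  have hcap : ∀ c ∈ U, Acap D (M w ∩ c.edges) := fun c hc => h.mcap w hw hT c ((g.uc c).1 hc).1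
  have hACp : ACp D (Fr D fun _ => False) (Clu.k4 Y) := fun K _ hK => by rw [hA]; exact hK
  have hDD := g.k4D hU hACp hZ hZs hL hO
  refine ⟨g.k4M hU (ACp.am2 g.isq hACp) hX hDD hw hT (fun c hc _ => by rw [hA]; exact hcap c hc) (hcap _ hU),
    fun v hv => ?_⟩
  by_contra hvT
  have hv2 : v ∈ X.V2 := by
    have h4 : #Y = 4 := g.val hU
    obtain ⟨a, ha⟩ : (Y.erase v).Nonempty := by
      rw [← card_pos, card_erase_of_mem hv, h4]; norm_num
    simp only [mem_erase] at ha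
    exact g.v2 hU (mem_k4.2 ⟨hv, ha.2, Ne.symm ha.1⟩) (Sym2.mem_mk_left _ _)
  exact g.free v (g.ok.vn v hv2) hvT (hX v hv).1

/-- the square is not in a `K4` cluster -/
theorem s2_k4 (h : WA X P D j m S M CL U PL) {x y s r u v : ℕ} (h4 : Dist4 x y s r)
    (hU : Clu.k4 {x, y, s, r} ∈ U) (hr : r ∈ S) (hT : r ∈ X.T) {C : Finset (Sym2 ℕ)} (hp : P3 (M r ∩ C) r u v s)
    (n1 : s(x, r) ∉ C) (n2 : s(y, s) ∉ C) (n3 : s(x, y) ∉ C) : False := by
  obtain ⟨xy, xs, xr, ys, yr, sr⟩ := h4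
  obtain ⟨⟨ru, rv, _, uv, us, vs⟩, p1, p2, p3⟩ := hp
  rw [mem_inter] at p1 p2 p3
  obtain ⟨nc, _, _⟩ := h.ow.nc r hr hT
  obtain ⟨h3, _⟩ := h.k4_s hU hr hT
  have hY : #({x, y, s, r} : Finset ℕ) = 4 := (h.cls.val _ (((h.fr (fun _ => False) fun _ h => h.elim).choose_spec.choose_spec.1.uc _).1 hU).1)
  have hK : M r ∩ (Clu.k4 {x, y, s, r}).edges ⊆ (Clu.k4 {x, y, s, r}).edges := inter_subset_right
  have hd : ∀ v, dg (M r ∩ (Clu.k4 {x, y, s, r}).edges) v ≤ 2 := fun v =>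
    (dg_mono inter_subset_left v).trans (nc.m2.le v)
  have one : ∀ a, s(r, a) ∈ M r → a = u := fun a ha => nbr_unique (by rw [nc.one]) ha p1.1
  have mem : ∀ a b, s(a, b) ∈ (Clu.k4 {x, y, s, r}).edges →
      (a = x ∨ a = y ∨ a = s ∨ a = r) ∧ (b = x ∨ b = y ∨ b = s ∨ b = r) := by
    intro a b hab
    rw [mem_k4] at hab
    obtain ⟨h1, h2, _⟩ := hab
    simp only [mem_insert, mem_singleton] at h1 h2
    exact ⟨h1, h2⟩
  have ux : u ≠ x := fun e => n1 (msw (e ▸ p1.2))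
  have mx : x ∈ ({x, y, s, r} : Finset ℕ) := by simp
  have my : y ∈ ({x, y, s, r} : Finset ℕ) := by simp
  have ms : s ∈ ({x, y, s, r} : Finset ℕ) := by simp
  have mr : r ∈ ({x, y, s, r} : Finset ℕ) := by simp
  by_cases uy : u = y
  · subst uy
    have vx : v ≠ x := fun e => n3 (msw (e ▸ p2.2))
    have nb : ∀ a, s(u, a) ∈ M r → a = r ∨ a = v := fun a ha =>
      nbr_two (nc.m2.le u) (msw p1.1) p2.1 rv ha
    have d1 : dg (M r ∩ (Clu.k4 {x, u, s, r}).edges) r ≤ 1 :=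
      (dg_mono inter_subset_left r).trans (by rw [nc.one])
    have d2 : dg (M r ∩ (Clu.k4 {x, u, s, r}).edges) u ≤ 1 := by
      refine s2_dg1 (a := r) fun b hb => ?_
      obtain ⟨hb1, hb2⟩ := mem_inter.1 hb
      rcases nb b hb1 with h1 | h1
      · exact h1
      · exfalso
        subst h1
        rcases (mem _ _ hb2).2 with h5 | h5 | h5 | h5
        · exact vx h5
        · exact uv h5.symm
        · exact vs h5
        · exact rv h5.symm
    have d3 : dg (M r ∩ (Clu.k4 {x, u, s, r}).edges) x ≤ 1 := by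
      refine s2_dg1 (a := s) fun b hb => ?_
      obtain ⟨hb1, hb2⟩ := mem_inter.1 hb
      rcases (mem _ _ hb2).2 with h5 | h5 | h5 | h5
      · exfalso
        rw [mem_k4] at hb2
        exact hb2.2.2 h5.symm
      · exfalso
        subst h5
        rcases nb x (msw hb1) with h6 | h6
        · exact xr h6
        · exact vx h6.symm
      · exact h5
      · exfalso
        subst h5
        exact ux (one x (msw hb1)).symm
    have := s2_k4deg hY hK hd h3 (y := x) (q := r) (l := u) mx mr xr.symm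
      (Or.inr ⟨d1, my, xy.symm, ru.symm, d2⟩)
    omega
  · have ur : u ≠ r := ru.symm
    have d0 : dg (M r ∩ (Clu.k4 {x, y, s, r}).edges) r = 0 := by
      by_contra hc
      obtain ⟨b, hb⟩ := exists_nbr (z := M r ∩ (Clu.k4 {x, y, s, r}).edges) (v := r) (by omega)
      obtain ⟨hb1, hb2⟩ := mem_inter.1 hb
      have := one b hb1
      subst this
      rcases (mem _ _ hb2).2 with h5 | h5 | h5 | h5
      · exact ux h5
      · exact uy h5
      · exact us h5
      · exact ur h5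
    have ds := s2_k4deg hY hK hd h3 (y := s) (q := r) (l := r) ms mr sr.symm (Or.inl d0)
    have dx := s2_k4deg hY hK hd h3 (y := x) (q := r) (l := r) mx mr xr.symm (Or.inl d0)
    have hv := s2_full inter_subset_left ds (nc.m2.le s) p3.1 (Sym2.mem_mk_right _ _)
    rcases (mem _ _ (mem_inter.1 hv).2).1 with h5 | h5 | h5 | h5
    · -- `v = x`
      subst h5
      have hu := s2_full inter_subset_left dx (nc.m2.le v) p2.1 (Sym2.mem_mk_right _ _)
      rcases (mem _ _ (mem_inter.1 hu).2).1 with h5 | h5 | h5 | h5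
      · exact ux h5
      · exact uy h5
      · exact us h5
      · exact ur h5
    · subst h5
      exact n2 p3.2
    · exact vs h5
    · exact rv h5.symm

/-- two different descriptions of a cluster with two centres -/
theorem s2_hubs {u v u' v' : ℕ} {L L' : Finset ℕ} (h : Clu.k2 u v L = Clu.k2 u' v' L') : u = u' ∧ v = v' ∧ L = L' := by
  injection h with h1 h2 h3
  exact ⟨h1, h2, h3⟩

/-- a cluster with two centres and a square: two opposite corners are the centres -/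
theorem s2_shape {c : Clu ℕ} (hc : c.Valid) (h2 : K2 c) {x y q p : ℕ} (h4 : Dist4 x y q p)
    (hs : TFC.sq x y q p ⊆ c.edges) :
    (∃ L, (c = Clu.k2 x q L ∨ c = Clu.k2 q x L) ∧ y ∈ L ∧ p ∈ L ∧ x ∉ L ∧ q ∉ L) ∨
    (∃ L, (c = Clu.k2 y p L ∨ c = Clu.k2 p y L) ∧ x ∈ L ∧ q ∈ L ∧ y ∉ L ∧ p ∉ L) := by
  rcases shape hc h4 hs with h | h
  · obtain ⟨a, b, L, rfl⟩ := h2
    cases h
  · exact h

/-- a square meets both centres -/
theorem s2_centre {u v : ℕ} {L : Finset ℕ} (hc : (Clu.k2 u v L).Valid) {Z : Finset (Sym2 ℕ)} (hZ : IsSq Z)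
    (hs : Z ⊆ (Clu.k2 u v L).edges) : (∃ b, s(u, b) ∈ Z) ∧ ∃ b, s(v, b) ∈ Z := by
  obtain ⟨a', b', c', d', h5, rfl⟩ := hZ
  rcases s2_shape hc ⟨_, _, _, rfl⟩ h5 hs with ⟨L2, h6 | h6, _⟩ | ⟨L2, h6 | h6, _⟩
  · obtain ⟨rfl, rfl, _⟩ := s2_hubs h6
    exact ⟨⟨b', by simp [TFC.sq]⟩, ⟨d', by simp [TFC.sq]⟩⟩
  · obtain ⟨rfl, rfl, _⟩ := s2_hubs h6
    exact ⟨⟨d', by simp [TFC.sq]⟩, ⟨b', by simp [TFC.sq]⟩⟩
  · obtain ⟨rfl, rfl, _⟩ := s2_hubs h6
    exact ⟨⟨c', by simp [TFC.sq]⟩, ⟨a', by simp [TFC.sq]⟩⟩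
  · obtain ⟨rfl, rfl, _⟩ := s2_hubs h6
    exact ⟨⟨a', by simp [TFC.sq]⟩, ⟨c', by simp [TFC.sq]⟩⟩

/-- the last move: `M_s - qp + yq` -/
theorem s2_last (h : WA X P D j m S M CL U PL) (hF : ∀ c, F c → K2 c) (g : PW X P D j S M (Fr D F) CL U PL pl mi)
    {x y q p r s l : ℕ} {c1 cR : Clu ℕ}
    (hFd : F = fun c => K2 c ∧ (TFC.sq x y s r ⊆ c.edges ∨ ∃ v L, c = Clu.k2 y v L ∨ c = Clu.k2 v y L))
    (hM : ∀ w ∈ S, w ∈ X.T → AU (Fr D F) U PL (M w ∩ (Ucl U ∪ PL))) (cU : cR ∈ U) (hcR : TFC.sq x y s r ⊆ cR.edges)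
    (k2R : K2 cR) (fR : F cR) (d4 : Dist4 x y s r) (xq : x ≠ q) (xp : x ≠ p) (yq : y ≠ q) (yp : y ≠ p) (qp : q ≠ p)
    (qr : q ≠ r) (qs : q ≠ s) (pr : p ≠ r) (ps : p ≠ s) (xS : x ∈ S) (yS : y ∈ S) (sS : s ∈ S) (xT : x ∈ X.T)
    (yT : y ∈ X.T) (sT : s ∈ X.T) (pT : p ∉ X.T) (hQ : TFC.sq x y q p ⊆ X.E) (xr1 : s(x, r) ∉ c1.edges)
    (ncs : NC X s (M s)) (hyp : ¬ pl y) (hly : l ≠ y) (hd : P3 (M s ∩ c1.edges) x l q p)
    (blk : ∀ w z, w ∈ S → w ∈ X.T → s(w, z) ∈ cR.edges → s(w, z) ∉ M w →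
      (∀ a b, Dist4 w a b z → s(w, a) ∈ M w → s(a, b) ∈ M w → s(b, z) ∈ M w → s(w, a) ∈ cR.edges →
        s(a, b) ∈ cR.edges → s(b, z) ∈ cR.edges → False) → pl z) : False := by
  obtain ⟨xy, xs, xr, ys, yr, sr⟩ := d4
  obtain ⟨⟨n1, n2, n3, n4, n5, n6⟩, p1, p2, p3⟩ := hd
  rw [mem_inter] at p1 p2 p3
  have shR := s2_shape (g.val cU) k2R ⟨xy, xs, xr, ys, yr, sr⟩ hcR
  have lr : l ≠ r := fun h' => xr1 (h' ▸ p1.2)
  -- neighbours in `M s`
  have nq : ∀ b, s(q, b) ∈ M s → b = l ∨ b = p := fun b hb => nbr_two (ncs.m2.le q) (msw p2.1) p3.1 n5 hb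
  have nl : ∀ b, s(l, b) ∈ M s → b = x ∨ b = q := fun b hb => nbr_two (ncs.m2.le l) (msw p1.1) p2.1 n2 hb
  have hyq : s(y, q) ∉ M s := by
    intro h'
    rcases nq y (msw h') with h1 | h1
    · exact hly h1.symm
    · exact yp h1
  have hyqW : s(y, q) ∈ Ucl U ∪ PL := g.reg_s yS (hQ (by simp [TFC.sq])) (Sym2.mem_mk_left _ _)
  have hqpW : s(q, p) ∈ Ucl U ∪ PL :=
    g.reg_s1 yS (v := q) (hQ (by simp [TFC.sq])) (hQ (by simp [TFC.sq])) (Sym2.mem_mk_left _ _)
  have hxyR : s(x, y) ∈ cR.edges := hcR (by simp [TFC.sq])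
  have hysR : s(s, y) ∈ cR.edges := hcR (by simp [TFC.sq, Sym2.eq_swap])
  have notK4 : ∀ {Y : Finset ℕ}, Clu.k4 Y ∈ U → ∀ {e : Sym2 ℕ}, e ∈ cR.edges → e ∉ (Clu.k4 Y).edges := by
    intro Y hY e he he'
    have := g.eqc cU hY he he'
    obtain ⟨a, b, L, h1⟩ := k2R
    rw [h1] at this
    cases this
  -- the modified near cover
  obtain ⟨K0, hK0⟩ : ∃ K0, K0 = (M s ∩ (Ucl U ∪ PL)) \ {s(q, p)} := ⟨_, rfl⟩
  have hK0M : K0 ⊆ M s := by
    rw [hK0]
    exact sdiff_subset.trans inter_subset_left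
  have hK0q : s(q, p) ∉ K0 := by
    rw [hK0]
    simp
  have hA0 : AU (Fr D F) U PL K0 := by
    rw [hK0]
    exact (hM s sS sT).mono fr_dwn_s sdiff_subset
  have nq0 : ∀ b, s(q, b) ∈ K0 → b = l := by
    intro b hb
    rcases nq b (hK0M hb) with h1 | h1
    · exact h1
    · exact absurd (h1 ▸ hb) hK0q
  have hadd : Addb (Fr D F) U PL K0 s(y, q) := by
    rcases mem_union.1 hyqW with h1 | h1
    swap
    · exact Or.inl h1
    obtain ⟨c, hcU, hec⟩ := mem_Ucl.1 h1
    refine Or.inr ⟨c, hcU, hec, ?_⟩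
    by_cases k2c : K2 c
    · -- two centres
      have hns : NSq (insert s(y, q) (K0 ∩ c.edges)) := by
        by_contra hn
        obtain ⟨a, b, ⟨m1, m2, m3, m4, m5, m6⟩, h2, h3, h4⟩ :=
          nsq_insert (NSq.mono (h.nsq_s g hcU k2c sS sT) (inter_subset_inter hK0M le_rfl)) hn
        rw [mem_inter] at h2 h3 h4
        have hb : b = l := nq0 b (msw h4.1)
        subst hb
        rcases nl a (msw (hK0M h3.1)) with h5 | h5
        · subst h5
          have hcc := g.eqc hcU cU h2.2 (msw hxyR)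
          subst hcc
          have h6 := s2_shape (g.val hcU) k2c (x := y) (y := a) (q := b) (p := q) ⟨m1, m2, m3, m4, m5, m6⟩ (by
            intro e he
            simp only [TFC.sq, mem_insert, mem_singleton] at he
            rcases he with rfl | rfl | rfl | rfl
            · exact h2.2
            · exact h3.2
            · exact h4.2
            · exact msw hec)
          rcases h6 with ⟨L, h7, _, _, h8, _⟩ | ⟨L, h7, _, _, h8, _⟩ <;>
            rcases shR with ⟨L', h9, h10, h11, h12, _⟩ | ⟨L', h9, h10, h11, h12, _⟩ <;>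
            rcases h7 with h7 | h7 <;> rcases h9 with h9 | h9 <;> rw [h7] at h9 <;>
            obtain ⟨e1, e2, e3⟩ := s2_hubs h9
          · exact xy e1.symm
          · exact ys e1
          · exact ys e2
          · exact xy e2.symm
          · exact lr e2
          · exact yr e1
          · exact yr e2
          · exact lr e1
          · exact qs e2
          · exact xs e1
          · exact xs e2
          · exact qs e1
          · exact xy e1
          · exact xr e1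
          · exact xr e2
          · exact xy e2
        · exact m5 h5
      refine Fr_of (fun _ => ?_) fun hnf => ?_
      · exact sqFree_of ((g.nl (g.cW hcU)).mono (insert_subset hec inter_subset_right)) hns
      · refine ⟨?_, fun Z hZ => hns Z (g.isq Z hZ)⟩
        -- a 2-matching
        refine ⟨(g.nl (g.cW hcU)).mono (insert_subset hec inter_subset_right), fun v => ?_⟩
        have hn0 : s(y, q) ∉ K0 ∩ c.edges := fun h' => hyq (hK0M (mem_inter.1 h').1)
        rw [dg_insert hn0]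
        by_cases hv : v ∈ s(y, q)
        · rw [if_pos hv]
          rw [Sym2.mem_iff] at hv
          have : dg (K0 ∩ c.edges) v ≤ 1 := by
            rcases hv with rfl | rfl
            · -- `y` is a leaf of `c`
              obtain ⟨a, b, L, rfl⟩ := k2c
              have hya : v ≠ a := by
                rintro rfl
                exact hnf (by rw [hFd]; exact ⟨⟨_, _, _, rfl⟩, Or.inr ⟨_, _, Or.inl rfl⟩⟩)
              have hyb : v ≠ b := by
                rintro rfl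
                exact hnf (by rw [hFd]; exact ⟨⟨_, _, _, rfl⟩, Or.inr ⟨_, _, Or.inr rfl⟩⟩)
              have hq' : q = a ∨ q = b := by
                rw [mem_k2] at hec
                rcases hec with ⟨h2 | h2, _⟩ | ⟨h2, _⟩
                · exact absurd h2 hya
                · exact absurd h2 hyb
                · exact h2
              have hnb : ∀ w, s(v, w) ∈ K0 ∩ (Clu.k2 a b L).edges → (w = a ∨ w = b) ∧ w ≠ q := by
                intro w hw
                obtain ⟨hw1, hw2⟩ := mem_inter.1 hw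
                refine ⟨?_, fun h' => hyq (hK0M (h' ▸ hw1))⟩
                rw [mem_k2] at hw2
                rcases hw2 with ⟨h2 | h2, _⟩ | ⟨h2, _⟩
                · exact absurd h2 hya
                · exact absurd h2 hyb
                · exact h2
              rcases hq' with h5 | h5
              · refine s2_dg1 (a := b) fun w hw => ?_
                obtain ⟨h6 | h6, h7⟩ := hnb w hw
                · exact absurd (h6.trans h5.symm) h7
                · exact h6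
              · refine s2_dg1 (a := a) fun w hw => ?_
                obtain ⟨h6 | h6, h7⟩ := hnb w hw
                · exact h6
                · exact absurd (h6.trans h5.symm) h7
            · exact s2_dg1 (a := l) fun w hw => nq0 w (mem_inter.1 hw).1
          omega
        · rw [if_neg hv]
          exact (dg_mono (inter_subset_left.trans hK0M) v).trans (ncs.m2.le v)
    · -- a `K4`
      exfalso
      obtain ⟨Y, rfl⟩ : ∃ Y, c = Clu.k4 Y := by
        cases c with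
        | k4 Y => exact ⟨Y, rfl⟩
        | k2 a b L => exact absurd ⟨_, _, _, rfl⟩ k2c
      obtain ⟨h3, hYT⟩ := h.k4_s hcU sS sT
      have hY4 : #Y = 4 := g.val hcU
      obtain ⟨hy, hq, _⟩ := mem_k4.1 hec
      have hdy : dg (M s ∩ (Clu.k4 Y).edges) y = 2 := by
        have dq1 : dg (M s ∩ (Clu.k4 Y).edges) q ≤ 1 := by
          refine s2_dg1 (a := l) fun b hb => ?_
          obtain ⟨hb1, hb2⟩ := mem_inter.1 hb
          rcases nq b hb1 with h5 | h5
          · exact h5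
          · exact absurd (hYT p (h5 ▸ (mem_k4.1 hb2).2.1)) pT
        by_cases hl : l ∈ Y
        · refine s2_k4deg hY4 inter_subset_right (fun v => (dg_mono inter_subset_left v).trans (ncs.m2.le v)) h3 hy hq
            (l := l) yq.symm (Or.inr ⟨dq1, hl, hly, n4, s2_dg1 (a := q) fun b hb => ?_⟩)
          obtain ⟨hb1, hb2⟩ := mem_inter.1 hb
          rcases nl b hb1 with h5 | h5
          · subst h5
            exact absurd (mem_k4.2 ⟨(mem_k4.1 hb2).2.1, hy, xy⟩) (notK4 hcU hxyR)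
          · exact h5
        · refine s2_k4deg hY4 inter_subset_right (fun v => (dg_mono inter_subset_left v).trans (ncs.m2.le v)) h3 hy hq
            (l := l) yq.symm (Or.inl ?_)
          by_contra hc
          obtain ⟨b, hb⟩ := exists_nbr (z := M s ∩ (Clu.k4 Y).edges) (v := q) (by omega)
          obtain ⟨hb1, hb2⟩ := mem_inter.1 hb
          rcases nq b hb1 with h5 | h5
          · exact hl (h5 ▸ (mem_k4.1 hb2).2.1)
          · exact pT (hYT p (h5 ▸ (mem_k4.1 hb2).2.1))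
      refine hyp (blk s y sS sT hysR (fun h' => ?_) ?_)
      · exact notK4 hcU hysR (mem_inter.1 (s2_full inter_subset_left hdy (ncs.m2.le y) h' (Sym2.mem_mk_right _ _))).2
      · intro a b _ _ _ h7 _ _ h8
        exact notK4 hcU h8 (mem_inter.1 (s2_full inter_subset_left hdy (ncs.m2.le y) h7 (Sym2.mem_mk_right _ _))).2
  have hins : AU (Fr D F) U PL (((M s ∩ (Ucl U ∪ PL)) \ {s(q, p)}) ∪ {s(y, q)}) := by
    have h1 := g.addb hA0 hadd
    rw [hK0, insert_eq, union_comm] at h1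
    exact h1
  have h1 := g.nc_swap sS sT (R := {s(q, p)}) (B := {s(y, q)}) (singleton_subset_iff.2 p3.1)
    (singleton_subset_iff.2 hqpW) (disjoint_singleton_left.2 fun h' => hyq (mem_inter.1 h').1) hins
  rw [dv_pair yq, dv_pair qp] at h1
  have vy : y ∈ X.V2 := g.v2' hyqW (Sym2.mem_mk_left _ _)
  have vp : p ∈ X.V2 := g.v2' hqpW (Sym2.mem_mk_right _ _)
  have e : (Pi.single y 1 + Pi.single q 1 - (Pi.single q 1 + Pi.single p 1) - Pi.single s 1 : ℕ → ℤ) =
      Pi.single y 1 + Pi.single p (-1) + Pi.single s (-1) := by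
    rw [Pi.single_neg, Pi.single_neg]
    abel
  rw [e, ph_three vy vp (g.sv s sS) yp ys ps] at h1
  have my : mi y := g.mi' y yS yT (hM y yS yT)
  rw [con_X hyp my] at h1
  have h2 := con_neg_one_free (p := pl p) (g.free p (g.ok.vn p vp) pT)
  have h3 := con_neg_one (pl s) (mi s)
  omega

/-- **STEP 2** (second world) -/
theorem step2' (h : WA X P D j m S M CL U PL) {x y q p r s : ℕ} {c1 c2 : Clu ℕ} (nd : [x, y, q, p, r, s].Nodup)
    (xS : x ∈ S) (yS : y ∈ S) (rS : r ∈ S) (sS : s ∈ S) (xT : x ∈ X.T) (yT : y ∈ X.T) (rT : r ∈ X.T) (sT : s ∈ X.T)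
    (pT : p ∉ X.T) (hR : TFC.sq x y s r ∈ D) (hQ : TFC.sq x y q p ⊆ X.E) (xr1 : s(x, r) ∉ c1.edges)
    (xr2 : s(x, r) ∉ c2.edges) (ys2 : s(y, s) ∉ c2.edges) (xy2 : s(x, y) ∉ c2.edges)
    (hC : C1 M c1 c2 x y q p r s) : False := by
  simp only [List.nodup_cons, List.mem_cons, List.not_mem_nil, or_false, not_or, List.nodup_nil, and_true,
    not_false_eq_true] at nd
  obtain ⟨⟨xy, xq, xp, xr, xs⟩, ⟨yq, yp, yr, ys⟩, ⟨qp, qr, qs⟩, ⟨pr, ps⟩, rs⟩ := nd
  have d4 : Dist4 x y s r := ⟨xy, xs, xr, ys, yr, Ne.symm rs⟩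
  -- the frame
  obtain ⟨F, hFd⟩ : ∃ F : Clu ℕ → Prop, F = fun c => K2 c ∧ (TFC.sq x y s r ⊆ c.edges ∨
    ∃ v L, c = Clu.k2 y v L ∨ c = Clu.k2 v y L) := ⟨_, rfl⟩
  have hF : ∀ c, F c → K2 c := by
    intro c hc
    rw [hFd] at hc
    exact hc.1
  obtain ⟨pl, mi, g, gmi⟩ := h.fr F hF
  have hM : ∀ w ∈ S, w ∈ X.T → AU (Fr D F) U PL (M w ∩ (Ucl U ∪ PL)) := fun w hw hT => h.au_s hF g hw hT
  have hRE : TFC.sq x y s r ⊆ X.E := g.dE _ hR
  -- the cluster of `R`
  obtain ⟨cR, cU, hcR⟩ := g.clz_s hR (e := s(x, y)) (by simp [TFC.sq])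
    (g.reg_s xS (hRE (by simp [TFC.sq])) (Sym2.mem_mk_left _ _))
  have cv := g.val cU
  obtain ⟨pa, pc, pd⟩ := hC
  obtain ⟨u, v, hc⟩ := pc
  obtain ⟨e, f, ha⟩ := pa
  -- it has two centres
  have k2R : K2 cR := by
    rcases shape cv d4 hcR with h1 | ⟨L, h1 | h1, _⟩ | ⟨L, h1 | h1, _⟩
    · exfalso
      rw [h1] at cU
      exact s2_k4 h d4 cU rS rT hc xr2 ys2 xy2
    · exact ⟨_, _, _, h1⟩
    · exact ⟨_, _, _, h1⟩
    · exact ⟨_, _, _, h1⟩
    · exact ⟨_, _, _, h1⟩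
  have fR : F cR := by
    rw [hFd]
    exact ⟨k2R, Or.inl hcR⟩
  have shR := s2_shape cv k2R d4 hcR
  have eqR : ∀ {c : Clu ℕ} {e : Sym2 ℕ}, c ∈ U → e ∈ c.edges → e ∈ TFC.sq x y s r → c = cR :=
    fun hc he he' => g.eqc hc cU he (hcR he')
  obtain ⟨ncx, _, _⟩ := h.ow.nc x xS xT
  obtain ⟨ncr, _, _⟩ := h.ow.nc r rS rT
  obtain ⟨ncs, _, _⟩ := h.ow.nc s sS sT
  -- the block lemma for `w z` in `cR`
  have blk : ∀ w z, w ∈ S → w ∈ X.T → s(w, z) ∈ cR.edges → s(w, z) ∉ M w →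
      (∀ a b, Dist4 w a b z → s(w, a) ∈ M w → s(a, b) ∈ M w → s(b, z) ∈ M w → s(w, a) ∈ cR.edges →
        s(a, b) ∈ cR.edges → s(b, z) ∈ cR.edges → False) → pl z := by
    intro w z hw hT he hn hb
    rcases g.block (K := M w) (g.cW cU he) (h.free_s hF g cU fR he hw hT) with h1 | ⟨c, hc, h1, a, b, h2, h3, h4, h5, h6, h7, h8⟩
    · exact g.L3p hw hT (hM w hw hT) hn h1
    · have := g.eqc hc cU h1 he
      subst this
      exact (hb a b h2 h3 h4 h5 h6 h7 h8).elim
  -- `r`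
  have plr : pl r := by
    obtain ⟨⟨n1, n2, n3, n4, n5, n6⟩, p1, p2, p3⟩ := ha
    rw [mem_inter] at p1 p2 p3
    have er : e ≠ r := fun h' => xr1 (h' ▸ p1.2)
    refine blk x r xS xT (hcR (by simp [TFC.sq, Sym2.eq_swap])) (fun h' => er ?_) ?_
    · exact nbr_unique (by rw [ncx.one]) p1.1 h'
    · rintro a b ⟨m1, m2, m3, m4, m5, m6⟩ h1 h2 h3 _ _ _
      have ea : a = e := nbr_unique (by rw [ncx.one]) h1 p1.1
      subst ea
      rcases nbr_two (ncx.m2.le a) (msw p1.1) p2.1 n2 h2 with h5 | h5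
      · exact m2 h5.symm
      · subst h5
        rcases nbr_two (ncx.m2.le b) (msw p2.1) p3.1 n5 h3 with h6 | h6
        · exact er h6.symm
        · exact pr h6.symm
  -- `x`
  have plx : pl x := by
    obtain ⟨⟨n1, n2, n3, n4, n5, n6⟩, p1, p2, p3⟩ := hc
    rw [mem_inter] at p1 p2 p3
    have ux : u ≠ x := fun h' => xr2 (msw (h' ▸ p1.2))
    refine blk r x rS rT (hcR (by simp [TFC.sq])) (fun h' => ux ?_) ?_
    · exact nbr_unique (by rw [ncr.one]) p1.1 h'
    · rintro a b ⟨m1, m2, m3, m4, m5, m6⟩ h1 h2 h3 _ _ _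
      have ea : a = u := nbr_unique (by rw [ncr.one]) h1 p1.1
      subst ea
      rcases nbr_two (ncr.m2.le a) (msw p1.1) p2.1 n2 h2 with h5 | h5
      · exact m2 h5.symm
      · subst h5
        rcases nbr_two (ncr.m2.le b) (msw p2.1) p3.1 n5 h3 with h6 | h6
        · exact ux h6.symm
        · exact xs h6
  -- `s`
  have pls : pl s := by
    obtain ⟨⟨n1, n2, n3, n4, n5, n6⟩, p1, p2, p3⟩ := hc
    rw [mem_inter] at p1 p2 p3
    have ux : u ≠ x := fun h' => xr2 (msw (h' ▸ p1.2))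
    have vy : v ≠ y := fun h' => ys2 (h' ▸ p3.2)
    refine blk r s rS rT (hcR (by simp [TFC.sq, Sym2.eq_swap])) (fun h' => n5 ?_) ?_
    · exact nbr_unique (by rw [ncr.one]) p1.1 h'
    · rintro a b ⟨m1, m2, m3, m4, m5, m6⟩ h1 h2 h3 h4 h5 h6
      have ea : a = u := nbr_unique (by rw [ncr.one]) h1 p1.1
      subst ea
      have eb : b = v := by
        rcases nbr_two (ncr.m2.le a) (msw p1.1) p2.1 n2 h2 with h7 | h7
        · exact absurd h7.symm m2
        · exact h7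
      subst eb
      rcases shR with ⟨L, h7, h8, h9, h10, h11⟩ | ⟨L, h7, h8, h9, h10, h11⟩
      · -- centres `x`, `s`
        have h12 : a = x ∨ a = s := by
          rcases h7 with h7 | h7 <;> rw [h7, mem_k2] at h4
          · rcases h4 with ⟨h4 | h4, _⟩ | ⟨h4, _⟩
            · exact absurd h4.symm xr
            · exact absurd h4 rs
            · exact h4
          · rcases h4 with ⟨h4 | h4, _⟩ | ⟨h4, _⟩
            · exact absurd h4 rs
            · exact absurd h4.symm xr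
            · exact h4.symm
        rcases h12 with h12 | h12
        · exact ux h12
        · exact n5 h12
      · have h12 : b = y ∨ b = r := by
          rcases h7 with h7 | h7 <;> rw [h7, mem_k2] at h6
          · rcases h6 with ⟨h6, _⟩ | ⟨h6 | h6, _⟩
            · exact h6
            · exact absurd h6.symm ys
            · exact absurd h6.symm rs
          · rcases h6 with ⟨h6, _⟩ | ⟨h6 | h6, _⟩
            · exact h6.symm
            · exact absurd h6.symm rs
            · exact absurd h6.symm ys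
        rcases h12 with h12 | h12
        · exact vy h12
        · exact m2 h12.symm
  -- a witness of `R` is allowed outside of `cR`
  obtain ⟨L, hL⟩ := g.wt hR
  have hO : Out (Fr D F) U cR L := by
    intro c hcU hne
    refine Fr_of (fun hf => ?_) fun _ => ?_
    · refine sqFree_of (hL.m2.nl.mono inter_subset_left) fun Z hZ hs => ?_
      rw [hFd] at hf
      obtain ⟨_, hf | ⟨v', L', hf⟩⟩ := hf
      · exact hne (eqR hcU (hf (show s(x, y) ∈ _ by simp [TFC.sq])) (by simp [TFC.sq]))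
      · -- an edge of `Z` at the centre `y`
        have hy : ∃ b, s(y, b) ∈ Z := by
          have hcv := g.val hcU
          have hs' := hs.trans inter_subset_right
          rcases hf with hf | hf
          · rw [hf] at hcv hs'
            exact (s2_centre hcv hZ hs').1
          · rw [hf] at hcv hs'
            exact (s2_centre hcv hZ hs').2
        obtain ⟨b, hb⟩ := hy
        obtain ⟨h5, h6⟩ := mem_inter.1 (hs hb)
        have h7 := sq_closed hL.m2 (g.isq _ hR) hL.sq (e := s(x, y)) (f := s(y, b)) (y := y) (by simp [TFC.sq])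
          (Sym2.mem_mk_right _ _) h5 (Sym2.mem_mk_left _ _)
        exact hne (eqR hcU h6 h7)
    · refine ⟨hL.m2.mono inter_subset_left, fun Z' hZ' hs => ?_⟩
      have h5 := hL.uni Z' hZ' (hs.trans inter_subset_left)
      subst h5
      exact hne (eqR hcU (mem_inter.1 (hs (show s(x, y) ∈ _ by simp [TFC.sq]))).2 (by simp [TFC.sq]))
  obtain ⟨w, ⟨e', he', hwe⟩, _, hwp⟩ := g.L1x hR hL cU hcR (fr_asf_s g cU fR).am2 hO
  have hwy : w = y := by
    have h5 : w = x ∨ w = y ∨ w = s ∨ w = r := by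
      simp only [TFC.sq, mem_insert, mem_singleton] at he'
      rcases he' with rfl | rfl | rfl | rfl <;> rw [Sym2.mem_iff] at hwe <;> rcases hwe with h5 | h5
      · exact Or.inl h5
      · exact Or.inr (Or.inl h5)
      · exact Or.inr (Or.inl h5)
      · exact Or.inr (Or.inr (Or.inl h5))
      · exact Or.inr (Or.inr (Or.inl h5))
      · exact Or.inr (Or.inr (Or.inr h5))
      · exact Or.inr (Or.inr (Or.inr h5))
      · exact Or.inl h5
    rcases h5 with rfl | rfl | rfl | rfl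
    · exact absurd plx hwp
    · rfl
    · exact absurd pls hwp
    · exact absurd plr hwp
  subst hwy
  rcases pd with ⟨u', v', hd⟩ | ⟨l, Ll, hly, hd, _⟩
  · -- a path `s u' v' r` of `c2`
    obtain ⟨⟨n1, n2, n3, n4, n5, n6⟩, p1, p2, p3⟩ := hd
    rw [mem_inter] at p1 p2 p3
    have uy : u' ≠ w := fun h' => ys2 (msw (h' ▸ p1.2))
    refine hwp (blk s w sS sT (hcR (by simp [TFC.sq, Sym2.eq_swap])) (fun h' => uy ?_) ?_)
    · exact nbr_unique (by rw [ncs.one]) p1.1 h'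
    · rintro a b ⟨m1, m2, m3, m4, m5, m6⟩ h1 h2 h3 _ _ _
      have ea : a = u' := nbr_unique (by rw [ncs.one]) h1 p1.1
      subst ea
      rcases nbr_two (ncs.m2.le a) (msw p1.1) p2.1 n2 h2 with h5 | h5
      · exact m2 h5.symm
      · subst h5
        rcases nbr_two (ncs.m2.le b) (msw p2.1) p3.1 n5 h3 with h6 | h6
        · exact uy h6.symm
        · exact yr h6
  · exact s2_last h hF g hFd hM cU hcR k2R fR d4 xq xp yq yp qp qr qs pr ps xS yS sS xT yT sT pT hQ xr1 ncs hwp hly hd blk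

end

/-- STEP 2 in the form of `Step2`, with the hypothesis `s(x, y) ∉ c2.edges` -/
theorem step2x (X : XD) (P : ℕ → Finset (Sym2 ℕ) → Prop) (D : Finset (Finset (Sym2 ℕ))) (j m : ℕ) (S : Finset ℕ)
    (M : ℕ → Finset (Sym2 ℕ)) (CL U : List (Clu ℕ)) (PL : Finset (Sym2 ℕ)) (x y q p r s : ℕ)
    (c1 c2 : Clu ℕ) : WA X P D j m S M CL U PL → [x, y, q, p, r, s].Nodup → x ∈ S → y ∈ S → r ∈ S → s ∈ S →
    x ∈ X.T → y ∈ X.T → r ∈ X.T → s ∈ X.T → p ∉ X.T → TFC.sq x y s r ∈ D → TFC.sq x y q p ⊆ X.E →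
    c1.Valid → c2.Valid → K2 c1 → K2 c2 → TFC.sq x y q p ⊆ c1.edges → s(r, s) ∈ c2.edges →
    s(x, r) ∉ c1.edges → s(x, r) ∉ c2.edges → s(y, s) ∉ c1.edges → s(y, s) ∉ c2.edges → s(x, y) ∉ c2.edges →
    C1 M c1 c2 x y q p r s → False := by
  intro h nd xS yS rS sS xT yT rT sT pT hR hQ _ _ _ _ _ _ xr1 xr2 _ ys2 xy2 hC
  exact step2' h nd xS yS rS sS xT yT rT sT pT hR hQ xr1 xr2 ys2 xy2 hC

end Pool.Agent.PF4.XT
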