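import Pool.Agent.PF4.Base

/-! Polynomial time of the basic functions. -/

set_option autoImplicit false

namespace Pool.Agent.PF4

open Pool.Agent.Lib.helper60

variable {ι β : Type} [DEnc ι] [DEnc β]

theorem pt_eqE {e f : ι → Ed} (he : PT e) (hf : PT f) : PT (fun x => eqE (e x) (f x)) :=
  PT.bor (PT.band (PT.neq (PT.p1 he) (PT.p1 hf)) (PT.neq (PT.p2 he) (PT.p2 hf)))
    (PT.band (PT.neq (PT.p1 he) (PT.p2 hf)) (PT.neq (PT.p2 he) (PT.p1 hf)))

theorem pt_hasE {l : ι → List Ed} {e : ι → Ed} (hl : PT l) (he : PT e) :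
    PT (fun x => hasE (l x) (e x)) :=
  PT.any hl (p := fun y : ι × Ed => eqE y.2 (e y.1)) (pt_eqE PT.snd (he.comp PT.fst))

theorem pt_insE {l : ι → List Ed} {e : ι → Ed} (hl : PT l) (he : PT e) :
    PT (fun x => insE (l x) (e x)) := PT.cond (pt_hasE hl he) hl (PT.cons he hl)

theorem pt_ersE {l : ι → List Ed} {e : ι → Ed} (hl : PT l) (he : PT e) :
    PT (fun x => ersE (l x) (e x)) :=
  PT.filter hl (p := fun y : ι × Ed => !eqE y.2 (e y.1)) (PT.bnot (pt_eqE PT.snd (he.comp PT.fst)))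

theorem pt_norm {U l : ι → List Ed} (hU : PT U) (hl : PT l) : PT (fun x => norm (U x) (l x)) :=
  PT.filter hU (p := fun y : ι × Ed => hasE (l y.1) y.2) (pt_hasE (hl.comp PT.fst) PT.snd)

theorem pt_rest {U l : ι → List Ed} (hU : PT U) (hl : PT l) : PT (fun x => rest (U x) (l x)) :=
  PT.filter hU (p := fun y : ι × Ed => !hasE (l y.1) y.2) (PT.bnot (pt_hasE (hl.comp PT.fst) PT.snd))

theorem pt_uni {A B : ι → List Ed} (hA : PT A) (hB : PT B) : PT (fun x => uni (A x) (B x)) :=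
  PT.append hA (pt_rest hB hA)

theorem pt_inc {v : ι → ℕ} {e : ι → Ed} (hv : PT v) (he : PT e) : PT (fun x => inc (v x) (e x)) :=
  PT.bor (PT.neq (PT.p1 he) hv) (PT.neq (PT.p2 he) hv)

theorem pt_degL {l : ι → List Ed} {v : ι → ℕ} (hl : PT l) (hv : PT v) :
    PT (fun x => degL (l x) (v x)) :=
  PT.length (PT.filter hl (p := fun y : ι × Ed => inc (v y.1) y.2) (pt_inc (hv.comp PT.fst) PT.snd))

theorem pt_sqIn {l : ι → List Ed} {q : ι → Sq4} (hl : PT l) (hq : PT q) :
    PT (fun x => sqIn (l x) (q x)) := by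
  have h1 := PT.p1 hq
  have h2 := PT.p1 (PT.p2 hq)
  have h3 := PT.p1 (PT.p2 (PT.p2 hq))
  have h4 := PT.p2 (PT.p2 (PT.p2 hq))
  exact PT.band (pt_hasE hl (PT.pair h1 h2)) (PT.band (pt_hasE hl (PT.pair h2 h3))
    (PT.band (pt_hasE hl (PT.pair h3 h4)) (pt_hasE hl (PT.pair h4 h1))))

theorem pt_freeL {FS : ι → List Sq4} {l : ι → List Ed} (hF : PT FS) (hl : PT l) :
    PT (fun x => freeL (FS x) (l x)) :=
  PT.all hF (p := fun y : ι × Sq4 => !sqIn (l y.1) y.2) (PT.bnot (pt_sqIn (hl.comp PT.fst) PT.snd))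

/-- first element satisfying `p`, or `d` -/
def findD {α : Type} (p : α → Bool) (l : List α) (d : α) : α := (l.filter p).headD d

theorem findD_spec {α : Type} (p : α → Bool) (l : List α) (d : α) (h : ∃ a ∈ l, p a = true) :
    findD p l d ∈ l ∧ p (findD p l d) = true := by
  obtain ⟨a, ha, hp⟩ := h
  have h1 : a ∈ l.filter p := List.mem_filter.2 ⟨ha, hp⟩
  unfold findD
  cases h2 : l.filter p with
  | nil => rw [h2] at h1; cases h1
  | cons b t =>
    have h3 : b ∈ l.filter p := by rw [h2]; exact List.mem_cons_self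
    exact ⟨(List.mem_filter.1 h3).1, (List.mem_filter.1 h3).2⟩

theorem findD_or {α : Type} (p : α → Bool) (l : List α) (d : α) :
    findD p l d = d ∨ (findD p l d ∈ l ∧ p (findD p l d) = true) := by
  unfold findD
  cases h2 : l.filter p with
  | nil => exact Or.inl rfl
  | cons b t =>
    have h3 : b ∈ l.filter p := by rw [h2]; exact List.mem_cons_self
    exact Or.inr ⟨(List.mem_filter.1 h3).1, (List.mem_filter.1 h3).2⟩

theorem pt_findD {p : ι × β → Bool} {l : ι → List β} {d : ι → β} (hp : PT p) (hl : PT l) (hd : PT d) :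
    PT (fun x => findD (fun b => p (x, b)) (l x) (d x)) :=
  PT.headD (PT.filter hl hp) hd

end Pool.Agent.PF4
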