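import Pool.Agent.PF4.Exch

/-! Polynomial time of the exchange. -/

set_option autoImplicit false

namespace Pool.Agent.PF4

open Pool.Agent.Lib.helper60

variable {ι : Type} [DEnc ι]

theorem pt_one {v w : ι → ℕ} (hv : PT v) (hw : PT w) : PT (fun x => one (v x) (w x)) :=
  PT.cond (PT.neq hv hw) (PT.const 1) (PT.const 0)

theorem pt_tau {A : ι → List Ed} {i : ι → ℕ} {up : ι → Bool} {v : ι → ℕ} (hA : PT A) (hi : PT i)
    (hu : PT up) (hv : PT v) : PT (fun x => tau (A x) (i x) (up x) (v x)) :=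
  PT.cond hu (PT.nadd (pt_degL hA hv) (pt_one hv hi)) (PT.nsub (pt_degL hA hv) (pt_one hv hi))

theorem pt_ends {A : ι → List Ed} (hA : PT A) : PT (fun x => ends (A x)) :=
  PT.flatMap hA (g := fun y : ι × Ed => [y.2.1, y.2.2])
    (PT.cons (PT.p1 PT.snd) (PT.cons (PT.p2 PT.snd) (PT.const [])))

theorem pt_vts {A B : ι → List Ed} {i : ι → ℕ} (hA : PT A) (hB : PT B) (hi : PT i) :
    PT (fun x => vts (A x) (B x) (i x)) :=
  PT.cons hi (PT.append (pt_ends hA) (pt_ends hB))

section
variable {A B L L' : ι → List Ed} {i w : ι → ℕ} {up : ι → Bool}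

theorem pt_eqDef (hA : PT A) (hB : PT B) (hi : PT i) (hu : PT up) (hL : PT L) (hw : PT w) :
    PT (fun x => eqDef (A x) (B x) (i x) (up x) (L x) (w x)) :=
  PT.all (pt_vts hA hB hi)
    (p := fun y : ι × ℕ => decide (degL (L y.1) y.2 + one y.2 (w y.1) = tau (A y.1) (i y.1) (up y.1) y.2))
    (PT.neq (PT.nadd (pt_degL (hL.comp PT.fst) PT.snd) (pt_one PT.snd (hw.comp PT.fst)))
      (pt_tau (hA.comp PT.fst) (hi.comp PT.fst) (hu.comp PT.fst) PT.snd))

theorem pt_eqSur (hA : PT A) (hB : PT B) (hi : PT i) (hu : PT up) (hL : PT L) (hw : PT w) :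
    PT (fun x => eqSur (A x) (B x) (i x) (up x) (L x) (w x)) :=
  PT.all (pt_vts hA hB hi)
    (p := fun y : ι × ℕ => decide (degL (L y.1) y.2 = tau (A y.1) (i y.1) (up y.1) y.2 + one y.2 (w y.1)))
    (PT.neq (pt_degL (hL.comp PT.fst) PT.snd)
      (PT.nadd (pt_tau (hA.comp PT.fst) (hi.comp PT.fst) (hu.comp PT.fst) PT.snd)
        (pt_one PT.snd (hw.comp PT.fst))))

theorem pt_isFin (hA : PT A) (hB : PT B) (hi : PT i) (hu : PT up) (hL : PT L) :
    PT (fun x => isFin (A x) (B x) (i x) (up x) (L x)) :=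
  PT.bor
    (PT.any (pt_vts hA hB hi) (p := fun y : ι × ℕ => eqDef (A y.1) (B y.1) (i y.1) (up y.1) (L y.1) y.2 &&
        decide (degL (B y.1) y.2 < tau (A y.1) (i y.1) (up y.1) y.2))
      (PT.band (pt_eqDef (hA.comp PT.fst) (hB.comp PT.fst) (hi.comp PT.fst) (hu.comp PT.fst)
          (hL.comp PT.fst) PT.snd)
        (PT.nlt (pt_degL (hB.comp PT.fst) PT.snd)
          (pt_tau (hA.comp PT.fst) (hi.comp PT.fst) (hu.comp PT.fst) PT.snd))))
    (PT.any (pt_vts hA hB hi) (p := fun y : ι × ℕ => eqSur (A y.1) (B y.1) (i y.1) (up y.1) (L y.1) y.2 &&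
        decide (tau (A y.1) (i y.1) (up y.1) y.2 < degL (B y.1) y.2))
      (PT.band (pt_eqSur (hA.comp PT.fst) (hB.comp PT.fst) (hi.comp PT.fst) (hu.comp PT.fst)
          (hL.comp PT.fst) PT.snd)
        (PT.nlt (pt_tau (hA.comp PT.fst) (hi.comp PT.fst) (hu.comp PT.fst) PT.snd)
          (pt_degL (hB.comp PT.fst) PT.snd))))

theorem pt_distL (hL : PT L) (hB : PT B) : PT (fun x => distL (L x) (B x)) :=
  PT.nadd (PT.length (pt_rest hL hB)) (PT.length (pt_rest hB hL))

theorem pt_isProg (hA : PT A) (hB : PT B) (hi : PT i) (hu : PT up) (hL : PT L) (hL' : PT L') :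
    PT (fun x => isProg (A x) (B x) (i x) (up x) (L x) (L' x)) :=
  PT.band
    (PT.any (pt_vts hA hB hi) (p := fun y : ι × ℕ => eqDef (A y.1) (B y.1) (i y.1) (up y.1) (L' y.1) y.2)
      (pt_eqDef (hA.comp PT.fst) (hB.comp PT.fst) (hi.comp PT.fst) (hu.comp PT.fst)
          (hL'.comp PT.fst) PT.snd))
    (PT.nlt (pt_distL hL' hB) (pt_distL hL hB))

theorem pt_le2 {W : ι → List ℕ} (hW : PT W) (hL : PT L) : PT (fun x => le2 (W x) (L x)) :=
  PT.all hW (p := fun y : ι × ℕ => decide (degL (L y.1) y.2 ≤ 2))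
    (PT.nle (pt_degL (hL.comp PT.fst) PT.snd) (PT.const 2))

theorem pt_isVal {FS : ι → List Sq4} (hF : PT FS) (hA : PT A) (hB : PT B) (hi : PT i) (hu : PT up)
    (hL : PT L) (hL' : PT L') :
    PT (fun x => isVal (FS x) (A x) (B x) (i x) (up x) (L x) (L' x)) :=
  PT.band (pt_le2 (pt_ends hL') hL') (PT.band (pt_freeL hF hL')
    (PT.bor (pt_isFin hA hB hi hu hL') (pt_isProg hA hB hi hu hL hL')))

theorem pt_opts (hL : PT L) : PT (fun x => opts (L x)) :=
  PT.cons (PT.const []) (PT.map hL (g := fun y : ι × Ed => [y.2]) (PT.cons PT.snd (PT.const [])))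

theorem pt_stI (hL : PT L) (hB : PT B) : PT (fun x => stI (L x) (B x)) :=
  PT.map hB (g := fun y : ι × Ed => insE (L y.1) y.2) (pt_insE (hL.comp PT.fst) PT.snd)

theorem pt_stD {Ls O : ι → List (List Ed)} (hL : PT Ls) (hO : PT O) : PT (fun x => stD (Ls x) (O x)) :=
  PT.flatMap hL (g := fun y : ι × List Ed => (O y.1).map fun o => rest y.2 o)
    (PT.map (hO.comp PT.fst) (g := fun z : (ι × List Ed) × List Ed => rest z.1.2 z.2)
      (pt_rest (PT.snd.comp PT.fst) PT.snd))

theorem pt_stU {Ls O : ι → List (List Ed)} (hL : PT Ls) (hO : PT O) : PT (fun x => stU (Ls x) (O x)) :=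
  PT.flatMap hL (g := fun y : ι × List Ed => (O y.1).map fun o => uni y.2 o)
    (PT.map (hO.comp PT.fst) (g := fun z : (ι × List Ed) × List Ed => uni z.1.2 z.2)
      (pt_uni (PT.snd.comp PT.fst) PT.snd))

theorem pt_cand (hL : PT L) (hB : PT B) : PT (fun x => cand (L x) (B x)) :=
  pt_stD (pt_stU (pt_stD (pt_stI hL hB) (pt_opts (PT.append hL hB))) (pt_opts hB))
    (pt_opts (PT.append hL hB))

theorem pt_xstep {FS : ι → List Sq4} (hF : PT FS) (hA : PT A) (hB : PT B) (hi : PT i) (hu : PT up)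
    (hL : PT L) : PT (fun x => xstep (FS x) (A x) (B x) (i x) (up x) (L x)) :=
  PT.cond (pt_isFin hA hB hi hu hL) hL (pt_norm (pt_uni hA hB)
    (pt_findD (p := fun y : ι × List Ed => isVal (FS y.1) (A y.1) (B y.1) (i y.1) (up y.1) (L y.1) y.2)
      (pt_isVal (hF.comp PT.fst) (hA.comp PT.fst) (hB.comp PT.fst) (hi.comp PT.fst) (hu.comp PT.fst)
        (hL.comp PT.fst) PT.snd) (pt_cand hL hB) hL))

theorem pt_xinit (hA : PT A) (hB : PT B) (hi : PT i) (hu : PT up) :
    PT (fun x => xinit (A x) (B x) (i x) (up x)) :=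
  PT.cond hu hA (pt_ersE hA (pt_findD (p := fun y : ι × Ed => inc (i y.1) y.2 && !hasE (B y.1) y.2)
    (PT.band (pt_inc (hi.comp PT.fst) PT.snd) (PT.bnot (pt_hasE (hB.comp PT.fst) PT.snd)))
    hA (PT.const (0, 0))))

theorem tsize_filter_le {β : Type} [DEnc β] (l : List β) (p : β → Bool) : tsize (l.filter p) ≤ tsize l := by
  induction l with
  | nil => exact le_rfl
  | cons b u ih =>
    rw [List.filter_cons]
    split_ifs <;> simp only [tsize_cons] <;> omega

theorem tsize_xstep_le (FS : List Sq4) (A B : List Ed) (i : ℕ) (up : Bool) (L : List Ed) (T : ℕ)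
    (h : tsize L ≤ T) (h' : tsize (uni A B) ≤ T) : tsize (xstep FS A B i up L) ≤ T := by
  unfold xstep
  cases isFin A B i up L with
  | true => exact h
  | false => exact (tsize_filter_le _ _).trans h'

/-- **The exchange is a polynomial time function.** -/
theorem pt_exch {FS : ι → List Sq4} (hF : PT FS) (hA : PT A) (hB : PT B) (hi : PT i) (hu : PT up) :
    PT (fun x => exch (FS x) (A x) (B x) (i x) (up x)) := by
  -- state: (parameters, current list)
  let stp : ι × List Ed → ι × List Ed := fun s =>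
    (s.1, xstep (FS s.1) (A s.1) (B s.1) (i s.1) (up s.1) s.2)
  have hstp : PT stp := PT.pair PT.fst (pt_xstep (hF.comp PT.fst) (hA.comp PT.fst) (hB.comp PT.fst)
    (hi.comp PT.fst) (hu.comp PT.fst) PT.snd)
  have hit : ∀ (k : ℕ) (x : ι) (L : List Ed), stp^[k] (x, L) =
      (x, (xstep (FS x) (A x) (B x) (i x) (up x))^[k] L) := by
    intro k
    induction k with
    | zero => intro x L; rfl
    | succ k ih => intro x L; rw [Function.iterate_succ_apply, Function.iterate_succ_apply, ← ih x]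
  have hc : PT (fun x => (A x).length + (B x).length + 1) :=
    PT.nadd (PT.nadd (PT.length hA) (PT.length hB)) (PT.const 1)
  have hsz : ∀ (x : ι) (k : ℕ), tsize ((xstep (FS x) (A x) (B x) (i x) (up x))^[k]
      (xinit (A x) (B x) (i x) (up x))) ≤ tsize (xinit (A x) (B x) (i x) (up x)) +
        tsize (uni (A x) (B x)) := by
    intro x k
    induction k with
    | zero => exact Nat.le_add_right _ _
    | succ k ih =>
      rw [Function.iterate_succ_apply']
      exact tsize_xstep_le _ _ _ _ _ _ _ ih (Nat.le_add_left _ _)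
  have h := PT.iterateNat hc (init := fun x => (x, xinit (A x) (B x) (i x) (up x)))
    (PT.pair PT.id (pt_xinit hA hB hi hu)) hstp
    ⟨fun x => tsize x + (tsize (xinit (A x) (B x) (i x) (up x)) + tsize (uni (A x) (B x))) + 1,
      (PB.tsize.add ((pt_xinit hA hB hi hu).size.add (pt_uni hA hB).size)).add (PB.const 1), by
        intro x k _
        have h1 := hsz x k
        have h2 : tsize (stp^[k] (x, xinit (A x) (B x) (i x) (up x))) = tsize x +
            tsize ((xstep (FS x) (A x) (B x) (i x) (up x))^[k] (xinit (A x) (B x) (i x) (up x))) + 1 := by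
          rw [hit]; exact tsize_pair _ _
        beta_reduce
        omega⟩
  refine (PT.p2 h).congr fun x => ?_
  rw [hit]
  rfl

end

end Pool.Agent.PF4
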