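import Pool.Agent.PF4.Cov

/-!
The interface of the two missing functions (`solver`, `xf`) and the resulting algorithm.
-/

set_option autoImplicit false

namespace Pool.Agent.PF4

open Finset Pool.Agent.TFC Pool.Agent.Lib.helper60

/-- 2-matching of the graph -/
structure MG (x : Ins) (M : List Ed) : Prop where
  wf : WF M
  m2 : M2 (fs M)
  sub : fs M ⊆ fs x.2

/-- 2-matching without square -/
def VM (x : Ins) (M : List Ed) : Prop := MG x M ∧ ∀ Q ∈ sqG x, sqIn M Q = false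

/-- the clause of `N`: the harmful squares in `N` -/
def clS (x : Ins) (g : List ℕ) (N : List Ed) : List Sq4 := (sqG x).filter (fun Q => harm g Q && sqIn N Q)

theorem VM.gm {x : Ins} {M : List Ed} (h : VM x M) : GM (sqG x) M := by
  refine ⟨h.1.wf, h.1.m2, (good_iff sqG_ok _).2 ?_⟩
  intro q hq
  rw [← sqIn_iff, h.2 q hq]; simp

theorem VM.of_gm {x : Ins} {M : List Ed} (h : GM (sqG x) M) (hs : fs M ⊆ fs x.2) : VM x M := by
  refine ⟨⟨h.wf, h.m2, hs⟩, ?_⟩
  intro q hq
  have h1 := (good_iff sqG_ok _).1 h.gd q hq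
  rwa [← sqIn_iff, Bool.not_eq_true] at h1

/-- restriction to the edges of the graph: bounded size, same edge set -/
def nrm (x : Ins) (M : List Ed) : List Ed := norm x.2 M

theorem fs_nrm {x : Ins} {M : List Ed} (h : fs M ⊆ fs x.2) : fs (nrm x M) = fs M := fs_norm_of h

theorem MG.nrm {x : Ins} {M : List Ed} (h : MG x M) (hx : InsWF x) : MG x (nrm x M) := by
  have e := fs_nrm h.sub
  exact ⟨hx.wf.norm M, by rw [e]; exact h.m2, by rw [e]; exact h.sub⟩

theorem degL_nrm {x : Ins} {M : List Ed} (h : MG x M) (hx : InsWF x) (v : ℕ) :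
    degL (nrm x M) v = degL M v := by
  rw [degL_eq (h.nrm hx).wf, degL_eq h.wf, fs_nrm h.sub]

theorem sqIn_nrm {x : Ins} {M : List Ed} (h : MG x M) (q : Sq4) : sqIn (nrm x M) q = sqIn M q := by
  have h1 : sqIn (nrm x M) q = true ↔ sqIn M q = true := by rw [sqIn_iff, sqIn_iff, fs_nrm h.sub]
  cases h2 : sqIn (nrm x M) q <;> cases h3 : sqIn M q <;> simp_all

theorem VM.nrm {x : Ins} {M : List Ed} (h : VM x M) (hx : InsWF x) : VM x (nrm x M) :=
  ⟨h.1.nrm hx, fun q hq => by rw [sqIn_nrm h.1]; exact h.2 q hq⟩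

theorem clS_nrm {x : Ins} {M : List Ed} (h : MG x M) (g : List ℕ) : clS x g (PF4.nrm x M) = clS x g M := by
  unfold clS
  refine List.filter_congr ?_
  intro q _
  rw [sqIn_nrm h]

theorem tsize_nrm (x : Ins) (M : List Ed) : tsize (nrm x M) ≤ tsize x := by
  have h := tsize_filter_le x.2 fun e => hasE M e
  have h2 : tsize x = tsize x.1 + tsize x.2 + 1 := by rw [← tsize_pair]
  unfold nrm norm
  omega

theorem pt_nrm {ι : Type} [DEnc ι] {x : ι → Ins} {M : ι → List Ed} (hx : PT x) (hM : PT M) :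
    PT (fun y => nrm (x y) (M y)) := pt_norm (PT.p2 hx) hM

/-- the two-step exchange with first step up -/
def exV (y : Ins × List Ed × List Ed × ℕ) : List Ed :=
  nrm y.1 (exch (sqG y.1) y.2.1 y.2.2.1 y.2.2.2 true)

theorem pt_exV : PT exV :=
  pt_nrm PT.fst (pt_exch (pt_sqG PT.fst) PT.snd.p1 PT.snd.p2.p1 PT.snd.p2.p2 (PT.const true))

theorem exV_spec {x : Ins} {M L : List Ed} {v : ℕ} (hx : InsWF x) (hM : VM x M) (hL : VM x L)
    (hlt : degL M v < degL L v) :
    VM x (exV (x, M, L, v)) ∧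
      ((∀ u < x.1, degL M u + (if u = v then 1 else 0) ≤ degL (exV (x, M, L, v)) u) ∨
        ∃ j < x.1, j ≠ v ∧ degL L j < degL M j ∧ ∀ u < x.1,
          degL M u + (if u = v then 1 else 0) =
            degL (exV (x, M, L, v)) u + (if u = j then 1 else 0)) := by
  have h0 : 0 < sgn true * (dv (fs L) v - dv (fs M) v) := by
    rw [dv_apply, dv_apply, ← degL_eq hL.1.wf, ← degL_eq hM.1.wf]
    have e1 : sgn true = 1 := rfl
    rw [e1]
    omega
  obtain ⟨h1, h2, h3⟩ := exch_GM sqG_ok hM.gm hL.gm h0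
  have hsub : fs (exch (sqG x) M L v true) ⊆ fs x.2 :=
    h2.trans (Finset.union_subset hM.1.sub hL.1.sub)
  have hV := VM.of_gm h1 hsub
  refine ⟨hV.nrm hx, ?_⟩
  obtain ⟨j, δ, hδ, hj, he⟩ := h3
  have hd : ∀ u, (degL (exV (x, M, L, v)) u : ℤ) =
      degL M u + (if u = v then 1 else 0) + (if u = j then δ else 0) := by
    intro u
    have h4 := congrFun he u
    rw [Pi.add_apply, Pi.add_apply, Pi.single_apply, Pi.single_apply, dv_apply, dv_apply,
      ← degL_eq hM.1.wf, ← degL_eq hV.1.wf] at h4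
    have h5 : degL (exV (x, M, L, v)) u = degL (exch (sqG x) M L v true) u := degL_nrm hV.1 hx u
    have e1 : sgn true = 1 := rfl
    rw [h5, h4, e1]
  rw [Pi.add_apply, Pi.single_apply, dv_apply, dv_apply, ← degL_eq hM.1.wf, ← degL_eq hL.1.wf] at hj
  rcases hδ with rfl | rfl
  · left
    intro u _
    have := hd u
    split_ifs at this ⊢ <;> omega
  · right
    have hjv : j ≠ v := by
      rintro rfl
      have e1 : sgn true = 1 := rfl
      rw [e1, if_pos rfl] at hj
      omega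
    rw [if_neg hjv] at hj
    have hlt' : degL L j < degL M j := by omega
    refine ⟨j, ?_, hjv, hlt', ?_⟩
    · have h5 : 0 < degL M j := by omega
      rw [degL_eq hM.1.wf, dg, Finset.card_pos] at h5
      obtain ⟨e, he⟩ := h5
      obtain ⟨he1, he2⟩ := Finset.mem_filter.1 he
      exact hx.vlt (hM.1.sub he1) he2
    · intro u _
      have := hd u
      split_ifs at this ⊢ <;> omega

/-- the context of the inner problem -/
abbrev Da (x : Ins) (g : List ℕ) (W : List (ℕ × List Ed)) (v : ℕ) : Prop :=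
  Dat (fun x : Ins => x.1) (fun (_ : Ins) (M : List Ed) (u : ℕ) => degL M u) VM x g W v

/-- the interface of the solver and of the resolution of a conflict -/
structure SX where
  /-- `solver (x, g, W, D, P)`: find a `g`-cover without square of `D` -/
  solver : Ins × List ℕ × List (ℕ × List Ed) × List Sq4 × List (List Ed) → Bool × List Ed
  /-- `xf (x, g, W, F, N, Q, R)`: resolve the conflict of `Q` (in `F`) and `R` (in `N`) -/
  xf : Ins × List ℕ × List (ℕ × List Ed) × List Ed × List Ed × Sq4 × Sq4 → List Ed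
  pt_solver : PT solver
  pt_xf : PT xf
  solver_spec : ∀ x g W v P, InsWF x → Da x g W v →
    (∀ N ∈ P, MG x N ∧ Cov x.1 g (degL N) ∧ clS x g N ≠ []) → (P.flatMap (clS x g)).Nodup →
    (∀ Q ∈ P.flatMap (clS x g), ∀ R ∈ P.flatMap (clS x g), conf Q R = false) →
    ((solver (x, g, W, P.flatMap (clS x g), P)).1 = true →
      MG x (solver (x, g, W, P.flatMap (clS x g), P)).2 ∧
      Cov x.1 g (degL (solver (x, g, W, P.flatMap (clS x g), P)).2) ∧
      ∀ Q ∈ P.flatMap (clS x g), sqIn (solver (x, g, W, P.flatMap (clS x g), P)).2 Q = false) ∧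
    ((solver (x, g, W, P.flatMap (clS x g), P)).1 = false →
      ¬ ∃ L, VM x L ∧ Cov x.1 g (degL L))
  xf_spec : ∀ x g W v F N Q R, InsWF x → Da x g W v →
    MG x F → Cov x.1 g (degL F) → MG x N → Cov x.1 g (degL N) → Q ∈ clS x g F → R ∈ clS x g N →
    conf Q R = true →
    MG x (xf (x, g, W, F, N, Q, R)) ∧ Cov x.1 g (degL (xf (x, g, W, F, N, Q, R))) ∧
      ((∀ Z ∈ clS x g (xf (x, g, W, F, N, Q, R)), Z ∈ clS x g F ∧ Z ≠ Q) ∨
        (∀ Z ∈ clS x g (xf (x, g, W, F, N, Q, R)), Z ∈ clS x g N ∧ Z ≠ R))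

theorem cov_nrm {x : Ins} {M : List Ed} (h : MG x M) (hx : InsWF x) {g : List ℕ}
    (hc : Cov x.1 g (degL M)) : Cov x.1 g (degL (nrm x M)) := by
  intro u hu
  rw [degL_nrm h hx]
  exact hc u hu

/-- the interface of the inner loop -/
def SX.toIn (A : SX) : InApi Ins (List Ed) Sq4 where
  nv := fun x => x.1
  deg := fun _ M u => degL M u
  m2 := MG
  wf := InsWF
  sqs := sqG
  has := fun _ M q => sqIn M q
  opp := fun _ g q => harm g q
  conf := conf
  emp := []
  k0 := (0, 0, 0, 0)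
  exch := exV
  solver := fun y => ((A.solver y).1, nrm y.1 (A.solver y).2)
  xf := fun y => nrm y.1 (A.xf y)
  brk := fun y => brk y.2.1 (sqG y.1) y.2.2
  B := fun x => tsize x
  pt_nv := PT.fst
  pt_deg := pt_degL PT.snd.p1 PT.snd.p2
  pt_sqs := pt_sqG PT.id
  pt_has := pt_sqIn PT.snd.p1 PT.snd.p2
  pt_opp := pt_harm PT.snd.p1 PT.snd.p2
  pt_conf := pt_conf PT.fst PT.snd
  pt_eq := by
    have h : PT (fun y : Sq4 × Sq4 => decide (y.1.1 = y.2.1) && (decide (y.1.2.1 = y.2.2.1) &&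
        (decide (y.1.2.2.1 = y.2.2.2.1) && decide (y.1.2.2.2 = y.2.2.2.2)))) :=
      PT.band (PT.neq PT.fst.p1 PT.snd.p1) (PT.band (PT.neq PT.fst.p2.p1 PT.snd.p2.p1)
        (PT.band (PT.neq PT.fst.p2.p2.p1 PT.snd.p2.p2.p1) (PT.neq PT.fst.p2.p2.p2 PT.snd.p2.p2.p2)))
    refine h.congr ?_
    rintro ⟨⟨a, b, c, d⟩, ⟨a', b', c', d'⟩⟩
    simp only [Prod.mk.injEq, Bool.decide_and]
  pt_exch := pt_exV
  pt_solver := PT.pair (PT.p1 A.pt_solver) (pt_nrm PT.fst (PT.p2 A.pt_solver))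
  pt_xf := pt_nrm PT.fst A.pt_xf
  pt_brk := pt_brk PT.snd.p1 (pt_sqG PT.fst) PT.snd.p2
  pb := PB.tsize
  size_exch := fun y => tsize_nrm y.1 _
  size_solver := fun y => tsize_nrm y.1 _
  size_xf := fun y => tsize_nrm y.1 _
  sqs_nodup := fun x _ => sqG_nodup x
  conf_symm := fun _ _ _ _ hQ hR => PF4.conf_symm (sqG_ok _ hQ) (sqG_ok _ hR)
  conf_has := fun _ _ _ _ _ hN hQ hR h1 h2 =>
    conf_m2 hN.m2 (sqG_ok _ hQ) (sqG_ok _ hR) ((sqIn_iff _ _).1 h1) ((sqIn_iff _ _).1 h2)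
  emp_valid := by
    intro x _
    have h0 : ∀ v, dg (fs ([] : List Ed)) v = 0 := by intro v; rw [fs_nil]; rfl
    refine ⟨⟨WF.nil, ⟨?_, ?_⟩, ?_⟩, fun q _ => rfl⟩
    · intro e he; rw [fs_nil] at he; simp at he
    · intro v; rw [h0]; omega
    · rw [fs_nil]; exact Finset.empty_subset _
  exch_spec := fun x M L v hx hM hL _ h => exV_spec hx hM hL h
  solver_spec := by
    intro x g W v P hx hd hP hn hc
    obtain ⟨h1, h2⟩ := A.solver_spec x g W v P hx hd hP hn hc
    refine ⟨fun h => ?_, h2⟩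
    obtain ⟨k1, k2, k3⟩ := h1 h
    refine ⟨k1.nrm hx, cov_nrm k1 hx k2, ?_⟩
    intro q hq
    have := k3 q hq
    rw [← sqIn_nrm k1] at this
    exact this
  xf_spec := by
    intro x g W v F N Q R hx hd hF hFc hN hNc hQ hR hc
    obtain ⟨k1, k2, k3⟩ := A.xf_spec x g W v F N Q R hx hd hF hFc hN hNc hQ hR hc
    refine ⟨k1.nrm hx, cov_nrm k1 hx k2, ?_⟩
    have e := clS_nrm k1 g
    unfold clS at e k3
    rw [e]
    exact k3
  brk_spec := by
    intro x g N hx _ _ hN hc hcl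
    obtain ⟨h1, h2, h3, h4⟩ := brk_spec g x.1 (sqG x) N sqG_ok (fun q hq hh hs => by
      have : q ∈ (sqG x).filter (fun Q => harm g Q && sqIn N Q) := by
        rw [List.mem_filter, hh, (sqIn_iff N q).2 hs]
        exact ⟨hq, rfl⟩
      rw [hcl] at this
      cases this) hN.wf hc
    refine ⟨⟨⟨h1, hN.m2.mono h2, h2.trans hN.sub⟩, fun q hq => ?_⟩, h3⟩
    have := h4 q hq
    rwa [← sqIn_iff, Bool.not_eq_true] at this

end Pool.Agent.PF4
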