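import Pool.Agent.PF4.Pool
import Pool.Agent.PF4.Loop

/-!
Sums of pieces: a state is a list of vectors (lists of vertices with multiplicity), one for each piece. The two-step
exchange for the sum of the pieces, by passing a token from piece to piece; pools of states.
-/

set_option autoImplicit false

namespace Pool.Agent.PF4

open Finset Pool.Agent.TFC Pool.Agent.Lib.helper60

/-! ### vectors -/

/-- multiplicity -/
def cnt (k : List ℕ) (v : ℕ) : ℕ := (k.filter fun x => decide (x = v)).length

theorem cnt_nil (v : ℕ) : cnt [] v = 0 := rfl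

theorem cnt_cons (a : ℕ) (k : List ℕ) (v : ℕ) : cnt (a :: k) v = cnt k v + if v = a then 1 else 0 := by
  unfold cnt
  rw [List.filter_cons]
  by_cases h : v = a
  · subst h; simp
  · have h' : ¬ a = v := fun e => h e.symm
    simp [h, h']

theorem cnt_append (k l : List ℕ) (v : ℕ) : cnt (k ++ l) v = cnt k v + cnt l v := by
  unfold cnt
  rw [List.filter_append, List.length_append]

theorem cnt_eq (k : List ℕ) (v : ℕ) : cnt k v = k.count v := by
  induction k with
  | nil => rfl
  | cons a k ih =>
    rw [cnt_cons, List.count_cons, ih]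
    by_cases h : v = a
    · subst h; simp
    · have h' : ¬ a = v := fun e => h e.symm
      simp [h, h']

theorem cnt_pos {k : List ℕ} {v : ℕ} : 0 < cnt k v ↔ v ∈ k := by
  rw [cnt_eq, List.count_pos_iff]

/-- the vector of a list -/
def vec (k : List ℕ) : ℕ → ℤ := fun v => (cnt k v : ℤ)

theorem vec_nonneg (k : List ℕ) (v : ℕ) : 0 ≤ vec k v := Int.natCast_nonneg _

/-- add or remove one unit -/
def shf (k : List ℕ) (v : ℕ) (up : Bool) : List ℕ :=
  bif up then v :: k else (k.filter fun x => !decide (x = v)) ++ List.replicate (cnt k v - 1) v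

theorem cnt_filter_ne (k : List ℕ) (v w : ℕ) :
    cnt (k.filter fun x => !decide (x = v)) w = if w = v then 0 else cnt k w := by
  induction k with
  | nil => simp [cnt]
  | cons a k ih =>
    rw [List.filter_cons]
    by_cases h : a = v
    · subst h
      simp only [decide_true, Bool.not_true, Bool.false_eq_true, if_false]
      rw [ih, cnt_cons]
      by_cases hw : w = a
      · simp [hw]
      · simp [hw]
    · simp only [h, decide_false, Bool.not_false, if_true]
      rw [cnt_cons, ih, cnt_cons]
      by_cases hw : w = v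
      · subst hw
        have h' : ¬ w = a := fun e => h e.symm
        simp [h']
      · simp [hw]

theorem cnt_replicate (n v w : ℕ) : cnt (List.replicate n v) w = if w = v then n else 0 := by
  induction n with
  | zero => simp [cnt]
  | succ n ih =>
    rw [List.replicate_succ, cnt_cons, ih]
    split_ifs <;> rfl

theorem vec_shf {k : List ℕ} {v : ℕ} {up : Bool} (h : up = true ∨ v ∈ k) :
    vec (shf k v up) = vec k + Pi.single v (sgn up) := by
  funext w
  rw [Pi.add_apply, Pi.single_apply]
  cases up with
  | true =>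
    unfold vec shf sgn
    simp only [cond_true]
    rw [cnt_cons]
    by_cases hw : w = v
    · simp [hw]
    · simp [hw]
  | false =>
    have h1 : v ∈ k := by
      rcases h with h | h
      · cases h
      · exact h
    have h2 := cnt_pos.2 h1
    unfold vec shf sgn
    simp only [cond_false]
    rw [cnt_append, cnt_filter_ne, cnt_replicate]
    by_cases hw : w = v
    · subst hw
      simp only [if_true]
      omega
    · simp [hw]

/-- the direction points from `k` to `y` -/
def tow (k y : List ℕ) (i : ℕ) (up : Bool) : Bool :=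
  bif up then decide (cnt k i < cnt y i) else decide (cnt y i < cnt k i)

theorem tow_iff (k y : List ℕ) (i : ℕ) (up : Bool) :
    tow k y i up = true ↔ 0 < sgn up * (vec y i - vec k i) := by
  unfold tow sgn vec
  cases up with
  | true =>
    simp only [cond_true, decide_eq_true_eq, one_mul]
    omega
  | false =>
    simp only [cond_false, decide_eq_true_eq]
    omega

theorem tow_mem {k y : List ℕ} {i : ℕ} {up : Bool} (h : tow k y i up = true) : up = true ∨ i ∈ k := by
  cases up with
  | true => exact Or.inl rfl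
  | false =>
    unfold tow at h
    simp only [cond_false, decide_eq_true_eq] at h
    exact Or.inr (cnt_pos.1 (by omega))

/-! ### the exchange in one piece -/

section pieces

variable {Pc : Type} (mem : Pc → List ℕ → Bool)

/-- a piece with a jump set of legal vectors -/
structure PcOK (m : ℕ) (p : Pc) : Prop where
  len : ∀ k, mem p k = true → k.length ≤ 8
  le : ∀ k, mem p k = true → ∀ v ∈ k, v ≤ m
  jump : ∀ k y i up, mem p k = true → mem p y = true → tow k y i up = true →
    ∃ (j : ℕ) (dn : Bool), tow (shf k i up) y j dn = true ∧ mem p (shf (shf k i up) j dn) = true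

theorem sgn_surj {δ : ℤ} (h : δ = 1 ∨ δ = -1) : ∃ b : Bool, sgn b = δ := by
  rcases h with rfl | rfl
  · exact ⟨true, rfl⟩
  · exact ⟨false, rfl⟩

variable {mem}

/-- a piece whose legal vectors are those of a jump set -/
theorem PcOK.of {m : ℕ} {p : Pc} {S : Set (ℕ → ℤ)} (hS : Jump S)
    (hm : ∀ k, mem p k = true ↔ vec k ∈ S) (hl : ∀ k, mem p k = true → k.length ≤ 8)
    (hv : ∀ k, mem p k = true → ∀ v ∈ k, v ≤ m) : PcOK mem m p := by
  refine ⟨hl, hv, ?_⟩
  intro k y i up hk hy ht
  obtain ⟨j, δ, hδ, h1, h2⟩ := hS _ ((hm k).1 hk) _ ((hm y).1 hy) i (sgn up) (sgn_or up)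
    ((tow_iff k y i up).1 ht)
  obtain ⟨dn, rfl⟩ := sgn_surj hδ
  have e1 := vec_shf (tow_mem ht)
  rw [← e1] at h1 h2
  have h3 := (tow_iff _ _ _ _).2 h1
  have e2 := vec_shf (tow_mem h3)
  rw [← e2, ← hm] at h2
  exact ⟨j, dn, h3, h2⟩

variable (mem)

/-- candidates for the second step -/
def cands (k y : List ℕ) (i : ℕ) : List (ℕ × Bool) :=
  ((i :: k) ++ y).flatMap fun j => [(j, true), (j, false)]

/-- test of a candidate -/
def okC (p : Pc) (k y : List ℕ) (i : ℕ) (up : Bool) (c : ℕ × Bool) : Bool :=
  tow (shf k i up) y c.1 c.2 && mem p (shf (shf k i up) c.1 c.2)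

/-- the second step -/
def pick (p : Pc) (k y : List ℕ) (i : ℕ) (up : Bool) : ℕ × Bool :=
  findD (okC mem p k y i up) (cands k y i) (i, up)

variable {mem}

theorem mem_shf {k : List ℕ} {v w : ℕ} {up : Bool} (h : w ∈ shf k v up) : w = v ∨ w ∈ k := by
  cases up with
  | true =>
    unfold shf at h
    simp only [cond_true, List.mem_cons] at h
    exact h
  | false =>
    unfold shf at h
    simp only [cond_false, List.mem_append, List.mem_filter, List.mem_replicate] at h
    rcases h with h | h
    · exact Or.inr h.1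
    · exact Or.inl h.2

theorem tow_cand {k y : List ℕ} {j : ℕ} {dn : Bool} (h : tow k y j dn = true) : j ∈ k ∨ j ∈ y := by
  cases dn with
  | true =>
    unfold tow at h
    simp only [cond_true, decide_eq_true_eq] at h
    exact Or.inr (cnt_pos.1 (by omega))
  | false =>
    unfold tow at h
    simp only [cond_false, decide_eq_true_eq] at h
    exact Or.inl (cnt_pos.1 (by omega))

theorem pick_spec {m : ℕ} {p : Pc} (hp : PcOK mem m p) {k y : List ℕ} {i : ℕ} {up : Bool}
    (hk : mem p k = true) (hy : mem p y = true) (ht : tow k y i up = true) :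
    tow (shf k i up) y (pick mem p k y i up).1 (pick mem p k y i up).2 = true ∧
      mem p (shf (shf k i up) (pick mem p k y i up).1 (pick mem p k y i up).2) = true := by
  obtain ⟨j, dn, h1, h2⟩ := hp.jump k y i up hk hy ht
  have h3 : ∃ a ∈ cands k y i, okC mem p k y i up a = true := by
    refine ⟨(j, dn), ?_, ?_⟩
    · unfold cands
      rw [List.mem_flatMap]
      refine ⟨j, ?_, by cases dn <;> simp⟩
      rcases tow_cand h1 with h | h
      · rcases mem_shf h with h | h
        · simp [h]
        · simp [h]
      · simp [h]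
    · unfold okC
      rw [h1, h2]; rfl
  have h4 := (findD_spec _ _ (i, up) h3).2
  unfold okC at h4
  rw [Bool.and_eq_true] at h4
  exact h4

/-! ### states -/

/-- replace an entry -/
def setL (s : List (List ℕ)) (q : ℕ) (k : List ℕ) : List (List ℕ) :=
  (List.range s.length).map fun r => bif decide (r = q) then k else s.getD r []

theorem setL_length (s : List (List ℕ)) (q : ℕ) (k : List ℕ) : (setL s q k).length = s.length := by
  simp [setL]

theorem setL_getD (s : List (List ℕ)) (q : ℕ) (k : List ℕ) {r : ℕ} (hr : r < s.length) :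
    (setL s q k).getD r [] = if r = q then k else s.getD r [] := by
  unfold setL
  rw [List.getD_eq_getElem?_getD, List.getElem?_map, List.getElem?_range hr]
  simp only [Option.map_some, Option.getD_some]
  by_cases h : r = q
  · simp [h]
  · simp [h]

/-- multiplicity in the sum -/
def cT (s : List (List ℕ)) (v : ℕ) : ℕ := cnt s.flatten v

/-- the total vector -/
def totS (s : List (List ℕ)) : ℕ → ℤ := vec s.flatten

theorem totS_apply (s : List (List ℕ)) (v : ℕ) : totS s v = (cT s v : ℤ) := rfl

theorem totS_sum (s : List (List ℕ)) (v : ℕ) :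
    totS s v = ∑ r ∈ Finset.range s.length, vec (s.getD r []) v := by
  induction s with
  | nil => rfl
  | cons k s ih =>
    rw [List.length_cons, Finset.sum_range_succ']
    simp only [List.getD_cons_succ, List.getD_cons_zero]
    rw [← ih]
    unfold totS vec
    rw [List.flatten_cons, cnt_append]
    push_cast
    ring

theorem totS_setL {s : List (List ℕ)} {q : ℕ} (hq : q < s.length) (k : List ℕ) (v : ℕ) :
    totS (setL s q k) v = totS s v + (vec k v - vec (s.getD q []) v) := by
  rw [totS_sum, totS_sum, setL_length]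
  have h : ∀ r ∈ Finset.range s.length, vec ((setL s q k).getD r []) v =
      vec (s.getD r []) v + if r = q then vec k v - vec (s.getD q []) v else 0 := by
    intro r hr
    rw [setL_getD s q k (Finset.mem_range.1 hr)]
    by_cases h : r = q
    · subst h; simp
    · simp [h]
  rw [Finset.sum_congr rfl h, Finset.sum_add_distrib, Finset.sum_ite_eq' (Finset.range s.length) q,
    if_pos (Finset.mem_range.2 hq)]

variable (mem)

/-- legal states -/
structure Leg (d : Pc) (P : List Pc) (s : List (List ℕ)) : Prop where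
  len : s.length = P.length
  mem : ∀ q < P.length, mem (P.getD q d) (s.getD q []) = true

/-- state of the walk: state, token vertex, token direction, finished -/
abbrev Wk := List (List ℕ) × ℕ × Bool × Bool

/-- the piece which takes the token -/
def who (n : ℕ) (Y s : List (List ℕ)) (i : ℕ) (up : Bool) : ℕ :=
  findD (fun q => tow (s.getD q []) (Y.getD q []) i up) (List.range n) 0

/-- the result of the step in piece `q` -/
def newP (d : Pc) (P : List Pc) (Y s : List (List ℕ)) (i : ℕ) (up : Bool) (q : ℕ) : ℕ × Bool :=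
  pick mem (P.getD q d) (s.getD q []) (Y.getD q []) i up

/-- finish -/
def stopB (Y s : List (List ℕ)) (c : ℕ × Bool) : Bool :=
  bif c.2 then decide (cT s c.1 ≤ cT Y c.1) else decide (cT Y c.1 ≤ cT s c.1)

/-- one step of the walk -/
def wstp (d : Pc) (P : List Pc) (Y : List (List ℕ)) (w : Wk) : Wk :=
  bif w.2.2.2 then w else
    ((setL w.1 (who P.length Y w.1 w.2.1 w.2.2.1)
        (shf (shf (w.1.getD (who P.length Y w.1 w.2.1 w.2.2.1) []) w.2.1 w.2.2.1)
          (newP mem d P Y w.1 w.2.1 w.2.2.1 (who P.length Y w.1 w.2.1 w.2.2.1)).1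
          (newP mem d P Y w.1 w.2.1 w.2.2.1 (who P.length Y w.1 w.2.1 w.2.2.1)).2)),
      (newP mem d P Y w.1 w.2.1 w.2.2.1 (who P.length Y w.1 w.2.1 w.2.2.1)).1,
      !(newP mem d P Y w.1 w.2.1 w.2.2.1 (who P.length Y w.1 w.2.1 w.2.2.1)).2,
      stopB Y (setL w.1 (who P.length Y w.1 w.2.1 w.2.2.1)
        (shf (shf (w.1.getD (who P.length Y w.1 w.2.1 w.2.2.1) []) w.2.1 w.2.2.1)
          (newP mem d P Y w.1 w.2.1 w.2.2.1 (who P.length Y w.1 w.2.1 w.2.2.1)).1
          (newP mem d P Y w.1 w.2.1 w.2.2.1 (who P.length Y w.1 w.2.1 w.2.2.1)).2))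
        (newP mem d P Y w.1 w.2.1 w.2.2.1 (who P.length Y w.1 w.2.1 w.2.2.1)))

variable {mem}

/-- distance -/
def DN (m : ℕ) (y a : ℕ → ℤ) : ℕ := ∑ v ∈ Finset.range (m + 1), (y v - a v).natAbs

theorem DN_step {m : ℕ} {y a : ℕ → ℤ} {k : ℕ} {δ : ℤ} (hk : k ≤ m) (hδ : δ = 1 ∨ δ = -1)
    (h : 0 < δ * (y k - a k)) : DN m y (a + Pi.single k δ) + 1 = DN m y a := by
  unfold DN
  have e : ∀ v ∈ Finset.range (m + 1), (y v - a v).natAbs =
      (y v - (a + Pi.single k δ : ℕ → ℤ) v).natAbs + if v = k then 1 else 0 := by
    intro v _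
    by_cases hv : v = k
    · subst hv
      rw [if_pos rfl, Pi.add_apply, Pi.single_eq_same]
      rcases hδ with rfl | rfl <;> omega
    · rw [if_neg hv, Pi.add_apply, Pi.single_eq_of_ne hv]
      simp
  rw [Finset.sum_congr rfl e, Finset.sum_add_distrib, Finset.sum_ite_eq',
    if_pos (Finset.mem_range.2 (by omega))]

/-- the potential -/
def Phi (m n : ℕ) (Y s : List (List ℕ)) : ℕ :=
  ∑ r ∈ Finset.range n, DN m (vec (Y.getD r [])) (vec (s.getD r []))

theorem sum_cnt_le (S : Finset ℕ) (k : List ℕ) : ∑ v ∈ S, cnt k v ≤ k.length := by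
  induction k with
  | nil => simp [cnt]
  | cons a k ih =>
    have e : ∀ v ∈ S, cnt (a :: k) v = cnt k v + if v = a then 1 else 0 := fun v _ => cnt_cons a k v
    rw [Finset.sum_congr rfl e, Finset.sum_add_distrib, Finset.sum_ite_eq']
    have : (if a ∈ S then 1 else 0) ≤ 1 := by split_ifs <;> omega
    rw [List.length_cons]
    omega

theorem DN_le (m : ℕ) (k y : List ℕ) : DN m (vec y) (vec k) ≤ y.length + k.length := by
  unfold DN
  have e : ∀ v ∈ Finset.range (m + 1), (vec y v - vec k v).natAbs ≤ cnt y v + cnt k v := by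
    intro v _
    unfold vec
    omega
  refine (Finset.sum_le_sum e).trans ?_
  rw [Finset.sum_add_distrib]
  exact Nat.add_le_add (sum_cnt_le _ _) (sum_cnt_le _ _)

theorem Phi_le {m : ℕ} {d : Pc} {P : List Pc} (hP : ∀ q < P.length, PcOK mem m (P.getD q d))
    {Y s : List (List ℕ)} (hY : Leg mem d P Y) (hs : Leg mem d P s) : Phi m P.length Y s ≤ 16 * P.length := by
  unfold Phi
  have h : ∀ r ∈ Finset.range P.length, DN m (vec (Y.getD r [])) (vec (s.getD r [])) ≤ 16 := by
    intro r hr
    have hr' := Finset.mem_range.1 hr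
    have h1 := (hP r hr').len _ (hY.mem r hr')
    have h2 := (hP r hr').len _ (hs.mem r hr')
    exact (DN_le _ _ _).trans (by omega)
  refine (Finset.sum_le_sum h).trans ?_
  rw [Finset.sum_const, Finset.card_range, smul_eq_mul, Nat.mul_comm]

/-- invariant of the walk -/
structure SI (mem : Pc → List ℕ → Bool) (d : Pc) (P : List Pc) (Y : List (List ℕ)) (u : ℕ → ℤ)
    (s : List (List ℕ)) (i : ℕ) (up : Bool) : Prop where
  leg : Leg mem d P s
  tot : totS s + Pi.single i (sgn up) = u
  dir : 0 < sgn up * (totS Y i - totS s i)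

theorem who_spec {d : Pc} {P : List Pc} {Y s : List (List ℕ)} (hY : Leg mem d P Y) (hs : Leg mem d P s)
    {i : ℕ} {up : Bool} (h : 0 < sgn up * (totS Y i - totS s i)) :
    who P.length Y s i up < P.length ∧
      tow (s.getD (who P.length Y s i up) []) (Y.getD (who P.length Y s i up) []) i up = true := by
  have h1 : ∃ q ∈ List.range P.length, tow (s.getD q []) (Y.getD q []) i up = true := by
    by_contra hc
    push Not at hc
    have h2 : ∀ q ∈ Finset.range P.length, sgn up * (vec (Y.getD q []) i - vec (s.getD q []) i) ≤ 0 := by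
      intro q hq
      have := hc q (List.mem_range.2 (Finset.mem_range.1 hq))
      rw [ne_eq, tow_iff] at this
      exact not_lt.1 this
    have h3 := Finset.sum_nonpos h2
    rw [← Finset.mul_sum, Finset.sum_sub_distrib] at h3
    have e1 := totS_sum Y i
    have e2 := totS_sum s i
    rw [hY.len] at e1
    rw [hs.len] at e2
    rw [← e1, ← e2] at h3
    omega
  obtain ⟨h2, h3⟩ := findD_spec _ _ 0 h1
  exact ⟨List.mem_range.1 h2, h3⟩

/-- one step of the walk -/
theorem walk_step {m : ℕ} {d : Pc} {P : List Pc} (hP : ∀ q < P.length, PcOK mem m (P.getD q d))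
    {Y : List (List ℕ)} (hY : Leg mem d P Y) {u : ℕ → ℤ} {s : List (List ℕ)} {i : ℕ} {up : Bool}
    (hI : SI mem d P Y u s i up) :
    ∃ (s' : List (List ℕ)) (j : ℕ) (dn : Bool), wstp mem d P Y (s, i, up, false) = (s', j, !dn, stopB Y s' (j, dn)) ∧
      Leg mem d P s' ∧ totS s' = u + Pi.single j (sgn dn) ∧ j ≤ m ∧
      ((stopB Y s' (j, dn) = true ∧ 0 < sgn dn * (totS Y j - u j)) ∨
        (stopB Y s' (j, dn) = false ∧ SI mem d P Y u s' j (!dn) ∧
          Phi m P.length Y s' + 2 = Phi m P.length Y s)) := by
  obtain ⟨hq, ht⟩ := who_spec hY hI.leg hI.dir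
  obtain ⟨q, hqe⟩ : ∃ q, q = who P.length Y s i up := ⟨_, rfl⟩
  rw [← hqe] at hq ht
  obtain ⟨c, hce⟩ : ∃ c, c = newP mem d P Y s i up q := ⟨_, rfl⟩
  obtain ⟨h1, h2⟩ := pick_spec (hP q hq) (hI.leg.mem q hq) (hY.mem q hq) ht
  have hce' : c = pick mem (P.getD q d) (s.getD q []) (Y.getD q []) i up := hce
  rw [← hce'] at h1 h2
  obtain ⟨j, dn⟩ := c
  simp only at h1 h2
  have hql : q < s.length := by rw [hI.leg.len]; exact hq
  obtain ⟨s', hs'⟩ : ∃ s', s' = setL s q (shf (shf (s.getD q []) i up) j dn) := ⟨_, rfl⟩
  have ev1 := vec_shf (tow_mem ht)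
  have ev2 := vec_shf (tow_mem h1)
  have hleg : Leg mem d P s' := by
    refine ⟨by rw [hs', setL_length, hI.leg.len], ?_⟩
    intro r hr
    rw [hs', setL_getD s q _ (by rw [hI.leg.len]; exact hr)]
    by_cases h : r = q
    · subst h; rw [if_pos rfl]; exact h2
    · rw [if_neg h]; exact hI.leg.mem r hr
  have htot : totS s' = u + Pi.single j (sgn dn) := by
    funext v
    rw [hs', totS_setL hql, ev2, ev1, ← hI.tot]
    simp only [Pi.add_apply]
    ring
  have hjm : j ≤ m := by
    rcases tow_cand h1 with h | h
    · rcases mem_shf h with h | h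
      · rw [h]
        rcases tow_cand ht with h' | h'
        · exact (hP q hq).le _ (hI.leg.mem q hq) _ h'
        · exact (hP q hq).le _ (hY.mem q hq) _ h'
      · exact (hP q hq).le _ (hI.leg.mem q hq) _ h
    · exact (hP q hq).le _ (hY.mem q hq) _ h
  have him : i ≤ m := by
    rcases tow_cand ht with h' | h'
    · exact (hP q hq).le _ (hI.leg.mem q hq) _ h'
    · exact (hP q hq).le _ (hY.mem q hq) _ h'
  refine ⟨s', j, dn, ?_, hleg, htot, hjm, ?_⟩
  · unfold wstp
    simp only [cond_false]
    rw [← hqe, ← hce, hs']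
  · have hst : stopB Y s' (j, dn) = true ↔ 0 < sgn dn * (totS Y j - u j) := by
      have e1 := congrFun htot j
      rw [Pi.add_apply, Pi.single_eq_same, totS_apply] at e1
      rw [totS_apply]
      unfold stopB
      cases dn with
      | true =>
        simp only [cond_true, decide_eq_true_eq]
        have e2 : sgn true = 1 := rfl
        rw [e2] at e1 ⊢
        omega
      | false =>
        simp only [cond_false, decide_eq_true_eq]
        have e2 : sgn false = -1 := rfl
        rw [e2] at e1 ⊢
        omega
    cases hb : stopB Y s' (j, dn) with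
    | true => exact Or.inl ⟨rfl, hst.1 hb⟩
    | false =>
      right
      have hn : ¬ 0 < sgn dn * (totS Y j - u j) := by rw [← hst, hb]; simp
      have e3 : sgn (!dn) = - sgn dn := by cases dn <;> rfl
      refine ⟨rfl, ⟨hleg, ?_, ?_⟩, ?_⟩
      · rw [htot, e3, add_assoc, ← Pi.single_add, add_neg_cancel, Pi.single_zero, add_zero]
      · have e1 := congrFun htot j
        rw [Pi.add_apply, Pi.single_eq_same] at e1
        rw [e1, e3]
        rcases sgn_or dn with e | e <;> rw [e] at hn ⊢ <;> omega
      · unfold Phi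
        have hd : ∀ r ∈ Finset.range P.length, DN m (vec (Y.getD r [])) (vec (s.getD r [])) =
            DN m (vec (Y.getD r [])) (vec (s'.getD r [])) + if r = q then 2 else 0 := by
          intro r hr
          rw [hs', setL_getD s q _ (by rw [hI.leg.len]; exact Finset.mem_range.1 hr)]
          by_cases h : r = q
          · subst h
            rw [if_pos rfl, if_pos rfl, ev2, ev1]
            have g1 := DN_step him (sgn_or up) ((tow_iff _ _ _ _).1 ht)
            have g2 := (tow_iff _ _ _ _).1 h1
            rw [ev1] at g2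
            have g3 := DN_step hjm (sgn_or dn) g2
            omega
          · rw [if_neg h, if_neg h, add_zero]
        rw [Finset.sum_congr rfl hd, Finset.sum_add_distrib, Finset.sum_ite_eq',
          if_pos (Finset.mem_range.2 hq)]

end pieces

end Pool.Agent.PF4
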