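import Pool.Agent.PF4.XI
import Pool.Agent.PF4.SX
import Pool.Agent.PF4.Sum

/-!
Padding: a 2-matching `L` of the graph with a demand list `kk` is completed by stubs (edges from free vertices to dummies) and
by a matching of the remaining dummies, so that every real vertex `v` has degree `2 - k v` and every dummy degree `1`. The
dummy `n` is the parity token. The exchange of padded graphs is the exchange with slack.
-/

set_option autoImplicit false

namespace Pool.Agent.PF4

open Finset Pool.Agent.TFC Pool.Agent.Lib.helper60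

/-! ### the pieces of the padding -/

theorem degL_nil (v : ℕ) : degL [] v = 0 := rfl

theorem degL_append (l l' : List Ed) (v : ℕ) : degL (l ++ l') v = degL l v + degL l' v := by
  unfold degL
  rw [List.filter_append, List.length_append]

theorem degL_cons (e : Ed) (l : List Ed) (v : ℕ) : degL (e :: l) v = degL l v + if e.1 = v ∨ e.2 = v then 1 else 0 := by
  unfold degL
  rw [List.filter_cons]
  by_cases h : e.1 = v ∨ e.2 = v
  · have : inc v e = true := by
      unfold inc
      rcases h with h | h <;> simp [h]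
    rw [this, if_pos h]
    simp
  · have : inc v e = false := by
      unfold inc
      push Not at h
      simp [h.1, h.2]
    rw [this, if_neg h]
    simp

/-- the stubs -/
def stE (n : ℕ) (st : List ℕ) : List Ed := (List.range st.length).map fun j => (st.getD j 0, n + 1 + j)

/-- consecutive pairs -/
def prE (a t : ℕ) : List Ed := (List.range t).map fun i => (a + 2 * i, a + 2 * i + 1)

theorem prE_succ (a t : ℕ) : prE a (t + 1) = prE a t ++ [(a + 2 * t, a + 2 * t + 1)] := by
  unfold prE
  rw [List.range_succ, List.map_append]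
  rfl

theorem degL_prE (a t v : ℕ) : degL (prE a t) v = if a ≤ v ∧ v < a + 2 * t then 1 else 0 := by
  induction t with
  | zero =>
    have : ¬ (a ≤ v ∧ v < a + 2 * 0) := by omega
    rw [if_neg this]
    rfl
  | succ t ih =>
    rw [prE_succ, degL_append, ih, degL_cons, degL_nil]
    simp only
    split_ifs <;> omega

theorem degL_stE (n : ℕ) (st : List ℕ) (hst : ∀ v ∈ st, v < n) (v : ℕ) :
    degL (stE n st) v = if v < n then cnt st v else if n + 1 ≤ v ∧ v < n + 1 + st.length then 1 else 0 := by
  have key : ∀ t ≤ st.length, degL ((List.range t).map fun j => (st.getD j 0, n + 1 + j)) v =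
      if v < n then cnt (st.take t) v else if n + 1 ≤ v ∧ v < n + 1 + t then 1 else 0 := by
    intro t
    induction t with
    | zero =>
      intro _
      simp only [List.range_zero, List.map_nil, List.take_zero]
      split_ifs
      · rfl
      · omega
      · rfl
    | succ t ih =>
      intro ht
      have ih' := ih (by omega)
      rw [List.range_succ, List.map_append, degL_append, ih', List.map_cons, List.map_nil, degL_cons, degL_nil]
      have e1 : st.getD t 0 = st[t] := by
        rw [List.getD_eq_getElem?_getD, List.getElem?_eq_getElem (by omega)]; rfl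
      have e2 : st.take (t + 1) = st.take t ++ [st[t]] := List.take_succ_eq_append_getElem (by omega)
      have h1 : st[t] < n := hst _ (List.getElem_mem _)
      rw [e2, cnt_append, cnt_cons, cnt_nil, e1]
      simp only
      by_cases hv : v < n
      · rw [if_pos hv, if_pos hv]
        split_ifs <;> omega
      · rw [if_neg hv, if_neg hv]
        split_ifs <;> omega
  have := key st.length le_rfl
  rw [List.take_length] at this
  exact this

theorem WF_append {l l' : List Ed} (h : WF l) (h' : WF l') (hd : ∀ x ∈ fs l, x ∉ fs l') : WF (l ++ l') := by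
  show ((l ++ l').map fe).Nodup
  rw [List.map_append, List.nodup_append']
  refine ⟨h, h', ?_⟩
  intro x h1 h2
  exact hd x (by rw [fs, List.mem_toFinset]; exact h1) (by rw [fs, List.mem_toFinset]; exact h2)

theorem WF_prE (a t : ℕ) : WF (prE a t) := by
  show ((prE a t).map fe).Nodup
  unfold prE
  rw [List.map_map]
  refine List.nodup_range.map_on ?_
  intro i _ j _ h
  simp only [Function.comp, fe, Sym2.eq_iff] at h
  omega

theorem WF_stE {n : ℕ} {st : List ℕ} (hst : ∀ v ∈ st, v < n) : WF (stE n st) := by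
  show ((stE n st).map fe).Nodup
  unfold stE
  rw [List.map_map]
  refine List.nodup_range.map_on ?_
  intro i hi j hj h
  have lt : ∀ i ∈ List.range st.length, st.getD i 0 < n := by
    intro i hi
    have hi' := List.mem_range.1 hi
    have e1 : st.getD i 0 = st[i] := by
      rw [List.getD_eq_getElem?_getD, List.getElem?_eq_getElem hi']; rfl
    rw [e1]
    exact hst _ (List.getElem_mem _)
  have h1 := lt i hi
  have h2 := lt j hj
  simp only [Function.comp, fe, Sym2.eq_iff] at h
  omega

theorem mem_fs_stE {n : ℕ} {st : List ℕ} (hst : ∀ v ∈ st, v < n) {x : Sym2 ℕ} (hx : x ∈ fs (stE n st)) :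
    ∃ v d, v ∈ st ∧ n + 1 ≤ d ∧ x = s(v, d) := by
  obtain ⟨e, he, rfl⟩ := mem_fs.1 hx
  unfold stE at he
  obtain ⟨j, hj, rfl⟩ := List.mem_map.1 he
  have hj' := List.mem_range.1 hj
  have e1 : st.getD j 0 = st[j] := by
    rw [List.getD_eq_getElem?_getD, List.getElem?_eq_getElem hj']; rfl
  refine ⟨st.getD j 0, n + 1 + j, ?_, by omega, rfl⟩
  rw [e1]
  exact List.getElem_mem _

theorem mem_fs_prE {a t : ℕ} {x : Sym2 ℕ} (hx : x ∈ fs (prE a t)) : ∃ u v, a ≤ u ∧ a < v ∧ u ≠ v ∧ x = s(u, v) := by
  obtain ⟨e, he, rfl⟩ := mem_fs.1 hx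
  unfold prE at he
  obtain ⟨j, hj, rfl⟩ := List.mem_map.1 he
  exact ⟨a + 2 * j, a + 2 * j + 1, by omega, by omega, by omega, rfl⟩

/-! ### the padding -/

/-- free vertices -/
def frB (g : List ℕ) (v : ℕ) : Bool := decide (g.getD v 0 ≤ 1)

/-- the list of the stub ends -/
def stL (n : ℕ) (g : List ℕ) (L : List Ed) (kk : List ℕ) : List ℕ :=
  (List.range n).flatMap fun v => bif frB g v then List.replicate (2 - cnt kk v - degL L v) v else []

/-- the matching of the remaining dummies; `s` = number of stubs -/
def dmE (n s : ℕ) : List Ed :=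
  bif decide (s % 2 = 0) then (n, n + 1 + s) :: prE (n + 2 + s) ((2 * n - s) / 2)
  else prE (n + 1 + s) ((2 * n + 1 - s) / 2)

/-- the padding -/
def pad (n : ℕ) (g : List ℕ) (L : List Ed) (kk : List ℕ) : List Ed :=
  L ++ (stE n (stL n g L kk) ++ dmE n (stL n g L kk).length)

theorem cnt_flatMap_range (n : ℕ) (f : ℕ → List ℕ) (c : ℕ → ℕ) (h : ∀ a v, cnt (f a) v = if v = a then c a else 0)
    (v : ℕ) : cnt ((List.range n).flatMap f) v = if v < n then c v else 0 := by
  induction n with
  | zero => simp [cnt]
  | succ n ih =>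
    rw [List.range_succ, List.flatMap_append, cnt_append, ih, List.flatMap_cons, List.flatMap_nil,
      List.append_nil, h]
    by_cases h1 : v = n
    · subst h1; simp
    · by_cases h2 : v < n
      · rw [if_pos h2, if_neg h1, if_pos (by omega), add_zero]
      · rw [if_neg h2, if_neg h1, if_neg (by omega)]

theorem cnt_stL (n : ℕ) (g : List ℕ) (L : List Ed) (kk : List ℕ) (v : ℕ) :
    cnt (stL n g L kk) v = if v < n then (if frB g v = true then 2 - cnt kk v - degL L v else 0) else 0 := by
  unfold stL
  refine cnt_flatMap_range n _ (fun v => if frB g v = true then 2 - cnt kk v - degL L v else 0) ?_ v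
  intro a v
  cases h : frB g a with
  | true =>
    simp only [cond_true, if_true]
    rw [cnt_replicate]
  | false =>
    simp [cnt]

theorem stL_lt {n : ℕ} {g : List ℕ} {L : List Ed} {kk : List ℕ} : ∀ v ∈ stL n g L kk, v < n := by
  intro v hv
  have h1 := cnt_pos.2 hv
  rw [cnt_stL] at h1
  by_contra hc
  rw [if_neg hc] at h1
  omega

theorem stL_free {n : ℕ} {g : List ℕ} {L : List Ed} {kk : List ℕ} : ∀ v ∈ stL n g L kk, frB g v = true := by
  intro v hv
  have h1 := cnt_pos.2 hv
  rw [cnt_stL] at h1
  by_contra hc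
  rw [if_neg hc] at h1
  split_ifs at h1 <;> omega

theorem length_eq_sum_cnt (l : List ℕ) (n : ℕ) (h : ∀ v ∈ l, v < n) : l.length = ∑ v ∈ Finset.range n, cnt l v := by
  induction l with
  | nil => simp [cnt]
  | cons a l ih =>
    have e : ∀ v ∈ Finset.range n, cnt (a :: l) v = cnt l v + if v = a then 1 else 0 := fun v _ => cnt_cons a l v
    rw [Finset.sum_congr rfl e, Finset.sum_add_distrib, Finset.sum_ite_eq',
      if_pos (Finset.mem_range.2 (h a List.mem_cons_self)), ← ih (fun v hv => h v (List.mem_cons_of_mem _ hv)),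
      List.length_cons]

theorem stL_length {n : ℕ} {g : List ℕ} {L : List Ed} {kk : List ℕ} : (stL n g L kk).length ≤ 2 * n := by
  rw [length_eq_sum_cnt _ n stL_lt]
  have e : ∀ v ∈ Finset.range n, cnt (stL n g L kk) v ≤ 2 := by
    intro v _
    rw [cnt_stL]
    split_ifs <;> omega
  refine (Finset.sum_le_sum e).trans ?_
  rw [Finset.sum_const, Finset.card_range, smul_eq_mul]
  omega

theorem degL_dmE {n s : ℕ} (hs : s ≤ 2 * n) (v : ℕ) : degL (dmE n s) v =
    if v = n then (if s % 2 = 0 then 1 else 0) else if n + 1 + s ≤ v ∧ v < 3 * n + 2 then 1 else 0 := by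
  unfold dmE
  by_cases h : s % 2 = 0
  · simp only [h, decide_true, cond_true]
    rw [degL_cons, degL_prE]
    simp only
    split_ifs <;> omega
  · simp only [h, decide_false, cond_false]
    rw [degL_prE]
    split_ifs <;> omega

theorem mem_fs_dmE {n s : ℕ} {x : Sym2 ℕ} (hx : x ∈ fs (dmE n s)) : ∃ u v, n ≤ u ∧ n < v ∧ u ≠ v ∧ x = s(u, v) := by
  unfold dmE at hx
  by_cases h : s % 2 = 0
  · simp only [h, decide_true, cond_true, fs_cons, Finset.mem_insert] at hx
    rcases hx with hx | hx
    · exact ⟨n, n + 1 + s, le_rfl, by omega, by omega, hx⟩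
    · obtain ⟨u, v, h1, h2, h3, rfl⟩ := mem_fs_prE hx
      exact ⟨u, v, by omega, by omega, h3, rfl⟩
  · simp only [h, decide_false, cond_false] at hx
    obtain ⟨u, v, h1, h2, h3, rfl⟩ := mem_fs_prE hx
    exact ⟨u, v, by omega, by omega, h3, rfl⟩

theorem WF_dmE (n s : ℕ) : WF (dmE n s) := by
  unfold dmE
  by_cases h : s % 2 = 0
  · simp only [h, decide_true, cond_true]
    have h1 : WF [(n, n + 1 + s)] := by simp [WF]
    have h2 := WF_append h1 (WF_prE (n + 2 + s) ((2 * n - s) / 2)) ?_
    · exact h2
    · intro x hx hx'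
      simp only [fs_cons, fs_nil, insert_empty_eq, Finset.mem_singleton] at hx
      obtain ⟨u, v, h1, h2, h3, h4⟩ := mem_fs_prE hx'
      rw [hx] at h4
      unfold fe at h4
      simp only [Sym2.eq_iff] at h4
      omega
  · simp only [h, decide_false, cond_false]
    exact WF_prE _ _

/-- all edges of `L` are between real vertices -/
def RealE (n : ℕ) (L : Finset (Sym2 ℕ)) : Prop := ∀ e ∈ L, ∀ v ∈ e, v < n

theorem WF_pad {n : ℕ} {g : List ℕ} {L : List Ed} {kk : List ℕ} (hL : WF L) (hr : RealE n (fs L)) :
    WF (pad n g L kk) := by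
  refine WF_append hL (WF_append (WF_stE stL_lt) (WF_dmE _ _) ?_) ?_
  · intro x hx hx'
    obtain ⟨v, d, h1, h2, rfl⟩ := mem_fs_stE stL_lt hx
    obtain ⟨u, w, h3, h4, h5, h6⟩ := mem_fs_dmE hx'
    have := stL_lt v h1
    simp only [Sym2.eq_iff] at h6
    omega
  · intro x hx hx'
    rw [fs_append, Finset.mem_union] at hx'
    rcases hx' with hx' | hx'
    · obtain ⟨v, d, h1, h2, rfl⟩ := mem_fs_stE stL_lt hx'
      have := hr _ hx d (Sym2.mem_mk_right _ _)
      omega
    · obtain ⟨u, w, h3, h4, h5, rfl⟩ := mem_fs_dmE hx'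
      have := hr _ hx u (Sym2.mem_mk_left _ _)
      omega

/-- the degrees of the padding -/
theorem dg_pad {n : ℕ} {g : List ℕ} {L : List Ed} {kk : List ℕ} (hL : WF L) (hr : RealE n (fs L)) (v : ℕ) :
    dg (fs (pad n g L kk)) v =
      if v < n then degL L v + (if frB g v = true then 2 - cnt kk v - degL L v else 0)
      else if v = n then (if (stL n g L kk).length % 2 = 0 then 1 else 0)
      else if v < 3 * n + 2 then 1 else 0 := by
  have hs := stL_length (n := n) (g := g) (L := L) (kk := kk)
  have h0 : n ≤ v → degL L v = 0 := by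
    intro hv
    rw [degL_eq hL, dg, Finset.card_eq_zero, Finset.filter_eq_empty_iff]
    intro e he hv'
    have := hr e he v hv'
    omega
  rw [← degL_eq (WF_pad hL hr)]
  unfold pad
  rw [degL_append, degL_append, degL_stE n _ stL_lt, degL_dmE hs]
  by_cases h1 : v < n
  · rw [if_pos h1, if_pos h1, cnt_stL, if_pos h1]
    have h2 : ¬ v = n := by omega
    have h3 : ¬ (n + 1 + (stL n g L kk).length ≤ v ∧ v < 3 * n + 2) := by omega
    rw [if_neg h2, if_neg h3, add_zero]
  · rw [if_neg h1, if_neg h1, h0 (by omega)]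
    by_cases h2 : v = n
    · subst h2
      have h3 : ¬ (v + 1 ≤ v ∧ v < v + 1 + (stL v g L kk).length) := by omega
      rw [if_neg h3]
      simp
    · rw [if_neg h2, if_neg h2]
      split_ifs <;> omega

theorem real_of_pad {n : ℕ} {g : List ℕ} {L : List Ed} {kk : List ℕ} {e : Sym2 ℕ}
    (he : e ∈ fs (pad n g L kk)) (hr : ∀ v ∈ e, v < n) : e ∈ fs L := by
  unfold pad at he
  rw [fs_append, fs_append, Finset.mem_union, Finset.mem_union] at he
  rcases he with he | he | he
  · exact he
  · obtain ⟨v, d, h1, h2, rfl⟩ := mem_fs_stE stL_lt he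
    have := hr d (Sym2.mem_mk_right _ _)
    omega
  · obtain ⟨u, w, h3, h4, h5, rfl⟩ := mem_fs_dmE he
    have := hr u (Sym2.mem_mk_left _ _)
    omega

theorem noLoop_pad {n : ℕ} {g : List ℕ} {L : List Ed} {kk : List ℕ} (hL : NoLoop (fs L)) :
    NoLoop (fs (pad n g L kk)) := by
  intro e he
  unfold pad at he
  rw [fs_append, fs_append, Finset.mem_union, Finset.mem_union] at he
  rcases he with he | he | he
  · exact hL e he
  · obtain ⟨v, d, h1, h2, rfl⟩ := mem_fs_stE stL_lt he
    have := stL_lt v h1
    rw [Sym2.mk_isDiag_iff]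
    omega
  · obtain ⟨u, w, h3, h4, h5, rfl⟩ := mem_fs_dmE he
    rw [Sym2.mk_isDiag_iff]
    exact h5

/-- an edge of the padding at a vertex of demand 2 is an edge of `L` -/
theorem pad_T {n : ℕ} {g : List ℕ} {L : List Ed} {kk : List ℕ} {e : Sym2 ℕ} (he : e ∈ fs (pad n g L kk))
    {v : ℕ} (hv : v ∈ e) (hvn : v < n) (hf : frB g v = false) : e ∈ fs L := by
  unfold pad at he
  rw [fs_append, fs_append, Finset.mem_union, Finset.mem_union] at he
  rcases he with he | he | he
  · exact he
  · obtain ⟨u, d, h1, h2, rfl⟩ := mem_fs_stE stL_lt he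
    rcases Sym2.mem_iff.1 hv with rfl | rfl
    · have := stL_free v h1
      rw [hf] at this; cases this
    · omega
  · obtain ⟨u, w, h3, h4, h5, rfl⟩ := mem_fs_dmE he
    rcases Sym2.mem_iff.1 hv with rfl | rfl <;> omega

end Pool.Agent.PF4
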