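import Pool.Agent.PF4.Pad

/-!
The exchange of padded graphs: exchange of demand vectors.
-/

set_option autoImplicit false

namespace Pool.Agent.PF4

open Finset Pool.Agent.TFC Pool.Agent.Lib.helper60 XF

/-- handshake -/
theorem sum_dg {n : ℕ} {z : Finset (Sym2 ℕ)} (hn : NoLoop z) (hr : RealE n z) :
    ∑ v ∈ Finset.range n, dg z v = 2 * #z := by
  induction z using Finset.induction_on with
  | empty => simp [dg]
  | insert e z he ih =>
    have h1 : NoLoop z := fun f hf => hn f (Finset.mem_insert_of_mem hf)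
    have h2 : RealE n z := fun f hf => hr f (Finset.mem_insert_of_mem hf)
    have e1 : ∀ v ∈ Finset.range n, dg (insert e z) v = dg z v + if v ∈ e then 1 else 0 :=
      fun v _ => dg_insert he v
    rw [Finset.sum_congr rfl e1, Finset.sum_add_distrib, ih h1 h2, Finset.card_insert_of_notMem he]
    have h3 := hn e (Finset.mem_insert_self _ _)
    have h4 := hr e (Finset.mem_insert_self _ _)
    have h5 : ∑ v ∈ Finset.range n, (if v ∈ e then 1 else 0) = 2 := by
      induction e using Sym2.ind with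
      | _ a b =>
        rw [Sym2.mk_isDiag_iff] at h3
        have ha := h4 a (Sym2.mem_mk_left _ _)
        have hb := h4 b (Sym2.mem_mk_right _ _)
        have e2 : ∀ v ∈ Finset.range n, (if v ∈ s(a, b) then 1 else 0) =
            (if v = a then 1 else 0) + (if v = b then 1 else 0) := by
          intro v _
          by_cases hva : v = a
          · subst hva
            simp [h3]
          · by_cases hvb : v = b
            · subst hvb
              simp [hva]
            · simp [hva, hvb]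
        rw [Finset.sum_congr rfl e2, Finset.sum_add_distrib, Finset.sum_ite_eq', Finset.sum_ite_eq',
          if_pos (Finset.mem_range.2 ha), if_pos (Finset.mem_range.2 hb)]
    rw [h5]
    omega

/-- the squares which are neither in `L` nor in `L'` -/
def fsq (x : Ins) (L L' : List Ed) : List Sq4 := (sqG x).filter fun q => !sqIn L q && !sqIn L' q

/-- the exchange with slack; `up` is the direction of the DEGREES (`false`: the demand at `i` goes up) -/
def exW (x : Ins) (g : List ℕ) (L : List Ed) (kk : List ℕ) (L' : List Ed) (kk' : List ℕ) (i : ℕ)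
    (up : Bool) : List Ed :=
  (exch (fsq x L L') (pad x.1 g L kk) (pad x.1 g L' kk') i up).filter
    fun e => decide (e.1 < x.1) && decide (e.2 < x.1)

/-- the data of the instance -/
structure XRel (x : Ins) (g : List ℕ) (X : XD) : Prop where
  n : X.n = x.1
  e : X.E ⊆ fs x.2
  t : ∀ v < x.1, (v ∈ X.T ↔ frB g v = false)
  tl : ∀ v ∈ X.T, v < x.1

/-- what is known about one argument -/
structure PA (x : Ins) (g : List ℕ) (X : XD) (L : List Ed) (kk : List ℕ) (k : ℕ → ℤ) : Prop where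
  wf : WF L
  m2 : M2 (fs L)
  sub : fs L ⊆ X.E
  fit : FitK X (fs L) k
  kk : ∀ v < x.1, (cnt kk v : ℤ) = k v

section
variable {x : Ins} {g : List ℕ} {X : XD} {L : List Ed} {kk : List ℕ} {k : ℕ → ℤ}

theorem PA.real (hx : InsWF x) (R : XRel x g X) (h : PA x g X L kk k) : RealE x.1 (fs L) :=
  fun _ he _ hv => hx.vlt (R.e (h.sub he)) hv

/-- degrees of the padding at the real vertices -/
theorem PA.dvr (hx : InsWF x) (R : XRel x g X) (h : PA x g X L kk k) {v : ℕ} (hv : v < x.1) :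
    dv (fs (pad x.1 g L kk)) v = 2 - k v := by
  rw [dv_apply, dg_pad h.wf (h.real hx R), if_pos hv, degL_eq h.wf]
  have h1 := h.kk v hv
  cases hf : frB g v with
  | true =>
    have hT : v ∉ X.T := fun hT => by
      rw [R.t v hv, hf] at hT; cases hT
    obtain ⟨h2, h3⟩ := h.fit.f v (by rw [R.n]; exact hv) hT
    rw [dv_apply] at h3
    simp only [if_true]
    omega
  | false =>
    have hT : v ∈ X.T := (R.t v hv).2 hf
    have h2 := h.fit.t v hT
    rw [dv_apply] at h2
    simp only [Bool.false_eq_true, if_false, add_zero]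
    omega

/-- the number of stubs has the parity of the token -/
theorem PA.par (hx : InsWF x) (R : XRel x g X) (h : PA x g X L kk k) :
    ((stL x.1 g L kk).length : ℤ) % 2 = k x.1 % 2 := by
  have h1 := length_eq_sum_cnt (stL x.1 g L kk) x.1 stL_lt
  have h2 : ∀ v ∈ Finset.range x.1, (cnt (stL x.1 g L kk) v : ℤ) + dv (fs L) v = 2 - k v := by
    intro v hv
    have hv' := Finset.mem_range.1 hv
    rw [← h.dvr hx R hv', cnt_stL, if_pos hv', dv_apply, dv_apply, dg_pad h.wf (h.real hx R), if_pos hv',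
      degL_eq h.wf]
    push_cast
    ring
  have h3 := Finset.sum_congr (s₁ := Finset.range x.1) rfl h2
  rw [Finset.sum_add_distrib, Finset.sum_sub_distrib] at h3
  have h4 := sum_dg h.m2.nl (h.real hx R)
  have h5 : ∑ v ∈ Finset.range x.1, dv (fs L) v = 2 * (#(fs L) : ℤ) := by
    have : ∑ v ∈ Finset.range x.1, dv (fs L) v = ((∑ v ∈ Finset.range x.1, dg (fs L) v : ℕ) : ℤ) := by
      push_cast
      rfl
    rw [this, h4]
    push_cast
    rfl
  have h6 := h.fit.par
  rw [R.n, Finset.sum_range_succ] at h6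
  have h7 : ((stL x.1 g L kk).length : ℤ) = ∑ v ∈ Finset.range x.1, (cnt (stL x.1 g L kk) v : ℤ) := by
    rw [h1]; push_cast; rfl
  rw [← h7, h5] at h3
  have h8 : ∑ v ∈ Finset.range x.1, (2 : ℤ) = 2 * x.1 := by
    rw [Finset.sum_const, Finset.card_range]
    ring
  rw [h8] at h3
  obtain ⟨c, hc⟩ := h6
  omega

/-- degree at the token -/
theorem PA.dvn (hx : InsWF x) (R : XRel x g X) (h : PA x g X L kk k) :
    dv (fs (pad x.1 g L kk)) x.1 = 1 - k x.1 := by
  rw [dv_apply, dg_pad h.wf (h.real hx R), if_neg (lt_irrefl _), if_pos rfl]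
  have h1 := h.par hx R
  have h2 := h.fit.tok
  rw [R.n] at h2
  rcases h2 with h2 | h2
  · rw [h2] at h1 ⊢
    rw [if_pos (by omega)]
    rfl
  · rw [h2] at h1 ⊢
    rw [if_neg (by omega)]
    rfl

/-- degree at the other dummies -/
theorem PA.dvd (hx : InsWF x) (R : XRel x g X) (h : PA x g X L kk k) {v : ℕ} (hv : x.1 < v) :
    dv (fs (pad x.1 g L kk)) v = if v < 3 * x.1 + 2 then 1 else 0 := by
  rw [dv_apply, dg_pad h.wf (h.real hx R), if_neg (by omega), if_neg (by omega)]
  split_ifs <;> rfl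

theorem PA.m2p (hx : InsWF x) (R : XRel x g X) (h : PA x g X L kk k) : M2 (fs (pad x.1 g L kk)) := by
  refine ⟨noLoop_pad h.m2.nl, ?_⟩
  intro v
  have h0 : (dg (fs (pad x.1 g L kk)) v : ℤ) = dv (fs (pad x.1 g L kk)) v := rfl
  rcases lt_trichotomy v x.1 with hv | hv | hv
  · have h1 := h.dvr hx R hv
    have h2 := h.kk v hv
    omega
  · subst hv
    have h1 := h.dvn hx R
    have h2 := h.fit.tok
    rw [R.n] at h2
    omega
  · have h1 := h.dvd hx R hv
    split_ifs at h1 <;> omega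

end

section
variable {x : Ins} {g : List ℕ} {X : XD} {L L' : List Ed} {kk kk' : List ℕ} {k k' : ℕ → ℤ}

theorem PA.gm (hx : InsWF x) (R : XRel x g X) (h : PA x g X L kk k) (FS : List Sq4) (hF : ∀ q ∈ FS, q ∈ sqG x ∧
    sqIn L q = false) : GM FS (pad x.1 g L kk) := by
  refine ⟨WF_pad h.wf (h.real hx R), h.m2p hx R, ?_⟩
  rw [good_iff (fun q hq => sqG_ok q (hF q hq).1)]
  intro q hq hs
  obtain ⟨h1, h2⟩ := hF q hq
  have h3 : sqs q ⊆ fs L := by
    intro e he
    refine real_of_pad (hs he) ?_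
    intro v hv
    exact hx.vlt (sqG_sub h1 he) hv
  rw [← sqIn_iff, h2] at h3
  cases h3

/-- **the exchange of demand vectors** -/
theorem exW_spec (hx : InsWF x) (R : XRel x g X) (h : PA x g X L kk k) (h' : PA x g X L' kk' k')
    {i : ℕ} (hi : i ≤ x.1) {up : Bool} (hd : 0 < (- sgn up) * (k' i - k i)) :
    ∃ k'', (WF (exW x g L kk L' kk' i up) ∧ M2 (fs (exW x g L kk L' kk' i up))) ∧
      FitK X (fs (exW x g L kk L' kk' i up)) k'' ∧
      fs (exW x g L kk L' kk' i up) ⊆ fs L ∪ fs L' ∧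
      (∀ Z, IsSq Z → Z ⊆ fs (exW x g L kk L' kk' i up) → Z ⊆ fs L ∨ Z ⊆ fs L') ∧
      Two k k' k'' i (- sgn up) := by
  obtain ⟨A, hA⟩ : ∃ A, A = pad x.1 g L kk := ⟨_, rfl⟩
  obtain ⟨B, hB⟩ : ∃ B, B = pad x.1 g L' kk' := ⟨_, rfl⟩
  have hFS : ∀ q ∈ fsq x L L', q ∈ sqG x ∧ sqIn L q = false ∧ sqIn L' q = false := by
    intro q hq
    unfold fsq at hq
    rw [List.mem_filter, Bool.and_eq_true, Bool.not_eq_true', Bool.not_eq_true'] at hq
    exact ⟨hq.1, hq.2.1, hq.2.2⟩
  have gA : GM (fsq x L L') A := hA ▸ h.gm hx R _ (fun q hq => ⟨(hFS q hq).1, (hFS q hq).2.1⟩)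
  have gB : GM (fsq x L L') B := hB ▸ h'.gm hx R _ (fun q hq => ⟨(hFS q hq).1, (hFS q hq).2.2⟩)
  have ok : ∀ q ∈ fsq x L L', SqOK q := fun q hq => sqG_ok q (hFS q hq).1
  have rA : ∀ v < x.1, dv (fs A) v = 2 - k v := fun v hv => hA ▸ h.dvr hx R hv
  have rB : ∀ v < x.1, dv (fs B) v = 2 - k' v := fun v hv => hB ▸ h'.dvr hx R hv
  have nA : dv (fs A) x.1 = 1 - k x.1 := hA ▸ h.dvn hx R
  have nB : dv (fs B) x.1 = 1 - k' x.1 := hB ▸ h'.dvn hx R
  have dAB : ∀ v, x.1 < v → dv (fs A) v = dv (fs B) v := fun v hv => by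
    rw [hA, hB, h.dvd hx R hv, h'.dvd hx R hv]
  have hdir : 0 < sgn up * (dv (fs B) i - dv (fs A) i) := by
    rcases lt_or_eq_of_le hi with hi' | hi'
    · rw [rA i hi', rB i hi']
      rcases sgn_or up with e | e <;> rw [e] at hd ⊢ <;> omega
    · subst hi'
      rw [nA, nB]
      rcases sgn_or up with e | e <;> rw [e] at hd ⊢ <;> omega
  obtain ⟨g1, g2, j, δ, hδ, hj, he⟩ := exch_GM ok gA gB hdir
  have htwo : Two (dv (fs A)) (dv (fs B)) (dv (fs (exch (fsq x L L') A B i up))) i (sgn up) :=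
    ⟨j, δ, hδ, hj, he⟩
  have hbet := htwo.between (sgn_or up) hdir
  obtain ⟨z, hz⟩ : ∃ z, z = exch (fsq x L L') A B i up := ⟨_, rfl⟩
  rw [← hz] at g1 g2 he hbet
  have hjn : j ≤ x.1 := by
    by_contra hc
    have h1 := dAB j (by omega)
    rw [Pi.add_apply, Pi.single_eq_of_ne (by omega), h1] at hj
    rcases hδ with rfl | rfl <;> omega
  -- the result
  have hres : exW x g L kk L' kk' i up = z.filter fun e => decide (e.1 < x.1) && decide (e.2 < x.1) := by
    unfold exW
    rw [hz, hA, hB]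
  have hfs : ∀ e, e ∈ fs (exW x g L kk L' kk' i up) ↔ e ∈ fs z ∧ ∀ v ∈ e, v < x.1 := by
    intro e
    rw [hres, mem_fs, mem_fs]
    constructor
    · rintro ⟨f, hf, rfl⟩
      rw [List.mem_filter, Bool.and_eq_true, decide_eq_true_eq, decide_eq_true_eq] at hf
      refine ⟨⟨f, hf.1, rfl⟩, ?_⟩
      intro v hv
      rcases Sym2.mem_iff.1 hv with rfl | rfl
      · exact hf.2.1
      · exact hf.2.2
    · rintro ⟨⟨f, hf, rfl⟩, hr⟩
      refine ⟨f, ?_, rfl⟩
      rw [List.mem_filter, Bool.and_eq_true, decide_eq_true_eq, decide_eq_true_eq]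
      exact ⟨hf, hr _ (Sym2.mem_mk_left _ _), hr _ (Sym2.mem_mk_right _ _)⟩
  have hsub : fs (exW x g L kk L' kk' i up) ⊆ fs z := fun e he => ((hfs e).1 he).1
  have hLL : fs (exW x g L kk L' kk' i up) ⊆ fs L ∪ fs L' := by
    intro e he
    obtain ⟨h1, h2⟩ := (hfs e).1 he
    rcases Finset.mem_union.1 (g2 h1) with h3 | h3
    · exact Finset.mem_union_left _ (real_of_pad (hA ▸ h3) h2)
    · exact Finset.mem_union_right _ (real_of_pad (hB ▸ h3) h2)
  -- the vector
  obtain ⟨k'', hk''⟩ : ∃ k'' : ℕ → ℤ, k'' = fun v => if v < x.1 then 2 - dv (fs z) v else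
      if v = x.1 then 1 - dv (fs z) x.1 else 0 := ⟨_, rfl⟩
  have kr : ∀ v < x.1, k'' v = 2 - dv (fs z) v := fun v hv => by rw [hk'']; simp [hv]
  have kn : k'' x.1 = 1 - dv (fs z) x.1 := by rw [hk'']; simp
  have kd : ∀ v, x.1 < v → k'' v = 0 := fun v hv => by
    rw [hk'']
    simp only
    rw [if_neg (by omega), if_neg (by omega)]
  have hk2 : k'' = k + Pi.single i (- sgn up) + Pi.single j (-δ) := by
    funext v
    have hev := congrFun he v
    simp only [Pi.add_apply, Pi.single_apply] at hev ⊢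
    rcases lt_trichotomy v x.1 with hv | hv | hv
    · rw [kr v hv, hev, rA v hv]
      split_ifs <;> ring
    · subst hv
      rw [kn, hev, nA]
      split_ifs <;> ring
    · rw [kd v hv, h.fit.up v (by rw [R.n]; exact hv), if_neg (by omega), if_neg (by omega)]
      ring
  refine ⟨k'', ⟨?_, ?_⟩, ⟨?_, ?_, ?_, ?_, ?_, ?_⟩, hLL, ?_, ?_⟩
  · rw [hres]
    exact g1.wf.filter _
  · exact g1.m2.mono hsub
  · -- T
    intro v hv
    have hvn : v < x.1 := R.tl v hv
    rw [kr v hvn]
    have : dv (fs z) v = dv (fs (exW x g L kk L' kk' i up)) v := by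
      rw [dv_apply, dv_apply]
      congr 1
      unfold dg
      congr 1
      ext e
      rw [Finset.mem_filter, Finset.mem_filter, hfs]
      constructor
      · rintro ⟨h1, h2⟩
        refine ⟨⟨h1, ?_⟩, h2⟩
        have hf : frB g v = false := (R.t v hvn).1 hv
        rcases Finset.mem_union.1 (g2 h1) with h3 | h3
        · exact h.real hx R e (pad_T (hA ▸ h3) h2 hvn hf)
        · exact h'.real hx R e (pad_T (hB ▸ h3) h2 hvn hf)
      · rintro ⟨⟨h1, _⟩, h2⟩
        exact ⟨h1, h2⟩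
    rw [this]
  · intro v hv _
    rw [R.n] at hv
    rw [kr v hv]
    have h1 := g1.m2.le v
    have h2 := dg_mono hsub v
    rw [dv_apply, dv_apply]
    omega
  · intro v hv hv2
    have e1 := h.fit.off v hv hv2
    have e2 := h'.fit.off v hv hv2
    rw [R.n] at hv
    have h3 := hbet v
    rw [rA v hv, rB v hv, e1, e2] at h3
    rw [kr v hv]
    omega
  · have t1 := h.fit.tok
    have t2 := h'.fit.tok
    rw [R.n] at t1 t2 ⊢
    have h3 := hbet x.1
    rw [nA, nB] at h3
    rw [kn]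
    omega
  · rw [R.n]
    have h1 := h.fit.par
    rw [R.n] at h1
    have h2 : ∑ v ∈ Finset.range (x.1 + 1), k'' v =
        ∑ v ∈ Finset.range (x.1 + 1), k v + (- sgn up) + (-δ) := by
      rw [hk2]
      simp only [Pi.add_apply, Pi.single_apply]
      rw [Finset.sum_add_distrib, Finset.sum_add_distrib, Finset.sum_ite_eq', Finset.sum_ite_eq',
        if_pos (Finset.mem_range.2 (by omega)), if_pos (Finset.mem_range.2 (by omega))]
    rw [h2]
    obtain ⟨c, hc⟩ := h1
    rcases sgn_or up with e | e <;> rcases hδ with rfl | rfl <;> rw [e]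
    · exact ⟨c - 1, by omega⟩
    · exact ⟨c, by omega⟩
    · exact ⟨c, by omega⟩
    · exact ⟨c + 1, by omega⟩
  · intro v hv
    rw [R.n] at hv
    exact kd v hv
  · intro Z hZ hs
    by_contra hc
    push Not at hc
    obtain ⟨a, b, c, d, hd4, rfl⟩ := hZ
    have hsqz : Sq (fs (exW x g L kk L' kk' i up)) a b c d :=
      ⟨hd4.2.1, hd4.2.2.2.2.1, hs (by simp [TFC.sq]), hs (by simp [TFC.sq]), hs (by simp [TFC.sq]),
        hs (by simp [TFC.sq])⟩
    have hsubE : fs (exW x g L kk L' kk' i up) ⊆ fs x.2 := by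
      intro e he
      rcases Finset.mem_union.1 (hLL he) with h3 | h3
      · exact R.e (h.sub h3)
      · exact R.e (h'.sub h3)
    obtain ⟨q, hq, eq⟩ := sqG_full hx (hsqz.mono hsubE)
    have hqF : q ∈ fsq x L L' := by
      unfold fsq
      rw [List.mem_filter, Bool.and_eq_true, Bool.not_eq_true', Bool.not_eq_true']
      refine ⟨hq, ?_, ?_⟩
      · rw [← Bool.not_eq_true, sqIn_iff, eq]; exact hc.1
      · rw [← Bool.not_eq_true, sqIn_iff, eq]; exact hc.2
    have := (good_iff ok _).1 g1.gd q hqF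
    apply this
    rw [eq]
    exact hs.trans hsub
  · refine ⟨j, -δ, by rcases hδ with rfl | rfl <;> simp, ?_, hk2⟩
    rw [Pi.add_apply, Pi.single_apply] at hj ⊢
    rcases lt_or_eq_of_le hjn with hj' | hj'
    · rw [rA j hj', rB j hj'] at hj
      rcases hδ with rfl | rfl <;> split_ifs at hj ⊢ <;> omega
    · subst hj'
      rw [nA, nB] at hj
      rcases hδ with rfl | rfl <;> split_ifs at hj ⊢ <;> omega

end

/-! ### polynomial time -/

/-- half of a number and its parity -/
def half2 (s : ℕ × Bool) : ℕ × Bool := bif s.2 then (s.1 + 1, false) else (s.1, true)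

theorem half2_it (i : ℕ) : half2^[i] (0, false) = (i / 2, decide (i % 2 = 1)) := by
  induction i with
  | zero => rfl
  | succ i ih =>
    rw [Function.iterate_succ_apply', ih]
    rcases Nat.mod_two_eq_zero_or_one i with h | h
    · have h1 : (i + 1) / 2 = i / 2 := by omega
      have h2 : (i + 1) % 2 = 1 := by omega
      simp [half2, h, h1, h2]
    · have h1 : (i + 1) / 2 = i / 2 + 1 := by omega
      have h2 : (i + 1) % 2 = 0 := by omega
      simp [half2, h, h1, h2]

section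
variable {ι : Type} [DEnc ι]

theorem pt_half2 {n : ι → ℕ} (hn : PT n) : PT (fun x => (n x / 2, decide (n x % 2 = 1))) := by
  have hs : PT half2 :=
    PT.cond PT.snd (PT.pair (PT.nsucc PT.fst) (PT.const false)) (PT.pair PT.fst (PT.const true))
  have h := PT.iterateNat (count := n) (init := fun _ => ((0 : ℕ), false)) hn (PT.const _) hs
    ⟨fun x => tsize (n x) + 3 + 1, (hn.size.add (PB.const 3)).add (PB.const 1), by
      intro x i hi
      rw [half2_it]
      have h1 := tsize_bool_le (decide (i % 2 = 1))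
      simp only [tsize_pair, tsize_nat]
      omega⟩
  exact h.congr fun x => half2_it (n x)

theorem pt_div2 {n : ι → ℕ} (hn : PT n) : PT (fun x => n x / 2) := PT.p1 (pt_half2 hn)

theorem pt_even {n : ι → ℕ} (hn : PT n) : PT (fun x => decide (n x % 2 = 0)) := by
  refine (PT.bnot (PT.p2 (pt_half2 hn))).congr fun x => ?_
  rcases Nat.mod_two_eq_zero_or_one (n x) with h | h
  · simp [h]
  · simp [h]

theorem pt_cnt' {k : ι → List ℕ} {v : ι → ℕ} (hk : PT k) (hv : PT v) : PT (fun x => cnt (k x) (v x)) :=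
  PT.length (PT.filter (p := fun z : ι × ℕ => decide (z.2 = v z.1)) hk (PT.neq PT.snd (hv.comp PT.fst)))

theorem pt_frB {g : ι → List ℕ} {v : ι → ℕ} (hg : PT g) (hv : PT v) : PT (fun x => frB (g x) (v x)) :=
  PT.nle (PT.getD hg hv (PT.const 0)) (PT.const 1)

theorem pt_stE {n : ι → ℕ} {st : ι → List ℕ} (hn : PT n) (hs : PT st) : PT (fun x => stE (n x) (st x)) :=
  PT.map (g := fun z : ι × ℕ => ((st z.1).getD z.2 0, n z.1 + 1 + z.2)) (PT.range (PT.length hs))
    (PT.pair (PT.getD (hs.comp PT.fst) PT.snd (PT.const 0)) (PT.nadd (PT.nsucc (hn.comp PT.fst)) PT.snd))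

theorem pt_prE {a t : ι → ℕ} (ha : PT a) (ht : PT t) : PT (fun x => prE (a x) (t x)) := by
  have h1 : PT (fun z : ι × ℕ => a z.1 + 2 * z.2) :=
    PT.nadd (ha.comp PT.fst) (PT.nmul (PT.const 2) PT.snd)
  exact PT.map (g := fun z : ι × ℕ => (a z.1 + 2 * z.2, a z.1 + 2 * z.2 + 1)) (PT.range ht)
    (PT.pair h1 (PT.nsucc h1))

theorem pt_stL {n : ι → ℕ} {g : ι → List ℕ} {L : ι → List Ed} {kk : ι → List ℕ} (hn : PT n) (hg : PT g)
    (hL : PT L) (hk : PT kk) : PT (fun x => stL (n x) (g x) (L x) (kk x)) :=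
  PT.flatMap (g := fun z : ι × ℕ => bif frB (g z.1) z.2 then
    List.replicate (2 - cnt (kk z.1) z.2 - degL (L z.1) z.2) z.2 else []) (PT.range hn)
    (PT.cond (pt_frB (hg.comp PT.fst) PT.snd)
      (PT.replicate (PT.nsub (PT.nsub (PT.const 2) (pt_cnt' (hk.comp PT.fst) PT.snd))
        (pt_degL (hL.comp PT.fst) PT.snd)) PT.snd) (PT.const []))

theorem pt_dmE {n s : ι → ℕ} (hn : PT n) (hs : PT s) : PT (fun x => dmE (n x) (s x)) :=
  PT.cond (pt_even hs)
    (PT.cons (PT.pair hn (PT.nadd (PT.nsucc hn) hs))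
      (pt_prE (PT.nadd (PT.nadd hn (PT.const 2)) hs) (pt_div2 (PT.nsub (PT.nmul (PT.const 2) hn) hs))))
    (pt_prE (PT.nadd (PT.nsucc hn) hs)
      (pt_div2 (PT.nsub (PT.nsucc (PT.nmul (PT.const 2) hn)) hs)))

theorem pt_pad {n : ι → ℕ} {g : ι → List ℕ} {L : ι → List Ed} {kk : ι → List ℕ} (hn : PT n) (hg : PT g)
    (hL : PT L) (hk : PT kk) : PT (fun x => pad (n x) (g x) (L x) (kk x)) :=
  PT.append hL (PT.append (pt_stE hn (pt_stL hn hg hL hk)) (pt_dmE hn (PT.length (pt_stL hn hg hL hk))))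

theorem pt_exW {x : ι → Ins} {g : ι → List ℕ} {L L' : ι → List Ed} {kk kk' : ι → List ℕ} {i : ι → ℕ}
    {up : ι → Bool} (hx : PT x) (hg : PT g) (hL : PT L) (hk : PT kk) (hL' : PT L') (hk' : PT kk') (hi : PT i)
    (hu : PT up) : PT (fun a => exW (x a) (g a) (L a) (kk a) (L' a) (kk' a) (i a) (up a)) := by
  have hF : PT (fun a => fsq (x a) (L a) (L' a)) :=
    PT.filter (p := fun z : ι × Sq4 => !sqIn (L z.1) z.2 && !sqIn (L' z.1) z.2) (pt_sqG hx)
      (PT.band (PT.bnot (pt_sqIn (hL.comp PT.fst) PT.snd)) (PT.bnot (pt_sqIn (hL'.comp PT.fst) PT.snd)))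
  have h := pt_exch hF (pt_pad (PT.p1 hx) hg hL hk) (pt_pad (PT.p1 hx) hg hL' hk') hi hu
  exact PT.filter (p := fun z : ι × Ed => decide (z.2.1 < (x z.1).1) && decide (z.2.2 < (x z.1).1)) h
    (PT.band (PT.nlt PT.snd.p1 ((PT.p1 hx).comp PT.fst)) (PT.nlt PT.snd.p2 ((PT.p1 hx).comp PT.fst)))

end

end Pool.Agent.PF4
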