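import Pool.Agent.PF4.Pc
import Pool.Agent.PF4.LemD
import Pool.Agent.TFC.Unit

/-!
# Pieces of clusters: at most four edges, the vectors used by the digon lemma, the choice rule

`psi P c` is the choice of relaxation of the cluster `c` when `P v` says that the deficit port of `v` is known and the
surplus port of `v` is unknown. `psi_moves`: every additional vector of the relaxed piece falls under one of the three
cases of the digon lemma, with exact vectors from the list `mvs`.
-/

set_option autoImplicit false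

namespace Pool.Agent.PF4

open Finset Pool.Agent.TFC Pool.Agent.Lib.helper60 Pool.Agent.PF4.LD

/-! ### at most four edges -/

theorem card4_k2 {x y : ℕ} {L : Finset ℕ} {z : Finset (Sym2 ℕ)} (hz : z ⊆ (Clu.k2 x y L).edges) (hM : M2 z) :
    #z ≤ 4 := by
  have h : z ⊆ z.filter (fun e => x ∈ e) ∪ z.filter (fun e => y ∈ e) := by
    intro e he
    have h1 := hz he
    simp only [Clu.edges, Finset.mem_union, Finset.mem_image] at h1
    rw [Finset.mem_union, Finset.mem_filter, Finset.mem_filter]
    rcases h1 with ⟨l, _, rfl⟩ | ⟨l, _, rfl⟩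
    · exact Or.inl ⟨he, Sym2.mem_mk_left _ _⟩
    · exact Or.inr ⟨he, Sym2.mem_mk_left _ _⟩
  have h1 := Finset.card_le_card h
  have h2 := Finset.card_union_le (z.filter (fun e => x ∈ e)) (z.filter (fun e => y ∈ e))
  have h3 := hM.le x
  have h4 := hM.le y
  unfold dg at h3 h4
  omega

theorem card4_clu {c : Cl} (h : ClOK c) {z : Finset (Sym2 ℕ)} (hz : z ⊆ fs (clE c)) (hM : M2 z)
    (hG : Good none4 z) : #z ≤ 4 := by
  rw [fs_clE] at hz
  have hv := cluF_valid h
  obtain ⟨b, x, y, L⟩ := c
  cases b with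
  | true => exact card4_k2 hz hM
  | false => exact (R4_card_le hv hz hM hG).trans (by norm_num)

theorem card4_exP {c : Cl} (h : ClOK c) : Card4 (exP c) := fun _ _ hz hM hG => card4_clu h hz hM hG

theorem card4_rxP {c : Cl} (h : ClOK c) (ch : ℕ × ℕ) : Card4 (rxP c ch) := fun _ _ hz hM hG => card4_clu h hz hM hG

/-! ### exact and relaxed pieces -/

theorem pcS_exP (c : Cl) : pcS (exP c) = JS (fs (clE c)) none4 := by
  ext x
  simp [pcS, exP]

theorem pcS_rxP (c : Cl) (ch : ℕ × ℕ) (x : ℕ → ℤ) :
    x ∈ pcS (rxP c ch) ↔ x ∈ pcS (exP c) ∨ ∃ d ∈ digs c ch, x = kvec d := by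
  rw [pcS_exP]
  simp only [pcS, rxP, Set.mem_ofPred_eq, true_and]
  exact or_comm

theorem exP_sub_rxP (c : Cl) (ch : ℕ × ℕ) : pcS (exP c) ⊆ pcS (rxP c ch) :=
  fun _ hx => (pcS_rxP c ch _).2 (Or.inl hx)

/-- a vector of the relaxed piece that is not exact is one of the additional vectors -/
theorem pmem_digs {c : Cl} (h : ClOK c) {ch : ℕ × ℕ} {k : List ℕ} (hk : pmem (rxP c ch) k = true)
    (hk' : pmem (exP c) k = false) : ∃ d ∈ digs c ch, kvec k = kvec d := by
  rcases (pcS_rxP c ch _).1 (pmem_sound hk) with h1 | h1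
  · rw [pmem_complete (card4_exP h) h1] at hk'
    cases hk'
  · exact h1

/-! ### small exact vectors -/

theorem JS_small {E z : Finset (Sym2 ℕ)} (hz : z ⊆ E) (hn : NoLoop z) (h2 : ∀ v, dv z v ≤ 2) (h4 : #z < 4) :
    dv z ∈ JS E none4 := by
  refine ⟨z, hz, ⟨hn, fun v => ?_⟩, Unit_good hn h4, rfl⟩
  have := h2 v
  rw [dv_apply] at this
  exact_mod_cast this

theorem jc_zero (c : Cl) : (0 : ℕ → ℤ) ∈ pcS (exP c) := by
  rw [pcS_exP]
  have h := JS_small (E := fs (clE c)) (z := ∅) (Finset.empty_subset _) (by intro e he; simp at he)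
    (by intro v; rw [Unit_dv0]; simp) (by simp)
  rwa [Unit_dv0] at h

theorem jc_edge {c : Cl} {u v : ℕ} (huv : u ≠ v) (h : s(u, v) ∈ fs (clE c)) : ev u + ev v ∈ pcS (exP c) := by
  rw [pcS_exP]
  have h1 := JS_small (E := fs (clE c)) (z := {s(u, v)}) (Finset.singleton_subset_iff.2 h)
    (by intro e he; rw [Finset.mem_singleton] at he; subst he; simpa using huv)
    (by
      intro w
      rw [Unit_dv1 huv]
      simp only [Pi.add_apply, TFC.ev_apply]
      split_ifs <;> norm_num) (by simp)
  rwa [Unit_dv1 huv] at h1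

theorem jc_path {c : Cl} {u v w : ℕ} (huv : u ≠ v) (hvw : v ≠ w) (huw : u ≠ w) (h : s(u, v) ∈ fs (clE c))
    (h' : s(v, w) ∈ fs (clE c)) : ev u + (2 : ℤ) • ev v + ev w ∈ pcS (exP c) := by
  rw [pcS_exP]
  have hne : s(u, v) ≠ s(v, w) := by
    rw [Ne, Sym2.eq_iff]
    rintro (⟨h1, _⟩ | ⟨h1, _⟩)
    · exact huv h1
    · exact huw h1
  have hd := Unit_dv2 huv hvw hne
  have e : ev u + ev v + (ev v + ev w) = (ev u + (2 : ℤ) • ev v + ev w : ℕ → ℤ) := by
    rw [two_smul]; abel
  have h1 := JS_small (E := fs (clE c)) (z := {s(u, v), s(v, w)})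
    (by
      intro e he
      rw [Finset.mem_insert, Finset.mem_singleton] at he
      rcases he with rfl | rfl
      · exact h
      · exact h')
    (by
      intro e he
      rw [Finset.mem_insert, Finset.mem_singleton] at he
      rcases he with rfl | rfl
      · simpa using huv
      · simpa using hvw)
    (by
      intro t
      rw [hd]
      simp only [Pi.add_apply, TFC.ev_apply]
      split_ifs <;> first | (exfalso; omega) | norm_num)
    (lt_of_le_of_lt Finset.card_le_two (by norm_num))
  rwa [hd, e] at h1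

theorem kv_nil : kvec [] = 0 := by
  funext v
  simp [kvec]

theorem kv_cons (a : ℕ) (k : List ℕ) : kvec (a :: k) = ev a + kvec k := by
  funext v
  simp only [kvec, List.count_cons, Pi.add_apply, TFC.ev_apply]
  by_cases h : a = v
  · subst h
    simp
    ring
  · simp [h, Ne.symm h]

theorem kv_append (k l : List ℕ) : kvec (k ++ l) = kvec k + kvec l := by
  funext v
  simp [kvec, List.count_append]

theorem kv_flat2 (L : List ℕ) : kvec (L.flatMap fun i => [i, i]) = (2 : ℤ) • kvec L := by
  induction L with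
  | nil => simp [kv_nil]
  | cons a L ih =>
    rw [List.flatMap_cons, kv_append, ih, kv_cons, kv_cons, kv_cons, kv_nil]
    module

/-! ### the choice rule -/

/-- the vertices of the cluster -/
def clV (c : Cl) : List ℕ := bif c.1 then c.2.1 :: c.2.2.1 :: c.2.2.2 else c.2.2.2

/-- the choice of the relaxation; `P v`: the deficit port of `v` is known, the surplus port is unknown -/
def psi (P : ℕ → Bool) (c : Cl) : ℕ × ℕ :=
  bif c.1 then
    (bif P c.2.2.1 then (c.2.1, c.2.2.2.headD 0)
     else bif P c.2.1 then (c.2.2.1, c.2.2.2.headD 0)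
     else (c.2.1, (c.2.2.2.filter P).headD (c.2.2.2.headD 0)))
  else bif c.2.2.2.all P then (0, 0) else (1, 0)

/-- remove `a` once -/
def delK (a : ℕ) (k : List ℕ) : List ℕ :=
  (k.filter fun v => !decide (v = a)) ++ (k.filter fun v => decide (v = a)).tail

/-- the exact vectors needed to replace the additional vector `d` -/
def mvs (c : Cl) (d : List ℕ) : List (List ℕ) :=
  ((clV c).flatMap fun a => (clV c).flatMap fun b =>
    [b :: delK a d, delK b (delK a d), delK b (delK a (delK b (delK a d)))]).filter fun k => pmem (exP c) k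

theorem headD_memK {L : List ℕ} (h : L ≠ []) (a : ℕ) : L.headD a ∈ L := by
  cases L with
  | nil => exact absurd rfl h
  | cons b L => simp

theorem psi_ok (P : ℕ → Bool) {c : Cl} (h : ClOK c) : ChOK c (psi P c) := by
  obtain ⟨b, x, y, L⟩ := c
  intro hb
  simp only at hb
  subst hb
  obtain ⟨-, -, -, h4⟩ := h.k2 rfl
  simp only at h4
  have hne : L ≠ [] := by rintro rfl; simp at h4
  have h0 := headD_memK hne 0
  simp only [psi, cond_true]
  cases hy : P y with
  | true => exact ⟨Or.inl rfl, h0⟩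
  | false =>
    cases hx : P x with
    | true => exact ⟨Or.inr rfl, h0⟩
    | false =>
      refine ⟨Or.inl rfl, ?_⟩
      show (L.filter P).headD (L.headD 0) ∈ L
      by_cases hf : L.filter P = []
      · rw [hf]
        exact h0
      · exact List.mem_of_mem_filter (headD_memK hf _)

/-- edges of `K2` -/
theorem k2_edge {x y w l : ℕ} {L : List ℕ} (hw : w = x ∨ w = y) (hl : l ∈ L) :
    s(w, l) ∈ fs (clE (true, x, y, L)) := by
  rw [mem_fs]
  rcases hw with rfl | rfl
  · exact ⟨(w, l), by simp [clE, hl], rfl⟩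
  · exact ⟨(w, l), by simp [clE, hl], rfl⟩

/-- edges of `K4` -/
theorem k4_edge {x y u v : ℕ} {L : List ℕ} (hu : u ∈ L) (hv : v ∈ L) (h : u ≠ v) :
    s(u, v) ∈ fs (clE (false, x, y, L)) := by
  rw [fs_clE]
  show s(u, v) ∈ (Clu.k4 L.toFinset).edges
  rw [R4_mem_edges]
  exact ⟨by simpa using hu, by simpa using hv, h⟩

/-- the three cases of the digon lemma -/
inductive Mv (P : ℕ → Bool) (c : Cl) (d : List ℕ) : Prop
  | plus (a b : ℕ) (ha : a ∈ clV c) (hb : b ∈ clV c) (hab : a ≠ b) (hP : P b = true) (k : List ℕ) (hk : k ∈ mvs c d)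
      (e : kvec k = kvec d - ev a + ev b) : Mv P c d
  | digon (a b : ℕ) (ha : a ∈ clV c) (hb : b ∈ clV c) (hab : a ≠ b) (hPa : P a = false) (hPb : P b = false)
      (k k' : List ℕ) (hk : k ∈ mvs c d) (hk' : k' ∈ mvs c d) (e : kvec k = kvec d - ev a - ev b)
      (e' : kvec k' = kvec d - (2 : ℤ) • ev a - (2 : ℤ) • ev b) : Mv P c d
  | sq (b : ℕ) (hb : b ∈ clV c) (hP : P b = false) (k : List ℕ) (hk : k ∈ mvs c d)
      (e : kvec k = kvec d - (2 : ℤ) • ev b) : Mv P c d

theorem count_delK (a v : ℕ) (k : List ℕ) : (delK a k).count v = k.count v - if v = a then 1 else 0 := by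
  unfold delK
  rw [List.count_append]
  by_cases hv : v = a
  · subst hv
    rw [if_pos rfl, List.count_eq_zero_of_not_mem (by simp), zero_add]
    have h1 : (k.filter fun u => decide (u = v)) = List.replicate (k.count v) v := by
      rw [List.eq_replicate_iff]
      refine ⟨?_, ?_⟩
      · rw [List.count_eq_length_filter]
        congr 1
      · intro u hu
        simpa using (List.mem_filter.1 hu).2
    rw [h1, List.tail_replicate, List.count_replicate_self]
  · rw [if_neg hv, Nat.sub_zero]
    have h1 : (k.filter fun u => !decide (u = a)).count v = k.count v := by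
      rw [List.count_filter (by simpa using hv)]
    have h2 : ((k.filter fun u => decide (u = a)).tail).count v = 0 := by
      refine List.count_eq_zero_of_not_mem fun h => ?_
      have := (List.mem_filter.1 (List.mem_of_mem_tail h)).2
      exact hv (by simpa using this)
    rw [h1, h2, add_zero]

theorem kv_del {a : ℕ} {k : List ℕ} (h : a ∈ k) : kvec (delK a k) = kvec k - ev a := by
  funext v
  simp only [kvec, Pi.sub_apply, TFC.ev_apply, count_delK]
  by_cases hv : v = a
  · subst hv
    have := List.count_pos_iff.2 h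
    simp only [if_true]
    omega
  · simp [hv]

theorem mem_delK {a b : ℕ} {k : List ℕ} (h : b ∈ k) (hab : b ≠ a ∨ 2 ≤ k.count b) : b ∈ delK a k := by
  rw [← List.count_pos_iff, count_delK]
  have := List.count_pos_iff.2 h
  split_ifs with h1
  · rcases hab with h2 | h2
    · exact absurd h1 h2
    · omega
  · omega

theorem mem_mvs {c : Cl} (h : ClOK c) {d k : List ℕ} {a b : ℕ} (ha : a ∈ clV c) (hb : b ∈ clV c)
    (hk : k = b :: delK a d ∨ k = delK b (delK a d) ∨ k = delK b (delK a (delK b (delK a d))))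
    (hm : kvec k ∈ pcS (exP c)) : k ∈ mvs c d := by
  unfold mvs
  rw [List.mem_filter]
  refine ⟨List.mem_flatMap.2 ⟨a, ha, List.mem_flatMap.2 ⟨b, hb, ?_⟩⟩, pmem_complete (card4_exP h) hm⟩
  simp only [List.mem_cons, List.not_mem_nil, or_false]
  exact hk

theorem mvs_sound {c : Cl} {d k : List ℕ} (hk : k ∈ mvs c d) : kvec k ∈ pcS (exP c) := by
  unfold mvs at hk
  exact pmem_sound (List.mem_filter.1 hk).2

theorem Mv.mkPlus {P : ℕ → Bool} {c : Cl} (h : ClOK c) {d : List ℕ} {a b : ℕ} (ha : a ∈ clV c) (hb : b ∈ clV c)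
    (hab : a ≠ b) (hP : P b = true) (had : a ∈ d) (hm : kvec d - ev a + ev b ∈ pcS (exP c)) : Mv P c d := by
  have e : kvec (b :: delK a d) = kvec d - ev a + ev b := by
    rw [kv_cons, kv_del had]
    abel
  exact Mv.plus a b ha hb hab hP _ (mem_mvs h ha hb (Or.inl rfl) (by rw [e]; exact hm)) e

theorem Mv.mkDigon {P : ℕ → Bool} {c : Cl} (h : ClOK c) {d : List ℕ} {a b : ℕ} (ha : a ∈ clV c) (hb : b ∈ clV c)
    (hab : a ≠ b) (hPa : P a = false) (hPb : P b = false) (had : d = [a, a, b, b])
    (he : s(a, b) ∈ fs (clE c)) : Mv P c d := by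
  subst had
  have ve : kvec [a, a, b, b] = (2 : ℤ) • ev a + (2 : ℤ) • ev b := by
    rw [kv_cons, kv_cons, kv_cons, kv_cons, kv_nil]
    module
  have m1 : b ∈ delK a [a, a, b, b] := mem_delK (by simp) (Or.inl hab.symm)
  have e1 : kvec (delK b (delK a [a, a, b, b])) = kvec [a, a, b, b] - ev a - ev b := by
    rw [kv_del m1, kv_del (by simp)]
  have m2 : a ∈ delK b (delK a [a, a, b, b]) := by
    refine mem_delK (mem_delK (by simp) (Or.inr ?_)) (Or.inl hab)
    simp [hab.symm]
  have m3 : b ∈ delK a (delK b (delK a [a, a, b, b])) := by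
    refine mem_delK (mem_delK m1 (Or.inr ?_)) (Or.inl hab.symm)
    rw [count_delK, if_neg hab.symm]
    simp [hab]
  have e2 : kvec (delK b (delK a (delK b (delK a [a, a, b, b])))) =
      kvec [a, a, b, b] - (2 : ℤ) • ev a - (2 : ℤ) • ev b := by
    rw [kv_del m3, kv_del m2, e1]
    module
  refine Mv.digon a b ha hb hab hPa hPb _ _ (mem_mvs h ha hb (Or.inr (Or.inl rfl)) ?_)
    (mem_mvs h ha hb (Or.inr (Or.inr rfl)) ?_) e1 e2
  · rw [e1, ve]
    have := jc_edge hab he
    convert this using 1
    module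
  · rw [e2, ve]
    have := jc_zero c
    convert this using 1
    module

theorem kv4 (a b : ℕ) : kvec [a, a, b, b] = (2 : ℤ) • ev a + (2 : ℤ) • ev b := by
  rw [kv_cons, kv_cons, kv_cons, kv_cons, kv_nil]
  module

theorem kv2 (a : ℕ) : kvec [a, a] = (2 : ℤ) • ev a := by
  rw [kv_cons, kv_cons, kv_nil]
  module

/-- the full square of `K4` minus twice a corner -/
theorem k4_tri {x y b : ℕ} {L : List ℕ} (h : ClOK (false, x, y, L)) (hb : b ∈ L) :
    kvec (L.flatMap fun i => [i, i]) - (2 : ℤ) • ev b ∈ pcS (exP (false, x, y, L)) := by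
  have hn := h.nd
  have h4 := h.k4 rfl
  simp only at hn h4
  have hc : #L.toFinset = 4 := by rw [List.toFinset_card_of_nodup hn, h4]
  have hv : kvec (L.flatMap fun i => [i, i]) = R4_tx L.toFinset := by
    rw [kv_flat2]
    funext v
    simp only [Pi.smul_apply, kvec, R4_tx, List.mem_toFinset, smul_eq_mul]
    by_cases hv : v ∈ L
    · rw [List.count_eq_one_of_mem hn hv, if_pos hv]
      norm_num
    · rw [List.count_eq_zero_of_not_mem hv, if_neg hv]
      norm_num
  have h5 := R4_JS hc (i := b) (j := b) (by simpa using hb) (by simpa using hb)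
  have e5 : R4_tx L.toFinset - ev b - ev b = R4_tx L.toFinset - (2 : ℤ) • ev b := by module
  rw [e5] at h5
  rw [pcS_exP, fs_clE, hv]
  exact h5

/-- some vertex of a list of 4 outside two given ones -/
theorem exists_third {L : List ℕ} (hn : L.Nodup) (h4 : L.length = 4) (a b : ℕ) : ∃ c ∈ L, c ≠ a ∧ c ≠ b := by
  by_contra hcon
  push Not at hcon
  have h1 : L.toFinset ⊆ {a, b} := by
    intro c hc
    rw [Finset.mem_insert, Finset.mem_singleton]
    by_cases h : c = a
    · exact Or.inl h
    · exact Or.inr (hcon c (by simpa using hc) h)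
  have h2 := (Finset.card_le_card h1).trans Finset.card_le_two
  rw [List.toFinset_card_of_nodup hn, h4] at h2
  omega

/-- **Every additional vector falls under one of the three cases of the digon lemma** -/
theorem psi_moves (P : ℕ → Bool) {c : Cl} (h : ClOK c) {d : List ℕ} (hd : d ∈ digs c (psi P c)) : Mv P c d := by
  obtain ⟨b, x, y, L⟩ := c
  cases b with
  | true =>
    obtain ⟨hxy, hxL, hyL, h2⟩ := h.k2 rfl
    simp only at hxy hxL hyL h2
    simp only [digs, cond_true, List.mem_map, List.mem_filter, Bool.not_eq_true', decide_eq_false_iff_not] at hd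
    obtain ⟨l, ⟨hl, hlc⟩, rfl⟩ := hd
    have hlx : l ≠ x := fun e => hxL (e ▸ hl)
    have hly : l ≠ y := fun e => hyL (e ▸ hl)
    have mx : x ∈ clV (true, x, y, L) := by simp [clV]
    have my : y ∈ clV (true, x, y, L) := by simp [clV]
    have mL : ∀ m ∈ L, m ∈ clV (true, x, y, L) := fun m hm => by simp [clV, hm]
    -- the path `w l w'`
    have hpath : ∀ w w' : ℕ, (w = x ∨ w = y) → (w' = x ∨ w' = y) → w ≠ w' → l ≠ w → l ≠ w' → P w' = true →
        w ∈ clV (true, x, y, L) → w' ∈ clV (true, x, y, L) → Mv P (true, x, y, L) [w, w, l, l] := by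
      intro w w' hw hw' hww hlw hlw' hP m1 m2
      refine Mv.mkPlus h m1 m2 hww hP (by simp) ?_
      rw [kv4]
      have := jc_path (c := (true, x, y, L)) (u := w) (v := l) (w := w') hlw.symm hlw' hww (k2_edge hw hl)
        (by rw [Sym2.eq_swap]; exact k2_edge hw' hl)
      convert this using 1
      module
    cases hy : P y with
    | true =>
      have e : psi P (true, x, y, L) = (x, L.headD 0) := by simp [psi, hy]
      rw [e]
      exact hpath x y (Or.inl rfl) (Or.inr rfl) hxy hlx hly hy mx my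
    | false =>
      cases hx : P x with
      | true =>
        have e : psi P (true, x, y, L) = (y, L.headD 0) := by simp [psi, hy, hx]
        rw [e]
        exact hpath y x (Or.inr rfl) (Or.inl rfl) hxy.symm hly hlx hx my mx
      | false =>
        have e : psi P (true, x, y, L) = (x, (L.filter P).headD (L.headD 0)) := by simp [psi, hy, hx]
        rw [e] at hlc ⊢
        simp only at hlc ⊢
        by_cases hf : L.filter P = []
        · -- no leaf is `PLUS`
          have hPl : P l = false := by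
            by_contra hh
            rw [Bool.not_eq_false] at hh
            have : l ∈ L.filter P := List.mem_filter.2 ⟨hl, hh⟩
            rw [hf] at this
            simp at this
          exact Mv.mkDigon h mx (mL l hl) hlx.symm hx hPl rfl (k2_edge (Or.inl rfl) hl)
        · have hm := headD_memK hf (L.headD 0)
          set m := (L.filter P).headD (L.headD 0) with hm'
          rw [List.mem_filter] at hm
          have hmx : m ≠ x := fun e => hxL (e ▸ hm.1)
          refine Mv.mkPlus h (mL l hl) (mL m hm.1) hlc hm.2 (by simp) ?_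
          rw [kv4]
          have := jc_path (c := (true, x, y, L)) (u := l) (v := x) (w := m) hlx hmx.symm hlc
            (by rw [Sym2.eq_swap]; exact k2_edge (Or.inl rfl) hl) (k2_edge (Or.inl rfl) hm.1)
          convert this using 1
          module
  | false =>
    have hn := h.nd
    have h4 := h.k4 rfl
    simp only at hn h4
    have mL : ∀ m ∈ L, m ∈ clV (false, x, y, L) := fun m hm => by simpa [clV] using hm
    cases hall : L.all P with
    | true =>
      have e : psi P (false, x, y, L) = (0, 0) := by simp [psi, hall]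
      have hP : ∀ v ∈ L, P v = true := List.all_eq_true.1 hall
      rw [e] at hd
      simp only [digs, cond_false, decide_true, cond_true, List.mem_append, List.mem_map] at hd
      rcases hd with ⟨i, hi, rfl⟩ | ⟨⟨i, j⟩, hij, rfl⟩
      · obtain ⟨b, hb, hbi, -⟩ := exists_third hn h4 i i
        refine Mv.mkPlus h (mL i hi) (mL b hb) hbi.symm (hP b hb) (by simp) ?_
        rw [kv2]
        have := jc_edge (c := (false, x, y, L)) hbi.symm (k4_edge hi hb hbi.symm)
        convert this using 1
        module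
      · simp only [prs, List.mem_filter, mem_prd, decide_eq_true_eq] at hij
        obtain ⟨⟨hi, hj⟩, hlt⟩ := hij
        obtain ⟨b, hb, hbi, hbj⟩ := exists_third hn h4 i j
        refine Mv.mkPlus h (mL i hi) (mL b hb) hbi.symm (hP b hb) (by simp) ?_
        rw [kv4]
        have := jc_path (c := (false, x, y, L)) (u := i) (v := j) (w := b) (ne_of_lt hlt) hbj.symm hbi.symm
          (k4_edge hi hj (ne_of_lt hlt)) (k4_edge hj hb hbj.symm)
        convert this using 1
        module
    | false =>
      have e : psi P (false, x, y, L) = (1, 0) := by simp [psi, hall]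
      rw [e] at hd
      simp only [digs, cond_false, one_ne_zero, decide_false, List.mem_singleton] at hd
      subst hd
      obtain ⟨b, hb, hPb⟩ := List.all_eq_false.1 hall
      have hPb' : P b = false := by simpa using hPb
      have hm := k4_tri h hb
      have hbd : b ∈ (L.flatMap fun i => [i, i]) := List.mem_flatMap.2 ⟨b, hb, by simp⟩
      have e1 : kvec (delK b (delK b (L.flatMap fun i => [i, i]))) =
          kvec (L.flatMap fun i => [i, i]) - (2 : ℤ) • ev b := by
        have hc : 2 ≤ (L.flatMap fun i => [i, i]).count b := by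
          have h1 := congrFun (kv_flat2 L) b
          simp only [kvec, Pi.smul_apply, smul_eq_mul] at h1
          rw [List.count_eq_one_of_mem hn hb] at h1
          have : ((L.flatMap fun i => [i, i]).count b : ℤ) = 2 := by simpa using h1
          have h2 : (L.flatMap fun i => [i, i]).count b = 2 := by exact_mod_cast this
          omega
        rw [kv_del (mem_delK hbd (Or.inr hc)), kv_del hbd]
        module
      exact Mv.sq b (mL b hb) hPb' _ (mem_mvs h (mL b hb) (mL b hb) (Or.inr (Or.inl rfl)) (by rw [e1]; exact hm)) e1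

/-- **The digon lemma for the choice rule** -/
theorem psi_lemD {I : ℕ → Prop} {H : ℕ → (ℕ → ℤ) → Prop} {o : ℕ → ℤ} {t k : ℕ} {Fm Fp : ℕ → Prop}
    (F : Facts I H o t k Fm Fp) {P : ℕ → Bool} (hP : ∀ v, P v = true ↔ Fm v ∧ ¬ Fp v) {c : Cl} (h : ClOK c)
    (hI : ∀ v ∈ clV c, I v ∧ v ≠ t) {d : List ℕ} (hd : d ∈ digs c (psi P c))
    (hk : ∀ m ∈ mvs c d, H k (o - kvec d + kvec m)) : ∃ z, Gv o t Fm Fp z ∧ H (k + 3) z := by
  have hP0 : ∀ v, P v = false → Fm v → Fp v := by
    intro v hv hm
    by_contra hp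
    rw [(hP v).2 ⟨hm, hp⟩] at hv
    cases hv
  rcases psi_moves P h hd with ⟨a, b, ha, hb, hab, hPb, m, hm, e⟩ |
    ⟨a, b, ha, hb, hab, hPa, hPb, m, m', hm, hm', e, e'⟩ | ⟨b, hb, hPb, m, hm, e⟩
  · have h1 := hk m hm
    rw [e] at h1
    have e2 : o - kvec d + (kvec d - ev a + ev b) = o - ev a + ev b := by abel
    rw [e2] at h1
    exact lemD_plus F ((hP b).1 hPb).1 ((hP b).1 hPb).2 (hI a ha).1 (hI a ha).2 hab h1
  · have h1 := hk m hm
    have h2 := hk m' hm'
    rw [e] at h1
    rw [e'] at h2
    have e2 : o - kvec d + (kvec d - ev a - ev b) = o - ev a - ev b := by abel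
    have e3 : o - kvec d + (kvec d - (2 : ℤ) • ev a - (2 : ℤ) • ev b) = o - (2 : ℤ) • ev a - (2 : ℤ) • ev b := by
      abel
    rw [e2] at h1
    rw [e3] at h2
    exact lemD_digon F (hI a ha).1 (hI b hb).1 (hI a ha).2 (hI b hb).2 hab (hP0 a hPa) (hP0 b hPb) h1 h2
  · have h1 := hk m hm
    rw [e] at h1
    have e2 : o - kvec d + (kvec d - (2 : ℤ) • ev b) = o - (2 : ℤ) • ev b := by abel
    rw [e2] at h1
    exact lemD_sq F (hI b hb).2 (hP0 b hPb) h1

/-! ### polynomial time -/

section pt

variable {ι : Type} [DEnc ι]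

theorem pt_clV {c : ι → Cl} (hc : PT c) : PT (fun x => clV (c x)) := by
  have hL := PT.p2 (PT.p2 (PT.p2 hc))
  have hx := PT.p1 (PT.p2 hc)
  have hy := PT.p1 (PT.p2 (PT.p2 hc))
  unfold clV
  exact PT.cond (PT.p1 hc) (PT.cons hx (PT.cons hy hL)) hL

theorem pt_delK {a : ι → ℕ} {k : ι → List ℕ} (ha : PT a) (hk : PT k) : PT (fun x => delK (a x) (k x)) := by
  unfold delK
  exact PT.append
    (PT.filter hk (p := fun y : ι × ℕ => !decide (y.2 = a y.1)) (PT.bnot (PT.neq PT.snd (ha.comp PT.fst))))
    (PT.tail (PT.filter hk (p := fun y : ι × ℕ => decide (y.2 = a y.1)) (PT.neq PT.snd (ha.comp PT.fst))))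

theorem pt_mvs {c : ι → Cl} {d : ι → List ℕ} (hc : PT c) (hd : PT d) : PT (fun x => mvs (c x) (d x)) := by
  have hV := pt_clV hc
  unfold mvs
  refine PT.filter (p := fun y : ι × List ℕ => pmem (exP (c y.1)) y.2) ?_
    (pt_pmem (pt_exP (hc.comp PT.fst)) PT.snd)
  refine PT.flatMap hV (g := fun y : ι × ℕ => (clV (c y.1)).flatMap fun b =>
    [b :: delK y.2 (d y.1), delK b (delK y.2 (d y.1)), delK b (delK y.2 (delK b (delK y.2 (d y.1))))]) ?_
  refine PT.flatMap (hV.comp PT.fst) (g := fun z : (ι × ℕ) × ℕ =>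
    [z.2 :: delK z.1.2 (d z.1.1), delK z.2 (delK z.1.2 (d z.1.1)),
      delK z.2 (delK z.1.2 (delK z.2 (delK z.1.2 (d z.1.1))))]) ?_
  have h1 : PT (fun z : (ι × ℕ) × ℕ => delK z.1.2 (d z.1.1)) := pt_delK PT.fst.p2 (hd.comp PT.fst.p1)
  have h2 : PT (fun z : (ι × ℕ) × ℕ => delK z.2 (delK z.1.2 (d z.1.1))) := pt_delK PT.snd h1
  have h3 : PT (fun z : (ι × ℕ) × ℕ => delK z.1.2 (delK z.2 (delK z.1.2 (d z.1.1)))) := pt_delK PT.fst.p2 h2
  exact PT.cons (PT.cons PT.snd h1) (PT.cons h2 (PT.cons (pt_delK PT.snd h3) (PT.const [])))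

theorem pt_psi {P : ι × ℕ → Bool} {c : ι → Cl} (hP : PT P) (hc : PT c) :
    PT (fun x => psi (fun v => P (x, v)) (c x)) := by
  have hL := PT.p2 (PT.p2 (PT.p2 hc))
  have hx := PT.p1 (PT.p2 hc)
  have hy := PT.p1 (PT.p2 (PT.p2 hc))
  have h0 := PT.headD hL (PT.const 0)
  unfold psi
  exact PT.cond (PT.p1 hc)
    (PT.cond (hP.comp (PT.pair PT.id hy)) (PT.pair hx h0)
      (PT.cond (hP.comp (PT.pair PT.id hx)) (PT.pair hy h0) (PT.pair hx (PT.headD (PT.filter hL hP) h0))))
    (PT.cond (PT.all hL hP) (PT.const (0, 0)) (PT.const (1, 0)))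

end pt

end Pool.Agent.PF4
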