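import Pool.Agent.TFC.Mink

/-!
Jump sets of vectors on `ℕ`: sums of units, and the cut at 2.
-/

set_option autoImplicit false

namespace Pool.Agent.PF4

open Finset Pool.Agent.TFC
open scoped Pointwise

/-- the part of a jump set below 2 is a jump set -/
theorem jump_box {V : Type*} [DecidableEq V] {J : Set (V → ℤ)} (hJ : Jump J) :
    Jump {x | x ∈ J ∧ ∀ v, x v ≤ 2} := by
  rintro x ⟨hx, hx2⟩ y ⟨hy, hy2⟩ i ε hε hpos
  obtain ⟨j, δ, hδ, hpos2, hmem⟩ := hJ x hx y hy i ε hε hpos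
  refine ⟨j, δ, hδ, hpos2, hmem, ?_⟩
  intro v
  have h1 : (x + Pi.single i ε : V → ℤ) v ≤ 2 := by
    rw [Pi.add_apply, Pi.single_apply]
    split_ifs with h
    · subst h
      have := hx2 v
      have := hy2 v
      rcases hε with rfl | rfl <;> omega
    · have := hx2 v
      omega
  have h2 : (x + Pi.single i ε + Pi.single j δ : V → ℤ) v =
      (x + Pi.single i ε : V → ℤ) v + (Pi.single j δ : V → ℤ) v := rfl
  rw [h2, Pi.single_apply (i := j)]
  split_ifs with h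
  · subst h
    have := hy2 v
    rcases hδ with rfl | rfl <;> omega
  · omega

/-- restriction to the numbers below `N` -/
def resN (N : ℕ) (x : ℕ → ℤ) : Fin N → ℤ := fun v => x v

theorem resN_single {N : ℕ} (i : Fin N) (ε : ℤ) : resN N (Pi.single (i : ℕ) ε) = Pi.single i ε := by
  funext v
  simp only [resN, Pi.single_apply, Fin.ext_iff]

theorem resN_add {N : ℕ} (x y : ℕ → ℤ) : resN N (x + y) = resN N x + resN N y := rfl

/-- all vectors of `J` vanish from `N` on -/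
def Supp (N : ℕ) (J : Set (ℕ → ℤ)) : Prop := ∀ x ∈ J, ∀ v, N ≤ v → x v = 0

theorem jump_res {N : ℕ} {J : Set (ℕ → ℤ)} (hs : Supp N J) (hJ : Jump J) : Jump (resN N '' J) := by
  rintro _ ⟨x, hx, rfl⟩ _ ⟨y, hy, rfl⟩ i ε hε hpos
  obtain ⟨j, δ, hδ, hpos2, hmem⟩ := hJ x hx y hy i ε hε hpos
  have hj : j < N := by
    by_contra h
    rw [not_lt] at h
    rw [Pi.add_apply, hs y hy j h, hs x hx j h, Pi.single_eq_of_ne (by have := i.2; omega)] at hpos2
    simp at hpos2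
  refine ⟨⟨j, hj⟩, δ, hδ, ?_, ⟨_, hmem, ?_⟩⟩
  · rw [← resN_single, ← resN_add]
    exact hpos2
  · rw [resN_add, resN_add, resN_single]
    congr 1
    exact resN_single (⟨j, hj⟩ : Fin N) δ

theorem jump_of_res {N : ℕ} {J : Set (ℕ → ℤ)} (hs : Supp N J) (hJ : Jump (resN N '' J)) : Jump J := by
  intro x hx y hy i ε hε hpos
  have hi : i < N := by
    by_contra h
    rw [not_lt] at h
    rw [hs y hy i h, hs x hx i h] at hpos
    simp at hpos
  obtain ⟨j, δ, hδ, hpos2, z, hz, hz2⟩ := hJ _ ⟨x, hx, rfl⟩ _ ⟨y, hy, rfl⟩ ⟨i, hi⟩ ε hε hpos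
  have e1 := resN_single (⟨i, hi⟩ : Fin N) ε
  have e2 := resN_single j δ
  refine ⟨j, δ, hδ, ?_, ?_⟩
  · rw [← e1, ← resN_add] at hpos2
    exact hpos2
  · have : z = x + Pi.single i ε + Pi.single (j : ℕ) δ := by
      funext v
      by_cases hv : v < N
      · have := congrFun hz2 ⟨v, hv⟩
        rw [← e1, ← e2, ← resN_add, ← resN_add] at this
        exact this
      · rw [not_lt] at hv
        rw [hs z hz v hv, Pi.add_apply, Pi.add_apply, hs x hx v hv,
          Pi.single_eq_of_ne (by omega), Pi.single_eq_of_ne (by have := j.2; omega)]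
        simp
    rw [← this]
    exact hz

theorem Supp.add {N : ℕ} {J₁ J₂ : Set (ℕ → ℤ)} (h₁ : Supp N J₁) (h₂ : Supp N J₂) :
    Supp N (J₁ + J₂) := by
  rintro _ ⟨x, hx, y, hy, rfl⟩ v hv
  show x v + y v = 0
  rw [h₁ x hx v hv, h₂ y hy v hv, add_zero]

theorem Supp.mono {N M : ℕ} {J : Set (ℕ → ℤ)} (h : Supp N J) (hNM : N ≤ M) : Supp M J :=
  fun x hx v hv => h x hx v (hNM.trans hv)

theorem jump_add_nat {N : ℕ} {J₁ J₂ : Set (ℕ → ℤ)} (h₁ : Jump J₁) (h₂ : Jump J₂) (s₁ : Supp N J₁)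
    (s₂ : Supp N J₂) : Jump (J₁ + J₂) := by
  refine jump_of_res (s₁.add s₂) ?_
  have e : resN N '' (J₁ + J₂) = resN N '' J₁ + resN N '' J₂ := by
    ext z
    constructor
    · rintro ⟨_, ⟨x, hx, y, hy, rfl⟩, rfl⟩
      exact ⟨_, ⟨x, hx, rfl⟩, _, ⟨y, hy, rfl⟩, rfl⟩
    · rintro ⟨_, ⟨x, hx, rfl⟩, _, ⟨y, hy, rfl⟩, rfl⟩
      exact ⟨_, ⟨x, hx, y, hy, rfl⟩, rfl⟩
  rw [e]
  exact (jump_res s₁ h₁).add (jump_res s₂ h₂)

theorem supp_Un (S T : Finset ℕ) : ∃ N, Supp N (Un S T) := by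
  refine ⟨(S ∪ T).sup id + 1, ?_⟩
  rintro _ (rfl | ⟨s, hs, t, ht, rfl⟩) v hv
  · rfl
  · have h1 : s ≤ (S ∪ T).sup id := Finset.le_sup (f := id) (Finset.mem_union_left _ hs)
    have h2 : t ≤ (S ∪ T).sup id := Finset.le_sup (f := id) (Finset.mem_union_right _ ht)
    rw [Pi.add_apply, ev, ev, Pi.single_eq_of_ne (by omega), Pi.single_eq_of_ne (by omega)]
    rfl

theorem supp_sumU (us : List (Finset ℕ × Finset ℕ)) : ∃ N, Supp N (sumU us) := by
  induction us with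
  | nil =>
    refine ⟨0, ?_⟩
    rintro x hx v _
    rw [show x = 0 from hx]
    rfl
  | cons u us ih =>
    obtain ⟨N, hN⟩ := ih
    obtain ⟨M, hM⟩ := supp_Un u.1 u.2
    exact ⟨max M N, (hM.mono (le_max_left _ _)).add (hN.mono (le_max_right _ _))⟩

/-- sums of units on `ℕ` are jump sets -/
theorem jump_sumU_nat (us : List (Finset ℕ × Finset ℕ)) : Jump (sumU us) := by
  induction us with
  | nil => exact jump_zero
  | cons u us ih =>
    obtain ⟨N, hN⟩ := supp_sumU us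
    obtain ⟨M, hM⟩ := supp_Un u.1 u.2
    exact jump_add_nat (jump_Un u.1 u.2) ih (hM.mono (le_max_left _ _)) (hN.mono (le_max_right _ _))

/-- sums of units cut at 2 -/
theorem jump_sumU_box (us : List (Finset ℕ × Finset ℕ)) : Jump {x | x ∈ sumU us ∧ ∀ v, x v ≤ 2} :=
  jump_box (jump_sumU_nat us)

end Pool.Agent.PF4
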