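import Pool.Agent.PF4.Pc
import Pool.Agent.PF4.PcJ
import Pool.Agent.PF4.CapD
import Pool.Agent.PF4.GadT

/-!
Pieces: the bridge between the vectors of a list of units (`PV`) and the sums of units cut at 2.
-/

set_option autoImplicit false

namespace Pool.Agent.PF4.Gd

open Finset Pool.Agent.TFC

/-- all entries of the units are below `n` -/
def UB (n : ℕ) (us : List (List ℕ × List ℕ)) : Prop :=
  ∀ u ∈ us, (∀ s ∈ u.1, s < n) ∧ ∀ t ∈ u.2, t < n

theorem pv_sumU {n : ℕ} {us : List (List ℕ × List ℕ)} (h : UB n us) (k : List ℕ) :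
    PV n us k ↔ kvec k ∈ sumU (us.map tf) ∧ ∀ v, kvec k v ≤ 2 := by
  constructor
  · rintro ⟨C, hC, hk⟩
    have e : kvec k = fun v => (use C v : ℤ) := by
      funext v
      rw [kvec, (hk v).1]
    refine ⟨?_, ?_⟩
    · rw [e]; exact ch_sumU hC
    · intro v
      have := (hk v).2
      rw [kvec]
      exact_mod_cast this
  · rintro ⟨h1, h2⟩
    obtain ⟨C, hC, hk⟩ := sumU_ch h h1
    refine ⟨C, hC, fun v => ⟨?_, ?_⟩⟩
    · have := hk v
      rw [kvec] at this
      exact_mod_cast this
    · have := h2 v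
      rw [kvec] at this
      exact_mod_cast this

theorem kvec_nil : kvec [] = 0 := by
  funext v; simp [kvec]

theorem kvec_cons (a : ℕ) (l : List ℕ) : kvec (a :: l) = ev a + kvec l := by
  funext v
  simp only [kvec, List.count_cons, Pi.add_apply, ev, Pi.single_apply, beq_iff_eq]
  by_cases h : a = v
  · subst h; simp; ring
  · rw [if_neg h, if_neg (fun e => h e.symm)]; simp

theorem kvec_append (k l : List ℕ) : kvec (k ++ l) = kvec k + kvec l := by
  funext v
  simp only [kvec, List.count_append, Pi.add_apply]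
  push_cast
  rfl

theorem kvec_nonneg (k : List ℕ) (v : ℕ) : 0 ≤ kvec k v := by
  simp [kvec]

end Pool.Agent.PF4.Gd
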