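import Pool.Agent.PF4.Sum

/-!
The exchange for states (sums of pieces) as a function, pools of states, polynomial time.
-/

set_option autoImplicit false

namespace Pool.Agent.PF4

open Finset Pool.Agent.TFC Pool.Agent.Lib.helper60

section pieces

variable {Pc : Type} (mem : Pc → List ℕ → Bool)

/-- size bound of the states of the walk -/
def Bd (m n : ℕ) : ℕ := n * (16 * m + 18) + 2 * m + 12

/-- the two-step exchange of states -/
def exchS (d : Pc) (P : List Pc) (m : ℕ) (Y X : List (List ℕ)) (i : ℕ) (up : Bool) : List (List ℕ) :=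
  ((gstep (Bd m P.length) (wstp mem d P Y))^[16 * P.length + 1] (X, i, up, false)).1

variable {mem}

theorem tsize_leg {m : ℕ} {d : Pc} {P : List Pc} (hP : ∀ q < P.length, PcOK mem m (P.getD q d))
    {s : List (List ℕ)} (hs : Leg mem d P s) : tsize s ≤ P.length * (16 * m + 18) + 1 := by
  have h : ∀ k ∈ s, tsize k ≤ 16 * m + 17 := by
    intro k hk
    obtain ⟨q, hq, rfl⟩ := List.mem_iff_getElem.1 hk
    have hq' : q < P.length := by rw [← hs.len]; exact hq
    have e : s[q] = s.getD q [] := by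
      rw [List.getD_eq_getElem?_getD, List.getElem?_eq_getElem hq]; rfl
    have h1 := hs.mem q hq'
    rw [← e] at h1
    have h2 := (hP q hq').len _ h1
    have h3 := (hP q hq').le _ h1
    have h4 : ∀ v ∈ s[q], tsize v ≤ 2 * m + 1 := by
      intro v hv
      have := h3 v hv
      rw [tsize_nat]
      omega
    have h5 := tsize_le_of_forall h4
    have h6 : (s[q]).length * (2 * m + 1 + 1) ≤ 8 * (2 * m + 1 + 1) := Nat.mul_le_mul_right _ h2
    omega
  have h7 := tsize_le_of_forall h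
  rw [hs.len] at h7
  exact h7

/-- the states of the walk after `t` steps -/
theorem walk_inv {m : ℕ} {d : Pc} {P : List Pc} (hP : ∀ q < P.length, PcOK mem m (P.getD q d))
    {X Y : List (List ℕ)} (hX : Leg mem d P X) (hY : Leg mem d P Y) {i : ℕ} {up : Bool}
    (hd : 0 < sgn up * (totS Y i - totS X i)) (hi : i ≤ m) (t : ℕ) :
    ∃ (s : List (List ℕ)) (j : ℕ) (b e : Bool), (wstp mem d P Y)^[t] (X, i, up, false) = (s, j, b, e) ∧
      Leg mem d P s ∧ j ≤ m ∧
      ((e = true ∧ ∃ (l : ℕ) (δ : ℤ), (δ = 1 ∨ δ = -1) ∧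
          0 < δ * (totS Y l - (totS X + Pi.single i (sgn up) : ℕ → ℤ) l) ∧
          totS s = totS X + Pi.single i (sgn up) + Pi.single l δ) ∨
        (e = false ∧ SI mem d P Y (totS X + Pi.single i (sgn up)) s j b ∧
          Phi m P.length Y s + 2 * t ≤ Phi m P.length Y X)) := by
  induction t with
  | zero =>
    refine ⟨X, i, up, false, rfl, hX, hi, Or.inr ⟨rfl, ⟨hX, rfl, hd⟩, by simp⟩⟩
  | succ t ih =>
    obtain ⟨s, j, b, e, h1, h2, h3, h4⟩ := ih
    rw [Function.iterate_succ_apply', h1]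
    rcases h4 with ⟨rfl, h4⟩ | ⟨rfl, h4, h5⟩
    · refine ⟨s, j, b, true, ?_, h2, h3, Or.inl ⟨rfl, h4⟩⟩
      unfold wstp
      simp only [cond_true]
    · obtain ⟨s', j', dn, g1, g2, g3, g4, g5⟩ := walk_step hP hY h4
      rw [g1]
      refine ⟨s', j', !dn, stopB Y s' (j', dn), rfl, g2, g4, ?_⟩
      rcases g5 with ⟨g5, g6⟩ | ⟨g5, g6, g7⟩
      · left
        exact ⟨g5, j', sgn dn, sgn_or dn, g6, g3⟩
      · right
        exact ⟨g5, g6, by omega⟩

/-- **the exchange of states** -/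
theorem exchS_spec {m : ℕ} {d : Pc} {P : List Pc} (hP : ∀ q < P.length, PcOK mem m (P.getD q d))
    {X Y : List (List ℕ)} (hX : Leg mem d P X) (hY : Leg mem d P Y) {i : ℕ} {up : Bool}
    (hd : 0 < sgn up * (totS Y i - totS X i)) :
    Leg mem d P (exchS mem d P m Y X i up) ∧
      Two (totS X) (totS Y) (totS (exchS mem d P m Y X i up)) i (sgn up) := by
  have hi : i ≤ m := by
    obtain ⟨hq, ht⟩ := who_spec hY hX hd
    rcases tow_cand ht with h' | h'
    · exact (hP _ hq).le _ (hX.mem _ hq) _ h'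
    · exact (hP _ hq).le _ (hY.mem _ hq) _ h'
  have hg : (gstep (Bd m P.length) (wstp mem d P Y))^[16 * P.length + 1] (X, i, up, false) =
      (wstp mem d P Y)^[16 * P.length + 1] (X, i, up, false) := by
    refine gstep_iter ?_
    intro t _
    obtain ⟨s, j, b, e, h1, h2, h3, _⟩ := walk_inv hP hX hY hd hi t
    rw [h1]
    have h4 := tsize_leg hP h2
    have h5 := tsize_bool_le b
    have h6 := tsize_bool_le e
    simp only [tsize_pair, tsize_nat, Bd]
    omega
  unfold exchS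
  rw [hg]
  obtain ⟨s, j, b, e, h1, h2, h3, h4⟩ := walk_inv hP hX hY hd hi (16 * P.length + 1)
  rw [h1]
  refine ⟨h2, ?_⟩
  rcases h4 with ⟨_, l, δ, g1, g2, g3⟩ | ⟨_, _, h5⟩
  · exact ⟨l, δ, g1, g2, g3⟩
  · have := Phi_le hP hY hX
    omega

variable (mem)

/-! ### pools -/

/-- direction test on totals -/
def towT (x y : List (List ℕ)) (i : ℕ) (up : Bool) : Bool :=
  bif up then decide (cT x i < cT y i) else decide (cT y i < cT x i)

theorem towT_iff (x y : List (List ℕ)) (i : ℕ) (up : Bool) :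
    towT x y i up = true ↔ 0 < sgn up * (totS y i - totS x i) := tow_iff x.flatten y.flatten i up

/-- exchange, if possible -/
def exch1S (d : Pc) (P : List Pc) (m : ℕ) (x y : List (List ℕ)) (i : ℕ) (up : Bool) :
    List (List (List ℕ)) := bif towT x y i up then [exchS mem d P m y x i up] else []

/-- one round of exchanges -/
def rndS (d : Pc) (P : List Pc) (m : ℕ) (V : List ℕ) (Q : List (List (List ℕ))) : List (List (List ℕ)) :=
  Q ++ Q.flatMap fun x => Q.flatMap fun y => V.flatMap fun i =>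
    exch1S mem d P m x y i true ++ exch1S mem d P m x y i false

/-- the pool after `k` rounds -/
def poolS (d : Pc) (P : List Pc) (m : ℕ) (V : List ℕ) (Q : List (List (List ℕ))) (k : ℕ) :
    List (List (List ℕ)) := (rndS mem d P m V)^[k] Q

variable {mem}

theorem mem_exch1S {d : Pc} {P : List Pc} {m : ℕ} {x y z : List (List ℕ)} {i : ℕ} {up : Bool} :
    z ∈ exch1S mem d P m x y i up ↔ 0 < sgn up * (totS y i - totS x i) ∧ z = exchS mem d P m y x i up := by
  unfold exch1S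
  rw [← towT_iff]
  cases towT x y i up with
  | true => simp
  | false => simp

theorem mem_rndS {d : Pc} {P : List Pc} {m : ℕ} {V : List ℕ} {Q : List (List (List ℕ))}
    {z : List (List ℕ)} :
    z ∈ rndS mem d P m V Q ↔ z ∈ Q ∨ ∃ x ∈ Q, ∃ y ∈ Q, ∃ i ∈ V, ∃ up, z ∈ exch1S mem d P m x y i up := by
  simp only [rndS, List.mem_append, List.mem_flatMap]
  refine or_congr Iff.rfl ?_
  constructor
  · rintro ⟨x, hx, y, hy, i, hi, h | h⟩
    · exact ⟨x, hx, y, hy, i, hi, true, h⟩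
    · exact ⟨x, hx, y, hy, i, hi, false, h⟩
  · rintro ⟨x, hx, y, hy, i, hi, up, h⟩
    cases up with
    | true => exact ⟨x, hx, y, hy, i, hi, Or.inl h⟩
    | false => exact ⟨x, hx, y, hy, i, hi, Or.inr h⟩

section
variable {m : ℕ} {d : Pc} {P : List Pc} {V : List ℕ} {Q : List (List (List ℕ))}

theorem rndS_leg (hP : ∀ q < P.length, PcOK mem m (P.getD q d)) (hQ : ∀ x ∈ Q, Leg mem d P x) :
    ∀ z ∈ rndS mem d P m V Q, Leg mem d P z := by
  intro z hz
  rcases mem_rndS.1 hz with h | ⟨x, hx, y, hy, i, _, up, h⟩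
  · exact hQ z h
  · obtain ⟨h1, rfl⟩ := mem_exch1S.1 h
    exact (exchS_spec hP (hQ x hx) (hQ y hy) h1).1

theorem poolS_succ (k : ℕ) : poolS mem d P m V Q (k + 1) = rndS mem d P m V (poolS mem d P m V Q k) :=
  Function.iterate_succ_apply' _ _ _

theorem sub_rndS : ∀ z ∈ Q, z ∈ rndS mem d P m V Q := fun _ hz => mem_rndS.2 (Or.inl hz)

theorem poolS_mono {k l : ℕ} (h : k ≤ l) : ∀ z ∈ poolS mem d P m V Q k, z ∈ poolS mem d P m V Q l := by
  induction l, h using Nat.le_induction with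
  | base => exact fun z hz => hz
  | succ l _ ih =>
    intro z hz
    rw [poolS_succ]
    exact sub_rndS z (ih z hz)

theorem poolS_leg (hP : ∀ q < P.length, PcOK mem m (P.getD q d)) (hQ : ∀ x ∈ Q, Leg mem d P x) (k : ℕ) :
    ∀ z ∈ poolS mem d P m V Q k, Leg mem d P z := by
  induction k with
  | zero => exact hQ
  | succ k ih => rw [poolS_succ]; exact rndS_leg hP ih

/-- **the staged exchange property of the pool of states** -/
theorem poolS_jump (hP : ∀ q < P.length, PcOK mem m (P.getD q d)) (hQ : ∀ x ∈ Q, Leg mem d P x) {k : ℕ}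
    {x y : List (List ℕ)} (hx : x ∈ poolS mem d P m V Q k) (hy : y ∈ poolS mem d P m V Q k) {i : ℕ}
    (hi : i ∈ V) {ε : ℤ} (hε : ε = 1 ∨ ε = -1) (h : 0 < ε * (totS y i - totS x i)) :
    ∃ z ∈ poolS mem d P m V Q (k + 1), Two (totS x) (totS y) (totS z) i ε := by
  obtain ⟨up, rfl⟩ := sgn_surj hε
  refine ⟨exchS mem d P m y x i up, ?_, ?_⟩
  · rw [poolS_succ, mem_rndS]
    exact Or.inr ⟨x, hx, y, hy, i, hi, up, mem_exch1S.2 ⟨h, rfl⟩⟩
  · exact (exchS_spec hP (poolS_leg hP hQ k x hx) (poolS_leg hP hQ k y hy) h).2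

end

end pieces

/-! ### polynomial time -/

section
variable {ι Pc : Type} [DEnc ι] [DEnc Pc] {mem : Pc → List ℕ → Bool}

theorem pt_cnt {k : ι → List ℕ} {v : ι → ℕ} (hk : PT k) (hv : PT v) : PT (fun x => cnt (k x) (v x)) :=
  PT.length (PT.filter (p := fun z : ι × ℕ => decide (z.2 = v z.1)) hk (PT.neq PT.snd (hv.comp PT.fst)))

theorem pt_shf {k : ι → List ℕ} {v : ι → ℕ} {up : ι → Bool} (hk : PT k) (hv : PT v) (hu : PT up) :
    PT (fun x => shf (k x) (v x) (up x)) :=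
  PT.cond hu (PT.cons hv hk) (PT.append
    (PT.filter (p := fun z : ι × ℕ => !decide (z.2 = v z.1)) hk (PT.bnot (PT.neq PT.snd (hv.comp PT.fst))))
    (PT.replicate (PT.npred (pt_cnt hk hv)) hv))

theorem pt_tow {k y : ι → List ℕ} {v : ι → ℕ} {up : ι → Bool} (hk : PT k) (hy : PT y) (hv : PT v)
    (hu : PT up) : PT (fun x => tow (k x) (y x) (v x) (up x)) :=
  PT.cond hu (PT.nlt (pt_cnt hk hv) (pt_cnt hy hv)) (PT.nlt (pt_cnt hy hv) (pt_cnt hk hv))

theorem pt_pick (hm : PT (fun x : Pc × List ℕ => mem x.1 x.2)) {p : ι → Pc} {k y : ι → List ℕ} {v : ι → ℕ}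
    {up : ι → Bool} (hp : PT p) (hk : PT k) (hy : PT y) (hv : PT v) (hu : PT up) :
    PT (fun x => pick mem (p x) (k x) (y x) (v x) (up x)) := by
  refine pt_findD (p := fun z : ι × ℕ × Bool => okC mem (p z.1) (k z.1) (y z.1) (v z.1) (up z.1) z.2) ?_ ?_
    (PT.pair hv hu)
  · have k' : PT (fun z : ι × ℕ × Bool => shf (k z.1) (v z.1) (up z.1)) :=
      pt_shf (hk.comp PT.fst) (hv.comp PT.fst) (hu.comp PT.fst)
    exact PT.band (pt_tow k' (hy.comp PT.fst) PT.snd.p1 PT.snd.p2)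
      (hm.comp (PT.pair (hp.comp PT.fst) (pt_shf k' PT.snd.p1 PT.snd.p2)))
  · exact PT.flatMap (g := fun z : ι × ℕ => [(z.2, true), (z.2, false)])
      (PT.append (PT.cons hv hk) hy)
      (PT.cons (PT.pair PT.snd (PT.const true)) (PT.cons (PT.pair PT.snd (PT.const false)) (PT.const [])))

theorem pt_setL {s : ι → List (List ℕ)} {q : ι → ℕ} {k : ι → List ℕ} (hs : PT s) (hq : PT q) (hk : PT k) :
    PT (fun x => setL (s x) (q x) (k x)) :=
  PT.map (g := fun z : ι × ℕ => bif decide (z.2 = q z.1) then k z.1 else (s z.1).getD z.2 [])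
    (PT.range (PT.length hs))
    (PT.cond (PT.neq PT.snd (hq.comp PT.fst)) (hk.comp PT.fst)
      (PT.getD (hs.comp PT.fst) PT.snd (PT.const [])))

theorem pt_cT {s : ι → List (List ℕ)} {v : ι → ℕ} (hs : PT s) (hv : PT v) : PT (fun x => cT (s x) (v x)) :=
  pt_cnt (PT.flatten hs) hv

theorem pt_who {n : ι → ℕ} {Y s : ι → List (List ℕ)} {v : ι → ℕ} {up : ι → Bool} (hn : PT n) (hY : PT Y)
    (hs : PT s) (hv : PT v) (hu : PT up) : PT (fun x => who (n x) (Y x) (s x) (v x) (up x)) :=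
  pt_findD (p := fun z : ι × ℕ => tow ((s z.1).getD z.2 []) ((Y z.1).getD z.2 []) (v z.1) (up z.1))
    (pt_tow (PT.getD (hs.comp PT.fst) PT.snd (PT.const [])) (PT.getD (hY.comp PT.fst) PT.snd (PT.const []))
      (hv.comp PT.fst) (hu.comp PT.fst)) (PT.range hn) (PT.const 0)

theorem pt_stopB {Y s : ι → List (List ℕ)} {c : ι → ℕ × Bool} (hY : PT Y) (hs : PT s) (hc : PT c) :
    PT (fun x => stopB (Y x) (s x) (c x)) :=
  PT.cond (PT.p2 hc) (PT.nle (pt_cT hs (PT.p1 hc)) (pt_cT hY (PT.p1 hc)))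
    (PT.nle (pt_cT hY (PT.p1 hc)) (pt_cT hs (PT.p1 hc)))

theorem pt_wstp (hm : PT (fun x : Pc × List ℕ => mem x.1 x.2)) (d : Pc) {P : ι → List Pc}
    {Y : ι → List (List ℕ)} {w : ι → Wk} (hP : PT P) (hY : PT Y) (hw : PT w) :
    PT (fun x => wstp mem d (P x) (Y x) (w x)) := by
  have s := PT.p1 hw
  have i := PT.p1 (PT.p2 hw)
  have up := PT.p1 (PT.p2 (PT.p2 hw))
  have q := pt_who (PT.length hP) hY s i up
  have k := PT.getD s q (PT.const [])
  have c : PT (fun x => newP mem d (P x) (Y x) (w x).1 (w x).2.1 (w x).2.2.1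
      (who (P x).length (Y x) (w x).1 (w x).2.1 (w x).2.2.1)) :=
    pt_pick hm (PT.getD hP q (PT.const d)) k (PT.getD hY q (PT.const [])) i up
  have s' := pt_setL s q (pt_shf (pt_shf k i up) (PT.p1 c) (PT.p2 c))
  exact PT.cond (PT.p2 (PT.p2 (PT.p2 hw))) hw
    (PT.pair s' (PT.pair (PT.p1 c) (PT.pair (PT.bnot (PT.p2 c)) (pt_stopB hY s' c))))

theorem pt_exchS (hm : PT (fun x : Pc × List ℕ => mem x.1 x.2)) (d : Pc) {P : ι → List Pc} {m : ι → ℕ}
    {Y X : ι → List (List ℕ)} {i : ι → ℕ} {up : ι → Bool} (hP : PT P) (hM : PT m) (hY : PT Y) (hX : PT X)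
    (hi : PT i) (hu : PT up) : PT (fun x => exchS mem d (P x) (m x) (Y x) (X x) (i x) (up x)) := by
  have hn := PT.length hP
  have hB : PT (fun x => Bd (m x) (P x).length) :=
    PT.nadd (PT.nadd (PT.nmul hn (PT.nadd (PT.nmul (PT.const 16) hM) (PT.const 18)))
      (PT.nmul (PT.const 2) hM)) (PT.const 12)
  have h := PT.iterG (step := fun z : ι × Wk => wstp mem d (P z.1) (Y z.1) z.2)
    (PT.nsucc (PT.nmul (PT.const 16) hn)) hB (PT.pair hX (PT.pair hi (PT.pair hu (PT.const false))))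
    (pt_wstp hm d (hP.comp PT.fst) (hY.comp PT.fst) PT.snd)
  exact PT.p1 h

theorem pt_exch1S (hm : PT (fun x : Pc × List ℕ => mem x.1 x.2)) (d : Pc) {P : ι → List Pc} {m : ι → ℕ}
    {x y : ι → List (List ℕ)} {i : ι → ℕ} {up : ι → Bool} (hP : PT P) (hM : PT m) (hx : PT x) (hy : PT y)
    (hi : PT i) (hu : PT up) : PT (fun a => exch1S mem d (P a) (m a) (x a) (y a) (i a) (up a)) :=
  PT.cond (pt_tow (PT.flatten hx) (PT.flatten hy) hi hu)
    (PT.cons (pt_exchS hm d hP hM hy hx hi hu) (PT.const [])) (PT.const [])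

theorem pt_rndS (hm : PT (fun x : Pc × List ℕ => mem x.1 x.2)) (d : Pc) {P : ι → List Pc} {m : ι → ℕ}
    {V : ι → List ℕ} {Q : ι → List (List (List ℕ))} (hP : PT P) (hM : PT m) (hV : PT V) (hQ : PT Q) :
    PT (fun a => rndS mem d (P a) (m a) (V a) (Q a)) := by
  have h3 : PT (fun z : ((ι × List (List ℕ)) × List (List ℕ)) × ℕ =>
      exch1S mem d (P z.1.1.1) (m z.1.1.1) z.1.1.2 z.1.2 z.2 true ++
        exch1S mem d (P z.1.1.1) (m z.1.1.1) z.1.1.2 z.1.2 z.2 false) := by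
    have e0 : PT (fun z : ((ι × List (List ℕ)) × List (List ℕ)) × ℕ => z.1.1.1) :=
      PT.fst.comp (PT.fst.comp PT.fst)
    have e2 : PT (fun z : ((ι × List (List ℕ)) × List (List ℕ)) × ℕ => z.1.1.2) :=
      PT.snd.comp (PT.fst.comp PT.fst)
    have e3 : PT (fun z : ((ι × List (List ℕ)) × List (List ℕ)) × ℕ => z.1.2) := PT.snd.comp PT.fst
    exact PT.append (pt_exch1S hm d (hP.comp e0) (hM.comp e0) e2 e3 PT.snd (PT.const true))
      (pt_exch1S hm d (hP.comp e0) (hM.comp e0) e2 e3 PT.snd (PT.const false))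
  have h2 : PT (fun z : (ι × List (List ℕ)) × List (List ℕ) => (V z.1.1).flatMap fun i =>
      exch1S mem d (P z.1.1) (m z.1.1) z.1.2 z.2 i true ++
        exch1S mem d (P z.1.1) (m z.1.1) z.1.2 z.2 i false) :=
    PT.flatMap (hV.comp (PT.fst.comp PT.fst)) h3
  have h1 : PT (fun z : ι × List (List ℕ) => (Q z.1).flatMap fun y => (V z.1).flatMap fun i =>
      exch1S mem d (P z.1) (m z.1) z.2 y i true ++ exch1S mem d (P z.1) (m z.1) z.2 y i false) :=
    PT.flatMap (hQ.comp PT.fst) h2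
  exact PT.append hQ (PT.flatMap hQ h1)

theorem pt_poolS (hm : PT (fun x : Pc × List ℕ => mem x.1 x.2)) (d : Pc) {P : ι → List Pc} {m : ι → ℕ}
    {V : ι → List ℕ} {Q : ι → List (List (List ℕ))} (hP : PT P) (hM : PT m) (hV : PT V) (hQ : PT Q) (k : ℕ) :
    PT (fun a => poolS mem d (P a) (m a) (V a) (Q a) k) := by
  induction k with
  | zero => exact hQ
  | succ k ih =>
    refine (pt_rndS hm d hP hM hV ih).congr fun a => ?_
    rw [poolS_succ]

end

end Pool.Agent.PF4
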