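import Pool.Agent.PF4.PcA
import Pool.Agent.PF4.PcJ
import Pool.Agent.PF4.GadT
import Pool.Agent.PF4.SumX

/-!
# Pieces: jump sets, the units of the relaxed `K2`, and the pieces of the solver as `PcOK`
-/

set_option autoImplicit false

namespace Pool.Agent.PF4

open Finset Pool.Agent.TFC Pool.Agent.Lib.helper60
open scoped Pointwise

/-! ### sums of units -/

theorem sumU_perm {us vs : List (Finset ℕ × Finset ℕ)} (h : us.Perm vs) : sumU us = sumU vs := by
  induction h with
  | nil => rfl
  | cons u _ ih =>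
    show Un u.1 u.2 + sumU _ = Un u.1 u.2 + sumU _
    rw [ih]
  | swap u v l =>
    show Un v.1 v.2 + (Un u.1 u.2 + sumU l) = Un u.1 u.2 + (Un v.1 v.2 + sumU l)
    exact add_left_comm _ _ _
  | trans _ _ ih1 ih2 => rw [ih1, ih2]

theorem zero_mem_sumU (us : List (Finset ℕ × Finset ℕ)) : (0 : ℕ → ℤ) ∈ sumU us := by
  induction us with
  | nil => rfl
  | cons u us ih =>
    have := Set.add_mem_add (show (0 : ℕ → ℤ) ∈ Un u.1 u.2 from Or.inl rfl) ih
    rwa [add_zero] at this

theorem one_mem_sumU {us : List (Finset ℕ × Finset ℕ)} {u : Finset ℕ × Finset ℕ} (hu : u ∈ us) {x : ℕ → ℤ}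
    (hx : x ∈ Un u.1 u.2) : x ∈ sumU us := by
  induction us with
  | nil => cases hu
  | cons v us ih =>
    rcases List.mem_cons.1 hu with rfl | hu
    · have := Set.add_mem_add hx (zero_mem_sumU us)
      rwa [add_zero] at this
    · have := Set.add_mem_add (show (0 : ℕ → ℤ) ∈ Un v.1 v.2 from Or.inl rfl) (ih hu)
      rwa [zero_add] at this

/-! ### the relaxed `K2` is the sum of its units, cut at 2 -/

theorem rxU_k2 {x y w w' c : ℕ} {L : List ℕ} (hn : L.Nodup) (hw : (w = x ∧ w' = y) ∨ (w = y ∧ w' = x))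
    (hxy : x ≠ y) : sumU ((rxU (true, x, y, L) (w, c)).map Gd.tf) = sumU (CC.k2 w w' c L.toFinset).units := by
  have e : (rxU (true, x, y, L) (w, c)).map Gd.tf = ((L.filter fun l => !decide (l = c)).map fun l =>
      (({l} : Finset ℕ), ({x, y} : Finset ℕ))) ++ [(({w} : Finset ℕ), L.toFinset), (({w'} : Finset ℕ), ({c} : Finset ℕ))] := by
    have e2 : (if w = x then y else x) = w' := by
      rcases hw with ⟨rfl, rfl⟩ | ⟨rfl, rfl⟩
      · simp
      · simp [hxy.symm]
    simp only [rxU, cond_true, List.map_append, List.map_map, List.map_cons, List.map_nil, Gd.tf, e2]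
    congr 1
    refine List.map_congr_left fun l _ => ?_
    simp [Gd.tf]
  have e3 : ({w, w'} : Finset ℕ) = {x, y} := by
    rcases hw with ⟨rfl, rfl⟩ | ⟨rfl, rfl⟩
    · rfl
    · exact Finset.pair_comm _ _
  rw [e, CC.units, e3]
  refine sumU_perm (List.Perm.append_right _ (List.Perm.map _ ?_))
  refine (List.perm_ext_iff_of_nodup (hn.filter _) (Finset.nodup_toList _)).2 fun l => ?_
  simp only [List.mem_filter, Bool.not_eq_true', decide_eq_false_iff_not, Finset.mem_toList, Finset.mem_erase,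
    List.mem_toFinset]
  exact and_comm

theorem JS_le2 {E : Finset (Sym2 ℕ)} {al : ℕ → ℕ → ℕ → ℕ → Prop} {x : ℕ → ℤ} (h : x ∈ JS E al) (v : ℕ) : x v ≤ 2 := by
  obtain ⟨z, _, hz, _, rfl⟩ := h
  rw [dv_apply]
  exact_mod_cast hz.le v

/-- the relaxed piece of `K2(x,y;L)` -/
theorem rxP_k2 {x y : ℕ} {L : List ℕ} (h : ClOK (true, x, y, L)) {ch : ℕ × ℕ} (hc : ChOK (true, x, y, L) ch) :
    pcS (rxP (true, x, y, L) ch) = {z | z ∈ sumU ((rxU (true, x, y, L) ch).map Gd.tf) ∧ ∀ v, z v ≤ 2} := by
  obtain ⟨w, c⟩ := ch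
  obtain ⟨hw, hcL⟩ := hc rfl
  obtain ⟨hxy, hxL, hyL, h2⟩ := h.k2 rfl
  have hn := h.nd
  simp only at hw hcL hxy hxL hyL h2 hn
  obtain ⟨w', hww⟩ : ∃ w', (w = x ∧ w' = y) ∨ (w = y ∧ w' = x) := by
    rcases hw with rfl | rfl
    · exact ⟨y, Or.inl ⟨rfl, rfl⟩⟩
    · exact ⟨x, Or.inr ⟨rfl, rfl⟩⟩
  have hv : (CC.k2 w w' c L.toFinset).Valid := by
    have h2' : 2 ≤ #L.toFinset := by rw [List.toFinset_card_of_nodup hn]; exact h2
    rcases hww with ⟨rfl, rfl⟩ | ⟨rfl, rfl⟩
    · exact ⟨hxy, by simpa using hxL, by simpa using hyL, h2', by simpa using hcL⟩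
    · exact ⟨hxy.symm, by simpa using hyL, by simpa using hxL, h2', by simpa using hcL⟩
  have he : (CC.k2 w w' c L.toFinset).clu.edges = fs (clE (true, x, y, L)) := by
    rw [fs_clE]
    show (Clu.k2 w w' L.toFinset).edges = (Clu.k2 x y L.toFinset).edges
    rcases hww with ⟨rfl, rfl⟩ | ⟨rfl, rfl⟩
    · rfl
    · simp only [Clu.edges]
      exact Finset.union_comm _ _
  rw [rxU_k2 hn hww hxy]
  ext z
  rw [pcS_rxP, pcS_exP, ← he]
  constructor
  · rintro (hz | ⟨d, hd, rfl⟩)
    · exact ⟨JS_subset_units_k2 hv hz, JS_le2 hz⟩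
    · simp only [digs, cond_true, List.mem_map, List.mem_filter, Bool.not_eq_true', decide_eq_false_iff_not] at hd
      obtain ⟨l, ⟨hl, hlc⟩, rfl⟩ := hd
      have hlw : l ≠ w := by
        rintro rfl
        rcases hww with ⟨rfl, _⟩ | ⟨rfl, _⟩
        · exact hxL hl
        · exact hyL hl
      rw [kv4]
      refine ⟨?_, ?_⟩
      · rw [CC.units, sumU_append]
        have h1 : (ev l + ev w : ℕ → ℤ) ∈ sumU (((L.toFinset.erase c).toList.map fun l =>
            (({l} : Finset ℕ), ({w, w'} : Finset ℕ)))) := by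
          refine one_mem_sumU (u := ({l}, {w, w'})) (List.mem_map.2 ⟨l, ?_, rfl⟩)
            (Or.inr ⟨l, Finset.mem_singleton_self _, w, Finset.mem_insert_self _ _, rfl⟩)
          rw [Finset.mem_toList, Finset.mem_erase, List.mem_toFinset]
          exact ⟨hlc, hl⟩
        have h3 : (ev w + ev l : ℕ → ℤ) ∈ sumU [(({w} : Finset ℕ), L.toFinset), (({w'} : Finset ℕ), ({c} : Finset ℕ))] :=
          one_mem_sumU (u := ({w}, L.toFinset)) (by simp)
            (Or.inr ⟨w, Finset.mem_singleton_self _, l, by simpa using hl, rfl⟩)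
        have := Set.add_mem_add h1 h3
        convert this using 1
        funext v
        simp only [Pi.add_apply, Pi.smul_apply, smul_eq_mul]
        ring
      · intro v
        simp only [Pi.add_apply, Pi.smul_apply, smul_eq_mul, TFC.ev_apply]
        split_ifs <;> first | (exfalso; omega) | norm_num
  · rintro ⟨hz, hz2⟩
    rcases units_k2_le hv hz hz2 with h3 | ⟨l, hl, hlc, rfl⟩
    · exact Or.inl h3
    · right
      refine ⟨[w, w, l, l], ?_, ?_⟩
      · simp only [digs, cond_true, List.mem_map, List.mem_filter, Bool.not_eq_true', decide_eq_false_iff_not]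
        exact ⟨l, ⟨by simpa using hl, hlc⟩, rfl⟩
      · rw [kv4]
        funext v
        simp

/-! ### jump sets -/

theorem none4_sym : AlSym (none4 : ℕ → ℕ → ℕ → ℕ → Prop) := ⟨fun _ _ _ _ h => h, fun _ _ _ _ h => h⟩

theorem pcS_plain (E : List Ed) : pcS (true, E, []) = JS (fs E) none4 := by
  ext x
  simp [pcS]

theorem jump_plain (E : List Ed) : Jump (pcS (true, E, [])) := by
  rw [pcS_plain]
  exact jump_JS none4_sym _

theorem jump_exP (c : Cl) : Jump (pcS (exP c)) := jump_plain (clE c)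

theorem jump_rxP_k2 {x y : ℕ} {L : List ℕ} (h : ClOK (true, x, y, L)) {ch : ℕ × ℕ} (hc : ChOK (true, x, y, L) ch) :
    Jump (pcS (rxP (true, x, y, L) ch)) := by
  rw [rxP_k2 h hc]
  exact jump_sumU_box _

theorem pcS_pair (u v : ℕ) : pcS (true, [], [[u, v]]) = Un {u} {v} := by
  ext x
  simp only [pcS, List.mem_singleton, exists_eq_left, true_and, Set.mem_ofPred_eq]
  constructor
  · rintro (rfl | ⟨z, hz, _, _, rfl⟩)
    · right
      refine ⟨u, Finset.mem_singleton_self _, v, Finset.mem_singleton_self _, ?_⟩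
      rw [kv_cons, kv_cons, kv_nil, add_zero]
    · left
      have : z = ∅ := by
        rw [fs_nil] at hz
        exact Finset.subset_empty.1 hz
      rw [this, Unit_dv0]
  · rintro (rfl | ⟨s, hs, t, ht, rfl⟩)
    · right
      refine ⟨∅, Finset.empty_subset _, ⟨by intro e he; simp at he, fun w => by simp [dg]⟩, ?_, Unit_dv0.symm⟩
      intro a b c d h
      have := h.ab
      simp at this
    · left
      rw [Finset.mem_singleton] at hs ht
      subst hs ht
      rw [kv_cons, kv_cons, kv_nil, add_zero]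

theorem jump_pair (u v : ℕ) : Jump (pcS (true, [], [[u, v]])) := by
  rw [pcS_pair]
  exact jump_Un _ _

theorem pcS_alt (u v : ℕ) : pcS (false, [], [[u], [v]]) = {ev u, ev v} := by
  ext x
  simp only [pcS, List.mem_cons, List.not_mem_nil, or_false, exists_eq_or_imp, exists_eq_left, Bool.false_eq_true,
    false_and, Set.mem_ofPred_eq, Set.mem_insert_iff, Set.mem_singleton_iff, kv_cons, kv_nil, add_zero]

theorem jump_alt (u v : ℕ) : Jump (pcS (false, [], [[u], [v]])) := by
  rw [pcS_alt]
  have key : ∀ a b : ℕ, ∀ (i : ℕ) (ε : ℤ), (ε = 1 ∨ ε = -1) → 0 < ε * ((ev b : ℕ → ℤ) i - (ev a : ℕ → ℤ) i) →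
      ∃ (j : ℕ) (δ : ℤ), (δ = 1 ∨ δ = -1) ∧ 0 < δ * ((ev b : ℕ → ℤ) j - (ev a + Pi.single i ε : ℕ → ℤ) j) ∧
        ev a + Pi.single i ε + Pi.single j δ = (ev b : ℕ → ℤ) := by
    intro a b i ε hε hpos
    have hab : a ≠ b := by
      rintro rfl
      simp at hpos
    simp only [TFC.ev_apply] at hpos
    by_cases hib : i = b
    · subst hib
      have hε1 : ε = 1 := by
        rcases hε with rfl | rfl
        · rfl
        · rw [if_pos rfl, if_neg hab.symm] at hpos
          norm_num at hpos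
      subst hε1
      refine ⟨a, -1, Or.inr rfl, ?_, ?_⟩
      · rw [Pi.add_apply, TFC.ev_apply, TFC.ev_apply, if_neg hab, if_pos rfl, Pi.single_eq_of_ne hab]
        norm_num
      · rw [single_neg_one, single_one]
        abel
    · rw [if_neg hib] at hpos
      have hia : i = a := by
        by_contra hia
        rw [if_neg hia] at hpos
        simp at hpos
      subst hia
      have hε1 : ε = -1 := by
        rcases hε with rfl | rfl
        · rw [if_pos rfl] at hpos
          norm_num at hpos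
        · rfl
      subst hε1
      refine ⟨b, 1, Or.inl rfl, ?_, ?_⟩
      · rw [Pi.add_apply, TFC.ev_apply, TFC.ev_apply, if_pos rfl, if_neg hab.symm, Pi.single_eq_of_ne hab.symm]
        norm_num
      · rw [single_neg_one, single_one]
        abel
  rintro x (rfl | rfl) y (rfl | rfl) i ε hε hpos
  · simp at hpos
  · obtain ⟨j, δ, h1, h2, h3⟩ := key _ _ i ε hε hpos
    exact ⟨j, δ, h1, h2, by rw [h3]; exact Or.inr rfl⟩
  · obtain ⟨j, δ, h1, h2, h3⟩ := key _ _ i ε hε hpos
    exact ⟨j, δ, h1, h2, by rw [h3]; exact Or.inl rfl⟩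
  · simp at hpos

/-! ### the pieces as `PcOK` -/

theorem vec_kvec (k : List ℕ) : vec k = kvec k := by
  funext v
  rw [vec, kvec, cnt_eq]

theorem eqK_perm {k l : List ℕ} (h : eqK k l = true) : k.Perm l := by
  rw [eqK_iff] at h
  rw [List.perm_iff_count]
  intro v
  have := congrFun h v
  unfold kvec at this
  exact_mod_cast this

theorem length_ends2 (S : List Ed) : (ends2 S).length = 2 * S.length := by
  induction S with
  | nil => rfl
  | cons e S ih =>
    have : ends2 (e :: S) = [e.1, e.2] ++ ends2 S := rfl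
    rw [this, List.length_append, ih, List.length_cons]
    simp only [List.length_cons, List.length_nil]
    omega

/-- bounds for the additional vectors and the edges -/
structure PcB (m : ℕ) (p : Pc) : Prop where
  len : ∀ l ∈ p.2.2, l.length ≤ 8
  ent : ∀ l ∈ p.2.2, ∀ v ∈ l, v ≤ m
  edg : ∀ e ∈ p.2.1, e.1 ≤ m ∧ e.2 ≤ m

theorem pcok {m : ℕ} {p : Pc} (hb : PcB m p) (hc : Card4 p) (hJ : Jump (pcS p)) : PcOK pmem m p := by
  have key : ∀ k, pmem p k = true → ∃ l, k.Perm l ∧ l.length ≤ 8 ∧ ∀ v ∈ l, v ≤ m := by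
    intro k hk
    unfold pmem at hk
    rw [Bool.or_eq_true, Bool.and_eq_true, List.any_eq_true, List.any_eq_true] at hk
    rcases hk with ⟨l, hl, h1⟩ | ⟨_, S, hS, h1⟩
    · exact ⟨l, eqK_perm h1, hb.len l hl, hb.ent l hl⟩
    · rw [Bool.and_eq_true] at h1
      obtain ⟨h2, h3⟩ := mem_subs.1 hS
      refine ⟨ends2 S, eqK_perm h1.2, by rw [length_ends2]; omega, ?_⟩
      intro v hv
      simp only [ends2, List.mem_flatMap, List.mem_cons, List.not_mem_nil, or_false] at hv
      obtain ⟨e, he, rfl | rfl⟩ := hv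
      · exact (hb.edg e (h3 e he)).1
      · exact (hb.edg e (h3 e he)).2
  refine PcOK.of hJ (fun k => ?_) ?_ ?_
  · rw [vec_kvec]
    exact pmem_iff hc k
  · intro k hk
    obtain ⟨l, h1, h2, _⟩ := key k hk
    rw [h1.length_eq]
    exact h2
  · intro k hk v hv
    obtain ⟨l, h1, _, h2⟩ := key k hk
    exact h2 v (h1.mem_iff.1 hv)

/-- all entries of the cluster are at most `m` -/
def ClB (m : ℕ) (c : Cl) : Prop := (∀ l ∈ c.2.2.2, l ≤ m) ∧ (c.1 = true → c.2.1 ≤ m ∧ c.2.2.1 ≤ m)

theorem clE_le {m : ℕ} {c : Cl} (h : ClB m c) : ∀ e ∈ clE c, e.1 ≤ m ∧ e.2 ≤ m := by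
  obtain ⟨b, x, y, L⟩ := c
  obtain ⟨h1, h2⟩ := h
  simp only at h1 h2
  intro e he
  cases b with
  | true =>
    simp only [clE, cond_true, List.mem_append, List.mem_map] at he
    rcases he with ⟨l, hl, rfl⟩ | ⟨l, hl, rfl⟩
    · exact ⟨(h2 rfl).1, h1 l hl⟩
    · exact ⟨(h2 rfl).2, h1 l hl⟩
  | false =>
    simp only [clE, cond_false, prs, List.mem_filter, mem_prd] at he
    exact ⟨h1 _ he.1.1, h1 _ he.1.2⟩

theorem pcb_exP {m : ℕ} {c : Cl} (h : ClB m c) : PcB m (exP c) :=
  ⟨by simp [exP], by simp [exP], clE_le h⟩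

theorem pcb_rxP {m : ℕ} {c : Cl} (h : ClB m c) (ho : ClOK c) {ch : ℕ × ℕ} (hc : ChOK c ch) : PcB m (rxP c ch) := by
  have key : ∀ d ∈ digs c ch, d.length ≤ 8 ∧ ∀ v ∈ d, v ≤ m := by
    obtain ⟨b, x, y, L⟩ := c
    obtain ⟨w, r⟩ := ch
    obtain ⟨h1, h2⟩ := h
    simp only at h1 h2
    intro d hd
    cases b with
    | true =>
      have hw : w ≤ m := by
        rcases (hc rfl).1 with e | e
        · simp only at e
          rw [e]; exact (h2 rfl).1
        · simp only at e
          rw [e]; exact (h2 rfl).2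
      simp only [digs, cond_true, List.mem_map, List.mem_filter] at hd
      obtain ⟨l, hl, rfl⟩ := hd
      refine ⟨by simp, ?_⟩
      intro v hv
      simp only [List.mem_cons, List.not_mem_nil, or_false] at hv
      rcases hv with rfl | rfl | rfl | rfl
      · exact hw
      · exact hw
      · exact h1 _ hl.1
      · exact h1 _ hl.1
    | false =>
      have h4 := ho.k4 rfl
      simp only at h4
      by_cases hw : w = 0
      · simp only [digs, cond_false, hw, decide_true, cond_true, List.mem_append, List.mem_map] at hd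
        rcases hd with ⟨i, hi, rfl⟩ | ⟨e, he, rfl⟩
        · refine ⟨by simp, ?_⟩
          intro v hv
          simp only [List.mem_cons, List.not_mem_nil, or_false, or_self] at hv
          rw [hv]; exact h1 _ hi
        · simp only [prs, List.mem_filter, mem_prd] at he
          refine ⟨by simp, ?_⟩
          intro v hv
          simp only [List.mem_cons, List.not_mem_nil, or_false] at hv
          rcases hv with rfl | rfl | rfl | rfl
          · exact h1 _ he.1.1
          · exact h1 _ he.1.1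
          · exact h1 _ he.1.2
          · exact h1 _ he.1.2
      · simp only [digs, cond_false, hw, decide_false, List.mem_singleton] at hd
        subst hd
        have hl : ∀ M : List ℕ, (M.flatMap fun i => [i, i]).length = 2 * M.length := by
          intro M
          induction M with
          | nil => rfl
          | cons a M ih =>
            rw [List.flatMap_cons, List.length_append, ih, List.length_cons]
            simp only [List.length_cons, List.length_nil]
            omega
        refine ⟨by rw [hl, h4], ?_⟩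
        intro v hv
        simp only [List.mem_flatMap, List.mem_cons, List.not_mem_nil, or_false, or_self] at hv
        obtain ⟨i, hi, rfl⟩ := hv
        exact h1 _ hi
  exact ⟨fun l hl => (key l hl).1, fun l hl => (key l hl).2, clE_le h⟩

theorem pcok_exP {m : ℕ} {c : Cl} (h : ClB m c) (ho : ClOK c) : PcOK pmem m (exP c) :=
  pcok (pcb_exP h) (card4_exP ho) (jump_exP c)

theorem pcok_rxP {m : ℕ} {c : Cl} (h : ClB m c) (ho : ClOK c) {ch : ℕ × ℕ} (hc : ChOK c ch)
    (hJ : Jump (pcS (rxP c ch))) : PcOK pmem m (rxP c ch) :=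
  pcok (pcb_rxP h ho hc) (card4_rxP ho ch) hJ

theorem card4_nil (X : List (List ℕ)) : Card4 (true, [], X) := by
  intro _ z hz _ _
  have : z = ∅ := Finset.subset_empty.1 hz
  rw [this]
  simp

theorem card4_edge (e : Ed) (X : List (List ℕ)) : Card4 (true, [e], X) := by
  intro _ z hz _ _
  have h1 := Finset.card_le_card hz
  have h2 : #(fs [e]) ≤ 1 := by
    rw [fs_cons, fs_nil]
    exact (Finset.card_insert_le _ _).trans (by simp)
  simp only at h1
  omega

theorem pcok_edge {m : ℕ} {e : Ed} (h1 : e.1 ≤ m) (h2 : e.2 ≤ m) : PcOK pmem m (true, [e], []) :=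
  pcok ⟨by simp, by simp, by simpa using ⟨h1, h2⟩⟩ (card4_edge e []) (jump_plain [e])

theorem pcok_pair {m u v : ℕ} (h1 : u ≤ m) (h2 : v ≤ m) : PcOK pmem m (true, [], [[u, v]]) :=
  pcok ⟨by simp, by simpa using ⟨h1, h2⟩, by simp⟩ (card4_nil _) (jump_pair u v)

theorem pcok_alt {m u v : ℕ} (h1 : u ≤ m) (h2 : v ≤ m) : PcOK pmem m (false, [], [[u], [v]]) :=
  pcok ⟨by simp, by simpa using ⟨h1, h2⟩, by simp⟩ (fun h => by cases h) (jump_alt u v)

end Pool.Agent.PF4
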