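import Pool.Agent.PF4.PcB
import Pool.Agent.TFC.Unit

/-!
Pieces: the complete graphs on four vertices.
-/

set_option autoImplicit false
set_option linter.unusedSimpArgs false

namespace Pool.Agent.PF4.Gd

open Finset Pool.Agent.TFC
open scoped Pointwise

/-! ### sums of single edges -/

theorem Un_pair (a b : ℕ) : Un ({a} : Finset ℕ) {b} = Ue s(a, b) := by
  ext x
  rw [Plain_Ue]
  simp only [Un, Set.mem_ofPred_eq, Finset.mem_singleton]
  constructor
  · rintro (h | ⟨s, rfl, t, rfl, h⟩)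
    · exact Or.inl h
    · exact Or.inr h
  · rintro (h | h)
    · exact Or.inl h
    · exact Or.inr ⟨a, rfl, b, rfl, h⟩

theorem sumU_edges {S : List Ed} (h : WF S) :
    sumU ((S.map fun e => (([e.1], [e.2]) : List ℕ × List ℕ)).map tf) = ∑ x ∈ fs S, Ue x := by
  induction S with
  | nil => rw [fs_nil, Finset.sum_empty]; rfl
  | cons e S ih =>
    have h1 : fe e ∉ fs S ∧ WF S := by
      unfold WF at h
      rw [List.map_cons, List.nodup_cons] at h
      refine ⟨fun h' => h.1 ?_, h.2⟩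
      rwa [fs, List.mem_toFinset] at h'
    rw [fs_cons, Finset.sum_insert h1.1, ← ih h1.2]
    show Un ([e.1] : List ℕ).toFinset ([e.2] : List ℕ).toFinset + _ = _
    have e1 : ([e.1] : List ℕ).toFinset = {e.1} := by simp
    have e2 : ([e.2] : List ℕ).toFinset = {e.2} := by simp
    rw [e1, e2, Un_pair]
    rfl

/-! ### six edges -/

theorem k4_six {X : Finset ℕ} (hX : #X = 4) (x : ℕ → ℤ) :
    (x ∈ ∑ e ∈ (Clu.k4 X).edges, Ue e ∧ ∀ v, x v ≤ 2) ↔
      x ∈ JS (Clu.k4 X).edges none4 ∨ x = R4_tx X := by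
  constructor
  · rintro ⟨hk, hk2⟩
    obtain ⟨z, hz, rfl⟩ := (mem_sum_Ue _ (R4_noLoop X) x).mp hk
    have hM : M2 z := M2.of_dv ((R4_noLoop X).mono hz) hk2
    by_cases hs : ∃ a b c d, Sq z a b c d
    · obtain ⟨a, b, c, d, hs⟩ := hs
      exact Or.inr (R4_dv_sq hX hz hM hs)
    · push Not at hs
      exact Or.inl ⟨z, hz, hM, fun a b c d hsq => hs a b c d hsq, rfl⟩
  · rintro (⟨z, hz, hM, _, rfl⟩ | rfl)
    · refine ⟨(mem_sum_Ue _ (R4_noLoop X) _).mpr ⟨z, hz, rfl⟩, ?_⟩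
      intro v
      rw [dv_apply]
      exact_mod_cast hM.le v
    · refine ⟨?_, ?_⟩
      · obtain ⟨a, b, c, d, hab, hac, had, hbc, hbd, hcd, rfl⟩ := card_eq_four.mp hX
        have h4 : Dist4 a b c d := ⟨hab, hac, had, hbc, hbd, hcd⟩
        have hsub : sq a b c d ⊆ (Clu.k4 {a, b, c, d}).edges := by
          intro e he
          simp only [TFC.sq, mem_insert, mem_singleton] at he
          rcases he with rfl | rfl | rfl | rfl <;> rw [R4_mem_edges] <;>
            simp [hab, hbc, hcd, had.symm]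
        rw [mem_sum_Ue _ (R4_noLoop _)]
        refine ⟨sq a b c d, hsub, ?_⟩
        exact (R4_dv_sq hX hsub (Unit_sq_M2 h4) (a := a) (b := b) (c := c) (d := d)
          ⟨hac, hbd, by simp [TFC.sq], by simp [TFC.sq], by simp [TFC.sq], by simp [TFC.sq]⟩).symm
      · intro v
        unfold R4_tx
        split_ifs <;> norm_num

/-! ### three units -/

theorem k4_three_sum {X : Finset ℕ} (n : ℕ) : ∀ {x : ℕ → ℤ}, x ∈ sumU (List.replicate n (X, X)) →
    (∀ v, v ∉ X → x v = 0) ∧ (∀ v, 0 ≤ x v) ∧ ∃ m : ℕ, m ≤ n ∧ ∑ v ∈ X, x v = 2 * m := by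
  induction n with
  | zero =>
    intro x hx
    have : x = 0 := hx
    subst this
    exact ⟨fun _ _ => rfl, fun _ => le_rfl, 0, le_rfl, by simp⟩
  | succ n ih =>
    intro x hx
    rw [List.replicate_succ] at hx
    obtain ⟨p, hp, q, hq, rfl⟩ := Set.mem_add.mp (show x ∈ Un X X + sumU (List.replicate n (X, X)) from hx)
    obtain ⟨q1, q2, m, hm, q3⟩ := ih hq
    rcases hp with rfl | ⟨s, hs, t, ht, rfl⟩
    · rw [zero_add]
      exact ⟨q1, q2, m, by omega, q3⟩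
    · refine ⟨?_, ?_, m + 1, by omega, ?_⟩
      · intro v hv
        have h1 : v ≠ s := fun e => hv (e ▸ hs)
        have h2 : v ≠ t := fun e => hv (e ▸ ht)
        rw [Pi.add_apply, Pi.add_apply, ev_ne h1, ev_ne h2, q1 v hv]
        rfl
      · intro v
        rw [Pi.add_apply, Pi.add_apply, TFC.ev_apply, TFC.ev_apply]
        have := q2 v
        split_ifs <;> omega
      · simp only [Pi.add_apply, sum_add_distrib, TFC.ev_apply, sum_ite_eq', hs, ht, if_true, q3]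
        push_cast
        ring

/-- small vectors on four corners -/
theorem k4_dec : ∀ p q r s : Fin 3, ((p : ℕ) + q + r + s) % 2 = 0 → (p : ℕ) + q + r + s ≤ 6 →
    (∃ f1 f2 f3 f4 f5 f6 : Fin 2, (p : ℕ) = f1 + f2 + f3 ∧ (q : ℕ) = f1 + f4 + f5 ∧
      (r : ℕ) = f2 + f4 + f6 ∧ (s : ℕ) = f3 + f5 + f6) ∨
    (p, q, r, s) ∈ ([(2, 0, 0, 0), (0, 2, 0, 0), (0, 0, 2, 0), (0, 0, 0, 2), (2, 2, 0, 0),
      (2, 0, 2, 0), (2, 0, 0, 2), (0, 2, 2, 0), (0, 2, 0, 2), (0, 0, 2, 2)] :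
      List (Fin 3 × Fin 3 × Fin 3 × Fin 3)) := by
  decide

theorem k4_edges {a b c d : ℕ} (h : Dist4 a b c d) : (Clu.k4 ({a, b, c, d} : Finset ℕ)).edges =
    {s(a, b), s(a, c), s(a, d), s(b, c), s(b, d), s(c, d)} := by
  obtain ⟨hab, hac, had, hbc, hbd, hcd⟩ := h
  ext e
  induction e using Sym2.ind with
  | _ u v =>
    rw [R4_mem_edges]
    simp only [mem_insert, mem_singleton]
    constructor
    · rintro ⟨hu, hv, huv⟩
      rcases hu with rfl | rfl | rfl | rfl <;> rcases hv with rfl | rfl | rfl | rfl <;>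
        simp_all [Sym2.eq_swap]
    · rintro (h | h | h | h | h | h) <;> rw [Sym2.eq_iff] at h <;>
        rcases h with ⟨rfl, rfl⟩ | ⟨rfl, rfl⟩ <;>
        simp [hab, hac, had, hbc, hbd, hcd, hab.symm, hac.symm, had.symm, hbc.symm, hbd.symm, hcd.symm]

theorem mem_Ue_smul (a b : ℕ) (f : Fin 2) : ((f : ℕ) : ℤ) • (ev a + ev b) ∈ Ue s(a, b) := by
  rw [Plain_Ue]
  fin_cases f
  · left; simp
  · right; simp

theorem k4_flags {a b c d : ℕ} (h : Dist4 a b c d) (f1 f2 f3 f4 f5 f6 : Fin 2) :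
    ((f1 : ℕ) : ℤ) • (ev a + ev b) + (((f2 : ℕ) : ℤ) • (ev a + ev c) + (((f3 : ℕ) : ℤ) • (ev a + ev d) +
      (((f4 : ℕ) : ℤ) • (ev b + ev c) + (((f5 : ℕ) : ℤ) • (ev b + ev d) +
        ((f6 : ℕ) : ℤ) • (ev c + ev d))))) ∈
      ∑ e ∈ (Clu.k4 ({a, b, c, d} : Finset ℕ)).edges, Ue e := by
  rw [k4_edges h]
  obtain ⟨hab, hac, had, hbc, hbd, hcd⟩ := h
  rw [Finset.sum_insert (by simp [hab, hac, had, hbc, hbd, hcd, hab.symm, hac.symm, had.symm, hbc.symm,
      hbd.symm, hcd.symm]),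
    Finset.sum_insert (by simp [hab, hac, had, hbc, hbd, hcd, hab.symm, hac.symm, had.symm, hbc.symm,
      hbd.symm, hcd.symm]),
    Finset.sum_insert (by simp [hab, hac, had, hbc, hbd, hcd, hab.symm, hac.symm, had.symm, hbc.symm,
      hbd.symm, hcd.symm]),
    Finset.sum_insert (by simp [hab, hac, had, hbc, hbd, hcd, hab.symm, hac.symm, had.symm, hbc.symm,
      hbd.symm, hcd.symm]),
    Finset.sum_insert (by simp [hab, hac, had, hbc, hbd, hcd, hab.symm, hac.symm, had.symm, hbc.symm,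
      hbd.symm, hcd.symm]),
    Finset.sum_singleton]
  exact Set.add_mem_add (mem_Ue_smul _ _ _) (Set.add_mem_add (mem_Ue_smul _ _ _)
    (Set.add_mem_add (mem_Ue_smul _ _ _) (Set.add_mem_add (mem_Ue_smul _ _ _)
      (Set.add_mem_add (mem_Ue_smul _ _ _) (mem_Ue_smul _ _ _)))))

/-- digons -/
def DigK4 (X : Finset ℕ) (x : ℕ → ℤ) : Prop :=
  (∃ i ∈ X, x = 2 • ev i) ∨ ∃ i ∈ X, ∃ j ∈ X, i ≠ j ∧ x = 2 • ev i + 2 • ev j

theorem k4_core {a b c d : ℕ} (h : Dist4 a b c d) {x : ℕ → ℤ}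
    (hx : ∀ v, v ∉ ({a, b, c, d} : Finset ℕ) → x v = 0) (h0 : ∀ v, 0 ≤ x v) (h2 : ∀ v, x v ≤ 2)
    {m : ℕ} (hm : m ≤ 3) (hs : ∑ v ∈ ({a, b, c, d} : Finset ℕ), x v = 2 * m) :
    x ∈ JS (Clu.k4 ({a, b, c, d} : Finset ℕ)).edges none4 ∨ DigK4 {a, b, c, d} x := by
  have h' := h
  obtain ⟨hab, hac, had, hbc, hbd, hcd⟩ := h
  have hX : #({a, b, c, d} : Finset ℕ) = 4 := by
    rw [card_insert_of_notMem (by simp [hab, hac, had]),
      card_insert_of_notMem (by simp [hbc, hbd]), card_insert_of_notMem (by simp [hcd]),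
      card_singleton]
  rw [sum_insert (by simp [hab, hac, had]), sum_insert (by simp [hbc, hbd]),
    sum_insert (by simp [hcd]), sum_singleton] at hs
  obtain ⟨p, hp⟩ : ∃ p : Fin 3, x a = ((p : ℕ) : ℤ) :=
    ⟨⟨(x a).toNat, by have := h0 a; have := h2 a; omega⟩, by have := h0 a; simp; omega⟩
  obtain ⟨q, hq⟩ : ∃ p : Fin 3, x b = ((p : ℕ) : ℤ) :=
    ⟨⟨(x b).toNat, by have := h0 b; have := h2 b; omega⟩, by have := h0 b; simp; omega⟩
  obtain ⟨r, hr⟩ : ∃ p : Fin 3, x c = ((p : ℕ) : ℤ) :=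
    ⟨⟨(x c).toNat, by have := h0 c; have := h2 c; omega⟩, by have := h0 c; simp; omega⟩
  obtain ⟨s, hs'⟩ : ∃ p : Fin 3, x d = ((p : ℕ) : ℤ) :=
    ⟨⟨(x d).toNat, by have := h0 d; have := h2 d; omega⟩, by have := h0 d; simp; omega⟩
  have hxe : x = ((p : ℕ) : ℤ) • ev a + (((q : ℕ) : ℤ) • ev b + (((r : ℕ) : ℤ) • ev c +
      ((s : ℕ) : ℤ) • ev d)) := by
    funext v
    simp only [Pi.add_apply, Pi.smul_apply, TFC.ev_apply, smul_eq_mul]
    by_cases h1 : v = a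
    · subst h1; rw [hp]; simp [hab, hac, had]
    by_cases h2 : v = b
    · subst h2; rw [hq]; simp [h1, hbc, hbd]
    by_cases h3 : v = c
    · subst h3; rw [hr]; simp [h1, h2, hcd]
    by_cases h4 : v = d
    · subst h4; rw [hs']; simp [h1, h2, h3]
    · rw [hx v (by simp [h1, h2, h3, h4])]; simp [h1, h2, h3, h4]
  rw [hp, hq, hr, hs'] at hs
  rcases k4_dec p q r s (by omega) (by omega) with ⟨f1, f2, f3, f4, f5, f6, e1, e2, e3, e4⟩ | hd
  · left
    have hmem := k4_flags h' f1 f2 f3 f4 f5 f6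
    have hx2 : x = ((f1 : ℕ) : ℤ) • (ev a + ev b) + (((f2 : ℕ) : ℤ) • (ev a + ev c) +
        (((f3 : ℕ) : ℤ) • (ev a + ev d) + (((f4 : ℕ) : ℤ) • (ev b + ev c) +
        (((f5 : ℕ) : ℤ) • (ev b + ev d) + ((f6 : ℕ) : ℤ) • (ev c + ev d))))) := by
      rw [hxe, e1, e2, e3, e4]
      push_cast
      module
    rw [← hx2] at hmem
    rcases (k4_six hX x).1 ⟨hmem, h2⟩ with h5 | h5
    · exact h5
    · exfalso
      have g1 : x a = 2 := by rw [h5]; simp [R4_tx]
      have g2 : x b = 2 := by rw [h5]; simp [R4_tx]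
      have g3 : x c = 2 := by rw [h5]; simp [R4_tx]
      have g4 : x d = 2 := by rw [h5]; simp [R4_tx]
      omega
  · right
    have hz : ∀ v : ℕ, (0 : ℤ) • (ev v : ℕ → ℤ) = 0 := fun v => zero_smul _ _
    simp only [List.mem_cons, Prod.mk.injEq, List.not_mem_nil, or_false] at hd
    rcases hd with ⟨rfl, rfl, rfl, rfl⟩ | ⟨rfl, rfl, rfl, rfl⟩ | ⟨rfl, rfl, rfl, rfl⟩ |
      ⟨rfl, rfl, rfl, rfl⟩ | ⟨rfl, rfl, rfl, rfl⟩ | ⟨rfl, rfl, rfl, rfl⟩ | ⟨rfl, rfl, rfl, rfl⟩ |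
      ⟨rfl, rfl, rfl, rfl⟩ | ⟨rfl, rfl, rfl, rfl⟩ | ⟨rfl, rfl, rfl, rfl⟩
    · exact Or.inl ⟨a, by simp, by rw [hxe]; simp⟩
    · exact Or.inl ⟨b, by simp, by rw [hxe]; simp⟩
    · exact Or.inl ⟨c, by simp, by rw [hxe]; simp⟩
    · exact Or.inl ⟨d, by simp, by rw [hxe]; simp⟩
    · exact Or.inr ⟨a, by simp, b, by simp, hab, by rw [hxe]; simp⟩
    · exact Or.inr ⟨a, by simp, c, by simp, hac, by rw [hxe]; simp⟩
    · exact Or.inr ⟨a, by simp, d, by simp, had, by rw [hxe]; simp⟩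
    · exact Or.inr ⟨b, by simp, c, by simp, hbc, by rw [hxe]; simp⟩
    · exact Or.inr ⟨b, by simp, d, by simp, hbd, by rw [hxe]; simp⟩
    · exact Or.inr ⟨c, by simp, d, by simp, hcd, by rw [hxe]; simp⟩

theorem k4_three {X : Finset ℕ} (hX : #X = 4) (x : ℕ → ℤ) :
    (x ∈ sumU (List.replicate 3 (X, X)) ∧ ∀ v, x v ≤ 2) ↔
      x ∈ JS (Clu.k4 X).edges none4 ∨ DigK4 X x := by
  constructor
  · rintro ⟨h1, h2⟩
    obtain ⟨a, b, c, d, hab, hac, had, hbc, hbd, hcd, rfl⟩ := card_eq_four.mp hX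
    obtain ⟨h3, h4, m, hm, h5⟩ := k4_three_sum 3 h1
    exact k4_core ⟨hab, hac, had, hbc, hbd, hcd⟩ h3 h4 h2 hm h5
  · rintro (h | h)
    · refine ⟨JS_subset_units_k4 hX h, ?_⟩
      obtain ⟨z, hz, hM, _, rfl⟩ := h
      intro v
      rw [dv_apply]
      exact_mod_cast hM.le v
    · have hu : ∀ i ∈ X, (2 • ev i : ℕ → ℤ) ∈ Un X X := fun i hi =>
        Or.inr ⟨i, hi, i, hi, two_smul _ _⟩
      rcases h with ⟨i, hi, rfl⟩ | ⟨i, hi, j, hj, hij, rfl⟩
      · refine ⟨?_, ?_⟩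
        · show _ ∈ Un X X + (Un X X + (Un X X + {0}))
          refine ⟨_, hu i hi, 0, ⟨0, Or.inl rfl, 0, ⟨0, Or.inl rfl, 0, rfl, ?_⟩, ?_⟩, ?_⟩ <;>
            simp
        · intro v
          rw [Pi.smul_apply, TFC.ev_apply]
          split_ifs <;> simp
      · refine ⟨?_, ?_⟩
        · show _ ∈ Un X X + (Un X X + (Un X X + {0}))
          refine ⟨_, hu i hi, _, ⟨_, hu j hj, 0, ⟨0, Or.inl rfl, 0, rfl, ?_⟩, rfl⟩, ?_⟩ <;> simp
        · intro v
          rw [Pi.add_apply, Pi.smul_apply, Pi.smul_apply, TFC.ev_apply, TFC.ev_apply]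
          by_cases h1 : v = i
          · subst h1; simp [hij]
          · rw [if_neg h1]; split_ifs <;> simp

/-! ### the cluster as data -/

theorem k4_X {c : Cl} (hc : ClOK c) (h1 : c.1 = false) : #c.2.2.2.toFinset = 4 := by
  rw [List.toFinset_card_of_nodup hc.nd, hc.k4 h1]

theorem k4_clE {c : Cl} (h1 : c.1 = false) : fs (clE c) = (Clu.k4 c.2.2.2.toFinset).edges := by
  rw [fs_clE]
  unfold cluF
  rw [h1, cond_false]

theorem k4_card {c : Cl} (hc : ClOK c) (h1 : c.1 = false) {z : Finset (Sym2 ℕ)} (hz : z ⊆ fs (clE c))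
    (hM : M2 z) (hG : Good none4 z) : #z ≤ 3 := by
  rw [k4_clE h1] at hz
  exact R4_card_le (k4_X hc h1) hz hM hG

theorem k4_card4_ex {c : Cl} (hc : ClOK c) (h1 : c.1 = false) : Card4 (exP c) :=
  fun _ _ hz hM hG => (k4_card hc h1 hz hM hG).trans (by norm_num)

theorem k4_card4_rx {c : Cl} (hc : ClOK c) (h1 : c.1 = false) (ch : ℕ × ℕ) : Card4 (rxP c ch) :=
  fun _ _ hz hM hG => (k4_card hc h1 hz hM hG).trans (by norm_num)

theorem mem_prs {L : List ℕ} {e : Ed} : e ∈ prs L ↔ e.1 ∈ L ∧ e.2 ∈ L ∧ e.1 < e.2 := by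
  unfold prs
  rw [List.mem_filter, mem_prd, decide_eq_true_eq, and_assoc]

theorem k4_digs0 {L : List ℕ} (x : ℕ → ℤ) :
    (∃ k ∈ (L.map fun i => [i, i]) ++ ((prs L).map fun e => [e.1, e.1, e.2, e.2]), x = kvec k) ↔
      DigK4 L.toFinset x := by
  have v2 : ∀ i : ℕ, kvec [i, i] = 2 • ev i := by
    intro i
    rw [kvec_cons, kvec_cons, kvec_nil, add_zero, two_smul]
  have v4 : ∀ i j : ℕ, kvec [i, i, j, j] = 2 • ev i + 2 • ev j := by
    intro i j
    rw [kvec_cons, kvec_cons, v2, two_smul ℕ (ev i), add_assoc]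
  constructor
  · rintro ⟨k, hk, rfl⟩
    rw [List.mem_append, List.mem_map, List.mem_map] at hk
    rcases hk with ⟨i, hi, rfl⟩ | ⟨e, he, rfl⟩
    · exact Or.inl ⟨i, by simpa using hi, v2 i⟩
    · obtain ⟨h1, h2, h3⟩ := mem_prs.1 he
      exact Or.inr ⟨e.1, by simpa using h1, e.2, by simpa using h2, by omega, v4 _ _⟩
  · rintro (⟨i, hi, rfl⟩ | ⟨i, hi, j, hj, hij, rfl⟩)
    · exact ⟨[i, i], List.mem_append_left _ (List.mem_map.2 ⟨i, by simpa using hi, rfl⟩), (v2 i).symm⟩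
    · rcases lt_or_gt_of_ne hij with h | h
      · exact ⟨[i, i, j, j], List.mem_append_right _ (List.mem_map.2 ⟨(i, j), mem_prs.2
          ⟨by simpa using hi, by simpa using hj, h⟩, rfl⟩), (v4 i j).symm⟩
      · refine ⟨[j, j, i, i], List.mem_append_right _ (List.mem_map.2 ⟨(j, i), mem_prs.2
          ⟨by simpa using hj, by simpa using hi, h⟩, rfl⟩), ?_⟩
        rw [v4, add_comm]

theorem kvec_double {L : List ℕ} (h : L.Nodup) : kvec (L.flatMap fun i => [i, i]) = R4_tx L.toFinset := by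
  induction L with
  | nil => funext v; simp [kvec, R4_tx]
  | cons a L ih =>
    rw [List.nodup_cons] at h
    rw [List.flatMap_cons, kvec_append, ih h.2, kvec_cons, kvec_cons, kvec_nil]
    funext v
    simp only [Pi.add_apply, Pi.zero_apply, R4_tx, TFC.ev_apply, List.mem_toFinset, List.mem_cons]
    by_cases h1 : v = a
    · subst h1
      simp [h.1]
    · simp [h1]

/-- the vectors of the relaxed piece are the sums of its units, cut at 2 -/
theorem k4_pcS {c : Cl} (hc : ClOK c) (h1 : c.1 = false) (ch : ℕ × ℕ) :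
    pcS (rxP c ch) = {x | x ∈ sumU ((rxU c ch).map tf) ∧ ∀ v, x v ≤ 2} := by
  have hX := k4_X hc h1
  ext x
  have e0 : x ∈ pcS (rxP c ch) ↔ (∃ k ∈ digs c ch, x = kvec k) ∨
      x ∈ JS (Clu.k4 c.2.2.2.toFinset).edges none4 := by
    rw [← k4_clE h1]
    show ((∃ k ∈ digs c ch, x = kvec k) ∨ (true = true ∧ x ∈ JS (fs (clE c)) none4)) ↔ _
    simp
  rw [e0]
  show _ ↔ x ∈ sumU ((rxU c ch).map tf) ∧ ∀ v, x v ≤ 2
  unfold digs rxU
  rw [h1, cond_false, cond_false]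
  by_cases h0 : ch.1 = 0
  · rw [decide_eq_true h0, cond_true, cond_true, k4_digs0]
    have := k4_three hX x
    rw [or_comm]
    exact this.symm
  · rw [decide_eq_false h0, cond_false, cond_false]
    have hw : WF (prs c.2.2.2) := by
      have := wf_clE hc
      unfold clE at this
      rwa [h1, cond_false] at this
    have hf : fs (prs c.2.2.2) = (Clu.k4 c.2.2.2.toFinset).edges := by
      have := k4_clE h1
      unfold clE at this
      rwa [h1, cond_false] at this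
    rw [sumU_edges hw, hf, k4_six hX x, or_comm]
    refine or_congr Iff.rfl ?_
    constructor
    · rintro ⟨k, hk, rfl⟩
      rw [List.mem_singleton] at hk
      rw [hk, kvec_double hc.nd]
    · rintro rfl
      exact ⟨_, List.mem_singleton.2 rfl, (kvec_double hc.nd).symm⟩

theorem k4_jump {c : Cl} (hc : ClOK c) (h1 : c.1 = false) (ch : ℕ × ℕ) : Jump (pcS (rxP c ch)) := by
  rw [k4_pcS hc h1]
  exact jump_sumU_box _

theorem k4_UB {c : Cl} (h1 : c.1 = false) {n : ℕ} (hn : ∀ v ∈ c.2.2.2, v < n) (ch : ℕ × ℕ) :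
    UB n (rxU c ch) := by
  unfold rxU
  rw [h1, cond_false]
  by_cases h0 : ch.1 = 0
  · rw [decide_eq_true h0, cond_true]
    intro u hu
    simp only [List.mem_cons, List.not_mem_nil, or_false, or_self] at hu
    subst hu
    exact ⟨hn, hn⟩
  · rw [decide_eq_false h0, cond_false]
    intro u hu
    obtain ⟨e, he, rfl⟩ := List.mem_map.1 hu
    obtain ⟨h2, h3, _⟩ := mem_prs.1 he
    refine ⟨?_, ?_⟩
    · intro s hs; rw [List.mem_singleton.1 hs]; exact hn _ h2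
    · intro s hs; rw [List.mem_singleton.1 hs]; exact hn _ h3

/-- a vector is legal for the relaxed piece iff it is a vector of the units -/
theorem k4_pv {c : Cl} (hc : ClOK c) (h1 : c.1 = false) {n : ℕ} (hn : ∀ v ∈ c.2.2.2, v < n)
    (ch : ℕ × ℕ) (k : List ℕ) : PV n (rxU c ch) k ↔ kvec k ∈ pcS (rxP c ch) := by
  rw [pv_sumU (k4_UB h1 hn ch), k4_pcS hc h1]
  rfl

/-! ### the moves inside the exact piece -/

theorem k4_ex {c : Cl} (h1 : c.1 = false) {x : ℕ → ℤ}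
    (h : x ∈ JS (Clu.k4 c.2.2.2.toFinset).edges none4) : x ∈ pcS (exP c) := by
  rw [← k4_clE h1] at h
  exact Or.inr ⟨rfl, h⟩

/-- `2 e_i - e_i + e_m` -/
theorem k4_move1 {c : Cl} (h1 : c.1 = false) {i m : ℕ} (hi : i ∈ c.2.2.2)
    (hm : m ∈ c.2.2.2) (him : i ≠ m) : kvec [i, m] ∈ pcS (exP c) := by
  refine k4_ex h1 ⟨{s(i, m)}, ?_, ?_, ?_, ?_⟩
  · rw [Finset.singleton_subset_iff, R4_mem_edges]
    exact ⟨by simpa using hi, by simpa using hm, him⟩
  · refine M2.of_dv (by intro e he; rw [Finset.mem_singleton] at he; subst he; simpa using him) ?_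
    intro v
    rw [Unit_dv1 him, Pi.add_apply, TFC.ev_apply, TFC.ev_apply]
    split_ifs <;> norm_num
  · refine R4_good (by intro e he; rw [Finset.mem_singleton] at he; subst he; simpa using him) ?_
    rw [card_singleton]; norm_num
  · rw [Unit_dv1 him, kvec_cons, kvec_cons, kvec_nil, add_zero]

/-- `2 e_i + 2 e_j - e_i + e_m` -/
theorem k4_move2 {c : Cl} (h1 : c.1 = false) {i j m : ℕ} (hi : i ∈ c.2.2.2)
    (hj : j ∈ c.2.2.2) (hm : m ∈ c.2.2.2) (hij : i ≠ j) (him : i ≠ m) (hjm : j ≠ m) :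
    kvec [i, j, j, m] ∈ pcS (exP c) := by
  have hne : s(i, j) ≠ s(j, m) := by
    rw [Ne, Sym2.eq_iff]; rintro (⟨h, _⟩ | ⟨h, _⟩)
    · exact hij h
    · exact him h
  have hn : NoLoop ({s(i, j), s(j, m)} : Finset (Sym2 ℕ)) := by
    intro e he
    simp only [mem_insert, mem_singleton] at he
    rcases he with rfl | rfl
    · simpa using hij
    · simpa using hjm
  refine k4_ex h1 ⟨{s(i, j), s(j, m)}, ?_, ?_, ?_, ?_⟩
  · intro e he
    simp only [mem_insert, mem_singleton] at he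
    rcases he with rfl | rfl <;> rw [R4_mem_edges]
    · exact ⟨by simpa using hi, by simpa using hj, hij⟩
    · exact ⟨by simpa using hj, by simpa using hm, hjm⟩
  · refine M2.of_dv hn ?_
    intro v
    rw [Unit_dv2 hij hjm hne]
    simp only [Pi.add_apply, TFC.ev_apply]
    by_cases a1 : v = i
    · subst a1; simp [hij, him]
    · by_cases a2 : v = j
      · subst a2; simp [a1, hjm]
      · simp only [a1, a2, if_false]
        split_ifs <;> norm_num
  · refine R4_good hn ?_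
    exact (card_le_two).trans_lt (by norm_num)
  · rw [Unit_dv2 hij hjm hne, kvec_cons, kvec_cons, kvec_cons, kvec_cons, kvec_nil]
    abel

/-- the triangle: `2 1_X - 2 e_m` -/
theorem k4_move3 {c : Cl} (hc : ClOK c) (h1 : c.1 = false) {m : ℕ} (hm : m ∈ c.2.2.2) :
    kvec (c.2.2.2.flatMap fun i => [i, i]) - ev m - ev m ∈ pcS (exP c) := by
  rw [kvec_double hc.nd]
  exact k4_ex h1 (R4_JS (k4_X hc h1) (by simpa using hm) (by simpa using hm))

end Pool.Agent.PF4.Gd
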