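import Pool.Agent.PF4.PcK4

/-!
Pieces: the clusters with two centres, the simple pieces, and the summary for all clusters.
-/

set_option autoImplicit false
set_option linter.unusedSimpArgs false

namespace Pool.Agent.PF4.Gd

open Finset Pool.Agent.TFC
open scoped Pointwise

/-! ### sums of units -/

theorem sumU_list (us : List (Finset ℕ × Finset ℕ)) : sumU us = (us.map fun u => Un u.1 u.2).sum := by
  induction us with
  | nil => rfl
  | cons u us ih => rw [List.map_cons, List.sum_cons, ← ih]; rfl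

theorem sumU_perm {us vs : List (Finset ℕ × Finset ℕ)} (h : us.Perm vs) : sumU us = sumU vs := by
  rw [sumU_list, sumU_list]
  exact (h.map _).sum_eq

theorem zero_mem_sumU (us : List (Finset ℕ × Finset ℕ)) : (0 : ℕ → ℤ) ∈ sumU us := by
  induction us with
  | nil => rfl
  | cons u us ih => exact ⟨0, Or.inl rfl, 0, ih, add_zero _⟩

theorem mem_sumU_of {us : List (Finset ℕ × Finset ℕ)} {u : Finset ℕ × Finset ℕ} (hu : u ∈ us)
    {x : ℕ → ℤ} (hx : x ∈ Un u.1 u.2) : x ∈ sumU us := by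
  induction us with
  | nil => cases hu
  | cons w us ih =>
    rcases List.mem_cons.1 hu with rfl | h
    · exact ⟨x, hx, 0, zero_mem_sumU us, add_zero _⟩
    · exact ⟨0, Or.inl rfl, x, ih h, zero_add _⟩

/-! ### two centres -/

theorem k2_edges_comm (x y : ℕ) (L : Finset ℕ) : (Clu.k2 x y L).edges = (Clu.k2 y x L).edges :=
  Finset.union_comm _ _

/-- the set form of the relaxed piece -/
theorem k2_set {w w' c : ℕ} {L : Finset ℕ} (hv : (CC.k2 w w' c L).Valid) (x : ℕ → ℤ) :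
    (x ∈ sumU (CC.k2 w w' c L).units ∧ ∀ v, x v ≤ 2) ↔
      x ∈ JS (Clu.k2 w w' L).edges none4 ∨ ∃ l ∈ L, l ≠ c ∧ x = 2 • ev w + 2 • ev l := by
  constructor
  · rintro ⟨h1, h2⟩
    exact units_k2_le hv h1 h2
  · rintro (h | ⟨l, hl, hlc, rfl⟩)
    · refine ⟨JS_subset_units_k2 hv h, ?_⟩
      obtain ⟨z, _, hM, _, rfl⟩ := h
      intro v
      rw [dv_apply]
      exact_mod_cast hM.le v
    · obtain ⟨h1, h2, h3, -, hc⟩ := hv
      have hwl : w ≠ l := fun e => h2 (e ▸ hl)
      refine ⟨?_, ?_⟩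
      · show _ ∈ sumU ((L.erase c).toList.map (fun l => (({l} : Finset ℕ), ({w, w'} : Finset ℕ))) ++
          [({w}, L), ({w'}, {c})])
        rw [sumU_append]
        refine ⟨ev l + ev w, ?_, ev w + ev l, ?_, ?_⟩
        · refine mem_sumU_of (u := ({l}, {w, w'})) ?_ (Or.inr ⟨l, by simp, w, by simp, rfl⟩)
          rw [List.mem_map]
          exact ⟨l, by simp [hl, hlc], rfl⟩
        · exact mem_sumU_of (u := ({w}, L)) (by simp) (Or.inr ⟨w, by simp, l, hl, rfl⟩)
        · rw [two_smul, two_smul]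
          show ev l + ev w + (ev w + ev l) = _
          abel
      · intro v
        rw [Pi.add_apply, Pi.smul_apply, Pi.smul_apply, TFC.ev_apply, TFC.ev_apply]
        by_cases h1 : v = w
        · subst h1; simp [hwl]
        · rw [if_neg h1]; split_ifs <;> simp

theorem k2_units {w w' c : ℕ} {L : List ℕ} (hL : L.Nodup) :
    sumU (((L.filter fun l => !decide (l = c)).map (fun l => tf ([l], [w, w']))) ++
      [tf ([w], L), tf ([w'], [c])]) = sumU (CC.k2 w w' c L.toFinset).units := by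
  have e1 : (L.filter fun l => !decide (l = c)).Perm (L.toFinset.erase c).toList := by
    refine List.perm_of_nodup_nodup_toFinset_eq (hL.filter _) (Finset.nodup_toList _) ?_
    rw [Finset.toList_toFinset]
    ext v
    simp only [List.mem_toFinset, List.mem_filter, Finset.mem_erase, Bool.not_eq_true',
      decide_eq_false_iff_not]
    tauto
  have e2 : ∀ l, tf ([l], [w, w']) = (({l} : Finset ℕ), ({w, w'} : Finset ℕ)) := by
    intro l; simp [tf]
  have e3 : tf ([w], L) = (({w} : Finset ℕ), L.toFinset) := by simp [tf]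
  have e4 : tf ([w'], [c]) = (({w'} : Finset ℕ), ({c} : Finset ℕ)) := by simp [tf]
  simp only [e2, e3, e4]
  exact sumU_perm ((e1.map _).append_right _)

theorem k2_clE {c : Cl} (h1 : c.1 = true) :
    fs (clE c) = (Clu.k2 c.2.1 c.2.2.1 c.2.2.2.toFinset).edges := by
  rw [fs_clE]
  unfold cluF
  rw [h1, cond_true]

/-- the other centre -/
def oth (c : Cl) (w : ℕ) : ℕ := if w = c.2.1 then c.2.2.1 else c.2.1

theorem k2_valid {c : Cl} (hc : ClOK c) (h1 : c.1 = true) {ch : ℕ × ℕ} (hch : ChOK c ch) :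
    (CC.k2 ch.1 (oth c ch.1) ch.2 c.2.2.2.toFinset).Valid := by
  obtain ⟨a1, a2, a3, a4⟩ := hc.k2 h1
  obtain ⟨b1, b2⟩ := hch h1
  have hcard : 2 ≤ #c.2.2.2.toFinset := by rw [List.toFinset_card_of_nodup hc.nd]; exact a4
  unfold oth
  rcases b1 with b1 | b1
  · rw [if_pos b1, b1]
    exact ⟨a1, by simpa using a2, by simpa using a3, hcard, by simpa using b2⟩
  · rw [if_neg (by rw [b1]; exact a1.symm), b1]
    exact ⟨a1.symm, by simpa using a3, by simpa using a2, hcard, by simpa using b2⟩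

theorem k2_edges {c : Cl} (hc : ClOK c) (h1 : c.1 = true) {ch : ℕ × ℕ} (hch : ChOK c ch) :
    fs (clE c) = (Clu.k2 ch.1 (oth c ch.1) c.2.2.2.toFinset).edges := by
  obtain ⟨a1, a2, a3, a4⟩ := hc.k2 h1
  obtain ⟨b1, b2⟩ := hch h1
  rw [k2_clE h1]
  unfold oth
  rcases b1 with b1 | b1
  · rw [if_pos b1, b1]
  · rw [if_neg (by rw [b1]; exact a1.symm), b1, k2_edges_comm]

theorem k2_rxU {c : Cl} (hc : ClOK c) (h1 : c.1 = true) {ch : ℕ × ℕ} (hch : ChOK c ch) :
    sumU ((rxU c ch).map tf) = sumU (CC.k2 ch.1 (oth c ch.1) ch.2 c.2.2.2.toFinset).units := by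
  obtain ⟨a1, a2, a3, a4⟩ := hc.k2 h1
  obtain ⟨b1, b2⟩ := hch h1
  rw [← k2_units hc.nd]
  unfold rxU
  rw [h1, cond_true, List.map_append, List.map_map]
  have e : ∀ l : ℕ, tf ([l], [c.2.1, c.2.2.1]) = tf ([l], [ch.1, oth c ch.1]) := by
    intro l
    unfold oth tf
    rcases b1 with b1 | b1
    · rw [if_pos b1, b1]
    · rw [if_neg (by rw [b1]; exact a1.symm), b1]
      simp [Finset.pair_comm]
  have e' : (tf ∘ fun l : ℕ => (([l], [c.2.1, c.2.2.1]) : List ℕ × List ℕ)) =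
      fun l => tf ([l], [ch.1, oth c ch.1]) := funext e
  rw [e']
  rfl

theorem kvec4 (w l : ℕ) : kvec [w, w, l, l] = 2 • ev w + 2 • ev l := by
  rw [kvec_cons, kvec_cons, kvec_cons, kvec_cons, kvec_nil, two_smul, two_smul]
  abel

theorem k2_pcS {c : Cl} (hc : ClOK c) (h1 : c.1 = true) {ch : ℕ × ℕ} (hch : ChOK c ch) :
    pcS (rxP c ch) = {x | x ∈ sumU ((rxU c ch).map tf) ∧ ∀ v, x v ≤ 2} := by
  ext x
  have e0 : x ∈ pcS (rxP c ch) ↔ (∃ k ∈ digs c ch, x = kvec k) ∨
      x ∈ JS (Clu.k2 ch.1 (oth c ch.1) c.2.2.2.toFinset).edges none4 := by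
    rw [← k2_edges hc h1 hch]
    show ((∃ k ∈ digs c ch, x = kvec k) ∨ (true = true ∧ x ∈ JS (fs (clE c)) none4)) ↔ _
    simp
  rw [e0]
  show _ ↔ x ∈ sumU ((rxU c ch).map tf) ∧ ∀ v, x v ≤ 2
  rw [k2_rxU hc h1 hch, k2_set (k2_valid hc h1 hch), or_comm]
  refine or_congr Iff.rfl ?_
  unfold digs
  rw [h1, cond_true]
  constructor
  · rintro ⟨k, hk, rfl⟩
    obtain ⟨l, hl, rfl⟩ := List.mem_map.1 hk
    rw [List.mem_filter] at hl
    exact ⟨l, by simpa using hl.1, by simpa using hl.2, kvec4 _ _⟩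
  · rintro ⟨l, hl, hlc, rfl⟩
    exact ⟨_, List.mem_map.2 ⟨l, List.mem_filter.2 ⟨by simpa using hl, by simpa using hlc⟩, rfl⟩,
      (kvec4 _ _).symm⟩

/-! ### all clusters -/

/-- the vectors of the relaxed piece are the sums of its units, cut at 2 -/
theorem rx_pcS {c : Cl} (hc : ClOK c) {ch : ℕ × ℕ} (hch : ChOK c ch) :
    pcS (rxP c ch) = {x | x ∈ sumU ((rxU c ch).map tf) ∧ ∀ v, x v ≤ 2} := by
  cases h1 : c.1 with
  | true => exact k2_pcS hc h1 hch
  | false => exact k4_pcS hc h1 ch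

theorem rx_jump {c : Cl} (hc : ClOK c) {ch : ℕ × ℕ} (hch : ChOK c ch) : Jump (pcS (rxP c ch)) := by
  rw [rx_pcS hc hch]
  exact jump_sumU_box _

/-- all vertices of the cluster are below `n` -/
def ClB (n : ℕ) (c : Cl) : Prop :=
  (∀ v ∈ c.2.2.2, v < n) ∧ (c.1 = true → c.2.1 < n ∧ c.2.2.1 < n)

theorem rx_UB {n : ℕ} {c : Cl} (hn : ClB n c) {ch : ℕ × ℕ} (hch : ChOK c ch) : UB n (rxU c ch) := by
  cases h1 : c.1 with
  | false => exact k4_UB h1 hn.1 ch
  | true =>
    obtain ⟨b1, b2⟩ := hch h1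
    obtain ⟨n1, n2⟩ := hn.2 h1
    unfold rxU
    rw [h1, cond_true]
    intro u hu
    rcases List.mem_append.1 hu with hu | hu
    · obtain ⟨l, hl, rfl⟩ := List.mem_map.1 hu
      have hl := hn.1 l (List.mem_of_mem_filter hl)
      refine ⟨?_, ?_⟩
      · intro s hs; rw [List.mem_singleton.1 hs]; exact hl
      · intro s hs
        simp only [List.mem_cons, List.not_mem_nil, or_false] at hs
        rcases hs with rfl | rfl
        · exact n1
        · exact n2
    · simp only [List.mem_cons, List.not_mem_nil, or_false] at hu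
      have hw : ch.1 < n := by rcases b1 with b1 | b1 <;> rw [b1] <;> assumption
      rcases hu with rfl | rfl
      · refine ⟨?_, hn.1⟩
        intro s hs; rw [List.mem_singleton.1 hs]; exact hw
      · refine ⟨?_, ?_⟩
        · intro s hs
          rw [List.mem_singleton.1 hs]
          split_ifs
          · exact n2
          · exact n1
        · intro s hs; rw [List.mem_singleton.1 hs]; exact hn.1 _ b2

/-- a vector is legal for the relaxed piece iff it is a vector of the units -/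
theorem rx_pv {n : ℕ} {c : Cl} (hc : ClOK c) (hn : ClB n c) {ch : ℕ × ℕ} (hch : ChOK c ch)
    (k : List ℕ) : PV n (rxU c ch) k ↔ kvec k ∈ pcS (rxP c ch) := by
  rw [pv_sumU (rx_UB hn hch), rx_pcS hc hch]
  rfl

/-! ### the simple pieces -/

/-- pieces without extra vectors -/
theorem pcS_tt (E : List Ed) : pcS (true, E, []) = JS (fs E) none4 := by
  ext x
  show ((∃ k ∈ ([] : List (List ℕ)), x = kvec k) ∨ (true = true ∧ x ∈ JS (fs E) none4)) ↔ _
  simp

theorem none4_sym : AlSym (none4 : ℕ → ℕ → ℕ → ℕ → Prop) := ⟨fun _ _ _ _ h => h, fun _ _ _ _ h => h⟩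

theorem jump_tt (E : List Ed) : Jump (pcS (true, E, [])) := by
  rw [pcS_tt]
  exact jump_JS none4_sym _

theorem ex_jump (c : Cl) : Jump (pcS (exP c)) := jump_tt _

theorem JS_empty (x : ℕ → ℤ) : x ∈ JS (∅ : Finset (Sym2 ℕ)) none4 ↔ x = 0 := by
  constructor
  · rintro ⟨z, hz, _, _, rfl⟩
    rw [Finset.subset_empty.1 hz, Plain_dv_empty]
  · rintro rfl
    refine ⟨∅, le_rfl, ⟨fun e he => by simp at he, fun v => by simp [dg]⟩,
      fun a b c d h => by simpa using h.ab, Plain_dv_empty.symm⟩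

/-- slack, loop, minus token: nothing or `[u, v]` -/
theorem pcS_two (u v : ℕ) : pcS (true, [], [[u, v]]) = Un ({u} : Finset ℕ) {v} := by
  ext x
  show ((∃ k ∈ [[u, v]], x = kvec k) ∨ (true = true ∧ x ∈ JS (fs []) none4)) ↔ _
  rw [fs_nil, JS_empty]
  have e : kvec [u, v] = ev u + ev v := by rw [kvec_cons, kvec_cons, kvec_nil, add_zero]
  constructor
  · rintro (⟨k, hk, rfl⟩ | ⟨_, rfl⟩)
    · rw [List.mem_singleton] at hk
      subst hk
      exact Or.inr ⟨u, by simp, v, by simp, e⟩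
    · exact Or.inl rfl
  · rintro (rfl | ⟨s, hs, t, ht, rfl⟩)
    · exact Or.inr ⟨rfl, rfl⟩
    · rw [Finset.mem_singleton] at hs ht
      subst hs ht
      exact Or.inl ⟨_, List.mem_singleton.2 rfl, e.symm⟩

theorem jump_two (u v : ℕ) : Jump (pcS (true, [], [[u, v]])) := by
  rw [pcS_two]
  exact jump_Un _ _

/-- plus token: `[u]` or `[v]` -/
theorem pcS_tok (u v : ℕ) (x : ℕ → ℤ) : x ∈ pcS (false, [], [[u], [v]]) ↔ x = ev u ∨ x = ev v := by
  show ((∃ k ∈ [[u], [v]], x = kvec k) ∨ (false = true ∧ x ∈ JS (fs []) none4)) ↔ _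
  have e : ∀ u, kvec [u] = ev u := fun u => by rw [kvec_cons, kvec_nil, add_zero]
  constructor
  · rintro (⟨k, hk, rfl⟩ | ⟨h, _⟩)
    · simp only [List.mem_cons, List.not_mem_nil, or_false] at hk
      rcases hk with rfl | rfl
      · exact Or.inl (e _)
      · exact Or.inr (e _)
    · cases h
  · rintro (rfl | rfl)
    · exact Or.inl ⟨[u], by simp, (e _).symm⟩
    · exact Or.inl ⟨[v], by simp, (e _).symm⟩

theorem jump_pair (a b : ℕ) {i : ℕ} {ε : ℤ} (hε : ε = 1 ∨ ε = -1)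
    (hpos : 0 < ε * ((ev b : ℕ → ℤ) i - ev a i)) :
    ∃ (j : ℕ) (δ : ℤ), (δ = 1 ∨ δ = -1) ∧
      0 < δ * ((ev b : ℕ → ℤ) j - (ev a + Pi.single i ε : ℕ → ℤ) j) ∧
      ev a + Pi.single i ε + Pi.single j δ = (ev b : ℕ → ℤ) := by
  have hab : a ≠ b := by
    rintro rfl; simp at hpos
  have e1 : ∀ w : ℕ, (Pi.single w (1 : ℤ) : ℕ → ℤ) = ev w := fun w => rfl
  have e2 : ∀ w : ℕ, (Pi.single w (-1 : ℤ) : ℕ → ℤ) = - ev w := fun w => single_neg_one w
  have hi : (ε = 1 ∧ i = b) ∨ (ε = -1 ∧ i = a) := by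
    rw [TFC.ev_apply, TFC.ev_apply] at hpos
    by_cases h1 : i = b
    · by_cases h2 : i = a
      · exact absurd (h2.symm.trans h1) hab
      · rw [if_pos h1, if_neg h2] at hpos
        left
        rcases hε with rfl | rfl
        · exact ⟨rfl, h1⟩
        · norm_num at hpos
    · by_cases h2 : i = a
      · rw [if_neg h1, if_pos h2] at hpos
        right
        rcases hε with rfl | rfl
        · norm_num at hpos
        · exact ⟨rfl, h2⟩
      · rw [if_neg h1, if_neg h2] at hpos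
        simp at hpos
  rcases hi with ⟨rfl, rfl⟩ | ⟨rfl, rfl⟩
  · refine ⟨a, -1, Or.inr rfl, ?_, ?_⟩
    · rw [e1, Pi.add_apply, TFC.ev_apply, TFC.ev_apply, if_neg hab, if_pos rfl]
      norm_num
    · rw [e1, e2]; abel
  · refine ⟨b, 1, Or.inl rfl, ?_, ?_⟩
    · rw [e2, Pi.add_apply, Pi.neg_apply, TFC.ev_apply, TFC.ev_apply, if_neg hab.symm, if_pos rfl]
      norm_num
    · rw [e1, e2]; abel

theorem jump_tok (u v : ℕ) : Jump (pcS (false, [], [[u], [v]])) := by
  intro x hx y hy i ε hε hpos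
  rw [pcS_tok] at hx hy
  rcases hx with rfl | rfl <;> rcases hy with rfl | rfl
  · simp at hpos
  · obtain ⟨j, δ, h1, h2, h3⟩ := jump_pair _ _ hε hpos
    exact ⟨j, δ, h1, h2, by rw [h3, pcS_tok]; exact Or.inr rfl⟩
  · obtain ⟨j, δ, h1, h2, h3⟩ := jump_pair _ _ hε hpos
    exact ⟨j, δ, h1, h2, by rw [h3, pcS_tok]; exact Or.inl rfl⟩
  · simp at hpos

end Pool.Agent.PF4.Gd
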