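import Pool.Agent.PF4.XCal

/-!
# The rooted Gallai-Edmonds inequality for jump sets

`J` a jump set of vectors, `z` the root coordinate, `0` not in `J`. The facts are the signed units `(v, ε)` with
`ε e_v + e_z` in `J`. `phi` counts each vector with the types of the facts; `phi d ≥ 1` for all `d` in `J` with `d z = 0` or
`d z = 1`.
-/

set_option autoImplicit false

namespace Pool.Agent.PF4.RG

open Finset Pool.Agent.TFC Pool.Agent.PF4 Pool.Agent.PF4.LD Pool.Agent.PF4.XC

/-- the signed unit `(v, ε)` is a fact -/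
def Fa (J : (ℕ → ℤ) → Prop) (z v : ℕ) (ε : ℤ) : Prop := J (Pi.single v ε + Pi.single z 1)

open Classical in
/-- contribution of the coordinate `v` -/
noncomputable def wt (J : (ℕ → ℤ) → Prop) (z v : ℕ) (a : ℤ) : ℤ :=
  if Fa J z v 1 then (if Fa J z v (-1) then a % 2 else a) else if Fa J z v (-1) then -a else 0

/-- the form -/
noncomputable def phi (J : (ℕ → ℤ) → Prop) (z : ℕ) (S : Finset ℕ) (d : ℕ → ℤ) : ℤ := ∑ v ∈ S, wt J z v (d v)

theorem wt_step (J : (ℕ → ℤ) → Prop) (z v : ℕ) (a δ : ℤ) (hδ : δ = 1 ∨ δ = -1) :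
    wt J z v (a + δ) ≤ wt J z v a + 1 := by
  unfold wt
  split_ifs <;> rcases hδ with rfl | rfl <;> omega

theorem wt_good {J : (ℕ → ℤ) → Prop} {z v : ℕ} {a ε : ℤ} (hε : ε = 1 ∨ ε = -1) (hf : Fa J z v ε) (h : 0 < ε * a)
    (hz : Fa J z v 1 → Fa J z v (-1) → a.natAbs ≤ 1) : 1 ≤ wt J z v a ∧ wt J z v (a - ε) = wt J z v a - 1 := by
  unfold wt
  rcases hε with rfl | rfl
  · rw [if_pos hf, if_pos hf]
    by_cases h2 : Fa J z v (-1)
    · have := hz hf h2
      rw [if_pos h2, if_pos h2]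
      omega
    · rw [if_neg h2, if_neg h2]
      omega
  · by_cases h2 : Fa J z v 1
    · have := hz h2 hf
      rw [if_pos h2, if_pos h2, if_pos hf, if_pos hf]
      omega
    · rw [if_neg h2, if_neg h2, if_pos hf, if_pos hf]
      omega

theorem wt_bad {J : (ℕ → ℤ) → Prop} {z v : ℕ} {a : ℤ} (h : wt J z v a < 0) :
    ∃ η : ℤ, (η = 1 ∨ η = -1) ∧ 0 < η * a ∧ Fa J z v (-η) := by
  unfold wt at h
  split_ifs at h with h1 h2 h2
  · omega
  · exact ⟨-1, Or.inr rfl, by omega, by simpa using h1⟩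
  · exact ⟨1, Or.inl rfl, by omega, h2⟩
  · omega

/-- the size -/
def nm (S : Finset ℕ) (d : ℕ → ℤ) : ℕ := ∑ v ∈ S, (d v).natAbs

theorem sum_upd {S : Finset ℕ} {v : ℕ} (hv : v ∈ S) (g : ℕ → ℤ → ℤ) (d : ℕ → ℤ) (c : ℤ) :
    ∑ u ∈ S, g u ((d + Pi.single v c : ℕ → ℤ) u) = ∑ u ∈ S, g u (d u) + (g v (d v + c) - g v (d v)) := by
  rw [← Finset.add_sum_erase S _ hv, ← Finset.add_sum_erase S (fun u => g u (d u)) hv]
  have h : ∀ u ∈ S.erase v, g u ((d + Pi.single v c : ℕ → ℤ) u) = g u (d u) := by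
    intro u hu
    rw [Pi.add_apply, sgl, if_neg (Finset.ne_of_mem_erase hu), add_zero]
  rw [Finset.sum_congr rfl h, Pi.add_apply, sgl, if_pos rfl]
  ring

theorem nm_upd {S : Finset ℕ} {v : ℕ} (hv : v ∈ S) (d : ℕ → ℤ) (c : ℤ) :
    (nm S (d + Pi.single v c) : ℤ) = nm S d + ((d v + c).natAbs - (d v).natAbs) := by
  have h := sum_upd hv (fun _ a => (a.natAbs : ℤ)) d c
  unfold nm
  rw [Nat.cast_sum, Nat.cast_sum]
  exact h

theorem phi_upd (J : (ℕ → ℤ) → Prop) (z : ℕ) {S : Finset ℕ} {v : ℕ} (hv : v ∈ S) (d : ℕ → ℤ) (c : ℤ) :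
    phi J z S (d + Pi.single v c) = phi J z S d + (wt J z v (d v + c) - wt J z v (d v)) :=
  sum_upd hv (fun u a => wt J z u a) d c

/-! ### periodicity -/

theorem jb_even (v : ℕ) : JB (fun b => ∃ k : ℤ, b = Pi.single v (2 * k)) := by
  rintro _ _ i ε ⟨k, rfl⟩ ⟨l, rfl⟩ hε h
  rw [sgl, sgl] at h
  by_cases hi : i = v
  · subst hi
    rw [if_pos rfl, if_pos rfl] at h
    refine ⟨Pi.single i (2 * (k + ε)), ⟨k + ε, rfl⟩, i, ε, hε, ?_, ?_⟩
    · rw [Pi.add_apply, sgl, sgl, sgl, if_pos rfl, if_pos rfl, if_pos rfl]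
      rcases hε with rfl | rfl <;> omega
    · funext u
      rw [Pi.add_apply, Pi.add_apply, sgl, sgl, sgl]
      split_ifs <;> ring
  · rw [if_neg hi, if_neg hi] at h
    simp at h

/-- properties of the extended jump set -/
structure Ext (J J' : (ℕ → ℤ) → Prop) (z : ℕ) (S Z : Finset ℕ) : Prop where
  jb : JB J'
  sub : ∀ x, J x → J' x
  off : ∀ x, J' x → ∀ v, v ∉ S → v ≠ z → x v = 0
  no : ¬ J' 0
  fa : ∀ v (ε : ℤ), v ≠ z → (ε = 1 ∨ ε = -1) → Fa J' z v ε → Fa J z v ε
  per : ∀ v ∈ Z, ∀ x, J' x → ∀ k : ℤ, J' (x + Pi.single v (2 * k))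

theorem extend {J : (ℕ → ℤ) → Prop} {z : ℕ} {S : Finset ℕ} (hJ : JB J)
    (hoff : ∀ x, J x → ∀ v, v ∉ S → v ≠ z → x v = 0) (h0 : ¬ J 0) (Z : Finset ℕ)
    (hZ : ∀ v ∈ Z, v ∈ S ∧ v ≠ z ∧ Fa J z v 1 ∧ Fa J z v (-1)) : ∃ J', Ext J J' z S Z := by
  classical
  induction Z using Finset.induction_on with
  | empty => exact ⟨J, hJ, fun _ h => h, hoff, h0, fun _ _ _ _ h => h, fun v hv => by simp at hv⟩
  | insert v Z hv ih =>
    obtain ⟨J₁, e⟩ := ih fun u hu => hZ u (Finset.mem_insert_of_mem hu)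
    obtain ⟨hvS, hvz, hf1, hf2⟩ := hZ v (Finset.mem_insert_self _ _)
    have g1 : J₁ (Pi.single v 1 + Pi.single z 1) := e.sub _ hf1
    have g2 : J₁ (Pi.single v (-1) + Pi.single z 1) := e.sub _ hf2
    -- the key step
    have key : ∀ (m : ℤ), m ≠ 0 → ∃ η : ℤ, (η = 1 ∨ η = -1) ∧ 0 < η * m ∧
        J₁ (Pi.single v (-η) + Pi.single z 1) := by
      intro m hm
      rcases lt_or_gt_of_ne hm with h | h
      · exact ⟨-1, Or.inr rfl, by omega, by simpa using g1⟩
      · exact ⟨1, Or.inl rfl, by omega, g2⟩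
    refine ⟨fun x => ∃ a b, J₁ a ∧ (∃ k : ℤ, b = Pi.single v (2 * k)) ∧ x = a + b,
      e.jb.add (S := {v}) (jb_even v) ?_, ?_, ?_, ?_, ?_, ?_⟩
    · rintro b ⟨k, rfl⟩ u hu
      rw [Finset.mem_singleton] at hu
      rw [sgl, if_neg hu]
    · intro x hx
      exact ⟨x, Pi.single v (2 * 0), e.sub x hx, ⟨0, rfl⟩, by simp⟩
    · rintro _ ⟨a, _, ha, ⟨k, rfl⟩, rfl⟩ u hu huz
      rw [Pi.add_apply, e.off a ha u hu huz, sgl, if_neg (fun h => hu (by rw [h]; exact hvS)), add_zero]
    · rintro ⟨a, _, ha, ⟨k, rfl⟩, h⟩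
      by_cases hk : k = 0
      · subst hk
        have : a = 0 := by simpa using h.symm
        rw [this] at ha
        exact e.no ha
      · obtain ⟨η, hη, hη2, hx⟩ := key (-k) (by omega)
        have ha2 : ∀ u, a u = if u = v then -(2 * k) else 0 := by
          intro u
          have := congrFun h u
          rw [Pi.add_apply, sgl, Pi.zero_apply] at this
          split_ifs at this ⊢ <;> omega
        obtain ⟨w, hw, j, δ, hδ, hj, rfl⟩ := e.jb _ _ z (-1) hx ha (Or.inr rfl) (by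
          rw [ha2, Pi.add_apply, sgl, sgl, if_neg hvz.symm, if_neg hvz.symm, if_pos rfl]
          norm_num)
        simp only [Pi.add_apply, sgl, ha2] at hj
        have hjv : j = v := by
          by_contra hjv
          simp only [if_neg hjv] at hj
          by_cases hjz : j = z
          · simp [hjz] at hj
          · simp [hjz] at hj
        subst hjv
        simp only [if_pos, if_neg hvz] at hj
        have hd : δ = η := by
          rcases hδ with rfl | rfl <;> rcases hη with rfl | rfl <;> first | rfl | (exfalso; omega)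
        apply e.no
        have e0 : (Pi.single j (-η) + Pi.single z 1 + Pi.single z (-1) + Pi.single j δ : ℕ → ℤ) = 0 := by
          rw [hd, Pi.single_neg, Pi.single_neg]
          abel
        rw [e0] at hw
        exact hw
    · rintro u ε huz hε ⟨a, _, ha, ⟨k, rfl⟩, h⟩
      by_cases huv : u = v
      · subst huv
        rcases hε with rfl | rfl
        · exact hf1
        · exact hf2
      · refine e.fa u ε huz hε ?_
        show J₁ (Pi.single u ε + Pi.single z 1)
        by_cases hk : k = 0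
        · subst hk
          have : a = Pi.single u ε + Pi.single z 1 := by simpa using h.symm
          rw [← this]
          exact ha
        · obtain ⟨η, hη, hη2, hx⟩ := key (-k) (by omega)
          have ha2 : ∀ w, a w = (if w = u then ε else 0) + (if w = z then 1 else 0) -
              (if w = v then 2 * k else 0) := by
            intro w
            have := congrFun h w
            rw [Pi.add_apply, Pi.add_apply, sgl, sgl, sgl] at this
            omega
          obtain ⟨w, hw, j, δ, hδ, hj, rfl⟩ := e.jb _ _ u ε hx ha hε (by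
            rw [ha2, Pi.add_apply, sgl, sgl, if_pos rfl, if_neg huv, if_neg huz, if_neg huv]
            rcases hε with rfl | rfl <;> norm_num)
          simp only [Pi.add_apply, sgl, ha2] at hj
          have hjv : j = v := by
            by_contra hjv
            simp only [if_neg hjv] at hj
            have : ((if j = u then ε else 0) + (if j = z then 1 else 0) - 0 -
              (0 + (if j = z then 1 else 0) + if j = u then ε else 0) : ℤ) = 0 := by ring
            rw [this] at hj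
            simp at hj
          subst hjv
          have h5 : ¬ j = u := fun h => huv h.symm
          simp only [if_pos, if_neg hvz, if_neg h5] at hj
          have hd : δ = η := by
            rcases hδ with rfl | rfl <;> rcases hη with rfl | rfl <;> first | rfl | (exfalso; omega)
          have e0 : (Pi.single j (-η) + Pi.single z 1 + Pi.single u ε + Pi.single j δ : ℕ → ℤ) =
              Pi.single u ε + Pi.single z 1 := by
            rw [hd, Pi.single_neg]
            abel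
          rw [e0] at hw
          exact hw
    · rintro u hu _ ⟨a, _, ha, ⟨k, rfl⟩, rfl⟩ l
      rcases Finset.mem_insert.1 hu with rfl | hu
      · refine ⟨a, Pi.single u (2 * (k + l)), ha, ⟨k + l, rfl⟩, ?_⟩
        rw [add_assoc, ← Pi.single_add]
        congr 2
        ring
      · refine ⟨a + Pi.single u (2 * l), Pi.single v (2 * k), e.per u hu a ha l, ⟨k, rfl⟩, ?_⟩
        abel

/-! ### the inequality -/

theorem step {J : (ℕ → ℤ) → Prop} {z : ℕ} {S : Finset ℕ} (hJ : JB J) (hzS : z ∉ S)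
    (hoff : ∀ x, J x → ∀ v, v ∉ S → v ≠ z → x v = 0) (h0 : ¬ J 0)
    (hne : ∃ v ∈ S, ∃ ε : ℤ, (ε = 1 ∨ ε = -1) ∧ Fa J z v ε) {d : ℕ → ℤ} (hd : J d) (hdz : d z = 0 ∨ d z = 1)
    (hZ : ∀ v ∈ S, Fa J z v 1 → Fa J z v (-1) → (d v).natAbs ≤ 1) (hp : phi J z S d ≤ 0) :
    ∃ d', J d' ∧ phi J z S d' ≤ 0 ∧ ((d' z = d z ∧ nm S d' < nm S d) ∨ (d z = 0 ∧ d' z = 1)) := by
  have hSz : ∀ v ∈ S, v ≠ z := fun v hv h => hzS (h ▸ hv)
  have hjS : ∀ j, d j ≠ 0 → j ≠ z → j ∈ S := by
    intro j hj hjz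
    by_contra hc
    exact hj (hoff d hd j hc hjz)
  -- a right unit
  obtain ⟨v, hv, ε, hε, hf, hv2⟩ : ∃ v ∈ S, ∃ ε : ℤ, (ε = 1 ∨ ε = -1) ∧ Fa J z v ε ∧ 0 < ε * d v := by
    obtain ⟨u, hu, η, hη, hs⟩ := hne
    by_cases h1 : 0 < η * d u
    · exact ⟨u, hu, η, hη, hs, h1⟩
    · have huz := hSz u hu
      obtain ⟨w, hw, j, δ, hδ, hj, rfl⟩ := hJ _ _ u (-η) hs hd (by omega) (by
        rw [Pi.add_apply, sgl, sgl, if_pos rfl, if_neg huz]
        rcases hη with rfl | rfl <;> omega)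
      have e1 : (Pi.single u η + Pi.single z 1 + Pi.single u (-η) : ℕ → ℤ) = Pi.single z 1 := by
        rw [Pi.single_neg]; abel
      rw [e1] at hj hw
      by_cases hjz : j = z
      · subst hjz
        rw [sgl, if_pos rfl] at hj
        exfalso
        have h2 : δ = -1 := by
          rcases hδ with rfl | rfl
          · exfalso; omega
          · rfl
        apply h0
        have e2 : (Pi.single j 1 + Pi.single j δ : ℕ → ℤ) = 0 := by
          rw [h2, Pi.single_neg]; abel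
        rw [e2] at hw
        exact hw
      · rw [sgl, if_neg hjz, sub_zero] at hj
        refine ⟨j, hjS j ?_ hjz, δ, hδ, ?_, hj⟩
        · intro h; rw [h] at hj; simp at hj
        · show J (Pi.single j δ + Pi.single z 1)
          rw [add_comm]
          exact hw
  obtain ⟨g1, g2⟩ := wt_good hε hf hv2 (hZ v hv)
  -- a wrong unit
  obtain ⟨w, hw, η, hη, hw2, hwf⟩ : ∃ w ∈ S, ∃ η : ℤ, (η = 1 ∨ η = -1) ∧ 0 < η * d w ∧ Fa J z w (-η) ∧ w ≠ v := by
    have h1 : ∃ w ∈ S, wt J z w (d w) < 0 := by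
      by_contra hc
      push Not at hc
      have h2 : wt J z v (d v) ≤ phi J z S d :=
        Finset.single_le_sum (f := fun u => wt J z u (d u)) (fun u hu => hc u hu) hv
      omega
    obtain ⟨w, hw, h2⟩ := h1
    obtain ⟨η, h3, h4, h5⟩ := wt_bad h2
    refine ⟨w, hw, η, h3, h4, h5, ?_⟩
    rintro rfl
    omega
  obtain ⟨hwf, hwv⟩ := hwf
  have hvz := hSz v hv
  have hwz := hSz w hw
  have hvw : ¬ v = w := fun h => hwv h.symm
  obtain ⟨w', hw', j, δ, hδ, hj, rfl⟩ := hJ _ _ v (-ε) hd hwf (by omega) (by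
    rw [Pi.add_apply, sgl, sgl, if_neg hvw, if_neg hvz]
    rcases hε with rfl | rfl <;> omega)
  have hp1 : phi J z S (d + Pi.single v (-ε)) = phi J z S d - 1 := by
    rw [phi_upd J z hv, ← sub_eq_add_neg, g2]
    ring
  by_cases hjz : j = z
  · subst hjz
    have hz1 : ∀ a b : ℕ, a ≠ b → (Pi.single b (-ε) : ℕ → ℤ) a = 0 := fun a b h => by rw [sgl, if_neg h]
    simp only [Pi.add_apply, sgl, if_neg hvz.symm, if_neg hwz.symm, if_true, zero_add, add_zero] at hj
    have h3 : d j = 0 ∧ δ = 1 := by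
      rcases hdz with h | h <;> rw [h] at hj <;> rcases hδ with rfl | rfl
      · exact ⟨h, rfl⟩
      · exfalso; omega
      · exfalso; omega
      · exfalso; omega
    refine ⟨_, hw', ?_, Or.inr ⟨h3.1, ?_⟩⟩
    · have h4 : phi J j S (d + Pi.single v (-ε) + Pi.single j δ) = phi J j S (d + Pi.single v (-ε)) := by
        unfold phi
        refine Finset.sum_congr rfl fun u hu => ?_
        have e5 : (d + Pi.single v (-ε) + Pi.single j δ : ℕ → ℤ) u = (d + Pi.single v (-ε) : ℕ → ℤ) u := by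
          rw [Pi.add_apply, sgl, if_neg (hSz u hu), add_zero]
        rw [e5]
      rw [h4, hp1]
      omega
    · rw [Pi.add_apply, Pi.add_apply, sgl, sgl, if_neg hvz.symm, if_pos rfl, h3.1, h3.2]
      norm_num
  · -- the second step is a removal
    have hrem : (d + Pi.single v (-ε) : ℕ → ℤ) j ≠ 0 ∧ δ * (d + Pi.single v (-ε) : ℕ → ℤ) j < 0 := by
      by_cases hjw : j = w
      · subst hjw
        have e1 : (d + Pi.single v (-ε) : ℕ → ℤ) j = d j := by
          rw [Pi.add_apply, sgl, if_neg hwv, add_zero]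
        rw [e1] at hj ⊢
        rw [Pi.add_apply, sgl, sgl, if_pos rfl, if_neg hjz] at hj
        constructor
        · intro h; rw [h] at hw2; simp at hw2
        · rcases hη with rfl | rfl <;> rcases hδ with rfl | rfl <;> omega
      · have e1 : (Pi.single w (-η) + Pi.single z 1 : ℕ → ℤ) j = 0 := by
          rw [Pi.add_apply, sgl, sgl, if_neg hjw, if_neg hjz, add_zero]
        rw [e1] at hj
        constructor
        · intro h; rw [h] at hj; simp at hj
        · rcases hδ with rfl | rfl <;> omega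
    have hjS' : j ∈ S := by
      by_cases hjv : j = v
      · rw [hjv]; exact hv
      · refine hjS j ?_ hjz
        have h1 := hrem.1
        rw [Pi.add_apply, sgl, if_neg hjv, add_zero] at h1
        exact h1
    refine ⟨_, hw', ?_, Or.inl ⟨?_, ?_⟩⟩
    · rw [phi_upd J z hjS', hp1]
      have := wt_step J z j ((d + Pi.single v (-ε) : ℕ → ℤ) j) δ hδ
      omega
    · rw [Pi.add_apply, Pi.add_apply, sgl, sgl, if_neg hvz.symm, if_neg (Ne.symm hjz), add_zero, add_zero]
    · have h1 := nm_upd hjS' (d + Pi.single v (-ε)) δ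
      have h2 := nm_upd hv d (-ε)
      have h3 := hrem.2
      generalize (d + Pi.single v (-ε) : ℕ → ℤ) j = c at h1 h3
      rcases hε with rfl | rfl <;> rcases hδ with rfl | rfl <;> omega

/-- the inequality for periodic jump sets -/
theorem ineq_per {J : (ℕ → ℤ) → Prop} {z : ℕ} {S : Finset ℕ} (hJ : JB J) (hzS : z ∉ S)
    (hoff : ∀ x, J x → ∀ v, v ∉ S → v ≠ z → x v = 0) (h0 : ¬ J 0)
    (hne : ∃ v ∈ S, ∃ ε : ℤ, (ε = 1 ∨ ε = -1) ∧ Fa J z v ε)
    (hper : ∀ v ∈ S, Fa J z v 1 → Fa J z v (-1) → ∀ x, J x → ∀ k : ℤ, J (x + Pi.single v (2 * k))) :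
    ∀ l : ℤ, (l = 0 ∨ l = 1) → ∀ (n : ℕ) (d : ℕ → ℤ), J d → d z = l → nm S d = n → 1 ≤ phi J z S d := by
  have hSz : ∀ v ∈ S, v ≠ z := fun v hv h => hzS (h ▸ hv)
  have main : ∀ l : ℤ, (l = 0 ∨ l = 1) → (l = 0 → ∀ d, J d → d z = 1 → 1 ≤ phi J z S d) →
      ∀ (n : ℕ) (d : ℕ → ℤ), J d → d z = l → nm S d = n → 1 ≤ phi J z S d := by
    intro l hl h1 n
    induction n using Nat.strong_induction_on with
    | _ n ih =>
      intro d hd hdl hn
      by_contra hc
      have hp : phi J z S d ≤ 0 := by omega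
      by_cases hZ : ∀ v ∈ S, Fa J z v 1 → Fa J z v (-1) → (d v).natAbs ≤ 1
      · obtain ⟨d', hd', hp', h2 | h2⟩ := step hJ hzS hoff h0 hne hd (by rw [hdl]; exact hl) hZ hp
        · have := ih (nm S d') (by omega) d' hd' (by rw [h2.1, hdl]) rfl
          omega
        · have := h1 (by rw [← hdl]; exact h2.1) d' hd' h2.2
          omega
      · push Not at hZ
        obtain ⟨v, hv, f1, f2, h3⟩ := hZ
        obtain ⟨k, hk⟩ : ∃ k : ℤ, (k = 1 ∨ k = -1) ∧ k * d v < 0 := by
          rcases lt_or_ge (d v) 0 with h | h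
          · exact ⟨1, Or.inl rfl, by omega⟩
          · exact ⟨-1, Or.inr rfl, by omega⟩
        have hd' := hper v hv f1 f2 d hd k
        have hw : phi J z S (d + Pi.single v (2 * k)) = phi J z S d := by
          rw [phi_upd J z hv]
          have : wt J z v (d v + 2 * k) = wt J z v (d v) := by
            unfold wt
            rw [if_pos f1, if_pos f2, if_pos f1, if_pos f2]
            omega
          rw [this]
          ring
        have hnm := nm_upd hv d (2 * k)
        have h4 : nm S (d + Pi.single v (2 * k)) < n := by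
          rcases hk with ⟨rfl | rfl, h5⟩ <;> omega
        have := ih _ h4 _ hd' (by rw [Pi.add_apply, sgl, if_neg (hSz v hv).symm, add_zero, hdl]) rfl
        omega
  intro l hl
  refine main l hl ?_
  intro _ d hd hd1
  exact main 1 (Or.inr rfl) (fun h => by omega) _ d hd hd1 rfl

/-- **the rooted Gallai-Edmonds inequality** -/
theorem rgc {J : (ℕ → ℤ) → Prop} {z : ℕ} {S : Finset ℕ} (hJ : JB J) (hzS : z ∉ S)
    (hoff : ∀ x, J x → ∀ v, v ∉ S → v ≠ z → x v = 0) (h0 : ¬ J 0)
    (hne : ∃ v ∈ S, ∃ ε : ℤ, (ε = 1 ∨ ε = -1) ∧ Fa J z v ε) {d : ℕ → ℤ} (hd : J d) (hdz : d z = 0 ∨ d z = 1) :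
    1 ≤ phi J z S d := by
  classical
  have hSz : ∀ v ∈ S, v ≠ z := fun v hv h => hzS (h ▸ hv)
  obtain ⟨J', e⟩ := extend hJ hoff h0 (S.filter fun v => Fa J z v 1 ∧ Fa J z v (-1)) (by
    intro v hv
    rw [Finset.mem_filter] at hv
    exact ⟨hv.1, hSz v hv.1, hv.2⟩)
  have hfa : ∀ v ∈ S, ∀ ε : ℤ, (ε = 1 ∨ ε = -1) → (Fa J' z v ε ↔ Fa J z v ε) := fun v hv ε hε =>
    ⟨e.fa v ε (hSz v hv) hε, fun h => e.sub _ h⟩
  have hphi : phi J' z S d = phi J z S d := by
    unfold phi
    refine Finset.sum_congr rfl fun v hv => ?_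
    unfold wt
    simp only [hfa v hv 1 (Or.inl rfl), hfa v hv (-1) (Or.inr rfl)]
  rw [← hphi]
  refine ineq_per e.jb hzS e.off e.no ?_ ?_ (d z) hdz _ d (e.sub d hd) rfl rfl
  · obtain ⟨v, hv, ε, hε, h⟩ := hne
    exact ⟨v, hv, ε, hε, (hfa v hv ε hε).2 h⟩
  · intro v hv f1 f2
    refine e.per v ?_
    rw [Finset.mem_filter]
    exact ⟨hv, (hfa v hv 1 (Or.inl rfl)).1 f1, (hfa v hv (-1) (Or.inr rfl)).1 f2⟩

end Pool.Agent.PF4.RG
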