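import Pool.Agent.PF4.Loop

/-!
# The loop of the solver

A fact is a pair `(p, s)` of a port `p < np x` and a witness `s`. One round: `relax` (one matching call with the facts found
so far) reports that there is no solution or gives a relaxed object; `red` lowers the number `mu` of violations of the relaxed
object or gives a new fact; `fin` turns a relaxed object without violations into a solution or a new fact. `solve` finds a
solution or reports that there is none.
-/

set_option autoImplicit false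

namespace Pool.Agent.PF4

open Pool.Agent.Lib.helper60

/-- facts found so far -/
abbrev Fct (S : Type) : Type := List (ℕ × S)

/-- the interface of the solver loop -/
structure SolApi (ι S R : Type) [DEnc ι] [DEnc S] [DEnc R] where
  /-- number of ports -/
  np : ι → ℕ
  /-- bound of the number of violations -/
  mub : ι → ℕ
  /-- bound of the sizes -/
  B : ι → ℕ
  /-- well-formed instances -/
  wf : ι → Prop
  /-- `s` is a witness for the port `p` -/
  fact : ι → ℕ → S → Prop
  /-- solutions -/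
  sol : ι → S → Prop
  /-- relaxed objects, relative to the facts -/
  good : ι → Fct S → R → Prop
  /-- number of violations -/
  mu : ι → R → ℕ
  /-- the facts known at the start -/
  init : ι → Fct S
  s0 : S
  r0 : R
  relax : ι × Fct S → Bool × R
  red : ι × Fct S × R → Bool × R × ℕ × S
  fin : ι × Fct S × R → Bool × ℕ × S
  pt_np : PT np
  pt_mub : PT mub
  pt_B : PT B
  pt_mu : PT (fun y : ι × R => mu y.1 y.2)
  pt_init : PT init
  pt_relax : PT relax
  pt_red : PT red
  pt_fin : PT fin
  size_fact : ∀ x p s, wf x → fact x p s → tsize s ≤ B x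
  size_sol : ∀ x s, wf x → sol x s → tsize s ≤ B x
  size_good : ∀ x F r, wf x → good x F r → tsize r ≤ B x
  mu_le : ∀ x F r, wf x → good x F r → mu x r ≤ mub x
  init_spec : ∀ x, wf x → (∀ p ∈ init x, p.1 < np x ∧ fact x p.1 p.2) ∧ ((init x).map Prod.fst).Nodup
  relax_spec : ∀ x F, wf x → (∀ p ∈ F, p.1 < np x ∧ fact x p.1 p.2) → (F.map Prod.fst).Nodup →
    (∀ p ∈ init x, p ∈ F) →
    ((relax (x, F)).1 = true → good x F (relax (x, F)).2) ∧
      ((relax (x, F)).1 = false → ¬ ∃ s, sol x s)
  red_spec : ∀ x F r, wf x → (∀ p ∈ F, p.1 < np x ∧ fact x p.1 p.2) → (F.map Prod.fst).Nodup →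
    (∀ p ∈ init x, p ∈ F) → good x F r → 0 < mu x r →
    ((red (x, F, r)).1 = true → good x F (red (x, F, r)).2.1 ∧ mu x (red (x, F, r)).2.1 < mu x r) ∧
      ((red (x, F, r)).1 = false → (red (x, F, r)).2.2.1 < np x ∧
        fact x (red (x, F, r)).2.2.1 (red (x, F, r)).2.2.2 ∧ (red (x, F, r)).2.2.1 ∉ F.map Prod.fst)
  fin_spec : ∀ x F r, wf x → (∀ p ∈ F, p.1 < np x ∧ fact x p.1 p.2) → (F.map Prod.fst).Nodup →
    (∀ p ∈ init x, p ∈ F) → good x F r → mu x r = 0 →
    ((fin (x, F, r)).1 = true → sol x (fin (x, F, r)).2.2) ∧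
      ((fin (x, F, r)).1 = false → (fin (x, F, r)).2.1 < np x ∧
        fact x (fin (x, F, r)).2.1 (fin (x, F, r)).2.2 ∧ (fin (x, F, r)).2.1 ∉ F.map Prod.fst)

namespace SolApi

variable {ι S R : Type} [DEnc ι] [DEnc S] [DEnc R] (A : SolApi ι S R)

/-- state: facts, mode (`0`: call `relax` next, otherwise: `r` is a relaxed object), relaxed object, status (`0` running,
`1` solved, `2` none), solution -/
abbrev Sta (S R : Type) : Type := Fct S × ℕ × R × ℕ × S

/-- one step -/
def step (x : ι) (s : Sta S R) : Sta S R :=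
  let F := s.1
  let m := s.2.1
  let r := s.2.2.1
  let st := s.2.2.2.1
  let w := s.2.2.2.2
  if st = 0 then
    if m = 0 then
      let q := A.relax (x, F)
      bif q.1 then (F, 1, q.2, 0, w) else (F, 0, r, 2, w)
    else if A.mu x r = 0 then
      let q := A.fin (x, F, r)
      bif q.1 then (F, 0, r, 1, q.2.2) else (q.2 :: F, 0, r, 0, w)
    else
      let q := A.red (x, F, r)
      bif q.1 then (F, 1, q.2.1, 0, w) else (q.2.2 :: F, 0, r, 0, w)
  else s

/-- the invariant -/
structure Inv (x : ι) (s : Sta S R) : Prop where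
  fac : ∀ p ∈ s.1, p.1 < A.np x ∧ A.fact x p.1 p.2
  nod : (s.1.map Prod.fst).Nodup
  ini : ∀ p ∈ A.init x, p ∈ s.1
  mle : s.2.1 ≤ 1
  rel : s.2.2.2.1 = 0 → s.2.1 ≠ 0 → A.good x s.1 s.2.2.1
  rsz : tsize s.2.2.1 ≤ A.B x + tsize A.r0
  sta : s.2.2.2.1 = 0 ∨ s.2.2.2.1 = 1 ∨ s.2.2.2.1 = 2
  so1 : s.2.2.2.1 = 1 → A.sol x s.2.2.2.2
  so2 : s.2.2.2.1 = 2 → ¬ ∃ w, A.sol x w
  wsz : tsize s.2.2.2.2 ≤ A.B x + tsize A.s0

/-- the potential -/
def Phi (x : ι) (s : Sta S R) : ℕ :=
  (A.np x - s.1.length) * (A.mub x + 2) + (if s.2.1 = 0 then A.mub x + 1 else A.mu x s.2.2.1)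

theorem len_le {x : ι} {F : Fct S} (h : ∀ p ∈ F, p.1 < A.np x ∧ A.fact x p.1 p.2)
    (hn : (F.map Prod.fst).Nodup) : F.length ≤ A.np x := by
  have h1 : (F.map Prod.fst).toFinset ⊆ Finset.range (A.np x) := by
    intro k hk
    rw [List.mem_toFinset, List.mem_map] at hk
    obtain ⟨p, hp, rfl⟩ := hk
    exact Finset.mem_range.2 (h p hp).1
  have h2 := Finset.card_le_card h1
  rw [List.toFinset_card_of_nodup hn, List.length_map, Finset.card_range] at h2
  exact h2

theorem fac_cons {x : ι} {F : Fct S} {p : ℕ} {w : S} (h : ∀ p ∈ F, p.1 < A.np x ∧ A.fact x p.1 p.2)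
    (h1 : p < A.np x) (h2 : A.fact x p w) : ∀ q ∈ (p, w) :: F, q.1 < A.np x ∧ A.fact x q.1 q.2 := by
  intro q hq
  rcases List.mem_cons.1 hq with rfl | hq
  · exact ⟨h1, h2⟩
  · exact h q hq

omit [DEnc S] in
theorem nod_cons {F : Fct S} {p : ℕ} {w : S} (h : (F.map Prod.fst).Nodup) (hp : p ∉ F.map Prod.fst) :
    (((p, w) :: F).map Prod.fst).Nodup := by
  rw [List.map_cons, List.nodup_cons]
  exact ⟨hp, h⟩

theorem inv_step {x : ι} {s : Sta S R} (hx : A.wf x) (h : A.Inv x s) :
    A.Inv x (A.step x s) ∧ (s.2.2.2.1 = 0 → (A.step x s).2.2.2.1 ≠ 0 ∨ A.Phi x (A.step x s) < A.Phi x s) := by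
  obtain ⟨F, m, r, st, w⟩ := s
  obtain ⟨fac, nod, ini, mle, rel, rsz, sta, so1, so2, wsz⟩ := h
  simp only at fac nod ini mle rel rsz sta so1 so2 wsz
  unfold step
  simp only
  by_cases h0 : st = 0
  · rw [if_pos h0]
    by_cases hm : m = 0
    · rw [if_pos hm]
      obtain ⟨k1, k2⟩ := A.relax_spec x F hx fac nod ini
      revert k1 k2
      generalize A.relax (x, F) = q
      obtain ⟨b, r'⟩ := q
      intro k1 k2
      simp only at k1 k2
      cases b with
      | true =>
        have k := k1 rfl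
        refine ⟨⟨fac, nod, ini, le_rfl, fun _ _ => k, (A.size_good x F r' hx k).trans (Nat.le_add_right _ _),
          Or.inl rfl, fun h => absurd h (by simp), fun h => absurd h (by simp), wsz⟩, fun _ => Or.inr ?_⟩
        simp only [Phi, cond_true, if_pos hm, one_ne_zero, if_false]
        have := A.mu_le x F r' hx k
        omega
      | false =>
        exact ⟨⟨fac, nod, ini, Nat.zero_le _, fun h => absurd h (by simp), rsz, Or.inr (Or.inr rfl),
          fun h => absurd h (by simp), fun _ => k2 rfl, wsz⟩, fun _ => Or.inl (by simp)⟩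
    · rw [if_neg hm]
      have hg := rel h0 hm
      by_cases hu : A.mu x r = 0
      · rw [if_pos hu]
        obtain ⟨k1, k2⟩ := A.fin_spec x F r hx fac nod ini hg hu
        revert k1 k2
        generalize A.fin (x, F, r) = q
        obtain ⟨b, p, w'⟩ := q
        intro k1 k2
        simp only at k1 k2
        cases b with
        | true =>
          have k := k1 rfl
          exact ⟨⟨fac, nod, ini, Nat.zero_le _, fun h => absurd h (by simp), rsz, Or.inr (Or.inl rfl),
            fun _ => k, fun h => absurd h (by simp), (A.size_sol x w' hx k).trans (Nat.le_add_right _ _)⟩,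
            fun _ => Or.inl (by simp)⟩
        | false =>
          obtain ⟨k3, k4, k5⟩ := k2 rfl
          have hf := A.fac_cons fac k3 k4
          have hn := nod_cons (w := w') nod k5
          have hl := A.len_le hf hn
          refine ⟨⟨hf, hn, fun q hq => List.mem_cons_of_mem _ (ini q hq), Nat.zero_le _, fun _ h => absurd rfl h, rsz, Or.inl rfl,
            fun h => absurd h (by simp), fun h => absurd h (by simp), wsz⟩, fun _ => Or.inr ?_⟩
          simp only [Phi, cond_false, if_true, if_neg hm, List.length_cons] at hl ⊢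
          obtain ⟨k, hk⟩ := Nat.exists_eq_add_of_le hl
          have e1 : A.np x - (F.length + 1) = k := by omega
          have e2 : A.np x - F.length = k + 1 := by omega
          rw [e1, e2, Nat.add_mul, Nat.one_mul]
          omega
      · rw [if_neg hu]
        obtain ⟨k1, k2⟩ := A.red_spec x F r hx fac nod ini hg (Nat.pos_of_ne_zero hu)
        revert k1 k2
        generalize A.red (x, F, r) = q
        obtain ⟨b, r', p, w'⟩ := q
        intro k1 k2
        simp only at k1 k2
        cases b with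
        | true =>
          obtain ⟨k3, k4⟩ := k1 rfl
          refine ⟨⟨fac, nod, ini, le_rfl, fun _ _ => k3, (A.size_good x F r' hx k3).trans (Nat.le_add_right _ _),
            Or.inl rfl, fun h => absurd h (by simp), fun h => absurd h (by simp), wsz⟩, fun _ => Or.inr ?_⟩
          simp only [Phi, cond_true, if_neg hm, one_ne_zero, if_false]
          omega
        | false =>
          obtain ⟨k3, k4, k5⟩ := k2 rfl
          have hf := A.fac_cons fac k3 k4
          have hn := nod_cons (w := w') nod k5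
          have hl := A.len_le hf hn
          refine ⟨⟨hf, hn, fun q hq => List.mem_cons_of_mem _ (ini q hq), Nat.zero_le _, fun _ h => absurd rfl h, rsz, Or.inl rfl,
            fun h => absurd h (by simp), fun h => absurd h (by simp), wsz⟩, fun _ => Or.inr ?_⟩
          simp only [Phi, cond_false, if_true, if_neg hm, List.length_cons] at hl ⊢
          obtain ⟨k, hk⟩ := Nat.exists_eq_add_of_le hl
          have e1 : A.np x - (F.length + 1) = k := by omega
          have e2 : A.np x - F.length = k + 1 := by omega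
          rw [e1, e2, Nat.add_mul, Nat.one_mul]
          omega
  · rw [if_neg h0]
    exact ⟨⟨fac, nod, ini, mle, rel, rsz, sta, so1, so2, wsz⟩, fun h => absurd h h0⟩

theorem step_done {x : ι} {s : Sta S R} (h : s.2.2.2.1 ≠ 0) : A.step x s = s := by
  unfold step
  simp only
  rw [if_neg h]

/-- the initial state -/
def start (x : ι) : Sta S R := (A.init x, 0, A.r0, 0, A.s0)

theorem inv_start {x : ι} (hx : A.wf x) : A.Inv x (A.start x) := by
  obtain ⟨h1, h2⟩ := A.init_spec x hx
  exact ⟨h1, h2, fun _ h => h, Nat.zero_le _, fun _ h => absurd rfl h, Nat.le_add_left _ _, Or.inl rfl,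
    fun h => absurd h (by simp [start]), fun h => absurd h (by simp [start]), Nat.le_add_left _ _⟩

theorem inv_iter {x : ι} (hx : A.wf x) (k : ℕ) : A.Inv x ((A.step x)^[k] (A.start x)) ∧
    (((A.step x)^[k] (A.start x)).2.2.2.1 = 0 →
      A.Phi x ((A.step x)^[k] (A.start x)) + k ≤ A.Phi x (A.start x)) := by
  induction k with
  | zero => exact ⟨A.inv_start hx, fun _ => le_rfl⟩
  | succ k ih =>
    rw [Function.iterate_succ_apply']
    obtain ⟨h1, h2⟩ := A.inv_step hx ih.1
    refine ⟨h1, fun h3 => ?_⟩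
    by_cases h4 : ((A.step x)^[k] (A.start x)).2.2.2.1 = 0
    · rcases h2 h4 with h5 | h5
      · exact absurd h3 h5
      · have := ih.2 h4
        omega
    · exfalso
      apply h4
      rw [A.step_done h4] at h3
      exact h3

/-- number of steps -/
def steps (x : ι) : ℕ := (A.np x + 1) * (A.mub x + 2)

theorem fin_status {x : ι} (hx : A.wf x) :
    ((A.step x)^[A.steps x] (A.start x)).2.2.2.1 ≠ 0 := by
  intro h
  have h1 := (A.inv_iter hx (A.steps x)).2 h
  have h2 : A.Phi x (A.start x) < A.steps x := by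
    unfold Phi steps start
    simp only [if_true]
    have h3 : (A.np x - (A.init x).length) * (A.mub x + 2) ≤ A.np x * (A.mub x + 2) :=
      Nat.mul_le_mul_right _ (Nat.sub_le _ _)
    rw [Nat.add_mul]
    omega
  omega

/-- bound of the size of the state -/
def Bs (x : ι) : ℕ :=
  A.np x * (2 * A.np x + A.B x + 3) + (A.B x + tsize A.r0) + (A.B x + tsize A.s0) + 20

theorem size_inv {x : ι} (hx : A.wf x) {s : Sta S R} (h : A.Inv x s) : tsize s ≤ A.Bs x := by
  obtain ⟨F, m, r, st, w⟩ := s
  obtain ⟨fac, nod, ini, mle, rel, rsz, sta, so1, so2, wsz⟩ := h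
  simp only at fac nod ini mle rel rsz sta so1 so2 wsz
  have h1 : tsize F ≤ F.length * ((2 * A.np x + A.B x + 2) + 1) + 1 := by
    refine tsize_le_of_forall fun p hp => ?_
    obtain ⟨h1, h2⟩ := fac p hp
    have h3 := A.size_fact x _ _ hx h2
    obtain ⟨p, w'⟩ := p
    simp only at h1 h3
    rw [tsize_pair, tsize_nat]
    omega
  have h2 : F.length * ((2 * A.np x + A.B x + 2) + 1) ≤ A.np x * (2 * A.np x + A.B x + 3) :=
    Nat.mul_le_mul_right _ (A.len_le fac nod)
  have h3 : st ≤ 2 := by omega
  simp only [tsize_pair, tsize_nat, Bs]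
  omega

/-- **The solver.** -/
def solve (x : ι) : Bool × S :=
  let s := (gstep (A.Bs x) (A.step x))^[A.steps x] (A.start x)
  (decide (s.2.2.2.1 = 1), s.2.2.2.2)

/-- **The solver is correct.** -/
theorem solve_spec {x : ι} (hx : A.wf x) :
    ((A.solve x).1 = true → A.sol x (A.solve x).2) ∧
      ((A.solve x).1 = false → ¬ ∃ s, A.sol x s) := by
  have h1 : (gstep (A.Bs x) (A.step x))^[A.steps x] (A.start x) = (A.step x)^[A.steps x] (A.start x) :=
    gstep_iter fun i _ => A.size_inv hx (A.inv_iter hx i).1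
  unfold solve
  simp only
  rw [h1]
  have h2 := (A.inv_iter hx (A.steps x)).1
  have h3 := A.fin_status hx
  constructor
  · intro h
    exact h2.so1 (by simpa using h)
  · intro h
    have h4 : ((A.step x)^[A.steps x] (A.start x)).2.2.2.1 ≠ 1 := by simpa using h
    rcases h2.sta with h5 | h5 | h5
    · exact absurd h5 h3
    · exact absurd h5 h4
    · exact h2.so2 h5

theorem pt_step : PT (fun y : ι × Sta S R => A.step y.1 y.2) := by
  have hx : PT (fun y : ι × Sta S R => y.1) := PT.fst
  have hF : PT (fun y : ι × Sta S R => y.2.1) := PT.snd.p1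
  have hm : PT (fun y : ι × Sta S R => y.2.2.1) := PT.snd.p2.p1
  have hr : PT (fun y : ι × Sta S R => y.2.2.2.1) := PT.snd.p2.p2.p1
  have hst : PT (fun y : ι × Sta S R => y.2.2.2.2.1) := PT.snd.p2.p2.p2.p1
  have hw : PT (fun y : ι × Sta S R => y.2.2.2.2.2) := PT.snd.p2.p2.p2.p2
  have hrel : PT (fun y : ι × Sta S R => A.relax (y.1, y.2.1)) := A.pt_relax.comp (PT.pair hx hF)
  have hred : PT (fun y : ι × Sta S R => A.red (y.1, y.2.1, y.2.2.2.1)) :=
    A.pt_red.comp (PT.pair hx (PT.pair hF hr))
  have hfin : PT (fun y : ι × Sta S R => A.fin (y.1, y.2.1, y.2.2.2.1)) :=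
    A.pt_fin.comp (PT.pair hx (PT.pair hF hr))
  have hmu : PT (fun y : ι × Sta S R => A.mu y.1 y.2.2.2.1) := A.pt_mu.comp (PT.pair hx hr)
  have c0 : ∀ k : ℕ, PT (fun _ : ι × Sta S R => k) := fun k => PT.const k
  unfold step
  refine PT.ite (PT.neq hst (c0 0)) ?_ PT.snd
  refine PT.ite (PT.neq hm (c0 0)) ?_ ?_
  · exact PT.cond hrel.p1 (PT.pair hF (PT.pair (c0 1) (PT.pair hrel.p2 (PT.pair (c0 0) hw))))
      (PT.pair hF (PT.pair (c0 0) (PT.pair hr (PT.pair (c0 2) hw))))
  · refine PT.ite (PT.neq hmu (c0 0)) ?_ ?_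
    · exact PT.cond hfin.p1 (PT.pair hF (PT.pair (c0 0) (PT.pair hr (PT.pair (c0 1) hfin.p2.p2))))
        (PT.pair (PT.cons hfin.p2 hF) (PT.pair (c0 0) (PT.pair hr (PT.pair (c0 0) hw))))
    · exact PT.cond hred.p1 (PT.pair hF (PT.pair (c0 1) (PT.pair hred.p2.p1 (PT.pair (c0 0) hw))))
        (PT.pair (PT.cons hred.p2.p2 hF) (PT.pair (c0 0) (PT.pair hr (PT.pair (c0 0) hw))))

/-- **The solver runs in polynomial time.** -/
theorem pt_solve : PT A.solve := by
  have hB : PT A.Bs := by
    unfold Bs
    exact PT.nadd (PT.nadd (PT.nadd (PT.nmul A.pt_np (PT.nadd (PT.nadd (PT.nmul (PT.const 2) A.pt_np) A.pt_B)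
      (PT.const 3))) (PT.nadd A.pt_B (PT.const _))) (PT.nadd A.pt_B (PT.const _))) (PT.const 20)
  have hs : PT A.steps := by
    unfold steps
    exact PT.nmul (PT.nadd A.pt_np (PT.const 1)) (PT.nadd A.pt_mub (PT.const 2))
  have hi : PT A.start := by
    unfold start
    exact PT.pair A.pt_init (PT.const (0, A.r0, 0, A.s0))
  have h := PT.iterG hs hB hi A.pt_step
  unfold solve
  exact PT.pair (PT.neq h.p2.p2.p2.p1 (PT.const 1)) h.p2.p2.p2.p2

end SolApi

end Pool.Agent.PF4
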