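import Pool.Agent.PF4.PcK2
import Pool.Agent.PF4.PcR
import Pool.Agent.PF4.SumX
import Pool.Agent.PF4.Sol

/-!
# The reduction step of the solver

An instance is `(n, Cs, Ot, tau)`: clusters `Cs`, other pieces `Ot`, all on the vertices `0, ..., n`, and a target `tau`.
A state is a list of vectors, one for each piece of `Cs ++ Ot`. Ports are pairs `(v, b)`, `v ≤ n`: the total of the state is
`tau - e_v` (`b = false`) or `tau + e_v` (`b = true`). A fact is an exact state at a port. A relaxed object is a state at an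
unknown port whose parts at the clusters are legal for the relaxed pieces. `red` lowers the number of the clusters with a part
that is not exact: a pool of states with one token piece for each unknown port.
-/

set_option autoImplicit false

namespace Pool.Agent.PF4.Rd

open Finset Pool.Agent.TFC Pool.Agent.Lib.helper60 Pool.Agent.PF4.LD

/-- state -/
abbrev St : Type := List (List ℕ)

/-- instance -/
abbrev Dt : Type := ℕ × List Cl × List Pc × List ℕ

/-- default cluster -/
def c0 : Cl := (false, 0, 0, [])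

/-- default piece -/
def d0 : Pc := (true, [], [])

/-! ### states -/

section
variable {P : Type} {mem : P → List ℕ → Bool} {d : P}

theorem leg_nil : Leg mem d [] [] := ⟨rfl, fun _ hq => absurd hq (Nat.not_lt_zero _)⟩

theorem leg_cons {p : P} {Ps : List P} {k : List ℕ} {s : St} (h : mem p k = true) (hs : Leg mem d Ps s) :
    Leg mem d (p :: Ps) (k :: s) := by
  refine ⟨by simp [hs.len], ?_⟩
  intro q hq
  cases q with
  | zero => simpa using h
  | succ q =>
    rw [List.getD_cons_succ, List.getD_cons_succ]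
    exact hs.mem q (by simpa using hq)

theorem leg_uncons {p : P} {Ps : List P} {s : St} (h : Leg mem d (p :: Ps) s) :
    ∃ k s', s = k :: s' ∧ mem p k = true ∧ Leg mem d Ps s' := by
  cases s with
  | nil => have := h.len; simp at this
  | cons k s =>
    refine ⟨k, s, rfl, ?_, ?_⟩
    · have := h.mem 0 (by simp)
      simpa using this
    · refine ⟨by simpa using h.len, ?_⟩
      intro q hq
      have := h.mem (q + 1) (by simpa using hq)
      rwa [List.getD_cons_succ, List.getD_cons_succ] at this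

theorem leg_append {Ps Qs : List P} {s t : St} (h : Leg mem d Ps s) (h' : Leg mem d Qs t) :
    Leg mem d (Ps ++ Qs) (s ++ t) := by
  induction Ps generalizing s with
  | nil =>
    have : s = [] := List.length_eq_zero_iff.1 h.len
    subst this
    simpa using h'
  | cons p Ps ih =>
    obtain ⟨k, s', rfl, h1, h2⟩ := leg_uncons h
    exact leg_cons h1 (ih h2)

theorem leg_split {Ps Qs : List P} {s : St} (h : Leg mem d (Ps ++ Qs) s) :
    ∃ a b, s = a ++ b ∧ Leg mem d Ps a ∧ Leg mem d Qs b := by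
  induction Ps generalizing s with
  | nil => exact ⟨[], s, rfl, leg_nil, by simpa using h⟩
  | cons p Ps ih =>
    obtain ⟨k, s', rfl, h1, h2⟩ := leg_uncons h
    obtain ⟨a, b, rfl, h3, h4⟩ := ih h2
    exact ⟨k :: a, b, rfl, leg_cons h1 h3, h4⟩

theorem leg_map {α : Type} {U : List α} {f : α → P} {g : α → List ℕ} (h : ∀ u ∈ U, mem (f u) (g u) = true) :
    Leg mem d (U.map f) (U.map g) := by
  induction U with
  | nil => exact leg_nil
  | cons u U ih =>
    exact leg_cons (h u List.mem_cons_self) (ih fun v hv => h v (List.mem_cons_of_mem _ hv))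

end

theorem totS_append (a b : St) : totS (a ++ b) = totS a + totS b := by
  funext v
  unfold totS vec
  rw [List.flatten_append, cnt_append]
  push_cast
  rfl

theorem totS_nil : totS [] = 0 := rfl

theorem totS_cons (k : List ℕ) (s : St) : totS (k :: s) = kvec k + totS s := by
  have h := totS_append [k] s
  rw [List.singleton_append] at h
  rw [h]
  congr 1
  funext v
  unfold totS
  rw [← vec_kvec]
  simp

/-- the first `N` entries -/
def tk (N : ℕ) (s : St) : St := (List.range N).map fun i => s.getD i []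

theorem tk_append {a b : St} : tk a.length (a ++ b) = a := by
  refine List.ext_getElem (by simp [tk]) ?_
  intro i h1 h2
  simp only [tk, List.getElem_map, List.getElem_range]
  rw [List.getD_append _ _ _ _ h2, List.getD_eq_getElem _ _ h2]

/-- entries of a legal state -/
theorem totS_zero {m : ℕ} {d : Pc} {Ps : List Pc} {s : St} (hs : Leg pmem d Ps s) (hP : ∀ p ∈ Ps, PcOK pmem m p)
    {v : ℕ} (hv : m < v) : totS s v = 0 := by
  induction Ps generalizing s with
  | nil =>
    have : s = [] := List.length_eq_zero_iff.1 hs.len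
    subst this
    rfl
  | cons p Ps ih =>
    obtain ⟨k, s', rfl, h1, h2⟩ := leg_uncons hs
    rw [totS_cons, Pi.add_apply, ih h2 fun q hq => hP q (List.mem_cons_of_mem _ hq), add_zero]
    have h3 : v ∉ k := fun h => by
      have := (hP p List.mem_cons_self).le k h1 v h
      omega
    unfold kvec
    rw [List.count_eq_zero_of_not_mem h3]
    rfl

theorem PcOK.mono {p : Pc} {m m' : ℕ} (h : PcOK pmem m p) (hm : m ≤ m') : PcOK pmem m' p :=
  ⟨h.len, fun k hk v hv => (h.le k hk v hv).trans hm, h.jump⟩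

/-! ### ports and tokens -/

/-- code of a port -/
def code (u : ℕ × Bool) : ℕ := 2 * u.1 + bif u.2 then 1 else 0

theorem code_inj {u w : ℕ × Bool} (h : code u = code w) : u = w := by
  obtain ⟨u, a⟩ := u
  obtain ⟨w, b⟩ := w
  unfold code at h
  cases a <;> cases b <;> simp only [cond_true, cond_false] at h
  · have : u = w := by omega
    rw [this]
  · omega
  · omega
  · have : u = w := by omega
    rw [this]

/-- the vector of a port -/
def pv (u : ℕ × Bool) : ℕ → ℤ := bif u.2 then ev u.1 else - ev u.1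

/-- token piece -/
def tkP (t : ℕ) (u : ℕ × Bool) : Pc := bif u.2 then (false, [], [[u.1], [t]]) else (true, [], [[u.1, t]])

/-- token not used -/
def un (u : ℕ × Bool) : List ℕ := bif u.2 then [u.1] else []

/-- token used -/
def us (t : ℕ) (u : ℕ × Bool) : List ℕ := bif u.2 then [t] else [u.1, t]

theorem eqK_refl (k : List ℕ) : eqK k k = true := (eqK_iff k k).2 rfl

theorem pmem_nil (E : List Ed) (X : List (List ℕ)) : pmem (true, E, X) [] = true := by
  unfold pmem
  rw [Bool.or_eq_true]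
  right
  rw [Bool.and_eq_true]
  refine ⟨rfl, ?_⟩
  rw [List.any_eq_true]
  exact ⟨[], mem_subs.2 ⟨Nat.zero_le _, by simp⟩, by decide⟩

theorem pmem_ext {z : Bool} {E : List Ed} {X : List (List ℕ)} {k : List ℕ} (h : k ∈ X) :
    pmem (z, E, X) k = true := by
  unfold pmem
  rw [Bool.or_eq_true]
  left
  rw [List.any_eq_true]
  exact ⟨k, h, eqK_refl k⟩

theorem pmem_un (t : ℕ) (u : ℕ × Bool) : pmem (tkP t u) (un u) = true := by
  obtain ⟨u, b⟩ := u
  cases b with
  | true => exact pmem_ext (by simp [un])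
  | false => exact pmem_nil _ _

theorem pmem_us (t : ℕ) (u : ℕ × Bool) : pmem (tkP t u) (us t u) = true := by
  obtain ⟨u, b⟩ := u
  cases b with
  | true => exact pmem_ext (by simp [us])
  | false => exact pmem_ext (by simp [us])

theorem kvec_us (t : ℕ) (u : ℕ × Bool) : kvec (us t u) = kvec (un u) + ev t - pv u := by
  obtain ⟨u, b⟩ := u
  cases b with
  | true =>
    simp only [us, un, pv, cond_true]
    rw [kv_cons, kv_cons, kv_nil]
    abel
  | false =>
    simp only [us, un, pv, cond_false]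
    rw [kv_cons, kv_cons, kv_nil]
    abel

theorem tkP_cases {t : ℕ} {u : ℕ × Bool} {k : List ℕ} (h : pmem (tkP t u) k = true) :
    kvec k = kvec (un u) ∨ kvec k = kvec (us t u) := by
  have h1 := pmem_sound h
  obtain ⟨u, b⟩ := u
  cases b with
  | true =>
    simp only [tkP, cond_true, pcS_alt, Set.mem_insert_iff, Set.mem_singleton_iff] at h1
    simp only [us, un, cond_true]
    rw [kv_cons, kv_nil, kv_cons, kv_nil, add_zero, add_zero]
    exact h1
  | false =>
    simp only [tkP, cond_false, pcS_pair] at h1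
    simp only [us, un, cond_false]
    rw [kv_nil, kv_cons, kv_cons, kv_nil, add_zero]
    rcases h1 with h1 | ⟨s, hs, w, hw, h1⟩
    · exact Or.inl h1
    · rw [Finset.mem_singleton] at hs hw
      subst hs hw
      exact Or.inr h1

theorem pcok_tkP {n : ℕ} {u : ℕ × Bool} (h : u.1 ≤ n) : PcOK pmem (n + 1) (tkP (n + 1) u) := by
  obtain ⟨u, b⟩ := u
  simp only at h
  cases b with
  | true => exact pcok_alt (by omega) (le_refl _)
  | false => exact pcok_pair (by omega) (le_refl _)

/-- the total of the tokens, none used -/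
def base (U : List (ℕ × Bool)) : ℕ → ℤ := totS (U.map un)

theorem base_cons (u : ℕ × Bool) (U : List (ℕ × Bool)) : base (u :: U) = kvec (un u) + base U := by
  unfold base
  rw [List.map_cons, totS_cons]

theorem un_top {n : ℕ} {u : ℕ × Bool} (h : u.1 ≤ n) : kvec (un u) (n + 1) = 0 := by
  obtain ⟨u, b⟩ := u
  simp only at h
  cases b with
  | true =>
    simp only [un, cond_true]
    rw [kv_cons, kv_nil, add_zero, TFC.ev_apply, if_neg (by omega)]
  | false =>
    simp only [un, cond_false]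
    rw [kv_nil]
    rfl

theorem pv_top {n : ℕ} {u : ℕ × Bool} (h : u.1 ≤ n) : pv u (n + 1) = 0 := by
  obtain ⟨u, b⟩ := u
  simp only at h
  cases b with
  | true =>
    simp only [pv, cond_true]
    rw [TFC.ev_apply, if_neg (by omega)]
  | false =>
    simp only [pv, cond_false]
    rw [Pi.neg_apply, TFC.ev_apply, if_neg (by omega), neg_zero]

theorem base_top {n : ℕ} {U : List (ℕ × Bool)} (h : ∀ u ∈ U, u.1 ≤ n) : base U (n + 1) = 0 := by
  induction U with
  | nil => rfl
  | cons u U ih =>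
    rw [base_cons, Pi.add_apply, un_top (h u List.mem_cons_self), ih fun w hw => h w (List.mem_cons_of_mem _ hw),
      add_zero]

/-- the tokens of a legal state -/
theorem tok_cases {n : ℕ} {d : Pc} {U : List (ℕ × Bool)} (hU : ∀ u ∈ U, u.1 ≤ n) {s : St}
    (hs : Leg pmem d (U.map (tkP (n + 1))) s) :
    totS s = base U ∨ (∃ u ∈ U, totS s = base U + ev (n + 1) - pv u) ∨ 2 ≤ totS s (n + 1) := by
  induction U generalizing s with
  | nil =>
    have : s = [] := List.length_eq_zero_iff.1 hs.len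
    subst this
    exact Or.inl rfl
  | cons u U ih =>
    rw [List.map_cons] at hs
    obtain ⟨k, s', rfl, h1, h2⟩ := leg_uncons hs
    have hu := hU u List.mem_cons_self
    have hU' : ∀ w ∈ U, w.1 ≤ n := fun w hw => hU w (List.mem_cons_of_mem _ hw)
    have e0 := un_top hu
    have e1 := pv_top hu
    have e2 := base_top hU'
    have e3 : (ev (n + 1) : ℕ → ℤ) (n + 1) = 1 := by rw [TFC.ev_apply, if_pos rfl]
    have e4 := congrFun (kvec_us (n + 1) u) (n + 1)
    rw [Pi.sub_apply, Pi.add_apply, e0, e1, e3] at e4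
    rw [totS_cons, base_cons]
    rcases ih hU' h2 with h3 | ⟨w, hw, h3⟩ | h3 <;> rcases tkP_cases h1 with h4 | h4
    · left
      rw [h3, h4]
    · right; left
      refine ⟨u, List.mem_cons_self, ?_⟩
      rw [h3, h4, kvec_us]
      abel
    · right; left
      refine ⟨w, List.mem_cons_of_mem _ hw, ?_⟩
      rw [h3, h4]
      abel
    · right; right
      have e5 := pv_top (hU' w hw)
      rw [Pi.add_apply, h3, h4, e4, Pi.sub_apply, Pi.add_apply, e2, e3, e5]
      norm_num
    · right; right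
      rw [Pi.add_apply, h4, e0]
      omega
    · right; right
      rw [Pi.add_apply, h4, e4]
      omega

/-- the total with one token used -/
theorem tot_one {n : ℕ} {U : List (ℕ × Bool)} (hn : U.Nodup) {w : ℕ × Bool} (hw : w ∈ U) :
    totS (U.map fun u => bif decide (code u = code w) then us (n + 1) u else un u) = base U + ev (n + 1) - pv w := by
  induction U with
  | nil => cases hw
  | cons u U ih =>
    rw [List.nodup_cons] at hn
    rw [List.map_cons, totS_cons, base_cons]
    rcases List.mem_cons.1 hw with rfl | hw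
    · have h1 : (U.map fun u => bif decide (code u = code w) then us (n + 1) u else un u) = U.map un := by
        refine List.map_congr_left ?_
        intro u hu
        have : code u ≠ code w := fun h => hn.1 (by rw [← code_inj h]; exact hu)
        rw [decide_eq_false this, cond_false]
      rw [h1, decide_eq_true rfl, cond_true, kvec_us]
      show _ + base U = _
      abel
    · have : code u ≠ code w := fun h => hn.1 (by rw [code_inj h]; exact hw)
      rw [decide_eq_false this, cond_false, ih hn.2 hw]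
      abel

/-! ### the reduction step -/

/-- the port is known -/
def kn (F : Fct St) (p : ℕ) : Bool := F.any fun f => decide (f.1 = p)

/-- the port `2 v` is known and the port `2 v + 1` is unknown -/
def PLb (F : Fct St) (v : ℕ) : Bool := kn F (2 * v) && !kn F (2 * v + 1)

/-- unknown ports -/
def unk (n : ℕ) (F : Fct St) : List (ℕ × Bool) :=
  ((List.range (n + 1)).flatMap fun v => [(v, false), (v, true)]).filter fun u => !kn F (code u)

/-- the relaxed piece -/
def rx (F : Fct St) (c : Cl) : Pc := rxP c (psi (PLb F) c)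

/-- exact at the cluster `i` -/
def exa (Cs : List Cl) (ks : St) (i : ℕ) : Bool := pmem (exP (Cs.getD i c0)) (ks.getD i [])

/-- the piece of the cluster `i` in the pool -/
def wpi (F : Fct St) (Cs : List Cl) (ks : St) (q i : ℕ) : Pc :=
  bif exa Cs ks i || decide (i = q) then exP (Cs.getD i c0) else rx F (Cs.getD i c0)

/-- the pieces of the pool -/
def wld (n : ℕ) (Cs : List Cl) (Ot : List Pc) (F : Fct St) (ks : St) (q : ℕ) : List Pc :=
  (List.range Cs.length).map (wpi F Cs ks q) ++ Ot ++ (unk n F).map (tkP (n + 1))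

/-- the additional vector used -/
def dig (F : Fct St) (c : Cl) (k : List ℕ) : List ℕ := findD (fun d => eqK k d) (digs c (psi (PLb F) c)) []

/-- the start of the pool -/
def strt (n : ℕ) (Cs : List Cl) (F : Fct St) (ks : St) (p q : ℕ) : List St :=
  ((mvs (Cs.getD q c0) (dig F (Cs.getD q c0) (ks.getD q []))).map fun m =>
    setL ks q m ++ ((unk n F).map fun u => bif decide (code u = p) then us (n + 1) u else un u)) ++
  F.map fun f => f.2 ++ (unk n F).map un

/-- the pool after `k` rounds -/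
def plk (n : ℕ) (Cs : List Cl) (Ot : List Pc) (F : Fct St) (ks : St) (p q k : ℕ) : List St :=
  poolS pmem d0 (wld n Cs Ot F ks q) (n + 1) (List.range (n + 2)) (strt n Cs F ks p q) k

/-- the total of the state is at the port -/
def atP (n : ℕ) (tau : List ℕ) (s : St) (u : ℕ × Bool) : Bool :=
  (List.range (n + 2)).all fun v =>
    decide (cT s v + (bif u.2 then 0 else bif decide (v = u.1) then 1 else 0) =
      tau.getD v 0 + (bif u.2 then bif decide (v = u.1) then 1 else 0 else 0))

/-- the first cluster that is not exact -/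
def fstq (Cs : List Cl) (ks : St) : ℕ := findD (fun i => !exa Cs ks i) (List.range Cs.length) 0

/-- the state found in the pool -/
def pck (n : ℕ) (Cs : List Cl) (Ot : List Pc) (tau : List ℕ) (F : Fct St) (ks : St) (p q : ℕ) : St × ℕ × Bool :=
  findD (fun c => atP n tau (tk (Cs.length + Ot.length) c.1) c.2) (prd (plk n Cs Ot F ks p q 3) (unk n F))
    ([], 0, false)

/-- **the reduction step** -/
def red (y : Dt × Fct St × (St × ℕ)) : St × ℕ :=
  (tk (y.1.2.1.length + y.1.2.2.1.length)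
    (pck y.1.1 y.1.2.1 y.1.2.2.1 y.1.2.2.2 y.2.1 y.2.2.1 y.2.2.2 (fstq y.1.2.1 y.2.2.1)).1,
  code (pck y.1.1 y.1.2.1 y.1.2.2.1 y.1.2.2.2 y.2.1 y.2.2.1 y.2.2.2 (fstq y.1.2.1 y.2.2.1)).2)

/-- the number of the clusters that are not exact -/
def mu (x : Dt) (r : St × ℕ) : ℕ := ((List.range x.2.1.length).filter fun i => !exa x.2.1 r.1 i).length

/-- the target as a vector -/
def tv (tau : List ℕ) : ℕ → ℤ := fun v => (tau.getD v 0 : ℤ)

/-- well-formed instances -/
structure WfD (x : Dt) : Prop where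
  cl : ∀ c ∈ x.2.1, ClOK c ∧ ClB x.1 c
  ot : ∀ p ∈ x.2.2.1, PcOK pmem x.1 p
  tl : x.2.2.2.length ≤ x.1 + 1

/-- exact state at a port -/
def IsFact (x : Dt) (p : ℕ) (s : St) : Prop :=
  ∃ u : ℕ × Bool, p = code u ∧ u.1 ≤ x.1 ∧ Leg pmem d0 (x.2.1.map exP ++ x.2.2.1) s ∧ totS s = tv x.2.2.2 + pv u

/-- relaxed state at an unknown port -/
def Good (x : Dt) (F : Fct St) (r : St × ℕ) : Prop :=
  ∃ u : ℕ × Bool, r.2 = code u ∧ u.1 ≤ x.1 ∧ kn F r.2 = false ∧
    Leg pmem d0 (x.2.1.map (rx F) ++ x.2.2.1) r.1 ∧ totS r.1 = tv x.2.2.2 + pv u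

theorem kn_iff {F : Fct St} {p : ℕ} : kn F p = true ↔ ∃ f ∈ F, f.1 = p := by
  simp [kn]

theorem kn_false {F : Fct St} {p : ℕ} : kn F p = false ↔ p ∉ F.map Prod.fst := by
  rw [← Bool.not_eq_true, kn_iff, List.mem_map]

theorem mem_unk {n : ℕ} {F : Fct St} {u : ℕ × Bool} : u ∈ unk n F ↔ u.1 ≤ n ∧ kn F (code u) = false := by
  obtain ⟨u, b⟩ := u
  simp only [unk, List.mem_filter, List.mem_flatMap, List.mem_range, List.mem_cons, Prod.mk.injEq,
    List.not_mem_nil, or_false, Bool.not_eq_true']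
  refine and_congr_left fun _ => ?_
  constructor
  · rintro ⟨v, hv, ⟨rfl, _⟩ | ⟨rfl, _⟩⟩ <;> omega
  · intro h
    refine ⟨u, by omega, ?_⟩
    cases b <;> simp

theorem nodup_unk (n : ℕ) (F : Fct St) : (unk n F).Nodup := by
  refine List.Nodup.filter _ ?_
  rw [List.nodup_flatMap]
  refine ⟨fun v _ => by simp, ?_⟩
  refine List.Pairwise.imp ?_ (List.nodup_range (n := n + 1))
  intro a b hab
  simp only [Function.onFun, List.disjoint_left, List.mem_cons, List.not_mem_nil, or_false]
  rintro ⟨u, c⟩ h h'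
  simp only [Prod.mk.injEq] at h h'
  rcases h with ⟨h, _⟩ | ⟨h, _⟩ <;> rcases h' with ⟨h', _⟩ | ⟨h', _⟩ <;> exact hab (h ▸ h')

theorem map_getD {α : Type} (f : Cl → α) (Cs : List Cl) :
    Cs.map f = (List.range Cs.length).map fun i => f (Cs.getD i c0) := by
  refine List.ext_getElem (by simp) ?_
  intro i h1 h2
  simp only [List.getElem_map, List.getElem_range]
  rw [List.getD_eq_getElem _ _ (by simpa using h1)]

theorem leg_iff {g : ℕ → Pc} {N : ℕ} {Ot : List Pc} {s : St} :
    Leg pmem d0 ((List.range N).map g ++ Ot) s ↔ s.length = N + Ot.length ∧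
      (∀ i < N, pmem (g i) (s.getD i []) = true) ∧
        ∀ j < Ot.length, pmem (Ot.getD j d0) (s.getD (N + j) []) = true := by
  constructor
  · intro h
    refine ⟨by rw [h.len]; simp, ?_, ?_⟩
    · intro i hi
      have h1 := h.mem i (by simp; omega)
      rwa [List.getD_append _ _ _ _ (by simpa using hi), List.getD_eq_getElem _ _ (by simpa using hi),
        List.getElem_map, List.getElem_range] at h1
    · intro j hj
      have h1 := h.mem (N + j) (by simp; omega)
      rwa [List.getD_append_right _ _ _ _ (by simp), List.length_map, List.length_range,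
        Nat.add_sub_cancel_left] at h1
  · rintro ⟨h1, h2, h3⟩
    refine ⟨by rw [h1]; simp, ?_⟩
    intro q hq
    rw [List.length_append, List.length_map, List.length_range] at hq
    by_cases hN : q < N
    · rw [List.getD_append _ _ _ _ (by simpa using hN), List.getD_eq_getElem _ _ (by simpa using hN),
        List.getElem_map, List.getElem_range]
      exact h2 q hN
    · rw [List.getD_append_right _ _ _ _ (by simpa using hN), List.length_map, List.length_range]
      have h4 := h3 (q - N) (by omega)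
      rwa [show N + (q - N) = q by omega] at h4

theorem pmem_exP_rxP {c : Cl} {ch : ℕ × ℕ} {k : List ℕ} (h : pmem (exP c) k = true) : pmem (rxP c ch) k = true := by
  unfold pmem exP at h
  unfold pmem rxP
  rw [Bool.or_eq_true] at h ⊢
  rcases h with h | h
  · simp at h
  · exact Or.inr h

/-! ### the specification -/

section spec
variable {x : Dt} {F : Fct St} {ks : St} {q : ℕ}

theorem getD_memCl {Cs : List Cl} {i : ℕ} (hi : i < Cs.length) : Cs.getD i c0 ∈ Cs := by
  rw [List.getD_eq_getElem _ _ hi]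
  exact List.getElem_mem hi

theorem pcok_ex (hx : WfD x) {c : Cl} (hc : c ∈ x.2.1) : PcOK pmem x.1 (exP c) :=
  pcok_exP (hx.cl c hc).2 (hx.cl c hc).1

theorem pcok_rx (hx : WfD x) {c : Cl} (hc : c ∈ x.2.1) (F : Fct St) : PcOK pmem x.1 (rx F c) :=
  pcok_rxP (hx.cl c hc).2 (hx.cl c hc).1 (psi_ok _ (hx.cl c hc).1) (Gd.rx_jump (hx.cl c hc).1 (psi_ok _ (hx.cl c hc).1))

theorem pcok_real (hx : WfD x) (F : Fct St) (ks : St) (q : ℕ) :
    ∀ p ∈ (List.range x.2.1.length).map (wpi F x.2.1 ks q) ++ x.2.2.1, PcOK pmem x.1 p := by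
  intro p hp
  rw [List.mem_append, List.mem_map] at hp
  rcases hp with ⟨i, hi, rfl⟩ | hp
  · have hc := getD_memCl (List.mem_range.1 hi)
    unfold wpi
    cases exa x.2.1 ks i || decide (i = q) with
    | true => exact pcok_ex hx hc
    | false => exact pcok_rx hx hc F
  · exact hx.ot p hp

theorem pcok_wld (hx : WfD x) (F : Fct St) (ks : St) (q : ℕ) :
    ∀ i < (wld x.1 x.2.1 x.2.2.1 F ks q).length,
      PcOK pmem (x.1 + 1) ((wld x.1 x.2.1 x.2.2.1 F ks q).getD i d0) := by
  intro i hi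
  rw [List.getD_eq_getElem _ _ hi]
  have hp := List.getElem_mem hi
  generalize (wld x.1 x.2.1 x.2.2.1 F ks q)[i] = p at hp
  unfold wld at hp
  rcases List.mem_append.1 hp with hp | hp
  · exact PcOK.mono (pcok_real hx F ks q p hp) (Nat.le_succ _)
  · obtain ⟨u, hu, rfl⟩ := List.mem_map.1 hp
    exact pcok_tkP (mem_unk.1 hu).1

/-- a state that is legal for the relaxed pieces -/
theorem leg_rx : Leg pmem d0 (x.2.1.map (rx F) ++ x.2.2.1) ks ↔ ks.length = x.2.1.length + x.2.2.1.length ∧
    (∀ i < x.2.1.length, pmem (rx F (x.2.1.getD i c0)) (ks.getD i []) = true) ∧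
      ∀ j < x.2.2.1.length, pmem (x.2.2.1.getD j d0) (ks.getD (x.2.1.length + j) []) = true := by
  rw [map_getD, leg_iff]

/-- a state that is legal for the exact pieces -/
theorem leg_ex : Leg pmem d0 (x.2.1.map exP ++ x.2.2.1) ks ↔ ks.length = x.2.1.length + x.2.2.1.length ∧
    (∀ i < x.2.1.length, exa x.2.1 ks i = true) ∧
      ∀ j < x.2.2.1.length, pmem (x.2.2.1.getD j d0) (ks.getD (x.2.1.length + j) []) = true := by
  rw [map_getD, leg_iff]
  rfl

theorem leg_ex_wpi (h : Leg pmem d0 (x.2.1.map exP ++ x.2.2.1) ks) (ks' : St) (q : ℕ) :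
    Leg pmem d0 ((List.range x.2.1.length).map (wpi F x.2.1 ks' q) ++ x.2.2.1) ks := by
  obtain ⟨h1, h2, h3⟩ := leg_ex.1 h
  refine leg_iff.2 ⟨h1, ?_, h3⟩
  intro i hi
  have h4 : pmem (exP (x.2.1.getD i c0)) (ks.getD i []) = true := h2 i hi
  unfold wpi
  cases exa x.2.1 ks' i || decide (i = q) with
  | true => exact h4
  | false => exact pmem_exP_rxP h4

theorem leg_set (h : Leg pmem d0 (x.2.1.map (rx F) ++ x.2.2.1) ks) (hq : q < x.2.1.length) {m : List ℕ}
    (hm : pmem (exP (x.2.1.getD q c0)) m = true) :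
    Leg pmem d0 ((List.range x.2.1.length).map (wpi F x.2.1 ks q) ++ x.2.2.1) (setL ks q m) := by
  obtain ⟨h1, h2, h3⟩ := leg_rx.1 h
  refine leg_iff.2 ⟨by rw [setL_length]; exact h1, ?_, ?_⟩
  · intro i hi
    rw [setL_getD _ _ _ (by omega)]
    unfold wpi
    by_cases hiq : i = q
    · subst hiq
      rw [if_pos rfl, decide_eq_true rfl, Bool.or_true, cond_true]
      exact hm
    · rw [if_neg hiq, decide_eq_false hiq, Bool.or_false]
      cases he : exa x.2.1 ks i with
      | true => exact he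
      | false => exact h2 i hi
  · intro j hj
    rw [setL_getD _ _ _ (by omega), if_neg (by omega)]
    exact h3 j hj

theorem leg_back {a : St} (h : Leg pmem d0 ((List.range x.2.1.length).map (wpi F x.2.1 ks q) ++ x.2.2.1) a) :
    Leg pmem d0 (x.2.1.map (rx F) ++ x.2.2.1) a := by
  obtain ⟨h1, h2, h3⟩ := leg_iff.1 h
  refine leg_rx.2 ⟨h1, ?_, h3⟩
  intro i hi
  have h4 := h2 i hi
  unfold wpi at h4
  cases he : exa x.2.1 ks i || decide (i = q) with
  | true => rw [he] at h4; exact pmem_exP_rxP h4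
  | false => rw [he] at h4; exact h4

theorem length_filter_lt {α : Type} {p p' : α → Bool} {l : List α} (h : ∀ a ∈ l, p' a = true → p a = true)
    {b : α} (hb : b ∈ l) (h1 : p b = true) (h2 : p' b = false) : (l.filter p').length < (l.filter p).length := by
  have e : l.filter p' = (l.filter p).filter p' := by
    rw [List.filter_filter]
    refine List.filter_congr ?_
    intro a ha
    cases ha' : p' a with
    | true => rw [h a ha ha']; rfl
    | false => rfl
  rw [e, List.length_filter_lt_length_iff_exists]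
  exact ⟨b, List.mem_filter.2 ⟨hb, h1⟩, by rw [h2]; simp⟩

theorem mu_lt {a : St} {r : St × ℕ} {v : ℕ} (hq : q < x.2.1.length) (hq' : exa x.2.1 r.1 q = false)
    (h : Leg pmem d0 ((List.range x.2.1.length).map (wpi F x.2.1 r.1 q) ++ x.2.2.1) a) :
    mu x (a, v) < mu x r := by
  obtain ⟨h1, h2, h3⟩ := leg_iff.1 h
  refine length_filter_lt ?_ (List.mem_range.2 hq) (by rw [hq']; rfl) ?_
  · intro i hi hi'
    have h4 := h2 i (List.mem_range.1 hi)
    unfold wpi at h4
    cases he : exa x.2.1 r.1 i with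
    | false => rfl
    | true =>
      rw [he, Bool.true_or, cond_true] at h4
      rw [Bool.not_eq_true'] at hi'
      have h5 : exa x.2.1 a i = true := h4
      rw [h5] at hi'
      cases hi'
  · have h4 := h2 q hq
    unfold wpi at h4
    rw [decide_eq_true rfl, Bool.or_true, cond_true] at h4
    show (!exa x.2.1 a q) = false
    have h5 : exa x.2.1 a q = true := h4
    rw [h5]
    rfl

theorem totS_set {s : St} (hq : q < s.length) (k : List ℕ) :
    totS (setL s q k) = totS s + (kvec k - kvec (s.getD q [])) := by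
  funext v
  rw [totS_setL hq, ← vec_kvec, ← vec_kvec]
  rfl

theorem tv_zero {tau : List ℕ} {n v : ℕ} (h : tau.length ≤ n + 1) (hv : n < v) : tv tau v = 0 := by
  unfold tv
  rw [List.getD_eq_default _ _ (by omega)]
  rfl

theorem pv_zero {u : ℕ × Bool} {n v : ℕ} (h : u.1 ≤ n) (hv : n < v) : pv u v = 0 := by
  obtain ⟨u, b⟩ := u
  simp only at h
  cases b with
  | true =>
    simp only [pv, cond_true]
    rw [TFC.ev_apply, if_neg (by omega)]
  | false =>
    simp only [pv, cond_false]
    rw [Pi.neg_apply, TFC.ev_apply, if_neg (by omega), neg_zero]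

theorem atP_iff {n : ℕ} {tau : List ℕ} {s : St} {u : ℕ × Bool} (ht : tau.length ≤ n + 1) (hu : u.1 ≤ n)
    (hs : ∀ v, n < v → totS s v = 0) : atP n tau s u = true ↔ totS s = tv tau + pv u := by
  unfold atP
  rw [List.all_eq_true]
  have key : ∀ v, (cT s v + (bif u.2 then 0 else bif decide (v = u.1) then 1 else 0) =
      tau.getD v 0 + (bif u.2 then bif decide (v = u.1) then 1 else 0 else 0)) ↔
      totS s v = tv tau v + pv u v := by
    intro v
    rw [totS_apply]
    unfold tv pv
    obtain ⟨u, b⟩ := u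
    by_cases hv : v = u
    · subst hv
      cases b <;> simp [TFC.ev_apply] <;> omega
    · cases b <;> simp [TFC.ev_apply, hv]
  constructor
  · intro h
    funext v
    by_cases hv : v ≤ n + 1
    · have h1 := h v (List.mem_range.2 (by omega))
      rw [decide_eq_true_eq] at h1
      exact (key v).1 h1
    · rw [hs v (by omega), Pi.add_apply, tv_zero ht (by omega), pv_zero hu (by omega)]
      rfl
  · intro h v _
    rw [decide_eq_true_eq]
    exact (key v).2 (congrFun h v)

/-- the start states -/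
theorem strt_leg (hx : WfD x) (hF : ∀ f ∈ F, IsFact x f.1 f.2) {r : St × ℕ} (hr : Good x F r) (hq : q < x.2.1.length) :
    ∀ s ∈ strt x.1 x.2.1 F r.1 r.2 q, Leg pmem d0 (wld x.1 x.2.1 x.2.2.1 F r.1 q) s := by
  intro s hs
  obtain ⟨u0, hu0, hn, hkn, hleg, htot⟩ := hr
  unfold strt at hs
  rcases List.mem_append.1 hs with hs | hs
  · obtain ⟨m, hm, rfl⟩ := List.mem_map.1 hs
    refine leg_append (leg_set hleg hq ?_) (leg_map ?_)
    · exact pmem_complete (card4_exP (hx.cl _ (getD_memCl hq)).1) (mvs_sound hm)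
    · intro u _
      cases decide (code u = r.2) with
      | true => exact pmem_us _ _
      | false => exact pmem_un _ _
  · obtain ⟨f, hf, rfl⟩ := List.mem_map.1 hs
    obtain ⟨u, _, _, h3, _⟩ := hF f hf
    exact leg_append (leg_ex_wpi h3 _ _) (leg_map fun u _ => pmem_un _ _)

/-- **the pool contains a state at an unknown port** -/
theorem pool_good (hx : WfD x) (hF : ∀ f ∈ F, IsFact x f.1 f.2) (hne : F ≠ []) {r : St × ℕ} (hr : Good x F r)
    (hq : q < x.2.1.length) (hq' : exa x.2.1 r.1 q = false) :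
    ∃ s ∈ plk x.1 x.2.1 x.2.2.1 F r.1 r.2 q 3, ∃ u ∈ unk x.1 F,
      totS (tk (x.2.1.length + x.2.2.1.length) s) = tv x.2.2.2 + pv u := by
  have hW := pcok_wld hx F r.1 q
  have hS := strt_leg hx hF hr hq
  obtain ⟨u0, hu0, hn, hkn, hleg, htot⟩ := id hr
  set n := x.1 with hndef
  set U := unk n F with hU
  have hUn : ∀ u ∈ U, u.1 ≤ n := fun u hu => (mem_unk.1 hu).1
  have hu0U : u0 ∈ U := mem_unk.2 ⟨hn, by rw [← hu0]; exact hkn⟩
  obtain ⟨o, ho⟩ : ∃ o, o = tv x.2.2.2 + base U + ev (n + 1) := ⟨_, rfl⟩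
  have hqC := getD_memCl hq
  obtain ⟨c, hc⟩ : ∃ c, c = x.2.1.getD q c0 := ⟨_, rfl⟩
  rw [← hc] at hqC
  have hcok := (hx.cl c hqC).1
  have hcb := (hx.cl c hqC).2
  -- the additional vector
  obtain ⟨h1, h2, h3⟩ := leg_rx.1 hleg
  have hkq := h2 q hq
  rw [← hc] at hkq
  have hkq' : pmem (exP c) (r.1.getD q []) = false := by rw [hc]; exact hq'
  obtain ⟨d, hd, hdk⟩ := pmem_digs hcok hkq hkq'
  have hfd := findD_spec (fun d => eqK (r.1.getD q []) d) (digs c (psi (PLb F) c)) []
    ⟨d, hd, (eqK_iff _ _).2 hdk⟩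
  have hdig : dig F c (r.1.getD q []) ∈ digs c (psi (PLb F) c) := hfd.1
  have hdk : kvec (r.1.getD q []) = kvec (dig F c (r.1.getD q [])) := (eqK_iff _ _).1 hfd.2
  -- the graded family
  obtain ⟨H, hH⟩ : ∃ H : ℕ → (ℕ → ℤ) → Prop, H = fun k z =>
    ∃ s ∈ plk n x.2.1 x.2.2.1 F r.1 r.2 q k, totS s = z := ⟨_, rfl⟩
  have gr : Gr (fun v => v ∈ List.range (n + 2)) H := by
    rw [hH]
    refine ⟨?_, ?_⟩
    · rintro k z ⟨s, hs, rfl⟩
      exact ⟨s, poolS_mono (Nat.le_succ k) s hs, rfl⟩
    · rintro k z w i ε hi ⟨s, hs, rfl⟩ ⟨s', hs', rfl⟩ hε hpos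
      obtain ⟨s'', h4, h5⟩ := poolS_jump hW hS hs hs' hi hε hpos
      exact ⟨totS s'', ⟨s'', h4, rfl⟩, h5⟩
  have hfact : ∀ f ∈ F, ∃ u : ℕ × Bool, f.1 = code u ∧ u.1 ≤ n ∧ H 0 (o - ev (n + 1) + pv u) := by
    intro f hf
    obtain ⟨u, g1, g2, g3, g4⟩ := hF f hf
    refine ⟨u, g1, g2, ?_⟩
    rw [hH]
    refine ⟨f.2 ++ U.map un, ?_, ?_⟩
    · show _ ∈ strt n x.2.1 F r.1 r.2 q
      exact List.mem_append_right _ (List.mem_map.2 ⟨f, hf, rfl⟩)
    · rw [totS_append, g4, ho]
      show tv x.2.2.2 + pv u + base U = _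
      abel
  have FA : Facts (fun v => v ∈ List.range (n + 2)) H o (n + 1) 0 (fun v => kn F (2 * v) = true)
      (fun v => kn F (2 * v + 1) = true) := by
    refine ⟨gr, List.mem_range.2 (by omega), ?_, ?_, ?_⟩
    · intro v hv
      obtain ⟨f, hf, hfv⟩ := kn_iff.1 hv
      obtain ⟨u, g1, g2, g3⟩ := hfact f hf
      have e : u = (v, false) := code_inj (by rw [← g1, hfv]; simp [code])
      subst e
      simp only at g2
      refine ⟨by omega, List.mem_range.2 (by omega), ?_⟩
      have e1 : o - ev (n + 1) + pv (v, false) = o - ev (n + 1) - ev v := by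
        simp only [pv, cond_false]
        abel
      rwa [e1] at g3
    · intro v hv
      obtain ⟨f, hf, hfv⟩ := kn_iff.1 hv
      obtain ⟨u, g1, g2, g3⟩ := hfact f hf
      have e : u = (v, true) := code_inj (by rw [← g1, hfv]; simp [code])
      subst e
      simp only at g2
      exact ⟨by omega, List.mem_range.2 (by omega), g3⟩
    · obtain ⟨f, hf⟩ := List.exists_mem_of_ne_nil F hne
      obtain ⟨⟨v, b⟩, g1, g2, _⟩ := hfact f hf
      cases b with
      | true => exact Or.inr ⟨v, kn_iff.2 ⟨f, hf, by rw [g1]; simp [code]⟩⟩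
      | false => exact Or.inl ⟨v, kn_iff.2 ⟨f, hf, by rw [g1]; simp [code]⟩⟩
  have hP : ∀ v, PLb F v = true ↔ kn F (2 * v) = true ∧ ¬ kn F (2 * v + 1) = true := by
    intro v
    simp [PLb]
  have hI : ∀ v ∈ clV c, v ∈ List.range (n + 2) ∧ v ≠ n + 1 := by
    intro v hv
    have hvn : v ≤ n := by
      unfold clV at hv
      cases hc1 : c.1 with
      | true =>
        rw [hc1, cond_true, List.mem_cons, List.mem_cons] at hv
        obtain ⟨b1, b2⟩ := hcb.2 hc1
        rcases hv with rfl | rfl | hv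
        · exact b1
        · exact b2
        · exact hcb.1 v hv
      | false =>
        rw [hc1, cond_false] at hv
        exact hcb.1 v hv
    exact ⟨List.mem_range.2 (by omega), by omega⟩
  have hqs : q < r.1.length := by omega
  have hk : ∀ m ∈ mvs c (dig F c (r.1.getD q [])), H 0 (o - kvec (dig F c (r.1.getD q [])) + kvec m) := by
    intro m hm
    rw [hH]
    refine ⟨setL r.1 q m ++ (U.map fun u => bif decide (code u = r.2) then us (n + 1) u else un u), ?_, ?_⟩
    · show _ ∈ strt n x.2.1 F r.1 r.2 q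
      refine List.mem_append_left _ (List.mem_map.2 ⟨m, ?_, rfl⟩)
      rw [← hc]
      exact hm
    · rw [totS_append, totS_set hqs, hu0, tot_one (nodup_unk n F) hu0U, htot, hdk, ho]
      abel
  obtain ⟨z, hz, hz3⟩ := psi_lemD FA hP hcok hI hdig hk
  rw [hH] at hz3
  obtain ⟨s, hs, hsz⟩ := hz3
  have hleg' := poolS_leg hW hS _ s hs
  obtain ⟨a, b, rfl, ha, hb⟩ := leg_split hleg'
  have hlen : a.length = x.2.1.length + x.2.2.1.length := by rw [ha.len]; simp
  have ha0 : ∀ v, n < v → totS a v = 0 := fun v hv => totS_zero ha (pcok_real hx F r.1 q) hv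
  refine ⟨a ++ b, hs, ?_⟩
  rw [← hlen, tk_append]
  rw [totS_append] at hsz
  have t0 := ha0 (n + 1) (by omega)
  have t1 : (ev (n + 1) : ℕ → ℤ) (n + 1) = 1 := by rw [TFC.ev_apply, if_pos rfl]
  have t2 : tv x.2.2.2 (n + 1) = 0 := tv_zero hx.tl (by omega)
  have t3 := base_top hUn
  have t4 : o (n + 1) = 1 := by
    rw [ho, Pi.add_apply, Pi.add_apply, t1, t2, t3]
    rfl
  have tb := congrFun hsz (n + 1)
  rw [Pi.add_apply, t0, zero_add] at tb
  rcases hz with rfl | ⟨v, hv, hvF, rfl⟩ | ⟨v, hv, hvF, rfl⟩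
  · rw [t4] at tb
    rcases tok_cases hUn hb with h4 | ⟨u, hu, h4⟩ | h4
    · rw [h4, t3] at tb
      omega
    · refine ⟨u, hu, ?_⟩
      rw [h4, ho] at hsz
      have e : totS a = totS a + (base U + ev (n + 1) - pv u) - (base U + ev (n + 1) - pv u) := by abel
      rw [e, hsz]
      abel
    · omega
  · have e1 : (ev v : ℕ → ℤ) (n + 1) = 0 := by rw [TFC.ev_apply, if_neg (Ne.symm hv)]
    rw [Pi.sub_apply, Pi.sub_apply, t4, t1, e1] at tb
    rcases tok_cases hUn hb with h4 | ⟨u, hu, h4⟩ | h4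
    · have e : totS a = tv x.2.2.2 + pv (v, false) := by
        have e2 : totS a = totS a + base U - base U := by abel
        rw [e2, ← h4, hsz, ho, h4]
        simp only [pv, cond_false]
        abel
      refine ⟨(v, false), mem_unk.2 ⟨?_, ?_⟩, e⟩
      · by_contra hh
        have e3 := congrFun e v
        have e4 := vec_nonneg a.flatten v
        rw [Pi.add_apply, tv_zero hx.tl (by simp only at hh; omega)] at e3
        simp only [pv, cond_false, Pi.neg_apply] at e3
        rw [TFC.ev_apply, if_pos rfl] at e3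
        unfold totS at e3
        omega
      · rw [← Bool.not_eq_true]
        simpa [code] using hvF
    · rw [h4, Pi.sub_apply, Pi.add_apply, t3, t1, pv_top (hUn u hu)] at tb
      omega
    · omega
  · have e1 : (ev v : ℕ → ℤ) (n + 1) = 0 := by rw [TFC.ev_apply, if_neg (Ne.symm hv)]
    rw [Pi.add_apply, Pi.sub_apply, t4, t1, e1] at tb
    rcases tok_cases hUn hb with h4 | ⟨u, hu, h4⟩ | h4
    · have e : totS a = tv x.2.2.2 + pv (v, true) := by
        have e2 : totS a = totS a + base U - base U := by abel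
        rw [e2, ← h4, hsz, ho, h4]
        simp only [pv, cond_true]
        abel
      refine ⟨(v, true), mem_unk.2 ⟨?_, ?_⟩, e⟩
      · by_contra hh
        simp only at hh
        have e3 := congrFun e v
        rw [Pi.add_apply, tv_zero hx.tl (by omega), ha0 v (by omega)] at e3
        simp only [pv, cond_true] at e3
        rw [TFC.ev_apply, if_pos rfl] at e3
        omega
      · rw [← Bool.not_eq_true]
        simpa [code] using hvF
    · rw [h4, Pi.sub_apply, Pi.add_apply, t3, t1, pv_top (hUn u hu)] at tb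
      omega
    · omega

/-- **specification of the reduction step** -/
theorem red_spec (hx : WfD x) (hF : ∀ f ∈ F, IsFact x f.1 f.2) (hne : F ≠ []) {r : St × ℕ} (hr : Good x F r)
    (hm : 0 < mu x r) : Good x F (red (x, F, r)) ∧ mu x (red (x, F, r)) < mu x r := by
  have h0 : ∃ i ∈ List.range x.2.1.length, (!exa x.2.1 r.1 i) = true := by
    obtain ⟨i, hi⟩ := List.exists_mem_of_length_pos hm
    rw [List.mem_filter] at hi
    exact ⟨i, hi⟩
  obtain ⟨hq, hq'⟩ := findD_spec _ _ 0 h0
  obtain ⟨q, hqe⟩ : ∃ q, q = fstq x.2.1 r.1 := ⟨_, rfl⟩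
  have hqe' : q = findD (fun i => !exa x.2.1 r.1 i) (List.range x.2.1.length) 0 := hqe
  rw [← hqe', List.mem_range] at hq
  rw [← hqe', Bool.not_eq_true'] at hq'
  obtain ⟨s, hs, u, hu, htot⟩ := pool_good hx hF hne hr hq hq'
  have hW := pcok_wld hx F r.1 q
  have hS := strt_leg hx hF hr hq
  have real : ∀ s ∈ plk x.1 x.2.1 x.2.2.1 F r.1 r.2 q 3,
      Leg pmem d0 ((List.range x.2.1.length).map (wpi F x.2.1 r.1 q) ++ x.2.2.1)
        (tk (x.2.1.length + x.2.2.1.length) s) := by
    intro s hs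
    have hleg' := poolS_leg hW hS _ s hs
    obtain ⟨a, b, rfl, ha, hb⟩ := leg_split hleg'
    have hlen : a.length = x.2.1.length + x.2.2.1.length := by rw [ha.len]; simp
    rw [← hlen, tk_append]
    exact ha
  have zero : ∀ s ∈ plk x.1 x.2.1 x.2.2.1 F r.1 r.2 q 3, ∀ v, x.1 < v →
      totS (tk (x.2.1.length + x.2.2.1.length) s) v = 0 := fun s hs v hv =>
    totS_zero (real s hs) (pcok_real hx F r.1 q) hv
  have h1 : ∃ c ∈ prd (plk x.1 x.2.1 x.2.2.1 F r.1 r.2 q 3) (unk x.1 F),
      atP x.1 x.2.2.2 (tk (x.2.1.length + x.2.2.1.length) c.1) c.2 = true :=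
    ⟨(s, u), mem_prd.2 ⟨hs, hu⟩, (atP_iff hx.tl (mem_unk.1 hu).1 (zero s hs)).2 htot⟩
  obtain ⟨h2, h3⟩ := findD_spec _ _ (([], 0, false) : St × ℕ × Bool) h1
  have hpe : findD (fun c : St × ℕ × Bool => atP x.1 x.2.2.2 (tk (x.2.1.length + x.2.2.1.length) c.1) c.2)
      (prd (plk x.1 x.2.1 x.2.2.1 F r.1 r.2 q 3) (unk x.1 F)) ([], 0, false) =
      pck x.1 x.2.1 x.2.2.1 x.2.2.2 F r.1 r.2 q := rfl
  rw [hpe] at h2 h3
  have hred : red (x, F, r) = (tk (x.2.1.length + x.2.2.1.length)
      (pck x.1 x.2.1 x.2.2.1 x.2.2.2 F r.1 r.2 q).1, code (pck x.1 x.2.1 x.2.2.1 x.2.2.2 F r.1 r.2 q).2) := by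
    rw [hqe]
    rfl
  generalize pck x.1 x.2.1 x.2.2.1 x.2.2.2 F r.1 r.2 q = c at h2 h3 hred
  obtain ⟨h4, h5⟩ := mem_prd.1 h2
  obtain ⟨h6, h7⟩ := mem_unk.1 h5
  rw [hred]
  refine ⟨⟨c.2, rfl, h6, h7, leg_back (real c.1 h4), (atP_iff hx.tl h6 (zero c.1 h4)).1 h3⟩, ?_⟩
  exact mu_lt hq hq' (real c.1 h4)

/-- a relaxed state without violations is exact -/
theorem ex_of_mu {r : St × ℕ} (hr : Good x F r) (hm : mu x r = 0) :
    IsFact x r.2 r.1 ∧ r.2 ∉ F.map Prod.fst := by
  obtain ⟨u, h1, h2, h3, h4, h5⟩ := hr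
  refine ⟨⟨u, h1, h2, ?_, h5⟩, kn_false.1 h3⟩
  obtain ⟨g1, g2, g3⟩ := leg_rx.1 h4
  refine leg_ex.2 ⟨g1, ?_, g3⟩
  intro i hi
  have h6 := List.length_eq_zero_iff.1 hm
  rw [List.filter_eq_nil_iff] at h6
  have h7 := h6 i (List.mem_range.2 hi)
  simpa using h7

theorem mu_le (x : Dt) (r : St × ℕ) : mu x r ≤ x.2.1.length := by
  have := List.length_filter_le (fun i => !exa x.2.1 r.1 i) (List.range x.2.1.length)
  rwa [List.length_range] at this

theorem port_lt {p : ℕ} {s : St} (h : IsFact x p s) : p < 2 * (x.1 + 1) := by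
  obtain ⟨⟨u, b⟩, h1, h2, _⟩ := h
  simp only at h2
  rw [h1]
  unfold code
  cases b <;> simp <;> omega

end spec

/-! ### polynomial time -/

section pt
variable {ι : Type} [DEnc ι]

theorem pt_kn {F : ι → Fct St} {p : ι → ℕ} (hF : PT F) (hp : PT p) : PT (fun x => kn (F x) (p x)) :=
  PT.any hF (p := fun y : ι × (ℕ × St) => decide (y.2.1 = p y.1)) (PT.neq PT.snd.p1 (hp.comp PT.fst))

theorem pt_PLb {F : ι → Fct St} {v : ι → ℕ} (hF : PT F) (hv : PT v) : PT (fun x => PLb (F x) (v x)) :=
  PT.band (pt_kn hF (PT.nmul (PT.const 2) hv))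
    (PT.bnot (pt_kn hF (PT.nadd (PT.nmul (PT.const 2) hv) (PT.const 1))))

theorem pt_code {u : ι → ℕ × Bool} (hu : PT u) : PT (fun x => code (u x)) :=
  PT.nadd (PT.nmul (PT.const 2) (PT.p1 hu)) (PT.cond (PT.p2 hu) (PT.const 1) (PT.const 0))

theorem pt_unk {n : ι → ℕ} {F : ι → Fct St} (hn : PT n) (hF : PT F) : PT (fun x => unk (n x) (F x)) :=
  PT.filter (PT.flatMap (PT.range (PT.nadd hn (PT.const 1))) (g := fun y : ι × ℕ => [(y.2, false), (y.2, true)])
      (PT.cons (PT.pair PT.snd (PT.const false)) (PT.cons (PT.pair PT.snd (PT.const true)) (PT.const []))))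
    (p := fun y : ι × (ℕ × Bool) => !kn (F y.1) (code y.2)) (PT.bnot (pt_kn (hF.comp PT.fst) (pt_code PT.snd)))

theorem pt_psiF {F : ι → Fct St} {c : ι → Cl} (hF : PT F) (hc : PT c) :
    PT (fun x => psi (PLb (F x)) (c x)) :=
  pt_psi (P := fun y : ι × ℕ => PLb (F y.1) y.2) (pt_PLb (hF.comp PT.fst) PT.snd) hc

theorem pt_rx {F : ι → Fct St} {c : ι → Cl} (hF : PT F) (hc : PT c) : PT (fun x => rx (F x) (c x)) :=
  pt_rxP hc (pt_psiF hF hc)

theorem pt_exa {Cs : ι → List Cl} {ks : ι → St} {i : ι → ℕ} (hC : PT Cs) (hk : PT ks) (hi : PT i) :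
    PT (fun x => exa (Cs x) (ks x) (i x)) :=
  pt_pmem (pt_exP (PT.getD hC hi (PT.const c0))) (PT.getD hk hi (PT.const []))

theorem pt_wpi {F : ι → Fct St} {Cs : ι → List Cl} {ks : ι → St} {q i : ι → ℕ} (hF : PT F) (hC : PT Cs)
    (hk : PT ks) (hq : PT q) (hi : PT i) : PT (fun x => wpi (F x) (Cs x) (ks x) (q x) (i x)) := by
  have hc := PT.getD hC hi (PT.const c0)
  exact PT.cond (PT.bor (pt_exa hC hk hi) (PT.neq hi hq)) (pt_exP hc) (pt_rx hF hc)

theorem pt_tkP {t : ι → ℕ} {u : ι → ℕ × Bool} (ht : PT t) (hu : PT u) : PT (fun x => tkP (t x) (u x)) := by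
  have h1 := PT.p1 hu
  have c0 : ∀ (α : Type) [DEnc α] (a : α), PT (fun _ : ι => a) := fun α _ a => PT.const a
  exact PT.cond (PT.p2 hu)
    (PT.pair (c0 Bool false) (PT.pair (c0 (List Ed) []) (PT.cons (PT.cons h1 (c0 (List ℕ) []))
      (PT.cons (PT.cons ht (c0 (List ℕ) [])) (c0 (List (List ℕ)) [])))))
    (PT.pair (c0 Bool true) (PT.pair (c0 (List Ed) []) (PT.cons (PT.cons h1 (PT.cons ht (c0 (List ℕ) [])))
      (c0 (List (List ℕ)) []))))

theorem pt_un {u : ι → ℕ × Bool} (hu : PT u) : PT (fun x => un (u x)) :=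
  PT.cond (PT.p2 hu) (PT.cons (PT.p1 hu) (PT.const [])) (PT.const [])

theorem pt_us {t : ι → ℕ} {u : ι → ℕ × Bool} (ht : PT t) (hu : PT u) : PT (fun x => us (t x) (u x)) :=
  PT.cond (PT.p2 hu) (PT.cons ht (PT.const [])) (PT.cons (PT.p1 hu) (PT.cons ht (PT.const [])))

theorem pt_tk {N : ι → ℕ} {s : ι → St} (hN : PT N) (hs : PT s) : PT (fun x => tk (N x) (s x)) :=
  PT.map (PT.range hN) (g := fun y : ι × ℕ => (s y.1).getD y.2 [])
    (PT.getD (hs.comp PT.fst) PT.snd (PT.const []))

theorem pt_dig {F : ι → Fct St} {c : ι → Cl} {k : ι → List ℕ} (hF : PT F) (hc : PT c) (hk : PT k) :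
    PT (fun x => dig (F x) (c x) (k x)) :=
  pt_findD (p := fun y : ι × List ℕ => eqK (k y.1) y.2) (pt_eqK (hk.comp PT.fst) PT.snd)
    (pt_digs hc (pt_psiF hF hc)) (PT.const [])

section
variable {n : ι → ℕ} {Cs : ι → List Cl} {Ot : ι → List Pc} {tau : ι → List ℕ} {F : ι → Fct St} {ks : ι → St}
  {p q : ι → ℕ}

theorem pt_wld (hn : PT n) (hC : PT Cs) (hO : PT Ot) (hF : PT F) (hk : PT ks) (hq : PT q) :
    PT (fun x => wld (n x) (Cs x) (Ot x) (F x) (ks x) (q x)) := by
  refine PT.append (PT.append ?_ hO) ?_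
  · exact PT.map (PT.range (PT.length hC)) (g := fun y : ι × ℕ => wpi (F y.1) (Cs y.1) (ks y.1) (q y.1) y.2)
      (pt_wpi (hF.comp PT.fst) (hC.comp PT.fst) (hk.comp PT.fst) (hq.comp PT.fst) PT.snd)
  · exact PT.map (pt_unk hn hF) (g := fun y : ι × (ℕ × Bool) => tkP (n y.1 + 1) y.2)
      (pt_tkP (PT.nadd (hn.comp PT.fst) (PT.const 1)) PT.snd)

theorem pt_strt (hn : PT n) (hC : PT Cs) (hF : PT F) (hk : PT ks) (hp : PT p) (hq : PT q) :
    PT (fun x => strt (n x) (Cs x) (F x) (ks x) (p x) (q x)) := by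
  have hU := pt_unk hn hF
  have hc : PT (fun x => (Cs x).getD (q x) c0) := PT.getD hC hq (PT.const c0)
  have hkq : PT (fun x => (ks x).getD (q x) []) := PT.getD hk hq (PT.const [])
  refine PT.append ?_ ?_
  · refine PT.map (pt_mvs hc (pt_dig hF hc hkq)) (g := fun y : ι × List ℕ => setL (ks y.1) (q y.1) y.2 ++
      ((unk (n y.1) (F y.1)).map fun u => bif decide (code u = p y.1) then us (n y.1 + 1) u else un u)) ?_
    refine PT.append (pt_setL (hk.comp PT.fst) (hq.comp PT.fst) PT.snd) ?_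
    refine PT.map (hU.comp PT.fst) (g := fun z : (ι × List ℕ) × (ℕ × Bool) =>
      bif decide (code z.2 = p z.1.1) then us (n z.1.1 + 1) z.2 else un z.2) ?_
    have e0 : PT (fun z : (ι × List ℕ) × (ℕ × Bool) => z.1.1) := PT.fst.comp PT.fst
    exact PT.cond (PT.neq (pt_code PT.snd) (hp.comp e0)) (pt_us (PT.nadd (hn.comp e0) (PT.const 1)) PT.snd)
      (pt_un PT.snd)
  · refine PT.map hF (g := fun y : ι × (ℕ × St) => y.2.2 ++ (unk (n y.1) (F y.1)).map un) ?_
    refine PT.append PT.snd.p2 ?_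
    exact PT.map (hU.comp PT.fst) (g := fun z : (ι × (ℕ × St)) × (ℕ × Bool) => un z.2) (pt_un PT.snd)

theorem pt_plk (hn : PT n) (hC : PT Cs) (hO : PT Ot) (hF : PT F) (hk : PT ks) (hp : PT p) (hq : PT q) (k : ℕ) :
    PT (fun x => plk (n x) (Cs x) (Ot x) (F x) (ks x) (p x) (q x) k) :=
  pt_poolS (mem := pmem) (pt_pmem PT.fst PT.snd) d0 (pt_wld hn hC hO hF hk hq) (PT.nadd hn (PT.const 1))
    (PT.range (PT.nadd hn (PT.const 2))) (pt_strt hn hC hF hk hp hq) k

theorem pt_atP {s : ι → St} {u : ι → ℕ × Bool} (hn : PT n) (ht : PT tau) (hs : PT s) (hu : PT u) :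
    PT (fun x => atP (n x) (tau x) (s x) (u x)) := by
  refine PT.all (PT.range (PT.nadd hn (PT.const 2))) (p := fun y : ι × ℕ =>
    decide (cT (s y.1) y.2 + (bif (u y.1).2 then 0 else bif decide (y.2 = (u y.1).1) then 1 else 0) =
      (tau y.1).getD y.2 0 + (bif (u y.1).2 then bif decide (y.2 = (u y.1).1) then 1 else 0 else 0))) ?_
  have e1 : PT (fun y : ι × ℕ => (u y.1).1) := PT.p1 (hu.comp PT.fst)
  have e2 : PT (fun y : ι × ℕ => (u y.1).2) := PT.p2 (hu.comp PT.fst)
  have e3 : PT (fun y : ι × ℕ => bif decide (y.2 = (u y.1).1) then 1 else 0) :=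
    PT.cond (PT.neq PT.snd e1) (PT.const 1) (PT.const 0)
  exact PT.neq (PT.nadd (pt_cT (hs.comp PT.fst) PT.snd) (PT.cond e2 (PT.const 0) e3))
    (PT.nadd (PT.getD (ht.comp PT.fst) PT.snd (PT.const 0)) (PT.cond e2 e3 (PT.const 0)))

theorem pt_fstq (hC : PT Cs) (hk : PT ks) : PT (fun x => fstq (Cs x) (ks x)) :=
  pt_findD (p := fun y : ι × ℕ => !exa (Cs y.1) (ks y.1) y.2)
    (PT.bnot (pt_exa (hC.comp PT.fst) (hk.comp PT.fst) PT.snd)) (PT.range (PT.length hC)) (PT.const 0)

theorem pt_pck (hn : PT n) (hC : PT Cs) (hO : PT Ot) (ht : PT tau) (hF : PT F) (hk : PT ks) (hp : PT p)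
    (hq : PT q) : PT (fun x => pck (n x) (Cs x) (Ot x) (tau x) (F x) (ks x) (p x) (q x)) := by
  have e1 : PT (fun y : ι × (St × ℕ × Bool) => tk ((Cs y.1).length + (Ot y.1).length) y.2.1) :=
    pt_tk (PT.nadd (PT.length (hC.comp PT.fst)) (PT.length (hO.comp PT.fst))) PT.snd.p1
  exact pt_findD (p := fun y : ι × (St × ℕ × Bool) =>
      atP (n y.1) (tau y.1) (tk ((Cs y.1).length + (Ot y.1).length) y.2.1) y.2.2)
    (pt_atP (hn.comp PT.fst) (ht.comp PT.fst) e1 PT.snd.p2)
    (pt_prd (pt_plk hn hC hO hF hk hp hq 3) (pt_unk hn hF)) (PT.const ([], 0, false))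

theorem pt_mu' (hC : PT Cs) (hk : PT ks) :
    PT (fun x => ((List.range (Cs x).length).filter fun i => !exa (Cs x) (ks x) i).length) :=
  PT.length (PT.filter (PT.range (PT.length hC)) (p := fun y : ι × ℕ => !exa (Cs y.1) (ks y.1) y.2)
    (PT.bnot (pt_exa (hC.comp PT.fst) (hk.comp PT.fst) PT.snd)))

end

theorem pt_mu {x : ι → Dt} {r : ι → St × ℕ} (hx : PT x) (hr : PT r) : PT (fun y => mu (x y) (r y)) :=
  pt_mu' (PT.p1 (PT.p2 hx)) (PT.p1 hr)

theorem pt_red {y : ι → Dt × Fct St × (St × ℕ)} (hy : PT y) : PT (fun x => red (y x)) := by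
  have hx := PT.p1 hy
  have hn := PT.p1 hx
  have hC := PT.p1 (PT.p2 hx)
  have hO := PT.p1 (PT.p2 (PT.p2 hx))
  have ht := PT.p2 (PT.p2 (PT.p2 hx))
  have hF := PT.p1 (PT.p2 hy)
  have hk := PT.p1 (PT.p2 (PT.p2 hy))
  have hp := PT.p2 (PT.p2 (PT.p2 hy))
  have h := pt_pck hn hC hO ht hF hk hp (pt_fstq hC hk)
  exact PT.pair (pt_tk (PT.nadd (PT.length hC) (PT.length hO)) (PT.p1 h)) (pt_code (PT.p2 h))

end pt

end Pool.Agent.PF4.Rd
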