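import Pool.Agent.PF4.Cfg
import Pool.Agent.PF4.PcK2
import Pool.Agent.PF4.PcR
import Pool.Agent.PF4.CapD
import Pool.Agent.PF4.SumX
import Pool.Agent.PF4.Sol

/-!
# The functions of the solver for conflict-free families

Instance `(x, g, W, C)`: graph, demand, near covers, clusters. `n = x.1` is the slack vertex, `n + 1` the token coordinate.
Ports: `s = v ≤ n` (total = target minus `e_v`), `s = n + 1 + v` (total = target plus `e_v`); the goal is `n + 1 + n`.
-/

set_option autoImplicit false

namespace Pool.Agent.PF4.SV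

open Finset Pool.Agent.TFC Pool.Agent.Lib.helper60

/-- instance of the solver -/
abbrev SI : Type := Ins × List ℕ × List (ℕ × List Ed) × List Cl

/-- the port is known -/
def kno (F : Fct (List (List ℕ))) (s : ℕ) : Bool := F.any fun p => decide (p.1 = s)

/-- the unknown minus ports -/
def uMi (n : ℕ) (F : Fct (List (List ℕ))) : List ℕ := (List.range (n + 1)).filter fun v => !kno F v

/-- the vertices of the unknown plus ports -/
def uPl (n : ℕ) (F : Fct (List (List ℕ))) : List ℕ := (List.range (n + 1)).filter fun v => !kno F (n + 1 + v)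

/-- the minus port is known, the plus port is unknown -/
def plu (n : ℕ) (F : Fct (List (List ℕ))) (v : ℕ) : Bool := kno F v && !kno F (n + 1 + v)

/-- the target -/
def tgL (n : ℕ) : List ℕ := (List.range (n + 1)).map fun v => if v < n then 2 else 2 * n - 1

/-- the units of the relaxed pieces -/
def rlU (y : SI) (F : Fct (List (List ℕ))) : List (List (List ℕ × List ℕ)) :=
  ((y.2.2.2.map fun c => rxU c (psi (plu y.1.1 F) c)) ++ (plE y.1 y.2.2.2).map fun e => [([e.1], [e.2])]) ++
  (((slJ y.1.1 y.2.1).map fun p => [([p.1], [y.1.1])]) ++ (List.range y.1.1).map fun _ => [([y.1.1], [y.1.1])])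

/-- one matching call -/
def relaxS (w : SI × Fct (List (List ℕ))) : Bool × ℕ × List (List ℕ) :=
  (Gd.capF (w.1.1.1 + 1) (tgL w.1.1.1) (rlU w.1 w.2) (uMi w.1.1.1 w.2) (uPl w.1.1.1 w.2),
    Gd.capP (w.1.1.1 + 1) (tgL w.1.1.1) (rlU w.1 w.2) (uMi w.1.1.1 w.2) (uPl w.1.1.1 w.2),
    Gd.capS (w.1.1.1 + 1) (tgL w.1.1.1) (rlU w.1 w.2) (uMi w.1.1.1 w.2) (uPl w.1.1.1 w.2))

/-- the total of `ks` is at the port `s` -/
def AtP (n : ℕ) (ks : List (List ℕ)) (s : ℕ) : Prop :=
  ∀ v < n + 1, ttl ks v + (if s = v then 1 else 0) = tgt n 1 v + (if s = n + 1 + v then 1 else 0)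

/-- the relaxed pieces, relative to the facts -/
def rlP (y : SI) (F : Fct (List (List ℕ))) : List Pc :=
  pcs (fun c => rxP c (psi (plu y.1.1 F) c)) y.1 y.2.1 y.2.2.2

/-- the exact pieces -/
def xcP (y : SI) : List Pc := pcs exP y.1 y.2.1 y.2.2.2

/-- relaxed configuration at an unknown port -/
structure GoodS (y : SI) (F : Fct (List (List ℕ))) (r : ℕ × List (List ℕ)) : Prop where
  lt : r.1 < 2 * (y.1.1 + 1)
  unk : kno F r.1 = false
  mem : List.Forall₂ (fun p k => pmem p k = true) (rlP y F) r.2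
  at_ : AtP y.1.1 r.2 r.1

/-- exact configuration at a port different from the goal -/
structure FactS (y : SI) (s : ℕ) (ks : List (List ℕ)) : Prop where
  lt : s < 2 * y.1.1 + 1
  mem : List.Forall₂ (fun p k => pmem p k = true) (xcP y) ks
  at_ : AtP y.1.1 ks s

/-- exact configuration with the full target -/
structure SolS (y : SI) (ks : List (List ℕ)) : Prop where
  mem : List.Forall₂ (fun p k => pmem p k = true) (xcP y) ks
  at_ : ∀ v < y.1.1 + 1, ttl ks v = tgt y.1.1 0 v

/-- well-formed instance -/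
structure WfS (y : SI) : Prop where
  x : InsWF y.1
  c : ClsOK y.1 y.2.2.2
  g : ∀ v, y.2.1.getD v 0 ≤ 2
  w : ∀ p ∈ y.2.2.1, p.1 < y.1.1 ∧ VM y.1 p.2 ∧
    (∀ u < y.1.1, y.2.1.getD u 0 ≤ degL p.2 u + (if u = p.1 then 1 else 0)) ∧ degL p.2 p.1 + 1 = y.2.1.getD p.1 0
  nod : (y.2.2.1.map Prod.fst).Nodup
  ne : y.2.2.1 ≠ []

/-- the vector of the `j`-th cluster is not exact -/
def nx (C : List Cl) (ks : List (List ℕ)) (j : ℕ) : Bool :=
  !pmem (exP (C.getD j (false, 0, 0, []))) (ks.getD j [])

/-- number of the violated clusters -/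
def muS (C : List Cl) (ks : List (List ℕ)) : ℕ := ((List.range C.length).filter fun j => nx C ks j).length

/-- the first violated cluster -/
def fstV (C : List Cl) (ks : List (List ℕ)) : ℕ := ((List.range C.length).filter fun j => nx C ks j).headD 0

/-- the pieces of the clusters in the world of the reduction step: cluster `i` becomes exact, violated clusters stay relaxed -/
def wcl (P : ℕ → Bool) (C : List Cl) (ks : List (List ℕ)) (i : ℕ) : List Pc :=
  (List.range C.length).map fun j =>
    bif !decide (j = i) && nx C ks j then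
      rxP (C.getD j (false, 0, 0, [])) (psi P (C.getD j (false, 0, 0, [])))
    else exP (C.getD j (false, 0, 0, []))

/-- the token pieces -/
def tkP (n : ℕ) (F : Fct (List (List ℕ))) : List Pc :=
  ((uMi n F).map fun v => unP v (n + 1)) ++ (uPl n F).map fun v => (false, [], [[v], [n + 1]])

/-- the token vectors for the port `s`; `s = 2 * (n + 1)` for no port -/
def tkS (n : ℕ) (F : Fct (List (List ℕ))) (s : ℕ) : List (List ℕ) :=
  ((uMi n F).map fun v => bif decide (v = s) then [v, n + 1] else []) ++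
    (uPl n F).map fun v => bif decide (n + 1 + v = s) then [n + 1] else [v]

/-- the pieces of the world -/
def wPc (y : SI) (F : Fct (List (List ℕ))) (ks : List (List ℕ)) : List Pc :=
  ((wcl (plu y.1.1 F) y.2.2.2 ks (fstV y.2.2.2 ks) ++ (plE y.1 y.2.2.2).map edP) ++
    ((slJ y.1.1 y.2.1).map (fun p => unP p.1 y.1.1) ++ (List.range y.1.1).map fun _ => unP y.1.1 y.1.1)) ++
  tkP y.1.1 F

/-- the additional vector of the first violated cluster -/
def dgV (y : SI) (F : Fct (List (List ℕ))) (ks : List (List ℕ)) : List ℕ :=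
  findD (fun d => eqK (ks.getD (fstV y.2.2.2 ks) []) d)
    (digs (y.2.2.2.getD (fstV y.2.2.2 ks) (false, 0, 0, []))
      (psi (plu y.1.1 F) (y.2.2.2.getD (fstV y.2.2.2 ks) (false, 0, 0, [])))) []

/-- the states at the start of the pool -/
def stS (y : SI) (F : Fct (List (List ℕ))) (r : ℕ × List (List ℕ)) : List (List (List ℕ)) :=
  ((mvs (y.2.2.2.getD (fstV y.2.2.2 r.2) (false, 0, 0, [])) (dgV y F r.2)).map fun m =>
    setL r.2 (fstV y.2.2.2 r.2) m ++ tkS y.1.1 F r.1) ++
  F.map fun p => p.2 ++ tkS y.1.1 F (2 * (y.1.1 + 1))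

/-- the pool -/
def poS (y : SI) (F : Fct (List (List ℕ))) (r : ℕ × List (List ℕ)) : List (List (List ℕ)) :=
  poolS pmem (false, [], []) (wPc y F r.2) (y.1.1 + 1) (List.range (y.1.1 + 2)) (stS y F r) 3

/-- forget the token pieces -/
def realS (m : ℕ) (z : List (List ℕ)) : List (List ℕ) := (List.range m).map fun q => z.getD q []

/-- the total is at the port -/
def tstS (n : ℕ) (q : ℕ × List (List ℕ)) : Bool :=
  (List.range (n + 1)).all fun v =>
    decide (cT q.2 v + (if q.1 = v then 1 else 0) = (tgL n).getD v 0 + (if q.1 = n + 1 + v then 1 else 0))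

/-- the unknown ports -/
def uPo (n : ℕ) (F : Fct (List (List ℕ))) : List ℕ := uMi n F ++ (uPl n F).map fun v => n + 1 + v

/-- the reduction step -/
def redS (w : SI × Fct (List (List ℕ)) × ℕ × List (List ℕ)) : ℕ × List (List ℕ) :=
  findD (tstS w.1.1.1) ((poS w.1 w.2.1 w.2.2).flatMap fun z => (uPo w.1.1.1 w.2.1).map fun s =>
    (s, realS w.2.2.2.length z)) (0, [])

/-- the facts at the start -/
def initS (y : SI) : Fct (List (List ℕ)) := y.2.2.1.map fun p => (p.1, cfgM y.1 y.2.1 y.2.2.2 p.2 1)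

end Pool.Agent.PF4.SV
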