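import Pool.Agent.PF4.SolD

/-!
# The solver: facts at the start, sizes, polynomial time
-/

set_option autoImplicit false

namespace Pool.Agent.PF4.SV

open Finset Pool.Agent.TFC Pool.Agent.Lib.helper60

/-! ### the facts at the start -/

theorem init_fact {y : SI} (hy : WfS y) {p : ℕ × List (List ℕ)} (hp : p ∈ initS y) : FactS y p.1 p.2 := by
  obtain ⟨q, hq, rfl⟩ := List.mem_map.1 hp
  obtain ⟨h1, h2, h3, h4⟩ := hy.w q hq
  refine ⟨by simp only; omega, cfgM_exact hy.x hy.c _ h2 1, ?_⟩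
  intro v _
  have h5 := ttl_near hy.x hy.c h2.1 h1 (hy.g q.1) h3 h4 v
  have h6 : q.1 ≠ y.1.1 + 1 + v := by omega
  simp only at h5 ⊢
  rw [if_neg h6, add_zero, ← h5]
  congr 1
  by_cases h7 : v = q.1
  · rw [if_pos h7, if_pos h7.symm]
  · rw [if_neg h7, if_neg fun h => h7 h.symm]

theorem init_nodup {y : SI} (hy : WfS y) : ((initS y).map Prod.fst).Nodup := by
  have : (initS y).map Prod.fst = y.2.2.1.map Prod.fst := by
    rw [initS, List.map_map]
    rfl
  rw [this]
  exact hy.nod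

theorem init_ne {y : SI} (hy : WfS y) : initS y ≠ [] := by
  intro h
  exact hy.ne (List.map_eq_nil_iff.1 h)

/-! ### the last step -/

/-- an exact configuration at an unknown port is a solution or a new fact -/
def finS (w : SI × Fct (List (List ℕ)) × ℕ × List (List ℕ)) : Bool × ℕ × List (List ℕ) :=
  (decide (w.2.2.1 = 2 * w.1.1.1 + 1), w.2.2.1, w.2.2.2)

theorem mu_zero {C : List Cl} {ks : List (List ℕ)} (h : muS C ks = 0) {j : ℕ} (hj : j < C.length) :
    pmem (exP (C.getD j (false, 0, 0, []))) (ks.getD j []) = true := by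
  unfold muS at h
  rw [List.length_eq_zero_iff, List.filter_eq_nil_iff] at h
  have := h j (List.mem_range.2 hj)
  unfold nx at this
  simpa using this

theorem forall2_getD {α β : Type} {R : α → β → Prop} {l : List α} {m : List β} (h : List.Forall₂ R l m)
    {j : ℕ} (hj : j < l.length) (a : α) (b : β) : R (l.getD j a) (m.getD j b) := by
  induction h generalizing j with
  | nil => simp at hj
  | cons h1 _ ih =>
    cases j with
    | zero => exact h1
    | succ j => exact ih (by simpa using hj)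

/-- exchange the pieces of the clusters -/
theorem forall2_clusters {R : Pc → List ℕ → Prop} {φ ψ : Cl → Pc} {C : List Cl} {E : List Pc} {ks : List (List ℕ)}
    (h : List.Forall₂ R (C.map φ ++ E) ks) (c0 : Cl)
    (h2 : ∀ j < C.length, R (ψ (C.getD j c0)) (ks.getD j [])) : List.Forall₂ R (C.map ψ ++ E) ks := by
  induction C generalizing ks with
  | nil => exact h
  | cons c C ih =>
    cases h with
    | cons h3 h4 =>
      refine List.Forall₂.cons (h2 0 (by simp)) (ih h4 ?_)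
      intro j hj
      exact h2 (j + 1) (by simpa using hj)

theorem exact_of_mu {y : SI} {F : Fct (List (List ℕ))} {ks : List (List ℕ)}
    (h : List.Forall₂ (fun p k => pmem p k = true) (rlP y F) ks) (hm : muS y.2.2.2 ks = 0) :
    List.Forall₂ (fun p k => pmem p k = true) (xcP y) ks := by
  unfold rlP pcs at h
  unfold xcP pcs
  rw [List.append_assoc] at h ⊢
  exact forall2_clusters h (false, 0, 0, []) fun j hj => mu_zero hm hj

theorem fin_true {y : SI} (hy : WfS y) {F : Fct (List (List ℕ))} {r : ℕ × List (List ℕ)} (hr : GoodS y F r)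
    (hm : muS y.2.2.2 r.2 = 0) (h : (finS (y, F, r)).1 = true) : SolS y (finS (y, F, r)).2.2 := by
  have h1 : r.1 = 2 * y.1.1 + 1 := by simpa [finS] using h
  refine ⟨exact_of_mu hr.mem hm, ?_⟩
  intro v hv
  have h2 := hr.at_ v hv
  have hn : 0 < y.1.1 := by
    obtain ⟨p, hp⟩ := List.exists_mem_of_ne_nil _ hy.ne
    have := (hy.w p hp).1
    omega
  rw [h1, if_neg (by omega)] at h2
  simp only [finS]
  unfold tgt at h2 ⊢
  by_cases h4 : v < y.1.1
  · rw [if_pos h4] at h2 ⊢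
    rw [if_neg (by omega)] at h2
    omega
  · have h5 : v = y.1.1 := by omega
    rw [if_neg h4, if_pos h5] at h2 ⊢
    rw [if_pos (by omega)] at h2
    omega

theorem kno_iff {F : Fct (List (List ℕ))} {s : ℕ} : kno F s = true ↔ s ∈ F.map Prod.fst := by
  simp [kno, List.any_eq_true]

theorem fin_false {y : SI} {F : Fct (List (List ℕ))} {r : ℕ × List (List ℕ)} (hr : GoodS y F r)
    (hm : muS y.2.2.2 r.2 = 0) (h : (finS (y, F, r)).1 = false) :
    (finS (y, F, r)).2.1 < 2 * y.1.1 + 2 ∧ FactS y (finS (y, F, r)).2.1 (finS (y, F, r)).2.2 ∧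
      (finS (y, F, r)).2.1 ∉ F.map Prod.fst := by
  have h1 : r.1 ≠ 2 * y.1.1 + 1 := by simpa [finS] using h
  have h2 := hr.lt
  refine ⟨by simp only [finS]; omega, ⟨by simp only [finS]; omega, exact_of_mu hr.mem hm, hr.at_⟩, ?_⟩
  intro h3
  have h4 := hr.unk
  have h5 : kno F r.1 = true := kno_iff.2 h3
  rw [h5] at h4
  cases h4

/-! ### sizes -/

theorem leg_of {P : List Pc} {ks : List (List ℕ)} (h : List.Forall₂ (fun p k => pmem p k = true) P ks) :
    Leg pmem (false, [], []) P ks :=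
  ⟨h.length_eq.symm, fun _ hq => forall2_getD h hq _ _⟩

/-- the pieces are good for the exchange -/
theorem pcs_ok {y : SI} (hy : WfS y) {φ : Cl → Pc} (hφ : ∀ c ∈ y.2.2.2, PcOK pmem (y.1.1 + 1) (φ c)) :
    ∀ p ∈ pcs φ y.1 y.2.1 y.2.2.2, PcOK pmem (y.1.1 + 1) p := by
  intro p hp
  rcases List.mem_append.1 hp with hp | hp
  · rcases List.mem_append.1 hp with hp | hp
    · obtain ⟨c, hc, rfl⟩ := List.mem_map.1 hp
      exact hφ c hc
    · obtain ⟨e, he, rfl⟩ := List.mem_map.1 hp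
      have h1 : fe e ∈ fs (plE y.1 y.2.2.2) := fe_mem_fs he
      rw [plE, fs_rest, Finset.mem_sdiff] at h1
      have h2 := hy.x.vlt h1.1 (v := e.1) (by rw [fe]; exact Sym2.mem_mk_left _ _)
      have h3 := hy.x.vlt h1.1 (v := e.2) (by rw [fe]; exact Sym2.mem_mk_right _ _)
      exact pcok_edge (by omega) (by omega)
  · rcases List.mem_append.1 hp with hp | hp
    · obtain ⟨q, hq, rfl⟩ := List.mem_map.1 hp
      have := (mem_slJ.1 hq).1
      exact pcok_pair (by omega) (by omega)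
    · obtain ⟨q, hq, rfl⟩ := List.mem_map.1 hp
      exact pcok_pair (by omega) (by omega)

theorem clV_lt {y : SI} (hy : WfS y) {c : Cl} (hc : c ∈ y.2.2.2) : Gd.ClB y.1.1 c := by
  have ho := hy.c.ok c hc
  have hs := hy.c.sub c hc
  have key : ∀ a b, (a, b) ∈ clE c ∨ (b, a) ∈ clE c → a < y.1.1 := by
    intro a b h
    rcases h with h | h
    · exact hy.x.vlt (hs (fe_mem_fs h)) (by rw [fe]; exact Sym2.mem_mk_left _ _)
    · exact hy.x.vlt (hs (fe_mem_fs h)) (by rw [fe]; exact Sym2.mem_mk_right _ _)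
  obtain ⟨b, x, z, L⟩ := c
  cases b with
  | true =>
    obtain ⟨-, -, -, h4⟩ := ho.k2 rfl
    have hE : clE (true, x, z, L) = L.map (fun l => (x, l)) ++ L.map (fun l => (z, l)) := rfl
    simp only at h4
    obtain ⟨l0, hl0⟩ : ∃ l, l ∈ L := by
      cases L with
      | nil => simp at h4
      | cons a L => exact ⟨a, List.mem_cons_self⟩
    refine ⟨fun v hv => key v x (Or.inr ?_), fun _ => ⟨key x l0 (Or.inl ?_), key z l0 (Or.inl ?_)⟩⟩
    · rw [hE]; exact List.mem_append_left _ (List.mem_map.2 ⟨v, hv, rfl⟩)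
    · rw [hE]; exact List.mem_append_left _ (List.mem_map.2 ⟨l0, hl0, rfl⟩)
    · rw [hE]; exact List.mem_append_right _ (List.mem_map.2 ⟨l0, hl0, rfl⟩)
  | false =>
    have h4 := ho.k4 rfl
    have hn := ho.nd
    simp only at h4 hn
    refine ⟨fun v hv => ?_, fun h => by cases h⟩
    simp only at hv
    obtain ⟨u, hu, huv⟩ : ∃ u ∈ L, u ≠ v := by
      by_contra hcon
      push Not at hcon
      have h5 : L.toFinset ⊆ {v} := by
        intro u hu
        rw [Finset.mem_singleton]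
        exact hcon u (List.mem_toFinset.1 hu)
      have h6 := Finset.card_le_card h5
      rw [List.toFinset_card_of_nodup hn, Finset.card_singleton] at h6
      omega
    have hE : clE (false, x, z, L) = prs L := rfl
    rcases lt_or_gt_of_ne huv with h | h
    · refine key v u (Or.inr ?_)
      rw [hE, prs, List.mem_filter, mem_prd, decide_eq_true_eq]
      exact ⟨⟨hu, hv⟩, h⟩
    · refine key v u (Or.inl ?_)
      rw [hE, prs, List.mem_filter, mem_prd, decide_eq_true_eq]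
      exact ⟨⟨hv, hu⟩, h⟩

theorem clB' {n : ℕ} {c : Cl} (h : Gd.ClB n c) : ClB (n + 1) c :=
  ⟨fun v hv => (h.1 v hv).le.trans (Nat.le_succ n), fun hb => ⟨(h.2 hb).1.le.trans (Nat.le_succ n),
    (h.2 hb).2.le.trans (Nat.le_succ n)⟩⟩

theorem xc_ok {y : SI} (hy : WfS y) : ∀ p ∈ xcP y, PcOK pmem (y.1.1 + 1) p :=
  pcs_ok hy fun c hc => pcok_exP (clB' (clV_lt hy hc)) (hy.c.ok c hc)

theorem rl_ok {y : SI} (hy : WfS y) (F : Fct (List (List ℕ))) : ∀ p ∈ rlP y F, PcOK pmem (y.1.1 + 1) p :=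
  pcs_ok hy fun c hc => pcok_rxP (clB' (clV_lt hy hc)) (hy.c.ok c hc) (psi_ok _ (hy.c.ok c hc))
    (Gd.rx_jump (hy.c.ok c hc) (psi_ok _ (hy.c.ok c hc)))

theorem getD_mem {α : Type} {l : List α} {q : ℕ} (hq : q < l.length) (d : α) : l.getD q d ∈ l := by
  rw [List.getD_eq_getElem?_getD, List.getElem?_eq_getElem hq]
  exact List.getElem_mem hq

/-- number of pieces -/
def npc (y : SI) : ℕ := (xcP y).length

theorem len_pcs (φ : Cl → Pc) (y : SI) : (pcs φ y.1 y.2.1 y.2.2.2).length = npc y := by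
  simp [pcs, npc, xcP]

/-- size bound -/
def BS (y : SI) : ℕ := npc y * (16 * (y.1.1 + 1) + 18) + 1 + (4 * y.1.1 + 10)

theorem size_conf {y : SI} {P : List Pc} (hP : ∀ p ∈ P, PcOK pmem (y.1.1 + 1) p) (hl : P.length = npc y)
    {ks : List (List ℕ)} (h : List.Forall₂ (fun p k => pmem p k = true) P ks) :
    tsize ks ≤ npc y * (16 * (y.1.1 + 1) + 18) + 1 := by
  have h1 := tsize_leg (mem := pmem) (m := y.1.1 + 1) (d := (false, [], [])) (P := P)
    (fun q hq => hP _ (getD_mem hq _)) (leg_of h)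
  rw [hl] at h1
  exact h1

theorem size_fact {y : SI} (hy : WfS y) {s : ℕ} {ks : List (List ℕ)} (h : FactS y s ks) : tsize ks ≤ BS y :=
  (size_conf (xc_ok hy) rfl h.mem).trans (Nat.le_add_right _ _)

theorem size_sol {y : SI} (hy : WfS y) {ks : List (List ℕ)} (h : SolS y ks) : tsize ks ≤ BS y :=
  (size_conf (xc_ok hy) rfl h.mem).trans (Nat.le_add_right _ _)

theorem size_good {y : SI} (hy : WfS y) {F : Fct (List (List ℕ))} {r : ℕ × List (List ℕ)} (h : GoodS y F r) :
    tsize r ≤ BS y := by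
  have h1 := size_conf (rl_ok hy F) (len_pcs _ y) h.mem
  have h2 := h.lt
  obtain ⟨s, ks⟩ := r
  simp only at h1 h2
  rw [tsize_pair, tsize_nat, BS]
  omega

theorem mu_le (C : List Cl) (ks : List (List ℕ)) : muS C ks ≤ C.length := by
  unfold muS
  refine (List.length_filter_le _ _).trans ?_
  rw [List.length_range]

/-! ### polynomial time -/

section pt

variable {ι : Type} [DEnc ι]

theorem pt_plE {x : ι → Ins} {C : ι → List Cl} (hx : PT x) (hC : PT C) : PT (fun i => plE (x i) (C i)) :=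
  pt_rest (PT.p2 hx) (PT.flatMap hC (g := fun y : ι × Cl => clE y.2) (pt_clE PT.snd))

theorem pt_slJ {n : ι → ℕ} {g : ι → List ℕ} (hn : PT n) (hg : PT g) : PT (fun i => slJ (n i) (g i)) :=
  PT.flatMap (PT.range hn) (g := fun y : ι × ℕ => (List.range (2 - (g y.1).getD y.2 0)).map fun j => (y.2, j))
    (PT.map (PT.range (PT.nsub (PT.const 2) (PT.getD (hg.comp PT.fst) PT.snd (PT.const 0))))
      (g := fun z : (ι × ℕ) × ℕ => (z.1.2, z.2)) (PT.pair PT.fst.p2 PT.snd))

theorem pt_unP {u v : ι → ℕ} (hu : PT u) (hv : PT v) : PT (fun i => unP (u i) (v i)) :=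
  PT.pair (PT.const true) (PT.pair (PT.const []) (PT.cons (PT.cons hu (PT.cons hv (PT.const []))) (PT.const [])))

theorem pt_edP {e : ι → Ed} (he : PT e) : PT (fun i => edP (e i)) :=
  PT.pair (PT.const true) (PT.pair (PT.cons he (PT.const [])) (PT.const []))

theorem pt_pcs {φ : ι × Cl → Pc} {x : ι → Ins} {g : ι → List ℕ} {C : ι → List Cl} (hφ : PT φ) (hx : PT x)
    (hg : PT g) (hC : PT C) : PT (fun i => pcs (fun c => φ (i, c)) (x i) (g i) (C i)) := by
  have hn := PT.p1 hx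
  refine PT.append (PT.append (PT.map hC hφ) ?_) (PT.append ?_ ?_)
  · exact PT.map (pt_plE hx hC) (g := fun y : ι × Ed => edP y.2) (pt_edP PT.snd)
  · exact PT.map (pt_slJ hn hg) (g := fun y : ι × (ℕ × ℕ) => unP y.2.1 (x y.1).1)
      (pt_unP PT.snd.p1 (hn.comp PT.fst))
  · exact PT.map (PT.range hn) (g := fun y : ι × ℕ => unP (x y.1).1 (x y.1).1)
      (pt_unP (hn.comp PT.fst) (hn.comp PT.fst))

theorem pt_hsl {x : ι → Ins} {g : ι → List ℕ} {M : ι → List Ed} (hx : PT x) (hg : PT g) (hM : PT M) :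
    PT (fun i => hsl (x i) (g i) (M i)) :=
  PT.length (PT.filter (pt_slJ (PT.p1 hx) hg) (p := fun y : ι × (ℕ × ℕ) => decide (y.2.2 < 2 - degL (M y.1) y.2.1))
    (PT.nlt PT.snd.p2 (PT.nsub (PT.const 2) (pt_degL (hM.comp PT.fst) PT.snd.p1))))

theorem pt_cfgM {x : ι → Ins} {g : ι → List ℕ} {C : ι → List Cl} {M : ι → List Ed} {ρ : ι → ℕ} (hx : PT x)
    (hg : PT g) (hC : PT C) (hM : PT M) (hρ : PT ρ) : PT (fun i => cfgM (x i) (g i) (C i) (M i) (ρ i)) := by
  have hn := PT.p1 hx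
  have hh := pt_hsl hx hg hM
  refine PT.append (PT.append ?_ ?_) (PT.append ?_ ?_)
  · exact PT.map hC (g := fun y : ι × Cl => ends2 (norm (clE y.2) (M y.1)))
      (pt_ends2 (pt_norm (pt_clE PT.snd) (hM.comp PT.fst)))
  · exact PT.map (pt_plE hx hC) (g := fun y : ι × Ed => ends2 (bif hasE (M y.1) y.2 then [y.2] else []))
      (pt_ends2 (PT.cond (pt_hasE (hM.comp PT.fst) PT.snd) (PT.cons PT.snd (PT.const [])) (PT.const [])))
  · exact PT.map (pt_slJ hn hg) (g := fun y : ι × (ℕ × ℕ) =>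
      bif decide (y.2.2 < 2 - degL (M y.1) y.2.1) then [y.2.1, (x y.1).1] else [])
      (PT.cond (PT.nlt PT.snd.p2 (PT.nsub (PT.const 2) (pt_degL (hM.comp PT.fst) PT.snd.p1)))
        (PT.cons PT.snd.p1 (PT.cons (hn.comp PT.fst) (PT.const []))) (PT.const []))
  · exact PT.map (PT.range hn) (g := fun y : ι × ℕ =>
      bif decide (hsl (x y.1) (g y.1) (M y.1) + 2 * y.2 + 2 + ρ y.1 ≤ 2 * (x y.1).1) then
        [(x y.1).1, (x y.1).1] else [])
      (PT.cond (PT.nle (PT.nadd (PT.nadd (PT.nadd (hh.comp PT.fst) (PT.nmul (PT.const 2) PT.snd)) (PT.const 2))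
        (hρ.comp PT.fst)) (PT.nmul (PT.const 2) (hn.comp PT.fst)))
        (PT.cons (hn.comp PT.fst) (PT.cons (hn.comp PT.fst) (PT.const []))) (PT.const []))

theorem pt_rlz {p : ι → Pc} {k : ι → List ℕ} (hp : PT p) (hk : PT k) : PT (fun i => rlz (p i) (k i)) :=
  pt_findD (p := fun y : ι × List Ed => okS y.2 && eqK (k y.1) (ends2 y.2))
    (PT.band (pt_okS PT.snd) (pt_eqK (hk.comp PT.fst) (pt_ends2 PT.snd))) (pt_subs (PT.p1 (PT.p2 hp)) 4) (PT.const [])

theorem pt_eps {x : ι → Ins} {C : ι → List Cl} (hx : PT x) (hC : PT C) :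
    PT (fun i => (C i).map exP ++ (plE (x i) (C i)).map edP) :=
  PT.append (PT.map hC (g := fun y : ι × Cl => exP y.2) (pt_exP PT.snd))
    (PT.map (pt_plE hx hC) (g := fun y : ι × Ed => edP y.2) (pt_edP PT.snd))

theorem pt_decM {x : ι → Ins} {C : ι → List Cl} {ks : ι → List (List ℕ)} (hx : PT x) (hC : PT C) (hk : PT ks) :
    PT (fun i => decM (x i) (C i) (ks i)) := by
  have he := pt_eps hx hC
  exact PT.flatMap (PT.range (PT.length he))
    (g := fun y : ι × ℕ => rlz (((C y.1).map exP ++ (plE (x y.1) (C y.1)).map edP).getD y.2 (false, [], []))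
      ((ks y.1).getD y.2 []))
    (pt_rlz (PT.getD (he.comp PT.fst) PT.snd (PT.const (false, [], [])))
      (PT.getD (hk.comp PT.fst) PT.snd (PT.const [])))

theorem pt_nx {C : ι → List Cl} {ks : ι → List (List ℕ)} {j : ι → ℕ} (hC : PT C) (hk : PT ks) (hj : PT j) :
    PT (fun i => nx (C i) (ks i) (j i)) :=
  PT.bnot (pt_pmem (pt_exP (PT.getD hC hj (PT.const (false, 0, 0, [])))) (PT.getD hk hj (PT.const [])))

theorem pt_muS {C : ι → List Cl} {ks : ι → List (List ℕ)} (hC : PT C) (hk : PT ks) :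
    PT (fun i => muS (C i) (ks i)) :=
  PT.length (PT.filter (PT.range (PT.length hC)) (p := fun y : ι × ℕ => nx (C y.1) (ks y.1) y.2)
    (pt_nx (hC.comp PT.fst) (hk.comp PT.fst) PT.snd))

theorem pt_initS : PT initS :=
  PT.map (l := fun y : SI => y.2.2.1) PT.snd.p2.p1
    (g := fun z : SI × (ℕ × List Ed) => (z.2.1, cfgM z.1.1 z.1.2.1 z.1.2.2.2 z.2.2 1))
    (PT.pair PT.snd.p1 (pt_cfgM PT.fst.p1 PT.fst.p2.p1 PT.fst.p2.p2.p2 PT.snd.p2 (PT.const 1)))

theorem pt_finS : PT finS :=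
  PT.pair (PT.neq PT.snd.p2.p1 (PT.nadd (PT.nmul (PT.const 2) PT.fst.p1.p1) (PT.const 1)))
    (PT.pair PT.snd.p2.p1 PT.snd.p2.p2)

theorem pt_npc : PT npc :=
  PT.length (pt_pcs (φ := fun z : SI × Cl => exP z.2) (x := fun y : SI => y.1) (g := fun y : SI => y.2.1)
    (C := fun y : SI => y.2.2.2) (pt_exP PT.snd) PT.fst PT.snd.p1 PT.snd.p2.p2)

theorem pt_BS : PT BS :=
  PT.nadd (PT.nadd (PT.nmul pt_npc (PT.nadd (PT.nmul (PT.const 16) (PT.nadd PT.fst.p1 (PT.const 1))) (PT.const 18)))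
    (PT.const 1)) (PT.nadd (PT.nmul (PT.const 4) PT.fst.p1) (PT.const 10))

end pt

end Pool.Agent.PF4.SV
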