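import Pool.Agent.PF4.SolZ

/-!
# The relaxation of the solver for conflict-free families
-/

set_option autoImplicit false

namespace Pool.Agent.PF4.SV

open Finset Pool.Agent.TFC Pool.Agent.Lib.helper60
open scoped Pointwise

/-! ### vertices of clusters -/

theorem clB_of {x : Ins} (hx : InsWF x) {C : List Cl} (hC : ClsOK x C) {c : Cl} (hc : c ∈ C) :
    (∀ v ∈ c.2.2.2, v < x.1) ∧ (c.1 = true → c.2.1 < x.1 ∧ c.2.2.1 < x.1) := by
  have ho := hC.ok c hc
  have hs := hC.sub c hc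
  obtain ⟨b, p, q, L⟩ := c
  cases b with
  | true =>
    obtain ⟨_, _, _, h4⟩ := ho.k2 rfl
    simp only at h4
    have h : ∀ w l, (w = p ∨ w = q) → l ∈ L → w < x.1 ∧ l < x.1 := by
      intro w l hw hl
      have h1 := hs (k2_edge hw hl)
      exact ⟨hx.vlt h1 (Sym2.mem_mk_left _ _), hx.vlt h1 (Sym2.mem_mk_right _ _)⟩
    refine ⟨fun v hv => (h p v (Or.inl rfl) hv).2, fun _ => ?_⟩
    have hne : L ≠ [] := by rintro rfl; simp at h4
    obtain ⟨l, hl⟩ := List.exists_mem_of_ne_nil L hne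
    exact ⟨(h p l (Or.inl rfl) hl).1, (h q l (Or.inr rfl) hl).1⟩
  | false =>
    have h4 := ho.k4 rfl
    have hn := ho.nd
    simp only at h4 hn
    refine ⟨fun v hv => ?_, fun h => by cases h⟩
    obtain ⟨w, hw, h1, _⟩ := exists_third hn h4 v v
    have h2 := hs (k4_edge (x := p) (y := q) hv hw (Ne.symm h1))
    exact hx.vlt h2 (Sym2.mem_mk_left _ _)

/-! ### pieces and units -/

/-- the vectors of the units are the vectors of the piece -/
def Br (n : ℕ) (u : List (List ℕ × List ℕ)) (p : Pc) : Prop := ∀ k, Gd.PV n u k ↔ pmem p k = true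

theorem br_rx {n : ℕ} {c : Cl} (ho : ClOK c) (hb : (∀ v ∈ c.2.2.2, v < n) ∧ (c.1 = true → c.2.1 < n ∧ c.2.2.1 < n))
    {ch : ℕ × ℕ} (hc : ChOK c ch) : Br n (rxU c ch) (rxP c ch) := by
  intro k
  rw [pmem_iff (card4_rxP ho ch), Gd.rx_pv ho hb hc]

theorem UB_one {n u v : ℕ} (hu : u < n) (hv : v < n) : Gd.UB n [([u], [v])] := by
  intro w hw
  rw [List.mem_singleton] at hw
  subst hw
  refine ⟨fun s hs => ?_, fun s hs => ?_⟩
  · rw [List.mem_singleton.1 hs]; exact hu
  · rw [List.mem_singleton.1 hs]; exact hv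

theorem sumU_one (u v : ℕ) (x : ℕ → ℤ) :
    x ∈ sumU (([([u], [v])] : List (List ℕ × List ℕ)).map Gd.tf) ↔ x = 0 ∨ x = ev u + ev v := by
  have e : sumU (([([u], [v])] : List (List ℕ × List ℕ)).map Gd.tf) = Un ({u} : Finset ℕ) {v} := by
    rw [Gd.sumU_list]
    simp only [Gd.tf, List.map_cons, List.map_nil, List.sum_cons, List.sum_nil, add_zero, List.toFinset_cons,
      List.toFinset_nil, insert_empty_eq]
  rw [e]
  constructor
  · rintro (h | ⟨s, hs, t, ht, h⟩)
    · exact Or.inl h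
    · rw [Finset.mem_singleton] at hs ht
      subst hs ht
      exact Or.inr h
  · rintro (h | h)
    · exact Or.inl h
    · exact Or.inr ⟨u, by simp, v, by simp, h⟩

theorem kvec_two_le (u v : ℕ) {k : List ℕ} (h : kvec k = 0 ∨ kvec k = ev u + ev v) (w : ℕ) : kvec k w ≤ 2 := by
  rcases h with h | h <;> rw [h]
  · simp
  · rw [Pi.add_apply, TFC.ev_apply, TFC.ev_apply]
    split_ifs <;> norm_num

theorem br_un {n u v : ℕ} (hu : u < n) (hv : v < n) : Br n [([u], [v])] (unP u v) := by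
  intro k
  rw [Gd.pv_sumU (UB_one hu hv), sumU_one]
  have e : pmem (unP u v) k = true ↔ kvec k = 0 ∨ kvec k = ev u + ev v := by
    show pmem (true, [], [[u, v]]) k = true ↔ _
    rw [pmem_iff (card4_nil [[u, v]])]
    rw [Gd.pcS_two]
    constructor
    · rintro (h | ⟨s, hs, t, ht, h⟩)
      · exact Or.inl h
      · rw [Finset.mem_singleton] at hs ht
        subst hs ht
        exact Or.inr h
    · rintro (h | h)
      · exact Or.inl h
      · exact Or.inr ⟨u, by simp, v, by simp, h⟩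
  rw [e]
  exact ⟨fun h => h.1, fun h => ⟨h, kvec_two_le u v h⟩⟩

theorem JS_one {e : Ed} (he : e.1 ≠ e.2) (x : ℕ → ℤ) :
    x ∈ JS (fs [e]) none4 ↔ x = 0 ∨ x = ev e.1 + ev e.2 := by
  have e1 : dv ({fe e} : Finset (Sym2 ℕ)) = ev e.1 + ev e.2 := Unit_dv1 he
  have hnl : ∀ f ∈ ({fe e} : Finset (Sym2 ℕ)), ¬ f.IsDiag := by
    intro f hf
    rw [Finset.mem_singleton] at hf
    subst hf
    simpa [fe] using he
  constructor
  · rintro ⟨z, hz, _, _, rfl⟩
    rw [fs_cons, fs_nil] at hz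
    have hz' : z ⊆ {fe e} := by simpa using hz
    rcases Finset.subset_singleton_iff.1 hz' with h | h
    · left
      rw [h, Plain_dv_empty]
    · right
      rw [h, e1]
  · rintro (rfl | rfl)
    · refine ⟨∅, Finset.empty_subset _, ⟨fun f hf => by simp at hf, fun v => by simp [dg]⟩,
        fun a b c d h => by simpa using h.ab, Plain_dv_empty.symm⟩
    · refine ⟨{fe e}, by rw [fs_cons]; simp, M2.of_dv hnl ?_, R4_good hnl (by rw [card_singleton]; norm_num), e1.symm⟩
      intro v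
      rw [e1, Pi.add_apply, TFC.ev_apply, TFC.ev_apply]
      split_ifs <;> norm_num

theorem br_ed {n : ℕ} {e : Ed} (he : e.1 ≠ e.2) (hu : e.1 < n) (hv : e.2 < n) : Br n [([e.1], [e.2])] (edP e) := by
  intro k
  rw [Gd.pv_sumU (UB_one hu hv), sumU_one]
  have h1 : pmem (edP e) k = true ↔ kvec k = 0 ∨ kvec k = ev e.1 + ev e.2 := by
    show pmem (true, [e], []) k = true ↔ _
    rw [pmem_iff (card4_edge e []), pcS_plain, JS_one he]
  rw [h1]
  exact ⟨fun h => h.1, fun h => ⟨h, kvec_two_le e.1 e.2 h⟩⟩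

theorem plE_mem {x : Ins} (hx : InsWF x) {C : List Cl} {e : Ed} (he : e ∈ plE x C) :
    e.1 ≠ e.2 ∧ e.1 < x.1 ∧ e.2 < x.1 := by
  have h1 : fe e ∈ fs (plE x C) := fe_mem_fs he
  rw [plE, fs_rest, Finset.mem_sdiff] at h1
  refine ⟨?_, hx.vlt h1.1 (Sym2.mem_mk_left _ _), hx.vlt h1.1 (Sym2.mem_mk_right _ _)⟩
  intro h
  refine hx.nl _ h1.1 ?_
  rw [fe, h]
  exact Sym2.mk_isDiag_iff.2 rfl

/-- the units of the relaxed pieces give the relaxed pieces -/
theorem br_all {y : SI} (hy : WfS y) (F : Fct (List (List ℕ))) :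
    List.Forall₂ (Br (y.1.1 + 1)) (rlU y F) (rlP y F) := by
  refine forall2_append (forall2_append ?_ ?_) (forall2_append ?_ ?_)
  · refine forall2_map y.2.2.2 fun c hc => ?_
    obtain ⟨h1, h2⟩ := clB_of hy.x hy.c hc
    refine br_rx (hy.c.ok c hc) ⟨fun v hv => (h1 v hv).trans (Nat.lt_succ_self _), fun h => ?_⟩
      (psi_ok _ (hy.c.ok c hc))
    exact ⟨(h2 h).1.trans (Nat.lt_succ_self _), (h2 h).2.trans (Nat.lt_succ_self _)⟩
  · refine forall2_map (plE y.1 y.2.2.2) fun e he => ?_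
    obtain ⟨h1, h2, h3⟩ := plE_mem hy.x he
    exact br_ed h1 (h2.trans (Nat.lt_succ_self _)) (h3.trans (Nat.lt_succ_self _))
  · refine forall2_map (slJ y.1.1 y.2.1) fun p hp => ?_
    exact br_un ((mem_slJ.1 hp).1.trans (Nat.lt_succ_self _)) (Nat.lt_succ_self _)
  · refine forall2_map (List.range y.1.1) fun j _ => ?_
    exact br_un (Nat.lt_succ_self _) (Nat.lt_succ_self _)

theorem forall2_br {n : ℕ} {us : List (List (List ℕ × List ℕ))} {ps : List Pc} (h : List.Forall₂ (Br n) us ps)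
    (ks : List (List ℕ)) : List.Forall₂ (Gd.PV n) us ks ↔ List.Forall₂ (fun p k => pmem p k = true) ps ks := by
  induction h generalizing ks with
  | nil => simp
  | cons h1 _ ih =>
    cases ks with
    | nil => simp
    | cons k ks => rw [List.forall₂_cons, List.forall₂_cons, ih, h1 k]

/-- relaxed configurations, in terms of units -/
theorem pv_rl {y : SI} (hy : WfS y) (F : Fct (List (List ℕ))) (ks : List (List ℕ)) :
    List.Forall₂ (Gd.PV (y.1.1 + 1)) (rlU y F) ks ↔
      List.Forall₂ (fun p k => pmem p k = true) (rlP y F) ks := forall2_br (br_all hy F) ks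

/-- exact configurations are relaxed configurations -/
theorem xc_rl {y : SI} (hy : WfS y) (F : Fct (List (List ℕ))) {ks : List (List ℕ)}
    (h : List.Forall₂ (fun p k => pmem p k = true) (xcP y) ks) :
    List.Forall₂ (fun p k => pmem p k = true) (rlP y F) ks := by
  obtain ⟨k1, k2, rfl, h1, h2⟩ := forall2_split h
  obtain ⟨k3, k4, rfl, h3, h4⟩ := forall2_split h1
  refine forall2_append (forall2_append ?_ h4) h2
  clear h h1 h2 h4
  have hok : ∀ c ∈ y.2.2.2, ClOK c := hy.c.ok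
  revert h3 hok
  generalize y.2.2.2 = C
  intro h3 hok
  rw [List.forall₂_map_left_iff] at h3 ⊢
  induction h3 with
  | nil => exact List.Forall₂.nil
  | @cons c k C ks h5 _ ih =>
    refine List.Forall₂.cons ?_ (ih fun c hc => hok c (List.mem_cons_of_mem _ hc))
    exact pmem_complete (card4_rxP (hok c List.mem_cons_self) _) (exP_sub_rxP _ _ (pmem_sound h5))

/-! ### coordinates above the slack vertex -/

theorem use_high {n : ℕ} {us : List (List ℕ × List ℕ)} {C : List (List (ℕ × ℕ))}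
    (h : List.Forall₂ (Gd.ChU n) us C) {v : ℕ} (hv : n ≤ v) : Gd.use C v = 0 := by
  induction h with
  | nil => rfl
  | @cons u c us C h1 _ ih =>
    have e : Gd.use (c :: C) v = Gd.useU c v + Gd.use C v := by
      simp [Gd.use]
    rw [e, ih, add_zero]
    rcases h1 with rfl | ⟨s, _, t, _, hs, ht, rfl⟩
    · rfl
    · have h2 : s ≠ v := by omega
      have h3 : t ≠ v := by omega
      simp [Gd.useU, h2, h3]

theorem pv_high {n : ℕ} {us : List (List (List ℕ × List ℕ))} {ks : List (List ℕ)}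
    (h : List.Forall₂ (Gd.PV n) us ks) {v : ℕ} (hv : n ≤ v) : ttl ks v = 0 := by
  induction h with
  | nil => rfl
  | cons h1 _ ih =>
    obtain ⟨C, hC, hk⟩ := h1
    rw [ttl_cons, ih, (hk v).1, use_high hC hv]

/-- coordinates above `n` are zero (relaxed pieces) -/
theorem ttl_rl_high {y : SI} (hy : WfS y) {F : Fct (List (List ℕ))} {ks : List (List ℕ)}
    (h : List.Forall₂ (fun p k => pmem p k = true) (rlP y F) ks) {v : ℕ} (hv : y.1.1 < v) : ttl ks v = 0 :=
  pv_high ((pv_rl hy F ks).2 h) hv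

/-- coordinates above `n` are zero (exact pieces) -/
theorem ttl_xc_high {y : SI} (hy : WfS y) {ks : List (List ℕ)}
    (h : List.Forall₂ (fun p k => pmem p k = true) (xcP y) ks) {v : ℕ} (hv : y.1.1 < v) : ttl ks v = 0 :=
  ttl_rl_high hy (xc_rl hy [] h) hv

/-! ### ports -/

theorem mem_uMi {n : ℕ} {F : Fct (List (List ℕ))} {v : ℕ} : v ∈ uMi n F ↔ v < n + 1 ∧ kno F v = false := by
  rw [uMi, List.mem_filter, List.mem_range, Bool.not_eq_true']

theorem mem_uPl {n : ℕ} {F : Fct (List (List ℕ))} {v : ℕ} :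
    v ∈ uPl n F ↔ v < n + 1 ∧ kno F (n + 1 + v) = false := by
  rw [uPl, List.mem_filter, List.mem_range, Bool.not_eq_true']

theorem tgL_getD {n v : ℕ} (hv : v < n + 1) : (tgL n).getD v 0 = tgt n 1 v := by
  have h : (tgL n).getD v 0 = if v < n then 2 else 2 * n - 1 := by
    rw [tgL, List.getD_eq_getElem?_getD, List.getElem?_map, List.getElem?_range hv]
    rfl
  rw [h, tgt]
  by_cases h1 : v < n
  · rw [if_pos h1, if_pos h1]
  · have h2 : v = n := by omega
    rw [if_neg h1, if_neg h1, if_pos h2]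

/-- the configurations of the round gadget are the relaxed configurations at an unknown port -/
theorem cfg_iff {y : SI} (hy : WfS y) (F : Fct (List (List ℕ))) (ks : List (List ℕ)) (s : ℕ) :
    Gd.Cfg (y.1.1 + 1) (tgL y.1.1) (rlU y F) (uMi y.1.1 F) (uPl y.1.1 F) ks s ↔ GoodS y F (s, ks) := by
  have hs : ∀ v, (ks.map fun k => k.count v).sum = ttl ks v := fun _ => rfl
  constructor
  · rintro ⟨h1, h2⟩
    have h3 := (pv_rl hy F ks).1 h1
    rcases h2 with ⟨m1, m2, m3⟩ | ⟨v₀, m1, m2, m4, m3⟩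
    · refine ⟨?_, (mem_uMi.1 m1).2, h3, ?_⟩
      · show s < 2 * (y.1.1 + 1)
        omega
      · intro v hv
        have h4 := m3 v hv
        rw [hs, tgL_getD hv] at h4
        show ttl ks v + (if s = v then 1 else 0) = tgt y.1.1 1 v + (if s = y.1.1 + 1 + v then 1 else 0)
        rw [h4, if_neg (by omega : ¬ s = y.1.1 + 1 + v), add_zero]
    · refine ⟨?_, ?_, h3, ?_⟩
      · show s < 2 * (y.1.1 + 1)
        omega
      · show kno F s = false
        rw [m4]
        exact (mem_uPl.1 m1).2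
      · intro v hv
        have h4 := m3 v hv
        rw [hs, tgL_getD hv] at h4
        show ttl ks v + (if s = v then 1 else 0) = tgt y.1.1 1 v + (if s = y.1.1 + 1 + v then 1 else 0)
        rw [h4, if_neg (by omega : ¬ s = v), m4]
        have h5 : (y.1.1 + 1 + v₀ = y.1.1 + 1 + v) ↔ v₀ = v := by omega
        simp only [h5, add_zero]
  · rintro ⟨h1, h2, h3, h4⟩
    change s < 2 * (y.1.1 + 1) at h1
    change kno F s = false at h2
    refine ⟨(pv_rl hy F ks).2 h3, ?_⟩
    by_cases hlt : s < y.1.1 + 1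
    · left
      refine ⟨mem_uMi.2 ⟨hlt, h2⟩, hlt, fun v hv => ?_⟩
      have h5 := h4 v hv
      change ttl ks v + (if s = v then 1 else 0) = tgt y.1.1 1 v + (if s = y.1.1 + 1 + v then 1 else 0) at h5
      rw [hs, tgL_getD hv, h5, if_neg (by omega : ¬ s = y.1.1 + 1 + v), add_zero]
    · right
      refine ⟨s - (y.1.1 + 1), mem_uPl.2 ⟨by omega, ?_⟩, by omega, by omega, fun v hv => ?_⟩
      · rw [show y.1.1 + 1 + (s - (y.1.1 + 1)) = s by omega]
        exact h2
      · have h5 := h4 v hv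
        change ttl ks v + (if s = v then 1 else 0) = tgt y.1.1 1 v + (if s = y.1.1 + 1 + v then 1 else 0) at h5
        rw [if_neg (by omega : ¬ s = v)] at h5
        have h6 : (s - (y.1.1 + 1) = v) ↔ s = y.1.1 + 1 + v := by omega
        rw [hs, tgL_getD hv]
        simp only [h6]
        omega

theorem relax_good {y : SI} {F : Fct (List (List ℕ))} (hy : WfS y) (h : (relaxS (y, F)).1 = true) :
    GoodS y F (relaxS (y, F)).2 :=
  (cfg_iff hy F _ _).1 (Gd.cap_ok h)

theorem relax_none' {y : SI} {F : Fct (List (List ℕ))} (hy : WfS y) (h : (relaxS (y, F)).1 = false)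
    (r : ℕ × List (List ℕ)) : ¬ GoodS y F r := by
  intro hr
  have h1 := Gd.cap_of ((cfg_iff hy F r.2 r.1).2 hr)
  have h2 : (relaxS (y, F)).1 = true := h1
  rw [h] at h2
  cases h2

/-- the goal is a relaxed configuration at an unknown port -/
theorem sol_good {y : SI} {F : Fct (List (List ℕ))} (hy : WfS y) (hF : ∀ p ∈ F, FactS y p.1 p.2)
    {ks : List (List ℕ)} (h : SolS y ks) (hn : 0 < y.1.1) : GoodS y F (2 * y.1.1 + 1, ks) := by
  refine ⟨?_, ?_, xc_rl hy F h.mem, ?_⟩
  · show 2 * y.1.1 + 1 < 2 * (y.1.1 + 1)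
    omega
  · show kno F (2 * y.1.1 + 1) = false
    rw [← Bool.not_eq_true, kno_iff]
    intro h1
    obtain ⟨p, hp, e⟩ := List.mem_map.1 h1
    have := (hF p hp).lt
    omega
  · intro v hv
    show ttl ks v + (if 2 * y.1.1 + 1 = v then 1 else 0) =
      tgt y.1.1 1 v + (if 2 * y.1.1 + 1 = y.1.1 + 1 + v then 1 else 0)
    rw [h.at_ v hv, if_neg (by omega : ¬ 2 * y.1.1 + 1 = v), tgt, tgt]
    by_cases h1 : v < y.1.1
    · rw [if_pos h1, if_pos h1, if_neg (by omega)]
    · have h2 : v = y.1.1 := by omega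
      rw [if_neg h1, if_neg h1, if_pos h2, if_pos h2, if_pos (by omega)]
      omega

theorem wf_pos {y : SI} (hy : WfS y) : 0 < y.1.1 := by
  obtain ⟨p, hp⟩ := List.exists_mem_of_ne_nil _ hy.ne
  have := (hy.w p hp).1
  omega

theorem relax_none {y : SI} {F : Fct (List (List ℕ))} (hy : WfS y) (hF : ∀ p ∈ F, FactS y p.1 p.2)
    (h : (relaxS (y, F)).1 = false) : ¬ ∃ ks, SolS y ks := by
  rintro ⟨ks, hk⟩
  exact relax_none' hy h _ (sol_good hy hF hk (wf_pos hy))

/-! ### polynomial time -/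

section pt

variable {ι : Type} [DEnc ι]

theorem pt_kno {F : ι → Fct (List (List ℕ))} {s : ι → ℕ} (hF : PT F) (hs : PT s) : PT (fun x => kno (F x) (s x)) :=
  PT.any hF (p := fun y : ι × (ℕ × List (List ℕ)) => decide (y.2.1 = s y.1)) (PT.neq PT.snd.p1 (hs.comp PT.fst))

theorem pt_uMi {n : ι → ℕ} {F : ι → Fct (List (List ℕ))} (hn : PT n) (hF : PT F) :
    PT (fun x => uMi (n x) (F x)) :=
  PT.filter (PT.range (PT.nsucc hn)) (p := fun y : ι × ℕ => !kno (F y.1) y.2)
    (PT.bnot (pt_kno (hF.comp PT.fst) PT.snd))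

theorem pt_uPl {n : ι → ℕ} {F : ι → Fct (List (List ℕ))} (hn : PT n) (hF : PT F) :
    PT (fun x => uPl (n x) (F x)) :=
  PT.filter (PT.range (PT.nsucc hn)) (p := fun y : ι × ℕ => !kno (F y.1) (n y.1 + 1 + y.2))
    (PT.bnot (pt_kno (hF.comp PT.fst) (PT.nadd (PT.nsucc (hn.comp PT.fst)) PT.snd)))

theorem pt_plu {n v : ι → ℕ} {F : ι → Fct (List (List ℕ))} (hn : PT n) (hF : PT F) (hv : PT v) :
    PT (fun x => plu (n x) (F x) (v x)) :=
  PT.band (pt_kno hF hv) (PT.bnot (pt_kno hF (PT.nadd (PT.nsucc hn) hv)))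

theorem pt_tgL {n : ι → ℕ} (hn : PT n) : PT (fun x => tgL (n x)) := by
  have h : ∀ x : ι, tgL (n x) =
      (List.range (n x + 1)).map fun v => bif decide (v < n x) then 2 else 2 * n x - 1 := by
    intro x
    unfold tgL
    refine List.map_congr_left fun v _ => ?_
    by_cases h1 : v < n x
    · simp [h1]
    · simp [h1]
  refine PT.congr (PT.map (PT.range (PT.nsucc hn))
    (g := fun y : ι × ℕ => bif decide (y.2 < n y.1) then 2 else 2 * n y.1 - 1)
    (PT.cond (PT.nlt PT.snd (hn.comp PT.fst)) (PT.const 2)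
      (PT.nsub (PT.nmul (PT.const 2) (hn.comp PT.fst)) (PT.const 1)))) fun x => (h x).symm

theorem pt_psiF {c : ι → Cl} {n : ι → ℕ} {F : ι → Fct (List (List ℕ))} (hc : PT c) (hn : PT n) (hF : PT F) :
    PT (fun x => psi (plu (n x) (F x)) (c x)) :=
  pt_psi (P := fun z : ι × ℕ => plu (n z.1) (F z.1) z.2)
    (pt_plu (hn.comp PT.fst) (hF.comp PT.fst) PT.snd) hc

theorem pt_rlU : PT (fun w : SI × Fct (List (List ℕ)) => rlU w.1 w.2) := by
  have h1 : PT (fun w : SI × Fct (List (List ℕ)) => w.1.1) := PT.p1 PT.fst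
  have hn : PT (fun w : SI × Fct (List (List ℕ)) => w.1.1.1) := PT.p1 h1
  have hg : PT (fun w : SI × Fct (List (List ℕ)) => w.1.2.1) := PT.p1 (PT.p2 PT.fst)
  have hC : PT (fun w : SI × Fct (List (List ℕ)) => w.1.2.2.2) := PT.p2 (PT.p2 (PT.p2 PT.fst))
  have hF : PT (fun w : SI × Fct (List (List ℕ)) => w.2) := PT.snd
  refine PT.append (PT.append ?_ ?_) (PT.append ?_ ?_)
  · exact PT.map hC (g := fun z : (SI × Fct (List (List ℕ))) × Cl => rxU z.2 (psi (plu z.1.1.1.1 z.1.2) z.2))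
      (pt_rxU PT.snd (pt_psiF PT.snd (hn.comp PT.fst) (hF.comp PT.fst)))
  · exact PT.map (pt_plE h1 hC) (g := fun z : (SI × Fct (List (List ℕ))) × Ed => [([z.2.1], [z.2.2])])
      (PT.cons (PT.pair (PT.cons PT.snd.p1 (PT.const [])) (PT.cons PT.snd.p2 (PT.const []))) (PT.const []))
  · exact PT.map (pt_slJ hn hg) (g := fun z : (SI × Fct (List (List ℕ))) × (ℕ × ℕ) => [([z.2.1], [z.1.1.1.1])])
      (PT.cons (PT.pair (PT.cons PT.snd.p1 (PT.const [])) (PT.cons (hn.comp PT.fst) (PT.const []))) (PT.const []))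
  · exact PT.map (PT.range hn) (g := fun z : (SI × Fct (List (List ℕ))) × ℕ => [([z.1.1.1.1], [z.1.1.1.1])])
      (PT.cons (PT.pair (PT.cons (hn.comp PT.fst) (PT.const [])) (PT.cons (hn.comp PT.fst) (PT.const [])))
        (PT.const []))

theorem pt_relaxS : PT relaxS := by
  have h1 : PT (fun w : SI × Fct (List (List ℕ)) => w.1.1) := PT.p1 PT.fst
  have hn : PT (fun w : SI × Fct (List (List ℕ)) => w.1.1.1) := PT.p1 h1
  have hF : PT (fun w : SI × Fct (List (List ℕ)) => w.2) := PT.snd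
  have ht := pt_tgL hn
  have hm := pt_uMi hn hF
  have hp := pt_uPl hn hF
  exact PT.pair (Gd.pt_capF (PT.nsucc hn) ht pt_rlU hm hp)
    (PT.pair (Gd.pt_capP (PT.nsucc hn) ht pt_rlU hm hp) (Gd.pt_capS (PT.nsucc hn) ht pt_rlU hm hp))

end pt

/-- the relaxation part of the solver -/
theorem rows_of (h1 : ∀ (y : SI) (F : Fct (List (List ℕ))) (r : ℕ × List (List ℕ)), WfS y →
      (∀ p ∈ F, FactS y p.1 p.2) → (F.map Prod.fst).Nodup → F ≠ [] → GoodS y F r → 0 < muS y.2.2.2 r.2 →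
      GoodS y F (redS (y, F, r)) ∧ muS y.2.2.2 (redS (y, F, r)).2 < muS y.2.2.2 r.2)
    (h2 : PT redS) : Rows where
  relax_good := fun _ _ hy _ _ h => relax_good hy h
  relax_none := fun _ _ hy hF _ h => relax_none hy hF h
  pt_relaxS := pt_relaxS
  red_spec := h1
  pt_redS := h2

end Pool.Agent.PF4.SV
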