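import Pool.Agent.PF4.Red
import Pool.Agent.PF4.SolI

/-!
# The reduction step of the solver for conflict-free families: specification and polynomial time of `redS`
-/

set_option autoImplicit false

namespace Pool.Agent.PF4.SVR

open Finset Pool.Agent.TFC Pool.Agent.Lib.helper60 Pool.Agent.PF4.LD Pool.Agent.PF4.SV

/-- state -/
abbrev St : Type := List (List ℕ)

/-- default piece -/
abbrev dP : Pc := (false, [], [])

/-- default cluster -/
abbrev dC : Cl := (false, 0, 0, [])

/-! ### generalities -/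

theorem fa_iff {P : List Pc} {ks : St} : List.Forall₂ (fun p k => pmem p k = true) P ks ↔ Leg pmem dP P ks := by
  constructor
  · exact leg_of
  · intro h
    induction P generalizing ks with
    | nil =>
      have : ks = [] := List.length_eq_zero_iff.1 h.len
      subst this
      exact List.Forall₂.nil
    | cons p P ih =>
      obtain ⟨k, s', rfl, h1, h2⟩ := Rd.leg_uncons h
      exact List.Forall₂.cons h1 (ih h2)

theorem leg_iff {g : ℕ → Pc} {N : ℕ} {Ot : List Pc} {s : St} :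
    Leg pmem dP ((List.range N).map g ++ Ot) s ↔ s.length = N + Ot.length ∧
      (∀ i < N, pmem (g i) (s.getD i []) = true) ∧
        ∀ j < Ot.length, pmem (Ot.getD j dP) (s.getD (N + j) []) = true := by
  constructor
  · intro h
    refine ⟨by rw [h.len]; simp, ?_, ?_⟩
    · intro i hi
      have h1 := h.mem i (by simp; omega)
      rwa [List.getD_append _ _ _ _ (by simpa using hi), List.getD_eq_getElem _ _ (by simpa using hi),
        List.getElem_map, List.getElem_range] at h1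
    · intro j hj
      have h1 := h.mem (N + j) (by simp; omega)
      rwa [List.getD_append_right _ _ _ _ (by simp), List.length_map, List.length_range,
        Nat.add_sub_cancel_left] at h1
  · rintro ⟨h1, h2, h3⟩
    refine ⟨by rw [h1]; simp, ?_⟩
    intro q hq
    rw [List.length_append, List.length_map, List.length_range] at hq
    by_cases hN : q < N
    · rw [List.getD_append _ _ _ _ (by simpa using hN), List.getD_eq_getElem _ _ (by simpa using hN),
        List.getElem_map, List.getElem_range]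
      exact h2 q hN
    · rw [List.getD_append_right _ _ _ _ (by simpa using hN), List.length_map, List.length_range]
      have h4 := h3 (q - N) (by omega)
      rwa [show N + (q - N) = q by omega] at h4

theorem ttl_cT (ks : St) (v : ℕ) : cT ks v = ttl ks v := by
  induction ks with
  | nil => rfl
  | cons k ks ih =>
    rw [ttl_cons, ← ih]
    unfold cT
    rw [List.flatten_cons, cnt_append, cnt_eq]

/-! ### the world -/

/-- the pieces that are not clusters -/
def Ot (y : SV.SI) : List Pc :=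
  (plE y.1 y.2.2.2).map edP ++
    ((slJ y.1.1 y.2.1).map (fun p => unP p.1 y.1.1) ++ (List.range y.1.1).map fun _ => unP y.1.1 y.1.1)

/-- relaxed cluster -/
def gr (y : SV.SI) (F : Fct St) (j : ℕ) : Pc := rxP (y.2.2.2.getD j dC) (psi (plu y.1.1 F) (y.2.2.2.getD j dC))

/-- exact cluster -/
def gx (y : SV.SI) (j : ℕ) : Pc := exP (y.2.2.2.getD j dC)

/-- cluster in the world -/
def gw (y : SV.SI) (F : Fct St) (ks : St) (q j : ℕ) : Pc :=
  bif !decide (j = q) && nx y.2.2.2 ks j then gr y F j else gx y j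

theorem rlP_eq (y : SV.SI) (F : Fct St) : rlP y F = (List.range y.2.2.2.length).map (gr y F) ++ Ot y := by
  unfold rlP pcs Ot
  rw [List.append_assoc, Rd.map_getD]
  rfl

theorem xcP_eq (y : SV.SI) : xcP y = (List.range y.2.2.2.length).map (gx y) ++ Ot y := by
  unfold xcP pcs Ot
  rw [List.append_assoc, Rd.map_getD]
  rfl

theorem wPc_eq (y : SV.SI) (F : Fct St) (ks : St) :
    wPc y F ks = ((List.range y.2.2.2.length).map (gw y F ks (fstV y.2.2.2 ks)) ++ Ot y) ++ tkP y.1.1 F := by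
  unfold wPc Ot
  rw [List.append_assoc ((List.range y.2.2.2.length).map (gw y F ks (fstV y.2.2.2 ks)))]
  rw [← List.append_assoc ((List.range y.2.2.2.length).map (gw y F ks (fstV y.2.2.2 ks))),
    ← List.append_assoc ((List.range y.2.2.2.length).map (gw y F ks (fstV y.2.2.2 ks)))]
  rfl

/-- unknown ports -/
def unk (n : ℕ) (F : Fct St) : List (ℕ × Bool) := (uMi n F).map (fun v => (v, false)) ++ (uPl n F).map fun v => (v, true)

/-- code of a port -/
def cd (n : ℕ) (u : ℕ × Bool) : ℕ := bif u.2 then n + 1 + u.1 else u.1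

theorem cd_inj {n : ℕ} {u w : ℕ × Bool} (hu : u.1 ≤ n) (hw : w.1 ≤ n) (h : cd n u = cd n w) : u = w := by
  obtain ⟨u, a⟩ := u
  obtain ⟨w, b⟩ := w
  simp only at hu hw
  unfold cd at h
  cases a <;> cases b <;> simp only [cond_true, cond_false] at h
  · rw [h]
  · omega
  · omega
  · have : u = w := by omega
    rw [this]

theorem mem_unk {n : ℕ} {F : Fct St} {u : ℕ × Bool} : u ∈ unk n F ↔ u.1 ≤ n ∧ kno F (cd n u) = false := by
  obtain ⟨u, b⟩ := u
  simp only [unk, List.mem_append, List.mem_map, Prod.mk.injEq]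
  cases b with
  | true =>
    simp only [cd, cond_true, and_false, Bool.false_eq_true, exists_false, and_true, exists_eq_right, false_or,
      uPl, List.mem_filter, List.mem_range, Bool.not_eq_true']
    rw [Nat.lt_succ_iff]
  | false =>
    simp only [cd, cond_false, and_true, exists_eq_right, Bool.true_eq_false, and_false, exists_false, or_false,
      uMi, List.mem_filter, List.mem_range, Bool.not_eq_true']
    rw [Nat.lt_succ_iff]

theorem nodup_unk (n : ℕ) (F : Fct St) : (unk n F).Nodup := by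
  unfold unk
  rw [List.nodup_append']
  refine ⟨?_, ?_, ?_⟩
  · refine List.Nodup.map ?_ (List.nodup_range.filter _)
    intro a b h
    simpa using h
  · refine List.Nodup.map ?_ (List.nodup_range.filter _)
    intro a b h
    simpa using h
  · rw [List.disjoint_left]
    intro u h h'
    obtain ⟨a, _, rfl⟩ := List.mem_map.1 h
    obtain ⟨b, _, h⟩ := List.mem_map.1 h'
    simp at h

theorem tkP_eq (n : ℕ) (F : Fct St) : tkP n F = (unk n F).map (Rd.tkP (n + 1)) := by
  unfold tkP unk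
  rw [List.map_append, List.map_map, List.map_map]
  rfl

theorem tkS_eq (n : ℕ) (F : Fct St) (s : ℕ) :
    tkS n F s = (unk n F).map fun u => bif decide (cd n u = s) then Rd.us (n + 1) u else Rd.un u := by
  unfold tkS unk
  rw [List.map_append, List.map_map, List.map_map]
  rfl

theorem cd_lt {n : ℕ} {u : ℕ × Bool} (h : u.1 ≤ n) : cd n u < 2 * (n + 1) := by
  obtain ⟨u, b⟩ := u
  simp only at h
  unfold cd
  cases b <;> simp <;> omega

/-- every port has a code -/
theorem cd_surj {n s : ℕ} (h : s < 2 * (n + 1)) : ∃ u : ℕ × Bool, u.1 ≤ n ∧ cd n u = s := by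
  by_cases hs : s ≤ n
  · exact ⟨(s, false), hs, rfl⟩
  · refine ⟨(s - (n + 1), true), by simp only; omega, ?_⟩
    unfold cd
    simp only [cond_true]
    omega

theorem tkS_none (n : ℕ) (F : Fct St) : tkS n F (2 * (n + 1)) = (unk n F).map Rd.un := by
  rw [tkS_eq]
  refine List.map_congr_left ?_
  intro u hu
  have h1 := cd_lt (mem_unk.1 hu).1
  rw [decide_eq_false (by omega), cond_false]

theorem tot_tok {n : ℕ} {F : Fct St} {w : ℕ × Bool} (hw : w ∈ unk n F) :
    totS (tkS n F (cd n w)) = Rd.base (unk n F) + ev (n + 1) - Rd.pv w := by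
  rw [tkS_eq, ← Rd.tot_one (nodup_unk n F) hw]
  congr 1
  refine List.map_congr_left ?_
  intro u hu
  by_cases h : u = w
  · subst h
    rw [decide_eq_true rfl, decide_eq_true rfl]
  · rw [decide_eq_false fun h' => h (cd_inj (mem_unk.1 hu).1 (mem_unk.1 hw).1 h'),
      decide_eq_false fun h' => h (Rd.code_inj h')]

/-- the target as a vector -/
def T (n : ℕ) : ℕ → ℤ := fun v => (tgt n 1 v : ℤ)

theorem T_zero {n v : ℕ} (h : n < v) : T n v = 0 := by
  unfold T tgt
  rw [if_neg (by omega), if_neg (by omega)]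
  rfl

theorem at_iff {n : ℕ} {s : St} {u : ℕ × Bool} (hu : u.1 ≤ n) (hs : ∀ v, n < v → totS s v = 0) :
    AtP n s (cd n u) ↔ totS s = T n + Rd.pv u := by
  have key : ∀ v, v < n + 1 → ((ttl s v + (if cd n u = v then 1 else 0) =
      tgt n 1 v + (if cd n u = n + 1 + v then 1 else 0)) ↔ totS s v = T n v + Rd.pv u v) := by
    intro v hv
    rw [totS_apply, ttl_cT]
    unfold T Rd.pv cd
    obtain ⟨u, b⟩ := u
    simp only at hu
    cases b with
    | true =>
      simp only [cond_true]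
      rw [if_neg (by omega), TFC.ev_apply]
      by_cases h : v = u
      · subst h
        rw [if_pos rfl, if_pos rfl]
        omega
      · rw [if_neg (by omega), if_neg h]
        omega
    | false =>
      simp only [cond_false, Pi.neg_apply]
      rw [if_neg (by omega : ¬ u = n + 1 + v), TFC.ev_apply]
      by_cases h : v = u
      · subst h
        rw [if_pos rfl, if_pos rfl]
        omega
      · rw [if_neg (Ne.symm h), if_neg h]
        omega
  constructor
  · intro h
    funext v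
    by_cases hv : v < n + 1
    · exact (key v hv).1 (h v hv)
    · rw [hs v (by omega), Pi.add_apply, T_zero (by omega), Rd.pv_zero hu (by omega)]
      rfl
  · intro h v hv
    exact (key v hv).2 (congrFun h v)

theorem tgL_at {n v : ℕ} (hv : v < n + 1) : (tgL n).getD v 0 = tgt n 1 v := by
  have h : (tgL n).getD v 0 = if v < n then 2 else 2 * n - 1 := by
    rw [tgL, List.getD_eq_getElem?_getD, List.getElem?_map, List.getElem?_range hv]
    rfl
  rw [h, tgt]
  by_cases h1 : v < n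
  · rw [if_pos h1, if_pos h1]
  · have h2 : v = n := by omega
    rw [if_neg h1, if_neg h1, if_pos h2]

theorem tst_iff {n s : ℕ} {ks : St} : tstS n (s, ks) = true ↔ AtP n ks s := by
  unfold tstS AtP
  rw [List.all_eq_true]
  constructor
  · intro h v hv
    have h1 := h v (List.mem_range.2 hv)
    rw [decide_eq_true_eq, tgL_at hv, ttl_cT] at h1
    exact h1
  · intro h v hv
    rw [List.mem_range] at hv
    rw [decide_eq_true_eq, tgL_at hv, ttl_cT]
    exact h v hv

/-- the choice depends on the vertices of the cluster only -/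
theorem psi_congr {P Q : ℕ → Bool} {c : Cl} (h : ∀ v ∈ clV c, P v = Q v) : psi P c = psi Q c := by
  unfold psi
  unfold clV at h
  cases hc : c.1 with
  | true =>
    rw [hc, cond_true] at h
    have h1 := h c.2.1 (by simp)
    have h2 := h c.2.2.1 (by simp)
    have h3 : c.2.2.2.filter P = c.2.2.2.filter Q :=
      List.filter_congr fun v hv => h v (List.mem_cons_of_mem _ (List.mem_cons_of_mem _ hv))
    rw [cond_true, cond_true, h1, h2, h3]
  | false =>
    rw [hc, cond_false] at h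
    have h3 : c.2.2.2.all P = c.2.2.2.all Q := by
      rw [Bool.eq_iff_iff, List.all_eq_true, List.all_eq_true]
      constructor
      · intro g v hv
        rw [← h v hv]
        exact g v hv
      · intro g v hv
        rw [h v hv]
        exact g v hv
    rw [cond_false, cond_false, h3]

/-! ### legality -/

section
variable {y : SV.SI} {F : Fct St}

theorem clB_n (hy : WfS y) {c : Cl} (hc : c ∈ y.2.2.2) : ClB y.1.1 c := by
  have h := clV_lt hy hc
  exact ⟨fun v hv => (h.1 v hv).le, fun hb => ⟨(h.2 hb).1.le, (h.2 hb).2.le⟩⟩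

theorem ok_Ot (hy : WfS y) : ∀ p ∈ Ot y, PcOK pmem y.1.1 p := by
  intro p hp
  rcases List.mem_append.1 hp with hp | hp
  · obtain ⟨e, he, rfl⟩ := List.mem_map.1 hp
    have h1 : fe e ∈ fs (plE y.1 y.2.2.2) := fe_mem_fs he
    rw [plE, fs_rest, Finset.mem_sdiff] at h1
    have h2 := hy.x.vlt h1.1 (v := e.1) (by rw [fe]; exact Sym2.mem_mk_left _ _)
    have h3 := hy.x.vlt h1.1 (v := e.2) (by rw [fe]; exact Sym2.mem_mk_right _ _)
    exact pcok_edge (by omega) (by omega)
  · rcases List.mem_append.1 hp with hp | hp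
    · obtain ⟨q, hq, rfl⟩ := List.mem_map.1 hp
      have := (mem_slJ.1 hq).1
      exact pcok_pair (by omega) (by omega)
    · obtain ⟨q, hq, rfl⟩ := List.mem_map.1 hp
      exact pcok_pair (by omega) (by omega)

theorem ok_gx (hy : WfS y) {j : ℕ} (hj : j < y.2.2.2.length) : PcOK pmem y.1.1 (gx y j) :=
  pcok_exP (clB_n hy (Rd.getD_memCl hj)) (hy.c.ok _ (Rd.getD_memCl hj))

theorem ok_gr (hy : WfS y) {j : ℕ} (hj : j < y.2.2.2.length) : PcOK pmem y.1.1 (gr y F j) :=
  pcok_rxP (clB_n hy (Rd.getD_memCl hj)) (hy.c.ok _ (Rd.getD_memCl hj))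
    (psi_ok _ (hy.c.ok _ (Rd.getD_memCl hj)))
    (Gd.rx_jump (hy.c.ok _ (Rd.getD_memCl hj)) (psi_ok _ (hy.c.ok _ (Rd.getD_memCl hj))))

theorem ok_real (hy : WfS y) (ks : St) (q : ℕ) :
    ∀ p ∈ (List.range y.2.2.2.length).map (gw y F ks q) ++ Ot y, PcOK pmem y.1.1 p := by
  intro p hp
  rw [List.mem_append, List.mem_map] at hp
  rcases hp with ⟨j, hj, rfl⟩ | hp
  · unfold gw
    cases !decide (j = q) && nx y.2.2.2 ks j with
    | true => exact ok_gr hy (List.mem_range.1 hj)
    | false => exact ok_gx hy (List.mem_range.1 hj)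
  · exact ok_Ot hy p hp

theorem ok_world (hy : WfS y) (ks : St) :
    ∀ i < (wPc y F ks).length, PcOK pmem (y.1.1 + 1) ((wPc y F ks).getD i dP) := by
  intro i hi
  rw [List.getD_eq_getElem _ _ hi]
  have hp := List.getElem_mem hi
  generalize (wPc y F ks)[i] = p at hp
  rw [wPc_eq, tkP_eq] at hp
  rcases List.mem_append.1 hp with hp | hp
  · exact Rd.PcOK.mono (ok_real hy ks _ p hp) (Nat.le_succ _)
  · obtain ⟨u, hu, rfl⟩ := List.mem_map.1 hp
    exact Rd.pcok_tkP (mem_unk.1 hu).1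

theorem gx_of_nx {ks : St} {j : ℕ} (h : nx y.2.2.2 ks j = false) : pmem (gx y j) (ks.getD j []) = true := by
  unfold nx at h
  rw [Bool.not_eq_false'] at h
  exact h

theorem nx_of_gx {ks : St} {j : ℕ} (h : pmem (gx y j) (ks.getD j []) = true) : nx y.2.2.2 ks j = false := by
  unfold nx
  rw [Bool.not_eq_false']
  exact h

theorem leg_set {ks : St} {q : ℕ} (h : Leg pmem dP (rlP y F) ks) (hq : q < y.2.2.2.length) {m : List ℕ}
    (hm : pmem (gx y q) m = true) :
    Leg pmem dP ((List.range y.2.2.2.length).map (gw y F ks q) ++ Ot y) (setL ks q m) := by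
  rw [rlP_eq] at h
  obtain ⟨h1, h2, h3⟩ := leg_iff.1 h
  refine leg_iff.2 ⟨by rw [setL_length]; exact h1, ?_, ?_⟩
  · intro i hi
    rw [setL_getD _ _ _ (by omega)]
    unfold gw
    by_cases hiq : i = q
    · subst hiq
      rw [if_pos rfl, decide_eq_true rfl, Bool.not_true, Bool.false_and, cond_false]
      exact hm
    · rw [if_neg hiq, decide_eq_false hiq, Bool.not_false, Bool.true_and]
      cases he : nx y.2.2.2 ks i with
      | true => exact h2 i hi
      | false => exact gx_of_nx he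
  · intro j hj
    rw [setL_getD _ _ _ (by omega), if_neg (by omega)]
    exact h3 j hj

theorem leg_ex {ks ks' : St} {q : ℕ} (h : Leg pmem dP (xcP y) ks) :
    Leg pmem dP ((List.range y.2.2.2.length).map (gw y F ks' q) ++ Ot y) ks := by
  rw [xcP_eq] at h
  obtain ⟨h1, h2, h3⟩ := leg_iff.1 h
  refine leg_iff.2 ⟨h1, ?_, h3⟩
  intro i hi
  have h4 := h2 i hi
  unfold gw
  cases !decide (i = q) && nx y.2.2.2 ks' i with
  | true => exact Rd.pmem_exP_rxP h4
  | false => exact h4

theorem leg_back {ks a : St} {q : ℕ}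
    (h : Leg pmem dP ((List.range y.2.2.2.length).map (gw y F ks q) ++ Ot y) a) : Leg pmem dP (rlP y F) a := by
  rw [rlP_eq]
  obtain ⟨h1, h2, h3⟩ := leg_iff.1 h
  refine leg_iff.2 ⟨h1, ?_, h3⟩
  intro i hi
  have h4 := h2 i hi
  unfold gw at h4
  cases he : !decide (i = q) && nx y.2.2.2 ks i with
  | true => rw [he] at h4; exact h4
  | false => rw [he] at h4; exact Rd.pmem_exP_rxP h4

theorem mu_lt {ks a : St} {q : ℕ} (hq : q < y.2.2.2.length) (hq' : nx y.2.2.2 ks q = true)
    (h : Leg pmem dP ((List.range y.2.2.2.length).map (gw y F ks q) ++ Ot y) a) :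
    muS y.2.2.2 a < muS y.2.2.2 ks := by
  obtain ⟨h1, h2, h3⟩ := leg_iff.1 h
  refine Rd.length_filter_lt ?_ (List.mem_range.2 hq) hq' ?_
  · intro i hi hi'
    have h4 := h2 i (List.mem_range.1 hi)
    unfold gw at h4
    cases he : nx y.2.2.2 ks i with
    | true => rfl
    | false =>
      rw [he, Bool.and_false, cond_false] at h4
      rw [nx_of_gx h4] at hi'
      cases hi'
  · have h4 := h2 q hq
    unfold gw at h4
    rw [decide_eq_true rfl, Bool.not_true, Bool.false_and, cond_false] at h4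
    exact nx_of_gx h4

/-- the states at the start of the pool are legal -/
theorem st_leg (hy : WfS y) (hF : ∀ p ∈ F, FactS y p.1 p.2) {r : ℕ × St} (hr : GoodS y F r)
    (hq : fstV y.2.2.2 r.2 < y.2.2.2.length) : ∀ s ∈ stS y F r, Leg pmem dP (wPc y F r.2) s := by
  intro s hs
  rw [wPc_eq, tkP_eq]
  unfold stS at hs
  have hT : ∀ t, Leg pmem dP ((unk y.1.1 F).map (Rd.tkP (y.1.1 + 1))) (tkS y.1.1 F t) := by
    intro t
    rw [tkS_eq]
    refine Rd.leg_map ?_
    intro u _
    cases decide (cd y.1.1 u = t) with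
    | true => exact Rd.pmem_us _ _
    | false => exact Rd.pmem_un _ _
  rcases List.mem_append.1 hs with hs | hs
  · obtain ⟨m, hm, rfl⟩ := List.mem_map.1 hs
    refine Rd.leg_append (leg_set (fa_iff.1 hr.mem) hq ?_) (hT _)
    exact pmem_complete (card4_exP (hy.c.ok _ (Rd.getD_memCl hq))) (mvs_sound hm)
  · obtain ⟨f, hf, rfl⟩ := List.mem_map.1 hs
    exact Rd.leg_append (leg_ex (fa_iff.1 (hF f hf).mem)) (hT _)

/-- **the pool contains a state at an unknown port** -/
theorem pool_good (hy : WfS y) (hF : ∀ p ∈ F, FactS y p.1 p.2) (hne : F ≠ []) {r : ℕ × St} (hr : GoodS y F r)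
    (hq : fstV y.2.2.2 r.2 < y.2.2.2.length) (hq' : nx y.2.2.2 r.2 (fstV y.2.2.2 r.2) = true) :
    ∃ a b, a ++ b ∈ poS y F r ∧ a.length = r.2.length ∧ ∃ u ∈ unk y.1.1 F, totS a = T y.1.1 + Rd.pv u := by
  have hW := ok_world hy (F := F) r.2
  have hS := st_leg hy hF hr hq
  have hrleg := fa_iff.1 hr.mem
  have hrlen : r.2.length = y.2.2.2.length + (Ot y).length := by
    have := hrleg
    rw [rlP_eq] at this
    exact (leg_iff.1 this).1
  obtain ⟨n, hn⟩ : ∃ n, n = y.1.1 := ⟨_, rfl⟩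
  obtain ⟨u0, hu0, hcd0⟩ := cd_surj hr.lt
  rw [← hn] at hu0 hcd0
  obtain ⟨U, hU⟩ : ∃ U, U = unk n F := ⟨_, rfl⟩
  have hUn : ∀ u ∈ U, u.1 ≤ n := fun u hu => by rw [hU] at hu; exact (mem_unk.1 hu).1
  have hu0U : u0 ∈ unk n F := mem_unk.2 ⟨hu0, by rw [hcd0]; exact hr.unk⟩
  obtain ⟨q, hqe⟩ : ∃ q, q = fstV y.2.2.2 r.2 := ⟨_, rfl⟩
  rw [← hqe] at hq hq'
  have hqC := Rd.getD_memCl hq
  obtain ⟨c, hc⟩ : ∃ c, c = y.2.2.2.getD q dC := ⟨_, rfl⟩
  have hcC : c ∈ y.2.2.2 := by rw [hc]; exact hqC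
  have hcok := hy.c.ok c hcC
  have hcb := clB_n hy hcC
  -- the totals of the real parts
  have z_real : ∀ a, Leg pmem dP ((List.range y.2.2.2.length).map (gw y F r.2 q) ++ Ot y) a →
      ∀ v, n < v → totS a v = 0 := fun a ha v hv => Rd.totS_zero ha (ok_real hy r.2 q) (by rw [← hn]; exact hv)
  have z_rl : ∀ a, Leg pmem dP (rlP y F) a → ∀ v, n < v → totS a v = 0 := by
    intro a ha v hv
    rw [rlP_eq] at ha
    refine Rd.totS_zero (m := y.1.1) ha ?_ (by rw [← hn]; exact hv)
    intro p hp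
    rw [List.mem_append, List.mem_map] at hp
    rcases hp with ⟨j, hj, rfl⟩ | hp
    · exact ok_gr hy (List.mem_range.1 hj)
    · exact ok_Ot hy p hp
  have z_xc : ∀ a, Leg pmem dP (xcP y) a → ∀ v, n < v → totS a v = 0 := fun a ha v hv =>
    z_real a (leg_ex ha) v hv
  have htot : totS r.2 = T n + Rd.pv u0 := by
    refine (at_iff hu0 (z_rl _ hrleg)).1 ?_
    rw [hcd0, hn]
    exact hr.at_
  obtain ⟨o, ho⟩ : ∃ o, o = T n + Rd.base U + ev (n + 1) := ⟨_, rfl⟩
  -- the additional vector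
  have hkq : pmem (rxP c (psi (plu n F) c)) (r.2.getD q []) = true := by
    have := hrleg
    rw [rlP_eq] at this
    have h2 := (leg_iff.1 this).2.1 q hq
    unfold gr at h2
    rw [← hc, ← hn] at h2
    exact h2
  have hkq' : pmem (exP c) (r.2.getD q []) = false := by
    unfold nx at hq'
    rw [Bool.not_eq_true'] at hq'
    rw [hc]
    exact hq'
  obtain ⟨d, hd, hdk⟩ := pmem_digs hcok hkq hkq'
  have hfd := findD_spec (fun d => eqK (r.2.getD q []) d) (digs c (psi (plu n F) c)) [] ⟨d, hd, (eqK_iff _ _).2 hdk⟩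
  have hdv : dgV y F r.2 = findD (fun d => eqK (r.2.getD q []) d) (digs c (psi (plu n F) c)) [] := by
    unfold dgV
    rw [← hqe, ← hc, ← hn]
  rw [← hdv] at hfd
  have hdk : kvec (r.2.getD q []) = kvec (dgV y F r.2) := (eqK_iff _ _).1 hfd.2
  -- the graded family
  obtain ⟨H, hH⟩ : ∃ H : ℕ → (ℕ → ℤ) → Prop, H = fun k z =>
    ∃ s ∈ poolS pmem dP (wPc y F r.2) (y.1.1 + 1) (List.range (y.1.1 + 2)) (stS y F r) k, totS s = z := ⟨_, rfl⟩
  have gr' : Gr (fun v => v ∈ List.range (n + 2)) H := by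
    rw [hH, hn]
    refine ⟨?_, ?_⟩
    · rintro k z ⟨s, hs, rfl⟩
      exact ⟨s, poolS_mono (Nat.le_succ k) s hs, rfl⟩
    · rintro k z w i ε hi ⟨s, hs, rfl⟩ ⟨s', hs', rfl⟩ hε hpos
      obtain ⟨s'', h4, h5⟩ := poolS_jump hW hS hs hs' hi hε hpos
      exact ⟨totS s'', ⟨s'', h4, rfl⟩, h5⟩
  have hfact : ∀ f ∈ F, ∃ u : ℕ × Bool, u.1 ≤ n ∧ f.1 = cd n u ∧ H 0 (o - ev (n + 1) + Rd.pv u) := by
    intro f hf
    have hff := hF f hf
    obtain ⟨u, g1, g2⟩ := cd_surj (n := n) (s := f.1) (by rw [hn]; have := hff.lt; omega)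
    refine ⟨u, g1, g2.symm, ?_⟩
    rw [hH]
    refine ⟨f.2 ++ tkS y.1.1 F (2 * (y.1.1 + 1)), ?_, ?_⟩
    · show _ ∈ stS y F r
      exact List.mem_append_right _ (List.mem_map.2 ⟨f, hf, rfl⟩)
    · have hfl := fa_iff.1 hff.mem
      have e1 : totS f.2 = T n + Rd.pv u := by
        refine (at_iff g1 (z_xc _ hfl)).1 ?_
        rw [g2, hn]
        exact hff.at_
      rw [Rd.totS_append, tkS_none, e1, ho, ← hn, ← hU]
      show T n + Rd.pv u + Rd.base U = _
      abel
  have FA : Facts (fun v => v ∈ List.range (n + 2)) H o (n + 1) 0 (fun v => v ≤ n ∧ kno F v = true)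
      (fun v => v ≤ n ∧ kno F (n + 1 + v) = true) := by
    have kk : ∀ s, kno F s = true → ∃ f ∈ F, f.1 = s := by
      intro s hs
      simpa [kno, List.any_eq_true] using hs
    refine ⟨gr', List.mem_range.2 (by omega), ?_, ?_, ?_⟩
    · rintro v ⟨hv, hk⟩
      obtain ⟨f, hf, hfv⟩ := kk v hk
      obtain ⟨u, g1, g2, g3⟩ := hfact f hf
      have e : u = (v, false) := cd_inj g1 hv (by rw [← g2, hfv]; rfl)
      subst e
      refine ⟨by omega, List.mem_range.2 (by omega), ?_⟩
      have e1 : o - ev (n + 1) + Rd.pv (v, false) = o - ev (n + 1) - ev v := by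
        simp only [Rd.pv, cond_false]
        abel
      rwa [e1] at g3
    · rintro v ⟨hv, hk⟩
      obtain ⟨f, hf, hfv⟩ := kk _ hk
      obtain ⟨u, g1, g2, g3⟩ := hfact f hf
      have e : u = (v, true) := cd_inj g1 hv (by rw [← g2, hfv]; rfl)
      subst e
      exact ⟨by omega, List.mem_range.2 (by omega), g3⟩
    · obtain ⟨f, hf⟩ := List.exists_mem_of_ne_nil F hne
      obtain ⟨⟨v, b⟩, g1, g2, _⟩ := hfact f hf
      have kf : kno F f.1 = true := by
        simp only [kno, List.any_eq_true, decide_eq_true_eq]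
        exact ⟨f, hf, rfl⟩
      cases b with
      | true => exact Or.inr ⟨v, g1, by rw [g2] at kf; exact kf⟩
      | false => exact Or.inl ⟨v, g1, by rw [g2] at kf; exact kf⟩
  -- the rule for the vertices of the cluster
  have hkn : ∀ v, plu n F v = true ↔ kno F v = true ∧ ¬ kno F (n + 1 + v) = true := by
    intro v
    simp [plu]
  have hVn : ∀ v ∈ clV c, v ≤ n := by
    intro v hv
    rw [hn]
    unfold clV at hv
    cases hc1 : c.1 with
    | true =>
      rw [hc1, cond_true, List.mem_cons, List.mem_cons] at hv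
      obtain ⟨b1, b2⟩ := hcb.2 hc1
      rcases hv with rfl | rfl | hv
      · exact b1
      · exact b2
      · exact hcb.1 v hv
    | false =>
      rw [hc1, cond_false] at hv
      exact hcb.1 v hv
  have hpsi : psi (plu n F) c = psi (fun v => decide (v ≤ n) && plu n F v) c := psi_congr fun v hv => by
    rw [decide_eq_true (hVn v hv), Bool.true_and]
  have hP : ∀ v, (decide (v ≤ n) && plu n F v) = true ↔ (v ≤ n ∧ kno F v = true) ∧ ¬ (v ≤ n ∧ kno F (n + 1 + v) = true) := by
    intro v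
    rw [Bool.and_eq_true, decide_eq_true_eq, hkn]
    tauto
  have hI : ∀ v ∈ clV c, v ∈ List.range (n + 2) ∧ v ≠ n + 1 := by
    intro v hv
    have := hVn v hv
    exact ⟨List.mem_range.2 (by omega), by omega⟩
  have hqs : q < r.2.length := by omega
  have hk : ∀ m ∈ mvs c (dgV y F r.2), H 0 (o - kvec (dgV y F r.2) + kvec m) := by
    intro m hm
    rw [hH]
    refine ⟨setL r.2 (fstV y.2.2.2 r.2) m ++ tkS y.1.1 F r.1, ?_, ?_⟩
    · show _ ∈ stS y F r
      refine List.mem_append_left _ (List.mem_map.2 ⟨m, ?_, rfl⟩)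
      rw [← hqe, ← hc]
      exact hm
    · rw [Rd.totS_append, ← hqe, Rd.totS_set hqs, ← hn, ← hcd0, tot_tok hu0U, htot, hdk, ho, ← hU]
      abel
  have hd' := hfd.1
  rw [hpsi] at hd'
  obtain ⟨z, hz, hz3⟩ := psi_lemD FA hP hcok hI hd' hk
  rw [hH] at hz3
  obtain ⟨s, hs, hsz⟩ := hz3
  have hleg' := poolS_leg hW hS _ s hs
  rw [wPc_eq, tkP_eq, ← hqe, ← hn, ← hU] at hleg'
  obtain ⟨a, b, rfl, ha, hb⟩ := Rd.leg_split hleg'
  have hlen : a.length = r.2.length := by rw [ha.len, hrlen]; simp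
  have ha0 := z_real a ha
  refine ⟨a, b, hs, hlen, ?_⟩
  rw [← hn, ← hU]
  rw [Rd.totS_append] at hsz
  have t0 := ha0 (n + 1) (by omega)
  have t1 : (ev (n + 1) : ℕ → ℤ) (n + 1) = 1 := by rw [TFC.ev_apply, if_pos rfl]
  have t2 : T n (n + 1) = 0 := T_zero (by omega)
  have t3 := Rd.base_top hUn
  have t4 : o (n + 1) = 1 := by
    rw [ho, Pi.add_apply, Pi.add_apply, t1, t2, t3]
    rfl
  have tb := congrFun hsz (n + 1)
  rw [Pi.add_apply, t0, zero_add] at tb
  have unkI : ∀ w : ℕ × Bool, w.1 ≤ n → kno F (cd n w) = false → w ∈ U := fun w h1 h2 => by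
    rw [hU]
    exact mem_unk.2 ⟨h1, h2⟩
  rcases hz with rfl | ⟨v, hv, hvF, rfl⟩ | ⟨v, hv, hvF, rfl⟩
  · rw [t4] at tb
    rcases Rd.tok_cases hUn hb with h4 | ⟨u, hu, h4⟩ | h4
    · rw [h4, t3] at tb
      omega
    · refine ⟨u, hu, ?_⟩
      rw [h4, ho] at hsz
      have e : totS a = totS a + (Rd.base U + ev (n + 1) - Rd.pv u) - (Rd.base U + ev (n + 1) - Rd.pv u) := by abel
      rw [e, hsz]
      abel
    · omega
  · have e1 : (ev v : ℕ → ℤ) (n + 1) = 0 := by rw [TFC.ev_apply, if_neg (Ne.symm hv)]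
    rw [Pi.sub_apply, Pi.sub_apply, t4, t1, e1] at tb
    rcases Rd.tok_cases hUn hb with h4 | ⟨u, hu, h4⟩ | h4
    · have e : totS a = T n + Rd.pv (v, false) := by
        have e2 : totS a = totS a + Rd.base U - Rd.base U := by abel
        rw [e2, ← h4, hsz, ho, h4]
        simp only [Rd.pv, cond_false]
        abel
      have hvn : v ≤ n := by
        by_contra hh
        have e3 := congrFun e v
        have e4 := vec_nonneg a.flatten v
        rw [Pi.add_apply, T_zero (by omega)] at e3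
        simp only [Rd.pv, cond_false, Pi.neg_apply] at e3
        rw [TFC.ev_apply, if_pos rfl] at e3
        unfold totS at e3
        omega
      refine ⟨(v, false), unkI _ hvn ?_, e⟩
      rw [← Bool.not_eq_true]
      exact fun h => hvF ⟨hvn, h⟩
    · rw [h4, Pi.sub_apply, Pi.add_apply, t3, t1, Rd.pv_top (hUn u hu)] at tb
      omega
    · omega
  · have e1 : (ev v : ℕ → ℤ) (n + 1) = 0 := by rw [TFC.ev_apply, if_neg (Ne.symm hv)]
    rw [Pi.add_apply, Pi.sub_apply, t4, t1, e1] at tb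
    rcases Rd.tok_cases hUn hb with h4 | ⟨u, hu, h4⟩ | h4
    · have e : totS a = T n + Rd.pv (v, true) := by
        have e2 : totS a = totS a + Rd.base U - Rd.base U := by abel
        rw [e2, ← h4, hsz, ho, h4]
        simp only [Rd.pv, cond_true]
        abel
      have hvn : v ≤ n := by
        by_contra hh
        have e3 := congrFun e v
        rw [Pi.add_apply, T_zero (by omega), ha0 v (by omega)] at e3
        simp only [Rd.pv, cond_true] at e3
        rw [TFC.ev_apply, if_pos rfl] at e3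
        omega
      refine ⟨(v, true), unkI _ hvn ?_, e⟩
      rw [← Bool.not_eq_true]
      exact fun h => hvF ⟨hvn, h⟩
    · rw [h4, Pi.sub_apply, Pi.add_apply, t3, t1, Rd.pv_top (hUn u hu)] at tb
      omega
    · omega

theorem real_append {a b : St} : realS a.length (a ++ b) = a := Rd.tk_append

theorem mem_uPo {n s : ℕ} : s ∈ uPo n F ↔ ∃ u ∈ unk n F, cd n u = s := by
  simp only [uPo, List.mem_append, List.mem_map, unk]
  constructor
  · rintro (h | ⟨v, hv, rfl⟩)
    · exact ⟨(s, false), Or.inl ⟨s, h, rfl⟩, rfl⟩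
    · exact ⟨(v, true), Or.inr ⟨v, hv, rfl⟩, rfl⟩
  · rintro ⟨u, ⟨v, hv, rfl⟩ | ⟨v, hv, rfl⟩, h⟩
    · left
      rw [← h]
      exact hv
    · right
      exact ⟨v, hv, h⟩

/-- **specification of the reduction step** -/
theorem red_spec (hy : WfS y) (hF : ∀ p ∈ F, FactS y p.1 p.2) (hne : F ≠ []) {r : ℕ × St} (hr : GoodS y F r)
    (hm : 0 < muS y.2.2.2 r.2) :
    GoodS y F (redS (y, F, r)) ∧ muS y.2.2.2 (redS (y, F, r)).2 < muS y.2.2.2 r.2 := by
  obtain ⟨q, hqe⟩ : ∃ q, q = fstV y.2.2.2 r.2 := ⟨_, rfl⟩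
  have hqm : q ∈ (List.range y.2.2.2.length).filter fun j => nx y.2.2.2 r.2 j := by
    unfold muS at hm
    rw [hqe]
    unfold fstV
    cases hl : (List.range y.2.2.2.length).filter fun j => nx y.2.2.2 r.2 j with
    | nil => rw [hl] at hm; simp at hm
    | cons b t => simp
  obtain ⟨hq, hq'⟩ := List.mem_filter.1 hqm
  rw [List.mem_range] at hq
  rw [hqe] at hq hq'
  obtain ⟨a, b, hab, hlen, u, hu, htot⟩ := pool_good hy hF hne hr hq hq'
  have hW := ok_world hy (F := F) r.2
  have hS := st_leg hy hF hr hq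
  have hrlen : r.2.length = y.2.2.2.length + (Ot y).length := by
    have := fa_iff.1 hr.mem
    rw [rlP_eq] at this
    exact (leg_iff.1 this).1
  have real : ∀ s ∈ poS y F r, Leg pmem dP ((List.range y.2.2.2.length).map (gw y F r.2 (fstV y.2.2.2 r.2)) ++ Ot y)
      (realS r.2.length s) := by
    intro s hs
    have hleg' := poolS_leg hW hS _ s hs
    rw [wPc_eq] at hleg'
    obtain ⟨a, b, rfl, ha, hb⟩ := Rd.leg_split hleg'
    have h1 : r.2.length = a.length := by rw [ha.len, hrlen]; simp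
    rw [h1, real_append]
    exact ha
  have zero : ∀ s ∈ poS y F r, ∀ v, y.1.1 < v → totS (realS r.2.length s) v = 0 := fun s hs v hv =>
    Rd.totS_zero (real s hs) (ok_real hy r.2 _) hv
  have h1 : ∃ c ∈ (poS y F r).flatMap fun z => (uPo y.1.1 F).map fun s => (s, realS r.2.length z),
      tstS y.1.1 c = true := by
    refine ⟨(cd y.1.1 u, realS r.2.length (a ++ b)), ?_, ?_⟩
    · rw [List.mem_flatMap]
      exact ⟨a ++ b, hab, List.mem_map.2 ⟨cd y.1.1 u, mem_uPo.2 ⟨u, hu, rfl⟩, rfl⟩⟩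
    · rw [tst_iff, at_iff (mem_unk.1 hu).1 (zero _ hab), ← hlen, real_append]
      exact htot
  obtain ⟨h2, h3⟩ := findD_spec _ _ ((0, []) : ℕ × St) h1
  have hred : findD (tstS y.1.1) ((poS y F r).flatMap fun z => (uPo y.1.1 F).map fun s => (s, realS r.2.length z))
      (0, []) = redS (y, F, r) := rfl
  rw [hred] at h2 h3
  generalize redS (y, F, r) = c at h2 h3
  obtain ⟨z, hz, hc⟩ := List.mem_flatMap.1 h2
  obtain ⟨s, hs, rfl⟩ := List.mem_map.1 hc
  obtain ⟨w, hw, rfl⟩ := mem_uPo.1 hs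
  obtain ⟨hw1, hw2⟩ := mem_unk.1 hw
  refine ⟨⟨cd_lt hw1, hw2, fa_iff.2 (leg_back (real z hz)), tst_iff.1 h3⟩, ?_⟩
  exact mu_lt hq hq' (real z hz)

end

/-! ### polynomial time -/

section pt
variable {ι : Type} [DEnc ι]

theorem pt_kn {F : ι → Fct St} {s : ι → ℕ} (hF : PT F) (hs : PT s) : PT (fun x => kno (F x) (s x)) :=
  PT.any hF (p := fun y : ι × (ℕ × St) => decide (y.2.1 = s y.1)) (PT.neq PT.snd.p1 (hs.comp PT.fst))

theorem pt_mi {n : ι → ℕ} {F : ι → Fct St} (hn : PT n) (hF : PT F) : PT (fun x => uMi (n x) (F x)) :=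
  PT.filter (PT.range (PT.nsucc hn)) (p := fun y : ι × ℕ => !kno (F y.1) y.2)
    (PT.bnot (pt_kn (hF.comp PT.fst) PT.snd))

theorem pt_pl {n : ι → ℕ} {F : ι → Fct St} (hn : PT n) (hF : PT F) : PT (fun x => uPl (n x) (F x)) :=
  PT.filter (PT.range (PT.nsucc hn)) (p := fun y : ι × ℕ => !kno (F y.1) (n y.1 + 1 + y.2))
    (PT.bnot (pt_kn (hF.comp PT.fst) (PT.nadd (PT.nsucc (hn.comp PT.fst)) PT.snd)))

theorem pt_plv {n v : ι → ℕ} {F : ι → Fct St} (hn : PT n) (hF : PT F) (hv : PT v) :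
    PT (fun x => plu (n x) (F x) (v x)) :=
  PT.band (pt_kn hF hv) (PT.bnot (pt_kn hF (PT.nadd (PT.nsucc hn) hv)))

theorem pt_tgt {n : ι → ℕ} (hn : PT n) : PT (fun x => tgL (n x)) := by
  have h : ∀ x : ι, tgL (n x) =
      (List.range (n x + 1)).map fun v => bif decide (v < n x) then 2 else 2 * n x - 1 := by
    intro x
    unfold tgL
    refine List.map_congr_left fun v _ => ?_
    by_cases h1 : v < n x
    · simp [h1]
    · simp [h1]
  refine PT.congr (PT.map (PT.range (PT.nsucc hn))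
    (g := fun y : ι × ℕ => bif decide (y.2 < n y.1) then 2 else 2 * n y.1 - 1)
    (PT.cond (PT.nlt PT.snd (hn.comp PT.fst)) (PT.const 2)
      (PT.nsub (PT.nmul (PT.const 2) (hn.comp PT.fst)) (PT.const 1)))) fun x => (h x).symm

theorem pt_psiv {c : ι → Cl} {n : ι → ℕ} {F : ι → Fct St} (hc : PT c) (hn : PT n) (hF : PT F) :
    PT (fun x => psi (plu (n x) (F x)) (c x)) :=
  pt_psi (P := fun z : ι × ℕ => plu (n z.1) (F z.1) z.2) (pt_plv (hn.comp PT.fst) (hF.comp PT.fst) PT.snd) hc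

theorem pt_fst {C : ι → List Cl} {ks : ι → St} (hC : PT C) (hk : PT ks) : PT (fun x => fstV (C x) (ks x)) :=
  PT.headD (PT.filter (PT.range (PT.length hC)) (p := fun y : ι × ℕ => nx (C y.1) (ks y.1) y.2)
    (pt_nx (hC.comp PT.fst) (hk.comp PT.fst) PT.snd)) (PT.const 0)

theorem pt_tkv {n : ι → ℕ} {F : ι → Fct St} (hn : PT n) (hF : PT F) : PT (fun x => tkP (n x) (F x)) := by
  refine PT.append ?_ ?_
  · exact PT.map (pt_mi hn hF) (g := fun y : ι × ℕ => unP y.2 (n y.1 + 1))
      (pt_unP PT.snd (PT.nsucc (hn.comp PT.fst)))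
  · refine PT.map (pt_pl hn hF) (g := fun y : ι × ℕ => ((false, [], [[y.2], [n y.1 + 1]]) : Pc)) ?_
    exact PT.pair (PT.const false) (PT.pair (PT.const []) (PT.cons (PT.cons PT.snd (PT.const []))
      (PT.cons (PT.cons (PT.nsucc (hn.comp PT.fst)) (PT.const [])) (PT.const []))))

theorem pt_tks {n s : ι → ℕ} {F : ι → Fct St} (hn : PT n) (hF : PT F) (hs : PT s) :
    PT (fun x => tkS (n x) (F x) (s x)) := by
  refine PT.append ?_ ?_
  · exact PT.map (pt_mi hn hF) (g := fun y : ι × ℕ => bif decide (y.2 = s y.1) then [y.2, n y.1 + 1] else [])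
      (PT.cond (PT.neq PT.snd (hs.comp PT.fst)) (PT.cons PT.snd (PT.cons (PT.nsucc (hn.comp PT.fst)) (PT.const [])))
        (PT.const []))
  · exact PT.map (pt_pl hn hF) (g := fun y : ι × ℕ =>
        bif decide (n y.1 + 1 + y.2 = s y.1) then [n y.1 + 1] else [y.2])
      (PT.cond (PT.neq (PT.nadd (PT.nsucc (hn.comp PT.fst)) PT.snd) (hs.comp PT.fst))
        (PT.cons (PT.nsucc (hn.comp PT.fst)) (PT.const [])) (PT.cons PT.snd (PT.const [])))

section
variable {y : ι → SV.SI} {F : ι → Fct St} {ks : ι → St}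

theorem pt_wcl (hy : PT y) (hF : PT F) (hk : PT ks) :
    PT (fun x => wcl (plu (y x).1.1 (F x)) (y x).2.2.2 (ks x) (fstV (y x).2.2.2 (ks x))) := by
  have hn : PT (fun x => (y x).1.1) := PT.p1 (PT.p1 hy)
  have hC : PT (fun x => (y x).2.2.2) := PT.p2 (PT.p2 (PT.p2 hy))
  have hf := pt_fst hC hk
  refine PT.map (PT.range (PT.length hC)) (g := fun z : ι × ℕ =>
    bif !decide (z.2 = fstV (y z.1).2.2.2 (ks z.1)) && nx (y z.1).2.2.2 (ks z.1) z.2 then
      rxP ((y z.1).2.2.2.getD z.2 (false, 0, 0, []))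
        (psi (plu (y z.1).1.1 (F z.1)) ((y z.1).2.2.2.getD z.2 (false, 0, 0, [])))
    else exP ((y z.1).2.2.2.getD z.2 (false, 0, 0, []))) ?_
  have hc : PT (fun z : ι × ℕ => (y z.1).2.2.2.getD z.2 (false, 0, 0, [])) :=
    PT.getD (hC.comp PT.fst) PT.snd (PT.const (false, 0, 0, []))
  exact PT.cond (PT.band (PT.bnot (PT.neq PT.snd (hf.comp PT.fst))) (pt_nx (hC.comp PT.fst) (hk.comp PT.fst) PT.snd))
    (pt_rxP hc (pt_psiv hc (hn.comp PT.fst) (hF.comp PT.fst))) (pt_exP hc)

theorem pt_wPc (hy : PT y) (hF : PT F) (hk : PT ks) : PT (fun x => wPc (y x) (F x) (ks x)) := by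
  have hx : PT (fun x => (y x).1) := PT.p1 hy
  have hn : PT (fun x => (y x).1.1) := PT.p1 hx
  have hg : PT (fun x => (y x).2.1) := PT.p1 (PT.p2 hy)
  have hC : PT (fun x => (y x).2.2.2) := PT.p2 (PT.p2 (PT.p2 hy))
  refine PT.append (PT.append (PT.append (pt_wcl hy hF hk) ?_) (PT.append ?_ ?_)) (pt_tkv hn hF)
  · exact PT.map (pt_plE hx hC) (g := fun z : ι × Ed => edP z.2) (pt_edP PT.snd)
  · exact PT.map (pt_slJ hn hg) (g := fun z : ι × (ℕ × ℕ) => unP z.2.1 (y z.1).1.1)
      (pt_unP PT.snd.p1 (hn.comp PT.fst))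
  · exact PT.map (PT.range hn) (g := fun z : ι × ℕ => unP (y z.1).1.1 (y z.1).1.1)
      (pt_unP (hn.comp PT.fst) (hn.comp PT.fst))

theorem pt_dgV (hy : PT y) (hF : PT F) (hk : PT ks) : PT (fun x => dgV (y x) (F x) (ks x)) := by
  have hn : PT (fun x => (y x).1.1) := PT.p1 (PT.p1 hy)
  have hC : PT (fun x => (y x).2.2.2) := PT.p2 (PT.p2 (PT.p2 hy))
  have hf := pt_fst hC hk
  have hc : PT (fun x => (y x).2.2.2.getD (fstV (y x).2.2.2 (ks x)) (false, 0, 0, [])) :=
    PT.getD hC hf (PT.const (false, 0, 0, []))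
  have hkq : PT (fun x => (ks x).getD (fstV (y x).2.2.2 (ks x)) []) := PT.getD hk hf (PT.const [])
  exact pt_findD (p := fun z : ι × List ℕ => eqK ((ks z.1).getD (fstV (y z.1).2.2.2 (ks z.1)) []) z.2)
    (pt_eqK (hkq.comp PT.fst) PT.snd) (pt_digs hc (pt_psiv hc hn hF)) (PT.const [])

variable {r : ι → ℕ × St}

theorem pt_stS (hy : PT y) (hF : PT F) (hr : PT r) : PT (fun x => stS (y x) (F x) (r x)) := by
  have hn : PT (fun x => (y x).1.1) := PT.p1 (PT.p1 hy)
  have hC : PT (fun x => (y x).2.2.2) := PT.p2 (PT.p2 (PT.p2 hy))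
  have hk : PT (fun x => (r x).2) := PT.p2 hr
  have hf := pt_fst hC hk
  have hc : PT (fun x => (y x).2.2.2.getD (fstV (y x).2.2.2 (r x).2) (false, 0, 0, [])) :=
    PT.getD hC hf (PT.const (false, 0, 0, []))
  refine PT.append ?_ ?_
  · refine PT.map (pt_mvs hc (pt_dgV hy hF hk)) (g := fun z : ι × List ℕ =>
      setL (r z.1).2 (fstV (y z.1).2.2.2 (r z.1).2) z.2 ++ tkS (y z.1).1.1 (F z.1) (r z.1).1) ?_
    exact PT.append (pt_setL (hk.comp PT.fst) (hf.comp PT.fst) PT.snd)
      (pt_tks (hn.comp PT.fst) (hF.comp PT.fst) (PT.p1 (hr.comp PT.fst)))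
  · refine PT.map hF (g := fun z : ι × (ℕ × St) => z.2.2 ++ tkS (y z.1).1.1 (F z.1) (2 * ((y z.1).1.1 + 1))) ?_
    exact PT.append PT.snd.p2 (pt_tks (hn.comp PT.fst) (hF.comp PT.fst)
      (PT.nmul (PT.const 2) (PT.nsucc (hn.comp PT.fst))))

theorem pt_poS (hy : PT y) (hF : PT F) (hr : PT r) : PT (fun x => poS (y x) (F x) (r x)) := by
  have hn : PT (fun x => (y x).1.1) := PT.p1 (PT.p1 hy)
  exact pt_poolS (mem := pmem) (pt_pmem PT.fst PT.snd) (false, [], []) (pt_wPc hy hF (PT.p2 hr)) (PT.nsucc hn)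
    (PT.range (PT.nadd hn (PT.const 2))) (pt_stS hy hF hr) 3

end

theorem pt_one' {v w : ι → ℕ} (hv : PT v) (hw : PT w) : PT (fun x => if v x = w x then 1 else 0) := by
  refine PT.congr (PT.cond (PT.neq hv hw) (PT.const 1) (PT.const 0)) fun x => ?_
  by_cases h : v x = w x <;> simp [h]

theorem pt_tst {n : ι → ℕ} {q : ι → ℕ × St} (hn : PT n) (hq : PT q) : PT (fun x => tstS (n x) (q x)) := by
  refine PT.all (PT.range (PT.nsucc hn)) (p := fun z : ι × ℕ =>
    decide (cT (q z.1).2 z.2 + (if (q z.1).1 = z.2 then 1 else 0) =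
      (tgL (n z.1)).getD z.2 0 + (if (q z.1).1 = n z.1 + 1 + z.2 then 1 else 0))) ?_
  have h1 : PT (fun z : ι × ℕ => (q z.1).1) := PT.p1 (hq.comp PT.fst)
  have h2 : PT (fun z : ι × ℕ => (q z.1).2) := PT.p2 (hq.comp PT.fst)
  have h3 : PT (fun z : ι × ℕ => n z.1) := hn.comp PT.fst
  exact PT.neq (PT.nadd (pt_cT h2 PT.snd) (pt_one' h1 PT.snd))
    (PT.nadd (PT.getD (pt_tgt h3) PT.snd (PT.const 0)) (pt_one' h1 (PT.nadd (PT.nsucc h3) PT.snd)))

theorem pt_uPo {n : ι → ℕ} {F : ι → Fct St} (hn : PT n) (hF : PT F) : PT (fun x => uPo (n x) (F x)) :=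
  PT.append (pt_mi hn hF) (PT.map (pt_pl hn hF) (g := fun z : ι × ℕ => n z.1 + 1 + z.2)
    (PT.nadd (PT.nsucc (hn.comp PT.fst)) PT.snd))

theorem pt_redS : PT redS := by
  have hy : PT (fun w : SV.SI × Fct St × ℕ × St => w.1) := PT.fst
  have hF : PT (fun w : SV.SI × Fct St × ℕ × St => w.2.1) := PT.snd.p1
  have hr : PT (fun w : SV.SI × Fct St × ℕ × St => w.2.2) := PT.snd.p2
  have hn : PT (fun w : SV.SI × Fct St × ℕ × St => w.1.1.1) := PT.p1 (PT.p1 hy)
  have hk : PT (fun w : SV.SI × Fct St × ℕ × St => w.2.2.2) := PT.p2 hr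
  refine pt_findD (p := fun z : (SV.SI × Fct St × ℕ × St) × (ℕ × St) => tstS z.1.1.1.1 z.2)
    (pt_tst (hn.comp PT.fst) PT.snd) ?_ (PT.const (0, []))
  refine PT.flatMap (pt_poS hy hF hr) (g := fun z : (SV.SI × Fct St × ℕ × St) × St =>
    (uPo z.1.1.1.1 z.1.2.1).map fun s => (s, realS z.1.2.2.2.length z.2)) ?_
  refine PT.map (pt_uPo (hn.comp PT.fst) (hF.comp PT.fst)) (g := fun z : ((SV.SI × Fct St × ℕ × St) × St) × ℕ =>
    (z.2, realS z.1.1.2.2.2.length z.1.2)) ?_
  have e0 : PT (fun z : ((SV.SI × Fct St × ℕ × St) × St) × ℕ => z.1.1) := PT.fst.comp PT.fst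
  have e1 : PT (fun z : ((SV.SI × Fct St × ℕ × St) × St) × ℕ => z.1.1.2.2.2.length) := PT.length (hk.comp e0)
  exact PT.pair PT.snd (Rd.pt_tk e1 PT.fst.p2)

end pt

end Pool.Agent.PF4.SVR
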