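import Pool.Agent.PF4.SolI

/-!
# The solver for conflict-free families of squares
-/

set_option autoImplicit false

namespace Pool.Agent.PF4.SV

open Finset Pool.Agent.TFC Pool.Agent.Lib.helper60

/-- the two steps of the solver -/
structure Rows : Prop where
  relax_good : ∀ (y : SI) (F : Fct (List (List ℕ))), WfS y → (∀ p ∈ F, FactS y p.1 p.2) → F ≠ [] →
    (relaxS (y, F)).1 = true → GoodS y F (relaxS (y, F)).2
  relax_none : ∀ (y : SI) (F : Fct (List (List ℕ))), WfS y → (∀ p ∈ F, FactS y p.1 p.2) → F ≠ [] →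
    (relaxS (y, F)).1 = false → ¬ ∃ ks, SolS y ks
  pt_relaxS : PT relaxS
  red_spec : ∀ (y : SI) (F : Fct (List (List ℕ))) (r : ℕ × List (List ℕ)), WfS y →
    (∀ p ∈ F, FactS y p.1 p.2) → (F.map Prod.fst).Nodup → F ≠ [] → GoodS y F r → 0 < muS y.2.2.2 r.2 →
    GoodS y F (redS (y, F, r)) ∧ muS y.2.2.2 (redS (y, F, r)).2 < muS y.2.2.2 r.2
  pt_redS : PT redS

theorem facts_ne {y : SI} (hy : WfS y) {F : Fct (List (List ℕ))} (h : ∀ p ∈ initS y, p ∈ F) : F ≠ [] := by
  obtain ⟨p, hp⟩ := List.exists_mem_of_ne_nil _ (init_ne hy)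
  exact List.ne_nil_of_mem (h p hp)

/-- the instance -/
def api (Z : Rows) : SolApi SI (List (List ℕ)) (ℕ × List (List ℕ)) where
  np := fun y => 2 * y.1.1 + 2
  mub := fun y => y.2.2.2.length
  B := BS
  wf := WfS
  fact := FactS
  sol := SolS
  good := GoodS
  mu := fun y r => muS y.2.2.2 r.2
  init := initS
  s0 := []
  r0 := (0, [])
  relax := relaxS
  red := fun w => (true, redS w, 0, [])
  fin := finS
  pt_np := PT.nadd (PT.nmul (PT.const 2) PT.fst.p1) (PT.const 2)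
  pt_mub := PT.length PT.snd.p2.p2
  pt_B := pt_BS
  pt_mu := pt_muS PT.fst.p2.p2.p2 PT.snd.p2
  pt_init := pt_initS
  pt_relax := Z.pt_relaxS
  pt_red := PT.pair (PT.const true) (PT.pair Z.pt_redS (PT.const (0, [])))
  pt_fin := pt_finS
  size_fact := fun _ _ _ hy h => size_fact hy h
  size_sol := fun _ _ hy h => size_sol hy h
  size_good := fun _ _ _ hy h => size_good hy h
  mu_le := fun y _ r _ _ => mu_le y.2.2.2 r.2
  init_spec := fun y hy => ⟨fun p hp => by
    have h := init_fact hy hp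
    exact ⟨by have := h.lt; omega, h⟩, init_nodup hy⟩
  relax_spec := fun y F hy hF _ hi => by
    have hF' : ∀ p ∈ F, FactS y p.1 p.2 := fun p hp => (hF p hp).2
    exact ⟨Z.relax_good y F hy hF' (facts_ne hy hi), Z.relax_none y F hy hF' (facts_ne hy hi)⟩
  red_spec := fun y F r hy hF hn hi hr hm => by
    have hF' : ∀ p ∈ F, FactS y p.1 p.2 := fun p hp => (hF p hp).2
    exact ⟨fun _ => Z.red_spec y F r hy hF' hn (facts_ne hy hi) hr hm, fun h => by cases h⟩
  fin_spec := fun y F r hy _ _ _ hr hm => ⟨fin_true hy hr hm, fin_false hr hm⟩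

/-- **the solver for lists of clusters** -/
theorem solve_cl (Z : Rows) {y : SI} (hy : WfS y) :
    (((api Z).solve y).1 = true → MG y.1 (decM y.1 y.2.2.2 ((api Z).solve y).2) ∧
      Cov y.1.1 y.2.1 (degL (decM y.1 y.2.2.2 ((api Z).solve y).2)) ∧
      ∀ q : Sq4, SqOK q → (∃ c ∈ y.2.2.2, sqs q ⊆ fs (clE c)) →
        sqIn (decM y.1 y.2.2.2 ((api Z).solve y).2) q = false) ∧
    (((api Z).solve y).1 = false → ¬ ∃ L, VM y.1 L ∧ Cov y.1.1 y.2.1 (degL L)) := by
  obtain ⟨h1, h2⟩ := (api Z).solve_spec (x := y) hy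
  constructor
  · intro h
    have h3 : SolS y ((api Z).solve y).2 := h1 h
    refine decM_spec hy.x hy.c hy.g h3.mem ?_
    intro v hv
    rw [h3.at_ v (by omega), tgt, if_pos hv]
  · rintro h ⟨L, hL, hc⟩
    exact h2 h ⟨cfgM y.1 y.2.1 y.2.2.2 L 0, cfgM_exact hy.x hy.c _ hL 0, fun v _ => ttl_cover hy.x hy.c hL.1 hc v⟩

/-- the near cover at `p.1` is a cover -/
def cvB (x : Ins) (g : List ℕ) (p : ℕ × List Ed) : Bool :=
  (List.range x.1).all fun u => decide (g.getD u 0 ≤ degL p.2 u)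

/-- the solver; `cls` computes the clusters -/
def slv (Z : Rows) (cls : List Sq4 → List Cl) (w : Ins × List ℕ × List (ℕ × List Ed) × List Sq4) :
    Bool × List Ed :=
  bif w.2.2.1.any (fun p => cvB w.1 w.2.1 p) then (true, (findD (fun p => cvB w.1 w.2.1 p) w.2.2.1 (0, [])).2)
  else (((api Z).solve (w.1, w.2.1, w.2.2.1, cls w.2.2.2)).1,
    decM w.1 (cls w.2.2.2) ((api Z).solve (w.1, w.2.1, w.2.2.1, cls w.2.2.2)).2)

theorem pt_slv (Z : Rows) {cls : List Sq4 → List Cl} (hc : PT cls) : PT (slv Z cls) := by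
  have hx : PT (fun w : Ins × List ℕ × List (ℕ × List Ed) × List Sq4 => w.1) := PT.fst
  have hg : PT (fun w : Ins × List ℕ × List (ℕ × List Ed) × List Sq4 => w.2.1) := PT.snd.p1
  have hW : PT (fun w : Ins × List ℕ × List (ℕ × List Ed) × List Sq4 => w.2.2.1) := PT.snd.p2.p1
  have hD : PT (fun w : Ins × List ℕ × List (ℕ × List Ed) × List Sq4 => w.2.2.2) := PT.snd.p2.p2
  have hC : PT (fun w : Ins × List ℕ × List (ℕ × List Ed) × List Sq4 => cls w.2.2.2) := hc.comp hD
  have hcv : PT (fun z : (Ins × List ℕ × List (ℕ × List Ed) × List Sq4) × (ℕ × List Ed) =>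
      cvB z.1.1 z.1.2.1 z.2) :=
    PT.all (PT.range (PT.p1 (hx.comp PT.fst)))
      (p := fun t : ((Ins × List ℕ × List (ℕ × List Ed) × List Sq4) × (ℕ × List Ed)) × ℕ =>
        decide (t.1.1.2.1.getD t.2 0 ≤ degL t.1.2.2 t.2))
      (PT.nle (PT.getD (hg.comp PT.fst.p1) PT.snd (PT.const 0)) (pt_degL PT.fst.p2.p2 PT.snd))
  have hs : PT (fun w : Ins × List ℕ × List (ℕ × List Ed) × List Sq4 =>
      (api Z).solve (w.1, w.2.1, w.2.2.1, cls w.2.2.2)) :=
    (api Z).pt_solve.comp (PT.pair hx (PT.pair hg (PT.pair hW hC)))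
  exact PT.cond (PT.any hW hcv) (PT.pair (PT.const true) (PT.p2 (pt_findD hcv hW (PT.const (0, [])))))
    (PT.pair (PT.p1 hs) (pt_decM hx hC (PT.p2 hs)))

/-- the interface of the clusters -/
structure ClsFn (cls : List Sq4 → List Cl) : Prop where
  ok : ∀ (x : Ins) (D : List Sq4), InsWF x → D.Nodup → (∀ Q ∈ D, Q ∈ sqG x) →
    (∀ Q ∈ D, ∀ R ∈ D, conf Q R = false) → ClsOK x (cls D) ∧ ∀ q ∈ D, ∃ c ∈ cls D, sqs q ⊆ fs (clE c)

/-- **The solver is correct.** -/
theorem slv_spec (Z : Rows) {cls : List Sq4 → List Cl} (hcl : ClsFn cls) (x : Ins) (g : List ℕ)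
    (W : List (ℕ × List Ed)) (v : ℕ) (D : List Sq4) (hx : InsWF x) (hd : Da x g W v)
    (hg2 : ∀ u < x.1, g.getD u 0 ≤ 2) (hD : D.Nodup)
    (h1 : ∀ Q ∈ D, Q ∈ sqG x) (h2 : ∀ Q ∈ D, ∀ R ∈ D, conf Q R = false) :
    ((slv Z cls (x, g, W, D)).1 = true →
      MG x (slv Z cls (x, g, W, D)).2 ∧ Cov x.1 g (degL (slv Z cls (x, g, W, D)).2) ∧
      ∀ Q ∈ D, sqIn (slv Z cls (x, g, W, D)).2 Q = false) ∧
    ((slv Z cls (x, g, W, D)).1 = false → ¬ ∃ L, VM x L ∧ Cov x.1 g (degL L)) := by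
  have hg : ∀ u, g.getD u 0 ≤ 2 := by
    intro u
    by_cases hu : u < x.1
    · exact hg2 u hu
    · have : g.getD u 0 = 0 := by
        rw [List.getD_eq_getElem?_getD, List.getElem?_eq_none (by rw [hd.len]; omega)]
        rfl
      omega
  unfold slv
  simp only
  by_cases hc : W.any (fun p => cvB x g p) = true
  · rw [hc, cond_true]
    refine ⟨fun _ => ?_, fun h => by simp at h⟩
    rw [List.any_eq_true] at hc
    obtain ⟨h3, h4⟩ := findD_spec (fun p => cvB x g p) W (0, []) hc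
    obtain ⟨-, h5, -⟩ := hd.tab _ h3
    refine ⟨h5.1, ?_, fun Q hQ => h5.2 Q (h1 Q hQ)⟩
    intro u hu
    change (List.range x.1).all (fun u => decide (g.getD u 0 ≤ degL (findD (fun p => cvB x g p) W (0, [])).2 u)) = true
      at h4
    rw [List.all_eq_true] at h4
    exact of_decide_eq_true (h4 u (List.mem_range.2 hu))
  · have hc' : W.any (fun p => cvB x g p) = false := by simpa using hc
    rw [hc', cond_false]
    obtain ⟨h3, h4⟩ := hcl.ok x D hx hD h1 h2
    have hne : W ≠ [] := by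
      intro h
      have := (hd.sup v hd.lt).1 hd.one
      rw [h] at this
      simp at this
    have hwf : WfS (x, g, W, cls D) := by
      refine ⟨hx, h3, hg, ?_, hd.nod, hne⟩
      intro p hp
      obtain ⟨k1, k2, k3⟩ := hd.tab p hp
      refine ⟨k1, k2, k3, ?_⟩
      simp only at k1 k3 ⊢
      have k4 := k3 p.1 k1
      rw [if_pos rfl] at k4
      by_contra hcon
      apply hc
      rw [List.any_eq_true]
      refine ⟨p, hp, ?_⟩
      unfold cvB
      rw [List.all_eq_true]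
      intro u hu
      rw [List.mem_range] at hu
      rw [decide_eq_true_eq]
      have k5 := k3 u hu
      by_cases hup : u = p.1
      · subst hup
        omega
      · rw [if_neg hup] at k5
        exact k5
    obtain ⟨h5, h6⟩ := solve_cl Z hwf
    refine ⟨fun h => ?_, h6⟩
    obtain ⟨k1, k2, k3⟩ := h5 h
    exact ⟨k1, k2, fun Q hQ => k3 Q (sqG_ok Q (h1 Q hQ)) (h4 Q hQ)⟩

end Pool.Agent.PF4.SV
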