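import Pool.Agent.TFC.LemW

/-!
The exchange theorem for 2-matchings all of whose squares are allowed: the one-step version (at most
two insertions of edges of `K` and two deletions).
-/

set_option autoImplicit false
set_option linter.unusedSectionVars false

namespace Pool.Agent.PF4

open Finset Pool.Agent.TFC

variable {V : Type*} [DecidableEq V]

/-- delete an optional edge -/
def ersO (o : Option (Sym2 V)) (L : Finset (Sym2 V)) : Finset (Sym2 V) :=
  match o with
  | none => L
  | some e => L.erase e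

/-- insert an optional edge -/
def insO (o : Option (Sym2 V)) (L : Finset (Sym2 V)) : Finset (Sym2 V) :=
  match o with
  | none => L
  | some e => insert e L

/-- `o` is empty or contains an element of `E` -/
def OIn (o : Option (Sym2 V)) (E : Finset (Sym2 V)) : Prop := ∀ e, o = some e → e ∈ E

lemma OIn.no (E : Finset (Sym2 V)) : OIn none E := fun _ he => by cases he

lemma OIn.so {E : Finset (Sym2 V)} {e : Sym2 V} (h : e ∈ E) : OIn (some e) E := by
  intro e' he
  rw [← Option.some.inj he]
  exact h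

/-- the possible results of one step -/
def WRes (al : V → V → V → V → Prop) (K : Finset (Sym2 V)) (τ : V → ℤ) (n : ℕ)
    (L : Finset (Sym2 V)) : Prop :=
  M2 L ∧ Good al L ∧ ((∃ w, dv L = τ - ev w ∧ (dv K w < τ w ∨ #(L \ K) + #(K \ L) < n)) ∨
    (∃ c, dv L = τ + ev c ∧ τ c < dv K c))

variable {al : V → V → V → V → Prop}

/-- one exchange (insert an edge of `K`, perhaps delete an edge) leads to `WRes` -/
def WOne (al : V → V → V → V → Prop) (K : Finset (Sym2 V)) (τ : V → ℤ) (n : ℕ)
    (L : Finset (Sym2 V)) : Prop :=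
  ∃ e ∈ K, ∃ o, OIn o (L ∪ K) ∧ WRes al K τ n (ersO o (insert e L))

/-- Case A of Lemma W: the edge `zc` can be added without creating a bad square. -/
lemma caseA {K : Finset (Sym2 V)} (hK : M2 K) {τ : V → ℤ} (hτ : ∀ v, τ v ≤ 2) {n : ℕ}
    {L : Finset (Sym2 V)} {z c : V} (hn : #(L \ K) + #(K \ L) ≤ n) (hL : M2 L)
    (hd : dv L = τ - ev z) (hzK : s(z, c) ∈ K) (hzL : s(z, c) ∉ L)
    (hg : Good al (insert s(z, c) L)) : WOne al K τ n L := by
  have hzc : z ≠ c := hK.nl.ne hzK
  have hd1 : dv (insert s(z, c) L) = τ + ev c := by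
    rw [dv_insert hzc hzL, hd]; abel
  have hnl : NoLoop (insert s(z, c) L) := hL.nl.insert hzc
  have hsub : insert s(z, c) L ⊆ L ∪ K := by
    intro e he
    rw [mem_insert] at he
    rcases he with rfl | he
    · exact mem_union_right _ hzK
    · exact mem_union_left _ he
  by_cases h1 : τ c < dv K c
  · refine ⟨s(z, c), hzK, none, OIn.no _, ?_, hg, Or.inr ⟨c, hd1, h1⟩⟩
    show M2 (insert s(z, c) L)
    refine M2.of_dv hnl fun v => ?_
    rw [hd1, Pi.add_apply, ev_apply]
    have hKc := hK.le c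
    rw [dv_apply] at h1
    split_ifs with hv
    · subst hv; omega
    · have := hτ v; omega
  · push Not at h1
    have h2 : dg K c < dg (insert s(z, c) L) c := by
      have h3 : dv (insert s(z, c) L) c = τ c + 1 := by rw [hd1, Pi.add_apply, ev_self]
      rw [dv_apply] at h1 h3
      omega
    obtain ⟨w, hw1, hw2⟩ := exists_nbr_notMem h2
    have hcw : c ≠ w := hnl.ne hw1
    have hwz : w ≠ z := by
      rintro rfl
      rw [Sym2.eq_swap] at hw2
      exact hw2 hzK
    have hd2 : dv ((insert s(z, c) L).erase s(c, w)) = τ - ev w := by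
      rw [dv_erase hcw hw1, hd1]; abel
    have hsub2 : (insert s(z, c) L).erase s(c, w) ⊆ L ∪ K := (erase_subset _ _).trans hsub
    have hnl2 : NoLoop ((insert s(z, c) L).erase s(c, w)) := hnl.mono (erase_subset _ _)
    refine ⟨s(z, c), hzK, some s(c, w), OIn.so (hsub hw1), M2.of_tau hnl2 hτ hd2,
      hg.mono (erase_subset _ _), Or.inl ⟨w, hd2, Or.inr ?_⟩⟩
    · show #((insert s(z, c) L).erase s(c, w) \ K) + #(K \ (insert s(z, c) L).erase s(c, w)) < n
      have e1 := card_dist_insert hzK hzL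
      have e2 := card_dist_erase hw2 hw1
      omega

/-- the result of one step of the exchange -/
def WSt (al : V → V → V → V → Prop) (K : Finset (Sym2 V)) (τ : V → ℤ) (L : Finset (Sym2 V)) : Prop :=
  ∃ e1 ∈ K, ∃ o2, OIn o2 (L ∪ K) ∧ ∃ o3, OIn o3 K ∧ ∃ o4, OIn o4 (L ∪ K) ∧
    WRes al K τ (#(L \ K) + #(K \ L)) (ersO o4 (insO o3 (ersO o2 (insert e1 L))))

lemma WOne.st {K : Finset (Sym2 V)} {τ : V → ℤ} {L : Finset (Sym2 V)}
    (h : WOne al K τ (#(L \ K) + #(K \ L)) L) : WSt al K τ L := by
  obtain ⟨e, he, o, ho, h⟩ := h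
  exact ⟨e, he, o, ho, none, OIn.no _, none, OIn.no _, h⟩

/-- **One step of the exchange.** -/
theorem wstep (hal : AlSym al) {K : Finset (Sym2 V)} (hK : M2 K) (hKg : Good al K)
    {τ : V → ℤ} (hτ : ∀ v, τ v ≤ 2) {L : Finset (Sym2 V)} {z : V} (hL : M2 L) (hLg : Good al L)
    (hd : dv L = τ - ev z) (h0 : τ z ≤ dv K z) : WSt al K τ L := by
  have hdz : dv L z = τ z - 1 := by rw [hd, Pi.sub_apply, ev_self]
  have hlt : dg L z < dg K z := by
    rw [dv_apply] at hdz h0
    omega
  obtain ⟨c, hcK, hcL⟩ := exists_nbr_notMem hlt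
  have hzc : z ≠ c := hK.nl.ne hcK
  by_cases hB : ∀ p q, Sq (insert s(z, c) L) z c p q → al z c p q
  · exact (caseA hK hτ le_rfl hL hd hcK hcL (good_insert hal hLg hB)).st
  push Not at hB
  obtain ⟨c2, t, hX, hbad⟩ := hB
  have hnl1 : NoLoop (insert s(z, c) L) := hL.nl.insert hzc
  have hD := hX.dist4 hnl1
  obtain ⟨-, hzc2, hzt, hcc2, hct, hc2t⟩ := hD
  -- the three other edges are in L
  have m1 : s(c, c2) ∈ L := by
    refine (mem_insert.mp hX.bc).resolve_left fun h => ?_
    rw [Sym2.eq_iff] at h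
    rcases h with ⟨h, -⟩ | ⟨-, h⟩
    · exact hzc h.symm
    · exact hzc2 h.symm
  have m2 : s(c2, t) ∈ L := by
    refine (mem_insert.mp hX.cd).resolve_left fun h => ?_
    rw [Sym2.eq_iff] at h
    rcases h with ⟨h, -⟩ | ⟨h, -⟩
    · exact hzc2 h.symm
    · exact hcc2 h.symm
  have m3 : s(t, z) ∈ L := by
    refine (mem_insert.mp hX.da).resolve_left fun h => ?_
    rw [Sym2.eq_iff] at h
    rcases h with ⟨h, -⟩ | ⟨h, -⟩
    · exact hzt h.symm
    · exact hct h.symm
  have m1' : s(c2, c) ∈ L := by rw [Sym2.eq_swap]; exact m1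
  have m2' : s(t, c2) ∈ L := by rw [Sym2.eq_swap]; exact m2
  have m3' : s(z, t) ∈ L := by rw [Sym2.eq_swap]; exact m3
  have hzle : dg L z ≤ 1 := by
    have := hτ z
    rw [dv_apply] at hdz
    omega
  have hτz : τ z = 2 := by
    have h1 := dg_pos m3'
    have := hτ z
    rw [dv_apply] at hdz
    omega
  have nz : ∀ u, s(z, u) ∈ L → u = t := fun u hu => nbr_unique hzle hu m3'
  have nt : ∀ u, s(t, u) ∈ L → u = z ∨ u = c2 := fun u hu =>
    nbr_two (hL.le t) m3 m2' (Ne.symm hzc2.symm) hu
  have nc2 : ∀ u, s(c2, u) ∈ L → u = t ∨ u = c := fun u hu =>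
    nbr_two (hL.le c2) m2 m1' (Ne.symm hct) hu
  have hzK2 : dg K z = 2 := by
    have := hK.le z
    rw [dv_apply] at h0
    omega
  -- squares of `insert s(z, c) L` through `s(z, c)` are the one we found
  have uniq : ∀ p q, Sq (insert s(z, c) L) z c p q → p = c2 ∧ q = t := by
    intro p q hs
    have hD' := hs.dist4 hnl1
    obtain ⟨-, hzp, hzq, hcp, hcq, hpq⟩ := hD'
    have k3 : s(z, q) ∈ L := by
      have := msw hs.da
      refine (mem_insert.mp this).resolve_left fun h => hcq (sym2_inj_left h).symm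
    have hq : q = t := nz q k3
    subst hq
    have k2 : s(q, p) ∈ L := by
      have := msw hs.cd
      refine (mem_insert.mp this).resolve_left fun h => ?_
      rw [Sym2.eq_iff] at h
      rcases h with ⟨h, -⟩ | ⟨-, h⟩
      · exact hzq h.symm
      · exact hzp h.symm
    rcases nt p k2 with h | h
    · exact absurd h.symm hzp
    · exact ⟨h, rfl⟩
  -- removing `s(c, c2)` destroys all bad squares
  have hc2mem : s(c, c2) ∈ insert s(z, c) L := mem_insert_of_mem m1
  have hg2 : Good al ((insert s(z, c) L).erase s(c, c2)) := by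
    have hne : s(z, c) ≠ s(c, c2) := by
      intro h
      rw [Sym2.eq_iff] at h
      rcases h with ⟨h, -⟩ | ⟨h, -⟩
      · exact hzc h
      · exact hzc2 h
    have e : (insert s(z, c) L).erase s(c, c2) = insert s(z, c) (L.erase s(c, c2)) := by
      rw [erase_insert_of_ne hne]
    rw [e]
    refine good_insert hal (hLg.mono (erase_subset _ _)) ?_
    intro p q hs
    have hs' : Sq (insert s(z, c) L) z c p q := hs.mono (insert_subset_insert _ (erase_subset _ _))
    obtain ⟨rfl, rfl⟩ := uniq p q hs'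
    have := hs.bc
    rw [← e] at this
    exact absurd this (notMem_erase _ _)
  have hd1 : dv (insert s(z, c) L) = τ + ev c := by
    rw [dv_insert hzc hcL, hd]; abel
  have hd2 : dv ((insert s(z, c) L).erase s(c, c2)) = τ - ev c2 := by
    rw [dv_erase hcc2 hc2mem, hd1]; abel
  have hsub1 : insert s(z, c) L ⊆ L ∪ K := by
    intro e he
    rw [mem_insert] at he
    rcases he with rfl | he
    · exact mem_union_right _ hcK
    · exact mem_union_left _ he
  have hsub2 : (insert s(z, c) L).erase s(c, c2) ⊆ L ∪ K := (erase_subset _ _).trans hsub1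
  have hnl2 : NoLoop ((insert s(z, c) L).erase s(c, c2)) := hnl1.mono (erase_subset _ _)
  have hM2 : M2 ((insert s(z, c) L).erase s(c, c2)) := M2.of_tau hnl2 hτ hd2
  by_cases hcK2 : s(c, c2) ∈ K
  swap
  · -- case (a)
    refine ⟨s(z, c), hcK, some s(c, c2), OIn.so (mem_union_left _ m1), none, OIn.no _, none,
      OIn.no _, hM2, hg2, Or.inl ⟨c2, hd2, Or.inr ?_⟩⟩
    · show #((insert s(z, c) L).erase s(c, c2) \ K) + #(K \ (insert s(z, c) L).erase s(c, c2)) < _
      have e1 := card_dist_insert hcK hcL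
      have e2 := card_dist_erase hcK2 hc2mem
      omega
  by_cases htK : s(z, t) ∈ K
  swap
  · -- case (b)
    obtain ⟨c', hc'c, hc'K⟩ := exists_nbr_ne (z := K) (v := z) (by omega) c
    have hc't : c' ≠ t := by rintro rfl; exact htK hc'K
    have hc'L : s(z, c') ∉ L := fun h => hc't (nz c' h)
    refine (caseA hK hτ le_rfl hL hd hc'K hc'L (good_insert hal hLg ?_)).st
    intro p q hs
    exfalso
    have hzc' : z ≠ c' := hK.nl.ne hc'K
    have hD' := hs.dist4 (hL.nl.insert hzc')
    obtain ⟨-, hzp, hzq, hcp, hcq, hpq⟩ := hD'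
    have k3 : s(z, q) ∈ L := by
      have := msw hs.da
      refine (mem_insert.mp this).resolve_left fun h => hcq (sym2_inj_left h).symm
    have hq : q = t := nz q k3
    subst hq
    have k2 : s(q, p) ∈ L := by
      have := msw hs.cd
      refine (mem_insert.mp this).resolve_left fun h => ?_
      rw [Sym2.eq_iff] at h
      rcases h with ⟨h, -⟩ | ⟨-, h⟩
      · exact hzq h.symm
      · exact hzp h.symm
    rcases nt p k2 with h | h
    · exact hzp h.symm
    · subst h
      have k1 : s(p, c') ∈ L := by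
        have := msw hs.bc
        refine (mem_insert.mp this).resolve_left fun h => ?_
        rw [Sym2.eq_iff] at h
        rcases h with ⟨h, -⟩ | ⟨h, h'⟩
        · exact hzp h.symm
        · exact hcp h.symm
      rcases nc2 c' k1 with h | h
      · exact hc't h
      · exact hc'c h
  -- case (c)
  have htc2 : s(t, c2) ∉ K := by
    intro h
    refine hbad (hKg _ _ _ _ ⟨hX.ac, hX.bd, hcK, hcK2, ?_, ?_⟩)
    · rw [Sym2.eq_swap]; exact h
    · rw [Sym2.eq_swap]; exact htK
  by_cases h5 : dv K c2 < τ c2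
  · exact ⟨s(z, c), hcK, some s(c, c2), OIn.so (mem_union_left _ m1), none, OIn.no _, none,
      OIn.no _, hM2, hg2, Or.inl ⟨c2, hd2, Or.inl h5⟩⟩
  push Not at h5
  have hLc2 : dg L c2 = 2 := le_antisymm (hL.le c2) (dg_ge_two m2 m1' (Ne.symm hct))
  have hτc2 : τ c2 = 2 := by
    have : dv L c2 = τ c2 - 0 := by rw [hd, Pi.sub_apply, ev_ne hzc2.symm]
    rw [dv_apply, hLc2] at this
    push_cast at this
    omega
  have hKc2 : 2 ≤ dg K c2 := by
    rw [dv_apply, hτc2] at h5
    exact_mod_cast h5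
  obtain ⟨y, hyc, hyK⟩ := exists_nbr_ne hKc2 c
  have hyt : y ≠ t := by
    rintro rfl
    rw [Sym2.eq_swap] at hyK
    exact htc2 hyK
  have hyz : y ≠ z := by
    rintro rfl
    rw [Sym2.eq_swap] at hyK
    rcases nbr_two (hK.le y) hcK htK hct hyK with h | h
    · exact hcc2 h.symm
    · exact hc2t h
  have hyc2 : c2 ≠ y := hK.nl.ne hyK
  set L2 := (insert s(z, c) L).erase s(c, c2) with hL2
  -- membership in L2
  have inL2 : ∀ e, e ∈ L2 → e = s(z, c) ∨ (e ∈ L ∧ e ≠ s(c, c2)) := by
    intro e he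
    rw [hL2, mem_erase, mem_insert] at he
    rcases he with ⟨h1, h2 | h2⟩
    · exact Or.inl h2
    · exact Or.inr ⟨h2, h1⟩
  have n2c2 : ∀ u, s(c2, u) ∈ L2 → u = t := by
    intro u hu
    rcases inL2 _ hu with h | ⟨h, h'⟩
    · rw [Sym2.eq_iff] at h
      rcases h with ⟨h, -⟩ | ⟨h, -⟩
      · exact absurd h.symm hzc2
      · exact absurd h.symm hcc2
    · rcases nc2 u h with h1 | h1
      · exact h1
      · subst h1
        exact absurd Sym2.eq_swap h'
  have n2t : ∀ u, s(t, u) ∈ L2 → u = z ∨ u = c2 := by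
    intro u hu
    rcases inL2 _ hu with h | ⟨h, -⟩
    · rw [Sym2.eq_iff] at h
      rcases h with ⟨h, -⟩ | ⟨h, -⟩
      · exact absurd h.symm hzt
      · exact absurd h.symm hct
    · exact nt u h
  have n2z : ∀ u, s(z, u) ∈ L2 → u = t ∨ u = c := by
    intro u hu
    rcases inL2 _ hu with h | ⟨h, -⟩
    · exact Or.inr (sym2_inj_left h)
    · exact Or.inl (nz u h)
  have hyL2 : s(c2, y) ∉ L2 := fun h => hyt (n2c2 y h)
  have hg3 : Good al (insert s(c2, y) L2) := by
    refine good_insert hal hg2 ?_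
    intro p q hs
    exfalso
    have hD' := hs.dist4 (hnl2.insert hyc2)
    obtain ⟨-, hap, haq, hyp, hyq, hpq⟩ := hD'
    have k3 : s(c2, q) ∈ L2 := by
      have := msw hs.da
      refine (mem_insert.mp this).resolve_left fun h => hyq (sym2_inj_left h).symm
    have hq : q = t := n2c2 q k3
    subst hq
    have k2 : s(q, p) ∈ L2 := by
      have := msw hs.cd
      refine (mem_insert.mp this).resolve_left fun h => ?_
      rw [Sym2.eq_iff] at h
      rcases h with ⟨h, -⟩ | ⟨-, h⟩
      · exact haq h.symm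
      · exact hap h.symm
    rcases n2t p k2 with h | h
    · subst h
      have k1 : s(p, y) ∈ L2 := by
        have := msw hs.bc
        refine (mem_insert.mp this).resolve_left fun h => ?_
        rw [Sym2.eq_iff] at h
        rcases h with ⟨h, -⟩ | ⟨h, -⟩
        · exact hap h.symm
        · exact hyp h.symm
      rcases n2z y k1 with h | h
      · exact hyt h
      · exact hyc h
    · exact hap h.symm
  have e1 := card_dist_insert hcK hcL
  have e2 := card_dist_erase' hcK2 hc2mem
  rw [← hL2] at e2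
  obtain ⟨e, he, o, ho, h⟩ := caseA hK hτ (n := #(L \ K) + #(K \ L)) (by omega) hM2 hd2 hyK hyL2 hg3
  refine ⟨s(z, c), hcK, some s(c, c2), OIn.so (mem_union_left _ m1), some e, OIn.so he, o,
    fun e' he' => ?_, h⟩
  · rcases mem_union.1 (ho e' he') with h1 | h1
    · exact hsub2 h1
    · exact mem_union_right _ h1

end Pool.Agent.PF4
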