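import Pool.Agent.PF4.X5F

/-!
# Two conflicting squares with five vertices
-/

set_option autoImplicit false

namespace Pool.Agent.PF4.XT

open Finset Pool.Agent.TFC Pool.Agent.PF4 Pool.Agent.PF4.XF Pool.Agent.PF4.XU

section
variable {X : XD} {P : ℕ → Finset (Sym2 ℕ) → Prop} {D : Finset (Finset (Sym2 ℕ))} {j m : ℕ} {S : Finset ℕ}
  {M : ℕ → Finset (Sym2 ℕ)}

open Classical in
/-- **the five-cycle move**: a square `x y q p` of the family and a vertex `r` adjacent to `y` and `q` -/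
theorem five_T (h : OW X P D j m S M) {x y q p r : ℕ} (hd : Dist4 x y q p) (rx : r ≠ x) (ry : r ≠ y) (rq : r ≠ q)
    (rp : r ≠ p) (hy : y ∈ S) (hr : r ∈ S) (hQ : TFC.sq x y q p ∈ D) (hyr : s(y, r) ∈ X.E)
    (hrq : s(r, q) ∈ X.E) (hT : r ∈ X.T) : False := by
  obtain ⟨CL, hc⟩ := h.cls
  obtain ⟨L, hL, hcv, hM, _, hs, hu⟩ := h.wit hQ
  obtain ⟨c1, hc1, hsc⟩ := hc.cov _ hQ
  have hisq : ∀ Z ∈ D, IsSq Z := fun Z hZ => h.isq hZ
  have F : Five D CL c1 L x y q p r := ⟨hM, hc, hisq, hd, rx, ry, rq, rp, hs, hu, hc1, hsc⟩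
  have h1n : c1.edges ⊆ X.En := h.near hc hc1 (e := s(x, y)) (hsc (by simp [TFC.sq])) (a := y) (by simp)
    (Rch.mono (r := 0) (Nat.zero_le 3) hy)
  -- the capped frame
  obtain ⟨U, PL, pl, mi, hp⟩ := OW.pw h hc (A := fun _ => Acap D) (fun c _ _ => pca_cap hisq _)
    ⟨r, hr, hT, fun c _ _ => OW.mcap h hr hT _⟩
  have h1U : c1 ∈ U := (hp.uc c1).2 ⟨hc1, h1n⟩
  have wyr : s(y, r) ∈ Ucl U ∪ PL := hp.rch y (Rch.mono (r := 0) (Nat.zero_le 3) hy) _ hyr (by simp)
  have wrq : s(r, q) ∈ Ucl U ∪ PL := hp.rch r (Rch.mono (r := 0) (Nat.zero_le 3) hr) _ hrq (by simp)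
  by_cases hcap : ∀ c ∈ U, dg (Gx L y q r ∩ c.edges) r ≤ 2
  · refine F.all hp hL hcv hQ h1U wyr wrq (fun c hcU => F.cap ((hp.uc c).1 hcU).1 (hp.nl (hp.cW hcU)) (hcap c hcU)) ?_
    exact hp.mi' r hr hT ⟨inter_subset_right, fun c hcU => by rw [inter_assoc]; exact OW.mcap h hr hT _⟩
  push Not at hcap
  obtain ⟨c0, h0, hf⟩ := hcap
  have hf' : 3 ≤ dg (Gx L y q r ∩ c0.edges) r := hf
  have h0C := ((hp.uc c0).1 h0).1
  cases c0 with
  | k4 Y => exact F.k4 hp hL hcv hQ h1U wyr wrq h0 hf'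
  | k2 u v L0 =>
    by_cases hsf : Sf (L ∩ (Clu.k2 u v L0).edges)
    · -- the square-free family at the full cluster
      have hne : (Clu.k2 u v L0) ≠ c1 := by
        intro e
        rw [e] at hf'
        have := F.c1low
        omega
      obtain ⟨U', PL', pl', mi', hp'⟩ := OW.pw h hc
        (A := fun c => if c = Clu.k2 u v L0 then TFC.SqFree else Acap D) (by
          intro c hcC _
          by_cases e : c = Clu.k2 u v L0
          · rw [e, if_pos rfl]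
            exact pca_sqFree hisq (hc.val _ h0C)
          · rw [if_neg e]
            exact pca_cap hisq _)
        ⟨r, hr, hT, fun c hcC _ => by
          by_cases e : c = Clu.k2 u v L0
          · rw [e, if_pos rfl]
            exact OW.msf h hc h0C hr hT
          · rw [if_neg e]
            exact OW.mcap h hr hT _⟩
      have h1U' : c1 ∈ U' := (hp'.uc c1).2 ⟨hc1, h1n⟩
      have wyr' : s(y, r) ∈ Ucl U' ∪ PL' := hp'.rch y (Rch.mono (r := 0) (Nat.zero_le 3) hy) _ hyr (by simp)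
      have wrq' : s(r, q) ∈ Ucl U' ∪ PL' := hp'.rch r (Rch.mono (r := 0) (Nat.zero_le 3) hr) _ hrq (by simp)
      refine F.all hp' hL hcv hQ h1U' wyr' wrq' (fun c hcU => ?_) ?_
      · by_cases e : c = Clu.k2 u v L0
        · rw [e, if_pos rfl]
          rw [sqFree_iff fun e he => k2_nl (hc.val _ h0C) e (mem_inter.1 he).2]
          exact F.sf h0C hsf
        · rw [if_neg e]
          exact F.cap ((hp'.uc c).1 hcU).1 (hp'.nl (hp'.cW hcU))
            ((F.low h0C ((hp'.uc c).1 hcU).1 e hf').trans (by norm_num))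
      · refine hp'.mi' r hr hT ⟨inter_subset_right, fun c hcU => ?_⟩
        show (if c = Clu.k2 u v L0 then TFC.SqFree else Acap D) (M r ∩ (Ucl U' ∪ PL') ∩ c.edges)
        by_cases e : c = Clu.k2 u v L0
        · rw [e] at hcU ⊢
          rw [if_pos rfl, inter_assoc, inter_eq_right.2 (hp'.cW hcU)]
          exact OW.msf h hc h0C hr hT
        · rw [if_neg e, inter_assoc]
          exact OW.mcap h hr hT _
    · -- the full cluster contains a square of the witness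
      obtain ⟨⟨b, hbL, hbc⟩, _⟩ := F.full hf'
      obtain ⟨uv, uL, vL, _⟩ : u ≠ v ∧ u ∉ L0 ∧ v ∉ L0 ∧ 2 ≤ #L0 := hc.val _ h0C
      rcases mem_k2.1 hbc with ⟨g | g, _⟩ | ⟨_, g⟩
      · subst g
        exact F.hub hp hL hcv hQ h1U wyr wrq h0 (Or.inl rfl) hf' hsf
      · subst g
        exact F.hub hp hL hcv hQ h1U wyr wrq h0 (Or.inr rfl) hf' hsf
      · -- `r` is a leaf: at most two edges
        have : {e ∈ Gx L y q r ∩ (Clu.k2 u v L0).edges | r ∈ e} ⊆ {s(u, r), s(v, r)} := by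
          intro e he
          simp only [mem_filter, mem_inter] at he
          obtain ⟨w, rfl⟩ := he.2
          have h2 := he.1.2
          rw [mem_k2] at h2
          simp only [mem_insert, mem_singleton]
          rcases h2 with ⟨h3 | h3, _⟩ | ⟨h3 | h3, _⟩
          · exact absurd g (h3 ▸ uL)
          · exact absurd g (h3 ▸ vL)
          · rw [h3]; exact Or.inl Sym2.eq_swap
          · rw [h3]; exact Or.inr Sym2.eq_swap
        have h2 := card_le_card this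
        have h3 := card_le_two (a := s(u, r)) (b := s(v, r))
        unfold dg at hf'
        omega

end

/-- **two conflicting squares with five vertices** -/
theorem pt5 (X₁ X₂ : XD) (P₁ P₂ : ℕ → Finset (Sym2 ℕ) → Prop) (D₁ D₂ : Finset (Finset (Sym2 ℕ)))
    (j₁ m₁ j₂ m₂ : ℕ) (S : Finset ℕ) (M : ℕ → Finset (Sym2 ℕ)) (h1 : OW X₁ P₁ D₁ j₁ m₁ S M)
    (h2 : OW X₂ P₂ D₂ j₂ m₂ S M) (_ : X₁.n = X₂.n) (hT : X₁.T = X₂.T) (x y q p r : ℕ)
    (hn : [x, y, q, p, r].Nodup) (hx : x ∈ S) (hy : y ∈ S) (hq : q ∈ S) (hp : p ∈ S) (hr : r ∈ S)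
    (hQ : TFC.sq x y q p ∈ D₁) (hR : TFC.sq x y r q ∈ D₂) (hRE : TFC.sq x y r q ⊆ X₁.E)
    (hQE : TFC.sq x y q p ⊆ X₂.E) : False := by
  simp only [List.nodup_cons, List.mem_cons, List.not_mem_nil, or_false, not_or, List.nodup_nil, and_true,
    not_false_eq_true] at hn
  obtain ⟨⟨xy, xq, xp, xr⟩, ⟨yq, yp, yr⟩, ⟨qp, qr⟩, pr⟩ := hn
  by_cases hrT : r ∈ X₁.T
  · exact five_T h1 ⟨xy, xq, xp, yq, yp, qp⟩ (Ne.symm xr) (Ne.symm yr) (Ne.symm qr) (Ne.symm pr) hy hr hQ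
      (hRE (by simp [TFC.sq])) (hRE (by simp [TFC.sq])) hrT
  · by_cases hpT : p ∈ X₁.T
    · -- world 2: `R = r q x y`, the vertex `p` is adjacent to `q` and `x`
      have e : TFC.sq x y r q = TFC.sq r q x y := by rw [XT.sq_rot, XT.sq_rot]
      rw [e] at hR
      exact five_T h2 (x := r) (y := q) (q := x) (p := y) (r := p) ⟨Ne.symm qr, Ne.symm xr, Ne.symm yr,
        Ne.symm xq, Ne.symm yq, xy⟩ pr (Ne.symm qp) (Ne.symm xp) (Ne.symm yp) hq hp hR
        (hQE (by simp [TFC.sq])) (hQE (by simp [TFC.sq])) (hT ▸ hpT)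
    · exact hpT (h1.tri ⟨xy, xq, xp, yq, yp, qp⟩ hx hQ (hRE (by simp [TFC.sq, Sym2.eq_swap])))

end Pool.Agent.PF4.XT
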