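import Pool.Agent.PF4.XCl

/-!
Two squares with a common edge and a common further vertex: the triangle move, and elementary lemmas on edge sets.
-/

set_option autoImplicit false

namespace Pool.Agent.PF4.XF

open Finset Pool.Agent.TFC Pool.Agent.PF4

/-- a square contains no triangle -/
theorem sq_no_tri {Z : Finset (Sym2 ℕ)} (hZ : IsSq Z) {x y q : ℕ} (h1 : s(x, y) ∈ Z) (h2 : s(y, q) ∈ Z)
    (h3 : s(x, q) ∈ Z) : False := by
  obtain ⟨a, b, c, d, ⟨ab, ac, ad, bc, bd, cd⟩, rfl⟩ := hZ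
  have key : ∀ u v : ℕ, s(u, v) ∈ TFC.sq a b c d → ((u = a ∨ u = c) ↔ ¬ (v = a ∨ v = c)) := by
    intro u v h
    simp only [TFC.sq, mem_insert, mem_singleton, Sym2.eq_iff] at h
    rcases h with (⟨rfl, rfl⟩ | ⟨rfl, rfl⟩) | (⟨rfl, rfl⟩ | ⟨rfl, rfl⟩) | (⟨rfl, rfl⟩ | ⟨rfl, rfl⟩) |
      (⟨rfl, rfl⟩ | ⟨rfl, rfl⟩) <;> simp_all [eq_comm]
  have k1 := key _ _ h1
  have k2 := key _ _ h2
  have k3 := key _ _ h3
  tauto

/-- no square -/
def Sf (K : Finset (Sym2 ℕ)) : Prop := ∀ Z, IsSq Z → ¬ Z ⊆ K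

theorem Sf.mono {K K' : Finset (Sym2 ℕ)} (h : Sf K') (hs : K ⊆ K') : Sf K := fun Z hZ h' => h Z hZ (h'.trans hs)

/-- in a square every vertex has two edges -/
theorem sq_two {Z : Finset (Sym2 ℕ)} (hZ : IsSq Z) {e : Sym2 ℕ} (he : e ∈ Z) {v : ℕ} (hv : v ∈ e) :
    ∃ f ∈ Z, f ≠ e ∧ v ∈ f := by
  obtain ⟨a, b, c, d, hd, rfl⟩ := hZ
  have hok : SqOK (a, b, c, d) := hd
  obtain ⟨u, rfl⟩ := hv
  obtain ⟨w, hw, h1⟩ := sq_other hok (he : s(v, u) ∈ sqs (a, b, c, d))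
  exact ⟨s(v, w), h1, fun h => hw (sym2_inj_left h), by simp⟩

/-- a pendant edge closes no square -/
theorem Sf.insert {K : Finset (Sym2 ℕ)} (h : Sf K) {v : ℕ} {e : Sym2 ℕ} (hv : v ∈ e) (h0 : ∀ f ∈ K, v ∉ f) :
    Sf (Insert.insert e K) := by
  intro Z hZ hs
  by_cases he : e ∈ Z
  · obtain ⟨f, hf, hfe, hvf⟩ := sq_two hZ he hv
    rcases mem_insert.1 (hs hf) with h1 | h1
    · exact hfe h1
    · exact h0 f h1 hvf
  · exact h Z hZ ((subset_insert_iff_of_notMem he).1 hs)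

/-- fewer than four edges contain no square -/
theorem sf_of_card {K : Finset (Sym2 ℕ)} (h : #K < 4) : Sf K := by
  rintro _ ⟨a, b, c, d, hd, rfl⟩ hs
  have := card_le_card hs
  rw [R4_card_sq hd] at this
  omega

section
variable {X : XD} {P : ℕ → Finset (Sym2 ℕ) → Prop} {D : Finset (Finset (Sym2 ℕ))} {j m : ℕ} {S : Finset ℕ}
  {M : ℕ → Finset (Sym2 ℕ)}

/-- **the triangle move**: if `x y q p` is a square of the family and `x q` is an edge, then `p` is in `T` -/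
theorem OW.tri (h : OW X P D j m S M) {x y q p : ℕ} (hd : Dist4 x y q p) (hx : x ∈ S)
    (hQ : TFC.sq x y q p ∈ D) (he : s(x, q) ∈ X.E) : p ∈ X.T := by
  by_contra hp
  obtain ⟨L, hL, hc, hM, hE, hs, hu⟩ := h.wit hQ
  obtain ⟨xy, xq, xp, yq, yp, qp⟩ := hd
  have e1 : s(x, y) ∈ L := hs (by simp [TFC.sq])
  have e2 : s(y, q) ∈ L := hs (by simp [TFC.sq])
  have e3 : s(q, p) ∈ L := hs (by simp [TFC.sq])
  have e4 : s(p, x) ∈ L := hs (by simp [TFC.sq])
  have hn : s(x, q) ∈ X.En := h.edgeS he (a := x) (by simp) hx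
  have hQ2 := (h.blk.hs _ hQ).2
  set L₁ : Finset (Sym2 ℕ) := L \ {s(q, p), s(p, x)} with hL₁
  have p1 : P (j + 1) L₁ := h.xp.del _ _ _ hL (by
    intro e he
    simp only [mem_insert, mem_singleton] at he
    rcases he with rfl | rfl
    · exact hQ2 (by simp [TFC.sq])
    · exact hQ2 (by simp [TFC.sq]))
  have hxq : s(x, q) ∉ L := by
    intro hc
    rcases nbr_two (hM.le x) e1 (msw e4) yp hc with h1 | h1
    · exact yq h1.symm
    · exact qp h1
  have hL₁e : L₁ = (L.erase s(q, p)).erase s(p, x) := by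
    ext e
    simp only [hL₁, mem_sdiff, mem_insert, mem_singleton, mem_erase]
    tauto
  have hne : s(p, x) ≠ s(q, p) := by
    rw [ne_eq, Sym2.eq_iff]
    rintro (⟨h1, _⟩ | ⟨_, h1⟩)
    · exact qp h1.symm
    · exact xq h1
  have d1 : dv L₁ = dv L - ev q - ev p - ev p - ev x := by
    rw [hL₁e, dv_erase (Ne.symm xp) (mem_erase.2 ⟨hne, e4⟩), dv_erase qp e3]
  have hxq₁ : s(x, q) ∉ L₁ := fun h' => hxq (mem_sdiff.1 h').1
  have d2 : dv (L₁ ∪ {s(x, q)}) = dv L - ev p - ev p := by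
    rw [union_comm, ← insert_eq, dv_insert xq hxq₁, d1]
    abel
  have hM₂ : M2 (L₁ ∪ {s(x, q)}) := by
    refine M2.of_dv ?_ ?_
    · rw [union_comm, ← insert_eq]
      exact (hM.nl.mono sdiff_subset).insert xq
    · intro v
      rw [d2]
      have h1 : dv L v ≤ 2 := by rw [dv_apply]; exact_mod_cast hM.le v
      have h2 : 0 ≤ ev p v := by rw [ev_apply]; split_ifs <;> norm_num
      simp only [Pi.sub_apply]
      linarith
  have p2 : P (j + 1 + 1) (L₁ ∪ {s(x, q)}) := by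
    refine h.xp.add _ _ _ p1 (by
      intro e he
      rw [mem_singleton] at he
      subst he
      exact h.ok.e1 hn) hM₂ ?_
    intro Z _ hZs
    by_cases h1 : s(x, q) ∈ Z
    · exact Or.inr ⟨_, h1, hn⟩
    · left
      intro e heZ
      rcases mem_union.1 (hZs heZ) with h2 | h2
      · exact h2
      · rw [mem_singleton] at h2
        subst h2
        exact absurd heZ h1
  have hcv : Cv X (L₁ ∪ {s(x, q)}) := by
    intro v hv
    have h1 := congrFun d2 v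
    have h2 : v ≠ p := fun h' => hp (h' ▸ hv)
    rw [Pi.sub_apply, Pi.sub_apply, ev_ne h2, dv_apply, dv_apply, hc v hv, sub_zero, sub_zero] at h1
    exact_mod_cast h1
  have hm := h.ten
  obtain ⟨Z, hZ, hZs⟩ := h.blk.blk (j + 1 + 1) (by omega) _ p2 hcv
  have hZq := h.isq hZ
  by_cases h1 : s(x, q) ∈ Z
  · have f1 : s(x, y) ∈ L₁ ∪ {s(x, q)} := by
      refine mem_union.2 (Or.inl (mem_sdiff.2 ⟨e1, ?_⟩))
      simp only [mem_insert, mem_singleton, Sym2.eq_iff]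
      rintro ((⟨h1, _⟩ | ⟨h1, _⟩) | (⟨h1, _⟩ | ⟨_, h1⟩))
      · exact xq h1
      · exact xp h1
      · exact xp h1
      · exact yp h1
    have f2 : s(y, q) ∈ L₁ ∪ {s(x, q)} := by
      refine mem_union.2 (Or.inl (mem_sdiff.2 ⟨e2, ?_⟩))
      simp only [mem_insert, mem_singleton, Sym2.eq_iff]
      rintro ((⟨h1, _⟩ | ⟨h1, _⟩) | (⟨h1, _⟩ | ⟨h1, _⟩))
      · exact yq h1
      · exact yp h1
      · exact yp h1
      · exact xy h1.symm
    have g1 : s(x, y) ∈ Z := sq_closed hM₂ hZq hZs h1 (y := x) (by simp) f1 (by simp)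
    have g2 : s(y, q) ∈ Z := sq_closed hM₂ hZq hZs h1 (y := q) (by simp) f2 (by simp)
    exact sq_no_tri hZq g1 g2 h1
  · have h2 : Z ⊆ L := by
      intro e heZ
      rcases mem_union.1 (hZs heZ) with h2 | h2
      · exact (mem_sdiff.1 h2).1
      · rw [mem_singleton] at h2
        subst h2
        exact absurd heZ h1
    have h3 := hu Z hZ h2
    have h4 : s(q, p) ∈ Z := by rw [h3]; simp [TFC.sq]
    rcases mem_union.1 (hZs h4) with h5 | h5
    · exact (mem_sdiff.1 h5).2 (by simp)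
    · rw [mem_singleton] at h5
      rw [h5] at h4
      exact h1 h4

end

end Pool.Agent.PF4.XF
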