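import Pool.Agent.PF4.XCal
import Pool.Agent.TFC.R2
import Pool.Agent.TFC.R4
import Pool.Agent.TFC.Unit

/-!
The square-free edge sets inside `K2(a, b; L)`, without bound on the degrees: their degree vectors form a jump set.
-/

set_option autoImplicit false

namespace Pool.Agent.PF4.XU

open Finset Pool.Agent.TFC Pool.Agent.PF4

/-- the degree vectors of the square-free edge sets inside `K2(a, b; L)` -/
structure UJ (a b : ℕ) (L : Finset ℕ) (x : ℕ → ℤ) : Prop where
  off : ∀ v, v ≠ a → v ≠ b → v ∉ L → x v = 0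
  rg : ∀ l ∈ L, 0 ≤ x l ∧ x l ≤ 2
  one : ∀ l ∈ L, ∀ l' ∈ L, x l = 2 → x l' = 2 → l = l'
  na : 0 ≤ x a
  nb : 0 ≤ x b
  dbl : ∀ l ∈ L, x l = 2 → 1 ≤ x a ∧ 1 ≤ x b
  sum : x a + x b = ∑ l ∈ L, x l

theorem UJ.swap {a b : ℕ} {L : Finset ℕ} {x : ℕ → ℤ} (h : UJ a b L x) : UJ b a L x :=
  ⟨fun v h1 h2 h3 => h.off v h2 h1 h3, h.rg, h.one, h.nb, h.na, fun l hl h2 => (h.dbl l hl h2).symm,
    by rw [add_comm]; exact h.sum⟩

theorem pos_ex {S : Finset ℕ} {f : ℕ → ℤ} (h : 0 < ∑ l ∈ S, f l) : ∃ l ∈ S, 0 < f l := by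
  by_contra hc
  push Not at hc
  exact absurd h (not_lt.2 (Finset.sum_nonpos hc))

theorem neg_ex {S : Finset ℕ} {f : ℕ → ℤ} (h : ∑ l ∈ S, f l < 0) : ∃ l ∈ S, f l < 0 := by
  by_contra hc
  push Not at hc
  exact absurd h (not_lt.2 (Finset.sum_nonneg hc))

theorem sum_single (L : Finset ℕ) (i : ℕ) (ε : ℤ) :
    ∑ l ∈ L, (Pi.single i ε : ℕ → ℤ) l = if i ∈ L then ε else 0 := by
  simp only [Pi.single_apply]
  rw [Finset.sum_ite_eq' L i]

section
variable {a b : ℕ} {L : Finset ℕ} {x y : ℕ → ℤ}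

/-- the vector after two steps -/
theorem stp_apply (x : ℕ → ℤ) (i j : ℕ) (ε δ : ℤ) (v : ℕ) :
    (x + Pi.single i ε + Pi.single j δ : ℕ → ℤ) v = x v + (if v = i then ε else 0) + (if v = j then δ else 0) := by
  simp only [Pi.add_apply, Pi.single_apply]

theorem stp_sum (x : ℕ → ℤ) (L : Finset ℕ) (i j : ℕ) (ε δ : ℤ) :
    ∑ l ∈ L, (x + Pi.single i ε + Pi.single j δ : ℕ → ℤ) l =
      ∑ l ∈ L, x l + (if i ∈ L then ε else 0) + (if j ∈ L then δ else 0) := by
  simp only [Pi.add_apply, Finset.sum_add_distrib, sum_single]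

/-- the goal of an exchange -/
def Goal (a b : ℕ) (L : Finset ℕ) (x y : ℕ → ℤ) (i : ℕ) (ε : ℤ) : Prop := ∃ z, UJ a b L z ∧ Two x y z i ε

theorem mk_goal {i j : ℕ} {ε δ : ℤ} (hij : i ≠ j) (hδ : δ = 1 ∨ δ = -1) (h : 0 < δ * (y j - x j))
    (hz : UJ a b L (x + Pi.single i ε + Pi.single j δ)) : Goal a b L x y i ε := by
  refine ⟨_, hz, j, δ, hδ, ?_, rfl⟩
  rw [Pi.add_apply, Pi.single_apply, if_neg (Ne.symm hij), add_zero]
  exact h

theorem sum_diff (hx : UJ a b L x) (hy : UJ a b L y) :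
    ∑ l ∈ L, (y l - x l) = (y a - x a) + (y b - x b) := by
  rw [Finset.sum_sub_distrib, ← hx.sum, ← hy.sum]
  ring

theorem sum_erase1 {f : ℕ → ℤ} {l : ℕ} (hl : l ∈ L) : ∑ v ∈ L.erase l, f v = ∑ v ∈ L, f v - f l := by
  rw [← Finset.add_sum_erase L f hl]
  ring

theorem sum_erase2 {f : ℕ → ℤ} {l l' : ℕ} (hl : l ∈ L) (hl' : l' ∈ L) (h : l ≠ l') :
    ∑ v ∈ (L.erase l).erase l', f v = ∑ v ∈ L, f v - f l - f l' := by
  rw [sum_erase1 (Finset.mem_erase.2 ⟨Ne.symm h, hl'⟩), sum_erase1 hl]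

/-- steps at two leaves: `l` up, `l'` down -/
theorem up_dn (ha : a ∉ L) (hb : b ∉ L) (hx : UJ a b L x) {l l' : ℕ} (hl : l ∈ L) (hl' : l' ∈ L) (hne : l ≠ l')
    (h1 : x l ≤ 1) (h2 : 1 ≤ x l') (h3 : x l = 1 → 1 ≤ x a ∧ 1 ≤ x b ∧ ∀ m ∈ L, x m = 2 → m = l') :
    UJ a b L (x + Pi.single l 1 + Pi.single l' (-1)) := by
  have hal : a ≠ l := fun e => ha (e ▸ hl)
  have hal' : a ≠ l' := fun e => ha (e ▸ hl')
  have hbl : b ≠ l := fun e => hb (e ▸ hl)
  have hbl' : b ≠ l' := fun e => hb (e ▸ hl')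
  refine ⟨?_, ?_, ?_, ?_, ?_, ?_, ?_⟩
  · intro v g1 g2 g3
    rw [stp_apply, if_neg (fun e : v = l => g3 (by rw [e]; exact hl)),
      if_neg (fun e : v = l' => g3 (by rw [e]; exact hl')), hx.off v g1 g2 g3]
    rfl
  · intro m hm
    rw [stp_apply]
    have := hx.rg m hm
    by_cases e1 : m = l
    · subst e1; rw [if_pos rfl, if_neg hne]; omega
    · by_cases e2 : m = l'
      · subst e2; rw [if_neg e1, if_pos rfl]; omega
      · rw [if_neg e1, if_neg e2]; omega
  · intro m hm m' hm' g g'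
    rw [stp_apply] at g g'
    have r1 := hx.rg m hm
    have r2 := hx.rg m' hm'
    have o := hx.one m hm m' hm'
    by_cases e1 : m = l
    · by_cases e1' : m' = l
      · rw [e1, e1']
      · rw [if_pos e1] at g
        rw [if_neg e1'] at g'
        subst e1
        rw [if_neg hne] at g
        have := (h3 (by omega)).2.2 m' hm'
        by_cases e2' : m' = l'
        · rw [if_pos e2'] at g'; omega
        · rw [if_neg e2'] at g'
          exact absurd (this (by omega)) e2'
    · rw [if_neg e1] at g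
      by_cases e1' : m' = l
      · rw [if_pos e1'] at g'
        subst e1'
        rw [if_neg hne] at g'
        have := (h3 (by omega)).2.2 m hm
        by_cases e2 : m = l'
        · rw [if_pos e2] at g; omega
        · rw [if_neg e2] at g
          exact absurd (this (by omega)) e2
      · rw [if_neg e1'] at g'
        by_cases e2 : m = l'
        · rw [if_pos e2] at g; omega
        · by_cases e2' : m' = l'
          · rw [if_pos e2'] at g'; omega
          · rw [if_neg e2] at g
            rw [if_neg e2'] at g'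
            exact o (by omega) (by omega)
  · rw [stp_apply, if_neg hal, if_neg hal']
    have := hx.na
    omega
  · rw [stp_apply, if_neg hbl, if_neg hbl']
    have := hx.nb
    omega
  · intro m hm g
    rw [stp_apply] at g
    rw [stp_apply, stp_apply, if_neg hal, if_neg hal', if_neg hbl, if_neg hbl']
    have r := hx.rg m hm
    have d := hx.dbl m hm
    by_cases e1 : m = l
    · rw [if_pos e1] at g
      subst e1
      rw [if_neg hne] at g
      have := h3 (by omega)
      omega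
    · rw [if_neg e1] at g
      by_cases e2 : m = l'
      · rw [if_pos e2] at g; omega
      · rw [if_neg e2] at g; omega
  · rw [stp_sum, if_pos hl, if_pos hl', stp_apply, stp_apply, if_neg hal, if_neg hal', if_neg hbl, if_neg hbl',
      ← hx.sum]
    ring

/-- one hub and one leaf up -/
theorem hub_up (hab : a ≠ b) (ha : a ∉ L) (hb : b ∉ L) (hx : UJ a b L x) {l : ℕ} (hl : l ∈ L) (h1 : x l ≤ 1)
    (h3 : x l = 1 → 1 ≤ x b ∧ ∀ m ∈ L, x m ≠ 2) : UJ a b L (x + Pi.single a 1 + Pi.single l 1) := by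
  have hal : a ≠ l := fun e => ha (e ▸ hl)
  have hbl : b ≠ l := fun e => hb (e ▸ hl)
  have hLa : ∀ m ∈ L, m ≠ a := fun m hm e => ha (e ▸ hm)
  refine ⟨?_, ?_, ?_, ?_, ?_, ?_, ?_⟩
  · intro v g1 g2 g3
    rw [stp_apply, if_neg g1, if_neg (fun e : v = l => g3 (by rw [e]; exact hl)), hx.off v g1 g2 g3]
    rfl
  · intro m hm
    rw [stp_apply, if_neg (hLa m hm)]
    have := hx.rg m hm
    by_cases e1 : m = l
    · subst e1; rw [if_pos rfl]; omega
    · rw [if_neg e1]; omega
  · intro m hm m' hm' g g'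
    rw [stp_apply, if_neg (hLa m hm)] at g
    rw [stp_apply, if_neg (hLa m' hm')] at g'
    have o := hx.one m hm m' hm'
    by_cases e1 : m = l
    · by_cases e1' : m' = l
      · rw [e1, e1']
      · rw [if_pos e1] at g
        rw [if_neg e1'] at g'
        subst e1
        exact absurd (by omega) ((h3 (by omega)).2 m' hm')
    · rw [if_neg e1] at g
      by_cases e1' : m' = l
      · rw [if_pos e1'] at g'
        subst e1'
        exact absurd (by omega) ((h3 (by omega)).2 m hm)
      · rw [if_neg e1'] at g'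
        exact o (by omega) (by omega)
  · rw [stp_apply, if_pos rfl, if_neg hal]
    have := hx.na
    omega
  · rw [stp_apply, if_neg hab.symm, if_neg hbl]
    have := hx.nb
    omega
  · intro m hm g
    rw [stp_apply, if_neg (hLa m hm)] at g
    rw [stp_apply, stp_apply, if_pos rfl, if_neg hal, if_neg hab.symm, if_neg hbl]
    have r := hx.rg m hm
    have d := hx.dbl m hm
    have n1 := hx.na
    by_cases e1 : m = l
    · rw [if_pos e1] at g
      subst e1
      have := (h3 (by omega)).1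
      omega
    · rw [if_neg e1] at g; omega
  · rw [stp_sum, if_neg ha, if_pos hl, stp_apply, stp_apply, if_pos rfl, if_neg hal, if_neg hab.symm, if_neg hbl,
      ← hx.sum]
    ring

/-- one hub and one leaf down -/
theorem hub_dn (hab : a ≠ b) (ha : a ∉ L) (hb : b ∉ L) (hx : UJ a b L x) {l : ℕ} (hl : l ∈ L) (h1 : 1 ≤ x l)
    (h2 : 1 ≤ x a) (h3 : ∀ m ∈ L, m ≠ l → x m = 2 → 2 ≤ x a) : UJ a b L (x + Pi.single a (-1) + Pi.single l (-1)) := by
  have hal : a ≠ l := fun e => ha (e ▸ hl)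
  have hbl : b ≠ l := fun e => hb (e ▸ hl)
  have hLa : ∀ m ∈ L, m ≠ a := fun m hm e => ha (e ▸ hm)
  refine ⟨?_, ?_, ?_, ?_, ?_, ?_, ?_⟩
  · intro v g1 g2 g3
    rw [stp_apply, if_neg g1, if_neg (fun e : v = l => g3 (by rw [e]; exact hl)), hx.off v g1 g2 g3]
    rfl
  · intro m hm
    rw [stp_apply, if_neg (hLa m hm)]
    have := hx.rg m hm
    by_cases e1 : m = l
    · subst e1; rw [if_pos rfl]; omega
    · rw [if_neg e1]; omega
  · intro m hm m' hm' g g'
    rw [stp_apply, if_neg (hLa m hm)] at g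
    rw [stp_apply, if_neg (hLa m' hm')] at g'
    have r1 := hx.rg m hm
    have r2 := hx.rg m' hm'
    have o := hx.one m hm m' hm'
    by_cases e1 : m = l
    · rw [if_pos e1] at g; omega
    · by_cases e1' : m' = l
      · rw [if_pos e1'] at g'; omega
      · rw [if_neg e1] at g
        rw [if_neg e1'] at g'
        exact o (by omega) (by omega)
  · rw [stp_apply, if_pos rfl, if_neg hal]
    omega
  · rw [stp_apply, if_neg hab.symm, if_neg hbl]
    have := hx.nb
    omega
  · intro m hm g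
    rw [stp_apply, if_neg (hLa m hm)] at g
    rw [stp_apply, stp_apply, if_pos rfl, if_neg hal, if_neg hab.symm, if_neg hbl]
    have r := hx.rg m hm
    have d := hx.dbl m hm
    by_cases e1 : m = l
    · rw [if_pos e1] at g; omega
    · rw [if_neg e1] at g
      have := h3 m hm e1 (by omega)
      omega
  · rw [stp_sum, if_neg ha, if_pos hl, stp_apply, stp_apply, if_pos rfl, if_neg hal, if_neg hab.symm, if_neg hbl,
      ← hx.sum]
    ring

/-- `a` up, `b` down -/
theorem hub_hub (hab : a ≠ b) (ha : a ∉ L) (hb : b ∉ L) (hx : UJ a b L x) (h2 : 1 ≤ x b)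
    (h3 : ∀ m ∈ L, x m = 2 → 2 ≤ x b) : UJ a b L (x + Pi.single a 1 + Pi.single b (-1)) := by
  have hLa : ∀ m ∈ L, m ≠ a := fun m hm e => ha (e ▸ hm)
  have hLb : ∀ m ∈ L, m ≠ b := fun m hm e => hb (e ▸ hm)
  refine ⟨?_, ?_, ?_, ?_, ?_, ?_, ?_⟩
  · intro v g1 g2 g3
    rw [stp_apply, if_neg g1, if_neg g2, hx.off v g1 g2 g3]
    rfl
  · intro m hm
    rw [stp_apply, if_neg (hLa m hm), if_neg (hLb m hm)]
    have := hx.rg m hm
    omega
  · intro m hm m' hm' g g'
    rw [stp_apply, if_neg (hLa m hm), if_neg (hLb m hm)] at g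
    rw [stp_apply, if_neg (hLa m' hm'), if_neg (hLb m' hm')] at g'
    exact hx.one m hm m' hm' (by omega) (by omega)
  · rw [stp_apply, if_pos rfl, if_neg hab]
    have := hx.na
    omega
  · rw [stp_apply, if_neg hab.symm, if_pos rfl]
    omega
  · intro m hm g
    rw [stp_apply, if_neg (hLa m hm), if_neg (hLb m hm)] at g
    rw [stp_apply, stp_apply, if_pos rfl, if_neg hab, if_neg hab.symm, if_pos rfl]
    have d := hx.na
    have := h3 m hm (by omega)
    omega
  · rw [stp_sum, if_neg ha, if_neg hb, stp_apply, stp_apply, if_pos rfl, if_neg hab, if_neg hab.symm, if_pos rfl,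
      ← hx.sum]
    ring

theorem goal_swap {i : ℕ} {ε : ℤ} (h : Goal b a L x y i ε) : Goal a b L x y i ε := by
  obtain ⟨z, h1, h2⟩ := h
  exact ⟨z, h1.swap, h2⟩

/-- a leaf goes up -/
theorem leaf_up (hab : a ≠ b) (ha : a ∉ L) (hb : b ∉ L) (hx : UJ a b L x) (hy : UJ a b L y) {l : ℕ} (hl : l ∈ L)
    (h : x l < y l) : Goal a b L x y l 1 := by
  have hal : a ≠ l := fun e => ha (e ▸ hl)
  have hbl : b ≠ l := fun e => hb (e ▸ hl)
  have rx := hx.rg l hl
  have ry := hy.rg l hl
  have comm : ∀ (i j : ℕ) (ε δ : ℤ), (x + Pi.single i ε + Pi.single j δ : ℕ → ℤ) = x + Pi.single j δ + Pi.single i ε :=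
    fun i j ε δ => by abel
  -- the three candidates
  have cA : x a < y a → (x l = 1 → 1 ≤ x b ∧ ∀ m ∈ L, x m ≠ 2) → Goal a b L x y l 1 := fun g1 g2 =>
    mk_goal hal.symm (Or.inl rfl) (by omega) (by rw [comm]; exact hub_up hab ha hb hx hl (by omega) g2)
  have cB : x b < y b → (x l = 1 → 1 ≤ x a ∧ ∀ m ∈ L, x m ≠ 2) → Goal a b L x y l 1 := fun g1 g2 =>
    mk_goal hbl.symm (Or.inl rfl) (by omega)
      (by rw [comm]; exact (hub_up hab.symm hb ha hx.swap hl (by omega) g2).swap)
  have cC : ∀ l' ∈ L, y l' < x l' → (x l = 1 → 1 ≤ x a ∧ 1 ≤ x b ∧ ∀ m ∈ L, x m = 2 → m = l') →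
      Goal a b L x y l 1 := fun l' hl' g1 g2 =>
    mk_goal (by rintro rfl; omega) (Or.inr rfl) (by omega)
      (up_dn ha hb hx hl hl' (by rintro rfl; omega) (by omega) (by have := hy.rg l' hl'; omega) g2)
  have hex : x a < y a ∨ x b < y b ∨ ∃ l' ∈ L, y l' < x l' := by
    by_contra hc
    push Not at hc
    obtain ⟨h1, h2, h3⟩ := hc
    have h4 : 0 < ∑ l ∈ L, (y l - x l) :=
      Finset.sum_pos' (fun m hm => by have := h3 m hm; omega) ⟨l, hl, by omega⟩
    rw [sum_diff hx hy] at h4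
    omega
  by_cases h1 : x l = 1
  · have dy := hy.dbl l hl (by omega)
    by_cases h2 : ∃ m ∈ L, x m = 2
    · obtain ⟨m, hm, hm2⟩ := h2
      have hml : m ≠ l := by rintro rfl; omega
      have hy2 : y m < x m := by
        have := hy.rg m hm
        have := hy.one m hm l hl
        by_contra hc
        exact hml (this (by omega) (by omega))
      have dx := hx.dbl m hm hm2
      exact cC m hm hy2 fun _ => ⟨dx.1, dx.2, fun m' hm' g => hx.one m' hm' m hm g hm2⟩
    · push Not at h2
      have hs := hx.sum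
      have hs2 : x l ≤ ∑ l ∈ L, x l := Finset.single_le_sum (fun m hm => (hx.rg m hm).1) hl
      have n1 := hx.na
      have n2 := hx.nb
      by_cases h3 : x a = 0
      · exact cA (by omega) fun _ => ⟨by omega, h2⟩
      · by_cases h4 : x b = 0
        · exact cB (by omega) fun _ => ⟨by omega, h2⟩
        · rcases hex with h5 | h5 | ⟨l', hl', h5⟩
          · exact cA h5 fun _ => ⟨by omega, h2⟩
          · exact cB h5 fun _ => ⟨by omega, h2⟩
          · exact cC l' hl' h5 fun _ => ⟨by omega, by omega, fun m hm g => absurd g (h2 m hm)⟩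
  · rcases hex with h5 | h5 | ⟨l', hl', h5⟩
    · exact cA h5 fun g => absurd g h1
    · exact cB h5 fun g => absurd g h1
    · exact cC l' hl' h5 fun g => absurd g h1

/-- a leaf goes down -/
theorem leaf_dn (hab : a ≠ b) (ha : a ∉ L) (hb : b ∉ L) (hx : UJ a b L x) (hy : UJ a b L y) {l : ℕ} (hl : l ∈ L)
    (h : y l < x l) : Goal a b L x y l (-1) := by
  have hal : a ≠ l := fun e => ha (e ▸ hl)
  have hbl : b ≠ l := fun e => hb (e ▸ hl)
  have rx := hx.rg l hl
  have ry := hy.rg l hl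
  have n1 := hx.na
  have n2 := hx.nb
  have n3 := hy.na
  have n4 := hy.nb
  have comm : ∀ (i j : ℕ) (ε δ : ℤ), (x + Pi.single i ε + Pi.single j δ : ℕ → ℤ) = x + Pi.single j δ + Pi.single i ε :=
    fun i j ε δ => by abel
  -- the three candidates
  have cA : y a < x a → (∀ m ∈ L, m ≠ l → x m = 2 → 2 ≤ x a) → Goal a b L x y l (-1) := fun g1 g2 =>
    mk_goal hal.symm (Or.inr rfl) (by omega) (by rw [comm]; exact hub_dn hab ha hb hx hl (by omega) (by omega) g2)
  have cB : y b < x b → (∀ m ∈ L, m ≠ l → x m = 2 → 2 ≤ x b) → Goal a b L x y l (-1) := fun g1 g2 =>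
    mk_goal hbl.symm (Or.inr rfl) (by omega)
      (by rw [comm]; exact (hub_dn hab.symm hb ha hx.swap hl (by omega) (by omega) g2).swap)
  have cC : ∀ l' ∈ L, x l' < y l' → (x l' = 1 → 1 ≤ x a ∧ 1 ≤ x b ∧ ∀ m ∈ L, x m = 2 → m = l) →
      Goal a b L x y l (-1) := fun l' hl' g1 g2 =>
    mk_goal (j := l') (by rintro rfl; omega) (Or.inl rfl) (by omega)
      (by
        rw [comm]
        exact up_dn ha hb hx hl' hl (by rintro rfl; omega) (by have := hy.rg l' hl'; omega) (by omega) g2)
  -- a leaf from 0 up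
  have c0 : (∃ l' ∈ L, x l' = 0 ∧ 0 < y l') → Goal a b L x y l (-1) := by
    rintro ⟨l', hl', g1, g2⟩
    exact cC l' hl' (by omega) fun g => by omega
  have hsd := sum_diff hx hy
  by_cases h2 : ∃ m ∈ L, m ≠ l ∧ x m = 2
  · obtain ⟨m, hm, hml, hm2⟩ := h2
    have dx := hx.dbl m hm hm2
    have hxl : x l ≤ 1 := by
      by_contra hc
      exact hml (hx.one m hm l hl hm2 (by omega))
    have honly : ∀ m' ∈ L, m' ≠ m → x m' ≤ 1 := by
      intro m' hm' hne
      have := hx.rg m' hm'
      by_contra hc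
      exact hne (hx.one m' hm' m hm (by omega) hm2)
    by_cases hA : y a < x a ∧ 2 ≤ x a
    · exact cA hA.1 fun _ _ _ _ => hA.2
    · by_cases hB : y b < x b ∧ 2 ≤ x b
      · exact cB hB.1 fun _ _ _ _ => hB.2
      · apply c0
        -- the sum of the differences of the other leaves
        have he := sum_erase2 (f := fun v => y v - x v) hl hm (Ne.symm hml)
        rw [hsd] at he
        have hs1 : x a + x b = ∑ v ∈ L, x v := hx.sum
        have hs2 : x l + x m ≤ ∑ v ∈ L, x v := by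
          have := sum_erase2 (f := x) hl hm (Ne.symm hml)
          have h5 : 0 ≤ ∑ v ∈ (L.erase l).erase m, x v :=
            Finset.sum_nonneg fun v hv => (hx.rg v (Finset.mem_of_mem_erase (Finset.mem_of_mem_erase hv))).1
          omega
        have hym := hy.rg m hm
        by_cases hy2 : y m = 2
        · -- then `y` has its double at `m`
          have dy := hy.dbl m hm hy2
          have h6 : 0 < ∑ v ∈ (L.erase l).erase m, (y v - x v) := by rw [he]; omega
          obtain ⟨l', hl', h7⟩ := pos_ex h6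
          rw [Finset.mem_erase, Finset.mem_erase] at hl'
          have r1 := hx.rg l' hl'.2.2
          have r2 := hy.rg l' hl'.2.2
          have : y l' ≠ 2 := fun e => hl'.1 (hy.one l' hl'.2.2 m hm e hy2)
          exact ⟨l', hl'.2.2, by omega, by omega⟩
        · by_cases h8 : ∃ m' ∈ L, y m' = 2
          · obtain ⟨m', hm', hy2'⟩ := h8
            have dy := hy.dbl m' hm' hy2'
            have hmm' : m ≠ m' := by rintro rfl; exact hy2 hy2'
            have h6 : 1 ≤ ∑ v ∈ (L.erase l).erase m, (y v - x v) := by rw [he]; omega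
            -- two units up outside
            by_cases h9 : ∃ l' ∈ (L.erase l).erase m, l' ≠ m' ∧ 0 < y l' - x l'
            · obtain ⟨l', hl', hne, h7⟩ := h9
              rw [Finset.mem_erase, Finset.mem_erase] at hl'
              have r1 := hx.rg l' hl'.2.2
              have r2 := hy.rg l' hl'.2.2
              have : y l' ≠ 2 := fun e => hne (hy.one l' hl'.2.2 m' hm' e hy2')
              exact ⟨l', hl'.2.2, by omega, by omega⟩
            · push Not at h9
              have r1 := hx.rg m' hm'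
              have r3 := honly m' hm' (Ne.symm hmm')
              by_cases h10 : x m' = 0
              · exact ⟨m', hm', h10, by omega⟩
              · exfalso
                have h11 : ∑ v ∈ (L.erase l).erase m, (y v - x v) ≤ 1 := by
                  by_cases h12 : m' ∈ (L.erase l).erase m
                  · rw [← Finset.add_sum_erase _ _ h12]
                    have : ∑ v ∈ ((L.erase l).erase m).erase m', (y v - x v) ≤ 0 :=
                      Finset.sum_nonpos fun v hv =>
                        h9 v (Finset.mem_of_mem_erase hv) (Finset.ne_of_mem_erase hv)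
                    omega
                  · have : ∑ v ∈ (L.erase l).erase m, (y v - x v) ≤ 0 :=
                      Finset.sum_nonpos fun v hv => h9 v hv (by rintro rfl; exact h12 hv)
                    omega
                omega
          · push Not at h8
            have h6 : 0 < ∑ v ∈ (L.erase l).erase m, (y v - x v) := by rw [he]; omega
            obtain ⟨l', hl', h7⟩ := pos_ex h6
            rw [Finset.mem_erase, Finset.mem_erase] at hl'
            have r1 := hx.rg l' hl'.2.2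
            have r2 := hy.rg l' hl'.2.2
            have := h8 l' hl'.2.2
            exact ⟨l', hl'.2.2, by omega, by omega⟩
  · push Not at h2
    have h2' : ∀ m ∈ L, m ≠ l → x m = 2 → False := fun m hm hne e => h2 m hm hne e
    by_cases hA : y a < x a
    · exact cA hA fun m hm hne e => (h2' m hm hne e).elim
    · by_cases hB : y b < x b
      · exact cB hB fun m hm hne e => (h2' m hm hne e).elim
      · have he := sum_erase1 (f := fun v => y v - x v) hl
        rw [hsd] at he
        have h6 : 0 < ∑ v ∈ L.erase l, (y v - x v) := by rw [he]; omega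
        obtain ⟨l', hl', h7⟩ := pos_ex h6
        rw [Finset.mem_erase] at hl'
        have r1 := hx.rg l' hl'.2
        have r2 := hy.rg l' hl'.2
        by_cases h8 : 1 ≤ x a ∧ 1 ≤ x b
        · refine cC l' hl'.2 (by omega) fun _ => ⟨h8.1, h8.2, fun m hm e => ?_⟩
          by_contra hc
          exact h2' m hm hc e
        · by_cases h9 : x l' = 0
          · exact c0 ⟨l', hl'.2, h9, by omega⟩
          · -- `y` has its double at `l'`
            have dy := hy.dbl l' hl'.2 (by omega)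
            have he2 := sum_erase2 (f := fun v => y v - x v) hl hl'.2 (Ne.symm hl'.1)
            rw [hsd] at he2
            have h10 : 0 < ∑ v ∈ (L.erase l).erase l', (y v - x v) := by rw [he2]; omega
            obtain ⟨l'', hl'', h11⟩ := pos_ex h10
            rw [Finset.mem_erase, Finset.mem_erase] at hl''
            have r3 := hx.rg l'' hl''.2.2
            have r4 := hy.rg l'' hl''.2.2
            have : y l'' ≠ 2 := fun e => hl''.1 (hy.one l'' hl''.2.2 l' hl'.2 e (by omega))
            exact c0 ⟨l'', hl''.2.2, by omega, by omega⟩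

/-- a hub goes up -/
theorem a_up (hab : a ≠ b) (ha : a ∉ L) (hb : b ∉ L) (hx : UJ a b L x) (hy : UJ a b L y) (h : x a < y a) :
    Goal a b L x y a 1 := by
  have n1 := hx.na
  have n2 := hx.nb
  have n3 := hy.na
  have n4 := hy.nb
  have hsd := sum_diff hx hy
  have cB : y b < x b → (∀ m ∈ L, x m = 2 → 2 ≤ x b) → Goal a b L x y a 1 := fun g1 g2 =>
    mk_goal hab (Or.inr rfl) (by omega) (hub_hub hab ha hb hx (by omega) g2)
  have cC : ∀ l ∈ L, x l < y l → (x l = 1 → 1 ≤ x b ∧ ∀ m ∈ L, x m ≠ 2) → Goal a b L x y a 1 := fun l hl g1 g2 =>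
    mk_goal (fun e => ha (e ▸ hl)) (Or.inl rfl) (by omega)
      (hub_up hab ha hb hx hl (by have := hy.rg l hl; omega) g2)
  have c0 : (∃ l' ∈ L, x l' = 0 ∧ 0 < y l') → Goal a b L x y a 1 := by
    rintro ⟨l', hl', g1, g2⟩
    exact cC l' hl' (by omega) fun g => by omega
  by_cases h2 : ∃ m ∈ L, x m = 2
  · obtain ⟨m, hm, hm2⟩ := h2
    have dx := hx.dbl m hm hm2
    have honly : ∀ m' ∈ L, m' ≠ m → x m' ≤ 1 := by
      intro m' hm' hne
      have := hx.rg m' hm'
      by_contra hc
      exact hne (hx.one m' hm' m hm (by omega) hm2)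
    by_cases hB : y b < x b ∧ 2 ≤ x b
    · exact cB hB.1 fun _ _ _ => hB.2
    · apply c0
      have he := sum_erase1 (f := fun v => y v - x v) hm
      rw [hsd] at he
      have hym := hy.rg m hm
      by_cases hy2 : y m = 2
      · have dy := hy.dbl m hm hy2
        have h6 : 0 < ∑ v ∈ L.erase m, (y v - x v) := by rw [he]; omega
        obtain ⟨l', hl', h7⟩ := pos_ex h6
        rw [Finset.mem_erase] at hl'
        have r1 := hx.rg l' hl'.2
        have r2 := hy.rg l' hl'.2
        have : y l' ≠ 2 := fun e => hl'.1 (hy.one l' hl'.2 m hm e hy2)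
        exact ⟨l', hl'.2, by omega, by omega⟩
      · by_cases h8 : ∃ m' ∈ L, y m' = 2
        · obtain ⟨m', hm', hy2'⟩ := h8
          have dy := hy.dbl m' hm' hy2'
          have hmm' : m ≠ m' := by rintro rfl; exact hy2 hy2'
          have r1 := hx.rg m' hm'
          have r3 := honly m' hm' (Ne.symm hmm')
          by_cases h10 : x m' = 0
          · exact ⟨m', hm', h10, by omega⟩
          · have he2 := sum_erase2 (f := fun v => y v - x v) hm hm' hmm'
            rw [hsd] at he2
            have h6 : 0 < ∑ v ∈ (L.erase m).erase m', (y v - x v) := by rw [he2]; omega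
            obtain ⟨l', hl', h7⟩ := pos_ex h6
            rw [Finset.mem_erase, Finset.mem_erase] at hl'
            have r1 := hx.rg l' hl'.2.2
            have r2 := hy.rg l' hl'.2.2
            have : y l' ≠ 2 := fun e => hl'.1 (hy.one l' hl'.2.2 m' hm' e hy2')
            exact ⟨l', hl'.2.2, by omega, by omega⟩
        · push Not at h8
          have h6 : 0 < ∑ v ∈ L.erase m, (y v - x v) := by rw [he]; omega
          obtain ⟨l', hl', h7⟩ := pos_ex h6
          rw [Finset.mem_erase] at hl'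
          have r1 := hx.rg l' hl'.2
          have r2 := hy.rg l' hl'.2
          have := h8 l' hl'.2
          exact ⟨l', hl'.2, by omega, by omega⟩
  · push Not at h2
    by_cases hB : y b < x b
    · exact cB hB fun m hm e => absurd e (h2 m hm)
    · have h6 : 0 < ∑ v ∈ L, (y v - x v) := by rw [hsd]; omega
      obtain ⟨l', hl', h7⟩ := pos_ex h6
      have r1 := hx.rg l' hl'
      have r2 := hy.rg l' hl'
      by_cases h8 : 1 ≤ x b
      · exact cC l' hl' (by omega) fun _ => ⟨h8, h2⟩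
      · by_cases h9 : x l' = 0
        · exact c0 ⟨l', hl', h9, by omega⟩
        · have dy := hy.dbl l' hl' (by have := h2 l' hl'; omega)
          have he := sum_erase1 (f := fun v => y v - x v) hl'
          rw [hsd] at he
          have h10 : 0 < ∑ v ∈ L.erase l', (y v - x v) := by rw [he]; omega
          obtain ⟨l'', hl'', h11⟩ := pos_ex h10
          rw [Finset.mem_erase] at hl''
          have r3 := hx.rg l'' hl''.2
          have r4 := hy.rg l'' hl''.2
          have : y l'' ≠ 2 := fun e => hl''.1 (hy.one l'' hl''.2 l' hl' e (by have := h2 l' hl'; omega))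
          exact c0 ⟨l'', hl''.2, by omega, by omega⟩

/-- a hub goes down -/
theorem a_dn (hab : a ≠ b) (ha : a ∉ L) (hb : b ∉ L) (hx : UJ a b L x) (hy : UJ a b L y) (h : y a < x a) :
    Goal a b L x y a (-1) := by
  have n1 := hx.na
  have n2 := hx.nb
  have n3 := hy.na
  have n4 := hy.nb
  have hsd := sum_diff hx hy
  have comm : ∀ (i j : ℕ) (ε δ : ℤ), (x + Pi.single i ε + Pi.single j δ : ℕ → ℤ) = x + Pi.single j δ + Pi.single i ε :=
    fun i j ε δ => by abel
  have cB : x b < y b → (∀ m ∈ L, x m = 2 → 2 ≤ x a) → Goal a b L x y a (-1) := fun g1 g2 =>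
    mk_goal hab (Or.inl rfl) (by omega) (by
      rw [comm]
      exact (hub_hub hab.symm hb ha hx.swap (by omega) g2).swap)
  have cC : ∀ l ∈ L, y l < x l → (∀ m ∈ L, m ≠ l → x m = 2 → 2 ≤ x a) → Goal a b L x y a (-1) := fun l hl g1 g2 =>
    mk_goal (fun e => ha (e ▸ hl)) (Or.inr rfl) (by omega)
      (hub_dn hab ha hb hx hl (by have := hy.rg l hl; omega) (by omega) g2)
  by_cases h2 : (∃ m ∈ L, x m = 2) ∧ x a = 1
  · obtain ⟨⟨m, hm, hm2⟩, h3⟩ := h2
    have hy2 : y m < x m := by
      have := hy.rg m hm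
      have := hy.dbl m hm
      by_contra hc
      have := this (by omega)
      omega
    refine cC m hm hy2 fun m' hm' hne e => ?_
    exact absurd (hx.one m' hm' m hm e hm2) hne
  · have h3 : ∀ m ∈ L, x m = 2 → 2 ≤ x a := by
      intro m hm e
      have := hx.dbl m hm e
      by_contra hc
      exact h2 ⟨⟨m, hm, e⟩, by omega⟩
    by_cases hB : x b < y b
    · exact cB hB h3
    · have h6 : ∑ v ∈ L, (y v - x v) < 0 := by rw [hsd]; omega
      obtain ⟨l', hl', h7⟩ := neg_ex h6
      exact cC l' hl' (by omega) fun m hm _ e => h3 m hm e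

/-- **the degree vectors of the square-free edge sets of `K2(a, b; L)` form a jump set** -/
theorem jb_UJ (hab : a ≠ b) (ha : a ∉ L) (hb : b ∉ L) : XC.JB (UJ a b L) := by
  intro x y i ε hx hy hε h
  show Goal a b L x y i ε
  by_cases h1 : i = a
  · subst h1
    rcases hε with rfl | rfl
    · exact a_up hab ha hb hx hy (by omega)
    · exact a_dn hab ha hb hx hy (by omega)
  · by_cases h2 : i = b
    · subst h2
      rcases hε with rfl | rfl
      · exact goal_swap (a_up hab.symm hb ha hx.swap hy.swap (by omega))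
      · exact goal_swap (a_dn hab.symm hb ha hx.swap hy.swap (by omega))
    · by_cases h3 : i ∈ L
      · rcases hε with rfl | rfl
        · exact leaf_up hab ha hb hx hy h3 (by omega)
        · exact leaf_dn hab ha hb hx hy h3 (by omega)
      · rw [hx.off i h1 h2 h3, hy.off i h1 h2 h3] at h
        simp at h

end

/-! ### edge sets of `K2(a, b; L)` -/

/-- the edges from `a` to `P` and from `b` to `Q` -/
def tw (a b : ℕ) (P Q : Finset ℕ) : Finset (Sym2 ℕ) := P.image (fun l => s(a, l)) ∪ Q.image (fun l => s(b, l))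

theorem mem_tw {a b u v : ℕ} {P Q : Finset ℕ} : s(u, v) ∈ tw a b P Q ↔
    (u = a ∧ v ∈ P) ∨ (v = a ∧ u ∈ P) ∨ (u = b ∧ v ∈ Q) ∨ (v = b ∧ u ∈ Q) := by
  simp only [tw, Finset.mem_union, Finset.mem_image, Sym2.eq_iff]
  constructor
  · rintro (⟨l, hl, ⟨rfl, rfl⟩ | ⟨rfl, rfl⟩⟩ | ⟨l, hl, ⟨rfl, rfl⟩ | ⟨rfl, rfl⟩⟩)
    · exact Or.inl ⟨rfl, hl⟩
    · exact Or.inr (Or.inl ⟨rfl, hl⟩)
    · exact Or.inr (Or.inr (Or.inl ⟨rfl, hl⟩))
    · exact Or.inr (Or.inr (Or.inr ⟨rfl, hl⟩))
  · rintro (⟨rfl, h⟩ | ⟨rfl, h⟩ | ⟨rfl, h⟩ | ⟨rfl, h⟩)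
    · exact Or.inl ⟨v, h, Or.inl ⟨rfl, rfl⟩⟩
    · exact Or.inl ⟨u, h, Or.inr ⟨rfl, rfl⟩⟩
    · exact Or.inr ⟨v, h, Or.inl ⟨rfl, rfl⟩⟩
    · exact Or.inr ⟨u, h, Or.inr ⟨rfl, rfl⟩⟩

section
variable {a b : ℕ} {L P Q : Finset ℕ}

theorem tw_sub (hP : P ⊆ L) (hQ : Q ⊆ L) : tw a b P Q ⊆ (Clu.k2 a b L).edges :=
  Finset.union_subset_union (Finset.image_subset_image hP) (Finset.image_subset_image hQ)

theorem tw_of {K : Finset (Sym2 ℕ)} (hK : K ⊆ (Clu.k2 a b L).edges) (hab : a ≠ b) (ha : a ∉ L) (hb : b ∉ L) :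
    K = tw a b (L.filter fun l => s(a, l) ∈ K) (L.filter fun l => s(b, l) ∈ K) := by
  ext e
  induction e using Sym2.ind with
  | _ u v =>
    rw [mem_tw]
    simp only [Finset.mem_filter]
    constructor
    · intro h
      have h1 := hK h
      simp only [Clu.edges, Finset.mem_union, Finset.mem_image, Sym2.eq_iff] at h1
      rcases h1 with ⟨l, hl, ⟨rfl, rfl⟩ | ⟨rfl, rfl⟩⟩ | ⟨l, hl, ⟨rfl, rfl⟩ | ⟨rfl, rfl⟩⟩
      · exact Or.inl ⟨rfl, hl, h⟩
      · exact Or.inr (Or.inl ⟨rfl, hl, by rw [Sym2.eq_swap]; exact h⟩)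
      · exact Or.inr (Or.inr (Or.inl ⟨rfl, hl, h⟩))
      · exact Or.inr (Or.inr (Or.inr ⟨rfl, hl, by rw [Sym2.eq_swap]; exact h⟩))
    · rintro (⟨rfl, _, h⟩ | ⟨rfl, _, h⟩ | ⟨rfl, _, h⟩ | ⟨rfl, _, h⟩)
      · exact h
      · rw [Sym2.eq_swap]; exact h
      · exact h
      · rw [Sym2.eq_swap]; exact h

theorem tw_nl (hP : a ∉ P) (hQ : b ∉ Q) : NoLoop (tw a b P Q) := by
  intro e he
  induction e using Sym2.ind with
  | _ u v =>
    rw [Sym2.mk_isDiag_iff]
    rintro rfl
    rcases mem_tw.1 he with ⟨rfl, h⟩ | ⟨rfl, h⟩ | ⟨rfl, h⟩ | ⟨rfl, h⟩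
    · exact hP h
    · exact hP h
    · exact hQ h
    · exact hQ h

theorem dv_star {w : ℕ} {A : Finset ℕ} (hw : w ∉ A) (v : ℕ) :
    dv (A.image fun l => s(w, l)) v = (if v ∈ A then 1 else 0) + if v = w then (#A : ℤ) else 0 := by
  induction A using Finset.induction_on with
  | empty => simp [dv, dg]
  | insert c A hc ih =>
    rw [Finset.mem_insert, not_or] at hw
    have h2 : s(w, c) ∉ A.image fun l => s(w, l) := by
      rw [Finset.mem_image]
      rintro ⟨l, hl, h⟩
      rw [Sym2.eq_iff] at h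
      rcases h with ⟨_, h⟩ | ⟨h, _⟩
      · exact hc (h ▸ hl)
      · exact hw.1 h
    rw [Finset.image_insert, dv_insert hw.1 h2, Pi.add_apply, Pi.add_apply, ih hw.2, TFC.ev_apply, TFC.ev_apply,
      Finset.card_insert_of_notMem hc]
    by_cases h3 : v = w
    · subst h3
      simp [hw.1, hw.2]
    · by_cases h5 : v = c
      · subst h5
        simp [h3, hc]
      · simp [h3, h5]

theorem dv_tw (hab : a ≠ b) (ha : a ∉ L) (hb : b ∉ L) (hP : P ⊆ L) (hQ : Q ⊆ L) (v : ℕ) :
    dv (tw a b P Q) v = (if v ∈ P then 1 else 0) + (if v ∈ Q then 1 else 0) +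
      ((if v = a then (#P : ℤ) else 0) + if v = b then (#Q : ℤ) else 0) := by
  have h1 : a ∉ P := fun h => ha (hP h)
  have h2 : b ∉ Q := fun h => hb (hQ h)
  have hd : Disjoint (P.image fun l => s(a, l)) (Q.image fun l => s(b, l)) := by
    rw [Finset.disjoint_left]
    intro e he he'
    obtain ⟨l, hl, rfl⟩ := Finset.mem_image.1 he
    obtain ⟨m, hm, h⟩ := Finset.mem_image.1 he'
    rw [Sym2.eq_iff] at h
    rcases h with ⟨h, _⟩ | ⟨h, h'⟩
    · exact hab h.symm
    · exact ha (h' ▸ hQ hm)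
  have e1 : dv (tw a b P Q) v = dv (P.image fun l => s(a, l)) v + dv (Q.image fun l => s(b, l)) v := by
    unfold tw dv dg
    rw [Finset.filter_union, Finset.card_union_of_disjoint (Finset.disjoint_filter_filter hd)]
    push_cast
    rfl
  rw [e1, dv_star h1, dv_star h2]
  ring

/-- a square in `tw` -/
theorem tw_sq (hab : a ≠ b) (ha : a ∉ L) (hb : b ∉ L) (hP : P ⊆ L) (hQ : Q ⊆ L) {Z : Finset (Sym2 ℕ)}
    (hZ : IsSq Z) (h : Z ⊆ tw a b P Q) : 2 ≤ #(P ∩ Q) := by
  obtain ⟨c, d, e, f, ⟨n1, n2, n3, n4, n5, n6⟩, rfl⟩ := hZ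
  have m1 : s(c, d) ∈ tw a b P Q := h (by simp [TFC.sq])
  have m2 : s(d, e) ∈ tw a b P Q := h (by simp [TFC.sq])
  have m3 : s(e, f) ∈ tw a b P Q := h (by simp [TFC.sq])
  have m4 : s(f, c) ∈ tw a b P Q := h (by simp [TFC.sq])
  rw [mem_tw] at m1 m2 m3 m4
  have two : ∀ l l' : ℕ, l ≠ l' → l ∈ P → l ∈ Q → l' ∈ P → l' ∈ Q → 2 ≤ #(P ∩ Q) := by
    intro l l' hne h1 h2 h3 h4
    have hs : ({l, l'} : Finset ℕ) ⊆ P ∩ Q := by
      intro v hv
      rw [Finset.mem_insert, Finset.mem_singleton] at hv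
      rcases hv with rfl | rfl
      · exact Finset.mem_inter.2 ⟨h1, h2⟩
      · exact Finset.mem_inter.2 ⟨h3, h4⟩
    rw [← Finset.card_pair hne]
    exact Finset.card_le_card hs
  have nP : ∀ l ∈ P, l ≠ a ∧ l ≠ b := fun l hl => ⟨fun e => ha (e ▸ hP hl), fun e => hb (e ▸ hP hl)⟩
  have nQ : ∀ l ∈ Q, l ≠ a ∧ l ≠ b := fun l hl => ⟨fun e => ha (e ▸ hQ hl), fun e => hb (e ▸ hQ hl)⟩
  -- `c` is a hub or `d` is a hub
  by_cases hc : c = a ∨ c = b
  · -- `d, f` are leaves, `e` is the other hub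
    have hd : d ≠ a ∧ d ≠ b ∧ (c = a → d ∈ P) ∧ (c = b → d ∈ Q) := by
      rcases m1 with ⟨g1, g2⟩ | ⟨g1, g2⟩ | ⟨g1, g2⟩ | ⟨g1, g2⟩
      · exact ⟨(nP d g2).1, (nP d g2).2, fun _ => g2, fun g => absurd (g1.symm.trans g) hab⟩
      · exact absurd hc (not_or.2 (nP c g2))
      · exact ⟨(nQ d g2).1, (nQ d g2).2, fun g => absurd (g.symm.trans g1) hab, fun _ => g2⟩
      · exact absurd hc (not_or.2 (nQ c g2))
    have hf : f ≠ a ∧ f ≠ b ∧ (c = a → f ∈ P) ∧ (c = b → f ∈ Q) := by
      rcases m4 with ⟨g1, g2⟩ | ⟨g1, g2⟩ | ⟨g1, g2⟩ | ⟨g1, g2⟩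
      · exact absurd hc (not_or.2 (nP c g2))
      · exact ⟨(nP f g2).1, (nP f g2).2, fun _ => g2, fun g => absurd (g1.symm.trans g) hab⟩
      · exact absurd hc (not_or.2 (nQ c g2))
      · exact ⟨(nQ f g2).1, (nQ f g2).2, fun g => absurd (g.symm.trans g1) hab, fun _ => g2⟩
    have he : (e = a → d ∈ P ∧ f ∈ P) ∧ (e = b → d ∈ Q ∧ f ∈ Q) ∧ (e = a ∨ e = b) := by
      rcases m2 with ⟨g1, g2⟩ | ⟨g1, g2⟩ | ⟨g1, g2⟩ | ⟨g1, g2⟩
      · exact absurd g1 hd.1
      · rcases m3 with ⟨k1, k2⟩ | ⟨k1, k2⟩ | ⟨k1, k2⟩ | ⟨k1, k2⟩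
        · exact ⟨fun _ => ⟨g2, k2⟩, fun g => absurd (g1.symm.trans g) hab, Or.inl g1⟩
        · exact absurd k1 hf.1
        · exact absurd (g1.symm.trans k1) hab
        · exact absurd k1 hf.2.1
      · exact absurd g1 hd.2.1
      · rcases m3 with ⟨k1, k2⟩ | ⟨k1, k2⟩ | ⟨k1, k2⟩ | ⟨k1, k2⟩
        · exact absurd (k1.symm.trans g1) hab
        · exact absurd k1 hf.1
        · exact ⟨fun g => absurd (g.symm.trans g1) hab, fun _ => ⟨g2, k2⟩, Or.inr g1⟩
        · exact absurd k1 hf.2.1
    rcases hc with hc | hc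
    · have heb : e = b := by
        rcases he.2.2 with g | g
        · exact absurd (hc.trans g.symm) n2
        · exact g
      exact two d f n5 (hd.2.2.1 hc) (he.2.1 heb).1 (hf.2.2.1 hc) (he.2.1 heb).2
    · have hea : e = a := by
        rcases he.2.2 with g | g
        · exact g
        · exact absurd (hc.trans g.symm) n2
      exact two d f n5 (he.1 hea).1 (hd.2.2.2 hc) (he.1 hea).2 (hf.2.2.2 hc)
  · -- `c, e` are leaves, `d, f` are the hubs
    rw [not_or] at hc
    have hd : (d = a ∧ c ∈ P) ∨ (d = b ∧ c ∈ Q) := by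
      rcases m1 with ⟨g1, _⟩ | ⟨g1, g2⟩ | ⟨g1, _⟩ | ⟨g1, g2⟩
      · exact absurd g1 hc.1
      · exact Or.inl ⟨g1, g2⟩
      · exact absurd g1 hc.2
      · exact Or.inr ⟨g1, g2⟩
    have hf : (f = a ∧ c ∈ P) ∨ (f = b ∧ c ∈ Q) := by
      rcases m4 with ⟨g1, g2⟩ | ⟨g1, _⟩ | ⟨g1, g2⟩ | ⟨g1, _⟩
      · exact Or.inl ⟨g1, g2⟩
      · exact absurd g1 hc.1
      · exact Or.inr ⟨g1, g2⟩
      · exact absurd g1 hc.2
    have hed : (d = a → e ∈ P) ∧ (d = b → e ∈ Q) := by
      rcases m2 with ⟨g1, g2⟩ | ⟨g1, g2⟩ | ⟨g1, g2⟩ | ⟨g1, g2⟩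
      · exact ⟨fun _ => g2, fun g => absurd (g1.symm.trans g) hab⟩
      · rcases hd with ⟨k, _⟩ | ⟨k, _⟩
        · exact absurd (k.trans g1.symm) n4
        · exact absurd k (nP d g2).2
      · exact ⟨fun g => absurd (g.symm.trans g1) hab, fun _ => g2⟩
      · rcases hd with ⟨k, _⟩ | ⟨k, _⟩
        · exact absurd k (nQ d g2).1
        · exact absurd (k.trans g1.symm) n4
    have hef : (f = a → e ∈ P) ∧ (f = b → e ∈ Q) := by
      rcases m3 with ⟨g1, g2⟩ | ⟨g1, g2⟩ | ⟨g1, g2⟩ | ⟨g1, g2⟩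
      · rcases hf with ⟨k, _⟩ | ⟨k, _⟩
        · exact absurd (g1.trans k.symm) n6
        · exact absurd k (nP f g2).2
      · exact ⟨fun _ => g2, fun g => absurd (g1.symm.trans g) hab⟩
      · rcases hf with ⟨k, _⟩ | ⟨k, _⟩
        · exact absurd k (nQ f g2).1
        · exact absurd (g1.trans k.symm) n6
      · exact ⟨fun g => absurd (g.symm.trans g1) hab, fun _ => g2⟩
    rcases hd with ⟨k1, k2⟩ | ⟨k1, k2⟩ <;> rcases hf with ⟨k3, k4⟩ | ⟨k3, k4⟩
    · exact absurd (k1.trans k3.symm) n5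
    · exact two c e n2 k2 k4 (hed.1 k1) (hef.2 k3)
    · exact two c e n2 k4 k2 (hef.1 k3) (hed.2 k1)
    · exact absurd (k1.trans k3.symm) n5

/-- two common leaves give a square -/
theorem sq_tw (hab : a ≠ b) (ha : a ∉ L) (hb : b ∉ L) (hP : P ⊆ L) (h : 2 ≤ #(P ∩ Q)) :
    ∃ Z, IsSq Z ∧ Z ⊆ tw a b P Q := by
  obtain ⟨l, hl, l', hl', hne⟩ := Finset.one_lt_card.1 (show 1 < #(P ∩ Q) by omega)
  rw [Finset.mem_inter] at hl hl'
  have n1 : a ≠ l := fun e => ha (e ▸ hP hl.1)
  have n2 : a ≠ l' := fun e => ha (e ▸ hP hl'.1)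
  have n3 : b ≠ l := fun e => hb (e ▸ hP hl.1)
  have n4 : b ≠ l' := fun e => hb (e ▸ hP hl'.1)
  refine ⟨TFC.sq a l b l', ⟨a, l, b, l', ⟨n1, hab, n2, n3.symm, hne, n4⟩, rfl⟩, ?_⟩
  intro e he
  simp only [TFC.sq, Finset.mem_insert, Finset.mem_singleton] at he
  rcases he with rfl | rfl | rfl | rfl
  · exact mem_tw.2 (Or.inl ⟨rfl, hl.1⟩)
  · exact mem_tw.2 (Or.inr (Or.inr (Or.inr ⟨rfl, hl.2⟩)))
  · exact mem_tw.2 (Or.inr (Or.inr (Or.inl ⟨rfl, hl'.2⟩)))
  · exact mem_tw.2 (Or.inr (Or.inl ⟨rfl, hl'.1⟩))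

theorem tw_free (hab : a ≠ b) (ha : a ∉ L) (hb : b ∉ L) (hP : P ⊆ L) (hQ : Q ⊆ L) :
    (∀ Z, IsSq Z → ¬ Z ⊆ tw a b P Q) ↔ #(P ∩ Q) ≤ 1 := by
  constructor
  · intro h
    by_contra hc
    obtain ⟨Z, h1, h2⟩ := sq_tw (Q := Q) hab ha hb hP (by omega)
    exact h Z h1 h2
  · intro h Z h1 h2
    have := tw_sq hab ha hb hP hQ h1 h2
    omega

theorem ind_sum {A : Finset ℕ} (hA : A ⊆ L) : ∑ l ∈ L, (if l ∈ A then (1 : ℤ) else 0) = #A := by
  rw [Finset.sum_ite_mem, Finset.inter_eq_right.2 hA, Finset.sum_const, nsmul_eq_mul, mul_one]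

/-- the description of the degree vectors -/
theorem UJ_iff (hab : a ≠ b) (ha : a ∉ L) (hb : b ∉ L) (x : ℕ → ℤ) :
    UJ a b L x ↔ ∃ P ⊆ L, ∃ Q ⊆ L, #(P ∩ Q) ≤ 1 ∧ x = dv (tw a b P Q) := by
  constructor
  · intro h
    obtain ⟨I, hI⟩ : ∃ I, I = L.filter fun l => x l = 2 := ⟨_, rfl⟩
    obtain ⟨S, hS⟩ : ∃ S, S = L.filter fun l => x l = 1 := ⟨_, rfl⟩
    have mI : ∀ l, l ∈ I ↔ l ∈ L ∧ x l = 2 := fun l => by rw [hI, Finset.mem_filter]
    have mS : ∀ l, l ∈ S ↔ l ∈ L ∧ x l = 1 := fun l => by rw [hS, Finset.mem_filter]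
    have hI1 : #I ≤ 1 := Finset.card_le_one.2 fun l hl l' hl' =>
      h.one l ((mI l).1 hl).1 l' ((mI l').1 hl').1 ((mI l).1 hl).2 ((mI l').1 hl').2
    have hIa : (#I : ℤ) ≤ x a ∧ (#I : ℤ) ≤ x b := by
      rcases Finset.eq_empty_or_nonempty I with h0 | ⟨l, hl⟩
      · rw [h0]
        exact ⟨by simpa using h.na, by simpa using h.nb⟩
      · have := h.dbl l ((mI l).1 hl).1 ((mI l).1 hl).2
        constructor
        · have : (#I : ℤ) ≤ 1 := by exact_mod_cast hI1
          omega
        · have : (#I : ℤ) ≤ 1 := by exact_mod_cast hI1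
          omega
    have hsum : ∑ l ∈ L, x l = 2 * #I + #S := by
      have e1 : ∀ l ∈ L, x l = 2 * (if l ∈ I then (1 : ℤ) else 0) + (if l ∈ S then (1 : ℤ) else 0) := by
        intro l hl
        have r := h.rg l hl
        by_cases g1 : x l = 2
        · have g2 : l ∈ I := (mI l).2 ⟨hl, g1⟩
          have g3 : l ∉ S := fun g => by have := ((mS l).1 g).2; omega
          rw [if_pos g2, if_neg g3, g1]
          norm_num
        · have g2 : l ∉ I := fun g => g1 ((mI l).1 g).2
          rw [if_neg g2]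
          by_cases g3 : x l = 1
          · rw [if_pos ((mS l).2 ⟨hl, g3⟩), g3]
            norm_num
          · rw [if_neg fun g => g3 ((mS l).1 g).2]
            omega
      rw [Finset.sum_congr rfl e1, Finset.sum_add_distrib, ← Finset.mul_sum,
        ind_sum (hI ▸ Finset.filter_subset _ _), ind_sum (hS ▸ Finset.filter_subset _ _)]
    obtain ⟨A, hA1, hA2⟩ : ∃ A ⊆ S, #A = (x a - #I).toNat := by
      refine Finset.exists_subset_card_eq ?_
      have := h.sum
      have := hIa
      omega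
    have dI : Disjoint I S := by
      rw [Finset.disjoint_left]
      intro l h1 h2
      have := ((mI l).1 h1).2
      have := ((mS l).1 h2).2
      omega
    have dA : Disjoint I A := dI.mono_right hA1
    have dB : Disjoint I (S \ A) := dI.mono_right Finset.sdiff_subset
    have hIL : I ⊆ L := hI ▸ Finset.filter_subset _ _
    have hSL : S ⊆ L := hS ▸ Finset.filter_subset _ _
    have hPL : I ∪ A ⊆ L := Finset.union_subset hIL (hA1.trans hSL)
    have hQL : I ∪ (S \ A) ⊆ L := Finset.union_subset hIL (Finset.sdiff_subset.trans hSL)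
    refine ⟨I ∪ A, hPL, I ∪ (S \ A), hQL, ?_, ?_⟩
    · have : (I ∪ A) ∩ (I ∪ (S \ A)) ⊆ I := by
        intro l hl
        rw [Finset.mem_inter, Finset.mem_union, Finset.mem_union, Finset.mem_sdiff] at hl
        rcases hl with ⟨g | g, g' | g'⟩
        · exact g
        · exact g
        · exact g'
        · exact absurd g g'.2
      exact (Finset.card_le_card this).trans hI1
    · funext v
      rw [dv_tw hab ha hb hPL hQL]
      have cP : #(I ∪ A) = #I + #A := Finset.card_union_of_disjoint dA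
      have cQ : #(I ∪ (S \ A)) = #I + (#S - #A) := by
        rw [Finset.card_union_of_disjoint dB, Finset.card_sdiff_of_subset hA1]
      have cAS := Finset.card_le_card hA1
      have hs := h.sum
      by_cases e1 : v = a
      · subst e1
        rw [if_neg fun g => ha (hPL g), if_neg fun g => ha (hQL g), if_pos rfl, if_neg hab, cP]
        push_cast
        have := hIa
        omega
      · by_cases e2 : v = b
        · subst e2
          rw [if_neg fun g => hb (hPL g), if_neg fun g => hb (hQL g), if_neg e1, if_pos rfl, cQ]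
          have := hIa
          push_cast
          omega
        · rw [if_neg e1, if_neg e2]
          by_cases e3 : v ∈ L
          · have r := h.rg v e3
            by_cases g1 : v ∈ I
            · have := ((mI v).1 g1).2
              rw [if_pos (Finset.mem_union_left _ g1), if_pos (Finset.mem_union_left _ g1), this]
              norm_num
            · have g1' : x v ≠ 2 := fun g => g1 ((mI v).2 ⟨e3, g⟩)
              by_cases g2 : v ∈ S
              · have := ((mS v).1 g2).2
                by_cases g3 : v ∈ A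
                · have g4 : v ∉ I ∪ (S \ A) := by
                    rw [Finset.mem_union, Finset.mem_sdiff]
                    rintro (g | g)
                    · exact g1 g
                    · exact g.2 g3
                  rw [if_pos (Finset.mem_union_right _ g3), if_neg g4, this]
                  norm_num
                · have g4 : v ∉ I ∪ A := by
                    rw [Finset.mem_union]
                    rintro (g | g)
                    · exact g1 g
                    · exact g3 g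
                  rw [if_neg g4, if_pos (Finset.mem_union_right _ (Finset.mem_sdiff.2 ⟨g2, g3⟩)), this]
                  norm_num
              · have g2' : x v ≠ 1 := fun g => g2 ((mS v).2 ⟨e3, g⟩)
                have g4 : v ∉ I ∪ A := by
                  rw [Finset.mem_union]
                  rintro (g | g)
                  · exact g1 g
                  · exact g2 (hA1 g)
                have g5 : v ∉ I ∪ (S \ A) := by
                  rw [Finset.mem_union, Finset.mem_sdiff]
                  rintro (g | g)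
                  · exact g1 g
                  · exact g2 g.1
                rw [if_neg g4, if_neg g5]
                omega
          · rw [if_neg fun g => e3 (hPL g), if_neg fun g => e3 (hQL g), h.off v e1 e2 e3]
            rfl
  · rintro ⟨P, hP, Q, hQ, hc, rfl⟩
    have nP : ∀ l ∈ L, l ≠ a ∧ l ≠ b := fun l hl => ⟨fun e => ha (e ▸ hl), fun e => hb (e ▸ hl)⟩
    have key : ∀ l ∈ L, dv (tw a b P Q) l = (if l ∈ P then 1 else 0) + (if l ∈ Q then 1 else 0) := by
      intro l hl
      rw [dv_tw hab ha hb hP hQ, if_neg (nP l hl).1, if_neg (nP l hl).2]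
      simp
    have ka : dv (tw a b P Q) a = #P := by
      rw [dv_tw hab ha hb hP hQ, if_neg fun g => ha (hP g), if_neg fun g => ha (hQ g), if_pos rfl, if_neg hab]
      simp
    have kb : dv (tw a b P Q) b = #Q := by
      rw [dv_tw hab ha hb hP hQ, if_neg fun g => hb (hP g), if_neg fun g => hb (hQ g), if_neg hab.symm, if_pos rfl]
      simp
    have both : ∀ l ∈ L, dv (tw a b P Q) l = 2 → l ∈ P ∩ Q := by
      intro l hl h2
      rw [key l hl] at h2
      rw [Finset.mem_inter]
      by_cases g1 : l ∈ P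
      · by_cases g2 : l ∈ Q
        · exact ⟨g1, g2⟩
        · rw [if_pos g1, if_neg g2] at h2
          norm_num at h2
      · by_cases g2 : l ∈ Q
        · rw [if_neg g1, if_pos g2] at h2
          norm_num at h2
        · rw [if_neg g1, if_neg g2] at h2
          norm_num at h2
    refine ⟨?_, ?_, ?_, ?_, ?_, ?_, ?_⟩
    · intro v g1 g2 g3
      rw [dv_tw hab ha hb hP hQ, if_neg fun g => g3 (hP g), if_neg fun g => g3 (hQ g), if_neg g1, if_neg g2]
      rfl
    · intro l hl
      rw [key l hl]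
      split_ifs <;> norm_num
    · intro l hl l' hl' g g'
      exact Finset.card_le_one.1 hc l (both l hl g) l' (both l' hl' g')
    · rw [ka]; exact Int.natCast_nonneg _
    · rw [kb]; exact Int.natCast_nonneg _
    · intro l hl g
      have h3 := Finset.mem_inter.1 (both l hl g)
      rw [ka, kb]
      have h4 : 0 < #P := Finset.card_pos.2 ⟨l, h3.1⟩
      have h5 : 0 < #Q := Finset.card_pos.2 ⟨l, h3.2⟩
      omega
    · rw [ka, kb, Finset.sum_congr rfl key, Finset.sum_add_distrib, ind_sum hP, ind_sum hQ]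

/-- **the square-free edge sets of a cluster `K2(a, b; L)` (no bound on the degrees) form a jump set** -/
theorem jb_k2 (hv : (Clu.k2 a b L).Valid) :
    XC.JB (fun x => ∃ K ⊆ (Clu.k2 a b L).edges, (∀ Z, IsSq Z → ¬ Z ⊆ K) ∧ x = dv K) := by
  obtain ⟨hab, ha, hb, -⟩ := hv
  have e : (fun x => ∃ K ⊆ (Clu.k2 a b L).edges, (∀ Z, IsSq Z → ¬ Z ⊆ K) ∧ x = dv K) = UJ a b L := by
    funext x
    rw [UJ_iff hab ha hb]
    apply propext
    constructor
    · rintro ⟨K, hK, h1, rfl⟩
      have h2 := tw_of hK hab ha hb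
      rw [h2] at h1
      exact ⟨_, Finset.filter_subset _ _, _, Finset.filter_subset _ _,
        (tw_free hab ha hb (Finset.filter_subset _ _) (Finset.filter_subset _ _)).1 h1, by rw [← h2]⟩
    · rintro ⟨P, hP, Q, hQ, hc, rfl⟩
      exact ⟨_, tw_sub hP hQ, (tw_free hab ha hb hP hQ).2 hc, rfl⟩
  rw [e]
  exact jb_UJ hab ha hb

end

end Pool.Agent.PF4.XU
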