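import Pool.Agent.PF4.XT
import Pool.Agent.PF4.XUK
import Pool.Agent.PF4.X5A

/-!
Replacing the part of a witness in a cluster; the types of the leaves of a cluster with a square which is not in the family;
the corners of a `K4` cluster.
-/

set_option autoImplicit false

namespace Pool.Agent.PF4.XT

open Finset Pool.Agent.TFC Pool.Agent.PF4 Pool.Agent.PF4.XF Pool.Agent.PF4.XU

/-- every edge of a cluster meets every square of the cluster -/
theorem cl_touch {c : Clu ℕ} (hc : c.Valid) {Z : Finset (Sym2 ℕ)} (hZ : IsSq Z) (hs : Z ⊆ c.edges) {e : Sym2 ℕ}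
    (he : e ∈ c.edges) : ∃ f ∈ Z, ∃ v, v ∈ e ∧ v ∈ f := by
  obtain ⟨x, y, q, p, h4, rfl⟩ := hZ
  have k : ∀ v, (v = x ∨ v = y ∨ v = q ∨ v = p) → ∃ f ∈ TFC.sq x y q p, v ∈ f := by
    rintro v (rfl | rfl | rfl | rfl)
    · exact ⟨s(v, y), by simp [TFC.sq], by simp⟩
    · exact ⟨s(v, q), by simp [TFC.sq], by simp⟩
    · exact ⟨s(v, p), by simp [TFC.sq], by simp⟩
    · exact ⟨s(v, x), by simp [TFC.sq], by simp⟩
  have k' : ∀ v, v ∈ e → (v = x ∨ v = y ∨ v = q ∨ v = p) → ∃ f ∈ TFC.sq x y q p, ∃ v, v ∈ e ∧ v ∈ f := by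
    intro v hv h
    obtain ⟨f, hf, hvf⟩ := k v h
    exact ⟨f, hf, v, hv, hvf⟩
  induction e using Sym2.ind with
  | _ a b =>
  rcases shape hc h4 hs with rfl | ⟨L, rfl | rfl, _⟩ | ⟨L, rfl | rfl, _⟩
  · rw [mem_k4] at he
    have h1 := he.1
    simp only [mem_insert, mem_singleton] at h1
    exact k' a (by simp) h1
  all_goals
    rw [mem_k2] at he
    rcases he with ⟨h1 | h1, _⟩ | ⟨h1 | h1, _⟩
    · exact k' a (by simp) (by tauto)
    · exact k' a (by simp) (by tauto)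
    · exact k' b (by simp) (by tauto)
    · exact k' b (by simp) (by tauto)

/-- the part in the cluster of a 2-matching which contains a square of the cluster is this square -/
theorem inter_eq {c : Clu ℕ} (hc : c.Valid) {Z L : Finset (Sym2 ℕ)} (hZ : IsSq Z) (hs : Z ⊆ c.edges) (hL : M2 L)
    (hZL : Z ⊆ L) : L ∩ c.edges = Z := by
  refine Finset.Subset.antisymm ?_ (Finset.subset_inter hZL hs)
  intro e he
  obtain ⟨h1, h2⟩ := mem_inter.1 he
  obtain ⟨f, hf, v, hve, hvf⟩ := cl_touch hc hZ hs h2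
  exact sq_closed hL hZ hZL hf hvf h1 hve

theorem IsSq.ne {Z : Finset (Sym2 ℕ)} (h : IsSq Z) : ∃ e, e ∈ Z := by
  obtain ⟨a, b, c, d, _, rfl⟩ := h
  exact ⟨s(a, b), by simp [TFC.sq]⟩

theorem IsSq.card {Z : Finset (Sym2 ℕ)} (h : IsSq Z) : #Z = 4 := by
  obtain ⟨a, b, c, d, h4, rfl⟩ := h
  exact R4_card_sq h4

/-- replace the part in `C` by `K` -/
theorem dv_rep {F C K : Finset (Sym2 ℕ)} (hK : K ⊆ C) : dv ((F \ C) ∪ K) = dv F - dv (F ∩ C) + dv K := by
  rw [XT.dv_union (disjoint_sdiff_self_left.mono_right hK)]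
  have h1 := XT.dv_union (O := F \ C) (K := F ∩ C) (disjoint_sdiff_inter F C)
  rw [Finset.sdiff_union_inter] at h1
  rw [h1]
  abel

/-- the degree vector of a square -/
theorem dv_sq {a b c d : ℕ} (h : Dist4 a b c d) :
    dv (TFC.sq a b c d) = ev a + ev a + ev b + ev b + ev c + ev c + ev d + ev d := by
  obtain ⟨ab, ac, ad, bc, bd, cd⟩ := h
  have n1 : s(c, d) ∉ ({s(d, a)} : Finset (Sym2 ℕ)) := by
    simp only [mem_singleton, Sym2.eq_iff]
    rintro (⟨h1, _⟩ | ⟨h1, _⟩)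
    · exact cd h1
    · exact ac h1.symm
  have n2 : s(b, c) ∉ ({s(c, d), s(d, a)} : Finset (Sym2 ℕ)) := by
    simp only [mem_insert, mem_singleton, Sym2.eq_iff]
    rintro ((⟨h1, _⟩ | ⟨h1, _⟩) | (⟨h1, _⟩ | ⟨h1, _⟩))
    · exact bc h1
    · exact bd h1
    · exact bd h1
    · exact ab h1.symm
  have n3 : s(a, b) ∉ ({s(b, c), s(c, d), s(d, a)} : Finset (Sym2 ℕ)) := by
    simp only [mem_insert, mem_singleton, Sym2.eq_iff]
    rintro ((⟨h1, _⟩ | ⟨h1, _⟩) | (⟨h1, _⟩ | ⟨h1, _⟩) | (⟨h1, _⟩ | ⟨_, h1⟩))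
    · exact ab h1
    · exact ac h1
    · exact ac h1
    · exact ad h1
    · exact ad h1
    · exact bd h1
  rw [TFC.sq, TFC.dv_insert ab n3, TFC.dv_insert bc n2, TFC.dv_insert cd n1, XT.dv_pair (Ne.symm ad)]
  show ev d + ev a + ev c + ev d + ev b + ev c + ev a + ev b = _
  abel

/-- a square, written from one of its corners -/
theorem sq_at {Z : Finset (Sym2 ℕ)} (hZ : IsSq Z) {e : Sym2 ℕ} (he : e ∈ Z) {v : ℕ} (hv : v ∈ e) :
    ∃ a b c, Dist4 v a b c ∧ Z = TFC.sq v a b c := by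
  obtain ⟨x, y, q, p, h4, rfl⟩ := hZ
  obtain ⟨xy, xq, xp, yq, yp, qp⟩ := h4
  have hc : v = x ∨ v = y ∨ v = q ∨ v = p := by
    simp only [TFC.sq, mem_insert, mem_singleton] at he
    rcases he with rfl | rfl | rfl | rfl <;> rw [Sym2.mem_iff] at hv <;> tauto
  rcases hc with rfl | rfl | rfl | rfl
  · exact ⟨y, q, p, ⟨xy, xq, xp, yq, yp, qp⟩, rfl⟩
  · exact ⟨q, p, x, ⟨yq, yp, Ne.symm xy, qp, Ne.symm xq, Ne.symm xp⟩, sq_rot _ _ _ _⟩
  · exact ⟨p, x, y, ⟨qp, Ne.symm xq, Ne.symm yq, Ne.symm xp, Ne.symm yp, xy⟩, by rw [sq_rot, sq_rot]⟩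
  · exact ⟨x, y, q, ⟨Ne.symm xp, Ne.symm yp, Ne.symm qp, xy, xq, yq⟩, by rw [sq_rot, sq_rot, sq_rot]⟩

section
variable {X : XD} {P : ℕ → Finset (Sym2 ℕ) → Prop} {D : Finset (Finset (Sym2 ℕ))} {j : ℕ} {S : Finset ℕ}
  {M : ℕ → Finset (Sym2 ℕ)} {A : Clu ℕ → Finset (Sym2 ℕ) → Prop} {CL U : List (Clu ℕ)} {PL : Finset (Sym2 ℕ)}
  {pl mi : ℕ → Prop}

theorem PW.cW (_ : PW X P D j S M A CL U PL pl mi) {c : Clu ℕ} (hc : c ∈ U) : c.edges ⊆ Ucl U ∪ PL :=
  fun _ he => mem_union_left _ (mem_Ucl.2 ⟨c, hc, he⟩)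

theorem PW.cU (_ : PW X P D j S M A CL U PL pl mi) {c : Clu ℕ} (hc : c ∈ U) : c.edges ⊆ Ucl U :=
  fun _ he => mem_Ucl.2 ⟨c, hc, he⟩

theorem PW.djc (h : PW X P D j S M A CL U PL pl mi) {c c' : Clu ℕ} (hc : c ∈ U) (hc' : c' ∈ U) (hne : c ≠ c') :
    Disjoint c.edges c'.edges := by
  rw [Finset.disjoint_left]
  intro e he he'
  exact hne (h.cls.eq ((h.uc c).1 hc).1 ((h.uc c').1 hc').1 he he')

theorem PW.val (h : PW X P D j S M A CL U PL pl mi) {c : Clu ℕ} (hc : c ∈ U) : c.Valid :=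
  h.cls.val c ((h.uc c).1 hc).1

theorem PW.nl (h : PW X P D j S M A CL U PL pl mi) {K : Finset (Sym2 ℕ)} (hK : K ⊆ Ucl U ∪ PL) : NoLoop K :=
  fun e he => h.ok.nl e (h.ok.e2 (h.w2 (hK he)))

theorem PW.v2 (h : PW X P D j S M A CL U PL pl mi) {c : Clu ℕ} (hc : c ∈ U) {e : Sym2 ℕ} (he : e ∈ c.edges) {v : ℕ}
    (hv : v ∈ e) : v ∈ X.V2 :=
  h.ok.ev e (h.w2 (h.cW hc he)) v hv

/-- restrictions to the clusters of a set which is changed only in the cluster `c0` -/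
theorem AU_rep (h : PW X P D j S M A CL U PL pl mi) {c0 : Clu ℕ} (h0 : c0 ∈ U) {F K0 : Finset (Sym2 ℕ)}
    (hF : F ⊆ Ucl U ∪ PL) (hK0 : K0 ⊆ c0.edges) (hA0 : A c0 K0) (hA : ∀ c ∈ U, c ≠ c0 → A c (F ∩ c.edges)) :
    AU A U PL ((F \ c0.edges) ∪ K0) := by
  refine ⟨union_subset (sdiff_subset.trans hF) (hK0.trans (h.cW h0)), fun c hc => ?_⟩
  by_cases hcc : c = c0
  · subst hcc
    have e : ((F \ c.edges) ∪ K0) ∩ c.edges = K0 := by
      rw [union_inter_distrib_right, sdiff_inter_self, empty_union, inter_eq_left.2 hK0]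
    rw [e]
    exact hA0
  · have hd := h.djc hc h0 hcc
    have e : ((F \ c0.edges) ∪ K0) ∩ c.edges = F ∩ c.edges := by
      ext e
      simp only [mem_inter, mem_union, mem_sdiff]
      constructor
      · rintro ⟨h1 | h1, h2⟩
        · exact ⟨h1.1, h2⟩
        · exact absurd (hK0 h1) (disjoint_left.1 hd h2)
      · rintro ⟨h1, h2⟩
        exact ⟨Or.inl ⟨h1, disjoint_left.1 hd h2⟩, h2⟩
    rw [e]
    exact hA c hc hcc

/-- **replace a square of the family by another allowed set in the same cluster** -/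
theorem PW.repl (h : PW X P D j S M A CL U PL pl mi) {c0 : Clu ℕ} (h0 : c0 ∈ U)
    (hA : ∀ c ∈ U, c ≠ c0 → A c = Acap D) {Z : Finset (Sym2 ℕ)} (hZ : Z ∈ D) (hs : Z ⊆ c0.edges)
    {K0 : Finset (Sym2 ℕ)} (hK0 : K0 ⊆ c0.edges) (hK0A : A c0 K0) : 1 ≤ ph X.V2 pl mi (dv K0 - dv Z) := by
  obtain ⟨L, _, _, hM, hE, hZL, hu, hph⟩ := h.wit hZ (hs.trans (h.cU h0))
  have h1 := hph _ (AU_rep h h0 (F := L ∩ (Ucl U ∪ PL)) inter_subset_right hK0 hK0A (by
    intro c hc hcc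
    have e : L ∩ (Ucl U ∪ PL) ∩ c.edges = L ∩ c.edges := by
      rw [inter_assoc, inter_eq_right.2 (h.cW hc)]
    rw [e, hA c hc hcc]
    refine ⟨hM.mono inter_subset_left, fun Z' hZ' hs' => ?_⟩
    have h2 := hu Z' hZ' (hs'.trans inter_subset_left)
    subst h2
    obtain ⟨e, he⟩ := IsSq.ne (h.isq Z' hZ')
    exact disjoint_left.1 (h.djc hc h0 hcc) (mem_inter.1 (hs' he)).2 (hs he)))
  rw [dv_rep hK0] at h1
  have e : L ∩ (Ucl U ∪ PL) ∩ c0.edges = Z := by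
    rw [inter_assoc, inter_eq_right.2 (h.cW h0)]
    exact inter_eq (h.val h0) (h.isq Z hZ) hs hM hZL
  rw [e] at h1
  have e2 : dv (L ∩ (Ucl U ∪ PL)) - dv Z + dv K0 - dv (L ∩ (Ucl U ∪ PL)) = dv K0 - dv Z := by abel
  rwa [e2] at h1

/-- squares of the family are 2-matchings -/
theorem PW.m2Z (h : PW X P D j S M A CL U PL pl mi) {c0 : Clu ℕ} (h0 : c0 ∈ U) {Z : Finset (Sym2 ℕ)} (hZ : Z ∈ D)
    (hs : Z ⊆ c0.edges) : M2 Z := by
  obtain ⟨L, _, _, hM, _, hZL, _⟩ := h.wit hZ (hs.trans (h.cU h0))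
  exact hM.mono hZL

/-- fewer than four edges contain no square of the family -/
theorem PW.free_card (h : PW X P D j S M A CL U PL pl mi) {K : Finset (Sym2 ℕ)} (hK : #K < 4) :
    ∀ Z ∈ D, ¬ Z ⊆ K := fun Z hZ => sf_of_card hK Z (h.isq Z hZ)

/-- **adjacent corners of a square of the family** -/
theorem PW.adj (h : PW X P D j S M A CL U PL pl mi) {c0 : Clu ℕ} (h0 : c0 ∈ U)
    (hA : ∀ c ∈ U, A c = Acap D) {Z : Finset (Sym2 ℕ)} (hZ : Z ∈ D) (hs : Z ⊆ c0.edges) {a b : ℕ} (hab : s(a, b) ∈ Z) :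
    1 ≤ con (pl a) (mi a) (-1) + con (pl b) (mi b) (-1) := by
  have hn := h.nl ((hs.trans (h.cW h0)))
  have hne : a ≠ b := hn.ne hab
  have h1 := h.repl h0 (fun c hc _ => hA c hc) hZ hs ((erase_subset s(a, b) Z).trans hs) (by
    rw [hA c0 h0]
    refine ⟨(h.m2Z h0 hZ hs).mono (erase_subset _ _), h.free_card ?_⟩
    rw [card_erase_of_mem hab, IsSq.card (h.isq Z hZ)]
    norm_num)
  have e : dv (Z.erase s(a, b)) - dv Z = Pi.single a (-1) + Pi.single b (-1) := by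
    rw [TFC.dv_erase hne hab]
    have e1 : (Pi.single a (-1) : ℕ → ℤ) = -ev a := by rw [Pi.single_neg]; rfl
    have e2 : (Pi.single b (-1) : ℕ → ℤ) = -ev b := by rw [Pi.single_neg]; rfl
    rw [e1, e2]
    abel
  rw [e, ph_two (h.v2 h0 (hs hab) (by simp)) (h.v2 h0 (hs hab) (by simp)) hne] at h1
  exact h1

/-- no corner of a square of the family has type Y -/
theorem PW.notY (h : PW X P D j S M A CL U PL pl mi) {c0 : Clu ℕ} (h0 : c0 ∈ U)
    (hA : ∀ c ∈ U, A c = Acap D) {Z : Finset (Sym2 ℕ)} (hZ : Z ∈ D) (hs : Z ⊆ c0.edges) {a b : ℕ} (hab : s(a, b) ∈ Z) :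
    pl a → mi a := by
  intro hp
  by_contra hm
  have h1 := h.adj h0 hA hZ hs hab
  rw [con_Y hp hm] at h1
  have h2 := con_neg_one (pl b) (mi b)
  omega

/-- a corner of a `K4` cluster has type X -/
theorem PW.k4X (h : PW X P D j S M A CL U PL pl mi) {Y : Finset ℕ} (h0 : Clu.k4 Y ∈ U)
    (hA : ∀ c ∈ U, c ≠ Clu.k4 Y → A c = Acap D) (hA0 : A (Clu.k4 Y) = Acap D) {v : ℕ} (hv : v ∈ Y) :
    mi v ∧ ¬ pl v := by
  have hval : #Y = 4 := h.val h0
  obtain ⟨a₀, ha₀⟩ : (Y.erase v).Nonempty := by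
    rw [← card_pos, card_erase_of_mem hv, hval]; norm_num
  simp only [mem_erase] at ha₀
  -- a square of the family in the cluster
  obtain ⟨Z, hZ, he, hs⟩ := h.cls.edge_sq ((h.uc _).1 h0).1 (f := s(v, a₀)) (mem_k4.2 ⟨hv, ha₀.2, Ne.symm ha₀.1⟩)
  obtain ⟨a, b, c, h4, rfl⟩ := sq_at (v := v) (h.isq Z hZ) he (by simp)
  have dZ := dv_sq h4
  obtain ⟨va, vb, vc, ab, ac, bc⟩ := h4
  have e1 : s(a, b) ∈ (Clu.k4 Y).edges := hs (by simp [TFC.sq])
  have e2 : s(b, c) ∈ (Clu.k4 Y).edges := hs (by simp [TFC.sq])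
  rw [mem_k4] at e1 e2
  -- the triangle
  set K : Finset (Sym2 ℕ) := {s(a, b), s(b, c), s(a, c)} with hK
  have n1 : s(b, c) ∉ ({s(a, c)} : Finset (Sym2 ℕ)) := by
    simp only [mem_singleton, Sym2.eq_iff]
    rintro (⟨h1, _⟩ | ⟨h1, _⟩)
    · exact ab h1.symm
    · exact bc h1
  have n2 : s(a, b) ∉ ({s(b, c), s(a, c)} : Finset (Sym2 ℕ)) := by
    simp only [mem_insert, mem_singleton, Sym2.eq_iff]
    rintro ((⟨h1, _⟩ | ⟨h1, _⟩) | (⟨_, h1⟩ | ⟨h1, _⟩))
    · exact ab h1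
    · exact ac h1
    · exact bc h1
    · exact ac h1
  have hKc : K ⊆ (Clu.k4 Y).edges := by
    intro e he
    simp only [hK, mem_insert, mem_singleton] at he
    rcases he with rfl | rfl | rfl
    · exact mem_k4.2 e1
    · exact mem_k4.2 e2
    · exact mem_k4.2 ⟨e1.1, e2.2.1, ac⟩
  have dK : dv K = ev a + ev a + ev b + ev b + ev c + ev c := by
    rw [hK, TFC.dv_insert ab n2, TFC.dv_insert bc n1, XT.dv_pair ac]
    show ev a + ev c + ev b + ev c + ev a + ev b = _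
    abel
  have h1 := h.repl h0 hA hZ hs hKc (by
    rw [hA0]
    refine ⟨M2.of_dv (h.nl (hKc.trans (h.cW h0))) ?_, h.free_card ?_⟩
    · intro w
      rw [dK]
      simp only [Pi.add_apply, ev_apply]
      split_ifs <;> simp_all
    · rw [hK, card_insert_of_notMem n2, card_insert_of_notMem n1, card_singleton]
      norm_num)
  have e : dv K - dv (TFC.sq v a b c) = Pi.single v (-2) := by
    rw [dK, dZ]
    have e1 : (Pi.single v (-2) : ℕ → ℤ) = -ev v - ev v := by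
      funext w
      simp only [Pi.sub_apply, Pi.neg_apply, ev_apply, Pi.single_apply]
      split_ifs <;> norm_num
    rw [e1]
    abel
  have hv2 : v ∈ X.V2 := h.v2 h0 (hs he) (by simp)
  rw [e, ph_one hv2] at h1
  unfold con at h1
  split_ifs at h1 with p1 p2 p2
  · norm_num at h1
  · norm_num at h1
  · exact ⟨p2, p1⟩
  · norm_num at h1

/-! ### clusters with two hubs -/

/-- the square with two given leaves -/
theorem sq_tw {u v b c : ℕ} : TFC.sq u b v c = tw u v {b, c} {b, c} := by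
  ext e
  induction e using Sym2.ind with
  | _ p q =>
    rw [mem_tw]
    simp only [TFC.sq, mem_insert, mem_singleton, Sym2.eq_iff]
    tauto

/-- the leaves: facts on one leaf exchange -/
theorem PW.leaf (h : PW X P D j S M A CL U PL pl mi) {u v : ℕ} {L : Finset ℕ} (h0 : Clu.k2 u v L ∈ U)
    (hA : ∀ c ∈ U, A c = Acap D) {b c l : ℕ} (hb : b ∈ L) (hc : c ∈ L) (hl : l ∈ L) (bc : b ≠ c) (bl : b ≠ l)
    (cl : c ≠ l) (hD : TFC.sq u c v l ∈ D) : 1 ≤ con (pl c) (mi c) (-1) + con (pl b) (mi b) 1 := by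
  obtain ⟨uv, uL, vL, _⟩ : u ≠ v ∧ u ∉ L ∧ v ∉ L ∧ 2 ≤ #L := h.val h0
  have s1 : ({b, l} : Finset ℕ) ⊆ L := by
    intro w hw
    simp only [mem_insert, mem_singleton] at hw
    rcases hw with rfl | rfl <;> assumption
  have s2 : ({c, l} : Finset ℕ) ⊆ L := by
    intro w hw
    simp only [mem_insert, mem_singleton] at hw
    rcases hw with rfl | rfl <;> assumption
  have hK : tw u v {b, l} {c, l} ⊆ (Clu.k2 u v L).edges := tw_sub s1 s2
  have hZ : TFC.sq u c v l ⊆ (Clu.k2 u v L).edges := by rw [sq_tw]; exact tw_sub s2 s2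
  have c1 : #({b, l} : Finset ℕ) = 2 := card_pair bl
  have c2 : #({c, l} : Finset ℕ) = 2 := card_pair cl
  have d1 := fun w => dv_tw uv uL vL s1 s2 w
  have d2 := fun w => dv_tw uv uL vL s2 s2 w
  rw [c1, c2] at d1
  rw [c2] at d2
  simp only [mem_insert, mem_singleton] at d1 d2
  have h1 := h.repl h0 (fun c hc _ => hA c hc) hD hZ hK (by
    rw [hA _ h0]
    refine ⟨M2.of_dv (h.nl (hK.trans (h.cW h0))) ?_, ?_⟩
    · intro w
      rw [d1]
      have w1 : w = u → w ∉ L := fun e => e ▸ uL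
      have w2 : w = v → w ∉ L := fun e => e ▸ vL
      have w3 : w = b → w ∈ L := fun e => e ▸ hb
      have w4 : w = c → w ∈ L := fun e => e ▸ hc
      have w5 : w = l → w ∈ L := fun e => e ▸ hl
      by_cases e1 : w = b <;> by_cases e2 : w = c <;> by_cases e3 : w = l <;> by_cases e4 : w = u <;>
        by_cases e5 : w = v <;> simp_all
    · intro Z hZ hs
      refine (tw_free uv uL vL s1 s2).2 ?_ Z (h.isq Z hZ) hs
      rw [card_le_one]
      intro a ha b' hb'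
      simp only [mem_inter, mem_insert, mem_singleton] at ha hb'
      rcases ha with ⟨rfl | rfl, h1 | h1⟩ <;> rcases hb' with ⟨rfl | rfl, h2 | h2⟩ <;> simp_all)
  have e : dv (tw u v {b, l} {c, l}) - dv (TFC.sq u c v l) = Pi.single c (-1) + Pi.single b 1 := by
    rw [sq_tw]
    funext w
    rw [Pi.sub_apply, d1, d2, Pi.add_apply, Pi.single_apply, Pi.single_apply]
    by_cases e1 : w = b <;> by_cases e2 : w = c <;> by_cases e3 : w = l <;> simp_all
  have vc : c ∈ X.V2 := h.v2 h0 (hZ (by simp [TFC.sq] : s(u, c) ∈ TFC.sq u c v l)) (by simp)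
  have vb : b ∈ X.V2 := h.v2 h0 (hK (mem_tw.2 (Or.inl ⟨rfl, by simp⟩) : s(u, b) ∈ tw u v {b, l} {c, l})) (by simp)
  rw [e, ph_two vc vb bc.symm] at h1
  exact h1

/-- a leaf which is missing in a square of the family does not have type X -/
theorem PW.leaf_notX (h : PW X P D j S M A CL U PL pl mi) {u v : ℕ} {L : Finset ℕ} (h0 : Clu.k2 u v L ∈ U)
    (hA : ∀ c ∈ U, A c = Acap D) {b c l : ℕ} (hb : b ∈ L) (hc : c ∈ L) (hl : l ∈ L) (bc : b ≠ c) (bl : b ≠ l)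
    (cl : c ≠ l) (hD : TFC.sq u c v l ∈ D) (hm : mi b) : pl b := by
  by_contra hp
  have h1 := h.leaf h0 hA hb hc hl bc bl cl hD
  rw [con_X hp hm] at h1
  have h2 := con_neg_one (pl c) (mi c)
  omega

/-- squares in a cluster with two hubs -/
theorem k2_sq {u v : ℕ} {L : Finset ℕ} (hv : (Clu.k2 u v L).Valid) {Z : Finset (Sym2 ℕ)} (hZ : IsSq Z)
    (hs : Z ⊆ (Clu.k2 u v L).edges) {b : ℕ} (he : s(u, b) ∈ Z) :
    ∃ l ∈ L, b ∈ L ∧ l ≠ b ∧ Z = TFC.sq u b v l := by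
  obtain ⟨a, v', c, h4, rfl⟩ := sq_at (v := u) hZ he (by simp)
  have hd := h4
  obtain ⟨n1, n2, n3, n4, n5, n6⟩ := hd
  rcases shape hv h4 hs with h | ⟨L', h | h, h1, h2, h3, h5⟩ | ⟨L', h | h, h1, h2, h3, h5⟩
  · cases h
  · injection h with _ e1 e2
    subst e1 e2
    simp only [TFC.sq, mem_insert, mem_singleton, Sym2.eq_iff] at he
    have hb : b = a ∨ b = c := by
      rcases he with (⟨_, h⟩ | ⟨h, _⟩) | (⟨h, _⟩ | ⟨h, _⟩) | (⟨h, _⟩ | ⟨h, _⟩) | (⟨h, _⟩ | ⟨_, h⟩)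
      · exact Or.inl h
      · exact absurd h n1
      · exact absurd h n1
      · exact absurd h n2
      · exact absurd h n2
      · exact absurd h n3
      · exact absurd h n3
      · exact Or.inr h
    rcases hb with rfl | rfl
    · exact ⟨c, h2, h1, n5.symm, rfl⟩
    · exact ⟨a, h1, h2, n5, by rw [sq_ref, sq_rot, sq_rot, sq_rot]⟩
  · injection h with e0
    exact absurd e0 n2
  · injection h with e0
    exact absurd e0 n1
  · injection h with e0
    exact absurd e0 n3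

/-- **a square of the cluster which is not in the family**: the centre `e` has type X, the leaves `b`, `c` have not -/
theorem PW.star (h : PW X P D j S M A CL U PL pl mi) {u v : ℕ} {L : Finset ℕ} (h0 : Clu.k2 u v L ∈ U)
    (hA : ∀ c ∈ U, A c = Acap D) {b c : ℕ} (hb : b ∈ L) (hc : c ∈ L) (bc : b ≠ c) (hD : TFC.sq u b v c ∉ D) :
    ∃ e ∈ L, e ≠ b ∧ e ≠ c ∧ (mi e ∧ ¬ pl e) ∧ (mi b → pl b) ∧ (mi c → pl c) := by
  obtain ⟨uv, uL, vL, _⟩ : u ≠ v ∧ u ∉ L ∧ v ∉ L ∧ 2 ≤ #L := h.val h0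
  have swp : ∀ a d : ℕ, TFC.sq u a v d = TFC.sq u d v a := fun a d => by rw [sq_ref, sq_rot, sq_rot, sq_rot]
  -- every leaf is in a square of the family
  have par : ∀ b ∈ L, ∃ l ∈ L, l ≠ b ∧ TFC.sq u b v l ∈ D := by
    intro b hb
    obtain ⟨Z, hZ, he, hs⟩ := h.cls.edge_sq ((h.uc _).1 h0).1 (f := s(u, b)) (mem_k2.2 (Or.inl ⟨Or.inl rfl, hb⟩))
    obtain ⟨l, hl, _, hlb, rfl⟩ := k2_sq (h.val h0) (h.isq Z hZ) hs he
    exact ⟨l, hl, hlb, hZ⟩
  obtain ⟨e, he, heb, hbe⟩ := par b hb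
  obtain ⟨l, hl, hlc, hcl⟩ := par c hc
  have hec : e ≠ c := by
    rintro rfl
    exact hD hbe
  have hlb : l ≠ b := by
    rintro rfl
    exact hD (by rw [swp]; exact hcl)
  have hbX : mi b → pl b := h.leaf_notX h0 hA hb hc hl bc hlb.symm hlc.symm hcl
  have hcX : mi c → pl c := h.leaf_notX h0 hA hc hb he bc.symm hec.symm heb.symm hbe
  have two : ∀ a d : ℕ, a ∈ L → d ∈ L → ({a, d} : Finset ℕ) ⊆ L := by
    intro a d ha hd w hw
    simp only [mem_insert, mem_singleton] at hw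
    rcases hw with rfl | rfl <;> assumption
  have cY : ∀ c ∈ L, pl c → mi c := by
    intro c hc
    obtain ⟨l, hl, _, hD'⟩ := par c hc
    refine h.notY h0 hA hD' (by rw [sq_tw]; exact tw_sub (two _ _ hc hl) (two _ _ hc hl)) (a := c) (b := u) ?_
    simp [TFC.sq, Sym2.eq_swap]
  -- replace the leaf `a` by the leaf `d`
  have rep : ∀ a d k : ℕ, a ∈ L → d ∈ L → k ∈ L → a ≠ d → a ≠ k → d ≠ k → TFC.sq u a v k ∈ D →
      TFC.sq u d v k ∉ D → 1 ≤ con (pl a) (mi a) (-2) + con (pl d) (mi d) 2 := by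
    intro a d k ha hd hk ad ak dk h1 h2
    have hK : TFC.sq u d v k ⊆ (Clu.k2 u v L).edges := by rw [sq_tw]; exact tw_sub (two _ _ hd hk) (two _ _ hd hk)
    have hZ : TFC.sq u a v k ⊆ (Clu.k2 u v L).edges := by rw [sq_tw]; exact tw_sub (two _ _ ha hk) (two _ _ ha hk)
    have ne : ∀ w ∈ L, u ≠ w ∧ v ≠ w := fun w hw => ⟨fun e => uL (e ▸ hw), fun e => vL (e ▸ hw)⟩
    have d4 : Dist4 u d v k := ⟨(ne d hd).1, uv, (ne k hk).1, (ne d hd).2.symm, dk, (ne k hk).2⟩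
    have d4' : Dist4 u a v k := ⟨(ne a ha).1, uv, (ne k hk).1, (ne a ha).2.symm, ak, (ne k hk).2⟩
    have h3 := h.repl h0 (fun c hc _ => hA c hc) h1 hZ hK (by
      rw [hA _ h0]
      refine ⟨M2.of_dv (h.nl (hK.trans (h.cW h0))) ?_, ?_⟩
      · intro w
        rw [dv_sq d4]
        obtain ⟨m1, m2, m3, m4, m5, m6⟩ := d4
        simp only [Pi.add_apply, ev_apply]
        split_ifs <;> simp_all
      · intro Z hZ' hs
        have h4 : Z = TFC.sq u d v k := eq_of_subset_of_card_le hs (by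
          rw [IsSq.card (h.isq Z hZ'), R4_card_sq d4])
        exact h2 (h4 ▸ hZ'))
    have e : dv (TFC.sq u d v k) - dv (TFC.sq u a v k) = Pi.single a (-2) + Pi.single d 2 := by
      rw [dv_sq d4, dv_sq d4']
      have e1 : (Pi.single a (-2) : ℕ → ℤ) = -ev a - ev a := by
        funext w
        simp only [Pi.sub_apply, Pi.neg_apply, ev_apply, Pi.single_apply]
        split_ifs <;> norm_num
      have e2 : (Pi.single d 2 : ℕ → ℤ) = ev d + ev d := by
        funext w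
        simp only [Pi.add_apply, ev_apply, Pi.single_apply]
        split_ifs <;> norm_num
      rw [e1, e2]
      abel
    have va : a ∈ X.V2 := h.v2 h0 (hZ (by simp [TFC.sq] : s(u, a) ∈ TFC.sq u a v k)) (by simp)
    have vd : d ∈ X.V2 := h.v2 h0 (hK (by simp [TFC.sq] : s(u, d) ∈ TFC.sq u d v k)) (by simp)
    rw [e, ph_two va vd ad] at h3
    exact h3
  -- values of the form
  have v1 : ∀ d, (pl d → mi d) → con (pl d) (mi d) 2 ≤ 0 := by
    intro d hd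
    unfold con
    split_ifs with p1 p2 p2
    · norm_num
    · exact absurd (hd p1) p2
    · norm_num
    · norm_num
  have v2 : ∀ d, 1 ≤ con (pl d) (mi d) (-2) → mi d ∧ ¬ pl d := by
    intro d hd
    unfold con at hd
    split_ifs at hd with p1 p2 p2
    · norm_num at hd
    · norm_num at hd
    · exact ⟨p2, p1⟩
    · norm_num at hd
  have hce : TFC.sq u c v e ∈ D := by
    by_contra hn
    have h1 := rep b c e hb hc he bc heb.symm hec.symm hbe hn
    have h2 := v1 c (cY c hc)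
    obtain ⟨h3, h4⟩ := v2 b (by omega)
    exact h4 (hbX h3)
  refine ⟨e, he, heb, hec, ?_, hbX, hcX⟩
  have h1 := rep e c b he hc hb hec heb bc.symm (by rw [swp]; exact hbe) (by rw [swp]; exact hD)
  have h2 := v1 c (cY c hc)
  exact v2 e (by omega)

end

end Pool.Agent.PF4.XT
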