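import Pool.Agent.PF4.XT
import Pool.Agent.PF4.XUK

/-!
# The square-free family of a K2 cluster in the phi frame
-/

set_option autoImplicit false

namespace Pool.Agent.PF4.XU

open Finset Pool.Agent.TFC Pool.Agent.PF4 Pool.Agent.PF4.LD Pool.Agent.PF4.XC Pool.Agent.PF4.XT

/-- without loops, square-free means without a square as a subset -/
theorem sqFree_iff {K : Finset (Sym2 ℕ)} (hK : ∀ e ∈ K, ¬ e.IsDiag) :
    TFC.SqFree K ↔ ∀ Z, IsSq Z → ¬ Z ⊆ K := by
  constructor
  · rintro h Z ⟨a, b, c, d, h4, rfl⟩ hs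
    obtain ⟨hab, hac, had, hbc, hbd, hcd⟩ := h4
    exact h a b c d ⟨hac, hbd, hs (by simp [TFC.sq]), hs (by simp [TFC.sq]), hs (by simp [TFC.sq]),
      hs (by simp [TFC.sq])⟩
  · intro h a b c d hs
    have hl : ∀ u v : ℕ, s(u, v) ∈ K → u ≠ v := by
      intro u v huv he
      exact hK _ huv (by simpa using he)
    refine h (TFC.sq a b c d) ⟨a, b, c, d, ⟨hl a b hs.ab, hs.ac, ?_, hl b c hs.bc, hs.bd, hl c d hs.cd⟩, rfl⟩ ?_
    · exact fun he => hl d a hs.da he.symm
    · intro e he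
      simp only [TFC.sq, Finset.mem_insert, Finset.mem_singleton] at he
      rcases he with rfl | rfl | rfl | rfl
      · exact hs.ab
      · exact hs.bc
      · exact hs.cd
      · exact hs.da

theorem k2_nl {a b : ℕ} {L : Finset ℕ} (hv : (Clu.k2 a b L).Valid) : NoLoop (Clu.k2 a b L).edges := by
  obtain ⟨_, ha, hb, _⟩ := hv
  intro e he
  simp only [Clu.edges, Finset.mem_union, Finset.mem_image] at he
  rcases he with ⟨l, hl, rfl⟩ | ⟨l, hl, rfl⟩
  · intro hd
    exact ha (by rw [show a = l by simpa using hd]; exact hl)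
  · intro hd
    exact hb (by rw [show b = l by simpa using hd]; exact hl)

theorem jb_sqFree {a b : ℕ} {L : Finset ℕ} (hv : (Clu.k2 a b L).Valid) :
    JB (Vc (Clu.k2 a b L).edges TFC.SqFree) := by
  refine jb_iff (fun x => ?_) (jb_k2 hv)
  constructor
  · rintro ⟨K, hK, hs, rfl⟩
    exact ⟨K, hK, (sqFree_iff fun e he => k2_nl hv e (hK he)).2 hs, rfl⟩
  · rintro ⟨K, hK, hs, rfl⟩
    exact ⟨K, hK, (sqFree_iff fun e he => k2_nl hv e (hK he)).1 hs, rfl⟩

/-- **the square-free family is good** -/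
theorem pca_sqFree {D : Finset (Finset (Sym2 ℕ))} (hD : ∀ Z ∈ D, IsSq Z) {a b : ℕ} {L : Finset ℕ}
    (hv : (Clu.k2 a b L).Valid) : PcA D TFC.SqFree (Clu.k2 a b L).edges where
  jb := jb_sqFree hv
  rl := fun K hK hs _ Z hZ =>
    (sqFree_iff fun e he => k2_nl hv e (hK he)).1 hs Z (hD Z hZ)

end Pool.Agent.PF4.XU
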