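import Pool.Agent.PF4.X5B
import Pool.Agent.PF4.XUV

/-!
Near covers are allowed in every frame (capped family or square-free family).
-/

set_option autoImplicit false

namespace Pool.Agent.PF4.XT

open Finset Pool.Agent.TFC Pool.Agent.PF4 Pool.Agent.PF4.XF Pool.Agent.PF4.XU

/-- opposite corners of a square are not adjacent in it -/
theorem sq_diag {a b c d : ℕ} (h : Dist4 a b c d) : s(a, c) ∉ TFC.sq a b c d := by
  obtain ⟨ab, ac, ad, bc, bd, cd⟩ := h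
  simp only [TFC.sq, mem_insert, mem_singleton, Sym2.eq_iff]
  rintro ((⟨_, h⟩ | ⟨h, _⟩) | (⟨h, _⟩ | ⟨h, _⟩) | (⟨h, _⟩ | ⟨h, _⟩) | (⟨h, _⟩ | ⟨_, h⟩))
  · exact bc h.symm
  · exact ab h
  · exact ab h
  · exact ac h
  · exact ac h
  · exact ad h
  · exact ad h
  · exact cd h

/-- a harmful square has two opposite corners in `T` -/
theorem hs_pair {T : Finset ℕ} {x y q p : ℕ} (h : Hs T (TFC.sq x y q p)) :
    (x ∈ T ∧ q ∈ T) ∨ (y ∈ T ∧ p ∈ T) := by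
  obtain ⟨a, b, c, d, h4, he, ha, hc⟩ := h
  have h5 := sq_diag h4
  rw [← he] at h5
  have e1 : s(a, b) ∈ TFC.sq x y q p := by rw [he]; simp [TFC.sq]
  have e2 : s(c, d) ∈ TFC.sq x y q p := by rw [he]; simp [TFC.sq]
  have ka : a = x ∨ a = y ∨ a = q ∨ a = p := by
    simp only [TFC.sq, mem_insert, mem_singleton, Sym2.eq_iff] at e1
    tauto
  have kc : c = x ∨ c = y ∨ c = q ∨ c = p := by
    simp only [TFC.sq, mem_insert, mem_singleton, Sym2.eq_iff] at e2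
    tauto
  have hac := h4.2.1
  have m : ∀ u v : ℕ, s(u, v) ∉ TFC.sq x y q p → s(v, u) ∉ TFC.sq x y q p := fun u v h => by
    rwa [Sym2.eq_swap]
  rcases ka with rfl | rfl | rfl | rfl <;> rcases kc with rfl | rfl | rfl | rfl
  · exact absurd rfl hac
  · exact absurd (by simp [TFC.sq]) h5
  · exact Or.inl ⟨ha, hc⟩
  · exact absurd (by simp [TFC.sq]) (m _ _ h5)
  · exact absurd (by simp [TFC.sq]) (m _ _ h5)
  · exact absurd rfl hac
  · exact absurd (by simp [TFC.sq]) h5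
  · exact Or.inr ⟨ha, hc⟩
  · exact Or.inl ⟨hc, ha⟩
  · exact absurd (by simp [TFC.sq]) (m _ _ h5)
  · exact absurd rfl hac
  · exact absurd (by simp [TFC.sq]) h5
  · exact absurd (by simp [TFC.sq]) h5
  · exact Or.inr ⟨hc, ha⟩
  · exact absurd (by simp [TFC.sq]) (m _ _ h5)
  · exact absurd rfl hac

section
variable {X : XD} {P : ℕ → Finset (Sym2 ℕ) → Prop} {D : Finset (Finset (Sym2 ℕ))} {j m : ℕ} {S : Finset ℕ}
  {M : ℕ → Finset (Sym2 ℕ)} {CL : List (Clu ℕ)}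

/-- every square in a `K2` cluster is harmful -/
theorem OW.k2_hs (h : OW X P D j m S M) (hc : Cls D CL) {u v : ℕ} {L : Finset ℕ} (h0 : Clu.k2 u v L ∈ CL)
    {Z : Finset (Sym2 ℕ)} (hZ : IsSq Z) (hs : Z ⊆ (Clu.k2 u v L).edges) : Hs X.T Z := by
  have hval : (Clu.k2 u v L).Valid := hc.val _ h0
  obtain ⟨uv, uL, vL, _⟩ : u ≠ v ∧ u ∉ L ∧ v ∉ L ∧ 2 ≤ #L := hc.val _ h0
  -- an edge at `u`
  obtain ⟨a, b, c, d, h4, rfl⟩ := hZ
  have key : ∃ w ∈ L, s(u, w) ∈ TFC.sq a b c d := by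
    have e1 : s(a, b) ∈ (Clu.k2 u v L).edges := hs (by simp [TFC.sq])
    have e2 : s(b, c) ∈ (Clu.k2 u v L).edges := hs (by simp [TFC.sq])
    have e3 : s(c, d) ∈ (Clu.k2 u v L).edges := hs (by simp [TFC.sq])
    have e4 : s(d, a) ∈ (Clu.k2 u v L).edges := hs (by simp [TFC.sq])
    rw [mem_k2] at e1 e2 e3 e4
    obtain ⟨ab, ac, ad, bc, bd, cd⟩ := h4
    rcases e1 with ⟨rfl | rfl, h1⟩ | ⟨rfl | rfl, h1⟩
    · exact ⟨b, h1, by simp [TFC.sq]⟩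
    · rcases e2 with ⟨rfl | rfl, h2⟩ | ⟨rfl | rfl, h2⟩
      · exact absurd h1 uL
      · exact absurd h1 vL
      · exact ⟨b, h1, msw (show s(b, c) ∈ TFC.sq a b c d by simp [TFC.sq])⟩
      · exact absurd rfl ac
    · exact ⟨a, h1, msw (show s(a, b) ∈ TFC.sq a b c d by simp [TFC.sq])⟩
    · rcases e4 with ⟨rfl | rfl, h2⟩ | ⟨rfl | rfl, h2⟩
      · exact ⟨a, h1, by simp [TFC.sq]⟩
      · exact absurd rfl bd
      · exact absurd h1 uL
      · exact absurd h1 vL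
  obtain ⟨b', _, hb'⟩ := key
  obtain ⟨l, hl, hbL, hlb, hZe⟩ := k2_sq hval (Z := TFC.sq a b c d) ⟨a, b, c, d, h4, rfl⟩ hs hb'
  rw [hZe]
  have ne : ∀ w ∈ L, u ≠ w ∧ v ≠ w := fun w hw => ⟨fun e => uL (e ▸ hw), fun e => vL (e ▸ hw)⟩
  have d4 : Dist4 u b' v l := ⟨(ne b' hbL).1, uv, (ne l hl).1, (ne b' hbL).2.symm, hlb.symm, (ne l hl).2⟩
  by_cases hT : u ∈ X.T ∧ v ∈ X.T
  · exact ⟨u, b', v, l, d4, rfl, hT.1, hT.2⟩
  · have lf : ∀ w ∈ L, w ∈ X.T := by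
      intro w hw
      obtain ⟨Z', hZ', he', hs'⟩ := hc.edge_sq h0 (f := s(u, w)) (mem_k2.2 (Or.inl ⟨Or.inl rfl, hw⟩))
      obtain ⟨l', hl', _, hlw, rfl⟩ := k2_sq hval (h.isq hZ') hs' he'
      rcases hs_pair (h.blk.hs _ hZ').1 with h1 | h1
      · exact absurd h1 hT
      · exact h1.1
    obtain ⟨n1, n2, n3, n4, n5, n6⟩ := d4
    exact ⟨b', v, l, u, ⟨n4, n5, Ne.symm n1, n6, Ne.symm n2, Ne.symm n3⟩, sq_rot _ _ _ _, lf _ hbL, lf _ hl⟩

/-- **near covers are allowed**, capped family -/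
theorem OW.mcap (h : OW X P D j m S M) {w : ℕ} (hw : w ∈ S) (hT : w ∈ X.T) (E : Finset (Sym2 ℕ)) :
    Acap D (M w ∩ E) := by
  obtain ⟨h1, _, h3⟩ := h.nc w hw hT
  exact ⟨h1.m2.mono inter_subset_left, fun Z hZ hs => h3 Z (h.blk.hs Z hZ).1 (hs.trans inter_subset_left)⟩

/-- **near covers are allowed**, square-free family on a `K2` cluster -/
theorem OW.msf (h : OW X P D j m S M) (hc : Cls D CL) {u v : ℕ} {L : Finset ℕ} (h0 : Clu.k2 u v L ∈ CL) {w : ℕ}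
    (hw : w ∈ S) (hT : w ∈ X.T) : TFC.SqFree (M w ∩ (Clu.k2 u v L).edges) := by
  obtain ⟨h1, _, h3⟩ := h.nc w hw hT
  rw [sqFree_iff fun e he => k2_nl (hc.val _ h0) e (mem_inter.1 he).2]
  intro Z hZ hs
  exact h3 Z (OW.k2_hs h hc h0 hZ (hs.trans inter_subset_right)) (hs.trans inter_subset_left)

end

end Pool.Agent.PF4.XT
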