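import Pool.Agent.PF4.X5C

/-!
Two squares `x y q p`, `x y r q`: the combinatorics of the move `F - yq + yr + rq`.
-/

set_option autoImplicit false

namespace Pool.Agent.PF4.XT

open Finset Pool.Agent.TFC Pool.Agent.PF4 Pool.Agent.PF4.XF Pool.Agent.PF4.XU

/-- the changed witness -/
def Gx (L : Finset (Sym2 ℕ)) (y q r : ℕ) : Finset (Sym2 ℕ) := (L \ {s(y, q)}) ∪ {s(y, r), s(r, q)}

/-- the data -/
structure Five (D : Finset (Finset (Sym2 ℕ))) (CL : List (Clu ℕ)) (c1 : Clu ℕ) (L : Finset (Sym2 ℕ))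
    (x y q p r : ℕ) : Prop where
  m2 : M2 L
  cls : Cls D CL
  isq : ∀ Z ∈ D, IsSq Z
  d4 : Dist4 x y q p
  rx : r ≠ x
  ry : r ≠ y
  rq : r ≠ q
  rp : r ≠ p
  sL : TFC.sq x y q p ⊆ L
  un : ∀ Z' ∈ D, Z' ⊆ L → Z' = TFC.sq x y q p
  c1m : c1 ∈ CL
  sc : TFC.sq x y q p ⊆ c1.edges

section
variable {D : Finset (Finset (Sym2 ℕ))} {CL : List (Clu ℕ)} {c1 : Clu ℕ} {L : Finset (Sym2 ℕ)} {x y q p r : ℕ}

theorem mem_Gx {e : Sym2 ℕ} : e ∈ Gx L y q r ↔ (e ∈ L ∧ e ≠ s(y, q)) ∨ e = s(y, r) ∨ e = s(r, q) := by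
  simp only [Gx, mem_union, mem_sdiff, mem_singleton, mem_insert]

theorem Five.sq (F : Five D CL c1 L x y q p r) : IsSq (TFC.sq x y q p) := ⟨x, y, q, p, F.d4, rfl⟩

theorem Five.aty (F : Five D CL c1 L x y q p r) {e : Sym2 ℕ} (he : e ∈ L) (hy : y ∈ e) : e ∈ TFC.sq x y q p :=
  sq_closed F.m2 F.sq F.sL (e := s(x, y)) (by simp [TFC.sq]) (y := y) (by simp) he hy

theorem Five.atq (F : Five D CL c1 L x y q p r) {e : Sym2 ℕ} (he : e ∈ L) (hq : q ∈ e) : e ∈ TFC.sq x y q p :=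
  sq_closed F.m2 F.sq F.sL (e := s(y, q)) (by simp [TFC.sq]) (y := q) (by simp) he hq

theorem Five.nr (F : Five D CL c1 L x y q p r) {e : Sym2 ℕ} (he : e ∈ TFC.sq x y q p) : r ∉ e := by
  have h1 := F.rx
  have h2 := F.ry
  have h3 := F.rq
  have h4 := F.rp
  simp only [TFC.sq, mem_insert, mem_singleton] at he
  rcases he with rfl | rfl | rfl | rfl <;> rw [Sym2.mem_iff] <;> tauto

theorem Five.yr (F : Five D CL c1 L x y q p r) : s(y, r) ∉ L := fun h => F.nr (F.aty h (by simp)) (by simp)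

theorem Five.rql (F : Five D CL c1 L x y q p r) : s(r, q) ∉ L := fun h => F.nr (F.atq h (by simp)) (by simp)

theorem Five.yqL (F : Five D CL c1 L x y q p r) : s(y, q) ∈ L := F.sL (by simp [TFC.sq])

theorem Five.yq (F : Five D CL c1 L x y q p r) : y ≠ q := F.d4.2.2.2.1

theorem Five.nv (F : Five D CL c1 L x y q p r) : s(y, r) ≠ s(r, q) := by
  rw [ne_eq, Sym2.eq_iff]
  rintro (⟨h, _⟩ | ⟨h, _⟩)
  · exact F.ry h.symm
  · exact F.yq h

/-- in the other clusters there is no edge at `y` and at `q` -/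
theorem Five.ne (F : Five D CL c1 L x y q p r) {c : Clu ℕ} (hc : c ∈ CL) (hne : c ≠ c1) {e : Sym2 ℕ}
    (he : e ∈ L) (hec : e ∈ c.edges) : y ∉ e ∧ q ∉ e :=
  ⟨fun h => hne (F.cls.eq hc F.c1m hec (F.sc (F.aty he h))), fun h => hne (F.cls.eq hc F.c1m hec (F.sc (F.atq he h)))⟩

/-- at most one of the two new edges is in the cluster of the square -/
theorem Five.nb (F : Five D CL c1 L x y q p r) (h1 : s(y, r) ∈ c1.edges) (h2 : s(r, q) ∈ c1.edges) : False := by
  obtain ⟨xy, xq, xp, yq, yp, qp⟩ := F.d4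
  have r1 := F.rx
  have r2 := F.ry
  have r3 := F.rq
  have r4 := F.rp
  rcases shape (F.cls.val _ F.c1m) F.d4 F.sc with rfl | ⟨L', rfl | rfl, g1, g2, g3, g4⟩ |
    ⟨L', rfl | rfl, g1, g2, g3, g4⟩
  · rw [mem_k4] at h1
    simp only [mem_insert, mem_singleton] at h1
    tauto
  · rw [mem_k2] at h1
    rcases h1 with ⟨h | h, _⟩ | ⟨h | h, _⟩
    · exact xy h.symm
    · exact yq h
    · exact r1 h
    · exact r3 h
  · rw [mem_k2] at h1
    rcases h1 with ⟨h | h, _⟩ | ⟨h | h, _⟩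
    · exact yq h
    · exact xy h.symm
    · exact r3 h
    · exact r1 h
  · rw [mem_k2] at h2
    rcases h2 with ⟨h | h, _⟩ | ⟨h | h, _⟩
    · exact r2 h
    · exact r4 h
    · exact yq h.symm
    · exact qp h
  · rw [mem_k2] at h2
    rcases h2 with ⟨h | h, _⟩ | ⟨h | h, _⟩
    · exact r4 h
    · exact r2 h
    · exact qp h
    · exact yq h.symm

theorem Gx_eq (L : Finset (Sym2 ℕ)) (y q r : ℕ) :
    Gx L y q r = insert s(y, r) (insert s(r, q) (L.erase s(y, q))) := by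
  ext e
  rw [mem_Gx]
  simp only [mem_insert, mem_erase]
  tauto

theorem Five.dvG (F : Five D CL c1 L x y q p r) : dv (Gx L y q r) = dv L + ev r + ev r := by
  rw [Gx_eq, TFC.dv_insert (Ne.symm F.ry), TFC.dv_insert F.rq, TFC.dv_erase F.yq F.yqL]
  · abel
  · rw [mem_erase]; exact fun h => F.rql h.2
  · rw [mem_insert, mem_erase]
    rintro (h | h)
    · exact F.nv h
    · exact F.yr h.2

/-- new edges close no square -/
theorem Five.sqG (F : Five D CL c1 L x y q p r) {c : Clu ℕ} (hc : c ∈ CL) {Z : Finset (Sym2 ℕ)} (hZ : IsSq Z)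
    (hs : Z ⊆ Gx L y q r ∩ c.edges) : Z ⊆ L ∧ s(y, q) ∉ Z := by
  have hG : ∀ e ∈ Z, (e ∈ L ∧ e ≠ s(y, q)) ∨ e = s(y, r) ∨ e = s(r, q) := fun e he =>
    mem_Gx.1 (mem_inter.1 (hs he)).1
  have hcl : ∀ e ∈ Z, e ∈ c.edges := fun e he => (mem_inter.1 (hs he)).2
  -- two new edges in the cluster of the square
  have two : c = c1 → ∀ e ∈ Z, r ∈ e → False := by
    rintro rfl e he hr
    obtain ⟨f, hf, hfe, hrf⟩ := sq_two hZ he hr
    have k : ∀ g ∈ Z, r ∈ g → g = s(y, r) ∨ g = s(r, q) := by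
      intro g hg hrg
      rcases hG g hg with h | h
      · have h1 : L ∩ c.edges = TFC.sq x y q p := inter_eq (F.cls.val _ F.c1m) F.sq F.sc F.m2 F.sL
        have h2 : g ∈ L ∩ c.edges := mem_inter.2 ⟨h.1, hcl g hg⟩
        rw [h1] at h2
        exact absurd hrg (F.nr h2)
      · exact h
    rcases k e he hr with h | h <;> rcases k f hf hrf with h' | h'
    · exact hfe (h'.trans h.symm)
    · exact F.nb (h ▸ hcl e he) (h' ▸ hcl f hf)
    · exact F.nb (h' ▸ hcl f hf) (h ▸ hcl e he)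
    · exact hfe (h'.trans h.symm)
  have n1 : s(y, r) ∉ Z := by
    intro h
    obtain ⟨f, hf, hfe, hyf⟩ := sq_two hZ h (v := y) (by simp)
    rcases hG f hf with h1 | h1 | h1
    · by_cases hcc : c = c1
      · exact two hcc _ h (by simp)
      · exact (F.ne hc hcc h1.1 (hcl f hf)).1 hyf
    · exact hfe h1
    · rw [h1, Sym2.mem_iff] at hyf
      rcases hyf with h2 | h2
      · exact F.ry h2.symm
      · exact F.yq h2
  have n2 : s(r, q) ∉ Z := by
    intro h
    obtain ⟨f, hf, hfe, hyf⟩ := sq_two hZ h (v := q) (by simp)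
    rcases hG f hf with h1 | h1 | h1
    · by_cases hcc : c = c1
      · exact two hcc _ h (by simp)
      · exact (F.ne hc hcc h1.1 (hcl f hf)).2 hyf
    · rw [h1, Sym2.mem_iff] at hyf
      rcases hyf with h2 | h2
      · exact F.yq h2.symm
      · exact F.rq h2.symm
    · exact hfe h1
  constructor
  · intro e he
    rcases hG e he with h | h | h
    · exact h.1
    · exact absurd (h ▸ he) n1
    · exact absurd (h ▸ he) n2
  · intro he
    rcases hG _ he with h | h | h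
    · exact h.2 rfl
    · exact n1 (h ▸ he)
    · exact n2 (h ▸ he)

theorem Five.free (F : Five D CL c1 L x y q p r) {c : Clu ℕ} (hc : c ∈ CL) :
    ∀ Z ∈ D, ¬ Z ⊆ Gx L y q r ∩ c.edges := by
  intro Z hZ hs
  obtain ⟨h1, h2⟩ := F.sqG hc (F.isq Z hZ) hs
  rw [F.un Z hZ h1] at h2
  exact h2 (by simp [TFC.sq])

theorem Five.sf (F : Five D CL c1 L x y q p r) {c : Clu ℕ} (hc : c ∈ CL) (h : Sf (L ∩ c.edges)) :
    Sf (Gx L y q r ∩ c.edges) := by
  intro Z hZ hs
  obtain ⟨h1, _⟩ := F.sqG hc hZ hs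
  exact h Z hZ (subset_inter h1 (hs.trans inter_subset_right))

theorem Five.m2G (F : Five D CL c1 L x y q p r) {c : Clu ℕ} (hn : NoLoop c.edges)
    (h : dg (Gx L y q r ∩ c.edges) r ≤ 2) : M2 (Gx L y q r ∩ c.edges) := by
  refine ⟨hn.mono inter_subset_right, fun v => ?_⟩
  by_cases hv : v = r
  · rw [hv]; exact h
  · refine (dg_mono inter_subset_left v).trans ?_
    have h1 := congrFun F.dvG v
    rw [Pi.add_apply, Pi.add_apply, ev_ne hv, dv_apply, dv_apply, add_zero, add_zero] at h1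
    have h2 := F.m2.le v
    omega

theorem Five.cap (F : Five D CL c1 L x y q p r) {c : Clu ℕ} (hc : c ∈ CL) (hn : NoLoop c.edges)
    (h : dg (Gx L y q r ∩ c.edges) r ≤ 2) : Acap D (Gx L y q r ∩ c.edges) :=
  ⟨F.m2G hn h, F.free hc⟩

/-- at most one cluster is full -/
theorem Five.low (F : Five D CL c1 L x y q p r) {c c' : Clu ℕ} (hc : c ∈ CL) (hc' : c' ∈ CL) (hne : c' ≠ c)
    (h : 3 ≤ dg (Gx L y q r ∩ c.edges) r) : dg (Gx L y q r ∩ c'.edges) r ≤ 1 := by
  have h1 : Disjoint (Gx L y q r ∩ c.edges) (Gx L y q r ∩ c'.edges) := by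
    rw [Finset.disjoint_left]
    intro e he he'
    exact hne (F.cls.eq hc' hc (mem_inter.1 he').2 (mem_inter.1 he).2)
  have h2 := dg_union h1 r
  have h3 := dg_mono (union_subset (inter_subset_left (s₁ := Gx L y q r) (s₂ := c.edges))
    (inter_subset_left (s₁ := Gx L y q r) (s₂ := c'.edges))) r
  have h4 := congrFun F.dvG r
  rw [Pi.add_apply, Pi.add_apply, ev_self, dv_apply, dv_apply] at h4
  have h5 := F.m2.le r
  omega

/-- the cluster of the square is not full -/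
theorem Five.c1low (F : Five D CL c1 L x y q p r) : dg (Gx L y q r ∩ c1.edges) r ≤ 1 := by
  unfold dg
  rw [card_le_one]
  intro a ha b hb
  simp only [mem_filter, mem_inter] at ha hb
  have h1 : L ∩ c1.edges = TFC.sq x y q p := inter_eq (F.cls.val _ F.c1m) F.sq F.sc F.m2 F.sL
  have k : ∀ g, g ∈ Gx L y q r → g ∈ c1.edges → r ∈ g → g = s(y, r) ∨ g = s(r, q) := by
    intro g hg hc hrg
    rcases mem_Gx.1 hg with h | h
    · have h2 : g ∈ L ∩ c1.edges := mem_inter.2 ⟨h.1, hc⟩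
      rw [h1] at h2
      exact absurd hrg (F.nr h2)
    · exact h
  rcases k a ha.1.1 ha.1.2 ha.2 with h | h <;> rcases k b hb.1.1 hb.1.2 hb.2 with h' | h'
  · exact h.trans h'.symm
  · exact absurd (h' ▸ hb.1.2) fun h3 => F.nb (h ▸ ha.1.2) h3
  · exact absurd (h ▸ ha.1.2) fun h3 => F.nb (h' ▸ hb.1.2) h3
  · exact h.trans h'.symm

/-- a full cluster: two old edges or an old edge and both new ones -/
theorem Five.full (F : Five D CL c1 L x y q p r) {c : Clu ℕ}
    (h : 3 ≤ dg (Gx L y q r ∩ c.edges) r) :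
    (∃ b, s(r, b) ∈ L ∧ s(r, b) ∈ c.edges) ∧ (s(y, r) ∈ c.edges ∨ s(r, q) ∈ c.edges) := by
  constructor
  · by_contra hn
    push Not at hn
    have : {e ∈ Gx L y q r ∩ c.edges | r ∈ e} ⊆ {s(y, r), s(r, q)} := by
      intro e he
      simp only [mem_filter, mem_inter] at he
      rcases mem_Gx.1 he.1.1 with h1 | h1
      · obtain ⟨b, rfl⟩ := he.2
        exact absurd he.1.2 (hn b h1.1)
      · simpa using h1
    have h2 := card_le_card this
    have h3 := card_le_two (a := s(y, r)) (b := s(r, q))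
    unfold dg at h
    omega
  · by_contra hn
    push Not at hn
    have : {e ∈ Gx L y q r ∩ c.edges | r ∈ e} ⊆ {e ∈ L | r ∈ e} := by
      intro e he
      simp only [mem_filter, mem_inter] at he ⊢
      rcases mem_Gx.1 he.1.1 with h1 | h1 | h1
      · exact ⟨h1.1, he.2⟩
      · exact absurd (h1 ▸ he.1.2) hn.1
      · exact absurd (h1 ▸ he.1.2) hn.2
    have h2 := card_le_card this
    have h3 := F.m2.le r
    unfold dg at h h3
    omega

end

end Pool.Agent.PF4.XT
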