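import Pool.Agent.PF4.X5D

/-!
Two squares `x y q p`, `x y r q`: the move in the phi frame.
-/

set_option autoImplicit false

namespace Pool.Agent.PF4.XT

open Finset Pool.Agent.TFC Pool.Agent.PF4 Pool.Agent.PF4.XF Pool.Agent.PF4.XU

theorem single_ev (v : ℕ) (c : ℤ) : (Pi.single v c : ℕ → ℤ) = c • ev v := by
  funext w
  rw [Pi.smul_apply, ev_apply, Pi.single_apply]
  split_ifs <;> simp

/-- three vertices -/
theorem ph_thr5 {V : Finset ℕ} {pl mi : ℕ → Prop} {a b c : ℕ} (ha : a ∈ V) (hb : b ∈ V) (hc : c ∈ V)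
    (ab : a ≠ b) (ac : a ≠ c) (bc : b ≠ c) (α β γ : ℤ) :
    ph V pl mi (Pi.single a α + Pi.single b β + Pi.single c γ) =
      con (pl a) (mi a) α + con (pl b) (mi b) β + con (pl c) (mi c) γ := by
  rw [ph_add hc, ph_two ha hb ab]
  rw [Pi.add_apply, Pi.single_apply, Pi.single_apply, if_neg (Ne.symm ac), if_neg (Ne.symm bc), add_zero]

/-- four vertices -/
theorem ph_fou5 {V : Finset ℕ} {pl mi : ℕ → Prop} {a b c d : ℕ} (ha : a ∈ V) (hb : b ∈ V) (hc : c ∈ V)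
    (hd : d ∈ V) (ab : a ≠ b) (ac : a ≠ c) (bc : b ≠ c) (ad : a ≠ d) (bd : b ≠ d) (cd : c ≠ d) (α β γ δ : ℤ) :
    ph V pl mi (Pi.single a α + Pi.single b β + Pi.single c γ + Pi.single d δ) =
      con (pl a) (mi a) α + con (pl b) (mi b) β + con (pl c) (mi c) γ + con (pl d) (mi d) δ := by
  rw [ph_add hd, ph_thr5 ha hb hc ab ac bc]
  rw [Pi.add_apply, Pi.add_apply, Pi.single_apply, Pi.single_apply, Pi.single_apply, if_neg (Ne.symm ad),
    if_neg (Ne.symm bd), if_neg (Ne.symm cd), add_zero, add_zero]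

section
variable {X : XD} {P : ℕ → Finset (Sym2 ℕ) → Prop} {D : Finset (Finset (Sym2 ℕ))} {j : ℕ} {S : Finset ℕ}
  {M : ℕ → Finset (Sym2 ℕ)} {A : Clu ℕ → Finset (Sym2 ℕ) → Prop} {CL U : List (Clu ℕ)} {PL : Finset (Sym2 ℕ)}
  {pl mi : ℕ → Prop} {c1 : Clu ℕ} {L : Finset (Sym2 ℕ)} {x y q p r : ℕ}

/-- no cluster is violated -/
theorem Five.all (F : Five D CL c1 L x y q p r) (h : PW X P D j S M A CL U PL pl mi) (hL : P j L) (hcv : Cv X L)
    (hQ : TFC.sq x y q p ∈ D) (h1 : c1 ∈ U) (hyr : s(y, r) ∈ Ucl U ∪ PL) (hrq : s(r, q) ∈ Ucl U ∪ PL)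
    (hA : ∀ c ∈ U, A c (Gx L y q r ∩ c.edges)) (hm : mi r) : False := by
  have hr : r ∈ X.V2 := h.ok.ev _ (h.w2 hyr) r (by simp)
  have hAU : AU A U PL (Gx L y q r ∩ (Ucl U ∪ PL)) := by
    refine ⟨inter_subset_right, fun c hc => ?_⟩
    rw [inter_assoc, inter_eq_right.2 (h.cW hc)]
    exact hA c hc
  have h2 := h.witA _ hQ (F.sc.trans (h.cU h1)) L hL hcv F.un _ hAU
  have e : dv (Gx L y q r ∩ (Ucl U ∪ PL)) - dv (L ∩ (Ucl U ∪ PL)) = Pi.single r 2 := by
    have k1 := XT.dv_union (disjoint_sdiff_inter (Gx L y q r) (Ucl U ∪ PL))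
    rw [Finset.sdiff_union_inter] at k1
    have k2 := XT.dv_union (disjoint_sdiff_inter L (Ucl U ∪ PL))
    rw [Finset.sdiff_union_inter] at k2
    have hyq : s(y, q) ∈ Ucl U ∪ PL := h.cW h1 (F.sc (by simp [TFC.sq]))
    have k3 : Gx L y q r \ (Ucl U ∪ PL) = L \ (Ucl U ∪ PL) := by
      ext e
      rw [mem_sdiff, mem_sdiff, mem_Gx]
      constructor
      · rintro ⟨g1 | g1 | g1, g2⟩
        · exact ⟨g1.1, g2⟩
        · exact absurd (g1 ▸ hyr) g2
        · exact absurd (g1 ▸ hrq) g2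
      · rintro ⟨g1, g2⟩
        exact ⟨Or.inl ⟨g1, fun h => g2 (h ▸ hyq)⟩, g2⟩
    rw [k3] at k1
    have k4 := F.dvG
    rw [single_ev]
    have k5 : dv (Gx L y q r ∩ (Ucl U ∪ PL)) = dv (Gx L y q r) - dv (L \ (Ucl U ∪ PL)) := by rw [k1]; abel
    have k6 : dv (L ∩ (Ucl U ∪ PL)) = dv L - dv (L \ (Ucl U ∪ PL)) := by rw [k2]; abel
    rw [k5, k6, k4, two_smul]
    abel
  rw [e, ph_one hr] at h2
  unfold con at h2
  split_ifs at h2 <;> norm_num at h2

/-- **replace the part in the full cluster** -/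
theorem Five.rep (F : Five D CL c1 L x y q p r) (h : PW X P D j S M A CL U PL pl mi) (hL : P j L) (hcv : Cv X L)
    (hQ : TFC.sq x y q p ∈ D) (h1 : c1 ∈ U) {c0 : Clu ℕ} (h0 : c0 ∈ U) (hA : ∀ c ∈ U, c ≠ c0 → A c = Acap D)
    (hf : 3 ≤ dg (Gx L y q r ∩ c0.edges) r) {B K0 : Finset (Sym2 ℕ)} (hB : B ⊆ {s(y, r), s(r, q)})
    (hBW : B ⊆ Ucl U ∪ PL) (hBd : Disjoint B c0.edges) (hK0 : K0 ⊆ c0.edges) (hK0A : A c0 K0) :
    1 ≤ ph X.V2 pl mi (dv K0 - dv (L ∩ c0.edges) - ev y - ev q + dv B) := by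
  have h01 : c0 ≠ c1 := by
    rintro rfl
    have := F.c1low
    omega
  have hyq1 : s(y, q) ∈ c1.edges := F.sc (by simp [TFC.sq])
  have hyq : s(y, q) ∈ Ucl U ∪ PL := h.cW h1 hyq1
  have hyq0 : s(y, q) ∉ c0.edges := fun h' => disjoint_left.1 (h.djc h0 h1 h01) h' hyq1
  have hBL : Disjoint B L := by
    rw [disjoint_left]
    intro e he hl
    have := hB he
    simp only [mem_insert, mem_singleton] at this
    rcases this with rfl | rfl
    · exact F.yr hl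
    · exact F.rql hl
  have hsub : ({s(y, q)} : Finset (Sym2 ℕ)) ⊆ L ∩ (Ucl U ∪ PL) := by
    rw [singleton_subset_iff]
    exact mem_inter.2 ⟨F.yqL, hyq⟩
  have hdv := dv_swap (L := L ∩ (Ucl U ∪ PL)) (A := {s(y, q)}) (B := B) hsub (hBL.mono_right inter_subset_left)
  set F0 : Finset (Sym2 ℕ) := ((L ∩ (Ucl U ∪ PL)) \ {s(y, q)}) ∪ B with hF0
  have hF0W : F0 ⊆ Ucl U ∪ PL := union_subset (sdiff_subset.trans inter_subset_right) hBW
  have hF0G : F0 ⊆ Gx L y q r := by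
    intro e he
    rw [mem_Gx]
    rcases mem_union.1 he with g | g
    · rw [mem_sdiff, mem_inter, mem_singleton] at g
      exact Or.inl ⟨g.1.1, g.2⟩
    · have := hB g
      simp only [mem_insert, mem_singleton] at this
      exact Or.inr this
  have hF0c : F0 ∩ c0.edges = L ∩ c0.edges := by
    ext e
    simp only [hF0, mem_inter, mem_union, mem_sdiff, mem_singleton]
    constructor
    · rintro ⟨g | g, g2⟩
      · exact ⟨g.1.1, g2⟩
      · exact absurd g2 (disjoint_left.1 hBd g)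
    · rintro ⟨g1, g2⟩
      have g3 := h.cW h0 g2
      rw [mem_union] at g3
      exact ⟨Or.inl ⟨⟨g1, g3⟩, fun h' => hyq0 (h' ▸ g2)⟩, g2⟩
  have hAU := AU_rep h h0 hF0W hK0 hK0A (by
    intro c hc hcc
    rw [hA c hc hcc]
    have hcap := F.cap ((h.uc c).1 hc).1 (h.nl (h.cW hc))
      ((F.low ((h.uc c0).1 h0).1 ((h.uc c).1 hc).1 hcc hf).trans (by norm_num))
    have hsub : F0 ∩ c.edges ⊆ Gx L y q r ∩ c.edges := inter_subset_inter hF0G le_rfl
    exact ⟨hcap.1.mono hsub, fun Z hZ hs => hcap.2 Z hZ (hs.trans hsub)⟩)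
  have h2 := h.witA _ hQ (F.sc.trans (h.cU h1)) L hL hcv F.un _ hAU
  rw [dv_rep hK0, hF0c, hdv, XT.dv_pair F.yq] at h2
  have e : dv (L ∩ (Ucl U ∪ PL)) - (Pi.single y 1 + Pi.single q 1) + dv B - dv (L ∩ c0.edges) + dv K0 -
      dv (L ∩ (Ucl U ∪ PL)) = dv K0 - dv (L ∩ c0.edges) - ev y - ev q + dv B := by
    show dv (L ∩ (Ucl U ∪ PL)) - (ev y + ev q) + dv B - dv (L ∩ c0.edges) + dv K0 - dv (L ∩ (Ucl U ∪ PL)) = _
    abel
  rw [e] at h2
  exact h2

/-- the full cluster is a `K4` -/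
theorem Five.k4 (F : Five D CL c1 L x y q p r) (h : PW X P D j S M (fun _ => Acap D) CL U PL pl mi) (hL : P j L)
    (hcv : Cv X L) (hQ : TFC.sq x y q p ∈ D) (h1 : c1 ∈ U) (hyr : s(y, r) ∈ Ucl U ∪ PL)
    (hrq : s(r, q) ∈ Ucl U ∪ PL) {Y : Finset ℕ} (h0 : Clu.k4 Y ∈ U)
    (hf : 3 ≤ dg (Gx L y q r ∩ (Clu.k4 Y).edges) r) : False := by
  obtain ⟨⟨b, hbL, hbc⟩, _⟩ := F.full hf
  have h01 : Clu.k4 Y ≠ c1 := by
    intro e
    rw [e] at hf
    have := F.c1low
    omega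
  have hyq1 : s(y, q) ∈ c1.edges := F.sc (by simp [TFC.sq])
  have hyq0 : s(y, q) ∉ (Clu.k4 Y).edges := fun h' => disjoint_left.1 (h.djc h0 h1 h01) h' hyq1
  have hrb : r ≠ b := F.m2.nl.ne hbL
  have hn : NoLoop (Clu.k4 Y).edges := h.nl (h.cW h0)
  have hrbG : s(r, b) ∈ Gx L y q r ∩ (Clu.k4 Y).edges := by
    refine mem_inter.2 ⟨mem_Gx.2 (Or.inl ⟨hbL, fun h' => hyq0 (h' ▸ hbc)⟩), hbc⟩
  -- at most three edges
  have h3 : dg (Gx L y q r ∩ (Clu.k4 Y).edges) r ≤ 3 := by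
    by_cases hy : s(y, r) ∈ (Clu.k4 Y).edges
    · have hq : s(r, q) ∉ (Clu.k4 Y).edges := by
        intro hq
        rw [mem_k4] at hy hq
        exact hyq0 (mem_k4.2 ⟨hy.1, hq.2.1, F.yq⟩)
      have : {e ∈ Gx L y q r ∩ (Clu.k4 Y).edges | r ∈ e} ⊆ insert s(y, r) {e ∈ L | r ∈ e} := by
        intro e he
        simp only [mem_filter, mem_inter, mem_insert] at he ⊢
        rcases mem_Gx.1 he.1.1 with g | g | g
        · exact Or.inr ⟨g.1, he.2⟩
        · exact Or.inl g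
        · exact absurd (g ▸ he.1.2) hq
      have h2 := (card_le_card this).trans (card_insert_le _ _)
      have h3 := F.m2.le r
      unfold dg at h3 ⊢
      omega
    · have : {e ∈ Gx L y q r ∩ (Clu.k4 Y).edges | r ∈ e} ⊆ insert s(r, q) {e ∈ L | r ∈ e} := by
        intro e he
        simp only [mem_filter, mem_inter, mem_insert] at he ⊢
        rcases mem_Gx.1 he.1.1 with g | g | g
        · exact Or.inr ⟨g.1, he.2⟩
        · exact absurd (g ▸ he.1.2) hy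
        · exact Or.inl g
      have h2 := (card_le_card this).trans (card_insert_le _ _)
      have h3 := F.m2.le r
      unfold dg at h3 ⊢
      omega
  have hdr := dg_erase hrbG r
  rw [if_pos (by simp)] at hdr
  have h5 := F.rep h hL hcv hQ h1 h0 (fun _ _ _ => rfl) hf
    (B := {s(y, r), s(r, q)} \ (Clu.k4 Y).edges) (K0 := (Gx L y q r ∩ (Clu.k4 Y).edges).erase s(r, b))
    sdiff_subset (by
      intro e he
      rw [mem_sdiff, mem_insert, mem_singleton] at he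
      rcases he.1 with rfl | rfl
      · exact hyr
      · exact hrq) disjoint_sdiff_self_left
    ((erase_subset _ _).trans inter_subset_right) (by
      refine ⟨⟨hn.mono ((erase_subset _ _).trans inter_subset_right), fun v => ?_⟩, fun Z hZ hs =>
        F.free ((h.uc _).1 h0).1 Z hZ (hs.trans (erase_subset _ _))⟩
      by_cases hv : v = r
      · rw [hv]; omega
      · refine (dg_mono ((erase_subset _ _).trans inter_subset_left) v).trans ?_
        have g1 := congrFun F.dvG v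
        rw [Pi.add_apply, Pi.add_apply, ev_ne hv, dv_apply, dv_apply, add_zero, add_zero] at g1
        have g2 := F.m2.le v
        omega)
  have e : dv ((Gx L y q r ∩ (Clu.k4 Y).edges).erase s(r, b)) - dv (L ∩ (Clu.k4 Y).edges) - ev y - ev q +
      dv ({s(y, r), s(r, q)} \ (Clu.k4 Y).edges) = Pi.single r 1 + Pi.single b (-1) := by
    have g1 : Gx L y q r ∩ (Clu.k4 Y).edges = (L ∩ (Clu.k4 Y).edges) ∪ ({s(y, r), s(r, q)} ∩ (Clu.k4 Y).edges) := by
      ext e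
      simp only [mem_inter, mem_Gx, mem_union, mem_insert, mem_singleton]
      constructor
      · rintro ⟨g | g, g2⟩
        · exact Or.inl ⟨g.1, g2⟩
        · exact Or.inr ⟨g, g2⟩
      · rintro (⟨g, g2⟩ | ⟨g, g2⟩)
        · exact ⟨Or.inl ⟨g, fun h' => hyq0 (h' ▸ g2)⟩, g2⟩
        · exact ⟨Or.inr g, g2⟩
    have g2 : Disjoint (L ∩ (Clu.k4 Y).edges) ({s(y, r), s(r, q)} ∩ (Clu.k4 Y).edges) := by
      rw [disjoint_left]
      intro e he he'
      simp only [mem_inter, mem_insert, mem_singleton] at he he'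
      rcases he'.1 with rfl | rfl
      · exact F.yr he.1
      · exact F.rql he.1
    have g3 := XT.dv_union (disjoint_sdiff_inter ({s(y, r), s(r, q)} : Finset (Sym2 ℕ)) (Clu.k4 Y).edges)
    rw [Finset.sdiff_union_inter] at g3
    have g4 : dv ({s(y, r), s(r, q)} : Finset (Sym2 ℕ)) = ev y + ev r + ev r + ev q := by
      rw [TFC.dv_insert (Ne.symm F.ry) (by rw [mem_singleton]; exact F.nv), XT.dv_pair F.rq]
      show ev r + ev q + ev y + ev r = _
      abel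
    rw [TFC.dv_erase hrb hrbG, g1, XT.dv_union g2, single_ev, single_ev]
    have g5 : dv ({s(y, r), s(r, q)} \ (Clu.k4 Y).edges) =
        ev y + ev r + ev r + ev q - dv ({s(y, r), s(r, q)} ∩ (Clu.k4 Y).edges) := by
      rw [← g4, g3]; abel
    rw [g5, one_smul, neg_one_smul]
    abel
  have hrY : r ∈ Y := (mem_k4.1 hbc).1
  have hX := h.k4X h0 (fun _ _ _ => rfl) rfl hrY
  rw [e, ph_two (h.v2 h0 hbc (by simp)) (h.v2 h0 hbc (by simp)) hrb, con_X hX.2 hX.1] at h5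
  have := con_neg_one (pl b) (mi b)
  omega

end

end Pool.Agent.PF4.XT
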