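import Pool.Agent.PF4.XI
import Pool.Agent.PF4.SX
import Pool.Agent.EDM.P1

/-!
The constant-size part of the pool for `xf1`: the edges `EL` (the object, the near covers of the corners, the two squares), the
edges `EnL` near the corners (distance at most 4), the edges `E2L` at the ends of those, the vertices `V2L`; bounds for the lengths; all sublists
(`subl`) and all demand lists (`asg`) of a list of constant length, polynomial time.
-/

set_option autoImplicit false

namespace Pool.Agent.PF4.XF

open Finset Pool.Agent.TFC Pool.Agent.Lib.helper60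

/-! ### lists without duplicates -/

/-- remove duplicates -/
def nub (l : List ℕ) : List ℕ := l.foldl (fun s a => bif EDM.memN s a then s else a :: s) []

theorem nub_aux (l : List ℕ) : ∀ s : List ℕ, s.Nodup →
    (l.foldl (fun s a => bif EDM.memN s a then s else a :: s) s).Nodup ∧
    (∀ v, v ∈ l.foldl (fun s a => bif EDM.memN s a then s else a :: s) s ↔ v ∈ s ∨ v ∈ l) ∧
    (l.foldl (fun s a => bif EDM.memN s a then s else a :: s) s).length ≤ s.length + l.length := by
  induction l with
  | nil => intro s hs; exact ⟨hs, by simp, by simp⟩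
  | cons a l ih =>
    intro s hs
    rw [List.foldl_cons]
    cases h : EDM.memN s a with
    | true =>
      rw [EDM.memN_iff] at h
      rw [cond_true]
      obtain ⟨h1, h2, h3⟩ := ih s hs
      refine ⟨h1, ?_, ?_⟩
      · intro v
        rw [h2, List.mem_cons]
        constructor
        · rintro (h4 | h4)
          · exact Or.inl h4
          · exact Or.inr (Or.inr h4)
        · rintro (h4 | h4 | h4)
          · exact Or.inl h4
          · rw [h4]; exact Or.inl h
          · exact Or.inr h4
      · rw [List.length_cons]; omega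
    | false =>
      rw [EDM.memN_false] at h
      rw [cond_false]
      obtain ⟨h1, h2, h3⟩ := ih (a :: s) (List.nodup_cons.2 ⟨h, hs⟩)
      refine ⟨h1, ?_, ?_⟩
      · intro v
        rw [h2, List.mem_cons, List.mem_cons]
        tauto
      · rw [List.length_cons] at h3 ⊢; omega

theorem nub_nodup (l : List ℕ) : (nub l).Nodup := (nub_aux l [] List.nodup_nil).1

theorem mem_nub {l : List ℕ} {v : ℕ} : v ∈ nub l ↔ v ∈ l := by
  have := (nub_aux l [] List.nodup_nil).2.1 v
  simpa [nub] using this

theorem nub_length (l : List ℕ) : (nub l).length ≤ l.length := by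
  have := (nub_aux l [] List.nodup_nil).2.2
  simpa [nub] using this

/-! ### all sublists and all demand lists -/

/-- all sublists of a list of length at most `c` -/
def subl {α : Type} : ℕ → List α → List (List α)
  | 0, _ => [[]]
  | _ + 1, [] => [[]]
  | c + 1, a :: l => subl c l ++ (subl c l).map fun s => a :: s

theorem mem_subl {α : Type} {c : ℕ} {l s : List α} (h : s ∈ subl c l) : s.Sublist l := by
  induction c generalizing l s with
  | zero =>
    simp only [subl, List.mem_singleton] at h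
    subst h
    exact List.nil_sublist _
  | succ c ih =>
    cases l with
    | nil =>
      simp only [subl, List.mem_singleton] at h
      subst h
      exact List.Sublist.refl _
    | cons a l =>
      simp only [subl, List.mem_append, List.mem_map] at h
      rcases h with h | ⟨t, ht, rfl⟩
      · exact (ih h).cons a
      · exact (ih ht).cons_cons a

theorem subl_mem {α : Type} {c : ℕ} {l s : List α} (hl : l.length ≤ c) (h : s.Sublist l) :
    s ∈ subl c l := by
  induction c generalizing l s with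
  | zero =>
    have : l = [] := List.length_eq_zero_iff.1 (Nat.le_zero.1 hl)
    subst this
    rw [List.sublist_nil.1 h]
    exact List.mem_singleton.2 rfl
  | succ c ih =>
    cases l with
    | nil =>
      rw [List.sublist_nil.1 h]
      exact List.mem_singleton.2 rfl
    | cons a l =>
      rw [List.length_cons] at hl
      simp only [subl, List.mem_append, List.mem_map]
      cases h with
      | cons _ h => exact Or.inl (ih (by omega) h)
      | cons_cons _ h => exact Or.inr ⟨_, ih (by omega) h, rfl⟩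

/-- every set of edges of `l` is the set of a sublist without repetition -/
theorem exists_sub {l : List Ed} (H : Finset (Sym2 ℕ)) (hH : H ⊆ fs l) :
    ∃ s : List Ed, s.Sublist l ∧ WF s ∧ fs s = H := by
  induction l generalizing H with
  | nil =>
    rw [fs_nil, Finset.subset_empty] at hH
    subst hH
    exact ⟨[], List.Sublist.refl _, WF.nil, rfl⟩
  | cons a l ih =>
    rw [fs_cons] at hH
    by_cases ha : fe a ∈ H
    · have h1 : H.erase (fe a) ⊆ fs l := by
        intro e he
        rw [Finset.mem_erase] at he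
        exact (Finset.mem_insert.1 (hH he.2)).resolve_left he.1
      obtain ⟨s, h2, h3, h4⟩ := ih _ h1
      refine ⟨a :: s, h2.cons_cons a, ?_, ?_⟩
      · show ((a :: s).map fe).Nodup
        rw [List.map_cons, List.nodup_cons]
        refine ⟨fun h => ?_, h3⟩
        have h5 : fe a ∈ fs s := by rw [fs, List.mem_toFinset]; exact h
        rw [h4] at h5
        simp at h5
      · rw [fs_cons, h4, Finset.insert_erase ha]
    · have h1 : H ⊆ fs l := by
        intro e he
        refine (Finset.mem_insert.1 (hH he)).resolve_left ?_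
        rintro rfl
        exact ha he
      obtain ⟨s, h2, h3, h4⟩ := ih _ h1
      exact ⟨s, h2.cons a, h3, h4⟩

/-- all sets of edges of a list of length at most `c` -/
theorem subl_full {c : ℕ} {l : List Ed} (hl : l.length ≤ c) (H : Finset (Sym2 ℕ)) (hH : H ⊆ fs l) :
    ∃ s ∈ subl c l, WF s ∧ fs s = H := by
  obtain ⟨s, h1, h2, h3⟩ := exists_sub H hH
  exact ⟨s, subl_mem hl h1, h2, h3⟩

theorem fs_subl {c : ℕ} {l s : List Ed} (h : s ∈ subl c l) : fs s ⊆ fs l := by
  intro e he
  obtain ⟨f, hf, rfl⟩ := mem_fs.1 he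
  exact fe_mem_fs ((mem_subl h).subset hf)

/-- all lists with multiplicities 0, 1, 2 of the members of a list of length at most `c` -/
def asg : ℕ → List ℕ → List (List ℕ)
  | 0, _ => [[]]
  | _ + 1, [] => [[]]
  | c + 1, a :: V => asg c V ++ (((asg c V).map fun s => a :: s) ++ ((asg c V).map fun s => a :: a :: s))

theorem mem_asg {c : ℕ} {V k : List ℕ} (hV : V.Nodup) (h : k ∈ asg c V) (v : ℕ) :
    k.count v ≤ 2 ∧ (v ∉ V → k.count v = 0) := by
  induction c generalizing V k with
  | zero =>
    simp only [asg, List.mem_singleton] at h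
    subst h
    simp
  | succ c ih =>
    cases V with
    | nil =>
      simp only [asg, List.mem_singleton] at h
      subst h
      simp
    | cons a V =>
      rw [List.nodup_cons] at hV
      simp only [asg, List.mem_append, List.mem_map] at h
      rcases h with h | ⟨s, hs, rfl⟩ | ⟨s, hs, rfl⟩
      · obtain ⟨h1, h2⟩ := ih hV.2 h
        exact ⟨h1, fun hv => h2 fun h3 => hv (List.mem_cons_of_mem _ h3)⟩
      · obtain ⟨h1, h2⟩ := ih hV.2 hs
        rw [List.count_cons]
        by_cases hav : a = v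
        · subst hav
          have := h2 hV.1
          refine ⟨?_, fun hv => absurd List.mem_cons_self hv⟩
          simp; omega
        · have e : (a == v) = false := by simpa using hav
          rw [e]
          refine ⟨by simpa using h1, fun hv => ?_⟩
          have := h2 fun h3 => hv (List.mem_cons_of_mem _ h3)
          simpa using this
      · obtain ⟨h1, h2⟩ := ih hV.2 hs
        rw [List.count_cons, List.count_cons]
        by_cases hav : a = v
        · subst hav
          have := h2 hV.1
          refine ⟨?_, fun hv => absurd List.mem_cons_self hv⟩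
          simp; omega
        · have e : (a == v) = false := by simpa using hav
          rw [e]
          refine ⟨by simpa using h1, fun hv => ?_⟩
          have := h2 fun h3 => hv (List.mem_cons_of_mem _ h3)
          simpa using this

/-- all demands with values 0, 1, 2 on `V` -/
theorem asg_full {c : ℕ} {V : List ℕ} (hV : V.Nodup) (hc : V.length ≤ c) (k : ℕ → ℕ)
    (hk : ∀ v ∈ V, k v ≤ 2) :
    ∃ s ∈ asg c V, (∀ v ∈ V, s.count v = k v) ∧ ∀ v, v ∉ V → s.count v = 0 := by
  induction c generalizing V with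
  | zero =>
    have : V = [] := List.length_eq_zero_iff.1 (Nat.le_zero.1 hc)
    subst this
    exact ⟨[], List.mem_singleton.2 rfl, by simp, by simp⟩
  | succ c ih =>
    cases V with
    | nil => exact ⟨[], List.mem_singleton.2 rfl, by simp, by simp⟩
    | cons a V =>
      rw [List.nodup_cons] at hV
      rw [List.length_cons] at hc
      obtain ⟨s, hs, h1, h2⟩ := ih hV.2 (by omega) fun v hv => hk v (List.mem_cons_of_mem _ hv)
      have ha := h2 a hV.1
      have hka := hk a List.mem_cons_self
      have key : ∀ t : List ℕ, t ∈ asg (c + 1) (a :: V) → t.count a = k a →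
          (∀ v, v ≠ a → t.count v = s.count v) →
          ∃ s ∈ asg (c + 1) (a :: V), (∀ v ∈ a :: V, s.count v = k v) ∧
            ∀ v, v ∉ a :: V → s.count v = 0 := by
        intro t ht h3 h4
        refine ⟨t, ht, ?_, ?_⟩
        · intro v hv
          by_cases hva : v = a
          · rw [hva]; exact h3
          · rw [h4 v hva]
            exact h1 v ((List.mem_cons.1 hv).resolve_left hva)
        · intro v hv
          rw [List.mem_cons, not_or] at hv
          rw [h4 v hv.1]
          exact h2 v hv.2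
      have hne : ∀ v, v ≠ a → (a == v) = false := fun v hv => by simpa using Ne.symm hv
      rcases Nat.lt_or_ge (k a) 1 with h | h
      · exact key s (List.mem_append_left _ hs) (by omega) fun v _ => rfl
      · rcases Nat.lt_or_ge (k a) 2 with h' | h'
        · refine key (a :: s) (List.mem_append_right _ (List.mem_append_left _
            (List.mem_map.2 ⟨s, hs, rfl⟩))) ?_ fun v hv => ?_
          · rw [List.count_cons_self]; omega
          · rw [List.count_cons, hne v hv]; simp
        · refine key (a :: a :: s) (List.mem_append_right _ (List.mem_append_right _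
            (List.mem_map.2 ⟨s, hs, rfl⟩))) ?_ fun v hv => ?_
          · rw [List.count_cons_self, List.count_cons_self]; omega
          · rw [List.count_cons, List.count_cons, hne v hv]; simp

/-! ### the edges -/

/-- the corners of the two squares and four further vertices -/
def cor (Q R B : Sq4) : List ℕ :=
  [Q.1, Q.2.1, Q.2.2.1, Q.2.2.2, R.1, R.2.1, R.2.2.1, R.2.2.2, B.1, B.2.1, B.2.2.1, B.2.2.2]

/-- the object stored for `w` -/
def lookW (W : List (ℕ × List Ed)) (w : ℕ) : List Ed :=
  ((W.filter fun p => decide (p.1 = w)).map fun p => p.2).headD []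

/-- the edges of the object, of the near covers of the corners, of the two squares, and the edges `B` of the graph -/
def EL (x : Ins) (F : List Ed) (W : List (ℕ × List Ed)) (Q R B : Sq4) : List Ed :=
  F ++ (((cor Q R B).flatMap fun w => lookW W w) ++ (sqE Q ++ (sqE R ++ norm (sqE B) x.2)))

/-- the edges of `l` with an end in `S` -/
def touch (l : List Ed) (S : List ℕ) : List Ed := l.filter fun e => S.any fun v => inc v e

/-- the ends of a list of edges -/
def flat2 (l : List Ed) : List ℕ := l.flatMap fun e => [e.1, e.2]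

/-- the vertices at distance at most `r` of the corners -/
def SL (x : Ins) (F : List Ed) (W : List (ℕ × List Ed)) (Q R B : Sq4) : ℕ → List ℕ
  | 0 => cor Q R B
  | r + 1 => SL x F W Q R B r ++ flat2 (touch (EL x F W Q R B) (SL x F W Q R B r))

/-- the near edges: all edges with an end at distance at most 4 -/
def EnL (x : Ins) (F : List Ed) (W : List (ℕ × List Ed)) (Q R B : Sq4) : List Ed := touch (EL x F W Q R B) (SL x F W Q R B 4)

/-- the vertices at distance at most 5 -/
def S1L (x : Ins) (F : List Ed) (W : List (ℕ × List Ed)) (Q R B : Sq4) : List ℕ := SL x F W Q R B 5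

/-- the edges at the ends of the near edges -/
def E2L (x : Ins) (F : List Ed) (W : List (ℕ × List Ed)) (Q R B : Sq4) : List Ed :=
  touch (EL x F W Q R B) (S1L x F W Q R B)

/-- their ends -/
def V2L (x : Ins) (F : List Ed) (W : List (ℕ × List Ed)) (Q R B : Sq4) : List ℕ :=
  nub (cor Q R B ++ flat2 (E2L x F W Q R B))

/-- bounds for the lengths -/
def cS : ℕ → ℕ
  | 0 => 12
  | r + 1 => cS r + 2 * (38 * cS r)
def cEn : ℕ := 38 * cS 4
def cS1 : ℕ := cS 5
def cE2 : ℕ := 38 * cS1
def cV2 : ℕ := 12 + 2 * cE2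

theorem inc_iff {v : ℕ} {e : Ed} : inc v e = true ↔ v ∈ fe e := by
  simp only [inc, fe, Bool.or_eq_true, decide_eq_true_eq, Sym2.mem_iff]
  constructor
  · rintro (h | h)
    · exact Or.inl h.symm
    · exact Or.inr h.symm
  · rintro (h | h)
    · exact Or.inl h.symm
    · exact Or.inr h.symm

theorem mem_touch {l : List Ed} {S : List ℕ} {e : Sym2 ℕ} :
    e ∈ fs (touch l S) ↔ e ∈ fs l ∧ ∃ v ∈ S, v ∈ e := by
  rw [mem_fs, mem_fs]
  constructor
  · rintro ⟨f, hf, rfl⟩
    rw [touch, List.mem_filter, List.any_eq_true] at hf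
    obtain ⟨h1, v, hv, h2⟩ := hf
    exact ⟨⟨f, h1, rfl⟩, v, hv, inc_iff.1 h2⟩
  · rintro ⟨⟨f, hf, rfl⟩, v, hv, h⟩
    refine ⟨f, ?_, rfl⟩
    rw [touch, List.mem_filter, List.any_eq_true]
    exact ⟨hf, v, hv, inc_iff.2 h⟩

theorem touch_length (l : List Ed) (S : List ℕ) {d : ℕ} (hd : ∀ v, degL l v ≤ d) :
    (touch l S).length ≤ d * S.length := by
  induction S with
  | nil => simp [touch]
  | cons a S ih =>
    have h1 : (touch l (a :: S)).length ≤ degL l a + (touch l S).length := by
      unfold touch degL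
      clear ih hd
      induction l with
      | nil => simp
      | cons e l ih =>
        rw [List.filter_cons, List.filter_cons, List.filter_cons]
        simp only [List.any_cons, Bool.or_eq_true] at ih ⊢
        by_cases h1 : inc a e = true
        · rw [if_pos (Or.inl h1), if_pos h1, List.length_cons, List.length_cons]
          split_ifs
          · rw [List.length_cons]; omega
          · omega
        · by_cases h2 : (S.any fun v => inc v e) = true
          · rw [if_pos (Or.inr h2), if_neg h1, if_pos h2, List.length_cons, List.length_cons]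
            omega
          · rw [if_neg (by rintro (h | h); exacts [h1 h, h2 h]), if_neg h1, if_neg h2]
            exact ih
    have h2 := hd a
    rw [List.length_cons, Nat.mul_succ]
    omega

theorem degL_append (l m : List Ed) (v : ℕ) : degL (l ++ m) v = degL l v + degL m v := by
  simp [degL]

theorem degL_le_length (l : List Ed) (v : ℕ) : degL l v ≤ l.length := List.length_filter_le _ _

theorem degL_flatMap {α : Type} (L : List α) (F : α → List Ed) {d : ℕ} (v : ℕ)
    (h : ∀ a ∈ L, degL (F a) v ≤ d) : degL (L.flatMap F) v ≤ d * L.length := by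
  induction L with
  | nil => simp [degL]
  | cons a L ih =>
    rw [List.flatMap_cons, degL_append, List.length_cons, Nat.mul_succ]
    have h1 := ih fun b hb => h b (List.mem_cons_of_mem _ hb)
    have h2 := h a List.mem_cons_self
    omega

/-- validity of the input lists -/
structure B1 (x : Ins) (F : List Ed) (W : List (ℕ × List Ed)) (Q R B : Sq4) : Prop where
  wf : InsWF x
  f : MG x F
  w : ∀ p ∈ W, MG x p.2
  q : SqOK Q ∧ sqs Q ⊆ fs x.2
  r : SqOK R ∧ sqs R ⊆ fs x.2
  b : B.1 < x.1 ∧ B.2.1 < x.1 ∧ B.2.2.1 < x.1 ∧ B.2.2.2 < x.1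

theorem mg_nil {x : Ins} : MG x [] := by
  have h0 : ∀ v, dg (fs ([] : List Ed)) v = 0 := by intro v; rw [fs_nil]; rfl
  refine ⟨WF.nil, ⟨?_, ?_⟩, ?_⟩
  · intro e he; rw [fs_nil] at he; simp at he
  · intro v; rw [h0]; omega
  · rw [fs_nil]; exact Finset.empty_subset _

theorem lookW_mg {x : Ins} {W : List (ℕ × List Ed)} (h : ∀ p ∈ W, MG x p.2) (w : ℕ) :
    MG x (lookW W w) := by
  unfold lookW
  cases hc : (W.filter fun p => decide (p.1 = w)) with
  | nil => exact mg_nil
  | cons p l =>
    have : p ∈ W.filter fun p => decide (p.1 = w) := by rw [hc]; exact List.mem_cons_self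
    exact h p (List.mem_of_mem_filter this)

theorem mg_degL_le {x : Ins} {M : List Ed} (h : MG x M) (v : ℕ) : degL M v ≤ 2 := by
  rw [degL_eq h.wf]
  exact h.m2.le v

variable {x : Ins} {F : List Ed} {W : List (ℕ × List Ed)} {Q R B : Sq4}

theorem B1.deg (h : B1 x F W Q R B) (v : ℕ) : degL (EL x F W Q R B) v ≤ 38 := by
  unfold EL
  rw [degL_append, degL_append, degL_append, degL_append]
  have h1 := mg_degL_le h.f v
  have h2 := degL_flatMap (cor Q R B) (fun w => lookW W w) (d := 2) v fun w _ =>
    mg_degL_le (lookW_mg h.w w) v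
  have h3 := degL_le_length (sqE Q) v
  have h4 := degL_le_length (sqE R) v
  have h5 := degL_le_length (norm (sqE B) x.2) v
  have h6 : (norm (sqE B) x.2).length ≤ (sqE B).length := List.length_filter_le _ _
  have e1 : (cor Q R B).length = 12 := rfl
  have e2 : (sqE Q).length = 4 := rfl
  have e3 : (sqE R).length = 4 := rfl
  have e4 : (sqE B).length = 4 := rfl
  omega

theorem flat2_length (l : List Ed) : (flat2 l).length = 2 * l.length := by
  induction l with
  | nil => rfl
  | cons e l ih =>
    unfold flat2 at ih ⊢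
    rw [List.flatMap_cons, List.length_append, ih, List.length_cons]
    simp only [List.length_cons, List.length_nil]
    omega

theorem mem_flat2 {l : List Ed} {v : ℕ} : v ∈ flat2 l ↔ ∃ e ∈ fs l, v ∈ e := by
  unfold flat2
  rw [List.mem_flatMap]
  constructor
  · rintro ⟨e, he, hv⟩
    refine ⟨fe e, fe_mem_fs he, ?_⟩
    simpa [fe] using hv
  · rintro ⟨e, he, hv⟩
    obtain ⟨f, hf, rfl⟩ := mem_fs.1 he
    exact ⟨f, hf, by simpa [fe] using hv⟩

theorem B1.lSL (h : B1 x F W Q R B) (r : ℕ) : (SL x F W Q R B r).length ≤ cS r := by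
  induction r with
  | zero => exact le_refl 12
  | succ r ih =>
    have h1 := touch_length (EL x F W Q R B) (SL x F W Q R B r) h.deg
    have h2 : 38 * (SL x F W Q R B r).length ≤ 38 * cS r := Nat.mul_le_mul_left _ ih
    show (SL x F W Q R B r ++ flat2 (touch (EL x F W Q R B) (SL x F W Q R B r))).length ≤ cS r + 2 * (38 * cS r)
    rw [List.length_append, flat2_length]
    omega

theorem B1.lEn (h : B1 x F W Q R B) : (EnL x F W Q R B).length ≤ cEn :=
  (touch_length _ _ h.deg).trans (Nat.mul_le_mul_left _ (h.lSL 4))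

theorem B1.lS1 (h : B1 x F W Q R B) : (S1L x F W Q R B).length ≤ cS1 := h.lSL 5

theorem B1.lE2 (h : B1 x F W Q R B) : (E2L x F W Q R B).length ≤ cE2 := by
  refine (touch_length _ _ h.deg).trans ?_
  exact Nat.mul_le_mul_left _ h.lS1

theorem B1.lV2 (h : B1 x F W Q R B) : (V2L x F W Q R B).length ≤ cV2 := by
  unfold V2L
  refine (nub_length _).trans ?_
  rw [List.length_append, flat2_length]
  exact Nat.add_le_add (le_refl 12) (Nat.mul_le_mul_left _ h.lE2)

/-- the data of one call -/
def xd (x : Ins) (g : List ℕ) (F : List Ed) (W : List (ℕ × List Ed)) (Q R B : Sq4) : XD where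
  n := x.1
  E := fs (EL x F W Q R B)
  T := (Finset.range x.1).filter fun v => g.getD v 0 = 2
  En := fs (EnL x F W Q R B)
  E2 := fs (E2L x F W Q R B)
  V2 := (V2L x F W Q R B).toFinset

theorem mem_EL {e : Sym2 ℕ} : e ∈ fs (EL x F W Q R B) ↔
    e ∈ fs F ∨ (∃ w ∈ cor Q R B, e ∈ fs (lookW W w)) ∨ e ∈ sqs Q ∨ e ∈ sqs R ∨ (e ∈ sqs B ∧ e ∈ fs x.2) := by
  unfold EL
  rw [fs_append, fs_append, fs_append, fs_append, Finset.mem_union, Finset.mem_union, Finset.mem_union,
    Finset.mem_union, fs_sqE, fs_sqE, fs_norm, Finset.mem_inter, fs_sqE]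
  refine or_congr Iff.rfl (or_congr ?_ Iff.rfl)
  simp only [mem_fs, List.mem_flatMap]
  constructor
  · rintro ⟨f, ⟨w, hw, hf⟩, rfl⟩
    exact ⟨w, hw, f, hf, rfl⟩
  · rintro ⟨w, hw, f, hf, rfl⟩
    exact ⟨f, ⟨w, hw, hf⟩, rfl⟩

theorem B1.sub (h : B1 x F W Q R B) : fs (EL x F W Q R B) ⊆ fs x.2 := by
  intro e he
  rcases mem_EL.1 he with he | ⟨w, _, he⟩ | he | he | he
  · exact h.f.sub he
  · exact (lookW_mg h.w w).sub he
  · exact h.q.2 he
  · exact h.r.2 he
  · exact he.2

theorem mem_SL_succ {v r : ℕ} : v ∈ SL x F W Q R B (r + 1) ↔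
    v ∈ SL x F W Q R B r ∨ ∃ e ∈ fs (touch (EL x F W Q R B) (SL x F W Q R B r)), v ∈ e := by
  show v ∈ SL x F W Q R B r ++ flat2 (touch (EL x F W Q R B) (SL x F W Q R B r)) ↔ _
  rw [List.mem_append, mem_flat2]

theorem SL_mono {r s : ℕ} (h : r ≤ s) {v : ℕ} (hv : v ∈ SL x F W Q R B r) : v ∈ SL x F W Q R B s := by
  induction s, h using Nat.le_induction with
  | base => exact hv
  | succ s _ ih => exact mem_SL_succ.2 (Or.inl ih)

theorem SL_step {r : ℕ} {v w : ℕ} (hv : v ∈ SL x F W Q R B r) (he : s(v, w) ∈ fs (EL x F W Q R B)) :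
    w ∈ SL x F W Q R B (r + 1) :=
  mem_SL_succ.2 (Or.inr ⟨s(v, w), mem_touch.2 ⟨he, v, hv, Sym2.mem_mk_left _ _⟩, Sym2.mem_mk_right _ _⟩)

theorem mem_S1 {v : ℕ} : v ∈ S1L x F W Q R B ↔ v ∈ SL x F W Q R B 4 ∨ ∃ e ∈ fs (EnL x F W Q R B), v ∈ e :=
  mem_SL_succ

theorem mem_En {e : Sym2 ℕ} : e ∈ fs (EnL x F W Q R B) ↔
    e ∈ fs (EL x F W Q R B) ∧ ∃ v ∈ SL x F W Q R B 4, v ∈ e := mem_touch

theorem mem_V2 {v : ℕ} : v ∈ V2L x F W Q R B ↔ v ∈ cor Q R B ∨ ∃ e ∈ fs (E2L x F W Q R B), v ∈ e := by
  unfold V2L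
  rw [mem_nub, List.mem_append, mem_flat2]

/-- the corners are real vertices -/
theorem B1.cor_lt (h : B1 x F W Q R B) : ∀ v ∈ cor Q R B, v < x.1 := by
  intro v hv
  have key : ∀ (q : Sq4), sqs q ⊆ fs x.2 → q.1 < x.1 ∧ q.2.1 < x.1 ∧ q.2.2.1 < x.1 ∧ q.2.2.2 < x.1 := by
    intro q hq
    have e1 : s(q.1, q.2.1) ∈ sqs q := by simp [sqs, TFC.sq]
    have e2 : s(q.2.2.1, q.2.2.2) ∈ sqs q := by simp [sqs, TFC.sq]
    exact ⟨h.wf.vlt (hq e1) (Sym2.mem_mk_left _ _), h.wf.vlt (hq e1) (Sym2.mem_mk_right _ _),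
      h.wf.vlt (hq e2) (Sym2.mem_mk_left _ _), h.wf.vlt (hq e2) (Sym2.mem_mk_right _ _)⟩
  obtain ⟨q1, q2, q3, q4⟩ := key Q h.q.2
  obtain ⟨r1, r2, r3, r4⟩ := key R h.r.2
  obtain ⟨b1, b2, b3, b4⟩ := h.b
  simp only [cor, List.mem_cons, List.not_mem_nil, or_false] at hv
  rcases hv with rfl | rfl | rfl | rfl | rfl | rfl | rfl | rfl | rfl | rfl | rfl | rfl <;> assumption

theorem fe_mem_self (e : Sym2 ℕ) : ∃ v, v ∈ e := by
  induction e using Sym2.ind with
  | _ a b => exact ⟨a, Sym2.mem_mk_left _ _⟩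

/-- the data are well-formed -/
theorem B1.ok (h : B1 x F W Q R B) (g : List ℕ) : (xd x g F W Q R B).OK where
  lt := fun e he v hv => h.wf.vlt (h.sub he) hv
  nl := h.wf.nl.mono h.sub
  e1 := by
    intro e he
    have he' : e ∈ fs (touch (EL x F W Q R B) (SL x F W Q R B 4)) := he
    rw [mem_touch] at he'
    show e ∈ fs (touch (EL x F W Q R B) (S1L x F W Q R B))
    rw [mem_touch]
    obtain ⟨h1, v, hv, h2⟩ := he'
    exact ⟨h1, v, mem_S1.2 (Or.inl hv), h2⟩
  e2 := by
    intro e he
    have he' : e ∈ fs (touch (EL x F W Q R B) (S1L x F W Q R B)) := he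
    rw [mem_touch] at he'
    exact he'.1
  tn := by
    intro v hv
    exact Finset.mem_range.1 (Finset.mem_filter.1 hv).1
  vn := by
    intro v hv
    have hv' : v ∈ (V2L x F W Q R B).toFinset := hv
    rw [List.mem_toFinset, mem_V2] at hv'
    rcases hv' with hv' | ⟨e, he, hv⟩
    · exact h.cor_lt v hv'
    have he' : e ∈ fs (touch (EL x F W Q R B) (S1L x F W Q R B)) := he
    rw [mem_touch] at he'
    exact h.wf.vlt (h.sub he'.1) hv
  ev := by
    intro e he v hv
    show v ∈ (V2L x F W Q R B).toFinset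
    rw [List.mem_toFinset, mem_V2]
    exact Or.inr ⟨e, he, hv⟩
  near := by
    rintro Z ⟨a, b, c, d, h4, rfl, _, _⟩ hZ ⟨e, he, heN⟩
    have hE : ∀ f ∈ TFC.sq a b c d, f ∈ fs (EL x F W Q R B) := fun f hf => hZ hf
    have hab : s(a, b) ∈ TFC.sq a b c d := by simp [TFC.sq]
    have hbc : s(b, c) ∈ TFC.sq a b c d := by simp [TFC.sq]
    have hcd : s(c, d) ∈ TFC.sq a b c d := by simp [TFC.sq]
    have hda : s(d, a) ∈ TFC.sq a b c d := by simp [TFC.sq]
    have heN' : e ∈ fs (touch (EL x F W Q R B) (SL x F W Q R B 4)) := heN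
    rw [mem_touch] at heN'
    obtain ⟨_, q, hq, hqe⟩ := heN'
    -- `q` is a vertex of the square
    have hv : q = a ∨ q = b ∨ q = c ∨ q = d := by
      simp only [TFC.sq, Finset.mem_insert, Finset.mem_singleton] at he
      rcases he with rfl | rfl | rfl | rfl <;> rw [Sym2.mem_iff] at hqe <;> tauto
    have hn : ∀ f ∈ TFC.sq a b c d, q ∈ f → f ∈ fs (EnL x F W Q R B) := by
      intro f hf hqf
      show f ∈ fs (touch (EL x F W Q R B) (SL x F W Q R B 4))
      rw [mem_touch]
      exact ⟨hE f hf, q, hq, hqf⟩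
    have h2 : ∀ f ∈ TFC.sq a b c d, ∀ v ∈ S1L x F W Q R B, v ∈ f → f ∈ fs (E2L x F W Q R B) := by
      intro f hf v hv hvf
      show f ∈ fs (touch (EL x F W Q R B) (S1L x F W Q R B))
      rw [mem_touch]
      exact ⟨hE f hf, v, hv, hvf⟩
    have s0 : q ∈ S1L x F W Q R B := mem_S1.2 (Or.inl hq)
    have s1 : ∀ f ∈ TFC.sq a b c d, q ∈ f → ∀ v ∈ f, v ∈ S1L x F W Q R B := by
      intro f hf hqf v hv
      exact mem_S1.2 (Or.inr ⟨f, hn f hf hqf, hv⟩)
    intro f hf
    show f ∈ fs (E2L x F W Q R B)
    have hf' := hf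
    simp only [TFC.sq, Finset.mem_insert, Finset.mem_singleton] at hf'
    rcases hv with rfl | rfl | rfl | rfl
    · -- `q = a`
      have sb := s1 _ hab (by simp) b (by simp)
      have sd := s1 _ hda (by simp) d (by simp)
      rcases hf' with rfl | rfl | rfl | rfl
      · exact h2 _ hf _ s0 (by simp)
      · exact h2 _ hf _ sb (by simp)
      · exact h2 _ hf _ sd (by simp)
      · exact h2 _ hf _ s0 (by simp)
    · -- `q = b`
      have sa := s1 _ hab (by simp) a (by simp)
      have sc := s1 _ hbc (by simp) c (by simp)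
      rcases hf' with rfl | rfl | rfl | rfl
      · exact h2 _ hf _ s0 (by simp)
      · exact h2 _ hf _ s0 (by simp)
      · exact h2 _ hf _ sc (by simp)
      · exact h2 _ hf _ sa (by simp)
    · -- `q = c`
      have sb := s1 _ hbc (by simp) b (by simp)
      have sd := s1 _ hcd (by simp) d (by simp)
      rcases hf' with rfl | rfl | rfl | rfl
      · exact h2 _ hf _ sb (by simp)
      · exact h2 _ hf _ s0 (by simp)
      · exact h2 _ hf _ s0 (by simp)
      · exact h2 _ hf _ sd (by simp)
    · -- `q = d`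
      have sc := s1 _ hcd (by simp) c (by simp)
      have sa := s1 _ hda (by simp) a (by simp)
      rcases hf' with rfl | rfl | rfl | rfl
      · exact h2 _ hf _ sa (by simp)
      · exact h2 _ hf _ sc (by simp)
      · exact h2 _ hf _ s0 (by simp)
      · exact h2 _ hf _ s0 (by simp)

/-! ### polynomial time -/

section pt

variable {ι : Type} [DEnc ι]

theorem nub_tsize (l : List ℕ) : ∀ s : List ℕ,
    tsize (l.foldl (fun s a => bif EDM.memN s a then s else a :: s) s) ≤ tsize s + tsize l := by
  induction l with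
  | nil => intro s; simp
  | cons a l ih =>
    intro s
    rw [List.foldl_cons, tsize_cons]
    refine (ih _).trans ?_
    cases EDM.memN s a with
    | true => rw [cond_true]; omega
    | false => rw [cond_false, tsize_cons]; omega

theorem pt_nub {l : ι → List ℕ} (hl : PT l) : PT (fun x => nub (l x)) := by
  refine PT.foldl (init := fun _ => ([] : List ℕ))
    (g := fun y : ι × List ℕ × ℕ => bif EDM.memN y.2.1 y.2.2 then y.2.1 else y.2.2 :: y.2.1)
    hl (PT.const []) ?_ ⟨fun x => 1 + tsize (l x), (PB.const 1).add hl.size, ?_⟩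
  · exact PT.cond (PT.any PT.snd.p1 (p := fun z : (ι × List ℕ × ℕ) × ℕ => decide (z.2 = z.1.2.2))
      (PT.neq PT.snd PT.fst.p2.p2)) PT.snd.p1 (PT.cons PT.snd.p2 PT.snd.p1)
  · intro x l₁ l₂ h
    refine (nub_tsize l₁ []).trans ?_
    have := tsize_append l₁ l₂
    rw [h] at this
    have := tsize_pos l₂
    rw [tsize_nil]
    show _ ≤ 1 + tsize (l x)
    omega

theorem pt_subl {α : Type} [DEnc α] (c : ℕ) : ∀ {ι : Type} [DEnc ι] {l : ι → List α}, PT l →
    PT (fun x => subl c (l x)) := by
  induction c with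
  | zero => intro ι _ l _; exact PT.const [[]]
  | succ c ih =>
    intro ι _ l hl
    have h1 : PT (fun y : ι × α × List α => subl c y.2.2 ++ (subl c y.2.2).map fun s => y.2.1 :: s) :=
      PT.append (ih PT.snd.p2) (PT.map (ih PT.snd.p2)
        (g := fun z : (ι × α × List α) × List α => z.1.2.1 :: z.2) (PT.cons PT.fst.p2.p1 PT.snd))
    refine (PT.listCases hl (PT.const [[]]) h1).congr fun x => ?_
    cases l x <;> rfl

theorem pt_asg (c : ℕ) : ∀ {ι : Type} [DEnc ι] {l : ι → List ℕ}, PT l → PT (fun x => asg c (l x)) := by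
  induction c with
  | zero => intro ι _ l _; exact PT.const [[]]
  | succ c ih =>
    intro ι _ l hl
    have h1 : PT (fun y : ι × ℕ × List ℕ => asg c y.2.2 ++ (((asg c y.2.2).map fun s => y.2.1 :: s) ++
        ((asg c y.2.2).map fun s => y.2.1 :: y.2.1 :: s))) :=
      PT.append (ih PT.snd.p2) (PT.append (PT.map (ih PT.snd.p2)
        (g := fun z : (ι × ℕ × List ℕ) × List ℕ => z.1.2.1 :: z.2) (PT.cons PT.fst.p2.p1 PT.snd))
        (PT.map (ih PT.snd.p2)
        (g := fun z : (ι × ℕ × List ℕ) × List ℕ => z.1.2.1 :: z.1.2.1 :: z.2)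
          (PT.cons PT.fst.p2.p1 (PT.cons PT.fst.p2.p1 PT.snd))))
    refine (PT.listCases hl (PT.const [[]]) h1).congr fun x => ?_
    cases l x <;> rfl

theorem pt_cor {Q R B : ι → Sq4} (hQ : PT Q) (hR : PT R) (hB : PT B) :
    PT (fun x => cor (Q x) (R x) (B x)) :=
  PT.cons hQ.p1 (PT.cons hQ.p2.p1 (PT.cons hQ.p2.p2.p1 (PT.cons hQ.p2.p2.p2 (PT.cons hR.p1
    (PT.cons hR.p2.p1 (PT.cons hR.p2.p2.p1 (PT.cons hR.p2.p2.p2 (PT.cons hB.p1
    (PT.cons hB.p2.p1 (PT.cons hB.p2.p2.p1 (PT.cons hB.p2.p2.p2 (PT.const []))))))))))))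

theorem pt_lookW {W : ι → List (ℕ × List Ed)} {w : ι → ℕ} (hW : PT W) (hw : PT w) :
    PT (fun x => lookW (W x) (w x)) :=
  PT.headD (PT.map (PT.filter hW (p := fun y : ι × (ℕ × List Ed) => decide (y.2.1 = w y.1))
    (PT.neq PT.snd.p1 (hw.comp PT.fst))) (g := fun y : ι × (ℕ × List Ed) => y.2.2) PT.snd.p2)
    (PT.const [])

variable {G : ι → Ins} {F : ι → List Ed} {W : ι → List (ℕ × List Ed)} {Q R B : ι → Sq4}

theorem pt_EL (hG : PT G) (hF : PT F) (hW : PT W) (hQ : PT Q) (hR : PT R) (hB : PT B) :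
    PT (fun x => EL (G x) (F x) (W x) (Q x) (R x) (B x)) :=
  PT.append hF (PT.append (PT.flatMap (pt_cor hQ hR hB) (g := fun y : ι × ℕ => lookW (W y.1) y.2)
    (pt_lookW (hW.comp PT.fst) PT.snd)) (PT.append (pt_sqE hQ) (PT.append (pt_sqE hR)
      (pt_norm (pt_sqE hB) (PT.p2 hG)))))

theorem pt_inc {v : ι → ℕ} {e : ι → Ed} (hv : PT v) (he : PT e) : PT (fun x => inc (v x) (e x)) :=
  PT.bor (PT.neq he.p1 hv) (PT.neq he.p2 hv)

theorem pt_touch {l : ι → List Ed} {S : ι → List ℕ} (hl : PT l) (hS : PT S) :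
    PT (fun x => touch (l x) (S x)) :=
  PT.filter hl (p := fun y : ι × Ed => (S y.1).any fun v => inc v y.2)
    (PT.any (hS.comp PT.fst) (p := fun z : (ι × Ed) × ℕ => inc z.2 z.1.2) (pt_inc PT.snd PT.fst.p2))

theorem pt_flat2 {l : ι → List Ed} (hl : PT l) : PT (fun x => flat2 (l x)) :=
  PT.flatMap hl (g := fun y : ι × Ed => [y.2.1, y.2.2])
    (PT.cons PT.snd.p1 (PT.cons PT.snd.p2 (PT.const [])))

theorem pt_SL (hG : PT G) (hF : PT F) (hW : PT W) (hQ : PT Q) (hR : PT R) (hB : PT B) :
    ∀ r, PT (fun x => SL (G x) (F x) (W x) (Q x) (R x) (B x) r)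
  | 0 => pt_cor hQ hR hB
  | r + 1 => PT.append (pt_SL hG hF hW hQ hR hB r) (pt_flat2 (pt_touch (pt_EL hG hF hW hQ hR hB) (pt_SL hG hF hW hQ hR hB r)))

theorem pt_EnL (hG : PT G) (hF : PT F) (hW : PT W) (hQ : PT Q) (hR : PT R) (hB : PT B) :
    PT (fun x => EnL (G x) (F x) (W x) (Q x) (R x) (B x)) :=
  pt_touch (pt_EL hG hF hW hQ hR hB) (pt_SL hG hF hW hQ hR hB 4)

theorem pt_S1L (hG : PT G) (hF : PT F) (hW : PT W) (hQ : PT Q) (hR : PT R) (hB : PT B) :
    PT (fun x => S1L (G x) (F x) (W x) (Q x) (R x) (B x)) := pt_SL hG hF hW hQ hR hB 5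

theorem pt_E2L (hG : PT G) (hF : PT F) (hW : PT W) (hQ : PT Q) (hR : PT R) (hB : PT B) :
    PT (fun x => E2L (G x) (F x) (W x) (Q x) (R x) (B x)) :=
  pt_touch (pt_EL hG hF hW hQ hR hB) (pt_S1L hG hF hW hQ hR hB)

theorem pt_V2L (hG : PT G) (hF : PT F) (hW : PT W) (hQ : PT Q) (hR : PT R) (hB : PT B) :
    PT (fun x => V2L (G x) (F x) (W x) (Q x) (R x) (B x)) :=
  pt_nub (PT.append (pt_cor hQ hR hB) (pt_flat2 (pt_E2L hG hF hW hQ hR hB)))

end pt

attribute [irreducible] cS cEn cS1 cE2 cV2

end Pool.Agent.PF4.XF
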