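import Pool.Agent.PF4.XB1
import Pool.Agent.PF4.XOW
import Pool.Agent.PF4.PadX

/-!
The pool for `xf1`.
-/

set_option autoImplicit false

namespace Pool.Agent.PF4.XF

open Finset Pool.Agent.TFC Pool.Agent.PF4 Pool.Agent.Lib.helper60

/-! ### demand lists -/

/-- the parity token of a demand list -/
def tkL (kk : List ℕ) : ℕ := bif decide (kk.length % 2 = 0) then 0 else 1

/-- coordinate `i` of a demand list -/
def vlL (n : ℕ) (kk : List ℕ) (i : ℕ) : ℕ :=
  bif decide (i < n) then cnt kk i else (bif decide (i = n) then tkL kk else 0)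

/-- the vector of a demand list -/
def kvL (n : ℕ) (kk : List ℕ) : ℕ → ℤ := fun v => (vlL n kk v : ℤ)

/-- the fit test -/
def fitB (n : ℕ) (g : List ℕ) (L : List Ed) (kk : List ℕ) : Bool :=
  (List.range n).all fun v =>
    bif frB g v then decide (cnt kk v + degL L v ≤ 2) else decide (cnt kk v + degL L v = 2)

/-- the direction test (`up`: the degree at `i` goes up, the demand goes down) -/
def dirB (n : ℕ) (kk kk' : List ℕ) (i : ℕ) (up : Bool) : Bool :=
  bif up then decide (vlL n kk' i < vlL n kk i) else decide (vlL n kk i < vlL n kk' i)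

theorem tkL_eq (kk : List ℕ) : tkL kk = kk.length % 2 := by
  unfold tkL
  rcases Nat.mod_two_eq_zero_or_one kk.length with h | h
  · rw [h]; rfl
  · rw [h]; rfl

theorem vlL_lt {n : ℕ} {kk : List ℕ} {i : ℕ} (h : i < n) : vlL n kk i = cnt kk i := by
  unfold vlL
  rw [decide_eq_true h, cond_true]

theorem vlL_n {n : ℕ} {kk : List ℕ} : vlL n kk n = kk.length % 2 := by
  unfold vlL
  rw [decide_eq_false (lt_irrefl n), cond_false, decide_eq_true rfl, cond_true, tkL_eq]

theorem vlL_gt {n : ℕ} {kk : List ℕ} {i : ℕ} (h : n < i) : vlL n kk i = 0 := by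
  unfold vlL
  rw [decide_eq_false (show ¬ i < n by omega), cond_false, decide_eq_false (show ¬ i = n by omega), cond_false]

theorem fitB_iff {n : ℕ} {g : List ℕ} {L : List Ed} {kk : List ℕ} : fitB n g L kk = true ↔
    (∀ v < n, frB g v = true → cnt kk v + degL L v ≤ 2) ∧
    (∀ v < n, frB g v = false → cnt kk v + degL L v = 2) := by
  unfold fitB
  rw [List.all_eq_true]
  constructor
  · intro h
    constructor
    · intro v hv hf
      have := h v (List.mem_range.2 hv)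
      rw [hf, cond_true, decide_eq_true_eq] at this
      exact this
    · intro v hv hf
      have := h v (List.mem_range.2 hv)
      rw [hf, cond_false, decide_eq_true_eq] at this
      exact this
  · rintro ⟨h1, h2⟩ v hv
    rw [List.mem_range] at hv
    cases hf : frB g v with
    | true => rw [cond_true, decide_eq_true_eq]; exact h1 v hv hf
    | false => rw [cond_false, decide_eq_true_eq]; exact h2 v hv hf

theorem dirB_iff {n : ℕ} {kk kk' : List ℕ} {i : ℕ} {up : Bool} : dirB n kk kk' i up = true ↔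
    0 < (- sgn up) * (kvL n kk' i - kvL n kk i) := by
  unfold dirB kvL sgn
  cases up with
  | true =>
    simp only [cond_true, decide_eq_true_eq]
    constructor <;> intro h <;> omega
  | false =>
    simp only [cond_false, decide_eq_true_eq]
    constructor <;> intro h <;> omega

section
variable {x : Ins} {g : List ℕ} {X : XD}

/-- a demand list which passes the test fits -/
theorem fit_of_fitB (hn : X.n = x.1) (hT : ∀ v < x.1, (v ∈ X.T ↔ frB g v = false)) (hTn : ∀ v ∈ X.T, v < X.n)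
    {c : ℕ} {V : List ℕ} (hV : V.Nodup) (hVX : V.toFinset = X.V2) (hVn : ∀ v ∈ X.V2, v < X.n) {L : List Ed}
    (hL : WF L) {kk : List ℕ} (hk : kk ∈ asg c V) (h : fitB x.1 g L kk = true) :
    FitK X (fs L) (kvL x.1 kk) := by
  rw [fitB_iff] at h
  obtain ⟨h1, h2⟩ := h
  have hoff : ∀ v, v ∉ X.V2 → cnt kk v = 0 := by
    intro v hv
    rw [cnt_eq]
    refine (mem_asg hV hk v).2 ?_
    rw [← List.mem_toFinset, hVX]
    exact hv
  have hin : ∀ v ∈ kk, v < x.1 := by
    intro v hv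
    by_contra hc
    have h3 : v ∉ X.V2 := fun h4 => hc (hn ▸ hVn v h4)
    have h5 := hoff v h3
    have h6 := cnt_pos.2 hv
    omega
  refine ⟨?_, ?_, ?_, ?_, ?_, ?_⟩
  · intro v hv
    have hvn : v < x.1 := hn ▸ hTn v hv
    have h3 := h2 v hvn ((hT v hvn).1 hv)
    unfold kvL
    rw [vlL_lt hvn, dv_apply, ← degL_eq hL]
    omega
  · intro v hv hv2
    rw [hn] at hv
    have hf : frB g v = true := by
      cases hf : frB g v with
      | true => rfl
      | false => exact absurd ((hT v hv).2 hf) hv2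
    have h3 := h1 v hv hf
    unfold kvL
    rw [vlL_lt hv, dv_apply, ← degL_eq hL]
    omega
  · intro v hv hv2
    rw [hn] at hv
    unfold kvL
    rw [vlL_lt hv, hoff v hv2]
    rfl
  · unfold kvL
    rw [hn, vlL_n]
    rcases Nat.mod_two_eq_zero_or_one kk.length with h | h <;> rw [h] <;> simp
  · rw [hn, Finset.sum_range_succ]
    have e1 : ∑ v ∈ Finset.range x.1, kvL x.1 kk v = (kk.length : ℤ) := by
      rw [length_eq_sum_cnt kk x.1 hin, Nat.cast_sum]
      refine Finset.sum_congr rfl fun v hv => ?_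
      unfold kvL
      rw [vlL_lt (Finset.mem_range.1 hv)]
    rw [e1]
    unfold kvL
    rw [vlL_n]
    exact ⟨(kk.length + kk.length % 2 : ℕ) / 2, by omega⟩
  · intro v hv
    rw [hn] at hv
    unfold kvL
    rw [vlL_gt hv]
    rfl

/-- every fitting vector comes from a demand list -/
theorem exists_asg (hn : X.n = x.1) (hT : ∀ v < x.1, (v ∈ X.T ↔ frB g v = false)) {c : ℕ} {V : List ℕ}
    (hV : V.Nodup) (hc : V.length ≤ c) (hVX : V.toFinset = X.V2) (hVn : ∀ v ∈ X.V2, v < X.n) {L : List Ed}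
    (hL : WF L) (hm : M2 (fs L)) {k : ℕ → ℤ} (hk : FitK X (fs L) k) :
    ∃ kk ∈ asg c V, kvL x.1 kk = k ∧ fitB x.1 g L kk = true ∧ ∀ v < x.1, (cnt kk v : ℤ) = k v := by
  have hpos : ∀ v < x.1, 0 ≤ k v ∧ k v ≤ 2 := by
    intro v hv
    have h3 := hm.le v
    by_cases hvT : v ∈ X.T
    · have h1 := hk.t v hvT
      rw [dv_apply] at h1
      omega
    · have h1 := hk.f v (by rw [hn]; exact hv) hvT
      rw [dv_apply] at h1
      omega
  have hVlt : ∀ v ∈ V, v < x.1 := fun v hv => by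
    rw [← hn]; exact hVn v (hVX ▸ List.mem_toFinset.2 hv)
  obtain ⟨kk, hkk, h1, h2⟩ := asg_full hV hc (fun v => (k v).toNat) (by
    intro v hv
    have := hpos v (hVlt v hv)
    omega)
  have hcnt : ∀ v < x.1, (cnt kk v : ℤ) = k v := by
    intro v hv
    rw [cnt_eq]
    have h3 := hpos v hv
    by_cases hvV : v ∈ V
    · rw [h1 v hvV]
      omega
    · rw [h2 v hvV]
      have : v ∉ X.V2 := fun h4 => hvV (List.mem_toFinset.1 (hVX ▸ h4))
      rw [hk.off v (by rw [hn]; exact hv) this]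
      rfl
  have hin : ∀ v ∈ kk, v < x.1 := by
    intro v hv
    by_contra hc
    have h3 : v ∉ V := fun h4 => hc (hVlt v h4)
    have h5 := h2 v h3
    have h6 := cnt_pos.2 hv
    rw [cnt_eq] at h6
    omega
  have hpar := hk.par
  rw [hn, Finset.sum_range_succ] at hpar
  have e1 : ∑ v ∈ Finset.range x.1, k v = (kk.length : ℤ) := by
    rw [length_eq_sum_cnt kk x.1 hin, Nat.cast_sum]
    exact Finset.sum_congr rfl fun v hv => (hcnt v (Finset.mem_range.1 hv)).symm
  rw [e1] at hpar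
  have htok := hk.tok
  rw [hn] at htok
  have en : ((kk.length % 2 : ℕ) : ℤ) = k x.1 := by
    obtain ⟨c, hc⟩ := hpar
    rcases htok with h | h <;> rw [h] at hc ⊢ <;> omega
  refine ⟨kk, hkk, ?_, ?_, hcnt⟩
  · funext v
    unfold kvL
    rcases lt_trichotomy v x.1 with h | h | h
    · rw [vlL_lt h]; exact hcnt v h
    · subst h
      rw [vlL_n]; exact en
    · rw [vlL_gt h, hk.up v (by rw [hn]; exact h)]
      rfl
  · rw [fitB_iff]
    constructor
    · intro v hv hf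
      have hvT : v ∉ X.T := fun h => by
        rw [hT v hv, hf] at h; cases h
      have h3 := (hk.f v (by rw [hn]; exact hv) hvT).2
      rw [dv_apply, ← degL_eq hL] at h3
      have h4 := hcnt v hv
      omega
    · intro v hv hf
      have h3 := hk.t v ((hT v hv).2 hf)
      rw [dv_apply, ← degL_eq hL] at h3
      have h4 := hcnt v hv
      omega

end

/-! ### one round -/

/-- the test for an exchange -/
def exB (n : ℕ) (g : List ℕ) (L : List Ed) (kk : List ℕ) (L' : List Ed) (kk' : List ℕ) (i : ℕ)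
    (up : Bool) : Bool := fitB n g L kk && (fitB n g L' kk' && dirB n kk kk' i up)

/-- all exchanges -/
def xL (x : Ins) (g : List ℕ) (I : List ℕ) (As : List (List ℕ)) (P : List (List Ed)) : List (List Ed) :=
  P.flatMap fun L => P.flatMap fun L' => As.flatMap fun kk => As.flatMap fun kk' => I.flatMap fun i =>
    [true, false].flatMap fun up =>
      bif exB x.1 g L kk L' kk' i up then [exW x g L kk L' kk' i up] else []

/-- all deletions -/
def dL (Sb P : List (List Ed)) : List (List Ed) := P.flatMap fun L => Sb.map fun H => rest L H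

/-- the test for an addition -/
def aOK (x : Ins) (g : List ℕ) (En L M : List Ed) : Bool :=
  ((List.range x.1).all fun v => decide (degL M v ≤ 2)) &&
    ((sqG x).all fun q => !(harm g q && sqIn M q) || (sqIn L q || (sqE q).any fun e => hasE En e))

/-- all additions -/
def aL (x : Ins) (g : List ℕ) (En : List Ed) (Sb P : List (List Ed)) : List (List Ed) :=
  P.flatMap fun L => Sb.flatMap fun K =>
    bif aOK x g En L (nrm x (L ++ K)) then [nrm x (L ++ K)] else []

/-- one round -/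
def rX (x : Ins) (g : List ℕ) (En : List Ed) (I : List ℕ) (As : List (List ℕ)) (Sb P : List (List Ed)) :
    List (List Ed) := P ++ (dL Sb P ++ (aL x g En Sb P ++ xL x g I As P))

/-- the start -/
def stX (F : List Ed) (W : List (ℕ × List Ed)) (Q R B : Sq4) : List (List Ed) :=
  F :: (cor Q R B).map fun w => lookW W w

/-- **the pool** -/
def poolX (x : Ins) (g : List ℕ) (F : List Ed) (W : List (ℕ × List Ed)) (Q R B : Sq4) : ℕ → List (List Ed)
  | 0 => stX F W Q R B
  | t + 1 => rX x g (EnL x F W Q R B) (x.1 :: V2L x F W Q R B) (asg cV2 (V2L x F W Q R B)) (subl cE2 (E2L x F W Q R B))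
      (poolX x g F W Q R B t)

theorem mem_cond {α : Type} {b : Bool} {a z : α} : z ∈ (bif b then [a] else []) ↔ b = true ∧ z = a := by
  cases b with
  | true => rw [cond_true, List.mem_singleton]; simp
  | false => rw [cond_false]; simp

theorem mem_xL {x : Ins} {g I : List ℕ} {As : List (List ℕ)} {P : List (List Ed)} {z : List Ed} :
    z ∈ xL x g I As P ↔ ∃ L ∈ P, ∃ L' ∈ P, ∃ kk ∈ As, ∃ kk' ∈ As, ∃ i ∈ I, ∃ up : Bool,
      exB x.1 g L kk L' kk' i up = true ∧ z = exW x g L kk L' kk' i up := by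
  unfold xL
  constructor
  · intro h
    obtain ⟨L, hL, h⟩ := List.mem_flatMap.1 h
    obtain ⟨L', hL', h⟩ := List.mem_flatMap.1 h
    obtain ⟨kk, hkk, h⟩ := List.mem_flatMap.1 h
    obtain ⟨kk', hkk', h⟩ := List.mem_flatMap.1 h
    obtain ⟨i, hi, h⟩ := List.mem_flatMap.1 h
    obtain ⟨up, hup, h⟩ := List.mem_flatMap.1 h
    exact ⟨L, hL, L', hL', kk, hkk, kk', hkk', i, hi, up, mem_cond.1 h⟩
  · rintro ⟨L, hL, L', hL', kk, hkk, kk', hkk', i, hi, up, h⟩
    refine List.mem_flatMap.2 ⟨L, hL, List.mem_flatMap.2 ⟨L', hL', List.mem_flatMap.2 ⟨kk, hkk,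
      List.mem_flatMap.2 ⟨kk', hkk', List.mem_flatMap.2 ⟨i, hi, List.mem_flatMap.2 ⟨up, ?_,
        mem_cond.2 h⟩⟩⟩⟩⟩⟩
    cases up <;> simp

theorem mem_dL {Sb P : List (List Ed)} {z : List Ed} : z ∈ dL Sb P ↔ ∃ L ∈ P, ∃ H ∈ Sb, z = rest L H := by
  unfold dL
  constructor
  · intro h
    obtain ⟨L, hL, h⟩ := List.mem_flatMap.1 h
    obtain ⟨H, hH, rfl⟩ := List.mem_map.1 h
    exact ⟨L, hL, H, hH, rfl⟩
  · rintro ⟨L, hL, H, hH, rfl⟩
    exact List.mem_flatMap.2 ⟨L, hL, List.mem_map.2 ⟨H, hH, rfl⟩⟩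

theorem mem_aL {x : Ins} {g : List ℕ} {En : List Ed} {Sb P : List (List Ed)} {z : List Ed} :
    z ∈ aL x g En Sb P ↔ ∃ L ∈ P, ∃ K ∈ Sb, aOK x g En L (nrm x (L ++ K)) = true ∧ z = nrm x (L ++ K) := by
  unfold aL
  constructor
  · intro h
    obtain ⟨L, hL, h⟩ := List.mem_flatMap.1 h
    obtain ⟨K, hK, h⟩ := List.mem_flatMap.1 h
    exact ⟨L, hL, K, hK, mem_cond.1 h⟩
  · rintro ⟨L, hL, K, hK, h⟩
    exact List.mem_flatMap.2 ⟨L, hL, List.mem_flatMap.2 ⟨K, hK, mem_cond.2 h⟩⟩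

theorem mem_rX {x : Ins} {g : List ℕ} {En : List Ed} {I : List ℕ} {As : List (List ℕ)}
    {Sb P : List (List Ed)} {z : List Ed} :
    z ∈ rX x g En I As Sb P ↔ z ∈ P ∨ z ∈ dL Sb P ∨ z ∈ aL x g En Sb P ∨ z ∈ xL x g I As P := by
  unfold rX
  rw [List.mem_append, List.mem_append, List.mem_append]

/-! ### squares -/

theorem opp_aux {a b c d p q r : ℕ} (h : Dist4 a b c d) (h' : Dist4 a p q r)
    (e : TFC.sq a p q r = TFC.sq a b c d) : q = c := by
  obtain ⟨h1, h2, h3, h4, h5, h6⟩ := h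
  obtain ⟨g1, g2, g3, g4, g5, g6⟩ := h'
  have e1 : s(a, p) ∈ TFC.sq a b c d := by rw [← e]; simp [TFC.sq]
  have e2 : s(p, q) ∈ TFC.sq a b c d := by rw [← e]; simp [TFC.sq]
  simp only [TFC.sq, Finset.mem_insert, Finset.mem_singleton, Sym2.eq_iff] at e1 e2
  omega

theorem opp_of {a b c d p q r s : ℕ} (h : Dist4 a b c d) (h' : Dist4 p q r s)
    (e : TFC.sq p q r s = TFC.sq a b c d) :
    (p = a ∧ r = c) ∨ (p = c ∧ r = a) ∨ (q = a ∧ s = c) ∨ (q = c ∧ s = a) := by
  have ha : a = p ∨ a = q ∨ a = r ∨ a = s := by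
    have e1 : s(a, b) ∈ TFC.sq p q r s := by rw [e]; simp [TFC.sq]
    simp only [TFC.sq, Finset.mem_insert, Finset.mem_singleton, Sym2.eq_iff] at e1
    omega
  have h0 := h'
  obtain ⟨g1, g2, g3, g4, g5, g6⟩ := h'
  rcases ha with rfl | rfl | rfl | rfl
  · have := opp_aux h h0 e
    exact Or.inl ⟨rfl, this⟩
  · rw [← sq_rot'] at e
    have := opp_aux h (show Dist4 a r s p from ⟨g4, g5, Ne.symm g1, g6, Ne.symm g2, Ne.symm g3⟩) e
    exact Or.inr (Or.inr (Or.inl ⟨rfl, this⟩))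
  · rw [← sq_rot', ← sq_rot'] at e
    have := opp_aux h (show Dist4 a s p q from ⟨g6, Ne.symm g2, Ne.symm g4, Ne.symm g3, Ne.symm g5, g1⟩) e
    exact Or.inr (Or.inl ⟨this, rfl⟩)
  · rw [← sq_rot', ← sq_rot', ← sq_rot'] at e
    have := opp_aux h (show Dist4 a p q r from ⟨Ne.symm g3, Ne.symm g5, Ne.symm g6, g1, g2, g4⟩) e
    exact Or.inr (Or.inr (Or.inr ⟨this, rfl⟩))

/-- the square `q` has two opposite corners in `T` -/
theorem Hs_iff {T : Finset ℕ} {q : Sq4} (h : SqOK q) :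
    Hs T (sqs q) ↔ (q.1 ∈ T ∧ q.2.2.1 ∈ T) ∨ (q.2.1 ∈ T ∧ q.2.2.2 ∈ T) := by
  obtain ⟨p, q, r, s⟩ := q
  have h0 : Dist4 p q r s := h
  constructor
  · rintro ⟨a, b, c, d, h1, h2, h3, h4⟩
    have e : TFC.sq p q r s = TFC.sq a b c d := h2
    rcases opp_of h1 h0 e with ⟨rfl, rfl⟩ | ⟨rfl, rfl⟩ | ⟨rfl, rfl⟩ | ⟨rfl, rfl⟩
    · exact Or.inl ⟨h3, h4⟩
    · exact Or.inl ⟨h4, h3⟩
    · exact Or.inr ⟨h3, h4⟩
    · exact Or.inr ⟨h4, h3⟩
  · rintro (⟨h3, h4⟩ | ⟨h3, h4⟩)
    · exact ⟨p, q, r, s, h0, rfl, h3, h4⟩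
    · obtain ⟨g1, g2, g3, g4, g5, g6⟩ := h0
      exact ⟨q, r, s, p, ⟨g4, g5, Ne.symm g1, g6, Ne.symm g2, Ne.symm g3⟩, (sq_rot' p q r s).symm, h3, h4⟩

section
variable {x : Ins} {g : List ℕ} {F : List Ed} {W : List (ℕ × List Ed)} {Q R B : Sq4}

theorem mem_xdT {v : ℕ} : v ∈ (xd x g F W Q R B).T ↔ v < x.1 ∧ g.getD v 0 = 2 := by
  show v ∈ (Finset.range x.1).filter (fun v => g.getD v 0 = 2) ↔ _
  rw [Finset.mem_filter, Finset.mem_range]

theorem xdT_fr (hg : ∀ u < x.1, g.getD u 0 = 0 ∨ g.getD u 0 = 2) {v : ℕ} (hv : v < x.1) :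
    v ∈ (xd x g F W Q R B).T ↔ frB g v = false := by
  rw [mem_xdT]
  unfold frB
  rw [decide_eq_false_iff_not]
  have := hg v hv
  constructor
  · rintro ⟨_, h⟩; omega
  · intro h; exact ⟨hv, by omega⟩

theorem harm_iff (hg : ∀ u < x.1, g.getD u 0 = 0 ∨ g.getD u 0 = 2) {q : Sq4} (hq : q ∈ sqG x) :
    harm g q = true ↔ Hs (xd x g F W Q R B).T (sqs q) := by
  rw [Hs_iff (sqG_ok q hq), mem_xdT, mem_xdT, mem_xdT, mem_xdT]
  obtain ⟨⟨h1, h2, h3, h4⟩, _⟩ := mem_sqG.1 hq
  have g1 := hg _ h1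
  have g2 := hg _ h2
  have g3 := hg _ h3
  have g4 := hg _ h4
  unfold harm
  rw [Bool.or_eq_true, Bool.and_eq_true, Bool.and_eq_true, decide_eq_true_eq, decide_eq_true_eq,
    decide_eq_true_eq, decide_eq_true_eq]
  constructor
  · rintro (⟨h5, h6⟩ | ⟨h5, h6⟩)
    · exact Or.inl ⟨⟨h1, by omega⟩, ⟨h3, by omega⟩⟩
    · exact Or.inr ⟨⟨h2, by omega⟩, ⟨h4, by omega⟩⟩
  · rintro (⟨h5, h6⟩ | ⟨h5, h6⟩)
    · exact Or.inl ⟨by omega, by omega⟩
    · exact Or.inr ⟨by omega, by omega⟩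

/-- a harmful square of the graph has a canonical form -/
theorem Hs_full (hx : InsWF x) (hg : ∀ u < x.1, g.getD u 0 = 0 ∨ g.getD u 0 = 2) {Z : Finset (Sym2 ℕ)}
    (h : Hs (xd x g F W Q R B).T Z) (hZ : Z ⊆ fs x.2) : ∃ q ∈ sqG x, sqs q = Z ∧ harm g q = true := by
  have h' := h
  obtain ⟨a, b, c, d, h1, rfl, h2, h3⟩ := h'
  have hs : Sq (fs x.2) a b c d := by
    refine ⟨h1.2.1, h1.2.2.2.2.1, ?_, ?_, ?_, ?_⟩
    all_goals
      apply hZ
      simp [TFC.sq]
  obtain ⟨q, hq, e⟩ := sqG_full hx hs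
  refine ⟨q, hq, e, ?_⟩
  rw [harm_iff (F := F) (W := W) (Q := Q) (R := R) hg hq, e]
  exact h

end

end Pool.Agent.PF4.XF
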