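import Pool.Agent.PF4.XB2

/-!
The pool for `xf1` is a staged pool.
-/

set_option autoImplicit false

namespace Pool.Agent.PF4.XF

open Finset Pool.Agent.TFC Pool.Agent.PF4 Pool.Agent.Lib.helper60

/-- a member of the pool -/
structure PM (X : XD) (l : List Ed) : Prop where
  wf : WF l
  m2 : M2 (fs l)
  sub : fs l ⊆ X.E

/-- demands 0 and 2 -/
def Ev2 (x : Ins) (g : List ℕ) : Prop := ∀ u < x.1, g.getD u 0 = 0 ∨ g.getD u 0 = 2

section
variable {x : Ins} {g : List ℕ} {F : List Ed} {W : List (ℕ × List Ed)} {Q R B : Sq4}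

theorem B1.rel (h : B1 x F W Q R B) (hg : Ev2 x g) : XRel x g (xd x g F W Q R B) where
  n := rfl
  e := h.sub
  t := fun _ hv => xdT_fr hg hv
  tl := fun _ hv => (mem_xdT.1 hv).1

theorem B1.v2 (_h : B1 x F W Q R B) : (V2L x F W Q R B).toFinset = (xd x g F W Q R B).V2 := rfl

theorem B1.v2n (_h : B1 x F W Q R B) : (V2L x F W Q R B).Nodup := nub_nodup _

theorem B1.e2 (_h : B1 x F W Q R B) : fs (E2L x F W Q R B) = (xd x g F W Q R B).E2 := rfl

theorem B1.m2_of (h : B1 x F W Q R B) {M : List Ed} (hM : fs M ⊆ fs x.2) (hw : WF M)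
    (hd : ∀ v < x.1, degL M v ≤ 2) : M2 (fs M) := by
  refine ⟨h.wf.nl.mono hM, ?_⟩
  intro v
  by_cases hv : v < x.1
  · rw [← degL_eq hw]; exact hd v hv
  · have : dg (fs M) v = 0 := by
      rw [dg, Finset.card_eq_zero, Finset.filter_eq_empty_iff]
      intro e he hve
      exact hv (h.wf.vlt (hM he) hve)
    omega

/-- what the test `aOK` says -/
theorem aOK_iff (_h : B1 x F W Q R B) {L M : List Ed} : aOK x g (EnL x F W Q R B) L M = true ↔
    (∀ v < x.1, degL M v ≤ 2) ∧ ∀ q ∈ sqG x, harm g q = true → sqs q ⊆ fs M →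
      sqs q ⊆ fs L ∨ ∃ e ∈ sqs q, e ∈ (xd x g F W Q R B).En := by
  unfold aOK
  rw [Bool.and_eq_true, List.all_eq_true, List.all_eq_true]
  refine and_congr ?_ ?_
  · constructor
    · intro h1 v hv
      have := h1 v (List.mem_range.2 hv)
      rw [decide_eq_true_eq] at this
      exact this
    · intro h1 v hv
      rw [decide_eq_true_eq]
      exact h1 v (List.mem_range.1 hv)
  · refine forall₂_congr fun q hq => ?_
    rw [Bool.or_eq_true, Bool.or_eq_true, Bool.not_eq_true', Bool.and_eq_false_iff, List.any_eq_true,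
      ← Bool.not_eq_true, ← Bool.not_eq_true, sqIn_iff, sqIn_iff]
    have e1 : (∃ e ∈ sqE q, hasE (EnL x F W Q R B) e = true) ↔ ∃ e ∈ sqs q, e ∈ (xd x g F W Q R B).En := by
      constructor
      · rintro ⟨e, he, h2⟩
        rw [hasE_iff] at h2
        refine ⟨fe e, ?_, h2⟩
        rw [← fs_sqE]
        exact fe_mem_fs he
      · rintro ⟨e, he, h2⟩
        rw [← fs_sqE] at he
        obtain ⟨f, hf, rfl⟩ := mem_fs.1 he
        exact ⟨f, hf, by rw [hasE_iff]; exact h2⟩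
    rw [e1]
    tauto

theorem PM.rest {X : XD} {l : List Ed} (h : PM X l) (H : List Ed) : PM X (rest l H) := by
  have : fs (PF4.rest l H) ⊆ fs l := by rw [fs_rest]; exact Finset.sdiff_subset
  exact ⟨h.wf.rest H, h.m2.mono this, this.trans h.sub⟩

theorem B1.add_sub (h : B1 x F W Q R B) {L K : List Ed} (hL : PM (xd x g F W Q R B) L)
    (hK : fs K ⊆ (xd x g F W Q R B).E2) : fs (nrm x (L ++ K)) = fs L ∪ fs K ∧
      fs (nrm x (L ++ K)) ⊆ (xd x g F W Q R B).E ∧ WF (nrm x (L ++ K)) := by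
  have h1 : fs (L ++ K) ⊆ (xd x g F W Q R B).E := by
    rw [fs_append]
    exact Finset.union_subset hL.sub (hK.trans (h.ok g).e2)
  have h2 : fs (nrm x (L ++ K)) = fs (L ++ K) := fs_nrm (h1.trans h.sub)
  refine ⟨by rw [h2, fs_append], by rw [h2]; exact h1, h.wf.wf.norm _⟩

theorem B1.pm_add (h : B1 x F W Q R B) {L K : List Ed} (hL : PM (xd x g F W Q R B) L)
    (hK : fs K ⊆ (xd x g F W Q R B).E2) (ha : aOK x g (EnL x F W Q R B) L (nrm x (L ++ K)) = true) :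
    PM (xd x g F W Q R B) (nrm x (L ++ K)) := by
  obtain ⟨h1, h2, h3⟩ := h.add_sub hL hK
  exact ⟨h3, h.m2_of (h2.trans h.sub) h3 ((aOK_iff h).1 ha).1, h2⟩

/-- the arguments of an exchange -/
theorem B1.pa (h : B1 x F W Q R B) (hg : Ev2 x g) {L : List Ed} (hL : PM (xd x g F W Q R B) L)
    {kk : List ℕ} (hk : kk ∈ asg cV2 (V2L x F W Q R B)) (hf : fitB x.1 g L kk = true) :
    PA x g (xd x g F W Q R B) L kk (kvL x.1 kk) where
  wf := hL.wf
  m2 := hL.m2
  sub := hL.sub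
  fit := fit_of_fitB (X := xd x g F W Q R B) rfl (fun v hv => xdT_fr hg hv) (h.ok g).tn h.v2n h.v2 (h.ok g).vn
    hL.wf hk hf
  kk := by
    intro v hv
    unfold kvL
    rw [vlL_lt hv]

theorem B1.i_le (h : B1 x F W Q R B) {i : ℕ} (hi : i ∈ x.1 :: V2L x F W Q R B) : i ≤ x.1 := by
  rcases List.mem_cons.1 hi with rfl | hi
  · exact le_rfl
  · have : i ∈ (xd x [] F W Q R B).V2 := List.mem_toFinset.2 hi
    exact le_of_lt ((h.ok []).vn i this)

/-- the result of an exchange -/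
theorem B1.ex_res (h : B1 x F W Q R B) (hg : Ev2 x g) {L L' : List Ed} (hL : PM (xd x g F W Q R B) L)
    (hL' : PM (xd x g F W Q R B) L') {kk kk' : List ℕ} (hk : kk ∈ asg cV2 (V2L x F W Q R B))
    (hk' : kk' ∈ asg cV2 (V2L x F W Q R B)) {i : ℕ} (hi : i ∈ x.1 :: V2L x F W Q R B) {up : Bool}
    (hb : exB x.1 g L kk L' kk' i up = true) :
    PM (xd x g F W Q R B) (exW x g L kk L' kk' i up) ∧ ∃ k'',
      FitK (xd x g F W Q R B) (fs (exW x g L kk L' kk' i up)) k'' ∧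
      fs (exW x g L kk L' kk' i up) ⊆ fs L ∪ fs L' ∧
      (∀ Z, IsSq Z → Z ⊆ fs (exW x g L kk L' kk' i up) → Z ⊆ fs L ∨ Z ⊆ fs L') ∧
      Two (kvL x.1 kk) (kvL x.1 kk') k'' i (- sgn up) := by
  unfold exB at hb
  rw [Bool.and_eq_true, Bool.and_eq_true] at hb
  obtain ⟨b1, b2, b3⟩ := hb
  obtain ⟨k'', h1, h2, h3, h4, h5⟩ := exW_spec h.wf (h.rel hg) (h.pa hg hL hk b1) (h.pa hg hL' hk' b2)
    (h.i_le hi) (dirB_iff.1 b3)
  exact ⟨⟨h1.1, h1.2, h3.trans (Finset.union_subset hL.sub hL'.sub)⟩, k'', h2, h3, h4, h5⟩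

theorem B1.pm_start (h : B1 x F W Q R B) : ∀ l ∈ stX F W Q R B, PM (xd x g F W Q R B) l := by
  intro l hl
  rcases List.mem_cons.1 hl with rfl | hl
  · exact ⟨h.f.wf, h.f.m2, fun e he => mem_EL.2 (Or.inl he)⟩
  · obtain ⟨w, hw, rfl⟩ := List.mem_map.1 hl
    have := lookW_mg h.w w
    exact ⟨this.wf, this.m2, fun e he => mem_EL.2 (Or.inr (Or.inl ⟨w, hw, he⟩))⟩

theorem B1.pm (h : B1 x F W Q R B) (hg : Ev2 x g) (t : ℕ) : ∀ l ∈ poolX x g F W Q R B t, PM (xd x g F W Q R B) l := by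
  induction t with
  | zero => exact h.pm_start
  | succ t ih =>
    intro l hl
    rcases mem_rX.1 hl with hl | hl | hl | hl
    · exact ih l hl
    · obtain ⟨L, hL, H, _, rfl⟩ := mem_dL.1 hl
      exact (ih L hL).rest H
    · obtain ⟨L, hL, K, hK, ha, rfl⟩ := mem_aL.1 hl
      exact h.pm_add (ih L hL) (fs_subl hK) ha
    · obtain ⟨L, hL, L', hL', kk, hkk, kk', hkk', i, hi, up, hb, rfl⟩ := mem_xL.1 hl
      exact (h.ex_res hg (ih L hL) (ih L' hL') hkk hkk' hi hb).1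

/-- the pool as a family of finite sets -/
def PX (x : Ins) (g : List ℕ) (F : List Ed) (W : List (ℕ × List Ed)) (Q R B : Sq4) (t : ℕ)
    (L : Finset (Sym2 ℕ)) : Prop := ∃ l ∈ poolX x g F W Q R B t, fs l = L

/-- **the pool is a staged pool** -/
theorem B1.xp (h : B1 x F W Q R B) (hg : Ev2 x g) : XP (xd x g F W Q R B) (PX x g F W Q R B) where
  mono := by
    rintro t _ ⟨l, hl, rfl⟩
    exact ⟨l, mem_rX.2 (Or.inl hl), rfl⟩
  m2 := by
    rintro t _ ⟨l, hl, rfl⟩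
    exact ⟨(h.pm hg t l hl).m2, (h.pm hg t l hl).sub⟩
  del := by
    rintro t _ H ⟨l, hl, rfl⟩ hH
    obtain ⟨s, h1, _, h3⟩ := subl_full h.lE2 H hH
    exact ⟨rest l s, mem_rX.2 (Or.inr (Or.inl (mem_dL.2 ⟨l, hl, s, h1, rfl⟩))), by rw [fs_rest, h3]⟩
  add := by
    rintro t _ K ⟨l, hl, rfl⟩ hK hm hq
    obtain ⟨s, h1, _, h3⟩ := subl_full h.lE2 K hK
    have hpm := h.pm hg t l hl
    obtain ⟨a1, a2, a3⟩ := h.add_sub hpm (K := s) (by rw [h3]; exact hK)
    rw [h3] at a1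
    refine ⟨nrm x (l ++ s), mem_rX.2 (Or.inr (Or.inr (Or.inl (mem_aL.2 ⟨l, hl, s, h1, ?_, rfl⟩)))), a1⟩
    rw [aOK_iff h]
    constructor
    · intro v _
      rw [degL_eq a3, a1]
      exact hm.le v
    · intro q hqG hh hs
      rw [a1] at hs
      exact hq (sqs q) ((harm_iff hg hqG).1 hh) hs
  ex := by
    rintro t _ _ k k' ⟨l, hl, rfl⟩ ⟨l', hl', rfl⟩ hk hk' i ε hi hε hd
    have hpm := h.pm hg t l hl
    have hpm' := h.pm hg t l' hl'
    obtain ⟨kk, a1, a2, a3, _⟩ := exists_asg (X := xd x g F W Q R B) (c := cV2) rfl (fun v hv => xdT_fr hg hv)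
      h.v2n h.lV2 h.v2 (h.ok g).vn hpm.wf hpm.m2 hk
    obtain ⟨kk', b1, b2, b3, _⟩ := exists_asg (X := xd x g F W Q R B) (c := cV2) rfl (fun v hv => xdT_fr hg hv)
      h.v2n h.lV2 h.v2 (h.ok g).vn hpm'.wf hpm'.m2 hk'
    have hi' : i ∈ x.1 :: V2L x F W Q R B := by
      rcases hi with hi | hi
      · exact List.mem_cons_of_mem _ (List.mem_toFinset.1 hi)
      · rw [hi]; exact List.mem_cons_self
    have key : ∀ up : Bool, - sgn up = ε → ∃ L'' k'', PX x g F W Q R B (t + 1) L'' ∧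
        FitK (xd x g F W Q R B) L'' k'' ∧ L'' ⊆ fs l ∪ fs l' ∧
        (∀ Z, IsSq Z → Z ⊆ L'' → Z ⊆ fs l ∨ Z ⊆ fs l') ∧ Two k k' k'' i ε := by
      rintro up rfl
      have hb : exB x.1 g l kk l' kk' i up = true := by
        unfold exB
        rw [Bool.and_eq_true, Bool.and_eq_true, dirB_iff, a2, b2]
        exact ⟨a3, b3, hd⟩
      obtain ⟨_, k'', c2, c3, c4, c5⟩ := h.ex_res hg hpm hpm' a1 b1 hi' hb
      rw [a2, b2] at c5
      exact ⟨_, k'', ⟨_, mem_rX.2 (Or.inr (Or.inr (Or.inr (mem_xL.2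
        ⟨l, hl, l', hl', kk, a1, kk', b1, i, hi', up, hb, rfl⟩)))), rfl⟩, c2, c3, c4, c5⟩
    rcases hε with rfl | rfl
    · exact key false (by simp [sgn])
    · exact key true (by simp [sgn])

/-- **the harmful squares of the members of the pool** -/
theorem B1.inv (h : B1 x F W Q R B) (hg : Ev2 x g)
    (hw : ∀ w ∈ cor Q R B, ∀ q ∈ sqG x, sqIn (lookW W w) q = false) (t : ℕ) (L Z : Finset (Sym2 ℕ))
    (hL : PX x g F W Q R B t L) (hZ : Hs (xd x g F W Q R B).T Z) (hs : Z ⊆ L) :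
    (Z ⊆ fs F ∧ Z ≠ sqs Q) ∨ ∃ e ∈ Z, e ∈ (xd x g F W Q R B).En := by
  -- the edges of `Q` are near edges
  have hQn : ∃ e ∈ sqs Q, e ∈ (xd x g F W Q R B).En := by
    refine ⟨s(Q.1, Q.2.1), by simp [sqs, TFC.sq], ?_⟩
    refine mem_En.2 ⟨mem_EL.2 (Or.inr (Or.inr (Or.inl (by simp [sqs, TFC.sq])))), Q.1, ?_, by simp⟩
    exact SL_mono (Nat.zero_le 4) (by show Q.1 ∈ cor Q R B; simp [cor])
  induction t generalizing L Z with
  | zero =>
    obtain ⟨l, hl, rfl⟩ := hL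
    rcases List.mem_cons.1 hl with rfl | hl
    · by_cases hZQ : Z = sqs Q
      · right
        rw [hZQ]; exact hQn
      · exact Or.inl ⟨hs, hZQ⟩
    · obtain ⟨w, hw', rfl⟩ := List.mem_map.1 hl
      obtain ⟨q, hq, e, _⟩ := Hs_full h.wf hg hZ (hs.trans (lookW_mg h.w w).sub)
      have h1 := hw w hw' q hq
      rw [← Bool.not_eq_true, sqIn_iff, e] at h1
      exact absurd hs h1
  | succ t ih =>
    obtain ⟨l, hl, rfl⟩ := hL
    rcases mem_rX.1 hl with hl | hl | hl | hl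
    · exact ih _ Z ⟨l, hl, rfl⟩ hZ hs
    · obtain ⟨L, hL, H, _, rfl⟩ := mem_dL.1 hl
      refine ih _ Z ⟨L, hL, rfl⟩ hZ (hs.trans ?_)
      rw [fs_rest]; exact Finset.sdiff_subset
    · obtain ⟨L, hL, K, hK, ha, rfl⟩ := mem_aL.1 hl
      have hpm := h.pm (g := g) hg t L hL
      obtain ⟨a1, a2, _⟩ := h.add_sub hpm (K := K) (fs_subl hK)
      obtain ⟨q, hq, e, hh⟩ := Hs_full h.wf hg hZ (hs.trans (a2.trans h.sub))
      rcases ((aOK_iff h).1 ha).2 q hq hh (by rw [e]; exact hs) with h1 | h1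
      · rw [e] at h1
        exact ih _ Z ⟨L, hL, rfl⟩ hZ h1
      · rw [e] at h1
        exact Or.inr h1
    · obtain ⟨L, hL, L', hL', kk, hkk, kk', hkk', i, hi, up, hb, rfl⟩ := mem_xL.1 hl
      obtain ⟨_, k'', _, _, c4, _⟩ := h.ex_res hg (h.pm hg t L hL) (h.pm hg t L' hL') hkk hkk' hi hb
      rcases c4 Z hZ.isSq hs with h1 | h1
      · exact ih _ Z ⟨L, hL, rfl⟩ hZ h1
      · exact ih _ Z ⟨L', hL', rfl⟩ hZ h1

/-- every edge with an end at distance at most 4 from the corners is a near edge -/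
theorem B1.rch (_h : B1 x F W Q R B) (v : ℕ) (hv : Rch (xd x g F W Q R B).E (cr Q ∪ cr R ∪ cr B) 4 v) :
    ∀ e ∈ (xd x g F W Q R B).E, v ∈ e → e ∈ (xd x g F W Q R B).En := by
  have key : ∀ k v, Rch (xd x g F W Q R B).E (cr Q ∪ cr R ∪ cr B) k v → v ∈ SL x F W Q R B k := by
    intro k
    induction k with
    | zero =>
      intro v hv
      have hv' : v ∈ cr Q ∪ cr R ∪ cr B := hv
      show v ∈ cor Q R B
      rw [Finset.mem_union, Finset.mem_union] at hv'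
      simp only [cr, Finset.mem_insert, Finset.mem_singleton] at hv'
      simp only [cor, List.mem_cons, List.not_mem_nil, or_false]
      tauto
    | succ k ih =>
      rintro v (hv | ⟨u, hu, he⟩)
      · exact SL_mono (Nat.le_succ k) (ih v hv)
      · exact SL_step (ih u hu) he
  intro e he hve
  exact mem_En.2 ⟨he, v, key 4 v hv, hve⟩

theorem B1.sv (_h : B1 x F W Q R B) : ∀ v ∈ cr Q ∪ cr R ∪ cr B, v ∈ (xd x g F W Q R B).V2 := by
  intro v hv
  have h1 : v ∈ cor Q R B := by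
    rw [Finset.mem_union, Finset.mem_union] at hv
    simp only [cr, Finset.mem_insert, Finset.mem_singleton] at hv
    simp only [cor, List.mem_cons, List.not_mem_nil, or_false]
    tauto
  exact List.mem_toFinset.2 (mem_V2.2 (Or.inl h1))

end

end Pool.Agent.PF4.XF
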