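import Pool.Agent.PF4.XB3

/-!
The pool for `xf1` is computed in polynomial time.
-/

set_option autoImplicit false

namespace Pool.Agent.PF4.XF

open Finset Pool.Agent.TFC Pool.Agent.PF4 Pool.Agent.Lib.helper60

section
variable {ι : Type} [DEnc ι]

theorem pt_tkL {kk : ι → List ℕ} (hk : PT kk) : PT (fun y => tkL (kk y)) :=
  PT.cond (pt_even (PT.length hk)) (PT.const 0) (PT.const 1)

theorem pt_vlL {n : ι → ℕ} {kk : ι → List ℕ} {i : ι → ℕ} (hn : PT n) (hk : PT kk) (hi : PT i) :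
    PT (fun y => vlL (n y) (kk y) (i y)) :=
  PT.cond (PT.nlt hi hn) (pt_cnt' hk hi) (PT.cond (PT.neq hi hn) (pt_tkL hk) (PT.const 0))

theorem pt_fitB {n : ι → ℕ} {g : ι → List ℕ} {L : ι → List Ed} {kk : ι → List ℕ} (hn : PT n) (hg : PT g)
    (hL : PT L) (hk : PT kk) : PT (fun y => fitB (n y) (g y) (L y) (kk y)) := by
  have h1 : PT (fun z : ι × ℕ => cnt (kk z.1) z.2 + degL (L z.1) z.2) :=
    PT.nadd (pt_cnt' (hk.comp PT.fst) PT.snd) (pt_degL (hL.comp PT.fst) PT.snd)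
  exact PT.all (PT.range hn) (p := fun z : ι × ℕ => bif frB (g z.1) z.2 then
      decide (cnt (kk z.1) z.2 + degL (L z.1) z.2 ≤ 2) else decide (cnt (kk z.1) z.2 + degL (L z.1) z.2 = 2))
    (PT.cond (pt_frB (hg.comp PT.fst) PT.snd) (PT.nle h1 (PT.const 2)) (PT.neq h1 (PT.const 2)))

theorem pt_dirB {n : ι → ℕ} {kk kk' : ι → List ℕ} {i : ι → ℕ} {up : ι → Bool} (hn : PT n) (hk : PT kk)
    (hk' : PT kk') (hi : PT i) (hu : PT up) : PT (fun y => dirB (n y) (kk y) (kk' y) (i y) (up y)) :=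
  PT.cond hu (PT.nlt (pt_vlL hn hk' hi) (pt_vlL hn hk hi)) (PT.nlt (pt_vlL hn hk hi) (pt_vlL hn hk' hi))

/-- the arguments of one exchange -/
abbrev XArg := (Ins × List ℕ) × (List Ed × List Ed) × (List ℕ × List ℕ) × ℕ × Bool

/-- one exchange -/
def x1 (a : XArg) : List (List Ed) :=
  bif exB a.1.1.1 a.1.2 a.2.1.1 a.2.2.1.1 a.2.1.2 a.2.2.1.2 a.2.2.2.1 a.2.2.2.2 then
    [exW a.1.1 a.1.2 a.2.1.1 a.2.2.1.1 a.2.1.2 a.2.2.1.2 a.2.2.2.1 a.2.2.2.2] else []

theorem pt_x1 : PT x1 := by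
  have hx : PT (fun a : XArg => a.1.1) := PT.p1 PT.fst
  have hg : PT (fun a : XArg => a.1.2) := PT.p2 PT.fst
  have hL : PT (fun a : XArg => a.2.1.1) := PT.p1 (PT.p1 PT.snd)
  have hL' : PT (fun a : XArg => a.2.1.2) := PT.p2 (PT.p1 PT.snd)
  have hk : PT (fun a : XArg => a.2.2.1.1) := PT.p1 (PT.p1 (PT.p2 PT.snd))
  have hk' : PT (fun a : XArg => a.2.2.1.2) := PT.p2 (PT.p1 (PT.p2 PT.snd))
  have hi : PT (fun a : XArg => a.2.2.2.1) := PT.p1 (PT.p2 (PT.p2 PT.snd))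
  have hu : PT (fun a : XArg => a.2.2.2.2) := PT.p2 (PT.p2 (PT.p2 PT.snd))
  exact PT.cond (PT.band (pt_fitB (PT.p1 hx) hg hL hk) (PT.band (pt_fitB (PT.p1 hx) hg hL' hk')
      (pt_dirB (PT.p1 hx) hk hk' hi hu)))
    (PT.cons (pt_exW hx hg hL hk hL' hk' hi hu) (PT.const [])) (PT.const [])

theorem pt_xL {x : ι → Ins} {g I : ι → List ℕ} {As : ι → List (List ℕ)} {P : ι → List (List Ed)}
    (hx : PT x) (hg : PT g) (hI : PT I) (hA : PT As) (hP : PT P) :
    PT (fun y => xL (x y) (g y) (I y) (As y) (P y)) := by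
  -- the contexts
  have c6 : PT (fun z : (((((ι × List Ed) × List Ed) × List ℕ) × List ℕ) × ℕ) × Bool =>
      x1 ((x z.1.1.1.1.1.1, g z.1.1.1.1.1.1), (z.1.1.1.1.1.2, z.1.1.1.1.2), (z.1.1.1.2, z.1.1.2), z.1.2, z.2)) := by
    have p1 : PT (fun z : (((((ι × List Ed) × List Ed) × List ℕ) × List ℕ) × ℕ) × Bool => z.1) := PT.fst
    have p2 : PT (fun z : (((((ι × List Ed) × List Ed) × List ℕ) × List ℕ) × ℕ) × Bool => z.1.1) := PT.p1 p1
    have p3 : PT (fun z : (((((ι × List Ed) × List Ed) × List ℕ) × List ℕ) × ℕ) × Bool => z.1.1.1) := PT.p1 p2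
    have p4 : PT (fun z : (((((ι × List Ed) × List Ed) × List ℕ) × List ℕ) × ℕ) × Bool => z.1.1.1.1) := PT.p1 p3
    have p5 : PT (fun z : (((((ι × List Ed) × List Ed) × List ℕ) × List ℕ) × ℕ) × Bool => z.1.1.1.1.1) :=
      PT.p1 p4
    have p6 : PT (fun z : (((((ι × List Ed) × List Ed) × List ℕ) × List ℕ) × ℕ) × Bool => z.1.1.1.1.1.1) :=
      PT.p1 p5
    exact pt_x1.comp (PT.pair (PT.pair (hx.comp p6) (hg.comp p6)) (PT.pair (PT.pair (PT.p2 p5) (PT.p2 p4))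
      (PT.pair (PT.pair (PT.p2 p3) (PT.p2 p2)) (PT.pair (PT.p2 p1) PT.snd))))
  have c5 : PT (fun z : ((((ι × List Ed) × List Ed) × List ℕ) × List ℕ) × ℕ =>
      [true, false].flatMap fun up => x1 ((x z.1.1.1.1.1, g z.1.1.1.1.1),
        (z.1.1.1.1.2, z.1.1.1.2), (z.1.1.2, z.1.2), z.2, up)) :=
    PT.flatMap (PT.const [true, false]) c6
  have c4 : PT (fun z : (((ι × List Ed) × List Ed) × List ℕ) × List ℕ =>
      (I z.1.1.1.1).flatMap fun i => [true, false].flatMap fun up => x1 ((x z.1.1.1.1, g z.1.1.1.1),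
        (z.1.1.1.2, z.1.1.2), (z.1.2, z.2), i, up)) :=
    PT.flatMap (hI.comp (PT.p1 (PT.p1 (PT.p1 PT.fst)))) c5
  have c3 : PT (fun z : ((ι × List Ed) × List Ed) × List ℕ =>
      (As z.1.1.1).flatMap fun kk' => (I z.1.1.1).flatMap fun i => [true, false].flatMap fun up =>
        x1 ((x z.1.1.1, g z.1.1.1), (z.1.1.2, z.1.2), (z.2, kk'), i, up)) :=
    PT.flatMap (hA.comp (PT.p1 (PT.p1 PT.fst))) c4
  have c2 : PT (fun z : (ι × List Ed) × List Ed =>
      (As z.1.1).flatMap fun kk => (As z.1.1).flatMap fun kk' => (I z.1.1).flatMap fun i =>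
        [true, false].flatMap fun up =>
          x1 ((x z.1.1, g z.1.1), (z.1.2, z.2), (kk, kk'), i, up)) :=
    PT.flatMap (hA.comp (PT.p1 PT.fst)) c3
  have c1 : PT (fun z : ι × List Ed =>
      (P z.1).flatMap fun L' => (As z.1).flatMap fun kk => (As z.1).flatMap fun kk' =>
        (I z.1).flatMap fun i => [true, false].flatMap fun up =>
          x1 ((x z.1, g z.1), (z.2, L'), (kk, kk'), i, up)) :=
    PT.flatMap (hP.comp PT.fst) c2
  exact PT.flatMap hP c1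

theorem pt_dL {Sb P : ι → List (List Ed)} (hS : PT Sb) (hP : PT P) : PT (fun y => dL (Sb y) (P y)) :=
  PT.flatMap hP (g := fun z : ι × List Ed => (Sb z.1).map fun H => rest z.2 H)
    (PT.map (hS.comp PT.fst) (g := fun z : (ι × List Ed) × List Ed => rest z.1.2 z.2)
      (pt_rest (PT.snd.comp PT.fst) PT.snd))

theorem pt_aOK {x : ι → Ins} {g : ι → List ℕ} {En L M : ι → List Ed} (hx : PT x) (hg : PT g) (hE : PT En)
    (hL : PT L) (hM : PT M) : PT (fun y => aOK (x y) (g y) (En y) (L y) (M y)) := by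
  have h1 : PT (fun y => (List.range (x y).1).all fun v => decide (degL (M y) v ≤ 2)) :=
    PT.all (PT.range (PT.p1 hx)) (p := fun z : ι × ℕ => decide (degL (M z.1) z.2 ≤ 2))
      (PT.nle (pt_degL (hM.comp PT.fst) PT.snd) (PT.const 2))
  have h3 : PT (fun z : ι × Sq4 => (sqE z.2).any fun e => hasE (En z.1) e) :=
    PT.any (pt_sqE PT.snd) (p := fun w : (ι × Sq4) × Ed => hasE (En w.1.1) w.2)
      (pt_hasE (hE.comp (PT.p1 PT.fst)) PT.snd)
  have h2 : PT (fun y => (sqG (x y)).all fun q => !(harm (g y) q && sqIn (M y) q) ||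
      (sqIn (L y) q || (sqE q).any fun e => hasE (En y) e)) :=
    PT.all (pt_sqG hx) (p := fun z : ι × Sq4 => !(harm (g z.1) z.2 && sqIn (M z.1) z.2) ||
      (sqIn (L z.1) z.2 || (sqE z.2).any fun e => hasE (En z.1) e))
      (PT.bor (PT.bnot (PT.band (pt_harm (hg.comp PT.fst) PT.snd) (pt_sqIn (hM.comp PT.fst) PT.snd)))
        (PT.bor (pt_sqIn (hL.comp PT.fst) PT.snd) h3))
  exact PT.band h1 h2

theorem pt_aL {x : ι → Ins} {g : ι → List ℕ} {En : ι → List Ed} {Sb P : ι → List (List Ed)} (hx : PT x)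
    (hg : PT g) (hE : PT En) (hS : PT Sb) (hP : PT P) :
    PT (fun y => aL (x y) (g y) (En y) (Sb y) (P y)) := by
  have a0 : PT (fun z : (ι × List Ed) × List Ed => z.1.1) := PT.p1 PT.fst
  have a1 : PT (fun z : (ι × List Ed) × List Ed => z.1.2) := PT.p2 PT.fst
  have hM : PT (fun z : (ι × List Ed) × List Ed => nrm (x z.1.1) (z.1.2 ++ z.2)) :=
    pt_nrm (hx.comp a0) (PT.append a1 PT.snd)
  have h2 : PT (fun z : (ι × List Ed) × List Ed =>
      bif aOK (x z.1.1) (g z.1.1) (En z.1.1) z.1.2 (nrm (x z.1.1) (z.1.2 ++ z.2)) then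
        [nrm (x z.1.1) (z.1.2 ++ z.2)] else []) :=
    PT.cond (pt_aOK (hx.comp a0) (hg.comp a0) (hE.comp a0) a1 hM) (PT.cons hM (PT.const [])) (PT.const [])
  have h1 : PT (fun z : ι × List Ed => (Sb z.1).flatMap fun K =>
      bif aOK (x z.1) (g z.1) (En z.1) z.2 (nrm (x z.1) (z.2 ++ K)) then [nrm (x z.1) (z.2 ++ K)] else []) :=
    PT.flatMap (hS.comp PT.fst) h2
  exact PT.flatMap hP h1

theorem pt_rX {x : ι → Ins} {g : ι → List ℕ} {En : ι → List Ed} {I : ι → List ℕ} {As : ι → List (List ℕ)}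
    {Sb P : ι → List (List Ed)} (hx : PT x) (hg : PT g) (hE : PT En) (hI : PT I) (hA : PT As) (hS : PT Sb)
    (hP : PT P) : PT (fun y => rX (x y) (g y) (En y) (I y) (As y) (Sb y) (P y)) :=
  PT.append hP (PT.append (pt_dL hS hP) (PT.append (pt_aL hx hg hE hS hP) (pt_xL hx hg hI hA hP)))

theorem pt_stX {F : ι → List Ed} {W : ι → List (ℕ × List Ed)} {Q R B : ι → Sq4} (hF : PT F) (hW : PT W)
    (hQ : PT Q) (hR : PT R) (hB : PT B) : PT (fun y => stX (F y) (W y) (Q y) (R y) (B y)) :=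
  PT.cons hF (PT.map (pt_cor hQ hR hB) (g := fun z : ι × ℕ => lookW (W z.1) z.2) (pt_lookW (hW.comp PT.fst) PT.snd))

/-- **the pool is computed in polynomial time** -/
theorem pt_poolX {x : ι → Ins} {g : ι → List ℕ} {F : ι → List Ed} {W : ι → List (ℕ × List Ed)}
    {Q R B : ι → Sq4} (hx : PT x) (hg : PT g) (hF : PT F) (hW : PT W) (hQ : PT Q) (hR : PT R) (hB : PT B)
    (t : ℕ) : PT (fun y => poolX (x y) (g y) (F y) (W y) (Q y) (R y) (B y) t) := by
  induction t with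
  | zero => exact pt_stX hF hW hQ hR hB
  | succ t ih =>
    exact pt_rX hx hg (pt_EnL hx hF hW hQ hR hB) (PT.cons (PT.p1 hx) (pt_V2L hx hF hW hQ hR hB))
      (pt_asg cV2 (pt_V2L hx hF hW hQ hR hB)) (pt_subl cE2 (pt_E2L hx hF hW hQ hR hB)) ih

end

end Pool.Agent.PF4.XF
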