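import Pool.Agent.PF4.XI
import Pool.Agent.TFC.R4

/-!
The stage lemma: a minimal blocking family which is minimal at an early stage and blocking until a later stage.
-/

set_option autoImplicit false

namespace Pool.Agent.PF4.XF

open Finset Pool.Agent.TFC

/-- the stage lemma -/
theorem stage {α : Type*} [DecidableEq α] (B : Finset α → ℕ → Prop)
    (anti : ∀ D s t, s ≤ t → B D t → B D s) (m : ℕ) (D₀ : Finset α) (K : ℕ) (hB : B D₀ K)
    (hK : m * (#D₀ + 1) ≤ K) :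
    ∃ D ⊆ D₀, ∃ j, j + m ≤ K ∧ B D (j + m) ∧ ∀ Z ∈ D, ¬ B (D.erase Z) j := by
  induction hn : #D₀ generalizing D₀ K with
  | zero =>
    have h0 : D₀ = ∅ := card_eq_zero.1 hn
    rw [hn] at hK
    refine ⟨D₀, le_rfl, K - m, by omega, ?_, ?_⟩
    · exact anti _ _ _ (by omega) hB
    · intro Z hZ
      rw [h0] at hZ
      simp at hZ
  | succ k ih =>
    rw [hn] at hK
    have hmK : m * (k + 1 + 1) = m * (k + 1) + m := by ring
    rw [hmK] at hK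
    by_cases h : ∃ Z ∈ D₀, B (D₀.erase Z) (K - m)
    · obtain ⟨Z, hZ, hBZ⟩ := h
      have hc : #(D₀.erase Z) = k := by rw [card_erase_of_mem hZ, hn]; rfl
      obtain ⟨D, hD, j, h1, h2, h3⟩ := ih (D₀.erase Z) (K - m) hBZ (by rw [hc]; omega) hc
      exact ⟨D, hD.trans (erase_subset _ _), j, by omega, h2, h3⟩
    · push Not at h
      refine ⟨D₀, le_rfl, K - m, by omega, anti _ _ _ (by omega) hB, h⟩

theorem XP.mono' {X : XD} {P : ℕ → Finset (Sym2 ℕ) → Prop} (hP : XP X P) {s t : ℕ} (h : s ≤ t)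
    {L : Finset (Sym2 ℕ)} (hL : P s L) : P t L := by
  induction t, h using Nat.le_induction with
  | base => exact hL
  | succ t _ ih => exact hP.mono t L ih

theorem Hs.card {T : Finset ℕ} {Z : Finset (Sym2 ℕ)} (h : Hs T Z) : #Z = 4 := by
  obtain ⟨a, b, c, d, h4, rfl, _, _⟩ := h
  exact R4_card_sq h4

/-- **a minimal blocking family of the pool**: if no member of the pool at stage `K` is a cover all of whose harmful squares
are allowed, there is a minimal blocking family of harmful squares which are not allowed -/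
theorem XP.exists_blk {X : XD} (hX : X.OK) {P : ℕ → Finset (Sym2 ℕ) → Prop} (hP : XP X P)
    (A : Finset (Sym2 ℕ) → Prop) {K m : ℕ} (hK : m * ((#X.E2).choose 4 + 1) ≤ K)
    (inv : ∀ t L Z, P t L → Hs X.T Z → Z ⊆ L → A Z ∨ ∃ e ∈ Z, e ∈ X.En)
    (hno : ∀ L, P K L → Cv X L → ∃ Z, Hs X.T Z ∧ Z ⊆ L ∧ ¬ A Z) :
    ∃ (D : Finset (Finset (Sym2 ℕ))) (j : ℕ), j + m ≤ K ∧ Blk X P D j m ∧
      ∀ Z ∈ D, ¬ A Z ∧ ∃ e ∈ Z, e ∈ X.En := by
  classical
  set D₀ : Finset (Finset (Sym2 ℕ)) :=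
    (X.E2.powersetCard 4).filter fun Z => Hs X.T Z ∧ ¬ A Z ∧ ∃ e ∈ Z, e ∈ X.En with hD₀
  have hc : #D₀ ≤ (#X.E2).choose 4 := by
    refine (card_filter_le _ _).trans ?_
    rw [card_powersetCard]
  have hmem : ∀ Z, Hs X.T Z → Z ⊆ X.E → ¬ A Z → (∃ e ∈ Z, e ∈ X.En) → Z ∈ D₀ := by
    intro Z h1 h2 h3 h4
    rw [hD₀, mem_filter, mem_powersetCard]
    exact ⟨⟨hX.near Z h1 h2 h4, h1.card⟩, h1, h3, h4⟩
  obtain ⟨D, hD, j, h1, h2, h3⟩ := stage
    (fun D t => ∀ s ≤ t, ∀ L, P s L → Cv X L → ∃ Z ∈ D, Z ⊆ L)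
    (fun D s t hst h r hr => h r (hr.trans hst)) m D₀ K
    (by
      intro s hs L hL hC
      obtain ⟨Z, z1, z2, z3⟩ := hno L (hP.mono' hs hL) hC
      refine ⟨Z, hmem Z z1 (z2.trans (hP.m2 s L hL).2) z3 ?_, z2⟩
      exact (inv s L Z hL z1 z2).resolve_left z3)
    (le_trans (Nat.mul_le_mul_left _ (Nat.add_le_add_right hc 1)) hK)
  have hprop : ∀ Z ∈ D, Hs X.T Z ∧ Z ⊆ X.E2 ∧ ¬ A Z ∧ ∃ e ∈ Z, e ∈ X.En := by
    intro Z hZ
    have := hD hZ
    rw [hD₀, mem_filter, mem_powersetCard] at this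
    exact ⟨this.2.1, this.1.1, this.2.2.1, this.2.2.2⟩
  refine ⟨D, j, h1, ⟨fun Z hZ => ⟨(hprop Z hZ).1, (hprop Z hZ).2.1⟩, h2, ?_⟩,
    fun Z hZ => (hprop Z hZ).2.2⟩
  intro Z hZ
  have h4 := h3 Z hZ
  push Not at h4
  obtain ⟨s, hs, L, hL, hC, h5⟩ := h4
  have hu : ∀ Z' ∈ D, Z' ⊆ L → Z' = Z := by
    intro Z' hZ' hZL
    by_contra hne
    exact h5 Z' (mem_erase.2 ⟨hne, hZ'⟩) hZL
  obtain ⟨Z', z1, z2⟩ := h2 s (hs.trans (Nat.le_add_right _ _)) L hL hC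
  have := hu Z' z1 z2
  subst this
  exact ⟨L, hP.mono' hs hL, hC, z2, hu⟩

end Pool.Agent.PF4.XF
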