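import Pool.Agent.PF4.XV0

/-!
# The corollary: no free corner

One world, all eight corners have demand 2 and near covers. The frame is uncapped only at the cluster of `R`.
-/

set_option autoImplicit false

namespace Pool.Agent.PF4.XT

open Finset Pool.Agent.TFC Pool.Agent.PF4 Pool.Agent.PF4.LD Pool.Agent.PF4.XC Pool.Agent.PF4.XF

/-- edges of a 2-matching at the corners of one of its squares -/
theorem cor_sat {L : Finset (Sym2 ℕ)} (hL : M2 L) {x y q p : ℕ} (hd : Dist4 x y q p) (hs : TFC.sq x y q p ⊆ L)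
    {u v : ℕ} (hu : u = x ∨ u = y ∨ u = q ∨ u = p) (he : s(u, v) ∈ L) : v = x ∨ v = y ∨ v = q ∨ v = p := by
  have hq : IsSq (TFC.sq x y q p) := ⟨x, y, q, p, hd, rfl⟩
  refine sq_vert (g := s(u, v)) ?_ (Sym2.mem_mk_right u v)
  rcases hu with rfl | rfl | rfl | rfl
  · exact sq_closed hL hq hs (e := s(u, y)) (by simp [TFC.sq]) (Sym2.mem_mk_left u y) he (Sym2.mem_mk_left u v)
  · exact sq_closed hL hq hs (e := s(u, q)) (by simp [TFC.sq]) (Sym2.mem_mk_left u q) he (Sym2.mem_mk_left u v)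
  · exact sq_closed hL hq hs (e := s(u, p)) (by simp [TFC.sq]) (Sym2.mem_mk_left u p) he (Sym2.mem_mk_left u v)
  · exact sq_closed hL hq hs (e := s(u, x)) (by simp [TFC.sq]) (Sym2.mem_mk_left u x) he (Sym2.mem_mk_left u v)

section
variable {X : XD} {P : ℕ → Finset (Sym2 ℕ) → Prop} {D : Finset (Finset (Sym2 ℕ))} {j m : ℕ} {S : Finset ℕ}
  {M : ℕ → Finset (Sym2 ℕ)} {CL U : List (Clu ℕ)} {PL : Finset (Sym2 ℕ)}

/-- **the ends of the common edge**, in the frame which is uncapped only at the cluster `c1` of `Q` -/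
theorem WA.corT (wa : WA X P D j m S M CL U PL) (lp : LP X P D j S U) {x y q p r s : ℕ}
    (hnd : [x, y, q, p, r, s].Nodup) (hx : x ∈ S) (hy : y ∈ S) (hr : r ∈ S) (hs : s ∈ S) (tx : x ∈ X.T)
    (ty : y ∈ X.T) (tr : r ∈ X.T) (ts : s ∈ X.T) (hQ : TFC.sq x y q p ∈ D) (e1 : s(x, r) ∈ X.E)
    (e2 : s(r, s) ∈ X.E) (e3 : s(y, s) ∈ X.E) :
    ∃ c1 ∈ U, K2 c1 ∧ TFC.sq x y q p ⊆ c1.edges ∧ ∀ pl mi : ℕ → Prop,
      PW X P D j S M (Fr D fun c => c = c1) CL U PL pl mi → (∀ w ∈ S, w ∈ X.T → mi w) → pl x ∧ pl y := by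
  obtain ⟨pl0, mi0, h0, -⟩ := wa.fr (fun _ => False) fun _ h => h.elim
  obtain ⟨⟨xy, xq, xp, xr, xs⟩, ⟨yq, yp, yr, ys⟩, ⟨qp, qr, qs⟩, ⟨pr, ps⟩, rs⟩ := nd6 hnd
  have hdQ : Dist4 x y q p := ⟨xy, xq, xp, yq, yp, qp⟩
  obtain ⟨c, hc, -, hrs, hL⟩ := lp x y q p r s hnd hx hy hr hs tx ty tr ts hQ e1 e2 e3
  obtain ⟨L, wL⟩ := h0.wt hQ
  obtain ⟨nrs, a, b, ⟨⟨ra, rb, -, ab, as, bs⟩, p1, p2, p3⟩, hZ⟩ := hL L wL
  rw [Finset.mem_inter] at p1 p2 p3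
  have ha : ¬ (a = x ∨ a = y ∨ a = q ∨ a = p) := by
    intro h1
    rcases cor_sat wL.m2 hdQ wL.sq h1 (v := r) (by rw [Sym2.eq_swap]; exact p1.1) with h2 | h2 | h2 | h2
    · exact xr h2.symm
    · exact yr h2.symm
    · exact qr h2.symm
    · exact pr h2.symm
  have hb : ¬ (b = x ∨ b = y ∨ b = q ∨ b = p) := by
    intro h1
    rcases cor_sat wL.m2 hdQ wL.sq h1 (v := s) p3.1 with h2 | h2 | h2 | h2
    · exact xs h2.symm
    · exact ys h2.symm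
    · exact qs h2.symm
    · exact ps h2.symm
  push Not at ha hb
  have hnd' : [r, s, b, a, x, y].Nodup := by
    simp only [List.nodup_cons, List.mem_cons, List.not_mem_nil, or_false, not_or, List.nodup_nil, and_true,
      not_false_eq_true]
    exact ⟨⟨rs, rb, ra, xr.symm, yr.symm⟩, ⟨bs.symm, as.symm, xs.symm, ys.symm⟩, ⟨ab.symm, hb.1, hb.2.1⟩,
      ⟨ha.1, ha.2.1⟩, xy⟩
  have exy : s(x, y) ∈ TFC.sq x y q p := by simp [TFC.sq]
  have ers : s(r, s) ∈ TFC.sq r s b a := by simp [TFC.sq]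
  obtain ⟨c1, hc1, hk, hxy, hL2⟩ := lp r s b a x y hnd' hr hs hx hy tr ts tx ty hZ (by rw [Sym2.eq_swap]; exact e1)
    (h0.dE _ hQ exy) (by rw [Sym2.eq_swap]; exact e3)
  have hZc : TFC.sq r s b a ⊆ c.edges :=
    (h0.cls.whole ((h0.uc c).1 hc).1 hZ).resolve_right fun hd => Finset.disjoint_left.1 hd ers hrs
  have hQc : TFC.sq x y q p ⊆ c1.edges :=
    (h0.cls.whole ((h0.uc c1).1 hc1).1 hQ).resolve_right fun hd => Finset.disjoint_left.1 hd exy hxy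
  refine ⟨c1, hc1, hk, hQc, fun pl mi h hm => ?_⟩
  obtain ⟨L', wL'⟩ := h.wt hZ
  obtain ⟨nxy, a2, b2, hp, -⟩ := hL2 L' wL'
  refine both_pl ?_ (hm x hx tx) (hm y hy ty)
  refine h.e8 hnd' hZ wL' hc hZc hc1 hp (fun c' hc' hf _ => ?_) ?_ ?_ (fun _ => rfl) (fun _ => rfl)
  · rw [hf]
    exact nsq_path wL'.m2 (h.val' hc1) hk hp nxy hxy
  · rw [Sym2.eq_swap]; exact wa.reg hx e1 (by simp)
  · rw [Sym2.eq_swap]; exact wa.reg hy e3 (by simp)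

/-- **the corollary** (letters: `R = sq x y s r ∈ D`, `Q = sq x y q p`, `Z = sq r s b a` in the graph) -/
theorem cor_of (hL : ∀ (X : XD) (P : ℕ → Finset (Sym2 ℕ) → Prop) (D : Finset (Finset (Sym2 ℕ))) (j m : ℕ) (S : Finset ℕ)
      (M : ℕ → Finset (Sym2 ℕ)) (CL U : List (Clu ℕ)) (PL : Finset (Sym2 ℕ)), WA X P D j m S M CL U PL →
      LP X P D j S U) :
    ∀ (X : XD) (P : ℕ → Finset (Sym2 ℕ) → Prop) (D : Finset (Finset (Sym2 ℕ))) (j m : ℕ) (S : Finset ℕ)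
      (M : ℕ → Finset (Sym2 ℕ)), OW X P D j m S M → ∀ x y q p r s a b : ℕ, [x, y, q, p, r, s, a, b].Nodup →
      (∀ v ∈ [x, y, q, p, r, s, a, b], v ∈ S ∧ v ∈ X.T) → TFC.sq x y s r ∈ D → TFC.sq x y q p ⊆ X.E →
      TFC.sq r s b a ⊆ X.E → False := by
  intro X P D j m S M ow x y q p r s a b hnd hv hR hQE hZE
  obtain ⟨⟨xy, xq, xp, xr, xs, xa, xb⟩, ⟨yq, yp, yr, ys, ya, yb⟩, ⟨qp, qr, qs, qa, qb⟩, ⟨pr, ps, pa, pb⟩,
    ⟨rs, ra, rb⟩, ⟨sa, sb⟩, ab⟩ := nd8 hnd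
  obtain ⟨xS, xT⟩ := hv x (by simp)
  obtain ⟨yS, yT⟩ := hv y (by simp)
  obtain ⟨qS, qT⟩ := hv q (by simp)
  obtain ⟨pS, pT⟩ := hv p (by simp)
  obtain ⟨rS, rT⟩ := hv r (by simp)
  obtain ⟨sS, sT⟩ := hv s (by simp)
  obtain ⟨aS, aT⟩ := hv a (by simp)
  obtain ⟨bS, bT⟩ := hv b (by simp)
  obtain ⟨CL, U, PL, wa⟩ := wa_of ow ⟨x, xS, xT⟩
  have lp := hL X P D j m S M CL U PL wa
  have n1 : [x, y, s, r, p, q].Nodup := by
    simp only [List.nodup_cons, List.mem_cons, List.not_mem_nil, or_false, not_or, List.nodup_nil, and_true,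
      not_false_eq_true]
    exact ⟨⟨xy, xs, xr, xp, xq⟩, ⟨ys, yr, yp, yq⟩, ⟨rs.symm, ps.symm, qs.symm⟩, ⟨pr.symm, qr.symm⟩, qp.symm⟩
  have n2 : [r, s, y, x, a, b].Nodup := by
    simp only [List.nodup_cons, List.mem_cons, List.not_mem_nil, or_false, not_or, List.nodup_nil, and_true,
      not_false_eq_true]
    exact ⟨⟨rs, yr.symm, xr.symm, ra, rb⟩, ⟨ys.symm, xs.symm, sa, sb⟩, ⟨xy.symm, ya, yb⟩, ⟨xa, xb⟩, ab⟩
  have hR' : TFC.sq r s y x ∈ D := by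
    have e : TFC.sq r s y x = TFC.sq x y s r := by
      rw [TFC.sq, TFC.sq]
      ext e
      simp only [mem_insert, mem_singleton]
      rw [Sym2.eq_swap (a := r) (b := s), Sym2.eq_swap (a := s) (b := y), Sym2.eq_swap (a := y) (b := x),
        Sym2.eq_swap (a := x) (b := r)]
      tauto
    rw [e]; exact hR
  obtain ⟨c1, hc1, hk1, hs1, h1⟩ := wa.corT lp n1 xS yS pS qS xT yT pT qT hR
    (hQE (by rw [TFC.sq, Sym2.eq_swap (a := p) (b := x)]; simp))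
    (hQE (by rw [TFC.sq, Sym2.eq_swap (a := q) (b := p)]; simp)) (hQE (by simp [TFC.sq]))
  obtain ⟨c2, hc2, -, hs2, h2⟩ := wa.corT lp n2 rS sS aS bS rT sT aT bT hR'
    (hZE (by rw [TFC.sq, Sym2.eq_swap (a := a) (b := r)]; simp))
    (hZE (by rw [TFC.sq, Sym2.eq_swap (a := b) (b := a)]; simp)) (hZE (by simp [TFC.sq]))
  obtain ⟨pl, mi, h, hm⟩ := wa.fr (fun c => c = c1) fun c hc => by rw [hc]; exact hk1
  have hcc : c2 = c1 := h.eqc hc2 hc1 (e := s(r, s)) (hs2 (by simp [TFC.sq]))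
    (hs1 (by rw [TFC.sq, Sym2.eq_swap (a := s) (b := r)]; simp))
  subst hcc
  obtain ⟨px, py⟩ := h1 pl mi h hm
  obtain ⟨pr', ps'⟩ := h2 pl mi h hm
  obtain ⟨L, wL⟩ := h.wt hR
  have ho := h.out hR wL hc1 hs1 (fun c hc hf hne => absurd hf hne)
  obtain ⟨z, ⟨e, he, hz⟩, -, z2⟩ := h.L1x hR wL hc1 hs1 (fr_am2 h.isq _ c2) ho
  rcases sq_vert he hz with rfl | rfl | rfl | rfl
  · exact z2 px
  · exact z2 py
  · exact z2 ps'
  · exact z2 pr'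

end

end Pool.Agent.PF4.XT
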