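import Pool.Agent.PF4.XI
import Pool.Agent.PF4.PadX

/-!
From the staged pool and the minimal blocking family to the worlds at the clusters.
-/

set_option autoImplicit false

namespace Pool.Agent.PF4.XF

open Finset Pool.Agent.TFC Pool.Agent.PF4

theorem Hs.isSq {T : Finset ℕ} {Z : Finset (Sym2 ℕ)} (h : Hs T Z) : IsSq Z := by
  obtain ⟨a, b, c, d, h1, h2, _⟩ := h
  exact ⟨a, b, c, d, h1, h2⟩

/-- in a 2-matching, all edges at a vertex of a square are edges of the square -/
theorem sq_closed {L Z : Finset (Sym2 ℕ)} (hL : M2 L) (hZ : IsSq Z) (hs : Z ⊆ L) {e f : Sym2 ℕ} {y : ℕ}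
    (he : e ∈ Z) (hy : y ∈ e) (hf : f ∈ L) (hyf : y ∈ f) : f ∈ Z := by
  obtain ⟨a, b, c, d, hd, rfl⟩ := hZ
  have hok : SqOK (a, b, c, d) := hd
  obtain ⟨u, rfl⟩ := hy
  obtain ⟨w, rfl⟩ := hyf
  have he' : s(y, u) ∈ sqs (a, b, c, d) := he
  obtain ⟨v, hv, h1⟩ := sq_other hok he'
  have h1' : s(y, v) ∈ TFC.sq a b c d := h1
  rcases nbr_two (hL.le y) (hs he) (hs h1') (Ne.symm hv) hf with h | h
  · rw [h]; exact he
  · rw [h]; exact h1'

theorem dg_union {O K : Finset (Sym2 ℕ)} (h : Disjoint O K) (v : ℕ) : dg (O ∪ K) v = dg O v + dg K v := by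
  unfold dg
  rw [Finset.filter_union, Finset.card_union_of_disjoint (Finset.disjoint_filter_filter h)]

theorem dg_real {X : XD} (hX : X.OK) {L : Finset (Sym2 ℕ)} (hL : L ⊆ X.E) {v : ℕ} (hv : X.n ≤ v) :
    dg L v = 0 := by
  rw [dg, Finset.card_eq_zero, Finset.filter_eq_empty_iff]
  intro e he hve
  have := hX.lt e (hL he) v hve
  omega

theorem dg_off {X : XD} (hX : X.OK) {L : Finset (Sym2 ℕ)} (hL : L ⊆ X.E2) {v : ℕ} (hv : v ∉ X.V2) :
    dg L v = 0 := by
  rw [dg, Finset.card_eq_zero, Finset.filter_eq_empty_iff]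
  intro e he hve
  exact hv (hX.ev e (hL he) v hve)

section
variable {X : XD} {P : ℕ → Finset (Sym2 ℕ) → Prop} {D : Finset (Finset (Sym2 ℕ))} {j m : ℕ}

/-- a fitting completion makes a cover -/
theorem fit_union (hX : X.OK) {O K : Finset (Sym2 ℕ)} (hO : M2 O) (hOE : O ⊆ X.E) (hK : M2 K) (hKE : K ⊆ X.E)
    (hd : Disjoint O K) {k : ℕ → ℤ} (hk : FitK X O k) (he : dv K = k) : M2 (O ∪ K) ∧ Cv X (O ∪ K) := by
  constructor
  · constructor
    · intro e he'
      rcases Finset.mem_union.1 he' with h | h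
      · exact hO.nl e h
      · exact hK.nl e h
    · intro v
      rw [dg_union hd]
      by_cases hv : v < X.n
      · have h1 := congrFun he v
        rw [dv_apply] at h1
        by_cases hT : v ∈ X.T
        · have h2 := hk.t v hT
          rw [dv_apply] at h2
          omega
        · have h2 := (hk.f v hv hT).2
          rw [dv_apply] at h2
          omega
      · rw [dg_real hX hOE (by omega), dg_real hX hKE (by omega)]
        omega
  · intro v hv
    rw [dg_union hd]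
    have h1 := congrFun he v
    have h2 := hk.t v hv
    rw [dv_apply] at h1 h2
    omega

/-- **the world at a union of clusters** -/
theorem world_of (hX : X.OK) (hP : XP X P) (hD : Blk X P D j m) {C ER PL : Finset (Sym2 ℕ)}
    (hC : ∀ Z ∈ D, Z ⊆ C ∨ Disjoint Z C) (hCn : C ⊆ X.En) (hER : ER ⊆ X.En)
    (hPL : ∀ e ∈ PL, ∀ Z ∈ D, e ∉ Z) (hm : 2 ≤ m) :
    World X.n X.T X.V2 C ER PL (D.filter fun Z => Z ⊆ C) (m - 2) (Av X P D (j + 1) (C ∪ ER)) := by
  refine ⟨?_, ?_, ?_, ?_, ?_, ?_, ?_, ?_, ?_⟩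
  · rintro t k ⟨O, h1, h2, h3, h4⟩
    exact ⟨O, hP.mono _ _ h1, h2, h3, h4⟩
  · rintro t k ⟨O, h1, h2, h3, h4⟩ v hv
    have h5 := (hP.m2 _ _ h1).1.le v
    by_cases hT : v ∈ X.T
    · have h6 := h4.t v hT
      rw [dv_apply] at h6
      omega
    · have h6 := h4.f v hv hT
      rw [dv_apply] at h6
      omega
  · rintro t k ⟨O, h1, h2, h3, h4⟩ v hv hv2
    exact h4.off v hv hv2
  · rintro t k ⟨O, h1, h2, h3, h4⟩
    exact h4.tok
  · rintro t k ⟨O, h1, h2, h3, h4⟩ v hv
    exact h4.up v hv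
  · rintro t k ⟨O, h1, h2, h3, h4⟩
    exact h4.par
  · rintro t k k' ⟨O, h1, h2, h3, h4⟩ g1 g2 g3 g4 g5
    refine ⟨O, h1, h2, h3, ⟨?_, ?_, ?_, g3, g4, g5⟩⟩
    · intro v hv
      rw [g1 v (hX.tn v hv) hv]
      exact h4.t v hv
    · intro v hv hT
      exact ⟨(g2 v hv hT).1, (g2 v hv hT).2.trans (h4.f v hv hT).2⟩
    · intro v hv hv2
      have h5 := h4.off v hv hv2
      by_cases hT : v ∈ X.T
      · rw [g1 v hv hT]; exact h5
      · have := g2 v hv hT
        omega
  · rintro t k k' i ε ⟨O, h1, h2, h3, h4⟩ ⟨O', h1', h2', h3', h4'⟩ hi hε h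
    obtain ⟨L, k'', g1, g2, g3, g4, g5⟩ := hP.ex _ O O' k k' h1 h1' h4 h4' i ε hi hε h
    refine ⟨k'', ⟨L, g1, ?_, ?_, g2⟩, g5⟩
    · exact Finset.disjoint_of_subset_left g3 (Finset.disjoint_union_left.2 ⟨h2, h2'⟩)
    · intro Z hZ hs
      rcases g4 Z (hD.hs Z hZ).1.isSq hs with h | h
      · exact h3 Z hZ h
      · exact h3' Z hZ h
  · rintro t ht k ⟨O, h1, h2, h3, h4⟩ K hK hKm hKD hKa he
    have hKn : K ⊆ X.En := hK.trans (Finset.union_subset hCn hER)
    have hKE : K ⊆ X.E := hKn.trans (hX.e1.trans hX.e2)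
    have hdis : Disjoint O K := Finset.disjoint_of_subset_right hK h2
    obtain ⟨g1, g2⟩ := fit_union hX (hP.m2 _ _ h1).1 (hP.m2 _ _ h1).2 hKm hKE hdis h4 he
    have g3 := hP.add _ O K h1 (hKn.trans hX.e1) g1 (by
      intro Z _ hs
      by_cases h : Z ⊆ O
      · exact Or.inl h
      · right
        obtain ⟨e, he1, he2⟩ := Finset.not_subset.1 h
        rcases Finset.mem_union.1 (hs he1) with h5 | h5
        · exact absurd h5 he2
        · exact ⟨e, he1, hKn h5⟩)
    obtain ⟨Z, hZ, hs⟩ := hD.blk (j + 1 + t + 1) (by omega) _ g3 g2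
    rcases hC Z hZ with h | h
    · apply hKD Z (Finset.mem_filter.2 ⟨hZ, h⟩)
      intro e he1
      rcases Finset.mem_union.1 (hs he1) with h5 | h5
      · exact absurd (Finset.mem_union_left _ (h he1)) (Finset.disjoint_left.1 h2 h5)
      · exact h5
    · obtain ⟨e, he1, he2⟩ := Finset.not_subset.1 (h3 Z hZ)
      have h5 : e ∈ K := by
        rcases Finset.mem_union.1 (hs he1) with h5 | h5
        · exact absurd h5 he2
        · exact h5
      have h6 : e ∉ C := Finset.disjoint_left.1 h he1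
      rcases hKa e h5 h6 with h7 | ⟨y, hy, h7⟩
      · exact hPL e h7 Z hZ he1
      · rw [dg, Nat.succ_le_iff, Finset.card_pos] at h7
        obtain ⟨f, hf⟩ := h7
        obtain ⟨hf1, hf2⟩ := Finset.mem_filter.1 hf
        obtain ⟨hf3, hf4⟩ := Finset.mem_inter.1 hf1
        have h8 := sq_closed g1 (hD.hs Z hZ).1.isSq hs he1 hy (Finset.mem_union_right _ hf3) hf2
        exact Finset.disjoint_left.1 h h8 hf4

/-- availability of the outer part of a member of the pool -/
theorem av_of (hP : XP X P) {C : Finset (Sym2 ℕ)} (hC : C ⊆ X.E2) {L : Finset (Sym2 ℕ)} (hL : P j L)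
    (hD : ∀ Z ∈ D, Z ⊆ L → ¬ Disjoint Z C) {k : ℕ → ℤ} (hk : FitK X (L \ C) k) :
    Av X P D (j + 1) C 0 k := by
  refine ⟨L \ C, hP.del _ _ _ hL hC, Finset.sdiff_disjoint, ?_, hk⟩
  intro Z hZ hs
  exact hD Z hZ (hs.trans Finset.sdiff_subset) (Finset.disjoint_of_subset_left hs Finset.sdiff_disjoint)

theorem dg_split (L C : Finset (Sym2 ℕ)) (v : ℕ) : dg L v = dg (L \ C) v + dg (L ∩ C) v := by
  rw [← dg_union (Finset.disjoint_sdiff_inter L C), Finset.sdiff_union_inter]

theorem sum_dv {n : ℕ} {z : Finset (Sym2 ℕ)} (hn : NoLoop z) (hr : ∀ e ∈ z, ∀ v ∈ e, v < n) :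
    ∑ v ∈ Finset.range (n + 1), dv z v = 2 * (#z : ℤ) := by
  have h0 : dg z n = 0 := by
    rw [dg, Finset.card_eq_zero, Finset.filter_eq_empty_iff]
    intro e he hve
    have := hr e he n hve
    omega
  have h1 := sum_dg hn hr
  rw [Finset.sum_range_succ, dv_apply, h0]
  have : ∑ v ∈ Finset.range n, dv z v = ((∑ v ∈ Finset.range n, dg z v : ℕ) : ℤ) := by
    push_cast
    rfl
  rw [this, h1]
  push_cast
  ring

/-- the demand vector of a cover -/
theorem fit_cover (hX : X.OK) {L C : Finset (Sym2 ℕ)} (hL : M2 L) (hE : L ⊆ X.E) (hc : Cv X L)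
    (hC : C ⊆ X.E2) : FitK X (L \ C) (dv (L ∩ C)) := by
  have hi : L ∩ C ⊆ X.E := Finset.inter_subset_left.trans hE
  refine ⟨?_, ?_, ?_, ?_, ?_, ?_⟩
  · intro v hv
    have h1 := hc v hv
    have h2 := dg_split L C v
    rw [dv_apply, dv_apply]
    omega
  · intro v _ _
    have h1 := hL.le v
    have h2 := dg_split L C v
    rw [dv_apply, dv_apply]
    omega
  · intro v _ hv
    rw [dv_apply, dg_off hX (Finset.inter_subset_right.trans hC) hv]
    rfl
  · left
    rw [dv_apply, dg_real hX hi le_rfl]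
    rfl
  · rw [sum_dv (hL.mono Finset.inter_subset_left).nl (fun e he v hv => hX.lt e (hi he) v hv)]
    exact ⟨_, two_mul _⟩
  · intro v hv
    rw [dv_apply, dg_real hX hi (by omega)]
    rfl

/-- near cover at `w` -/
structure NC (X : XD) (w : ℕ) (M : Finset (Sym2 ℕ)) : Prop where
  m2 : M2 M
  sub : M ⊆ X.E
  one : dg M w = 1
  two : ∀ v ∈ X.T, v ≠ w → dg M v = 2

/-- the demand vector of a near cover -/
theorem fit_near (hX : X.OK) {M C : Finset (Sym2 ℕ)} {w : ℕ} (hM : NC X w M) (hw : w ∈ X.T) (hw2 : w ∈ X.V2)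
    (hC : C ⊆ X.E2) : FitK X (M \ C) (dv (M ∩ C) + ev w + ev X.n) := by
  have hi : M ∩ C ⊆ X.E := Finset.inter_subset_left.trans hM.sub
  have hwn := hX.tn w hw
  refine ⟨?_, ?_, ?_, ?_, ?_, ?_⟩
  · intro v hv
    have h2 := dg_split M C v
    have hvn := hX.tn v hv
    rw [Pi.add_apply, Pi.add_apply, ev_apply, ev_apply, dv_apply, dv_apply, if_neg (show v ≠ X.n by omega)]
    by_cases h : v = w
    · subst h
      have := hM.one
      rw [if_pos rfl]
      omega
    · have := hM.two v hv h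
      rw [if_neg h]
      omega
  · intro v hv hT
    have h1 := hM.m2.le v
    have h2 := dg_split M C v
    have h3 : v ≠ w := fun h => hT (h ▸ hw)
    rw [Pi.add_apply, Pi.add_apply, ev_apply, ev_apply, dv_apply, dv_apply, if_neg (show v ≠ X.n by omega),
      if_neg h3]
    omega
  · intro v hv hv2
    have h3 : v ≠ w := fun h => hv2 (h ▸ hw2)
    rw [Pi.add_apply, Pi.add_apply, ev_apply, ev_apply, dv_apply,
      dg_off hX (Finset.inter_subset_right.trans hC) hv2, if_neg (show v ≠ X.n by omega), if_neg h3]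
    rfl
  · right
    rw [Pi.add_apply, Pi.add_apply, ev_apply, ev_apply, dv_apply, dg_real hX hi le_rfl, if_pos rfl,
      if_neg (by omega)]
    rfl
  · simp only [Pi.add_apply]
    rw [Finset.sum_add_distrib, Finset.sum_add_distrib,
      sum_dv (hM.m2.mono Finset.inter_subset_left).nl (fun e he v hv => hX.lt e (hi he) v hv)]
    simp only [ev_apply]
    rw [Finset.sum_ite_eq', Finset.sum_ite_eq', if_pos (Finset.mem_range.2 (by omega)),
      if_pos (Finset.mem_range.2 (by omega))]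
    exact ⟨#(M ∩ C) + 1, by ring⟩
  · intro v hv
    rw [Pi.add_apply, Pi.add_apply, ev_apply, ev_apply, dv_apply, dg_real hX hi (by omega),
      if_neg (by omega), if_neg (by omega)]
    rfl

end

end Pool.Agent.PF4.XF
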