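import Pool.Agent.PF4.XOW

/-!
The theorem on two conflicting squares, form with additional near covers: in each world there is, for every 4-tuple `B` of
vertices, a pool which also contains the near covers of the vertices of `B`, and the edges of the graph `G` on `B`.
-/

set_option autoImplicit false

namespace Pool.Agent.PF4.XF

open Finset Pool.Agent.TFC Pool.Agent.PF4

/-- one world which contains `Q` in its blocking family, with near covers at `Q`, `R`, `B`, and with the edges of the square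
`B` which are edges of the graph `G` -/
def WB (n : ℕ) (T : Finset ℕ) (G : Finset (Sym2 ℕ)) (M : ℕ → Finset (Sym2 ℕ)) (Q R B : Sq4) : Prop :=
  ∃ (X : XD) (P : ℕ → Finset (Sym2 ℕ) → Prop) (D : Finset (Finset (Sym2 ℕ))) (j m : ℕ),
    OW X P D j m (cr Q ∪ cr R ∪ cr B) M ∧ X.n = n ∧ X.T = T ∧ X.E ⊆ G ∧ sqs Q ∈ D ∧ sqs Q ⊆ X.E ∧
      sqs R ⊆ X.E ∧ sqs B ∩ G ⊆ X.E

/-- **the theorem on two conflicting squares** (the blocking families may depend on `B`) -/
def XfStatement2 : Prop :=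
  ∀ (n : ℕ) (T : Finset ℕ) (G : Finset (Sym2 ℕ)) (M : ℕ → Finset (Sym2 ℕ)) (Q R : Sq4), SqOK Q → SqOK R →
    #(sqs Q ∩ sqs R) = 1 → (∀ v ∈ cr Q ∪ cr R, v < n) →
    (∀ B : Sq4, (∀ v ∈ cr B, v < n) → WB n T G M Q R B) →
    (∀ B : Sq4, (∀ v ∈ cr B, v < n) → WB n T G M R Q B) → False

theorem cr_absorb (Q R : Sq4) : cr Q ∪ cr R ∪ cr Q = cr Q ∪ cr R := by
  ext v
  simp only [Finset.mem_union]
  tauto

/-- the first form implies the second one -/
theorem XfStatement.two (h : XfStatement) : XfStatement2 := by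
  intro n T G M Q R hQ hR hc hn h1 h2
  obtain ⟨X₁, P₁, D₁, j₁, m₁, w1, n1, t1, _, q1, _, r1, _⟩ := h1 Q fun v hv => hn v (Finset.mem_union_left _ hv)
  obtain ⟨X₂, P₂, D₂, j₂, m₂, w2, n2, t2, _, q2, _, r2, _⟩ := h2 R fun v hv => hn v (Finset.mem_union_right _ hv)
  rw [cr_absorb] at w1 w2
  rw [Finset.union_comm (cr R) (cr Q)] at w2
  exact h X₁ X₂ P₁ P₂ D₁ D₂ j₁ m₁ j₂ m₂ M Q R hQ hR hc w1 w2 (n1.trans n2.symm) (t1.trans t2.symm) q1 q2 r1 r2

end Pool.Agent.PF4.XF
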