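import Pool.Agent.PF4.XG
import Pool.Agent.PF4.XS

/-!
The case split for `XfStatement2` (near covers at the corners of any third square in each world).
Notation as in `XG`: `Q = sq x y q p`, `R = sq x y r s`.
-/

set_option autoImplicit false

namespace Pool.Agent.PF4.XF

open Finset Pool.Agent.TFC Pool.Agent.PF4

/-- both worlds, with near covers at the corners of any third square -/
structure BW (n : ℕ) (T : Finset ℕ) (G : Finset (Sym2 ℕ)) (M : ℕ → Finset (Sym2 ℕ)) (x y q p r s : ℕ) : Prop where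
  nd : [x, y, q, p, r, s].Nodup
  lt : ∀ v ∈ [x, y, q, p, r, s], v < n
  w1 : ∀ B : Sq4, (∀ v ∈ cr B, v < n) → WB n T G M (x, y, q, p) (x, y, r, s) B
  w2 : ∀ B : Sq4, (∀ v ∈ cr B, v < n) → WB n T G M (x, y, r, s) (x, y, q, p) B

/-- a pattern theorem for six vertices, form with a third square; `c T x y q p r s` is the assumption on the demands -/
def Pt6B (c : Finset ℕ → ℕ → ℕ → ℕ → ℕ → ℕ → ℕ → Prop) : Prop :=
  ∀ (n : ℕ) (T : Finset ℕ) (G : Finset (Sym2 ℕ)) (M : ℕ → Finset (Sym2 ℕ)) (x y q p r s : ℕ),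
    BW n T G M x y q p r s → c T x y q p r s → False

/-- one world, in plain form -/
theorem WB.ow {n : ℕ} {T : Finset ℕ} {G : Finset (Sym2 ℕ)} {M : ℕ → Finset (Sym2 ℕ)} {x y q p r s a b c d : ℕ}
    (h : WB n T G M (x, y, q, p) (x, y, r, s) (a, b, c, d)) :
    ∃ (X : XD) (P : ℕ → Finset (Sym2 ℕ) → Prop) (D : Finset (Finset (Sym2 ℕ))) (j m : ℕ) (S : Finset ℕ),
      OW X P D j m S M ∧ (∀ v ∈ [x, y, q, p, r, s, a, b, c, d], v ∈ S) ∧ X.n = n ∧ X.T = T ∧ X.E ⊆ G ∧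
      sq x y q p ∈ D ∧ sq x y q p ⊆ X.E ∧ sq x y r s ⊆ X.E ∧ sq a b c d ∩ G ⊆ X.E := by
  obtain ⟨X, P, D, j, m, h1, h2, h3, h4, h5, h6, h7, h8⟩ := h
  refine ⟨X, P, D, j, m, _, h1, ?_, h2, h3, h4, h5, h6, h7, h8⟩
  intro v hv
  simp only [List.mem_cons, List.not_mem_nil, or_false] at hv
  simp only [cr, mem_union, mem_insert, mem_singleton]
  tauto

section
variable {n : ℕ} {T : Finset ℕ} {G : Finset (Sym2 ℕ)} {M : ℕ → Finset (Sym2 ℕ)} {x y q p r s : ℕ}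

theorem BW.world (h : BW n T G M x y q p r s) : BW n T G M x y r s q p :=
  ⟨nd_world h.nd, fun v hv => h.lt v (by simp only [List.mem_cons, List.not_mem_nil, or_false] at hv ⊢; tauto),
    h.w2, h.w1⟩

theorem wb_congr {Q Q' R R' B : Sq4} (h1 : sqs Q = sqs Q') (h2 : cr Q = cr Q') (h3 : sqs R = sqs R')
    (h4 : cr R = cr R') (h : WB n T G M Q R B) : WB n T G M Q' R' B := by
  unfold WB at h ⊢
  rwa [h1, h2, h3, h4] at h

theorem sqs_side (a b c d : ℕ) : sqs (a, b, c, d) = sqs (b, a, d, c) := sq_ref a b c d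

theorem cr_side (a b c d : ℕ) : cr (a, b, c, d) = cr (b, a, d, c) := fs_ref a b c d

theorem BW.side (h : BW n T G M x y q p r s) : BW n T G M y x p q s r :=
  ⟨nd_side h.nd, fun v hv => h.lt v (by simp only [List.mem_cons, List.not_mem_nil, or_false] at hv ⊢; tauto),
    fun B hB => wb_congr (sqs_side ..) (cr_side ..) (sqs_side ..) (cr_side ..) (h.w1 B hB),
    fun B hB => wb_congr (sqs_side ..) (cr_side ..) (sqs_side ..) (cr_side ..) (h.w2 B hB)⟩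

theorem BW.hs1 (h : BW n T G M x y q p r s) : Hs T (sq x y q p) := by
  obtain ⟨X, P, D, j, m, h1, h2, h3, h4, h5, h6, h7, h8⟩ := h.w1 (x, x, x, x)
    (fun v hv => by simp only [cr, mem_insert, mem_singleton, or_self] at hv; exact hv ▸ h.lt x (by simp))
  rw [← h3]
  exact (h1.blk.hs _ h5).1

/-- the form with two worlds implies the form with a third square -/
theorem Pt6.toB {c : Finset ℕ → ℕ → ℕ → ℕ → ℕ → ℕ → ℕ → Prop} (hc : Pt6 c) : Pt6B c := by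
  intro n T G M x y q p r s h hcT
  have lx : ∀ v ∈ cr (x, x, x, x), v < n := fun v hv => by
    simp only [cr, mem_insert, mem_singleton, or_self] at hv
    exact hv ▸ h.lt x (by simp)
  obtain ⟨X₁, P₁, D₁, j₁, m₁, w1, n1, t1, _, q1, _, r1, _⟩ := h.w1 _ lx
  obtain ⟨X₂, P₂, D₂, j₂, m₂, w2, n2, t2, _, q2, _, r2, _⟩ := h.w2 _ lx
  have hm : ∀ v ∈ [x, y, q, p, r, s], v ∈ cr (x, y, q, p) ∪ cr (x, y, r, s) ∪ cr (x, x, x, x) := by
    intro v hv
    simp only [List.mem_cons, List.not_mem_nil, or_false] at hv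
    simp only [cr, mem_union, mem_insert, mem_singleton]
    tauto
  rw [union_comm (cr (x, y, r, s))] at w2
  exact hc X₁ X₂ P₁ P₂ D₁ D₂ j₁ m₁ j₂ m₂ _ M w1 w2 (n1.trans n2.symm) (t1.trans t2.symm) x y q p r s h.nd
    (hm _ (by simp)) (hm _ (by simp)) (hm _ (by simp)) (hm _ (by simp)) (hm _ (by simp)) (hm _ (by simp))
    q1 q2 r1 r2 (by rw [t1]; exact hcT)

end

/-- the pattern theorems, form with a third square -/
structure Pat2 : Prop where
  /-- (8.1) a free common vertex -/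
  p1 : Pt6 fun T _ y _ _ _ _ => y ∉ T
  /-- (8.2) two free corners, both adjacent to `x` -/
  p2 : Pt6 fun T x y q p r s => x ∈ T ∧ y ∈ T ∧ q ∈ T ∧ r ∈ T ∧ p ∉ T ∧ s ∉ T
  /-- (8.3) two free corners, `p` adjacent to `x`, `r` adjacent to `y` -/
  p3 : Pt6 fun T x y q p r s => x ∈ T ∧ y ∈ T ∧ q ∈ T ∧ s ∈ T ∧ p ∉ T ∧ r ∉ T
  /-- all corners of `R` have demand 2, `p` is free (then `q` has demand 2) -/
  p4a : Pt6B fun T x y q p r s => x ∈ T ∧ y ∈ T ∧ r ∈ T ∧ s ∈ T ∧ q ∈ T ∧ p ∉ T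
  /-- all six corners have demand 2 -/
  p4b : Pt6B fun T x y q p r s => x ∈ T ∧ y ∈ T ∧ r ∈ T ∧ s ∈ T ∧ q ∈ T ∧ p ∈ T
  /-- five vertices -/
  p5 : Pt5

/-- **the theorem on two conflicting squares, from the pattern theorems** (form with a third square) -/
theorem xf2_of_pat (hP : Pat2) : XfStatement2 := by
  intro n T G M Q R hQ hR h1 hlt w₁ w₂
  obtain ⟨x, y, q, p, r, s, hd, eQ, eR, cQ, cR⟩ | ⟨x, y, q, p, r, hd, eQ, eR, cQ, cR⟩ := normal_form hQ hR h1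
  · have hb : BW n T G M x y q p r s := by
      refine ⟨hd, ?_, fun B hB => wb_congr (Q' := (x, y, q, p)) (R' := (x, y, r, s)) eQ cQ eR cR (w₁ B hB),
        fun B hB => wb_congr (Q' := (x, y, r, s)) (R' := (x, y, q, p)) eR cR eQ cQ (w₂ B hB)⟩
      intro v hv
      refine hlt v ?_
      rw [cQ, cR]
      simp only [List.mem_cons, List.not_mem_nil, or_false] at hv
      simp only [mem_union, mem_insert, mem_singleton]
      tauto
    obtain ⟨⟨a1, a2, a3, a4, a5⟩, ⟨b1, b2, b3, b4⟩, ⟨c1, c2, c3⟩, ⟨d1, d2⟩, f1⟩ := nodup6.1 hd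
    have o1 := hs_opp (⟨a1, a2, a3, b1, b2, c1⟩ : Dist4 x y q p) hb.hs1
    have o2 := hs_opp (⟨a1, a4, a5, b3, b4, f1⟩ : Dist4 x y r s) hb.world.hs1
    by_cases hy : y ∈ T
    swap
    · exact hP.p1.toB _ _ _ _ _ _ _ _ _ _ hb hy
    by_cases hx : x ∈ T
    swap
    · exact hP.p1.toB _ _ _ _ _ _ _ _ _ _ hb.side hx
    -- all corners of the second square have demand 2
    have key : ∀ x y q p r s : ℕ, BW n T G M x y q p r s → x ∈ T → y ∈ T → (q ∈ T ∨ p ∈ T) → r ∈ T → s ∈ T →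
        False := by
      intro x y q p r s hb hx hy hqp hr hs
      by_cases hp : p ∈ T
      · by_cases hq : q ∈ T
        · exact hP.p4b _ _ _ _ _ _ _ _ _ _ hb ⟨hx, hy, hr, hs, hq, hp⟩
        · exact hP.p4a _ _ _ _ _ _ _ _ _ _ hb.side ⟨hy, hx, hs, hr, hp, hq⟩
      · exact hP.p4a _ _ _ _ _ _ _ _ _ _ hb ⟨hx, hy, hr, hs, hqp.resolve_right hp, hp⟩
    have hqp : q ∈ T ∨ p ∈ T := by
      rcases o1 with h | h
      · exact Or.inl h.2
      · exact Or.inr h.2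
    have hrs : r ∈ T ∨ s ∈ T := by
      rcases o2 with h | h
      · exact Or.inl h.2
      · exact Or.inr h.2
    by_cases hR2 : r ∈ T ∧ s ∈ T
    · exact key _ _ _ _ _ _ hb hx hy hqp hR2.1 hR2.2
    by_cases hQ2 : q ∈ T ∧ p ∈ T
    · exact key _ _ _ _ _ _ hb.world hx hy hrs hQ2.1 hQ2.2
    by_cases hq : q ∈ T
    · have hp : p ∉ T := fun h => hQ2 ⟨hq, h⟩
      by_cases hr : r ∈ T
      · exact hP.p2.toB _ _ _ _ _ _ _ _ _ _ hb ⟨hx, hy, hq, hr, hp, fun h => hR2 ⟨hr, h⟩⟩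
      · exact hP.p3.toB _ _ _ _ _ _ _ _ _ _ hb ⟨hx, hy, hq, hrs.resolve_left hr, hp, hr⟩
    · have hp : p ∈ T := hqp.resolve_left hq
      by_cases hs : s ∈ T
      · exact hP.p2.toB _ _ _ _ _ _ _ _ _ _ hb.side ⟨hy, hx, hp, hs, hq, fun h => hR2 ⟨h, hs⟩⟩
      · exact hP.p3.toB _ _ _ _ _ _ _ _ _ _ hb.side ⟨hy, hx, hp, hrs.resolve_right hs, hq, hs⟩
  · obtain ⟨X₁, P₁, D₁, j₁, m₁, v1, n1, t1, _, q1, _, r1, _⟩ := w₁ Q fun v hv => hlt v (mem_union_left _ hv)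
    obtain ⟨X₂, P₂, D₂, j₂, m₂, v2, n2, t2, _, q2, _, r2, _⟩ := w₂ R fun v hv => hlt v (mem_union_right _ hv)
    rw [cr_absorb] at v1 v2
    rw [union_comm (cr R) (cr Q)] at v2
    obtain ⟨mx, my, mq, mp⟩ := sq_mem (R := R) cQ
    obtain ⟨-, -, mr, -⟩ := sq_mem' (Q := Q) cR
    rw [eQ] at q1 r2
    rw [eR] at q2 r1
    exact hP.p5 X₁ X₂ P₁ P₂ D₁ D₂ j₁ m₁ j₂ m₂ _ M v1 v2 (n1.trans n2.symm) (t1.trans t2.symm) x y q p r hd mx my mq
      mp mr q1 q2 r1 r2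

end Pool.Agent.PF4.XF
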