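import Pool.Agent.PF4.XP4a
import Pool.Agent.PF4.XCor
import Pool.Agent.PF4.XG2

/-!
# Pattern p4

The two fields `p4a`, `p4b` of `Pat2`, from Lemma P. In the letters of `XG` the second square is `sq x y r s`; here `r` and
`s` are exchanged.
-/

set_option autoImplicit false

namespace Pool.Agent.PF4.XT

open Finset Pool.Agent.TFC Pool.Agent.PF4 Pool.Agent.PF4.LD Pool.Agent.PF4.XC Pool.Agent.PF4.XF

/-- **pattern p4a** -/
theorem p4a (lp : LPall) : Pt6B fun T x y q p r s => x ∈ T ∧ y ∈ T ∧ r ∈ T ∧ s ∈ T ∧ q ∈ T ∧ p ∉ T := by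
  refine Pt6.toB ?_
  intro X₁ X₂ P₁ P₂ D₁ D₂ j₁ m₁ j₂ m₂ S M h₁ h₂ _ hT x y q p r s nd xS yS qS pS rS sS hQ hR hR₁ hQ₂ hc
  obtain ⟨xT, yT, rT, sT, qT, pT⟩ := hc
  have nd' : [x, y, q, p, s, r].Nodup := by
    obtain ⟨⟨xy, xq, xp, xr, xs⟩, ⟨yq, yp, yr, ys⟩, ⟨qp, qr, qs⟩, ⟨pr, ps⟩, rs⟩ := nd6 nd
    simp only [List.nodup_cons, List.mem_cons, List.not_mem_nil, or_false, not_or, List.nodup_nil, and_true,
      not_false_eq_true]
    exact ⟨⟨xy, xq, xp, xs, xr⟩, ⟨yq, yp, ys, yr⟩, ⟨qp, qs, qr⟩, ⟨ps, pr⟩, rs.symm⟩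
  exact t220222 lp h₁ h₂ hT nd' xS yS sS rS xS yS sS rS xT yT sT rT pT hQ hR hR₁ hQ₂

theorem sq_two' (x y r s : ℕ) : TFC.sq s r y x = TFC.sq x y r s := by
  rw [sq_ref]

/-- **pattern p4b** -/
theorem p4b (lp : LPall) : Pt6B fun T x y q p r s => x ∈ T ∧ y ∈ T ∧ r ∈ T ∧ s ∈ T ∧ q ∈ T ∧ p ∈ T := by
  intro n T G M x y q p r s h hc
  obtain ⟨xT, yT, rT, sT, qT, pT⟩ := hc
  have nd := h.nd
  obtain ⟨⟨xy, xq, xp, xr, xs⟩, ⟨yq, yp, yr, ys⟩, ⟨qp, qr, qs⟩, ⟨pr, ps⟩, rs⟩ := nd6 nd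
  have nd' : [x, y, q, p, s, r].Nodup := by
    simp only [List.nodup_cons, List.mem_cons, List.not_mem_nil, or_false, not_or, List.nodup_nil, and_true,
      not_false_eq_true]
    exact ⟨⟨xy, xq, xp, xs, xr⟩, ⟨yq, yp, ys, yr⟩, ⟨qp, qs, qr⟩, ⟨ps, pr⟩, rs.symm⟩
  have lx : ∀ v ∈ cr (x, x, x, x), v < n := fun v hv => by
    simp only [cr, mem_insert, mem_singleton, or_self] at hv
    exact hv ▸ h.lt x (by simp)
  -- world 1 and the square of Lemma P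
  obtain ⟨X₁, P₁, D₁, j₁, m₁, S₁, w1, hS1, n1, t1, g1, q1, _, r1, _⟩ := (h.w1 _ lx).ow
  subst t1
  have xS := hS1 x (by simp)
  have yS := hS1 y (by simp)
  have rS := hS1 r (by simp)
  have sS := hS1 s (by simp)
  obtain ⟨CL, U, PL, wa⟩ := wa_of w1 ⟨x, xS, xT⟩
  obtain ⟨a, b, nd8', hZ, -⟩ := wa.sqP (lp _ _ _ _ _ _ _ _ _ _ wa) nd' xS yS sS rS xT yT sT rT q1
    (r1 (by rw [TFC.sq, Sym2.eq_swap (a := x) (b := s)]; simp))
    (r1 (by rw [Sym2.eq_swap]; simp [TFC.sq])) (r1 (by simp [TFC.sq]))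
  obtain ⟨⟨_, _, _, _, _, xa, xb⟩, ⟨_, _, _, _, ya, yb⟩, ⟨_, _, _, qa, qb⟩, ⟨_, _, pa, pb⟩,
    ⟨_, sa, sb⟩, ⟨ra, rb⟩, ab⟩ := nd8 nd8'
  have hZE : TFC.sq s r b a ⊆ X₁.E := w1.sqE hZ
  have hlt : ∀ v ∈ cr (s, r, b, a), v < n := by
    intro v hv
    have key : ∃ e ∈ TFC.sq s r b a, v ∈ e := by
      simp only [cr, mem_insert, mem_singleton] at hv
      rcases hv with rfl | rfl | rfl | rfl
      · exact ⟨s(v, r), by simp [TFC.sq], by simp⟩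
      · exact ⟨s(s, v), by simp [TFC.sq], by simp⟩
      · exact ⟨s(r, v), by simp [TFC.sq], by simp⟩
      · exact ⟨s(v, s), by simp [TFC.sq], by simp⟩
    obtain ⟨e, he, hve⟩ := key
    rw [← n1]
    exact w1.ok.lt e (hZE he) v hve
  -- world 2 with near covers at the corners of the third square
  obtain ⟨X₂, P₂, D₂, j₂, m₂, S₂, w2, hS2, n2, t2, g2, q2, _, r2, z2⟩ := (h.w2 _ hlt).ow
  have hZ2 : TFC.sq s r b a ⊆ X₂.E := fun e he => z2 (mem_inter.2 ⟨he, g1 (hZE he)⟩)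
  have xS2 := hS2 x (by simp)
  have yS2 := hS2 y (by simp)
  have rS2 := hS2 r (by simp)
  have sS2 := hS2 s (by simp)
  by_cases aT : a ∈ X₁.T
  swap
  · have nd2 : [s, r, b, a, x, y].Nodup := by
      simp only [List.nodup_cons, List.mem_cons, List.not_mem_nil, or_false, not_or, List.nodup_nil, and_true,
        not_false_eq_true]
      exact ⟨⟨rs.symm, sb, sa, xs.symm, ys.symm⟩, ⟨rb, ra, xr.symm, yr.symm⟩, ⟨ab.symm, xb.symm, yb.symm⟩,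
        ⟨xa.symm, ya.symm⟩, xy⟩
    exact t220222 lp w1 w2 t2.symm nd2 sS rS xS yS sS2 rS2 xS2 yS2 sT rT xT yT aT hZ
      (by rw [sq_two']; exact q2) (by rw [sq_two']; exact r1) hZ2
  by_cases bT : b ∈ X₁.T
  swap
  · have nd2 : [r, s, a, b, y, x].Nodup := by
      simp only [List.nodup_cons, List.mem_cons, List.not_mem_nil, or_false, not_or, List.nodup_nil, and_true,
        not_false_eq_true]
      exact ⟨⟨rs, ra, rb, yr.symm, xr.symm⟩, ⟨sa, sb, ys.symm, xs.symm⟩, ⟨ab, ya.symm, xa.symm⟩,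
        ⟨yb.symm, xb.symm⟩, xy.symm⟩
    have e1 : TFC.sq r s a b = TFC.sq s r b a := by rw [sq_ref, sq_rot, sq_rot]
    have e2 : TFC.sq r s x y = TFC.sq x y r s := by rw [sq_rot, sq_rot]
    exact t220222 lp w1 w2 t2.symm nd2 rS sS yS xS rS2 sS2 yS2 xS2 rT sT yT xT bT (by rw [e1]; exact hZ)
      (by rw [e2]; exact q2) (by rw [e2]; exact r1) (by rw [e1]; exact hZ2)
  refine cor_of lp X₂ P₂ D₂ j₂ m₂ S₂ M w2 x y q p s r a b nd8' ?_ q2 r2 hZ2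
  intro v hv
  rw [t2]
  simp only [List.mem_cons, List.not_mem_nil, or_false] at hv
  rcases hv with rfl | rfl | rfl | rfl | rfl | rfl | rfl | rfl
  · exact ⟨xS2, xT⟩
  · exact ⟨yS2, yT⟩
  · exact ⟨hS2 v (by simp), qT⟩
  · exact ⟨hS2 v (by simp), pT⟩
  · exact ⟨sS2, sT⟩
  · exact ⟨rS2, rT⟩
  · exact ⟨hS2 v (by simp), aT⟩
  · exact ⟨hS2 v (by simp), bT⟩

end Pool.Agent.PF4.XT
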