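import Pool.Agent.PF4.XZ
import Pool.Agent.PF4.KWX
import Pool.Agent.PF4.X5
import Pool.Agent.PF4.XG2
import Pool.Agent.PF4.XP4b

/-!
2F({4}) is in P, given Lemma P.
-/

set_option autoImplicit false

namespace Pool.Agent.PF4

open Pool.Agent.Lib.helper60

/-- the pattern theorems, given Lemma P -/
theorem pat2_of_LP (lp : XT.LPall) : XF.Pat2 :=
  ⟨XF.pt_p1, XF.pt_p2, XF.pt_p3, XT.p4a lp, XT.p4b lp, XT.pt5⟩

/-- **2F({4}) is in P, given Lemma P** -/
theorem inP_of_LP (lp : XT.LPall) : InP TF4.TwoF4 := inP_of_Xf2 (XF.xf2_of_pat (pat2_of_LP lp))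

end Pool.Agent.PF4
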