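import Pool.Agent.PF4.XB4
import Pool.Agent.PF4.XS
import Pool.Agent.PF4.XC
import Pool.Agent.PF4.SX2

/-!
`xf1` from the theorem on two conflicting squares.
-/

set_option autoImplicit false

namespace Pool.Agent.PF4.XF

open Finset Pool.Agent.TFC Pool.Agent.PF4 Pool.Agent.Lib.helper60

/-- the same tuple -/
def eqS (q r : Sq4) : Bool :=
  decide (q.1 = r.1) && (decide (q.2.1 = r.2.1) && (decide (q.2.2.1 = r.2.2.1) && decide (q.2.2.2 = r.2.2.2)))

theorem eqS_iff {q r : Sq4} : eqS q r = true ↔ q = r := by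
  obtain ⟨a, b, c, d⟩ := q
  obtain ⟨a', b', c', d'⟩ := r
  simp only [eqS, Bool.and_eq_true, decide_eq_true_eq, Prod.mk.injEq]

/-- the test: a cover all of whose harmful squares are in `F` and are not `Q` -/
def okX (x : Ins) (g : List ℕ) (F : List Ed) (Q : Sq4) (l : List Ed) : Bool :=
  ((List.range x.1).all fun v => decide (g.getD v 0 ≤ degL l v)) &&
    ((sqG x).all fun q => !(harm g q && sqIn l q) || (sqIn F q && !eqS q Q))

theorem okX_iff {x : Ins} {g : List ℕ} {F : List Ed} {Q : Sq4} {l : List Ed} : okX x g F Q l = true ↔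
    Cov x.1 g (degL l) ∧ ∀ q ∈ sqG x, harm g q = true → sqIn l q = true → sqIn F q = true ∧ q ≠ Q := by
  unfold okX Cov
  rw [Bool.and_eq_true, List.all_eq_true, List.all_eq_true]
  refine and_congr ?_ ?_
  · constructor
    · intro h v hv
      have := h v (List.mem_range.2 hv)
      rw [decide_eq_true_eq] at this
      exact this
    · intro h v hv
      rw [decide_eq_true_eq]
      exact h v (List.mem_range.1 hv)
  · refine forall₂_congr fun q _ => ?_
    rw [Bool.or_eq_true, Bool.not_eq_true', Bool.and_eq_true, Bool.not_eq_true', Bool.and_eq_false_iff,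
      ← Bool.not_eq_true, ← Bool.not_eq_true, ← Bool.not_eq_true, eqS_iff]
    tauto

/-- the arguments of `xf1` -/
abbrev XIn := Ins × List ℕ × List (ℕ × List Ed) × List Ed × Sq4 × Sq4

/-- the members of the pool which pass the test -/
def xfP (K : ℕ) (y : XIn × Sq4) : List (List Ed) :=
  (poolX y.1.1 y.1.2.1 y.1.2.2.2.1 y.1.2.2.1 y.1.2.2.2.2.1 y.1.2.2.2.2.2 y.2 K).filter
    fun l => okX y.1.1 y.1.2.1 y.1.2.2.2.1 y.1.2.2.2.2.1 l

/-- all 4-tuples of vertices -/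
def all4 (n : ℕ) : List Sq4 :=
  prodL (List.range n) (prodL (List.range n) (prodL (List.range n) (List.range n)))

/-- the members of all pools which pass the test -/
def xfA (K : ℕ) (y : XIn) : List (List Ed) := (all4 y.1.1).flatMap fun B => xfP K (y, B)

/-- **the function**: `K` = number of rounds -/
def xfK (K : ℕ) (y : XIn) : Bool × List Ed := (!decide ((xfA K y).length = 0), (xfA K y).headD [])

theorem mem_all4 {n : ℕ} {B : Sq4} :
    B ∈ all4 n ↔ B.1 < n ∧ B.2.1 < n ∧ B.2.2.1 < n ∧ B.2.2.2 < n := by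
  unfold all4
  rw [mem_prodL, mem_prodL, mem_prodL]
  simp only [List.mem_range]

theorem pt_eqS {ι : Type} [DEnc ι] {q r : ι → Sq4} (hq : PT q) (hr : PT r) : PT (fun y => eqS (q y) (r y)) :=
  PT.band (PT.neq hq.p1 hr.p1) (PT.band (PT.neq hq.p2.p1 hr.p2.p1)
    (PT.band (PT.neq hq.p2.p2.p1 hr.p2.p2.p1) (PT.neq hq.p2.p2.p2 hr.p2.p2.p2)))

theorem pt_okX {ι : Type} [DEnc ι] {x : ι → Ins} {g : ι → List ℕ} {F : ι → List Ed} {Q : ι → Sq4}
    {l : ι → List Ed} (hx : PT x) (hg : PT g) (hF : PT F) (hQ : PT Q) (hl : PT l) :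
    PT (fun y => okX (x y) (g y) (F y) (Q y) (l y)) := by
  have h1 : PT (fun y => (List.range (x y).1).all fun v => decide ((g y).getD v 0 ≤ degL (l y) v)) :=
    PT.all (PT.range (PT.p1 hx)) (p := fun z : ι × ℕ => decide ((g z.1).getD z.2 0 ≤ degL (l z.1) z.2))
      (PT.nle (PT.getD (hg.comp PT.fst) PT.snd (PT.const 0)) (pt_degL (hl.comp PT.fst) PT.snd))
  have h2 : PT (fun y => (sqG (x y)).all fun q => !(harm (g y) q && sqIn (l y) q) ||
      (sqIn (F y) q && !eqS q (Q y))) :=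
    PT.all (pt_sqG hx) (p := fun z : ι × Sq4 => !(harm (g z.1) z.2 && sqIn (l z.1) z.2) ||
      (sqIn (F z.1) z.2 && !eqS z.2 (Q z.1)))
      (PT.bor (PT.bnot (PT.band (pt_harm (hg.comp PT.fst) PT.snd) (pt_sqIn (hl.comp PT.fst) PT.snd)))
        (PT.band (pt_sqIn (hF.comp PT.fst) PT.snd) (PT.bnot (pt_eqS PT.snd (hQ.comp PT.fst)))))
  exact PT.band h1 h2

theorem pt_xfK (K : ℕ) : PT (xfK K) := by
  have hx : PT (fun y : XIn × Sq4 => y.1.1) := PT.p1 PT.fst
  have hg : PT (fun y : XIn × Sq4 => y.1.2.1) := PT.p1 (PT.p2 PT.fst)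
  have hW : PT (fun y : XIn × Sq4 => y.1.2.2.1) := PT.p1 (PT.p2 (PT.p2 PT.fst))
  have hF : PT (fun y : XIn × Sq4 => y.1.2.2.2.1) := PT.p1 (PT.p2 (PT.p2 (PT.p2 PT.fst)))
  have hQ : PT (fun y : XIn × Sq4 => y.1.2.2.2.2.1) := PT.p1 (PT.p2 (PT.p2 (PT.p2 (PT.p2 PT.fst))))
  have hR : PT (fun y : XIn × Sq4 => y.1.2.2.2.2.2) := PT.p2 (PT.p2 (PT.p2 (PT.p2 (PT.p2 PT.fst))))
  have hP : PT (xfP K) :=
    PT.filter (pt_poolX hx hg hF hW hQ hR PT.snd K)
      (p := fun z : (XIn × Sq4) × List Ed =>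
        okX z.1.1.1 z.1.1.2.1 z.1.1.2.2.2.1 z.1.1.2.2.2.2.1 z.2)
      (pt_okX (hx.comp PT.fst) (hg.comp PT.fst) (hF.comp PT.fst) (hQ.comp PT.fst) PT.snd)
  have hn : PT (fun y : XIn => List.range y.1.1) := PT.range (PT.p1 PT.fst)
  have h4 : PT (fun y : XIn => all4 y.1.1) := pt_prodL hn (pt_prodL hn (pt_prodL hn hn))
  have hA : PT (xfA K) := PT.flatMap h4 (g := fun z : XIn × Sq4 => xfP K (z.1, z.2))
    (hP.comp (PT.pair PT.fst PT.snd))
  exact PT.pair (PT.bnot (PT.isZero (PT.length hA))) (PT.headD hA (PT.const []))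

theorem xfK_true {K : ℕ} {y : XIn} (h : (xfK K y).1 = true) : ∃ B ∈ all4 y.1.1, (xfK K y).2 ∈ xfP K (y, B) := by
  have h1 : (xfK K y).2 ∈ xfA K y := by
    unfold xfK at h ⊢
    simp only [Bool.not_eq_true', decide_eq_false_iff_not] at h ⊢
    cases hc : xfA K y with
    | nil => rw [hc] at h; simp at h
    | cons a l => exact List.mem_cons_self
  exact List.mem_flatMap.1 h1

theorem xfK_false {K : ℕ} {y : XIn} (h : (xfK K y).1 = false) : ∀ B ∈ all4 y.1.1,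
    ∀ l ∈ poolX y.1 y.2.1 y.2.2.2.1 y.2.2.1 y.2.2.2.2.1 y.2.2.2.2.2 B K,
      okX y.1 y.2.1 y.2.2.2.1 y.2.2.2.2.1 l = false := by
  unfold xfK at h
  simp only [Bool.not_eq_false', decide_eq_true_eq] at h
  intro B hB l hl
  by_contra hc
  rw [Bool.not_eq_false] at hc
  have : l ∈ xfA K y := List.mem_flatMap.2 ⟨B, hB, List.mem_filter.2 ⟨hl, hc⟩⟩
  rw [List.length_eq_zero_iff.1 h] at this
  cases this

section
variable {x : Ins} {g : List ℕ} {W : List (ℕ × List Ed)} {v : ℕ} {F : List Ed} {Q R B : Sq4}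

theorem b1_of (hx : InsWF x) (hD : Da x g W v) (hF : MG x F) (hQ : Q ∈ sqG x) (hR : R ∈ sqG x)
    (hB : B ∈ all4 x.1) : B1 x F W Q R B where
  wf := hx
  f := hF
  w := fun p hp => (hD.tab p hp).2.1.1
  q := ⟨sqG_ok Q hQ, sqG_sub hQ⟩
  r := ⟨sqG_ok R hR, sqG_sub hR⟩
  b := mem_all4.1 hB

theorem mem_cor {w : ℕ} : w ∈ cr Q ∪ cr R ∪ cr B ↔ w ∈ cor Q R B := by
  rw [Finset.mem_union, Finset.mem_union]
  simp only [cr, Finset.mem_insert, Finset.mem_singleton]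
  simp only [cor, List.mem_cons, List.not_mem_nil, or_false]
  tauto

/-- the stored object of a vertex -/
theorem lookW_or (W : List (ℕ × List Ed)) (w : ℕ) : lookW W w = [] ∨ (w, lookW W w) ∈ W := by
  unfold lookW
  cases hc : (W.filter fun p => decide (p.1 = w)) with
  | nil => exact Or.inl rfl
  | cons p l =>
    right
    have h1 : p ∈ W.filter fun p => decide (p.1 = w) := by rw [hc]; exact List.mem_cons_self
    obtain ⟨h2, h3⟩ := List.mem_filter.1 h1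
    rw [decide_eq_true_eq] at h3
    show (w, p.2) ∈ W
    rw [← h3]
    exact h2

theorem lookW_mem {W : List (ℕ × List Ed)} {w : ℕ} (h : w ∈ W.map Prod.fst) : (w, lookW W w) ∈ W := by
  obtain ⟨p, hp, rfl⟩ := List.mem_map.1 h
  unfold lookW
  cases hc : (W.filter fun q => decide (q.1 = p.1)) with
  | nil =>
    exfalso
    have h1 : p ∈ W.filter fun q => decide (q.1 = p.1) := List.mem_filter.2 ⟨hp, by simp⟩
    rw [hc] at h1
    cases h1
  | cons q l =>
    have h1 : q ∈ W.filter fun q => decide (q.1 = p.1) := by rw [hc]; exact List.mem_cons_self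
    obtain ⟨h2, h3⟩ := List.mem_filter.1 h1
    rw [decide_eq_true_eq] at h3
    show (p.1, q.2) ∈ W
    rw [← h3]
    exact h2

/-- no square in the stored objects -/
theorem lookW_sq (hD : Da x g W v) (w : ℕ) : ∀ q ∈ sqG x, sqIn (lookW W w) q = false := by
  intro q hq
  rcases lookW_or W w with h | h
  · rw [h]
    rfl
  · exact (hD.tab _ h).2.1.2 q hq

theorem poolX_mono {s t : ℕ} (hst : s ≤ t) {l : List Ed} (hl : l ∈ poolX x g F W Q R B s) :
    l ∈ poolX x g F W Q R B t := by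
  induction t, hst using Nat.le_induction with
  | base => exact hl
  | succ t _ ih => exact mem_rX.2 (Or.inl ih)

theorem big_pow (c : ℕ) : ∃ m, ∀ a ≤ c, 3 ^ (a + 1) + 20 ≤ m :=
  ⟨3 ^ (c + 1) + 20, fun _ h =>
    Nat.add_le_add_right (Nat.pow_le_pow_right (by omega) (Nat.add_le_add_right h 1)) 20⟩

theorem big_choose (m c : ℕ) : ∃ K, ∀ a ≤ c, m * (a.choose 4 + 1) ≤ K :=
  ⟨m * (c.choose 4 + 1), fun _ h =>
    Nat.mul_le_mul_left _ (Nat.add_le_add_right (Nat.choose_le_choose 4 h) 1)⟩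

/-- **the failure of `xf1` in one world** -/
theorem fail_ow {K m : ℕ} (hx : InsWF x) (hD : Da x g W v) (hg : Ev x g) (hF : MG x F)
    (hc : Cov x.1 g (degL F)) (hQ : Q ∈ clS x g F) (hR : R ∈ sqG x) (hB4 : B ∈ all4 x.1) (hm : ∀ a ≤ cV2, 3 ^ (a + 1) + 20 ≤ m)
    (hK : ∀ a ≤ cE2, m * (a.choose 4 + 1) ≤ K) (h : (xfK K (x, g, W, F, Q, R)).1 = false) :
    ∃ (D : Finset (Finset (Sym2 ℕ))) (j : ℕ),
      OW (xd x g F W Q R B) (PX x g F W Q R B) D j m (cr Q ∪ cr R ∪ cr B) (fun w => fs (lookW W w)) ∧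
        sqs Q ∈ D := by
  have hQ' := List.mem_filter.1 hQ
  rw [Bool.and_eq_true] at hQ'
  obtain ⟨hQG, hQh, hQF⟩ := hQ'
  rw [sqIn_iff] at hQF
  have hB : B1 x F W Q R B := b1_of hx hD hF hQG hR hB4
  have hno := xfK_false h B hB4
  simp only at hno
  -- a member of the pool of stage at most `K` which is a cover contains a forbidden square
  have hbad : ∀ l ∈ poolX x g F W Q R B K, Cov x.1 g (degL l) →
      ∃ q ∈ sqG x, harm g q = true ∧ sqs q ⊆ fs l ∧ ¬ (sqs q ⊆ fs F ∧ sqs q ≠ sqs Q) := by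
    intro l hl hcl
    have h1 := hno l hl
    rw [← Bool.not_eq_true, okX_iff] at h1
    push Not at h1
    obtain ⟨q, hq, h2, h3, h4⟩ := h1 hcl
    refine ⟨q, hq, h2, (sqIn_iff _ _).1 h3, ?_⟩
    rintro ⟨h5, h6⟩
    exact h6 (by rw [h4 ((sqIn_iff _ _).2 h5)])
  have hCv : ∀ l : List Ed, WF l → M2 (fs l) → Cv (xd x g F W Q R B) (fs l) → Cov x.1 g (degL l) := by
    intro l hw _ hcl u hu
    rcases hg u hu with h1 | h1
    · rw [h1]; exact Nat.zero_le _
    · rw [h1, degL_eq hw, hcl u (mem_xdT.2 ⟨hu, h1⟩)]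
  -- the minimal blocking family
  have hE2 : #(xd x g F W Q R B).E2 ≤ cE2 := by
    show #(fs (E2L x F W Q R B)) ≤ cE2
    refine le_trans ?_ hB.lE2
    refine (List.toFinset_card_le _).trans ?_
    rw [List.length_map]
  have hV2 : #(xd x g F W Q R B).V2 ≤ cV2 := (List.toFinset_card_le _).trans hB.lV2
  obtain ⟨D, j, hjm, hblk, hDA⟩ := XP.exists_blk (hB.ok g) (hB.xp hg)
    (fun Z => Z ⊆ fs F ∧ Z ≠ sqs Q) (K := K) (m := m)
    (hK _ hE2)
    (hB.inv hg fun w _ => lookW_sq hD w)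
    (by
      rintro _ ⟨l, hl, rfl⟩ hcl
      have hpm := hB.pm hg K l hl
      obtain ⟨q, hq, h2, h3, h4⟩ := hbad l hl (hCv l hpm.wf hpm.m2 hcl)
      exact ⟨sqs q, (harm_iff hg hq).1 h2, h3, h4⟩)
  refine ⟨D, j, ⟨hB.ok g, hB.xp hg, hblk, ?_, hB.rch, hB.sv, ?_⟩, ?_⟩
  · exact hm _ hV2
  · -- the near covers
    intro w hw hwT
    obtain ⟨hwn, hw2⟩ := mem_xdT.1 hwT
    have hwW : (w, lookW W w) ∈ W := lookW_mem ((hD.sup w hwn).1 (by omega))
    obtain ⟨_, ⟨hMG, hsq⟩, hdeg⟩ := hD.tab _ hwW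
    have hst : lookW W w ∈ poolX x g F W Q R B 0 :=
      List.mem_cons_of_mem _ (List.mem_map.2 ⟨w, mem_cor.1 hw, rfl⟩)
    have hsqf : ∀ Z, Hs (xd x g F W Q R B).T Z → ¬ Z ⊆ fs (lookW W w) := by
      intro Z hZ hs
      obtain ⟨q, hq, e, _⟩ := Hs_full hx hg hZ (hs.trans hMG.sub)
      have h1 := hsq q hq
      rw [← Bool.not_eq_true, sqIn_iff, e] at h1
      exact h1 hs
    have hdg : ∀ u, degL (lookW W w) u = dg (fs (lookW W w)) u := fun u => degL_eq hMG.wf u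
    have hle : ∀ u, dg (fs (lookW W w)) u ≤ 2 := hMG.m2.le
    have htwo : ∀ u ∈ (xd x g F W Q R B).T, u ≠ w → dg (fs (lookW W w)) u = 2 := by
      intro u hu huw
      obtain ⟨hun, hu2⟩ := mem_xdT.1 hu
      have h1 := hdeg u hun
      rw [hu2, if_neg huw, hdg] at h1
      have h2 := hle u
      omega
    refine ⟨⟨hMG.m2, ?_, ?_, htwo⟩, ⟨_, poolX_mono (Nat.zero_le j) hst, rfl⟩, hsqf⟩
    · intro e he
      exact mem_EL.2 (Or.inr (Or.inl ⟨w, mem_cor.1 hw, he⟩))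
    · have h1 := hdeg w hwn
      rw [hw2, if_pos rfl, hdg] at h1
      have h2 := hle w
      by_contra hne
      have h3 : dg (fs (lookW W w)) w = 2 := by omega
      have hcov : Cov x.1 g (degL (lookW W w)) := by
        refine hCv _ hMG.wf hMG.m2 ?_
        intro u hu
        by_cases huw : u = w
        · rw [huw]; exact h3
        · exact htwo u hu huw
      obtain ⟨q, hq, _, h5, _⟩ := hbad _ (poolX_mono (Nat.zero_le K) hst) hcov
      have h6 := hsq q hq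
      rw [← Bool.not_eq_true, sqIn_iff] at h6
      exact h6 h5
  · -- the square `Q`
    have hFP : PX x g F W Q R B 0 (fs F) := ⟨F, List.mem_cons_self, rfl⟩
    have hFc : Cv (xd x g F W Q R B) (fs F) := by
      intro u hu
      obtain ⟨hun, hu2⟩ := mem_xdT.1 hu
      have h1 := hc u hun
      rw [hu2, degL_eq hF.wf] at h1
      have h2 := hF.m2.le u
      omega
    obtain ⟨Z, hZ, hs⟩ := hblk.blk 0 (Nat.zero_le _) _ hFP hFc
    have h1 := (hDA Z hZ).1
    have h2 : Z = sqs Q := by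
      by_contra hne
      exact h1 ⟨hs, hne⟩
    rw [← h2]
    exact hZ

end

/-- all worlds of one call -/
theorem fail_wb {K m : ℕ} {x : Ins} {g : List ℕ} {W : List (ℕ × List Ed)} {v : ℕ} {F : List Ed} {Q R : Sq4}
    (hx : InsWF x) (hD : Da x g W v) (hg : Ev x g) (hF : MG x F) (hc : Cov x.1 g (degL F))
    (hQ : Q ∈ clS x g F) (hR : R ∈ sqG x) (hm : ∀ a ≤ cV2, 3 ^ (a + 1) + 20 ≤ m)
    (hK : ∀ a ≤ cE2, m * (a.choose 4 + 1) ≤ K) (h : (xfK K (x, g, W, F, Q, R)).1 = false) (B : Sq4)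
    (hB : ∀ v ∈ cr B, v < x.1) :
    WB x.1 ((Finset.range x.1).filter fun v => g.getD v 0 = 2) (fs x.2) (fun w => fs (lookW W w)) Q R B := by
  have hB4 : B ∈ all4 x.1 := mem_all4.2 ⟨hB _ (by simp [cr]), hB _ (by simp [cr]), hB _ (by simp [cr]),
    hB _ (by simp [cr])⟩
  obtain ⟨D, j, w, q⟩ := fail_ow hx hD hg hF hc hQ hR hB4 hm hK h
  exact ⟨_, _, D, j, m, w, rfl, rfl, (b1_of hx hD hF (List.mem_of_mem_filter hQ) hR hB4).sub, q,
    fun e he => mem_EL.2 (Or.inr (Or.inr (Or.inl he))),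
    fun e he => mem_EL.2 (Or.inr (Or.inr (Or.inr (Or.inl he)))), fun e he => mem_EL.2 (Or.inr (Or.inr (Or.inr (Or.inr
      (Finset.mem_inter.1 he)))))⟩

/-- **`xf1` exists, given the theorem on two conflicting squares** -/
theorem xf1_exists (hX : XfStatement2) : ∃ xf1 : XIn → Bool × List Ed, PT xf1 ∧
    (∀ x g W v N Q R, InsWF x → Da x g W v → Ev x g → MG x N → Cov x.1 g (degL N) →
      Q ∈ clS x g N → R ∈ sqG x → harm g R = true → conf Q R = true →
      (xf1 (x, g, W, N, Q, R)).1 = true →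
      MG x (xf1 (x, g, W, N, Q, R)).2 ∧ Cov x.1 g (degL (xf1 (x, g, W, N, Q, R)).2) ∧
        ∀ Z ∈ clS x g (xf1 (x, g, W, N, Q, R)).2, Z ∈ clS x g N ∧ Z ≠ Q) ∧
    (∀ x g W v F N Q R, InsWF x → Da x g W v → Ev x g → MG x F → Cov x.1 g (degL F) →
      MG x N → Cov x.1 g (degL N) → Q ∈ clS x g F → R ∈ clS x g N → conf Q R = true →
      (xf1 (x, g, W, F, Q, R)).1 = true ∨ (xf1 (x, g, W, N, R, Q)).1 = true) := by
  obtain ⟨m, hm⟩ := big_pow cV2
  obtain ⟨K, hK⟩ := big_choose m cE2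
  refine ⟨xfK K, pt_xfK K, ?_, ?_⟩
  · intro x g W v N Q R hx hD hg hN _ hQ hR _ _ h
    have hQG : Q ∈ sqG x := List.mem_of_mem_filter hQ
    obtain ⟨B, hB4, h0⟩ := xfK_true h
    have hB : B1 x N W Q R B := b1_of hx hD hN hQG hR hB4
    obtain ⟨h1, h2⟩ := List.mem_filter.1 h0
    rw [okX_iff] at h2
    have hpm := hB.pm (g := g) hg K _ h1
    refine ⟨⟨hpm.wf, hpm.m2, hpm.sub.trans hB.sub⟩, h2.1, ?_⟩
    intro Z hZ
    obtain ⟨hZG, hZ2⟩ := List.mem_filter.1 hZ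
    rw [Bool.and_eq_true] at hZ2
    obtain ⟨h3, h4⟩ := h2.2 Z hZG hZ2.1 hZ2.2
    exact ⟨List.mem_filter.2 ⟨hZG, by rw [Bool.and_eq_true]; exact ⟨hZ2.1, h3⟩⟩, h4⟩
  · intro x g W v F N Q R hx hD hg hF hFc hN hNc hQ hR hQR
    by_contra hcon
    rw [not_or, Bool.not_eq_true, Bool.not_eq_true] at hcon
    obtain ⟨c1, c2⟩ := hcon
    have hQG : Q ∈ sqG x := List.mem_of_mem_filter hQ
    have hRG : R ∈ sqG x := List.mem_of_mem_filter hR
    refine hX x.1 _ (fs x.2) _ Q R (sqG_ok Q hQG) (sqG_ok R hRG) ((conf_iff (sqG_ok Q hQG)).1 hQR) ?_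
      (fail_wb hx hD hg hF hFc hQ hRG hm hK c1) (fail_wb hx hD hg hN hNc hR hQG hm hK c2)
    intro u hu
    have key : ∀ q ∈ sqG x, ∀ u ∈ cr q, u < x.1 := by
      intro q hq u hu
      obtain ⟨⟨h1, h2, h3, h4⟩, _⟩ := mem_sqG.1 hq
      simp only [cr, Finset.mem_insert, Finset.mem_singleton] at hu
      rcases hu with rfl | rfl | rfl | rfl <;> assumption
    rcases Finset.mem_union.1 hu with h | h
    · exact key Q hQG u h
    · exact key R hRG u h

end Pool.Agent.PF4.XF
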