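import Pool.Agent.PF4.Pool

/-!
Interfaces for the lemma on two conflicting squares (`xf1`).

`XD` = the data of one call: real vertices `< n`, edges `E` (the union of `F`, of the near covers and of the two squares),
`T` the vertices of demand 2 (the other real vertices are free), `En` the near edges, `E2` the edges which may be deleted
and added, `V2` the vertices where the demand may be open.

Vectors are DEMAND vectors `k`: `k v` = what a completion has to supply at `v`; the coordinate `n` is the parity token.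
A completion of a vector `k` with `k n = 0` is an edge set `K` with `dv K = k`.
-/

set_option autoImplicit false

namespace Pool.Agent.PF4.XF

open Finset Pool.Agent.TFC

/-- the data of one call -/
structure XD where
  n : ℕ
  E : Finset (Sym2 ℕ)
  T : Finset ℕ
  En : Finset (Sym2 ℕ)
  E2 : Finset (Sym2 ℕ)
  V2 : Finset ℕ

/-- `Z` is a harmful square: two opposite corners in `T` -/
def Hs (T : Finset ℕ) (Z : Finset (Sym2 ℕ)) : Prop :=
  ∃ a b c d, Dist4 a b c d ∧ Z = TFC.sq a b c d ∧ a ∈ T ∧ c ∈ T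

/-- well-formed data -/
structure XD.OK (X : XD) : Prop where
  lt : ∀ e ∈ X.E, ∀ v ∈ e, v < X.n
  nl : NoLoop X.E
  e1 : X.En ⊆ X.E2
  e2 : X.E2 ⊆ X.E
  tn : ∀ v ∈ X.T, v < X.n
  vn : ∀ v ∈ X.V2, v < X.n
  ev : ∀ e ∈ X.E2, ∀ v ∈ e, v ∈ X.V2
  near : ∀ Z, Hs X.T Z → Z ⊆ X.E → (∃ e ∈ Z, e ∈ X.En) → Z ⊆ X.E2

/-- the demand vector `k` fits the outer part `O` (a 2-matching): exact at `T`, at a free vertex at most the capacity, `0` off
`V2`, parity token `k n` in `{0, 1}`, even sum, nothing above `n` -/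
structure FitK (X : XD) (O : Finset (Sym2 ℕ)) (k : ℕ → ℤ) : Prop where
  t : ∀ v ∈ X.T, k v = 2 - dv O v
  f : ∀ v < X.n, v ∉ X.T → 0 ≤ k v ∧ k v ≤ 2 - dv O v
  off : ∀ v < X.n, v ∉ X.V2 → k v = 0
  tok : k X.n = 0 ∨ k X.n = 1
  par : Even (∑ v ∈ Finset.range (X.n + 1), k v)
  up : ∀ v, X.n < v → k v = 0

/-- `L` covers the demand -/
def Cv (X : XD) (L : Finset (Sym2 ℕ)) : Prop := ∀ v ∈ X.T, dg L v = 2

/-- **the staged pool**: `P t L` = the 2-matching `L` is in the pool after `t` rounds -/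
structure XP (X : XD) (P : ℕ → Finset (Sym2 ℕ) → Prop) : Prop where
  mono : ∀ t L, P t L → P (t + 1) L
  m2 : ∀ t L, P t L → M2 L ∧ L ⊆ X.E
  del : ∀ t L H, P t L → H ⊆ X.E2 → P (t + 1) (L \ H)
  add : ∀ t L K, P t L → K ⊆ X.E2 → M2 (L ∪ K) →
    (∀ Z, Hs X.T Z → Z ⊆ L ∪ K → Z ⊆ L ∨ ∃ e ∈ Z, e ∈ X.En) → P (t + 1) (L ∪ K)
  ex : ∀ t L L' k k', P t L → P t L' → FitK X L k → FitK X L' k' → ∀ (i : ℕ) (ε : ℤ),
    (i ∈ X.V2 ∨ i = X.n) → (ε = 1 ∨ ε = -1) → 0 < ε * (k' i - k i) →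
    ∃ L'' k'', P (t + 1) L'' ∧ FitK X L'' k'' ∧ L'' ⊆ L ∪ L' ∧
      (∀ Z, IsSq Z → Z ⊆ L'' → Z ⊆ L ∨ Z ⊆ L') ∧ Two k k' k'' i ε

/-- **a minimal blocking family, relative to the pool** -/
structure Blk (X : XD) (P : ℕ → Finset (Sym2 ℕ) → Prop) (D : Finset (Finset (Sym2 ℕ))) (j m : ℕ) : Prop where
  hs : ∀ Z ∈ D, Hs X.T Z ∧ Z ⊆ X.E2
  blk : ∀ t ≤ j + m, ∀ L, P t L → Cv X L → ∃ Z ∈ D, Z ⊆ L
  wit : ∀ Z ∈ D, ∃ L, P j L ∧ Cv X L ∧ Z ⊆ L ∧ ∀ Z' ∈ D, Z' ⊆ L → Z' = Z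

/-- **one world at one cluster** (or at a union of clusters): `C` the edges of the cluster, `ER` extra edges (not in `C`),
`PL` those extra edges which are in no square of `D`, `DC` the squares of `D` in `C`, `H t k` = the demand vector `k` is
available at stage `t` (there is an outer part without edge of `C` and `ER` and without square of `D`, which `k` fits). At most
`m` stages may be used. -/
structure World (n : ℕ) (T V2 : Finset ℕ) (C ER PL : Finset (Sym2 ℕ)) (DC : Finset (Finset (Sym2 ℕ))) (m : ℕ)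
    (H : ℕ → (ℕ → ℤ) → Prop) : Prop where
  mono : ∀ t k, H t k → H (t + 1) k
  rg : ∀ t k, H t k → ∀ v < n, 0 ≤ k v ∧ k v ≤ 2
  off : ∀ t k, H t k → ∀ v < n, v ∉ V2 → k v = 0
  tok : ∀ t k, H t k → k n = 0 ∨ k n = 1
  up : ∀ t k, H t k → ∀ v, n < v → k v = 0
  par : ∀ t k, H t k → Even (∑ v ∈ Finset.range (n + 1), k v)
  /-- at a free vertex the demand may be lowered, the parity token is changed accordingly -/
  dn : ∀ t k k', H t k → (∀ v < n, v ∈ T → k' v = k v) → (∀ v < n, v ∉ T → 0 ≤ k' v ∧ k' v ≤ k v) →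
    (k' n = 0 ∨ k' n = 1) → Even (∑ v ∈ Finset.range (n + 1), k' v) → (∀ v, n < v → k' v = 0) → H t k'
  /-- two-step exchange -/
  ex : ∀ t k k' (i : ℕ) (ε : ℤ), H t k → H t k' → (i ∈ V2 ∨ i = n) → (ε = 1 ∨ ε = -1) →
    0 < ε * (k' i - k i) → ∃ k'', H (t + 1) k'' ∧ Two k k' k'' i ε
  /-- there is no completion without square of `D`; an edge `e` of the completion outside `C` must be plain or have an end in
  the part of the completion in `C` (then a square of `D` through `e` would contain an edge of `C`) -/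
  blk : ∀ t ≤ m, ∀ k, H t k → ∀ K ⊆ C ∪ ER, M2 K → (∀ Z ∈ DC, ¬ Z ⊆ K) →
    (∀ e ∈ K, e ∉ C → e ∈ PL ∨ ∃ y ∈ e, 1 ≤ dg (K ∩ C) y) → dv K ≠ k

/-- availability of a demand vector -/
def Av (X : XD) (P : ℕ → Finset (Sym2 ℕ) → Prop) (D : Finset (Finset (Sym2 ℕ))) (j : ℕ)
    (C : Finset (Sym2 ℕ)) (t : ℕ) (k : ℕ → ℤ) : Prop :=
  ∃ O, P (j + t) O ∧ Disjoint O C ∧ (∀ Z ∈ D, ¬ Z ⊆ O) ∧ FitK X O k

end Pool.Agent.PF4.XF
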