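import Pool.Agent.PF4.XSh2

/-!
Local moves in a `K4`.
-/

set_option autoImplicit false

namespace Pool.Agent.PF4.XT

open Finset Pool.Agent.TFC Pool.Agent.PF4 Pool.Agent.PF4.LD Pool.Agent.PF4.XC Pool.Agent.PF4.XF Pool.Agent.PF4.XU

theorem l4_nsq_pendant {K : Finset (Sym2 ℕ)} (hK : NSq K) {u v : ℕ} (h : ∀ e ∈ K, u ∉ e) : NSq (insert s(u, v) K) :=
  nsq_pendant hK fun a ha => absurd (by simp) (h _ ha)

theorem l4_m2_insert {K : Finset (Sym2 ℕ)} (hK : M2 K) {u v : ℕ} (huv : u ≠ v) (hu : dg K u ≤ 1) (hv : dg K v ≤ 1) :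
    M2 (insert s(u, v) K) := by
  refine ⟨hK.nl.insert huv, fun w => ?_⟩
  by_cases he : s(u, v) ∈ K
  · rw [Finset.insert_eq_of_mem he]
    exact hK.le w
  · rw [dg_insert he]
    have hw := hK.le w
    split_ifs with h1
    · rcases Sym2.mem_iff.1 h1 with rfl | rfl <;> omega
    · omega

theorem l4_off {K : Finset (Sym2 ℕ)} {u : ℕ} (h : dg K u = 0) : ∀ e ∈ K, u ∉ e := by
  rw [dg, Finset.card_eq_zero, Finset.filter_eq_empty_iff] at h
  exact fun e he => h he

theorem l4_erase {K : Finset (Sym2 ℕ)} {a b : ℕ} (hab : a ≠ b) (h : s(a, b) ∈ K) :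
    dv (K.erase s(a, b)) = dv K + Pi.single a (-1) + Pi.single b (-1) := by
  rw [TFC.dv_erase hab h, Pi.single_neg, Pi.single_neg]
  show dv K - Pi.single a 1 - Pi.single b 1 = _
  abel

theorem l4_insert {K : Finset (Sym2 ℕ)} {a b : ℕ} (hab : a ≠ b) (h : s(a, b) ∉ K) :
    dv (insert s(a, b) K) = dv K + Pi.single a 1 + Pi.single b 1 := TFC.dv_insert hab h

/-- an edge set in a `K4` without edge at `u` has at most three edges, so it is square-free -/
theorem l4_nsq {Y : Finset ℕ} (hY : #Y = 4) {K : Finset (Sym2 ℕ)} (hK : K ⊆ (Clu.k4 Y).edges) {u : ℕ} (hu : u ∈ Y)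
    (h : ∀ e ∈ K, u ∉ e) : NSq K := by
  rintro Z ⟨a, b, c, d, ⟨n1, n2, n3, n4, n5, n6⟩, rfl⟩ hs
  have ha := (mem_k4.1 (hK (hs (by simp [TFC.sq] : s(a, b) ∈ TFC.sq a b c d)))).1
  have hb := (mem_k4.1 (hK (hs (by simp [TFC.sq] : s(a, b) ∈ TFC.sq a b c d)))).2.1
  have hc := (mem_k4.1 (hK (hs (by simp [TFC.sq] : s(c, d) ∈ TFC.sq a b c d)))).1
  have hd := (mem_k4.1 (hK (hs (by simp [TFC.sq] : s(c, d) ∈ TFC.sq a b c d)))).2.1
  have h4 : #({a, b, c, d} : Finset ℕ) = 4 := by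
    rw [Finset.card_insert_of_notMem (by simp [n1, n2, n3]), Finset.card_insert_of_notMem (by simp [n4, n5]),
      Finset.card_insert_of_notMem (by simp [n6]), Finset.card_singleton]
  have h5 : ({a, b, c, d} : Finset ℕ) ⊆ Y := by
    intro w hw
    simp only [Finset.mem_insert, Finset.mem_singleton] at hw
    rcases hw with rfl | rfl | rfl | rfl <;> assumption
  have h6 : u ∈ ({a, b, c, d} : Finset ℕ) := by
    rw [Finset.eq_of_subset_of_card_le h5 (by omega)]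
    exact hu
  simp only [Finset.mem_insert, Finset.mem_singleton] at h6
  rcases h6 with rfl | rfl | rfl | rfl
  · exact h _ (hs (by simp [TFC.sq] : s(u, b) ∈ TFC.sq u b c d)) (by simp)
  · exact h _ (hs (by simp [TFC.sq] : s(a, u) ∈ TFC.sq a u c d)) (by simp)
  · exact h _ (hs (by simp [TFC.sq] : s(u, d) ∈ TFC.sq a b u d)) (by simp)
  · exact h _ (hs (by simp [TFC.sq] : s(c, u) ∈ TFC.sq a b c u)) (by simp)

/-- **give `u` one edge** -/
theorem k4_side {Y : Finset ℕ} (hY : #Y = 4) {K : Finset (Sym2 ℕ)} (hK : K ⊆ (Clu.k4 Y).edges) (hM : M2 K) {u t : ℕ}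
    (hu : u ∈ Y) (ht : t ∈ Y) (hut : u ≠ t) (h0 : dg K u = 0) :
    ∃ F ⊆ (Clu.k4 Y).edges, M2 F ∧ NSq F ∧ ∃ ε : ℤ, (ε = 1 ∨ (ε = -1 ∧ dg K t = 2)) ∧
      dv F = dv K + Pi.single u 1 + Pi.single t ε := by
  have hoff := l4_off h0
  have hns := l4_nsq hY hK hu hoff
  by_cases h1 : dg K t ≤ 1
  · have hn : s(u, t) ∉ K := fun hc => hoff _ hc (by simp)
    exact ⟨insert s(u, t) K, Finset.insert_subset (mem_k4.2 ⟨hu, ht, hut⟩) hK, l4_m2_insert hM hut (by omega) h1,
      l4_nsq_pendant hns hoff, 1, Or.inl rfl, l4_insert hut hn⟩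
  · have h2 : dg K t = 2 := by have := hM.le t; omega
    have h3 : 0 < #(K.filter fun e => t ∈ e) := by
      have : #(K.filter fun e => t ∈ e) = 2 := h2
      omega
    obtain ⟨e, he⟩ := Finset.card_pos.1 h3
    obtain ⟨heK, hte⟩ := Finset.mem_filter.1 he
    obtain ⟨z, rfl⟩ := hte
    obtain ⟨_, hz, htz⟩ := mem_k4.1 (hK heK)
    have huz : u ≠ z := by
      rintro rfl
      exact hoff _ heK (by simp)
    have hK' : K.erase s(t, z) ⊆ K := Finset.erase_subset _ _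
    have hoff' : ∀ e ∈ K.erase s(t, z), u ∉ e := fun e he => hoff e (hK' he)
    have hn : s(u, z) ∉ K.erase s(t, z) := fun hc => hoff' _ hc (by simp)
    have hz1 : dg (K.erase s(t, z)) z ≤ 1 := by
      have h4 := dg_erase heK z
      rw [if_pos (by simp)] at h4
      have := hM.le z
      omega
    have hu0 : dg (K.erase s(t, z)) u ≤ 1 := by
      have := dg_mono hK' u
      omega
    refine ⟨insert s(u, z) (K.erase s(t, z)), Finset.insert_subset (mem_k4.2 ⟨hu, hz, huz⟩) (hK'.trans hK),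
      l4_m2_insert (hM.mono hK') huz hu0 hz1, l4_nsq_pendant (hns.mono hK') hoff', -1, Or.inr ⟨rfl, h2⟩, ?_⟩
    rw [l4_insert huz hn, l4_erase htz heK]
    funext w
    simp only [Pi.add_apply, sgl]
    split_ifs <;> ring

/-- three edges: two deficits -/
theorem l4_def {Y : Finset ℕ} (hY : #Y = 4) {K : Finset (Sym2 ℕ)} (hK : K ⊆ (Clu.k4 Y).edges) (hM : M2 K)
    (h3 : #K = 3) {r : ℕ} (hr : r ∈ Y) (h1 : dg K r ≤ 1) : ∃ i ∈ Y, dv K = R4_tx Y - ev r - ev i := by
  have hsum := sum_dv_k4 hK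
  rw [h3] at hsum
  have hle : ∀ v, dv K v ≤ 2 := fun v => by rw [dv]; exact_mod_cast hM.le v
  have hr1 : dv K r ≤ 1 := by rw [dv]; exact_mod_cast h1
  have hg : ∀ v ∈ Y, 0 ≤ (R4_tx Y - ev r - dv K) v := by
    intro v hv
    have := hle v
    simp only [Pi.sub_apply, R4_tx, ev_apply, if_pos hv]
    split_ifs with h
    · subst h; omega
    · omega
  have hs : ∑ v ∈ Y, (R4_tx Y - ev r - dv K) v = 1 := by
    simp only [Pi.sub_apply, Finset.sum_sub_distrib, sum_tx hY, ev_single, XU.sum_single, if_pos hr, hsum]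
    norm_num
  obtain ⟨i, hi, hip⟩ := XU.pos_ex (S := Y) (f := fun v => (R4_tx Y - ev r - dv K) v) (by rw [hs]; norm_num)
  refine ⟨i, hi, ?_⟩
  have h6 : ∑ v ∈ Y.erase i, (R4_tx Y - ev r - dv K) v ≤ 0 := by
    have := Finset.add_sum_erase Y (R4_tx Y - ev r - dv K) hi
    rw [hs] at this
    linarith
  have h7 : ∑ v ∈ Y.erase i, (R4_tx Y - ev r - dv K) v = 0 :=
    le_antisymm h6 (Finset.sum_nonneg fun v hv => hg v (Finset.mem_of_mem_erase hv))
  have h8 := (Finset.sum_eq_zero_iff_of_nonneg fun v hv => hg v (Finset.mem_of_mem_erase hv)).1 h7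
  have h9 : (R4_tx Y - ev r - dv K) i = 1 := by
    have := Finset.add_sum_erase Y (R4_tx Y - ev r - dv K) hi
    rw [hs, h7] at this
    linarith
  have h10 : R4_tx Y - ev r - dv K = ev i := by
    funext v
    rw [ev_apply]
    by_cases hvi : v = i
    · subst hvi
      rw [h9, if_pos rfl]
    · rw [if_neg hvi]
      by_cases hv : v ∈ Y
      · exact h8 v (Finset.mem_erase.2 ⟨hvi, hv⟩)
      · have hvr : v ≠ r := by
          rintro rfl
          exact hv hr
        rw [Pi.sub_apply, Pi.sub_apply, dv_k4_off hK hv, R4_tx, if_neg hv, ev_apply, if_neg hvr]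
        norm_num
  rw [← h10]
  abel

/-- **change the parity of `r` and `s`** -/
theorem k4_toggle {Y : Finset ℕ} (hY : #Y = 4) {K : Finset (Sym2 ℕ)} (hK : K ⊆ (Clu.k4 Y).edges) (hM : M2 K)
    {r s : ℕ} (hr : r ∈ Y) (hs : s ∈ Y) (hrs : r ≠ s) :
    ∃ F ⊆ (Clu.k4 Y).edges, M2 F ∧ NSq F ∧ ∃ ε1 ε2 : ℤ, (ε1 = 1 ∨ ε1 = -1) ∧ (ε2 = 1 ∨ ε2 = -1) ∧
      dv F = dv K + Pi.single r ε1 + Pi.single s ε2 := by
  by_cases hns : NSq K
  swap
  · unfold NSq at hns
    push Not at hns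
    obtain ⟨Z, hZ, hZs⟩ := hns
    obtain ⟨F, f1, f2, f3, f4⟩ := k4_part hY hr hs
    refine ⟨F, f1, f2, f3, -1, -1, Or.inr rfl, Or.inr rfl, ?_⟩
    rw [f4, k4_dv_sq hY hK hM hZ hZs, Pi.single_neg, Pi.single_neg]
    show R4_tx Y - Pi.single r 1 - Pi.single s 1 = _
    abel
  by_cases he : s(r, s) ∈ K
  · exact ⟨K.erase s(r, s), (Finset.erase_subset _ _).trans hK, hM.mono (Finset.erase_subset _ _),
      hns.mono (Finset.erase_subset _ _), -1, -1, Or.inr rfl, Or.inr rfl, l4_erase hrs he⟩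
  have hle : #K ≤ 3 := R4_card_le hY hK hM ((nsq_good hM.nl).1 hns)
  -- an edge at `r` and at `s` is `rs`
  have hno : ∀ e ∈ K, r ∈ e → s ∉ e := by
    intro e heK h1 h2
    have : e = s(r, s) := (Sym2.mem_and_mem_iff hrs).1 ⟨h1, h2⟩
    exact he (this ▸ heK)
  have hsum : dg K r + dg K s ≤ #K := by
    have hd : Disjoint (K.filter fun e => r ∈ e) (K.filter fun e => s ∈ e) := by
      rw [Finset.disjoint_left]
      intro e h1 h2
      exact hno e (Finset.mem_filter.1 h1).1 (Finset.mem_filter.1 h1).2 (Finset.mem_filter.1 h2).2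
    unfold dg
    rw [← Finset.card_union_of_disjoint hd]
    exact Finset.card_le_card (Finset.union_subset (Finset.filter_subset _ _) (Finset.filter_subset _ _))
  by_cases h3 : #K = 3
  · by_cases hr1 : dg K r ≤ 1
    · obtain ⟨i, hi, h4⟩ := l4_def hY hK hM h3 hr hr1
      obtain ⟨F, f1, f2, f3, f4⟩ := k4_part hY hi hs
      refine ⟨F, f1, f2, f3, 1, -1, Or.inl rfl, Or.inr rfl, ?_⟩
      rw [f4, h4]
      funext w
      simp only [Pi.add_apply, Pi.sub_apply, sgl, ev_apply]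
      split_ifs <;> ring
    · have hs1 : dg K s ≤ 1 := by omega
      obtain ⟨i, hi, h4⟩ := l4_def hY hK hM h3 hs hs1
      obtain ⟨F, f1, f2, f3, f4⟩ := k4_part hY hi hr
      refine ⟨F, f1, f2, f3, -1, 1, Or.inr rfl, Or.inl rfl, ?_⟩
      rw [f4, h4]
      funext w
      simp only [Pi.add_apply, Pi.sub_apply, sgl, ev_apply]
      split_ifs <;> ring
  · have h2 : #K ≤ 2 := by omega
    by_cases hr1 : dg K r ≤ 1
    · by_cases hs1 : dg K s ≤ 1
      · refine ⟨insert s(r, s) K, Finset.insert_subset (mem_k4.2 ⟨hr, hs, hrs⟩) hK, l4_m2_insert hM hrs hr1 hs1,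
          nsq_small ?_, 1, 1, Or.inl rfl, Or.inl rfl, l4_insert hrs he⟩
        rw [Finset.card_insert_of_notMem he]
        omega
      · -- `s` has two edges, `r` none
        obtain ⟨F, f1, f2, f3, ε, f4, f5⟩ := k4_side hY hK hM hr hs hrs (by omega)
        have hε : ε = 1 ∨ ε = -1 := by
          rcases f4 with rfl | ⟨rfl, _⟩
          · exact Or.inl rfl
          · exact Or.inr rfl
        exact ⟨F, f1, f2, f3, 1, ε, Or.inl rfl, hε, f5⟩
    · obtain ⟨F, f1, f2, f3, ε, f4, f5⟩ := k4_side hY hK hM hs hr hrs.symm (by omega)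
      have hε : ε = 1 ∨ ε = -1 := by
        rcases f4 with rfl | ⟨rfl, _⟩
        · exact Or.inl rfl
        · exact Or.inr rfl
      refine ⟨F, f1, f2, f3, ε, 1, hε, Or.inl rfl, ?_⟩
      rw [f5]
      abel

end Pool.Agent.PF4.XT
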