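import Pool.Agent.PF4.XP4

/-!
Lemma P, part 1: modified witnesses as states; moves at one site (a cluster or one plain edge).
-/

set_option autoImplicit false

namespace Pool.Agent.PF4.XT

open Finset Pool.Agent.TFC Pool.Agent.PF4 Pool.Agent.PF4.LD Pool.Agent.PF4.XC Pool.Agent.PF4.XF

/-- `F` is allowed at the site `E` -/
def Al (A : Clu ℕ → Finset (Sym2 ℕ) → Prop) (U : List (Clu ℕ)) (PL E F : Finset (Sym2 ℕ)) : Prop :=
  F ⊆ E ∧ ((∃ c ∈ U, E = c.edges ∧ A c F) ∨ ∃ e ∈ PL, E = {e})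

/-- an allowed modification `K` of `L`: total change `d`, changed only in `τ` -/
structure St (A : Clu ℕ → Finset (Sym2 ℕ) → Prop) (U : List (Clu ℕ)) (PL L : Finset (Sym2 ℕ)) (d : ℕ → ℤ)
    (τ K : Finset (Sym2 ℕ)) : Prop where
  au : AU A U PL K
  dv : dv K = dv (L ∩ (Ucl U ∪ PL)) + d
  eq : K \ τ = (L ∩ (Ucl U ∪ PL)) \ τ

/-- there is an allowed modification with total change `d`, changed only in `τ` -/
def RS (A : Clu ℕ → Finset (Sym2 ℕ) → Prop) (U : List (Clu ℕ)) (PL L : Finset (Sym2 ℕ)) (d : ℕ → ℤ)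
    (τ : Finset (Sym2 ℕ)) : Prop := ∃ K, St A U PL L d τ K

/-- a move at the site `E` with change `δ` -/
def Mv (A : Clu ℕ → Finset (Sym2 ℕ) → Prop) (U : List (Clu ℕ)) (PL L E : Finset (Sym2 ℕ)) (δ : ℕ → ℤ) : Prop :=
  ∃ F, Al A U PL E F ∧ dv F = dv (L ∩ E) + δ

/-- a correction: nonpositive even changes at vertices which are not of type X -/
def NP (pl mi : ℕ → Prop) (κ : ℕ → ℤ) : Prop := ∀ v, κ v ≤ 0 ∧ Even (κ v) ∧ (κ v ≠ 0 → ¬ (mi v ∧ ¬ pl v))

theorem np_zero {pl mi : ℕ → Prop} : NP pl mi 0 := fun v => ⟨le_rfl, by simp, fun h => absurd rfl h⟩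

theorem NP.add {pl mi : ℕ → Prop} {κ κ' : ℕ → ℤ} (h : NP pl mi κ) (h' : NP pl mi κ') : NP pl mi (κ + κ') := by
  intro v
  obtain ⟨h1, h2, h3⟩ := h v
  obtain ⟨h4, h5, h6⟩ := h' v
  rw [Pi.add_apply]
  refine ⟨by omega, h2.add h5, fun h7 => ?_⟩
  by_cases h8 : κ v = 0
  · exact h6 (by rw [h8, zero_add] at h7; exact h7)
  · exact h3 h8

theorem np_single {pl mi : ℕ → Prop} {l : ℕ} (hl : ¬ (mi l ∧ ¬ pl l)) : NP pl mi (Pi.single l (-2)) := by
  intro v
  rw [sgl]
  by_cases h : v = l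
  · subst h
    rw [if_pos rfl]
    exact ⟨by norm_num, by decide, fun _ => hl⟩
  · rw [if_neg h]
    exact ⟨le_rfl, by simp, fun h => absurd rfl h⟩

theorem con_np {p m : Prop} {a : ℤ} (h1 : a ≤ 0) (h2 : Even a) (h3 : a ≠ 0 → ¬ (m ∧ ¬ p)) : con p m a ≤ 0 := by
  by_cases h : a = 0
  · rw [h, con_zero]
  · have h4 := h3 h
    obtain ⟨b, hb⟩ := h2
    unfold con
    split_ifs with p1 p2 p2
    · omega
    · exact h1
    · exact absurd ⟨p2, p1⟩ h4
    · exact le_rfl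

section
variable {X : XD} {P : ℕ → Finset (Sym2 ℕ) → Prop} {D : Finset (Finset (Sym2 ℕ))} {j : ℕ} {S : Finset ℕ}
  {M : ℕ → Finset (Sym2 ℕ)} {A : Clu ℕ → Finset (Sym2 ℕ) → Prop} {CL U : List (Clu ℕ)} {PL : Finset (Sym2 ℕ)}
  {pl mi : ℕ → Prop} {L : Finset (Sym2 ℕ)}

/-- a site lies in the region -/
theorem Al.sub {E F : Finset (Sym2 ℕ)} (hF : Al A U PL E F) : E ⊆ Ucl U ∪ PL := by
  rcases hF.2 with ⟨c, hc, rfl, _⟩ | ⟨e, he, rfl⟩
  · exact fun e he => Finset.mem_union_left _ (mem_Ucl.2 ⟨c, hc, he⟩)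
  · exact Finset.singleton_subset_iff.2 (Finset.mem_union_right _ he)

theorem St.inter {d : ℕ → ℤ} {τ K E : Finset (Sym2 ℕ)} (h : St A U PL L d τ K) (hE : E ⊆ Ucl U ∪ PL)
    (hd : Disjoint E τ) : K ∩ E = L ∩ E := by
  ext e
  simp only [Finset.mem_inter]
  refine and_congr_left fun he => ?_
  have h1 : e ∉ τ := Finset.disjoint_left.1 hd he
  have h2 := Finset.ext_iff.1 h.eq e
  simp only [Finset.mem_sdiff, Finset.mem_inter] at h2
  constructor
  · intro h3
    exact (h2.1 ⟨h3, h1⟩).1.1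
  · intro h3
    exact (h2.2 ⟨⟨h3, hE he⟩, h1⟩).1

/-- **one move** -/
theorem PW.step (h : PW X P D j S M A CL U PL pl mi) {d δ : ℕ → ℤ} {τ E : Finset (Sym2 ℕ)}
    (hR : RS A U PL L d τ) (hd : Disjoint E τ) (hM : Mv A U PL L E δ) : RS A U PL L (d + δ) (τ ∪ E) := by
  obtain ⟨K, hK⟩ := hR
  obtain ⟨F, hF, hdv⟩ := hM
  have hE := hF.sub
  have hKE := hK.inter hE hd
  refine ⟨(K \ E) ∪ F, ?_, ?_, ?_⟩
  · rcases hF.2 with ⟨c, hc, rfl, hA⟩ | ⟨e, he, rfl⟩
    · exact AU_rep h hc hK.au.1 hF.1 hA fun c' hc' _ => hK.au.2 c' hc'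
    · refine ⟨Finset.union_subset (Finset.sdiff_subset.trans hK.au.1) (hF.1.trans hE), fun c hc => ?_⟩
      have hec : e ∉ c.edges := fun h1 => Finset.disjoint_left.1 (h.plain hc) he h1
      have e1 : (K \ {e} ∪ F) ∩ c.edges = K ∩ c.edges := by
        ext f
        simp only [Finset.mem_inter, Finset.mem_union, Finset.mem_sdiff, Finset.mem_singleton]
        constructor
        · rintro ⟨h1 | h1, h2⟩
          · exact ⟨h1.1, h2⟩
          · have h3 := Finset.mem_singleton.1 (hF.1 h1)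
            rw [h3] at h2
            exact absurd h2 hec
        · rintro ⟨h1, h2⟩
          refine ⟨Or.inl ⟨h1, ?_⟩, h2⟩
          rintro rfl
          exact hec h2
      rw [e1]
      exact hK.au.2 c hc
  · rw [dv_rep hF.1, hKE, hdv, hK.dv]
    abel
  · ext e
    have h2 := Finset.ext_iff.1 hK.eq e
    simp only [Finset.mem_sdiff, Finset.mem_inter, Finset.mem_union] at h2 ⊢
    have h3 : e ∈ F → e ∈ E := fun h => hF.1 h
    tauto

/-- the start: the part in the cluster of the square is replaced -/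
theorem PW.start (h : PW X P D j S M A CL U PL pl mi) {c : Clu ℕ} (hc : c ∈ U) (hO : Out A U c L)
    {F : Finset (Sym2 ℕ)} (hF : F ⊆ c.edges) (hA : A c F) {δ : ℕ → ℤ} (hdv : dv F = dv (L ∩ c.edges) + δ) :
    RS A U PL L δ c.edges := by
  refine ⟨((L ∩ (Ucl U ∪ PL)) \ c.edges) ∪ F, ?_, ?_, ?_⟩
  · exact AU_rep h hc Finset.inter_subset_right hF hA fun c' hc' hne => by
      rw [h.interW hc']
      exact hO c' hc' hne
  · rw [dv_rep hF, h.interW hc, hdv]
    abel
  · ext e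
    simp only [Finset.mem_sdiff, Finset.mem_inter, Finset.mem_union]
    have h3 : e ∈ F → e ∈ c.edges := fun h => hF h
    tauto

/-- the inequality for a state -/
theorem PW.val1 (h : PW X P D j S M A CL U PL pl mi) {Z : Finset (Sym2 ℕ)} (hZ : Z ∈ D) (hZU : Z ⊆ Ucl U)
    (hL : Wt X P D j Z L) {d : ℕ → ℤ} {τ : Finset (Sym2 ℕ)} (hR : RS A U PL L d τ) : 1 ≤ ph X.V2 pl mi d := by
  obtain ⟨K, hK⟩ := hR
  have h1 := h.witA Z hZ hZU L hL.mem hL.cov hL.uni K hK.au
  have e : dv K - dv (L ∩ (Ucl U ∪ PL)) = d := by rw [hK.dv, add_sub_cancel_left]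
  rwa [e] at h1

/-- **the end**: even changes cost nothing -/
theorem PW.fin (h : PW X P D j S M A CL U PL pl mi) {Z : Finset (Sym2 ℕ)} (hZ : Z ∈ D) (hZU : Z ⊆ Ucl U)
    (hL : Wt X P D j Z L) {r s : ℕ} (hrs : r ≠ s) (hr : mi r) (hs : mi s) {α β : ℤ} (hα : α = 0 ∨ α = 2)
    (hβ : β = 0 ∨ β = 2) {κ : ℕ → ℤ} (hκ : NP pl mi κ) {τ : Finset (Sym2 ℕ)}
    (hR : RS A U PL L (Pi.single r α + Pi.single s β + κ) τ) : False := by
  have h1 := h.val1 hZ hZU hL hR
  have h2 : ph X.V2 pl mi (Pi.single r α + Pi.single s β + κ) ≤ 0 := by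
    unfold ph
    refine Finset.sum_nonpos fun v _ => ?_
    obtain ⟨k1, k2, k3⟩ := hκ v
    rw [Pi.add_apply, Pi.add_apply, sgl, sgl]
    have key : ∀ a : ℤ, a = 0 ∨ a = 2 → (a = 2 → mi v) → con (pl v) (mi v) (a + κ v) ≤ 0 := by
      intro a ha hm
      rcases ha with rfl | rfl
      · rw [zero_add]
        exact con_np k1 k2 k3
      · have hv := hm rfl
        obtain ⟨b, hb⟩ := k2
        by_cases hk : κ v = 0
        · rw [hk]
          unfold con
          split_ifs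
          · norm_num
          · norm_num
        · have h4 := k3 hk
          have hp : pl v := by
            by_contra hp
            exact h4 ⟨hv, hp⟩
          rw [con_Z hp hv]
          omega
    by_cases e1 : v = r
    · subst e1
      rw [if_pos rfl, if_neg hrs, add_zero]
      exact key α hα fun _ => hr
    · by_cases e2 : v = s
      · subst e2
        rw [if_neg e1, if_pos rfl, zero_add]
        exact key β hβ fun _ => hs
      · rw [if_neg e1, if_neg e2, add_zero]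
        exact key 0 (Or.inl rfl) fun h => by norm_num at h
  omega

end

end Pool.Agent.PF4.XT
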