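import Pool.Agent.PF4.XV0
import Pool.Agent.PF4.XL4

/-!
Lemma P, last part: after the block, in the all-capped frame.
-/

set_option autoImplicit false

namespace Pool.Agent.PF4.XLP

open Finset Pool.Agent.TFC Pool.Agent.PF4 Pool.Agent.PF4.LD Pool.Agent.PF4.XC Pool.Agent.PF4.XF Pool.Agent.PF4.XT

/-- insert an edge, one end has no other edge -/
theorem acap_ins {D : Finset (Finset (Sym2 ℕ))} (hD : ∀ Z ∈ D, IsSq Z) {K : Finset (Sym2 ℕ)} (hK : Acap D K)
    {u t : ℕ} (hne : u ≠ t) (hu : ∀ w, s(u, w) ∉ K) (ht : dg K t ≤ 1) : Acap D (insert s(u, t) K) := by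
  have hu0 : dg K u = 0 := by
    rw [dg, Finset.card_eq_zero, Finset.filter_eq_empty_iff]
    rintro f hf ⟨w, rfl⟩
    exact hu w hf
  refine ⟨l4_m2_insert hK.1 hne (by rw [hu0]; norm_num) ht, fun Z hZ hs => ?_⟩
  by_cases he : s(u, t) ∈ Z
  · obtain ⟨f, hf, hfe, hvf⟩ := sq_two (hD Z hZ) he (v := u) (by simp)
    rcases Finset.mem_insert.1 (hs hf) with h1 | h1
    · exact hfe h1
    · obtain ⟨w, rfl⟩ := hvf
      exact hu w h1
  · exact hK.2 Z hZ ((Finset.subset_insert_iff_of_notMem he).1 hs)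

theorem acap_mono {D : Finset (Finset (Sym2 ℕ))} {K K' : Finset (Sym2 ℕ)} (h : Acap D K) (hK : K' ⊆ K) :
    Acap D K' := ⟨h.1.mono hK, fun Z hZ hs => h.2 Z hZ (hs.trans hK)⟩

/-- three different edges at a vertex of a 2-matching -/
theorem m2_three {L : Finset (Sym2 ℕ)} (hL : M2 L) {v a b c : ℕ} (h1 : s(v, a) ∈ L) (h2 : s(v, b) ∈ L)
    (h3 : s(v, c) ∈ L) (hab : a ≠ b) : c = a ∨ c = b := by
  by_contra hc
  push Not at hc
  have h4 : ({s(v, a), s(v, b), s(v, c)} : Finset (Sym2 ℕ)) ⊆ L.filter fun e => v ∈ e := by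
    intro e he
    simp only [mem_insert, mem_singleton] at he
    rw [Finset.mem_filter]
    rcases he with rfl | rfl | rfl
    · exact ⟨h1, by simp⟩
    · exact ⟨h2, by simp⟩
    · exact ⟨h3, by simp⟩
  have h5 := Finset.card_le_card h4
  have h6 := hL.le v
  rw [dg] at h6
  have h7 : #({s(v, a), s(v, b), s(v, c)} : Finset (Sym2 ℕ)) = 3 := by
    rw [card_insert_of_notMem, card_insert_of_notMem, card_singleton]
    · rw [mem_singleton]
      exact fun h => hc.2 (Sym2.congr_right.1 h).symm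
    · rw [mem_insert, mem_singleton, not_or]
      exact ⟨fun h => hab (Sym2.congr_right.1 h), fun h => hc.1 (Sym2.congr_right.1 h).symm⟩
  omega

theorem sq_mir (x y q p : ℕ) : TFC.sq y x p q = TFC.sq x y q p := by
  rw [XT.sq_ref, XT.sq_rot, XT.sq_rot]

/-- the situation after the block -/
structure Bk (X : XD) (P : ℕ → Finset (Sym2 ℕ) → Prop) (D : Finset (Finset (Sym2 ℕ))) (j m : ℕ) (S : Finset ℕ)
    (M : ℕ → Finset (Sym2 ℕ)) (CL U : List (Clu ℕ)) (PL : Finset (Sym2 ℕ)) (x y q p r s a b : ℕ)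
    (c1 c2 : Clu ℕ) (L : Finset (Sym2 ℕ)) : Prop where
  wa : WA X P D j m S M CL U PL
  nd : [x, y, q, p, r, s].Nodup
  xS : x ∈ S
  yS : y ∈ S
  rS : r ∈ S
  sS : s ∈ S
  rT : r ∈ X.T
  sT : s ∈ X.T
  hQ : TFC.sq x y q p ∈ D
  xr : s(x, r) ∈ X.E
  ys : s(y, s) ∈ X.E
  w : Wt X P D j (TFC.sq x y q p) L
  c1U : c1 ∈ U
  q1 : TFC.sq x y q p ⊆ c1.edges
  c2U : c2 ∈ U
  k2 : K2 c2
  rsc : s(r, s) ∈ c2.edges
  hp : P3 (L ∩ c2.edges) r a b s
  rsL : s(r, s) ∉ L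

section
variable {X : XD} {P : ℕ → Finset (Sym2 ℕ) → Prop} {D : Finset (Finset (Sym2 ℕ))} {j m : ℕ} {S : Finset ℕ}
  {M : ℕ → Finset (Sym2 ℕ)} {CL U : List (Clu ℕ)} {PL : Finset (Sym2 ℕ)} {x y q p r s a b : ℕ} {c1 c2 : Clu ℕ}
  {L : Finset (Sym2 ℕ)}

theorem Bk.symm (h : Bk X P D j m S M CL U PL x y q p r s a b c1 c2 L) :
    Bk X P D j m S M CL U PL y x p q s r b a c1 c2 L where
  wa := h.wa
  nd := by
    obtain ⟨⟨xy, xq, xp, xr, xs⟩, ⟨yq, yp, yr, ys⟩, ⟨qp, qr, qs⟩, ⟨pr, ps⟩, rs⟩ := XT.nd6 h.nd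
    simp only [List.nodup_cons, List.mem_cons, List.not_mem_nil, or_false, not_or, List.nodup_nil, and_true,
      not_false_eq_true]
    exact ⟨⟨xy.symm, yp, yq, ys, yr⟩, ⟨xp, xq, xs, xr⟩, ⟨qp.symm, ps, pr⟩, ⟨qs, qr⟩, rs.symm⟩
  xS := h.yS
  yS := h.xS
  rS := h.sS
  sS := h.rS
  rT := h.sT
  sT := h.rT
  hQ := by rw [sq_mir]; exact h.hQ
  xr := h.ys
  ys := h.xr
  w := by rw [sq_mir]; exact h.w
  c1U := h.c1U
  q1 := by rw [sq_mir]; exact h.q1
  c2U := h.c2U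
  k2 := h.k2
  rsc := by rw [Sym2.eq_swap]; exact h.rsc
  hp := by
    obtain ⟨⟨n1, n2, n3, n4, n5, n6⟩, h1, h2, h3⟩ := h.hp
    refine ⟨⟨n6.symm, n5.symm, n3.symm, n4.symm, n2.symm, n1.symm⟩, ?_, ?_, ?_⟩
    · rw [Sym2.eq_swap]; exact h3
    · rw [Sym2.eq_swap]; exact h2
    · rw [Sym2.eq_swap]; exact h1
  rsL := by rw [Sym2.eq_swap]; exact h.rsL

/-- the hubs of the cluster of `rs` -/
theorem Bk.hub (h : Bk X P D j m S M CL U PL x y q p r s a b c1 c2 L) (hv : c2.Valid) :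
    (∃ Λ, (c2 = Clu.k2 r b Λ ∨ c2 = Clu.k2 b r Λ) ∧ a ∈ Λ ∧ s ∈ Λ ∧ r ∉ Λ ∧ b ∉ Λ) ∨
    (∃ Λ, (c2 = Clu.k2 a s Λ ∨ c2 = Clu.k2 s a Λ) ∧ r ∈ Λ ∧ b ∈ Λ ∧ a ∉ Λ ∧ s ∉ Λ) := by
  obtain ⟨h4, h1, h2, h3⟩ := h.hp
  have hs : TFC.sq r a b s ⊆ c2.edges := by
    intro e he
    simp only [TFC.sq, mem_insert, mem_singleton] at he
    rcases he with rfl | rfl | rfl | rfl
    · exact (mem_inter.1 h1).2
    · exact (mem_inter.1 h2).2
    · exact (mem_inter.1 h3).2
    · rw [Sym2.eq_swap]; exact h.rsc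
  rcases shape hv h4 hs with h0 | h0 | h0
  · obtain ⟨u, v, Λ, hk⟩ := h.k2
    rw [h0] at hk
    cases hk
  · exact Or.inl h0
  · obtain ⟨Λ, h5, h6, h7, h8, h9⟩ := h0
    exact Or.inr ⟨Λ, h5, h6, h7, h8, h9⟩

/-- edges of the witness at a vertex of the square -/
theorem Bk.atQ (h : Bk X P D j m S M CL U PL x y q p r s a b c1 c2 L) (hD : ∀ Z ∈ D, IsSq Z) {v : ℕ}
    (hv : v = x ∨ v = y ∨ v = q ∨ v = p) {g : Sym2 ℕ} (hg : g ∈ L) (hvg : v ∈ g) : g ∈ TFC.sq x y q p := by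
  rcases hv with rfl | rfl | rfl | rfl
  · exact h.w.at hD h.hQ (e := s(v, y)) (by simp [TFC.sq]) (by simp) hg hvg
  · exact h.w.at hD h.hQ (e := s(v, q)) (by simp [TFC.sq]) (by simp) hg hvg
  · exact h.w.at hD h.hQ (e := s(v, p)) (by simp [TFC.sq]) (by simp) hg hvg
  · exact h.w.at hD h.hQ (e := s(v, x)) (by simp [TFC.sq]) (by simp) hg hvg

theorem Bk.notQ (h : Bk X P D j m S M CL U PL x y q p r s a b c1 c2 L) {g : Sym2 ℕ}
    (hg : g ∈ TFC.sq x y q p) : r ∉ g ∧ s ∉ g := by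
  obtain ⟨⟨xy, xq, xp, xr, xs⟩, ⟨yq, yp, yr, ys⟩, ⟨qp, qr, qs⟩, ⟨pr, ps⟩, rs⟩ := XT.nd6 h.nd
  constructor
  · intro hv
    rcases sq_vert hg hv with h3 | h3 | h3 | h3
    · exact xr h3.symm
    · exact yr h3.symm
    · exact qr h3.symm
    · exact pr h3.symm
  · intro hv
    rcases sq_vert hg hv with h3 | h3 | h3 | h3
    · exact xs h3.symm
    · exact ys h3.symm
    · exact qs h3.symm
    · exact ps h3.symm

/-- the two clusters are different -/
theorem Bk.ne (h : Bk X P D j m S M CL U PL x y q p r s a b c1 c2 L)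
    {pl mi : ℕ → Prop} (hw : PW X P D j S M (Fr D fun _ => False) CL U PL pl mi) : c1 ≠ c2 := by
  rintro rfl
  have h1 := h.hp.2.1
  rw [inter_eq (hw.val' h.c1U) (hw.isq _ h.hQ) h.q1 h.w.m2 h.w.sq] at h1
  exact (h.notQ h1).1 (by simp)

/-- no edge of the witness in the second cluster at a vertex of the square -/
theorem Bk.no (h : Bk X P D j m S M CL U PL x y q p r s a b c1 c2 L)
    {pl mi : ℕ → Prop} (hw : PW X P D j S M (Fr D fun _ => False) CL U PL pl mi) {v : ℕ}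
    (hv : v = x ∨ v = y ∨ v = q ∨ v = p) {g : Sym2 ℕ} (hg : g ∈ L ∩ c2.edges) : v ∉ g := by
  intro hvg
  obtain ⟨h1, h2⟩ := mem_inter.1 hg
  exact h.ne hw (hw.eqc h.c1U h.c2U (h.q1 (h.atQ hw.isq hv h1 hvg)) h2)

/-- the part in the second cluster is allowed -/
theorem Bk.cap (h : Bk X P D j m S M CL U PL x y q p r s a b c1 c2 L)
    {pl mi : ℕ → Prop} (hw : PW X P D j S M (Fr D fun _ => False) CL U PL pl mi) : Acap D (L ∩ c2.edges) := by
  refine ⟨h.w.m2.mono inter_subset_left, fun Z hZ hs => ?_⟩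
  have h1 := h.w.uni Z hZ (hs.trans inter_subset_left)
  subst h1
  have h2 := hs.trans inter_subset_right
  have h3 : s(x, y) ∈ TFC.sq x y q p := by simp [TFC.sq]
  exact h.ne hw (hw.eqc h.c1U h.c2U (h.q1 h3) (h2 h3))

/-- **the base**: `L - xy + ys` -/
theorem Bk.base1 (h : Bk X P D j m S M CL U PL x y q p r s a b c1 c2 L)
    {pl mi : ℕ → Prop} (hw : PW X P D j S M (Fr D fun _ => False) CL U PL pl mi) (hys : s(y, s) ∉ c2.edges) :
    ∃ K, AU (Fr D fun _ => False) U PL K ∧ dv K = dv (L ∩ (Ucl U ∪ PL)) + (Pi.single x (-1) + Pi.single s 1) ∧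
      K ∩ c2.edges = L ∩ c2.edges ∧ (∀ g ∈ K, g ∈ L ∨ g = s(y, s)) ∧ s(x, y) ∉ K := by
  obtain ⟨⟨xy, xq, xp, xr, xs⟩, ⟨yq, yp, yr, ys⟩, ⟨qp, qr, qs⟩, ⟨pr, ps⟩, rs⟩ := XT.nd6 h.nd
  have hxy : s(x, y) ∈ TFC.sq x y q p := by simp [TFC.sq]
  have K0 := hw.base h.hQ h.w h.c1U h.q1 (fun c _ hf _ => hf.elim) (R := {s(x, y)})
    (Finset.singleton_subset_iff.2 hxy) (by simp)
  have memK : ∀ {g : Sym2 ℕ}, g ∈ (L ∩ (Ucl U ∪ PL)) \ {s(x, y)} → g ∈ L ∧ g ≠ s(x, y) := by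
    intro g hg
    rw [Finset.mem_sdiff, Finset.mem_inter, Finset.mem_singleton] at hg
    exact ⟨hg.1.1, hg.2⟩
  have hLc : L ∩ c1.edges = TFC.sq x y q p := inter_eq (hw.val' h.c1U) (hw.isq _ h.hQ) h.q1 h.w.m2 h.w.sq
  have hsub : (L ∩ (Ucl U ∪ PL)) \ {s(x, y)} ⊆ L := Finset.sdiff_subset.trans Finset.inter_subset_left
  have hxyK : s(x, y) ∉ (L ∩ (Ucl U ∪ PL)) \ {s(x, y)} := by simp
  have hysW : s(y, s) ∈ Ucl U ∪ PL := h.wa.reg h.yS h.ys (by simp)
  have hp := h.hp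
  obtain ⟨hd, p1, p2, p3⟩ := hp
  rw [Finset.mem_inter] at p1 p2 p3
  have K1 := hw.ins K0 hysW (by
    intro c hc hec
    by_cases hcc : c = c1
    · subst hcc
      right
      refine ⟨fun w hw' hwc => ?_, Or.inr ?_⟩
      · have h5 : s(s, w) ∈ TFC.sq x y q p := by rw [← hLc]; exact mem_inter.2 ⟨(memK hw').1, hwc⟩
        exact absurd (by simp) (h.notQ h5).2
      · exact dgLe1' h.w.m2 hsub (h.w.sq hxy) (by simp) hxyK
    · left
      refine ⟨fun w hw' hwc => ?_, Or.inr ?_⟩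
      · have h5 := h.atQ hw.isq (v := y) (by tauto) (memK hw').1 (by simp)
        exact absurd (hw.eqc hc h.c1U hwc (h.q1 h5)) hcc
      · have hc2' : c ≠ c2 := by
          rintro rfl
          exact hys hec
        exact (hw.dgK hc s).trans (dgLe1 h.w.m2 p3.1 (by simp) fun hc' => hc2' (hw.eqc hc h.c2U hc' p3.2)))
  have nys : s(y, s) ∉ (L ∩ (Ucl U ∪ PL)) \ {s(x, y)} := fun hc => by
    have h5 := h.atQ hw.isq (v := y) (by tauto) (memK hc).1 (by simp)
    exact (h.notQ h5).2 (by simp)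
  have hxyW : s(x, y) ∈ L ∩ (Ucl U ∪ PL) := Finset.mem_inter.2 ⟨h.w.sq hxy, hw.cW' h.c1U (h.q1 hxy)⟩
  refine ⟨_, K1, ?_, ?_, ?_, ?_⟩
  · rw [XT.dv_insert nys, dv_sdiff (Finset.singleton_subset_iff.2 hxyW), dv_pair xy, dv_pair ys, Pi.single_neg]
    abel
  · ext g
    simp only [mem_inter, mem_insert, mem_sdiff, mem_singleton]
    constructor
    · rintro ⟨h1 | h1, h2⟩
      · rw [h1] at h2
        exact absurd h2 hys
      · exact ⟨h1.1.1, h2⟩
    · rintro ⟨h1, h2⟩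
      refine ⟨Or.inr ⟨⟨h1, hw.cW' h.c2U h2⟩, ?_⟩, h2⟩
      rintro rfl
      exact h.ne hw (hw.eqc h.c1U h.c2U (h.q1 hxy) h2)
  · intro g hg
    rcases mem_insert.1 hg with h1 | h1
    · exact Or.inr h1
    · exact Or.inl (memK h1).1
  · intro hc
    rcases mem_insert.1 hc with h1 | h1
    · rw [Sym2.eq_iff] at h1
      rcases h1 with ⟨h1, _⟩ | ⟨h1, _⟩
      · exact xy h1
      · exact xs h1
    · exact (memK h1).2 rfl

/-- replace the part in the second cluster -/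
theorem Bk.fin (h : Bk X P D j m S M CL U PL x y q p r s a b c1 c2 L)
    {pl mi : ℕ → Prop} (hw : PW X P D j S M (Fr D fun _ => False) CL U PL pl mi) {K : Finset (Sym2 ℕ)}
    (hK : AU (Fr D fun _ => False) U PL K) {d : ℕ → ℤ} (hd : dv K = dv (L ∩ (Ucl U ∪ PL)) + d)
    (hKc : K ∩ c2.edges = L ∩ c2.edges) {F : Finset (Sym2 ℕ)} (hF : F ⊆ c2.edges) (hA : Acap D F) {δ : ℕ → ℤ}
    (hδ : dv F = dv (L ∩ c2.edges) + δ) : 1 ≤ ph X.V2 pl mi (d + δ) := by
  refine hw.ev h.hQ h.w h.c1U h.q1 (K := (K \ c2.edges) ∪ F)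
    (AU_rep hw h.c2U hK.1 hF (by rw [Fr_neg fun h => h]; exact hA) fun c hc _ => hK.2 c hc) ?_
  rw [dv_rep hF, hKc, hδ, hd]
  abel

/-- **`xr` is not in the cluster of `rs`** -/
theorem Bk.noxr (h : Bk X P D j m S M CL U PL x y q p r s a b c1 c2 L)
    {pl mi : ℕ → Prop} (hw : PW X P D j S M (Fr D fun _ => False) CL U PL pl mi) : s(x, r) ∉ c2.edges := by
  intro hxr
  obtain ⟨⟨xy, xq, xp, xr, xs⟩, ⟨yq, yp, yr, ys⟩, ⟨qp, qr, qs⟩, ⟨pr, ps⟩, rs⟩ := XT.nd6 h.nd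
  have hp := h.hp
  obtain ⟨⟨ra, rb, _, ab, as, bs⟩, p1, p2, p3⟩ := hp
  have xa : x ≠ a := by
    rintro rfl
    exact h.no hw (Or.inl rfl) p1 (by simp)
  have xb : x ≠ b := by
    rintro rfl
    exact h.no hw (Or.inl rfl) p2 (by simp)
  have yb : y ≠ b := by
    rintro rfl
    exact h.no hw (Or.inr (Or.inl rfl)) p2 (by simp)
  rcases h.hub (hw.val' h.c2U) with ⟨Λ, hc, ha, hs, hr, hb⟩ | ⟨Λ, hc, hr, hb, ha, hs⟩
  · have mem : ∀ u v, s(u, v) ∈ c2.edges ↔ ((u = r ∨ u = b) ∧ v ∈ Λ) ∨ ((v = r ∨ v = b) ∧ u ∈ Λ) := by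
      intro u v
      rcases hc with rfl | rfl
      · exact mem_k2
      · rw [mem_k2]; tauto
    have hx : x ∈ Λ := by
      rcases (mem x r).1 hxr with ⟨_, h1⟩ | ⟨_, h1⟩
      · exact absurd h1 hr
      · exact h1
    have hys : s(y, s) ∉ c2.edges := by
      intro h1
      rcases (mem y s).1 h1 with ⟨h2 | h2, _⟩ | ⟨h2 | h2, _⟩
      · exact yr h2
      · exact yb h2
      · exact rs h2.symm
      · exact bs h2.symm
    obtain ⟨K, k1, k2, k3, -, -⟩ := h.base1 hw hys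
    have hE : Acap D ((L ∩ c2.edges).erase s(b, s)) := acap_mono (h.cap hw) (erase_subset _ _)
    have hxn : ∀ w, s(x, w) ∉ (L ∩ c2.edges).erase s(b, s) := fun w hc' =>
      h.no hw (Or.inl rfl) (mem_of_mem_erase hc') (by simp)
    have hbd : dg ((L ∩ c2.edges).erase s(b, s)) b ≤ 1 := by
      have h1 := dg_erase p3 b
      rw [if_pos (by simp)] at h1
      have h2 := (h.cap hw).1.le b
      omega
    have h5 := h.fin hw k1 k2 k3 (F := insert s(x, b) ((L ∩ c2.edges).erase s(b, s)))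
      (insert_subset ((mem x b).2 (Or.inr ⟨Or.inr rfl, hx⟩)) ((erase_subset _ _).trans inter_subset_right))
      (acap_ins hw.isq hE xb hxn hbd) (δ := Pi.single x 1 + Pi.single s (-1)) (by
        rw [l4_insert xb (hxn b), l4_erase bs p3, Pi.single_neg, Pi.single_neg]
        abel)
    have e : (Pi.single x (-1) + Pi.single s 1 + (Pi.single x 1 + Pi.single s (-1)) : ℕ → ℤ) = 0 := by
      rw [Pi.single_neg, Pi.single_neg]
      abel
    rw [e, ph_zero] at h5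
    omega
  · have mem : ∀ u v, s(u, v) ∈ c2.edges ↔ ((u = a ∨ u = s) ∧ v ∈ Λ) ∨ ((v = a ∨ v = s) ∧ u ∈ Λ) := by
      intro u v
      rcases hc with rfl | rfl
      · exact mem_k2
      · rw [mem_k2]; tauto
    rcases (mem x r).1 hxr with ⟨h1 | h1, _⟩ | ⟨h1 | h1, _⟩
    · exact xa h1
    · exact xs h1
    · exact ra h1
    · exact rs h1

theorem Bk.noys (h : Bk X P D j m S M CL U PL x y q p r s a b c1 c2 L)
    {pl mi : ℕ → Prop} (hw : PW X P D j S M (Fr D fun _ => False) CL U PL pl mi) : s(y, s) ∉ c2.edges :=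
  h.symm.noxr hw

/-- **the base**: `L - xy + ys + xr` -/
theorem Bk.base2 (h : Bk X P D j m S M CL U PL x y q p r s a b c1 c2 L)
    {pl mi : ℕ → Prop} (hw : PW X P D j S M (Fr D fun _ => False) CL U PL pl mi) :
    ∃ K, AU (Fr D fun _ => False) U PL K ∧ dv K = dv (L ∩ (Ucl U ∪ PL)) + (Pi.single r 1 + Pi.single s 1) ∧
      K ∩ c2.edges = L ∩ c2.edges := by
  obtain ⟨⟨xy, xq, xp, xr, xs⟩, ⟨yq, yp, yr, ys⟩, ⟨qp, qr, qs⟩, ⟨pr, ps⟩, rs⟩ := XT.nd6 h.nd
  have hxy : s(x, y) ∈ TFC.sq x y q p := by simp [TFC.sq]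
  obtain ⟨K, k1, k2, k3, k4, k5⟩ := h.base1 hw (h.noys hw)
  have hLc : L ∩ c1.edges = TFC.sq x y q p := inter_eq (hw.val' h.c1U) (hw.isq _ h.hQ) h.q1 h.w.m2 h.w.sq
  have hxrW : s(x, r) ∈ Ucl U ∪ PL := h.wa.reg h.xS h.xr (by simp)
  have hp := h.hp
  obtain ⟨hd, p1, p2, p3⟩ := hp
  rw [Finset.mem_inter] at p1 p2 p3
  have memx : ∀ w, s(x, w) ∈ K → s(x, w) ∈ TFC.sq x y q p := by
    intro w hw'
    rcases k4 _ hw' with h1 | h1
    · exact h.atQ hw.isq (v := x) (by tauto) h1 (by simp)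
    · exfalso
      have h2 : x ∈ s(y, s) := by rw [← h1]; simp
      rcases Sym2.mem_iff.1 h2 with h2 | h2
      · exact xy h2
      · exact xs h2
  have hxK : dg K x ≤ 1 := by
    have h1 : K.filter (fun e => x ∈ e) ⊆ {s(x, p)} := by
      intro g hg
      rw [mem_filter] at hg
      obtain ⟨hg, ⟨w, rfl⟩⟩ := hg
      have h2 := memx w hg
      simp only [TFC.sq, mem_insert, mem_singleton, Sym2.eq_iff] at h2
      rw [mem_singleton]
      rcases h2 with (⟨_, h2⟩ | ⟨h2, _⟩) | (⟨h2, _⟩ | ⟨h2, _⟩) | (⟨h2, _⟩ | ⟨h2, _⟩) | (⟨h2, _⟩ | ⟨_, h2⟩)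
      · rw [h2] at hg; exact absurd hg k5
      · exact absurd h2 xy
      · exact absurd h2 xy
      · exact absurd h2 xq
      · exact absurd h2 xq
      · exact absurd h2 xp
      · exact absurd h2 xp
      · rw [h2]
    exact (card_le_card h1).trans (by simp)
  have K1 := hw.ins k1 hxrW (by
    intro c hc hec
    by_cases hcc : c = c1
    · subst hcc
      right
      refine ⟨fun w hw' hwc => ?_, Or.inr ((dg_mono inter_subset_left x).trans hxK)⟩
      exfalso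
      rcases k4 _ hw' with h1 | h1
      · have h5 : s(r, w) ∈ TFC.sq x y q p := by rw [← hLc]; exact mem_inter.2 ⟨h1, hwc⟩
        exact (h.notQ h5).1 (by simp)
      · have h2 : r ∈ s(y, s) := by rw [← h1]; simp
        rcases Sym2.mem_iff.1 h2 with h2 | h2
        · exact yr h2.symm
        · exact rs h2
    · left
      refine ⟨fun w hw' hwc => ?_, Or.inr ?_⟩
      · exact absurd (hw.eqc hc h.c1U hwc (h.q1 (memx w hw'))) hcc
      · have hc2' : c ≠ c2 := by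
          rintro rfl
          exact h.noxr hw hec
        refine le_trans ?_ (dgLe1 (v := r) (C := c.edges) h.w.m2 p1.1 (by simp)
          fun hc' => hc2' (hw.eqc hc h.c2U hc' p1.2))
        unfold dg
        refine card_le_card fun g hg => ?_
        rw [mem_filter, mem_inter] at hg ⊢
        obtain ⟨⟨h1, h2⟩, h3⟩ := hg
        rcases k4 _ h1 with h4 | h4
        · exact ⟨⟨h4, h2⟩, h3⟩
        · rw [h4] at h3
          rcases Sym2.mem_iff.1 h3 with h3 | h3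
          · exact absurd h3.symm yr
          · exact absurd h3 rs)
  have nxr : s(x, r) ∉ K := fun hc => (h.notQ (memx r hc)).1 (by simp)
  refine ⟨_, K1, ?_, ?_⟩
  · rw [l4_insert xr nxr, k2, Pi.single_neg]
    abel
  · rw [← k3]
    ext g
    simp only [mem_inter, mem_insert]
    constructor
    · rintro ⟨h1 | h1, h2⟩
      · rw [h1] at h2
        exact absurd h2 (h.noxr hw)
      · exact ⟨h1, h2⟩
    · rintro ⟨h1, h2⟩
      exact ⟨Or.inr h1, h2⟩

/-- **only one edge at `r`** in the second cluster -/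
theorem Bk.oner (h : Bk X P D j m S M CL U PL x y q p r s a b c1 c2 L)
    {pl mi : ℕ → Prop} (hw : PW X P D j S M (Fr D fun _ => False) CL U PL pl mi) {a' : ℕ}
    (h' : s(r, a') ∈ L ∩ c2.edges) : a' = a := by
  by_contra hne
  have hp := h.hp
  obtain ⟨⟨ra, rb, rs, ab, as, bs⟩, p1, p2, p3⟩ := hp
  have a's : a' ≠ s := by
    rintro rfl
    exact h.rsL (mem_inter.1 h').1
  have ra' : r ≠ a' := by
    have := h.w.m2.nl _ (mem_inter.1 h').1
    simpa using this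
  rcases h.hub (hw.val' h.c2U) with ⟨Λ, hc, ha, hs, hr, hb⟩ | ⟨Λ, hc, hr, hb, ha, hs⟩
  · have mem : ∀ u v, s(u, v) ∈ c2.edges ↔ ((u = r ∨ u = b) ∧ v ∈ Λ) ∨ ((v = r ∨ v = b) ∧ u ∈ Λ) := by
      intro u v
      rcases hc with rfl | rfl
      · exact mem_k2
      · rw [mem_k2]; tauto
    have ha' : a' ∈ Λ := by
      rcases (mem r a').1 (mem_inter.1 h').2 with ⟨_, h1⟩ | ⟨_, h1⟩
      · exact h1
      · exact absurd h1 hr
    have ba' : b ≠ a' := fun e => hb (e ▸ ha')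
    obtain ⟨K, k1, k2, k3⟩ := h.base2 hw
    have hE : Acap D (((L ∩ c2.edges).erase s(b, s)).erase s(r, a')) :=
      acap_mono (h.cap hw) ((erase_subset _ _).trans (erase_subset _ _))
    have hM := (h.cap hw).1
    have hn : ∀ w, s(a', w) ∉ ((L ∩ c2.edges).erase s(b, s)).erase s(r, a') := by
      intro w hc'
      have h1 := mem_erase.1 hc'
      have h2 := mem_erase.1 h1.2
      have h3 := (mem_inter.1 h2.2).2
      rcases (mem a' w).1 h3 with ⟨h4 | h4, _⟩ | ⟨h4 | h4, _⟩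
      · exact ra' h4.symm
      · exact ba' h4.symm
      · exact h1.1 (by rw [h4, Sym2.eq_swap])
      · have e1 : s(b, a) ∈ L ∩ c2.edges := by rw [Sym2.eq_swap]; exact p2
        have e2 : s(b, a') ∈ L ∩ c2.edges := by rw [Sym2.eq_swap, ← h4]; exact h2.2
        rcases m2_three hM e1 p3 e2 as with h5 | h5
        · exact hne h5
        · exact a's h5
    have hbe : s(r, a') ∈ (L ∩ c2.edges).erase s(b, s) := by
      refine mem_erase.2 ⟨?_, h'⟩
      rw [ne_eq, Sym2.eq_iff]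
      rintro (⟨h1, _⟩ | ⟨h1, _⟩)
      · exact rb h1
      · exact rs h1
    have hbd : dg (((L ∩ c2.edges).erase s(b, s)).erase s(r, a')) b ≤ 1 := by
      have h1 := dg_erase p3 b
      rw [if_pos (by simp)] at h1
      have h2 := hM.le b
      have h3 := dg_mono (erase_subset s(r, a') ((L ∩ c2.edges).erase s(b, s))) b
      omega
    have h5 := h.fin hw k1 k2 k3 (F := insert s(a', b) (((L ∩ c2.edges).erase s(b, s)).erase s(r, a')))
      (insert_subset ((mem a' b).2 (Or.inr ⟨Or.inr rfl, ha'⟩))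
        (((erase_subset _ _).trans (erase_subset _ _)).trans inter_subset_right))
      (acap_ins hw.isq hE ba'.symm hn hbd) (δ := Pi.single r (-1) + Pi.single s (-1)) (by
        rw [l4_insert ba'.symm (hn b), l4_erase ra' hbe, l4_erase bs p3, Pi.single_neg, Pi.single_neg,
          Pi.single_neg, Pi.single_neg]
        abel)
    have e : (Pi.single r 1 + Pi.single s 1 + (Pi.single r (-1) + Pi.single s (-1)) : ℕ → ℤ) = 0 := by
      rw [Pi.single_neg, Pi.single_neg]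
      abel
    rw [e, ph_zero] at h5
    omega
  · have mem : ∀ u v, s(u, v) ∈ c2.edges ↔ ((u = a ∨ u = s) ∧ v ∈ Λ) ∨ ((v = a ∨ v = s) ∧ u ∈ Λ) := by
      intro u v
      rcases hc with rfl | rfl
      · exact mem_k2
      · rw [mem_k2]; tauto
    rcases (mem r a').1 (mem_inter.1 h').2 with ⟨h1 | h1, _⟩ | ⟨h1 | h1, _⟩
    · exact ra h1
    · exact rs h1
    · exact hne h1
    · exact a's h1

/-- **the square of the path is in the family** -/
theorem Bk.mem (h : Bk X P D j m S M CL U PL x y q p r s a b c1 c2 L) : TFC.sq r s b a ∈ D := by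
  obtain ⟨pl, mi, hw, hmi⟩ := h.wa.fr (fun _ => False) fun _ h => h.elim
  by_contra hD
  have hp := h.hp
  obtain ⟨⟨ra, rb, rs, ab, as, bs⟩, p1, p2, p3⟩ := hp
  obtain ⟨K, k1, k2, k3⟩ := h.base2 hw
  have hM := (h.cap hw).1
  have hr1 : dg (L ∩ c2.edges) r ≤ 1 := by
    have h1 : (L ∩ c2.edges).filter (fun e => r ∈ e) ⊆ {s(r, a)} := by
      intro g hg
      rw [mem_filter] at hg
      obtain ⟨hg, ⟨w, rfl⟩⟩ := hg
      rw [h.oner hw hg]
      exact mem_singleton_self _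
    exact (card_le_card h1).trans (by simp)
  have hs1 : dg (L ∩ c2.edges) s ≤ 1 := by
    have h1 : (L ∩ c2.edges).filter (fun e => s ∈ e) ⊆ {s(s, b)} := by
      intro g hg
      rw [mem_filter] at hg
      obtain ⟨hg, ⟨w, rfl⟩⟩ := hg
      rw [h.symm.oner hw hg]
      exact mem_singleton_self _
    exact (card_le_card h1).trans (by simp)
  have hrs' : s(r, s) ∉ L ∩ c2.edges := fun hc => h.rsL (mem_inter.1 hc).1
  have hA : Acap D (insert s(r, s) (L ∩ c2.edges)) := by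
    refine ⟨l4_m2_insert hM rs hr1 hs1, fun Z hZ hs => ?_⟩
    by_cases he : s(r, s) ∈ Z
    · obtain ⟨a', b', ⟨m1, m2, m3, m4, m5, m6⟩, hZe⟩ := sq_edge (hw.isq Z hZ) he
      have h1 : s(r, a') ∈ L ∩ c2.edges := by
        refine (mem_insert.1 (hs (by rw [hZe]; simp [TFC.sq] : s(r, a') ∈ Z))).resolve_left ?_
        intro h2
        exact m5 (Sym2.congr_right.1 h2)
      have h2 : s(s, b') ∈ L ∩ c2.edges := by
        refine (mem_insert.1 (hs (by rw [hZe]; simp [TFC.sq, Sym2.eq_swap] : s(s, b') ∈ Z))).resolve_left ?_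
        intro h2
        rw [Sym2.eq_swap (a := r)] at h2
        exact m2 (Sym2.congr_right.1 h2).symm
      rw [h.oner hw h1, h.symm.oner hw h2] at hZe
      have e : TFC.sq r s b a = TFC.sq r a b s := by rw [XT.sq_ref, XT.sq_rot, XT.sq_rot, XT.sq_rot]
      rw [hZe, ← e] at hZ
      exact hD hZ
    · exact (h.cap hw).2 Z hZ ((Finset.subset_insert_iff_of_notMem he).1 hs)
  have h5 := h.fin hw k1 k2 k3 (insert_subset h.rsc inter_subset_right) hA
    (δ := Pi.single r 1 + Pi.single s 1) (by rw [l4_insert rs hrs', add_assoc])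
  have e : (Pi.single r 1 + Pi.single s 1 + (Pi.single r 1 + Pi.single s 1) : ℕ → ℤ) =
      Pi.single r 2 + Pi.single s 2 := by
    funext w
    simp only [Pi.add_apply, sgl]
    split_ifs <;> norm_num
  rw [e, ph_two (hw.v2' (hw.cW' h.c2U h.rsc) (by simp)) (hw.v2' (hw.cW' h.c2U h.rsc) (by simp)) rs] at h5
  have h6 : ∀ v, mi v → con (pl v) (mi v) 2 ≤ 0 := by
    intro v hv
    unfold con
    rw [if_pos hv, if_pos hv]
    split_ifs <;> norm_num
  have h7 := h6 r (hmi r h.rS h.rT)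
  have h8 := h6 s (hmi s h.sS h.sT)
  omega

end

end Pool.Agent.PF4.XLP
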