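import Pool.Agent.PF4.XLP

/-!
Lemma P from the block statement.
-/

set_option autoImplicit false

namespace Pool.Agent.PF4.XLP

open Finset Pool.Agent.TFC Pool.Agent.PF4 Pool.Agent.PF4.LD Pool.Agent.PF4.XC Pool.Agent.PF4.XF Pool.Agent.PF4.XT

/-- the cluster of a square of the family at a vertex of `S` -/
theorem clq {X : XD} {P : ℕ → Finset (Sym2 ℕ) → Prop} {D : Finset (Finset (Sym2 ℕ))} {j m : ℕ} {S : Finset ℕ}
    {M : ℕ → Finset (Sym2 ℕ)} {CL U : List (Clu ℕ)} {PL : Finset (Sym2 ℕ)} (h : WA X P D j m S M CL U PL)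
    {Z : Finset (Sym2 ℕ)} (hZ : Z ∈ D) {e : Sym2 ℕ} (he : e ∈ Z) {v : ℕ} (hv : v ∈ S) (hve : v ∈ e) :
    ∃ c ∈ U, Z ⊆ c.edges := by
  obtain ⟨pl, mi, hw, -⟩ := h.fr (fun _ => False) fun _ h => h.elim
  have h1 := h.reg hv (hw.dE Z hZ he) hve
  rcases mem_union.1 h1 with h2 | h2
  · obtain ⟨c, hc, hec⟩ := mem_Ucl.1 h2
    refine ⟨c, hc, (h.cls.whole ((hw.uc c).1 hc).1 hZ).resolve_right fun hd => ?_⟩
    exact Finset.disjoint_left.1 hd he hec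
  · exact absurd he (((hw.pm e).1 h2).2 Z hZ)

/-- the block statement (helper15) -/
def Block (X : XD) (P : ℕ → Finset (Sym2 ℕ) → Prop) (D : Finset (Finset (Sym2 ℕ))) (j : ℕ) (S : Finset ℕ)
    (U : List (Clu ℕ)) : Prop :=
  ∀ x y q p r s : ℕ, [x, y, q, p, r, s].Nodup → x ∈ S → y ∈ S → r ∈ S → s ∈ S → x ∈ X.T → y ∈ X.T → r ∈ X.T →
    s ∈ X.T → TFC.sq x y q p ∈ D → s(x, r) ∈ X.E → s(r, s) ∈ X.E → s(y, s) ∈ X.E →
    ∀ L, Wt X P D j (TFC.sq x y q p) L → s(r, s) ∉ L ∧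
      ∃ c ∈ U, K2 c ∧ s(r, s) ∈ c.edges ∧ ∃ a b, P3 (L ∩ c.edges) r a b s

theorem lp_of {X : XD} {P : ℕ → Finset (Sym2 ℕ) → Prop} {D : Finset (Finset (Sym2 ℕ))} {j m : ℕ} {S : Finset ℕ}
    {M : ℕ → Finset (Sym2 ℕ)} {CL U : List (Clu ℕ)} {PL : Finset (Sym2 ℕ)} (h : WA X P D j m S M CL U PL)
    (hB : Block X P D j S U) : LP X P D j S U := by
  intro x y q p r s nd xS yS rS sS xT yT rT sT hQ xr rs ys
  obtain ⟨pl, mi, hw, -⟩ := h.fr (fun _ => False) fun _ h => h.elim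
  obtain ⟨L0, hL0⟩ := hw.wt hQ
  obtain ⟨-, c, hc, hk, hrs, -⟩ := hB x y q p r s nd xS yS rS sS xT yT rT sT hQ xr rs ys L0 hL0
  refine ⟨c, hc, hk, hrs, fun L hL => ?_⟩
  obtain ⟨h1, c', hc', hk', hrs', a, b, hp⟩ := hB x y q p r s nd xS yS rS sS xT yT rT sT hQ xr rs ys L hL
  have e : c' = c := hw.eqc hc' hc hrs' hrs
  subst e
  obtain ⟨c1, hc1, hq1⟩ := clq h hQ (e := s(x, y)) (by simp [TFC.sq]) xS (by simp)
  exact ⟨h1, a, b, hp, (Bk.mem ⟨h, nd, xS, yS, rS, sS, rT, sT, hQ, xr, ys, hL, hc1, hq1, hc', hk', hrs', hp, h1⟩ :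
    TFC.sq r s b a ∈ D)⟩

end Pool.Agent.PF4.XLP
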