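import Pool.Agent.PF4.XP4

/-!
Adapters: the lemmas of `XSh`, `XSh2` in the frames `Fr D F` of one world `WA`.
-/

set_option autoImplicit false

namespace Pool.Agent.PF4.XT

open Finset Pool.Agent.TFC Pool.Agent.PF4 Pool.Agent.PF4.LD Pool.Agent.PF4.XC Pool.Agent.PF4.XF Pool.Agent.PF4.XU

theorem SqFree.mono {K K' : Finset (Sym2 ℕ)} (h : TFC.SqFree K) (hK : K' ⊆ K) : TFC.SqFree K' :=
  fun a b c d hs => h a b c d ⟨hs.ac, hs.bd, hK hs.ab, hK hs.bc, hK hs.cd, hK hs.da⟩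

theorem Acap.mono {D : Finset (Finset (Sym2 ℕ))} {K K' : Finset (Sym2 ℕ)} (h : Acap D K) (hK : K' ⊆ K) : Acap D K' :=
  ⟨h.1.mono hK, fun Z hZ hs => h.2 Z hZ (hs.trans hK)⟩

/-- all frames are closed under subsets -/
theorem fr_dwn (D : Finset (Finset (Sym2 ℕ))) (F : Clu ℕ → Prop) : Dwn (Fr D F) := by
  intro c K K' hK h
  by_cases hF : F c
  · rw [Fr_pos hF] at h ⊢
    exact SqFree.mono h hK
  · rw [Fr_neg hF] at h ⊢
    exact Acap.mono h hK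

theorem sf_nsq {K : Finset (Sym2 ℕ)} (h : TFC.SqFree K) : NSq K := by
  rintro Z ⟨a, b, c, d, h4, rfl⟩ hs
  obtain ⟨hab, hac, had, hbc, hbd, hcd⟩ := h4
  exact h a b c d ⟨hac, hbd, hs (by simp [TFC.sq]), hs (by simp [TFC.sq]), hs (by simp [TFC.sq]),
    hs (by simp [TFC.sq])⟩

theorem nsq_sf {K : Finset (Sym2 ℕ)} (hK : NoLoop K) (h : NSq K) : TFC.SqFree K := (sqFree_iff hK).2 h

section
variable {X : XD} {P : ℕ → Finset (Sym2 ℕ) → Prop} {D : Finset (Finset (Sym2 ℕ))} {j m : ℕ} {S : Finset ℕ}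
  {M : ℕ → Finset (Sym2 ℕ)} {F : Clu ℕ → Prop} {CL U : List (Clu ℕ)} {PL : Finset (Sym2 ℕ)}
  {pl mi : ℕ → Prop}

theorem PW.fr_asf (h : PW X P D j S M (Fr D F) CL U PL pl mi) {c : Clu ℕ} (hc : c ∈ U) (hF : F c) :
    ASf (Fr D F) c := by
  intro K hK hs
  rw [Fr_pos hF]
  exact nsq_sf (h.nl (hK.trans (h.cW' hc))) hs

theorem fr_acp {c : Clu ℕ} (hF : ¬ F c) : ACp D (Fr D F) c := by
  intro K _ hs
  rw [Fr_neg hF]
  exact hs

theorem PW.fr_am2 (h : PW X P D j S M (Fr D F) CL U PL pl mi) {c : Clu ℕ} (hc : c ∈ U) : AM2 (Fr D F) c := by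
  by_cases hF : F c
  · exact (h.fr_asf hc hF).am2
  · exact (fr_acp hF).am2 h.isq

/-- a 2-matching all of whose squares of `D` are `Z`, outside of the cluster of `Z`: allowed if it is square-free in the
uncapped clusters -/
theorem PW.fr_out (h : PW X P D j S M (Fr D F) CL U PL pl mi) {Z L : Finset (Sym2 ℕ)} (hZ : Z ∈ D)
    (hL : Wt X P D j Z L) {c : Clu ℕ} (hc : c ∈ U) (hZc : Z ⊆ c.edges)
    (hs : ∀ c' ∈ U, c' ≠ c → F c' → TFC.SqFree (L ∩ c'.edges)) : Out (Fr D F) U c L := by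
  intro c' hc' hne
  by_cases hF : F c'
  · rw [Fr_pos hF]
    exact hs c' hc' hne hF
  · rw [Fr_neg hF]
    refine ⟨hL.m2.mono Finset.inter_subset_left, fun Z' h1 h2 => hne ?_⟩
    have h3 := hL.uni Z' h1 (h2.trans Finset.inter_subset_left)
    subst h3
    obtain ⟨e, he⟩ := IsSq.ne (h.isq Z' hZ)
    exact h.eqc hc' hc (Finset.mem_inter.1 (h2 he)).2 (hZc he)

theorem Out.sdiff {A : Clu ℕ → Finset (Sym2 ℕ) → Prop} (hA : Dwn A) {U : List (Clu ℕ)} {c : Clu ℕ}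
    {L R : Finset (Sym2 ℕ)} (h : Out A U c L) : Out A U c (L \ R) :=
  fun c' hc' hne => hA c' _ _ (Finset.inter_subset_inter Finset.sdiff_subset le_rfl) (h c' hc' hne)

/-- the witness without an edge of its square is allowed outside of every cluster -/
theorem PW.fr_outR (h : PW X P D j S M (Fr D F) CL U PL pl mi) {Z L : Finset (Sym2 ℕ)} (hZ : Z ∈ D)
    (hL : Wt X P D j Z L) {c0 : Clu ℕ} (hc0 : c0 ∈ U) (hZc : Z ⊆ c0.edges) {e : Sym2 ℕ} (he : e ∈ Z)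
    (hs : ∀ c' ∈ U, c' ≠ c0 → F c' → TFC.SqFree (L ∩ c'.edges)) (c : Clu ℕ) : Out (Fr D F) U c (L \ {e}) := by
  intro c' hc' _
  by_cases hcc : c' = c0
  · subst hcc
    have e1 : (L \ {e}) ∩ c'.edges = Z \ {e} := by
      have h1 := inter_eq (h.val' hc') (h.isq Z hZ) hZc hL.m2 hL.sq
      ext f
      have h2 : f ∈ L ∩ c'.edges ↔ f ∈ Z := by rw [h1]
      simp only [Finset.mem_inter, Finset.mem_sdiff] at h2 ⊢
      tauto
    rw [e1]
    exact am2_sub (h.fr_am2 hc') (h.isq Z hZ) hZc hL.m2 hL.sq (Finset.singleton_subset_iff.2 he) (by simp)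
  · exact (fr_dwn D F) c' _ _ (Finset.inter_subset_inter Finset.sdiff_subset le_rfl)
      (h.fr_out hZ hL hc0 hZc hs c' hc' hcc)

/-- near covers are allowed in all frames -/
theorem WA.fr_M (w0 : WA X P D j m S M CL U PL) (h : PW X P D j S M (Fr D F) CL U PL pl mi) (hF : ∀ c, F c → K2 c)
    {w : ℕ} (hw : w ∈ S) (hT : w ∈ X.T) : AU (Fr D F) U PL (M w ∩ (Ucl U ∪ PL)) := by
  refine ⟨Finset.inter_subset_right, fun c hc => ?_⟩
  rw [h.interW hc]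
  have hcC := ((h.uc c).1 hc).1
  exact Fr_of (fun hf => w0.msf w hw hT c hcC (hF c hf)) fun _ => w0.mcap w hw hT c hcC

theorem WA.fr_Mc (w0 : WA X P D j m S M CL U PL) (h : PW X P D j S M (Fr D F) CL U PL pl mi)
    (hF : ∀ c, F c → K2 c) {w : ℕ} (hw : w ∈ S) (hT : w ∈ X.T) (c : Clu ℕ) : Out (Fr D F) U c (M w) := by
  intro c' hc' _
  have h1 := (w0.fr_M h hF hw hT).2 c' hc'
  rwa [h.interW hc'] at h1

/-- an edge all of whose clusters are uncapped -/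
theorem WA.fr_free (w0 : WA X P D j m S M CL U PL) (h : PW X P D j S M (Fr D F) CL U PL pl mi)
    (hF : ∀ c, F c → K2 c) {w : ℕ} (hw : w ∈ S) (hT : w ∈ X.T) {e : Sym2 ℕ}
    (he : ∀ c ∈ U, e ∈ c.edges → F c) : Free (Fr D F) U (M w) e :=
  fun c hc hec => ⟨h.fr_asf hc (he c hc hec),
    sf_nsq (w0.msf w hw hT c ((h.uc c).1 hc).1 (hF c (he c hc hec)))⟩

/-- an edge all of whose clusters are uncapped, for a witness which is square-free there -/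
theorem PW.fr_freeL (h : PW X P D j S M (Fr D F) CL U PL pl mi) {L : Finset (Sym2 ℕ)} {e : Sym2 ℕ}
    (he : ∀ c ∈ U, e ∈ c.edges → F c ∧ TFC.SqFree (L ∩ c.edges)) : Free (Fr D F) U L e :=
  fun c hc hec => ⟨h.fr_asf hc (he c hc hec).1, sf_nsq (he c hc hec).2⟩

/-- a square of `D` in a cluster of the region -/
theorem PW.k4sq (h : PW X P D j S M (Fr D F) CL U PL pl mi) {c : Clu ℕ} (hc : c ∈ U) :
    ∃ Z ∈ D, Z ⊆ c.edges := by
  obtain ⟨e, he⟩ := valid_nonempty (h.val' hc)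
  obtain ⟨Z, hZ, _, hs⟩ := h.cls.edge_sq ((h.uc c).1 hc).1 he
  exact ⟨Z, hZ, hs⟩

/-- **the corners of a `K4` cluster are of type X in every frame in which one of its witnesses is square-free in the
uncapped clusters** -/
theorem PW.fr_k4X (h : PW X P D j S M (Fr D F) CL U PL pl mi) {Y : Finset ℕ} (hY : Clu.k4 Y ∈ U)
    {Z L : Finset (Sym2 ℕ)} (hZ : Z ∈ D) (hZY : Z ⊆ (Clu.k4 Y).edges) (hL : Wt X P D j Z L)
    (hs : ∀ c' ∈ U, F c' → TFC.SqFree (L ∩ c'.edges)) : ∀ v ∈ Y, mi v ∧ ¬ pl v :=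
  h.k4X' hY (h.fr_am2 hY) hZ hZY hL (h.fr_out hZ hL hY hZY fun c' hc' _ hf => hs c' hc' hf)

/-- **all squares of a `K4` cluster are in `D`** -/
theorem WA.k4D (w0 : WA X P D j m S M CL U PL) {Y : Finset ℕ} (hY : Clu.k4 Y ∈ U) :
    ∀ Z', IsSq Z' → Z' ⊆ (Clu.k4 Y).edges → Z' ∈ D := by
  obtain ⟨pl, mi, h, _⟩ := w0.fr (fun _ => False) fun _ h => h.elim
  obtain ⟨Z, hZ, hZY⟩ := h.k4sq hY
  obtain ⟨L, hL⟩ := h.wt hZ
  exact h.k4D hY (fr_acp fun h => h) hZ hZY hL (h.fr_out hZ hL hY hZY fun _ _ _ hf => hf.elim)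

/-- **a near cover has exactly three edges in every `K4` cluster** -/
theorem WA.k4M (w0 : WA X P D j m S M CL U PL) {Y : Finset ℕ} (hY : Clu.k4 Y ∈ U) {w : ℕ} (hw : w ∈ S)
    (hT : w ∈ X.T) : #(M w ∩ (Clu.k4 Y).edges) = 3 := by
  obtain ⟨pl, mi, h, _⟩ := w0.fr (fun _ => False) fun _ h => h.elim
  obtain ⟨Z, hZ, hZY⟩ := h.k4sq hY
  obtain ⟨L, hL⟩ := h.wt hZ
  have hX := h.fr_k4X hY hZ hZY hL fun _ _ hf => hf.elim
  exact h.k4M hY (h.fr_am2 hY) hX (w0.k4D hY) hw hT (w0.fr_Mc h (fun _ hf => hf.elim) hw hT _)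
    (w0.mcap w hw hT _ ((h.uc _).1 hY).1)

/-- **a witness has exactly three edges in every `K4` cluster which does not contain its square** -/
theorem WA.k4F (w0 : WA X P D j m S M CL U PL) {Y : Finset ℕ} (hY : Clu.k4 Y ∈ U) {Z L : Finset (Sym2 ℕ)}
    (hZ : Z ∈ D) (hZU : Z ⊆ Ucl U) (hZY : ¬ Z ⊆ (Clu.k4 Y).edges) (hL : Wt X P D j Z L) :
    #(L ∩ (Clu.k4 Y).edges) = 3 := by
  obtain ⟨pl, mi, h, _⟩ := w0.fr (fun _ => False) fun _ h => h.elim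
  obtain ⟨Z', hZ', hZY'⟩ := h.k4sq hY
  obtain ⟨L', hL'⟩ := h.wt hZ'
  have hX := h.fr_k4X hY hZ' hZY' hL' fun _ _ hf => hf.elim
  obtain ⟨e, he⟩ := IsSq.ne (h.isq Z hZ)
  obtain ⟨c0, hc0, hZc⟩ := h.clq hZ hZU
  exact h.k4F hY (h.fr_am2 hY) hX (w0.k4D hY) hZ hZU hZY hL he
    (h.fr_outR hZ hL hc0 hZc he (fun _ _ _ hf => hf.elim) _)

/-- the corners of a `K4` cluster which are in `S` are of type X in every frame in which the near covers ... -/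
theorem WA.k4T (w0 : WA X P D j m S M CL U PL) {Y : Finset ℕ} (hY : Clu.k4 Y ∈ U) : ∀ v ∈ Y, v < X.n → v ∈ X.T := by
  obtain ⟨pl, mi, h, _⟩ := w0.fr (fun _ => False) fun _ h => h.elim
  obtain ⟨Z, hZ, hZY⟩ := h.k4sq hY
  obtain ⟨L, hL⟩ := h.wt hZ
  intro v hv hn
  by_contra hT
  exact h.free v hn hT (h.fr_k4X hY hZ hZY hL (fun _ _ hf => hf.elim) v hv).1

/-- **the shape of a `K2` cluster**, frame independent part: complete, or a star -/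
theorem WA.shape (w0 : WA X P D j m S M CL U PL) {u v : ℕ} {L : Finset ℕ} (h0 : Clu.k2 u v L ∈ U) :
    (∀ b ∈ L, ∀ c ∈ L, b ≠ c → TFC.sq u b v c ∈ D) ∨ ∃ e ∈ L,
      (∀ b ∈ L, b ≠ e → TFC.sq u e v b ∈ D) ∧
      (∀ b ∈ L, ∀ c ∈ L, b ≠ e → c ≠ e → b ≠ c → TFC.sq u b v c ∉ D) ∧ 3 ≤ #L := by
  obtain ⟨pl, mi, h, _⟩ := w0.fr (fun _ => False) fun _ h => h.elim
  rcases h.shape h0 (fun c _ => Fr_neg fun h => h) with h1 | ⟨e, he, _, h2, h3, h4, _⟩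
  · exact Or.inl h1
  · exact Or.inr ⟨e, he, h2, h3, h4⟩

end

end Pool.Agent.PF4.XT
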