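import Pool.Agent.PF4.XSh2

/-!
Lemma (V): a star with the capped family, hub `r` with a near cover: the other two corners of a square outside `D` are not
both of type X.
-/

set_option autoImplicit false

namespace Pool.Agent.PF4.XT

open Finset Pool.Agent.TFC Pool.Agent.PF4 Pool.Agent.PF4.LD Pool.Agent.PF4.XC Pool.Agent.PF4.XF

theorem con_neg_le (p m : Prop) {k : ℤ} (h : 0 ≤ k) : con p m (-k) ≤ k := by
  unfold con; split_ifs <;> omega

section
variable {X : XD} {P : ℕ → Finset (Sym2 ℕ) → Prop} {D : Finset (Finset (Sym2 ℕ))} {j : ℕ} {S : Finset ℕ}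
  {M : ℕ → Finset (Sym2 ℕ)} {A : Clu ℕ → Finset (Sym2 ℕ) → Prop} {CL U : List (Clu ℕ)} {PL : Finset (Sym2 ℕ)}
  {pl mi : ℕ → Prop}

/-- both versions at once: `w` is one of the two hubs -/
theorem PW.vx_gen (h : PW X P D j S M A CL U PL pl mi) {u v : ℕ} {Lf : Finset ℕ} (hc : Clu.k2 u v Lf ∈ U)
    (hA : ACp D A (Clu.k2 u v Lf)) {w : ℕ} (hw : w = u ∨ w = v) (hO : Out A U (Clu.k2 u v Lf) (M w)) (hr : w ∈ S)
    (hT : w ∈ X.T) (hM : M2 (M w)) (h1 : dg (M w) w = 1) {a b : ℕ} (ha : a ∈ Lf) (hb : b ∈ Lf) (hab : a ≠ b)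
    (hD : TFC.sq u a v b ∉ D) : ¬ ((mi a ∧ ¬ pl a) ∧ (mi b ∧ ¬ pl b)) := by
  rintro ⟨⟨ma, pa⟩, ⟨mb, pb⟩⟩
  obtain ⟨uv, uL, vL, _⟩ : u ≠ v ∧ u ∉ Lf ∧ v ∉ Lf ∧ 2 ≤ #Lf := h.val' hc
  have hP : ({a, b} : Finset ℕ) ⊆ Lf := by
    intro x hx
    rw [Finset.mem_insert, Finset.mem_singleton] at hx
    rcases hx with rfl | rfl
    · exact ha
    · exact hb
  -- the square
  obtain ⟨F, hF⟩ : ∃ F, F = TFC.sq u a v b := ⟨_, rfl⟩
  have hFt : F = XU.tw u v {a, b} {a, b} := by rw [hF, sq_tw]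
  have hFc : F ⊆ (Clu.k2 u v Lf).edges := by rw [hFt]; exact XU.tw_sub hP hP
  have h4 : Dist4 u a v b := ⟨fun e => uL (e ▸ ha), uv, fun e => uL (e ▸ hb), fun e => vL (e ▸ ha), hab,
    fun e => vL (e ▸ hb)⟩
  have hFs : IsSq F := ⟨u, a, v, b, h4, hF⟩
  have hcard : #({a, b} : Finset ℕ) = 2 := by
    rw [Finset.card_insert_of_notMem (by rw [Finset.mem_singleton]; exact hab), Finset.card_singleton]
  have hdF : ∀ x, dv F x = 2 * (if x ∈ ({a, b} : Finset ℕ) then 1 else 0) +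
      ((if x = u then 2 else 0) + if x = v then 2 else 0) := by
    intro x
    rw [hFt, XU.dv_tw uv uL vL hP hP, hcard]
    push_cast
    ring
  have hFm : M2 F := by
    refine ⟨fun e he => ?_, fun x => ?_⟩
    · exact h.nl (hFc.trans (h.cW' hc)) e he
    · have h2 := hdF x
      have h3 : (dg F x : ℤ) ≤ 2 := by
        rw [show (dg F x : ℤ) = dv F x from rfl, h2]
        by_cases h5 : x ∈ ({a, b} : Finset ℕ)
        · have h6 : x ≠ u := fun e => uL (e ▸ hP h5)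
          have h7 : x ≠ v := fun e => vL (e ▸ hP h5)
          rw [if_pos h5, if_neg h6, if_neg h7]
          norm_num
        · rw [if_neg h5]
          by_cases h6 : x = u
          · have h7 : ¬ x = v := fun e => uv (h6.symm.trans e)
            rw [if_pos h6, if_neg h7]
            norm_num
          · rw [if_neg h6]
            split_ifs <;> norm_num
      exact_mod_cast h3
  have hFa : Acap D F := by
    refine ⟨hFm, fun Z hZ hs => hD ?_⟩
    have : Z = F := by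
      refine Finset.eq_of_subset_of_card_le hs ?_
      rw [IsSq.card hFs, IsSq.card (h.isq Z hZ)]
    rw [← hF, ← this]
    exact hZ
  have key := h.nc_rep hr hT hc hO hFc (hA F hFc hFa)
  -- the part of the near cover
  obtain ⟨K, hK⟩ : ∃ K, K = M w ∩ (Clu.k2 u v Lf).edges := ⟨_, rfl⟩
  rw [← hK] at key
  have hKc : K ⊆ (Clu.k2 u v Lf).edges := by rw [hK]; exact Finset.inter_subset_right
  have hKM : K ⊆ M w := by rw [hK]; exact Finset.inter_subset_left
  have hK2 : ∀ x, 0 ≤ dv K x ∧ dv K x ≤ 2 := by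
    intro x
    refine ⟨Nat.cast_nonneg _, ?_⟩
    have h5 : dg K x ≤ 2 := (Finset.card_le_card (Finset.filter_subset_filter _ hKM)).trans (hM.2 x)
    show ((dg K x : ℕ) : ℤ) ≤ 2
    exact_mod_cast h5
  have hKw : dv K w ≤ 1 := by
    have h5 : dg K w ≤ 1 := h1 ▸ Finset.card_le_card (Finset.filter_subset_filter _ hKM)
    show ((dg K w : ℕ) : ℤ) ≤ 1
    exact_mod_cast h5
  have hKsum : ∑ l ∈ Lf, dv K l = dv K u + dv K v := by
    have e := XU.tw_of hKc uv uL vL
    obtain ⟨P', hP'⟩ : ∃ P', P' = Lf.filter fun l => s(u, l) ∈ K := ⟨_, rfl⟩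
    obtain ⟨Q', hQ'⟩ : ∃ Q', Q' = Lf.filter fun l => s(v, l) ∈ K := ⟨_, rfl⟩
    rw [← hP', ← hQ'] at e
    have hP1 : P' ⊆ Lf := by rw [hP']; exact Finset.filter_subset _ _
    have hQ1 : Q' ⊆ Lf := by rw [hQ']; exact Finset.filter_subset _ _
    rw [e]
    simp only [XU.dv_tw uv uL vL hP1 hQ1, Finset.sum_add_distrib]
    rw [XU.ind_sum hP1, XU.ind_sum hQ1, if_neg (fun e => uL (hP1 e)), if_neg (fun e => uL (hQ1 e)),
      if_neg (fun e => vL (hP1 e)), if_neg (fun e => vL (hQ1 e)), if_neg uv, if_neg uv.symm,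
      Finset.sum_ite_eq' Lf u, Finset.sum_ite_eq' Lf v, if_neg uL, if_neg vL]
    simp
  -- support
  obtain ⟨d, hd⟩ : ∃ d, d = dv F - dv K - Pi.single w 1 := ⟨_, rfl⟩
  rw [← hd] at key
  have hdv : ∀ x, d x = dv F x - dv K x - (if x = w then 1 else 0) := by
    intro x
    rw [hd, Pi.sub_apply, Pi.sub_apply, sgl]
  have hSV : insert u (insert v Lf) ⊆ X.V2 := by
    intro x hx
    rw [Finset.mem_insert, Finset.mem_insert] at hx
    have e1 : s(u, a) ∈ (Clu.k2 u v Lf).edges := mem_k2.2 (Or.inl ⟨Or.inl rfl, ha⟩)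
    have e2 : s(v, a) ∈ (Clu.k2 u v Lf).edges := mem_k2.2 (Or.inl ⟨Or.inr rfl, ha⟩)
    rcases hx with rfl | rfl | hx
    · exact h.v2' (h.cW' hc e1) (by simp)
    · exact h.v2' (h.cW' hc e2) (by simp)
    · have e3 : s(u, x) ∈ (Clu.k2 u v Lf).edges := mem_k2.2 (Or.inl ⟨Or.inl rfl, hx⟩)
      exact h.v2' (h.cW' hc e3) (by simp)
  have hoff : ∀ x ∈ X.V2, x ∉ insert u (insert v Lf) → d x = 0 := by
    intro x _ hx
    rw [Finset.mem_insert, Finset.mem_insert, not_or, not_or] at hx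
    obtain ⟨x1, x2, x3⟩ := hx
    have hxw : x ≠ w := by
      rcases hw with rfl | rfl
      · exact x1
      · exact x2
    have hvs : x ∉ vs (Clu.k2 u v Lf).edges := by
      intro hm
      obtain ⟨e, he, hxe⟩ := mem_vs.1 hm
      obtain ⟨y, rfl⟩ := hxe
      rcases mem_k2.1 he with ⟨h5 | h5, _⟩ | ⟨_, h5⟩
      · exact x1 h5
      · exact x2 h5
      · exact x3 h5
    rw [hdv, dv_off hFc hvs, dv_off hKc hvs, if_neg hxw]
    ring
  rw [ph_supp hSV hoff, Finset.sum_insert (by rw [Finset.mem_insert, not_or]; exact ⟨uv, uL⟩),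
    Finset.sum_insert vL] at key
  -- leaves
  have hleaf : ∑ l ∈ Lf, con (pl l) (mi l) (d l) ≤ ∑ l ∈ Lf, (dv K l - 2 * (if l ∈ ({a, b} : Finset ℕ) then 1 else 0)) := by
    refine Finset.sum_le_sum fun l hl => ?_
    have l1 : l ≠ u := fun e => uL (e ▸ hl)
    have l2 : l ≠ v := fun e => vL (e ▸ hl)
    have l3 : l ≠ w := by
      rcases hw with rfl | rfl
      · exact l1
      · exact l2
    rw [hdv, hdF, if_neg l1, if_neg l2, if_neg l3]
    by_cases h5 : l ∈ ({a, b} : Finset ℕ)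
    · rw [if_pos h5]
      have h6 : mi l ∧ ¬ pl l := by
        rw [Finset.mem_insert, Finset.mem_singleton] at h5
        rcases h5 with rfl | rfl
        · exact ⟨ma, pa⟩
        · exact ⟨mb, pb⟩
      rw [con_X h6.2 h6.1]
      omega
    · rw [if_neg h5]
      have h7 := con_neg_le (pl l) (mi l) (hK2 l).1
      rw [show 2 * (0 : ℤ) + (0 + 0) - dv K l - 0 = -dv K l by ring]
      omega
  rw [Finset.sum_sub_distrib, hKsum, ← Finset.mul_sum, XU.ind_sum hP, hcard] at hleaf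
  -- hubs
  have hub : ∀ x, x = u ∨ x = v → x = w → con (pl x) (mi x) (d x) ≤ 1 - dv K x := by
    intro x hx hxw
    have hFx : dv F x = 2 := by
      rw [hdF]
      rcases hx with rfl | rfl
      · rw [if_neg (fun e => uL (hP e)), if_pos rfl, if_neg uv]; ring
      · rw [if_neg (fun e => vL (hP e)), if_neg uv.symm, if_pos rfl]; ring
    rw [hdv, hFx, if_pos hxw]
    have h5 : dv K x ≤ 1 := by rw [hxw]; exact hKw
    have h6 := (hK2 x).1
    rcases (show dv K x = 0 ∨ dv K x = 1 by omega) with h7 | h7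
    · rw [h7]
      have := con_one (pl x) (mi x)
      norm_num
      exact this
    · rw [h7]
      norm_num
      rw [con_zero]
  have hub2 : ∀ x, x = u ∨ x = v → x ≠ w → con (pl x) (mi x) (d x) ≤ 2 - dv K x := by
    intro x hx hxw
    have hFx : dv F x = 2 := by
      rw [hdF]
      rcases hx with rfl | rfl
      · rw [if_neg (fun e => uL (hP e)), if_pos rfl, if_neg uv]; ring
      · rw [if_neg (fun e => vL (hP e)), if_neg uv.symm, if_pos rfl]; ring
    rw [hdv, hFx, if_neg hxw]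
    obtain ⟨h5, h6⟩ := hK2 x
    rcases (show dv K x = 0 ∨ dv K x = 1 ∨ dv K x = 2 by omega) with h7 | h7 | h7
    · rw [h7]
      have := con_two_le (pl x) (mi x)
      norm_num
      exact this
    · rw [h7]
      have := con_one (pl x) (mi x)
      norm_num
      exact this
    · rw [h7]
      norm_num
      rw [con_zero]
  rcases hw with hw | hw
  · have h5 := hub u (Or.inl rfl) hw.symm
    have h6 := hub2 v (Or.inr rfl) (fun e => uv (hw.symm.trans e.symm))
    push_cast at hleaf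
    omega
  · have h5 := hub v (Or.inr rfl) hw.symm
    have h6 := hub2 u (Or.inl rfl) (fun e => uv (e.trans hw))
    push_cast at hleaf
    omega

/-- **(V)**, the hub is the first one -/
theorem PW.vx (h : PW X P D j S M A CL U PL pl mi) {r g : ℕ} {Lf : Finset ℕ} (hc : Clu.k2 r g Lf ∈ U)
    (hA : ACp D A (Clu.k2 r g Lf)) (hO : Out A U (Clu.k2 r g Lf) (M r)) (hr : r ∈ S) (hT : r ∈ X.T)
    (hM : M2 (M r)) (h1 : dg (M r) r = 1) {a b : ℕ} (ha : a ∈ Lf) (hb : b ∈ Lf) (hab : a ≠ b)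
    (hD : TFC.sq r a g b ∉ D) : ¬ ((mi a ∧ ¬ pl a) ∧ (mi b ∧ ¬ pl b)) :=
  h.vx_gen hc hA (Or.inl rfl) hO hr hT hM h1 ha hb hab hD

/-- **(V)**, the hub is the second one -/
theorem PW.vx' (h : PW X P D j S M A CL U PL pl mi) {r g : ℕ} {Lf : Finset ℕ} (hc : Clu.k2 g r Lf ∈ U)
    (hA : ACp D A (Clu.k2 g r Lf)) (hO : Out A U (Clu.k2 g r Lf) (M r)) (hr : r ∈ S) (hT : r ∈ X.T)
    (hM : M2 (M r)) (h1 : dg (M r) r = 1) {a b : ℕ} (ha : a ∈ Lf) (hb : b ∈ Lf) (hab : a ≠ b)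
    (hD : TFC.sq r a g b ∉ D) : ¬ ((mi a ∧ ¬ pl a) ∧ (mi b ∧ ¬ pl b)) := by
  refine h.vx_gen hc hA (Or.inr rfl) hO hr hT hM h1 ha hb hab ?_
  have e : TFC.sq g a r b = TFC.sq r a g b := by
    rw [sq_rot g a r b, sq_rot a r b g, sq_ref r b g a, sq_rot a g b r, sq_rot g b r a, sq_rot b r a g]
  rw [e]
  exact hD

end

end Pool.Agent.PF4.XT
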