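import Pool.Agent.PF4.XSh
import Pool.Agent.PF4.X5B

/-!
The phi frame: the elementary lemmas `L1` - `L5` and the shapes of the `K2` clusters.
-/

set_option autoImplicit false

namespace Pool.Agent.PF4.XT

open Finset Pool.Agent.TFC Pool.Agent.PF4 Pool.Agent.PF4.LD Pool.Agent.PF4.XC Pool.Agent.PF4.XF Pool.Agent.PF4.XU

/-! ### adding an edge to a square-free set -/

/-- a square through the edge `uv` -/
theorem sq_edge {Z : Finset (Sym2 ℕ)} (hZ : IsSq Z) {u v : ℕ} (he : s(u, v) ∈ Z) :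
    ∃ a b, Dist4 u a b v ∧ Z = TFC.sq u a b v := by
  obtain ⟨a, b, c, ⟨n1, n2, n3, n4, n5, n6⟩, rfl⟩ := sq_at hZ he (v := u) (by simp)
  have hv : v = a ∨ v = c := by
    simp only [TFC.sq, mem_insert, mem_singleton, Sym2.eq_iff] at he
    rcases he with ⟨_, h⟩ | ⟨h, _⟩ | ⟨h, _⟩ | ⟨h, _⟩ | ⟨h, _⟩ | ⟨h, _⟩ | ⟨h, _⟩ | ⟨_, h⟩ <;> tauto
  rcases hv with rfl | rfl
  · exact ⟨c, b, ⟨n3, n2, n1, n6.symm, n5.symm, n4.symm⟩, by
      ext e
      simp only [TFC.sq, mem_insert, mem_singleton]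
      rw [Sym2.eq_swap (a := u) (b := v), Sym2.eq_swap (a := v) (b := b), Sym2.eq_swap (a := b) (b := c),
        Sym2.eq_swap (a := c) (b := u)]
      tauto⟩
  · exact ⟨a, b, ⟨n1, n2, n3, n4, n5, n6⟩, rfl⟩

/-- **an edge which cannot be added to a square-free set: there is a 3-path between its ends** -/
theorem nsq_insert {K : Finset (Sym2 ℕ)} (hK : NSq K) {u v : ℕ} (h : ¬ NSq (insert s(u, v) K)) :
    ∃ a b, Dist4 u a b v ∧ s(u, a) ∈ K ∧ s(a, b) ∈ K ∧ s(b, v) ∈ K := by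
  unfold NSq at h
  push Not at h
  obtain ⟨Z, h1, h2⟩ := h
  have h3 : s(u, v) ∈ Z := by
    by_contra hc
    refine hK Z h1 fun e he => ?_
    rcases Finset.mem_insert.1 (h2 he) with rfl | h4
    · exact absurd he hc
    · exact h4
  obtain ⟨a, b, ⟨n1, n2, n3, n4, n5, n6⟩, rfl⟩ := sq_edge h1 h3
  refine ⟨a, b, ⟨n1, n2, n3, n4, n5, n6⟩, ?_, ?_, ?_⟩
  · refine (Finset.mem_insert.1 (h2 (by simp [TFC.sq] : s(u, a) ∈ TFC.sq u a b v))).resolve_left ?_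
    rw [Sym2.eq_iff]
    rintro (⟨_, h⟩ | ⟨h, _⟩)
    · exact n5 h
    · exact n3 h
  · refine (Finset.mem_insert.1 (h2 (by simp [TFC.sq] : s(a, b) ∈ TFC.sq u a b v))).resolve_left ?_
    rw [Sym2.eq_iff]
    rintro (⟨h, _⟩ | ⟨_, h⟩)
    · exact n1 h.symm
    · exact n2 h.symm
  · refine (Finset.mem_insert.1 (h2 (by simp [TFC.sq] : s(b, v) ∈ TFC.sq u a b v))).resolve_left ?_
    rw [Sym2.eq_iff]
    rintro (⟨h, _⟩ | ⟨h, _⟩)
    · exact n2 h.symm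
    · exact n6 h

/-- an edge at a vertex without another edge of `K` can be added -/
theorem nsq_pendant {K : Finset (Sym2 ℕ)} (hK : NSq K) {u v : ℕ} (h : ∀ a, s(u, a) ∈ K → a = v) :
    NSq (insert s(u, v) K) := by
  by_contra hc
  obtain ⟨a, b, ⟨_, _, _, _, n5, _⟩, h1, _, _⟩ := nsq_insert hK hc
  exact n5 (h a h1)

section
variable {X : XD} {P : ℕ → Finset (Sym2 ℕ) → Prop} {D : Finset (Finset (Sym2 ℕ))} {j : ℕ} {S : Finset ℕ}
  {M : ℕ → Finset (Sym2 ℕ)} {A : Clu ℕ → Finset (Sym2 ℕ) → Prop} {CL U : List (Clu ℕ)} {PL : Finset (Sym2 ℕ)}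
  {pl mi : ℕ → Prop}

/-- the edge `e` can be added to `K` -/
def Addb (A : Clu ℕ → Finset (Sym2 ℕ) → Prop) (U : List (Clu ℕ)) (PL K : Finset (Sym2 ℕ)) (e : Sym2 ℕ) : Prop :=
  e ∈ PL ∨ ∃ c ∈ U, e ∈ c.edges ∧ A c (insert e (K ∩ c.edges))

theorem PW.addb (h : PW X P D j S M A CL U PL pl mi) {K : Finset (Sym2 ℕ)} (hK : AU A U PL K) {e : Sym2 ℕ}
    (ha : Addb A U PL K e) : AU A U PL (insert e K) := by
  rcases ha with h1 | ⟨c, hc, h1, h2⟩
  · rw [Finset.insert_eq, Finset.union_comm]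
    exact h.addp hK (Finset.singleton_subset_iff.2 h1)
  · exact h.addc hK hc h1 h2

/-- remove plain edges -/
theorem PW.remp (h : PW X P D j S M A CL U PL pl mi) {K R : Finset (Sym2 ℕ)} (hK : AU A U PL K) (hR : R ⊆ PL) :
    AU A U PL (K \ R) := by
  refine ⟨Finset.sdiff_subset.trans hK.1, fun c hc => ?_⟩
  have e : (K \ R) ∩ c.edges = K ∩ c.edges := by
    ext e
    simp only [Finset.mem_inter, Finset.mem_sdiff]
    refine ⟨fun h1 => ⟨h1.1.1, h1.2⟩, fun h1 => ⟨⟨h1.1, fun h2 => ?_⟩, h1.2⟩⟩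
    exact Finset.disjoint_left.1 (h.plain hc) (hR h2) h1.2
  rw [e]
  exact hK.2 c hc

theorem Addb.inter (h : PW X P D j S M A CL U PL pl mi) {K : Finset (Sym2 ℕ)} {e : Sym2 ℕ}
    (ha : Addb A U PL K e) : Addb A U PL (K ∩ (Ucl U ∪ PL)) e := by
  rcases ha with h1 | ⟨c, hc, h1, h2⟩
  · exact Or.inl h1
  · exact Or.inr ⟨c, hc, h1, by rw [h.interW hc]; exact h2⟩

theorem Addb.mem {A : Clu ℕ → Finset (Sym2 ℕ) → Prop} {U : List (Clu ℕ)} {PL K : Finset (Sym2 ℕ)} {e : Sym2 ℕ}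
    (ha : Addb A U PL K e) : e ∈ Ucl U ∪ PL := by
  rcases ha with h1 | ⟨c, hc, h1, _⟩
  · exact Finset.mem_union_right _ h1
  · exact Finset.mem_union_left _ (mem_Ucl.2 ⟨c, hc, h1⟩)

theorem PW.ne (h : PW X P D j S M A CL U PL pl mi) {a b : ℕ} (he : s(a, b) ∈ Ucl U ∪ PL) : a ≠ b := by
  have := h.nl le_rfl _ he
  simpa using this

/-! ### L3, L4, L5: near covers -/

/-- **L3** general: an edge is added to a near cover -/
theorem PW.L3 (h : PW X P D j S M A CL U PL pl mi) {w : ℕ} (hw : w ∈ S) (hT : w ∈ X.T)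
    (hM : AU A U PL (M w ∩ (Ucl U ∪ PL))) {e : Sym2 ℕ} (he : e ∉ M w) (ha : Addb A U PL (M w) e) :
    1 ≤ ph X.V2 pl mi (dv {e} - Pi.single w 1) := by
  have h1 := h.nc w hw hT _ (h.addb hM (ha.inter h))
  rw [XT.dv_insert (fun hc => he (Finset.mem_of_mem_inter_left hc))] at h1
  have e1 : dv (M w ∩ (Ucl U ∪ PL)) + dv {e} - dv (M w ∩ (Ucl U ∪ PL)) - Pi.single w 1 = dv {e} - Pi.single w 1 := by
    abel
  rwa [e1] at h1

/-- **L3** at `w` -/
theorem PW.L3w (h : PW X P D j S M A CL U PL pl mi) {w z : ℕ} (hw : w ∈ S) (hT : w ∈ X.T)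
    (hM : AU A U PL (M w ∩ (Ucl U ∪ PL))) (he : s(w, z) ∉ M w) (ha : Addb A U PL (M w) s(w, z)) :
    1 ≤ con (pl z) (mi z) 1 := by
  have h1 := h.L3 hw hT hM he ha
  have hz := h.v2' ha.mem (v := z) (by simp)
  rw [dv_pair (h.ne ha.mem)] at h1
  have e : (Pi.single w 1 + Pi.single z 1 - Pi.single w 1 : ℕ → ℤ) = Pi.single z 1 := by abel
  rwa [e, ph_one hz] at h1

/-- **L3** at `w`: an addable edge leads to a vertex with `pl` -/
theorem PW.L3p (h : PW X P D j S M A CL U PL pl mi) {w z : ℕ} (hw : w ∈ S) (hT : w ∈ X.T)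
    (hM : AU A U PL (M w ∩ (Ucl U ∪ PL))) (he : s(w, z) ∉ M w) (ha : Addb A U PL (M w) s(w, z)) : pl z :=
  con_one_eq (m := mi z) (by have := h.L3w hw hT hM he ha; omega)

/-- three different vertices -/
theorem ph_three {V : Finset ℕ} {pl mi : ℕ → Prop} {u v w : ℕ} (hu : u ∈ V) (hv : v ∈ V) (hw : w ∈ V) (huv : u ≠ v)
    (huw : u ≠ w) (hvw : v ≠ w) (a b c : ℤ) : ph V pl mi (Pi.single u a + Pi.single v b + Pi.single w c) =
      con (pl u) (mi u) a + con (pl v) (mi v) b + con (pl w) (mi w) c := by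
  rw [ph_add hw (by rw [Pi.add_apply, sgl, sgl, if_neg huw.symm, if_neg hvw.symm]; rfl), ph_two hu hv huv]

/-- **L3** not at `w` -/
theorem PW.L3ab (h : PW X P D j S M A CL U PL pl mi) {w a b : ℕ} (hw : w ∈ S) (hT : w ∈ X.T)
    (hM : AU A U PL (M w ∩ (Ucl U ∪ PL))) (he : s(a, b) ∉ M w) (ha : Addb A U PL (M w) s(a, b)) (hwa : w ≠ a)
    (hwb : w ≠ b) : 1 ≤ con (pl w) (mi w) (-1) + con (pl a) (mi a) 1 + con (pl b) (mi b) 1 := by
  have h1 := h.L3 hw hT hM he ha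
  have hab := h.ne ha.mem
  rw [dv_pair hab] at h1
  have e : (Pi.single a 1 + Pi.single b 1 - Pi.single w 1 : ℕ → ℤ) =
      Pi.single w (-1) + Pi.single a 1 + Pi.single b 1 := by
    rw [Pi.single_neg]
    abel
  rwa [e, ph_three (h.sv w hw) (h.v2' ha.mem (by simp)) (h.v2' ha.mem (by simp)) hwa hwb hab] at h1

/-- **L4** general: an edge is removed from a near cover -/
theorem PW.L4 (h : PW X P D j S M A CL U PL pl mi) (hD : Dwn A) {w : ℕ} (hw : w ∈ S) (hT : w ∈ X.T)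
    (hM : AU A U PL (M w ∩ (Ucl U ∪ PL))) {e : Sym2 ℕ} (he : e ∈ M w) (heW : e ∈ Ucl U ∪ PL) :
    1 ≤ ph X.V2 pl mi (-dv {e} - Pi.single w 1) := by
  have h1 := h.nc_swap hw hT (R := {e}) (B := ∅) (Finset.singleton_subset_iff.2 he)
    (Finset.singleton_subset_iff.2 heW) (Finset.disjoint_empty_left _)
    (by rw [Finset.union_empty]; exact hM.mono hD Finset.sdiff_subset)
  rwa [dv_empty, zero_sub] at h1

/-- **L4** at `w` -/
theorem PW.L4w (h : PW X P D j S M A CL U PL pl mi) (hD : Dwn A) {w z : ℕ} (hw : w ∈ S) (hT : w ∈ X.T)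
    (hM : AU A U PL (M w ∩ (Ucl U ∪ PL))) (he : s(w, z) ∈ M w) (heW : s(w, z) ∈ Ucl U ∪ PL) :
    1 ≤ con (pl w) (mi w) (-2) + con (pl z) (mi z) (-1) := by
  have h1 := h.L4 hD hw hT hM he heW
  have hne := h.ne heW
  rw [dv_pair hne] at h1
  have e : (-(Pi.single w 1 + Pi.single z 1) - Pi.single w 1 : ℕ → ℤ) = Pi.single w (-2) + Pi.single z (-1) := by
    funext v
    simp only [Pi.sub_apply, Pi.add_apply, Pi.neg_apply, sgl]
    split_ifs <;> ring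
  rwa [e, ph_two (h.sv w hw) (h.v2' heW (by simp)) hne] at h1

/-- **L4** not at `w` -/
theorem PW.L4ab (h : PW X P D j S M A CL U PL pl mi) (hD : Dwn A) {w a b : ℕ} (hw : w ∈ S) (hT : w ∈ X.T)
    (hM : AU A U PL (M w ∩ (Ucl U ∪ PL))) (he : s(a, b) ∈ M w) (heW : s(a, b) ∈ Ucl U ∪ PL) (hwa : w ≠ a)
    (hwb : w ≠ b) : 1 ≤ con (pl w) (mi w) (-1) + con (pl a) (mi a) (-1) + con (pl b) (mi b) (-1) := by
  have h1 := h.L4 hD hw hT hM he heW
  have hab := h.ne heW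
  rw [dv_pair hab] at h1
  have e : (-(Pi.single a 1 + Pi.single b 1) - Pi.single w 1 : ℕ → ℤ) =
      Pi.single w (-1) + Pi.single a (-1) + Pi.single b (-1) := by
    rw [Pi.single_neg, Pi.single_neg, Pi.single_neg]
    abel
  rwa [e, ph_three (h.sv w hw) (h.v2' heW (by simp)) (h.v2' heW (by simp)) hwa hwb hab] at h1

/-- the edge `e` lies only in clusters with the uncapped square-free family, in which `K` is square-free -/
def Free (A : Clu ℕ → Finset (Sym2 ℕ) → Prop) (U : List (Clu ℕ)) (K : Finset (Sym2 ℕ)) (e : Sym2 ℕ) : Prop :=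
  ∀ c ∈ U, e ∈ c.edges → ASf A c ∧ NSq (K ∩ c.edges)

/-- **the block lemma**: an edge of the region can be added to `K`, or there is a 3-path of `K` between its ends in its
cluster -/
theorem PW.block (_ : PW X P D j S M A CL U PL pl mi) {K : Finset (Sym2 ℕ)} {u v : ℕ} (he : s(u, v) ∈ Ucl U ∪ PL)
    (hf : Free A U K s(u, v)) : Addb A U PL K s(u, v) ∨ ∃ c ∈ U, s(u, v) ∈ c.edges ∧ ∃ a b, Dist4 u a b v ∧
      s(u, a) ∈ K ∧ s(a, b) ∈ K ∧ s(b, v) ∈ K ∧ s(u, a) ∈ c.edges ∧ s(a, b) ∈ c.edges ∧ s(b, v) ∈ c.edges := by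
  rcases Finset.mem_union.1 he with h1 | h1
  · obtain ⟨c, hc, hec⟩ := mem_Ucl.1 h1
    obtain ⟨hA, hs⟩ := hf c hc hec
    by_cases h2 : NSq (insert s(u, v) (K ∩ c.edges))
    · exact Or.inl (Or.inr ⟨c, hc, hec, hA _ (Finset.insert_subset hec Finset.inter_subset_right) h2⟩)
    · obtain ⟨a, b, h3, h4, h5, h6⟩ := nsq_insert hs h2
      rw [Finset.mem_inter] at h4 h5 h6
      exact Or.inr ⟨c, hc, hec, a, b, h3, h4.1, h5.1, h6.1, h4.2, h5.2, h6.2⟩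
  · exact Or.inl (Or.inl h1)

/-- **L5**: an edge from `w` to a vertex without `pl` is in the near cover, or its ends are joined by a 3-path of the near
cover in its cluster -/
theorem PW.L5 (h : PW X P D j S M A CL U PL pl mi) {w z : ℕ} (hw : w ∈ S) (hT : w ∈ X.T)
    (hM : AU A U PL (M w ∩ (Ucl U ∪ PL))) (he : s(w, z) ∈ Ucl U ∪ PL) (hf : Free A U (M w) s(w, z))
    (hz : ¬ pl z) : s(w, z) ∈ M w ∨ ∃ c ∈ U, s(w, z) ∈ c.edges ∧ ∃ a b, Dist4 w a b z ∧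
      s(w, a) ∈ M w ∧ s(a, b) ∈ M w ∧ s(b, z) ∈ M w ∧ s(w, a) ∈ c.edges ∧ s(a, b) ∈ c.edges ∧
      s(b, z) ∈ c.edges := by
  by_cases h1 : s(w, z) ∈ M w
  · exact Or.inl h1
  · rcases h.block he hf with h2 | h2
    · exact absurd (h.L3p hw hT hM h1 h2) hz
    · exact Or.inr h2

/-- **L5**, `z` of type N and `w` not of type X: the 3-path -/
theorem PW.L5N (h : PW X P D j S M A CL U PL pl mi) (hD : Dwn A) {w z : ℕ} (hw : w ∈ S) (hT : w ∈ X.T)
    (hM : AU A U PL (M w ∩ (Ucl U ∪ PL))) (he : s(w, z) ∈ Ucl U ∪ PL) (hf : Free A U (M w) s(w, z))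
    (hz : ¬ pl z) (hz' : ¬ mi z) (hwX : ¬ (mi w ∧ ¬ pl w)) : ∃ c ∈ U, s(w, z) ∈ c.edges ∧ ∃ a b, Dist4 w a b z ∧
      s(w, a) ∈ M w ∧ s(a, b) ∈ M w ∧ s(b, z) ∈ M w ∧ s(w, a) ∈ c.edges ∧ s(a, b) ∈ c.edges ∧
      s(b, z) ∈ c.edges := by
  refine (h.L5 hw hT hM he hf hz).resolve_left fun h1 => hwX ?_
  have h2 := h.L4w hD hw hT hM h1 he
  rw [con_N hz hz'] at h2
  exact con_neg_two (by omega)

/-! ### witnesses: the part in the cluster of the square is replaced -/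

theorem PW.wz_au (h : PW X P D j S M A CL U PL pl mi) {Z L : Finset (Sym2 ℕ)} (hZ : Z ∈ D) (hL : Wt X P D j Z L)
    {c : Clu ℕ} (hc : c ∈ U) (hZc : Z ⊆ c.edges) (hA : Out A U c L) {F : Finset (Sym2 ℕ)} (hF : F ⊆ c.edges)
    (hAF : A c F) : AU A U PL (((L ∩ (Ucl U ∪ PL)) \ c.edges) ∪ F) ∧
      dv (((L ∩ (Ucl U ∪ PL)) \ c.edges) ∪ F) = dv (L ∩ (Ucl U ∪ PL)) - dv Z + dv F := by
  obtain ⟨h1, h2⟩ := h.rep hc (K0 := L ∩ (Ucl U ∪ PL)) Finset.inter_subset_right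
    (fun c' hc' hne => by rw [h.interW hc']; exact hA c' hc' hne) hF hAF
  refine ⟨h1, ?_⟩
  rw [h2, h.interW hc, inter_eq (h.val' hc) (h.isq Z hZ) hZc hL.m2 hL.sq]

/-- **the part of the witness in the cluster of its square is replaced by `F`** -/
theorem PW.wz (h : PW X P D j S M A CL U PL pl mi) {Z L : Finset (Sym2 ℕ)} (hZ : Z ∈ D) (hL : Wt X P D j Z L)
    {c : Clu ℕ} (hc : c ∈ U) (hZc : Z ⊆ c.edges) (hA : Out A U c L) {F : Finset (Sym2 ℕ)} (hF : F ⊆ c.edges)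
    (hAF : A c F) : 1 ≤ ph X.V2 pl mi (dv F - dv Z) := by
  obtain ⟨h1, h2⟩ := h.wz_au hZ hL hc hZc hA hF hAF
  have h3 := h.witA Z hZ (fun e he => mem_Ucl.2 ⟨c, hc, hZc he⟩) L hL.mem hL.cov hL.uni _ h1
  rw [h2] at h3
  have e : dv (L ∩ (Ucl U ∪ PL)) - dv Z + dv F - dv (L ∩ (Ucl U ∪ PL)) = dv F - dv Z := by abel
  rwa [e] at h3

/-- **the part of the witness in the cluster of its square is replaced, and an edge outside of this cluster is added** -/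
theorem PW.wz_add (h : PW X P D j S M A CL U PL pl mi) {Z L : Finset (Sym2 ℕ)} (hZ : Z ∈ D) (hL : Wt X P D j Z L)
    {c : Clu ℕ} (hc : c ∈ U) (hZc : Z ⊆ c.edges) (hA : Out A U c L) {F : Finset (Sym2 ℕ)} (hF : F ⊆ c.edges)
    (hAF : A c F) {e : Sym2 ℕ} (hec : e ∉ c.edges) (heL : e ∉ L) (ha : Addb A U PL L e) :
    1 ≤ ph X.V2 pl mi (dv F - dv Z + dv {e}) := by
  obtain ⟨h1, h2⟩ := h.wz_au hZ hL hc hZc hA hF hAF
  have h4 : AU A U PL (insert e (((L ∩ (Ucl U ∪ PL)) \ c.edges) ∪ F)) := by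
    refine h.addb h1 ?_
    rcases ha with h5 | ⟨c2, hc2, h5, h6⟩
    · exact Or.inl h5
    · refine Or.inr ⟨c2, hc2, h5, ?_⟩
      have hne : Disjoint c.edges c2.edges := by
        rw [Finset.disjoint_left]
        intro f hf hf2
        rw [h.eqc hc hc2 hf hf2] at hec
        exact hec h5
      have e1 : ((L ∩ (Ucl U ∪ PL)) \ c.edges ∪ F) ∩ c2.edges = L ∩ c2.edges := by
        rw [Finset.union_inter_distrib_right, Finset.disjoint_iff_inter_eq_empty.1 (hne.mono_left hF),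
          Finset.union_empty, ← h.interW hc2 L]
        ext f
        simp only [Finset.mem_inter, Finset.mem_sdiff]
        refine ⟨fun h1 => ⟨h1.1.1, h1.2⟩, fun h1 => ⟨⟨h1.1, fun h2 => ?_⟩, h1.2⟩⟩
        exact Finset.disjoint_left.1 hne h2 h1.2
      rw [e1]
      exact h6
  have heF : e ∉ ((L ∩ (Ucl U ∪ PL)) \ c.edges) ∪ F := by
    rw [Finset.mem_union, not_or]
    exact ⟨fun hc => heL (Finset.mem_inter.1 (Finset.mem_sdiff.1 hc).1).1, fun hc => hec (hF hc)⟩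
  have h3 := h.witA Z hZ (fun e he => mem_Ucl.2 ⟨c, hc, hZc he⟩) L hL.mem hL.cov hL.uni _ h4
  rw [XT.dv_insert heF, h2] at h3
  have e : dv (L ∩ (Ucl U ∪ PL)) - dv Z + dv F + dv {e} - dv (L ∩ (Ucl U ∪ PL)) = dv F - dv Z + dv {e} := by abel
  rwa [e] at h3

/-- a proper part of a square is allowed -/
theorem am2_sub {A : Clu ℕ → Finset (Sym2 ℕ) → Prop} {c : Clu ℕ} (hAc : AM2 A c) {Z L : Finset (Sym2 ℕ)}
    (hZ : IsSq Z) (hZc : Z ⊆ c.edges) (hL : M2 L) (hZL : Z ⊆ L) {R : Finset (Sym2 ℕ)} (hR : R ⊆ Z)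
    (hne : R.Nonempty) : A c (Z \ R) := by
  refine hAc _ (Finset.sdiff_subset.trans hZc) (hL.mono (Finset.sdiff_subset.trans hZL)) (nsq_small ?_)
  have h1 := Finset.card_sdiff_add_card_eq_card hR
  have h2 := IsSq.card hZ
  have h3 := hne.card_pos
  omega

/-- removing a part of the square -/
theorem PW.wz_rem (h : PW X P D j S M A CL U PL pl mi) {Z L : Finset (Sym2 ℕ)} (hZ : Z ∈ D) (hL : Wt X P D j Z L)
    {c : Clu ℕ} (hc : c ∈ U) (hZc : Z ⊆ c.edges) (hAc : AM2 A c) (hA : Out A U c L) {R : Finset (Sym2 ℕ)}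
    (hR : R ⊆ Z) (hne : R.Nonempty) : 1 ≤ ph X.V2 pl mi (-dv R) := by
  have h1 := h.wz hZ hL hc hZc hA (F := Z \ R) (Finset.sdiff_subset.trans hZc)
    (am2_sub hAc (h.isq Z hZ) hZc hL.m2 hL.sq hR hne)
  rw [dv_sdiff hR] at h1
  have e : dv Z - dv R - dv Z = -dv R := by abel
  rwa [e] at h1

/-- **L1**: an edge of the square -/
theorem PW.L1e (h : PW X P D j S M A CL U PL pl mi) {Z L : Finset (Sym2 ℕ)} (hZ : Z ∈ D) (hL : Wt X P D j Z L)
    {c : Clu ℕ} (hc : c ∈ U) (hZc : Z ⊆ c.edges) (hAc : AM2 A c) (hA : Out A U c L) {a b : ℕ} (he : s(a, b) ∈ Z) :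
    1 ≤ con (pl a) (mi a) (-1) + con (pl b) (mi b) (-1) := by
  have hW := h.cW' hc (hZc he)
  have h1 := h.wz_rem hZ hL hc hZc hAc hA (R := {s(a, b)}) (Finset.singleton_subset_iff.2 he) (by simp)
  rwa [ph_sub_edge (h.v2' hW (by simp)) (h.v2' hW (by simp)) (h.ne hW)] at h1

/-- **L1**: corners are not of type Y -/
theorem PW.L1Y (h : PW X P D j S M A CL U PL pl mi) {Z L : Finset (Sym2 ℕ)} (hZ : Z ∈ D) (hL : Wt X P D j Z L)
    {c : Clu ℕ} (hc : c ∈ U) (hZc : Z ⊆ c.edges) (hAc : AM2 A c) (hA : Out A U c L) {a b : ℕ} (he : s(a, b) ∈ Z) :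
    ¬ (pl a ∧ ¬ mi a) := by
  have h1 := h.L1e hZ hL hc hZc hAc hA he
  have h2 := con_neg_one (pl b) (mi b)
  exact con_neg_one_Y (by omega)

/-- **L1**: two adjacent corners are not both free -/
theorem PW.L1a (h : PW X P D j S M A CL U PL pl mi) {Z L : Finset (Sym2 ℕ)} (hZ : Z ∈ D) (hL : Wt X P D j Z L)
    {c : Clu ℕ} (hc : c ∈ U) (hZc : Z ⊆ c.edges) (hAc : AM2 A c) (hA : Out A U c L) {a b : ℕ} (he : s(a, b) ∈ Z) :
    mi a ∨ mi b := by
  by_contra hn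
  rw [not_or] at hn
  have h1 := h.L1e hZ hL hc hZc hAc hA he
  have h2 := con_neg_one_free (p := pl a) hn.1
  have h3 := con_neg_one_free (p := pl b) hn.2
  omega

/-- the two edges at a corner are removed -/
theorem PW.L1c (h : PW X P D j S M A CL U PL pl mi) {Z L : Finset (Sym2 ℕ)} (hZ : Z ∈ D) (hL : Wt X P D j Z L)
    {c : Clu ℕ} (hc : c ∈ U) (hZc : Z ⊆ c.edges) (hAc : AM2 A c) (hA : Out A U c L) {d a b : ℕ} (ha : s(d, a) ∈ Z)
    (hb : s(d, b) ∈ Z) (hab : a ≠ b) :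
    1 ≤ con (pl d) (mi d) (-2) + con (pl a) (mi a) (-1) + con (pl b) (mi b) (-1) := by
  have hWa := h.cW' hc (hZc ha)
  have hWb := h.cW' hc (hZc hb)
  have na := h.ne hWa
  have nb := h.ne hWb
  have h1 := h.wz_rem hZ hL hc hZc hAc hA (R := {s(d, a), s(d, b)})
    (by
      intro e he
      rw [Finset.mem_insert, Finset.mem_singleton] at he
      rcases he with rfl | rfl
      · exact ha
      · exact hb) (by simp)
  have hne : s(d, a) ∉ ({s(d, b)} : Finset (Sym2 ℕ)) := by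
    rw [Finset.mem_singleton, Sym2.eq_iff]
    rintro (⟨_, h1⟩ | ⟨h1, _⟩)
    · exact hab h1
    · exact nb h1
  rw [XT.dv_insert hne, dv_pair na, dv_pair nb] at h1
  have e : (-(Pi.single d 1 + Pi.single b 1 + (Pi.single d 1 + Pi.single a 1)) : ℕ → ℤ) =
      Pi.single d (-2) + Pi.single a (-1) + Pi.single b (-1) := by
    funext v
    simp only [Pi.neg_apply, Pi.add_apply, sgl]
    split_ifs <;> ring
  rwa [e, ph_three (h.v2' hWa (by simp)) (h.v2' hWa (by simp)) (h.v2' hWb (by simp)) na nb hab] at h1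

/-- **L1**: two opposite corners without `mi` (free): the other two corners are of type X -/
theorem PW.L1o (h : PW X P D j S M A CL U PL pl mi) {Z L : Finset (Sym2 ℕ)} (hZ : Z ∈ D) (hL : Wt X P D j Z L)
    {c : Clu ℕ} (hc : c ∈ U) (hZc : Z ⊆ c.edges) (hAc : AM2 A c) (hA : Out A U c L) {d a b : ℕ} (ha : s(d, a) ∈ Z)
    (hb : s(d, b) ∈ Z) (hab : a ≠ b) (fa : ¬ mi a) (fb : ¬ mi b) : mi d ∧ ¬ pl d := by
  have h1 := h.L1c hZ hL hc hZc hAc hA ha hb hab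
  have h2 := con_neg_one_free (p := pl a) fa
  have h3 := con_neg_one_free (p := pl b) fb
  exact con_neg_two (by omega)

/-- **L1**: some corner is of type X -/
theorem PW.L1x (h : PW X P D j S M A CL U PL pl mi) {Z L : Finset (Sym2 ℕ)} (hZ : Z ∈ D) (hL : Wt X P D j Z L)
    {c : Clu ℕ} (hc : c ∈ U) (hZc : Z ⊆ c.edges) (hAc : AM2 A c) (hA : Out A U c L) :
    ∃ v, (∃ e ∈ Z, v ∈ e) ∧ mi v ∧ ¬ pl v := by
  obtain ⟨x, y, q, p, h4, rfl⟩ := h.isq Z hZ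
  have hd := h4
  obtain ⟨n1, n2, n3, n4, n5, n6⟩ := hd
  have h1 := h.wz_rem hZ hL hc hZc hAc hA (R := TFC.sq x y q p) le_rfl ⟨s(x, y), by simp [TFC.sq]⟩
  have k : ∀ u v, s(u, v) ∈ TFC.sq x y q p → u ∈ X.V2 := fun u v he => h.v2' (h.cW' hc (hZc he)) (by simp)
  have vx := k x y (by simp [TFC.sq])
  have vy := k y q (by simp [TFC.sq])
  have vq := k q p (by simp [TFC.sq])
  have vp := k p x (by simp [TFC.sq])
  have e : (-dv (TFC.sq x y q p) : ℕ → ℤ) =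
      Pi.single x (-2) + Pi.single y (-2) + Pi.single q (-2) + Pi.single p (-2) := by
    rw [dv_sq h4]
    funext v
    simp only [Pi.neg_apply, Pi.add_apply, sgl, ev_apply]
    split_ifs <;> ring
  rw [e, ph_add vp (by simp only [Pi.add_apply, sgl, if_neg n3.symm, if_neg n5.symm, if_neg n6.symm]; rfl),
    ph_three vx vy vq n1 n2 n4] at h1
  by_contra hn
  push Not at hn
  have k2 : ∀ v, (∃ e ∈ TFC.sq x y q p, v ∈ e) → con (pl v) (mi v) (-2) ≤ 0 := by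
    intro v hv
    by_contra hc
    obtain ⟨h5, h6⟩ := con_neg_two (p := pl v) (m := mi v) (by omega)
    exact h6 (hn v hv h5)
  have := k2 x ⟨s(x, y), by simp [TFC.sq], by simp⟩
  have := k2 y ⟨s(x, y), by simp [TFC.sq], by simp⟩
  have := k2 q ⟨s(q, p), by simp [TFC.sq], by simp⟩
  have := k2 p ⟨s(q, p), by simp [TFC.sq], by simp⟩
  omega

/-- **L2** with a given addability -/
theorem PW.L2' (h : PW X P D j S M A CL U PL pl mi) {Z L : Finset (Sym2 ℕ)} (hZ : Z ∈ D) (hL : Wt X P D j Z L)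
    {c : Clu ℕ} (hc : c ∈ U) (hZc : Z ⊆ c.edges) (hAc : AM2 A c) (hA : Out A U c L) {v v' z : ℕ}
    (he : s(v, v') ∈ Z) (hzc : s(v, z) ∉ c.edges) (ha : Addb A U PL L s(v, z)) :
    1 ≤ con (pl v') (mi v') (-1) + con (pl z) (mi z) 1 := by
  have hW := h.cW' hc (hZc he)
  have hzL : s(v, z) ∉ L := fun hz =>
    hzc (hZc (sq_closed hL.m2 (h.isq Z hZ) hL.sq he (y := v) (by simp) hz (by simp)))
  have h1 := h.wz_add hZ hL hc hZc hA (F := Z \ {s(v, v')}) (Finset.sdiff_subset.trans hZc)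
    (am2_sub hAc (h.isq Z hZ) hZc hL.m2 hL.sq (Finset.singleton_subset_iff.2 he) (by simp)) hzc hzL ha
  have hne : v' ≠ z := by
    rintro rfl
    exact hzc (hZc he)
  rw [dv_sdiff (Finset.singleton_subset_iff.2 he), dv_pair (h.ne hW), dv_pair (h.ne ha.mem)] at h1
  have e : (dv Z - (Pi.single v 1 + Pi.single v' 1) - dv Z + (Pi.single v 1 + Pi.single z 1) : ℕ → ℤ) =
      Pi.single v' (-1) + Pi.single z 1 := by
    rw [Pi.single_neg]
    abel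
  rwa [e, ph_two (h.v2' hW (by simp)) (h.v2' ha.mem (by simp)) hne] at h1

/-- the edge `vz` can be added to the witness if its cluster is uncapped and square-free there -/
theorem PW.addL (h : PW X P D j S M A CL U PL pl mi) {Z L : Finset (Sym2 ℕ)} (hZ : Z ∈ D) (hL : Wt X P D j Z L)
    {c : Clu ℕ} (hc : c ∈ U) (hZc : Z ⊆ c.edges) {v v' z : ℕ} (he : s(v, v') ∈ Z) (hz : s(v, z) ∈ Ucl U ∪ PL)
    (hzc : s(v, z) ∉ c.edges) (hf : Free A U L s(v, z)) : Addb A U PL L s(v, z) := by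
  rcases h.block hz hf with h1 | ⟨c2, hc2, h2, a, b, _, h4, _, _, h5, _⟩
  · exact h1
  · exfalso
    have h6 := hZc (sq_closed hL.m2 (h.isq Z hZ) hL.sq he (y := v) (by simp) h4 (by simp))
    exact hzc (h.eqc hc hc2 h6 h5 ▸ h2)

/-- **L2**: `v` a corner of the square `Z` of `D` with neighbour `v'`, `vz` an edge outside of the cluster of `Z` -/
theorem PW.L2 (h : PW X P D j S M A CL U PL pl mi) {Z L : Finset (Sym2 ℕ)} (hZ : Z ∈ D) (hL : Wt X P D j Z L)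
    {c : Clu ℕ} (hc : c ∈ U) (hZc : Z ⊆ c.edges) (hAc : AM2 A c) (hA : Out A U c L) {v v' z : ℕ}
    (he : s(v, v') ∈ Z) (hz : s(v, z) ∈ Ucl U ∪ PL) (hzc : s(v, z) ∉ c.edges) (hf : Free A U L s(v, z)) :
    1 ≤ con (pl v') (mi v') (-1) + con (pl z) (mi z) 1 :=
  h.L2' hZ hL hc hZc hAc hA he hzc (h.addL hZ hL hc hZc he hz hzc hf)

/-- **L2**: `z` is not of type X -/
theorem PW.L2X (h : PW X P D j S M A CL U PL pl mi) {Z L : Finset (Sym2 ℕ)} (hZ : Z ∈ D) (hL : Wt X P D j Z L)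
    {c : Clu ℕ} (hc : c ∈ U) (hZc : Z ⊆ c.edges) (hAc : AM2 A c) (hA : Out A U c L) {v v' z : ℕ}
    (he : s(v, v') ∈ Z) (hz : s(v, z) ∈ Ucl U ∪ PL) (hzc : s(v, z) ∉ c.edges) (hf : Free A U L s(v, z)) :
    ¬ (mi z ∧ ¬ pl z) := by
  have h1 := h.L2 hZ hL hc hZc hAc hA he hz hzc hf
  have h2 := con_neg_one (pl v') (mi v')
  exact con_one_X (by omega)

/-- **L2**: if `v'` is free, then `z` has `pl` -/
theorem PW.L2f (h : PW X P D j S M A CL U PL pl mi) {Z L : Finset (Sym2 ℕ)} (hZ : Z ∈ D) (hL : Wt X P D j Z L)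
    {c : Clu ℕ} (hc : c ∈ U) (hZc : Z ⊆ c.edges) (hAc : AM2 A c) (hA : Out A U c L) {v v' z : ℕ}
    (he : s(v, v') ∈ Z) (hz : s(v, z) ∈ Ucl U ∪ PL) (hzc : s(v, z) ∉ c.edges) (hf : Free A U L s(v, z))
    (hv : ¬ mi v') : pl z := by
  have h1 := h.L2 hZ hL hc hZc hAc hA he hz hzc hf
  have h2 := con_neg_one_free (p := pl v') hv
  exact con_one_eq (m := mi z) (by omega)

/-! ### shapes of the `K2` clusters (capped frame) -/

/-- every leaf is in a square of the family -/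
theorem PW.par (h : PW X P D j S M A CL U PL pl mi) {u v : ℕ} {L : Finset ℕ} (h0 : Clu.k2 u v L ∈ U) :
    ∀ b ∈ L, ∃ l ∈ L, l ≠ b ∧ TFC.sq u b v l ∈ D := by
  intro b hb
  obtain ⟨Z, hZ, he, hs⟩ := h.cls.edge_sq ((h.uc _).1 h0).1 (f := s(u, b)) (mem_k2.2 (Or.inl ⟨Or.inl rfl, hb⟩))
  obtain ⟨l, hl, _, hlb, rfl⟩ := k2_sq (h.val' h0) (h.isq Z hZ) hs he
  exact ⟨l, hl, hlb, hZ⟩

theorem sq_swp (u v a d : ℕ) : TFC.sq u a v d = TFC.sq u d v a := by rw [sq_ref, sq_rot, sq_rot, sq_rot]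

/-- **a leaf of type X is in all squares of the family of its cluster** -/
theorem PW.star_of_X (h : PW X P D j S M A CL U PL pl mi) {u v : ℕ} {L : Finset ℕ} (h0 : Clu.k2 u v L ∈ U)
    (hA : ∀ c ∈ U, A c = Acap D) {e : ℕ} (he : e ∈ L) (hX : mi e ∧ ¬ pl e) :
    (∀ b ∈ L, b ≠ e → TFC.sq u e v b ∈ D) ∧ (∀ b ∈ L, ∀ c ∈ L, b ≠ e → c ≠ e → b ≠ c → TFC.sq u b v c ∉ D) ∧
      (3 ≤ #L → ∀ b ∈ L, b ≠ e → (mi b → pl b)) := by
  have h1 : ∀ b ∈ L, ∀ c ∈ L, b ≠ e → c ≠ e → b ≠ c → TFC.sq u b v c ∉ D := by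
    intro b hb c hc be ce bc hD
    exact hX.2 (h.leaf_notX h0 hA he hb hc be.symm ce.symm bc hD hX.1)
  have h2 : ∀ b ∈ L, b ≠ e → TFC.sq u e v b ∈ D := by
    intro b hb be
    obtain ⟨l, hl, hlb, hD⟩ := h.par h0 b hb
    by_cases hle : l = e
    · subst hle
      rw [sq_swp]
      exact hD
    · exact absurd hD (h1 b hb l hl be hle hlb.symm)
  refine ⟨h2, h1, fun h3 b hb be => ?_⟩
  have h5 : 0 < #((L.erase e).erase b) := by
    rw [Finset.card_erase_of_mem (Finset.mem_erase.2 ⟨be, hb⟩), Finset.card_erase_of_mem he]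
    omega
  obtain ⟨l, hl⟩ := Finset.card_pos.1 h5
  simp only [Finset.mem_erase] at hl
  exact h.leaf_notX h0 hA hb he hl.2.2 be hl.1.symm hl.2.1.symm (h2 l hl.2.2 hl.2.1)

/-- **the shape of a `K2` cluster**: complete, or a star with centre of type X -/
theorem PW.shape (h : PW X P D j S M A CL U PL pl mi) {u v : ℕ} {L : Finset ℕ} (h0 : Clu.k2 u v L ∈ U)
    (hA : ∀ c ∈ U, A c = Acap D) :
    (∀ b ∈ L, ∀ c ∈ L, b ≠ c → TFC.sq u b v c ∈ D) ∨ ∃ e ∈ L, (mi e ∧ ¬ pl e) ∧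
      (∀ b ∈ L, b ≠ e → TFC.sq u e v b ∈ D) ∧
      (∀ b ∈ L, ∀ c ∈ L, b ≠ e → c ≠ e → b ≠ c → TFC.sq u b v c ∉ D) ∧ 3 ≤ #L ∧
      ∀ b ∈ L, b ≠ e → (mi b → pl b) := by
  by_cases hc : ∀ b ∈ L, ∀ c ∈ L, b ≠ c → TFC.sq u b v c ∈ D
  · exact Or.inl hc
  · right
    push Not at hc
    obtain ⟨b, hb, c, hc, hbc, hD⟩ := hc
    obtain ⟨e, he, heb, hec, hX, _, _⟩ := h.star h0 hA hb hc hbc hD
    obtain ⟨h1, h2, h3⟩ := h.star_of_X h0 hA he hX
    have h4 : 3 ≤ #L := by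
      have h5 : ({e, b, c} : Finset ℕ) ⊆ L := by
        intro w hw
        simp only [Finset.mem_insert, Finset.mem_singleton] at hw
        rcases hw with rfl | rfl | rfl <;> assumption
      have h6 := Finset.card_le_card h5
      rw [Finset.card_insert_of_notMem (by simp [heb, hec]), Finset.card_pair hbc] at h6
      exact h6
    exact ⟨e, he, hX, h1, h2, h4, h3 h4⟩

end

end Pool.Agent.PF4.XT
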