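import Pool.Agent.PF4.XUV
import Pool.Agent.PF4.X5B
import Pool.Agent.PF4.XSh2
import Pool.Agent.PF4.XOW
import Pool.Agent.PF4.XB2

/-!
# All frames of one world

`Fr D F`: the clusters in `F` (two centres) with the uncapped square-free family, the other clusters with the capped family.
`WA`: one world with all frames at once; the clusters `U` and the plain edges `PL` do not depend on the frame, the types do.

Letters: `Q = sq x y q p` (edges `xy, yq, qp, px`), `R = sq x y s r` (edges `xy, ys, sr, rx`), `Z = sq r s b a`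
(edges `rs, sb, ba, ar`).
-/

set_option autoImplicit false

namespace Pool.Agent.PF4.XT

open Finset Pool.Agent.TFC Pool.Agent.PF4 Pool.Agent.PF4.LD Pool.Agent.PF4.XC Pool.Agent.PF4.XF

/-- a cluster with two centres -/
def K2 (c : Clu ℕ) : Prop := ∃ a b L, c = Clu.k2 a b L

open Classical in
/-- the clusters in `F` uncapped and square-free, the others capped -/
noncomputable def Fr (D : Finset (Finset (Sym2 ℕ))) (F : Clu ℕ → Prop) (c : Clu ℕ) : Finset (Sym2 ℕ) → Prop :=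
  if F c then TFC.SqFree else Acap D

theorem Fr_pos {D : Finset (Finset (Sym2 ℕ))} {F : Clu ℕ → Prop} {c : Clu ℕ} (h : F c) : Fr D F c = TFC.SqFree :=
  if_pos h

theorem Fr_neg {D : Finset (Finset (Sym2 ℕ))} {F : Clu ℕ → Prop} {c : Clu ℕ} (h : ¬ F c) : Fr D F c = Acap D :=
  if_neg h

theorem Fr_of {D : Finset (Finset (Sym2 ℕ))} {F : Clu ℕ → Prop} {c : Clu ℕ} {K : Finset (Sym2 ℕ)}
    (h : F c → TFC.SqFree K) (h' : ¬ F c → Acap D K) : Fr D F c K := by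
  by_cases hc : F c
  · rw [Fr_pos hc]; exact h hc
  · rw [Fr_neg hc]; exact h' hc

/-- **one world, all frames** -/
structure WA (X : XD) (P : ℕ → Finset (Sym2 ℕ) → Prop) (D : Finset (Finset (Sym2 ℕ))) (j m : ℕ) (S : Finset ℕ)
    (M : ℕ → Finset (Sym2 ℕ)) (CL U : List (Clu ℕ)) (PL : Finset (Sym2 ℕ)) : Prop where
  ow : OW X P D j m S M
  cls : Cls D CL
  /-- every set `F` of clusters with two centres is a frame -/
  fr : ∀ F : Clu ℕ → Prop, (∀ c, F c → K2 c) →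
    ∃ pl mi, PW X P D j S M (Fr D F) CL U PL pl mi ∧ ∀ w ∈ S, w ∈ X.T → mi w
  /-- near covers are square-free in a cluster with two centres -/
  msf : ∀ w ∈ S, w ∈ X.T → ∀ c ∈ CL, K2 c → TFC.SqFree (M w ∩ c.edges)
  mcap : ∀ w ∈ S, w ∈ X.T → ∀ c ∈ CL, Acap D (M w ∩ c.edges)

/-- a path with three edges `u e f v` -/
def P3 (K : Finset (Sym2 ℕ)) (u e f v : ℕ) : Prop := Dist4 u e f v ∧ s(u, e) ∈ K ∧ s(e, f) ∈ K ∧ s(f, v) ∈ K

section
variable {X : XD} {P : ℕ → Finset (Sym2 ℕ) → Prop} {D : Finset (Finset (Sym2 ℕ))} {j m : ℕ} {S : Finset ℕ}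
  {M : ℕ → Finset (Sym2 ℕ)} {CL U : List (Clu ℕ)} {PL : Finset (Sym2 ℕ)}

theorem hs_sq {T : Finset ℕ} {a b c d : ℕ} (h4 : Dist4 a b c d) :
    Hs T (TFC.sq a b c d) ↔ (a ∈ T ∧ c ∈ T) ∨ (b ∈ T ∧ d ∈ T) := Hs_iff (q := (a, b, c, d)) h4

/-- every square of a cluster with two centres is harmful -/
theorem hs_k2 (h : OW X P D j m S M) (hc : Cls D CL) {c : Clu ℕ} (hcC : c ∈ CL) (h2 : K2 c)
    {Z : Finset (Sym2 ℕ)} (hZ : IsSq Z) (hs : Z ⊆ c.edges) : Hs X.T Z := by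
  obtain ⟨u, v, L, rfl⟩ := h2
  have hv := hc.val _ hcC
  have hv0 := hv
  obtain ⟨huv, huL, hvL, _⟩ : u ≠ v ∧ u ∉ L ∧ v ∉ L ∧ 2 ≤ #L := hv0
  have hleaf : ∀ l ∈ L, (u ∈ X.T ∧ v ∈ X.T) ∨ l ∈ X.T := by
    intro l hl
    have he : s(u, l) ∈ (Clu.k2 u v L).edges := mem_k2.2 (Or.inl ⟨Or.inl rfl, hl⟩)
    obtain ⟨Z', hZ', heZ', hsub⟩ := hc.edge_sq hcC he
    obtain ⟨b, hb, _, hlb, rfl⟩ := k2_sq hv (h.isq hZ') hsub heZ'
    have h4 : Dist4 u l v b := ⟨fun e => huL (e ▸ hl), huv, fun e => huL (e ▸ hb), fun e => hvL (e ▸ hl), hlb.symm,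
      fun e => hvL (e ▸ hb)⟩
    rcases (hs_sq h4).1 (h.blk.hs _ hZ').1 with h1 | h1
    · exact Or.inl h1
    · exact Or.inr h1.1
  obtain ⟨w, x, y, z, h4, rfl⟩ := hZ
  rcases shape hv h4 hs with h1 | ⟨L', h1, h2, h3, h5, h6⟩ | ⟨L', h1, h2, h3, h5, h6⟩
  · cases h1
  · have hL : L' = L := by rcases h1 with h1 | h1 <;> injection h1 with _ _ e <;> exact e.symm
    subst hL
    rw [hs_sq h4]
    rcases hleaf x h2 with h7 | h7
    · left
      rcases h1 with h1 | h1 <;> injection h1 with e1 e2 _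
      · rw [← e1, ← e2]; exact h7
      · rw [← e1, ← e2]; exact h7.symm
    · rcases hleaf z h3 with h8 | h8
      · left
        rcases h1 with h1 | h1 <;> injection h1 with e1 e2 _
        · rw [← e1, ← e2]; exact h8
        · rw [← e1, ← e2]; exact h8.symm
      · exact Or.inr ⟨h7, h8⟩
  · have hL : L' = L := by rcases h1 with h1 | h1 <;> injection h1 with _ _ e <;> exact e.symm
    subst hL
    rw [hs_sq h4]
    rcases hleaf w h2 with h7 | h7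
    · right
      rcases h1 with h1 | h1 <;> injection h1 with e1 e2 _
      · rw [← e1, ← e2]; exact h7
      · rw [← e1, ← e2]; exact h7.symm
    · rcases hleaf y h3 with h8 | h8
      · right
        rcases h1 with h1 | h1 <;> injection h1 with e1 e2 _
        · rw [← e1, ← e2]; exact h8
        · rw [← e1, ← e2]; exact h8.symm
      · exact Or.inl ⟨h7, h8⟩

/-- no loop, no square as a subset: square-free -/
theorem sqFree_of {K : Finset (Sym2 ℕ)} (hK : NoLoop K) (h : ∀ Z, IsSq Z → ¬ Z ⊆ K) : TFC.SqFree K :=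
  (XU.sqFree_iff hK).2 h

theorem AU_congr {A : Clu ℕ → Finset (Sym2 ℕ) → Prop} {U U' : List (Clu ℕ)} (hU : ∀ c, c ∈ U ↔ c ∈ U')
    {PL K : Finset (Sym2 ℕ)} : AU A U PL K ↔ AU A U' PL K := by
  have e : Ucl U = Ucl U' := by
    ext f
    rw [mem_Ucl, mem_Ucl]
    constructor
    · rintro ⟨c, hc, h⟩; exact ⟨c, (hU c).1 hc, h⟩
    · rintro ⟨c, hc, h⟩; exact ⟨c, (hU c).2 hc, h⟩
  unfold AU
  rw [e]
  constructor
  · rintro ⟨h1, h2⟩; exact ⟨h1, fun c hc => h2 c ((hU c).2 hc)⟩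
  · rintro ⟨h1, h2⟩; exact ⟨h1, fun c hc => h2 c ((hU c).1 hc)⟩

/-- the clusters and plain edges are determined -/
theorem PW.congr {A : Clu ℕ → Finset (Sym2 ℕ) → Prop} {pl mi : ℕ → Prop} {U' : List (Clu ℕ)}
    (h : PW X P D j S M A CL U PL pl mi) (hU : ∀ c, c ∈ U ↔ c ∈ U') : PW X P D j S M A CL U' PL pl mi := by
  have e : Ucl U' = Ucl U := by
    ext f
    rw [mem_Ucl, mem_Ucl]
    constructor
    · rintro ⟨c, hc, h⟩; exact ⟨c, (hU c).2 hc, h⟩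
    · rintro ⟨c, hc, h⟩; exact ⟨c, (hU c).1 hc, h⟩
  refine ⟨h.ok, h.sv, h.isq, h.dE, by rw [e]; exact h.w2, h.cls, fun c => by rw [← hU]; exact h.uc c, h.pm,
    fun v hv f hf hvf => by rw [e]; exact h.rch v hv f hf hvf, h.free, ?_, ?_, h.witE, ?_⟩
  · intro w hw hT K hK
    rw [e]
    exact h.nc w hw hT K ((AU_congr hU).2 hK)
  · intro w hw hT hK
    rw [e] at hK
    exact h.mi' w hw hT ((AU_congr hU).2 hK)
  · intro Z hZ hZU L h1 h2 h3 K hK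
    rw [e] at hZU ⊢
    exact h.witA Z hZ hZU L h1 h2 h3 K ((AU_congr hU).2 hK)

theorem msf_of (h : OW X P D j m S M) (hc : Cls D CL) {w : ℕ} (hw : w ∈ S) (hT : w ∈ X.T) {c : Clu ℕ} (hcC : c ∈ CL)
    (h2 : K2 c) : TFC.SqFree (M w ∩ c.edges) := by
  obtain ⟨h3, _, h5⟩ := h.nc w hw hT
  refine sqFree_of (fun e he => h3.m2.nl e (Finset.mem_inter.1 he).1) fun Z hZ hs => ?_
  exact h5 Z (hs_k2 h hc hcC h2 hZ (hs.trans Finset.inter_subset_right)) (hs.trans Finset.inter_subset_left)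

theorem mcap_of (h : OW X P D j m S M) {w : ℕ} (hw : w ∈ S) (hT : w ∈ X.T) (c : Clu ℕ) :
    Acap D (M w ∩ c.edges) := by
  obtain ⟨h3, _, h5⟩ := h.nc w hw hT
  refine ⟨⟨fun e he => h3.m2.nl e (Finset.mem_inter.1 he).1, fun v => ?_⟩, fun Z hZ hs => ?_⟩
  · exact le_trans (Finset.card_le_card (Finset.filter_subset_filter _ Finset.inter_subset_left)) (h3.m2.le v)
  · exact h5 Z (h.blk.hs Z hZ).1 (hs.trans Finset.inter_subset_left)

/-- every family of the frame is good -/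
theorem pca_fr (h : OW X P D j m S M) (hc : Cls D CL) {F : Clu ℕ → Prop} (hF : ∀ c, F c → K2 c) {c : Clu ℕ}
    (hcC : c ∈ CL) : PcA D (Fr D F c) c.edges := by
  by_cases hf : F c
  · rw [Fr_pos hf]
    obtain ⟨a, b, L, rfl⟩ := hF c hf
    exact XU.pca_sqFree (fun Z hZ => h.isq hZ) (hc.val _ hcC)
  · rw [Fr_neg hf]
    exact pca_cap (fun Z hZ => h.isq hZ) _

theorem fr_near (h : OW X P D j m S M) (hc : Cls D CL) {F : Clu ℕ → Prop} (hF : ∀ c, F c → K2 c) {w : ℕ} (hw : w ∈ S)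
    (hT : w ∈ X.T) {c : Clu ℕ} (hcC : c ∈ CL) : Fr D F c (M w ∩ c.edges) :=
  Fr_of (fun hf => msf_of h hc hw hT hcC (hF c hf)) fun _ => mcap_of h hw hT c

/-- **one world with all frames** -/
theorem wa_of (h : OW X P D j m S M) (hS : ∃ w ∈ S, w ∈ X.T) :
    ∃ CL U PL, WA X P D j m S M CL U PL := by
  obtain ⟨CL, hc⟩ := h.cls
  obtain ⟨w, hw, hT⟩ := hS
  have hall : ∀ F : Clu ℕ → Prop, (∀ c, F c → K2 c) → ∃ U PL pl mi, PW X P D j S M (Fr D F) CL U PL pl mi := by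
    intro F hF
    exact OW.pw h hc (fun c hcC _ => pca_fr h hc hF hcC) ⟨w, hw, hT, fun c hcC _ => fr_near h hc hF hw hT hcC⟩
  obtain ⟨U, PL, pl0, mi0, h0⟩ := hall (fun _ => False) fun _ h => h.elim
  refine ⟨CL, U, PL, h, hc, ?_, fun w hw hT c hcC h2 => msf_of h hc hw hT hcC h2, fun w hw hT c _ => mcap_of h hw hT c⟩
  intro F hF
  obtain ⟨U', PL', pl, mi, h1⟩ := hall F hF
  have hU : ∀ c, c ∈ U' ↔ c ∈ U := fun c => by rw [h1.uc, h0.uc]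
  have hPL : PL' = PL := by
    ext e
    rw [h1.pm, h0.pm]
  subst hPL
  have h2 := h1.congr hU
  refine ⟨pl, mi, h2, fun w hw hT => h2.mi' w hw hT ⟨Finset.inter_subset_right, fun c hcU => ?_⟩⟩
  have e : M w ∩ (Ucl U ∪ PL') ∩ c.edges = M w ∩ c.edges := by
    rw [Finset.inter_assoc]
    congr 1
    rw [Finset.inter_eq_right]
    exact h2.cW hcU
  rw [e]
  exact fr_near h hc hF hw hT ((h2.uc c).1 hcU).1

end

/-! ### the pieces of pattern p4 (statements) -/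

/-- **Lemma P**, intrinsic form -/
def LP (X : XD) (P : ℕ → Finset (Sym2 ℕ) → Prop) (D : Finset (Finset (Sym2 ℕ))) (j : ℕ) (S : Finset ℕ)
    (U : List (Clu ℕ)) : Prop :=
  ∀ x y q p r s : ℕ, [x, y, q, p, r, s].Nodup → x ∈ S → y ∈ S → r ∈ S → s ∈ S → x ∈ X.T → y ∈ X.T → r ∈ X.T →
    s ∈ X.T → TFC.sq x y q p ∈ D → s(x, r) ∈ X.E → s(r, s) ∈ X.E → s(y, s) ∈ X.E →
    ∃ c ∈ U, K2 c ∧ s(r, s) ∈ c.edges ∧ ∀ L, Wt X P D j (TFC.sq x y q p) L → s(r, s) ∉ L ∧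
      ∃ a b, P3 (L ∩ c.edges) r a b s ∧ TFC.sq r s b a ∈ D

/-- **the configuration in world 1** (`p` free), with Lemma P already used for `(Q, R)` and `(Z, R)` -/
structure V0 (X : XD) (P : ℕ → Finset (Sym2 ℕ) → Prop) (D : Finset (Finset (Sym2 ℕ))) (j m : ℕ) (S : Finset ℕ)
    (M : ℕ → Finset (Sym2 ℕ)) (CL U : List (Clu ℕ)) (PL : Finset (Sym2 ℕ)) (x y q p r s a b : ℕ)
    (c1 c2 : Clu ℕ) (L1 L2 : Finset (Sym2 ℕ)) : Prop where
  wa : WA X P D j m S M CL U PL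
  nd : [x, y, q, p, r, s, a, b].Nodup
  xS : x ∈ S
  yS : y ∈ S
  rS : r ∈ S
  sS : s ∈ S
  xT : x ∈ X.T
  yT : y ∈ X.T
  rT : r ∈ X.T
  sT : s ∈ X.T
  pT : p ∉ X.T
  hQ : TFC.sq x y q p ∈ D
  hZ : TFC.sq r s b a ∈ D
  xr : s(x, r) ∈ X.E
  ys : s(y, s) ∈ X.E
  c1U : c1 ∈ U
  c2U : c2 ∈ U
  k1 : K2 c1
  k2 : K2 c2
  q1 : TFC.sq x y q p ⊆ c1.edges
  z2 : TFC.sq r s b a ⊆ c2.edges
  /-- a witness of `Q`; it contains the path `r a b s` and not `rs` -/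
  w1 : Wt X P D j (TFC.sq x y q p) L1
  rs1 : s(r, s) ∉ L1
  p1 : P3 (L1 ∩ c2.edges) r a b s
  /-- a witness of `Z`; it contains a path of `c1` between `x` and `y` and not `xy` -/
  w2 : Wt X P D j (TFC.sq r s b a) L2
  xy2 : s(x, y) ∉ L2
  p2 : ∃ e f, P3 (L2 ∩ c1.edges) x e f y

/-- STEP 0: conclusion -/
def Step0 : Prop :=
  ∀ (X : XD) (P : ℕ → Finset (Sym2 ℕ) → Prop) (D : Finset (Finset (Sym2 ℕ))) (j m : ℕ) (S : Finset ℕ)
    (M : ℕ → Finset (Sym2 ℕ)) (CL U : List (Clu ℕ)) (PL : Finset (Sym2 ℕ)) (x y q p r s a b : ℕ)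
    (c1 c2 : Clu ℕ) (L1 L2 : Finset (Sym2 ℕ)),
    LP X P D j S U → V0 X P D j m S M CL U PL x y q p r s a b c1 c2 L1 L2 → s(x, r) ∈ PL ∧ s(y, s) ∈ PL

/-- STEP 1: conclusion (only paths in the near covers) -/
structure C1 (M : ℕ → Finset (Sym2 ℕ)) (c1 c2 : Clu ℕ) (x y q p r s : ℕ) : Prop where
  a : ∃ e f, P3 (M x ∩ c1.edges) x e f p
  c : ∃ u v, P3 (M r ∩ c2.edges) r u v s
  d : (∃ u v, P3 (M s ∩ c2.edges) s u v r) ∨
    ∃ l L, l ≠ y ∧ P3 (M s ∩ c1.edges) x l q p ∧ (c1 = Clu.k2 x q L ∨ c1 = Clu.k2 q x L)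

/-- STEP 1 -/
def Step1 : Prop :=
  ∀ (X : XD) (P : ℕ → Finset (Sym2 ℕ) → Prop) (D : Finset (Finset (Sym2 ℕ))) (j m : ℕ) (S : Finset ℕ)
    (M : ℕ → Finset (Sym2 ℕ)) (CL U : List (Clu ℕ)) (PL : Finset (Sym2 ℕ)) (x y q p r s a b : ℕ)
    (c1 c2 : Clu ℕ) (L1 L2 : Finset (Sym2 ℕ)),
    V0 X P D j m S M CL U PL x y q p r s a b c1 c2 L1 L2 → s(x, r) ∈ PL → s(y, s) ∈ PL →
    C1 M c1 c2 x y q p r s

/-- STEP 2 (world 2): `c1`, `c2` are two clusters (with two centres) of the other world; `xr`, `ys` are not in them -/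
def Step2 : Prop :=
  ∀ (X : XD) (P : ℕ → Finset (Sym2 ℕ) → Prop) (D : Finset (Finset (Sym2 ℕ))) (j m : ℕ) (S : Finset ℕ)
    (M : ℕ → Finset (Sym2 ℕ)) (CL U : List (Clu ℕ)) (PL : Finset (Sym2 ℕ)) (x y q p r s : ℕ)
    (c1 c2 : Clu ℕ), WA X P D j m S M CL U PL → [x, y, q, p, r, s].Nodup → x ∈ S → y ∈ S → r ∈ S → s ∈ S →
    x ∈ X.T → y ∈ X.T → r ∈ X.T → s ∈ X.T → p ∉ X.T → TFC.sq x y s r ∈ D → TFC.sq x y q p ⊆ X.E →
    c1.Valid → c2.Valid → K2 c1 → K2 c2 → TFC.sq x y q p ⊆ c1.edges → s(r, s) ∈ c2.edges →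
    s(x, r) ∉ c1.edges → s(x, r) ∉ c2.edges → s(y, s) ∉ c1.edges → s(y, s) ∉ c2.edges →
    C1 M c1 c2 x y q p r s → False

end Pool.Agent.PF4.XT
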