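import Pool.Agent.PF4.XS1
import Pool.Agent.PF4.XP4

/-!
# STEP 1: the statement `Step1`
-/

set_option autoImplicit false

namespace Pool.Agent.PF4.XS1

open Finset Pool.Agent.TFC Pool.Agent.PF4 Pool.Agent.PF4.LD Pool.Agent.PF4.XC Pool.Agent.PF4.XF Pool.Agent.PF4.XT
  Pool.Agent.PF4.XTg

/-- a path with three edges whose ends are not joined: no square -/
theorem sf_path {c : Clu ℕ} {a b : ℕ} {L : Finset ℕ} (hc : K2c c a b L) {K N : Finset (Sym2 ℕ)} (hK : K ⊆ c.edges)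
    (hN : M2 N) (hKN : K ⊆ N) {u e f v : ℕ} (hp : XT.P3 K u e f v) (huv : s(u, v) ∉ K) : SqFree K := by
  obtain ⟨⟨n1, n2, n3, n4, n5, n6⟩, e1, e2, e3⟩ := hp
  have key : ∀ a b : ℕ, K2c c a b L → (u = a ∨ e = a) → SqFree K := by
    intro a b hc ha
    rcases ha with rfl | rfl
    · -- `u` is a hub
      have heL : e ∈ L := by
        rcases (hc.mem _ _).1 (hK e1) with ⟨_, h1⟩ | ⟨_, h1⟩
        · exact h1
        · exact absurd h1 hc.aL
      have hf : f = b := by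
        rcases (hc.mem _ _).1 (hK e2) with ⟨h1 | h1, _⟩ | ⟨h1 | h1, _⟩
        · exact absurd (h1 ▸ heL) hc.aL
        · exact absurd (h1 ▸ heL) hc.bL
        · exact absurd h1.symm n2
        · exact h1
      subst hf
      refine hc.sqFree hK fun l _ l' _ hne g1 g2 g3 g4 => ?_
      have h1 : ∀ t, s(f, t) ∈ K → t = e ∨ t = v := by
        intro t ht
        by_contra hcon
        rw [not_or] at hcon
        exact three hN (hKN ht) (hKN (by rw [Sym2.eq_swap]; exact e2)) (hKN e3) hcon.1 hcon.2 n5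
      rcases h1 l g2 with rfl | rfl
      · rcases h1 l' g4 with rfl | rfl
        · exact hne rfl
        · exact huv g3
      · exact huv g1
    · -- `e` is a hub
      have huL : u ∈ L := by
        rcases (hc.mem _ _).1 (hK e1) with ⟨_, h1⟩ | ⟨_, h1⟩
        · exact absurd h1 hc.aL
        · exact h1
      have hfL : f ∈ L := by
        rcases (hc.mem _ _).1 (hK e2) with ⟨_, h1⟩ | ⟨_, h1⟩
        · exact h1
        · exact absurd h1 hc.aL
      have hv : v = b := by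
        rcases (hc.mem _ _).1 (hK e3) with ⟨h1 | h1, _⟩ | ⟨h1 | h1, _⟩
        · exact absurd (h1 ▸ hfL) hc.aL
        · exact absurd (h1 ▸ hfL) hc.bL
        · exact absurd h1.symm n5
        · exact h1
      subst hv
      refine hc.sqFree hK fun l _ l' _ hne g1 g2 g3 g4 => ?_
      have h1 : ∀ t, s(e, t) ∈ K → t = u ∨ t = f := by
        intro t ht
        by_contra hcon
        rw [not_or] at hcon
        exact three hN (hKN ht) (hKN (by rw [Sym2.eq_swap]; exact e1)) (hKN e2) hcon.1 hcon.2 n2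
      rcases h1 l g1 with rfl | rfl
      · exact huv (by rw [Sym2.eq_swap]; exact g2)
      · rcases h1 l' g3 with rfl | rfl
        · exact huv (by rw [Sym2.eq_swap]; exact g4)
        · exact hne rfl
  rcases (hc.mem _ _).1 (hK e1) with ⟨h1 | h1, _⟩ | ⟨h1 | h1, _⟩
  · exact key a b hc (Or.inl h1)
  · exact key b a hc.swap (Or.inl h1)
  · exact key a b hc (Or.inr h1)
  · exact key b a hc.swap (Or.inr h1)

theorem k2c_of {c : Clu ℕ} (hv : c.Valid) (h2 : K2 c) : ∃ a b L, K2c c a b L := by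
  obtain ⟨a, b, L, rfl⟩ := h2
  exact ⟨a, b, L, K2c.of hv⟩

section
variable {X : XD} {P : ℕ → Finset (Sym2 ℕ) → Prop} {D : Finset (Finset (Sym2 ℕ))} {j : ℕ} {S : Finset ℕ}
  {M : ℕ → Finset (Sym2 ℕ)} {CL U : List (Clu ℕ)} {PL : Finset (Sym2 ℕ)}
  {pl mi : ℕ → Prop}

/-- a witness is allowed outside of the cluster of its square, if it is square-free in the uncapped clusters -/
theorem out_of {A : Clu ℕ → Finset (Sym2 ℕ) → Prop} {F : Clu ℕ → Prop} (hA : A = Fr D F)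
    (h : PW X P D j S M A CL U PL pl mi) {Z L : Finset (Sym2 ℕ)} (hZ : Z ∈ D) (hL : Wt X P D j Z L) {c : Clu ℕ}
    (hc : c ∈ U) (hZc : Z ⊆ c.edges) (hF : ∀ c' ∈ U, c' ≠ c → F c' → SqFree (L ∩ c'.edges)) : Out A U c L := by
  intro c' hc' hne
  rw [hA]
  refine Fr_of (fun hf => hF c' hc' hne hf) fun _ => ⟨hL.m2.mono Finset.inter_subset_left, fun Z' hZ' hs => ?_⟩
  have h1 := hL.uni Z' hZ' (hs.trans Finset.inter_subset_left)
  subst h1
  obtain ⟨a, b, d, e, _, hZe⟩ := h.isq Z' hZ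
  have he : s(a, b) ∈ Z' := by rw [hZe]; simp [TFC.sq]
  exact hne (h.eqc hc' hc (Finset.mem_inter.1 (hs he)).2 (hZc he))

/-- the witness with an edge `xy` of its square replaced by two plain edges `xr`, `ys` -/
theorem two_add {A : Clu ℕ → Finset (Sym2 ℕ) → Prop} (h : PW X P D j S M A CL U PL pl mi) {Z L : Finset (Sym2 ℕ)}
    (hZ : Z ∈ D) (hL : Wt X P D j Z L) {c : Clu ℕ} (hc : c ∈ U) (hZc : Z ⊆ c.edges) (hAc : AM2 A c)
    (hA : Out A U c L) {x y r s : ℕ} (he : s(x, y) ∈ Z) (hxr : s(x, r) ∈ PL) (hys : s(y, s) ∈ PL) (hrs : r ≠ s)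
    (hxs : x ≠ s) : 1 ≤ con (pl r) (mi r) 1 + con (pl s) (mi s) 1 := by
  have hec := hZc he
  have hxy : x ≠ y := h.ne (h.cW' hc hec)
  have hpl : ∀ e ∈ PL, e ∉ c.edges := fun e he h1 => Finset.disjoint_left.1 (h.plain hc) he h1
  have hxrL : s(x, r) ∉ L := fun hz =>
    hpl _ hxr (hZc (sq_closed hL.m2 (h.isq Z hZ) hL.sq he (y := x) (by simp) hz (by simp)))
  have hysL : s(y, s) ∉ L := fun hz =>
    hpl _ hys (hZc (sq_closed hL.m2 (h.isq Z hZ) hL.sq he (y := y) (by simp) hz (by simp)))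
  obtain ⟨h1, h2⟩ := h.wz_au hZ hL hc hZc hA (F := Z \ {s(x, y)}) (Finset.sdiff_subset.trans hZc)
    (am2_sub hAc (h.isq Z hZ) hZc hL.m2 hL.sq (Finset.singleton_subset_iff.2 he) (by simp))
  have hB : ({s(x, r), s(y, s)} : Finset (Sym2 ℕ)) ⊆ PL := by
    intro e he
    rw [Finset.mem_insert, Finset.mem_singleton] at he
    rcases he with rfl | rfl
    · exact hxr
    · exact hys
  have h3 := h.addp h1 hB
  have hd : Disjoint (((L ∩ (Ucl U ∪ PL)) \ c.edges) ∪ (Z \ {s(x, y)})) ({s(x, r), s(y, s)} : Finset (Sym2 ℕ)) := by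
    rw [Finset.disjoint_right]
    intro e he
    rw [Finset.mem_union, not_or]
    refine ⟨fun h5 => ?_, fun h5 => hpl e (hB he) (hZc (Finset.mem_sdiff.1 h5).1)⟩
    have h6 := (Finset.mem_inter.1 (Finset.mem_sdiff.1 h5).1).1
    rw [Finset.mem_insert, Finset.mem_singleton] at he
    rcases he with rfl | rfl
    · exact hxrL h6
    · exact hysL h6
  have h4 := h.witA Z hZ (fun e he => mem_Ucl.2 ⟨c, hc, hZc he⟩) L hL.mem hL.cov hL.uni _ h3
  have hne : s(x, r) ∉ ({s(y, s)} : Finset (Sym2 ℕ)) := by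
    rw [Finset.mem_singleton, Sym2.eq_iff]
    rintro (⟨h5, _⟩ | ⟨h5, _⟩)
    · exact hxy h5
    · exact hxs h5
  rw [XT.dv_union hd, h2, XT.dv_insert hne, dv_sdiff (Finset.singleton_subset_iff.2 he), dv_pair hxy,
    dv_pair (h.ne (Finset.mem_union_right _ hxr)), dv_pair (h.ne (Finset.mem_union_right _ hys))] at h4
  have e : (dv (L ∩ (Ucl U ∪ PL)) - dv Z + (dv Z - (Pi.single x 1 + Pi.single y 1)) +
      (Pi.single y 1 + Pi.single s 1 + (Pi.single x 1 + Pi.single r 1)) - dv (L ∩ (Ucl U ∪ PL)) : ℕ → ℤ) =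
      Pi.single r 1 + Pi.single s 1 := by abel
  rwa [e, ph_two (h.v2' (Finset.mem_union_right _ hxr) (by simp)) (h.v2' (Finset.mem_union_right _ hys) (by simp))
    hrs] at h4

/-- both vertices have `pl` -/
theorem pl_two {r s : ℕ} (hr : mi r) (hs : mi s) (h : 1 ≤ con (pl r) (mi r) 1 + con (pl s) (mi s) 1) :
    pl r ∧ pl s := by
  have h1 := con_one (pl r) (mi r)
  have h2 := con_one (pl s) (mi s)
  constructor
  · by_contra hc
    rw [con_X hc hr] at h
    omega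
  · by_contra hc
    rw [con_X hc hs] at h
    omega

/-- another leaf of the cluster of a square with free corner is not of type X -/
theorem leaf_nX {A : Clu ℕ → Finset (Sym2 ℕ) → Prop} (h : PW X P D j S M A CL U PL pl mi) {x y q p : ℕ}
    {L : Finset (Sym2 ℕ)} (h4 : Dist4 x y q p) (hZ : TFC.sq x y q p ∈ D) (hL : Wt X P D j (TFC.sq x y q p) L)
    {c : Clu ℕ} (hc : c ∈ U) (hA : ∀ K ⊆ c.edges, A c K ↔ SqFree K) (hO : Out A U c L) {Lv : Finset ℕ}
    (hK : K2c c x q Lv) (hy : y ∈ Lv) (hp : p ∈ Lv) (fp : ¬ mi p) {l : ℕ} (hl : l ∈ Lv) (hly : l ≠ y)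
    (hlp : l ≠ p) (hm : mi l) : pl l := by
  by_contra hpl
  obtain ⟨xy, xq, xp, yq, yp, qp⟩ := h4
  have hlx : l ≠ x := fun e => hK.aL (e ▸ hl)
  have hlq : l ≠ q := fun e => hK.bL (e ▸ hl)
  have exy : s(x, y) ∈ c.edges := (hK.mem _ _).2 (Or.inl ⟨Or.inl rfl, hy⟩)
  have exl : s(x, l) ∈ c.edges := (hK.mem _ _).2 (Or.inl ⟨Or.inl rfl, hl⟩)
  have elq : s(l, q) ∈ c.edges := (hK.mem _ _).2 (Or.inr ⟨Or.inr rfl, hl⟩)
  have eqp : s(q, p) ∈ c.edges := (hK.mem _ _).2 (Or.inl ⟨Or.inr rfl, hp⟩)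
  have eyq : s(y, q) ∈ c.edges := (hK.mem _ _).2 (Or.inr ⟨Or.inr rfl, hy⟩)
  have epx : s(p, x) ∈ c.edges := (hK.mem _ _).2 (Or.inr ⟨Or.inl rfl, hp⟩)
  have hZc : TFC.sq x y q p ⊆ c.edges := by
    intro e he
    simp only [TFC.sq, Finset.mem_insert, Finset.mem_singleton] at he
    rcases he with rfl | rfl | rfl | rfl
    · exact exy
    · exact eyq
    · exact eqp
    · exact epx
  have hF : ({s(x, y), s(x, l), s(l, q), s(q, p)} : Finset (Sym2 ℕ)) ⊆ c.edges := by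
    intro e he
    simp only [Finset.mem_insert, Finset.mem_singleton] at he
    rcases he with rfl | rfl | rfl | rfl
    · exact exy
    · exact exl
    · exact elq
    · exact eqp
  have hSF : SqFree ({s(x, y), s(x, l), s(l, q), s(q, p)} : Finset (Sym2 ℕ)) := by
    refine hK.sqFree hF fun a ha b hb hab g1 g2 g3 g4 => ?_
    have hh : ∀ t ∈ Lv, s(x, t) ∈ ({s(x, y), s(x, l), s(l, q), s(q, p)} : Finset (Sym2 ℕ)) →
        s(q, t) ∈ ({s(x, y), s(x, l), s(l, q), s(q, p)} : Finset (Sym2 ℕ)) → t = l := by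
      intro t ht k1 k2
      have htx : t ≠ x := fun e => hK.aL (e ▸ ht)
      have htq : t ≠ q := fun e => hK.bL (e ▸ ht)
      simp only [Finset.mem_insert, Finset.mem_singleton, Sym2.eq_iff] at k1 k2
      have k3 : t = y ∨ t = l := by
        rcases k1 with (⟨_, k⟩ | ⟨_, k⟩) | (⟨_, k⟩ | ⟨_, k⟩) | (⟨k, _⟩ | ⟨k, _⟩) | (⟨k, _⟩ | ⟨k, _⟩)
        · exact Or.inl k
        · exact absurd k htx
        · exact Or.inr k
        · exact absurd k htx
        · exact absurd k hlx.symm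
        · exact absurd k xq
        · exact absurd k xq
        · exact absurd k xp
      have k4 : t = l ∨ t = p := by
        rcases k2 with (⟨k, _⟩ | ⟨k, _⟩) | (⟨k, _⟩ | ⟨k, _⟩) | (⟨k, _⟩ | ⟨_, k⟩) | (⟨_, k⟩ | ⟨k, _⟩)
        · exact absurd k xq.symm
        · exact absurd k yq.symm
        · exact absurd k xq.symm
        · exact absurd k hlq.symm
        · exact absurd k hlq.symm
        · exact Or.inl k
        · exact Or.inr k
        · exact absurd k qp
      rcases k3 with rfl | k3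
      · rcases k4 with k4 | k4
        · exact k4
        · exact absurd k4 yp
      · exact k3
    exact hab ((hh a ha g1 g2).trans (hh b hb g3 g4).symm)
  have h1 := h.wz hZ hL hc hZc hO hF ((hA _ hF).2 hSF)
  have vl : l ∈ X.V2 := h.v2' (h.cW' hc exl) (by simp)
  have vy : y ∈ X.V2 := h.v2' (h.cW' hc exy) (by simp)
  have vp : p ∈ X.V2 := h.v2' (h.cW' hc eqp) (by simp)
  have n1 : s(x, y) ∉ ({s(x, l), s(l, q), s(q, p)} : Finset (Sym2 ℕ)) := by
    simp only [Finset.mem_insert, Finset.mem_singleton, Sym2.eq_iff, not_or, not_and]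
    exact ⟨⟨fun _ => hly.symm, fun k => absurd k hlx.symm⟩, ⟨fun k => absurd k hlx.symm, fun k => absurd k xq⟩,
      ⟨fun k => absurd k xq, fun k => absurd k xp⟩⟩
  have n2 : s(x, l) ∉ ({s(l, q), s(q, p)} : Finset (Sym2 ℕ)) := by
    simp only [Finset.mem_insert, Finset.mem_singleton, Sym2.eq_iff, not_or, not_and]
    exact ⟨⟨fun k => absurd k hlx.symm, fun k => absurd k xq⟩, ⟨fun k => absurd k xq, fun k => absurd k xp⟩⟩
  have n3 : s(l, q) ∉ ({s(q, p)} : Finset (Sym2 ℕ)) := by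
    simp only [Finset.mem_singleton, Sym2.eq_iff, not_or, not_and]
    exact ⟨fun k => absurd k hlq, fun k => absurd k hlp⟩
  rw [XT.dv_insert n1, XT.dv_insert n2, XT.dv_insert n3, dv_pair xy, dv_pair hlx.symm, dv_pair hlq, dv_pair qp,
    dv_sq ⟨xy, xq, xp, yq, yp, qp⟩] at h1
  have e : (Pi.single q 1 + Pi.single p 1 + (Pi.single l 1 + Pi.single q 1) + (Pi.single x 1 + Pi.single l 1) +
      (Pi.single x 1 + Pi.single y 1) - (ev x + ev x + ev y + ev y + ev q + ev q + ev p + ev p) : ℕ → ℤ) =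
      Pi.single l 2 + Pi.single y (-1) + Pi.single p (-1) := by
    funext v
    simp only [Pi.sub_apply, Pi.add_apply, sgl, ev_apply]
    split_ifs <;> ring
  rw [e, ph_three vl vy vp hly hlp yp, con_X hpl hm] at h1
  have h2 := con_neg_one (pl y) (mi y)
  have h3 := con_neg_one_free (p := pl p) fp
  omega

/-- a path of the cluster in the other form -/
theorem p3_to {c : Clu ℕ} (hn : NoLoop c.edges) {M W : Finset (Sym2 ℕ)} {u a b v : ℕ} (h : P3 c (M ∩ W) u a b v)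
    (huv : u ≠ v) : XT.P3 (M ∩ c.edges) u a b v := by
  have nl : ∀ {s t : ℕ}, s(s, t) ∈ c.edges → s ≠ t := fun he => by
    have := hn _ he
    simpa using this
  exact ⟨⟨nl h.c1, h.ub, huv, nl h.c2, h.av, nl h.c3⟩,
    Finset.mem_inter.2 ⟨(Finset.mem_inter.1 h.e1).1, h.c1⟩, Finset.mem_inter.2 ⟨(Finset.mem_inter.1 h.e2).1, h.c2⟩,
    Finset.mem_inter.2 ⟨(Finset.mem_inter.1 h.e3).1, h.c3⟩⟩

end

/-- **STEP 1** -/
theorem step1 : Step1 := by
  intro X P D j m S M CL U PL x y q p r s a b c1 c2 L1 L2 v hxr hys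
  have hnd := v.nd
  simp only [List.nodup_cons, List.mem_cons, List.not_mem_nil, or_false, not_or, List.nodup_nil, and_true,
    not_false_iff] at hnd
  obtain ⟨⟨xy, xq, xp, xr, xs, xa, xb⟩, ⟨yq, yp, yr, ys, ya, yb⟩, ⟨qp, qr, qs, qa, qb⟩, ⟨pr, ps, pa, pb⟩,
    ⟨rs, ra, rb⟩, ⟨sa, sb⟩, ab⟩ := hnd
  -- the frame
  obtain ⟨pl, mi, h, hmi⟩ := v.wa.fr (fun c => c = c1 ∨ c = c2) (by
    rintro c (rfl | rfl)
    · exact v.k1
    · exact v.k2)
  have A1 : Fr D (fun c => c = c1 ∨ c = c2) c1 = SqFree := Fr_pos (Or.inl rfl)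
  have A2 : Fr D (fun c => c = c1 ∨ c = c2) c2 = SqFree := Fr_pos (Or.inr rfl)
  have a1 : ∀ K ⊆ c1.edges, Fr D (fun c => c = c1 ∨ c = c2) c1 K ↔ SqFree K := fun K _ => by rw [A1]
  have a2 : ∀ K ⊆ c2.edges, Fr D (fun c => c = c1 ∨ c = c2) c2 K ↔ SqFree K := fun K _ => by rw [A2]
  have v1 : c1.Valid := h.val' v.c1U
  have v2 : c2.Valid := h.val' v.c2U
  obtain ⟨g1, g2, G, hG⟩ := k2c_of v1 v.k1
  obtain ⟨g3, g4, G', hG'⟩ := k2c_of v2 v.k2
  have am1 : AM2 (Fr D (fun c => c = c1 ∨ c = c2)) c1 := fun K hK _ hs => by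
    rw [A1]
    exact (XU.sqFree_iff fun e he => hG.nl e (hK he)).2 hs
  have am2 : AM2 (Fr D (fun c => c = c1 ∨ c = c2)) c2 := fun K hK _ hs => by
    rw [A2]
    exact (XU.sqFree_iff fun e he => hG'.nl e (hK he)).2 hs
  have ers : s(r, s) ∈ c2.edges := v.z2 (by simp [TFC.sq])
  have exy : s(x, y) ∈ c1.edges := v.q1 (by simp [TFC.sq])
  have eba : s(b, a) ∈ c2.edges := v.z2 (by simp [TFC.sq])
  -- the witnesses outside of the cluster of their square
  have sf1 : SqFree (L1 ∩ c2.edges) := sf_path hG' Finset.inter_subset_right v.w1.m2 Finset.inter_subset_left v.p1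
    fun h1 => v.rs1 (Finset.mem_inter.1 h1).1
  have sf2 : SqFree (L2 ∩ c1.edges) := by
    obtain ⟨e, f, hp⟩ := v.p2
    exact sf_path hG Finset.inter_subset_right v.w2.m2 Finset.inter_subset_left hp
      fun h1 => v.xy2 (Finset.mem_inter.1 h1).1
  have o1 : Out (Fr D (fun c => c = c1 ∨ c = c2)) U c1 L1 := out_of rfl h v.hQ v.w1 v.c1U v.q1 (by
    rintro c' _ hne (rfl | rfl)
    · exact absurd rfl hne
    · exact sf1)
  have o2 : Out (Fr D (fun c => c = c1 ∨ c = c2)) U c2 L2 := out_of rfl h v.hZ v.w2 v.c2U v.z2 (by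
    rintro c' _ hne (rfl | rfl)
    · exact sf2
    · exact absurd rfl hne)
  -- types
  obtain ⟨plr, pls⟩ := pl_two (hmi r v.rS v.rT) (hmi s v.sS v.sT)
    (two_add h v.hQ v.w1 v.c1U v.q1 am1 o1 (x := x) (y := y) (by simp [TFC.sq]) hxr hys rs xs)
  obtain ⟨plx, ply⟩ := pl_two (hmi x v.xS v.xT) (hmi y v.yS v.yT)
    (two_add h v.hZ v.w2 v.c2U v.z2 am2 o2 (x := r) (y := s) (by simp [TFC.sq])
      (by rw [Sym2.eq_swap]; exact hxr) (by rw [Sym2.eq_swap]; exact hys) xy (Ne.symm yr))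
  have hpn : p < X.n := h.ok.vn p (h.v2' (h.cW' v.c1U (v.q1 (show s(q, p) ∈ TFC.sq x y q p by simp [TFC.sq])))
    (by simp))
  have mip : ¬ mi p := h.free p hpn v.pT
  have plp : ¬ pl p := fun h1 => h.L1Y v.hQ v.w1 v.c1U v.q1 am1 o1 (a := p) (b := x) (by simp [TFC.sq]) ⟨h1, mip⟩
  have tq : ¬ pl q ∧ mi q := by
    obtain ⟨w, ⟨e, he, hwe⟩, h1, h2⟩ := h.L1x v.hQ v.w1 v.c1U v.q1 am1 o1
    have hw : w = x ∨ w = y ∨ w = q ∨ w = p := by
      simp only [TFC.sq, Finset.mem_insert, Finset.mem_singleton] at he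
      rcases he with rfl | rfl | rfl | rfl <;> rw [Sym2.mem_iff] at hwe <;> tauto
    rcases hw with rfl | rfl | rfl | rfl
    · exact absurd plx h2
    · exact absurd ply h2
    · exact ⟨h2, h1⟩
    · exact absurd h1 mip
  -- the shape of the first cluster
  have hub : (∃ L, K2c c1 y p L ∧ x ∈ L ∧ q ∈ L) ∨
      (∃ L, K2c c1 x q L ∧ y ∈ L ∧ p ∈ L ∧ (c1 = Clu.k2 x q L ∨ c1 = Clu.k2 q x L) ∧
        ∀ l ∈ L, l ≠ y → l ≠ p → mi l → pl l) := by
    rcases XF.shape v1 ⟨xy, xq, xp, yq, yp, qp⟩ v.q1 with h1 | ⟨L, h1, h2, h3, _, _⟩ | ⟨L, h1, h2, h3, _, _⟩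
    · obtain ⟨a', b', L', h2⟩ := v.k1
      rw [h1] at h2
      cases h2
    · right
      have hK : K2c c1 x q L := by
        rcases h1 with h1 | h1
        · have := v1
          rw [h1] at this ⊢
          exact K2c.of this
        · have := v1
          rw [h1] at this ⊢
          exact (K2c.of this).swap
      exact ⟨L, hK, h2, h3, h1, fun l hl hly hlp hm =>
        leaf_nX h ⟨xy, xq, xp, yq, yp, qp⟩ v.hQ v.w1 v.c1U a1 o1 hK h2 h3 mip hl hly hlp hm⟩
    · left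
      have hK : K2c c1 y p L := by
        rcases h1 with h1 | h1
        · have := v1
          rw [h1] at this ⊢
          exact K2c.of this
        · have := v1
          rw [h1] at this ⊢
          exact (K2c.of this).swap
      exact ⟨L, hK, h2, h3⟩
  have hS3 : ∀ w, w = x ∨ w = r ∨ w = s → w ∈ S ∧ w ∈ X.T := by
    rintro w (rfl | rfl | rfl)
    · exact ⟨v.xS, v.xT⟩
    · exact ⟨v.rS, v.rT⟩
    · exact ⟨v.sS, v.sT⟩
  have H : S1 X P D j S M (Fr D fun c => c = c1 ∨ c = c2) CL U PL pl mi x y q p r s c1 c2 :=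
    { pw := h
      xy := xy
      xq := xq
      xp := xp
      xr := xr
      xs := xs
      yq := yq
      yp := yp
      yr := yr
      ys := ys
      qp := qp
      qr := qr
      qs := qs
      pr := pr
      ps := ps
      rs := rs
      S3 := hS3
      m2 := fun w hw => (v.wa.ow.nc w (hS3 w hw).1 (hS3 w hw).2).1.m2
      au := fun w hw => ⟨Finset.inter_subset_right, fun c hc => by
        rw [h.interW hc]
        have hcC := ((h.uc c).1 hc).1
        refine Fr_of (fun hf => ?_) fun _ => v.wa.mcap w (hS3 w hw).1 (hS3 w hw).2 c hcC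
        refine v.wa.msf w (hS3 w hw).1 (hS3 w hw).2 c hcC ?_
        rcases hf with rfl | rfl
        · exact v.k1
        · exact v.k2⟩
      u1 := v.c1U
      u2 := v.c2U
      a1 := a1
      a2 := a2
      hub := hub
      ers := ers
      exr := hxr
      eys := hys
      tx := ⟨plx, hmi x v.xS v.xT⟩
      ty := ⟨ply, hmi y v.yS v.yT⟩
      tr := ⟨plr, hmi r v.rS v.rT⟩
      ts := ⟨pls, hmi s v.sS v.sT⟩
      tp := ⟨plp, mip⟩
      tq := tq }
  refine ⟨?_, ?_, ?_⟩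
  · obtain ⟨e, f, hp⟩ := H.sa
    exact ⟨e, f, p3_to hG.nl hp xp⟩
  · obtain ⟨e, f, hp⟩ := H.sc
    exact ⟨e, f, p3_to hG'.nl hp rs⟩
  · rcases H.sef with ⟨e, f, hp⟩ | ⟨L, l, h1, _, h2, hp⟩
    · exact Or.inl ⟨e, f, p3_to hG'.nl hp (Ne.symm rs)⟩
    · exact Or.inr ⟨l, L, h2, p3_to hG.nl hp xp, h1⟩

end Pool.Agent.PF4.XS1
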