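import Pool.Agent.PF4.XV1
import Pool.Agent.PF4.XS1b
import Pool.Agent.PF4.P4S2

/-!
# Pattern p4 with a free corner (Theorem 220222)

`LPall`: Lemma P in all worlds. `V0.of`: the configuration of world 1. `t220222`: a contradiction from two worlds.
-/

set_option autoImplicit false

namespace Pool.Agent.PF4.XT

open Finset Pool.Agent.TFC Pool.Agent.PF4 Pool.Agent.PF4.LD Pool.Agent.PF4.XC Pool.Agent.PF4.XF

/-- Lemma P holds in all worlds -/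
def LPall : Prop :=
  ∀ (X : XD) (P : ℕ → Finset (Sym2 ℕ) → Prop) (D : Finset (Finset (Sym2 ℕ))) (j m : ℕ) (S : Finset ℕ)
    (M : ℕ → Finset (Sym2 ℕ)) (CL U : List (Clu ℕ)) (PL : Finset (Sym2 ℕ)),
    WA X P D j m S M CL U PL → LP X P D j S U

section
variable {X : XD} {P : ℕ → Finset (Sym2 ℕ) → Prop} {D : Finset (Finset (Sym2 ℕ))} {j m : ℕ} {S : Finset ℕ}
  {M : ℕ → Finset (Sym2 ℕ)} {CL U : List (Clu ℕ)} {PL : Finset (Sym2 ℕ)}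

/-- the cluster of a square with a corner in `S` -/
theorem WA.clq (h : WA X P D j m S M CL U PL) {Z : Finset (Sym2 ℕ)} (hZ : Z ∈ D) {u : ℕ} (hu : u ∈ S) {e : Sym2 ℕ}
    (he : e ∈ Z) (hue : u ∈ e) : ∃ c ∈ U, Z ⊆ c.edges := by
  obtain ⟨pl, mi, h1, _⟩ := h.fr (fun _ => False) fun _ h => h.elim
  have hW := h.reg hu (h1.dE Z hZ he) hue
  rcases Finset.mem_union.1 hW with h2 | h2
  · obtain ⟨c, hc, hec⟩ := mem_Ucl.1 h2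
    refine ⟨c, hc, (h1.cls.whole ((h1.uc c).1 hc).1 hZ).resolve_right fun hd => ?_⟩
    exact Finset.disjoint_left.1 hd he hec
  · exact absurd he (((h1.pm e).1 h2).2 Z hZ)

theorem WA.wt (h : WA X P D j m S M CL U PL) {Z : Finset (Sym2 ℕ)} (hZ : Z ∈ D) : ∃ L, Wt X P D j Z L := by
  obtain ⟨pl, mi, h1, _⟩ := h.fr (fun _ => False) fun _ h => h.elim
  exact h1.wt hZ

/-- **the square `r s b a` of Lemma P** -/
theorem WA.sqP (hw : WA X P D j m S M CL U PL) (hLP : LP X P D j S U) {x y q p r s : ℕ}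
    (nd : [x, y, q, p, r, s].Nodup) (xS : x ∈ S) (yS : y ∈ S) (rS : r ∈ S) (sS : s ∈ S) (xT : x ∈ X.T)
    (yT : y ∈ X.T) (rT : r ∈ X.T) (sT : s ∈ X.T) (hQ : TFC.sq x y q p ∈ D) (hxr : s(x, r) ∈ X.E)
    (hrs : s(r, s) ∈ X.E) (hys : s(y, s) ∈ X.E) :
    ∃ a b, [x, y, q, p, r, s, a, b].Nodup ∧ TFC.sq r s b a ∈ D ∧ ∃ c ∈ U, K2 c ∧ s(r, s) ∈ c.edges ∧
      ∃ L, Wt X P D j (TFC.sq x y q p) L ∧ s(r, s) ∉ L ∧ P3 (L ∩ c.edges) r a b s := by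
  obtain ⟨c, hc, hk, hrc, hall⟩ := hLP x y q p r s nd xS yS rS sS xT yT rT sT hQ hxr hrs hys
  obtain ⟨L, hL⟩ := hw.wt hQ
  obtain ⟨h1, a, b, h2, h3⟩ := hall L hL
  obtain ⟨pl, mi, h, _⟩ := hw.fr (fun _ => False) fun _ h => h.elim
  refine ⟨a, b, ?_, h3, c, hc, hk, hrc, L, hL, h1, h2⟩
  obtain ⟨⟨xy, xq, xp, xr, xs⟩, ⟨yq, yp, yr, ys⟩, ⟨qp, qr, qs⟩, ⟨pr, ps⟩, rs⟩ := nd6 nd
  obtain ⟨⟨g1, g2, g3, g4, g5, g6⟩, e1, e2, e3⟩ := h2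
  have e1' := (Finset.mem_inter.1 e1).1
  have e3' := (Finset.mem_inter.1 e3).1
  have key : ∀ z w : ℕ, s(w, z) ∈ L → (∃ e ∈ TFC.sq x y q p, z ∈ e) → (w = r ∨ w = s) → False := by
    rintro z w hz ⟨e, he, hze⟩ hw'
    have h4 := hL.at h.isq hQ he hze hz (by simp)
    rcases hw' with rfl | rfl
    · rcases sq_vert h4 (v := w) (by simp) with h5 | h5 | h5 | h5
      · exact xr h5.symm
      · exact yr h5.symm
      · exact qr h5.symm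
      · exact pr h5.symm
    · rcases sq_vert h4 (v := w) (by simp) with h5 | h5 | h5 | h5
      · exact xs h5.symm
      · exact ys h5.symm
      · exact qs h5.symm
      · exact ps h5.symm
  have vx : ∃ e ∈ TFC.sq x y q p, x ∈ e := ⟨s(x, y), by simp [TFC.sq], by simp⟩
  have vy : ∃ e ∈ TFC.sq x y q p, y ∈ e := ⟨s(x, y), by simp [TFC.sq], by simp⟩
  have vq : ∃ e ∈ TFC.sq x y q p, q ∈ e := ⟨s(y, q), by simp [TFC.sq], by simp⟩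
  have vp : ∃ e ∈ TFC.sq x y q p, p ∈ e := ⟨s(p, x), by simp [TFC.sq], by simp⟩
  have e3'' : s(s, b) ∈ L := by rw [Sym2.eq_swap]; exact e3'
  have xa : x ≠ a := by rintro rfl; exact key x r e1' vx (Or.inl rfl)
  have ya : y ≠ a := by rintro rfl; exact key y r e1' vy (Or.inl rfl)
  have qa : q ≠ a := by rintro rfl; exact key q r e1' vq (Or.inl rfl)
  have pa : p ≠ a := by rintro rfl; exact key p r e1' vp (Or.inl rfl)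
  have xb : x ≠ b := by rintro rfl; exact key x s e3'' vx (Or.inr rfl)
  have yb : y ≠ b := by rintro rfl; exact key y s e3'' vy (Or.inr rfl)
  have qb : q ≠ b := by rintro rfl; exact key q s e3'' vq (Or.inr rfl)
  have pb : p ≠ b := by rintro rfl; exact key p s e3'' vp (Or.inr rfl)
  simp only [List.nodup_cons, List.mem_cons, List.not_mem_nil, or_false, not_or, List.nodup_nil, and_true,
    not_false_eq_true]
  exact ⟨⟨xy, xq, xp, xr, xs, xa, xb⟩, ⟨yq, yp, yr, ys, ya, yb⟩, ⟨qp, qr, qs, qa, qb⟩, ⟨pr, ps, pa, pb⟩,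
    ⟨rs, g1, g2⟩, ⟨g5.symm, g6.symm⟩, g4⟩

end

section
variable {X₁ X₂ : XD} {P₁ P₂ : ℕ → Finset (Sym2 ℕ) → Prop} {D₁ D₂ : Finset (Finset (Sym2 ℕ))}
  {j₁ m₁ j₂ m₂ : ℕ} {S₁ S₂ : Finset ℕ} {M : ℕ → Finset (Sym2 ℕ)}

/-- **Theorem 220222**: `p` free, all other corners of the two squares have demand 2 -/
theorem t220222 (lp : LPall) (h₁ : OW X₁ P₁ D₁ j₁ m₁ S₁ M) (h₂ : OW X₂ P₂ D₂ j₂ m₂ S₂ M) (hT : X₁.T = X₂.T)
    {x y q p r s : ℕ} (nd : [x, y, q, p, r, s].Nodup) (xS : x ∈ S₁) (yS : y ∈ S₁) (rS : r ∈ S₁) (sS : s ∈ S₁)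
    (xS₂ : x ∈ S₂) (yS₂ : y ∈ S₂) (rS₂ : r ∈ S₂) (sS₂ : s ∈ S₂) (xT : x ∈ X₁.T) (yT : y ∈ X₁.T) (rT : r ∈ X₁.T)
    (sT : s ∈ X₁.T) (pT : p ∉ X₁.T) (hQ : TFC.sq x y q p ∈ D₁) (hR : TFC.sq x y s r ∈ D₂)
    (hR₁ : TFC.sq x y s r ⊆ X₁.E) (hQ₂ : TFC.sq x y q p ⊆ X₂.E) : False := by
  obtain ⟨CL, U, PL, wa⟩ := wa_of h₁ ⟨x, xS, xT⟩
  obtain ⟨CL₂, U₂, PL₂, wa₂⟩ := wa_of h₂ ⟨x, xS₂, hT ▸ xT⟩
  have LP₁ := lp _ _ _ _ _ _ _ _ _ _ wa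
  have exr : s(x, r) ∈ X₁.E := hR₁ (by rw [TFC.sq, Sym2.eq_swap (a := x) (b := r)]; simp)
  have ers : s(r, s) ∈ X₁.E := hR₁ (by rw [Sym2.eq_swap]; simp [TFC.sq])
  have eys : s(y, s) ∈ X₁.E := hR₁ (by simp [TFC.sq])
  have exy : s(x, y) ∈ X₁.E := hR₁ (by simp [TFC.sq])
  obtain ⟨a, b, nd', hZ, c2, hc2, k2, hrs2, L1, hL1, hrs, hP1⟩ :=
    wa.sqP LP₁ nd xS yS rS sS xT yT rT sT hQ exr ers eys
  obtain ⟨⟨xy, xq, xp, xr, xs, xa, xb⟩, ⟨yq, yp, yr, ys, ya, yb⟩, ⟨qp, qr, qs, qa, qb⟩, ⟨pr, ps, pa, pb⟩,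
    ⟨rs, ra, rb⟩, ⟨sa, sb⟩, ab⟩ := nd8 nd'
  obtain ⟨pl, mi, h, _⟩ := wa.fr (fun _ => False) fun _ h => h.elim
  have nd2 : [r, s, b, a, x, y].Nodup := by
    simp only [List.nodup_cons, List.mem_cons, List.not_mem_nil, or_false, not_or, List.nodup_nil, and_true,
      not_false_eq_true]
    exact ⟨⟨rs, rb, ra, xr.symm, yr.symm⟩, ⟨sb, sa, xs.symm, ys.symm⟩, ⟨ab.symm, xb.symm, yb.symm⟩,
      ⟨xa.symm, ya.symm⟩, xy⟩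
  obtain ⟨c1, hc1, k1, hxy1, hall⟩ := LP₁ r s b a x y nd2 rS sS xS yS rT sT xT yT hZ
    (by rw [Sym2.eq_swap]; exact exr) exy (by rw [Sym2.eq_swap]; exact eys)
  obtain ⟨L2, hL2⟩ := wa.wt hZ
  obtain ⟨hxy2, e, f, hP2, _⟩ := hall L2 hL2
  have hq1 : TFC.sq x y q p ⊆ c1.edges := (h.cls.whole ((h.uc c1).1 hc1).1 hQ).resolve_right fun hd =>
    Finset.disjoint_left.1 hd (by simp [TFC.sq] : s(x, y) ∈ TFC.sq x y q p) hxy1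
  have hz2 : TFC.sq r s b a ⊆ c2.edges := (h.cls.whole ((h.uc c2).1 hc2).1 hZ).resolve_right fun hd =>
    Finset.disjoint_left.1 hd (by simp [TFC.sq] : s(r, s) ∈ TFC.sq r s b a) hrs2
  have v : V0 X₁ P₁ D₁ j₁ m₁ S₁ M CL U PL x y q p r s a b c1 c2 L1 L2 :=
    ⟨wa, nd', xS, yS, rS, sS, xT, yT, rT, sT, pT, hQ, hZ, exr, eys, hc1, hc2, k1, k2, hq1, hz2, hL1, hrs, hP1,
      hL2, hxy2, e, f, hP2⟩
  have hxrP := v.xrP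
  have hysP := v.ysP
  have hC := XS1.step1 _ _ _ _ _ _ _ _ _ _ _ _ _ _ _ _ _ _ _ _ _ _ v hxrP hysP
  have n : ∀ {g : Sym2 ℕ}, g ∈ PL → ∀ {c : Clu ℕ}, c ∈ U → g ∉ c.edges := fun hg _ hc hgc =>
    Finset.disjoint_left.1 (h.plain hc) hg hgc
  exact step2' wa₂ nd xS₂ yS₂ rS₂ sS₂ (hT ▸ xT) (hT ▸ yT) (hT ▸ rT) (hT ▸ sT) (hT ▸ pT) hR hQ₂ (n hxrP hc1)
    (n hxrP hc2) (n hysP hc2) (fun hc => v.ne (h.eqc hc1 hc2 hxy1 hc)) hC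

end

end Pool.Agent.PF4.XT
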