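import Pool.Agent.PF4.XC
import Pool.Agent.TFC.CE3

/-!
Resolution: two squares of a minimal blocking family do not share exactly one edge.
-/

set_option autoImplicit false
set_option linter.unusedSectionVars false
set_option linter.unusedSimpArgs false
set_option linter.unusedTactic false
set_option linter.unreachableTactic false

namespace Pool.Agent.PF4.XF

open Finset Pool.Agent.TFC Pool.Agent.TFC.CE

namespace Rs

/-- the sum of the degrees is even -/
theorem par_dv {n : ℕ} {K : Finset (Sym2 ℕ)} (hK : NoLoop K) (hn : ∀ e ∈ K, ∀ v ∈ e, v < n) :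
    Even (∑ v ∈ Finset.range (n + 1), dv K v) := by
  rw [dv_eq_sum hK]
  have h : ∑ v ∈ Finset.range (n + 1), (∑ e ∈ K, esum e) v = ∑ _e ∈ K, (2 : ℤ) := by
    simp only [Finset.sum_apply]
    rw [sum_comm]
    refine sum_congr rfl fun e he => ?_
    induction e using Sym2.ind with
    | _ a b =>
      have ha : a < n + 1 := (hn _ he a (by simp)).trans (Nat.lt_succ_self n)
      have hb : b < n + 1 := (hn _ he b (by simp)).trans (Nat.lt_succ_self n)
      simp only [esum_mk, Pi.add_apply, sum_add_distrib, ev_apply]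
      rw [sum_ite_eq', sum_ite_eq', if_pos (mem_range.2 ha), if_pos (mem_range.2 hb)]
      norm_num
  rw [h, sum_const, nsmul_eq_mul]
  exact ⟨(#K : ℤ), by ring⟩

theorem dv_split {L : Finset (Sym2 ℕ)} (hL : NoLoop L) (H : Finset (Sym2 ℕ)) (v : ℕ) :
    dv (L \ H) v + dv (L ∩ H) v = dv L v := by
  have h1 := dv_union (hL.mono (sdiff_subset (s := L) (t := H))) (hL.mono (inter_subset_left (s₁ := L) (s₂ := H)))
    (disjoint_sdiff_inter L H)
  rw [sdiff_union_inter] at h1
  exact (congrFun h1 v).symm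

theorem dg_zero {K : Finset (Sym2 ℕ)} {v : ℕ} (h : ∀ e ∈ K, v ∉ e) : dg K v = 0 := by
  unfold dg
  rw [card_eq_zero, filter_eq_empty_iff]
  exact fun e he => h e he

theorem fit_base {X : XD} (hX : X.OK) {L H : Finset (Sym2 ℕ)} (hM : M2 L) (hE : L ⊆ X.E) (hC : Cv X L)
    (hH : H ⊆ X.E2) : FitK X (L \ H) (dv (L ∩ H)) := by
  have hs := dv_split hM.nl H
  have hz : ∀ v, X.n ≤ v → dv (L ∩ H) v = 0 := by
    intro v hv
    rw [dv_apply, dg_zero]
    · rfl
    · intro e he hve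
      have := hX.lt e (hE (mem_inter.1 he).1) v hve
      omega
  refine ⟨?_, ?_, ?_, Or.inl (hz _ le_rfl), par_dv (hM.nl.mono inter_subset_left) ?_, fun v hv => hz v hv.le⟩
  · intro v hv
    have h1 := hs v
    have h2 := hC v hv
    rw [dv_apply L v, h2] at h1
    push_cast at h1
    linarith
  · intro v _ _
    have h1 := hs v
    have h2 := hM.le v
    rw [dv_apply L v] at h1
    refine ⟨by rw [dv_apply]; exact Nat.cast_nonneg _, ?_⟩
    have h3 : (dg L v : ℤ) ≤ 2 := by exact_mod_cast h2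
    linarith
  · intro v _ hv
    rw [dv_apply, dg_zero]
    · rfl
    · intro e he hve
      exact hv (hX.ev e (hH (mem_inter.1 he).2) v hve)
  · intro e he v hv
    exact hX.lt e (hE (mem_inter.1 he).1) v hv

theorem FitK.le {X : XD} {O : Finset (Sym2 ℕ)} {k : ℕ → ℤ} (h : FitK X O k) {v : ℕ} (hv : v < X.n) :
    dv O v ≤ 2 - k v := by
  by_cases ht : v ∈ X.T
  · rw [h.t v ht]; linarith
  · have := (h.f v hv ht).2
    linarith

/-- the data of a conflict -/
structure Ctx (X : XD) (P : ℕ → Finset (Sym2 ℕ) → Prop) (D : Finset (Finset (Sym2 ℕ))) (j m : ℕ)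
    (L1 L2 Z1 Z2 : Finset (Sym2 ℕ)) : Prop where
  hX : X.OK
  hP : XP X P
  hD : Blk X P D j m
  z1 : Z1 ∈ D
  z2 : Z2 ∈ D
  p1 : P j L1
  p2 : P j L2
  c1 : Cv X L1
  c2 : Cv X L2
  s1 : Z1 ⊆ L1
  s2 : Z2 ⊆ L2
  w1 : ∀ Y ∈ D, Y ⊆ L1 → Y = Z1
  w2 : ∀ Y ∈ D, Y ⊆ L2 → Y = Z2

/-- there is an outer part with demand vector `k` -/
def Out (X : XD) (P : ℕ → Finset (Sym2 ℕ) → Prop) (L1 L2 H : Finset (Sym2 ℕ)) (t : ℕ) (k : ℕ → ℤ) : Prop :=
  ∃ O, P t O ∧ FitK X O k ∧ Disjoint O H ∧ ∀ Y, IsSq Y → Y ⊆ O → Y ⊆ L1 \ H ∨ Y ⊆ L2 \ H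

section
variable {X : XD} {P : ℕ → Finset (Sym2 ℕ) → Prop} {D : Finset (Finset (Sym2 ℕ))} {j m : ℕ}
  {L1 L2 Z1 Z2 H : Finset (Sym2 ℕ)}

theorem Out.mono (hP : XP X P) {s t : ℕ} (h : s ≤ t) {k : ℕ → ℤ} (hk : Out X P L1 L2 H s k) :
    Out X P L1 L2 H t k := by
  obtain ⟨O, h1, h2⟩ := hk
  exact ⟨O, hP.mono' h h1, h2⟩

theorem Out.ex (hP : XP X P) {t : ℕ} {k k' : ℕ → ℤ} (h : Out X P L1 L2 H t k)
    (h' : Out X P L1 L2 H t k') (i : ℕ) (ε : ℤ) (hi : i ∈ X.V2 ∨ i = X.n) (hε : ε = 1 ∨ ε = -1)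
    (h0 : 0 < ε * (k' i - k i)) : ∃ k'', Out X P L1 L2 H (t + 1) k'' ∧ Two k k' k'' i ε := by
  obtain ⟨O, h1, h2, h3, h4⟩ := h
  obtain ⟨O', h1', h2', h3', h4'⟩ := h'
  obtain ⟨O'', k'', g1, g2, g3, g4, g5⟩ := hP.ex t O O' k k' h1 h1' h2 h2' i ε hi hε h0
  refine ⟨k'', ⟨O'', g1, g2, ?_, ?_⟩, g5⟩
  · exact (disjoint_union_left.2 ⟨h3, h3'⟩).mono_left g3
  · intro Y hY hYO
    rcases g4 Y hY hYO with h | h
    · exact h4 Y hY h
    · exact h4' Y hY h

theorem Ctx.hH (C : Ctx X P D j m L1 L2 Z1 Z2) : Z1 ∪ Z2 ⊆ X.E2 :=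
  union_subset (C.hD.hs _ C.z1).2 (C.hD.hs _ C.z2).2

theorem Ctx.out1 (C : Ctx X P D j m L1 L2 Z1 Z2) :
    Out X P L1 L2 (Z1 ∪ Z2) (j + 1) (dv (L1 ∩ (Z1 ∪ Z2))) :=
  ⟨L1 \ (Z1 ∪ Z2), C.hP.del j L1 _ C.p1 C.hH, fit_base C.hX (C.hP.m2 j _ C.p1).1 (C.hP.m2 j _ C.p1).2 C.c1 C.hH,
    sdiff_disjoint, fun _ _ h => Or.inl h⟩

theorem Ctx.out2 (C : Ctx X P D j m L1 L2 Z1 Z2) :
    Out X P L1 L2 (Z1 ∪ Z2) (j + 1) (dv (L2 ∩ (Z1 ∪ Z2))) :=
  ⟨L2 \ (Z1 ∪ Z2), C.hP.del j L2 _ C.p2 C.hH, fit_base C.hX (C.hP.m2 j _ C.p2).1 (C.hP.m2 j _ C.p2).2 C.c2 C.hH,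
    sdiff_disjoint, fun _ _ h => Or.inr h⟩

/-- a completion without new squares is impossible -/
theorem Ctx.complete (C : Ctx X P D j m L1 L2 Z1 Z2) {t : ℕ} (ht : t < j + m) {O K : Finset (Sym2 ℕ)}
    {k : ℕ → ℤ} (hO : P t O) (hk : FitK X O k) (hd : Disjoint O (Z1 ∪ Z2))
    (hsq : ∀ Y, IsSq Y → Y ⊆ O → Y ⊆ L1 \ (Z1 ∪ Z2) ∨ Y ⊆ L2 \ (Z1 ∪ Z2)) (hK : K ⊆ Z1 ∪ Z2)
    (hdv : dv K = k) (hno : M2 (O ∪ K) → ∀ a b c d, Sq (O ∪ K) a b c d → s(a, b) ∉ K) : False := by
  have hKE : K ⊆ X.E2 := hK.trans C.hH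
  have hOE : O ⊆ X.E := (C.hP.m2 t O hO).2
  have hUE : O ∪ K ⊆ X.E := union_subset hOE (hKE.trans C.hX.e2)
  have hdis : Disjoint O K := hd.mono_right hK
  have hU : ∀ v, dv (O ∪ K) v = dv O v + k v := by
    intro v
    rw [dv_union (C.hX.nl.mono hOE) (C.hX.nl.mono (hKE.trans C.hX.e2)) hdis, Pi.add_apply, hdv]
  have hM : M2 (O ∪ K) := by
    refine M2.of_dv (C.hX.nl.mono hUE) fun v => ?_
    by_cases hv : v < X.n
    · rw [hU v]
      have := FitK.le hk hv
      linarith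
    · rw [dv_apply, dg_zero]
      · norm_num
      · intro e he hve
        exact hv (C.hX.lt e (hUE he) v hve)
  have hC : Cv X (O ∪ K) := by
    intro v hv
    have h1 := hU v
    rw [hk.t v hv, dv_apply] at h1
    have h2 : (dg (O ∪ K) v : ℤ) = 2 := by linarith
    exact_mod_cast h2
  have hno' := hno hM
  -- a square of the union lies in `O`
  have key : ∀ Y, IsSq Y → Y ⊆ O ∪ K → Y ⊆ O := by
    rintro Y ⟨a, b, c, d, h4, rfl⟩ hY
    have hs := sq_mem_of_subset h4 rfl hY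
    refine Sq.subset ⟨hs.ac, hs.bd, (mem_union.mp hs.ab).resolve_right (hno' _ _ _ _ hs),
      (mem_union.mp hs.bc).resolve_right (hno' _ _ _ _ hs.rot),
      (mem_union.mp hs.cd).resolve_right (hno' _ _ _ _ hs.rot.rot),
      (mem_union.mp hs.da).resolve_right (hno' _ _ _ _ hs.rot.rot.rot)⟩
  have isq : ∀ Y, Hs X.T Y → IsSq Y := fun Y ⟨a, b, c, d, h, e, _⟩ => ⟨a, b, c, d, h, e⟩
  have hPU : P (t + 1) (O ∪ K) := C.hP.add t O K hO hKE hM fun Y hY hYU => Or.inl (key Y (isq Y hY) hYU)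
  obtain ⟨Y, hYD, hYU⟩ := C.hD.blk (t + 1) (by omega) _ hPU hC
  have hYs := isq Y (C.hD.hs Y hYD).1
  have hYO := key Y hYs hYU
  have hYn : ∃ e, e ∈ Y := by
    obtain ⟨a, b, c, d, _, rfl⟩ := hYs
    exact ⟨s(a, b), by simp [TFC.sq]⟩
  obtain ⟨e, he⟩ := hYn
  rcases hsq Y hYs hYO with h | h
  · have h1 := C.w1 Y hYD (h.trans sdiff_subset)
    have h2 := (mem_sdiff.1 (h he)).2
    rw [h1] at he
    exact h2 (mem_union_left _ he)
  · have h1 := C.w2 Y hYD (h.trans sdiff_subset)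
    have h2 := (mem_sdiff.1 (h he)).2
    rw [h1] at he
    exact h2 (mem_union_right _ he)

end

/-- exchange in few coordinates -/
theorem pull_st {n : ℕ} {f : Fin n → ℕ} (hf : Function.Injective f) (b : ℕ → ℤ) {A B : (ℕ → ℤ) → Prop}
    (hA : ∀ x, A x → ∀ y, A y → ∀ (i : Fin n) (ε : ℤ), (ε = 1 ∨ ε = -1) → 0 < ε * (y (f i) - x (f i)) →
      ∃ z, B z ∧ Two x y z (f i) ε)
    {k l : Fin n → ℤ} (hk : A (b - put f k)) (hl : A (b - put f l)) (i : Fin n) (ε : ℤ)
    (hε : ε = 1 ∨ ε = -1) (hpos : 0 < ε * (l i - k i)) :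
    ∃ (j : Fin n) (δ : ℤ), (δ = 1 ∨ δ = -1) ∧ 0 < δ * (l j - (k + Pi.single i ε : Fin n → ℤ) j) ∧
      B (b - put f (k + Pi.single i ε + Pi.single j δ)) := by
  have h1 : 0 < (-ε) * ((b - put f l : ℕ → ℤ) (f i) - (b - put f k : ℕ → ℤ) (f i)) := by
    simp only [Pi.sub_apply, put_apply hf]
    have : (-ε) * (b (f i) - l i - (b (f i) - k i)) = ε * (l i - k i) := by ring
    rw [this]
    exact hpos
  obtain ⟨z, hz, j, δ, hδ, hj, hm⟩ := hA _ hk _ hl i (-ε) (by omega) h1
  have hr : ∃ j', f j' = j := by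
    by_contra hne
    push Not at hne
    simp only [Pi.add_apply, Pi.sub_apply, put_of_not l hne, put_of_not k hne,
      Pi.single_eq_of_ne (fun e : j = f i => hne i e.symm)] at hj
    simp at hj
  obtain ⟨j', rfl⟩ := hr
  have e1 : (b - put f k + Pi.single (f i) (-ε) : ℕ → ℤ) = b - put f (k + Pi.single i ε) := by
    rw [put_add, put_single, Pi.single_neg]; abel
  refine ⟨j', -δ, by omega, ?_, ?_⟩
  · rw [e1] at hj
    simp only [Pi.sub_apply, put_apply hf] at hj
    have e2 : δ * (b (f j') - l j' - (b (f j') - (k + Pi.single i ε : Fin n → ℤ) j')) =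
        -δ * (l j' - (k + Pi.single i ε : Fin n → ℤ) j') := by ring
    rw [e2] at hj
    exact hj
  · rw [e1] at hm
    rw [put_add, put_single]
    have e3 : b - (put f (k + Pi.single i ε) + (Pi.single (f j') (-δ) : ℕ → ℤ)) =
        b - put f (k + Pi.single i ε) + Pi.single (f j') δ := by
      rw [Pi.single_neg]; abel
    rw [e3, ← hm]
    exact hz

/-- staged jump sets -/
def SJ (A B : Set (Fin 4 → ℤ)) : Prop := ∀ a ∈ A, ∀ b ∈ A, ∀ (i : Fin 4) (ε : ℤ), (ε = 1 ∨ ε = -1) →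
  0 < ε * (b i - a i) → ∃ (j : Fin 4) (δ : ℤ), (δ = 1 ∨ δ = -1) ∧
    0 < δ * (b j - (a + Pi.single i ε : Fin 4 → ℤ) j) ∧ a + Pi.single i ε + Pi.single j δ ∈ B

lemma SJ.step {A B : Set (Fin 4 → ℤ)} (hP : SJ A B) {a b : Fin 4 → ℤ} (ha : a ∈ A) (hb : b ∈ A)
    (i : Fin 4) (ε : ℤ) (hε : ε = 1 ∨ ε = -1) (h : 0 < ε * (b i - a i)) (c : Fin 4 → ℤ)
    (hc : c = a + Pi.single i ε) :
    ∃ j : Fin 4, (c j < b j ∧ c + Pi.single j 1 ∈ B) ∨ (b j < c j ∧ c + Pi.single j (-1) ∈ B) := by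
  obtain ⟨j, δ, hδ, hj, hm⟩ := hP a ha b hb i ε hε h
  rw [← hc] at hj hm
  refine ⟨j, ?_⟩
  rcases hδ with rfl | rfl
  · exact Or.inl ⟨by linarith, hm⟩
  · exact Or.inr ⟨by linarith, hm⟩

theorem four_st {P : ℕ → Set (Fin 4 → ℤ)} (hm : ∀ t, P t ⊆ P (t + 1)) (hJ : ∀ t, SJ (P t) (P (t + 1)))
    (h1 : ![2, 2, 0, 0] ∈ P 0) (h2 : ![0, 0, 2, 2] ∈ P 0) :
    ![1, 1, 0, 0] ∈ P 3 ∨ ![1, 2, 0, 1] ∈ P 3 ∨ ![0, 0, 0, 0] ∈ P 3 ∨ ![0, 1, 0, 1] ∈ P 3 ∨
    ![2, 1, 1, 0] ∈ P 3 ∨ ![1, 1, 2, 2] ∈ P 3 ∨ ![1, 0, 2, 1] ∈ P 3 ∨ ![1, 1, 1, 1] ∈ P 3 ∨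
    ![1, 0, 1, 0] ∈ P 3 := by
  have M2' : P 2 ⊆ P 3 := hm 2
  have M1' : P 1 ⊆ P 3 := (hm 1).trans M2'
  have M3' : P 3 ⊆ P 3 := le_rfl
  have a1 := hm 0 h1
  have a2 := hm 0 h2
  have b1 := hm 1 a1
  by_contra hno
  simp only [not_or] at hno
  obtain ⟨g1, g2, g3, g4, g5, g6, g7, g8, g9⟩ := hno
  have s1 : ![0, 2, 0, 0] ∈ P 1 ∨ ![1, 2, 1, 0] ∈ P 1 := by
    obtain ⟨j, h⟩ := (hJ 0).step h1 h2 0 (-1) (Or.inr rfl) (by decide) ![1, 2, 0, 0] (by decide)
    fin_cases j
    · rcases h with ⟨h, -⟩ | ⟨-, h⟩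
      · exact absurd h (by decide)
      · exact Or.inl (by convert h using 1; decide)
    · rcases h with ⟨h, -⟩ | ⟨-, h⟩
      · exact absurd h (by decide)
      · exact absurd (M1' (by convert h using 1; decide)) g1
    · rcases h with ⟨-, h⟩ | ⟨h, -⟩
      · exact Or.inr (by convert h using 1; decide)
      · exact absurd h (by decide)
    · rcases h with ⟨-, h⟩ | ⟨h, -⟩
      · exact absurd (M1' (by convert h using 1; decide)) g2
      · exact absurd h (by decide)
  rcases s1 with k1 | k1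
  · have s2 : ![0, 1, 1, 0] ∈ P 2 := by
      obtain ⟨j, h⟩ := (hJ 1).step k1 a2 1 (-1) (Or.inr rfl) (by decide) ![0, 1, 0, 0] (by decide)
      fin_cases j
      · rcases h with ⟨h, -⟩ | ⟨h, -⟩
        · exact absurd h (by decide)
        · exact absurd h (by decide)
      · rcases h with ⟨h, -⟩ | ⟨-, h⟩
        · exact absurd h (by decide)
        · exact absurd (M2' (by convert h using 1; decide)) g3
      · rcases h with ⟨-, h⟩ | ⟨h, -⟩
        · convert h using 1; decide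
        · exact absurd h (by decide)
      · rcases h with ⟨-, h⟩ | ⟨h, -⟩
        · exact absurd (M2' (by convert h using 1; decide)) g4
        · exact absurd h (by decide)
    obtain ⟨j, h⟩ := (hJ 2).step b1 s2 1 (-1) (Or.inr rfl) (by decide) ![2, 1, 0, 0] (by decide)
    fin_cases j
    · rcases h with ⟨h, -⟩ | ⟨-, h⟩
      · exact absurd h (by decide)
      · exact absurd (M3' (by convert h using 1; decide)) g1
    · rcases h with ⟨h, -⟩ | ⟨h, -⟩
      · exact absurd h (by decide)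
      · exact absurd h (by decide)
    · rcases h with ⟨-, h⟩ | ⟨h, -⟩
      · exact absurd (M3' (by convert h using 1; decide)) g5
      · exact absurd h (by decide)
    · rcases h with ⟨h, -⟩ | ⟨h, -⟩
      · exact absurd h (by decide)
      · exact absurd h (by decide)
  · have s2 : ![1, 0, 1, 2] ∈ P 2 := by
      obtain ⟨j, h⟩ := (hJ 1).step a2 k1 0 1 (Or.inl rfl) (by decide) ![1, 0, 2, 2] (by decide)
      fin_cases j
      · rcases h with ⟨h, -⟩ | ⟨h, -⟩
        · exact absurd h (by decide)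
        · exact absurd h (by decide)
      · rcases h with ⟨-, h⟩ | ⟨h, -⟩
        · exact absurd (M2' (by convert h using 1; decide)) g6
        · exact absurd h (by decide)
      · rcases h with ⟨h, -⟩ | ⟨-, h⟩
        · exact absurd h (by decide)
        · convert h using 1; decide
      · rcases h with ⟨h, -⟩ | ⟨-, h⟩
        · exact absurd h (by decide)
        · exact absurd (M2' (by convert h using 1; decide)) g7
    obtain ⟨j, h⟩ := (hJ 2).step s2 (hm 1 k1) 3 (-1) (Or.inr rfl) (by decide) ![1, 0, 1, 1] (by decide)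
    fin_cases j
    · rcases h with ⟨h, -⟩ | ⟨h, -⟩
      · exact absurd h (by decide)
      · exact absurd h (by decide)
    · rcases h with ⟨-, h⟩ | ⟨h, -⟩
      · exact absurd (M3' (by convert h using 1; decide)) g8
      · exact absurd h (by decide)
    · rcases h with ⟨h, -⟩ | ⟨h, -⟩
      · exact absurd h (by decide)
      · exact absurd h (by decide)
    · rcases h with ⟨h, -⟩ | ⟨-, h⟩
      · exact absurd h (by decide)
      · exact absurd (M3' (by convert h using 1; decide)) g9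


/-- the data, six vertices -/
structure Dat6 (X : XD) (P : ℕ → Finset (Sym2 ℕ) → Prop) (D : Finset (Finset (Sym2 ℕ))) (j m : ℕ)
    (L1 L2 : Finset (Sym2 ℕ)) (x y p q r t : ℕ) : Prop where
  ctx : Ctx X P D j m L1 L2 (TFC.sq x y q p) (TFC.sq x y r t)
  hm : 10 ≤ m
  six : Six x y p q r t

section six

variable {X : XD} {P : ℕ → Finset (Sym2 ℕ) → Prop} {D : Finset (Finset (Sym2 ℕ))} {j m : ℕ}
  {L1 L2 : Finset (Sym2 ℕ)} {x y p q r t : ℕ}

/-- the demand vector: degree 2 at all six vertices -/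
def bas6 (x y p q r t : ℕ) : ℕ → ℤ := fun v => 2 * ev x v + 2 * ev y v + 2 * ev p v + 2 * ev q v +
  2 * ev r v + 2 * ev t v

/-- outer part with given degrees at `p, q, r, t` -/
def O6 (X : XD) (P : ℕ → Finset (Sym2 ℕ) → Prop) (L1 L2 : Finset (Sym2 ℕ)) (x y p q r t : ℕ) (s : ℕ)
    (k : Fin 4 → ℤ) : Prop :=
  Out X P L1 L2 (TFC.sq x y q p ∪ TFC.sq x y r t) s (bas6 x y p q r t - put ![p, q, r, t] k)

theorem dem6 (k : Fin 4 → ℤ) (v : ℕ) : (bas6 x y p q r t - put ![p, q, r, t] k) v =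
    2 * ev x v + 2 * ev y v + (2 - k 0) * ev p v +
      (2 - k 1) * ev q v + (2 - k 2) * ev r v + (2 - k 3) * ev t v := by
  rw [Pi.sub_apply, put4, bas6]
  simp
  ring

/-- completion for a given outer part -/
lemma completeO (D : Dat6 X P D j m L1 L2 x y p q r t) {k : Fin 4 → ℤ} {s : ℕ} (hs : s ≤ j + 4)
    {O : Finset (Sym2 ℕ)} (hO : P s O) (hk : FitK X O (bas6 x y p q r t - put ![p, q, r, t] k))
    (hd : Disjoint O (TFC.sq x y q p ∪ TFC.sq x y r t))
    (hsq : ∀ Y, IsSq Y → Y ⊆ O → Y ⊆ L1 \ (TFC.sq x y q p ∪ TFC.sq x y r t) ∨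
      Y ⊆ L2 \ (TFC.sq x y q p ∪ TFC.sq x y r t))
    (l : List (Sym2 ℕ)) (hn : l.Nodup) (hl : ∀ e ∈ l, ¬ e.IsDiag)
    (hlH : ∀ e ∈ l, e ∈ TFC.sq x y q p ∪ TFC.sq x y r t)
    (hsum : ∀ v, (l.map esum).sum v = 2 * ev x v + 2 * ev y v + (2 - k 0) * ev p v +
      (2 - k 1) * ev q v + (2 - k 2) * ev r v + (2 - k 3) * ev t v)
    (hno : M2 (O ∪ l.toFinset) → ∀ a b c d, Sq (O ∪ l.toFinset) a b c d → s(a, b) ∉ l.toFinset) :
    False := by
  have := D.hm
  refine D.ctx.complete (t := s) (by omega) hO hk hd hsq (K := l.toFinset) ?_ ?_ hno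
  · intro e he
    exact hlH e (List.mem_toFinset.mp he)
  · funext v
    rw [dv_list hn hl, hsum v, dem6]

lemma complete (D : Dat6 X P D j m L1 L2 x y p q r t) {k : Fin 4 → ℤ} {s : ℕ} (hs : s ≤ j + 4)
    (h : O6 X P L1 L2 x y p q r t s k)
    (l : List (Sym2 ℕ)) (hn : l.Nodup) (hl : ∀ e ∈ l, ¬ e.IsDiag)
    (hlH : ∀ e ∈ l, e ∈ TFC.sq x y q p ∪ TFC.sq x y r t)
    (hsum : ∀ v, (l.map esum).sum v = 2 * ev x v + 2 * ev y v + (2 - k 0) * ev p v +
      (2 - k 1) * ev q v + (2 - k 2) * ev r v + (2 - k 3) * ev t v)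
    (hno : ∀ O, Disjoint O (TFC.sq x y q p ∪ TFC.sq x y r t) → M2 (O ∪ l.toFinset) →
      ∀ a b c d, Sq (O ∪ l.toFinset) a b c d → s(a, b) ∉ l.toFinset) :
    False := by
  obtain ⟨O, hO, hk, hd, hsq⟩ := h
  exact completeO D hs hO hk hd hsq l hn hl hlH hsum (hno O hd)

/-- completion by a connected set with at least five vertices -/
lemma complete5 (D : Dat6 X P D j m L1 L2 x y p q r t) {k : Fin 4 → ℤ} {s : ℕ} (hs : s ≤ j + 4)
    (h : O6 X P L1 L2 x y p q r t s k)
    (l : List (Sym2 ℕ)) (hn : l.Nodup) (hl : ∀ e ∈ l, ¬ e.IsDiag)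
    (hlH : ∀ e ∈ l, e ∈ TFC.sq x y q p ∪ TFC.sq x y r t)
    (hsum : ∀ v, (l.map esum).sum v = 2 * ev x v + 2 * ev y v + (2 - k 0) * ev p v +
      (2 - k 1) * ev q v + (2 - k 2) * ev r v + (2 - k 3) * ev t v)
    (v : Fin 5 → ℕ) (hv : Function.Injective v) (h01 : s(v 0, v 1) ∈ l) (h12 : s(v 1, v 2) ∈ l)
    (h23 : s(v 2, v 3) ∈ l) (h34 : s(v 3, v 4) ∈ l) (hcov : ∀ e ∈ l, ∃ i, v i ∈ e) :
    False := by
  refine complete D hs h l hn hl hlH hsum fun O _ hM => ?_
  have hm : ∀ {e}, e ∈ l → e ∈ O ∪ l.toFinset := fun he =>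
    mem_union_right _ (List.mem_toFinset.mpr he)
  exact fin5 hM hv (hm h01) (hm h12) (hm h23) (hm h34) fun e he => hcov e (List.mem_toFinset.mp he)

lemma c1100 (D : Dat6 X P D j m L1 L2 x y p q r t) {s : ℕ} (hs : s ≤ j + 4)
    (h : O6 X P L1 L2 x y p q r t s ![1, 1, 0, 0]) : False := by
  have s6 := D.six
  refine complete5 D hs h [s(p, x), s(t, x), s(r, t), s(y, r), s(y, q)] ?_ ?_ ?_ ?_ ![p, x, t, r, y] ?_ ?_ ?_ ?_ ?_ ?_
  · simp [Sym2.eq_iff, s6.all]
  · simp [Sym2.eq_iff, s6.all]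
  · intro e he
    simp only [List.mem_cons, List.not_mem_nil, or_false] at he
    rcases he with he | he | he | he | he <;> subst he <;> simp [TFC.sq]
  · intro v
    simp
    ring
  · (intro i j hij; fin_cases i <;> fin_cases j <;> first | rfl | (exfalso; revert hij; simp [Sym2.eq_iff, s6.all]))
  · simp [Sym2.eq_iff, s6.all]
  · simp [Sym2.eq_iff, s6.all]
  · simp [Sym2.eq_iff, s6.all]
  · simp [Sym2.eq_iff, s6.all]
  · intro e he
    simp only [List.mem_cons, List.not_mem_nil, or_false] at he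
    rcases he with he | he | he | he | he <;> subst he <;>
      first | (refine ⟨0, ?_⟩; simp; done) | (refine ⟨1, ?_⟩; simp; done) | (refine ⟨2, ?_⟩; simp; done) |
        (refine ⟨3, ?_⟩; simp; done) | (refine ⟨4, ?_⟩; simp; done)

lemma c0011 (D : Dat6 X P D j m L1 L2 x y p q r t) {s : ℕ} (hs : s ≤ j + 4)
    (h : O6 X P L1 L2 x y p q r t s ![0, 0, 1, 1]) : False := by
  have s6 := D.six
  refine complete5 D hs h [s(t, x), s(p, x), s(q, p), s(y, q), s(y, r)] ?_ ?_ ?_ ?_ ![t, x, p, q, y] ?_ ?_ ?_ ?_ ?_ ?_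
  · simp [Sym2.eq_iff, s6.all]
  · simp [Sym2.eq_iff, s6.all]
  · intro e he
    simp only [List.mem_cons, List.not_mem_nil, or_false] at he
    rcases he with he | he | he | he | he <;> subst he <;> simp [TFC.sq]
  · intro v
    simp
    ring
  · (intro i j hij; fin_cases i <;> fin_cases j <;> first | rfl | (exfalso; revert hij; simp [Sym2.eq_iff, s6.all]))
  · simp [Sym2.eq_iff, s6.all]
  · simp [Sym2.eq_iff, s6.all]
  · simp [Sym2.eq_iff, s6.all]
  · simp [Sym2.eq_iff, s6.all]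
  · intro e he
    simp only [List.mem_cons, List.not_mem_nil, or_false] at he
    rcases he with he | he | he | he | he <;> subst he <;>
      first | (refine ⟨0, ?_⟩; simp; done) | (refine ⟨1, ?_⟩; simp; done) | (refine ⟨2, ?_⟩; simp; done) |
        (refine ⟨3, ?_⟩; simp; done) | (refine ⟨4, ?_⟩; simp; done)

lemma c0000 (D : Dat6 X P D j m L1 L2 x y p q r t) {s : ℕ} (hs : s ≤ j + 4)
    (h : O6 X P L1 L2 x y p q r t s ![0, 0, 0, 0]) : False := by
  have s6 := D.six
  refine complete5 D hs h [s(p, x), s(t, x), s(r, t), s(y, r), s(y, q), s(q, p)] ?_ ?_ ?_ ?_ ![p, x, t, r, y] ?_ ?_ ?_ ?_ ?_ ?_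
  · simp [Sym2.eq_iff, s6.all]
  · simp [Sym2.eq_iff, s6.all]
  · intro e he
    simp only [List.mem_cons, List.not_mem_nil, or_false] at he
    rcases he with he | he | he | he | he | he <;> subst he <;> simp [TFC.sq]
  · intro v
    simp
    ring
  · (intro i j hij; fin_cases i <;> fin_cases j <;> first | rfl | (exfalso; revert hij; simp [Sym2.eq_iff, s6.all]))
  · simp [Sym2.eq_iff, s6.all]
  · simp [Sym2.eq_iff, s6.all]
  · simp [Sym2.eq_iff, s6.all]
  · simp [Sym2.eq_iff, s6.all]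
  · intro e he
    simp only [List.mem_cons, List.not_mem_nil, or_false] at he
    rcases he with he | he | he | he | he | he <;> subst he <;>
      first | (refine ⟨0, ?_⟩; simp; done) | (refine ⟨1, ?_⟩; simp; done) | (refine ⟨2, ?_⟩; simp; done) |
        (refine ⟨3, ?_⟩; simp; done) | (refine ⟨4, ?_⟩; simp; done)

lemma c1201 (D : Dat6 X P D j m L1 L2 x y p q r t) {s : ℕ} (hs : s ≤ j + 4)
    (h : O6 X P L1 L2 x y p q r t s ![1, 2, 0, 1]) : False := by
  have s6 := D.six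
  refine complete5 D hs h [s(r, t), s(y, r), s(x, y), s(p, x)] ?_ ?_ ?_ ?_ ![t, r, y, x, p] ?_ ?_ ?_ ?_ ?_ ?_
  · simp [Sym2.eq_iff, s6.all]
  · simp [Sym2.eq_iff, s6.all]
  · intro e he
    simp only [List.mem_cons, List.not_mem_nil, or_false] at he
    rcases he with he | he | he | he <;> subst he <;> simp [TFC.sq]
  · intro v
    simp
    ring
  · (intro i j hij; fin_cases i <;> fin_cases j <;> first | rfl | (exfalso; revert hij; simp [Sym2.eq_iff, s6.all]))
  · simp [Sym2.eq_iff, s6.all]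
  · simp [Sym2.eq_iff, s6.all]
  · simp [Sym2.eq_iff, s6.all]
  · simp [Sym2.eq_iff, s6.all]
  · intro e he
    simp only [List.mem_cons, List.not_mem_nil, or_false] at he
    rcases he with he | he | he | he <;> subst he <;>
      first | (refine ⟨0, ?_⟩; simp; done) | (refine ⟨1, ?_⟩; simp; done) | (refine ⟨2, ?_⟩; simp; done) |
        (refine ⟨3, ?_⟩; simp; done) | (refine ⟨4, ?_⟩; simp; done)

lemma c2110 (D : Dat6 X P D j m L1 L2 x y p q r t) {s : ℕ} (hs : s ≤ j + 4)
    (h : O6 X P L1 L2 x y p q r t s ![2, 1, 1, 0]) : False := by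
  have s6 := D.six
  refine complete5 D hs h [s(r, t), s(t, x), s(x, y), s(y, q)] ?_ ?_ ?_ ?_ ![r, t, x, y, q] ?_ ?_ ?_ ?_ ?_ ?_
  · simp [Sym2.eq_iff, s6.all]
  · simp [Sym2.eq_iff, s6.all]
  · intro e he
    simp only [List.mem_cons, List.not_mem_nil, or_false] at he
    rcases he with he | he | he | he <;> subst he <;> simp [TFC.sq]
  · intro v
    simp
    ring
  · (intro i j hij; fin_cases i <;> fin_cases j <;> first | rfl | (exfalso; revert hij; simp [Sym2.eq_iff, s6.all]))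
  · simp [Sym2.eq_iff, s6.all]
  · simp [Sym2.eq_iff, s6.all]
  · simp [Sym2.eq_iff, s6.all]
  · simp [Sym2.eq_iff, s6.all]
  · intro e he
    simp only [List.mem_cons, List.not_mem_nil, or_false] at he
    rcases he with he | he | he | he <;> subst he <;>
      first | (refine ⟨0, ?_⟩; simp; done) | (refine ⟨1, ?_⟩; simp; done) | (refine ⟨2, ?_⟩; simp; done) |
        (refine ⟨3, ?_⟩; simp; done) | (refine ⟨4, ?_⟩; simp; done)

lemma c1021 (D : Dat6 X P D j m L1 L2 x y p q r t) {s : ℕ} (hs : s ≤ j + 4)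
    (h : O6 X P L1 L2 x y p q r t s ![1, 0, 2, 1]) : False := by
  have s6 := D.six
  refine complete5 D hs h [s(q, p), s(y, q), s(x, y), s(t, x)] ?_ ?_ ?_ ?_ ![p, q, y, x, t] ?_ ?_ ?_ ?_ ?_ ?_
  · simp [Sym2.eq_iff, s6.all]
  · simp [Sym2.eq_iff, s6.all]
  · intro e he
    simp only [List.mem_cons, List.not_mem_nil, or_false] at he
    rcases he with he | he | he | he <;> subst he <;> simp [TFC.sq]
  · intro v
    simp
    ring
  · (intro i j hij; fin_cases i <;> fin_cases j <;> first | rfl | (exfalso; revert hij; simp [Sym2.eq_iff, s6.all]))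
  · simp [Sym2.eq_iff, s6.all]
  · simp [Sym2.eq_iff, s6.all]
  · simp [Sym2.eq_iff, s6.all]
  · simp [Sym2.eq_iff, s6.all]
  · intro e he
    simp only [List.mem_cons, List.not_mem_nil, or_false] at he
    rcases he with he | he | he | he <;> subst he <;>
      first | (refine ⟨0, ?_⟩; simp; done) | (refine ⟨1, ?_⟩; simp; done) | (refine ⟨2, ?_⟩; simp; done) |
        (refine ⟨3, ?_⟩; simp; done) | (refine ⟨4, ?_⟩; simp; done)

lemma c0101 (D : Dat6 X P D j m L1 L2 x y p q r t) {s : ℕ} (hs : s ≤ j + 4)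
    (h : O6 X P L1 L2 x y p q r t s ![0, 1, 0, 1]) : False := by
  have s6 := D.six
  refine complete5 D hs h [s(q, p), s(p, x), s(x, y), s(y, r), s(r, t)] ?_ ?_ ?_ ?_ ![q, p, x, y, r] ?_ ?_ ?_ ?_ ?_ ?_
  · simp [Sym2.eq_iff, s6.all]
  · simp [Sym2.eq_iff, s6.all]
  · intro e he
    simp only [List.mem_cons, List.not_mem_nil, or_false] at he
    rcases he with he | he | he | he | he <;> subst he <;> simp [TFC.sq]
  · intro v
    simp
    ring
  · (intro i j hij; fin_cases i <;> fin_cases j <;> first | rfl | (exfalso; revert hij; simp [Sym2.eq_iff, s6.all]))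
  · simp [Sym2.eq_iff, s6.all]
  · simp [Sym2.eq_iff, s6.all]
  · simp [Sym2.eq_iff, s6.all]
  · simp [Sym2.eq_iff, s6.all]
  · intro e he
    simp only [List.mem_cons, List.not_mem_nil, or_false] at he
    rcases he with he | he | he | he | he <;> subst he <;>
      first | (refine ⟨0, ?_⟩; simp; done) | (refine ⟨1, ?_⟩; simp; done) | (refine ⟨2, ?_⟩; simp; done) |
        (refine ⟨3, ?_⟩; simp; done) | (refine ⟨4, ?_⟩; simp; done)

lemma c1010 (D : Dat6 X P D j m L1 L2 x y p q r t) {s : ℕ} (hs : s ≤ j + 4)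
    (h : O6 X P L1 L2 x y p q r t s ![1, 0, 1, 0]) : False := by
  have s6 := D.six
  refine complete5 D hs h [s(q, p), s(y, q), s(x, y), s(t, x), s(r, t)] ?_ ?_ ?_ ?_ ![p, q, y, x, t] ?_ ?_ ?_ ?_ ?_ ?_
  · simp [Sym2.eq_iff, s6.all]
  · simp [Sym2.eq_iff, s6.all]
  · intro e he
    simp only [List.mem_cons, List.not_mem_nil, or_false] at he
    rcases he with he | he | he | he | he <;> subst he <;> simp [TFC.sq]
  · intro v
    simp
    ring
  · (intro i j hij; fin_cases i <;> fin_cases j <;> first | rfl | (exfalso; revert hij; simp [Sym2.eq_iff, s6.all]))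
  · simp [Sym2.eq_iff, s6.all]
  · simp [Sym2.eq_iff, s6.all]
  · simp [Sym2.eq_iff, s6.all]
  · simp [Sym2.eq_iff, s6.all]
  · intro e he
    simp only [List.mem_cons, List.not_mem_nil, or_false] at he
    rcases he with he | he | he | he | he <;> subst he <;>
      first | (refine ⟨0, ?_⟩; simp; done) | (refine ⟨1, ?_⟩; simp; done) | (refine ⟨2, ?_⟩; simp; done) |
        (refine ⟨3, ?_⟩; simp; done) | (refine ⟨4, ?_⟩; simp; done)

lemma c1122 (D : Dat6 X P D j m L1 L2 x y p q r t) {s : ℕ} (hs : s ≤ j + 4)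
    (h : O6 X P L1 L2 x y p q r t s ![1, 1, 2, 2]) : False := by
  have s6 := D.six
  refine complete D hs h [s(p, x), s(x, y), s(y, q)] ?_ ?_ ?_ ?_ ?_
  · simp [Sym2.eq_iff, s6.all]
  · simp [Sym2.eq_iff, s6.all]
  · intro e he
    simp only [List.mem_cons, List.not_mem_nil, or_false] at he
    rcases he with he | he | he <;> subst he <;> simp [TFC.sq]
  · intro v
    simp
    ring
  · intro O hO hM
    refine fin4 hM (v := ![p, x, y, q]) ?_ ?_ ?_ ?_ ?_ ?_
    · (intro i j hij; fin_cases i <;> fin_cases j <;> first | rfl | (exfalso; revert hij; simp [Sym2.eq_iff, s6.all]))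
    · simp [Sym2.eq_iff, s6.all]
    · simp [Sym2.eq_iff, s6.all]
    · simp [Sym2.eq_iff, s6.all]
    · intro h1
      rcases mem_union.mp h1 with h1 | h1
      · refine disjoint_left.mp hO h1 ?_
        simp [TFC.sq]
      · revert h1
        simp [Sym2.eq_iff, s6.all]
    · intro e he
      rw [List.mem_toFinset] at he
      simp only [List.mem_cons, List.not_mem_nil, or_false] at he
      rcases he with he | he | he <;> subst he <;>
        first | (refine ⟨0, ?_⟩; simp; done) | (refine ⟨1, ?_⟩; simp; done) | (refine ⟨2, ?_⟩; simp; done) |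
          (refine ⟨3, ?_⟩; simp; done)

lemma c1111 (D : Dat6 X P D j m L1 L2 x y p q r t) {s : ℕ} (hs : s ≤ j + 4)
    (h : O6 X P L1 L2 x y p q r t s ![1, 1, 1, 1]) : False := by
  have s6 := D.six
  obtain ⟨O, hO, hk, hd, hsq⟩ := h
  have hOH : ∀ e ∈ O, e ∉ TFC.sq x y q p ∪ TFC.sq x y r t := fun e he => disjoint_left.mp hd he
  have hlt : ∀ e ∈ TFC.sq x y q p, ∀ v ∈ e, v < X.n := fun e he v hv =>
    D.ctx.hX.lt e (D.ctx.hX.e2 (D.ctx.hH (mem_union_left _ he))) v hv
  -- no edge of the outer part at `x` or `y`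
  have hx : ∀ m, s(x, m) ∉ O := by
    intro m hm
    have h1 := FitK.le hk (hlt s(x, y) (by simp [TFC.sq]) x (by simp))
    rw [dem6] at h1
    have h2 : 0 < dg O x := by
      rw [dg, card_pos]
      exact ⟨_, mem_filter.mpr ⟨hm, by simp⟩⟩
    simp [dv_apply, ev_apply, s6.xy, s6.xp, s6.xq, s6.xr, s6.xt, s6.xy.symm, s6.xp.symm, s6.xq.symm,
      s6.xr.symm, s6.xt.symm] at h1
    omega
  have hy : ∀ m, s(y, m) ∉ O := by
    intro m hm
    have h1 := FitK.le hk (hlt s(x, y) (by simp [TFC.sq]) y (by simp))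
    rw [dem6] at h1
    have h2 : 0 < dg O y := by
      rw [dg, card_pos]
      exact ⟨_, mem_filter.mpr ⟨hm, by simp⟩⟩
    simp [dv_apply, ev_apply, s6.xy, s6.yp, s6.yq, s6.yr, s6.yt, s6.xy.symm, s6.yp.symm, s6.yq.symm,
      s6.yr.symm, s6.yt.symm] at h1
    omega
  -- the second completion
  have second : ∀ m, (s(p, m) ∈ O ∧ s(t, m) ∈ O) ∨ (s(q, m) ∈ O ∧ s(r, m) ∈ O) →
      False := by
    intro m hm
    refine completeO (k := ![1, 1, 1, 1]) D hs hO hk hd hsq [s(t, x), s(x, y), s(y, r), s(q, p)] ?_ ?_ ?_ ?_ ?_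
    · simp [Sym2.eq_iff, s6.all]
    · simp [Sym2.eq_iff, s6.all]
    · intro e he
      simp only [List.mem_cons, List.not_mem_nil, or_false] at he
      rcases he with he | he | he | he <;> subst he <;> simp [TFC.sq]
    · intro v
      simp
      ring
    · intro hM a b c d hs hab
      rw [List.mem_toFinset] at hab
      have f4 := fin4 hM (v := ![t, x, y, r]) (P := {s(t, x), s(x, y), s(y, r)}) (by (intro i j hij; fin_cases i <;> fin_cases j <;> first | rfl | (exfalso; revert hij; simp [Sym2.eq_iff, s6.all])))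
        (by simp [Sym2.eq_iff, s6.all]) (by simp [Sym2.eq_iff, s6.all]) (by simp [Sym2.eq_iff, s6.all]) (by
          intro h1
          rcases mem_union.mp h1 with h1 | h1
          · refine hOH _ h1 ?_
            simp [TFC.sq]
          · revert h1
            simp [Sym2.eq_iff, s6.all]) (by
          intro e he
          simp only [mem_insert, mem_singleton] at he
          rcases he with he | he | he <;> subst he <;>
            first | (refine ⟨0, ?_⟩; simp; done) | (refine ⟨1, ?_⟩; simp; done) | (refine ⟨2, ?_⟩; simp; done)) a b c d hs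
      have hab2 : s(a, b) = s(q, p) := by
        simp only [List.mem_cons, List.not_mem_nil, or_false] at hab
        simp only [mem_insert, mem_singleton, not_or] at f4
        tauto
      rcases hm with ⟨h1, h2⟩ | ⟨h1, h2⟩
      · have mx : m ≠ x := by rintro rfl; exact hx p (msw h1)
        have mp : m ≠ p := by rintro rfl; exact (hM.nl.mono subset_union_left).ne h1 rfl
        have mt : m ≠ t := by rintro rfl; exact (hM.nl.mono subset_union_left).ne h2 rfl
        have mq : m ≠ q := by rintro rfl; exact hOH _ h1 (by simp [TFC.sq])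
        refine fin5 hM (v := ![q, p, m, t, x]) (P := {s(q, p)}) ?_ ?_ ?_ ?_ ?_ ?_ a b c d hs ?_
        · intro i j hij
          fin_cases i <;> fin_cases j <;> first | rfl | (exfalso; revert hij; simp [mx, mp, mt, mq, mx.symm, mp.symm, mt.symm, mq.symm, s6.all])
        · simp [Sym2.eq_iff, s6.all]
        · exact mem_union_left _ h1
        · exact mem_union_left _ (msw h2)
        · simp [Sym2.eq_iff, s6.all]
        · intro e he
          rw [mem_singleton] at he
          subst he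
          exact ⟨0, by simp⟩
        · rw [hab2]; simp
      · have my : m ≠ y := by rintro rfl; exact hy q (msw h1)
        have mq : m ≠ q := by rintro rfl; exact (hM.nl.mono subset_union_left).ne h1 rfl
        have mr : m ≠ r := by rintro rfl; exact (hM.nl.mono subset_union_left).ne h2 rfl
        have mp : m ≠ p := by rintro rfl; exact hOH _ h1 (by simp [TFC.sq])
        refine fin5 hM (v := ![p, q, m, r, y]) (P := {s(q, p)}) ?_ ?_ ?_ ?_ ?_ ?_ a b c d hs ?_
        · intro i j hij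
          fin_cases i <;> fin_cases j <;> first | rfl | (exfalso; revert hij; simp [my, mp, mr, mq, my.symm, mp.symm, mr.symm, mq.symm, s6.all])
        · simp [Sym2.eq_iff, s6.all]
        · exact mem_union_left _ h1
        · exact mem_union_left _ (msw h2)
        · simp [Sym2.eq_iff, s6.all]
        · intro e he
          rw [mem_singleton] at he
          subst he
          exact ⟨0, by simp⟩
        · rw [hab2]; simp
  by_cases hsec : ∃ m, (s(p, m) ∈ O ∧ s(t, m) ∈ O) ∨ (s(q, m) ∈ O ∧ s(r, m) ∈ O)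
  · obtain ⟨m, hm⟩ := hsec
    exact second m hm
  · refine completeO (k := ![1, 1, 1, 1]) D hs hO hk hd hsq [s(t, x), s(p, x), s(y, r), s(y, q)] ?_ ?_ ?_ ?_ ?_
    · simp [Sym2.eq_iff, s6.all]
    · simp [Sym2.eq_iff, s6.all]
    · intro e he
      simp only [List.mem_cons, List.not_mem_nil, or_false] at he
      rcases he with he | he | he | he <;> subst he <;> simp [TFC.sq]
    · intro v
      simp
      ring
    · intro hM a b c d hs hab
      rw [List.mem_toFinset] at hab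
      -- no square contains `x`
      have nx : ¬ (x = a ∨ x = b ∨ x = c ∨ x = d) := by
        intro hxm
        obtain ⟨m, hmx, h1, h2⟩ := hs.opp hM (u := x) (v := p) (w := t) hxm (by simp [Sym2.eq_iff, s6.all]) (by simp [Sym2.eq_iff, s6.all]) s6.pt
        refine hsec ⟨m, Or.inl ⟨?_, ?_⟩⟩
        · refine (mem_union.mp h1).resolve_right fun h3 => ?_
          revert h3
          simp [Sym2.eq_iff, s6.all]
          exact hmx
        · refine (mem_union.mp h2).resolve_right fun h3 => ?_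
          revert h3
          simp [Sym2.eq_iff, s6.all]
          exact hmx
      have ny : ¬ (y = a ∨ y = b ∨ y = c ∨ y = d) := by
        intro hym
        obtain ⟨m, hmy, h1, h2⟩ := hs.opp hM (u := y) (v := q) (w := r) hym (by simp [Sym2.eq_iff, s6.all]) (by simp [Sym2.eq_iff, s6.all]) s6.qr
        refine hsec ⟨m, Or.inr ⟨?_, ?_⟩⟩
        · refine (mem_union.mp h1).resolve_right fun h3 => ?_
          revert h3
          simp [Sym2.eq_iff, s6.all]
          exact hmy
        · refine (mem_union.mp h2).resolve_right fun h3 => ?_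
          revert h3
          simp [Sym2.eq_iff, s6.all]
          exact hmy
      simp only [List.mem_cons, List.not_mem_nil, or_false, Sym2.eq_iff] at hab
      rcases hab with (⟨h1, h2⟩ | ⟨h1, h2⟩) | (⟨h1, h2⟩ | ⟨h1, h2⟩) | (⟨h1, h2⟩ | ⟨h1, h2⟩) | (⟨h1, h2⟩ | ⟨h1, h2⟩)
      · exact nx (Or.inr (Or.inl h2.symm))
      · exact nx (Or.inl h1.symm)
      · exact nx (Or.inr (Or.inl h2.symm))
      · exact nx (Or.inl h1.symm)
      · exact ny (Or.inl h1.symm)
      · exact ny (Or.inr (Or.inl h2.symm))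
      · exact ny (Or.inl h1.symm)
      · exact ny (Or.inr (Or.inl h2.symm))

lemma interF (D : Dat6 X P D j m L1 L2 x y p q r t) {e : Sym2 ℕ} (h1 : e ∈ L1)
    (h2 : e ∈ TFC.sq x y q p ∪ TFC.sq x y r t) : e ∈ TFC.sq x y q p ∨ e = s(r, t) := by
  have s6 := D.six
  have hM := (D.ctx.hP.m2 j _ D.ctx.p1).1
  have q1 : s(x, y) ∈ L1 := D.ctx.s1 (by simp [TFC.sq])
  have q2 : s(y, q) ∈ L1 := D.ctx.s1 (by simp [TFC.sq])
  have q4 : s(p, x) ∈ L1 := D.ctx.s1 (by simp [TFC.sq])
  rcases mem_union.mp h2 with h2 | h2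
  · exact Or.inl h2
  · simp only [TFC.sq, mem_insert, mem_singleton] at h2
    rcases h2 with rfl | rfl | rfl | rfl
    · left; simp [TFC.sq]
    · exfalso
      rcases nbr_two (hM.le y) (msw q1) q2 s6.xq h1 with h | h
      · exact s6.xr h.symm
      · exact s6.qr h.symm
    · right; rfl
    · exfalso
      rcases nbr_two (hM.le x) q1 (msw q4) s6.yp (msw h1) with h | h
      · exact s6.yt h.symm
      · exact s6.pt h.symm

lemma interN (D : Dat6 X P D j m L1 L2 x y p q r t) {e : Sym2 ℕ} (h1 : e ∈ L2)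
    (h2 : e ∈ TFC.sq x y q p ∪ TFC.sq x y r t) : e ∈ TFC.sq x y r t ∨ e = s(q, p) := by
  have s6 := D.six
  have hM := (D.ctx.hP.m2 j _ D.ctx.p2).1
  have q1 : s(x, y) ∈ L2 := D.ctx.s2 (by simp [TFC.sq])
  have q2 : s(y, r) ∈ L2 := D.ctx.s2 (by simp [TFC.sq])
  have q4 : s(t, x) ∈ L2 := D.ctx.s2 (by simp [TFC.sq])
  rcases mem_union.mp h2 with h2 | h2
  · simp only [TFC.sq, mem_insert, mem_singleton] at h2
    rcases h2 with rfl | rfl | rfl | rfl
    · left; simp [TFC.sq]
    · exfalso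
      rcases nbr_two (hM.le y) (msw q1) q2 s6.xr h1 with h | h
      · exact s6.xq h.symm
      · exact s6.qr h
    · right; rfl
    · exfalso
      rcases nbr_two (hM.le x) q1 (msw q4) s6.yt (msw h1) with h | h
      · exact s6.yp h.symm
      · exact s6.pt h
  · exact Or.inl h2

lemma outerF1 (D : Dat6 X P D j m L1 L2 x y p q r t) (h : s(r, t) ∈ L1) :
    O6 X P L1 L2 x y p q r t (j + 1) ![0, 0, 1, 1] := by
  have s6 := D.six
  have hd : Dist4 x y q p := ⟨s6.xy, s6.xq, s6.xp, s6.yq, s6.yp, s6.pq.symm⟩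
  have hrt : s(r, t) ∉ TFC.sq x y q p := by
    simp [TFC.sq, Sym2.eq_iff, s6.xr.symm, s6.xt.symm, s6.yr.symm, s6.yt.symm, s6.pr.symm, s6.pt.symm,
      s6.qr.symm, s6.qt.symm]
  have e : L1 ∩ (TFC.sq x y q p ∪ TFC.sq x y r t) = insert s(r, t) (TFC.sq x y q p) := by
    ext e
    simp only [mem_inter]
    constructor
    · rintro ⟨h1, h2⟩
      rcases interF D h1 h2 with h3 | h3
      · exact mem_insert_of_mem h3
      · rw [h3]; exact mem_insert_self _ _
    · intro h3
      rcases mem_insert.mp h3 with rfl | h3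
      · exact ⟨h, mem_union_right _ (by simp [TFC.sq])⟩
      · exact ⟨D.ctx.s1 h3, mem_union_left _ h3⟩
  have ho := D.ctx.out1
  rw [e] at ho
  unfold O6
  convert ho using 1
  funext v
  rw [dem6, dv_insert s6.rt hrt, Pi.add_apply, Pi.add_apply, dv_sq hd]
  simp
  ring

lemma outerF2 (D : Dat6 X P D j m L1 L2 x y p q r t) (h : s(r, t) ∉ L1) :
    O6 X P L1 L2 x y p q r t (j + 1) ![0, 0, 2, 2] := by
  have s6 := D.six
  have hd : Dist4 x y q p := ⟨s6.xy, s6.xq, s6.xp, s6.yq, s6.yp, s6.pq.symm⟩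
  have e : L1 ∩ (TFC.sq x y q p ∪ TFC.sq x y r t) = TFC.sq x y q p := by
    ext e
    simp only [mem_inter]
    constructor
    · rintro ⟨h1, h2⟩
      rcases interF D h1 h2 with h3 | h3
      · exact h3
      · rw [h3] at h1; exact absurd h1 h
    · intro h3
      exact ⟨D.ctx.s1 h3, mem_union_left _ h3⟩
  have ho := D.ctx.out1
  rw [e] at ho
  unfold O6
  convert ho using 1
  funext v
  rw [dem6, dv_sq hd]
  simp
  ring

lemma outerN1 (D : Dat6 X P D j m L1 L2 x y p q r t) (h : s(q, p) ∈ L2) :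
    O6 X P L1 L2 x y p q r t (j + 1) ![1, 1, 0, 0] := by
  have s6 := D.six
  have hd : Dist4 x y r t := ⟨s6.xy, s6.xr, s6.xt, s6.yr, s6.yt, s6.rt⟩
  have hrt : s(q, p) ∉ TFC.sq x y r t := by
    simp [TFC.sq, Sym2.eq_iff, s6.xq.symm, s6.xp.symm, s6.yq.symm, s6.yp.symm, s6.pr, s6.pt,
      s6.qr, s6.qt]
  have e : L2 ∩ (TFC.sq x y q p ∪ TFC.sq x y r t) = insert s(q, p) (TFC.sq x y r t) := by
    ext e
    simp only [mem_inter]
    constructor
    · rintro ⟨h1, h2⟩
      rcases interN D h1 h2 with h3 | h3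
      · exact mem_insert_of_mem h3
      · rw [h3]; exact mem_insert_self _ _
    · intro h3
      rcases mem_insert.mp h3 with rfl | h3
      · exact ⟨h, mem_union_left _ (by simp [TFC.sq])⟩
      · exact ⟨D.ctx.s2 h3, mem_union_right _ h3⟩
  have ho := D.ctx.out2
  rw [e] at ho
  unfold O6
  convert ho using 1
  funext v
  rw [dem6, dv_insert s6.pq.symm hrt, Pi.add_apply, Pi.add_apply, dv_sq hd]
  simp
  ring

lemma outerN2 (D : Dat6 X P D j m L1 L2 x y p q r t) (h : s(q, p) ∉ L2) :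
    O6 X P L1 L2 x y p q r t (j + 1) ![2, 2, 0, 0] := by
  have s6 := D.six
  have hd : Dist4 x y r t := ⟨s6.xy, s6.xr, s6.xt, s6.yr, s6.yt, s6.rt⟩
  have e : L2 ∩ (TFC.sq x y q p ∪ TFC.sq x y r t) = TFC.sq x y r t := by
    ext e
    simp only [mem_inter]
    constructor
    · rintro ⟨h1, h2⟩
      rcases interN D h1 h2 with h3 | h3
      · exact h3
      · rw [h3] at h1; exact absurd h1 h
    · intro h3
      exact ⟨D.ctx.s2 h3, mem_union_right _ h3⟩
  have ho := D.ctx.out2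
  rw [e] at ho
  unfold O6
  convert ho using 1
  funext v
  rw [dem6, dv_sq hd]
  simp

/-- **resolution, six vertices** -/
theorem ce6 (D : Dat6 X P D j m L1 L2 x y p q r t) : False := by
  have s6 := D.six
  by_cases h1 : s(r, t) ∈ L1
  · exact c0011 D (by omega) (outerF1 D h1)
  by_cases h2 : s(q, p) ∈ L2
  · exact c1100 D (by omega) (outerN1 D h2)
  have hf : Function.Injective ![p, q, r, t] := by (intro i j hij; fin_cases i <;> fin_cases j <;> first | rfl | (exfalso; revert hij; simp [Sym2.eq_iff, s6.all]))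
  have hV : ∀ i, ![p, q, r, t] i ∈ X.V2 := by
    have hv : ∀ e ∈ TFC.sq x y q p ∪ TFC.sq x y r t, ∀ v ∈ e, v ∈ X.V2 := fun e he v hv =>
      D.ctx.hX.ev e (D.ctx.hH he) v hv
    intro i
    fin_cases i
    · exact hv s(q, p) (by simp [TFC.sq]) p (by simp)
    · exact hv s(q, p) (by simp [TFC.sq]) q (by simp)
    · exact hv s(r, t) (by simp [TFC.sq]) r (by simp)
    · exact hv s(r, t) (by simp [TFC.sq]) t (by simp)
  have h := four_st (P := fun s => {k | O6 X P L1 L2 x y p q r t (j + 1 + s) k})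
    (fun s k hk => Out.mono D.ctx.hP (by omega) hk)
    (by
      intro s k hk l hl i ε hε hpos
      exact pull_st hf (bas6 x y p q r t)
        (A := fun k => Out X P L1 L2 (TFC.sq x y q p ∪ TFC.sq x y r t) (j + 1 + s) k)
        (B := fun k => Out X P L1 L2 (TFC.sq x y q p ∪ TFC.sq x y r t) (j + 1 + (s + 1)) k)
        (fun a ha b hb i' ε' hε' h0 => Out.ex D.ctx.hP ha hb _ ε' (Or.inl (hV i')) hε' h0)
        hk hl i ε hε hpos)
    (outerN2 D h2) (outerF2 D h1)
  rcases h with h | h | h | h | h | h | h | h | h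
  · exact c1100 D (by omega) h
  · exact c1201 D (by omega) h
  · exact c0000 D (by omega) h
  · exact c0101 D (by omega) h
  · exact c2110 D (by omega) h
  · exact c1122 D (by omega) h
  · exact c1021 D (by omega) h
  · exact c1111 D (by omega) h
  · exact c1010 D (by omega) h

end six

section five

variable {X : XD} {P : ℕ → Finset (Sym2 ℕ) → Prop} {D : Finset (Finset (Sym2 ℕ))} {j m : ℕ}
  {L1 L2 : Finset (Sym2 ℕ)} {x y p q r : ℕ}

/-- **resolution, five vertices** -/
theorem ce5 (C : Ctx X P D j m L1 L2 (TFC.sq x y q p) (TFC.sq x y r q)) (hm : 10 ≤ m)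
    (s5 : Five x y p q r) : False := by
  have hdQ : Dist4 x y q p := ⟨s5.xy, s5.xq, s5.xp, s5.yq, s5.yp, s5.pq.symm⟩
  have hdR : Dist4 x y r q := ⟨s5.xy, s5.xr, s5.xq, s5.yr, s5.yq, s5.qr.symm⟩
  have m1 := (C.hP.m2 j _ C.p1).1
  have m2 := (C.hP.m2 j _ C.p2).1
  have f1 : s(x, y) ∈ L1 := C.s1 (by simp [TFC.sq])
  have f2 : s(y, q) ∈ L1 := C.s1 (by simp [TFC.sq])
  have f3 : s(q, p) ∈ L1 := C.s1 (by simp [TFC.sq])
  have f4 : s(p, x) ∈ L1 := C.s1 (by simp [TFC.sq])
  have n1 : s(x, y) ∈ L2 := C.s2 (by simp [TFC.sq])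
  have n2 : s(y, r) ∈ L2 := C.s2 (by simp [TFC.sq])
  have n3 : s(r, q) ∈ L2 := C.s2 (by simp [TFC.sq])
  have n4 : s(q, x) ∈ L2 := C.s2 (by simp [TFC.sq])
  set H := TFC.sq x y q p ∪ TFC.sq x y r q with hH
  have eF : L1 ∩ H = TFC.sq x y q p := by
    ext e
    simp only [mem_inter]
    constructor
    · rintro ⟨h1, h3⟩
      rcases mem_union.mp h3 with h3 | h3
      · exact h3
      · simp only [TFC.sq, mem_insert, mem_singleton] at h3
        rcases h3 with rfl | rfl | rfl | rfl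
        · simp [TFC.sq]
        · exfalso
          rcases nbr_two (m1.le y) (msw f1) f2 s5.xq h1 with h | h
          · exact s5.xr h.symm
          · exact s5.qr h.symm
        · exfalso
          rcases nbr_two (m1.le q) (msw f2) f3 s5.yp (msw h1) with h | h
          · exact s5.yr h.symm
          · exact s5.pr h.symm
        · exfalso
          rcases nbr_two (m1.le x) f1 (msw f4) s5.yp (msw h1) with h | h
          · exact s5.yq h.symm
          · exact s5.pq h.symm
    · intro h3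
      exact ⟨C.s1 h3, mem_union_left _ h3⟩
  have eN : L2 ∩ H = TFC.sq x y r q := by
    ext e
    simp only [mem_inter]
    constructor
    · rintro ⟨h1, h3⟩
      rcases mem_union.mp h3 with h3 | h3
      · simp only [TFC.sq, mem_insert, mem_singleton] at h3
        rcases h3 with rfl | rfl | rfl | rfl
        · simp [TFC.sq]
        · exfalso
          rcases nbr_two (m2.le y) (msw n1) n2 s5.xr h1 with h | h
          · exact s5.xq h.symm
          · exact s5.qr h
        · exfalso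
          rcases nbr_two (m2.le q) (msw n3) n4 s5.xr.symm h1 with h | h
          · exact s5.pr h
          · exact s5.xp h.symm
        · exfalso
          rcases nbr_two (m2.le x) n1 (msw n4) s5.yq (msw h1) with h | h
          · exact s5.yp h.symm
          · exact s5.pq h
      · exact h3
    · intro h3
      exact ⟨C.s2 h3, mem_union_right _ h3⟩
  let base : ℕ → ℤ := fun v => 2 * ev x v + 2 * ev y v + 2 * ev q v + 2 * ev p v + 2 * ev r v
  have hf : Function.Injective ![p, r] := by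
    intro i j hij
    fin_cases i <;> fin_cases j <;> first | rfl | (exfalso; revert hij; simp [Sym2.eq_iff, s5.all])
  have hV : ∀ i, ![p, r] i ∈ X.V2 := by
    have hv : ∀ e ∈ H, ∀ v ∈ e, v ∈ X.V2 := fun e he v hv => C.hX.ev e (C.hH he) v hv
    intro i
    fin_cases i
    · exact hv s(q, p) (by simp [hH, TFC.sq]) p (by simp)
    · exact hv s(y, r) (by simp [hH, TFC.sq]) r (by simp)
  have o1 : Out X P L1 L2 H (j + 1) (base - put ![p, r] ![0, 2]) := by
    have ho := C.out1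
    rw [← hH, eF] at ho
    convert ho using 1
    funext v
    rw [dv_sq hdQ, Pi.sub_apply, put2]
    simp [base]
  have o2 : Out X P L1 L2 H (j + 1) (base - put ![p, r] ![2, 0]) := by
    have ho := C.out2
    rw [← hH, eN] at ho
    convert ho using 1
    funext v
    rw [dv_sq hdR, Pi.sub_apply, put2]
    simp [base]
    ring
  obtain ⟨i, δ, hδ, hpos, hmem⟩ := pull_st hf base
    (A := fun k => Out X P L1 L2 H (j + 1) k) (B := fun k => Out X P L1 L2 H (j + 1 + 1) k)
    (fun a ha b hb i' ε' hε' h0 => Out.ex C.hP ha hb _ ε' (Or.inl (hV i')) hε' h0)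
    o1 o2 0 1 (Or.inl rfl) (by simp)
  fin_cases i
  · -- (2,2): a triangle
    have hδ1 : δ = 1 := by
      rcases hδ with h | h
      · exact h
      · subst h
        simp at hpos
    subst hδ1
    have e22 : (![0, 2] + Pi.single 0 1 + Pi.single (0 : Fin 2) (1 : ℤ) : Fin 2 → ℤ) = ![2, 2] := by
      funext i
      fin_cases i <;> simp [Matrix.vecHead, Matrix.vecTail]
    have hmem' : Out X P L1 L2 H (j + 1 + 1) (base - put ![p, r] ![2, 2]) := by
      rw [← e22]; exact hmem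
    obtain ⟨O, hO, hk, hd, hsq⟩ := hmem'
    refine C.complete (t := j + 1 + 1) (by omega) hO hk hd hsq (K := [s(x, y), s(y, q), s(q, x)].toFinset) ?_ ?_ ?_
    · intro e he
      rw [List.mem_toFinset] at he
      simp only [List.mem_cons, List.not_mem_nil, or_false] at he
      rcases he with he | he | he <;> subst he <;> simp [TFC.sq]
    · funext v
      rw [dv_list, Pi.sub_apply, put2]
      · simp [base]
        ring
      · simp [Sym2.eq_iff, s5.all]
      · simp [Sym2.eq_iff, s5.all]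
    · intro hM a b c d hs hab
      have e1 : s(x, y) ∈ O ∪ [s(x, y), s(y, q), s(q, x)].toFinset := by simp
      have e2 : s(y, q) ∈ O ∪ [s(x, y), s(y, q), s(q, x)].toFinset := by simp
      have e3 : s(q, x) ∈ O ∪ [s(x, y), s(y, q), s(q, x)].toFinset := by simp
      let I : ℕ → Prop := fun u => u = a ∨ u = b ∨ u = c ∨ u = d
      have hcl : ∀ u w, I u → s(u, w) ∈ O ∪ [s(x, y), s(y, q), s(q, x)].toFinset → I w :=
        fun u w hu huw => hs.closed hM hu huw
      have hx : I x := by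
        rw [List.mem_toFinset] at hab
        simp only [List.mem_cons, List.not_mem_nil, or_false, Sym2.eq_iff] at hab
        rcases hab with (⟨h1, h2⟩ | ⟨h1, h2⟩) | (⟨h1, h2⟩ | ⟨h1, h2⟩) | (⟨h1, h2⟩ | ⟨h1, h2⟩)
        · exact Or.inl h1.symm
        · exact Or.inr (Or.inl h2.symm)
        · exact hcl y x (Or.inl h1.symm) (msw e1)
        · exact hcl y x (Or.inr (Or.inl h2.symm)) (msw e1)
        · exact Or.inr (Or.inl h2.symm)
        · exact Or.inl h1.symm
      obtain ⟨m, hmx, h1, h2⟩ := hs.opp hM (u := x) (v := y) (w := q) hx e1 (msw e3) s5.yq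
      rcases nbr_two (hM.le y) (msw e1) e2 s5.xq h1 with h | h
      · exact hmx h
      · subst h
        exact hM.nl.ne h2 rfl
  · -- (1,1): a path
    have hδ1 : δ = -1 := by
      rcases hδ with h | h
      · subst h
        simp at hpos
      · exact h
    subst hδ1
    have e11 : (![0, 2] + Pi.single 0 1 + Pi.single (1 : Fin 2) (-1 : ℤ) : Fin 2 → ℤ) = ![1, 1] := by
      funext i
      fin_cases i <;> simp [Matrix.vecHead, Matrix.vecTail]
    have hmem' : Out X P L1 L2 H (j + 1 + 1) (base - put ![p, r] ![1, 1]) := by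
      rw [← e11]; exact hmem
    obtain ⟨O, hO, hk, hd, hsq⟩ := hmem'
    refine C.complete (t := j + 1 + 1) (by omega) hO hk hd hsq
      (K := [s(p, x), s(x, y), s(y, q), s(q, r)].toFinset) ?_ ?_ ?_
    · intro e he
      rw [List.mem_toFinset] at he
      simp only [List.mem_cons, List.not_mem_nil, or_false] at he
      rcases he with he | he | he | he <;> subst he <;> simp [TFC.sq]
    · funext v
      rw [dv_list, Pi.sub_apply, put2]
      · simp [base]
        ring
      · simp [Sym2.eq_iff, s5.all]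
      · simp [Sym2.eq_iff, s5.all]
    · intro hM
      refine fin5 hM (v := ![p, x, y, q, r]) ?_ ?_ ?_ ?_ ?_ ?_
      · intro i j hij
        fin_cases i <;> fin_cases j <;> first | rfl | (exfalso; revert hij; simp [Sym2.eq_iff, s5.all])
      · simp
      · simp
      · simp
      · simp
      · intro e he
        rw [List.mem_toFinset] at he
        simp only [List.mem_cons, List.not_mem_nil, or_false] at he
        rcases he with he | he | he | he <;> subst he <;>
          first | (refine ⟨0, ?_⟩; simp; done) | (refine ⟨1, ?_⟩; simp; done) | (refine ⟨2, ?_⟩; simp; done) |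
            (refine ⟨3, ?_⟩; simp; done) | (refine ⟨4, ?_⟩; simp; done)

end five

end Rs

/-- **resolution**: two squares of a minimal blocking family do not share exactly one edge -/
theorem res {X : XD} {P : ℕ → Finset (Sym2 ℕ) → Prop} {D : Finset (Finset (Sym2 ℕ))} {j m : ℕ}
    (hX : X.OK) (hP : XP X P) (hD : Blk X P D j m) (hm : 10 ≤ m) :
    ∀ Z ∈ D, ∀ Z' ∈ D, Z ≠ Z' → #(Z ∩ Z') ≠ 1 := by
  intro Q hQD R hRD hne h1
  obtain ⟨L1, p1, c1, s1, w1⟩ := hD.wit Q hQD
  obtain ⟨L2, p2, c2, s2, w2⟩ := hD.wit R hRD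
  have isq : ∀ Y, Hs X.T Y → IsSq Y := fun Y ⟨a, b, c, d, h, e, _⟩ => ⟨a, b, c, d, h, e⟩
  have hQ := isq Q (hD.hs Q hQD).1
  have hR := isq R (hD.hs R hRD).1
  obtain ⟨e, he⟩ := card_eq_one.mp h1
  induction e using Sym2.ind with
  | _ x y =>
  have hmem : ∀ e', e' ∈ Q → e' ∈ R → e' = s(x, y) := by
    intro e' h h'
    have : e' ∈ Q ∩ R := mem_inter.mpr ⟨h, h'⟩
    rw [he, mem_singleton] at this
    exact this
  have hxy : s(x, y) ∈ Q ∩ R := by rw [he]; exact mem_singleton_self _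
  obtain ⟨q, p, ⟨xy, xq, xp, yq, yp, qp⟩, rfl⟩ := isSq_first hQ (mem_inter.mp hxy).1
  obtain ⟨r, t, ⟨-, xr, xt, yr, yt, rt⟩, rfl⟩ := isSq_first hR (mem_inter.mp hxy).2
  have hqr : q ≠ r := by
    rintro rfl
    have := hmem s(y, q) (by simp [TFC.sq]) (by simp [TFC.sq])
    rw [Sym2.eq_iff] at this
    rcases this with ⟨h1, -⟩ | ⟨-, h2⟩
    · exact xy h1.symm
    · exact xq h2.symm
  have hpt : p ≠ t := by
    rintro rfl
    have := hmem s(p, x) (by simp [TFC.sq]) (by simp [TFC.sq])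
    rw [Sym2.eq_iff] at this
    rcases this with ⟨h1, -⟩ | ⟨h2, -⟩
    · exact xp h1.symm
    · exact yp h2.symm
  by_cases hqt : q = t
  · subst hqt
    have hpr : p ≠ r := by
      rintro rfl
      have := hmem s(q, p) (by simp [TFC.sq]) (by simp [TFC.sq])
      rw [Sym2.eq_iff] at this
      rcases this with ⟨h1, -⟩ | ⟨h2, -⟩
      · exact xq h1.symm
      · exact yq h2.symm
    exact Rs.ce5 ⟨hX, hP, hD, hQD, hRD, p1, p2, c1, c2, s1, s2, w1, w2⟩ hm
      ⟨xy, xp, xq, xr, yp, yq, yr, qp.symm, hpr, hqr⟩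
  by_cases hpr : p = r
  · subst hpr
    have e1 : TFC.sq x y q p = TFC.sq y x p q := by
      ext e
      simp only [TFC.sq, mem_insert, mem_singleton]
      rw [Sym2.eq_swap (a := y) (b := x), Sym2.eq_swap (a := x) (b := p), Sym2.eq_swap (a := p) (b := q),
        Sym2.eq_swap (a := q) (b := y)]
      tauto
    have e2 : TFC.sq x y p t = TFC.sq y x t p := by
      ext e
      simp only [TFC.sq, mem_insert, mem_singleton]
      rw [Sym2.eq_swap (a := y) (b := x), Sym2.eq_swap (a := x) (b := t), Sym2.eq_swap (a := t) (b := p),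
        Sym2.eq_swap (a := p) (b := y)]
      tauto
    rw [e1] at hQD s1 w1
    rw [e2] at hRD s2 w2
    exact Rs.ce5 ⟨hX, hP, hD, hQD, hRD, p1, p2, c1, c2, s1, s2, w1, w2⟩ hm
      ⟨xy.symm, yq, yp, yt, xq, xp, xt, qp, hqt, hpt⟩
  · exact Rs.ce6 ⟨⟨hX, hP, hD, hQD, hRD, p1, p2, c1, c2, s1, s2, w1, w2⟩, hm,
      ⟨xy, xp, xq, xr, xt, yp, yq, yr, yt, qp.symm, hpr, hpt, hqr, hqt, rt⟩⟩

end Pool.Agent.PF4.XF
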