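import Pool.Agent.PF4.XTg

/-!
# STEP 1 of the case `x, y, r, s ∈ T`, `p` free: the near covers of `x`, `r`, `s` in world 1
-/

set_option autoImplicit false

namespace Pool.Agent.PF4.XS1

open Finset Pool.Agent.TFC Pool.Agent.PF4 Pool.Agent.PF4.LD Pool.Agent.PF4.XC Pool.Agent.PF4.XF Pool.Agent.PF4.XT
  Pool.Agent.PF4.XTg

/-- `c` is a complete bipartite graph with hubs `a`, `b` and leaves `L` -/
structure K2c (c : Clu ℕ) (a b : ℕ) (L : Finset ℕ) : Prop where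
  ab : a ≠ b
  aL : a ∉ L
  bL : b ∉ L
  mem : ∀ u v, s(u, v) ∈ c.edges ↔ ((u = a ∨ u = b) ∧ v ∈ L) ∨ ((v = a ∨ v = b) ∧ u ∈ L)

theorem K2c.of {a b : ℕ} {L : Finset ℕ} (h : (Clu.k2 a b L).Valid) : K2c (Clu.k2 a b L) a b L := by
  obtain ⟨h1, h2, h3, _⟩ := h
  exact ⟨h1, h2, h3, fun u v => mem_k2⟩

theorem K2c.swap {c : Clu ℕ} {a b : ℕ} {L : Finset ℕ} (h : K2c c a b L) : K2c c b a L :=
  ⟨h.ab.symm, h.bL, h.aL, fun u v => by rw [h.mem]; tauto⟩

theorem K2c.nl {c : Clu ℕ} {a b : ℕ} {L : Finset ℕ} (h : K2c c a b L) : NoLoop c.edges := by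
  intro e he
  induction e using Sym2.ind with
  | _ u v =>
  intro hd
  have huv : u = v := by simpa using hd
  subst huv
  rcases (h.mem u u).1 he with ⟨rfl | rfl, h2⟩ | ⟨rfl | rfl, h2⟩
  · exact h.aL h2
  · exact h.bL h2
  · exact h.aL h2
  · exact h.bL h2

/-- no square in a subset -/
theorem K2c.sqFree {c : Clu ℕ} {a b : ℕ} {L : Finset ℕ} (hc : K2c c a b L) {K : Finset (Sym2 ℕ)}
    (hK : K ⊆ c.edges)
    (h : ∀ l ∈ L, ∀ l' ∈ L, l ≠ l' → s(a, l) ∈ K → s(b, l) ∈ K → s(a, l') ∈ K → s(b, l') ∈ K → False) :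
    SqFree K := by
  intro u v w z hs
  have hN : ∀ {s t : ℕ}, s(s, t) ∈ K → ((s = a ∨ s = b) ∧ t ∈ L) ∨ ((t = a ∨ t = b) ∧ s ∈ L) := fun h1 =>
    (hc.mem _ _).1 (hK h1)
  have hh : ∀ {t : ℕ}, t ∈ L → ¬ (t = a ∨ t = b) := by
    rintro t ht (rfl | rfl)
    · exact hc.aL ht
    · exact hc.bL ht
  have key : ∀ u v w z : ℕ, u ≠ w → v ≠ z → (u = a ∨ u = b) → v ∈ L → s(u, v) ∈ K → s(v, w) ∈ K → s(w, z) ∈ K →
      s(z, u) ∈ K → False := by
    intro u v w z uw vz hu hv e1 e2 e3 e4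
    have hw : w = a ∨ w = b := by
      rcases hN e2 with ⟨h1, _⟩ | ⟨h1, _⟩
      · exact absurd h1 (hh hv)
      · exact h1
    have hz : z ∈ L := by
      rcases hN e3 with ⟨_, h1⟩ | ⟨_, h1⟩
      · exact h1
      · exact absurd hw (hh h1)
    rcases hu with rfl | rfl
    · rcases hw with rfl | rfl
      · exact uw rfl
      · exact h v hv z hz vz e1 (by rwa [Sym2.eq_swap] at e2) (by rwa [Sym2.eq_swap] at e4) e3
    · rcases hw with rfl | rfl
      · exact h v hv z hz vz (by rwa [Sym2.eq_swap] at e2) e1 e3 (by rwa [Sym2.eq_swap] at e4)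
      · exact uw rfl
  rcases hN hs.ab with ⟨h1, h2⟩ | ⟨h1, h2⟩
  · exact key u v w z hs.ac hs.bd h1 h2 hs.ab hs.bc hs.cd hs.da
  · refine key v u z w hs.bd hs.ac h1 h2 (by rw [Sym2.eq_swap]; exact hs.ab) (by rw [Sym2.eq_swap]; exact hs.da)
      (by rw [Sym2.eq_swap]; exact hs.cd) (by rw [Sym2.eq_swap]; exact hs.bc)

/-- a 3-path `u a b v` of `K` in the cluster `c` -/
structure P3 (c : Clu ℕ) (K : Finset (Sym2 ℕ)) (u a b v : ℕ) : Prop where
  e1 : s(u, a) ∈ K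
  e2 : s(a, b) ∈ K
  e3 : s(b, v) ∈ K
  c1 : s(u, a) ∈ c.edges
  c2 : s(a, b) ∈ c.edges
  c3 : s(b, v) ∈ c.edges
  ub : u ≠ b
  av : a ≠ v

theorem P3.mono {c : Clu ℕ} {K K' : Finset (Sym2 ℕ)} {u a b v : ℕ} (h : P3 c K u a b v)
    (hK : ∀ e ∈ c.edges, e ∈ K → e ∈ K') : P3 c K' u a b v :=
  ⟨hK _ h.c1 h.e1, hK _ h.c2 h.e2, hK _ h.c3 h.e3, h.c1, h.c2, h.c3, h.ub, h.av⟩

theorem P3.rev {c : Clu ℕ} {K : Finset (Sym2 ℕ)} {u a b v : ℕ} (h : P3 c K u a b v) : P3 c K v b a u :=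
  ⟨by rw [Sym2.eq_swap]; exact h.e3, by rw [Sym2.eq_swap]; exact h.e2, by rw [Sym2.eq_swap]; exact h.e1,
    by rw [Sym2.eq_swap]; exact h.c3, by rw [Sym2.eq_swap]; exact h.c2, by rw [Sym2.eq_swap]; exact h.c1,
    h.av.symm, h.ub.symm⟩

theorem sqFree_mono {K K' : Finset (Sym2 ℕ)} (h : SqFree K) (hK : K' ⊆ K) : SqFree K' := fun a b c d hs =>
  h a b c d ⟨hs.ac, hs.bd, hK hs.ab, hK hs.bc, hK hs.cd, hK hs.da⟩

/-- three edges at one vertex -/
theorem three {K : Finset (Sym2 ℕ)} (hK : M2 K) {v a b c : ℕ} (ha : s(v, a) ∈ K) (hb : s(v, b) ∈ K)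
    (hc : s(v, c) ∈ K) (hab : a ≠ b) (hac : a ≠ c) (hbc : b ≠ c) : False := by
  have h1 := hK.le v
  have h2 : ({s(v, a), s(v, b), s(v, c)} : Finset (Sym2 ℕ)) ⊆ K.filter fun e => v ∈ e := by
    intro e he
    simp only [Finset.mem_insert, Finset.mem_singleton] at he
    rw [Finset.mem_filter]
    rcases he with rfl | rfl | rfl
    · exact ⟨ha, by simp⟩
    · exact ⟨hb, by simp⟩
    · exact ⟨hc, by simp⟩
  have h3 := Finset.card_le_card h2
  have h4 : #({s(v, a), s(v, b), s(v, c)} : Finset (Sym2 ℕ)) = 3 := by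
    have n1 : s(v, a) ≠ s(v, b) := fun h => hab (Sym2.congr_right.1 h)
    have n2 : s(v, a) ≠ s(v, c) := fun h => hac (Sym2.congr_right.1 h)
    have n3 : s(v, b) ≠ s(v, c) := fun h => hbc (Sym2.congr_right.1 h)
    rw [Finset.card_insert_of_notMem (by simp [n1, n2]), Finset.card_insert_of_notMem (by simp [n3]),
      Finset.card_singleton]
  rw [h4] at h3
  exact absurd (h3.trans h1) (by norm_num)

section
variable {X : XD} {P : ℕ → Finset (Sym2 ℕ) → Prop} {D : Finset (Finset (Sym2 ℕ))} {j : ℕ} {S : Finset ℕ}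
  {M : ℕ → Finset (Sym2 ℕ)} {A : Clu ℕ → Finset (Sym2 ℕ) → Prop} {CL U : List (Clu ℕ)} {PL : Finset (Sym2 ℕ)}
  {pl mi : ℕ → Prop}

/-- toggle an edge of a square-free cluster, or there is a 3-path -/
theorem pw_tgc (h : PW X P D j S M A CL U PL pl mi) {K : Finset (Sym2 ℕ)} (hK : AU A U PL K) {c : Clu ℕ}
    (hc : c ∈ U) (hA : ∀ K ⊆ c.edges, A c K ↔ SqFree K) {u v : ℕ} (he : s(u, v) ∈ c.edges)
    (hno : ¬ ∃ a b, P3 c K u a b v) : AU A U PL (tg K s(u, v)) := by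
  have hnl : NoLoop c.edges := fun e he => h.ok.nl e (by
    obtain ⟨Z, hZ, heZ⟩ := h.cls.edge.1 ⟨c, ((h.uc c).1 hc).1, he⟩
    exact h.dE Z hZ heZ)
  have huv : u ≠ v := by
    have := hnl _ he
    simpa using this
  refine pw_inC h hK hc ?_ ?_
  · intro e hec
    exact mem_tg_ne fun h1 => hec (by rw [h1]; exact he)
  · rw [hA _ Finset.inter_subset_right]
    have hS : SqFree (K ∩ c.edges) := (hA _ Finset.inter_subset_right).1 (hK.2 c hc)
    by_cases h1 : s(u, v) ∈ K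
    · refine sqFree_mono hS fun f hf => ?_
      rw [Finset.mem_inter] at hf ⊢
      rcases mem_tg.1 hf.1 with h2 | h2
      · exact ⟨h2.1, hf.2⟩
      · rw [h2.2] at h2
        exact absurd h1 h2.1
    · have e1 : tg K s(u, v) ∩ c.edges = insert s(u, v) (K ∩ c.edges) := by
        ext f
        rw [Finset.mem_inter, Finset.mem_insert, Finset.mem_inter, mem_tg]
        constructor
        · rintro ⟨h2 | h2, h3⟩
          · exact Or.inr ⟨h2.1, h3⟩
          · exact Or.inl h2.2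
        · rintro (rfl | h2)
          · exact ⟨Or.inr ⟨h1, rfl⟩, he⟩
          · exact ⟨Or.inl ⟨h2.1, fun h3 => h1 (h3 ▸ h2.1)⟩, h2.2⟩
      rw [e1]
      by_contra h2
      obtain ⟨a, b, h3, h4, h5, h6, h7⟩ := path3 hS (fun e he => hnl e (Finset.mem_inter.1 he).2) huv h2
      rw [Finset.mem_inter] at h3 h4 h5
      exact hno ⟨a, b, h3.1, h4.1, h5.1, h3.2, h4.2, h5.2, h6, h7⟩

end

/-- **the hypotheses of STEP 1** -/
structure S1 (X : XD) (P : ℕ → Finset (Sym2 ℕ) → Prop) (D : Finset (Finset (Sym2 ℕ))) (j : ℕ) (S : Finset ℕ)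
    (M : ℕ → Finset (Sym2 ℕ)) (A : Clu ℕ → Finset (Sym2 ℕ) → Prop) (CL U : List (Clu ℕ))
    (PL : Finset (Sym2 ℕ)) (pl mi : ℕ → Prop) (x y q p r s : ℕ) (c1 c2 : Clu ℕ) : Prop where
  pw : PW X P D j S M A CL U PL pl mi
  /-- distinct vertices -/
  xy : x ≠ y
  xq : x ≠ q
  xp : x ≠ p
  xr : x ≠ r
  xs : x ≠ s
  yq : y ≠ q
  yp : y ≠ p
  yr : y ≠ r
  ys : y ≠ s
  qp : q ≠ p
  qr : q ≠ r
  qs : q ≠ s
  pr : p ≠ r
  ps : p ≠ s
  rs : r ≠ s
  /-- near covers -/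
  S3 : ∀ w, w = x ∨ w = r ∨ w = s → w ∈ S ∧ w ∈ X.T
  m2 : ∀ w, w = x ∨ w = r ∨ w = s → M2 (M w)
  au : ∀ w, w = x ∨ w = r ∨ w = s → AU A U PL (M w ∩ (Ucl U ∪ PL))
  /-- the two clusters -/
  u1 : c1 ∈ U
  u2 : c2 ∈ U
  a1 : ∀ K ⊆ c1.edges, A c1 K ↔ SqFree K
  a2 : ∀ K ⊆ c2.edges, A c2 K ↔ SqFree K
  hub : (∃ L, K2c c1 y p L ∧ x ∈ L ∧ q ∈ L) ∨
    (∃ L, K2c c1 x q L ∧ y ∈ L ∧ p ∈ L ∧ (c1 = Clu.k2 x q L ∨ c1 = Clu.k2 q x L) ∧
      ∀ l ∈ L, l ≠ y → l ≠ p → mi l → pl l)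
  ers : s(r, s) ∈ c2.edges
  exr : s(x, r) ∈ PL
  eys : s(y, s) ∈ PL
  /-- types -/
  tx : pl x ∧ mi x
  ty : pl y ∧ mi y
  tr : pl r ∧ mi r
  ts : pl s ∧ mi s
  tp : ¬ pl p ∧ ¬ mi p
  tq : ¬ pl q ∧ mi q

section
variable {X : XD} {P : ℕ → Finset (Sym2 ℕ) → Prop} {D : Finset (Finset (Sym2 ℕ))} {j : ℕ} {S : Finset ℕ}
  {M : ℕ → Finset (Sym2 ℕ)} {A : Clu ℕ → Finset (Sym2 ℕ) → Prop} {CL U : List (Clu ℕ)} {PL : Finset (Sym2 ℕ)}
  {pl mi : ℕ → Prop} {x y q p r s : ℕ} {c1 c2 : Clu ℕ}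

namespace S1

theorem exp (h : S1 X P D j S M A CL U PL pl mi x y q p r s c1 c2) : s(x, p) ∈ c1.edges := by
  rcases h.hub with ⟨L, hL, h1, _⟩ | ⟨L, hL, _, h1, _⟩
  · exact (hL.mem _ _).2 (Or.inr ⟨Or.inr rfl, h1⟩)
  · exact (hL.mem _ _).2 (Or.inl ⟨Or.inl rfl, h1⟩)

theorem exy (h : S1 X P D j S M A CL U PL pl mi x y q p r s c1 c2) : s(x, y) ∈ c1.edges := by
  rcases h.hub with ⟨L, hL, h1, _⟩ | ⟨L, hL, h1, _, _⟩
  · exact (hL.mem _ _).2 (Or.inr ⟨Or.inl rfl, h1⟩)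
  · exact (hL.mem _ _).2 (Or.inl ⟨Or.inl rfl, h1⟩)

/-- a plain edge is in no cluster -/
theorem plc (h : S1 X P D j S M A CL U PL pl mi x y q p r s c1 c2) {e : Sym2 ℕ} (he : e ∈ PL) {c : Clu ℕ}
    (hc : c ∈ U) : e ∉ c.edges := fun h1 => Finset.disjoint_left.1 (h.pw.plain hc) he h1

/-- `r s` is not in the first cluster -/
theorem ers1 (h : S1 X P D j S M A CL U PL pl mi x y q p r s c1 c2) : s(r, s) ∉ c1.edges := by
  intro h1
  rcases h.hub with ⟨L, hL, _, _⟩ | ⟨L, hL, _, _, _⟩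
  · rcases (hL.mem _ _).1 h1 with ⟨h2 | h2, _⟩ | ⟨h2 | h2, _⟩
    · exact h.yr h2.symm
    · exact h.pr h2.symm
    · exact h.ys h2.symm
    · exact h.ps h2.symm
  · rcases (hL.mem _ _).1 h1 with ⟨h2 | h2, _⟩ | ⟨h2 | h2, _⟩
    · exact h.xr h2.symm
    · exact h.qr h2.symm
    · exact h.xs h2.symm
    · exact h.qs h2.symm

theorem cne (h : S1 X P D j S M A CL U PL pl mi x y q p r s c1 c2) : c1 ≠ c2 := fun h1 =>
  h.ers1 (h1 ▸ h.ers)

/-- the edges of `c1` are not in `c2` -/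
theorem dj (h : S1 X P D j S M A CL U PL pl mi x y q p r s c1 c2) {e : Sym2 ℕ} (he : e ∈ c1.edges) :
    e ∉ c2.edges := fun h1 =>
  h.cne (h.pw.cls.eq ((h.pw.uc c1).1 h.u1).1 ((h.pw.uc c2).1 h.u2).1 he h1)

theorem dj' (h : S1 X P D j S M A CL U PL pl mi x y q p r s c1 c2) {e : Sym2 ℕ} (he : e ∈ c2.edges) :
    e ∉ c1.edges := fun h1 => h.dj h1 he

/-- paths do not change when an edge outside of the cluster is toggled -/
theorem p3_tg {c : Clu ℕ} {K : Finset (Sym2 ℕ)} {e : Sym2 ℕ} (he : e ∉ c.edges) {u a b v : ℕ}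
    (h : P3 c (tg K e) u a b v) : P3 c K u a b v :=
  h.mono fun f hf h1 => (mem_tg_ne (fun h2 : f = e => he (by rw [← h2]; exact hf))).1 h1

/-- **(a)** -/
theorem sa (h : S1 X P D j S M A CL U PL pl mi x y q p r s c1 c2) :
    ∃ e f, P3 c1 (M x ∩ (Ucl U ∪ PL)) x e f p := by
  by_contra hno
  obtain ⟨hS, hT⟩ := h.S3 x (Or.inl rfl)
  obtain ⟨v, _, hv⟩ := pw_tgs_w h.pw hS hT (l := [s(x, p)]) (by simp)
    (pw_tgc h.pw (h.au x (Or.inl rfl)) h.u1 h.a1 h.exp hno)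
  refine absurd hv (not_lt.2 ?_)
  rcases sg_or (M x ∩ (Ucl U ∪ PL)) s(x, p) with hσ | hσ <;>
    simp only [chg, inc_mk, hσ] <;> by_cases v1 : v = x
  · subst v1
    refine con_even h.tx.1 h.tx.2 ?_
    simp
  · by_cases v2 : v = p
    · subst v2
      exact con_free h.tp.1 h.tp.2
    · refine con_z ?_
      simp [v1, v2]
  · subst v1
    refine con_even h.tx.1 h.tx.2 ?_
    simp
  · by_cases v2 : v = p
    · subst v2
      exact con_free h.tp.1 h.tp.2
    · refine con_z ?_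
      simp [v1, v2]


/-- **(b)** -/
theorem sb (h : S1 X P D j S M A CL U PL pl mi x y q p r s c1 c2) :
    ∃ e f, P3 c1 (M r ∩ (Ucl U ∪ PL)) x e f p := by
  by_contra hno
  obtain ⟨hS, hT⟩ := h.S3 r (Or.inr (Or.inl rfl))
  obtain ⟨v, _, hv⟩ := pw_tgs_w h.pw hS hT (l := [s(x, p), s(x, r)]) (by simp [h.pr, h.xr])
    (pw_tgp h.pw (pw_tgc h.pw (h.au r (Or.inr (Or.inl rfl))) h.u1 h.a1 h.exp hno) h.exr)
  refine absurd hv (not_lt.2 ?_)
  have s1 := sg_or (M r ∩ (Ucl U ∪ PL)) s(x, p)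
  have s2 := sg_or (M r ∩ (Ucl U ∪ PL)) s(x, r)
  simp only [chg, inc_mk]
  by_cases v1 : v = x
  · subst v1
    refine con_even h.tx.1 h.tx.2 ?_
    simp only [h.xy, h.xy.symm, h.xq, h.xq.symm, h.xp, h.xp.symm, h.xr, h.xr.symm,
      h.xs, h.xs.symm, h.yq, h.yq.symm, h.yp, h.yp.symm, h.yr, h.yr.symm, h.ys, h.ys.symm, h.qp, h.qp.symm, h.qr,
      h.qr.symm, h.qs, h.qs.symm, h.pr, h.pr.symm, h.ps, h.ps.symm, h.rs, h.rs.symm, or_self, or_false, or_true,
      false_or, true_or, if_true, if_false, ne_eq, not_true, not_false_iff, mul_one, mul_zero, add_zero, zero_add]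
    omega
  by_cases v2 : v = p
  · subst v2
    exact con_free h.tp.1 h.tp.2
  by_cases v3 : v = r
  · subst v3
    refine con_even h.tr.1 h.tr.2 ?_
    simp only [h.xy, h.xy.symm, h.xq, h.xq.symm, h.xp, h.xp.symm, h.xr, h.xr.symm,
      h.xs, h.xs.symm, h.yq, h.yq.symm, h.yp, h.yp.symm, h.yr, h.yr.symm, h.ys, h.ys.symm, h.qp, h.qp.symm, h.qr,
      h.qr.symm, h.qs, h.qs.symm, h.pr, h.pr.symm, h.ps, h.ps.symm, h.rs, h.rs.symm, or_self, or_false, or_true,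
      false_or, true_or, if_true, if_false, ne_eq, not_true, not_false_iff, mul_one, mul_zero, add_zero, zero_add]
    omega
  exact con_z (by simp only [v1, v2, v3, or_self, if_false, mul_zero, add_zero, sub_self])

/-- a 3-path from `x` to `p` in the first cluster -/
theorem path1 (h : S1 X P D j S M A CL U PL pl mi x y q p r s c1 c2) {K : Finset (Sym2 ℕ)} {e f : ℕ}
    (hp : P3 c1 K x e f p) :
    (∃ L, K2c c1 y p L ∧ x ∈ L ∧ q ∈ L ∧ e = y ∧ f ∈ L) ∨
    (∃ L, K2c c1 x q L ∧ y ∈ L ∧ p ∈ L ∧ (c1 = Clu.k2 x q L ∨ c1 = Clu.k2 q x L) ∧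
      (∀ l ∈ L, l ≠ y → l ≠ p → mi l → pl l) ∧ f = q ∧ e ∈ L) := by
  rcases h.hub with ⟨L, hL, h1, h2⟩ | ⟨L, hL, h1, h2, h30, h3⟩
  · left
    refine ⟨L, hL, h1, h2, ?_⟩
    rcases (hL.mem _ _).1 hp.c1 with ⟨h4 | h4, _⟩ | ⟨h4, _⟩
    · exact absurd h4 h.xy
    · exact absurd h4 h.xp
    · rcases h4 with h4 | h4
      · refine ⟨h4, ?_⟩
        subst h4
        rcases (hL.mem _ _).1 hp.c2 with ⟨_, h5⟩ | ⟨_, h5⟩
        · exact h5
        · exact absurd h5 hL.aL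
      · exact absurd h4 hp.av
  · right
    refine ⟨L, hL, h1, h2, h30, h3, ?_⟩
    have h4 : e ∈ L := by
      rcases (hL.mem _ _).1 hp.c1 with ⟨_, h5⟩ | ⟨_, h5⟩
      · exact h5
      · exact absurd h5 hL.aL
    refine ⟨?_, h4⟩
    rcases (hL.mem _ _).1 hp.c2 with ⟨h5 | h5, _⟩ | ⟨h5 | h5, _⟩
    · exact absurd (h5 ▸ h4) hL.aL
    · exact absurd (h5 ▸ h4) hL.bL
    · exact absurd h5.symm hp.ub
    · exact h5

/-- the part of an allowed set in the first cluster contains no square -/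
theorem sf (h : S1 X P D j S M A CL U PL pl mi x y q p r s c1 c2) {K : Finset (Sym2 ℕ)} (hK : AU A U PL K) :
    SqFree (K ∩ c1.edges) := (h.a1 _ Finset.inter_subset_right).1 (hK.2 _ h.u1)

/-- the path `x y f p` is replaced by `y f p x` -/
theorem mv1 (h : S1 X P D j S M A CL U PL pl mi x y q p r s c1 c2) {K : Finset (Sym2 ℕ)} (hK : AU A U PL K)
    {N : Finset (Sym2 ℕ)} (hN : M2 N) (hKN : K ∩ c1.edges ⊆ N) {f : ℕ} (hp : P3 c1 K x y f p) :
    s(x, y) ∈ K ∧ s(x, p) ∉ K ∧ AU A U PL (tg (tg K s(x, y)) s(x, p)) := by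
  have hS := h.sf hK
  have hxp : s(x, p) ∉ K := fun h1 => hS x y f p ⟨hp.ub, h.yp, Finset.mem_inter.2 ⟨hp.e1, hp.c1⟩,
    Finset.mem_inter.2 ⟨hp.e2, hp.c2⟩, Finset.mem_inter.2 ⟨hp.e3, hp.c3⟩,
    Finset.mem_inter.2 ⟨by rw [Sym2.eq_swap]; exact h1, by rw [Sym2.eq_swap]; exact h.exp⟩⟩
  have hne : s(x, p) ≠ s(x, y) := fun h1 => h.yp (Sym2.congr_right.1 h1).symm
  refine ⟨hp.e1, hxp, pw_inC h.pw hK h.u1 ?_ ?_⟩
  · intro e he
    rw [mem_tg_ne (fun h1 : e = s(x, p) => he (by rw [h1]; exact h.exp)),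
      mem_tg_ne (fun h1 : e = s(x, y) => he (by rw [h1]; exact h.exy))]
  · rw [h.a1 _ Finset.inter_subset_right]
    -- membership in the new set
    have hm : ∀ g : Sym2 ℕ, g ∈ tg (tg K s(x, y)) s(x, p) ∩ c1.edges → g ≠ s(x, p) →
        g ∈ K ∩ c1.edges ∧ g ≠ s(x, y) := by
      intro g hg hgp
      rw [Finset.mem_inter, mem_tg_ne hgp] at hg
      rcases mem_tg.1 hg.1 with h1 | h1
      · exact ⟨Finset.mem_inter.2 ⟨h1.1, hg.2⟩, h1.2⟩
      · exact absurd hp.e1 (h1.2 ▸ h1.1)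
    rcases h.path1 hp with ⟨L, hL, _, _, _, _⟩ | ⟨L, hL, hyL, hpL, _, _, hf, _⟩
    · refine hL.sqFree Finset.inter_subset_right fun l hl l' hl' hne' e1 e2 e3 e4 => ?_
      -- `x` is not a common leaf
      have hlx : ∀ l, s(y, l) ∈ tg (tg K s(x, y)) s(x, p) ∩ c1.edges → l ≠ x := by
        rintro l hl rfl
        refine (hm _ hl ?_).2 Sym2.eq_swap
        intro h1
        rw [Sym2.eq_iff] at h1
        rcases h1 with ⟨h1, _⟩ | ⟨h1, _⟩
        · exact h.xy h1.symm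
        · exact h.yp h1
      have k1 : ∀ l, l ≠ x → l ∈ L → s(y, l) ≠ s(x, p) := by
        intro l hl hlL h1
        rw [Sym2.eq_iff] at h1
        rcases h1 with ⟨h1, _⟩ | ⟨h1, _⟩
        · exact h.xy h1.symm
        · exact h.yp h1
      have k2 : ∀ l, l ≠ x → l ∈ L → s(p, l) ≠ s(x, p) := by
        intro l hl hlL h1
        rw [Sym2.eq_iff] at h1
        rcases h1 with ⟨h1, _⟩ | ⟨_, h1⟩
        · exact h.xp h1.symm
        · exact hl h1
      have hl1 := hlx l e1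
      have hl2 := hlx l' e3
      exact k2_sqFree h.yp hS hne' (hm _ e1 (k1 l hl1 hl)).1 (hm _ e2 (k2 l hl1 hl)).1
        (hm _ e3 (k1 l' hl2 hl')).1 (hm _ e4 (k2 l' hl2 hl')).1
    · subst hf
      refine hL.sqFree Finset.inter_subset_right fun l hl l' hl' hne' e1 e2 e3 e4 => ?_
      -- a common leaf is `p`
      have hall : ∀ l ∈ L, s(x, l) ∈ tg (tg K s(x, y)) s(x, p) ∩ c1.edges →
          s(f, l) ∈ tg (tg K s(x, y)) s(x, p) ∩ c1.edges → l = p := by
        intro l hl g1 g2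
        by_contra hlp
        have n1 : s(x, l) ≠ s(x, p) := fun h1 => hlp (Sym2.congr_right.1 h1)
        have n2 : s(f, l) ≠ s(x, p) := by
          intro h1
          rw [Sym2.eq_iff] at h1
          rcases h1 with ⟨h1, _⟩ | ⟨h1, _⟩
          · exact h.xq h1.symm
          · exact h.qp h1
        have g3 := hm _ g1 n1
        have g4 := hm _ g2 n2
        have hly : l ≠ y := fun h1 => g3.2 (by rw [h1])
        exact three hN (v := f) (a := l) (b := y) (c := p) (hKN g4.1)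
          (hKN (Finset.mem_inter.2 ⟨by rw [Sym2.eq_swap]; exact hp.e2, by rw [Sym2.eq_swap]; exact hp.c2⟩))
          (hKN (Finset.mem_inter.2 ⟨hp.e3, hp.c3⟩)) hly hlp h.yp
      exact hne' ((hall l hl e1 e2).trans (hall l' hl' e3 e4).symm)

/-- toggle `r s` after a change in the first cluster -/
theorem tg_rs (h : S1 X P D j S M A CL U PL pl mi x y q p r s c1 c2) {K K' : Finset (Sym2 ℕ)}
    (hK : AU A U PL K') (hKK : ∀ e ∈ c2.edges, e ∈ K' → e ∈ K) (hno : ¬ ∃ u v, P3 c2 K r u v s) :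
    AU A U PL (tg K' s(r, s)) :=
  pw_tgc h.pw hK h.u2 h.a2 h.ers fun ⟨u, v, hp⟩ => hno ⟨u, v, hp.mono hKK⟩

theorem pxy (h : S1 X P D j S M A CL U PL pl mi x y q p r s c1 c2) : s(x, p) ≠ s(x, y) := fun h1 =>
  h.yp (Sym2.congr_right.1 h1).symm

/-- **(c), first case** -/
theorem sc1 (h : S1 X P D j S M A CL U PL pl mi x y q p r s c1 c2) {f : ℕ}
    (hp : P3 c1 (M r ∩ (Ucl U ∪ PL)) x y f p) : ∃ u v, P3 c2 (M r ∩ (Ucl U ∪ PL)) r u v s := by
  by_contra hno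
  have hr := Or.inr (a := r = x) (Or.inl (b := r = s) (Eq.refl r))
  obtain ⟨hS, hT⟩ := h.S3 r hr
  obtain ⟨m1, m2, hA⟩ := h.mv1 (h.au r hr) (h.m2 r hr)
    (Finset.inter_subset_left.trans Finset.inter_subset_left) hp
  have hA2 := h.tg_rs hA (K := M r ∩ (Ucl U ∪ PL)) (fun e he h1 => by
    rwa [mem_tg_ne (fun h2 : e = s(x, p) => h.dj h.exp (h2 ▸ he)),
      mem_tg_ne (fun h2 : e = s(x, y) => h.dj h.exy (h2 ▸ he))] at h1) hno
  have hA3 := pw_tgp h.pw hA2 h.eys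
  obtain ⟨v, _, hv⟩ := pw_tgs_w h.pw hS hT (l := [s(x, y), s(x, p), s(r, s), s(y, s)])
    (by
      simp only [List.nodup_cons, List.mem_cons, List.not_mem_nil, or_false, not_or, Sym2.eq_iff, not_and,
        List.nodup_nil, and_true, not_false_iff]
      refine ⟨⟨⟨fun _ => h.yp, fun h1 => absurd h1 h.xp⟩, ⟨fun h1 => absurd h1 h.xr, fun h1 => absurd h1 h.xs⟩,
        ⟨fun h1 => absurd h1 h.xy, fun h1 => absurd h1 h.xs⟩⟩, ⟨⟨fun h1 => absurd h1 h.xr, fun h1 => absurd h1 h.xs⟩,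
        ⟨fun h1 => absurd h1 h.xy, fun h1 => absurd h1 h.xs⟩⟩, ⟨fun h1 => absurd h1 h.yr.symm,
        fun h1 => absurd h1 h.rs⟩⟩) hA3
  refine absurd hv (not_lt.2 ?_)
  have s1 := sg_or (M r ∩ (Ucl U ∪ PL)) s(r, s)
  have s2 := sg_or (M r ∩ (Ucl U ∪ PL)) s(y, s)
  simp only [chg, inc_mk, sg_mem m1, sg_not m2]
  by_cases v1 : v = x
  · subst v1
    refine con_even h.tx.1 h.tx.2 ?_
    simp only [h.xy, h.xy.symm, h.xq, h.xq.symm, h.xp, h.xp.symm, h.xr, h.xr.symm,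
      h.xs, h.xs.symm, h.yq, h.yq.symm, h.yp, h.yp.symm, h.yr, h.yr.symm, h.ys, h.ys.symm, h.qp, h.qp.symm, h.qr,
      h.qr.symm, h.qs, h.qs.symm, h.pr, h.pr.symm, h.ps, h.ps.symm, h.rs, h.rs.symm, or_self, or_false, or_true,
      false_or, true_or, if_true, if_false, ne_eq, not_true, not_false_iff, mul_one, mul_zero, add_zero, zero_add]
    omega
  by_cases v2 : v = p
  · subst v2
    exact con_free h.tp.1 h.tp.2
  by_cases v3 : v = r
  · subst v3
    refine con_even h.tr.1 h.tr.2 ?_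
    simp only [h.xy, h.xy.symm, h.xq, h.xq.symm, h.xp, h.xp.symm, h.xr, h.xr.symm,
      h.xs, h.xs.symm, h.yq, h.yq.symm, h.yp, h.yp.symm, h.yr, h.yr.symm, h.ys, h.ys.symm, h.qp, h.qp.symm, h.qr,
      h.qr.symm, h.qs, h.qs.symm, h.pr, h.pr.symm, h.ps, h.ps.symm, h.rs, h.rs.symm, or_self, or_false, or_true,
      false_or, true_or, if_true, if_false, ne_eq, not_true, not_false_iff, mul_one, mul_zero, add_zero, zero_add]
    omega
  by_cases v4 : v = s
  · subst v4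
    refine con_even h.ts.1 h.ts.2 ?_
    simp only [h.xy, h.xy.symm, h.xq, h.xq.symm, h.xp, h.xp.symm, h.xr, h.xr.symm,
      h.xs, h.xs.symm, h.yq, h.yq.symm, h.yp, h.yp.symm, h.yr, h.yr.symm, h.ys, h.ys.symm, h.qp, h.qp.symm, h.qr,
      h.qr.symm, h.qs, h.qs.symm, h.pr, h.pr.symm, h.ps, h.ps.symm, h.rs, h.rs.symm, or_self, or_false, or_true,
      false_or, true_or, if_true, if_false, ne_eq, not_true, not_false_iff, mul_one, mul_zero, add_zero, zero_add]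
    omega
  by_cases v5 : v = y
  · subst v5
    refine con_even h.ty.1 h.ty.2 ?_
    simp only [h.xy, h.xy.symm, h.xq, h.xq.symm, h.xp, h.xp.symm, h.xr, h.xr.symm,
      h.xs, h.xs.symm, h.yq, h.yq.symm, h.yp, h.yp.symm, h.yr, h.yr.symm, h.ys, h.ys.symm, h.qp, h.qp.symm, h.qr,
      h.qr.symm, h.qs, h.qs.symm, h.pr, h.pr.symm, h.ps, h.ps.symm, h.rs, h.rs.symm, or_self, or_false, or_true,
      false_or, true_or, if_true, if_false, ne_eq, not_true, not_false_iff, mul_one, mul_zero, add_zero, zero_add]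
    omega
  exact con_z (by simp only [v1, v2, v3, v4, v5, or_self, if_false, mul_zero, add_zero, sub_self])

/-- **(c), second case** -/
theorem sc2 (h : S1 X P D j S M A CL U PL pl mi x y q p r s c1 c2) {l : ℕ} (hly : l ≠ y)
    {L : Finset ℕ} (hL : K2c c1 x q L) (hyL : y ∈ L) (hpL : p ∈ L) (hX : ∀ l ∈ L, l ≠ y → l ≠ p → mi l → pl l)
    (hlL : l ∈ L) (hp : P3 c1 (M r ∩ (Ucl U ∪ PL)) x l q p) : ∃ u v, P3 c2 (M r ∩ (Ucl U ∪ PL)) r u v s := by
  by_contra hno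
  have hr := Or.inr (a := r = x) (Or.inl (b := r = s) (Eq.refl r))
  obtain ⟨hS, hT⟩ := h.S3 r hr
  have hM2 := h.m2 r hr
  have hKA := h.au r hr
  obtain ⟨K, hKdef⟩ : ∃ K, K = M r ∩ (Ucl U ∪ PL) := ⟨_, rfl⟩
  rw [← hKdef] at hp hno hKA
  have hKM : K ⊆ M r := by rw [hKdef]; exact Finset.inter_subset_left
  have hlp : l ≠ p := hp.av
  have hlx : l ≠ x := fun h1 => hL.aL (h1 ▸ hlL)
  have hlq : l ≠ q := fun h1 => hL.bL (h1 ▸ hlL)
  have hSF := h.sf hKA
  -- edges at `q`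
  have q1 : s(q, l) ∈ K := by rw [Sym2.eq_swap]; exact hp.e2
  have qe : ∀ t, s(q, t) ∈ K → t = l ∨ t = p := by
    intro t ht
    by_contra hcon
    rw [not_or] at hcon
    exact three hM2 (hKM ht) (hKM q1) (hKM hp.e3) hcon.1 hcon.2 hlp
  have hyq : s(y, q) ∉ K := by
    intro h1
    rcases qe y (by rw [Sym2.eq_swap]; exact h1) with h2 | h2
    · exact hly h2.symm
    · exact h.yp h2
  have eyq : s(y, q) ∈ c1.edges := (hL.mem _ _).2 (Or.inr ⟨Or.inr rfl, hyL⟩)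
  have exl : s(x, l) ∈ c1.edges := hp.c1
  have elq : s(l, q) ∈ c1.edges := hp.c2
  have hxp : s(x, p) ∉ K := fun h1 => hSF x l q p ⟨hp.ub, hp.av, Finset.mem_inter.2 ⟨hp.e1, hp.c1⟩,
    Finset.mem_inter.2 ⟨hp.e2, hp.c2⟩, Finset.mem_inter.2 ⟨hp.e3, hp.c3⟩,
    Finset.mem_inter.2 ⟨by rw [Sym2.eq_swap]; exact h1, by rw [Sym2.eq_swap]; exact h.exp⟩⟩
  -- `x y` is not in the near cover
  have hxy : s(x, y) ∉ K := by
    intro h1
    have hA : AU A U PL (tg (tg K s(x, y)) s(y, q)) := by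
      refine pw_inC h.pw hKA h.u1 ?_ ?_
      · intro e he
        rw [mem_tg_ne (fun h1 : e = s(y, q) => he (by rw [h1]; exact eyq)),
          mem_tg_ne (fun h1 : e = s(x, y) => he (by rw [h1]; exact h.exy))]
      · rw [h.a1 _ Finset.inter_subset_right]
        refine hL.sqFree Finset.inter_subset_right fun l1 hl1 l2 hl2 hne e1 e2 e3 e4 => ?_
        have hm : ∀ t ∈ L, s(x, t) ∈ tg (tg K s(x, y)) s(y, q) ∩ c1.edges → t ≠ y ∧ s(x, t) ∈ K ∩ c1.edges := by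
          intro t ht g1
          rw [Finset.mem_inter] at g1
          have n1 : s(x, t) ≠ s(y, q) := by
            intro h2
            rw [Sym2.eq_iff] at h2
            rcases h2 with ⟨h2, _⟩ | ⟨h2, _⟩
            · exact h.xy h2
            · exact h.xq h2
          rw [mem_tg_ne n1] at g1
          rcases mem_tg.1 g1.1 with h2 | h2
          · exact ⟨fun h3 => h2.2 (by rw [h3]), Finset.mem_inter.2 ⟨h2.1, g1.2⟩⟩
          · exact absurd h1 (h2.2 ▸ h2.1)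
        have hm2 : ∀ t ∈ L, t ≠ y → s(q, t) ∈ tg (tg K s(x, y)) s(y, q) ∩ c1.edges → s(q, t) ∈ K ∩ c1.edges := by
          intro t ht hty g1
          rw [Finset.mem_inter] at g1
          have n1 : s(q, t) ≠ s(y, q) := by
            intro h2
            rw [Sym2.eq_iff] at h2
            rcases h2 with ⟨h2, _⟩ | ⟨_, h2⟩
            · exact h.yq h2.symm
            · exact hty h2
          have n2 : s(q, t) ≠ s(x, y) := by
            intro h2
            rw [Sym2.eq_iff] at h2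
            rcases h2 with ⟨h2, _⟩ | ⟨h2, _⟩
            · exact h.xq h2.symm
            · exact h.yq h2.symm
          rw [mem_tg_ne n1, mem_tg_ne n2] at g1
          exact Finset.mem_inter.2 g1
        have g1 := hm l1 hl1 e1
        have g3 := hm l2 hl2 e3
        exact k2_sqFree h.xq hSF hne g1.2 (hm2 l1 hl1 g1.1 e2) g3.2 (hm2 l2 hl2 g3.1 e4)
    have hA2 := pw_tgp h.pw hA h.exr
    rw [hKdef] at hA2
    obtain ⟨v, _, hv⟩ := pw_tgs_w h.pw hS hT (l := [s(x, y), s(y, q), s(x, r)])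
      (by
        simp only [List.nodup_cons, List.mem_cons, List.not_mem_nil, or_false, not_or, Sym2.eq_iff, not_and,
          List.nodup_nil, and_true, not_false_iff]
        exact ⟨⟨⟨fun h1 => absurd h1 h.xy, fun h1 => absurd h1 h.xq⟩, ⟨fun _ => h.yr, fun h1 => absurd h1 h.xr⟩⟩,
          ⟨fun h1 => absurd h1 h.xy.symm, fun h1 => absurd h1 h.yr⟩⟩) hA2
    rw [← hKdef] at hv
    refine absurd hv (not_lt.2 ?_)
    have s1 := sg_or K s(x, r)
    simp only [chg, inc_mk, sg_mem h1, sg_not hyq]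
    by_cases v1 : v = x
    · subst v1
      refine con_even h.tx.1 h.tx.2 ?_
      simp only [h.xy, h.xy.symm, h.xq, h.xq.symm, h.xp, h.xp.symm, h.xr, h.xr.symm,
        h.xs, h.xs.symm, h.yq, h.yq.symm, h.yp, h.yp.symm, h.yr, h.yr.symm, h.ys, h.ys.symm, h.qp, h.qp.symm, h.qr,
        h.qr.symm, h.qs, h.qs.symm, h.pr, h.pr.symm, h.ps, h.ps.symm, h.rs, h.rs.symm, or_self, or_false, or_true,
        false_or, true_or, if_true, if_false, ne_eq, not_true, not_false_iff, mul_one, mul_zero, add_zero, zero_add]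
      omega
    by_cases v2 : v = q
    · subst v2
      refine con_X_nonneg h.tq.1 h.tq.2 ?_
      simp only [h.xy, h.xy.symm, h.xq, h.xq.symm, h.xp, h.xp.symm, h.xr, h.xr.symm,
        h.xs, h.xs.symm, h.yq, h.yq.symm, h.yp, h.yp.symm, h.yr, h.yr.symm, h.ys, h.ys.symm, h.qp, h.qp.symm, h.qr,
        h.qr.symm, h.qs, h.qs.symm, h.pr, h.pr.symm, h.ps, h.ps.symm, h.rs, h.rs.symm, or_self, or_false, or_true,
        false_or, true_or, if_true, if_false, ne_eq, not_true, not_false_iff, mul_one, mul_zero, add_zero, zero_add]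
      omega
    by_cases v3 : v = r
    · subst v3
      refine con_even h.tr.1 h.tr.2 ?_
      simp only [h.xy, h.xy.symm, h.xq, h.xq.symm, h.xp, h.xp.symm, h.xr, h.xr.symm,
        h.xs, h.xs.symm, h.yq, h.yq.symm, h.yp, h.yp.symm, h.yr, h.yr.symm, h.ys, h.ys.symm, h.qp, h.qp.symm, h.qr,
        h.qr.symm, h.qs, h.qs.symm, h.pr, h.pr.symm, h.ps, h.ps.symm, h.rs, h.rs.symm, or_self, or_false, or_true,
        false_or, true_or, if_true, if_false, ne_eq, not_true, not_false_iff, mul_one, mul_zero, add_zero, zero_add]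
      omega
    by_cases v5 : v = y
    · subst v5
      refine con_even h.ty.1 h.ty.2 ?_
      simp only [h.xy, h.xy.symm, h.xq, h.xq.symm, h.xp, h.xp.symm, h.xr, h.xr.symm,
        h.xs, h.xs.symm, h.yq, h.yq.symm, h.yp, h.yp.symm, h.yr, h.yr.symm, h.ys, h.ys.symm, h.qp, h.qp.symm, h.qr,
        h.qr.symm, h.qs, h.qs.symm, h.pr, h.pr.symm, h.ps, h.ps.symm, h.rs, h.rs.symm, or_self, or_false, or_true,
        false_or, true_or, if_true, if_false, ne_eq, not_true, not_false_iff, mul_one, mul_zero, add_zero, zero_add]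
      omega
    exact con_z (by simp only [v1, v2, v3, v5, or_self, if_false, mul_zero, add_zero, sub_self])
  -- the main move
  have hne1 : s(x, l) ≠ s(l, q) := by
    intro h2
    rw [Sym2.eq_iff] at h2
    rcases h2 with ⟨h2, _⟩ | ⟨h2, _⟩
    · exact hlx h2.symm
    · exact h.xq h2
  have hA : AU A U PL (tg (tg (tg (tg K s(x, l)) s(l, q)) s(x, p)) s(y, q)) := by
    refine pw_inC h.pw hKA h.u1 ?_ ?_
    · intro e he
      rw [mem_tg_ne (fun h1 : e = s(y, q) => he (by rw [h1]; exact eyq)),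
        mem_tg_ne (fun h1 : e = s(x, p) => he (by rw [h1]; exact h.exp)),
        mem_tg_ne (fun h1 : e = s(l, q) => he (by rw [h1]; exact elq)),
        mem_tg_ne (fun h1 : e = s(x, l) => he (by rw [h1]; exact exl))]
    · rw [h.a1 _ Finset.inter_subset_right]
      refine hL.sqFree Finset.inter_subset_right fun l1 hl1 l2 hl2 hne e1 e2 e3 e4 => ?_
      -- a common leaf is `p`
      have hall : ∀ t ∈ L, s(x, t) ∈ tg (tg (tg (tg K s(x, l)) s(l, q)) s(x, p)) s(y, q) ∩ c1.edges →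
          s(q, t) ∈ tg (tg (tg (tg K s(x, l)) s(l, q)) s(x, p)) s(y, q) ∩ c1.edges → t = p := by
        intro t ht g1 g2
        by_contra htp
        have htx : t ≠ x := fun h1 => hL.aL (h1 ▸ ht)
        have htq : t ≠ q := fun h1 => hL.bL (h1 ▸ ht)
        rw [Finset.mem_inter] at g1 g2
        have n1 : s(x, t) ≠ s(y, q) := by
          intro h2
          rw [Sym2.eq_iff] at h2
          rcases h2 with ⟨h2, _⟩ | ⟨h2, _⟩
          · exact h.xy h2
          · exact h.xq h2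
        have n2 : s(x, t) ≠ s(x, p) := fun h2 => htp (Sym2.congr_right.1 h2)
        have n3 : s(x, t) ≠ s(l, q) := by
          intro h2
          rw [Sym2.eq_iff] at h2
          rcases h2 with ⟨h2, _⟩ | ⟨h2, _⟩
          · exact hlx h2.symm
          · exact h.xq h2
        rw [mem_tg_ne n1, mem_tg_ne n2, mem_tg_ne n3, mem_tg] at g1
        -- `t` is neither `l` nor `y`
        have hty : t ≠ y := by
          rintro rfl
          rcases g1.1 with h2 | h2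
          · exact hxy h2.1
          · exact hly (Sym2.congr_right.1 h2.2).symm
        have htl : t ≠ l := by
          rintro rfl
          rcases g1.1 with h2 | h2
          · exact h2.2 rfl
          · exact h2.1 hp.e1
        have m1 : s(q, t) ≠ s(y, q) := by
          intro h2
          rw [Sym2.eq_iff] at h2
          rcases h2 with ⟨h2, _⟩ | ⟨_, h2⟩
          · exact h.yq h2.symm
          · exact hty h2
        have m2 : s(q, t) ≠ s(x, p) := by
          intro h2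
          rw [Sym2.eq_iff] at h2
          rcases h2 with ⟨h2, _⟩ | ⟨h2, _⟩
          · exact h.xq h2.symm
          · exact h.qp h2
        have m3 : s(q, t) ≠ s(l, q) := by
          intro h2
          rw [Sym2.eq_iff] at h2
          rcases h2 with ⟨h2, _⟩ | ⟨_, h2⟩
          · exact hlq h2.symm
          · exact htl h2
        have m4 : s(q, t) ≠ s(x, l) := by
          intro h2
          rw [Sym2.eq_iff] at h2
          rcases h2 with ⟨h2, _⟩ | ⟨h2, _⟩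
          · exact h.xq h2.symm
          · exact hlq h2.symm
        rw [mem_tg_ne m1, mem_tg_ne m2, mem_tg_ne m3, mem_tg_ne m4] at g2
        rcases qe t g2.1 with h2 | h2
        · exact htl h2
        · exact htp h2
      exact hne ((hall l1 hl1 e1 e2).trans (hall l2 hl2 e3 e4).symm)
  have hA2 := h.tg_rs hA (K := K) (fun e he h1 => by
    rwa [mem_tg_ne (fun h2 : e = s(y, q) => h.dj eyq (h2 ▸ he)),
      mem_tg_ne (fun h2 : e = s(x, p) => h.dj h.exp (h2 ▸ he)),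
      mem_tg_ne (fun h2 : e = s(l, q) => h.dj elq (h2 ▸ he)),
      mem_tg_ne (fun h2 : e = s(x, l) => h.dj exl (h2 ▸ he))] at h1) hno
  have hA3 := pw_tgp h.pw hA2 h.eys
  have hrs1 := h.ers1
  rw [hKdef] at hA3
  have k1 : s(r, s) ≠ s(x, l) := fun h1 => hrs1 (h1 ▸ exl)
  have k2 : s(r, s) ≠ s(l, q) := fun h1 => hrs1 (h1 ▸ elq)
  have k3 : s(r, s) ≠ s(x, p) := fun h1 => hrs1 (h1 ▸ h.exp)
  have k4 : s(r, s) ≠ s(y, q) := fun h1 => hrs1 (h1 ▸ eyq)
  have hys1 : s(y, s) ∉ c1.edges := h.plc h.eys h.u1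
  have k5 : s(y, s) ≠ s(x, l) := fun h1 => hys1 (h1 ▸ exl)
  have k6 : s(y, s) ≠ s(l, q) := fun h1 => hys1 (h1 ▸ elq)
  have k7 : s(y, s) ≠ s(x, p) := fun h1 => hys1 (h1 ▸ h.exp)
  have k8 : s(y, s) ≠ s(y, q) := fun h1 => hys1 (h1 ▸ eyq)
  have k9 : s(y, s) ≠ s(r, s) := fun h1 => h.plc h.eys h.u2 (h1 ▸ h.ers)
  have k10 : s(x, p) ≠ s(x, l) := fun h1 => hlp (Sym2.congr_right.1 h1).symm
  have k11 : s(x, p) ≠ s(l, q) := by
    intro h2
    rw [Sym2.eq_iff] at h2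
    rcases h2 with ⟨h2, _⟩ | ⟨h2, _⟩
    · exact hlx h2.symm
    · exact h.xq h2
  have k12 : s(y, q) ≠ s(x, l) := by
    intro h2
    rw [Sym2.eq_iff] at h2
    rcases h2 with ⟨h2, _⟩ | ⟨_, h2⟩
    · exact h.xy h2.symm
    · exact h.xq h2.symm
  have k13 : s(y, q) ≠ s(l, q) := by
    intro h2
    rw [Sym2.eq_iff] at h2
    rcases h2 with ⟨h2, _⟩ | ⟨h2, _⟩
    · exact hly h2.symm
    · exact h.yq h2
  have k14 : s(y, q) ≠ s(x, p) := by
    intro h2
    rw [Sym2.eq_iff] at h2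
    rcases h2 with ⟨h2, _⟩ | ⟨h2, _⟩
    · exact h.xy h2.symm
    · exact h.yp h2
  obtain ⟨v, _, hv⟩ := pw_tgs_w h.pw hS hT (l := [s(x, l), s(l, q), s(x, p), s(y, q), s(r, s), s(y, s)])
    (by
      simp only [List.nodup_cons, List.mem_cons, List.not_mem_nil, or_false, not_or, List.nodup_nil, and_true,
        not_false_iff]
      exact ⟨⟨hne1, k10.symm, k12.symm, k1.symm, k5.symm⟩, ⟨k11.symm, k13.symm, k2.symm, k6.symm⟩,
        ⟨k14.symm, k3.symm, k7.symm⟩, ⟨k4.symm, k8.symm⟩, k9.symm⟩) hA3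
  rw [← hKdef] at hv
  refine absurd hv (not_lt.2 ?_)
  have s1 := sg_or K s(r, s)
  have s2 := sg_or K s(y, s)
  have q2 : s(l, q) ∈ K := hp.e2
  simp only [chg, inc_mk, sg_mem hp.e1, sg_mem q2, sg_not hxp, sg_not hyq]
  have hlr : l ≠ r := by
    rintro rfl
    exact h.plc h.exr h.u1 exl
  by_cases v1 : v = x
  · subst v1
    refine con_even h.tx.1 h.tx.2 ?_
    simp only [hlx.symm]
    simp only [h.xy, h.xy.symm, h.xq, h.xq.symm, h.xp, h.xp.symm, h.xr, h.xr.symm,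
      h.xs, h.xs.symm, h.yq, h.yq.symm, h.yp, h.yp.symm, h.yr, h.yr.symm, h.ys, h.ys.symm, h.qp, h.qp.symm, h.qr,
      h.qr.symm, h.qs, h.qs.symm, h.pr, h.pr.symm, h.ps, h.ps.symm, h.rs, h.rs.symm, or_self, or_false, or_true,
      false_or, true_or, if_true, if_false, ne_eq, not_true, not_false_iff, mul_one, mul_zero, add_zero, zero_add]
    omega
  by_cases v2 : v = p
  · subst v2
    exact con_free h.tp.1 h.tp.2
  by_cases v3 : v = r
  · subst v3
    refine con_even h.tr.1 h.tr.2 ?_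
    simp only [hlr.symm]
    simp only [h.xy, h.xy.symm, h.xq, h.xq.symm, h.xp, h.xp.symm, h.xr, h.xr.symm,
      h.xs, h.xs.symm, h.yq, h.yq.symm, h.yp, h.yp.symm, h.yr, h.yr.symm, h.ys, h.ys.symm, h.qp, h.qp.symm, h.qr,
      h.qr.symm, h.qs, h.qs.symm, h.pr, h.pr.symm, h.ps, h.ps.symm, h.rs, h.rs.symm, or_self, or_false, or_true,
      false_or, true_or, if_true, if_false, ne_eq, not_true, not_false_iff, mul_one, mul_zero, add_zero, zero_add]
    omega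
  by_cases v4 : v = s
  · subst v4
    refine con_even h.ts.1 h.ts.2 ?_
    by_cases v5 : v = l
    · simp only [v5]
      rw [← v5]
      simp only [h.xy, h.xy.symm, h.xq, h.xq.symm, h.xp, h.xp.symm, h.xr, h.xr.symm,
        h.xs, h.xs.symm, h.yq, h.yq.symm, h.yp, h.yp.symm, h.yr, h.yr.symm, h.ys, h.ys.symm, h.qp, h.qp.symm, h.qr,
        h.qr.symm, h.qs, h.qs.symm, h.pr, h.pr.symm, h.ps, h.ps.symm, h.rs, h.rs.symm, or_self, or_false, or_true,
        false_or, true_or, if_true, if_false, ne_eq, not_true, not_false_iff, mul_one, mul_zero, add_zero, zero_add]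
      omega
    · simp only [v5]
      simp only [h.xy, h.xy.symm, h.xq, h.xq.symm, h.xp, h.xp.symm, h.xr, h.xr.symm,
        h.xs, h.xs.symm, h.yq, h.yq.symm, h.yp, h.yp.symm, h.yr, h.yr.symm, h.ys, h.ys.symm, h.qp, h.qp.symm, h.qr,
        h.qr.symm, h.qs, h.qs.symm, h.pr, h.pr.symm, h.ps, h.ps.symm, h.rs, h.rs.symm, or_self, or_false, or_true,
        false_or, true_or, if_true, if_false, ne_eq, not_true, not_false_iff, mul_one, mul_zero, add_zero, zero_add]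
      omega
  by_cases v5 : v = y
  · subst v5
    refine con_even h.ty.1 h.ty.2 ?_
    simp only [hly.symm]
    simp only [h.xy, h.xy.symm, h.xq, h.xq.symm, h.xp, h.xp.symm, h.xr, h.xr.symm,
      h.xs, h.xs.symm, h.yq, h.yq.symm, h.yp, h.yp.symm, h.yr, h.yr.symm, h.ys, h.ys.symm, h.qp, h.qp.symm, h.qr,
      h.qr.symm, h.qs, h.qs.symm, h.pr, h.pr.symm, h.ps, h.ps.symm, h.rs, h.rs.symm, or_self, or_false, or_true,
      false_or, true_or, if_true, if_false, ne_eq, not_true, not_false_iff, mul_one, mul_zero, add_zero, zero_add]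
    omega
  by_cases v6 : v = q
  · subst v6
    refine con_z ?_
    simp only [hlq.symm]
    simp only [h.xy, h.xy.symm, h.xq, h.xq.symm, h.xp, h.xp.symm, h.xr, h.xr.symm,
      h.xs, h.xs.symm, h.yq, h.yq.symm, h.yp, h.yp.symm, h.yr, h.yr.symm, h.ys, h.ys.symm, h.qp, h.qp.symm, h.qr,
      h.qr.symm, h.qs, h.qs.symm, h.pr, h.pr.symm, h.ps, h.ps.symm, h.rs, h.rs.symm, or_self, or_false, or_true,
      false_or, true_or, if_true, if_false, ne_eq, not_true, not_false_iff, mul_one, mul_zero, add_zero, zero_add]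
    omega
  by_cases v7 : v = l
  · subst v7
    refine con_nX (hX v hlL hly hlp) ?_ ?_
    · simp only [v1, v2, v3, v4, v5, v6, or_self, or_false, or_true, if_false, if_true]
      norm_num
    · simp only [v1, v2, v3, v4, v5, v6, or_self, or_false, or_true, if_false, if_true]
      norm_num
  exact con_z (by simp only [v1, v2, v3, v4, v5, v6, v7, or_self, if_false, mul_zero, add_zero, sub_self])

/-- **(c)** -/
theorem sc (h : S1 X P D j S M A CL U PL pl mi x y q p r s c1 c2) :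
    ∃ u v, P3 c2 (M r ∩ (Ucl U ∪ PL)) r u v s := by
  obtain ⟨e, f, hp⟩ := h.sb
  by_cases he : e = y
  · subst he
    exact h.sc1 hp
  · rcases h.path1 hp with ⟨_, _, _, _, h1, _⟩ | ⟨L, hL, h1, h2, _, h3, h4, h5⟩
    · exact absurd h1 he
    · subst h4
      exact h.sc2 he hL h1 h2 h3 h5 hp

/-- **(d)** -/
theorem sd (h : S1 X P D j S M A CL U PL pl mi x y q p r s c1 c2) (f : ℕ) :
    ¬ P3 c1 (M s ∩ (Ucl U ∪ PL)) x y f p := by
  intro hp
  have hs := Or.inr (a := s = x) (Or.inr (a := s = r) (Eq.refl s))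
  obtain ⟨hS, hT⟩ := h.S3 s hs
  obtain ⟨m1, m2, hA⟩ := h.mv1 (h.au s hs) (h.m2 s hs)
    (Finset.inter_subset_left.trans Finset.inter_subset_left) hp
  have hA3 := pw_tgp h.pw hA h.eys
  obtain ⟨v, _, hv⟩ := pw_tgs_w h.pw hS hT (l := [s(x, y), s(x, p), s(y, s)])
    (by
      simp only [List.nodup_cons, List.mem_cons, List.not_mem_nil, or_false, not_or, Sym2.eq_iff, not_and,
        List.nodup_nil, and_true, not_false_iff]
      exact ⟨⟨⟨fun _ => h.yp, fun h1 => absurd h1 h.xp⟩,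
        ⟨fun h1 => absurd h1 h.xy, fun h1 => absurd h1 h.xs⟩⟩,
        ⟨fun h1 => absurd h1 h.xy, fun h1 => absurd h1 h.xs⟩⟩) hA3
  refine absurd hv (not_lt.2 ?_)
  have s2 := sg_or (M s ∩ (Ucl U ∪ PL)) s(y, s)
  simp only [chg, inc_mk, sg_mem m1, sg_not m2]
  by_cases v1 : v = x
  · subst v1
    refine con_even h.tx.1 h.tx.2 ?_
    simp only [h.xy, h.xy.symm, h.xq, h.xq.symm, h.xp, h.xp.symm, h.xr, h.xr.symm,
      h.xs, h.xs.symm, h.yq, h.yq.symm, h.yp, h.yp.symm, h.yr, h.yr.symm, h.ys, h.ys.symm, h.qp, h.qp.symm, h.qr,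
      h.qr.symm, h.qs, h.qs.symm, h.pr, h.pr.symm, h.ps, h.ps.symm, h.rs, h.rs.symm, or_self, or_false, or_true,
      false_or, true_or, if_true, if_false, ne_eq, not_true, not_false_iff, mul_one, mul_zero, add_zero, zero_add]
    omega
  by_cases v2 : v = p
  · subst v2
    exact con_free h.tp.1 h.tp.2
  by_cases v4 : v = s
  · subst v4
    refine con_even h.ts.1 h.ts.2 ?_
    simp only [h.xy, h.xy.symm, h.xq, h.xq.symm, h.xp, h.xp.symm, h.xr, h.xr.symm,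
      h.xs, h.xs.symm, h.yq, h.yq.symm, h.yp, h.yp.symm, h.yr, h.yr.symm, h.ys, h.ys.symm, h.qp, h.qp.symm, h.qr,
      h.qr.symm, h.qs, h.qs.symm, h.pr, h.pr.symm, h.ps, h.ps.symm, h.rs, h.rs.symm, or_self, or_false, or_true,
      false_or, true_or, if_true, if_false, ne_eq, not_true, not_false_iff, mul_one, mul_zero, add_zero, zero_add]
    omega
  by_cases v5 : v = y
  · subst v5
    refine con_even h.ty.1 h.ty.2 ?_
    simp only [h.xy, h.xy.symm, h.xq, h.xq.symm, h.xp, h.xp.symm, h.xr, h.xr.symm,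
      h.xs, h.xs.symm, h.yq, h.yq.symm, h.yp, h.yp.symm, h.yr, h.yr.symm, h.ys, h.ys.symm, h.qp, h.qp.symm, h.qr,
      h.qr.symm, h.qs, h.qs.symm, h.pr, h.pr.symm, h.ps, h.ps.symm, h.rs, h.rs.symm, or_self, or_false, or_true,
      false_or, true_or, if_true, if_false, ne_eq, not_true, not_false_iff, mul_one, mul_zero, add_zero, zero_add]
    omega
  exact con_z (by simp only [v1, v2, v4, v5, or_self, if_false, mul_zero, add_zero, sub_self])

/-- **(e), (f)** -/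
theorem sef (h : S1 X P D j S M A CL U PL pl mi x y q p r s c1 c2) :
    (∃ u v, P3 c2 (M s ∩ (Ucl U ∪ PL)) s u v r) ∨
    ∃ L l, (c1 = Clu.k2 x q L ∨ c1 = Clu.k2 q x L) ∧ l ∈ L ∧ l ≠ y ∧
      P3 c1 (M s ∩ (Ucl U ∪ PL)) x l q p := by
  by_contra hcon
  rw [not_or] at hcon
  have hs := Or.inr (a := s = x) (Or.inr (a := s = r) (Eq.refl s))
  obtain ⟨hS, hT⟩ := h.S3 s hs
  have hno1 : ¬ ∃ e f, P3 c1 (M s ∩ (Ucl U ∪ PL)) x e f p := by
    rintro ⟨e, f, hp⟩
    by_cases he : e = y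
    · subst he
      exact h.sd f hp
    · rcases h.path1 hp with ⟨_, _, _, _, h1, _⟩ | ⟨L, hL, h1, h2, h30, _, h4, h5⟩
      · exact he h1
      · subst h4
        exact hcon.2 ⟨L, e, h30, h5, he, hp⟩
  have hno2 : ¬ ∃ u v, P3 c2 (M s ∩ (Ucl U ∪ PL)) r u v s := fun ⟨u, v, hp⟩ => hcon.1 ⟨v, u, hp.rev⟩
  have hA1 := pw_tgc h.pw (h.au s hs) h.u1 h.a1 h.exp hno1
  have hA2 := h.tg_rs hA1 (K := M s ∩ (Ucl U ∪ PL)) (fun e he h1 => by
    rwa [mem_tg_ne (fun h2 : e = s(x, p) => h.dj h.exp (h2 ▸ he))] at h1) hno2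
  have hA3 := pw_tgp h.pw hA2 h.exr
  obtain ⟨v, _, hv⟩ := pw_tgs_w h.pw hS hT (l := [s(x, p), s(r, s), s(x, r)])
    (by
      simp only [List.nodup_cons, List.mem_cons, List.not_mem_nil, or_false, not_or, Sym2.eq_iff, not_and,
        List.nodup_nil, and_true, not_false_iff]
      exact ⟨⟨⟨fun h1 => absurd h1 h.xr, fun h1 => absurd h1 h.xs⟩,
        ⟨fun _ => h.pr, fun h1 => absurd h1 h.xr⟩⟩,
        ⟨fun h1 => absurd h1 h.xr.symm, fun _ => h.xs.symm⟩⟩) hA3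
  refine absurd hv (not_lt.2 ?_)
  have s1 := sg_or (M s ∩ (Ucl U ∪ PL)) s(x, p)
  have s2 := sg_or (M s ∩ (Ucl U ∪ PL)) s(r, s)
  have s3 := sg_or (M s ∩ (Ucl U ∪ PL)) s(x, r)
  simp only [chg, inc_mk]
  by_cases v1 : v = x
  · subst v1
    refine con_even h.tx.1 h.tx.2 ?_
    simp only [h.xy, h.xy.symm, h.xq, h.xq.symm, h.xp, h.xp.symm, h.xr, h.xr.symm,
      h.xs, h.xs.symm, h.yq, h.yq.symm, h.yp, h.yp.symm, h.yr, h.yr.symm, h.ys, h.ys.symm, h.qp, h.qp.symm, h.qr,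
      h.qr.symm, h.qs, h.qs.symm, h.pr, h.pr.symm, h.ps, h.ps.symm, h.rs, h.rs.symm, or_self, or_false, or_true,
      false_or, true_or, if_true, if_false, ne_eq, not_true, not_false_iff, mul_one, mul_zero, add_zero, zero_add]
    omega
  by_cases v2 : v = p
  · subst v2
    exact con_free h.tp.1 h.tp.2
  by_cases v3 : v = r
  · subst v3
    refine con_even h.tr.1 h.tr.2 ?_
    simp only [h.xy, h.xy.symm, h.xq, h.xq.symm, h.xp, h.xp.symm, h.xr, h.xr.symm,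
      h.xs, h.xs.symm, h.yq, h.yq.symm, h.yp, h.yp.symm, h.yr, h.yr.symm, h.ys, h.ys.symm, h.qp, h.qp.symm, h.qr,
      h.qr.symm, h.qs, h.qs.symm, h.pr, h.pr.symm, h.ps, h.ps.symm, h.rs, h.rs.symm, or_self, or_false, or_true,
      false_or, true_or, if_true, if_false, ne_eq, not_true, not_false_iff, mul_one, mul_zero, add_zero, zero_add]
    omega
  by_cases v4 : v = s
  · subst v4
    refine con_even h.ts.1 h.ts.2 ?_
    simp only [h.xy, h.xy.symm, h.xq, h.xq.symm, h.xp, h.xp.symm, h.xr, h.xr.symm,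
      h.xs, h.xs.symm, h.yq, h.yq.symm, h.yp, h.yp.symm, h.yr, h.yr.symm, h.ys, h.ys.symm, h.qp, h.qp.symm, h.qr,
      h.qr.symm, h.qs, h.qs.symm, h.pr, h.pr.symm, h.ps, h.ps.symm, h.rs, h.rs.symm, or_self, or_false, or_true,
      false_or, true_or, if_true, if_false, ne_eq, not_true, not_false_iff, mul_one, mul_zero, add_zero, zero_add]
    omega
  exact con_z (by simp only [v1, v2, v3, v4, or_self, if_false, mul_zero, add_zero, sub_self])

end S1

end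

end Pool.Agent.PF4.XS1
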