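import Pool.Agent.PF4.XT
import Pool.Agent.PF4.XUK

/-!
The phi frame: `K4` clusters, shapes of the `K2` clusters, the elementary lemmas `L1` - `L5`.
-/

set_option autoImplicit false

namespace Pool.Agent.PF4.XT

open Finset Pool.Agent.TFC Pool.Agent.PF4 Pool.Agent.PF4.LD Pool.Agent.PF4.XC Pool.Agent.PF4.XF

/-! ### contributions -/

theorem con_neg_two_le (p m : Prop) : con p m (-2) ≤ 2 := by
  unfold con; split_ifs <;> norm_num

theorem con_two_le (p m : Prop) : con p m 2 ≤ 2 := by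
  unfold con; split_ifs <;> norm_num

theorem con_neg_two {p m : Prop} (h : 1 ≤ con p m (-2)) : m ∧ ¬ p := by
  unfold con at h
  split_ifs at h with h1 h2 h2
  · norm_num at h
  · norm_num at h
  · exact ⟨h2, h1⟩
  · norm_num at h

theorem con_two {p m : Prop} (h : -1 ≤ con p m 2) : ¬ (m ∧ ¬ p) := by
  rintro ⟨h1, h2⟩
  rw [con_X h2 h1] at h
  norm_num at h

theorem con_two_pos {p m : Prop} (h : 1 ≤ con p m 2) : p ∧ ¬ m := by
  unfold con at h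
  split_ifs at h with h1 h2 h2
  · norm_num at h
  · exact ⟨h1, h2⟩
  · norm_num at h
  · norm_num at h

theorem con_one_X {p m : Prop} (h : 0 ≤ con p m 1) : ¬ (m ∧ ¬ p) := by
  rintro ⟨h1, h2⟩
  rw [con_X h2 h1] at h
  norm_num at h

theorem con_neg_one_Y {p m : Prop} (h : 0 ≤ con p m (-1)) : ¬ (p ∧ ¬ m) := by
  rintro ⟨h1, h2⟩
  rw [con_Y h1 h2] at h
  norm_num at h

theorem con_neg_one_free {p m : Prop} (h : ¬ m) : con p m (-1) ≤ 0 := by
  by_contra hc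
  exact h (con_neg_eq (p := p) (by omega))

/-! ### evaluation -/

/-- vertices of type X contribute linearly -/
theorem ph_addX {V Y : Finset ℕ} {pl mi : ℕ → Prop} (hY : Y ⊆ V) (hX : ∀ v ∈ Y, mi v ∧ ¬ pl v) {d1 d2 : ℕ → ℤ}
    (h1 : ∀ v, v ∉ Y → d1 v = 0) : ph V pl mi (d1 + d2) = ph V pl mi d2 - ∑ v ∈ Y, d1 v := by
  have h2 : ∑ v ∈ Y, d1 v = ∑ v ∈ V, d1 v := Finset.sum_subset hY fun v _ hv => h1 v hv
  rw [h2, ph, ph, ← Finset.sum_sub_distrib]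
  refine Finset.sum_congr rfl fun v _ => ?_
  by_cases hv : v ∈ Y
  · obtain ⟨h3, h4⟩ := hX v hv
    rw [con_X h4 h3, con_X h4 h3, Pi.add_apply]
    ring
  · rw [Pi.add_apply, h1 v hv, zero_add, sub_zero]

/-- the degrees of a part of a `K4` -/
theorem sum_dv_k4 {Y : Finset ℕ} {K : Finset (Sym2 ℕ)} (hK : K ⊆ (Clu.k4 Y).edges) : ∑ v ∈ Y, dv K v = 2 * #K := by
  induction K using Finset.induction_on with
  | empty => simp [dv, dg]
  | insert e K he ih =>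
    have h1 := ih fun f hf => hK (Finset.mem_insert_of_mem hf)
    have h2 := hK (Finset.mem_insert_self e K)
    induction e using Sym2.ind with
    | _ u v =>
    rw [mem_k4] at h2
    obtain ⟨hu, hv, huv⟩ := h2
    rw [dv_insert he, dv_pair huv, Finset.card_insert_of_notMem he]
    simp only [Pi.add_apply, Finset.sum_add_distrib, XU.sum_single, if_pos hu, if_pos hv, h1]
    push_cast
    ring

theorem dv_k4_off {Y : Finset ℕ} {K : Finset (Sym2 ℕ)} (hK : K ⊆ (Clu.k4 Y).edges) {v : ℕ} (hv : v ∉ Y) :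
    dv K v = 0 := by
  refine dv_off hK fun hc => hv ?_
  obtain ⟨e, he, hve⟩ := mem_vs.1 hc
  obtain ⟨w, rfl⟩ := hve
  exact (mem_k4.1 he).1

/-- one more edge removed -/
theorem ph_sub_edge {V : Finset ℕ} {pl mi : ℕ → Prop} {a b : ℕ} (ha : a ∈ V) (hb : b ∈ V) (hab : a ≠ b) :
    ph V pl mi (-dv {s(a, b)}) = con (pl a) (mi a) (-1) + con (pl b) (mi b) (-1) := by
  rw [dv_pair hab, neg_add, ← Pi.single_neg, ← Pi.single_neg, ph_two ha hb hab]

/-! ### replacing the part in one cluster -/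

section
variable {X : XD} {P : ℕ → Finset (Sym2 ℕ) → Prop} {D : Finset (Finset (Sym2 ℕ))} {j : ℕ} {S : Finset ℕ}
  {M : ℕ → Finset (Sym2 ℕ)} {A : Clu ℕ → Finset (Sym2 ℕ) → Prop} {CL U : List (Clu ℕ)} {PL : Finset (Sym2 ℕ)}
  {pl mi : ℕ → Prop}

theorem PW.cW' (_ : PW X P D j S M A CL U PL pl mi) {c : Clu ℕ} (hc : c ∈ U) : c.edges ⊆ Ucl U ∪ PL :=
  fun _ he => Finset.mem_union_left _ (mem_Ucl.2 ⟨c, hc, he⟩)

theorem PW.interW (h : PW X P D j S M A CL U PL pl mi) {c : Clu ℕ} (hc : c ∈ U) (L : Finset (Sym2 ℕ)) :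
    L ∩ (Ucl U ∪ PL) ∩ c.edges = L ∩ c.edges := by
  rw [Finset.inter_assoc]
  congr 1
  rw [Finset.inter_eq_right]
  exact h.cW' hc

theorem PW.val' (h : PW X P D j S M A CL U PL pl mi) {c : Clu ℕ} (hc : c ∈ U) : c.Valid :=
  h.cls.val c ((h.uc c).1 hc).1

theorem PW.eqc (h : PW X P D j S M A CL U PL pl mi) {c c' : Clu ℕ} (hc : c ∈ U) (hc' : c' ∈ U) {e : Sym2 ℕ}
    (he : e ∈ c.edges) (he' : e ∈ c'.edges) : c = c' :=
  h.cls.eq ((h.uc c).1 hc).1 ((h.uc c').1 hc').1 he he'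

theorem PW.v2' (h : PW X P D j S M A CL U PL pl mi) {e : Sym2 ℕ} (he : e ∈ Ucl U ∪ PL) {v : ℕ} (hv : v ∈ e) :
    v ∈ X.V2 := by
  by_contra hc
  have h1 := dg_off h.ok h.w2 hc
  rw [dg, Finset.card_eq_zero, Finset.filter_eq_empty_iff] at h1
  exact h1 he hv

/-- the cluster of a square of `D` in the region -/
theorem PW.clq (h : PW X P D j S M A CL U PL pl mi) {Z : Finset (Sym2 ℕ)} (hZ : Z ∈ D) (hZU : Z ⊆ Ucl U) :
    ∃ c ∈ U, Z ⊆ c.edges := by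
  obtain ⟨a, b, x, y, _, hZe⟩ := h.isq Z hZ
  have he : s(a, b) ∈ Z := by rw [hZe]; simp [TFC.sq]
  obtain ⟨c, hc, hec⟩ := mem_Ucl.1 (hZU he)
  refine ⟨c, hc, (h.cls.whole ((h.uc c).1 hc).1 hZ).resolve_right fun hd => ?_⟩
  exact Finset.disjoint_left.1 hd he hec

/-- replace the part in the cluster `c` by `F` -/
theorem PW.rep (h : PW X P D j S M A CL U PL pl mi) {c : Clu ℕ} (hc : c ∈ U) {K0 F : Finset (Sym2 ℕ)}
    (hK : K0 ⊆ Ucl U ∪ PL) (hA : ∀ c' ∈ U, c' ≠ c → A c' (K0 ∩ c'.edges)) (hF : F ⊆ c.edges) (hAF : A c F) :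
    AU A U PL ((K0 \ c.edges) ∪ F) ∧ dv ((K0 \ c.edges) ∪ F) = dv K0 - dv (K0 ∩ c.edges) + dv F := by
  have hd : Disjoint (K0 \ c.edges) F := Finset.disjoint_of_subset_right hF Finset.sdiff_disjoint
  refine ⟨⟨Finset.union_subset (Finset.sdiff_subset.trans hK) (hF.trans (h.cW' hc)), fun c' hc' => ?_⟩, ?_⟩
  · by_cases hcc : c' = c
    · subst hcc
      have e : (K0 \ c'.edges ∪ F) ∩ c'.edges = F := by
        rw [Finset.union_inter_distrib_right, Finset.inter_eq_left.2 hF,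
          Finset.disjoint_iff_inter_eq_empty.1 Finset.sdiff_disjoint, Finset.empty_union]
      rw [e]
      exact hAF
    · have hdc : Disjoint c.edges c'.edges := by
        rw [Finset.disjoint_left]
        intro e he he'
        exact hcc (h.eqc hc' hc he' he)
      have e : (K0 \ c.edges ∪ F) ∩ c'.edges = K0 ∩ c'.edges := by
        rw [Finset.union_inter_distrib_right, Finset.disjoint_iff_inter_eq_empty.1 (hdc.mono_left hF),
          Finset.union_empty]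
        ext e
        simp only [Finset.mem_inter, Finset.mem_sdiff]
        refine ⟨fun h1 => ⟨h1.1.1, h1.2⟩, fun h1 => ⟨⟨h1.1, fun h2 => ?_⟩, h1.2⟩⟩
        exact Finset.disjoint_left.1 hdc h2 h1.2
      rw [e]
      exact hA c' hc' hcc
  · rw [dv_union hd]
    congr 1
    have e : K0 \ c.edges = K0 \ (K0 ∩ c.edges) := by
      ext e
      simp only [Finset.mem_inter, Finset.mem_sdiff]
      tauto
    rw [e, dv_sdiff Finset.inter_subset_left]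

/-- `L` is allowed outside of the cluster `c` -/
def Out (A : Clu ℕ → Finset (Sym2 ℕ) → Prop) (U : List (Clu ℕ)) (c : Clu ℕ) (L : Finset (Sym2 ℕ)) : Prop :=
  ∀ c' ∈ U, c' ≠ c → A c' (L ∩ c'.edges)

/-- **near cover with the part in one cluster replaced** -/
theorem PW.nc_rep (h : PW X P D j S M A CL U PL pl mi) {w : ℕ} (hw : w ∈ S) (hT : w ∈ X.T) {c : Clu ℕ} (hc : c ∈ U)
    (hA : Out A U c (M w)) {F : Finset (Sym2 ℕ)} (hF : F ⊆ c.edges) (hAF : A c F) :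
    1 ≤ ph X.V2 pl mi (dv F - dv (M w ∩ c.edges) - Pi.single w 1) := by
  obtain ⟨h1, h2⟩ := h.rep hc (K0 := M w ∩ (Ucl U ∪ PL)) Finset.inter_subset_right
    (fun c' hc' hne => by rw [h.interW hc']; exact hA c' hc' hne) hF hAF
  have h3 := h.nc w hw hT _ h1
  rw [h2, h.interW hc] at h3
  have e : dv (M w ∩ (Ucl U ∪ PL)) - dv (M w ∩ c.edges) + dv F - dv (M w ∩ (Ucl U ∪ PL)) - Pi.single w 1 =
      dv F - dv (M w ∩ c.edges) - Pi.single w 1 := by abel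
  rwa [e] at h3

/-- what a witness of `Z` is -/
structure Wt (X : XD) (P : ℕ → Finset (Sym2 ℕ) → Prop) (D : Finset (Finset (Sym2 ℕ))) (j : ℕ)
    (Z L : Finset (Sym2 ℕ)) : Prop where
  mem : P j L
  cov : Cv X L
  m2 : M2 L
  sub : L ⊆ X.E
  sq : Z ⊆ L
  uni : ∀ Z' ∈ D, Z' ⊆ L → Z' = Z

theorem PW.wt (h : PW X P D j S M A CL U PL pl mi) {Z : Finset (Sym2 ℕ)} (hZ : Z ∈ D) : ∃ L, Wt X P D j Z L := by
  obtain ⟨L, h1, h2, h3, h4, h5, h6⟩ := h.witE Z hZ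
  exact ⟨L, h1, h2, h3, h4, h5, h6⟩

/-- **witness with `R` removed and the part in one cluster replaced** -/
theorem PW.wit_rep (h : PW X P D j S M A CL U PL pl mi) {Z L : Finset (Sym2 ℕ)} (hZ : Z ∈ D) (hZU : Z ⊆ Ucl U)
    (hL : Wt X P D j Z L) {c : Clu ℕ} (hc : c ∈ U) {R : Finset (Sym2 ℕ)} (hR : R ⊆ L) (hRW : R ⊆ Ucl U ∪ PL)
    (hA : Out A U c (L \ R)) {F : Finset (Sym2 ℕ)} (hF : F ⊆ c.edges) (hAF : A c F) :
    1 ≤ ph X.V2 pl mi (dv F - dv ((L \ R) ∩ c.edges) - dv R) := by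
  have e0 : (L \ R) ∩ (Ucl U ∪ PL) = (L ∩ (Ucl U ∪ PL)) \ R := by
    ext e
    simp only [Finset.mem_inter, Finset.mem_sdiff]
    tauto
  obtain ⟨h1, h2⟩ := h.rep hc (K0 := (L \ R) ∩ (Ucl U ∪ PL)) Finset.inter_subset_right
    (fun c' hc' hne => by rw [h.interW hc']; exact hA c' hc' hne) hF hAF
  have h3 := h.witA Z hZ hZU L hL.mem hL.cov hL.uni _ h1
  rw [h2, h.interW hc, e0, dv_sdiff (Finset.subset_inter hR hRW)] at h3
  have e : dv (L ∩ (Ucl U ∪ PL)) - dv R - dv ((L \ R) ∩ c.edges) + dv F - dv (L ∩ (Ucl U ∪ PL)) =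
      dv F - dv ((L \ R) ∩ c.edges) - dv R := by abel
  rwa [e] at h3

/-- witness with the part in one cluster replaced -/
theorem PW.wit_rep0 (h : PW X P D j S M A CL U PL pl mi) {Z L : Finset (Sym2 ℕ)} (hZ : Z ∈ D) (hZU : Z ⊆ Ucl U)
    (hL : Wt X P D j Z L) {c : Clu ℕ} (hc : c ∈ U) (hA : Out A U c L) {F : Finset (Sym2 ℕ)} (hF : F ⊆ c.edges)
    (hAF : A c F) : 1 ≤ ph X.V2 pl mi (dv F - dv (L ∩ c.edges)) := by
  have := h.wit_rep hZ hZU hL hc (R := ∅) (Finset.empty_subset _) (Finset.empty_subset _)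
    (by rw [Finset.sdiff_empty]; exact hA) hF hAF
  rw [Finset.sdiff_empty, dv_empty, sub_zero] at this
  exact this

/-! ### allowed sets -/

/-- no square at all -/
def NSq (K : Finset (Sym2 ℕ)) : Prop := ∀ Z, IsSq Z → ¬ Z ⊆ K

theorem NSq.mono {K K' : Finset (Sym2 ℕ)} (h : NSq K) (hK : K' ⊆ K) : NSq K' := fun Z hZ hs => h Z hZ (hs.trans hK)

theorem nsq_small {K : Finset (Sym2 ℕ)} (h : #K < 4) : NSq K := by
  rintro Z ⟨a, b, c, d, h4, rfl⟩ hs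
  have := Finset.card_le_card hs
  rw [R4_card_sq h4] at this
  omega

theorem nsq_good {K : Finset (Sym2 ℕ)} (hK : NoLoop K) : NSq K ↔ Good none4 K := by
  constructor
  · intro h a b c d hs
    exact h _ ⟨a, b, c, d, hs.dist4 hK, rfl⟩ (R4_sq_sub hs)
  · rintro h Z ⟨a, b, c, d, ⟨_, hac, _, _, hbd, _⟩, rfl⟩ hs
    exact h a b c d ⟨hac, hbd, hs (by simp [TFC.sq]), hs (by simp [TFC.sq]), hs (by simp [TFC.sq]),
      hs (by simp [TFC.sq])⟩

/-- all square-free 2-matchings of the cluster are allowed (true in every frame) -/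
def AM2 (A : Clu ℕ → Finset (Sym2 ℕ) → Prop) (c : Clu ℕ) : Prop := ∀ K ⊆ c.edges, M2 K → NSq K → A c K

/-- capped frame at the cluster `c`: all 2-matchings without square of `D` are allowed -/
def ACp (D : Finset (Finset (Sym2 ℕ))) (A : Clu ℕ → Finset (Sym2 ℕ) → Prop) (c : Clu ℕ) : Prop :=
  ∀ K ⊆ c.edges, Acap D K → A c K

/-- uncapped square-free frame at the cluster `c` -/
def ASf (A : Clu ℕ → Finset (Sym2 ℕ) → Prop) (c : Clu ℕ) : Prop := ∀ K ⊆ c.edges, NSq K → A c K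

theorem ASf.am2 {A : Clu ℕ → Finset (Sym2 ℕ) → Prop} {c : Clu ℕ} (h : ASf A c) : AM2 A c :=
  fun K hK _ hs => h K hK hs

theorem ACp.am2 {A : Clu ℕ → Finset (Sym2 ℕ) → Prop} {c : Clu ℕ} (hD : ∀ Z ∈ D, IsSq Z) (h : ACp D A c) :
    AM2 A c := fun K hK hm hs => h K hK ⟨hm, fun Z hZ => hs Z (hD Z hZ)⟩

/-! ### `K4` clusters -/

theorem k4_dv_sq {Y : Finset ℕ} (hY : #Y = 4) {K Z : Finset (Sym2 ℕ)} (hK : K ⊆ (Clu.k4 Y).edges) (hM : M2 K)
    (hZ : IsSq Z) (hs : Z ⊆ K) : dv K = R4_tx Y := by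
  obtain ⟨a, b, c, d, ⟨_, hac, _, _, hbd, _⟩, rfl⟩ := hZ
  exact R4_dv_sq hY hK hM (a := a) (b := b) (c := c) (d := d) ⟨hac, hbd, hs (by simp [TFC.sq]),
    hs (by simp [TFC.sq]), hs (by simp [TFC.sq]), hs (by simp [TFC.sq])⟩

/-- a part of a `K4` with a given pair of deficits -/
theorem k4_part {Y : Finset ℕ} (hY : #Y = 4) {i j : ℕ} (hi : i ∈ Y) (hj : j ∈ Y) :
    ∃ F ⊆ (Clu.k4 Y).edges, M2 F ∧ NSq F ∧ dv F = R4_tx Y - ev i - ev j := by
  obtain ⟨F, h1, h2, h3, h4⟩ := R4_JS hY hi hj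
  exact ⟨F, h1, h2, (nsq_good h2.nl).2 h3, h4.symm⟩

theorem sum_tx {Y : Finset ℕ} (hY : #Y = 4) : ∑ v ∈ Y, R4_tx Y v = 8 := by
  have : ∀ v ∈ Y, R4_tx Y v = 2 := fun v hv => by rw [R4_tx, if_pos hv]
  rw [Finset.sum_congr rfl this, Finset.sum_const, hY]
  norm_num

theorem ev_single (v : ℕ) : (ev v : ℕ → ℤ) = Pi.single v 1 := rfl

/-- **the vertices of a `K4` cluster are of type X** -/
theorem PW.k4X' (h : PW X P D j S M A CL U PL pl mi) {Y : Finset ℕ} (hY : Clu.k4 Y ∈ U) (hAK : AM2 A (Clu.k4 Y))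
    {Z L : Finset (Sym2 ℕ)} (hZ : Z ∈ D) (hZY : Z ⊆ (Clu.k4 Y).edges) (hL : Wt X P D j Z L)
    (hA : Out A U (Clu.k4 Y) L) : ∀ v ∈ Y, mi v ∧ ¬ pl v := by
  intro v hv
  have h4 : #Y = 4 := h.val' hY
  have hZU : Z ⊆ Ucl U := fun e he => mem_Ucl.2 ⟨_, hY, hZY he⟩
  obtain ⟨F, f1, f2, f3, f4⟩ := k4_part h4 hv hv
  have h1 := h.wit_rep0 hZ hZU hL hY hA f1 (hAK F f1 f2 f3)
  rw [k4_dv_sq h4 Finset.inter_subset_right (hL.m2.mono Finset.inter_subset_left) (h.isq Z hZ)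
    (Finset.subset_inter hL.sq hZY), f4] at h1
  have hvV : v ∈ X.V2 := by
    obtain ⟨w, hw, hne⟩ := Finset.exists_mem_ne (by omega : 1 < #Y) v
    have he : s(v, w) ∈ (Clu.k4 Y).edges := mem_k4.2 ⟨hv, hw, hne.symm⟩
    exact h.v2' (h.cW' hY he) (by simp)
  have e : R4_tx Y - ev v - ev v - R4_tx Y = Pi.single v (-2) := by
    funext w
    simp only [Pi.sub_apply, ev_apply, sgl]
    split_ifs <;> ring
  rw [e, ph_one hvV] at h1
  exact con_neg_two h1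

/-- **all squares of a `K4` cluster are in `D`** (capped frame at the cluster) -/
theorem PW.k4D (h : PW X P D j S M A CL U PL pl mi) {Y : Finset ℕ} (hY : Clu.k4 Y ∈ U) (hAK : ACp D A (Clu.k4 Y))
    {Z L : Finset (Sym2 ℕ)} (hZ : Z ∈ D) (hZY : Z ⊆ (Clu.k4 Y).edges) (hL : Wt X P D j Z L)
    (hA : Out A U (Clu.k4 Y) L) : ∀ Z', IsSq Z' → Z' ⊆ (Clu.k4 Y).edges → Z' ∈ D := by
  intro Z' hq hZ'
  by_contra hn
  have h4 : #Y = 4 := h.val' hY
  have hZU : Z ⊆ Ucl U := fun e he => mem_Ucl.2 ⟨_, hY, hZY he⟩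
  have hM : M2 Z' := by
    obtain ⟨a, b, c, d, h5, rfl⟩ := hq
    exact Unit_sq_M2 h5
  have hcap : Acap D Z' := by
    refine ⟨hM, fun Z'' h5 h6 => hn ?_⟩
    have h7 : Z'' = Z' := by
      refine Finset.eq_of_subset_of_card_le h6 ?_
      obtain ⟨a, b, c, d, h8, rfl⟩ := hq
      obtain ⟨a', b', c', d', h9, rfl⟩ := h.isq Z'' h5
      rw [R4_card_sq h8, R4_card_sq h9]
    rw [← h7]
    exact h5
  have h1 := h.wit_rep0 hZ hZU hL hY hA hZ' (hAK Z' hZ' hcap)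
  rw [k4_dv_sq h4 Finset.inter_subset_right (hL.m2.mono Finset.inter_subset_left) (h.isq Z hZ)
    (Finset.subset_inter hL.sq hZY), k4_dv_sq h4 hZ' hM hq le_rfl, sub_self, ph_zero] at h1
  norm_num at h1

/-- evaluation for `K4`: a set with fewer than three edges is replaced -/
theorem PW.k4_eval (h : PW X P D j S M A CL U PL pl mi) {Y : Finset ℕ} (hY : Clu.k4 Y ∈ U)
    (hX : ∀ v ∈ Y, mi v ∧ ¬ pl v) {F K : Finset (Sym2 ℕ)} (hF : F ⊆ (Clu.k4 Y).edges) (hK : K ⊆ (Clu.k4 Y).edges)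
    (d : ℕ → ℤ) : ph X.V2 pl mi (dv F - dv K + d) = ph X.V2 pl mi d - 2 * #F + 2 * #K := by
  have h4 : #Y = 4 := h.val' hY
  have hYV : Y ⊆ X.V2 := by
    intro v hv
    obtain ⟨w, hw, hne⟩ := Finset.exists_mem_ne (by omega : 1 < #Y) v
    have he : s(v, w) ∈ (Clu.k4 Y).edges := mem_k4.2 ⟨hv, hw, hne.symm⟩
    exact h.v2' (h.cW' hY he) (by simp)
  rw [ph_addX hYV hX fun v hv => by rw [Pi.sub_apply, dv_k4_off hF hv, dv_k4_off hK hv, sub_zero]]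
  simp only [Pi.sub_apply, Finset.sum_sub_distrib, sum_dv_k4 hF, sum_dv_k4 hK]
  ring

theorem k4_tri {Y : Finset ℕ} (hY : #Y = 4) : ∃ F ⊆ (Clu.k4 Y).edges, M2 F ∧ NSq F ∧ #F = 3 := by
  obtain ⟨i, hi⟩ : Y.Nonempty := by rw [← Finset.card_pos]; omega
  obtain ⟨F, h1, h2, h3, h4⟩ := k4_part hY hi hi
  refine ⟨F, h1, h2, h3, ?_⟩
  have h5 := sum_dv_k4 h1
  have h6 : ∑ v ∈ Y, dv F v = 6 := by
    rw [h4]
    simp only [Pi.sub_apply, Finset.sum_sub_distrib, ev_single, XU.sum_single, if_pos hi, sum_tx hY]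
    norm_num
  omega

theorem k4_le {Y : Finset ℕ} (hY : #Y = 4) (hD : ∀ Z', IsSq Z' → Z' ⊆ (Clu.k4 Y).edges → Z' ∈ D)
    {K : Finset (Sym2 ℕ)} (hK : K ⊆ (Clu.k4 Y).edges) (hc : Acap D K) : #K ≤ 3 := by
  refine R4_card_le hY hK hc.1 ((nsq_good hc.1.nl).1 fun Z hZ hs => ?_)
  exact hc.2 Z (hD Z hZ (hs.trans hK)) hs

/-- **a near cover has exactly three edges in every `K4` cluster** -/
theorem PW.k4M (h : PW X P D j S M A CL U PL pl mi) {Y : Finset ℕ} (hY : Clu.k4 Y ∈ U) (hAK : AM2 A (Clu.k4 Y))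
    (hX : ∀ v ∈ Y, mi v ∧ ¬ pl v) (hD : ∀ Z', IsSq Z' → Z' ⊆ (Clu.k4 Y).edges → Z' ∈ D) {w : ℕ} (hw : w ∈ S)
    (hT : w ∈ X.T) (hA : Out A U (Clu.k4 Y) (M w)) (hcap : Acap D (M w ∩ (Clu.k4 Y).edges)) :
    #(M w ∩ (Clu.k4 Y).edges) = 3 := by
  have h4 : #Y = 4 := h.val' hY
  have hle := k4_le h4 hD Finset.inter_subset_right hcap
  by_contra hne
  obtain ⟨F, f1, f2, f3, f4⟩ := k4_tri h4
  have h1 := h.nc_rep hw hT hY hA f1 (hAK F f1 f2 f3)
  rw [sub_eq_add_neg (dv F - _) (Pi.single w 1), h.k4_eval hY hX f1 Finset.inter_subset_right, f4, ← Pi.single_neg,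
    ph_one (h.sv w hw)] at h1
  have h2 := con_neg_one (pl w) (mi w)
  omega

/-- **the witness of a square outside has exactly three edges in every `K4` cluster** -/
theorem PW.k4F (h : PW X P D j S M A CL U PL pl mi) {Y : Finset ℕ} (hY : Clu.k4 Y ∈ U) (hAK : AM2 A (Clu.k4 Y))
    (hX : ∀ v ∈ Y, mi v ∧ ¬ pl v) (hD : ∀ Z', IsSq Z' → Z' ⊆ (Clu.k4 Y).edges → Z' ∈ D)
    {Z L : Finset (Sym2 ℕ)} (hZ : Z ∈ D) (hZU : Z ⊆ Ucl U) (hZY : ¬ Z ⊆ (Clu.k4 Y).edges) (hL : Wt X P D j Z L)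
    {e : Sym2 ℕ} (he : e ∈ Z) (hA : Out A U (Clu.k4 Y) (L \ {e})) : #(L ∩ (Clu.k4 Y).edges) = 3 := by
  have h4 : #Y = 4 := h.val' hY
  have hcap : Acap D (L ∩ (Clu.k4 Y).edges) := by
    refine ⟨hL.m2.mono Finset.inter_subset_left, fun Z' h1 h2 => hZY ?_⟩
    rw [← hL.uni Z' h1 (h2.trans Finset.inter_subset_left)]
    exact h2.trans Finset.inter_subset_right
  have hle := k4_le h4 hD Finset.inter_subset_right hcap
  by_contra hne
  obtain ⟨F, f1, f2, f3, f4⟩ := k4_tri h4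
  have heY : e ∉ (Clu.k4 Y).edges := fun hc =>
    hZY (((h.cls.whole ((h.uc _).1 hY).1 hZ)).resolve_right fun hd => Finset.disjoint_left.1 hd he hc)
  have h1 := h.wit_rep hZ hZU hL hY (R := {e}) (Finset.singleton_subset_iff.2 (hL.sq he))
    (Finset.singleton_subset_iff.2 (Finset.mem_union_left _ (hZU he))) hA f1 (hAK F f1 f2 f3)
  have e1 : (L \ {e}) ∩ (Clu.k4 Y).edges = L ∩ (Clu.k4 Y).edges := by
    ext f
    simp only [Finset.mem_inter, Finset.mem_sdiff, Finset.mem_singleton]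
    refine ⟨fun h => ⟨h.1.1, h.2⟩, fun h => ⟨⟨h.1, ?_⟩, h.2⟩⟩
    rintro rfl
    exact heY h.2
  rw [e1, sub_eq_add_neg (dv F - _) (dv {e}), h.k4_eval hY hX f1 Finset.inter_subset_right, f4] at h1
  have h2 : ph X.V2 pl mi (-dv {e}) ≤ 2 := by
    have heW : e ∈ Ucl U ∪ PL := Finset.mem_union_left _ (hZU he)
    have hnl := hL.m2.nl e (hL.sq he)
    induction e using Sym2.ind with
    | _ a b =>
    rw [ph_sub_edge (h.v2' heW (by simp)) (h.v2' heW (by simp)) (by simpa using hnl)]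
    have := con_neg_one (pl a) (mi a)
    have := con_neg_one (pl b) (mi b)
    omega
  omega

end

end Pool.Agent.PF4.XT
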