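import Pool.Agent.PF4.XCl
import Pool.Agent.PF4.RG
import Pool.Agent.TFC.JumpJS

/-!
# The phi frame

Allowed families of edge sets (`A c K`: the part `K` in the cluster `c` is allowed), the jump set of the differences
`dv K - k` (`K` allowed, `k` a demand vector of the world), the types of the vertices and the inequality `1 ≤ ph d`.

Signs as on paper: `mi v` = the unit `-e_v` is a fact, `pl v` = the unit `+e_v` is a fact; type X: `mi` only, type Y: `pl`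
only, type Z: both, type N: none. `ph d = sum_Y d - sum_X d + #{v in Z : d v odd}`.
-/

set_option autoImplicit false

namespace Pool.Agent.PF4.XT

open Finset Pool.Agent.TFC Pool.Agent.PF4 Pool.Agent.PF4.LD Pool.Agent.PF4.XC Pool.Agent.PF4.XF

/-! ### the form -/

open Classical in
/-- contribution of one vertex -/
noncomputable def con (p m : Prop) (a : ℤ) : ℤ := if p then (if m then a % 2 else a) else (if m then -a else 0)

/-- the form -/
noncomputable def ph (V : Finset ℕ) (pl mi : ℕ → Prop) (d : ℕ → ℤ) : ℤ := ∑ v ∈ V, con (pl v) (mi v) (d v)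

theorem con_zero (p m : Prop) : con p m 0 = 0 := by
  unfold con; split_ifs <;> rfl

theorem con_X {p m : Prop} (hp : ¬ p) (hm : m) (a : ℤ) : con p m a = -a := by
  unfold con; rw [if_neg hp, if_pos hm]

theorem con_Y {p m : Prop} (hp : p) (hm : ¬ m) (a : ℤ) : con p m a = a := by
  unfold con; rw [if_pos hp, if_neg hm]

theorem con_Z {p m : Prop} (hp : p) (hm : m) (a : ℤ) : con p m a = a % 2 := by
  unfold con; rw [if_pos hp, if_pos hm]

theorem con_N {p m : Prop} (hp : ¬ p) (hm : ¬ m) (a : ℤ) : con p m a = 0 := by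
  unfold con; rw [if_neg hp, if_neg hm]

theorem con_one (p m : Prop) : con p m 1 ≤ 1 := by
  unfold con; split_ifs <;> norm_num

theorem con_one_eq {p m : Prop} (h : 0 < con p m 1) : p := by
  by_contra hp
  unfold con at h
  rw [if_neg hp] at h
  split_ifs at h <;> norm_num at h

theorem con_neg_one (p m : Prop) : con p m (-1) ≤ 1 := by
  unfold con; split_ifs <;> norm_num

theorem con_neg_eq {p m : Prop} (h : 0 < con p m (-1)) : m := by
  by_contra hm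
  unfold con at h
  split_ifs at h <;> norm_num at h

theorem ph_zero (V : Finset ℕ) (pl mi : ℕ → Prop) : ph V pl mi 0 = 0 := by
  unfold ph
  refine Finset.sum_eq_zero fun v _ => ?_
  rw [Pi.zero_apply, con_zero]

/-- the form of a vector that vanishes off `S` -/
theorem ph_supp {V : Finset ℕ} {pl mi : ℕ → Prop} {S : Finset ℕ} (hS : S ⊆ V) {d : ℕ → ℤ}
    (h : ∀ v ∈ V, v ∉ S → d v = 0) : ph V pl mi d = ∑ v ∈ S, con (pl v) (mi v) (d v) := by
  unfold ph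
  symm
  refine Finset.sum_subset hS fun v hv hvS => ?_
  rw [h v hv hvS, con_zero]

/-- add a multiple of a unit vector at a vertex where the vector is zero -/
theorem ph_add {V : Finset ℕ} {pl mi : ℕ → Prop} {v : ℕ} (hv : v ∈ V) {d : ℕ → ℤ} (hd : d v = 0) (c : ℤ) :
    ph V pl mi (d + Pi.single v c) = ph V pl mi d + con (pl v) (mi v) c := by
  unfold ph
  have h := RG.sum_upd hv (fun u a => con (pl u) (mi u) a) d c
  rw [h, hd, con_zero, zero_add, sub_zero]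

/-- at most two vertices -/
theorem ph_two {V : Finset ℕ} {pl mi : ℕ → Prop} {u v : ℕ} (hu : u ∈ V) (hv : v ∈ V) (huv : u ≠ v) (a b : ℤ) :
    ph V pl mi (Pi.single u a + Pi.single v b) = con (pl u) (mi u) a + con (pl v) (mi v) b := by
  rw [ph_add hv (by rw [sgl, if_neg huv.symm])]
  have h := ph_add (pl := pl) (mi := mi) hu (d := 0) rfl a
  rw [zero_add, ph_zero, zero_add] at h
  rw [h]

theorem ph_one {V : Finset ℕ} {pl mi : ℕ → Prop} {u : ℕ} (hu : u ∈ V) (a : ℤ) :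
    ph V pl mi (Pi.single u a) = con (pl u) (mi u) a := by
  have h := ph_add (pl := pl) (mi := mi) hu (d := 0) rfl a
  rwa [zero_add, ph_zero, zero_add] at h

/-! ### degree vectors -/

theorem dv_union {O K : Finset (Sym2 ℕ)} (h : Disjoint O K) : dv (O ∪ K) = dv O + dv K := by
  funext v
  rw [Pi.add_apply, dv, dv, dv, dg_union h]
  push_cast
  rfl

theorem dv_sdiff {L A : Finset (Sym2 ℕ)} (h : A ⊆ L) : dv (L \ A) = dv L - dv A := by
  have h1 := dv_union (O := L \ A) (K := A) Finset.sdiff_disjoint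
  rw [Finset.sdiff_union_of_subset h] at h1
  rw [h1, add_sub_cancel_right]

/-- remove `A`, add `B` -/
theorem dv_swap {L A B : Finset (Sym2 ℕ)} (hA : A ⊆ L) (hB : Disjoint B L) :
    dv ((L \ A) ∪ B) = dv L - dv A + dv B := by
  rw [dv_union (hB.mono_right Finset.sdiff_subset).symm, dv_sdiff hA]

theorem dv_empty : dv (∅ : Finset (Sym2 ℕ)) = 0 := by
  funext v
  simp [dv, dg]

theorem dv_single {e : Sym2 ℕ} : dv ({e} : Finset (Sym2 ℕ)) = fun v => if v ∈ e then 1 else 0 := by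
  funext v
  rw [dv, dg, Finset.filter_singleton]
  split_ifs <;> simp

theorem dv_pair {u v : ℕ} (h : u ≠ v) : dv ({s(u, v)} : Finset (Sym2 ℕ)) = Pi.single u 1 + Pi.single v 1 := by
  rw [dv_single]
  funext w
  rw [Pi.add_apply, sgl, sgl]
  by_cases h1 : w = u
  · have h2 : ¬ w = v := by rw [h1]; exact h
    rw [if_pos (Sym2.mem_iff.2 (Or.inl h1)), if_pos h1, if_neg h2]
    rfl
  · by_cases h2 : w = v
    · rw [if_pos (Sym2.mem_iff.2 (Or.inr h2)), if_neg h1, if_pos h2]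
      rfl
    · rw [if_neg (by rw [Sym2.mem_iff]; tauto), if_neg h1, if_neg h2]
      rfl

theorem dv_insert {e : Sym2 ℕ} {L : Finset (Sym2 ℕ)} (h : e ∉ L) : dv (insert e L) = dv L + dv {e} := by
  rw [Finset.insert_eq, Finset.union_comm, dv_union (Finset.disjoint_singleton_right.2 h)]

/-- the vertices of an edge set -/
def vs (E : Finset (Sym2 ℕ)) : Finset ℕ := E.biUnion Sym2.toFinset

theorem mem_vs {E : Finset (Sym2 ℕ)} {v : ℕ} : v ∈ vs E ↔ ∃ e ∈ E, v ∈ e := by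
  simp [vs]

theorem dv_off {E K : Finset (Sym2 ℕ)} (hK : K ⊆ E) {v : ℕ} (hv : v ∉ vs E) : dv K v = 0 := by
  rw [dv, Nat.cast_eq_zero, dg, Finset.card_eq_zero, Finset.filter_eq_empty_iff]
  intro e he hve
  exact hv (mem_vs.2 ⟨e, hK he, hve⟩)

/-! ### allowed families -/

theorem jb_iff {A B : (ℕ → ℤ) → Prop} (h : ∀ x, A x ↔ B x) (hA : JB A) : JB B := by
  have : A = B := funext fun x => propext (h x)
  rwa [← this]

theorem jb_of_jump {J : Set (ℕ → ℤ)} (h : Jump J) : JB (fun x => x ∈ J) := by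
  intro x y i ε hx hy hε hp
  obtain ⟨j, δ, h1, h2, h3⟩ := h x hx y hy i ε hε hp
  exact ⟨_, h3, j, δ, h1, h2, rfl⟩

/-- the vectors of the edge sets in `E` with the property `A` -/
def Vc (E : Finset (Sym2 ℕ)) (A : Finset (Sym2 ℕ) → Prop) (b : ℕ → ℤ) : Prop := ∃ K ⊆ E, A K ∧ b = dv K

theorem Vc.off {E : Finset (Sym2 ℕ)} {A : Finset (Sym2 ℕ) → Prop} {b : ℕ → ℤ} (h : Vc E A b) {v : ℕ}
    (hv : v ∉ vs E) : b v = 0 := by
  obtain ⟨K, hK, _, rfl⟩ := h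
  exact dv_off hK hv

/-- two disjoint regions -/
theorem jb_union {E E' : Finset (Sym2 ℕ)} (hd : Disjoint E E') {A A' : Finset (Sym2 ℕ) → Prop} (h : JB (Vc E A))
    (h' : JB (Vc E' A')) : JB (Vc (E ∪ E') fun K => A (K ∩ E) ∧ A' (K ∩ E')) := by
  refine jb_iff (fun x => ?_) (h.add (S := vs E') h' fun b hb v hv => hb.off hv)
  constructor
  · rintro ⟨_, _, ⟨K, hK, hA, rfl⟩, ⟨K', hK', hA', rfl⟩, rfl⟩
    have e1 : (K ∪ K') ∩ E = K := by
      rw [Finset.union_inter_distrib_right, Finset.inter_eq_left.2 hK,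
        Finset.disjoint_iff_inter_eq_empty.1 (hd.mono_right hK').symm, Finset.union_empty]
    have e2 : (K ∪ K') ∩ E' = K' := by
      rw [Finset.union_inter_distrib_right, Finset.inter_eq_left.2 hK',
        Finset.disjoint_iff_inter_eq_empty.1 (hd.mono_left hK), Finset.empty_union]
    refine ⟨K ∪ K', Finset.union_subset_union hK hK', ⟨by rw [e1]; exact hA, by rw [e2]; exact hA'⟩, ?_⟩
    rw [dv_union (hd.mono hK hK')]
  · rintro ⟨K, hK, ⟨hA, hA'⟩, rfl⟩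
    refine ⟨dv (K ∩ E), dv (K ∩ E'), ⟨_, Finset.inter_subset_right, hA, rfl⟩,
      ⟨_, Finset.inter_subset_right, hA', rfl⟩, ?_⟩
    rw [← dv_union (hd.mono Finset.inter_subset_right Finset.inter_subset_right),
      ← Finset.inter_union_distrib_left, Finset.inter_eq_left.2 hK]

/-- one plain edge -/
theorem jb_edge {e : Sym2 ℕ} (he : ¬ e.IsDiag) : JB (Vc {e} fun _ => True) := by
  induction e using Sym2.ind with
  | _ u v =>
  have huv : u ≠ v := by simpa using he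
  refine jb_iff (fun x => ?_) (jb_of_jump (jump_Un {u} {v}))
  constructor
  · rintro (rfl | ⟨s, hs, t, ht, rfl⟩)
    · exact ⟨∅, Finset.empty_subset _, trivial, dv_empty.symm⟩
    · rw [Finset.mem_singleton] at hs ht
      subst hs ht
      exact ⟨{s(s, t)}, le_rfl, trivial, (dv_pair huv).symm⟩
  · rintro ⟨K, hK, _, rfl⟩
    rcases Finset.subset_singleton_iff.1 hK with rfl | rfl
    · exact Or.inl dv_empty
    · exact Or.inr ⟨u, by simp, v, by simp, dv_pair huv⟩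

/-- plain edges -/
theorem jb_plain (PL : Finset (Sym2 ℕ)) (h : NoLoop PL) : JB (Vc PL fun _ => True) := by
  induction PL using Finset.induction_on with
  | empty =>
    rintro _ _ i ε ⟨K, hK, _, rfl⟩ ⟨K', hK', _, rfl⟩ _ hp
    rw [Finset.subset_empty.1 hK, Finset.subset_empty.1 hK', sub_self, mul_zero] at hp
    exact absurd hp (lt_irrefl 0)
  | insert e PL he ih =>
    have h1 := ih fun f hf => h f (Finset.mem_insert_of_mem hf)
    have h2 := jb_edge (h e (Finset.mem_insert_self _ _))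
    refine jb_iff (fun x => ?_) (jb_union (Finset.disjoint_singleton_left.2 he) h2 h1)
    rw [← Finset.insert_eq]
    constructor
    · rintro ⟨K, hK, _, hx⟩
      exact ⟨K, hK, trivial, hx⟩
    · rintro ⟨K, hK, _, hx⟩
      exact ⟨K, hK, ⟨trivial, trivial⟩, hx⟩

/-- the family at a list of clusters and plain edges -/
def AU (A : Clu ℕ → Finset (Sym2 ℕ) → Prop) (U : List (Clu ℕ)) (PL K : Finset (Sym2 ℕ)) : Prop :=
  K ⊆ Ucl U ∪ PL ∧ ∀ c ∈ U, A c (K ∩ c.edges)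

theorem jb_AU {A : Clu ℕ → Finset (Sym2 ℕ) → Prop} {U : List (Clu ℕ)} {PL : Finset (Sym2 ℕ)}
    (hA : ∀ c ∈ U, JB (Vc c.edges (A c))) (hU : U.Pairwise fun c c' => Disjoint c.edges c'.edges)
    (hPL : ∀ c ∈ U, Disjoint c.edges PL) (hn : NoLoop PL) : JB (fun b => ∃ K, AU A U PL K ∧ b = dv K) := by
  induction U with
  | nil =>
    refine jb_iff (fun x => ?_) (jb_plain PL hn)
    constructor
    · rintro ⟨K, hK, _, rfl⟩
      exact ⟨K, ⟨by simpa [Ucl] using hK, by simp⟩, rfl⟩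
    · rintro ⟨K, ⟨hK, _⟩, rfl⟩
      exact ⟨K, by simpa [Ucl] using hK, trivial, rfl⟩
  | cons c U ih =>
    rw [List.pairwise_cons] at hU
    have h1 := ih (fun c hc => hA c (List.mem_cons_of_mem _ hc)) hU.2
      (fun c hc => hPL c (List.mem_cons_of_mem _ hc))
    have hd : Disjoint c.edges (Ucl U ∪ PL) := by
      rw [Finset.disjoint_union_right]
      refine ⟨?_, hPL c List.mem_cons_self⟩
      rw [Finset.disjoint_left]
      intro e he he'
      obtain ⟨c', hc', he'⟩ := mem_Ucl.1 he'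
      exact Finset.disjoint_left.1 (hU.1 c' hc') he he'
    have h1' : JB (Vc (Ucl U ∪ PL) fun K => ∀ c ∈ U, A c (K ∩ c.edges)) := by
      refine jb_iff (fun x => ?_) h1
      constructor
      · rintro ⟨K, ⟨hK, hc⟩, rfl⟩
        exact ⟨K, hK, hc, rfl⟩
      · rintro ⟨K, hK, hc, rfl⟩
        exact ⟨K, ⟨hK, hc⟩, rfl⟩
    refine jb_iff (fun x => ?_) (jb_union hd (hA c List.mem_cons_self) h1')
    have hin : ∀ (K : Finset (Sym2 ℕ)), ∀ c' ∈ U, (K ∩ (Ucl U ∪ PL)) ∩ c'.edges = K ∩ c'.edges := by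
      intro K c' hc'
      rw [Finset.inter_assoc]
      congr 1
      rw [Finset.inter_eq_right]
      intro e he
      exact Finset.mem_union_left _ (mem_Ucl.2 ⟨c', hc', he⟩)
    constructor
    · rintro ⟨K, hK, ⟨h2, h3⟩, rfl⟩
      refine ⟨K, ⟨by rw [Ucl, Finset.union_assoc]; exact hK, ?_⟩, rfl⟩
      intro c' hc'
      rcases List.mem_cons.1 hc' with rfl | hc'
      · exact h2
      · rw [← hin K c' hc']
        exact h3 c' hc'
    · rintro ⟨K, ⟨hK, h2⟩, rfl⟩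
      refine ⟨K, by rw [Ucl, Finset.union_assoc] at hK; exact hK, ⟨h2 c List.mem_cons_self, ?_⟩, rfl⟩
      intro c' hc'
      rw [hin K c' hc']
      exact h2 c' (List.mem_cons_of_mem _ hc')

/-- a good family of edge sets in `E` -/
structure PcA (D : Finset (Finset (Sym2 ℕ))) (A : Finset (Sym2 ℕ) → Prop) (E : Finset (Sym2 ℕ)) : Prop where
  jb : JB (Vc E A)
  rl : ∀ K ⊆ E, A K → (∀ v, dg K v ≤ 2) → ∀ Z ∈ D, ¬ Z ⊆ K

/-- the capped family: 2-matchings without square of `D` -/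
def Acap (D : Finset (Finset (Sym2 ℕ))) (K : Finset (Sym2 ℕ)) : Prop := M2 K ∧ ∀ Z ∈ D, ¬ Z ⊆ K

theorem sq_rot (a b c d : ℕ) : TFC.sq a b c d = TFC.sq b c d a := by
  ext e
  simp only [TFC.sq, Finset.mem_insert, Finset.mem_singleton]
  tauto

theorem sq_ref (a b c d : ℕ) : TFC.sq a b c d = TFC.sq d c b a := by
  ext e
  simp only [TFC.sq, Finset.mem_insert, Finset.mem_singleton]
  rw [Sym2.eq_swap (a := a) (b := b), Sym2.eq_swap (a := b) (b := c), Sym2.eq_swap (a := c) (b := d),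
    Sym2.eq_swap (a := d) (b := a)]
  tauto

theorem pca_cap {D : Finset (Finset (Sym2 ℕ))} (hD : ∀ Z ∈ D, IsSq Z) (E : Finset (Sym2 ℕ)) : PcA D (Acap D) E where
  jb := by
    have hal : AlSym (fun a b c d : ℕ => TFC.sq a b c d ∉ D) := by
      refine ⟨fun a b c d h => ?_, fun a b c d h => ?_⟩
      · rw [sq_rot a b c d] at h; exact h
      · rw [sq_ref a b c d] at h; exact h
    refine jb_iff (fun x => ?_) (jb_of_jump (jump_JS hal E))
    constructor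
    · rintro ⟨K, hK, h1, h2, rfl⟩
      refine ⟨K, hK, ⟨h1, fun Z hZ hs => ?_⟩, rfl⟩
      obtain ⟨a, b, c, d, h3, rfl⟩ := hD Z hZ
      obtain ⟨hab, hac, had, hbc, hbd, hcd⟩ := h3
      exact h2 a b c d ⟨hac, hbd, hs (by simp [TFC.sq]), hs (by simp [TFC.sq]), hs (by simp [TFC.sq]),
        hs (by simp [TFC.sq])⟩ hZ
    · rintro ⟨K, hK, ⟨h1, h2⟩, rfl⟩
      refine ⟨K, hK, h1, fun a b c d hs hZ => h2 _ hZ ?_, rfl⟩
      intro e he
      simp only [TFC.sq, Finset.mem_insert, Finset.mem_singleton] at he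
      rcases he with rfl | rfl | rfl | rfl
      · exact hs.ab
      · exact hs.bc
      · exact hs.cd
      · exact hs.da
  rl := fun _ _ h _ => h.2

/-! ### the differences -/

/-- the differences -/
def Df (J B : (ℕ → ℤ) → Prop) (d : ℕ → ℤ) : Prop := ∃ k b, J k ∧ B b ∧ d = b - k

/-- the unit `-e_v` is a fact -/
def Mi (J B : (ℕ → ℤ) → Prop) (n v : ℕ) : Prop := Df J B (Pi.single v (-1) + Pi.single n (-1))

/-- the unit `+e_v` is a fact -/
def Pls (J B : (ℕ → ℤ) → Prop) (n v : ℕ) : Prop := Df J B (Pi.single v 1 + Pi.single n (-1))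

theorem jb_Df {J B : (ℕ → ℤ) → Prop} {S : Finset ℕ} (hJ : JB J) (hB : JB B)
    (hS : ∀ b, B b → ∀ v, v ∉ S → b v = 0) : JB (Df J B) := by
  refine jb_iff (fun x => ?_) (hJ.neg.add hB hS)
  constructor
  · rintro ⟨a, b, ha, hb, rfl⟩
    exact ⟨-a, b, ha, hb, by rw [sub_neg_eq_add, add_comm]⟩
  · rintro ⟨k, b, hk, hb, rfl⟩
    exact ⟨-k, b, by show J (- -k); rw [neg_neg]; exact hk, hb, by rw [sub_eq_neg_add]⟩

/-- **the inequality for the differences** -/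
theorem df_ph {J B : (ℕ → ℤ) → Prop} {n : ℕ} {V : Finset ℕ} (hJ : JB (Df J B)) (hn : n ∉ V)
    (hoff : ∀ x, Df J B x → ∀ v, v ∉ V → v ≠ n → x v = 0) (h0 : ¬ Df J B 0)
    (hne : ∃ v ∈ V, Pls J B n v ∨ Mi J B n v) {d : ℕ → ℤ} (hd : Df J B d) (hdn : d n = 0 ∨ d n = -1) :
    1 ≤ ph V (Pls J B n) (Mi J B n) d := by
  have e1 : ∀ v, RG.Fa (fun z => Df J B (-z)) n v 1 ↔ Mi J B n v := by
    intro v
    show Df J B (-(Pi.single v 1 + Pi.single n 1)) ↔ _
    rw [neg_add, ← Pi.single_neg, ← Pi.single_neg]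
    rfl
  have e2 : ∀ v, RG.Fa (fun z => Df J B (-z)) n v (-1) ↔ Pls J B n v := by
    intro v
    show Df J B (-(Pi.single v (-1) + Pi.single n 1)) ↔ _
    rw [neg_add, ← Pi.single_neg, ← Pi.single_neg, neg_neg]
    rfl
  have h := RG.rgc (J := fun z => Df J B (-z)) (z := n) (S := V) hJ.neg hn
    (fun x hx v hv hvn => by
      have := hoff _ hx v hv hvn
      rw [Pi.neg_apply] at this
      omega)
    (by rw [neg_zero]; exact h0)
    (by
      obtain ⟨v, hv, h | h⟩ := hne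
      · exact ⟨v, hv, -1, Or.inr rfl, (e2 v).2 h⟩
      · exact ⟨v, hv, 1, Or.inl rfl, (e1 v).2 h⟩)
    (d := -d) (by show Df J B (- -d); rw [neg_neg]; exact hd)
    (by rw [Pi.neg_apply]; omega)
  refine h.trans (le_of_eq ?_)
  unfold RG.phi ph
  refine Finset.sum_congr rfl fun v _ => ?_
  unfold RG.wt con
  rw [Pi.neg_apply]
  by_cases hm : Mi J B n v
  · rw [if_pos ((e1 v).2 hm), if_pos hm]
    by_cases hp : Pls J B n v
    · rw [if_pos ((e2 v).2 hp), if_pos hp]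
      omega
    · rw [if_neg (fun h => hp ((e2 v).1 h)), if_neg hp, if_pos hm]
  · rw [if_neg (fun h => hm ((e1 v).1 h)), if_neg hm]
    by_cases hp : Pls J B n v
    · rw [if_pos ((e2 v).2 hp), if_pos hp, neg_neg]
    · rw [if_neg (fun h => hp ((e2 v).1 h)), if_neg hp, if_neg hm]

section
variable {n : ℕ} {T V2 : Finset ℕ} {C ER PL : Finset (Sym2 ℕ)} {DC : Finset (Finset (Sym2 ℕ))}
  {J B : (ℕ → ℤ) → Prop}

/-- **the inequality in a world** -/
theorem wj_ph (h : WJ n T V2 C ER PL DC J) (hV : ∀ v ∈ V2, v < n) (hB : JB B)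
    (hoff : ∀ b, B b → ∀ v, v ∉ V2 → b v = 0)
    (hr : ∀ b, B b → (∀ v, b v ≤ 2) → ∃ K ⊆ C ∪ ER, M2 K ∧ (∀ Z ∈ DC, ¬ Z ⊆ K) ∧ (∀ e ∈ K, e ∉ C → e ∈ PL) ∧
      dv K = b)
    (hne : ∃ v ∈ V2, Pls J B n v ∨ Mi J B n v) {k b : ℕ → ℤ} (hk : J k) (hb : B b) :
    1 ≤ ph V2 (Pls J B n) (Mi J B n) (b - k) := by
  have hnV : n ∉ V2 := fun hc => lt_irrefl _ (hV n hc)
  refine df_ph (jb_Df h.jb hB hoff) hnV ?_ ?_ hne ⟨k, b, hk, hb, rfl⟩ ?_
  · rintro _ ⟨k, b, hk, hb, rfl⟩ v hv hvn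
    rw [Pi.sub_apply, hoff b hb v hv]
    rcases Nat.lt_trichotomy v n with h1 | h1 | h1
    · rw [h.off k hk v h1 hv]; rfl
    · exact absurd h1 hvn
    · rw [h.up k hk v h1]; rfl
  · rintro ⟨k, b, hk, hb, h0⟩
    have hkb : b = k := by
      have : b - k = 0 := h0.symm
      exact sub_eq_zero.1 this
    subst hkb
    obtain ⟨K, h1, h2, h3, h4, h5⟩ := hr b hb (by
      intro v
      rcases Nat.lt_trichotomy v n with h1 | h1 | h1
      · exact (h.rg b hk v h1).2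
      · subst h1
        rcases h.tok b hk with h2 | h2 <;> omega
      · rw [h.up b hk v h1]; norm_num)
    exact h.blk b hk K h1 h2 h3 (fun e he hC => Or.inl (h4 e he hC)) h5
  · rw [Pi.sub_apply, hoff b hb n hnV]
    rcases h.tok k hk with h1 | h1 <;> rw [h1]
    · left; rfl
    · right; rfl

/-- free vertices have no deficit fact -/
theorem wj_free (h : WJ n T V2 C ER PL DC J) (hV : ∀ v ∈ V2, v < n)
    (hoff : ∀ b, B b → ∀ v, v ∉ V2 → b v = 0) (hnn : ∀ b, B b → ∀ v, 0 ≤ b v) (h0 : ¬ Df J B 0) {v : ℕ}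
    (hv : v ∉ T) (hvn : v < n) : ¬ Mi J B n v := by
  rintro ⟨k, b, hk, hb, he⟩
  have hnV : n ∉ V2 := fun hc => lt_irrefl _ (hV n hc)
  have h1 : ∀ w, b w = k w - (if w = v then 1 else 0) - (if w = n then 1 else 0) := by
    intro w
    have := congrFun he w
    rw [Pi.add_apply, sgl, sgl, Pi.sub_apply] at this
    split_ifs at this ⊢ <;> omega
  apply h0
  refine ⟨b, b, ?_, hb, by rw [sub_self]⟩
  have h2 : (∑ w ∈ Finset.range (n + 1), b w) = (∑ w ∈ Finset.range (n + 1), k w) - 2 := by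
    simp only [h1, Finset.sum_sub_distrib]
    rw [Finset.sum_ite_eq' (Finset.range (n + 1)) v fun _ => (1 : ℤ),
      Finset.sum_ite_eq' (Finset.range (n + 1)) n fun _ => (1 : ℤ), if_pos (Finset.mem_range.2 (by omega)),
      if_pos (Finset.mem_range.2 (by omega))]
    ring
  refine h.dn k b hk ?_ ?_ ?_ ?_ ?_
  · intro w hw hwT
    rw [h1, if_neg (fun e => hv (by rw [← e]; exact hwT)), if_neg (by omega)]
    ring
  · intro w hw _
    refine ⟨hnn b hb w, ?_⟩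
    rw [h1]
    split_ifs <;> omega
  · left
    exact hoff b hb n hnV
  · rw [h2]
    have := h.par k hk
    obtain ⟨r, hr⟩ := this
    exact ⟨r - 1, by rw [hr]; ring⟩
  · intro w hw
    rw [h1, h.up k hk w hw, if_neg (by omega), if_neg (by omega)]
    rfl

end

/-! ### one world, in terms of the form -/

/-- **what is known in one world**: `W` the region (all clusters in `En` and all edges of `En` in no square of `D`), `PL` the
plain edges, `U` the clusters, `A` the allowed families, `pl`, `mi` the facts -/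
structure PW (X : XD) (P : ℕ → Finset (Sym2 ℕ) → Prop) (D : Finset (Finset (Sym2 ℕ))) (j : ℕ) (S : Finset ℕ)
    (M : ℕ → Finset (Sym2 ℕ)) (A : Clu ℕ → Finset (Sym2 ℕ) → Prop) (CL U : List (Clu ℕ))
    (PL : Finset (Sym2 ℕ)) (pl mi : ℕ → Prop) : Prop where
  ok : X.OK
  sv : ∀ v ∈ S, v ∈ X.V2
  isq : ∀ Z ∈ D, IsSq Z
  dE : ∀ Z ∈ D, Z ⊆ X.E
  w2 : Ucl U ∪ PL ⊆ X.E2
  cls : Cls D CL
  uc : ∀ c, c ∈ U ↔ c ∈ CL ∧ c.edges ⊆ X.En
  pm : ∀ e, e ∈ PL ↔ e ∈ X.En ∧ ∀ Z ∈ D, e ∉ Z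
  rch : ∀ v, Rch X.E S 3 v → ∀ e ∈ X.E, v ∈ e → e ∈ Ucl U ∪ PL
  free : ∀ v < X.n, v ∉ X.T → ¬ mi v
  /-- near covers -/
  nc : ∀ w ∈ S, w ∈ X.T → ∀ K, AU A U PL K →
    1 ≤ ph X.V2 pl mi (dv K - dv (M w ∩ (Ucl U ∪ PL)) - Pi.single w 1)
  mi' : ∀ w ∈ S, w ∈ X.T → AU A U PL (M w ∩ (Ucl U ∪ PL)) → mi w
  /-- the witnesses exist (they do not depend on the families `A`) -/
  witE : ∀ Z ∈ D, ∃ L, P j L ∧ Cv X L ∧ M2 L ∧ L ⊆ X.E ∧ Z ⊆ L ∧ ∀ Z' ∈ D, Z' ⊆ L → Z' = Z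
  /-- witnesses -/
  witA : ∀ Z ∈ D, Z ⊆ Ucl U → ∀ L, P j L → Cv X L → (∀ Z' ∈ D, Z' ⊆ L → Z' = Z) → ∀ K, AU A U PL K →
    1 ≤ ph X.V2 pl mi (dv K - dv (L ∩ (Ucl U ∪ PL)))

theorem ucl_sub_En {X : XD} {U : List (Clu ℕ)} (h : ∀ c ∈ U, c.edges ⊆ X.En) : Ucl U ⊆ X.En := by
  intro e he
  obtain ⟨c, hc, hec⟩ := mem_Ucl.1 he
  exact h c hc hec

open Classical in
/-- **the phi frame for one world** -/
theorem OW.pw {X : XD} {P : ℕ → Finset (Sym2 ℕ) → Prop} {D : Finset (Finset (Sym2 ℕ))} {j m : ℕ} {S : Finset ℕ}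
    {M : ℕ → Finset (Sym2 ℕ)} (h : OW X P D j m S M) {CL : List (Clu ℕ)} (hc : Cls D CL)
    {A : Clu ℕ → Finset (Sym2 ℕ) → Prop} (hA : ∀ c ∈ CL, c.edges ⊆ X.En → PcA D (A c) c.edges)
    (hS : ∃ w ∈ S, w ∈ X.T ∧ ∀ c ∈ CL, c.edges ⊆ X.En → A c (M w ∩ c.edges)) :
    ∃ (U : List (Clu ℕ)) (PL : Finset (Sym2 ℕ)) (pl mi : ℕ → Prop), PW X P D j S M A CL U PL pl mi := by
  obtain ⟨U, hUdef⟩ : ∃ U, U = CL.filter fun c => decide (c.edges ⊆ X.En) := ⟨_, rfl⟩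
  obtain ⟨PL, hPLdef⟩ : ∃ PL, PL = X.En.filter fun e => ∀ Z ∈ D, e ∉ Z := ⟨_, rfl⟩
  have uc : ∀ c, c ∈ U ↔ c ∈ CL ∧ c.edges ⊆ X.En := by
    intro c
    rw [hUdef, List.mem_filter, decide_eq_true_eq]
  have pm : ∀ e, e ∈ PL ↔ e ∈ X.En ∧ ∀ Z ∈ D, e ∉ Z := by
    intro e
    rw [hPLdef, Finset.mem_filter]
  have hUn : Ucl U ⊆ X.En := ucl_sub_En fun c hc => ((uc c).1 hc).2
  have hPn : PL ⊆ X.En := fun e he => ((pm e).1 he).1
  have hWn : Ucl U ∪ PL ⊆ X.En := Finset.union_subset hUn hPn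
  have hEn : X.En ⊆ X.E := h.ok.e1.trans h.ok.e2
  obtain ⟨J, hJ, h2, h3⟩ := h.world' hc (U := U) (fun c hc => ((uc c).1 hc).1) (fun c hc => ((uc c).1 hc).2)
    (ER := PL) (PL := PL) hPn (fun e he => ((pm e).1 he).2)
  -- allowed vectors
  have hUp : U.Pairwise fun c c' => Disjoint c.edges c'.edges := by
    rw [hUdef]
    exact hc.dj.filter _
  have hUP : ∀ c ∈ U, Disjoint c.edges PL := by
    intro c hcU
    rw [Finset.disjoint_left]
    intro e he he'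
    obtain ⟨Z, hZ, heZ⟩ := hc.edge.1 ⟨c, ((uc c).1 hcU).1, he⟩
    exact ((pm e).1 he').2 Z hZ heZ
  have hnl : NoLoop (Ucl U ∪ PL) := fun e he => h.ok.nl e (hEn (hWn he))
  have hjb : JB (fun b => ∃ K, AU A U PL K ∧ b = dv K) :=
    jb_AU (fun c hcU => (hA c ((uc c).1 hcU).1 ((uc c).1 hcU).2).jb) hUp hUP
      fun e he => hnl e (Finset.mem_union_right _ he)
  have hoff : ∀ b, (∃ K, AU A U PL K ∧ b = dv K) → ∀ v, v ∉ X.V2 → b v = 0 := by
    rintro _ ⟨K, hK, rfl⟩ v hv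
    rw [dv, dg_off h.ok (hK.1.trans (hWn.trans h.ok.e1)) hv]
    rfl
  have hnn : ∀ b, (∃ K, AU A U PL K ∧ b = dv K) → ∀ v, 0 ≤ b v := by
    rintro _ ⟨K, hK, rfl⟩ v
    exact Nat.cast_nonneg _
  have hr : ∀ b, (∃ K, AU A U PL K ∧ b = dv K) → (∀ v, b v ≤ 2) → ∃ K ⊆ Ucl U ∪ PL, M2 K ∧
      (∀ Z ∈ D.filter (fun Z => Z ⊆ Ucl U), ¬ Z ⊆ K) ∧ (∀ e ∈ K, e ∉ Ucl U → e ∈ PL) ∧ dv K = b := by
    rintro _ ⟨K, hK, rfl⟩ h2
    have hdg : ∀ v, dg K v ≤ 2 := by
      intro v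
      have := h2 v
      rw [dv] at this
      exact_mod_cast this
    refine ⟨K, hK.1, ⟨fun e he => hnl e (hK.1 he), hdg⟩, ?_, ?_, rfl⟩
    · intro Z hZ hs
      rw [Finset.mem_filter] at hZ
      obtain ⟨c, hcC, hZc⟩ := hc.cov Z hZ.1
      have hcU : c ∈ U := by
        obtain ⟨a, b, c', d, _, hZe⟩ := h.isq hZ.1
        have he : s(a, b) ∈ Z := by rw [hZe]; simp [TFC.sq]
        obtain ⟨c'', hc'', he''⟩ := mem_Ucl.1 (hZ.2 he)
        rw [hc.eq hcC ((uc c'').1 hc'').1 (hZc he) he'']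
        exact hc''
      refine (hA c hcC ((uc c).1 hcU).2).rl (K ∩ c.edges) Finset.inter_subset_right (hK.2 c hcU) ?_ Z hZ.1
        (Finset.subset_inter hs hZc)
      intro v
      refine le_trans ?_ (hdg v)
      exact Finset.card_le_card (Finset.filter_subset_filter _ Finset.inter_subset_left)
    · intro e he heU
      rcases Finset.mem_union.1 (hK.1 he) with h1 | h1
      · exact absurd h1 heU
      · exact h1
  -- restriction to the clusters
  have hcap : ∀ (L : Finset (Sym2 ℕ)), (∀ c ∈ CL, c.edges ⊆ X.En → A c (L ∩ c.edges)) →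
      AU A U PL (L ∩ (Ucl U ∪ PL)) := by
    intro L hL
    refine ⟨Finset.inter_subset_right, fun c hcU => ?_⟩
    have e : L ∩ (Ucl U ∪ PL) ∩ c.edges = L ∩ c.edges := by
      rw [Finset.inter_assoc]
      congr 1
      rw [Finset.inter_eq_right]
      intro e he
      exact Finset.mem_union_left _ (mem_Ucl.2 ⟨c, hcU, he⟩)
    rw [e]
    exact hL c ((uc c).1 hcU).1 ((uc c).1 hcU).2
  have hmi : ∀ w ∈ S, w ∈ X.T → AU A U PL (M w ∩ (Ucl U ∪ PL)) →
      Mi J (fun b => ∃ K, AU A U PL K ∧ b = dv K) X.n w := by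
    intro w hw hwT hAU
    refine ⟨_, _, h3 w hw hwT, ⟨_, hAU, rfl⟩, ?_⟩
    rw [Pi.single_neg, Pi.single_neg]
    show _ = dv (M w ∩ (Ucl U ∪ PL)) - (dv (M w ∩ (Ucl U ∪ PL)) + Pi.single w 1 + Pi.single X.n 1)
    abel
  have hne : ∃ v ∈ X.V2, Pls J (fun b => ∃ K, AU A U PL K ∧ b = dv K) X.n v ∨
      Mi J (fun b => ∃ K, AU A U PL K ∧ b = dv K) X.n v := by
    obtain ⟨w, hw, hwT, hwA⟩ := hS
    exact ⟨w, h.sv w hw, Or.inr (hmi w hw hwT (hcap _ hwA))⟩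
  have h0 : ¬ Df J (fun b => ∃ K, AU A U PL K ∧ b = dv K) 0 := by
    rintro ⟨k, b, hk, hb, h0⟩
    have := wj_ph hJ h.ok.vn hjb hoff hr hne hk hb
    rw [← h0, ph_zero] at this
    omega
  refine ⟨U, PL, Pls J (fun b => ∃ K, AU A U PL K ∧ b = dv K) X.n,
    Mi J (fun b => ∃ K, AU A U PL K ∧ b = dv K) X.n, h.ok, h.sv, fun Z hZ => h.isq hZ, fun Z hZ => h.sqE hZ,
    hWn.trans h.ok.e1, hc, uc, pm, ?_, ?_, ?_, hmi, ?_, ?_⟩
  · intro v hv e heE hve
    have heN : e ∈ X.En := h.rch v (Rch.mono (by omega) hv) e heE hve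
    by_cases h1 : ∃ Z ∈ D, e ∈ Z
    · obtain ⟨c, hcC, hec⟩ := hc.edge.2 h1
      exact Finset.mem_union_left _ (mem_Ucl.2 ⟨c, (uc c).2 ⟨hcC, h.near hc hcC hec hve hv⟩, hec⟩)
    · push Not at h1
      exact Finset.mem_union_right _ ((pm e).2 ⟨heN, h1⟩)
  · intro v hvn hvT
    exact wj_free hJ h.ok.vn hoff hnn h0 hvT hvn
  · intro w hw hwT K hK
    have h4 := wj_ph hJ h.ok.vn hjb hoff hr hne (h3 w hw hwT) ⟨K, hK, rfl⟩
    have e : ph X.V2 (Pls J (fun b => ∃ K, AU A U PL K ∧ b = dv K) X.n)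
        (Mi J (fun b => ∃ K, AU A U PL K ∧ b = dv K) X.n)
        (dv K - (dv (M w ∩ (Ucl U ∪ PL)) + ev w + ev X.n)) =
        ph X.V2 (Pls J (fun b => ∃ K, AU A U PL K ∧ b = dv K) X.n)
        (Mi J (fun b => ∃ K, AU A U PL K ∧ b = dv K) X.n)
        (dv K - dv (M w ∩ (Ucl U ∪ PL)) - Pi.single w 1) := by
      unfold ph
      refine Finset.sum_congr rfl fun v hv => ?_
      congr 1
      have hvn : v ≠ X.n := fun hc => lt_irrefl _ (hc ▸ h.ok.vn v hv)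
      rw [Pi.sub_apply, Pi.sub_apply, Pi.sub_apply, Pi.add_apply, Pi.add_apply, TFC.ev_apply, TFC.ev_apply, sgl,
        if_neg hvn]
      ring
    rw [← e]
    exact h4
  · intro Z hZ
    exact h.wit hZ
  · intro Z hZ hZU L h4 h5 h9 K hK
    refine wj_ph hJ h.ok.vn hjb hoff hr hne (h2 L Z hZ h4 h5 h9 ?_) ⟨K, hK, rfl⟩
    rw [Finset.not_disjoint_iff]
    obtain ⟨a, b, c, d, _, hZe⟩ := h.isq hZ
    have he : s(a, b) ∈ Z := by rw [hZe]; simp [TFC.sq]
    exact ⟨_, he, Finset.mem_union_left _ (hZU he)⟩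

/-! ### modified edge sets -/

/-- all families are closed under subsets -/
def Dwn (A : Clu ℕ → Finset (Sym2 ℕ) → Prop) : Prop := ∀ c K K', K' ⊆ K → A c K → A c K'

theorem AU.mono {A : Clu ℕ → Finset (Sym2 ℕ) → Prop} (hD : Dwn A) {U : List (Clu ℕ)} {PL K K' : Finset (Sym2 ℕ)}
    (h : AU A U PL K) (hK : K' ⊆ K) : AU A U PL K' :=
  ⟨hK.trans h.1, fun c hc => hD c _ _ (Finset.inter_subset_inter hK le_rfl) (h.2 c hc)⟩

/-- only the parts in the clusters matter -/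
theorem AU.of {A : Clu ℕ → Finset (Sym2 ℕ) → Prop} {U : List (Clu ℕ)} {PL K : Finset (Sym2 ℕ)}
    (h : K ⊆ Ucl U ∪ PL) (h2 : ∀ c ∈ U, A c (K ∩ c.edges)) : AU A U PL K := ⟨h, h2⟩

section
variable {X : XD} {P : ℕ → Finset (Sym2 ℕ) → Prop} {D : Finset (Finset (Sym2 ℕ))} {j : ℕ} {S : Finset ℕ}
  {M : ℕ → Finset (Sym2 ℕ)} {A : Clu ℕ → Finset (Sym2 ℕ) → Prop} {CL U : List (Clu ℕ)} {PL : Finset (Sym2 ℕ)}
  {pl mi : ℕ → Prop}

theorem PW.wit (h : PW X P D j S M A CL U PL pl mi) {Z : Finset (Sym2 ℕ)} (hZ : Z ∈ D) (hZU : Z ⊆ Ucl U) :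
    ∃ L, P j L ∧ Cv X L ∧ M2 L ∧ L ⊆ X.E ∧ Z ⊆ L ∧ (∀ Z' ∈ D, Z' ⊆ L → Z' = Z) ∧
      ∀ K, AU A U PL K → 1 ≤ ph X.V2 pl mi (dv K - dv (L ∩ (Ucl U ∪ PL))) := by
  obtain ⟨L, h1, h2, h3, h4, h5, h6⟩ := h.witE Z hZ
  exact ⟨L, h1, h2, h3, h4, h5, h6, h.witA Z hZ hZU L h1 h2 h6⟩

theorem PW.plain (h : PW X P D j S M A CL U PL pl mi) {c : Clu ℕ} (hc : c ∈ U) : Disjoint PL c.edges := by
  rw [Finset.disjoint_left]
  intro e he hec
  obtain ⟨Z, hZ, heZ⟩ := h.cls.edge.1 ⟨c, ((h.uc c).1 hc).1, hec⟩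
  exact ((h.pm e).1 he).2 Z hZ heZ

/-- add plain edges -/
theorem PW.addp (h : PW X P D j S M A CL U PL pl mi) {K B : Finset (Sym2 ℕ)} (hK : AU A U PL K) (hB : B ⊆ PL) :
    AU A U PL (K ∪ B) := by
  refine ⟨Finset.union_subset hK.1 (hB.trans Finset.subset_union_right), fun c hc => ?_⟩
  have e : (K ∪ B) ∩ c.edges = K ∩ c.edges := by
    rw [Finset.union_inter_distrib_right,
      Finset.disjoint_iff_inter_eq_empty.1 ((h.plain hc).mono_left hB), Finset.union_empty]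
  rw [e]
  exact hK.2 c hc

/-- add an edge of a cluster -/
theorem PW.addc (h : PW X P D j S M A CL U PL pl mi) {K : Finset (Sym2 ℕ)} (hK : AU A U PL K) {c : Clu ℕ}
    (hc : c ∈ U) {e : Sym2 ℕ} (he : e ∈ c.edges) (hA : A c (insert e (K ∩ c.edges))) : AU A U PL (insert e K) := by
  refine ⟨Finset.insert_subset (Finset.mem_union_left _ (mem_Ucl.2 ⟨c, hc, he⟩)) hK.1, fun c' hc' => ?_⟩
  by_cases hcc : c' = c
  · subst hcc
    rw [Finset.insert_inter_of_mem he]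
    exact hA
  · have hne : e ∉ c'.edges := fun h' => hcc (h.cls.eq ((h.uc c').1 hc').1 ((h.uc c).1 hc).1 h' he)
    rw [Finset.insert_inter_of_notMem hne]
    exact hK.2 c' hc'

/-- near cover, modified: remove `R`, add `B` -/
theorem PW.nc_swap (h : PW X P D j S M A CL U PL pl mi) {w : ℕ} (hw : w ∈ S) (hT : w ∈ X.T)
    {R B : Finset (Sym2 ℕ)} (hR : R ⊆ M w) (hRW : R ⊆ Ucl U ∪ PL) (hB : Disjoint B (M w ∩ (Ucl U ∪ PL)))
    (hA : AU A U PL (((M w ∩ (Ucl U ∪ PL)) \ R) ∪ B)) :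
    1 ≤ ph X.V2 pl mi (dv B - dv R - Pi.single w 1) := by
  have h1 := h.nc w hw hT _ hA
  rw [dv_swap (Finset.subset_inter hR hRW) hB] at h1
  have e : dv (M w ∩ (Ucl U ∪ PL)) - dv R + dv B - dv (M w ∩ (Ucl U ∪ PL)) - Pi.single w 1 =
      dv B - dv R - Pi.single w 1 := by abel
  rwa [e] at h1

/-- witness, modified: remove `R`, add `B` -/
theorem PW.wit_swap (h : PW X P D j S M A CL U PL pl mi) {Z : Finset (Sym2 ℕ)} (hZ : Z ∈ D) (hZU : Z ⊆ Ucl U) :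
    ∃ L, P j L ∧ Cv X L ∧ M2 L ∧ L ⊆ X.E ∧ Z ⊆ L ∧ (∀ Z' ∈ D, Z' ⊆ L → Z' = Z) ∧
      ∀ R B : Finset (Sym2 ℕ), R ⊆ L → R ⊆ Ucl U ∪ PL → Disjoint B (L ∩ (Ucl U ∪ PL)) →
        AU A U PL (((L ∩ (Ucl U ∪ PL)) \ R) ∪ B) → 1 ≤ ph X.V2 pl mi (dv B - dv R) := by
  obtain ⟨L, h1, h2, h3, h4, h5, h6, h7⟩ := h.wit hZ hZU
  refine ⟨L, h1, h2, h3, h4, h5, h6, fun R B hR hRW hB hA => ?_⟩
  have h8 := h7 _ hA
  rw [dv_swap (Finset.subset_inter hR hRW) hB] at h8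
  have e : dv (L ∩ (Ucl U ∪ PL)) - dv R + dv B - dv (L ∩ (Ucl U ∪ PL)) = dv B - dv R := by abel
  rwa [e] at h8

end

end Pool.Agent.PF4.XT
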