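import Pool.Agent.PF4.XUV

/-!
# Toggling edges in the phi frame

`tg K e` = the symmetric difference of `K` and `{e}`. All modifications of the part of a near cover in a world are sequences
of toggles; only the parity matters at a vertex of type Z, nothing matters at a vertex of type N.
-/

set_option autoImplicit false

namespace Pool.Agent.PF4.XTg

open Finset Pool.Agent.TFC Pool.Agent.PF4 Pool.Agent.PF4.LD Pool.Agent.PF4.XC Pool.Agent.PF4.XF Pool.Agent.PF4.XT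

/-- toggle one edge -/
def tg (K : Finset (Sym2 ℕ)) (e : Sym2 ℕ) : Finset (Sym2 ℕ) := symmDiff K {e}

theorem mem_tg {K : Finset (Sym2 ℕ)} {e f : Sym2 ℕ} : f ∈ tg K e ↔ (f ∈ K ∧ f ≠ e) ∨ (f ∉ K ∧ f = e) := by
  rw [tg, Finset.mem_symmDiff, Finset.mem_singleton]
  tauto

theorem mem_tg_ne {K : Finset (Sym2 ℕ)} {e f : Sym2 ℕ} (h : f ≠ e) : f ∈ tg K e ↔ f ∈ K := by
  rw [mem_tg]
  tauto

theorem mem_tg_self {K : Finset (Sym2 ℕ)} {e : Sym2 ℕ} : e ∈ tg K e ↔ e ∉ K := by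
  rw [mem_tg]
  tauto

/-- the sign of a toggle -/
def sg (K : Finset (Sym2 ℕ)) (e : Sym2 ℕ) : ℤ := if e ∈ K then -1 else 1

theorem sg_or (K : Finset (Sym2 ℕ)) (e : Sym2 ℕ) : sg K e = 1 ∨ sg K e = -1 := by
  unfold sg
  split_ifs
  · exact Or.inr rfl
  · exact Or.inl rfl

theorem sg_mem {K : Finset (Sym2 ℕ)} {e : Sym2 ℕ} (h : e ∈ K) : sg K e = -1 := if_pos h

theorem sg_not {K : Finset (Sym2 ℕ)} {e : Sym2 ℕ} (h : e ∉ K) : sg K e = 1 := if_neg h

theorem sg_tg {K : Finset (Sym2 ℕ)} {e f : Sym2 ℕ} (h : f ≠ e) : sg (tg K e) f = sg K f := by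
  unfold sg
  simp only [mem_tg_ne h]

/-- incidence -/
def inc (e : Sym2 ℕ) (v : ℕ) : ℤ := if v ∈ e then 1 else 0

theorem inc_mk (a b v : ℕ) : inc s(a, b) v = if v = a ∨ v = b then 1 else 0 := by
  unfold inc
  simp only [Sym2.mem_iff]

theorem dv_tg (K : Finset (Sym2 ℕ)) (e : Sym2 ℕ) (v : ℕ) : dv (tg K e) v = dv K v + sg K e * inc e v := by
  by_cases h : e ∈ K
  · have e1 : tg K e = K \ {e} := by
      ext f
      rw [mem_tg, Finset.mem_sdiff, Finset.mem_singleton]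
      constructor
      · rintro (h1 | ⟨h1, rfl⟩)
        · exact h1
        · exact absurd h h1
      · exact Or.inl
    rw [e1, dv_sdiff (Finset.singleton_subset_iff.2 h), Pi.sub_apply, dv_single, sg_mem h]
    unfold inc
    ring
  · have e1 : tg K e = K ∪ {e} := by
      ext f
      rw [mem_tg, Finset.mem_union, Finset.mem_singleton]
      constructor
      · rintro (h1 | h1)
        · exact Or.inl h1.1
        · exact Or.inr h1.2
      · rintro (h1 | rfl)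
        · exact Or.inl ⟨h1, fun h2 => h (h2 ▸ h1)⟩
        · exact Or.inr ⟨h, rfl⟩
    rw [e1, dv_union (Finset.disjoint_singleton_right.2 h), Pi.add_apply, dv_single, sg_not h]
    unfold inc
    ring

/-- a sequence of toggles -/
def tgs (K : Finset (Sym2 ℕ)) : List (Sym2 ℕ) → Finset (Sym2 ℕ)
  | [] => K
  | e :: l => tgs (tg K e) l

/-- the total change -/
def chg (K : Finset (Sym2 ℕ)) : List (Sym2 ℕ) → ℕ → ℤ
  | [], _ => 0
  | e :: l, v => sg K e * inc e v + chg K l v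

theorem chg_tg {K : Finset (Sym2 ℕ)} {e : Sym2 ℕ} (v : ℕ) : ∀ {l : List (Sym2 ℕ)}, e ∉ l → chg (tg K e) l v = chg K l v
  | [], _ => rfl
  | f :: l, h => by
    rw [List.mem_cons, not_or] at h
    rw [chg, chg, sg_tg (Ne.symm h.1), chg_tg v h.2]

theorem dv_tgs (v : ℕ) : ∀ {l : List (Sym2 ℕ)} {K : Finset (Sym2 ℕ)}, l.Nodup → dv (tgs K l) v = dv K v + chg K l v
  | [], K, _ => by rw [tgs, chg, add_zero]
  | e :: l, K, h => by
    rw [List.nodup_cons] at h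
    rw [tgs, dv_tgs v h.2, dv_tg, chg_tg v h.1, chg]
    ring

theorem mem_tgs_not {f : Sym2 ℕ} : ∀ {l : List (Sym2 ℕ)} {K : Finset (Sym2 ℕ)}, f ∉ l → (f ∈ tgs K l ↔ f ∈ K)
  | [], K, _ => Iff.rfl
  | e :: l, K, h => by
    rw [List.mem_cons, not_or] at h
    rw [tgs, mem_tgs_not h.2, mem_tg_ne h.1]

theorem mem_tgs {f : Sym2 ℕ} : ∀ {l : List (Sym2 ℕ)} {K : Finset (Sym2 ℕ)}, l.Nodup → f ∈ l → (f ∈ tgs K l ↔ f ∉ K)
  | [], K, _, h => absurd h (List.not_mem_nil)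
  | e :: l, K, hn, h => by
    rw [List.nodup_cons] at hn
    rw [tgs]
    rcases List.mem_cons.1 h with rfl | h
    · rw [mem_tgs_not hn.1, mem_tg_self]
    · have hne : f ≠ e := fun h1 => hn.1 (h1 ▸ h)
      rw [mem_tgs hn.2 h, mem_tg_ne hne]

theorem ph_le {V : Finset ℕ} {pl mi : ℕ → Prop} {d : ℕ → ℤ} (h : ∀ v ∈ V, con (pl v) (mi v) (d v) ≤ 0) :
    ph V pl mi d ≤ 0 := Finset.sum_nonpos h

theorem con_even {p m : Prop} {a : ℤ} (hp : p) (hm : m) (h : a % 2 = 0) : con p m a ≤ 0 := by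
  rw [con_Z hp hm, h]

theorem con_free {p m : Prop} {a : ℤ} (hp : ¬ p) (hm : ¬ m) : con p m a ≤ 0 := by
  rw [con_N hp hm]

theorem con_z {p m : Prop} {a : ℤ} (h : a = 0) : con p m a ≤ 0 := by
  rw [h, con_zero]

/-- a vertex which is not X, an even nonpositive value -/
theorem con_nX {p m : Prop} {a : ℤ} (h : m → p) (h0 : a ≤ 0) (h2 : a % 2 = 0) : con p m a ≤ 0 := by
  by_cases hp : p
  · by_cases hm : m
    · exact con_even hp hm h2
    · rw [con_Y hp hm]; exact h0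
  · exact con_free hp fun hm => hp (h hm)

theorem con_X_nonneg {p m : Prop} {a : ℤ} (hp : ¬ p) (hm : m) (h : 0 ≤ a) : con p m a ≤ 0 := by
  rw [con_X hp hm]
  omega

section
variable {X : XD} {P : ℕ → Finset (Sym2 ℕ) → Prop} {D : Finset (Finset (Sym2 ℕ))} {j : ℕ} {S : Finset ℕ}
  {M : ℕ → Finset (Sym2 ℕ)} {A : Clu ℕ → Finset (Sym2 ℕ) → Prop} {CL U : List (Clu ℕ)} {PL : Finset (Sym2 ℕ)}
  {pl mi : ℕ → Prop}

/-- change an allowed set inside one cluster -/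
theorem pw_inC (h : PW X P D j S M A CL U PL pl mi) {K K' : Finset (Sym2 ℕ)} (hK : AU A U PL K) {c : Clu ℕ}
    (hc : c ∈ U) (hK' : ∀ e, e ∉ c.edges → (e ∈ K' ↔ e ∈ K)) (hA : A c (K' ∩ c.edges)) : AU A U PL K' := by
  refine ⟨fun e he => ?_, fun c' hc' => ?_⟩
  · by_cases h1 : e ∈ c.edges
    · exact Finset.mem_union_left _ (mem_Ucl.2 ⟨c, hc, h1⟩)
    · exact hK.1 ((hK' e h1).1 he)
  · by_cases hcc : c' = c
    · subst hcc
      exact hA
    · have e1 : K' ∩ c'.edges = K ∩ c'.edges := by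
        ext e
        simp only [Finset.mem_inter]
        constructor
        · rintro ⟨h1, h2⟩
          exact ⟨(hK' e fun h3 => hcc (h.cls.eq ((h.uc c').1 hc').1 ((h.uc c).1 hc).1 h2 h3)).1 h1, h2⟩
        · rintro ⟨h1, h2⟩
          exact ⟨(hK' e fun h3 => hcc (h.cls.eq ((h.uc c').1 hc').1 ((h.uc c).1 hc).1 h2 h3)).2 h1, h2⟩
      rw [e1]
      exact hK.2 c' hc'

/-- toggle a plain edge -/
theorem pw_tgp (h : PW X P D j S M A CL U PL pl mi) {K : Finset (Sym2 ℕ)} (hK : AU A U PL K) {e : Sym2 ℕ}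
    (he : e ∈ PL) : AU A U PL (tg K e) := by
  refine ⟨fun f hf => ?_, fun c hc => ?_⟩
  · rcases mem_tg.1 hf with h1 | h1
    · exact hK.1 h1.1
    · rw [h1.2]
      exact Finset.mem_union_right _ he
  · have e1 : tg K e ∩ c.edges = K ∩ c.edges := by
      ext f
      simp only [Finset.mem_inter]
      constructor
      · rintro ⟨h1, h2⟩
        have h4 : f ≠ e := fun h3 => Finset.disjoint_left.1 (h.plain hc) he (by rw [← h3]; exact h2)
        exact ⟨(mem_tg_ne h4).1 h1, h2⟩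
      · rintro ⟨h1, h2⟩
        have h4 : f ≠ e := fun h3 => Finset.disjoint_left.1 (h.plain hc) he (by rw [← h3]; exact h2)
        exact ⟨(mem_tg_ne h4).2 h1, h2⟩
    rw [e1]
    exact hK.2 c hc

/-- the inequality for a modified near cover -/
theorem pw_tgs_w (h : PW X P D j S M A CL U PL pl mi) {w : ℕ} (hw : w ∈ S) (hT : w ∈ X.T) {l : List (Sym2 ℕ)}
    (hl : l.Nodup) (hA : AU A U PL (tgs (M w ∩ (Ucl U ∪ PL)) l)) :
    ∃ v ∈ X.V2, 0 < con (pl v) (mi v) (chg (M w ∩ (Ucl U ∪ PL)) l v - if v = w then 1 else 0) := by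
  by_contra hcon
  push Not at hcon
  have h1 := h.nc w hw hT _ hA
  have h2 : ph X.V2 pl mi (dv (tgs (M w ∩ (Ucl U ∪ PL)) l) - dv (M w ∩ (Ucl U ∪ PL)) - Pi.single w 1) ≤ 0 := by
    refine ph_le fun v hv => ?_
    have h3 := hcon v hv
    have e1 : (dv (tgs (M w ∩ (Ucl U ∪ PL)) l) - dv (M w ∩ (Ucl U ∪ PL)) - Pi.single w 1 : ℕ → ℤ) v =
        chg (M w ∩ (Ucl U ∪ PL)) l v - if v = w then (1 : ℤ) else 0 := by
      rw [Pi.sub_apply, Pi.sub_apply, dv_tgs v hl, sgl]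
      ring
    rw [e1]
    exact h3
  omega

end

/-! ### squares of `K2` clusters -/

/-- a set of edges of a `K2` cluster contains no square -/
theorem sqFree_k2 {a b : ℕ} {L : Finset ℕ} (hv : (Clu.k2 a b L).Valid) {K : Finset (Sym2 ℕ)}
    (hK : K ⊆ (Clu.k2 a b L).edges)
    (h : ∀ l ∈ L, ∀ l' ∈ L, l ≠ l' → s(a, l) ∈ K → s(b, l) ∈ K → s(a, l') ∈ K → s(b, l') ∈ K → False) :
    SqFree K := by
  obtain ⟨hab, haL, hbL, _⟩ := hv
  intro u v w z hs
  have hN : ∀ {s t : ℕ}, s(s, t) ∈ K → ((s = a ∨ s = b) ∧ t ∈ L) ∨ ((t = a ∨ t = b) ∧ s ∈ L) := fun h1 =>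
    mem_k2.1 (hK h1)
  have hh : ∀ {t : ℕ}, t ∈ L → ¬ (t = a ∨ t = b) := by
    rintro t ht (rfl | rfl)
    · exact haL ht
    · exact hbL ht
  have key : ∀ u v w z : ℕ, u ≠ w → v ≠ z → (u = a ∨ u = b) → v ∈ L → s(u, v) ∈ K → s(v, w) ∈ K → s(w, z) ∈ K →
      s(z, u) ∈ K → False := by
    intro u v w z uw vz hu hv e1 e2 e3 e4
    have hw : w = a ∨ w = b := by
      rcases hN e2 with ⟨h1, _⟩ | ⟨h1, _⟩
      · exact absurd h1 (hh hv)
      · exact h1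
    have hz : z ∈ L := by
      rcases hN e3 with ⟨_, h1⟩ | ⟨_, h1⟩
      · exact h1
      · exact absurd hw (hh h1)
    rcases hu with rfl | rfl
    · rcases hw with rfl | rfl
      · exact uw rfl
      · exact h v hv z hz vz e1 (by rwa [Sym2.eq_swap] at e2) (by rwa [Sym2.eq_swap] at e4) e3
    · rcases hw with rfl | rfl
      · exact h v hv z hz vz (by rwa [Sym2.eq_swap] at e2) e1 e3 (by rwa [Sym2.eq_swap] at e4)
      · exact uw rfl
  rcases hN hs.ab with ⟨h1, h2⟩ | ⟨h1, h2⟩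
  · exact key u v w z hs.ac hs.bd h1 h2 hs.ab hs.bc hs.cd hs.da
  · refine key v u z w hs.bd hs.ac h1 h2 (by rw [Sym2.eq_swap]; exact hs.ab) (by rw [Sym2.eq_swap]; exact hs.da)
      (by rw [Sym2.eq_swap]; exact hs.cd) (by rw [Sym2.eq_swap]; exact hs.bc)

/-- a square-free set of edges of a `K2` cluster -/
theorem k2_sqFree {a b : ℕ} (hab : a ≠ b) {K : Finset (Sym2 ℕ)} (h : SqFree K)
    {l l' : ℕ} (hl : l ≠ l') (h1 : s(a, l) ∈ K) (h2 : s(b, l) ∈ K) (h3 : s(a, l') ∈ K)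
    (h4 : s(b, l') ∈ K) : False :=
  h a l b l' ⟨hab, hl, h1, by rwa [Sym2.eq_swap], h4, by rwa [Sym2.eq_swap]⟩

/-- adding an edge closes a square: a 3-path -/
theorem path3 {K : Finset (Sym2 ℕ)} (hK : SqFree K) (hn : ∀ e ∈ K, ¬ e.IsDiag) {u v : ℕ} (huv : u ≠ v)
    (h : ¬ SqFree (insert s(u, v) K)) :
    ∃ a b, s(u, a) ∈ K ∧ s(a, b) ∈ K ∧ s(b, v) ∈ K ∧ u ≠ b ∧ a ≠ v := by
  unfold SqFree at h
  push Not at h
  obtain ⟨a, b, c, d, hs⟩ := h
  -- the four edges of the square; one of them is the new one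
  have sw : ∀ s t : ℕ, s(s, t) = s(t, s) := fun s t => Sym2.eq_swap
  have hne : ¬ (s(a, b) ≠ s(u, v) ∧ s(b, c) ≠ s(u, v) ∧ s(c, d) ≠ s(u, v) ∧ s(d, a) ≠ s(u, v)) := by
    rintro ⟨h1, h2, h3, h4⟩
    exact hK a b c d ⟨hs.ac, hs.bd, Finset.mem_of_mem_insert_of_ne hs.ab h1,
      Finset.mem_of_mem_insert_of_ne hs.bc h2, Finset.mem_of_mem_insert_of_ne hs.cd h3,
      Finset.mem_of_mem_insert_of_ne hs.da h4⟩
  -- general position
  have key : ∀ a b c d : ℕ, Sq (insert s(u, v) K) a b c d → s(a, b) = s(u, v) →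
      ∃ a b, s(u, a) ∈ K ∧ s(a, b) ∈ K ∧ s(b, v) ∈ K ∧ u ≠ b ∧ a ≠ v := by
    intro a b c d hs he
    have n1 : s(b, c) ≠ s(a, b) := by
      intro h1
      rw [Sym2.eq_iff] at h1
      rcases h1 with ⟨h1, h2⟩ | ⟨_, h2⟩
      · exact hs.ac (by rw [h2, h1])
      · exact hs.ac h2.symm
    have n2 : s(c, d) ≠ s(a, b) := by
      intro h1
      rw [Sym2.eq_iff] at h1
      rcases h1 with ⟨h1, _⟩ | ⟨h2, _⟩
      · exact hs.ac h1.symm
      · have h3 : s(b, c) ∈ K := Finset.mem_of_mem_insert_of_ne hs.bc (by rw [← he]; exact n1)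
        exact hn _ h3 (by rw [h2]; simp)
    have n3 : s(d, a) ≠ s(a, b) := by
      intro h1
      rw [Sym2.eq_iff] at h1
      rcases h1 with ⟨h1, h2⟩ | ⟨h2, _⟩
      · exact hs.bd (by rw [h1, h2])
      · exact hs.bd h2.symm
    have e2 : s(b, c) ∈ K := Finset.mem_of_mem_insert_of_ne hs.bc (by rw [← he]; exact n1)
    have e3 : s(c, d) ∈ K := Finset.mem_of_mem_insert_of_ne hs.cd (by rw [← he]; exact n2)
    have e4 : s(d, a) ∈ K := Finset.mem_of_mem_insert_of_ne hs.da (by rw [← he]; exact n3)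
    rw [Sym2.eq_iff] at he
    rcases he with ⟨rfl, rfl⟩ | ⟨rfl, rfl⟩
    · exact ⟨d, c, by rwa [sw], by rwa [sw], by rwa [sw], hs.ac, hs.bd.symm⟩
    · exact ⟨c, d, e2, e3, e4, hs.bd, hs.ac.symm⟩
  by_cases h1 : s(a, b) = s(u, v)
  · exact key a b c d hs h1
  by_cases h2 : s(b, c) = s(u, v)
  · exact key b c d a ⟨hs.bd, hs.ac.symm, hs.bc, hs.cd, hs.da, hs.ab⟩ h2
  by_cases h3 : s(c, d) = s(u, v)
  · exact key c d a b ⟨hs.ac.symm, hs.bd.symm, hs.cd, hs.da, hs.ab, hs.bc⟩ h3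
  by_cases h4 : s(d, a) = s(u, v)
  · exact key d a b c ⟨hs.bd.symm, hs.ac, hs.da, hs.ab, hs.bc, hs.cd⟩ h4
  exact absurd ⟨h1, h2, h3, h4⟩ hne

end Pool.Agent.PF4.XTg
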