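import Pool.Agent.PF4.XP4

/-!
# Tools for the frames `Fr D F`

`PW.base`: a witness without some edges of its square is allowed; `PW.ins`: an edge with an isolated end is added;
`PW.ev`: the evaluation.
-/

set_option autoImplicit false

namespace Pool.Agent.PF4.XT

open Finset Pool.Agent.TFC Pool.Agent.PF4 Pool.Agent.PF4.LD Pool.Agent.PF4.XC Pool.Agent.PF4.XF

/-! ### one cluster -/

theorem fr_nsq {D : Finset (Finset (Sym2 ℕ))} (hD : ∀ Z ∈ D, IsSq Z) {F : Clu ℕ → Prop} {c : Clu ℕ}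
    {K : Finset (Sym2 ℕ)} (hl : NoLoop K) (hs : NSq K) (hm : ¬ F c → M2 K) : Fr D F c K :=
  Fr_of (fun _ => sqFree_of hl hs) fun h => ⟨hm h, fun Z hZ => hs Z (hD Z hZ)⟩

/-- a new edge with an isolated end -/
theorem fr_ins {D : Finset (Finset (Sym2 ℕ))} (hD : ∀ Z ∈ D, IsSq Z) {F : Clu ℕ → Prop} {c : Clu ℕ}
    {K : Finset (Sym2 ℕ)} {u v : ℕ} (huv : u ≠ v) (hK : Fr D F c K) (hl : NoLoop K)
    (hu : ∀ a, s(u, a) ∈ K → a = v) (hv : F c ∨ dg K v ≤ 1) : Fr D F c (insert s(u, v) K) := by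
  by_cases he : s(u, v) ∈ K
  · rw [Finset.insert_eq_of_mem he]; exact hK
  have hl' : NoLoop (insert s(u, v) K) := by
    intro f hf
    rcases Finset.mem_insert.1 hf with rfl | hf
    · simpa using huv
    · exact hl f hf
  have hu0 : dg K u = 0 := by
    rw [dg, Finset.card_eq_zero, Finset.filter_eq_empty_iff]
    rintro f hf ⟨a, rfl⟩
    rw [hu a hf] at hf
    exact he hf
  -- a square through the new edge has a second edge at `u`
  have key : ∀ Z, IsSq Z → Z ⊆ insert s(u, v) K → Z ⊆ K := by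
    intro Z hZ hs
    by_cases h1 : s(u, v) ∈ Z
    · exfalso
      obtain ⟨a, b, c', ⟨n1, n2, n3, n4, n5, n6⟩, rfl⟩ := sq_at hZ h1 (v := u) (by simp)
      have g : ∀ w, s(u, w) ∈ TFC.sq u a b c' → w = v := by
        intro w hw
        rcases Finset.mem_insert.1 (hs hw) with h2 | h2
        · exact Sym2.congr_right.1 h2
        · exact hu w h2
      have h2 := g a (by simp [TFC.sq])
      have h3 := g c' (by rw [TFC.sq, Sym2.eq_swap (a := u) (b := c')]; simp)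
      exact n5 (h2.trans h3.symm)
    · intro f hf
      rcases Finset.mem_insert.1 (hs hf) with rfl | h2
      · exact absurd hf h1
      · exact h2
  refine Fr_of (fun hf => ?_) fun hf => ?_
  · rw [Fr_pos hf] at hK
    exact sqFree_of hl' fun Z hZ hs => (XU.sqFree_iff hl).1 hK Z hZ (key Z hZ hs)
  · rw [Fr_neg hf] at hK
    obtain ⟨h1, h2⟩ := hK
    refine ⟨⟨hl', fun w => ?_⟩, fun Z hZ hs => h2 Z hZ (key Z (hD Z hZ) hs)⟩
    rw [dg_insert he]
    have h3 := h1.le w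
    have h4 := hv.resolve_left hf
    by_cases hw : w ∈ s(u, v)
    · rw [if_pos hw]
      rcases Sym2.mem_iff.1 hw with rfl | rfl
      · omega
      · omega
    · rw [if_neg hw]; omega

/-- all edges but one at `v` -/
theorem dgLe1 {L C : Finset (Sym2 ℕ)} (hL : M2 L) {e : Sym2 ℕ} {v : ℕ} (he : e ∈ L) (hv : v ∈ e) (hC : e ∉ C) :
    dg (L ∩ C) v ≤ 1 := by
  have h1 := dg_erase he v
  rw [if_pos hv] at h1
  have h2 := hL.le v
  have h3 : dg (L ∩ C) v ≤ dg (L.erase e) v := dg_mono (fun f hf => by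
    rw [Finset.mem_inter] at hf
    rw [Finset.mem_erase]
    exact ⟨fun h => hC (h ▸ hf.2), hf.1⟩) v
  omega

theorem dgLe1' {L K C : Finset (Sym2 ℕ)} (hL : M2 L) (hK : K ⊆ L) {e : Sym2 ℕ} {v : ℕ} (he : e ∈ L) (hv : v ∈ e)
    (heK : e ∉ K) : dg (K ∩ C) v ≤ 1 := by
  have h1 := dg_erase he v
  rw [if_pos hv] at h1
  have h2 := hL.le v
  have h3 : dg (K ∩ C) v ≤ dg (L.erase e) v := dg_mono (fun f hf => by
    rw [Finset.mem_inter] at hf
    rw [Finset.mem_erase]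
    exact ⟨fun h => heK (h ▸ hf.1), hK hf.1⟩) v
  omega

theorem dgZero {K : Finset (Sym2 ℕ)} {v : ℕ} (h : ∀ e ∈ K, v ∉ e) : dg K v = 0 := by
  rw [dg, Finset.card_eq_zero, Finset.filter_eq_empty_iff]
  exact fun e he => h e he

section
variable {X : XD} {P : ℕ → Finset (Sym2 ℕ) → Prop} {D : Finset (Finset (Sym2 ℕ))} {j : ℕ} {S : Finset ℕ}
  {M : ℕ → Finset (Sym2 ℕ)} {A : Clu ℕ → Finset (Sym2 ℕ) → Prop} {F : Clu ℕ → Prop} {CL U : List (Clu ℕ)}
  {PL : Finset (Sym2 ℕ)} {pl mi : ℕ → Prop}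

/-- **evaluation of a changed witness** -/
theorem PW.ev (h : PW X P D j S M A CL U PL pl mi) {Z L : Finset (Sym2 ℕ)} (hZ : Z ∈ D) (hL : Wt X P D j Z L)
    {c : Clu ℕ} (hc : c ∈ U) (hZc : Z ⊆ c.edges) {K : Finset (Sym2 ℕ)} (hK : AU A U PL K) {d : ℕ → ℤ}
    (hd : dv K = dv (L ∩ (Ucl U ∪ PL)) + d) : 1 ≤ ph X.V2 pl mi d := by
  have h1 := h.witA Z hZ (fun e he => mem_Ucl.2 ⟨c, hc, hZc he⟩) L hL.mem hL.cov hL.uni K hK
  rw [hd, add_sub_cancel_left] at h1
  exact h1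

/-- **a witness without some edges of its square** -/
theorem PW.base (h : PW X P D j S M (Fr D F) CL U PL pl mi) {Z L : Finset (Sym2 ℕ)} (hZ : Z ∈ D)
    (hL : Wt X P D j Z L) {c : Clu ℕ} (hc : c ∈ U) (hZc : Z ⊆ c.edges)
    (hF : ∀ c' ∈ U, F c' → c' ≠ c → NSq (L ∩ c'.edges)) {R : Finset (Sym2 ℕ)} (hR : R ⊆ Z) (hne : R.Nonempty) :
    AU (Fr D F) U PL ((L ∩ (Ucl U ∪ PL)) \ R) := by
  refine ⟨Finset.sdiff_subset.trans Finset.inter_subset_right, fun c' hc' => ?_⟩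
  have e : (L ∩ (Ucl U ∪ PL)) \ R ∩ c'.edges = (L ∩ c'.edges) \ R := by
    rw [← h.interW hc' L]
    ext f
    simp only [Finset.mem_inter, Finset.mem_sdiff]
    tauto
  rw [e]
  have hl : NoLoop ((L ∩ c'.edges) \ R) := fun f hf =>
    hL.m2.nl f (Finset.mem_inter.1 (Finset.mem_sdiff.1 hf).1).1
  have hm : M2 ((L ∩ c'.edges) \ R) := hL.m2.mono (Finset.sdiff_subset.trans Finset.inter_subset_left)
  by_cases hcc : c' = c
  · subst hcc
    refine fr_nsq h.isq hl ?_ fun _ => hm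
    rw [inter_eq (h.val' hc) (h.isq Z hZ) hZc hL.m2 hL.sq]
    refine nsq_small ?_
    have h1 := Finset.card_sdiff_add_card_eq_card hR
    have h2 := IsSq.card (h.isq Z hZ)
    have h3 := hne.card_pos
    omega
  · refine Fr_of (fun hf => ?_) fun hf => ⟨hm, fun Z' hZ' hs => ?_⟩
    · exact sqFree_of hl ((hF c' hc' hf hcc).mono Finset.sdiff_subset)
    · have h1 := hs.trans (Finset.sdiff_subset.trans Finset.inter_subset_left)
      have h2 := hs.trans (Finset.sdiff_subset.trans Finset.inter_subset_right)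
      rw [hL.uni Z' hZ' h1] at h2
      obtain ⟨e, he⟩ := IsSq.ne (h.isq Z hZ)
      exact hcc (h.eqc hc' hc (h2 he) (hZc he))

/-- **an edge with an isolated end is added** (isolated in the cluster of the edge) -/
theorem PW.ins (h : PW X P D j S M (Fr D F) CL U PL pl mi) {K : Finset (Sym2 ℕ)} (hK : AU (Fr D F) U PL K) {u v : ℕ}
    (he : s(u, v) ∈ Ucl U ∪ PL)
    (hc : ∀ c ∈ U, s(u, v) ∈ c.edges →
      ((∀ a, s(u, a) ∈ K → s(u, a) ∈ c.edges → a = v) ∧ (F c ∨ dg (K ∩ c.edges) v ≤ 1)) ∨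
      ((∀ a, s(v, a) ∈ K → s(v, a) ∈ c.edges → a = u) ∧ (F c ∨ dg (K ∩ c.edges) u ≤ 1))) :
    AU (Fr D F) U PL (insert s(u, v) K) := by
  have huv := h.ne he
  rcases Finset.mem_union.1 he with h1 | h1
  · obtain ⟨c, hcU, hec⟩ := mem_Ucl.1 h1
    refine h.addc hK hcU hec ?_
    have hl : NoLoop (K ∩ c.edges) := h.nl (Finset.inter_subset_left.trans hK.1)
    rcases hc c hcU hec with ⟨h2, h3⟩ | ⟨h2, h3⟩
    · refine fr_ins h.isq huv (hK.2 c hcU) hl (fun a ha => ?_) h3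
      rw [Finset.mem_inter] at ha
      exact h2 a ha.1 ha.2
    · rw [Sym2.eq_swap]
      refine fr_ins h.isq huv.symm (hK.2 c hcU) hl (fun a ha => ?_) h3
      rw [Finset.mem_inter] at ha
      exact h2 a ha.1 ha.2
  · have := h.addp hK (Finset.singleton_subset_iff.2 h1)
    rwa [Finset.union_comm, ← Finset.insert_eq] at this

/-- the part of a changed set in a cluster -/
theorem PW.dgK (h : PW X P D j S M A CL U PL pl mi) {L R : Finset (Sym2 ℕ)} {c : Clu ℕ} (hc : c ∈ U) (v : ℕ) :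
    dg (((L ∩ (Ucl U ∪ PL)) \ R) ∩ c.edges) v ≤ dg (L ∩ c.edges) v := by
  refine dg_mono ?_ v
  rw [← h.interW hc L]
  exact Finset.inter_subset_inter_right Finset.sdiff_subset

theorem dg_ins_off {K : Finset (Sym2 ℕ)} {e : Sym2 ℕ} {C : Finset (Sym2 ℕ)} {v : ℕ} (hv : v ∉ e) :
    dg (insert e K ∩ C) v ≤ dg (K ∩ C) v := by
  unfold dg
  refine Finset.card_le_card fun f hf => ?_
  simp only [Finset.mem_filter, Finset.mem_inter, Finset.mem_insert] at hf ⊢
  obtain ⟨⟨h1 | h1, h2⟩, h3⟩ := hf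
  · rw [h1] at h3; exact absurd h3 hv
  · exact ⟨⟨h1, h2⟩, h3⟩

/-- edges of a witness at a corner of its square -/
theorem Wt.at (hL : ∀ Z ∈ D, IsSq Z) {Z L : Finset (Sym2 ℕ)} (hZ : Z ∈ D) (hW : Wt X P D j Z L) {e f : Sym2 ℕ} {v : ℕ}
    (he : e ∈ Z) (hv : v ∈ e) (hf : f ∈ L) (hvf : v ∈ f) : f ∈ Z :=
  sq_closed hW.m2 (hL Z hZ) hW.sq he hv hf hvf

theorem sq_vert {x y q p v : ℕ} {g : Sym2 ℕ} (hg : g ∈ TFC.sq x y q p) (hv : v ∈ g) :
    v = x ∨ v = y ∨ v = q ∨ v = p := by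
  simp only [TFC.sq, Finset.mem_insert, Finset.mem_singleton] at hg
  rcases hg with rfl | rfl | rfl | rfl
  · rcases Sym2.mem_iff.1 hv with h | h
    · exact Or.inl h
    · exact Or.inr (Or.inl h)
  · rcases Sym2.mem_iff.1 hv with h | h
    · exact Or.inr (Or.inl h)
    · exact Or.inr (Or.inr (Or.inl h))
  · rcases Sym2.mem_iff.1 hv with h | h
    · exact Or.inr (Or.inr (Or.inl h))
    · exact Or.inr (Or.inr (Or.inr h))
  · rcases Sym2.mem_iff.1 hv with h | h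
    · exact Or.inr (Or.inr (Or.inr h))
    · exact Or.inl h

theorem nd6 {x y q p r s : ℕ} (nd : [x, y, q, p, r, s].Nodup) :
    (x ≠ y ∧ x ≠ q ∧ x ≠ p ∧ x ≠ r ∧ x ≠ s) ∧ (y ≠ q ∧ y ≠ p ∧ y ≠ r ∧ y ≠ s) ∧ (q ≠ p ∧ q ≠ r ∧ q ≠ s) ∧
      (p ≠ r ∧ p ≠ s) ∧ r ≠ s := by
  simpa [List.nodup_cons] using nd

/-- **the evaluation of Lemma P for the types**: `L - xy + xr + ys` -/
theorem PW.e8 (h : PW X P D j S M (Fr D F) CL U PL pl mi) {x y q p r s e f : ℕ} (nd : [x, y, q, p, r, s].Nodup)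
    (hQ : TFC.sq x y q p ∈ D) {L : Finset (Sym2 ℕ)} (hL : Wt X P D j (TFC.sq x y q p) L) {c1 c2 : Clu ℕ}
    (hc1 : c1 ∈ U) (hQ1 : TFC.sq x y q p ⊆ c1.edges) (hc2 : c2 ∈ U) (hp : P3 (L ∩ c2.edges) r e f s)
    (hF : ∀ c ∈ U, F c → c ≠ c1 → NSq (L ∩ c.edges)) (hxr : s(x, r) ∈ Ucl U ∪ PL) (hys : s(y, s) ∈ Ucl U ∪ PL)
    (h1 : s(x, r) ∈ c2.edges → F c2) (h2 : s(y, s) ∈ c2.edges → F c2) :
    1 ≤ con (pl r) (mi r) 1 + con (pl s) (mi s) 1 := by
  obtain ⟨⟨xy, xq, xp, xr, xs⟩, ⟨yq, yp, yr, ys⟩, ⟨qp, qr, qs⟩, ⟨pr, ps⟩, rs⟩ := nd6 nd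
  have hxy : s(x, y) ∈ TFC.sq x y q p := by simp [TFC.sq]
  have K0 := h.base hQ hL hc1 hQ1 hF (R := {s(x, y)}) (Finset.singleton_subset_iff.2 hxy) (by simp)
  -- edges at `x`, `y` in `L` are edges of `Q`
  have hx : ∀ g ∈ L, x ∈ g → g ∈ TFC.sq x y q p := fun g hg hxg => hL.at h.isq hQ hxy (by simp) hg hxg
  have hy : ∀ g ∈ L, y ∈ g → g ∈ TFC.sq x y q p := fun g hg hyg => hL.at h.isq hQ hxy (by simp) hg hyg
  have hLc : L ∩ c1.edges = TFC.sq x y q p := inter_eq (h.val' hc1) (h.isq _ hQ) hQ1 hL.m2 hL.sq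
  obtain ⟨hd, p1, p2, p3⟩ := hp
  rw [Finset.mem_inter] at p1 p2 p3
  have hout : ∀ g ∈ L, g ∈ c1.edges → r ∉ g ∧ s ∉ g := by
    intro g hg hgc
    have hgQ : g ∈ TFC.sq x y q p := by rw [← hLc]; exact Finset.mem_inter.2 ⟨hg, hgc⟩
    constructor
    · intro hv
      rcases sq_vert hgQ hv with h3 | h3 | h3 | h3
      · exact xr h3.symm
      · exact yr h3.symm
      · exact qr h3.symm
      · exact pr h3.symm
    · intro hv
      rcases sq_vert hgQ hv with h3 | h3 | h3 | h3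
      · exact xs h3.symm
      · exact ys h3.symm
      · exact qs h3.symm
      · exact ps h3.symm
  have hne : c1 ≠ c2 := by
    rintro rfl
    exact (hout _ p1.1 p1.2).1 (by simp)
  have memK : ∀ {g : Sym2 ℕ}, g ∈ (L ∩ (Ucl U ∪ PL)) \ {s(x, y)} → g ∈ L ∧ g ≠ s(x, y) := by
    intro g hg
    rw [Finset.mem_sdiff, Finset.mem_inter, Finset.mem_singleton] at hg
    exact ⟨hg.1.1, hg.2⟩
  have hsub : (L ∩ (Ucl U ∪ PL)) \ {s(x, y)} ⊆ L := Finset.sdiff_subset.trans Finset.inter_subset_left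
  have hxyK : s(x, y) ∉ (L ∩ (Ucl U ∪ PL)) \ {s(x, y)} := by simp
  have K1 := h.ins K0 hxr (by
    intro c hc hec
    by_cases hcc : c = c1
    · subst hcc
      right
      refine ⟨fun a ha hac => ?_, Or.inr ?_⟩
      · exact absurd (by simp) (hout _ (memK ha).1 hac).1
      · exact dgLe1' hL.m2 hsub (hL.sq hxy) (by simp) hxyK
    · left
      refine ⟨fun a ha hac => ?_, ?_⟩
      · exact absurd (h.eqc hc hc1 hac (hQ1 (hx _ (memK ha).1 (by simp)))) hcc
      · by_cases hc2' : c = c2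
        · subst hc2'; exact Or.inl (h1 hec)
        · right
          exact (h.dgK hc r).trans (dgLe1 hL.m2 p1.1 (by simp) fun hc' => hc2' (h.eqc hc hc2 hc' p1.2)))
  have K2 := h.ins K1 hys (by
    intro c hc hec
    by_cases hcc : c = c1
    · subst hcc
      right
      refine ⟨fun a ha hac => ?_, Or.inr ?_⟩
      · rcases Finset.mem_insert.1 ha with ha | ha
        · exfalso
          have h3 : s ∈ s(x, r) := by rw [← ha]; simp
          rcases Sym2.mem_iff.1 h3 with h3 | h3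
          · exact xs h3.symm
          · exact rs h3.symm
        · exact absurd (by simp) (hout _ (memK ha).1 hac).2
      · refine (dg_ins_off ?_).trans (dgLe1' hL.m2 hsub (hL.sq hxy) (by simp) hxyK)
        rw [Sym2.mem_iff]
        rintro (h3 | h3)
        · exact xy h3.symm
        · exact yr h3
    · left
      refine ⟨fun a ha hac => ?_, ?_⟩
      · rcases Finset.mem_insert.1 ha with ha | ha
        · exfalso
          have h3 : y ∈ s(x, r) := by rw [← ha]; simp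
          rcases Sym2.mem_iff.1 h3 with h3 | h3
          · exact xy h3.symm
          · exact yr h3
        · exact absurd (h.eqc hc hc1 hac (hQ1 (hy _ (memK ha).1 (by simp)))) hcc
      · by_cases hc2' : c = c2
        · subst hc2'; exact Or.inl (h2 hec)
        · right
          refine (dg_ins_off ?_).trans ((h.dgK hc s).trans
            (dgLe1 hL.m2 p3.1 (by simp) fun hc' => hc2' (h.eqc hc hc2 hc' p3.2)))
          rw [Sym2.mem_iff]
          rintro (h3 | h3)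
          · exact xs h3.symm
          · exact rs h3.symm)
  -- the degrees
  have nxr : s(x, r) ∉ (L ∩ (Ucl U ∪ PL)) \ {s(x, y)} := fun hc => by
    rcases sq_vert (v := r) (hx _ (memK hc).1 (by simp)) (by simp) with h3 | h3 | h3 | h3
    · exact xr h3.symm
    · exact yr h3.symm
    · exact qr h3.symm
    · exact pr h3.symm
  have nys : s(y, s) ∉ insert s(x, r) ((L ∩ (Ucl U ∪ PL)) \ {s(x, y)}) := fun hc => by
    rcases Finset.mem_insert.1 hc with hc | hc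
    · have h3 : y ∈ s(x, r) := by rw [← hc]; simp
      rcases Sym2.mem_iff.1 h3 with h3 | h3
      · exact xy h3.symm
      · exact yr h3
    · rcases sq_vert (v := s) (hy _ (memK hc).1 (by simp)) (by simp) with h3 | h3 | h3 | h3
      · exact xs h3.symm
      · exact ys h3.symm
      · exact qs h3.symm
      · exact ps h3.symm
  have hxyW : s(x, y) ∈ L ∩ (Ucl U ∪ PL) := Finset.mem_inter.2 ⟨hL.sq hxy, h.cW' hc1 (hQ1 hxy)⟩
  have h4 := h.ev hQ hL hc1 hQ1 K2 (d := Pi.single r 1 + Pi.single s 1) (by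
    rw [XT.dv_insert nys, XT.dv_insert nxr, dv_sdiff (Finset.singleton_subset_iff.2 hxyW), dv_pair xy, dv_pair xr,
      dv_pair ys]
    abel)
  rwa [ph_two (h.v2' hxr (by simp)) (h.v2' hys (by simp)) rs] at h4

/-- only the clusters in `F` have to be checked -/
theorem PW.out (h : PW X P D j S M (Fr D F) CL U PL pl mi) {Z L : Finset (Sym2 ℕ)} (hZ : Z ∈ D)
    (hL : Wt X P D j Z L) {c : Clu ℕ} (hc : c ∈ U) (hZc : Z ⊆ c.edges)
    (hF : ∀ c' ∈ U, F c' → c' ≠ c → NSq (L ∩ c'.edges)) : Out (Fr D F) U c L := by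
  intro c' hc' hcc
  have hl : NoLoop (L ∩ c'.edges) := fun f hf => hL.m2.nl f (Finset.mem_inter.1 hf).1
  refine Fr_of (fun hf => sqFree_of hl (hF c' hc' hf hcc)) fun hf => ⟨hL.m2.mono Finset.inter_subset_left,
    fun Z' hZ' hs => ?_⟩
  have h1 := hs.trans Finset.inter_subset_left
  have h2 := hs.trans Finset.inter_subset_right
  rw [hL.uni Z' hZ' h1] at h2
  obtain ⟨e, he⟩ := IsSq.ne (h.isq Z hZ)
  exact hcc (h.eqc hc' hc (h2 he) (hZc he))

theorem fr_am2 {D : Finset (Finset (Sym2 ℕ))} (hD : ∀ Z ∈ D, IsSq Z) (F : Clu ℕ → Prop) (c : Clu ℕ) :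
    AM2 (Fr D F) c := fun _ _ hm hs => fr_nsq hD hm.nl hs fun _ => hm

theorem dg_ins_off' {K : Finset (Sym2 ℕ)} {e : Sym2 ℕ} {v : ℕ} (hv : v ∉ e) : dg (insert e K) v ≤ dg K v := by
  unfold dg
  refine Finset.card_le_card fun f hf => ?_
  simp only [Finset.mem_filter, Finset.mem_insert] at hf ⊢
  obtain ⟨h1 | h1, h3⟩ := hf
  · rw [h1] at h3; exact absurd h3 hv
  · exact ⟨h1, h3⟩

theorem dg_ins_le {K : Finset (Sym2 ℕ)} {e : Sym2 ℕ} {v : ℕ} : dg (insert e K) v ≤ dg K v + 1 := by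
  by_cases he : e ∈ K
  · rw [Finset.insert_eq_of_mem he]; omega
  · rw [dg_insert he]; split_ifs <;> omega

theorem dg_single_le {e : Sym2 ℕ} (v : ℕ) : dg ({e} : Finset (Sym2 ℕ)) v ≤ 1 :=
  (Finset.card_le_card (Finset.filter_subset _ _)).trans (by simp)

theorem dg_empty (v : ℕ) : dg (∅ : Finset (Sym2 ℕ)) v = 0 := by simp [dg]

/-- **a path with four edges** -/
theorem pth4 {D : Finset (Finset (Sym2 ℕ))} (hD : ∀ Z ∈ D, IsSq Z) {F : Clu ℕ → Prop} {c : Clu ℕ}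
    {v u e w b : ℕ} (nd : [v, u, e, w, b].Nodup) :
    Fr D F c {s(v, u), s(u, e), s(e, w), s(w, b)} ∧ dv ({s(v, u), s(u, e), s(e, w), s(w, b)} : Finset (Sym2 ℕ)) =
      Pi.single v 1 + (Pi.single u 1 + Pi.single u 1) + (Pi.single e 1 + Pi.single e 1) +
        (Pi.single w 1 + Pi.single w 1) + Pi.single b 1 := by
  obtain ⟨⟨vu, ve, vw, vb⟩, ⟨ue, uw, ub⟩, ⟨ew, eb⟩, wb⟩ : (v ≠ u ∧ v ≠ e ∧ v ≠ w ∧ v ≠ b) ∧
      (u ≠ e ∧ u ≠ w ∧ u ≠ b) ∧ (e ≠ w ∧ e ≠ b) ∧ w ≠ b := by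
    simpa [List.nodup_cons] using nd
  have n1 : v ∉ s(u, e) := by simp [vu, ve]
  have n2 : v ∉ s(e, w) := by simp [ve, vw]
  have n3 : v ∉ s(w, b) := by simp [vw, vb]
  have n4 : u ∉ s(e, w) := by simp [ue, uw]
  have n5 : u ∉ s(w, b) := by simp [uw, ub]
  have n6 : e ∉ s(w, b) := by simp [ew, eb]
  have l1 : NoLoop ({s(w, b)} : Finset (Sym2 ℕ)) := by
    intro f hf; rw [Finset.mem_singleton.1 hf]; simpa using wb
  have l2 : NoLoop ({s(e, w), s(w, b)} : Finset (Sym2 ℕ)) := by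
    intro f hf
    rcases Finset.mem_insert.1 hf with rfl | hf
    · simpa using ew
    · exact l1 f hf
  have l3 : NoLoop ({s(u, e), s(e, w), s(w, b)} : Finset (Sym2 ℕ)) := by
    intro f hf
    rcases Finset.mem_insert.1 hf with rfl | hf
    · simpa using ue
    · exact l2 f hf
  have k1 : Fr D F c ({s(w, b)} : Finset (Sym2 ℕ)) := by
    refine fr_nsq hD l1 (nsq_small (by simp)) fun _ => ⟨l1, fun x => (dg_single_le x).trans (by norm_num)⟩
  have d0 : ∀ x, dg ({s(w, b)} : Finset (Sym2 ℕ)) x ≤ 1 := fun x => dg_single_le x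
  have z1 : dg ({s(w, b)} : Finset (Sym2 ℕ)) e = 0 := dgZero fun f hf => by rw [Finset.mem_singleton.1 hf]; exact n6
  have k2 : Fr D F c ({s(e, w), s(w, b)} : Finset (Sym2 ℕ)) := by
    refine fr_ins hD ew k1 l1 (fun a ha => ?_) (Or.inr (d0 w))
    exfalso
    rw [Finset.mem_singleton] at ha
    exact n6 (by rw [← ha]; simp)
  have z2 : dg ({s(e, w), s(w, b)} : Finset (Sym2 ℕ)) e ≤ 1 := by
    have h1 : dg ({s(e, w), s(w, b)} : Finset (Sym2 ℕ)) e ≤ dg ({s(w, b)} : Finset (Sym2 ℕ)) e + 1 := dg_ins_le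
    omega
  have k3 : Fr D F c ({s(u, e), s(e, w), s(w, b)} : Finset (Sym2 ℕ)) := by
    refine fr_ins hD ue k2 l2 (fun a ha => ?_) (Or.inr z2)
    exfalso
    rcases Finset.mem_insert.1 ha with ha | ha
    · exact n4 (by rw [← ha]; simp)
    · rw [Finset.mem_singleton] at ha
      exact n5 (by rw [← ha]; simp)
  have z3 : dg ({s(u, e), s(e, w), s(w, b)} : Finset (Sym2 ℕ)) u ≤ 1 := by
    have h1 : dg ({s(u, e), s(e, w), s(w, b)} : Finset (Sym2 ℕ)) u ≤
      dg ({s(e, w), s(w, b)} : Finset (Sym2 ℕ)) u + 1 := dg_ins_le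
    have h2 : dg ({s(e, w), s(w, b)} : Finset (Sym2 ℕ)) u ≤ dg ({s(w, b)} : Finset (Sym2 ℕ)) u := dg_ins_off' n4
    have h3 : dg ({s(w, b)} : Finset (Sym2 ℕ)) u = 0 := dgZero fun f hf => by
      rw [Finset.mem_singleton.1 hf]; exact n5
    omega
  have k4 : Fr D F c ({s(v, u), s(u, e), s(e, w), s(w, b)} : Finset (Sym2 ℕ)) := by
    refine fr_ins hD vu k3 l3 (fun a ha => ?_) (Or.inr z3)
    exfalso
    rcases Finset.mem_insert.1 ha with ha | ha
    · exact n1 (by rw [← ha]; simp)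
    · rcases Finset.mem_insert.1 ha with ha | ha
      · exact n2 (by rw [← ha]; simp)
      · rw [Finset.mem_singleton] at ha
        exact n3 (by rw [← ha]; simp)
  refine ⟨k4, ?_⟩
  have m3 : s(e, w) ∉ ({s(w, b)} : Finset (Sym2 ℕ)) := fun h => n6 (by rw [← Finset.mem_singleton.1 h]; simp)
  have m2 : s(u, e) ∉ ({s(e, w), s(w, b)} : Finset (Sym2 ℕ)) := fun h => by
    rcases Finset.mem_insert.1 h with h | h
    · exact n4 (by rw [← h]; simp)
    · exact n5 (by rw [← Finset.mem_singleton.1 h]; simp)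
  have m1 : s(v, u) ∉ ({s(u, e), s(e, w), s(w, b)} : Finset (Sym2 ℕ)) := fun h => by
    rcases Finset.mem_insert.1 h with h | h
    · exact n1 (by rw [← h]; simp)
    · rcases Finset.mem_insert.1 h with h | h
      · exact n2 (by rw [← h]; simp)
      · exact n3 (by rw [← Finset.mem_singleton.1 h]; simp)
  rw [XT.dv_insert m1, XT.dv_insert m2, XT.dv_insert m3, dv_pair vu, dv_pair ue, dv_pair ew, dv_pair wb]
  abel

/-- four different vertices -/
theorem ph_four {V : Finset ℕ} {pl mi : ℕ → Prop} {u v w x : ℕ} (hu : u ∈ V) (hv : v ∈ V) (hw : w ∈ V) (hx : x ∈ V)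
    (huv : u ≠ v) (huw : u ≠ w) (hux : u ≠ x) (hvw : v ≠ w) (hvx : v ≠ x) (hwx : w ≠ x) (a b c d : ℤ) :
    ph V pl mi (Pi.single u a + Pi.single v b + Pi.single w c + Pi.single x d) =
      con (pl u) (mi u) a + con (pl v) (mi v) b + con (pl w) (mi w) c + con (pl x) (mi x) d := by
  rw [ph_add hx (by
    rw [Pi.add_apply, Pi.add_apply, sgl, sgl, sgl, if_neg hux.symm, if_neg hvx.symm, if_neg hwx.symm]; rfl),
    ph_three hu hv hw huv huw hvw]

end

end Pool.Agent.PF4.XT
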