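import Pool.Agent.PF4.XV

/-!
# Pattern p4, STEP 0

`PW.lemE`: a witness is square-free in every other cluster (with two centres) at a corner which is not of type X.
-/

set_option autoImplicit false

namespace Pool.Agent.PF4.XT

open Finset Pool.Agent.TFC Pool.Agent.PF4 Pool.Agent.PF4.LD Pool.Agent.PF4.XC Pool.Agent.PF4.XF

/-- a square in a cluster with two centres -/
theorem k2_form {u w : ℕ} {L : Finset ℕ} (hv : (Clu.k2 u w L).Valid) {Z : Finset (Sym2 ℕ)} (hZ : IsSq Z)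
    (hs : Z ⊆ (Clu.k2 u w L).edges) : ∃ b c, b ∈ L ∧ c ∈ L ∧ b ≠ c ∧ Z = TFC.sq u b w c := by
  obtain ⟨a1, a2, a3, a4, h4, rfl⟩ := hZ
  have hd := h4
  obtain ⟨n1, n2, n3, n4, n5, n6⟩ := hd
  rcases shape hv h4 hs with h | ⟨L', h | h, h1, h2, h3, h5⟩ | ⟨L', h | h, h1, h2, h3, h5⟩
  · cases h
  · injection h with e0 e1 e2
    subst e0 e1 e2
    exact ⟨a2, a4, h1, h2, n5, rfl⟩
  · injection h with e0 e1 e2
    subst e0 e1 e2
    exact ⟨a4, a2, h2, h1, n5.symm, by rw [sq_rot, sq_rot]⟩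
  · injection h with e0 e1 e2
    subst e0 e1 e2
    exact ⟨a3, a1, h2, h1, n2.symm, by rw [sq_rot]⟩
  · injection h with e0 e1 e2
    subst e0 e1 e2
    exact ⟨a1, a3, h1, h2, n2, by rw [sq_rot, sq_rot, sq_rot]⟩

/-- two neighbours of a corner -/
theorem sq_other {Z : Finset (Sym2 ℕ)} (hZ : IsSq Z) {e0 : Sym2 ℕ} (he0 : e0 ∈ Z) {v : ℕ} (hv : v ∈ e0) (e : ℕ) :
    ∃ v', v' ≠ e ∧ s(v, v') ∈ Z := by
  obtain ⟨a, b, c, ⟨n1, n2, n3, n4, n5, n6⟩, rfl⟩ := sq_at hZ he0 hv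
  by_cases h : a = e
  · exact ⟨c, fun h' => n5 (h.trans h'.symm), by rw [TFC.sq, Sym2.eq_swap (a := v) (b := c)]; simp⟩
  · exact ⟨a, h, by simp [TFC.sq]⟩

section
variable {X : XD} {P : ℕ → Finset (Sym2 ℕ) → Prop} {D : Finset (Finset (Sym2 ℕ))} {j : ℕ} {S : Finset ℕ}
  {M : ℕ → Finset (Sym2 ℕ)} {F : Clu ℕ → Prop} {CL U : List (Clu ℕ)} {PL : Finset (Sym2 ℕ)} {pl mi : ℕ → Prop}

/-- **Lemma E** (all clusters capped) -/
theorem PW.lemE (h : PW X P D j S M (Fr D fun _ => False) CL U PL pl mi) {Z L : Finset (Sym2 ℕ)} (hZ : Z ∈ D)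
    (hL : Wt X P D j Z L) {c0 c' : Clu ℕ} (hc0 : c0 ∈ U) (hZc : Z ⊆ c0.edges) (hc' : c' ∈ U) (hne : c' ≠ c0)
    (hk : K2 c') {v t : ℕ} {e0 : Sym2 ℕ} (he0 : e0 ∈ Z) (hv : v ∈ e0) (hvt : s(v, t) ∈ c'.edges)
    (hX : ¬ (mi v ∧ ¬ pl v)) : NSq (L ∩ c'.edges) := by
  intro S' hS' hs
  have hsL : S' ⊆ L := hs.trans Finset.inter_subset_left
  have hsc : S' ⊆ c'.edges := hs.trans Finset.inter_subset_right
  have hout : ∀ g ∈ S', ∀ z, z ∈ g → ∀ f ∈ Z, z ∉ f := by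
    intro g hg z hz f hf hzf
    exact hne (h.eqc hc' hc0 (hsc hg) (hZc (hL.at h.isq hZ hf hzf (hsL hg) hz)))
  obtain ⟨u, w, Lf, rfl⟩ := hk
  have hval := h.val' hc'
  have hval0 := hval
  obtain ⟨uw, uL, wL, _⟩ : u ≠ w ∧ u ∉ Lf ∧ w ∉ Lf ∧ 2 ≤ #Lf := hval0
  have hi : L ∩ (Clu.k2 u w Lf).edges = S' := inter_eq hval hS' hsc hL.m2 hsL
  obtain ⟨b, c, hb, hc, bc, rfl⟩ := k2_form hval hS' hsc
  have hA : ∀ c ∈ U, Fr D (fun _ => False) c = Acap D := fun c _ => Fr_neg fun h => h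
  have hD : TFC.sq u b w c ∉ D := by
    intro hd
    have h1 := hL.uni _ hd hsL
    have h2 : s(u, b) ∈ TFC.sq u b w c := by simp [TFC.sq]
    exact hout _ h2 u (by simp) s(u, b) (by rw [← h1]; exact h2) (by simp)
  obtain ⟨e, he, eb, ec, ⟨e1, e2⟩, _, cX⟩ := h.star hc' hA hb hc bc hD
  -- `v` is a leaf
  have vu : v ≠ u := by
    rintro rfl
    exact hout s(v, b) (by simp [TFC.sq]) v (by simp) e0 he0 hv
  have vw : v ≠ w := by
    rintro rfl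
    exact hout s(b, v) (by simp [TFC.sq]) v (by simp) e0 he0 hv
  have vL : v ∈ Lf := by
    rcases mem_k2.1 hvt with ⟨h1, _⟩ | ⟨_, h1⟩
    · rcases h1 with h1 | h1
      · exact absurd h1 vu
      · exact absurd h1 vw
    · exact h1
  have ev : e ≠ v := by rintro rfl; exact hX ⟨e1, e2⟩
  have vb : v ≠ b := by
    rintro rfl
    exact hout s(u, v) (by simp [TFC.sq]) v (by simp) e0 he0 hv
  obtain ⟨v', ve', hvv'⟩ := sq_other (h.isq Z hZ) he0 hv e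
  have v'b : v' ≠ b := by
    rintro rfl
    exact hout s(u, v') (by simp [TFC.sq]) v' (by simp) _ hvv' (by simp)
  have v'c : v' ≠ c := by
    rintro rfl
    exact hout s(v', u) (by simp [TFC.sq]) v' (by simp) _ hvv' (by simp)
  have nL : ∀ l ∈ Lf, l ≠ u ∧ l ≠ w := fun l hl => ⟨fun h => uL (h ▸ hl), fun h => wL (h ▸ hl)⟩
  obtain ⟨p1, p2⟩ := pth4 (D := D) h.isq (F := fun _ => False) (c := Clu.k2 u w Lf) (v := v) (u := u) (e := e)
    (w := w) (b := b) (by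
      simp only [List.nodup_cons, List.mem_cons, List.not_mem_nil, or_false, not_or, List.nodup_nil, and_true,
        not_false_eq_true]
      exact ⟨⟨vu, ev.symm, vw, vb⟩, ⟨(nL e he).1.symm, uw, (nL b hb).1.symm⟩, ⟨(nL e he).2, eb⟩, (nL b hb).2.symm⟩)
  have K0 := h.base hZ hL hc0 hZc (fun _ _ hf => hf.elim) (R := {s(v, v')}) (Finset.singleton_subset_iff.2 hvv')
    (by simp)
  have hFs : ({s(v, u), s(u, e), s(e, w), s(w, b)} : Finset (Sym2 ℕ)) ⊆ (Clu.k2 u w Lf).edges := by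
    intro f hf
    simp only [Finset.mem_insert, Finset.mem_singleton] at hf
    rcases hf with rfl | rfl | rfl | rfl
    · exact mem_k2.2 (Or.inr ⟨Or.inl rfl, vL⟩)
    · exact mem_k2.2 (Or.inl ⟨Or.inl rfl, he⟩)
    · exact mem_k2.2 (Or.inr ⟨Or.inr rfl, he⟩)
    · exact mem_k2.2 (Or.inl ⟨Or.inr rfl, hb⟩)
  obtain ⟨K1, K2⟩ := h.rep hc' K0.1 (fun c'' h'' _ => K0.2 c'' h'') hFs p1
  have hKi : (L ∩ (Ucl U ∪ PL)) \ {s(v, v')} ∩ (Clu.k2 u w Lf).edges = TFC.sq u b w c := by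
    rw [← hi, ← h.interW hc' L]
    ext f
    simp only [Finset.mem_inter, Finset.mem_sdiff, Finset.mem_singleton]
    refine ⟨fun h1 => ⟨h1.1.1, h1.2⟩, fun h1 => ⟨⟨h1.1, ?_⟩, h1.2⟩⟩
    rintro rfl
    exact hne (h.eqc hc' hc0 h1.2 (hZc hvv'))
  have hvW : s(v, v') ∈ L ∩ (Ucl U ∪ PL) := Finset.mem_inter.2 ⟨hL.sq hvv', h.cW' hc0 (hZc hvv')⟩
  have vv' : v ≠ v' := h.ne (h.cW' hc0 (hZc hvv'))
  have hub : u ≠ b := (nL b hb).1.symm
  have d4 : Dist4 u b w c := ⟨hub, uw, (nL c hc).1.symm, (nL b hb).2, bc, (nL c hc).2.symm⟩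
  have dq := dv_sq d4
  simp only [ev_single] at dq
  have h4 := h.ev hZ hL hc0 hZc K1 (d := Pi.single e 2 + Pi.single b (-1) + Pi.single c (-2) + Pi.single v' (-1)) (by
    rw [K2, hKi, dv_sdiff (Finset.singleton_subset_iff.2 hvW), dv_pair vv', dq, p2]
    have t2 : ∀ z : ℕ, (Pi.single z 2 : ℕ → ℤ) = Pi.single z 1 + Pi.single z 1 := fun z => by
      rw [← Pi.single_add]; norm_num
    have t3 : ∀ z : ℕ, (Pi.single z (-2) : ℕ → ℤ) = -(Pi.single z 1 + Pi.single z 1) := fun z => by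
      rw [← Pi.single_add, ← Pi.single_neg]; norm_num
    have t4 : ∀ z : ℕ, (Pi.single z (-1) : ℕ → ℤ) = -Pi.single z 1 := fun z => by rw [← Pi.single_neg]
    rw [t2 e, t3 c, t4 b, t4 v']
    abel)
  have hV : ∀ {l : ℕ}, l ∈ Lf → l ∈ X.V2 := fun {l} hl =>
    h.v2' (h.cW' hc' (mem_k2.2 (Or.inl ⟨Or.inl rfl, hl⟩) : s(u, l) ∈ (Clu.k2 u w Lf).edges)) (by simp)
  rw [ph_four (hV he) (hV hb) (hV hc) (h.v2' (h.cW' hc0 (hZc hvv')) (by simp)) eb ec ve'.symm bc v'b.symm v'c.symm]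
    at h4
  have g1 : con (pl e) (mi e) 2 = -2 := con_X e2 e1 2
  have g2 := con_neg_one (pl b) (mi b)
  have g3 := con_neg_one (pl v') (mi v')
  have g4 : con (pl c) (mi c) (-2) ≤ 0 := by
    by_contra hcon
    obtain ⟨h5, h6⟩ := con_neg_two (p := pl c) (m := mi c) (by omega)
    exact h6 (cX h5)
  omega

theorem both_pl {p q m n : Prop} (h : 1 ≤ con p m 1 + con q n 1) (hm : m) (hn : n) : p ∧ q := by
  have h1 := con_one p m
  have h2 := con_one q n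
  constructor
  · by_contra hp
    have h3 : con p m 1 = -1 := con_X hp hm 1
    omega
  · by_contra hp
    have h3 : con q n 1 = -1 := con_X hp hn 1
    omega

theorem sq_nb {u a b v z : ℕ} (h4 : Dist4 u a b v) (h : s(u, z) ∈ TFC.sq u a b v) : z = a ∨ z = v := by
  obtain ⟨n1, n2, n3, n4, n5, n6⟩ := h4
  simp only [TFC.sq, Finset.mem_insert, Finset.mem_singleton, Sym2.eq_iff] at h
  rcases h with (⟨_, h⟩ | ⟨h, _⟩) | (⟨h, _⟩ | ⟨h, _⟩) | (⟨h, _⟩ | ⟨h, _⟩) | (⟨h, _⟩ | ⟨_, h⟩)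
  · exact Or.inl h
  · exact absurd h n1
  · exact absurd h n1
  · exact absurd h n2
  · exact absurd h n2
  · exact absurd h n3
  · exact absurd h n3
  · exact Or.inr h

/-- three edges of a square determine the fourth one -/
theorem sq_close {Z : Finset (Sym2 ℕ)} (hZ : IsSq Z) {r e f s : ℕ} (h4 : Dist4 r e f s) (h1 : s(r, e) ∈ Z)
    (h2 : s(e, f) ∈ Z) (h3 : s(f, s) ∈ Z) : s(r, s) ∈ Z := by
  obtain ⟨g1, g2, g3, g4, g5, g6⟩ := h4
  obtain ⟨a, b, ⟨n1, n2, n3, n4, n5, n6⟩, rfl⟩ := sq_edge hZ h2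
  have hr : r = a := by
    rcases sq_nb ⟨n1, n2, n3, n4, n5, n6⟩ (z := r) (by rw [Sym2.eq_swap]; exact h1) with h | h
    · exact h
    · exact absurd h g2
  have hs : s = b := by
    have h4 : s(f, s) ∈ TFC.sq f b a e := by
      rw [sq_ref e a b f] at h3
      exact h3
    rcases sq_nb ⟨n6.symm, n5.symm, n3.symm, n4.symm, n2.symm, n1.symm⟩ h4 with h | h
    · exact h
    · exact absurd h g5.symm
  subst hr hs
  simp [TFC.sq]

/-- a 2-matching which contains a path `r e f s` of a cluster with two centres, but not the edge `rs` of the cluster, has no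
square in the cluster -/
theorem nsq_path {L : Finset (Sym2 ℕ)} (hL : M2 L) {c : Clu ℕ} (hv : c.Valid) (hk : K2 c) {r e f s : ℕ}
    (hp : P3 (L ∩ c.edges) r e f s) (hrs : s(r, s) ∉ L) (hc : s(r, s) ∈ c.edges) : NSq (L ∩ c.edges) := by
  intro S' hS' hs
  have hsL : S' ⊆ L := hs.trans Finset.inter_subset_left
  have hsc : S' ⊆ c.edges := hs.trans Finset.inter_subset_right
  obtain ⟨h4, p1, p2, p3⟩ := hp
  have q1 := (Finset.mem_inter.1 p1).1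
  have q2 := (Finset.mem_inter.1 p2).1
  have q3 := (Finset.mem_inter.1 p3).1
  have cl : ∀ {g g' : Sym2 ℕ} {z : ℕ}, g ∈ S' → z ∈ g → g' ∈ L → z ∈ g' → g' ∈ S' := fun hg hz hg' hz' =>
    sq_closed hL hS' hsL hg hz hg' hz'
  have key : ∀ {g : Sym2 ℕ}, g ∈ S' → (r ∈ g ∨ s ∈ g) → False := by
    rintro g hg (hr | hs')
    · have e1 := cl hg hr q1 (by simp)
      have e2 := cl e1 (z := e) (by simp) q2 (by simp)
      have e3 := cl e2 (z := f) (by simp) q3 (by simp)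
      exact hrs (hsL (sq_close hS' h4 e1 e2 e3))
    · have e3 := cl hg hs' q3 (by simp)
      have e2 := cl e3 (z := f) (by simp) q2 (by simp)
      have e1 := cl e2 (z := e) (by simp) q1 (by simp)
      exact hrs (hsL (sq_close hS' h4 e1 e2 e3))
  obtain ⟨u, w, Lf, rfl⟩ := hk
  obtain ⟨b, c', hb, hc', bc, rfl⟩ := k2_form hv hS' hsc
  have k1 : s(u, b) ∈ TFC.sq u b w c' := by simp [TFC.sq]
  have k2 : s(b, w) ∈ TFC.sq u b w c' := by simp [TFC.sq]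
  rcases mem_k2.1 hc with ⟨rfl | rfl, _⟩ | ⟨rfl | rfl, _⟩
  · exact key k1 (Or.inl (by simp))
  · exact key k2 (Or.inl (by simp))
  · exact key k1 (Or.inr (by simp))
  · exact key k2 (Or.inr (by simp))

end

/-! ### the configuration `V0` -/

section
variable {X : XD} {P : ℕ → Finset (Sym2 ℕ) → Prop} {D : Finset (Finset (Sym2 ℕ))} {j m : ℕ} {S : Finset ℕ}
  {M : ℕ → Finset (Sym2 ℕ)} {CL U : List (Clu ℕ)} {PL : Finset (Sym2 ℕ)} {x y q p r s a b : ℕ}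
  {c1 c2 : Clu ℕ} {L1 L2 : Finset (Sym2 ℕ)}

theorem nd8 {x y q p r s a b : ℕ} (nd : [x, y, q, p, r, s, a, b].Nodup) :
    (x ≠ y ∧ x ≠ q ∧ x ≠ p ∧ x ≠ r ∧ x ≠ s ∧ x ≠ a ∧ x ≠ b) ∧ (y ≠ q ∧ y ≠ p ∧ y ≠ r ∧ y ≠ s ∧ y ≠ a ∧ y ≠ b) ∧
      (q ≠ p ∧ q ≠ r ∧ q ≠ s ∧ q ≠ a ∧ q ≠ b) ∧ (p ≠ r ∧ p ≠ s ∧ p ≠ a ∧ p ≠ b) ∧ (r ≠ s ∧ r ≠ a ∧ r ≠ b) ∧
      (s ≠ a ∧ s ≠ b) ∧ a ≠ b := by
  simpa [List.nodup_cons] using nd

/-- every edge of `X.E` at a vertex of `S` is in the region -/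
theorem WA.reg (h : WA X P D j m S M CL U PL) {u : ℕ} (hu : u ∈ S) {e : Sym2 ℕ} (he : e ∈ X.E) (hue : u ∈ e) :
    e ∈ Ucl U ∪ PL := by
  obtain ⟨pl, mi, h1, _⟩ := h.fr (fun _ => False) fun _ h => h.elim
  exact h1.rch u (Rch.mono (Nat.zero_le 3) hu) e he hue

/-- `c1` and `c2` are different -/
theorem V0.ne (v : V0 X P D j m S M CL U PL x y q p r s a b c1 c2 L1 L2) : c1 ≠ c2 := by
  rintro rfl
  obtain ⟨pl, mi, h, _⟩ := v.wa.fr (fun _ => False) fun _ h => h.elim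
  obtain ⟨⟨xy, xq, xp, xr, xs, xa, xb⟩, ⟨yq, yp, yr, ys, ya, yb⟩, ⟨qp, qr, qs, qa, qb⟩, ⟨pr, ps, pa, pb⟩,
    ⟨rs, ra, rb⟩, ⟨sa, sb⟩, ab⟩ := nd8 v.nd
  have h1 : s(r, a) ∈ L1 ∩ c1.edges := v.p1.2.1
  rw [inter_eq (h.val' v.c1U) (h.isq _ v.hQ) v.q1 v.w1.m2 v.w1.sq] at h1
  rcases sq_vert h1 (v := r) (by simp) with h2 | h2 | h2 | h2
  · exact xr h2.symm
  · exact yr h2.symm
  · exact qr h2.symm
  · exact pr h2.symm

theorem V0.n1 (v : V0 X P D j m S M CL U PL x y q p r s a b c1 c2 L1 L2) : NSq (L1 ∩ c2.edges) := by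
  obtain ⟨pl, mi, h, _⟩ := v.wa.fr (fun _ => False) fun _ h => h.elim
  exact nsq_path v.w1.m2 (h.val' v.c2U) v.k2 v.p1 v.rs1 (v.z2 (by simp [TFC.sq]))

theorem V0.n2 (v : V0 X P D j m S M CL U PL x y q p r s a b c1 c2 L1 L2) : NSq (L2 ∩ c1.edges) := by
  obtain ⟨pl, mi, h, _⟩ := v.wa.fr (fun _ => False) fun _ h => h.elim
  obtain ⟨e, f, hp⟩ := v.p2
  exact nsq_path v.w2.m2 (h.val' v.c1U) v.k1 hp v.xy2 (v.q1 (by simp [TFC.sq]))

theorem V0.nd1 (v : V0 X P D j m S M CL U PL x y q p r s a b c1 c2 L1 L2) : [x, y, q, p, r, s].Nodup := by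
  have h := v.nd
  have e : [x, y, q, p, r, s, a, b] = [x, y, q, p, r, s] ++ [a, b] := rfl
  rw [e, List.nodup_append] at h
  exact h.1

theorem V0.nd2 (v : V0 X P D j m S M CL U PL x y q p r s a b c1 c2 L1 L2) : [r, s, b, a, x, y].Nodup := by
  obtain ⟨⟨xy, xq, xp, xr, xs, xa, xb⟩, ⟨yq, yp, yr, ys, ya, yb⟩, ⟨qp, qr, qs, qa, qb⟩, ⟨pr, ps, pa, pb⟩,
    ⟨rs, ra, rb⟩, ⟨sa, sb⟩, ab⟩ := nd8 v.nd
  simp only [List.nodup_cons, List.mem_cons, List.not_mem_nil, or_false, not_or, List.nodup_nil, and_true,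
    not_false_eq_true]
  exact ⟨⟨rs, rb, ra, xr.symm, yr.symm⟩, ⟨sb, sa, xs.symm, ys.symm⟩, ⟨ab.symm, xb.symm, yb.symm⟩,
    ⟨xa.symm, ya.symm⟩, xy⟩

/-- **types of `r`, `s`**: frames in `{c1, c2}` -/
theorem V0.rsZ (v : V0 X P D j m S M CL U PL x y q p r s a b c1 c2 L1 L2) {F : Clu ℕ → Prop} {pl mi : ℕ → Prop}
    (h : PW X P D j S M (Fr D F) CL U PL pl mi) (hm : ∀ w ∈ S, w ∈ X.T → mi w) (hF : ∀ c, F c → c = c1 ∨ c = c2)
    (h1 : s(x, r) ∈ c2.edges → F c2) (h2 : s(y, s) ∈ c2.edges → F c2) : pl r ∧ pl s := by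
  refine both_pl ?_ (hm r v.rS v.rT) (hm s v.sS v.sT)
  refine h.e8 v.nd1 v.hQ v.w1 v.c1U v.q1 v.c2U v.p1 (fun c hc hf hne => ?_) (v.wa.reg v.xS v.xr (by simp))
    (v.wa.reg v.yS v.ys (by simp)) h1 h2
  rcases hF c hf with rfl | rfl
  · exact absurd rfl hne
  · exact v.n1

/-- **types of `x`, `y`**: frames in `{c1, c2}` -/
theorem V0.xyZ (v : V0 X P D j m S M CL U PL x y q p r s a b c1 c2 L1 L2) {F : Clu ℕ → Prop} {pl mi : ℕ → Prop}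
    (h : PW X P D j S M (Fr D F) CL U PL pl mi) (hm : ∀ w ∈ S, w ∈ X.T → mi w) (hF : ∀ c, F c → c = c1 ∨ c = c2)
    (h1 : s(x, r) ∈ c1.edges → F c1) (h2 : s(y, s) ∈ c1.edges → F c1) : pl x ∧ pl y := by
  refine both_pl ?_ (hm x v.xS v.xT) (hm y v.yS v.yT)
  obtain ⟨e, f, hp⟩ := v.p2
  refine h.e8 v.nd2 v.hZ v.w2 v.c2U v.z2 v.c1U hp (fun c hc hf hne => ?_) ?_ ?_ ?_ ?_
  · rcases hF c hf with rfl | rfl
    · exact v.n2
    · exact absurd rfl hne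
  · rw [Sym2.eq_swap]; exact v.wa.reg v.xS v.xr (by simp)
  · rw [Sym2.eq_swap]; exact v.wa.reg v.yS v.ys (by simp)
  · rw [Sym2.eq_swap]; exact h1
  · rw [Sym2.eq_swap]; exact h2

/-- **`q` is of type X** -/
theorem V0.qX (v : V0 X P D j m S M CL U PL x y q p r s a b c1 c2 L1 L2) {F : Clu ℕ → Prop} {pl mi : ℕ → Prop}
    (h : PW X P D j S M (Fr D F) CL U PL pl mi) (hF : ∀ c, F c → c = c1 ∨ c = c2) (hx : pl x) (hy : pl y) :
    mi q ∧ ¬ pl q := by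
  have ho := h.out v.hQ v.w1 v.c1U v.q1 (fun c hc hf hne => by
    rcases hF c hf with rfl | rfl
    · exact absurd rfl hne
    · exact v.n1)
  obtain ⟨z, ⟨e, he, hz⟩, z1, z2⟩ := h.L1x v.hQ v.w1 v.c1U v.q1 (fr_am2 h.isq F c1) ho
  rcases sq_vert he hz with rfl | rfl | rfl | rfl
  · exact absurd hx z2
  · exact absurd hy z2
  · exact ⟨z1, z2⟩
  · exact absurd z1 (h.free z (h.ok.vn z (h.v2' (h.cW' v.c1U (v.q1 he)) hz)) v.pT)

/-- **`a` or `b` is of type X** -/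
theorem V0.abX (v : V0 X P D j m S M CL U PL x y q p r s a b c1 c2 L1 L2) {F : Clu ℕ → Prop} {pl mi : ℕ → Prop}
    (h : PW X P D j S M (Fr D F) CL U PL pl mi) (hF : ∀ c, F c → c = c1 ∨ c = c2) (hr : pl r) (hs : pl s) :
    (mi a ∧ ¬ pl a) ∨ (mi b ∧ ¬ pl b) := by
  have ho := h.out v.hZ v.w2 v.c2U v.z2 (fun c hc hf hne => by
    rcases hF c hf with rfl | rfl
    · exact v.n2
    · exact absurd rfl hne)
  obtain ⟨z, ⟨e, he, hz⟩, z1, z2⟩ := h.L1x v.hZ v.w2 v.c2U v.z2 (fr_am2 h.isq F c2) ho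
  rcases sq_vert he hz with rfl | rfl | rfl | rfl
  · exact absurd hr z2
  · exact absurd hs z2
  · exact Or.inr ⟨z1, z2⟩
  · exact Or.inl ⟨z1, z2⟩

end

end Pool.Agent.PF4.XT
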