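import Pool.Agent.PF4.XV0

/-!
# Pattern p4, STEP 0

`xr` and `ys` lie in no square of `D`.
-/

set_option autoImplicit false

namespace Pool.Agent.PF4.XT

open Finset Pool.Agent.TFC Pool.Agent.PF4 Pool.Agent.PF4.LD Pool.Agent.PF4.XC Pool.Agent.PF4.XF

/-- `u`, `w` are the centres, `L` the leaves -/
structure KH (c : Clu ℕ) (u w : ℕ) (L : Finset ℕ) : Prop where
  eq : c = Clu.k2 u w L ∨ c = Clu.k2 w u L
  uw : u ≠ w
  uL : u ∉ L
  wL : w ∉ L

theorem KH.mem {c : Clu ℕ} {u w : ℕ} {L : Finset ℕ} (h : KH c u w L) {a b : ℕ} :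
    s(a, b) ∈ c.edges ↔ ((a = u ∨ a = w) ∧ b ∈ L) ∨ ((b = u ∨ b = w) ∧ a ∈ L) := by
  rcases h.eq with rfl | rfl
  · exact mem_k2
  · rw [mem_k2, or_comm (a := a = w), or_comm (a := b = w)]

theorem KH.swap {c : Clu ℕ} {u w : ℕ} {L : Finset ℕ} (h : KH c u w L) : KH c w u L :=
  ⟨h.eq.symm, h.uw.symm, h.wL, h.uL⟩

/-- the centres of a cluster with a square -/
theorem k2Hubs {c : Clu ℕ} (hv : c.Valid) (hk : K2 c) {x y q p : ℕ} (h4 : Dist4 x y q p)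
    (hs : TFC.sq x y q p ⊆ c.edges) :
    (∃ L, KH c x q L ∧ y ∈ L ∧ p ∈ L) ∨ (∃ L, KH c y p L ∧ x ∈ L ∧ q ∈ L) := by
  obtain ⟨n1, n2, n3, n4, n5, n6⟩ := h4
  rcases shape hv ⟨n1, n2, n3, n4, n5, n6⟩ hs with h | ⟨L, h, h1, h2, h3, h5⟩ | ⟨L, h, h1, h2, h3, h5⟩
  · obtain ⟨a, b, L, rfl⟩ := hk
    cases h
  · exact Or.inl ⟨L, ⟨h, n2, h3, h5⟩, h1, h2⟩
  · exact Or.inr ⟨L, ⟨h, n5, h3, h5⟩, h1, h2⟩

/-- a leaf of a square is adjacent to the centre in the square -/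
theorem KH.leaf_edge {c : Clu ℕ} {u w : ℕ} {L : Finset ℕ} (h : KH c u w L) (hv : c.Valid) {Z : Finset (Sym2 ℕ)}
    (hZ : IsSq Z) (hs : Z ⊆ c.edges) {l : ℕ} (hl : l ∈ L) {g : Sym2 ℕ} (hg : g ∈ Z) (hlg : l ∈ g) :
    s(u, l) ∈ Z := by
  have key : ∀ u w : ℕ, (Clu.k2 u w L).Valid → Z ⊆ (Clu.k2 u w L).edges → u ∉ L → w ∉ L →
      s(u, l) ∈ Z ∧ s(w, l) ∈ Z := by
    intro u w hv hs hu hw
    obtain ⟨b, c, hb, hc, bc, rfl⟩ := k2_form hv hZ hs
    rcases sq_vert hg hlg with h1 | h1 | h1 | h1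
    · exact absurd (h1 ▸ hl) hu
    · subst h1
      exact ⟨by simp [TFC.sq], by rw [Sym2.eq_swap]; simp [TFC.sq]⟩
    · exact absurd (h1 ▸ hl) hw
    · subst h1
      exact ⟨by rw [Sym2.eq_swap]; simp [TFC.sq], by simp [TFC.sq]⟩
  rcases h.eq with rfl | rfl
  · exact (key u w hv hs h.uL h.wL).1
  · exact (key w u hv hs h.wL h.uL).2

section
variable {X : XD} {P : ℕ → Finset (Sym2 ℕ) → Prop} {D : Finset (Finset (Sym2 ℕ))} {j : ℕ} {S : Finset ℕ}
  {M : ℕ → Finset (Sym2 ℕ)} {F : Clu ℕ → Prop} {CL U : List (Clu ℕ)} {PL : Finset (Sym2 ℕ)} {pl mi : ℕ → Prop}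

/-- the leaf lemma in a frame in which only the cluster itself may be uncapped -/
theorem PW.leafK (h : PW X P D j S M (Fr D F) CL U PL pl mi) {c : Clu ℕ} (hcU : c ∈ U) {u w : ℕ} {Lf : Finset ℕ}
    (hK : KH c u w Lf) (hF : ∀ c', F c' → c' = c) {b' c' l : ℕ} (hb : b' ∈ Lf) (hc : c' ∈ Lf) (hl : l ∈ Lf)
    (bc : b' ≠ c') (bl : b' ≠ l) (cl : c' ≠ l) (hD : TFC.sq u c' w l ∈ D) :
    1 ≤ con (pl c') (mi c') (-1) + con (pl b') (mi b') 1 := by
  obtain ⟨L, hL⟩ := h.wt hD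
  have nL : ∀ l ∈ Lf, l ≠ u ∧ l ≠ w := fun l hl => ⟨fun h => hK.uL (h ▸ hl), fun h => hK.wL (h ▸ hl)⟩
  have huw := hK.uw
  have hZc : TFC.sq u c' w l ⊆ c.edges := by
    intro f hf
    simp only [TFC.sq, Finset.mem_insert, Finset.mem_singleton] at hf
    rcases hf with rfl | rfl | rfl | rfl
    · exact hK.mem.2 (Or.inl ⟨Or.inl rfl, hc⟩)
    · exact hK.mem.2 (Or.inr ⟨Or.inr rfl, hc⟩)
    · exact hK.mem.2 (Or.inl ⟨Or.inr rfl, hl⟩)
    · exact hK.mem.2 (Or.inr ⟨Or.inl rfl, hl⟩)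
  obtain ⟨p1, p2⟩ := pth4 (D := D) h.isq (F := F) (c := c) (v := b') (u := u) (e := l) (w := w) (b := c') (by
    simp only [List.nodup_cons, List.mem_cons, List.not_mem_nil, or_false, not_or, List.nodup_nil, and_true,
      not_false_eq_true]
    exact ⟨⟨(nL b' hb).1, bl, (nL b' hb).2, bc⟩, ⟨(nL l hl).1.symm, huw, (nL c' hc).1.symm⟩,
      ⟨(nL l hl).2, cl.symm⟩, (nL c' hc).2.symm⟩)
  have hFs : ({s(b', u), s(u, l), s(l, w), s(w, c')} : Finset (Sym2 ℕ)) ⊆ c.edges := by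
    intro f hf
    simp only [Finset.mem_insert, Finset.mem_singleton] at hf
    rcases hf with rfl | rfl | rfl | rfl
    · exact hK.mem.2 (Or.inr ⟨Or.inl rfl, hb⟩)
    · exact hK.mem.2 (Or.inl ⟨Or.inl rfl, hl⟩)
    · exact hK.mem.2 (Or.inr ⟨Or.inr rfl, hl⟩)
    · exact hK.mem.2 (Or.inl ⟨Or.inr rfl, hc⟩)
  have ho := h.out hD hL hcU hZc (fun c'' _ hf hne => absurd (hF c'' hf) hne)
  have h1 := h.wz hD hL hcU hZc ho hFs p1
  have d4 : Dist4 u c' w l := ⟨(nL c' hc).1.symm, huw, (nL l hl).1.symm, (nL c' hc).2, cl, (nL l hl).2.symm⟩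
  have dq := dv_sq d4
  simp only [ev_single] at dq
  have e : dv ({s(b', u), s(u, l), s(l, w), s(w, c')} : Finset (Sym2 ℕ)) - dv (TFC.sq u c' w l) =
      Pi.single c' (-1) + Pi.single b' 1 := by
    have t4 : (Pi.single c' (-1) : ℕ → ℤ) = -Pi.single c' 1 := by rw [← Pi.single_neg]
    rw [p2, dq, t4]
    abel
  rw [e, ph_two (h.v2' (h.cW' hcU (hK.mem.2 (Or.inl ⟨Or.inl rfl, hc⟩) : s(u, c') ∈ c.edges)) (by simp))
    (h.v2' (h.cW' hcU (hK.mem.2 (Or.inl ⟨Or.inl rfl, hb⟩) : s(u, b') ∈ c.edges)) (by simp)) bc.symm] at h1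
  exact h1

/-- partners -/
theorem PW.parK (h : PW X P D j S M (Fr D F) CL U PL pl mi) {c : Clu ℕ} (hcU : c ∈ U) {u w : ℕ} {Lf : Finset ℕ}
    (hK : KH c u w Lf) {l : ℕ} (hl : l ∈ Lf) : ∃ l' ∈ Lf, l' ≠ l ∧ TFC.sq u l w l' ∈ D := by
  rcases hK.eq with rfl | rfl
  · exact h.par hcU l hl
  · obtain ⟨l', h1, h2, h3⟩ := h.par hcU l hl
    refine ⟨l', h1, h2, ?_⟩
    have e : TFC.sq u l w l' = TFC.sq w l u l' := by rw [sq_rot, sq_rot, sq_swp]
    rw [e]; exact h3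

theorem con_two_mi {p m : Prop} (h : m) : con p m 2 ≤ 0 := by
  by_contra hc
  exact (con_two_pos (p := p) (m := m) (by omega)).2 h

theorem PW.asf (h : PW X P D j S M (Fr D F) CL U PL pl mi) {c : Clu ℕ} (hc : c ∈ U) (hF : F c) :
    ASf (Fr D F) c := fun K hK hs => by
  rw [Fr_pos hF]
  exact sqFree_of (h.nl (hK.trans (h.cW' hc))) hs

theorem PW.freeF (h : PW X P D j S M (Fr D F) CL U PL pl mi) {K : Finset (Sym2 ℕ)} {e : Sym2 ℕ} {c : Clu ℕ}
    (hc : c ∈ U) (hF : F c) (he : e ∈ c.edges) (hs : NSq (K ∩ c.edges)) : Free (Fr D F) U K e := by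
  intro c' hc' he'
  have := h.eqc hc hc' he he'
  subst this
  exact ⟨h.asf hc hF, hs⟩

theorem Fr_mono {D : Finset (Finset (Sym2 ℕ))} (F : Clu ℕ → Prop) : Dwn (Fr D F) := by
  intro c K K' hs hK
  by_cases hf : F c
  · rw [Fr_pos hf] at hK ⊢
    intro a b c' d hsq
    exact hK a b c' d ⟨hsq.ac, hsq.bd, hs hsq.ab, hs hsq.bc, hs hsq.cd, hs hsq.da⟩
  · rw [Fr_neg hf] at hK ⊢
    exact ⟨hK.1.mono hs, fun Z hZ h => hK.2 Z hZ (h.trans hs)⟩

end

section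
variable {X : XD} {P : ℕ → Finset (Sym2 ℕ) → Prop} {D : Finset (Finset (Sym2 ℕ))} {j m : ℕ} {S : Finset ℕ}
  {M : ℕ → Finset (Sym2 ℕ)} {CL U : List (Clu ℕ)} {PL : Finset (Sym2 ℕ)} {x y q p r s a b : ℕ}
  {c1 c2 : Clu ℕ} {L1 L2 : Finset (Sym2 ℕ)}

theorem V0.dQ (v : V0 X P D j m S M CL U PL x y q p r s a b c1 c2 L1 L2) : Dist4 x y q p := by
  obtain ⟨⟨xy, xq, xp, xr, xs, xa, xb⟩, ⟨yq, yp, yr, ys, ya, yb⟩, ⟨qp, qr, qs, qa, qb⟩, ⟨pr, ps, pa, pb⟩,
    ⟨rs, ra, rb⟩, ⟨sa, sb⟩, ab⟩ := nd8 v.nd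
  exact ⟨xy, xq, xp, yq, yp, qp⟩

theorem V0.dZ (v : V0 X P D j m S M CL U PL x y q p r s a b c1 c2 L1 L2) : Dist4 r s b a := by
  obtain ⟨⟨xy, xq, xp, xr, xs, xa, xb⟩, ⟨yq, yp, yr, ys, ya, yb⟩, ⟨qp, qr, qs, qa, qb⟩, ⟨pr, ps, pa, pb⟩,
    ⟨rs, ra, rb⟩, ⟨sa, sb⟩, ab⟩ := nd8 v.nd
  exact ⟨rs, rb, ra, sb, sa, ab.symm⟩

/-- edges of `L2` at a corner of `Z` are in `c2` -/
theorem V0.at2 (v : V0 X P D j m S M CL U PL x y q p r s a b c1 c2 L1 L2) {pl mi : ℕ → Prop} {A : Clu ℕ → Finset (Sym2 ℕ) → Prop}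
    (h : PW X P D j S M A CL U PL pl mi) {g : Sym2 ℕ} (hg : g ∈ L2) {z : ℕ} (hz : z ∈ g) {e : Sym2 ℕ}
    (he : e ∈ TFC.sq r s b a) (hze : z ∈ e) {c : Clu ℕ} (hc : c ∈ U) (hgc : g ∈ c.edges) : c = c2 :=
  h.eqc hc v.c2U hgc (v.z2 (v.w2.at h.isq v.hZ he hze hg hz))

/-- edges of `L1` at a corner of `Q` are in `c1` -/
theorem V0.at1 (v : V0 X P D j m S M CL U PL x y q p r s a b c1 c2 L1 L2) {pl mi : ℕ → Prop} {A : Clu ℕ → Finset (Sym2 ℕ) → Prop}
    (h : PW X P D j S M A CL U PL pl mi) {g : Sym2 ℕ} (hg : g ∈ L1) {z : ℕ} (hz : z ∈ g) {e : Sym2 ℕ}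
    (he : e ∈ TFC.sq x y q p) (hze : z ∈ e) {c : Clu ℕ} (hc : c ∈ U) (hgc : g ∈ c.edges) : c = c1 :=
  h.eqc hc v.c1U hgc (v.q1 (v.w1.at h.isq v.hQ he hze hg hz))

/-- **(i)** `xr` is not in `c1` -/
theorem V0.xr1 (v : V0 X P D j m S M CL U PL x y q p r s a b c1 c2 L1 L2) : s(x, r) ∉ c1.edges := by
  intro hxr
  obtain ⟨⟨xy, xq, xp, xr, xs, xa, xb⟩, ⟨yq, yp, yr, ys, ya, yb⟩, ⟨qp, qr, qs, qa, qb⟩, ⟨pr, ps, pa, pb⟩,
    ⟨rs, ra, rb⟩, ⟨sa, sb⟩, ab⟩ := nd8 v.nd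
  obtain ⟨pl, mi, h, hm⟩ := v.wa.fr (fun c => c = c1) fun c hc => hc ▸ v.k1
  have hF : ∀ c, c = c1 → c = c1 ∨ c = c2 := fun c hc => Or.inl hc
  obtain ⟨px, py⟩ := v.xyZ h hm hF (fun _ => rfl) fun _ => rfl
  obtain ⟨q1, q2⟩ := v.qX h hF px py
  rcases k2Hubs (h.val' v.c1U) v.k1 v.dQ v.q1 with ⟨L', hK, hy, hp⟩ | ⟨L', hK, hx, hq⟩
  swap
  · rcases hK.mem.1 hxr with ⟨h1 | h1, _⟩ | ⟨h1 | h1, _⟩
    · exact xy h1
    · exact xp h1
    · exact yr h1.symm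
    · exact pr h1.symm
  have hr : r ∈ L' := by
    rcases hK.mem.1 hxr with ⟨_, h1⟩ | ⟨_, h1⟩
    · exact h1
    · exact absurd h1 hK.uL
  have hrq : s(r, q) ∈ c1.edges := hK.mem.2 (Or.inr ⟨Or.inr rfl, hr⟩)
  have hrsZ : s(r, s) ∈ TFC.sq r s b a := by simp [TFC.sq]
  have K0 := h.base v.hZ v.w2 v.c2U v.z2 (fun c' _ hf _ => by rw [show c' = c1 from hf]; exact v.n2)
    (R := {s(r, s)}) (Finset.singleton_subset_iff.2 hrsZ) (by simp)
  have hsub : (L2 ∩ (Ucl U ∪ PL)) \ {s(r, s)} ⊆ L2 := Finset.sdiff_subset.trans Finset.inter_subset_left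
  have hrsK : s(r, s) ∉ (L2 ∩ (Ucl U ∪ PL)) \ {s(r, s)} := by simp
  have K1 := h.ins K0 (h.cW' v.c1U hrq) (by
    intro c hc hec
    have hcc : c = c1 := h.eqc hc v.c1U hec hrq
    left
    refine ⟨fun z hz hzc => ?_, Or.inl hcc⟩
    exact absurd (hcc.symm.trans (v.at2 h (hsub hz) (z := r) (by simp) hrsZ (by simp) hc hzc)) v.ne)
  obtain ⟨e, f, h4, p1, p2, p3⟩ := v.p2
  have hysW := v.wa.reg v.yS v.ys (by simp)
  have K2 := h.ins K1 hysW (by
    intro c hc hec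
    have hcc : c ≠ c1 := by
      rintro rfl
      rcases hK.mem.1 hec with ⟨h1 | h1, _⟩ | ⟨h1 | h1, _⟩
      · exact xy h1.symm
      · exact yq h1
      · exact xs h1.symm
      · exact qs h1.symm
    by_cases hc2 : c = c2
    · left
      refine ⟨fun z hz hzc => ?_, Or.inr ?_⟩
      · exfalso
        rcases Finset.mem_insert.1 hz with hz | hz
        · have h3 : y ∈ s(r, q) := by rw [← hz]; simp
          rcases Sym2.mem_iff.1 h3 with h3 | h3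
          · exact yr h3
          · exact yq h3
        · have h5 : s(y, z) ∈ L2 ∩ c2.edges := Finset.mem_inter.2 ⟨hsub hz, hc2 ▸ hzc⟩
          rw [inter_eq (h.val' v.c2U) (h.isq _ v.hZ) v.z2 v.w2.m2 v.w2.sq] at h5
          rcases sq_vert h5 (v := y) (by simp) with h3 | h3 | h3 | h3
          · exact yr h3
          · exact ys h3
          · exact yb h3
          · exact ya h3
      · refine (dg_ins_off ?_).trans (dgLe1' v.w2.m2 hsub (v.w2.sq hrsZ) (by simp) hrsK)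
        rw [Sym2.mem_iff]
        rintro (h3 | h3)
        · exact rs h3.symm
        · exact qs h3.symm
    · right
      refine ⟨fun z hz hzc => ?_, Or.inr ?_⟩
      · exfalso
        rcases Finset.mem_insert.1 hz with hz | hz
        · have h3 : s ∈ s(r, q) := by rw [← hz]; simp
          rcases Sym2.mem_iff.1 h3 with h3 | h3
          · exact rs h3.symm
          · exact qs h3.symm
        · exact hc2 (v.at2 h (hsub hz) (z := s) (by simp) hrsZ (by simp) hc hzc)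
      · refine (dg_ins_off ?_).trans ((h.dgK hc y).trans (dgLe1 v.w2.m2 (Finset.mem_inter.1 p3).1 (by simp)
          fun hc' => hcc (h.eqc hc v.c1U hc' (Finset.mem_inter.1 p3).2)))
        rw [Sym2.mem_iff]
        rintro (h3 | h3)
        · exact yr h3
        · exact yq h3)
  have n1 : s(r, q) ∉ (L2 ∩ (Ucl U ∪ PL)) \ {s(r, s)} := fun hc => by
    rcases sq_vert (v := q) (v.w2.at h.isq v.hZ hrsZ (v := r) (by simp) (hsub hc) (by simp)) (by simp) with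
      h3 | h3 | h3 | h3
    · exact qr h3
    · exact qs h3
    · exact qb h3
    · exact qa h3
  have n2 : s(y, s) ∉ insert s(r, q) ((L2 ∩ (Ucl U ∪ PL)) \ {s(r, s)}) := fun hc => by
    rcases Finset.mem_insert.1 hc with hc | hc
    · have h3 : y ∈ s(r, q) := by rw [← hc]; simp
      rcases Sym2.mem_iff.1 h3 with h3 | h3
      · exact yr h3
      · exact yq h3
    · rcases sq_vert (v := y) (v.w2.at h.isq v.hZ hrsZ (v := s) (by simp) (hsub hc) (by simp)) (by simp) with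
        h3 | h3 | h3 | h3
      · exact yr h3
      · exact ys h3
      · exact yb h3
      · exact ya h3
  have hW : s(r, s) ∈ L2 ∩ (Ucl U ∪ PL) := Finset.mem_inter.2 ⟨v.w2.sq hrsZ, h.cW' v.c2U (v.z2 hrsZ)⟩
  have h5 := h.ev v.hZ v.w2 v.c2U v.z2 K2 (d := Pi.single q 1 + Pi.single y 1) (by
    rw [XT.dv_insert n2, XT.dv_insert n1, dv_sdiff (Finset.singleton_subset_iff.2 hW), dv_pair rs, dv_pair qr.symm,
      dv_pair ys]
    abel)
  rw [ph_two (h.v2' (h.cW' v.c1U hrq) (by simp)) (h.v2' hysW (by simp)) yq.symm, con_X q2 q1] at h5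
  have h6 := con_one (pl y) (mi y)
  omega

/-- **(ii)** `ys` is in no other cluster -/
theorem V0.ys4 (v : V0 X P D j m S M CL U PL x y q p r s a b c1 c2 L1 L2) {c4 : Clu ℕ} (hc4 : c4 ∈ U)
    (hec : s(y, s) ∈ c4.edges) : c4 = c1 := by
  by_contra hne
  obtain ⟨pl0, mi0, h0, hm0⟩ := v.wa.fr (fun _ => False) fun c hc => hc.elim
  obtain ⟨p0x, p0y⟩ := v.xyZ h0 hm0 (fun _ h => h.elim) (fun hc => v.xr1 hc)
    fun hc => hne (h0.eqc hc4 v.c1U hec hc)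
  obtain ⟨Z4, hZ4, hyZ, hZ4c⟩ := h0.cls.edge_sq ((h0.uc c4).1 hc4).1 hec
  obtain ⟨L4, hL4⟩ := h0.wt hZ4
  have hyq : s(y, q) ∈ c1.edges := v.q1 (by simp [TFC.sq])
  have hN : NSq (L4 ∩ c1.edges) := h0.lemE hZ4 hL4 hc4 hZ4c v.c1U (Ne.symm hne) v.k1 hyZ (v := y) (by simp) hyq
    fun h1 => h1.2 p0y
  obtain ⟨pl, mi, h, hm⟩ := v.wa.fr (fun c => c = c1) fun c hc => hc ▸ v.k1
  have hF : ∀ c, c = c1 → c = c1 ∨ c = c2 := fun c hc => Or.inl hc
  obtain ⟨px, py⟩ := v.xyZ h hm hF (fun _ => rfl) fun _ => rfl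
  have hq := v.qX h hF px py
  refine h.L2X hZ4 hL4 hc4 hZ4c (fr_am2 h.isq _ _) (h.out hZ4 hL4 hc4 hZ4c fun c' _ hf _ => ?_) hyZ
    (h.cW' v.c1U hyq) (fun hc => hne (h.eqc hc4 v.c1U hc hyq)) (h.freeF v.c1U rfl hyq hN) hq
  rw [show c' = c1 from hf]
  exact hN

/-- **(iii)** `ys` is not in `c1` -/
theorem V0.ys1 (v : V0 X P D j m S M CL U PL x y q p r s a b c1 c2 L1 L2) : s(y, s) ∉ c1.edges := by
  intro hys
  obtain ⟨⟨xy, xq, xp, xr, xs, xa, xb⟩, ⟨yq, yp, yr, ys, ya, yb⟩, ⟨qp, qr, qs, qa, qb⟩, ⟨pr, ps, pa, pb⟩,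
    ⟨rs, ra, rb⟩, ⟨sa, sb⟩, ab⟩ := nd8 v.nd
  obtain ⟨pl, mi, h, hm⟩ := v.wa.fr (fun c => c = c1) fun c hc => hc ▸ v.k1
  have hF : ∀ c, c = c1 → c = c1 ∨ c = c2 := fun c hc => Or.inl hc
  obtain ⟨px, py⟩ := v.xyZ h hm hF (fun _ => rfl) fun _ => rfl
  obtain ⟨q1, q2⟩ := v.qX h hF px py
  -- the centres of `c1` are `y`, `p`
  rcases k2Hubs (h.val' v.c1U) v.k1 v.dQ v.q1 with ⟨L', hK, hy, hp⟩ | ⟨L', hK, hx, hq⟩
  · rcases hK.mem.1 hys with ⟨h1 | h1, _⟩ | ⟨h1 | h1, _⟩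
    · exact xy h1.symm
    · exact yq h1
    · exact xs h1.symm
    · exact qs h1.symm
  have hs : s ∈ L' := by
    rcases hK.mem.1 hys with ⟨_, h1⟩ | ⟨_, h1⟩
    · exact h1
    · exact absurd h1 hK.uL
  -- `y s p q` is a square of the family
  have hZ3 : TFC.sq y s p q ∈ D := by
    obtain ⟨l, hl, hls, hlD⟩ := h.parK v.c1U hK hs
    by_cases hlq : l = q
    · rw [hlq] at hlD; exact hlD
    · exfalso
      have h1 := h.leafK v.c1U hK (fun c' hc => hc) hq hs hl qs (Ne.symm hlq) hls.symm hlD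
      rw [con_X q2 q1] at h1
      have h2 := con_neg_one (pl s) (mi s)
      omega
  have hZ3c : TFC.sq y s p q ⊆ c1.edges := by
    intro f hf
    simp only [TFC.sq, Finset.mem_insert, Finset.mem_singleton] at hf
    rcases hf with rfl | rfl | rfl | rfl
    · exact hK.mem.2 (Or.inl ⟨Or.inl rfl, hs⟩)
    · exact hK.mem.2 (Or.inr ⟨Or.inr rfl, hs⟩)
    · exact hK.mem.2 (Or.inl ⟨Or.inr rfl, hq⟩)
    · exact hK.mem.2 (Or.inr ⟨Or.inl rfl, hq⟩)
  have hys3 : s(y, s) ∈ TFC.sq y s p q := by simp [TFC.sq]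
  obtain ⟨L3, hL3⟩ := h.wt hZ3
  -- all clusters capped: `r`, `s` are not of type X unless `xr` is in `c2`
  obtain ⟨pl0, mi0, h0, hm0⟩ := v.wa.fr (fun _ => False) fun c hc => hc.elim
  have hys2 : s(y, s) ∉ c2.edges := fun hc => v.ne (h.eqc v.c1U v.c2U hys hc)
  have hrsZ : s(r, s) ∈ TFC.sq r s b a := by simp [TFC.sq]
  have hrs2 : s(r, s) ∈ c2.edges := v.z2 hrsZ
  have hsb2 : s(s, b) ∈ c2.edges := v.z2 (by simp [TFC.sq])
  have hra2 : s(r, a) ∈ c2.edges := v.z2 (by rw [TFC.sq, Sym2.eq_swap (a := r) (b := a)]; simp)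
  have hxrW := v.wa.reg v.xS v.xr (by simp)
  have hyx : s(y, x) ∈ c1.edges := hK.mem.2 (Or.inl ⟨Or.inl rfl, hx⟩)
  by_cases hxr2 : s(x, r) ∈ c2.edges
  · -- the zero vector
    have hxb : s(b, x) ∈ c2.edges := by
      rcases k2Hubs (h.val' v.c2U) v.k2 v.dZ v.z2 with ⟨L'', hK2, hs', ha'⟩ | ⟨L'', hK2, hr', hb'⟩
      · have hx'' : x ∈ L'' := by
          rcases hK2.mem.1 hxr2 with ⟨h1 | h1, _⟩ | ⟨_, h1⟩
          · exact absurd h1 xr
          · exact absurd h1 xb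
          · exact h1
        exact hK2.mem.2 (Or.inl ⟨Or.inr rfl, hx''⟩)
      · exfalso
        rcases hK2.mem.1 hxr2 with ⟨h1 | h1, _⟩ | ⟨h1 | h1, _⟩
        · exact xs h1
        · exact xa h1
        · exact rs h1
        · exact ra h1
    have hps : s(p, s) ∈ c1.edges := hK.mem.2 (Or.inl ⟨Or.inr rfl, hs⟩)
    have hpx : s(p, x) ∈ TFC.sq x y q p := by simp [TFC.sq]
    have K0 := h0.base v.hQ v.w1 v.c1U v.q1 (fun c' _ hf _ => hf.elim) (R := {s(p, x)})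
      (Finset.singleton_subset_iff.2 hpx) (by simp)
    obtain ⟨hd4, g1, g2, g3⟩ := v.p1
    rw [Finset.mem_inter] at g1 g2 g3
    have hsbL : s(s, b) ∈ L1 := by rw [Sym2.eq_swap]; exact g3.1
    have hsub0 : (L1 ∩ (Ucl U ∪ PL)) \ {s(p, x)} ⊆ L1 := Finset.sdiff_subset.trans Finset.inter_subset_left
    obtain ⟨K, hKdef⟩ : ∃ K, K = ((L1 ∩ (Ucl U ∪ PL)) \ {s(p, x)}) \ {s(s, b)} := ⟨_, rfl⟩
    have K0' : AU (Fr D fun _ => False) U PL K := by
      rw [hKdef]; exact K0.mono (Fr_mono _) Finset.sdiff_subset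
    have hsub : K ⊆ L1 := by rw [hKdef]; exact Finset.sdiff_subset.trans hsub0
    have hn1 : s(p, x) ∉ K := by rw [hKdef]; simp
    have hn2 : s(s, b) ∉ K := by rw [hKdef]; simp
    have K1 := h0.ins K0' (h0.cW' v.c1U hps) (by
      intro c hc hec
      have hcc : c = c1 := h0.eqc hc v.c1U hec hps
      subst hcc
      right
      refine ⟨fun z hz hzc => ?_, Or.inr (dgLe1' v.w1.m2 hsub (v.w1.sq hpx) (by simp) hn1)⟩
      exfalso
      have h5 : s(s, z) ∈ L1 ∩ c.edges := Finset.mem_inter.2 ⟨hsub hz, hzc⟩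
      rw [inter_eq (h.val' v.c1U) (h.isq _ v.hQ) v.q1 v.w1.m2 v.w1.sq] at h5
      rcases sq_vert h5 (v := s) (by simp) with h3 | h3 | h3 | h3
      · exact xs h3.symm
      · exact ys h3.symm
      · exact qs h3.symm
      · exact ps h3.symm)
    have K2 := h0.ins K1 (h0.cW' v.c2U hxb) (by
      intro c hc hec
      have hcc : c = c2 := h0.eqc hc v.c2U hec hxb
      subst hcc
      right
      refine ⟨fun z hz hzc => ?_, Or.inr ?_⟩
      · exfalso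
        rcases Finset.mem_insert.1 hz with hz | hz
        · have h3 : x ∈ s(p, s) := by rw [← hz]; simp
          rcases Sym2.mem_iff.1 h3 with h3 | h3
          · exact xp h3
          · exact xs h3
        · exact v.ne (v.at1 h0 (hsub hz) (z := x) (by simp) hpx (by simp) hc hzc).symm
      · refine (dg_ins_off ?_).trans (dgLe1' v.w1.m2 hsub hsbL (by simp) hn2)
        rw [Sym2.mem_iff]
        rintro (h3 | h3)
        · exact pb h3.symm
        · exact sb h3.symm)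
    have n1 : s(p, s) ∉ K := fun hc => by
      rcases sq_vert (v := s) (v.w1.at h.isq v.hQ hpx (v := p) (by simp) (hsub hc) (by simp)) (by simp) with
        h3 | h3 | h3 | h3
      · exact xs h3.symm
      · exact ys h3.symm
      · exact qs h3.symm
      · exact ps h3.symm
    have n2 : s(b, x) ∉ insert s(p, s) K := fun hc => by
      rcases Finset.mem_insert.1 hc with hc | hc
      · have h3 : x ∈ s(p, s) := by rw [← hc]; simp
        rcases Sym2.mem_iff.1 h3 with h3 | h3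
        · exact xp h3
        · exact xs h3
      · rcases sq_vert (v := b) (v.w1.at h.isq v.hQ hpx (v := x) (by simp) (hsub hc) (by simp)) (by simp) with
          h3 | h3 | h3 | h3
        · exact xb h3.symm
        · exact yb h3.symm
        · exact qb h3.symm
        · exact pb h3.symm
    have w1 : s(p, x) ∈ L1 ∩ (Ucl U ∪ PL) := Finset.mem_inter.2 ⟨v.w1.sq hpx, h0.cW' v.c1U (v.q1 hpx)⟩
    have w2 : s(s, b) ∈ (L1 ∩ (Ucl U ∪ PL)) \ {s(p, x)} := by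
      rw [Finset.mem_sdiff, Finset.mem_inter, Finset.mem_singleton]
      refine ⟨⟨hsbL, h0.cW' v.c2U hsb2⟩, fun hc => ?_⟩
      have h3 : s ∈ s(p, x) := by rw [← hc]; simp
      rcases Sym2.mem_iff.1 h3 with h3 | h3
      · exact ps h3.symm
      · exact xs h3.symm
    have h5 := h0.ev v.hQ v.w1 v.c1U v.q1 K2 (d := 0) (by
      rw [XT.dv_insert n2, XT.dv_insert n1, hKdef, dv_sdiff (Finset.singleton_subset_iff.2 w2),
        dv_sdiff (Finset.singleton_subset_iff.2 w1), dv_pair xp.symm, dv_pair sb, dv_pair ps, dv_pair xb.symm]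
      abel)
    rw [ph_zero] at h5
    omega
  -- now `r`, `s` are not of type X in the capped frame
  obtain ⟨p0r, p0s⟩ := v.rsZ h0 hm0 (fun _ h => h.elim) (fun hc => hxr2 hc) (fun hc => hys2 hc)
  have hN3 : NSq (L3 ∩ c2.edges) := h0.lemE hZ3 hL3 v.c1U hZ3c v.c2U (Ne.symm v.ne) v.k2 hys3 (v := s) (by simp)
    (t := b) hsb2 fun h1 => h1.2 p0s
  obtain ⟨pl2, mi2, h2, hm2⟩ := v.wa.fr (fun c => c = c2) fun c hc => hc ▸ v.k2
  have hF2 : ∀ c, c = c2 → c = c1 ∨ c = c2 := fun c hc => Or.inr hc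
  by_cases hxrP : ∃ c5 ∈ U, s(x, r) ∈ c5.edges
  · obtain ⟨c5, hc5, hx5⟩ := hxrP
    have h52 : c5 ≠ c2 := by rintro rfl; exact hxr2 hx5
    obtain ⟨Z5, hZ5, hxZ5, hZ5c⟩ := h.cls.edge_sq ((h.uc c5).1 hc5).1 hx5
    obtain ⟨L5, hL5⟩ := h.wt hZ5
    have hN5 : NSq (L5 ∩ c2.edges) := h0.lemE hZ5 hL5 hc5 hZ5c v.c2U (Ne.symm h52) v.k2 hxZ5 (v := r) (by simp)
      (t := a) hra2 fun h1 => h1.2 p0r
    obtain ⟨p2r, p2s⟩ := v.rsZ h2 hm2 hF2 (fun _ => rfl) fun _ => rfl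
    rcases v.abX h2 hF2 p2r p2s with ha | hb
    · refine h2.L2X hZ5 hL5 hc5 hZ5c (fr_am2 h.isq _ _) (h2.out hZ5 hL5 hc5 hZ5c fun c' _ hf _ => ?_)
        (v := r) (v' := x) (by rw [Sym2.eq_swap]; exact hxZ5) (h2.cW' v.c2U hra2)
        (fun hc => h52 (h.eqc hc5 v.c2U hc hra2)) (h2.freeF v.c2U rfl hra2 hN5) ha
      rw [show c' = c2 from hf]
      exact hN5
    · refine h2.L2X hZ3 hL3 v.c1U hZ3c (fr_am2 h.isq _ _) (h2.out hZ3 hL3 v.c1U hZ3c fun c' _ hf _ => ?_)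
        (v := s) (v' := y) (by rw [Sym2.eq_swap]; exact hys3) (h2.cW' v.c2U hsb2)
        (fun hc => v.ne (h.eqc v.c1U v.c2U hc hsb2)) (h2.freeF v.c2U rfl hsb2 hN3) hb
      rw [show c' = c2 from hf]
      exact hN3
  · -- `xr` plain: `L3 - ys + yx + rs + xr`
    have K0 := h2.base hZ3 hL3 v.c1U hZ3c (fun c' _ hf _ => by rw [show c' = c2 from hf]; exact hN3)
      (R := {s(y, s)}) (Finset.singleton_subset_iff.2 hys3) (by simp)
    have hsub : (L3 ∩ (Ucl U ∪ PL)) \ {s(y, s)} ⊆ L3 := Finset.sdiff_subset.trans Finset.inter_subset_left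
    have hnK : s(y, s) ∉ (L3 ∩ (Ucl U ∪ PL)) \ {s(y, s)} := by simp
    have hL3c : L3 ∩ c1.edges = TFC.sq y s p q := inter_eq (h.val' v.c1U) (h.isq _ hZ3) hZ3c hL3.m2 hL3.sq
    have hat3 : ∀ {g : Sym2 ℕ} {z : ℕ}, g ∈ L3 → z ∈ g → (∃ e ∈ TFC.sq y s p q, z ∈ e) → ∀ {c : Clu ℕ}, c ∈ U →
        g ∈ c.edges → c = c1 := by
      rintro g z hg hz ⟨e, he, hze⟩ c hc hgc
      exact h.eqc hc v.c1U hgc (hZ3c (hL3.at h.isq hZ3 he hze hg hz))
    have K1 := h2.ins K0 (h2.cW' v.c1U hyx) (by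
      intro c hc hec
      have hcc : c = c1 := h.eqc hc v.c1U hec hyx
      subst hcc
      right
      refine ⟨fun z hz hzc => ?_, Or.inr (dgLe1' hL3.m2 hsub (hL3.sq hys3) (by simp) hnK)⟩
      exfalso
      have h5 : s(x, z) ∈ L3 ∩ c.edges := Finset.mem_inter.2 ⟨hsub hz, hzc⟩
      rw [hL3c] at h5
      rcases sq_vert h5 (v := x) (by simp) with h3 | h3 | h3 | h3
      · exact xy h3
      · exact xs h3
      · exact xp h3
      · exact xq h3)
    have K2 := h2.ins K1 (h2.cW' v.c2U hrs2) (by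
      intro c hc hec
      have hcc : c = c2 := h.eqc hc v.c2U hec hrs2
      right
      refine ⟨fun z hz hzc => ?_, Or.inl hcc⟩
      exfalso
      rcases Finset.mem_insert.1 hz with hz | hz
      · have h3 : s ∈ s(y, x) := by rw [← hz]; simp
        rcases Sym2.mem_iff.1 h3 with h3 | h3
        · exact ys h3.symm
        · exact xs h3.symm
      · have := hat3 (hsub hz) (z := s) (by simp) ⟨_, hys3, by simp⟩ hc hzc
        exact v.ne (this.symm.trans hcc))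
    have n1 : s(y, x) ∉ (L3 ∩ (Ucl U ∪ PL)) \ {s(y, s)} := fun hc => by
      rcases sq_vert (v := x) (hL3.at h.isq hZ3 hys3 (v := y) (by simp) (hsub hc) (by simp)) (by simp) with
        h3 | h3 | h3 | h3
      · exact xy h3
      · exact xs h3
      · exact xp h3
      · exact xq h3
    have n2 : s(r, s) ∉ insert s(y, x) ((L3 ∩ (Ucl U ∪ PL)) \ {s(y, s)}) := fun hc => by
      rcases Finset.mem_insert.1 hc with hc | hc
      · have h3 : s ∈ s(y, x) := by rw [← hc]; simp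
        rcases Sym2.mem_iff.1 h3 with h3 | h3
        · exact ys h3.symm
        · exact xs h3.symm
      · rcases sq_vert (v := r) (hL3.at h.isq hZ3 hys3 (v := s) (by simp) (hsub hc) (by simp)) (by simp) with
          h3 | h3 | h3 | h3
        · exact yr h3.symm
        · exact rs h3
        · exact pr h3.symm
        · exact qr h3.symm
    have hW : s(y, s) ∈ L3 ∩ (Ucl U ∪ PL) := Finset.mem_inter.2 ⟨hL3.sq hys3, h.cW' v.c1U hys⟩
    by_cases hxL : s(x, r) ∈ L3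
    · have hxK0 : s(x, r) ∈ (L3 ∩ (Ucl U ∪ PL)) \ {s(y, s)} := by
        rw [Finset.mem_sdiff, Finset.mem_inter, Finset.mem_singleton]
        refine ⟨⟨hxL, hxrW⟩, fun hc => ?_⟩
        have h3 : x ∈ s(y, s) := by rw [← hc]; simp
        rcases Sym2.mem_iff.1 h3 with h3 | h3
        · exact xy h3
        · exact xs h3
      have hxK : s(x, r) ∈ insert s(r, s) (insert s(y, x) ((L3 ∩ (Ucl U ∪ PL)) \ {s(y, s)})) :=
        Finset.mem_insert_of_mem (Finset.mem_insert_of_mem hxK0)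
      have K3 := K2.mono (Fr_mono _) (Finset.sdiff_subset (s := insert s(r, s) (insert s(y, x)
        ((L3 ∩ (Ucl U ∪ PL)) \ {s(y, s)}))) (t := {s(x, r)}))
      have h5 := h2.ev hZ3 hL3 v.c1U hZ3c K3 (d := 0) (by
        rw [dv_sdiff (Finset.singleton_subset_iff.2 hxK), XT.dv_insert n2, XT.dv_insert n1,
          dv_sdiff (Finset.singleton_subset_iff.2 hW), dv_pair ys, dv_pair xy.symm, dv_pair rs, dv_pair xr]
        abel)
      rw [ph_zero] at h5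
      omega
    have K3 := h2.ins K2 hxrW (fun c hc hec => absurd ⟨c, hc, hec⟩ hxrP)
    have n3 : s(x, r) ∉ insert s(r, s) (insert s(y, x) ((L3 ∩ (Ucl U ∪ PL)) \ {s(y, s)})) := fun hc => by
      rcases Finset.mem_insert.1 hc with hc | hc
      · have h3 : x ∈ s(r, s) := by rw [← hc]; simp
        rcases Sym2.mem_iff.1 h3 with h3 | h3
        · exact xr h3
        · exact xs h3
      · rcases Finset.mem_insert.1 hc with hc | hc
        · have h3 : r ∈ s(y, x) := by rw [← hc]; simp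
          rcases Sym2.mem_iff.1 h3 with h3 | h3
          · exact yr h3.symm
          · exact xr h3.symm
        · exact hxL (hsub hc)
    have h5 := h2.ev hZ3 hL3 v.c1U hZ3c K3 (d := Pi.single x 2 + Pi.single r 2) (by
      rw [XT.dv_insert n3, XT.dv_insert n2, XT.dv_insert n1, dv_sdiff (Finset.singleton_subset_iff.2 hW),
        dv_pair ys, dv_pair xy.symm, dv_pair rs, dv_pair xr]
      have t2 : ∀ z : ℕ, (Pi.single z 2 : ℕ → ℤ) = Pi.single z 1 + Pi.single z 1 := fun z => by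
        rw [← Pi.single_add]; norm_num
      rw [t2, t2]
      abel)
    rw [ph_two (h.v2' hxrW (by simp)) (h.v2' hxrW (by simp)) xr] at h5
    have h6 := con_two_mi (p := pl2 x) (hm2 x v.xS v.xT)
    have h7 := con_two_mi (p := pl2 r) (hm2 r v.rS v.rT)
    omega

/-- the centres of `c2` if `xr` is in `c2` -/
theorem V0.hub2 (v : V0 X P D j m S M CL U PL x y q p r s a b c1 c2 L1 L2) (hxr : s(x, r) ∈ c2.edges) :
    ∃ L, KH c2 r b L ∧ s ∈ L ∧ a ∈ L ∧ x ∈ L := by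
  obtain ⟨⟨xy, xq, xp, xr, xs, xa, xb⟩, ⟨yq, yp, yr, ys, ya, yb⟩, ⟨qp, qr, qs, qa, qb⟩, ⟨pr, ps, pa, pb⟩,
    ⟨rs, ra, rb⟩, ⟨sa, sb⟩, ab⟩ := nd8 v.nd
  obtain ⟨pl, mi, h, hm⟩ := v.wa.fr (fun _ => False) fun c hc => hc.elim
  rcases k2Hubs (h.val' v.c2U) v.k2 v.dZ v.z2 with ⟨L'', hK2, hs', ha'⟩ | ⟨L'', hK2, hr', hb'⟩
  · refine ⟨L'', hK2, hs', ha', ?_⟩
    rcases hK2.mem.1 hxr with ⟨h1 | h1, _⟩ | ⟨_, h1⟩
    · exact absurd h1 xr
    · exact absurd h1 xb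
    · exact h1
  · exfalso
    rcases hK2.mem.1 hxr with ⟨h1 | h1, _⟩ | ⟨h1 | h1, _⟩
    · exact xs h1
    · exact xa h1
    · exact rs h1
    · exact ra h1

/-- `ys` is plain -/
theorem V0.ysP (v : V0 X P D j m S M CL U PL x y q p r s a b c1 c2 L1 L2) : s(y, s) ∈ PL := by
  rcases Finset.mem_union.1 (v.wa.reg v.yS v.ys (by simp)) with h1 | h1
  · obtain ⟨c, hc, hec⟩ := mem_Ucl.1 h1
    have := v.ys4 hc hec
    subst this
    exact absurd hec v.ys1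
  · exact h1

/-- **(iv)** `xr` is plain -/
theorem V0.xrP (v : V0 X P D j m S M CL U PL x y q p r s a b c1 c2 L1 L2) : s(x, r) ∈ PL := by
  obtain ⟨⟨xy, xq, xp, xr, xs, xa, xb⟩, ⟨yq, yp, yr, ys, ya, yb⟩, ⟨qp, qr, qs, qa, qb⟩, ⟨pr, ps, pa, pb⟩,
    ⟨rs, ra, rb⟩, ⟨sa, sb⟩, ab⟩ := nd8 v.nd
  have hxrW := v.wa.reg v.xS v.xr (by simp)
  rcases Finset.mem_union.1 hxrW with h1 | h1
  swap
  · exact h1
  exfalso
  obtain ⟨c, hc, hxr⟩ := mem_Ucl.1 h1
  have hcc1 : c ≠ c1 := by rintro rfl; exact v.xr1 hxr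
  obtain ⟨pl0, mi0, h0, hm0⟩ := v.wa.fr (fun _ => False) fun c hc => hc.elim
  have hysP := v.ysP
  have hysc : ∀ c ∈ U, s(y, s) ∉ c.edges := fun c hc hec => Finset.disjoint_left.1 (h0.plain hc) hysP hec
  obtain ⟨p0x, p0y⟩ := v.xyZ h0 hm0 (fun _ h => h.elim) (fun hc => v.xr1 hc) (fun hc => v.ys1 hc)
  have hrsZ : s(r, s) ∈ TFC.sq r s b a := by simp [TFC.sq]
  have hrs2 : s(r, s) ∈ c2.edges := v.z2 hrsZ
  have hxy1 : s(x, y) ∈ c1.edges := v.q1 (by simp [TFC.sq])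
  by_cases hA : ∃ Z3 ∈ D, s(x, r) ∈ Z3 ∧ s(r, s) ∉ Z3
  · obtain ⟨Z3, hZ3, hx3, hr3⟩ := hA
    have hZ3c : Z3 ⊆ c.edges := (h0.cls.whole ((h0.uc c).1 hc).1 hZ3).resolve_right fun hd =>
      Finset.disjoint_left.1 hd hx3 hxr
    obtain ⟨L3, hL3⟩ := h0.wt hZ3
    have hN1 : NSq (L3 ∩ c1.edges) := h0.lemE hZ3 hL3 hc hZ3c v.c1U (Ne.symm hcc1) v.k1 hx3 (v := x) (by simp)
      hxy1 fun h1 => h1.2 p0x
    have hN2 : c ≠ c2 → NSq (L3 ∩ c2.edges) := by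
      intro hcc2
      obtain ⟨p0r, p0s⟩ := v.rsZ h0 hm0 (fun _ h => h.elim) (fun hc' => hcc2 (h0.eqc hc v.c2U hxr hc'))
        (fun hc' => hysc _ v.c2U hc')
      exact h0.lemE hZ3 hL3 hc hZ3c v.c2U (Ne.symm hcc2) v.k2 hx3 (v := r) (by simp) hrs2 fun h1 => h1.2 p0r
    obtain ⟨pl, mi, h, hm⟩ := v.wa.fr (fun c => c = c1 ∨ c = c2) (fun c hc => by
      rcases hc with rfl | rfl
      · exact v.k1
      · exact v.k2)
    have hat3 : ∀ {g : Sym2 ℕ} {z : ℕ}, g ∈ L3 → z ∈ g → z ∈ s(x, r) → ∀ {c' : Clu ℕ}, c' ∈ U →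
        g ∈ c'.edges → c' = c := by
      intro g z hg hz hz' c' hc' hgc
      exact h.eqc hc' hc hgc (hZ3c (hL3.at h.isq hZ3 hx3 hz' hg hz))
    have K0 := h.base hZ3 hL3 hc hZ3c (fun c' _ hf hne => by
      rcases hf with rfl | rfl
      · exact hN1
      · exact hN2 hne.symm) (R := {s(x, r)}) (Finset.singleton_subset_iff.2 hx3) (by simp)
    have hsub : (L3 ∩ (Ucl U ∪ PL)) \ {s(x, r)} ⊆ L3 := Finset.sdiff_subset.trans Finset.inter_subset_left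
    have K1 := h.ins K0 (h.cW' v.c1U hxy1) (by
      intro c' hc' hec
      have hcc : c' = c1 := h.eqc hc' v.c1U hec hxy1
      left
      refine ⟨fun z hz hzc => ?_, Or.inl (Or.inl hcc)⟩
      exact absurd ((hat3 (hsub hz) (z := x) (by simp) (by simp) hc' hzc).symm.trans hcc) hcc1)
    have hL3c : L3 ∩ c.edges = Z3 := inter_eq (h.val' hc) (h.isq _ hZ3) hZ3c hL3.m2 hL3.sq
    have K2 := h.ins K1 (h.cW' v.c2U hrs2) (by
      intro c' hc' hec
      have hcc : c' = c2 := h.eqc hc' v.c2U hec hrs2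
      by_cases hcc2 : c = c2
      · right
        refine ⟨fun z hz hzc => ?_, Or.inl (Or.inr hcc)⟩
        exfalso
        rcases Finset.mem_insert.1 hz with hz | hz
        · have h3 : s ∈ s(x, y) := by rw [← hz]; simp
          rcases Sym2.mem_iff.1 h3 with h3 | h3
          · exact xs h3.symm
          · exact ys h3.symm
        · have h5 : s(s, z) ∈ L3 ∩ c.edges := Finset.mem_inter.2 ⟨hsub hz, by rw [hcc2, ← hcc]; exact hzc⟩
          rw [hL3c] at h5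
          subst hcc2
          obtain ⟨Lf, hK, hs, _, _⟩ := v.hub2 hxr
          exact hr3 (hK.leaf_edge (h.val' hc) (h.isq _ hZ3) hZ3c hs h5 (by simp))
      · left
        refine ⟨fun z hz hzc => ?_, Or.inl (Or.inr hcc)⟩
        exfalso
        rcases Finset.mem_insert.1 hz with hz | hz
        · have h3 : r ∈ s(x, y) := by rw [← hz]; simp
          rcases Sym2.mem_iff.1 h3 with h3 | h3
          · exact xr h3.symm
          · exact yr h3.symm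
        · exact hcc2 ((hat3 (hsub hz) (z := r) (by simp) (by simp) hc' hzc).symm.trans hcc))
    have n1 : s(x, y) ∉ (L3 ∩ (Ucl U ∪ PL)) \ {s(x, r)} := fun hc' =>
      hcc1 (hat3 (hsub hc') (z := x) (by simp) (by simp) v.c1U hxy1).symm
    have n2 : s(r, s) ∉ insert s(x, y) ((L3 ∩ (Ucl U ∪ PL)) \ {s(x, r)}) := fun hc' => by
      rcases Finset.mem_insert.1 hc' with hc' | hc'
      · have h3 : s ∈ s(x, y) := by rw [← hc']; simp
        rcases Sym2.mem_iff.1 h3 with h3 | h3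
        · exact xs h3.symm
        · exact ys h3.symm
      · exact hr3 (hL3.at h.isq hZ3 hx3 (v := r) (by simp) (hsub hc') (by simp))
    have hW : s(x, r) ∈ L3 ∩ (Ucl U ∪ PL) := Finset.mem_inter.2 ⟨hL3.sq hx3, hxrW⟩
    have hysW : s(y, s) ∈ Ucl U ∪ PL := Finset.mem_union_right _ hysP
    by_cases hyL : s(y, s) ∈ L3
    · have hyK0 : s(y, s) ∈ (L3 ∩ (Ucl U ∪ PL)) \ {s(x, r)} := by
        rw [Finset.mem_sdiff, Finset.mem_inter, Finset.mem_singleton]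
        refine ⟨⟨hyL, hysW⟩, fun hc => ?_⟩
        have h3 : y ∈ s(x, r) := by rw [← hc]; simp
        rcases Sym2.mem_iff.1 h3 with h3 | h3
        · exact xy h3.symm
        · exact yr h3
      have hyK : s(y, s) ∈ insert s(r, s) (insert s(x, y) ((L3 ∩ (Ucl U ∪ PL)) \ {s(x, r)})) :=
        Finset.mem_insert_of_mem (Finset.mem_insert_of_mem hyK0)
      have K3 := K2.mono (Fr_mono _) (Finset.sdiff_subset (s := insert s(r, s) (insert s(x, y)
        ((L3 ∩ (Ucl U ∪ PL)) \ {s(x, r)}))) (t := {s(y, s)}))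
      have h5 := h.ev hZ3 hL3 hc hZ3c K3 (d := 0) (by
        rw [dv_sdiff (Finset.singleton_subset_iff.2 hyK), XT.dv_insert n2, XT.dv_insert n1,
          dv_sdiff (Finset.singleton_subset_iff.2 hW), dv_pair ys, dv_pair xy, dv_pair rs, dv_pair xr]
        abel)
      rw [ph_zero] at h5
      omega
    have K3 := h.ins K2 hysW (fun c hc hec => absurd hec (hysc c hc))
    have n3 : s(y, s) ∉ insert s(r, s) (insert s(x, y) ((L3 ∩ (Ucl U ∪ PL)) \ {s(x, r)})) := fun hc => by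
      rcases Finset.mem_insert.1 hc with hc | hc
      · have h3 : y ∈ s(r, s) := by rw [← hc]; simp
        rcases Sym2.mem_iff.1 h3 with h3 | h3
        · exact yr h3
        · exact ys h3
      · rcases Finset.mem_insert.1 hc with hc | hc
        · have h3 : s ∈ s(x, y) := by rw [← hc]; simp
          rcases Sym2.mem_iff.1 h3 with h3 | h3
          · exact xs h3.symm
          · exact ys h3.symm
        · exact hyL (hsub hc)
    have h5 := h.ev hZ3 hL3 hc hZ3c K3 (d := Pi.single y 2 + Pi.single s 2) (by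
      rw [XT.dv_insert n3, XT.dv_insert n2, XT.dv_insert n1, dv_sdiff (Finset.singleton_subset_iff.2 hW),
        dv_pair ys, dv_pair xy, dv_pair rs, dv_pair xr]
      have t2 : ∀ z : ℕ, (Pi.single z 2 : ℕ → ℤ) = Pi.single z 1 + Pi.single z 1 := fun z => by
        rw [← Pi.single_add]; norm_num
      rw [t2, t2]
      abel)
    rw [ph_two (h.v2' hysW (by simp)) (h.v2' hysW (by simp)) ys] at h5
    have h6 := con_two_mi (p := pl y) (hm y v.yS v.yT)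
    have h7 := con_two_mi (p := pl s) (hm s v.sS v.sT)
    omega
  -- all squares through `xr` contain `rs`
  push Not at hA
  obtain ⟨Z3, hZ3, hx3, hZ3c⟩ := h0.cls.edge_sq ((h0.uc c).1 hc).1 hxr
  have hcc2 : c = c2 := h0.eqc hc v.c2U (hZ3c (hA Z3 hZ3 hx3)) hrs2
  subst hcc2
  obtain ⟨Lf, hK, hs, ha, hx⟩ := v.hub2 hxr
  obtain ⟨pl, mi, h, hm⟩ := v.wa.fr (fun c' => c' = c) fun c' hc => hc ▸ v.k2
  have hF : ∀ c', c' = c → c' = c1 ∨ c' = c := fun c' hc => Or.inr hc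
  obtain ⟨pr', ps'⟩ := v.rsZ h hm hF (fun _ => rfl) fun _ => rfl
  have hxb : s(x, b) ∈ c.edges := hK.mem.2 (Or.inr ⟨Or.inr rfl, hx⟩)
  have hb := h.L2X v.hQ v.w1 v.c1U v.q1 (fr_am2 h.isq _ _) (h.out v.hQ v.w1 v.c1U v.q1 fun c' _ hf _ => by
    rw [show c' = c from hf]; exact v.n1) (v := x) (v' := y) (by simp [TFC.sq]) (h.cW' v.c2U hxb)
    (fun hc' => v.ne (h.eqc v.c1U v.c2U hc' hxb)) (h.freeF v.c2U rfl hxb v.n1)
  rcases v.abX h hF pr' ps' with h3 | h3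
  · obtain ⟨l, hl, hlx, hlD⟩ := h.parK v.c2U hK hx
    have hsl : s = l := by
      have h4 := hA _ hlD (by rw [Sym2.eq_swap]; simp [TFC.sq])
      rcases sq_vert h4 (v := s) (by simp) with h5 | h5 | h5 | h5
      · exact absurd h5 rs.symm
      · exact absurd h5 xs.symm
      · exact absurd h5 sb
      · exact h5
    subst hsl
    have h4 := h.leafK v.c2U hK (fun c' hc => hc) ha hx hs xa.symm sa.symm xs hlD
    rw [con_X h3.2 h3.1] at h4
    have h5 := con_neg_one (pl x) (mi x)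
    omega
  · exact hb h3

/-- **STEP 0** -/
theorem step0 : Step0 := fun _ _ _ _ _ _ _ _ _ _ _ _ _ _ _ _ _ _ _ _ _ _ _ v => ⟨v.xrP, v.ysP⟩

end

end Pool.Agent.PF4.XT
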