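import Pool.Agent.PF4.XH
import Pool.Agent.PF4.SolR
import Pool.Agent.PF4.SolRd
import Pool.Agent.PF4.CluF

/-!
2F({4}) is in P, given the theorem on two conflicting squares.
-/

set_option autoImplicit false

namespace Pool.Agent.PF4

open Finset Pool.Agent.TFC Pool.Agent.Lib.helper60

theorem rowsZ : SV.Rows :=
  SV.rows_of (fun _ _ _ hy hF _ hne hr hm => SVR.red_spec hy hF hne hr hm) SVR.pt_redS

/-- the solver -/
def solZ : Ins × List ℕ × List (ℕ × List Ed) × List Sq4 → Bool × List Ed := SV.slv rowsZ clusters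

theorem pt_solZ : PT solZ := SV.pt_slv rowsZ (pt_clusters PT.id)

theorem solZ_spec (x : Ins) (g : List ℕ) (W : List (ℕ × List Ed)) (v : ℕ) (D : List Sq4) (hx : InsWF x)
    (hd : Da x g W v) (hg : Ev x g) (hD : D.Nodup) (h1 : ∀ Q ∈ D, Q ∈ sqG x ∧ harm g Q = true)
    (h2 : ∀ Q ∈ D, ∀ R ∈ D, conf Q R = false) :
    ((solZ (x, g, W, D)).1 = true →
      MG x (solZ (x, g, W, D)).2 ∧ Cov x.1 g (degL (solZ (x, g, W, D)).2) ∧
      ∀ Q ∈ D, sqIn (solZ (x, g, W, D)).2 Q = false) ∧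
    ((solZ (x, g, W, D)).1 = false → ¬ ∃ L, VM x L ∧ Cov x.1 g (degL L)) :=
  SV.slv_spec rowsZ SV.clsFn_clusters x g W v D hx hd
    (fun u hu => by rcases hg u hu with h | h <;> omega) hD (fun Q hQ => (h1 Q hQ).1) h2

/-- **2F({4}) is in P, given the theorem on two conflicting squares** -/
theorem inP_of_Xf2 (hX : XF.XfStatement2) : InP TF4.TwoF4 := by
  obtain ⟨xf1, h1, h2, h3⟩ := XF.xf1_exists hX
  exact inP_of_SX2 ⟨solZ, xf1, pt_solZ, h1, solZ_spec, h2, h3⟩

/-- the same for the stronger hypothesis -/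
theorem inP_of_Xf (hX : XF.XfStatement) : InP TF4.TwoF4 := inP_of_Xf2 hX.two

end Pool.Agent.PF4
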